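import Pool.Agent.LT.Occ
import Pool.Agent.LT.PlaneDef

/-!
# MP_66e5c9_pr, full answer: basic definitions (helper71)

Everything is reduced to weighted sums over nearest neighbour chains (lists of sites).
-/

open MeasureTheory Filter Topology
open scoped NNReal ENNReal

namespace Pool.Agent.WSB71

open Pool.Agent.LT

/-- `l` is a nearest neighbour chain from `x` to `y` (it has `l.length - 1` steps). -/
def NN (x y : Site) (l : List Site) : Prop :=
  l.head? = some x ∧ l.getLast? = some y ∧ l.IsChain Adj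

/-- The weight of a site visited `n ≥ 1` times and required to have local time `≥ β`:
`∫_β^∞ s^{n-1}/(n-1)! e^{-(4-lam)s} ds`. -/
noncomputable def gw (β lam : ℝ) (n : ℕ) : ℝ≥0∞ :=
  ∫⁻ s in Set.Ici β, ENNReal.ofReal (s ^ (n - 1) / ((n - 1).factorial : ℝ)
    * Real.exp (-((4 - lam) * s)))

/-- The weight of `n` visits without requirement. -/
noncomputable def fw (lam : ℝ) (n : ℕ) : ℝ≥0∞ := ENNReal.ofReal ((4 - lam)⁻¹) ^ n

/-- The weight of a chain. -/
noncomputable def W (β lam : ℝ) (l : List Site) : ℝ≥0∞ := ∏ x ∈ l.toFinset, gw β lam (l.count x)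

open Classical in
/-- The weight of a chain with the requirement `local time ≥ β` only at the sites of `B`. -/
noncomputable def Wg (β lam : ℝ) (B : Set Site) (l : List Site) : ℝ≥0∞ :=
  ∏ x ∈ l.toFinset, if x ∈ B then gw β lam (l.count x) else fw lam (l.count x)

/-- Local time of the path `f` at `x` up to time `s`. -/
noncomputable def lt (s : ℝ≥0) (f : WP) (x : Site) : ℝ := occ s (fun w => if w = x then 1 else 0) f

/-- The values of the path at the times `i s / 2^N`, without consecutive repetitions. -/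
noncomputable def gchain (N : ℕ) (s : ℝ≥0) (f : WP) : List Site :=
  (List.ofFn (fun i : Fin (2 ^ N + 1) => f.1 ((i : ℕ) * (s / 2 ^ N)))).destutter (· ≠ ·)

/-- The Dirichlet form of a function `f` supported in `D` (`∑_{x∈D} (4 f(x)² - ∑_e f(x) f(x+e))`
equals `∑` over edges of `(f x - f y)²`). -/
noncomputable def dform (D : Finset Site) (f : Site → ℝ) : ℝ :=
  ∑ x ∈ D, (4 * f x ^ 2 - ∑ e ∈ units, f x * f (x + e))

/-- The principal Dirichlet eigenvalue of the finite set `D` (junk value `0` for `D = ∅`). -/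
noncomputable def lamD (D : Finset Site) : ℝ :=
  sInf {r | ∃ f : Site → ℝ, (∀ x, x ∉ D → f x = 0) ∧ ∑ x ∈ D, f x ^ 2 = 1 ∧ r = dform D f}

/-- The principal Dirichlet eigenvalue of `-Δ` on the open set `U` of the plane (junk value `0` for
`U = ∅`). -/
noncomputable def lam (U : Set Plane) : ℝ :=
  sInf {r | ∃ f : Plane → ℝ, ContDiff ℝ 1 f ∧ HasCompactSupport f ∧ tsupport f ⊆ U ∧
    ∫ x, f x ^ 2 = 1 ∧ r = ∫ x, ‖fderiv ℝ f x‖ ^ 2}

end Pool.Agent.WSB71
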