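import Pool.Agent.LT.Law
import Pool.Agent.LT.Occ
import Pool.Agent.LT.PlaneDef

/-!
# Realizable pairs `(v, c)`: definition

`v` a nonzero lattice vector, `c` the cost of one period.  A row of `k` periods lies along the
segment from `0` to `k v`, the inner side is the right hand side: `0 ≤ cr v x` where
`cr v x = x.1 v.2 - x.2 v.1` (`= |v|` times the distance to the line), `dt v x = ⟨v, x⟩`.

The row event: the path stays in the strip `|cr| ≤ b3`, `-b3 ≤ dt ≤ k |v|² + b3`, starts and ends in the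
end regions, and in the middle part (`b3 ≤ dt ≤ k |v|² - b3`) every site with `b1 ≤ cr ≤ b2`, and
every visited site with `cr ≤ b2`, has local time `≥ β`.
-/

open MeasureTheory Filter Topology
open scoped NNReal ENNReal

namespace Pool.Agent.WSB71

open Pool.Agent.LT

/-- Cross product: `|v|` times the signed distance of `x` to the line `ℝ v`, positive on the
right. -/
def cr (v x : Site) : ℤ := x.1 * v.2 - x.2 * v.1

/-- Scalar product. -/
def dt (v x : Site) : ℤ := v.1 * x.1 + v.2 * x.2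

/-- The end regions. -/
def EndReg (v : Site) (b3 : ℤ) (k : ℕ) (x : Site) : Prop :=
  |cr v x| ≤ b3 ∧ (|dt v x| ≤ b3 ∨ |dt v x - k * dt v v| ≤ b3)

/-- The row event for the path started at `x`, up to time `s`. -/
def rowEv (β : ℝ) (v : Site) (b1 b2 b3 : ℤ) (k : ℕ) (x y : Site) (s : ℝ≥0) : Set WP :=
  {f | (∀ u ≤ s, |cr v (x + f.1 u)| ≤ b3 ∧ -b3 ≤ dt v (x + f.1 u) ∧
        dt v (x + f.1 u) ≤ k * dt v v + b3) ∧
      x + f.1 s = y ∧
      ∀ z : Site, b3 ≤ dt v z → dt v z ≤ k * dt v v - b3 → cr v z ≤ b2 →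
        (b1 ≤ cr v z ∨ ∃ u ≤ s, x + f.1 u = z) →
          β ≤ occ s (fun w => if x + w = z then 1 else 0) f}

/-- `(v, c)` is realizable: rows of `k` periods cost at most `c` per period. -/
def Realizable (β : ℝ) (v : Site) (c : ℝ) : Prop :=
  v ≠ 0 ∧ ∃ b1 : ℤ, ∀ b2 : ℤ, b1 ≤ b2 → ∃ b3 : ℤ, ∃ C : ℝ, b2 ≤ b3 ∧ ∀ k : ℕ, 1 ≤ k →
    ∃ x y : Site, EndReg v b3 k x ∧ EndReg v b3 k y ∧ ∃ s : ℝ≥0, (s : ℝ) ≤ C * k ∧
      ∀ μ : Measure WP, IsLaw μ → Real.exp (-(c * k + C)) ≤ μ.real (rowEv β v b1 b2 b3 k x y s)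

/-- Admissible zonotopal functionals: finite lists `ρ` of vectors `u` with
`∑_u |⟨u, v⟩| ≤ c` for all realizable `(v, c)`. -/
def AdmZ (β : ℝ) (ρ : List Plane) : Prop :=
  ∀ v c, Realizable β v c → (ρ.map (fun u => |inner ℝ u (toPlane v)|)).sum ≤ c

/-- Width of `K` in direction `u` (not normalised). -/
noncomputable def width (K : Set Plane) (u : Plane) : ℝ :=
  sSup ((fun x => inner ℝ u x) '' K) - sInf ((fun x => inner ℝ u x) '' K)

/-- The perimeter functional of the boundary cost at `β`. -/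
noncomputable def PP (β : ℝ) (K : Set Plane) : ℝ :=
  sSup {r | ∃ ρ : List Plane, AdmZ β ρ ∧ r = 2 * (ρ.map (width K)).sum}

/-- The set of normals (the Wulff shape). -/
def WW (β : ℝ) : Set Plane := {n | ∀ v c, Realizable β v c → inner ℝ n (toPlane v) ≤ c}

/-- The surface tension. -/
noncomputable def tau (β : ℝ) (v : Plane) : ℝ := sSup ((fun n => inner ℝ n v) '' WW β)

/-- The zonogon with sides `± x i • v i`, centred at the origin. -/
def zonogon {m : ℕ} (v : Fin m → Site) (x : Fin m → ℝ) : Set Plane :=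
  {p | ∃ s : Fin m → ℝ, (∀ i, |s i| ≤ 1 / 2) ∧ p = ∑ i, (s i * x i) • toPlane (v i)}

end Pool.Agent.WSB71
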