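import Pool.Agent.WSB71.Fil

/-!
# AP1, step (2): the maximal inequality for averages over squares (helper78; proof by helper36)

`∑ (av D x (r x))² ≤ 64 ∑ D²` for all choices of radii `r x`.  Proof: `T T*` argument.  With
`K_r(x,z) = 1[sd x z ≤ r x] / (2 r x + 1)²` we have `∑_z K_r(x,z) K_r(y,z) ≤ 4 K_{2r}(x,y) + 4 K_{2r}(y,x)`,
so if the bilinear forms of all `K_r` are bounded by `c` then they are bounded by `√(8 c)`.
-/

namespace Pool.Agent.WSB71

open Pool.Agent.LT

/-- The square of radius `r` around `x`. -/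
noncomputable def bx (x : Site) (r : ℕ) : Finset Site :=
  Finset.Icc (x.1 - r) (x.1 + r) ×ˢ Finset.Icc (x.2 - r) (x.2 + r)

theorem mem_bx {x y : Site} {r : ℕ} : y ∈ bx x r ↔ sd x y ≤ r := by
  unfold bx sd
  rw [Finset.mem_product, Finset.mem_Icc, Finset.mem_Icc]
  omega

theorem card_bx (x : Site) (r : ℕ) : (bx x r).card = (2 * r + 1) ^ 2 := by
  unfold bx
  rw [Finset.card_product, Int.card_Icc, Int.card_Icc, pow_two]
  congr 1 <;> omega

theorem sd_comm (x y : Site) : sd x y = sd y x := by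
  unfold sd
  omega

theorem sd_tri (x y z : Site) : sd x z ≤ sd x y + sd y z := by
  unfold sd
  omega

/-- The average of `D` over a square. -/
noncomputable def av (D : Site → ℝ) (x : Site) (r : ℕ) : ℝ :=
  (∑ y ∈ bx x r, D y) / (2 * r + 1) ^ 2

open Classical in
/-- The kernel. -/
noncomputable def kr (r : Site → ℕ) (x z : Site) : ℝ :=
  if sd x z ≤ r x then 1 / (2 * (r x : ℝ) + 1) ^ 2 else 0

theorem kr_nonneg (r : Site → ℕ) (x z : Site) : 0 ≤ kr r x z := by
  unfold kr
  split_ifs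
  · positivity
  · exact le_rfl

theorem kr_le_one (r : Site → ℕ) (x z : Site) : kr r x z ≤ 1 := by
  unfold kr
  split_ifs
  · rw [div_le_one (by positivity)]
    have : (0 : ℝ) ≤ r x := Nat.cast_nonneg _
    nlinarith
  · exact zero_le_one

theorem kr_sum_le_one (r : Site → ℕ) (y : Site) (A : Finset Site) : ∑ z ∈ A, kr r y z ≤ 1 := by
  have h1 : ∑ z ∈ A, kr r y z ≤ ∑ z ∈ bx y (r y), kr r y z := by
    calc ∑ z ∈ A, kr r y z = ∑ z ∈ A.filter (fun z => sd y z ≤ r y), kr r y z := by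
          rw [Finset.sum_filter]
          apply Finset.sum_congr rfl
          intro z _
          split_ifs with h
          · rfl
          · unfold kr
            rw [if_neg h]
      _ ≤ ∑ z ∈ bx y (r y), kr r y z := by
          apply Finset.sum_le_sum_of_subset_of_nonneg
          · intro z hz
            rw [Finset.mem_filter] at hz
            exact mem_bx.2 hz.2
          · intro z _ _
            exact kr_nonneg _ _ _
  have h2 : ∑ z ∈ bx y (r y), kr r y z = 1 := by
    have : ∀ z ∈ bx y (r y), kr r y z = 1 / (2 * (r y : ℝ) + 1) ^ 2 := by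
      intro z hz
      unfold kr
      rw [if_pos (mem_bx.1 hz)]
    rw [Finset.sum_congr rfl this, Finset.sum_const, card_bx, nsmul_eq_mul]
    push_cast
    field_simp
  linarith

theorem kr_conv_aux (r : Site → ℕ) (A : Finset Site) {x y : Site} (h : r y ≤ r x) :
    ∑ z ∈ A, kr r x z * kr r y z ≤ 4 * kr (fun w => 2 * r w) x y := by
  classical
  by_cases hs : sd x y ≤ 2 * r x
  · have e1 : kr (fun w => 2 * r w) x y = 1 / (2 * ((2 * r x : ℕ) : ℝ) + 1) ^ 2 := by
      unfold kr
      rw [if_pos hs]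
    have h1 : ∀ z, kr r x z ≤ 1 / (2 * (r x : ℝ) + 1) ^ 2 := by
      intro z
      unfold kr
      split_ifs
      · exact le_rfl
      · positivity
    calc ∑ z ∈ A, kr r x z * kr r y z
        ≤ ∑ z ∈ A, 1 / (2 * (r x : ℝ) + 1) ^ 2 * kr r y z := by
          apply Finset.sum_le_sum
          intro z _
          exact mul_le_mul_of_nonneg_right (h1 z) (kr_nonneg _ _ _)
      _ = 1 / (2 * (r x : ℝ) + 1) ^ 2 * ∑ z ∈ A, kr r y z := by rw [Finset.mul_sum]
      _ ≤ 1 / (2 * (r x : ℝ) + 1) ^ 2 * 1 :=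
          mul_le_mul_of_nonneg_left (kr_sum_le_one _ _ _) (by positivity)
      _ ≤ 4 * kr (fun w => 2 * r w) x y := by
          rw [e1, mul_one, mul_one_div, div_le_div_iff₀ (by positivity) (by positivity)]
          push_cast
          have : (0 : ℝ) ≤ r x := Nat.cast_nonneg _
          nlinarith
  · have h0 : ∀ z ∈ A, kr r x z * kr r y z = 0 := by
      intro z _
      unfold kr
      by_cases h1 : sd x z ≤ r x
      · by_cases h2 : sd y z ≤ r y
        · exfalso
          apply hs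
          have := sd_tri x z y
          rw [sd_comm z y] at this
          omega
        · rw [if_neg h2, mul_zero]
      · rw [if_neg h1, zero_mul]
    rw [Finset.sum_eq_zero h0]
    have := kr_nonneg (fun w => 2 * r w) x y
    linarith

theorem kr_conv (r : Site → ℕ) (A : Finset Site) (x y : Site) :
    ∑ z ∈ A, kr r x z * kr r y z
      ≤ 4 * kr (fun w => 2 * r w) x y + 4 * kr (fun w => 2 * r w) y x := by
  have n1 := kr_nonneg (fun w => 2 * r w) x y
  have n2 := kr_nonneg (fun w => 2 * r w) y x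
  rcases le_total (r y) (r x) with h | h
  · have := kr_conv_aux r A h
    linarith
  · have := kr_conv_aux r A h
    have e : ∑ z ∈ A, kr r x z * kr r y z = ∑ z ∈ A, kr r y z * kr r x z :=
      Finset.sum_congr rfl (fun z _ => mul_comm _ _)
    linarith

/-- `l²` norm. -/
noncomputable def n2 (A : Finset Site) (g : Site → ℝ) : ℝ := √(∑ x ∈ A, g x ^ 2)

theorem n2_nonneg (A : Finset Site) (g : Site → ℝ) : 0 ≤ n2 A g := Real.sqrt_nonneg _

theorem n2_sq (A : Finset Site) (g : Site → ℝ) : n2 A g ^ 2 = ∑ x ∈ A, g x ^ 2 :=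
  Real.sq_sqrt (Finset.sum_nonneg (fun _ _ => sq_nonneg _))

theorem cs (A : Finset Site) (g h : Site → ℝ) : ∑ x ∈ A, g x * h x ≤ n2 A g * n2 A h := by
  have h1 := Finset.sum_mul_sq_le_sq_mul_sq A g h
  have h2 : (∑ x ∈ A, g x * h x) ^ 2 ≤ (n2 A g * n2 A h) ^ 2 := by
    rw [mul_pow, n2_sq, n2_sq]
    exact h1
  exact le_trans (le_abs_self _) (abs_le_of_sq_le_sq h2 (mul_nonneg (n2_nonneg _ _) (n2_nonneg _ _)))

/-- The bilinear form. -/
noncomputable def bf (A : Finset Site) (r : Site → ℕ) (g h : Site → ℝ) : ℝ :=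
  ∑ x ∈ A, ∑ z ∈ A, g x * kr r x z * h z

/-- The bilinear forms are bounded by `c`. -/
def Adm (A : Finset Site) (c : ℝ) : Prop :=
  0 ≤ c ∧ ∀ r : Site → ℕ, ∀ g h : Site → ℝ, (∀ x, 0 ≤ g x) → (∀ x, 0 ≤ h x) →
    bf A r g h ≤ c * (n2 A g * n2 A h)

theorem adm_card (A : Finset Site) : Adm A A.card := by
  refine ⟨Nat.cast_nonneg _, fun r g h hg hh => ?_⟩
  have h1 : bf A r g h ≤ (∑ x ∈ A, g x) * ∑ z ∈ A, h z := by
    rw [Finset.sum_mul_sum]
    apply Finset.sum_le_sum
    intro x _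
    apply Finset.sum_le_sum
    intro z _
    have := mul_le_mul_of_nonneg_left (kr_le_one r x z) (mul_nonneg (hg x) (hh z))
    nlinarith
  have h2 : ∀ u : Site → ℝ, ∑ x ∈ A, u x ≤ √(A.card : ℝ) * n2 A u := by
    intro u
    have := cs A (fun _ => 1) u
    simp only [one_mul] at this
    have e : n2 A (fun _ => 1) = √(A.card : ℝ) := by
      unfold n2
      simp
    rwa [e] at this
  have h3 : (∑ x ∈ A, g x) * ∑ z ∈ A, h z ≤ (√(A.card : ℝ) * n2 A g) * (√(A.card : ℝ) * n2 A h) :=
    mul_le_mul (h2 g) (h2 h) (Finset.sum_nonneg (fun x _ => hh x))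
      (mul_nonneg (Real.sqrt_nonneg _) (n2_nonneg _ _))
  have h4 : (√(A.card : ℝ) * n2 A g) * (√(A.card : ℝ) * n2 A h)
      = (√(A.card : ℝ) * √(A.card : ℝ)) * (n2 A g * n2 A h) := by ring
  rw [h4, Real.mul_self_sqrt (Nat.cast_nonneg _)] at h3
  linarith

theorem adm_step {A : Finset Site} {c : ℝ} (hc : Adm A c) : Adm A (√(8 * c)) := by
  refine ⟨Real.sqrt_nonneg _, fun r g h hg hh => ?_⟩
  -- `u z = ∑ x g x K x z`
  have e1 : bf A r g h = ∑ z ∈ A, (∑ x ∈ A, g x * kr r x z) * h z := by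
    unfold bf
    rw [Finset.sum_comm]
    apply Finset.sum_congr rfl
    intro z _
    rw [Finset.sum_mul]
  have h1 : bf A r g h ≤ n2 A (fun z => ∑ x ∈ A, g x * kr r x z) * n2 A h := by
    rw [e1]
    exact cs A (fun z => ∑ x ∈ A, g x * kr r x z) h
  have h2 : ∑ z ∈ A, (∑ x ∈ A, g x * kr r x z) ^ 2 ≤ 8 * c * (n2 A g) ^ 2 := by
    have e2 : ∑ z ∈ A, (∑ x ∈ A, g x * kr r x z) ^ 2
        = ∑ x ∈ A, ∑ y ∈ A, g x * g y * ∑ z ∈ A, kr r x z * kr r y z := by
      calc ∑ z ∈ A, (∑ x ∈ A, g x * kr r x z) ^ 2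
          = ∑ z ∈ A, ∑ x ∈ A, ∑ y ∈ A, g x * g y * (kr r x z * kr r y z) := by
            apply Finset.sum_congr rfl
            intro z _
            rw [pow_two, Finset.sum_mul_sum]
            apply Finset.sum_congr rfl
            intro x _
            apply Finset.sum_congr rfl
            intro y _
            ring
        _ = ∑ x ∈ A, ∑ z ∈ A, ∑ y ∈ A, g x * g y * (kr r x z * kr r y z) := Finset.sum_comm
        _ = ∑ x ∈ A, ∑ y ∈ A, g x * g y * ∑ z ∈ A, kr r x z * kr r y z := by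
            apply Finset.sum_congr rfl
            intro x _
            rw [Finset.sum_comm]
            apply Finset.sum_congr rfl
            intro y _
            rw [Finset.mul_sum]
    rw [e2]
    have h3 : ∑ x ∈ A, ∑ y ∈ A, g x * g y * ∑ z ∈ A, kr r x z * kr r y z
        ≤ ∑ x ∈ A, ∑ y ∈ A, (4 * (g x * kr (fun w => 2 * r w) x y * g y)
          + 4 * (g y * kr (fun w => 2 * r w) y x * g x)) := by
      apply Finset.sum_le_sum
      intro x _
      apply Finset.sum_le_sum
      intro y _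
      have := mul_le_mul_of_nonneg_left (kr_conv r A x y) (mul_nonneg (hg x) (hg y))
      nlinarith
    have h4 : ∑ x ∈ A, ∑ y ∈ A, (4 * (g x * kr (fun w => 2 * r w) x y * g y)
          + 4 * (g y * kr (fun w => 2 * r w) y x * g x)) = 8 * bf A (fun w => 2 * r w) g g := by
      have a1 : ∑ x ∈ A, ∑ y ∈ A, (g y * kr (fun w => 2 * r w) y x * g x)
          = bf A (fun w => 2 * r w) g g := by
        rw [Finset.sum_comm]
        rfl
      have a2 : ∑ x ∈ A, ∑ y ∈ A, (g x * kr (fun w => 2 * r w) x y * g y)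
          = bf A (fun w => 2 * r w) g g := rfl
      simp only [Finset.sum_add_distrib, ← Finset.mul_sum]
      rw [a1, a2]
      ring
    have h5 := hc.2 (fun w => 2 * r w) g g hg hg
    have h6 : c * (n2 A g * n2 A g) = c * n2 A g ^ 2 := by ring
    rw [h6] at h5
    linarith
  have h7 : n2 A (fun z => ∑ x ∈ A, g x * kr r x z) ≤ √(8 * c) * n2 A g := by
    unfold n2
    rw [← n2_sq] at h2
    rw [← n2_sq]
    have hc0 := hc.1
    apply Real.sqrt_le_iff.2
    refine ⟨mul_nonneg (Real.sqrt_nonneg _) (Real.sqrt_nonneg _), ?_⟩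
    have e5 : (√(8 * c) * √(∑ x ∈ A, g x ^ 2)) ^ 2 = 8 * c * n2 A g ^ 2 := by
      rw [mul_pow, Real.sq_sqrt (by positivity)]
      rfl
    rw [e5]
    exact h2
  calc bf A r g h ≤ n2 A (fun z => ∑ x ∈ A, g x * kr r x z) * n2 A h := h1
    _ ≤ (√(8 * c) * n2 A g) * n2 A h := mul_le_mul_of_nonneg_right h7 (n2_nonneg _ _)
    _ = √(8 * c) * (n2 A g * n2 A h) := by ring

theorem adm_eight (A : Finset Site) : Adm A 8 := by
  set S : Set ℝ := {c | Adm A c} with hS
  have hne : S.Nonempty := ⟨_, adm_card A⟩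
  have hbd : BddBelow S := ⟨0, fun c hc => hc.1⟩
  have hadm : Adm A (sInf S) := by
    refine ⟨le_csInf hne (fun c hc => hc.1), fun r g h hg hh => ?_⟩
    rcases (mul_nonneg (n2_nonneg A g) (n2_nonneg A h)).eq_or_lt with h0 | h0
    · have := (adm_card A).2 r g h hg hh
      rw [← h0, mul_zero] at this
      rw [← h0, mul_zero]
      exact this
    · rw [← div_le_iff₀ h0]
      apply le_csInf hne
      intro c hc
      rw [div_le_iff₀ h0]
      exact hc.2 r g h hg hh
  have h0 := hadm.1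
  have h1 : sInf S ≤ √(8 * sInf S) := csInf_le hbd (adm_step hadm)
  have h2 : sInf S ≤ 8 := by
    by_contra hlt
    push Not at hlt
    have h3 : sInf S ^ 2 ≤ 8 * sInf S := by
      have := Real.sq_sqrt (show 0 ≤ 8 * sInf S by positivity)
      nlinarith [Real.sqrt_nonneg (8 * sInf S)]
    nlinarith
  refine ⟨by norm_num, fun r g h hg hh => (hadm.2 r g h hg hh).trans ?_⟩
  exact mul_le_mul_of_nonneg_right h2 (mul_nonneg (n2_nonneg _ _) (n2_nonneg _ _))

theorem av_nonneg {D : Site → ℝ} (h0 : ∀ y, 0 ≤ D y) (x : Site) (r : ℕ) : 0 ≤ av D x r :=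
  div_nonneg (Finset.sum_nonneg (fun y _ => h0 y)) (by positivity)

theorem av_eq {A : Finset Site} {D : Site → ℝ} (hD : ∀ y, y ∉ A → D y = 0) (r : Site → ℕ)
    (x : Site) : av D x (r x) = ∑ z ∈ A, kr r x z * D z := by
  classical
  unfold av
  rw [div_eq_mul_one_div, mul_comm, Finset.mul_sum]
  calc ∑ z ∈ bx x (r x), 1 / (2 * (r x : ℝ) + 1) ^ 2 * D z
      = ∑ z ∈ bx x (r x), kr r x z * D z := by
        apply Finset.sum_congr rfl
        intro z hz
        unfold kr
        rw [if_pos (mem_bx.1 hz)]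
    _ = ∑ z ∈ bx x (r x) ∪ A, kr r x z * D z := by
        apply Finset.sum_subset Finset.subset_union_left
        intro z _ hz
        unfold kr
        rw [if_neg (fun h => hz (mem_bx.2 h)), zero_mul]
    _ = ∑ z ∈ A, kr r x z * D z := by
        symm
        apply Finset.sum_subset Finset.subset_union_right
        intro z _ hz
        rw [hD z hz, mul_zero]

theorem max_bound_self (A : Finset Site) {D : Site → ℝ} (h0 : ∀ y, 0 ≤ D y)
    (hD : ∀ y, y ∉ A → D y = 0) (r : Site → ℕ) :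
    ∑ x ∈ A, av D x (r x) ^ 2 ≤ 64 * ∑ x ∈ A, D x ^ 2 := by
  have h1 : ∑ x ∈ A, av D x (r x) ^ 2 = bf A r (fun x => av D x (r x)) D := by
    unfold bf
    apply Finset.sum_congr rfl
    intro x _
    rw [pow_two]
    nth_rewrite 2 [av_eq hD r x]
    rw [Finset.mul_sum]
    apply Finset.sum_congr rfl
    intro z _
    ring
  have h2 := (adm_eight A).2 r (fun x => av D x (r x)) D (fun x => av_nonneg h0 _ _) h0
  rw [← h1, ← n2_sq A (fun x => av D x (r x))] at h2
  rw [← n2_sq A (fun x => av D x (r x)), ← n2_sq A D]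
  set a := n2 A (fun x => av D x (r x)) with ha
  set b := n2 A D with hb
  have ha0 : 0 ≤ a := n2_nonneg _ _
  have hb0 : 0 ≤ b := n2_nonneg _ _
  have h3 : a ≤ 8 * b := by
    by_contra hlt
    push Not at hlt
    nlinarith
  nlinarith

/-- The maximal inequality. -/
theorem max_bound (G A : Finset Site) (D : Site → ℝ) (h0 : ∀ y, 0 ≤ D y)
    (hD : ∀ y, y ∉ A → D y = 0) (r : Site → ℕ) :
    ∑ x ∈ G, av D x (r x) ^ 2 ≤ 64 * ∑ x ∈ A, D x ^ 2 := by
  classical
  have h1 := max_bound_self (A ∪ G) (D := D) h0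
    (fun y hy => hD y (fun h => hy (Finset.mem_union_left _ h))) r
  have h2 : ∑ x ∈ G, av D x (r x) ^ 2 ≤ ∑ x ∈ A ∪ G, av D x (r x) ^ 2 :=
    Finset.sum_le_sum_of_subset_of_nonneg Finset.subset_union_right (fun _ _ _ => sq_nonneg _)
  have h3 : ∑ x ∈ A ∪ G, D x ^ 2 = ∑ x ∈ A, D x ^ 2 := by
    symm
    apply Finset.sum_subset Finset.subset_union_left
    intro x _ hx
    rw [hD x hx]
    norm_num
  rw [h3] at h1
  exact h2.trans h1

end Pool.Agent.WSB71
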