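import Pool.Agent.WSB71.Defs
import Pool.Agent.WSB71.HardyMax

/-!
# AP1: strong Hardy inequality in sets with connected complement (helper57; proof by helper36)

`∑ f²/d² ≤ C ∑ |∂f|²` for `f` supported in a finite set `G` with connected complement, `d = dep G`.

Proof. Put `gd f y = ∑_e |f(y+e) - f y|`.
(1) every square sphere `{sd x y = ρ}` with `ρ ≥ d x` contains a complement point, so `|f|` is at
most `3 s_ρ` on its right side, `s_ρ` the sum of `gd f` over the sphere.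
(2) `F_j` = average of `f` over the right side of the square of radius `j`, `F_0 = f x`;
`|F_{j+1} - F_j| ≤ s_j / (2j+1) + 2 s_{j+1} / (2j+3)`; Abel summation.
(3) average over `ρ ∈ [d, 2d)`: `|f x| ≤ 72 d M` with `M` the largest average of `gd f` over a
square of radius `≤ 2d`.
(4) the maximal inequality of `HardyMax.lean` and `∑ (gd f)² ≤ 8 dform G f`.
-/

open MeasureTheory Filter Topology
open scoped NNReal ENNReal

namespace Pool.Agent.WSB71

open Pool.Agent.LT

namespace Hardy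

/-- The total variation at a site. -/
noncomputable def gd (f : Site → ℝ) (y : Site) : ℝ := ∑ e ∈ units, |f (y + e) - f y|

theorem gd_nonneg (f : Site → ℝ) (y : Site) : 0 ≤ gd f y :=
  Finset.sum_nonneg (fun _ _ => abs_nonneg _)

theorem step_le (f : Site → ℝ) (y : Site) {e : Site} (he : e ∈ units) :
    |f (y + e) - f y| ≤ gd f y :=
  Finset.single_le_sum (f := fun e => |f (y + e) - f y|) (fun _ _ => abs_nonneg _) he

/-- The sphere. -/
noncomputable def sp (x : Site) (j : ℕ) : Finset Site := (bx x j).filter (fun y => sd x y = j)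

theorem mem_sp {x y : Site} {j : ℕ} : y ∈ sp x j ↔ sd x y = j := by
  unfold sp
  rw [Finset.mem_filter, mem_bx]
  omega

theorem sum_bx_succ (D : Site → ℝ) (x : Site) (j : ℕ) :
    ∑ y ∈ bx x (j + 1), D y = ∑ y ∈ bx x j, D y + ∑ y ∈ sp x (j + 1), D y := by
  classical
  rw [← Finset.sum_union]
  · apply Finset.sum_congr _ (fun _ _ => rfl)
    ext y
    rw [Finset.mem_union, mem_bx, mem_bx, mem_sp]
    omega
  · rw [Finset.disjoint_left]
    intro y hy hy'
    rw [mem_bx] at hy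
    rw [mem_sp] at hy'
    omega

theorem sum_bx_zero (D : Site → ℝ) (x : Site) :
    ∑ y ∈ bx x 0, D y = ∑ y ∈ sp x 0, D y := by
  apply Finset.sum_congr _ (fun _ _ => rfl)
  ext y
  rw [mem_bx, mem_sp]
  omega

theorem var_le (φ : ℤ → ℝ) (a b lo hi : ℤ) (h1 : lo ≤ a) (h2 : a ≤ b) (h3 : b ≤ hi) :
    |φ b - φ a| ≤ ∑ i ∈ Finset.Ico lo hi, |φ (i + 1) - φ i| := by
  have key : |φ b - φ a| ≤ ∑ i ∈ Finset.Ico a b, |φ (i + 1) - φ i| := by
    clear h3
    induction b, h2 using Int.leInduction with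
    | base => simp
    | succ b hb ih =>
      have e : Finset.Ico a (b + 1) = insert b (Finset.Ico a b) := by
        ext i
        simp only [Finset.mem_insert, Finset.mem_Ico]
        omega
      rw [e, Finset.sum_insert (by simp)]
      calc |φ (b + 1) - φ a| = |(φ (b + 1) - φ b) + (φ b - φ a)| := by ring_nf
        _ ≤ |φ (b + 1) - φ b| + |φ b - φ a| := abs_add_le _ _
        _ ≤ _ := by linarith
  refine key.trans (Finset.sum_le_sum_of_subset_of_nonneg ?_ (fun _ _ _ => abs_nonneg _))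
  exact Finset.Ico_subset_Ico h1 h3

theorem side_sum (D : Site → ℝ) (h0 : ∀ y, 0 ≤ D y) (x : Site) (j : ℕ) (σ : ℤ → Site)
    (hi : Function.Injective σ) (hm : ∀ i, -(j : ℤ) ≤ i → i ≤ j → σ i ∈ sp x j) :
    ∑ i ∈ Finset.Icc (-(j : ℤ)) j, D (σ i) ≤ ∑ y ∈ sp x j, D y := by
  classical
  rw [← Finset.sum_image (f := D) (s := Finset.Icc (-(j : ℤ)) j) (g := σ)
    (fun a _ b _ h => hi h)]
  apply Finset.sum_le_sum_of_subset_of_nonneg _ (fun _ _ _ => h0 _)
  intro y hy
  rw [Finset.mem_image] at hy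
  obtain ⟨i, hi', rfl⟩ := hy
  rw [Finset.mem_Icc] at hi'
  exact hm i hi'.1 hi'.2

theorem side_osc (f : Site → ℝ) (x : Site) (j : ℕ) (σ : ℤ → Site) {e : Site} (he : e ∈ units)
    (hs : ∀ i, σ (i + 1) = σ i + e) (hi : Function.Injective σ)
    (hm : ∀ i, -(j : ℤ) ≤ i → i ≤ j → σ i ∈ sp x j)
    {a b : ℤ} (ha : -(j : ℤ) ≤ a) (ha' : a ≤ j) (hb : -(j : ℤ) ≤ b) (hb' : b ≤ j) :
    |f (σ a) - f (σ b)| ≤ ∑ y ∈ sp x j, gd f y := by
  have key : ∀ a b : ℤ, -(j : ℤ) ≤ a → a ≤ b → b ≤ j →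
      |f (σ b) - f (σ a)| ≤ ∑ y ∈ sp x j, gd f y := by
    intro a b h1 h2 h3
    calc |f (σ b) - f (σ a)| ≤ ∑ i ∈ Finset.Ico (-(j : ℤ)) j, |f (σ (i + 1)) - f (σ i)| :=
          var_le (fun i => f (σ i)) a b _ _ h1 h2 h3
      _ ≤ ∑ i ∈ Finset.Ico (-(j : ℤ)) j, gd f (σ i) := by
          apply Finset.sum_le_sum
          intro i _
          rw [hs]
          exact step_le f _ he
      _ ≤ ∑ i ∈ Finset.Icc (-(j : ℤ)) j, gd f (σ i) :=
          Finset.sum_le_sum_of_subset_of_nonneg Finset.Ico_subset_Icc_self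
            (fun _ _ _ => gd_nonneg _ _)
      _ ≤ _ := side_sum _ (gd_nonneg f) x j σ hi hm
  rcases le_total a b with h | h
  · rw [abs_sub_comm]
    exact key a b ha h hb'
  · exact key b a hb h ha'

/-- Right side. -/
theorem osc_right (f : Site → ℝ) (x : Site) (j : ℕ) {a b : ℤ} (ha : -(j : ℤ) ≤ a) (ha' : a ≤ j)
    (hb : -(j : ℤ) ≤ b) (hb' : b ≤ j) :
    |f (x + ((j : ℤ), a)) - f (x + ((j : ℤ), b))| ≤ ∑ y ∈ sp x j, gd f y := by
  apply side_osc f x j (fun i => x + ((j : ℤ), i)) (e := (0, 1)) (by simp [units])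
    (by intro i; simp [add_assoc]) _ _ ha ha' hb hb'
  · intro i i' h
    simpa using h
  · intro i h1 h2
    rw [mem_sp]
    unfold sd
    simp only [Prod.fst_add, Prod.snd_add]
    omega

theorem osc_left (f : Site → ℝ) (x : Site) (j : ℕ) {a b : ℤ} (ha : -(j : ℤ) ≤ a) (ha' : a ≤ j)
    (hb : -(j : ℤ) ≤ b) (hb' : b ≤ j) :
    |f (x + (-(j : ℤ), a)) - f (x + (-(j : ℤ), b))| ≤ ∑ y ∈ sp x j, gd f y := by
  apply side_osc f x j (fun i => x + (-(j : ℤ), i)) (e := (0, 1)) (by simp [units])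
    (by intro i; simp [add_assoc]) _ _ ha ha' hb hb'
  · intro i i' h
    simpa using h
  · intro i h1 h2
    rw [mem_sp]
    unfold sd
    simp only [Prod.fst_add, Prod.snd_add]
    omega

theorem osc_top (f : Site → ℝ) (x : Site) (j : ℕ) {a b : ℤ} (ha : -(j : ℤ) ≤ a) (ha' : a ≤ j)
    (hb : -(j : ℤ) ≤ b) (hb' : b ≤ j) :
    |f (x + (a, (j : ℤ))) - f (x + (b, (j : ℤ)))| ≤ ∑ y ∈ sp x j, gd f y := by
  apply side_osc f x j (fun i => x + (i, (j : ℤ))) (e := (1, 0)) (by simp [units])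
    (by intro i; simp [add_assoc]) _ _ ha ha' hb hb'
  · intro i i' h
    simpa using h
  · intro i h1 h2
    rw [mem_sp]
    unfold sd
    simp only [Prod.fst_add, Prod.snd_add]
    omega

theorem osc_bot (f : Site → ℝ) (x : Site) (j : ℕ) {a b : ℤ} (ha : -(j : ℤ) ≤ a) (ha' : a ≤ j)
    (hb : -(j : ℤ) ≤ b) (hb' : b ≤ j) :
    |f (x + (a, -(j : ℤ))) - f (x + (b, -(j : ℤ)))| ≤ ∑ y ∈ sp x j, gd f y := by
  apply side_osc f x j (fun i => x + (i, -(j : ℤ))) (e := (1, 0)) (by simp [units])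
    (by intro i; simp [add_assoc]) _ _ ha ha' hb hb'
  · intro i i' h
    simpa using h
  · intro i h1 h2
    rw [mem_sp]
    unfold sd
    simp only [Prod.fst_add, Prod.snd_add]
    omega

/-- If `f` has a zero on the sphere then it is small on the right side. -/
theorem right_small (f : Site → ℝ) (x y : Site) (j : ℕ) (hy : sd x y = j) (h0 : f y = 0)
    {b : ℤ} (hb : -(j : ℤ) ≤ b) (hb' : b ≤ j) :
    |f (x + ((j : ℤ), b))| ≤ 3 * ∑ y ∈ sp x j, gd f y := by
  have hs : 0 ≤ ∑ y ∈ sp x j, gd f y := Finset.sum_nonneg (fun _ _ => gd_nonneg _ _)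
  set S := ∑ y ∈ sp x j, gd f y with hS
  obtain ⟨u, v⟩ : ∃ u v : ℤ, y = x + (u, v) :=
    ⟨y.1 - x.1, y.2 - x.2, by ext <;> simp⟩
  obtain ⟨v, rfl⟩ := v
  have hd : sd x (x + (u, v)) = max u.natAbs v.natAbs := by
    unfold sd
    simp only [Prod.fst_add, Prod.snd_add]
    omega
  rw [hd] at hy
  -- the top right and the bottom right corners
  have hcase : u = j ∨ v = j ∨ v = -j ∨ u = -j := by omega
  have hu1 : -(j : ℤ) ≤ u := by omega
  have hu2 : u ≤ j := by omega
  have hv1 : -(j : ℤ) ≤ v := by omega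
  have hv2 : v ≤ j := by omega
  have hj : -(j : ℤ) ≤ j := by omega
  rcases hcase with h | h | h | h
  · subst h
    have h1 := osc_right f x j hb hb' hv1 hv2
    rw [h0, sub_zero] at h1
    linarith
  · subst h
    have h1 := osc_right f x j hb hb' hj le_rfl
    have h2 := osc_top f x j hj le_rfl hu1 hu2
    rw [h0, sub_zero] at h2
    have h3 := abs_add_le (f (x + ((j : ℤ), b)) - f (x + ((j : ℤ), (j : ℤ)))) (f (x + ((j : ℤ), (j : ℤ))))
    rw [sub_add_cancel] at h3
    linarith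
  · subst h
    have h1 := osc_right f x j hb hb' (le_refl (-(j : ℤ))) hj
    have h2 := osc_bot f x j hj le_rfl hu1 hu2
    rw [h0, sub_zero] at h2
    have h3 := abs_add_le (f (x + ((j : ℤ), b)) - f (x + ((j : ℤ), -(j : ℤ)))) (f (x + ((j : ℤ), -(j : ℤ))))
    rw [sub_add_cancel] at h3
    linarith
  · subst h
    have h1 := osc_right f x j hb hb' hj le_rfl
    have h2 := osc_top f x j hj le_rfl (le_refl (-(j : ℤ))) hj
    have h4 := osc_left f x j hj le_rfl hv1 hv2
    rw [h0, sub_zero] at h4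
    have h3 := abs_add_le (f (x + ((j : ℤ), b)) - f (x + ((j : ℤ), (j : ℤ)))) (f (x + ((j : ℤ), (j : ℤ))))
    rw [sub_add_cancel] at h3
    have h5 := abs_add_le (f (x + ((j : ℤ), (j : ℤ))) - f (x + (-(j : ℤ), (j : ℤ)))) (f (x + (-(j : ℤ), (j : ℤ))))
    rw [sub_add_cancel] at h5
    linarith

/-- Average over the right side. -/
noncomputable def F (f : Site → ℝ) (x : Site) (j : ℕ) : ℝ :=
  (∑ i ∈ Finset.Icc (-(j : ℤ)) j, f (x + ((j : ℤ), i))) / (2 * j + 1)

theorem F_zero (f : Site → ℝ) (x : Site) : F f x 0 = f x := by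
  unfold F
  have e : x + ((0 : ℤ), (0 : ℤ)) = x := add_zero x
  simp [e]

theorem F_step (f : Site → ℝ) (x : Site) (j : ℕ) :
    |F f x (j + 1) - F f x j| ≤ (∑ y ∈ sp x j, gd f y) / (2 * j + 1)
      + 2 * ((∑ y ∈ sp x (j + 1), gd f y) / (2 * (j + 1 : ℕ) + 1)) := by
  classical
  set s := ∑ y ∈ sp x j, gd f y with hs
  set s' := ∑ y ∈ sp x (j + 1), gd f y with hs'
  set P : ℝ := ∑ i ∈ Finset.Icc (-(j : ℤ)) j, f (x + ((j : ℤ), i)) with hP
  set Q : ℝ := ∑ i ∈ Finset.Icc (-(j : ℤ)) j, f (x + (((j + 1 : ℕ) : ℤ), i)) with hQ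
  set m : ℝ := 2 * (j : ℝ) + 1 with hm
  have hm0 : 0 < m := by positivity
  have h1 : |Q - P| ≤ s := by
    rw [hQ, hP, ← Finset.sum_sub_distrib]
    refine (Finset.abs_sum_le_sum_abs _ _).trans ?_
    calc ∑ i ∈ Finset.Icc (-(j : ℤ)) j, |f (x + (((j + 1 : ℕ) : ℤ), i)) - f (x + ((j : ℤ), i))|
        ≤ ∑ i ∈ Finset.Icc (-(j : ℤ)) j, gd f (x + ((j : ℤ), i)) := by
          apply Finset.sum_le_sum
          intro i _
          have e : x + (((j + 1 : ℕ) : ℤ), i) = x + ((j : ℤ), i) + (1, 0) := by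
            ext <;> simp [add_assoc]
          rw [e]
          exact step_le f _ (e := (1, 0)) (by simp [units])
      _ ≤ s := by
          apply side_sum _ (gd_nonneg f) x j (fun i => x + ((j : ℤ), i))
          · intro i i' h
            simpa using h
          · intro i h1 h2
            rw [mem_sp]
            unfold sd
            simp only [Prod.fst_add, Prod.snd_add]
            omega
  set A := f (x + (((j + 1 : ℕ) : ℤ), ((j + 1 : ℕ) : ℤ))) with hA
  set B := f (x + (((j + 1 : ℕ) : ℤ), -((j + 1 : ℕ) : ℤ))) with hB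
  have h2 : ∑ i ∈ Finset.Icc (-((j + 1 : ℕ) : ℤ)) (j + 1 : ℕ), f (x + (((j + 1 : ℕ) : ℤ), i))
      = Q + A + B := by
    have e : Finset.Icc (-((j + 1 : ℕ) : ℤ)) ((j + 1 : ℕ) : ℤ)
        = insert (-((j + 1 : ℕ) : ℤ)) (insert ((j + 1 : ℕ) : ℤ) (Finset.Icc (-(j : ℤ)) j)) := by
      ext i
      simp only [Finset.mem_insert, Finset.mem_Icc]
      omega
    rw [e, Finset.sum_insert, Finset.sum_insert]
    · ring
    · simp
    · simp only [Finset.mem_insert, Finset.mem_Icc]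
      omega
  have hcard : ((Finset.Icc (-(j : ℤ)) j).card : ℝ) = m := by
    rw [Int.card_Icc]
    have : ((j : ℤ) + 1 - -(j : ℤ)).toNat = 2 * j + 1 := by omega
    rw [this, hm]
    push_cast
    ring
  have hosc : ∀ c : ℤ, -((j + 1 : ℕ) : ℤ) ≤ c → c ≤ ((j + 1 : ℕ) : ℤ) →
      |m * f (x + (((j + 1 : ℕ) : ℤ), c)) - Q| ≤ m * s' := by
    intro c hc hc'
    have e : m * f (x + (((j + 1 : ℕ) : ℤ), c)) - Q
        = ∑ i ∈ Finset.Icc (-(j : ℤ)) j,
          (f (x + (((j + 1 : ℕ) : ℤ), c)) - f (x + (((j + 1 : ℕ) : ℤ), i))) := by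
      rw [Finset.sum_sub_distrib, Finset.sum_const, nsmul_eq_mul, hcard]
    rw [e]
    refine (Finset.abs_sum_le_sum_abs _ _).trans ?_
    calc ∑ i ∈ Finset.Icc (-(j : ℤ)) j,
          |f (x + (((j + 1 : ℕ) : ℤ), c)) - f (x + (((j + 1 : ℕ) : ℤ), i))|
        ≤ ∑ i ∈ Finset.Icc (-(j : ℤ)) j, s' := by
          apply Finset.sum_le_sum
          intro i hi
          rw [Finset.mem_Icc] at hi
          exact osc_right f x (j + 1) (a := c) (b := i) hc hc' (by push_cast; omega) (by push_cast; omega)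
      _ = m * s' := by rw [Finset.sum_const, nsmul_eq_mul, hcard]
  have h3 := hosc ((j + 1 : ℕ) : ℤ) (by omega) le_rfl
  have h4 := hosc (-((j + 1 : ℕ) : ℤ)) le_rfl (by omega)
  rw [← hA] at h3
  rw [← hB] at h4
  unfold F
  rw [h2]
  have e1 : (Q + A + B) / (2 * ((j + 1 : ℕ) : ℝ) + 1) - P / m
      = (Q - P) / m + ((m * A - Q) + (m * B - Q)) / (m * (2 * ((j + 1 : ℕ) : ℝ) + 1)) := by
    have : (2 * ((j + 1 : ℕ) : ℝ) + 1) = m + 2 := by
      rw [hm]; push_cast; ring
    rw [this]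
    field_simp
    ring
  rw [e1]
  refine (abs_add_le _ _).trans ?_
  have hM0 : 0 < m * (2 * ((j + 1 : ℕ) : ℝ) + 1) := by positivity
  have h5 : |(Q - P) / m| ≤ s / m := by
    rw [abs_div, abs_of_pos hm0]
    exact div_le_div_of_nonneg_right h1 hm0.le
  have h6 : |((m * A - Q) + (m * B - Q)) / (m * (2 * ((j + 1 : ℕ) : ℝ) + 1))|
      ≤ 2 * (s' / (2 * ((j + 1 : ℕ) : ℝ) + 1)) := by
    rw [abs_div, abs_of_pos hM0, div_le_iff₀ hM0]
    refine (abs_add_le _ _).trans ?_
    have e2 : 2 * (s' / (2 * ((j + 1 : ℕ) : ℝ) + 1)) * (m * (2 * ((j + 1 : ℕ) : ℝ) + 1))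
        = m * s' + m * s' := by
      field_simp
      ring
    rw [e2]
    linarith
  linarith

/-- Telescoping. -/
theorem F_tele (f : Site → ℝ) (x : Site) (ρ : ℕ) :
    |F f x ρ - f x| ≤ 3 * ∑ j ∈ Finset.range (ρ + 1), (∑ y ∈ sp x j, gd f y) / (2 * j + 1)
      - (∑ y ∈ sp x ρ, gd f y) / (2 * ρ + 1) := by
  have hs : ∀ j, 0 ≤ (∑ y ∈ sp x j, gd f y) / (2 * (j : ℝ) + 1) := fun j =>
    div_nonneg (Finset.sum_nonneg (fun _ _ => gd_nonneg _ _)) (by positivity)
  induction ρ with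
  | zero =>
    rw [F_zero, sub_self, abs_zero]
    simp only [zero_add, Finset.range_one, Finset.sum_singleton]
    have := hs 0
    linarith
  | succ ρ ih =>
    rw [Finset.sum_range_succ]
    have h1 := F_step f x ρ
    have h2 : |F f x (ρ + 1) - f x| ≤ |F f x (ρ + 1) - F f x ρ| + |F f x ρ - f x| := by
      have := abs_add_le (F f x (ρ + 1) - F f x ρ) (F f x ρ - f x)
      rwa [sub_add_sub_cancel] at this
    linarith

/-- Abel summation. -/
theorem abel (f : Site → ℝ) (x : Site) (M : ℝ) (N : ℕ)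
    (hM : ∀ j, j ≤ N → ∑ y ∈ bx x j, gd f y ≤ (2 * (j : ℝ) + 1) ^ 2 * M) (ρ : ℕ) (hρ : ρ ≤ N) :
    ∑ j ∈ Finset.range (ρ + 1), (∑ y ∈ sp x j, gd f y) / (2 * j + 1)
      ≤ (∑ y ∈ bx x ρ, gd f y) / (2 * ρ + 1) + 2 * ρ * M := by
  have hM0 : 0 ≤ M := by
    have h1 := hM 0 (Nat.zero_le _)
    have h2 : 0 ≤ ∑ y ∈ bx x 0, gd f y := Finset.sum_nonneg (fun _ _ => gd_nonneg _ _)
    simp only [CharP.cast_eq_zero, mul_zero, zero_add, one_pow, one_mul] at h1
    linarith
  induction ρ with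
  | zero =>
    simp only [zero_add, Finset.range_one, Finset.sum_singleton]
    rw [sum_bx_zero]
    simp
  | succ ρ ih =>
    rw [Finset.sum_range_succ]
    have h1 := ih (by omega)
    have h2 := hM ρ (by omega)
    rw [sum_bx_succ]
    set B := ∑ y ∈ bx x ρ, gd f y with hB
    set s := ∑ y ∈ sp x (ρ + 1), gd f y with hs
    have hm : (0 : ℝ) < 2 * ρ + 1 := by positivity
    have hm' : (0 : ℝ) < 2 * ((ρ + 1 : ℕ) : ℝ) + 1 := by positivity
    have h3 : B / (2 * ρ + 1) ≤ B / (2 * ((ρ + 1 : ℕ) : ℝ) + 1) + 2 * M := by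
      have e : B / (2 * ρ + 1) - B / (2 * ((ρ + 1 : ℕ) : ℝ) + 1)
          = 2 * B / ((2 * ρ + 1) * (2 * ((ρ + 1 : ℕ) : ℝ) + 1)) := by
        field_simp
        push_cast
        ring
      have h4 : 2 * B / ((2 * ρ + 1) * (2 * ((ρ + 1 : ℕ) : ℝ) + 1)) ≤ 2 * M := by
        rw [div_le_iff₀ (by positivity)]
        have h5 : (2 * (ρ : ℝ) + 1) ^ 2 * M ≤ (2 * (ρ : ℝ) + 1) * (2 * ((ρ + 1 : ℕ) : ℝ) + 1) * M := by
          apply mul_le_mul_of_nonneg_right _ hM0
          rw [pow_two]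
          apply mul_le_mul_of_nonneg_left _ hm.le
          push_cast
          linarith
        nlinarith
      linarith
    have e2 : (B + s) / (2 * ((ρ + 1 : ℕ) : ℝ) + 1)
        = B / (2 * ((ρ + 1 : ℕ) : ℝ) + 1) + s / (2 * ((ρ + 1 : ℕ) : ℝ) + 1) := add_div _ _ _
    rw [e2]
    have e3 : (2 : ℝ) * ((ρ + 1 : ℕ) : ℝ) * M = 2 * ρ * M + 2 * M := by
      push_cast
      ring
    rw [e3]
    linarith

/-- The complement meets the spheres. -/
theorem exists_sphere {G : Finset Site} (hG : ConnF (G : Set Site)ᶜ) (x : Site) {ρ : ℕ}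
    (hρ : dep G x ≤ ρ) : ∃ y, y ∉ G ∧ sd x y = ρ := by
  classical
  by_contra hne
  push Not at hne
  obtain ⟨y, hy, hyd⟩ := exists_dep G x
  obtain ⟨z, hz⟩ := Infinite.exists_notMem_finset (G ∪ bx x ρ)
  rw [Finset.mem_union, mem_bx, not_or] at hz
  have h := hG (fun w => decide (sd x w < ρ)) (by
    intro a ha b hb hab
    have h1 := hne a (by simpa using ha)
    have h2 := hne b (by simpa using hb)
    have h3 : sd a b ≤ 1 := by
      unfold Adj at hab
      unfold units at hab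
      unfold sd
      simp only [Finset.mem_insert, Finset.mem_singleton, Prod.ext_iff, Prod.fst_sub, Prod.snd_sub]
        at hab
      omega
    have h4 := sd_tri x a b
    have h5 := sd_tri x b a
    rw [sd_comm b a] at h5
    rw [decide_eq_decide]
    omega) y (by simpa using hy) z (by simpa using hz.1)
  rw [decide_eq_decide] at h
  have h1 := hne y hy
  have : sd x z < ρ := h.1 (by omega)
  omega

/-- The pointwise bound. -/
theorem pointwise {G : Finset Site} (hG : ConnF (G : Set Site)ᶜ) {f : Site → ℝ}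
    (hf : ∀ x, x ∉ G → f x = 0) {x : Site} (hx : x ∈ G) (M : ℝ)
    (hM : ∀ j, j ≤ 2 * dep G x → av (gd f) x j ≤ M) : |f x| ≤ 72 * dep G x * M := by
  set d := dep G x with hd
  have hd1 : 1 ≤ d := by
    have : d ≠ 0 := fun h => (dep_eq_zero.1 h) hx
    omega
  have hd1' : (1 : ℝ) ≤ d := by exact_mod_cast hd1
  have hMB : ∀ j, j ≤ 2 * d → ∑ y ∈ bx x j, gd f y ≤ (2 * (j : ℝ) + 1) ^ 2 * M := by
    intro j hj
    have h1 := hM j hj
    unfold av at h1
    rw [div_le_iff₀ (by positivity)] at h1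
    linarith
  have hM0 : 0 ≤ M := (av_nonneg (gd_nonneg f) x 0).trans (hM 0 (Nat.zero_le _))
  have key : ∀ ρ, d ≤ ρ → ρ < 2 * d →
      |f x| ≤ 3 * (∑ y ∈ sp x ρ, gd f y) + 24 * d * M := by
    intro ρ h1 h2
    obtain ⟨y, hy, hyd⟩ := exists_sphere hG x h1
    have h3 : |F f x ρ| ≤ 3 * (∑ y ∈ sp x ρ, gd f y) := by
      unfold F
      have hm : (0 : ℝ) < 2 * ρ + 1 := by positivity
      rw [abs_div, abs_of_pos hm, div_le_iff₀ hm]
      refine (Finset.abs_sum_le_sum_abs _ _).trans ?_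
      calc ∑ i ∈ Finset.Icc (-(ρ : ℤ)) ρ, |f (x + ((ρ : ℤ), i))|
          ≤ ∑ i ∈ Finset.Icc (-(ρ : ℤ)) ρ, 3 * (∑ y ∈ sp x ρ, gd f y) := by
            apply Finset.sum_le_sum
            intro i hi
            rw [Finset.mem_Icc] at hi
            exact right_small f x y ρ hyd (hf y hy) hi.1 hi.2
        _ = 3 * (∑ y ∈ sp x ρ, gd f y) * (2 * ρ + 1) := by
            rw [Finset.sum_const, nsmul_eq_mul, Int.card_Icc]
            have : ((ρ : ℤ) + 1 - -(ρ : ℤ)).toNat = 2 * ρ + 1 := by omega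
            rw [this]
            push_cast
            ring
    have h4 := F_tele f x ρ
    have h5 := abel f x M (2 * d) hMB ρ (by omega)
    have h6 := hMB ρ (by omega)
    have h7 : 0 ≤ (∑ y ∈ sp x ρ, gd f y) / (2 * (ρ : ℝ) + 1) :=
      div_nonneg (Finset.sum_nonneg (fun _ _ => gd_nonneg _ _)) (by positivity)
    have h8 : (∑ y ∈ bx x ρ, gd f y) / (2 * ρ + 1) ≤ (2 * ρ + 1) * M := by
      rw [div_le_iff₀ (by positivity)]
      nlinarith
    have h9 : |f x| ≤ |F f x ρ| + |F f x ρ - f x| := by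
      have := abs_add_le (F f x ρ) (f x - F f x ρ)
      rw [add_sub_cancel, abs_sub_comm (f x)] at this
      exact this
    have h10 : (ρ : ℝ) + 1 ≤ 2 * d := by exact_mod_cast h2
    have h11 : (4 * (ρ : ℝ) + 1) * M ≤ 8 * d * M := mul_le_mul_of_nonneg_right (by linarith) hM0
    nlinarith
  -- sum over `ρ ∈ [d, 2d)`
  have hsum : ∀ k, k ≤ d → (k : ℝ) * |f x| ≤ 3 * (∑ y ∈ bx x (d + k - 1), gd f y
      - ∑ y ∈ bx x (d - 1), gd f y) + k * (24 * d * M) := by
    intro k
    induction k with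
    | zero => intro _; simp
    | succ k ih =>
      intro hk
      have h1 := ih (by omega)
      have h2 := key (d + k) (by omega) (by omega)
      have e : d + (k + 1) - 1 = (d + k - 1) + 1 := by omega
      rw [e, sum_bx_succ]
      have e2 : d + k - 1 + 1 = d + k := by omega
      rw [e2]
      push_cast
      linarith
  have h1 := hsum d le_rfl
  have h2 := hMB (d + d - 1) (by omega)
  have h3 : 0 ≤ ∑ y ∈ bx x (d - 1), gd f y := Finset.sum_nonneg (fun _ _ => gd_nonneg _ _)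
  have h4 : (2 * ((d + d - 1 : ℕ) : ℝ) + 1) ^ 2 * M ≤ (4 * d) ^ 2 * M := by
    apply mul_le_mul_of_nonneg_right _ hM0
    apply pow_le_pow_left₀ (by positivity)
    have : ((d + d - 1 : ℕ) : ℝ) = 2 * d - 1 := by
      rw [Nat.cast_sub (by omega)]
      push_cast
      ring
    rw [this]
    linarith
  have h5 : (d : ℝ) * |f x| ≤ d * (72 * d * M) := by nlinarith
  exact le_of_mul_le_mul_left h5 (by linarith)

/-- The support of `gd f`. -/
noncomputable def nbh (G : Finset Site) : Finset Site :=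
  G ∪ units.biUnion (fun e => G.image (fun z => z - e))

theorem mem_nbh_left {G : Finset Site} {y : Site} (h : y ∈ G) : y ∈ nbh G :=
  Finset.mem_union_left _ h

theorem mem_nbh_right {G : Finset Site} {y e : Site} (he : e ∈ units) (h : y + e ∈ G) :
    y ∈ nbh G := by
  unfold nbh
  apply Finset.mem_union_right
  rw [Finset.mem_biUnion]
  exact ⟨e, he, Finset.mem_image.2 ⟨y + e, h, by simp⟩⟩

theorem gd_eq_zero {G : Finset Site} {f : Site → ℝ} (hf : ∀ x, x ∉ G → f x = 0) {y : Site}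
    (hy : y ∉ nbh G) : gd f y = 0 := by
  unfold gd
  apply Finset.sum_eq_zero
  intro e he
  rw [hf y (fun h => hy (mem_nbh_left h)), hf (y + e) (fun h => hy (mem_nbh_right he h))]
  simp

theorem sum_gd_sq {G : Finset Site} {f : Site → ℝ} (hf : ∀ x, x ∉ G → f x = 0) :
    ∑ y ∈ nbh G, gd f y ^ 2 ≤ 8 * dform G f := by
  classical
  have hcard : units.card = 4 := by decide
  have h1 : ∀ y, gd f y ^ 2 ≤ 4 * ∑ e ∈ units, (f (y + e) - f y) ^ 2 := by
    intro y
    unfold gd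
    have := sq_sum_le_card_mul_sum_sq (s := units) (f := fun e => |f (y + e) - f y|)
    simp only [sq_abs, hcard] at this
    exact_mod_cast this
  have h2 : ∑ y ∈ nbh G, ∑ e ∈ units, (f (y + e) - f y) ^ 2 = 2 * dform G f := by
    have e1 : ∀ e ∈ units, ∑ y ∈ nbh G, (f (y + e) - f y) ^ 2
        = 2 * ∑ x ∈ G, f x ^ 2 - 2 * ∑ x ∈ G, f x * f (x + e) := by
      intro e he
      have a1 : ∑ y ∈ nbh G, f y ^ 2 = ∑ x ∈ G, f x ^ 2 := by
        symm
        apply Finset.sum_subset (fun x hx => mem_nbh_left hx)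
        intro x _ hx
        rw [hf x hx]
        norm_num
      have a2 : ∑ y ∈ nbh G, f y * f (y + e) = ∑ x ∈ G, f x * f (x + e) := by
        symm
        apply Finset.sum_subset (fun x hx => mem_nbh_left hx)
        intro x _ hx
        rw [hf x hx, zero_mul]
      have a3 : ∑ y ∈ nbh G, f (y + e) ^ 2 = ∑ x ∈ G, f x ^ 2 := by
        symm
        calc ∑ x ∈ G, f x ^ 2 = ∑ y ∈ G.image (fun z => z - e), f (y + e) ^ 2 := by
              rw [Finset.sum_image (fun a _ b _ h => by simpa using h)]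
              apply Finset.sum_congr rfl
              intro x _
              rw [sub_add_cancel]
          _ = ∑ y ∈ nbh G, f (y + e) ^ 2 := by
              apply Finset.sum_subset
              · intro y hy
                rw [Finset.mem_image] at hy
                obtain ⟨z, hz, rfl⟩ := hy
                apply mem_nbh_right he
                rwa [sub_add_cancel]
              · intro y _ hy
                rw [hf (y + e) (fun h => hy (Finset.mem_image.2 ⟨y + e, h, by simp⟩))]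
                norm_num
      have a4 : ∀ y, (f (y + e) - f y) ^ 2 = f (y + e) ^ 2 + f y ^ 2 - 2 * (f y * f (y + e)) :=
        fun y => by ring
      simp only [a4, Finset.sum_sub_distrib, Finset.sum_add_distrib, ← Finset.mul_sum]
      rw [a1, a2, a3]
      ring
    rw [Finset.sum_comm, Finset.sum_congr rfl e1, Finset.sum_sub_distrib, Finset.sum_const, hcard,
      ← Finset.mul_sum]
    unfold dform
    rw [Finset.sum_sub_distrib, ← Finset.mul_sum, Finset.sum_comm (s := G)]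
    simp only [nsmul_eq_mul]
    push_cast
    ring
  calc ∑ y ∈ nbh G, gd f y ^ 2 ≤ ∑ y ∈ nbh G, 4 * ∑ e ∈ units, (f (y + e) - f y) ^ 2 :=
        Finset.sum_le_sum (fun y _ => h1 y)
    _ = 4 * (2 * dform G f) := by rw [← Finset.mul_sum, h2]
    _ = 8 * dform G f := by ring

theorem exists_radius (D : Site → ℝ) (x : Site) (n : ℕ) :
    ∃ r, r ≤ n ∧ ∀ j, j ≤ n → av D x j ≤ av D x r := by
  obtain ⟨r, hr, h⟩ := Finset.exists_max_image (Finset.range (n + 1)) (fun j => av D x j)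
    ⟨0, by simp⟩
  refine ⟨r, by simpa [Nat.lt_succ_iff] using hr, fun j hj => h j (by simp; omega)⟩

end Hardy

open Hardy in
theorem hardy : ∃ C : ℝ, 0 < C ∧ ∀ G : Finset Site, ConnF (G : Set Site)ᶜ → ∀ f : Site → ℝ,
    (∀ x, x ∉ G → f x = 0) → ∑ x ∈ G, f x ^ 2 / (dep G x : ℝ) ^ 2 ≤ C * dform G f := by
  refine ⟨72 ^ 2 * (64 * 8), by norm_num, fun G hG f hf => ?_⟩
  choose r hr hmax using fun x => exists_radius (gd f) x (2 * dep G x)
  have h1 : ∀ x ∈ G, f x ^ 2 / (dep G x : ℝ) ^ 2 ≤ 72 ^ 2 * av (gd f) x (r x) ^ 2 := by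
    intro x hx
    have h2 := pointwise hG hf hx (av (gd f) x (r x)) (hmax x)
    have hd1 : dep G x ≠ 0 := fun h => (dep_eq_zero.1 h) hx
    have hd : (0 : ℝ) < dep G x := by exact_mod_cast Nat.pos_of_ne_zero hd1
    rw [div_le_iff₀ (by positivity), ← sq_abs]
    calc |f x| ^ 2 ≤ (72 * dep G x * av (gd f) x (r x)) ^ 2 :=
          pow_le_pow_left₀ (abs_nonneg _) h2 2
      _ = _ := by ring
  calc ∑ x ∈ G, f x ^ 2 / (dep G x : ℝ) ^ 2 ≤ ∑ x ∈ G, 72 ^ 2 * av (gd f) x (r x) ^ 2 :=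
        Finset.sum_le_sum h1
    _ = 72 ^ 2 * ∑ x ∈ G, av (gd f) x (r x) ^ 2 := by rw [Finset.mul_sum]
    _ ≤ 72 ^ 2 * (64 * ∑ x ∈ nbh G, gd f x ^ 2) :=
        mul_le_mul_of_nonneg_left
          (max_bound G (nbh G) (gd f) (gd_nonneg f) (fun y hy => gd_eq_zero hf hy) r) (by norm_num)
    _ ≤ 72 ^ 2 * (64 * (8 * dform G f)) := by
        have := sum_gd_sq hf
        linarith
    _ = 72 ^ 2 * (64 * 8) * dform G f := by ring

end Pool.Agent.WSB71
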