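import Pool.Agent.LT.Upper

/-!
# Definitions for the mass part
-/

open MeasureTheory Filter Topology
open scoped NNReal ENNReal

namespace Pool.Agent.WSB71

open Pool.Agent.LT

/-- The relaxed form. -/
noncomputable def eform (G H : Finset Site) (θ : ℝ) (f : Site → ℝ) : ℝ :=
  ∑ x ∈ H, ((4 - (1 - θ) * kap G x) * f x ^ 2 - ∑ e ∈ units, f x * f (x + e))

/-- The weight of one visit of the relaxed walk. -/
noncomputable def rw1 (G : Finset Site) (lam θ : ℝ) (x : Site) : ℝ≥0∞ :=
  ENNReal.ofReal ((4 - lam - (1 - θ) * kap G x)⁻¹)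

end Pool.Agent.WSB71
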