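import Pool.Agent.WSB71.FUnique
import Pool.Agent.WSB71.Hardy
import Pool.Agent.WSB71.MassDef

/-!
# M3: the Robin eigenvalue; the eigenvalue of the deep part

Logarithmic cut-off `χ x = φ (dep G x)`, `φ d = min 1 (max 0 (log (d / L) / K))`, and `hardy`.
-/

open MeasureTheory Filter Topology
open scoped NNReal ENNReal

namespace Pool.Agent.WSB71

open Pool.Agent.LT

namespace FRobin

/-! ### Edge formulas -/

/-- Weight of the directed edge `(x, y)`, `x ∈ H`. -/
noncomputable def cw (H : Finset Site) (y : Site) : ℝ := if y ∈ H then 1 else 2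

/-- Symmetrisation. -/
lemma symm_sum {H : Finset Site} {f : Site → ℝ} (hf : ∀ x, x ∉ H → f x = 0)
    (k : Site → Site → ℝ) (hk : ∀ x y, k x y = k y x) :
    ∑ x ∈ H, ∑ e ∈ units, k x (x + e) * f (x + e) ^ 2
      = ∑ x ∈ H, ∑ e ∈ units, if x + e ∈ H then k x (x + e) * f x ^ 2 else 0 := by
  classical
  rw [Finset.sum_comm, Finset.sum_comm (s := H)]
  have h1 : ∀ e ∈ units, ∑ x ∈ H, k x (x + e) * f (x + e) ^ 2
      = ∑ x ∈ H, if x + -e ∈ H then k x (x + -e) * f x ^ 2 else 0 := by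
    intro e _
    have h2 := fu_shift_sum hf (fun y => k (y - e) y * f y) e
    simp only [add_sub_cancel_right] at h2
    have h3 : ∑ x ∈ H, k x (x + e) * f (x + e) ^ 2
        = ∑ x ∈ H, k x (x + e) * f (x + e) * f (x + e) := by
      apply Finset.sum_congr rfl
      intro x _
      ring
    rw [h3, h2]
    apply Finset.sum_congr rfl
    intro x _
    rw [← sub_eq_add_neg]
    split_ifs
    · rw [hk (x - e) x]; ring
    · rfl
  rw [Finset.sum_congr rfl h1]
  refine Finset.sum_bij' (fun e _ => -e) (fun e _ => -e) ?_ ?_ ?_ ?_ ?_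
  · intro e he; exact units_neg he
  · intro e he; exact units_neg he
  · intro e _; simp
  · intro e _; simp
  · intro e _; rfl

lemma dform_edge {H : Finset Site} {f : Site → ℝ} (hf : ∀ x, x ∉ H → f x = 0) :
    dform H f = (1 / 2) * ∑ x ∈ H, ∑ e ∈ units, cw H (x + e) * (f x - f (x + e)) ^ 2 := by
  have h1 := symm_sum hf (fun _ _ => 1) (fun _ _ => rfl)
  simp only [one_mul] at h1
  have h2 : ∀ x ∈ H, ∀ e ∈ units, cw H (x + e) * (f x - f (x + e)) ^ 2
      = cw H (x + e) * f x ^ 2 - 2 * (f x * f (x + e)) + f (x + e) ^ 2 := by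
    intro x _ e _
    unfold cw
    split_ifs with h
    · ring
    · rw [hf _ h]; ring
  have h3 : ∑ x ∈ H, ∑ e ∈ units, cw H (x + e) * (f x - f (x + e)) ^ 2
      = ∑ x ∈ H, ∑ e ∈ units, (cw H (x + e) * f x ^ 2 + (if x + e ∈ H then f x ^ 2 else 0))
        - 2 * ∑ x ∈ H, ∑ e ∈ units, f x * f (x + e) := by
    rw [Finset.sum_congr rfl (fun x hx => Finset.sum_congr rfl (h2 x hx))]
    simp only [Finset.sum_add_distrib, Finset.sum_sub_distrib, ← Finset.mul_sum]
    rw [h1]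
    ring
  have h4 : ∑ x ∈ H, ∑ e ∈ units, (cw H (x + e) * f x ^ 2 + (if x + e ∈ H then f x ^ 2 else 0))
      = 2 * ∑ x ∈ H, 4 * f x ^ 2 := by
    rw [Finset.mul_sum]
    apply Finset.sum_congr rfl
    intro x _
    have : ∀ e ∈ units, cw H (x + e) * f x ^ 2 + (if x + e ∈ H then f x ^ 2 else 0)
        = 2 * f x ^ 2 := by
      intro e _
      unfold cw
      split_ifs <;> ring
    rw [Finset.sum_congr rfl this, Finset.sum_const, card_units]
    simp only [nsmul_eq_mul]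
    push_cast
    ring
  rw [h3, h4, dform, Finset.sum_sub_distrib]
  ring

/-- Weight of the directed edge `(x, y)`, `x ∈ H`, in the relaxed form. -/
noncomputable def cr (G H : Finset Site) (θ : ℝ) (y : Site) : ℝ :=
  if y ∈ G then cw H y else 2 * θ

lemma eform_eq {G H : Finset Site} (θ : ℝ) (f : Site → ℝ) :
    eform G H θ f = dform H f
      - (1 - θ) * ∑ x ∈ H, ∑ e ∈ units, if x + e ∈ G then 0 else f x ^ 2 := by
  unfold eform dform
  rw [Finset.mul_sum, ← Finset.sum_sub_distrib]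
  apply Finset.sum_congr rfl
  intro x _
  have h1 : ∑ e ∈ units, (if x + e ∈ G then (0 : ℝ) else f x ^ 2) = kap G x * f x ^ 2 := by
    unfold kap
    rw [Finset.card_filter]
    push_cast
    rw [Finset.sum_mul]
    apply Finset.sum_congr rfl
    intro e _
    split_ifs <;> simp_all
  rw [h1]
  ring

lemma eform_edge {G H : Finset Site} (hHG : H ⊆ G) (θ : ℝ) {f : Site → ℝ}
    (hf : ∀ x, x ∉ H → f x = 0) :
    eform G H θ f = (1 / 2) * ∑ x ∈ H, ∑ e ∈ units, cr G H θ (x + e) * (f x - f (x + e)) ^ 2 := by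
  rw [eform_eq, dform_edge hf, Finset.mul_sum, Finset.mul_sum, Finset.mul_sum,
    ← Finset.sum_sub_distrib]
  apply Finset.sum_congr rfl
  intro x _
  rw [Finset.mul_sum, Finset.mul_sum, Finset.mul_sum, ← Finset.sum_sub_distrib]
  apply Finset.sum_congr rfl
  intro e _
  unfold cr
  split_ifs with h
  · ring
  · have h2 : x + e ∉ H := fun h' => h (hHG h')
    unfold cw
    rw [if_neg h2, hf _ h2]
    ring

lemma cw_nonneg (H : Finset Site) (y : Site) : 0 ≤ cw H y := by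
  unfold cw; split_ifs <;> norm_num

lemma cr_nonneg (G H : Finset Site) {θ : ℝ} (hθ : 0 < θ) (y : Site) : 0 ≤ cr G H θ y := by
  unfold cr; split_ifs
  · exact cw_nonneg _ _
  · positivity

lemma eform_nonneg {G H : Finset Site} (hHG : H ⊆ G) {θ : ℝ} (hθ : 0 < θ) {f : Site → ℝ}
    (hf : ∀ x, x ∉ H → f x = 0) : 0 ≤ eform G H θ f := by
  rw [eform_edge hHG θ hf]
  apply mul_nonneg (by norm_num)
  exact Finset.sum_nonneg (fun x _ => Finset.sum_nonneg (fun e _ =>
    mul_nonneg (cr_nonneg G H hθ _) (sq_nonneg _)))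

theorem dform_le_eform' {G H : Finset Site} (hHG : H ⊆ G) {θ : ℝ} (h0 : 0 < θ) (h1 : θ ≤ 1)
    {f : Site → ℝ} (hf : ∀ x, x ∉ H → f x = 0) : θ * dform H f ≤ eform G H θ f := by
  rw [eform_edge hHG θ hf, dform_edge hf, mul_left_comm]
  apply mul_le_mul_of_nonneg_left _ (by norm_num)
  rw [Finset.mul_sum]
  apply Finset.sum_le_sum
  intro x _
  rw [Finset.mul_sum]
  apply Finset.sum_le_sum
  intro e _
  rw [← mul_assoc]
  apply mul_le_mul_of_nonneg_right _ (sq_nonneg _)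
  unfold cr
  split_ifs with h
  · have := cw_nonneg H (x + e)
    nlinarith
  · have h2 : x + e ∉ H := fun h' => h (hHG h')
    unfold cw
    rw [if_neg h2]
    linarith

/-! ### Localisation -/

lemma pt_ineq (δ a b p q : ℝ) (hδ : 0 < δ) (ha : 0 ≤ a) (ha1 : a ≤ 1) (hb : 0 ≤ b)
    (hb1 : b ≤ 1) :
    (a * p - b * q) ^ 2
      ≤ (1 + δ) * (p - q) ^ 2 + (1 + 1 / δ) * (a - b) ^ 2 * ((p ^ 2 + q ^ 2) / 2) := by
  set u := (a + b) / 2 * (p - q) with hu
  set v := (a - b) * ((p + q) / 2) with hv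
  have h1 : a * p - b * q = u + v := by rw [hu, hv]; ring
  have h2 : (u + v) ^ 2 ≤ (1 + δ) * u ^ 2 + (1 + 1 / δ) * v ^ 2 := by
    have h3 : (1 + δ) * u ^ 2 + (1 + 1 / δ) * v ^ 2 - (u + v) ^ 2
        = (δ * u - v) ^ 2 / δ := by field_simp; ring
    have h4 : 0 ≤ (δ * u - v) ^ 2 / δ := by positivity
    linarith
  have h3 : u ^ 2 ≤ (p - q) ^ 2 := by
    rw [hu, mul_pow]
    have h4 : ((a + b) / 2) ^ 2 ≤ 1 := by nlinarith
    nlinarith [sq_nonneg (p - q)]
  have h5 : v ^ 2 ≤ (a - b) ^ 2 * ((p ^ 2 + q ^ 2) / 2) := by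
    rw [hv, mul_pow]
    apply mul_le_mul_of_nonneg_left _ (sq_nonneg _)
    nlinarith [sq_nonneg (p - q)]
  rw [h1]
  calc (u + v) ^ 2 ≤ (1 + δ) * u ^ 2 + (1 + 1 / δ) * v ^ 2 := h2
    _ ≤ (1 + δ) * (p - q) ^ 2 + (1 + 1 / δ) * ((a - b) ^ 2 * ((p ^ 2 + q ^ 2) / 2)) := by
        gcongr
    _ = _ := by ring

/-- Localisation estimate. -/
lemma localise {G H : Finset Site} (hHG : H ⊆ G) {θ δ : ℝ} (hθ : 0 < θ) (hδ : 0 < δ)
    {f : Site → ℝ} (hf : ∀ x, x ∉ H → f x = 0) (χ : Site → ℝ) (h0 : ∀ x, 0 ≤ χ x)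
    (h1 : ∀ x, χ x ≤ 1) (hχ : ∀ x ∈ G, ∀ e ∈ units, x + e ∉ G → χ x = 0)
    (hχ0 : ∀ x, x ∉ G → χ x = 0) :
    dform H (fun x => χ x * f x) ≤ (1 + δ) * eform G H θ f
      + (1 / 2) * (1 + 1 / δ) * ∑ x ∈ H, f x ^ 2 * ∑ e ∈ units, (χ x - χ (x + e)) ^ 2 := by
  have hg : ∀ x, x ∉ H → (fun x => χ x * f x) x = 0 := fun x hx => by simp [hf x hx]
  rw [dform_edge hg, eform_edge hHG θ hf]
  -- the error term
  have h2 := symm_sum hf (fun x y => (χ x - χ y) ^ 2) (fun x y => by ring)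
  have h3 : ∑ x ∈ H, ∑ e ∈ units, cw H (x + e) * ((χ x - χ (x + e)) ^ 2
        * ((f x ^ 2 + f (x + e) ^ 2) / 2))
      = ∑ x ∈ H, f x ^ 2 * ∑ e ∈ units, (χ x - χ (x + e)) ^ 2 := by
    have e1 : ∀ x ∈ H, ∀ e ∈ units, cw H (x + e) * ((χ x - χ (x + e)) ^ 2
        * ((f x ^ 2 + f (x + e) ^ 2) / 2))
        = (1 / 2) * (cw H (x + e) * ((χ x - χ (x + e)) ^ 2 * f x ^ 2))
          + (1 / 2) * ((χ x - χ (x + e)) ^ 2 * f (x + e) ^ 2) := by
      intro x _ e _
      unfold cw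
      split_ifs with h
      · ring
      · rw [hf _ h]; ring
    rw [Finset.sum_congr rfl (fun x hx => Finset.sum_congr rfl (e1 x hx))]
    simp only [Finset.sum_add_distrib, ← Finset.mul_sum]
    rw [h2, ← mul_add, ← Finset.sum_add_distrib, Finset.mul_sum]
    apply Finset.sum_congr rfl
    intro x _
    rw [← Finset.sum_add_distrib, Finset.mul_sum, Finset.mul_sum]
    apply Finset.sum_congr rfl
    intro e _
    unfold cw
    split_ifs <;> ring
  have h4 : ∑ x ∈ H, ∑ e ∈ units, cw H (x + e) * (χ x * f x - χ (x + e) * f (x + e)) ^ 2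
      ≤ ∑ x ∈ H, ∑ e ∈ units, ((1 + δ) * (cr G H θ (x + e) * (f x - f (x + e)) ^ 2)
        + (1 + 1 / δ) * (cw H (x + e) * ((χ x - χ (x + e)) ^ 2
        * ((f x ^ 2 + f (x + e) ^ 2) / 2)))) := by
    apply Finset.sum_le_sum
    intro x hx
    apply Finset.sum_le_sum
    intro e he
    by_cases hG : x + e ∈ G
    · have hc : cr G H θ (x + e) = cw H (x + e) := by unfold cr; rw [if_pos hG]
      rw [hc]
      have h5 := mul_le_mul_of_nonneg_left (pt_ineq δ (χ x) (χ (x + e)) (f x) (f (x + e)) hδ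
        (h0 _) (h1 _) (h0 _) (h1 _)) (cw_nonneg H (x + e))
      refine h5.trans (le_of_eq ?_)
      ring
    · rw [hχ x (hHG hx) e he hG, hχ0 _ hG]
      have h6 := cr_nonneg G H hθ (x + e)
      have h7 := cw_nonneg H (x + e)
      simp only [zero_mul, sub_self, ne_eq, OfNat.ofNat_ne_zero, not_false_eq_true, zero_pow,
        mul_zero, add_zero]
      positivity
  simp only [Finset.sum_add_distrib, ← Finset.mul_sum] at h4
  rw [h3] at h4
  have h5 := mul_le_mul_of_nonneg_left h4 (show (0 : ℝ) ≤ 1 / 2 by norm_num)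
  refine h5.trans (le_of_eq ?_)
  ring

/-! ### The cut-off -/

/-- The profile. -/
noncomputable def ph (L : ℕ) (K : ℝ) (d : ℕ) : ℝ := min 1 (max 0 (Real.log (d / L) / K))

lemma ph_nonneg (L : ℕ) (K : ℝ) (d : ℕ) : 0 ≤ ph L K d :=
  le_min zero_le_one (le_max_left _ _)

lemma ph_le_one (L : ℕ) (K : ℝ) (d : ℕ) : ph L K d ≤ 1 := min_le_left _ _

lemma ph_zero {L : ℕ} (hL : 1 ≤ L) {K : ℝ} (hK : 0 < K) {d : ℕ} (hd : d ≤ L) : ph L K d = 0 := by
  unfold ph
  have h1 : Real.log ((d : ℝ) / L) ≤ 0 := by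
    apply Real.log_nonpos (by positivity)
    rw [div_le_one (by exact_mod_cast hL)]
    exact_mod_cast hd
  have h2 : Real.log ((d : ℝ) / L) / K ≤ 0 := div_nonpos_of_nonpos_of_nonneg h1 hK.le
  rw [max_eq_left h2]
  simp

lemma ph_one {L : ℕ} (hL : 1 ≤ L) {K : ℝ} (hK : 0 < K) {d : ℕ}
    (hd : (L : ℝ) * Real.exp K ≤ d) : ph L K d = 1 := by
  unfold ph
  have hL' : (0 : ℝ) < L := by exact_mod_cast hL
  have h1 : K ≤ Real.log ((d : ℝ) / L) := by
    rw [Real.le_log_iff_exp_le, le_div_iff₀ hL']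
    · linarith
    · apply div_pos _ hL'
      exact lt_of_lt_of_le (by positivity) hd
  have h2 : 1 ≤ Real.log ((d : ℝ) / L) / K := by rwa [le_div_iff₀ hK, one_mul]
  rw [max_eq_right (by linarith), min_eq_left h2]

lemma clip_lip (a b : ℝ) : |min 1 (max 0 a) - min 1 (max 0 b)| ≤ |a - b| := by
  have h1 := abs_min_sub_min_le_max (1 : ℝ) (max 0 a) 1 (max 0 b)
  have h2 := abs_max_sub_max_le_max (0 : ℝ) a 0 b
  simp only [sub_self, abs_zero] at h1 h2
  have h3 : max 0 |a - b| = |a - b| := max_eq_right (abs_nonneg _)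
  have h4 : max 0 |max 0 a - max 0 b| = |max 0 a - max 0 b| := max_eq_right (abs_nonneg _)
  rw [h3] at h2
  rw [h4] at h1
  exact h1.trans h2

lemma ph_step {L : ℕ} (hL : 1 ≤ L) {K : ℝ} (hK : 0 < K) {d : ℕ} (hd : 1 ≤ d) :
    |ph L K (d + 1) - ph L K d| ≤ 1 / (d * K) := by
  have hL' : (0 : ℝ) < L := by exact_mod_cast hL
  have hd' : (0 : ℝ) < d := by exact_mod_cast hd
  refine (clip_lip _ _).trans ?_
  rw [← sub_div, abs_div, abs_of_pos hK]
  have h1 : Real.log (((d + 1 : ℕ) : ℝ) / L) - Real.log ((d : ℝ) / L)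
      = Real.log (1 + 1 / d) := by
    rw [← Real.log_div (by positivity) (by positivity)]
    congr 1
    push_cast
    field_simp
  rw [h1]
  have h2 : 0 ≤ Real.log (1 + 1 / d) := by
    apply Real.log_nonneg
    have : (0:ℝ) ≤ 1 / d := by positivity
    linarith
  rw [abs_of_nonneg h2, div_le_iff₀ hK]
  have h3 := Real.log_le_sub_one_of_pos (show (0 : ℝ) < 1 + 1 / d by positivity)
  have h4 : 1 / ((d : ℝ) * K) * K = 1 / d := by field_simp
  rw [h4]
  linarith

lemma ph_lip {L : ℕ} (hL : 1 ≤ L) {K : ℝ} (hK : 0 < K) {d d' : ℕ} (hd : 1 ≤ d)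
    (h1 : d ≤ d' + 1) (h2 : d' ≤ d + 1) : |ph L K d - ph L K d'| ≤ 2 / (d * K) := by
  have hd' : (0 : ℝ) < d := by exact_mod_cast hd
  have h12 : 1 / ((d : ℝ) * K) ≤ 2 / (d * K) := by gcongr; norm_num
  rcases Nat.lt_trichotomy d d' with h | h | h
  · have : d' = d + 1 := by omega
    subst this
    rw [abs_sub_comm]
    exact (ph_step hL hK hd).trans h12
  · subst h
    rw [sub_self, abs_zero]
    positivity
  · have h3 : d = d' + 1 := by omega
    subst h3
    rcases Nat.eq_zero_or_pos d' with h0 | h0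
    · subst h0
      rw [ph_zero hL hK (by omega), ph_zero hL hK (by omega), sub_self, abs_zero]
      positivity
    · refine (ph_step hL hK h0).trans ?_
      have h0' : (0 : ℝ) < d' := by exact_mod_cast h0
      rw [div_le_div_iff₀ (by positivity) (by positivity)]
      push_cast
      have h5 : (1 : ℝ) ≤ d' := by exact_mod_cast h0
      nlinarith

lemma sd_unit {x e : Site} (he : e ∈ units) : sd x (x + e) = 1 ∧ sd (x + e) x = 1 := by
  unfold sd units at *
  simp only [Finset.mem_insert, Finset.mem_singleton] at he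
  rcases he with he | he | he | he <;> subst he <;> simp

lemma ext_sum {G H : Finset Site} (hHG : H ⊆ G) {f : Site → ℝ} (hf : ∀ x, x ∉ H → f x = 0) :
    ∑ x ∈ G, f x ^ 2 / (dep G x : ℝ) ^ 2 = ∑ x ∈ H, f x ^ 2 / (dep G x : ℝ) ^ 2 := by
  symm
  apply Finset.sum_subset hHG
  intro x _ hx
  rw [hf x hx]; simp

lemma ext_dform {G H : Finset Site} (hHG : H ⊆ G) {f : Site → ℝ} (hf : ∀ x, x ∉ H → f x = 0) :
    dform G f = dform H f := by
  unfold dform
  symm
  apply Finset.sum_subset hHG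
  intro x _ hx
  rw [hf x hx]; simp

lemma ext_sq {G H : Finset Site} (hHG : H ⊆ G) {f : Site → ℝ} (hf : ∀ x, x ∉ H → f x = 0) :
    ∑ x ∈ G, f x ^ 2 = ∑ x ∈ H, f x ^ 2 := by
  symm
  apply Finset.sum_subset hHG
  intro x _ hx
  rw [hf x hx]; simp

/-- The cut-off lemma. -/
lemma cutoff {δ θ : ℝ} (hδ : 0 < δ) (hθ : 0 < θ) (hθ1 : θ ≤ 1) {L : ℕ} (hL : 1 ≤ L) :
    ∃ R : ℝ, 0 < R ∧ ∀ G B : Finset Site, ConnF (G : Set Site)ᶜ →
      ∀ f : Site → ℝ, (∀ x, x ∉ G \ B → f x = 0) → ∃ g : Site → ℝ,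
        (∀ x, x ∉ (G \ B).filter (fun x => L < dep G x) → g x = 0) ∧
        dform (G \ B) g ≤ (1 + 2 * δ) * eform G (G \ B) θ f ∧
        ∑ x ∈ G \ B, f x ^ 2 - R * eform G (G \ B) θ f ≤ ∑ x ∈ G \ B, g x ^ 2 := by
  obtain ⟨C, hC, hardyC⟩ := hardy
  -- choice of `K`
  obtain ⟨K, hK, hKle⟩ : ∃ K : ℝ, 0 < K ∧ 8 * (1 + 1 / δ) / K ^ 2 * (C / θ) ≤ δ := by
    refine ⟨Real.sqrt (8 * (1 + 1 / δ) * (C / θ) / δ), Real.sqrt_pos.2 (by positivity), ?_⟩
    rw [Real.sq_sqrt (by positivity)]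
    apply le_of_eq
    field_simp
  refine ⟨((L : ℝ) * Real.exp K) ^ 2 * (C / θ), ?_, ?_⟩
  · have : (0 : ℝ) < L := by exact_mod_cast hL
    positivity
  intro G B hG f hf
  set H := G \ B with hH
  have hHG : H ⊆ G := Finset.sdiff_subset
  set E := eform G H θ f with hE
  set χ : Site → ℝ := fun x => ph L K (dep G x) with hχ
  have hHardy : ∑ x ∈ H, f x ^ 2 / (dep G x : ℝ) ^ 2 ≤ C / θ * E := by
    have h1 := hardyC G hG f (fun x hx => hf x (fun h => hx (hHG h)))
    rw [ext_sum hHG hf, ext_dform hHG hf] at h1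
    have h2 := dform_le_eform' hHG hθ hθ1 hf
    have h3 : dform H f ≤ E / θ := by rw [le_div_iff₀ hθ]; linarith
    calc _ ≤ C * dform H f := h1
      _ ≤ C * (E / θ) := by gcongr
      _ = C / θ * E := by ring
  have hdpos : ∀ x ∈ H, 1 ≤ dep G x := by
    intro x hx
    rw [Nat.one_le_iff_ne_zero]
    intro h
    exact (dep_eq_zero.1 h) (hHG hx)
  have hstep : ∀ x ∈ H, ∀ e ∈ units, (χ x - χ (x + e)) ^ 2
      ≤ (4 / K ^ 2) * (1 / (dep G x : ℝ) ^ 2) := by
    intro x hx e he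
    obtain ⟨s1, s2⟩ := sd_unit (x := x) he
    have h1 := dep_lip G x (x + e)
    have h2 := dep_lip G (x + e) x
    rw [s1] at h1
    rw [s2] at h2
    have h3 := ph_lip hL hK (hdpos x hx) h1 h2
    have h4 : (0 : ℝ) < dep G x := by exact_mod_cast (hdpos x hx)
    have h5 : (χ x - χ (x + e)) ^ 2 ≤ (2 / ((dep G x : ℝ) * K)) ^ 2 := by
      rw [← sq_abs (χ x - χ (x + e))]
      exact pow_le_pow_left₀ (abs_nonneg _) h3 2
    refine h5.trans (le_of_eq ?_)
    field_simp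
    norm_num
  refine ⟨fun x => χ x * f x, ?_, ?_, ?_⟩
  · intro x hx
    rw [Finset.mem_filter] at hx
    by_cases hxH : x ∈ H
    · have h1 : dep G x ≤ L := by
        by_contra h
        push Not at h
        exact hx ⟨hxH, h⟩
      simp only [hχ, ph_zero hL hK h1, zero_mul]
    · simp only [hf x hxH, mul_zero]
  · have h1 := localise hHG hθ hδ hf χ (fun x => ph_nonneg _ _ _) (fun x => ph_le_one _ _ _)
      (by
        intro x hx e he hxe
        apply ph_zero hL hK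
        have := dep_le (x := x) hxe
        rw [(sd_unit he).1] at this
        exact this.trans hL)
      (by
        intro x hx
        apply ph_zero hL hK
        rw [dep_eq_zero.2 hx]
        exact Nat.zero_le _)
    have h2 : ∑ x ∈ H, f x ^ 2 * ∑ e ∈ units, (χ x - χ (x + e)) ^ 2
        ≤ 16 / K ^ 2 * ∑ x ∈ H, f x ^ 2 / (dep G x : ℝ) ^ 2 := by
      rw [Finset.mul_sum]
      apply Finset.sum_le_sum
      intro x hx
      have h3 : ∑ e ∈ units, (χ x - χ (x + e)) ^ 2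
          ≤ 4 * ((4 / K ^ 2) * (1 / (dep G x : ℝ) ^ 2)) := by
        calc _ ≤ ∑ e ∈ units, (4 / K ^ 2) * (1 / (dep G x : ℝ) ^ 2) :=
              Finset.sum_le_sum (hstep x hx)
          _ = _ := by rw [Finset.sum_const, card_units]; simp
      calc _ ≤ f x ^ 2 * (4 * ((4 / K ^ 2) * (1 / (dep G x : ℝ) ^ 2))) :=
            mul_le_mul_of_nonneg_left h3 (sq_nonneg _)
        _ = _ := by ring
    have hE0 : 0 ≤ E := eform_nonneg hHG hθ hf
    calc _ ≤ _ := h1
      _ ≤ (1 + δ) * E + (1 / 2) * (1 + 1 / δ) * (16 / K ^ 2 * (C / θ * E)) := by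
          gcongr
          exact h2.trans (by gcongr)
      _ = (1 + δ) * E + (8 * (1 + 1 / δ) / K ^ 2 * (C / θ)) * E := by ring
      _ ≤ (1 + δ) * E + δ * E := by gcongr
      _ = _ := by ring
  · have h1 : ∀ x ∈ H, f x ^ 2 - (χ x * f x) ^ 2
        ≤ ((L : ℝ) * Real.exp K) ^ 2 * (f x ^ 2 / (dep G x : ℝ) ^ 2) := by
      intro x hx
      have h4 : (0 : ℝ) < dep G x := by exact_mod_cast (hdpos x hx)
      by_cases hd : (L : ℝ) * Real.exp K ≤ dep G x
      · have : χ x = 1 := ph_one hL hK hd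
        rw [this, one_mul, sub_self]
        positivity
      · push Not at hd
        have h5 : f x ^ 2 ≤ ((L : ℝ) * Real.exp K) ^ 2 * (f x ^ 2 / (dep G x : ℝ) ^ 2) := by
          rw [mul_div_assoc', le_div_iff₀ (by positivity), mul_comm]
          apply mul_le_mul_of_nonneg_right _ (sq_nonneg _)
          exact pow_le_pow_left₀ h4.le hd.le 2
        have h6 := sq_nonneg (χ x * f x)
        linarith
    have h2 := Finset.sum_le_sum h1
    rw [Finset.sum_sub_distrib, ← Finset.mul_sum] at h2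
    have h3 : ((L : ℝ) * Real.exp K) ^ 2 * ∑ x ∈ H, f x ^ 2 / (dep G x : ℝ) ^ 2
        ≤ ((L : ℝ) * Real.exp K) ^ 2 * (C / θ * E) := by gcongr
    have h4 : ((L : ℝ) * Real.exp K) ^ 2 * (C / θ * E)
        = ((L : ℝ) * Real.exp K) ^ 2 * (C / θ) * E := by ring
    show _ ≤ ∑ x ∈ H, (χ x * f x) ^ 2
    linarith

end FRobin

/-- M3. -/
theorem robin_ge {ε θ Λ : ℝ} (hε : 0 < ε) (hθ : 0 < θ) (hθ1 : θ ≤ 1) (hΛ : 0 < Λ) :
    ∃ N₀ : ℝ, 0 < N₀ ∧ ∀ N : ℝ, N₀ ≤ N → ∀ G B : Finset Site, ConnF (G : Set Site)ᶜ →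
      ∀ f : Site → ℝ, (∀ x, x ∉ G \ B → f x = 0) →
        min ((1 - ε) * lamD (G \ B)) (Λ / N ^ 2) * ∑ x ∈ G \ B, f x ^ 2
          ≤ eform G (G \ B) θ f := by
  by_cases hε1 : 1 ≤ ε
  · refine ⟨1, one_pos, ?_⟩
    intro N _ G B _ f hf
    have h1 : min ((1 - ε) * lamD (G \ B)) (Λ / N ^ 2) ≤ 0 :=
      (min_le_left _ _).trans (mul_nonpos_of_nonpos_of_nonneg (by linarith) (lamD_nonneg _))
    have h2 : 0 ≤ ∑ x ∈ G \ B, f x ^ 2 := Finset.sum_nonneg (fun _ _ => sq_nonneg _)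
    exact (mul_nonpos_of_nonpos_of_nonneg h1 h2).trans
      (FRobin.eform_nonneg Finset.sdiff_subset hθ hf)
  · push Not at hε1
    set δ := ε / 3 with hδd
    have hδ : 0 < δ := by positivity
    obtain ⟨R, hR, hcut⟩ := FRobin.cutoff hδ hθ hθ1 (le_refl 1)
    refine ⟨Real.sqrt (R * Λ / δ), Real.sqrt_pos.2 (by positivity), ?_⟩
    intro N hN G B hG f hf
    have hNpos : 0 < N := lt_of_lt_of_le (Real.sqrt_pos.2 (by positivity)) hN
    have hN2 : R * Λ / δ ≤ N ^ 2 := by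
      have := pow_le_pow_left₀ (Real.sqrt_nonneg _) hN 2
      rwa [Real.sq_sqrt (by positivity)] at this
    obtain ⟨g, hg0, hg1, hg2⟩ := hcut G B hG f hf
    set S := ∑ x ∈ G \ B, f x ^ 2 with hS
    have hS0 : 0 ≤ S := Finset.sum_nonneg (fun _ _ => sq_nonneg _)
    set E := eform G (G \ B) θ f with hE
    by_cases hc : Λ / N ^ 2 * S ≤ E
    · exact (mul_le_mul_of_nonneg_right (min_le_right _ _) hS0).trans hc
    · push Not at hc
      have h1 : R * E ≤ δ * S := by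
        have h2 : R * E ≤ R * (Λ / N ^ 2 * S) := by gcongr
        have h3 : R * (Λ / N ^ 2) ≤ δ := by
          rw [mul_div_assoc', div_le_iff₀ (by positivity)]
          rw [div_le_iff₀ hδ] at hN2
          linarith
        calc R * E ≤ R * (Λ / N ^ 2 * S) := h2
          _ = R * (Λ / N ^ 2) * S := by ring
          _ ≤ δ * S := by gcongr
      have hg' : ∀ x, x ∉ G \ B → g x = 0 := fun x hx => hg0 x (fun h =>
        hx (Finset.mem_of_mem_filter x h))
      have h2 := lamD_mul_le hg'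
      have hl := lamD_nonneg (G \ B)
      set l := lamD (G \ B) with hldef
      have h3 : (1 - δ) * S ≤ ∑ x ∈ G \ B, g x ^ 2 := by linarith
      have h4 : l * ((1 - δ) * S) ≤ (1 + 2 * δ) * E :=
        ((mul_le_mul_of_nonneg_left h3 hl).trans h2).trans hg1
      have h5 : (1 - ε) * (1 + 2 * δ) ≤ 1 - δ := by
        rw [hδd]; nlinarith
      have h6 : (1 - ε) * l * S ≤ E := by
        have h7 : (1 + 2 * δ) * ((1 - ε) * l * S) ≤ (1 + 2 * δ) * E := by
          calc (1 + 2 * δ) * ((1 - ε) * l * S) = ((1 - ε) * (1 + 2 * δ)) * (l * S) := by ring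
            _ ≤ (1 - δ) * (l * S) := by gcongr
            _ = l * ((1 - δ) * S) := by ring
            _ ≤ _ := h4
        exact le_of_mul_le_mul_left h7 (by positivity)
      exact (mul_le_mul_of_nonneg_right (min_le_left _ _) hS0).trans h6

/-- The deep part has almost the same eigenvalue as the whole set (same cut off as in `robin_ge`,
from depth `L` to depth `L'`): used to pass from `G` to one component of the deep part. -/
theorem lamD_deep {ε Λ : ℝ} (hε : 0 < ε) (hΛ : 0 < Λ) (L : ℕ) :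
    ∃ N₀ : ℝ, 0 < N₀ ∧ ∀ N : ℝ, N₀ ≤ N → ∀ G B : Finset Site, ConnF (G : Set Site)ᶜ →
      (G \ B).Nonempty → lamD (G \ B) ≤ Λ / N ^ 2 →
        ((G \ B).filter (fun x => L < dep G x)).Nonempty ∧
        (1 - ε) * lamD ((G \ B).filter (fun x => L < dep G x)) ≤ lamD (G \ B) := by
  set δ := min ε 1 / 3 with hδd
  have hm : 0 < min ε 1 := lt_min hε one_pos
  have hδ : 0 < δ := by positivity
  have hδ1 : δ ≤ 1 / 3 := by
    rw [hδd]; have := min_le_right ε 1; linarith
  obtain ⟨R, hR, hcut⟩ := FRobin.cutoff hδ one_pos (le_refl 1) (le_max_right L 1)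
  refine ⟨Real.sqrt (R * Λ / δ), Real.sqrt_pos.2 (by positivity), ?_⟩
  intro N hN G B hG hne hlam
  have hNpos : 0 < N := lt_of_lt_of_le (Real.sqrt_pos.2 (by positivity)) hN
  have hN2 : R * Λ / δ ≤ N ^ 2 := by
    have := pow_le_pow_left₀ (Real.sqrt_nonneg _) hN 2
    rwa [Real.sq_sqrt (by positivity)] at this
  obtain ⟨f, hf0, hf, ⟨a, haH, hfa⟩, hfe⟩ := exists_eigen hne
  obtain ⟨g, hg0, hg1, hg2⟩ := hcut G B hG f hf
  set H := G \ B with hH
  set S := ∑ x ∈ H, f x ^ 2 with hS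
  have hSpos : 0 < S := by
    apply Finset.sum_pos' (fun x _ => sq_nonneg _)
    exact ⟨a, haH, by positivity⟩
  have hEf : eform G H 1 f = lamD H * S := by
    rw [FRobin.eform_eq, sub_self, zero_mul, sub_zero, dform, hS, Finset.mul_sum]
    apply Finset.sum_congr rfl
    intro x hx
    have := hfe x hx
    rw [← Finset.mul_sum]
    linear_combination (f x) * this
  rw [hEf] at hg1 hg2
  have hl := lamD_nonneg H
  have h1 : R * (lamD H * S) ≤ δ * S := by
    have h3 : R * (Λ / N ^ 2) ≤ δ := by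
      rw [mul_div_assoc', div_le_iff₀ (by positivity)]
      rw [div_le_iff₀ hδ] at hN2
      linarith
    calc R * (lamD H * S) = R * lamD H * S := by ring
      _ ≤ R * (Λ / N ^ 2) * S := by gcongr
      _ ≤ δ * S := by gcongr
  have h3 : (1 - δ) * S ≤ ∑ x ∈ H, g x ^ 2 := by linarith
  set D := H.filter (fun x => max L 1 < dep G x) with hD
  have hDH : D ⊆ H := Finset.filter_subset _ _
  have h4 : ∑ x ∈ H, g x ^ 2 = ∑ x ∈ D, g x ^ 2 := FRobin.ext_sq hDH hg0
  have h5 : dform H g = dform D g := FRobin.ext_dform hDH hg0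
  have hgpos : 0 < ∑ x ∈ D, g x ^ 2 := by
    rw [← h4]
    have : 0 < (1 - δ) * S := by
      apply mul_pos _ hSpos
      linarith
    linarith
  have hDne : D.Nonempty := by
    by_contra h
    rw [Finset.not_nonempty_iff_eq_empty] at h
    rw [h] at hgpos
    simp at hgpos
  have hsub : D ⊆ H.filter (fun x => L < dep G x) := by
    intro x hx
    rw [hD, Finset.mem_filter] at hx
    rw [Finset.mem_filter]
    exact ⟨hx.1, lt_of_le_of_lt (le_max_left _ _) hx.2⟩
  refine ⟨hDne.mono hsub, ?_⟩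
  have h6 : lamD (H.filter (fun x => L < dep G x)) ≤ lamD D := lamD_anti hsub hDne
  have hl' := lamD_nonneg (H.filter (fun x => L < dep G x))
  by_cases hε1 : 1 ≤ ε
  · exact (mul_nonpos_of_nonpos_of_nonneg (by linarith) hl').trans hl
  · push Not at hε1
    have hδε : δ = ε / 3 := by rw [hδd, min_eq_left hε1.le]
    have h7 := lamD_mul_le hg0
    rw [← h5] at h7
    rw [h4] at h3
    have hlD := lamD_nonneg D
    have h8 : lamD D * ((1 - δ) * S) ≤ (1 + 2 * δ) * (lamD H * S) :=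
      ((mul_le_mul_of_nonneg_left h3 hlD).trans h7).trans hg1
    have h9 : lamD D * (1 - δ) ≤ (1 + 2 * δ) * lamD H := by
      have : (lamD D * (1 - δ)) * S ≤ ((1 + 2 * δ) * lamD H) * S := by linarith
      exact le_of_mul_le_mul_right this hSpos
    have h10 : (1 - ε) * (1 + 2 * δ) ≤ 1 - δ := by
      rw [hδε]; nlinarith
    have h11 : (1 + 2 * δ) * ((1 - ε) * lamD D) ≤ (1 + 2 * δ) * lamD H := by
      calc (1 + 2 * δ) * ((1 - ε) * lamD D) = ((1 - ε) * (1 + 2 * δ)) * lamD D := by ring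
        _ ≤ (1 - δ) * lamD D := by gcongr
        _ = lamD D * (1 - δ) := by ring
        _ ≤ _ := h9
    have h12 : (1 - ε) * lamD D ≤ lamD H := le_of_mul_le_mul_left h11 (by positivity)
    exact (mul_le_mul_of_nonneg_left h6 (by linarith)).trans h12

end Pool.Agent.WSB71
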