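import Pool.Agent.LT.Shape
import Pool.Agent.WSB71.Robin

/-!
# E1: sampling a continuum test function on the lattice

Riemann sums are written as integrals of functions that are constant on the cells of `N⁻¹ ℤ²`.
-/

open MeasureTheory Filter Topology
open scoped NNReal ENNReal

namespace Pool.Agent.WSB71

open Pool.Agent.LT

/-- the lattice cell of `y` at scale `N` -/
noncomputable def eFl (N : ℝ) (y : Plane) : Site := (⌊N * y 0⌋, ⌊N * y 1⌋)

lemma eFl_measurable (N : ℝ) : Measurable (eFl N) := by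
  have h : ∀ i : Fin 2, Measurable fun y : Plane => ⌊N * y i⌋ := fun i =>
    Int.measurable_floor.comp (by fun_prop : Continuous fun y : Plane => N * y i).measurable
  exact (h 0).prodMk (h 1)

lemma volume_eFl {N : ℝ} (hN : 0 < N) (x : Site) :
    volume (eFl N ⁻¹' {x}) = ENNReal.ofReal ((N ^ 2)⁻¹) := by
  have hmp := EuclideanSpace.volume_preserving_symm_measurableEquiv_toLp (Fin 2)
  have hset : eFl N ⁻¹' {x} = (MeasurableEquiv.toLp 2 (Fin 2 → ℝ)).symm ⁻¹'
        (Set.pi Set.univ fun i => Set.Ico ((![(x.1 : ℝ) / N, (x.2 : ℝ) / N]) i)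
          ((![((x.1 : ℝ) + 1) / N, ((x.2 : ℝ) + 1) / N]) i)) := by
    ext y
    simp only [eFl, Set.mem_preimage, Set.mem_singleton_iff, Prod.ext_iff, Set.mem_pi,
      Set.mem_univ, true_implies, Fin.forall_fin_two, Int.floor_eq_iff, Set.mem_Ico,
      Matrix.cons_val_zero, Matrix.cons_val_one, div_le_iff₀' hN, lt_div_iff₀' hN]
    rfl
  rw [hset, hmp.measure_preimage]
  · rw [Real.volume_pi_Ico]
    simp only [Fin.prod_univ_two, Matrix.cons_val_zero, Matrix.cons_val_one]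
    rw [← ENNReal.ofReal_mul (by rw [← sub_div]; simp [hN.le])]
    congr 1
    field_simp
    ring
  · exact (MeasurableSet.univ_pi fun i => measurableSet_Ico).nullMeasurableSet

lemma integral_eFl {N : ℝ} (hN : 0 < N) {g : Site → ℝ} {S : Finset Site}
    (hg : ∀ x, x ∉ S → g x = 0) : ∫ y, g (eFl N y) = (N ^ 2)⁻¹ * ∑ x ∈ S, g x := by
  classical
  have h1 : (fun y => g (eFl N y)) =
      fun y => ∑ x ∈ S, (eFl N ⁻¹' {x}).indicator (fun _ => g x) y := by
    funext y
    by_cases hy : eFl N y ∈ S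
    · rw [Finset.sum_eq_single_of_mem _ hy]
      · rw [Set.indicator_of_mem (by simp)]
      · intro x _ hx
        rw [Set.indicator_of_notMem]
        simpa using fun h => hx h.symm
    · rw [hg _ hy, Finset.sum_eq_zero]
      intro x hx
      rw [Set.indicator_of_notMem]
      rintro h
      rw [Set.mem_preimage, Set.mem_singleton_iff] at h
      exact hy (h ▸ hx)
  have hms : ∀ x : Site, MeasurableSet (eFl N ⁻¹' {x}) := fun x =>
    eFl_measurable N (measurableSet_singleton x)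
  rw [h1, integral_finset_sum]
  · rw [Finset.mul_sum]
    refine Finset.sum_congr rfl fun x _ => ?_
    rw [integral_indicator_const _ (hms x), smul_eq_mul, measureReal_def, volume_eFl hN,
      ENNReal.toReal_ofReal (by positivity)]
  · intro x _
    refine IntegrableOn.integrable_indicator ?_ (hms x)
    exact integrableOn_const (by rw [volume_eFl hN]; exact ENNReal.ofReal_ne_top) (by simp)

/-- the point of `N⁻¹ ℤ²` below `y` -/
noncomputable def ePt (N : ℝ) (y : Plane) : Plane := N⁻¹ • toPlane (eFl N y)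

lemma ePt_dist {N : ℝ} (hN : 0 < N) (y : Plane) : dist (ePt N y) y ≤ 2 * N⁻¹ := by
  have h : ∀ t : ℝ, |N⁻¹ * (⌊N * t⌋ : ℝ) - t| ≤ N⁻¹ := by
    intro t
    have h1 := Int.floor_le (N * t)
    have h2 := Int.lt_floor_add_one (N * t)
    have h3 : N⁻¹ * (⌊N * t⌋ : ℝ) - t = N⁻¹ * ((⌊N * t⌋ : ℝ) - N * t) := by
      field_simp
    rw [h3, abs_mul, abs_of_pos (inv_pos.2 hN)]
    refine mul_le_of_le_one_right (inv_pos.2 hN).le ?_
    rw [abs_le]
    constructor <;> linarith
  have h1 : dist (ePt N y) y ≤ Real.sqrt 2 * N⁻¹ := by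
    refine plane_dist_le (inv_pos.2 hN).le ?_ ?_
    · simpa [ePt, eFl] using h (y 0)
    · simpa [ePt, eFl] using h (y 1)
  refine h1.trans ?_
  have := sqrt_two_bounds.2
  exact mul_le_mul_of_nonneg_right (by linarith) (inv_pos.2 hN).le

lemma ePt_tendsto (y : Plane) : Tendsto (fun N : ℝ => ePt N y) atTop (𝓝 y) := by
  rw [tendsto_iff_dist_tendsto_zero]
  have h1 : Tendsto (fun N : ℝ => 2 * N⁻¹) atTop (𝓝 0) := by
    simpa using tendsto_inv_atTop_zero.const_mul (2 : ℝ)
  refine squeeze_zero' (Eventually.of_forall fun N => dist_nonneg) ?_ h1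
  filter_upwards [eventually_gt_atTop 0] with N hN
  exact ePt_dist hN y

lemma measurable_of_eFl {α : Type*} [MeasurableSpace α] (N : ℝ) (g : Site → α) :
    Measurable fun y : Plane => g (eFl N y) :=
  (measurable_of_countable g).comp (eFl_measurable N)

/-- dominated convergence for functions supported in a ball -/
lemma eDom {F : ℝ → Plane → ℝ} {G : Plane → ℝ} {ρ K : ℝ}
    (hm : ∀ N, AEStronglyMeasurable (F N) volume)
    (hb : ∀ N, 1 ≤ N → ∀ y, |F N y| ≤ K) (hs : ∀ N, 1 ≤ N → ∀ y, F N y ≠ 0 → ‖y‖ ≤ ρ)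
    (hl : ∀ y, Tendsto (fun N => F N y) atTop (𝓝 (G y))) :
    Tendsto (fun N => ∫ y, F N y) atTop (𝓝 (∫ y, G y)) := by
  refine tendsto_integral_filter_of_dominated_convergence
    ((Metric.closedBall (0 : Plane) ρ).indicator fun _ => K) (Eventually.of_forall hm) ?_ ?_
    (Eventually.of_forall hl)
  · filter_upwards [eventually_ge_atTop 1] with N hN
    refine Eventually.of_forall fun y => ?_
    by_cases hy : F N y = 0
    · rw [hy, norm_zero]
      refine Set.indicator_nonneg (fun _ _ => ?_) _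
      exact (abs_nonneg _).trans (hb N hN y)
    · rw [Set.indicator_of_mem (by rw [mem_closedBall_zero_iff]; exact hs N hN y hy)]
      exact hb N hN y
  · refine IntegrableOn.integrable_indicator ?_ Metric.isClosed_closedBall.measurableSet
    exact integrableOn_const measure_closedBall_lt_top.ne (by simp)

lemma eSupp {f : Plane → ℝ} (hc : HasCompactSupport f) : ∃ ρ : ℝ, ∀ y, f y ≠ 0 → ‖y‖ ≤ ρ := by
  obtain ⟨ρ, hρ⟩ := hc.isCompact.isBounded.subset_closedBall (0 : Plane)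
  refine ⟨ρ, fun y hy => ?_⟩
  have := hρ (subset_tsupport f (Function.mem_support.2 hy))
  rwa [mem_closedBall_zero_iff] at this

lemma tendsto_sq {f : Plane → ℝ} (hf : Continuous f) (hc : HasCompactSupport f) :
    Tendsto (fun N : ℝ => ∫ y, f (ePt N y) ^ 2) atTop (𝓝 (∫ y, f y ^ 2)) := by
  obtain ⟨K, hK⟩ := hf.bounded_above_of_compact_support hc
  obtain ⟨ρ, hρ⟩ := eSupp hc
  refine eDom (ρ := ρ + 2) (K := K ^ 2) (fun N => ?_) (fun N _ y => ?_) (fun N hN y hy => ?_)
    (fun y => ?_)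
  · exact (measurable_of_eFl N fun x => f (N⁻¹ • toPlane x) ^ 2).aestronglyMeasurable
  · rw [abs_pow]
    exact pow_le_pow_left₀ (abs_nonneg _) (hK _) 2
  · have h1 : f (ePt N y) ≠ 0 := fun h => hy (by simp [h])
    have h2 := hρ _ h1
    have h3 := ePt_dist (by linarith : (0 : ℝ) < N) y
    have h4 : N⁻¹ ≤ 1 := inv_le_one_of_one_le₀ hN
    rw [dist_eq_norm] at h3
    have h5 : ‖y‖ ≤ ‖ePt N y‖ + ‖ePt N y - y‖ := by
      have := norm_sub_le (ePt N y) (ePt N y - y)
      simpa using this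
    linarith
  · exact ((hf.tendsto y).comp (ePt_tendsto y)).pow 2

lemma tendsto_quot {f : Plane → ℝ} (hf : ContDiff ℝ 1 f) (y v : Plane) :
    Tendsto (fun N : ℝ => N * (f (ePt N y + N⁻¹ • v) - f (ePt N y))) atTop
      (𝓝 (fderiv ℝ f y v)) := by
  have h1 : HasStrictFDerivAt f (fderiv ℝ f y) y := hf.contDiffAt.hasStrictFDerivAt one_ne_zero
  have hinv : Tendsto (fun N : ℝ => N⁻¹ • v) atTop (𝓝 0) := by
    simpa using (tendsto_inv_atTop_zero (𝕜 := ℝ)).smul_const v
  have h2 : Tendsto (fun N : ℝ => (ePt N y + N⁻¹ • v, ePt N y)) atTop (𝓝 (y, y)) := by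
    refine Tendsto.prodMk_nhds ?_ (ePt_tendsto y)
    simpa using (ePt_tendsto y).add hinv
  have h3 := h1.isLittleO.comp_tendsto h2
  simp only [Function.comp_def, add_sub_cancel_left] at h3
  have h4 : Tendsto (fun N : ℝ => N * (f (ePt N y + N⁻¹ • v) - f (ePt N y)
      - fderiv ℝ f y (N⁻¹ • v))) atTop (𝓝 0) := by
    rw [Metric.tendsto_atTop]
    intro ε hε
    have hc : 0 < ε / (‖v‖ + 1) := by positivity
    obtain ⟨N₀, hN₀⟩ := eventually_atTop.1 (h3.def hc)
    refine ⟨max N₀ 1, fun N hN => ?_⟩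
    have h5 := hN₀ N ((le_max_left _ _).trans hN)
    have hN0 : 0 < N := lt_of_lt_of_le one_pos ((le_max_right _ _).trans hN)
    rw [dist_zero_right, norm_mul, Real.norm_of_nonneg hN0.le]
    rw [norm_smul, norm_inv, Real.norm_of_nonneg hN0.le] at h5
    calc N * ‖f (ePt N y + N⁻¹ • v) - f (ePt N y) - fderiv ℝ f y (N⁻¹ • v)‖
        ≤ N * (ε / (‖v‖ + 1) * (N⁻¹ * ‖v‖)) := mul_le_mul_of_nonneg_left h5 hN0.le
      _ = ε * (‖v‖ / (‖v‖ + 1)) := by field_simp
      _ < ε * 1 := by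
          refine mul_lt_mul_of_pos_left ?_ hε
          rw [div_lt_one (by positivity)]
          linarith
      _ = ε := mul_one ε
  have h6 : Tendsto (fun N : ℝ => N * (f (ePt N y + N⁻¹ • v) - f (ePt N y)
      - fderiv ℝ f y (N⁻¹ • v)) + fderiv ℝ f y v) atTop (𝓝 (fderiv ℝ f y v)) := by
    simpa using h4.add_const (fderiv ℝ f y v)
  refine h6.congr' ?_
  filter_upwards [eventually_gt_atTop 0] with N hN
  rw [map_smul, smul_eq_mul]
  field_simp
  ring

lemma tendsto_grad {f : Plane → ℝ} (hf : ContDiff ℝ 1 f) (hc : HasCompactSupport f) (x : Site) :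
    Tendsto (fun N : ℝ => ∫ y, (N * (f (ePt N y + N⁻¹ • toPlane x) - f (ePt N y))) ^ 2) atTop
      (𝓝 (∫ y, (fderiv ℝ f y (toPlane x)) ^ 2)) := by
  obtain ⟨L, hL⟩ := ContDiff.lipschitzWith_of_hasCompactSupport hc hf one_ne_zero
  obtain ⟨ρ, hρ⟩ := eSupp hc
  refine eDom (ρ := ρ + 2 + ‖toPlane x‖) (K := (L * ‖toPlane x‖) ^ 2) (fun N => ?_)
    (fun N hN y => ?_) (fun N hN y hy => ?_) (fun y => ?_)
  · exact (measurable_of_eFl N fun z => (N * (f (N⁻¹ • toPlane z + N⁻¹ • toPlane x)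
      - f (N⁻¹ • toPlane z))) ^ 2).aestronglyMeasurable
  · have hN0 : 0 < N := by linarith
    rw [abs_pow]
    refine pow_le_pow_left₀ (abs_nonneg _) ?_ 2
    have h1 := hL.dist_le_mul (ePt N y + N⁻¹ • toPlane x) (ePt N y)
    rw [Real.dist_eq, dist_self_add_left, norm_smul, norm_inv, Real.norm_of_nonneg hN0.le] at h1
    rw [abs_mul, abs_of_pos hN0]
    calc N * |f (ePt N y + N⁻¹ • toPlane x) - f (ePt N y)| ≤ N * (L * (N⁻¹ * ‖toPlane x‖)) :=
          mul_le_mul_of_nonneg_left h1 hN0.le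
      _ = L * ‖toPlane x‖ := by field_simp
  · have h3 := ePt_dist (by linarith : (0 : ℝ) < N) y
    have h4 : N⁻¹ ≤ 1 := inv_le_one_of_one_le₀ hN
    have h40 : 0 ≤ N⁻¹ := inv_nonneg.2 (by linarith)
    rw [dist_eq_norm] at h3
    have h5 : ‖y‖ ≤ ‖ePt N y‖ + ‖ePt N y - y‖ := by
      have := norm_sub_le (ePt N y) (ePt N y - y)
      simpa using this
    have h6 : ‖N⁻¹ • toPlane x‖ ≤ ‖toPlane x‖ := by
      rw [norm_smul, Real.norm_of_nonneg h40]
      exact mul_le_of_le_one_left (norm_nonneg _) h4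
    by_cases h1 : f (ePt N y) = 0
    · have h2 : f (ePt N y + N⁻¹ • toPlane x) ≠ 0 := fun h => hy (by simp [h, h1])
      have h7 := hρ _ h2
      have h8 : ‖ePt N y‖ ≤ ‖ePt N y + N⁻¹ • toPlane x‖ + ‖N⁻¹ • toPlane x‖ := by
        have := norm_sub_le (ePt N y + N⁻¹ • toPlane x) (N⁻¹ • toPlane x)
        simpa using this
      linarith
    · have h7 := hρ _ h1
      linarith [norm_nonneg (toPlane x)]
  · exact (tendsto_quot hf y (toPlane x)).pow 2

lemma eNorm (L : Plane →L[ℝ] ℝ) : L (toPlane (1, 0)) ^ 2 + L (toPlane (0, 1)) ^ 2 ≤ ‖L‖ ^ 2 := by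
  set a := L (toPlane (1, 0)) with ha
  set b := L (toPlane (0, 1)) with hb
  have h1 : L (a • toPlane (1, 0) + b • toPlane (0, 1)) = a ^ 2 + b ^ 2 := by
    rw [map_add, map_smul, map_smul, ← ha, ← hb, smul_eq_mul, smul_eq_mul]
    ring
  have h2 : ‖a • toPlane (1, 0) + b • toPlane (0, 1)‖ = Real.sqrt (a ^ 2 + b ^ 2) := by
    rw [EuclideanSpace.norm_eq, Fin.sum_univ_two]
    simp [toPlane]
  have h3 := L.le_opNorm (a • toPlane (1, 0) + b • toPlane (0, 1))
  rw [h1, h2] at h3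
  have h0 : 0 ≤ a ^ 2 + b ^ 2 := by positivity
  rw [Real.norm_of_nonneg h0] at h3
  have h4 : Real.sqrt (a ^ 2 + b ^ 2) * Real.sqrt (a ^ 2 + b ^ 2) = a ^ 2 + b ^ 2 :=
    Real.mul_self_sqrt h0
  rcases h0.eq_or_lt with h5 | h5
  · rw [← h5]
    positivity
  · have h6 : Real.sqrt (a ^ 2 + b ^ 2) ≤ ‖L‖ := by
      have h7 : 0 < Real.sqrt (a ^ 2 + b ^ 2) := Real.sqrt_pos.2 h5
      refine le_of_mul_le_mul_right ?_ h7
      rw [h4]
      exact h3
    calc a ^ 2 + b ^ 2 = Real.sqrt (a ^ 2 + b ^ 2) ^ 2 := by rw [Real.sq_sqrt h0]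
      _ ≤ ‖L‖ ^ 2 := pow_le_pow_left₀ (Real.sqrt_nonneg _) h6 2

/-- the Dirichlet form as a sum over edges -/
lemma dform_tsum {D : Finset Site} {F : Site → ℝ} (hF : ∀ x, x ∉ D → F x = 0) :
    dform D F = ∑' x : Site, ((F (x + (1, 0)) - F x) ^ 2 + (F (x + (0, 1)) - F x) ^ 2) := by
  have hs : ∀ e : Site, Summable fun x : Site => F (x + e) * F x := fun e =>
    summable_of_ne_finset_zero (s := D) fun x hx => by rw [hF x hx, mul_zero]
  have hs' : ∀ e : Site, Summable fun x : Site => F x * F (x + e) := fun e =>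
    summable_of_ne_finset_zero (s := D) fun x hx => by rw [hF x hx, zero_mul]
  have h2 : Summable fun x : Site => F x ^ 2 :=
    summable_of_ne_finset_zero (s := D) fun x hx => by rw [hF x hx]; simp
  have h2e : ∀ e : Site, Summable fun x : Site => F (x + e) ^ 2 := fun e =>
    (Equiv.addRight e).summable_iff.2 h2
  have he : ∀ e : Site, ∑' x : Site, F (x + e) ^ 2 = ∑' x : Site, F x ^ 2 := fun e =>
    (Equiv.addRight e).tsum_eq fun x => F x ^ 2
  have hneg : ∀ e : Site, ∑' x : Site, F x * F (x + -e) = ∑' x : Site, F (x + e) * F x := by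
    intro e
    rw [← (Equiv.addRight e).tsum_eq fun x => F x * F (x + -e)]
    refine tsum_congr fun x => ?_
    simp
  have hone : ∀ e : Site, Summable (fun x : Site => (F (x + e) - F x) ^ 2) ∧
      ∑' x : Site, (F (x + e) - F x) ^ 2 = 2 * ∑' x : Site, F x ^ 2 - 2 * ∑' x : Site, F (x + e) * F x := by
    intro e
    have h3 : (fun x : Site => (F (x + e) - F x) ^ 2) =
        fun x => (F (x + e) ^ 2 + F x ^ 2) - 2 * (F (x + e) * F x) := by
      funext x
      ring
    rw [h3]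
    refine ⟨((h2e e).add h2).sub ((hs e).mul_left 2), ?_⟩
    rw [((h2e e).add h2).tsum_sub ((hs e).mul_left 2), (h2e e).tsum_add h2, he, tsum_mul_left]
    ring
  rw [(hone (1, 0)).1.tsum_add (hone (0, 1)).1, (hone (1, 0)).2, (hone (0, 1)).2]
  have h4 : dform D F = ∑' x : Site, (4 * F x ^ 2 - ∑ e ∈ units, F x * F (x + e)) := by
    rw [dform, tsum_eq_sum (s := D)]
    intro x hx
    rw [hF x hx]
    simp
  have h5 : ∀ x : Site, ∑ e ∈ units, F x * F (x + e) =
      (F x * F (x + (1, 0)) + F x * F (x + -(1, 0))) +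
        (F x * F (x + (0, 1)) + F x * F (x + -(0, 1))) := by
    intro x
    have e1 : (-(1, 0) : Site) = (-1, 0) := rfl
    have e2 : (-(0, 1) : Site) = (0, -1) := rfl
    rw [units, Finset.sum_insert (by decide), Finset.sum_insert (by decide),
      Finset.sum_insert (by decide), Finset.sum_singleton, e1, e2]
    ring
  rw [h4]
  simp only [h5]
  have h6 := hs' (1, 0)
  have h7 := hs' (-(1, 0))
  have h8 := hs' (0, 1)
  have h9 := hs' (-(0, 1))
  rw [(h2.mul_left 4).tsum_sub ((h6.add h7).add (h8.add h9)), (h6.add h7).tsum_add (h8.add h9),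
    h6.tsum_add h7, h8.tsum_add h9, hneg, hneg, tsum_mul_left]
  have hc : ∀ e : Site, ∑' x : Site, F x * F (x + e) = ∑' x : Site, F (x + e) * F x := fun e =>
    tsum_congr fun x => mul_comm _ _
  rw [hc, hc]
  ring

/-- E1, sampling: for a test function `f` of `lam U` sample `f (x / N)`: Riemann sums of `f²` and
of the squares of the difference quotients converge to the integrals. `C = tsupport f`. -/
theorem lamD_le_lam {U : Set Plane} (hU : IsOpen U) (hne : U.Nonempty) {ε : ℝ} (hε : 0 < ε) :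
    ∃ C : Set Plane, IsCompact C ∧ C ⊆ U ∧ ∃ N₀ : ℝ, 0 < N₀ ∧ ∀ N : ℝ, N₀ ≤ N →
      ∀ D : Finset Site, (∀ x : Site, N⁻¹ • toPlane x ∈ C → x ∈ D) →
        N ^ 2 * lamD D ≤ lam U + ε := by
  -- a good test function
  have hset : {r | ∃ f : Plane → ℝ, ContDiff ℝ 1 f ∧ HasCompactSupport f ∧ tsupport f ⊆ U ∧
      ∫ x, f x ^ 2 = 1 ∧ r = ∫ x, ‖fderiv ℝ f x‖ ^ 2}.Nonempty := by
    obtain ⟨x, hx⟩ := hne
    obtain ⟨f, hf1, hf2, hf3, _, hf5⟩ := exists_contDiff_tsupport_subset (n := 1) (hU.mem_nhds hx)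
    have hpos : 0 < ∫ y, f y ^ 2 := by
      refine Continuous.integral_pos_of_hasCompactSupport_nonneg_nonzero (x := x)
        (hf3.continuous.pow 2) ?_ (fun y => sq_nonneg _) (by rw [hf5]; norm_num)
      exact hf2.comp_left (g := fun t : ℝ => t ^ 2) (by simp)
    refine ⟨_, fun y => (Real.sqrt (∫ y, f y ^ 2))⁻¹ * f y, contDiff_const.mul hf3, hf2.mul_left,
      (tsupport_mul_subset_right).trans hf1, ?_, rfl⟩
    have : ∀ y, ((Real.sqrt (∫ y, f y ^ 2))⁻¹ * f y) ^ 2 = (∫ y, f y ^ 2)⁻¹ * f y ^ 2 := by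
      intro y
      rw [mul_pow, inv_pow, Real.sq_sqrt hpos.le]
    simp only [this]
    rw [integral_const_mul, inv_mul_cancel₀ hpos.ne']
  obtain ⟨r, ⟨f, hf, hc, hsub, hf1, hr⟩, hrlt⟩ := exists_lt_of_csInf_lt hset
    (show sInf _ < lam U + ε by rw [lam]; linarith)
  have hlim : Tendsto (fun N : ℝ =>
      ((∫ y, (N * (f (ePt N y + N⁻¹ • toPlane (1, 0)) - f (ePt N y))) ^ 2) +
        ∫ y, (N * (f (ePt N y + N⁻¹ • toPlane (0, 1)) - f (ePt N y))) ^ 2) /
        ∫ y, f (ePt N y) ^ 2) atTop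
      (𝓝 (((∫ y, (fderiv ℝ f y (toPlane (1, 0))) ^ 2) +
        ∫ y, (fderiv ℝ f y (toPlane (0, 1))) ^ 2) / 1)) := by
    have h1 := tendsto_sq hf.continuous hc
    rw [hf1] at h1
    exact ((tendsto_grad hf hc (1, 0)).add (tendsto_grad hf hc (0, 1))).div h1 one_ne_zero
  have hle : ((∫ y, (fderiv ℝ f y (toPlane (1, 0))) ^ 2) +
        ∫ y, (fderiv ℝ f y (toPlane (0, 1))) ^ 2) / 1 ≤ r := by
    have hcf : Continuous (fderiv ℝ f) := hf.continuous_fderiv one_ne_zero
    have hcc : HasCompactSupport (fderiv ℝ f) := hc.fderiv ℝ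
    have hi : ∀ x : Site, Integrable fun y => (fderiv ℝ f y (toPlane x)) ^ 2 := by
      intro x
      refine Continuous.integrable_of_hasCompactSupport ?_ ?_
      · exact (hcf.clm_apply continuous_const).pow 2
      · exact hcc.comp_left (g := fun L : Plane →L[ℝ] ℝ => (L (toPlane x)) ^ 2) (by simp)
    have hin : Integrable fun y => ‖fderiv ℝ f y‖ ^ 2 := by
      refine Continuous.integrable_of_hasCompactSupport (hcf.norm.pow 2) ?_
      exact hcc.comp_left (g := fun L : Plane →L[ℝ] ℝ => ‖L‖ ^ 2) (by simp)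
    rw [div_one, hr, ← integral_add (hi _) (hi _)]
    exact integral_mono ((hi _).add (hi _)) hin fun y => eNorm (fderiv ℝ f y)
  have hev1 := hlim.eventually_lt_const (hle.trans_lt hrlt)
  have hev2 : ∀ᶠ N : ℝ in atTop, 0 < ∫ y, f (ePt N y) ^ 2 := by
    have h1 := tendsto_sq hf.continuous hc
    rw [hf1] at h1
    exact h1.eventually_const_lt one_pos
  obtain ⟨N₀, hN₀⟩ := eventually_atTop.1 (hev1.and hev2)
  refine ⟨tsupport f, hc, hsub, max N₀ 1, by positivity, ?_⟩
  intro N hN D hD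
  have hN0 : 0 < N := lt_of_lt_of_le one_pos ((le_max_right _ _).trans hN)
  obtain ⟨h1, h2⟩ := hN₀ N ((le_max_left _ _).trans hN)
  set F : Site → ℝ := fun x => f (N⁻¹ • toPlane x) with hFdef
  have hF : ∀ x, x ∉ D → F x = 0 := by
    intro x hx
    by_contra hne
    exact hx (hD x (subset_tsupport f (Function.mem_support.2 hne)))
  have hsum : (∫ y, f (ePt N y) ^ 2) = (N ^ 2)⁻¹ * ∑ x ∈ D, F x ^ 2 :=
    integral_eFl hN0 (g := fun x => F x ^ 2) fun x hx => by
      simp only [hF x hx]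
      norm_num
  have hadd : ∀ x e : Site, F (x + e) = f (N⁻¹ • toPlane x + N⁻¹ • toPlane e) := by
    intro x e
    simp only [hFdef]
    rw [← smul_add]
    congr 2
    ext i
    fin_cases i <;> simp [toPlane]
  classical
  have hgrad : ∀ e : Site, (∫ y, (N * (f (ePt N y + N⁻¹ • toPlane e) - f (ePt N y))) ^ 2) =
      ∑' x : Site, (F (x + e) - F x) ^ 2 := by
    intro e
    have hz : ∀ x, x ∉ D ∪ D.image (fun x => x - e) → (F (x + e) - F x) ^ 2 = 0 := by
      intro x hx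
      rw [Finset.mem_union, not_or] at hx
      have h3 : x + e ∉ D := fun h => hx.2 (Finset.mem_image.2 ⟨x + e, h, by simp⟩)
      rw [hF x hx.1, hF _ h3]
      simp
    rw [tsum_eq_sum hz]
    have h4 := integral_eFl hN0 (g := fun x => (N * (F (x + e) - F x)) ^ 2)
      (S := D ∪ D.image (fun x => x - e)) (fun x hx => by
        have := hz x hx
        simp only [mul_pow, this, mul_zero])
    have h5 : (fun y => (N * (f (ePt N y + N⁻¹ • toPlane e) - f (ePt N y))) ^ 2) =
        fun y => (N * (F (eFl N y + e) - F (eFl N y))) ^ 2 := by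
      funext y
      rw [hadd]
      rfl
    rw [h5, h4]
    simp only [mul_pow]
    rw [← Finset.mul_sum, ← mul_assoc, inv_mul_cancel₀ (by positivity), one_mul]
  have hsm : ∀ e : Site, Summable fun x : Site => (F (x + e) - F x) ^ 2 := by
    intro e
    refine summable_of_ne_finset_zero (s := D ∪ D.image (fun x => x - e)) fun x hx => ?_
    rw [Finset.mem_union, not_or] at hx
    have h3 : x + e ∉ D := fun h => hx.2 (Finset.mem_image.2 ⟨x + e, h, by simp⟩)
    rw [hF x hx.1, hF _ h3]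
    simp
  have hdf : dform D F = (∫ y, (N * (f (ePt N y + N⁻¹ • toPlane (1, 0)) - f (ePt N y))) ^ 2) +
        ∫ y, (N * (f (ePt N y + N⁻¹ • toPlane (0, 1)) - f (ePt N y))) ^ 2 := by
    rw [hgrad, hgrad, dform_tsum hF, (hsm (1, 0)).tsum_add (hsm (0, 1))]
  have h3 := lamD_mul_le hF
  rw [hdf] at h3
  have h4 : ∑ x ∈ D, F x ^ 2 = N ^ 2 * ∫ y, f (ePt N y) ^ 2 := by
    rw [hsum, ← mul_assoc, mul_inv_cancel₀ (by positivity), one_mul]
  rw [h4] at h3
  rw [div_lt_iff₀ h2] at h1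
  have h5 : N ^ 2 * lamD D * (∫ y, f (ePt N y) ^ 2) ≤ (lam U + ε) * ∫ y, f (ePt N y) ^ 2 := by
    calc N ^ 2 * lamD D * (∫ y, f (ePt N y) ^ 2) = lamD D * (N ^ 2 * ∫ y, f (ePt N y) ^ 2) := by ring
      _ ≤ _ := h3.trans h1.le
  exact le_of_mul_le_mul_right h5 h2

end Pool.Agent.WSB71
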