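import Pool.Agent.WSB71.TopMain

/-!
# The final theorem, with the scale

`scale_full_of`: shape theorem and law of large numbers for the diameter, from the statement on path space.
-/

open MeasureTheory Filter Topology
open scoped NNReal ENNReal Pointwise

namespace Pool.Agent.WSB71

open Pool.Agent.LT

universe u

/-- One value of `β`. -/
lemma scale_one {β : ℝ} {Ks : Set Plane} (hCC : CC Ks) (hint : (interior Ks).Nonempty)
    (hlim : ∀ δ > 0, ∀ κ > 0, ∃ t₀ : ℝ≥0, ∀ t : ℝ≥0, t₀ ≤ t → ∀ μ : Measure WP, IsLaw μ →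
        μ (evtE β t) ≠ 0 ∧
        μ {f | f ∈ evtE β t ∧ ∀ z : Plane, δ ≤ Metric.hausdorffDist (sR t f)
          ((fun p => z + p) '' Ks)} ≤ ENNReal.ofReal κ * μ (evtE β t)) :
    0 < Metric.diam Ks ∧ ((fun p : Plane => (Metric.diam Ks)⁻¹ • p) '' Ks).Nonempty ∧
      IsCompact ((fun p : Plane => (Metric.diam Ks)⁻¹ • p) '' Ks) ∧
      Convex ℝ ((fun p : Plane => (Metric.diam Ks)⁻¹ • p) '' Ks) ∧
      ∀ (Ω : Type u) [MeasurableSpace Ω] (P : Measure Ω) (X : ℝ≥0 → Ω → Site), IsSRW P X →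
        (∀ᶠ t : ℝ≥0 in atTop, P (evt X β t) ≠ 0) ∧
        ∀ ε > 0, Tendsto (fun t : ℝ≥0 => ProbabilityTheory.cond P (evt X β t)
          {ω | ε ≤ shapeDist ((fun p : Plane => (Metric.diam Ks)⁻¹ • p) '' Ks) X t ω ∨
            ε ≤ |Metric.diam (toPlane '' rangeUpTo X t ω) / (t : ℝ) ^ ((1 : ℝ) / 3)
              - Metric.diam Ks|}) atTop (𝓝 0) := by
  obtain ⟨hne, hcomp, hconv⟩ := hCC
  have hdiam : 0 < Metric.diam Ks := by
    obtain ⟨x, hx⟩ := hint
    obtain ⟨r, hr, hball⟩ := Metric.isOpen_iff.1 isOpen_interior x hx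
    have hx1 : x ∈ Ks := interior_subset hx
    have hx2 : x + !₂[r / 2, 0] ∈ Ks := by
      apply interior_subset
      apply hball
      rw [Metric.mem_ball, dist_self_add_left, EuclideanSpace.norm_eq]
      simp only [Fin.sum_univ_two]
      simp only [norm_zero, Matrix.cons_val_zero, Matrix.cons_val_one,
        Matrix.cons_val_fin_one, Real.norm_eq_abs, sq_abs]
      have h0 : (r / 2) ^ 2 + 0 ^ 2 = (r / 2) ^ 2 := by ring
      rw [h0, Real.sqrt_sq (by positivity)]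
      linarith
    have h1 := Metric.dist_le_diam_of_mem hcomp.isBounded hx2 hx1
    have h2 : 0 < dist (x + !₂[r / 2, 0]) x := by
      rw [dist_pos]
      intro h3
      have h4 := congrArg (fun p : Plane => p 0) h3
      simp at h4
      exact hr.ne' h4
    linarith
  refine ⟨hdiam, hne.image _, hcomp.image (by fun_prop), ?_, ?_⟩
  · have h1 : (fun p : Plane => (Metric.diam Ks)⁻¹ • p) '' Ks = (Metric.diam Ks)⁻¹ • Ks := rfl
    rw [h1]
    exact hconv.smul _
  intro Ω _ P X hX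
  obtain ⟨M, hM⟩ := hcomp.isBounded.exists_norm_le
  have hM0 : 0 ≤ max M 0 := le_max_right _ _
  have hM' : ∀ k ∈ Ks, ‖k‖ ≤ max M 0 := fun k hk => (hM k hk).trans (le_max_left _ _)
  refine ⟨?_, ?_⟩
  · obtain ⟨t₀, ht₀⟩ := hlim 1 one_pos 1 one_pos
    filter_upwards [eventually_ge_atTop t₀] with t ht
    rw [prob_evt hX]
    exact (ht₀ t ht _ hX.isLaw).1
  · intro ε hε
    rw [ENNReal.tendsto_nhds_zero]
    intro κ hκ
    obtain ⟨k, hk0, hkκ⟩ : ∃ k : ℝ, 0 < k ∧ ENNReal.ofReal k ≤ κ := by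
      by_cases htop : κ = ∞
      · exact ⟨1, one_pos, by rw [htop]; exact le_top⟩
      · exact ⟨κ.toReal, ENNReal.toReal_pos hκ.ne' htop, by rw [ENNReal.ofReal_toReal htop]⟩
    set d := Metric.diam Ks with hd
    set q : ℝ := 2 / d + 4 * max M 0 / d ^ 2 with hq
    have hq0 : 0 < q := by positivity
    obtain ⟨δ, hδ⟩ : ∃ δ, δ = min (min (d / 4) (ε / (2 * q))) (ε / 4) := ⟨_, rfl⟩
    have hδ0 : 0 < δ := by rw [hδ]; positivity
    have hδ1 : 4 * δ ≤ d := by
      have : δ ≤ d / 4 := by rw [hδ]; exact (min_le_left _ _).trans (min_le_left _ _)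
      linarith
    have hδ2 : q * δ < ε := by
      have h1 : δ ≤ ε / (2 * q) := by rw [hδ]; exact (min_le_left _ _).trans (min_le_right _ _)
      have h2 : q * δ ≤ q * (ε / (2 * q)) := by gcongr
      have h3 : q * (ε / (2 * q)) = ε / 2 := by field_simp
      linarith
    have hδ3 : 2 * δ < ε := by
      have : δ ≤ ε / 4 := by rw [hδ]; exact min_le_right _ _
      linarith
    obtain ⟨t₀, ht₀⟩ := hlim δ hδ0 k hk0
    filter_upwards [eventually_ge_atTop t₀, eventually_gt_atTop (0 : ℝ≥0)] with t ht htpos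
    refine le_trans ?_ hkκ
    have hN : 0 < NN3 t := by
      unfold NN3
      exact Real.rpow_pos_of_pos (by exact_mod_cast htpos) _
    refine cond_le_of hX (T := {f | ∀ z : Plane, δ ≤ Metric.hausdorffDist (sR t f)
        ((fun p => z + p) '' Ks)}) (ht₀ t ht _ hX.isLaw).2 ?_
    intro ω hω z
    by_contra hcon
    push Not at hcon
    rw [sR_eq] at hcon
    have hRfin : (toPlane '' (rangeF t (pathOf hX.path ω) : Set Site)).Finite :=
      (Finset.finite_toSet _).image _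
    have hRne : (toPlane '' (rangeF t (pathOf hX.path ω) : Set Site)).Nonempty := by
      refine ⟨_, X 0 ω, ?_, rfl⟩
      rw [Finset.mem_coe, mem_rangeF]
      exact ⟨0, zero_le, rfl⟩
    rcases hω with hω | hω
    · obtain ⟨w, hw⟩ := close_rescale hN hδ0 hRfin.isBounded hRne hcomp.isBounded hne hM0 hM'
        hdiam hδ1 hcon
      have h1 : shapeDist ((fun p : Plane => d⁻¹ • p) '' Ks) X t ω ≤ q * δ := by
        refine le_trans (ciInf_le (shapeDist_bdd _ X t ω) w) ?_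
        unfold scaledRange
        rw [rangeUpTo_eq hX]
        exact hw
      have h2 : ε ≤ shapeDist ((fun p : Plane => d⁻¹ • p) '' Ks) X t ω := hω
      linarith
    · rw [rangeUpTo_eq hX] at hω
      set R : Set Plane := toPlane '' (rangeF t (pathOf hX.path ω) : Set Site) with hR
      set A : Set Plane := (fun p => (NN3 t)⁻¹ • p) '' R with hA
      set B : Set Plane := (fun p => z + p) '' Ks with hB
      have hAsm : A = (NN3 t)⁻¹ • R := rfl
      have hBb : Bornology.IsBounded B := (isometry_add z).lipschitz.isBounded_image hcomp.isBounded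
      have hAb : Bornology.IsBounded A := by rw [hAsm]; exact hRfin.isBounded.smul₀ _
      have hfin : Metric.hausdorffEDist A B ≠ ⊤ := edist_ne_top (hRne.image _) (hne.image _) hAb hBb
      have h1 := diam_le_add_of_close hBb hδ0.le (fun x hx =>
        Metric.exists_dist_lt_of_hausdorffDist_lt (s := A) (t := B) hx hcon hfin)
      have h2 := diam_le_add_of_close hAb hδ0.le (fun y hy => by
        obtain ⟨x, hx, h1⟩ := Metric.exists_dist_lt_of_hausdorffDist_lt' (s := A) (t := B) hy hcon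
          hfin
        exact ⟨x, hx, by rw [dist_comm]; exact h1⟩)
      have hdB : Metric.diam B = d := (isometry_add z).diam_image Ks
      have hdA : Metric.diam A = Metric.diam R / (t : ℝ) ^ ((1 : ℝ) / 3) := by
        rw [hAsm, diam_smul₀, Real.norm_eq_abs, abs_of_pos (by positivity), div_eq_inv_mul]
        rfl
      rw [hdB] at h1 h2
      rw [hdA] at h1 h2
      have h3 : |Metric.diam R / (t : ℝ) ^ ((1 : ℝ) / 3) - d| ≤ 2 * δ := by
        rw [abs_le]; constructor <;> linarith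
      linarith

/-- The asymptotics of the diameter of the limiting shape. -/
lemma scale_limit (Ω : Type u) [MeasurableSpace Ω] (P : Measure Ω) (X : ℝ≥0 → Ω → Site)
    (hX : IsSRW P X) (D : ℝ → ℝ) (β₁ : ℝ)
    (hD : ∀ β, β₁ ≤ β → ∀ ε > 0, Tendsto (fun t : ℝ≥0 => ProbabilityTheory.cond P (evt X β t)
        {ω | ε ≤ |Metric.diam (toPlane '' rangeUpTo X t ω) / (t : ℝ) ^ ((1 : ℝ) / 3)
              - D β|}) atTop (𝓝 0)) :
    Tendsto (fun β => D β * β ^ ((1 : ℝ) / 3)) atTop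
      (𝓝 (Real.sqrt 2 * Real.pi ^ ((2 : ℝ) / 3))) := by
  rw [Metric.tendsto_atTop]
  intro ε hε
  set p := Real.pi ^ ((2 : ℝ) / 3) with hp
  have hp0 : 0 < p := Real.rpow_pos_of_pos Real.pi_pos _
  obtain ⟨β₀, hβ₀, hmain⟩ := main_theorem.{u} (ε / (4 * p)) (by positivity)
  refine ⟨max (max β₀ β₁) 1, fun β hβ => ?_⟩
  have hβ0 : β₀ ≤ β := (le_max_left _ _).trans ((le_max_left _ _).trans hβ)
  have hβ1 : β₁ ≤ β := (le_max_right _ _).trans ((le_max_left _ _).trans hβ)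
  have hβpos : 0 < β := lt_of_lt_of_le one_pos ((le_max_right _ _).trans hβ)
  obtain ⟨hpos, hlim⟩ := hmain β hβ0 Ω P X hX
  have hb : 0 < β ^ ((1 : ℝ) / 3) := Real.rpow_pos_of_pos hβpos _
  have hP := hX.prob
  have hlim2 := hD β hβ1 (ε / (4 * β ^ ((1 : ℝ) / 3))) (by positivity)
  have e1 := (ENNReal.tendsto_nhds_zero.1 hlim) (1 / 4) (by norm_num)
  have e2 := (ENNReal.tendsto_nhds_zero.1 hlim2) (1 / 4) (by norm_num)
  obtain ⟨t, ⟨ht1, ht2, ht3⟩, ht4⟩ := ((hpos.and (e1.and e2)).and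
    (eventually_gt_atTop (0 : ℝ≥0))).exists
  have hcp : IsProbabilityMeasure (ProbabilityTheory.cond P (evt X β t)) :=
    ProbabilityTheory.cond_isProbabilityMeasure ht1
  have hex : ∃ ω, |Metric.diam (toPlane '' rangeUpTo X t ω)
        - Real.sqrt 2 * (Real.pi ^ 2 * t / β) ^ ((1 : ℝ) / 3)| <
          ε / (4 * p) * (Real.pi ^ 2 * t / β) ^ ((1 : ℝ) / 3) ∧
      |Metric.diam (toPlane '' rangeUpTo X t ω) / (t : ℝ) ^ ((1 : ℝ) / 3) - D β| <
        ε / (4 * β ^ ((1 : ℝ) / 3)) := by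
    by_contra hcon
    push Not at hcon
    have hcov : (Set.univ : Set Ω) ⊆ {ω | ε / (4 * p) ≤ shapeDist unitSquare X t ω ∨
          ε / (4 * p) * (Real.pi ^ 2 * t / β) ^ ((1 : ℝ) / 3)
            ≤ |Metric.diam (toPlane '' rangeUpTo X t ω)
              - Real.sqrt 2 * (Real.pi ^ 2 * t / β) ^ ((1 : ℝ) / 3)|} ∪
        {ω | ε / (4 * β ^ ((1 : ℝ) / 3)) ≤
          |Metric.diam (toPlane '' rangeUpTo X t ω) / (t : ℝ) ^ ((1 : ℝ) / 3) - D β|} := by
      intro ω _
      by_cases h : |Metric.diam (toPlane '' rangeUpTo X t ω)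
        - Real.sqrt 2 * (Real.pi ^ 2 * t / β) ^ ((1 : ℝ) / 3)| <
          ε / (4 * p) * (Real.pi ^ 2 * t / β) ^ ((1 : ℝ) / 3)
      · right; exact hcon ω h
      · left; right; exact not_lt.1 h
    have h1 : (1 : ℝ≥0∞) ≤ 1 / 4 + 1 / 4 := by
      calc (1 : ℝ≥0∞) = ProbabilityTheory.cond P (evt X β t) Set.univ := measure_univ.symm
        _ ≤ _ := (measure_mono hcov).trans (measure_union_le _ _)
        _ ≤ 1 / 4 + 1 / 4 := add_le_add ht2 ht3
    have h2 : (1 : ℝ≥0∞) / 4 + 1 / 4 < 1 := by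
      have : (1 : ℝ≥0∞) / 4 + 1 / 4 = ENNReal.ofReal (1 / 4 + 1 / 4) := by
        rw [ENNReal.ofReal_add (by norm_num) (by norm_num)]
        rw [ENNReal.ofReal_div_of_pos (by norm_num)]
        simp
      rw [this]
      rw [← ENNReal.ofReal_one]
      apply (ENNReal.ofReal_lt_ofReal_iff (by norm_num)).2
      norm_num
    exact absurd h1 (not_le.2 h2)
  obtain ⟨ω, hω1, hω2⟩ := hex
  have htpos : (0 : ℝ) < t := by exact_mod_cast ht4
  set τ : ℝ := (t : ℝ) ^ ((1 : ℝ) / 3) with hτ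
  set b : ℝ := β ^ ((1 : ℝ) / 3) with hbdef
  have hτ0 : 0 < τ := Real.rpow_pos_of_pos htpos _
  have hx : (Real.pi ^ 2 * t / β) ^ ((1 : ℝ) / 3) = p * τ / b := by
    rw [Real.div_rpow (by positivity) hβpos.le, Real.mul_rpow (by positivity) htpos.le]
    congr 2
    rw [hp, ← Real.rpow_natCast, ← Real.rpow_mul Real.pi_pos.le]
    norm_num
  rw [hx] at hω1
  set m := Metric.diam (toPlane '' rangeUpTo X t ω) with hm
  rw [Real.dist_eq]
  have h1 : |m * b / τ - Real.sqrt 2 * p| < ε / 4 := by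
    have e : m * b / τ - Real.sqrt 2 * p = (m - Real.sqrt 2 * (p * τ / b)) * (b / τ) := by
      field_simp
    rw [e, abs_mul, abs_of_pos (by positivity : 0 < b / τ)]
    calc |m - Real.sqrt 2 * (p * τ / b)| * (b / τ) < ε / (4 * p) * (p * τ / b) * (b / τ) := by
          gcongr
      _ = ε / 4 := by field_simp
  have h2 : |m * b / τ - D β * b| < ε / 4 := by
    have e : m * b / τ - D β * b = (m / τ - D β) * b := by ring
    rw [e, abs_mul, abs_of_pos hb]
    calc |m / τ - D β| * b < ε / (4 * b) * b := by gcongr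
      _ = ε / 4 := by field_simp
  have h3 : D β * b - Real.sqrt 2 * p = (m * b / τ - Real.sqrt 2 * p) - (m * b / τ - D β * b) := by
    ring
  rw [h3]
  have h4 := abs_sub (m * b / τ - Real.sqrt 2 * p) (m * b / τ - D β * b)
  linarith

/-- **The final theorem from the statement on path space, with the scale.** -/
theorem scale_full_of (H : ∃ β₀ : ℝ, 1 ≤ β₀ ∧ ∀ β : ℝ, β₀ ≤ β → (∃ μ : Measure WP, IsLaw μ) →
    ∃ Ks : Set Plane, CC Ks ∧ (interior Ks).Nonempty ∧ ∀ δ > 0, ∀ κ > 0,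
      ∃ t₀ : ℝ≥0, ∀ t : ℝ≥0, t₀ ≤ t → ∀ μ : Measure WP, IsLaw μ →
        μ (evtE β t) ≠ 0 ∧
        μ {f | f ∈ evtE β t ∧ ∀ z : Plane, δ ≤ Metric.hausdorffDist (sR t f)
          ((fun p => z + p) '' Ks)} ≤ ENNReal.ofReal κ * μ (evtE β t)) :
    ∃ β₀ : ℝ, 0 < β₀ ∧ ∃ (S : ℝ → Set (EuclideanSpace ℝ (Fin 2))) (D : ℝ → ℝ),
    ∀ (Ω : Type u) [MeasurableSpace Ω] (P : Measure Ω) (X : ℝ≥0 → Ω → Site), IsSRW P X →
      (∀ β : ℝ, β₀ ≤ β → (S β).Nonempty ∧ IsCompact (S β) ∧ Convex ℝ (S β) ∧ 0 < D β ∧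
        (∀ᶠ t : ℝ≥0 in atTop, P (evt X β t) ≠ 0) ∧
        ∀ ε > 0, Tendsto (fun t : ℝ≥0 => ProbabilityTheory.cond P (evt X β t)
          {ω | ε ≤ shapeDist (S β) X t ω ∨
            ε ≤ |Metric.diam (toPlane '' rangeUpTo X t ω) / (t : ℝ) ^ ((1 : ℝ) / 3) - D β|})
          atTop (𝓝 0)) ∧
      Tendsto (fun β => ⨅ z : EuclideanSpace ℝ (Fin 2),
        Metric.hausdorffDist (S β) ((fun p => z + p) '' unitSquare)) atTop (𝓝 0) ∧
      Tendsto (fun β => D β * β ^ ((1 : ℝ) / 3)) atTop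
        (𝓝 (Real.sqrt 2 * Real.pi ^ ((2 : ℝ) / 3))) := by
  classical
  obtain ⟨β₀, hβ₀, H⟩ := H
  by_cases hlaw : ∃ μ : Measure WP, IsLaw μ
  swap
  · refine ⟨1, one_pos, fun _ => ∅, fun _ => 0, ?_⟩
    intro Ω _ P X hX
    exact absurd ⟨_, hX.isLaw⟩ hlaw
  choose! Ks hK using fun β (hβ : β₀ ≤ β) => H β hβ hlaw
  have hone := fun β (hβ : β₀ ≤ β) =>
    scale_one.{u} (β := β) (hK β hβ).1 (hK β hβ).2.1 (hK β hβ).2.2
  refine ⟨β₀, by linarith, fun β => (fun p => (Metric.diam (Ks β))⁻¹ • p) '' Ks β,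
    fun β => Metric.diam (Ks β), ?_⟩
  intro Ω _ P X hX
  refine ⟨fun β hβ => ?_, ?_, ?_⟩
  · obtain ⟨h1, h2, h3, h4, h5⟩ := hone β hβ
    exact ⟨h2, h3, h4, h1, h5 Ω P X hX⟩
  · apply shapes_converge Ω P X hX _ β₀
    intro β hβ
    obtain ⟨h1, h2, h3, h4, h5⟩ := hone β hβ
    refine ⟨h2, h3, fun ε hε => ?_⟩
    refine tendsto_of_tendsto_of_tendsto_of_le_of_le tendsto_const_nhds ((h5 Ω P X hX).2 ε hε)
      (fun _ => zero_le) (fun t => measure_mono fun ω hω => Or.inl hω)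
  · apply scale_limit Ω P X hX _ β₀
    intro β hβ ε hε
    obtain ⟨h1, h2, h3, h4, h5⟩ := hone β hβ
    refine tendsto_of_tendsto_of_tendsto_of_le_of_le tendsto_const_nhds ((h5 Ω P X hX).2 ε hε)
      (fun _ => zero_le) (fun t => measure_mono fun ω hω => Or.inr hω)

end Pool.Agent.WSB71
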