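import Pool.Agent.WSB71.Defs

/-!
# F8: elementary facts on the weights `gw`, `fw`

Everything follows from the recursion `gw_succ` (integration by parts) and `gw_one`.
-/

open MeasureTheory Filter Topology
open scoped NNReal ENNReal

namespace Pool.Agent.WSB71

open Pool.Agent.LT

/-- the real integral of the weights, index shifted by one -/
noncomputable def f8r (c β : ℝ) (n : ℕ) : ℝ :=
  ∫ s in Set.Ioi β, s ^ n / (n.factorial : ℝ) * Real.exp (-(c * s))

theorem f8_integrable {c : ℝ} (hc : 0 < c) (n : ℕ) (β : ℝ) :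
    IntegrableOn (fun s : ℝ => s ^ n / (n.factorial : ℝ) * Real.exp (-(c * s))) (Set.Ioi β) := by
  refine integrable_of_isBigO_exp_neg (b := c / 2) (half_pos hc) (by fun_prop) ?_
  have h1 : (fun s : ℝ => s ^ n) =o[atTop] fun s => Real.exp (c / 2 * s) :=
    isLittleO_pow_exp_pos_mul_atTop n (half_pos hc)
  have h2 : (fun s : ℝ => s ^ n * ((n.factorial : ℝ)⁻¹ * Real.exp (-(c * s)))) =O[atTop]
      fun s => Real.exp (c / 2 * s) * ((n.factorial : ℝ)⁻¹ * Real.exp (-(c * s))) :=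
    h1.isBigO.mul (Asymptotics.isBigO_refl _ _)
  refine (h2.congr (fun s => ?_) (fun s => ?_)).trans
    (Asymptotics.isBigO_const_mul_self ((n.factorial : ℝ)⁻¹) _ _)
  · rw [div_eq_mul_inv, mul_assoc]
  · rw [mul_left_comm, ← Real.exp_add]
    congr 2
    ring

theorem f8_tendsto {c : ℝ} (hc : 0 < c) (n : ℕ) :
    Tendsto (fun s : ℝ => s ^ n / (n.factorial : ℝ) * Real.exp (-(c * s))) atTop (𝓝 0) := by
  have h1 : (fun s : ℝ => s ^ n) =o[atTop] fun s => Real.exp (c * s) :=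
    isLittleO_pow_exp_pos_mul_atTop n hc
  have h2 := h1.tendsto_div_nhds_zero.const_mul ((n.factorial : ℝ)⁻¹)
  rw [mul_zero] at h2
  refine h2.congr fun s => ?_
  rw [Real.exp_neg]
  ring

theorem f8r_succ {c : ℝ} (hc : 0 < c) (β : ℝ) (n : ℕ) :
    f8r c β (n + 1) = c⁻¹ * (f8r c β n +
      β ^ (n + 1) / ((n + 1).factorial : ℝ) * Real.exp (-(c * β))) := by
  have hd : ∀ s : ℝ, HasDerivAt
      (fun s : ℝ => -(c⁻¹ * (s ^ (n + 1) / ((n + 1).factorial : ℝ) * Real.exp (-(c * s)))))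
      (s ^ (n + 1) / ((n + 1).factorial : ℝ) * Real.exp (-(c * s)) -
        c⁻¹ * (s ^ n / (n.factorial : ℝ) * Real.exp (-(c * s)))) s := by
    intro s
    have h1 : HasDerivAt (fun s : ℝ => s ^ (n + 1) / ((n + 1).factorial : ℝ))
        (s ^ n / (n.factorial : ℝ)) s := by
      have h2 := (hasDerivAt_pow (n + 1) s).div_const ((n + 1).factorial : ℝ)
      refine h2.congr_deriv ?_
      rw [Nat.factorial_succ, Nat.add_sub_cancel]
      push_cast
      have h3 : (n.factorial : ℝ) ≠ 0 := by positivity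
      have h4 : (n : ℝ) + 1 ≠ 0 := by positivity
      field_simp
    have h5 : HasDerivAt (fun s : ℝ => Real.exp (-(c * s))) (Real.exp (-(c * s)) * (-c)) s := by
      have h6 : HasDerivAt (fun s : ℝ => -(c * s)) (-c) s :=
        ((hasDerivAt_id' s).const_mul c).fun_neg.congr_deriv (by rw [mul_one])
      exact h6.exp
    have h7 := ((h1.fun_mul h5).const_mul c⁻¹).fun_neg
    refine h7.congr_deriv ?_
    field_simp
    ring
  have h1 := integral_Ioi_of_hasDerivAt_of_tendsto' (a := β) (fun s _ => hd s)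
    ((f8_integrable hc (n + 1) β).sub ((f8_integrable hc n β).const_mul c⁻¹))
    (((f8_tendsto hc (n + 1)).const_mul c⁻¹).neg)
  rw [integral_sub (f8_integrable hc (n + 1) β) ((f8_integrable hc n β).const_mul c⁻¹),
    integral_const_mul, mul_zero, neg_zero] at h1
  change f8r c β (n + 1) - c⁻¹ * f8r c β n = _ at h1
  linarith

theorem f8r_zero {c : ℝ} (hc : 0 < c) (β : ℝ) : f8r c β 0 = Real.exp (-(c * β)) / c := by
  have hd : ∀ s : ℝ, HasDerivAt (fun s : ℝ => -(c⁻¹ * Real.exp (-(c * s))))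
      (s ^ 0 / (Nat.factorial 0 : ℝ) * Real.exp (-(c * s))) s := by
    intro s
    have h6 : HasDerivAt (fun s : ℝ => -(c * s)) (-c) s :=
      ((hasDerivAt_id' s).const_mul c).fun_neg.congr_deriv (by rw [mul_one])
    have h7 := (h6.exp.const_mul c⁻¹).fun_neg
    refine h7.congr_deriv ?_
    rw [pow_zero, Nat.factorial_zero, Nat.cast_one, div_one, one_mul]
    field_simp
  have h2 : Tendsto (fun s : ℝ => -(c⁻¹ * Real.exp (-(c * s)))) atTop (𝓝 (-(c⁻¹ * 0))) := by
    refine (Tendsto.const_mul _ ?_).neg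
    have h3 := f8_tendsto hc 0
    simpa using h3
  have h1 := integral_Ioi_of_hasDerivAt_of_tendsto' (a := β) (fun s _ => hd s)
    (f8_integrable hc 0 β) h2
  change f8r c β 0 = _ at h1
  rw [h1]
  ring

theorem f8r_nonneg {c β : ℝ} (hβ : 0 ≤ β) (n : ℕ) : 0 ≤ f8r c β n := by
  refine setIntegral_nonneg measurableSet_Ioi fun s hs => ?_
  have h : 0 ≤ s := hβ.trans (le_of_lt hs)
  positivity

theorem f8_gw {β lam : ℝ} (hβ : 0 ≤ β) (hl : lam < 4) (n : ℕ) :
    gw β lam (n + 1) = ENNReal.ofReal (f8r (4 - lam) β n) := by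
  unfold gw f8r
  rw [Nat.add_sub_cancel, setLIntegral_congr Ioi_ae_eq_Ici.symm]
  refine (ofReal_integral_eq_lintegral_ofReal (f8_integrable (by linarith) n β) ?_).symm
  refine (ae_restrict_iff' measurableSet_Ioi).2 (Eventually.of_forall fun s hs => ?_)
  have h : 0 ≤ s := hβ.trans (le_of_lt hs)
  change 0 ≤ _
  positivity

/-- One step recursion (integration by parts): a Gamma variable is a sum of exponentials. -/
theorem gw_succ {β lam : ℝ} (hβ : 0 ≤ β) (hl : lam < 4) {n : ℕ} (hn : 1 ≤ n) :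
    gw β lam (n + 1) = ENNReal.ofReal ((4 - lam)⁻¹) * (gw β lam n
      + ENNReal.ofReal (β ^ n / (n.factorial : ℝ) * Real.exp (-((4 - lam) * β)))) := by
  obtain ⟨m, rfl⟩ : ∃ m, n = m + 1 := ⟨n - 1, by omega⟩
  have hc : 0 < 4 - lam := by linarith
  rw [f8_gw hβ hl (m + 1), f8_gw hβ hl m, f8r_succ hc,
    ← ENNReal.ofReal_add (f8r_nonneg hβ m) (by positivity), ← ENNReal.ofReal_mul (by positivity)]

theorem gw_one {β lam : ℝ} (hl : lam < 4) :
    gw β lam 1 = ENNReal.ofReal (Real.exp (-((4 - lam) * β)) / (4 - lam)) := by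
  have hc : 0 < 4 - lam := by linarith
  rw [← f8r_zero hc]
  unfold gw f8r
  rw [Nat.sub_self, setLIntegral_congr Ioi_ae_eq_Ici.symm]
  refine (ofReal_integral_eq_lintegral_ofReal (f8_integrable (by linarith) 0 β) ?_).symm
  refine Eventually.of_forall fun s => ?_
  change 0 ≤ s ^ 0 / (Nat.factorial 0 : ℝ) * Real.exp (-((4 - lam) * s))
  rw [pow_zero]
  positivity

theorem f8_gw_zero {lam : ℝ} (hl : lam < 4) (n : ℕ) : gw 0 lam (n + 1) = fw lam (n + 1) := by
  induction n with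
  | zero =>
    rw [gw_one hl]
    unfold fw
    rw [zero_add, pow_one, mul_zero, neg_zero, Real.exp_zero, one_div]
  | succ n ih =>
    rw [gw_succ le_rfl hl (by omega), ih]
    unfold fw
    rw [zero_pow (by omega), zero_div, zero_mul, ENNReal.ofReal_zero, add_zero, pow_succ' _ (n + 1)]

theorem f8_gw_zero' {lam : ℝ} (hl : lam < 4) {n : ℕ} (hn : 1 ≤ n) : gw 0 lam n = fw lam n := by
  obtain ⟨m, rfl⟩ : ∃ m, n = m + 1 := ⟨n - 1, by omega⟩
  exact f8_gw_zero hl m

theorem gw_le_fw {β lam : ℝ} (hβ : 0 ≤ β) (hl : lam < 4) {n : ℕ} (hn : 1 ≤ n) :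
    gw β lam n ≤ fw lam n := by
  rw [← f8_gw_zero' hl hn]
  exact lintegral_mono_set (Set.Ici_subset_Ici.2 hβ)

/-- Chernoff: `κ` neighbours outside. -/
theorem gw_le_tilt {β lam κ : ℝ} (hβ : 0 ≤ β) (hκ : 0 ≤ κ) (hl : lam + κ < 4) {n : ℕ}
    (hn : 1 ≤ n) : gw β lam n ≤ ENNReal.ofReal (Real.exp (-(κ * β))) * fw (lam + κ) n := by
  refine le_trans ?_ (mul_le_mul_right (gw_le_fw hβ hl hn) _)
  unfold gw
  rw [← lintegral_const_mul' _ _ ENNReal.ofReal_ne_top]
  refine setLIntegral_mono' measurableSet_Ici fun s hs => ?_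
  have hs0 : 0 ≤ s := hβ.trans hs
  rw [← ENNReal.ofReal_mul (Real.exp_pos _).le]
  refine ENNReal.ofReal_le_ofReal ?_
  have h1 : Real.exp (-((4 - lam) * s)) ≤
      Real.exp (-(κ * β)) * Real.exp (-((4 - (lam + κ)) * s)) := by
    rw [← Real.exp_add]
    refine Real.exp_le_exp.2 ?_
    have : κ * β ≤ κ * s := mul_le_mul_of_nonneg_left hs hκ
    linarith
  calc s ^ (n - 1) / ((n - 1).factorial : ℝ) * Real.exp (-((4 - lam) * s))
      ≤ s ^ (n - 1) / ((n - 1).factorial : ℝ) *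
        (Real.exp (-(κ * β)) * Real.exp (-((4 - (lam + κ)) * s))) :=
        mul_le_mul_of_nonneg_left h1 (by positivity)
    _ = _ := by ring

/-- More visits. -/
theorem gw_add_ge {β lam : ℝ} (hβ : 0 ≤ β) (hl : lam < 4) {n : ℕ} (hn : 1 ≤ n) (m : ℕ) :
    gw β lam n * fw lam m ≤ gw β lam (n + m) := by
  induction m with
  | zero =>
    unfold fw
    rw [pow_zero, mul_one, add_zero]
  | succ m ih =>
    rw [← add_assoc, gw_succ hβ hl (by omega)]
    have h1 : fw lam (m + 1) = ENNReal.ofReal ((4 - lam)⁻¹) * fw lam m := by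
      unfold fw
      rw [pow_succ']
    rw [h1, mul_left_comm]
    exact mul_le_mul_right (ih.trans le_self_add) _

/-- Crude lower bound. -/
theorem gw_ge {β : ℝ} (hβ : 0 ≤ β) {n : ℕ} (hn : 1 ≤ n) :
    ENNReal.ofReal (Real.exp (-(4 * β))) * fw 0 n ≤ gw β 0 n := by
  obtain ⟨m, rfl⟩ : ∃ m, n = 1 + m := ⟨n - 1, by omega⟩
  refine le_trans (le_of_eq ?_) (gw_add_ge hβ (by norm_num) le_rfl m)
  rw [gw_one (by norm_num)]
  unfold fw
  rw [pow_add, pow_one, ← mul_assoc, ← ENNReal.ofReal_mul (Real.exp_pos _).le, sub_zero]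
  congr 2

/-- Many visits: the requirement is cheap. -/
theorem gw_ge_many {β : ℝ} (hβ : 0 ≤ β) {n : ℕ} (hn : 16 * β + 16 ≤ n) :
    ENNReal.ofReal (1 - Real.exp (-(n : ℝ) / 16)) * fw 0 n ≤ gw β 0 n := by
  have hn1 : 1 ≤ n := by
    have : (1 : ℝ) ≤ n := by linarith
    exact_mod_cast this
  set x : ℝ := Real.exp (-(n : ℝ) / 16) with hx
  have hx0 : 0 < x := Real.exp_pos _
  have hx1 : x ≤ 1 := by
    rw [hx, Real.exp_le_one_iff]
    have : (0 : ℝ) ≤ n := Nat.cast_nonneg n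
    linarith
  have hfin : fw 0 n ≠ ⊤ := by
    unfold fw
    exact ENNReal.pow_ne_top ENNReal.ofReal_ne_top
  -- the part below `β`
  have h1 : fw 0 n ≤ gw β 0 n + ENNReal.ofReal (Real.exp (4 * β)) * fw (-4) n := by
    have h2 : fw 0 n = ∫⁻ s in Set.Ici (0 : ℝ), ENNReal.ofReal (s ^ (n - 1) / ((n - 1).factorial : ℝ)
        * Real.exp (-((4 - 0) * s))) := (f8_gw_zero' (by norm_num) hn1).symm
    have h3 : fw (-4) n = ∫⁻ s in Set.Ici (0 : ℝ), ENNReal.ofReal (s ^ (n - 1) /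
        ((n - 1).factorial : ℝ) * Real.exp (-((4 - (-4)) * s))) :=
      (f8_gw_zero' (by norm_num) hn1).symm
    have h4 : Set.Ici (0 : ℝ) ⊆ Set.Ici β ∪ Set.Ico 0 β := by
      intro s hs
      rcases le_or_gt β s with h | h
      · exact Or.inl h
      · exact Or.inr ⟨hs, h⟩
    rw [h2]
    refine (lintegral_mono_set h4).trans ((lintegral_union_le _ _ _).trans (add_le_add le_rfl ?_))
    rw [h3, ← lintegral_const_mul' _ _ ENNReal.ofReal_ne_top]
    refine le_trans ?_ (lintegral_mono_set (show Set.Ico (0 : ℝ) β ⊆ Set.Ici 0 from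
      fun _ h => h.1))
    refine setLIntegral_mono' measurableSet_Ico fun s hs => ?_
    have hs0 : 0 ≤ s := hs.1
    rw [← ENNReal.ofReal_mul (Real.exp_pos _).le]
    refine ENNReal.ofReal_le_ofReal ?_
    have h5 : Real.exp (-((4 - 0) * s)) ≤ Real.exp (4 * β) * Real.exp (-((4 - (-4)) * s)) := by
      rw [← Real.exp_add]
      refine Real.exp_le_exp.2 ?_
      have := hs.2
      linarith
    calc s ^ (n - 1) / ((n - 1).factorial : ℝ) * Real.exp (-((4 - 0) * s))
        ≤ s ^ (n - 1) / ((n - 1).factorial : ℝ) *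
          (Real.exp (4 * β) * Real.exp (-((4 - (-4)) * s))) :=
          mul_le_mul_of_nonneg_left h5 (by positivity)
      _ = _ := by ring
  have h6 : ENNReal.ofReal (Real.exp (4 * β)) * fw (-4) n ≤ ENNReal.ofReal x * fw 0 n := by
    have h7 : fw (-4) n = ENNReal.ofReal ((1 / 2 : ℝ) ^ n) * fw 0 n := by
      unfold fw
      rw [ENNReal.ofReal_pow (by norm_num), ← mul_pow, ← ENNReal.ofReal_mul (by norm_num)]
      norm_num
    rw [h7, ← mul_assoc, ← ENNReal.ofReal_mul (Real.exp_pos _).le]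
    refine mul_le_mul_left (ENNReal.ofReal_le_ofReal ?_) _
    have h8 : (1 / 2 : ℝ) ≤ Real.exp (-(5 / 8)) := by
      rw [Real.exp_neg, one_div]
      refine inv_anti₀ (Real.exp_pos _) ?_
      have h9 := Real.log_two_gt_d9
      rw [← Real.exp_log (show (0 : ℝ) < 2 by norm_num)]
      exact Real.exp_le_exp.2 (by linarith)
    calc Real.exp (4 * β) * (1 / 2 : ℝ) ^ n
        ≤ Real.exp (4 * β) * Real.exp (-(5 / 8)) ^ n :=
          mul_le_mul_of_nonneg_left (pow_le_pow_left₀ (by norm_num) h8 n) (Real.exp_pos _).le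
      _ = Real.exp (4 * β + n * (-(5 / 8))) := by
          rw [← Real.exp_nat_mul, ← Real.exp_add]
      _ ≤ x := by
          rw [hx]
          refine Real.exp_le_exp.2 ?_
          linarith
  have h7 : ENNReal.ofReal (1 - x) * fw 0 n + ENNReal.ofReal x * fw 0 n = fw 0 n := by
    rw [← add_mul, ← ENNReal.ofReal_add (by linarith) hx0.le, sub_add_cancel, ENNReal.ofReal_one,
      one_mul]
  have h8 : ENNReal.ofReal (1 - x) * fw 0 n + ENNReal.ofReal x * fw 0 n ≤
      gw β 0 n + ENNReal.ofReal x * fw 0 n := by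
    rw [h7]
    exact h1.trans (add_le_add le_rfl h6)
  exact (ENNReal.add_le_add_iff_right (ENNReal.mul_ne_top ENNReal.ofReal_ne_top hfin)).1 h8

/-- Exponential moment (new better than used): `E[e^{θX}; X ≥ β] ≤ e^{θβ} E[e^{θX}] P(X ≥ β)`. -/
theorem gw_exp_moment {β θ : ℝ} (hβ : 0 ≤ β) (hθ : 0 ≤ θ) (hθ4 : θ < 4) {n : ℕ} (hn : 1 ≤ n) :
    gw β θ n ≤ ENNReal.ofReal (Real.exp (θ * β) * (4 / (4 - θ)) ^ n) * gw β 0 n := by
  have hc : 0 < 4 - θ := by linarith
  obtain ⟨m, rfl⟩ : ∃ m, n = m + 1 := ⟨n - 1, by omega⟩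
  clear hn
  rw [f8_gw hβ hθ4, f8_gw hβ (by norm_num), ← ENNReal.ofReal_mul (by positivity), sub_zero]
  refine ENNReal.ofReal_le_ofReal ?_
  have hone : 1 ≤ 4 / (4 - θ) := by
    rw [one_le_div hc]; linarith
  induction m with
  | zero =>
    rw [f8r_zero hc, f8r_zero (by norm_num : (0 : ℝ) < 4)]
    refine le_of_eq ?_
    have h1 : Real.exp (-((4 - θ) * β)) = Real.exp (θ * β) * Real.exp (-(4 * β)) := by
      rw [← Real.exp_add]; congr 1; ring
    rw [h1, zero_add, pow_one]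
    field_simp
  | succ m ih =>
    rw [f8r_succ hc, f8r_succ (by norm_num : (0 : ℝ) < 4)]
    have h1 : Real.exp (-((4 - θ) * β)) = Real.exp (θ * β) * Real.exp (-(4 * β)) := by
      rw [← Real.exp_add]; congr 1; ring
    have h2 : 1 ≤ (4 / (4 - θ)) ^ (m + 1) := one_le_pow₀ hone
    have h3 : 0 ≤ β ^ (m + 1) / ((m + 1).factorial : ℝ) * Real.exp (-((4 - θ) * β)) := by
      positivity
    have h4 : f8r (4 - θ) β m + β ^ (m + 1) / ((m + 1).factorial : ℝ) *
        Real.exp (-((4 - θ) * β)) ≤ Real.exp (θ * β) * (4 / (4 - θ)) ^ (m + 1) *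
          (f8r 4 β m + β ^ (m + 1) / ((m + 1).factorial : ℝ) * Real.exp (-(4 * β))) := by
      have h5 := le_mul_of_one_le_left h3 h2
      calc _ ≤ Real.exp (θ * β) * (4 / (4 - θ)) ^ (m + 1) * f8r 4 β m +
            (4 / (4 - θ)) ^ (m + 1) * (β ^ (m + 1) / ((m + 1).factorial : ℝ) *
              Real.exp (-((4 - θ) * β))) := add_le_add ih h5
        _ = _ := by rw [h1]; ring
    calc (4 - θ)⁻¹ * (f8r (4 - θ) β m + β ^ (m + 1) / ((m + 1).factorial : ℝ) *
          Real.exp (-((4 - θ) * β)))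
        ≤ (4 - θ)⁻¹ * (Real.exp (θ * β) * (4 / (4 - θ)) ^ (m + 1) *
          (f8r 4 β m + β ^ (m + 1) / ((m + 1).factorial : ℝ) * Real.exp (-(4 * β)))) :=
          mul_le_mul_of_nonneg_left h4 (inv_pos.2 hc).le
      _ = _ := by
          rw [pow_succ (4 / (4 - θ)) (m + 1)]
          field_simp

end Pool.Agent.WSB71
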