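import Mathlib

/-!
# F3: uniqueness of multivariate Laplace transforms

Push forward by `x ↦ (e^{-x_i})_i ∈ [0,1]^ι` (injective, measurable embedding on the support) and
use that the monomials span a point separating star subalgebra
(`MeasureTheory.ext_of_forall_mem_subalgebra_integral_eq_of_polish` or Stone-Weierstrass on the
compact cube).
-/

open MeasureTheory Filter Topology
open scoped NNReal ENNReal

namespace Pool.Agent.WSB71

open BoundedContinuousFunction in
/-- the exponential monomials -/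
noncomputable def FLap_G (ι : Type*) [Fintype ι] : Multiplicative (ι → ℕ) →* ((ι → ℝ≥0) →ᵇ ℝ) where
  toFun a := BoundedContinuousFunction.ofNormedAddCommGroup
    (fun x => Real.exp (-∑ i, ((Multiplicative.toAdd a i : ℕ) : ℝ) * (x i : ℝ))) (by fun_prop) 1 (by
      intro x
      rw [Real.norm_eq_abs, Real.abs_exp, Real.exp_le_one_iff, neg_nonpos]
      exact Finset.sum_nonneg fun i _ => by positivity)
  map_one' := by ext x; simp
  map_mul' a b := by
    ext x
    simp only [coe_ofNormedAddCommGroup, BoundedContinuousFunction.mul_apply, toAdd_mul, Pi.add_apply, Nat.cast_add]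
    rw [← Real.exp_add]
    congr 1
    rw [← neg_add, ← Finset.sum_add_distrib]
    congr 1
    exact Finset.sum_congr rfl fun i _ => by ring

lemma FLap_G_apply {ι : Type*} [Fintype ι] (a : Multiplicative (ι → ℕ)) (x : ι → ℝ≥0) :
    FLap_G ι a x = Real.exp (-∑ i, ((Multiplicative.toAdd a i : ℕ) : ℝ) * (x i : ℝ)) := rfl

/-- the algebra of exponential polynomials -/
noncomputable def FLap_A (ι : Type*) [Fintype ι] : StarSubalgebra ℝ (BoundedContinuousFunction (ι → ℝ≥0) ℝ) where
  toSubalgebra := Algebra.adjoin ℝ (Set.range (FLap_G ι))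
  star_mem' := by
    intro x hx
    have : star x = x := by ext y; simp
    rwa [this]

lemma FLap_ext {ι : Type*} [Fintype ι] (P P' : Measure (ι → ℝ≥0)) [IsFiniteMeasure P] [IsFiniteMeasure P']
    (h : ∀ a, ∫ x, FLap_G ι a x ∂P = ∫ x, FLap_G ι a x ∂P') : P = P' := by
  refine ext_of_forall_mem_subalgebra_integral_eq_of_polish (𝕜 := ℝ) (A := FLap_A ι) ?_ ?_
  · intro x y hxy
    obtain ⟨i, hi⟩ : ∃ i, x i ≠ y i := by
      by_contra hcon
      push Not at hcon
      exact hxy (funext hcon)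
    classical
    refine ⟨FLap_G ι (Multiplicative.ofAdd (Pi.single i 1)), ⟨FLap_G ι (Multiplicative.ofAdd (Pi.single i 1)),
      ⟨FLap_G ι (Multiplicative.ofAdd (Pi.single i 1)), Algebra.subset_adjoin ⟨_, rfl⟩, rfl⟩, rfl⟩, ?_⟩
    rw [FLap_G_apply, FLap_G_apply]
    simp only [toAdd_ofAdd]
    intro h0
    have h1 := Real.exp_injective h0
    have h2 : ∀ z : ι → ℝ≥0, ∑ j, ((Pi.single i 1 : ι → ℕ) j : ℝ) * (z j : ℝ) = z i := by
      intro z
      rw [Finset.sum_eq_single i]
      · simp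
      · intro j _ hj; simp [Pi.single_eq_of_ne hj]
      · intro h; exact absurd (Finset.mem_univ i) h
    rw [h2, h2, neg_inj] at h1
    exact hi (NNReal.coe_injective h1)
  · intro g hg
    have hg' : g ∈ Submodule.span ℝ (Set.range (FLap_G ι)) := by
      have h1 : g ∈ Subalgebra.toSubmodule (Algebra.adjoin ℝ (Set.range (FLap_G ι))) := hg
      rw [Algebra.adjoin_eq_span] at h1
      have h2 : (Submonoid.closure (Set.range (FLap_G ι)) : Set _) = Set.range (FLap_G ι) := by
        rw [← MonoidHom.coe_mrange, Submonoid.closure_eq]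
      rwa [h2] at h1
    clear hg
    induction hg' using Submodule.span_induction with
    | mem x hx => obtain ⟨a, rfl⟩ := hx; exact h a
    | zero => simp
    | add x y _ _ hx hy =>
      simp only [BoundedContinuousFunction.coe_add, Pi.add_apply]
      rw [integral_add (x.integrable _) (y.integrable _), integral_add (x.integrable _) (y.integrable _)]
      rw [hx, hy]
    | smul c x _ hx =>
      simp only [BoundedContinuousFunction.coe_smul, smul_eq_mul]
      rw [integral_const_mul, integral_const_mul, hx]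

theorem laplace_unique {ι : Type*} [Fintype ι] (μ ν : Measure (ι → ℝ)) [IsFiniteMeasure μ]
    [IsFiniteMeasure ν] (hμ : μ {x | ∀ i, 0 ≤ x i}ᶜ = 0) (hν : ν {x | ∀ i, 0 ≤ x i}ᶜ = 0)
    (h : ∀ a : ι → ℕ, ∫⁻ x, ENNReal.ofReal (Real.exp (-∑ i, (a i : ℝ) * x i)) ∂μ
      = ∫⁻ x, ENNReal.ofReal (Real.exp (-∑ i, (a i : ℝ) * x i)) ∂ν) : μ = ν := by
  obtain ⟨r, hr⟩ : ∃ r : (ι → ℝ) → (ι → ℝ≥0), r = fun x i => Real.toNNReal (x i) := ⟨_, rfl⟩
  obtain ⟨c, hc⟩ : ∃ c : (ι → ℝ≥0) → (ι → ℝ), c = fun x i => (x i : ℝ) := ⟨_, rfl⟩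
  have hrm : Measurable r := by rw [hr]; fun_prop
  have hcm : Measurable c := by rw [hc]; fun_prop
  have key : ∀ ρ : Measure (ι → ℝ), ρ {x | ∀ i, 0 ≤ x i}ᶜ = 0 → (ρ.map r).map c = ρ := by
    intro ρ hρ
    rw [Measure.map_map hcm hrm]
    have h1 : ∀ᵐ x ∂ρ, (c ∘ r) x = id x := by
      have h2 : ∀ᵐ x ∂ρ, ∀ i, 0 ≤ x i := hρ
      filter_upwards [h2] with x hx
      ext i
      rw [hr, hc]
      simp [hx i]
    rw [Measure.map_congr h1, Measure.map_id]
  have hint : ∀ ρ : Measure (ι → ℝ), IsFiniteMeasure ρ → ρ {x | ∀ i, 0 ≤ x i}ᶜ = 0 →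
      ∀ a : Multiplicative (ι → ℕ), ∫ x, FLap_G ι a x ∂(ρ.map r) =
        (∫⁻ x, ENNReal.ofReal (Real.exp (-∑ i, ((Multiplicative.toAdd a i : ℕ) : ℝ) * x i)) ∂ρ).toReal := by
    intro ρ _ hρ a
    rw [integral_map hrm.aemeasurable (FLap_G ι a).continuous.aestronglyMeasurable]
    have h2 : ∀ᵐ x ∂ρ, ∀ i, 0 ≤ x i := hρ
    have h3 : ∀ᵐ x ∂ρ, FLap_G ι a (r x) = Real.exp (-∑ i, ((Multiplicative.toAdd a i : ℕ) : ℝ) * x i) := by
      filter_upwards [h2] with x hx
      rw [FLap_G_apply, hr]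
      congr 2
      exact Finset.sum_congr rfl fun i _ => by simp [hx i]
    rw [integral_congr_ae h3, integral_eq_lintegral_of_nonneg_ae]
    · exact Eventually.of_forall fun x => (Real.exp_pos _).le
    · exact Continuous.aestronglyMeasurable (by fun_prop)
  have : IsFiniteMeasure (μ.map r) := Measure.isFiniteMeasure_map μ r
  have : IsFiniteMeasure (ν.map r) := Measure.isFiniteMeasure_map ν r
  have h4 : μ.map r = ν.map r := by
    refine FLap_ext _ _ fun a => ?_
    rw [hint μ inferInstance hμ a, hint ν inferInstance hν a, h]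
  rw [← key μ hμ, ← key ν hν, h4]

end Pool.Agent.WSB71
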