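import Pool.Agent.WSB71.FKer
import Pool.Agent.WSB71.FLap

/-!
# F4: the joint law of the jump chain and of the local times (helper97)
-/

open MeasureTheory Filter Topology
open scoped NNReal ENNReal

namespace Pool.Agent.WSB71

open Pool.Agent.LT

namespace F4

/-! ### Tonelli for finite products -/

theorem lintegral_fin_nat_prod_eq_prod {n : ℕ} {E : Fin n → Type*}
    {mE : ∀ i, MeasurableSpace (E i)} {μ : (i : Fin n) → Measure (E i)} [∀ i, SigmaFinite (μ i)]
    (f : (i : Fin n) → E i → ℝ≥0∞) (hf : ∀ i, Measurable (f i)) :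
    ∫⁻ x : (i : Fin n) → E i, ∏ i, f i (x i) ∂(Measure.pi μ) = ∏ i, ∫⁻ x, f i x ∂(μ i) := by
  induction n with
  | zero => simp
  | succ n n_ih =>
      calc
        _ = ∫⁻ x : E 0 × ((i : Fin n) → E (Fin.succ i)),
            f 0 x.1 * ∏ i : Fin n, f (Fin.succ i) (x.2 i)
            ∂((μ 0).prod (Measure.pi (fun i ↦ μ i.succ))) := by
          rw [← ((measurePreserving_piFinSuccAbove μ 0).symm).lintegral_comp_emb
            (MeasurableEquiv.measurableEmbedding _)]
          simp_rw [MeasurableEquiv.piFinSuccAbove_symm_apply, Fin.insertNthEquiv,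
            Fin.prod_univ_succ, Fin.insertNth_zero, Equiv.coe_fn_mk, Fin.cons_succ,
            Fin.zero_succAbove, cast_eq, Fin.cons_zero]
          rfl
        _ = (∫⁻ x, f 0 x ∂μ 0)
            * ∏ i : Fin n, ∫⁻ (x : E (Fin.succ i)), f (Fin.succ i) x ∂(μ i.succ) := by
          rw [← n_ih _ (fun i => hf _), ← lintegral_prod_mul (hf 0).aemeasurable]
          apply Measurable.aemeasurable
          apply Finset.measurable_prod
          intro i _
          exact (hf _).comp (measurable_pi_apply i)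
        _ = ∏ i, ∫⁻ x, f i x ∂(μ i) := by rw [Fin.prod_univ_succ]

theorem lintegral_fintype_prod_eq_prod {ι : Type*} [Fintype ι] {E : ι → Type*}
    (f : (i : ι) → E i → ℝ≥0∞)
    {mE : ∀ i, MeasurableSpace (E i)} {μ : (i : ι) → Measure (E i)} [∀ i, SigmaFinite (μ i)]
    (hf : ∀ i, Measurable (f i)) :
    ∫⁻ x : (i : ι) → E i, ∏ i, f i (x i) ∂(Measure.pi μ) = ∏ i, ∫⁻ x, f i x ∂(μ i) := by
  let e := (Fintype.equivFin ι).symm
  rw [← (measurePreserving_piCongrLeft _ e).lintegral_comp_emb
    (MeasurableEquiv.measurableEmbedding _)]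
  simp_rw [← e.prod_comp, MeasurableEquiv.coe_piCongrLeft, Equiv.piCongrLeft_apply_apply]
  exact lintegral_fin_nat_prod_eq_prod _ (fun i => hf _)

/-! ### Joint measurability -/

/-- `(s, f) ↦ f (s)` is jointly measurable. -/
lemma measurable_eval_joint (g : Site → ℝ) :
    Measurable (fun p : ℝ≥0 × WP => g (p.2.1 p.1)) := by
  apply measurable_of_tendsto_metrizable
    (f := fun N : ℕ => (fun p : ℝ≥0 × WP => g (p.2.1 (gp (1 / 2 ^ N) p.1))))
  · intro N
    have h1 : Measurable (fun q : ℕ × WP => g (q.2.1 ((q.1 + 1 : ℕ) * (1 / 2 ^ N)))) := by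
      apply measurable_from_prod_countable_right
      intro n
      exact (Measurable.of_discrete (f := g)).comp (measurable_eval ((n + 1 : ℕ) * (1 / 2 ^ N)))
    have h2 : Measurable (fun p : ℝ≥0 × WP => (⌊p.1 / (1 / 2 ^ N)⌋₊, p.2)) := by
      apply Measurable.prodMk _ measurable_snd
      exact Nat.measurable_floor.comp (measurable_fst.div_const _)
    exact h1.comp h2
  · rw [tendsto_pi_nhds]
    intro p
    have h := gp_tendsto p.2 p.1 (δ := fun N => 1 / 2 ^ N) (fun N => by positivity)
      tendsto_inv_two_pow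
    apply tendsto_const_nhds.congr'
    filter_upwards [h] with N hN
    rw [hN]

lemma measurable_riem_joint (N : ℕ) (g : Site → ℝ) :
    Measurable (fun p : ℝ≥0 × WP => riem N p.1 g p.2) := by
  unfold riem
  apply Measurable.mul
  · fun_prop
  · apply Finset.measurable_fun_sum
    intro i _
    have h1 : Measurable (fun p : ℝ≥0 × WP => (((i + 1 : ℕ) : ℝ≥0) * (p.1 / 2 ^ N), p.2)) := by
      fun_prop
    exact (measurable_eval_joint g).comp h1

lemma measurable_occ_joint (g : Site → ℝ) {C : ℝ} (hC : ∀ x, |g x| ≤ C) :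
    Measurable (fun p : ℝ≥0 × WP => occ p.1 g p.2) := by
  apply measurable_of_tendsto_metrizable (f := fun N => fun p : ℝ≥0 × WP => riem N p.1 g p.2)
  · intro N; exact measurable_riem_joint N g
  · rw [tendsto_pi_nhds]
    intro p
    exact riem_tendsto p.1 g hC p.2

lemma measurable_lt_joint (x : Site) :
    Measurable (fun p : ℝ × WP => lt p.1.toNNReal p.2 x) := by
  have h := measurable_occ_joint (fun w => if w = x then (1 : ℝ) else 0) (C := 1)
    (fun w => by split_ifs <;> simp)
  have h1 : Measurable (fun p : ℝ × WP => (p.1.toNNReal, p.2)) := by fun_prop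
  exact h.comp h1

lemma lt_nonneg (s : ℝ≥0) (f : WP) (x : Site) : 0 ≤ lt s f x :=
  occ_nonneg s (fun w => by split_ifs <;> simp) f

/-- Decomposition of additive functionals over the range. -/
lemma occ_decomp (s : ℝ≥0) (f : WP) {R : Finset Site} (h : rangeF s f = R) (V : Site → ℝ)
    {C : ℝ} (hC : ∀ x, |V x| ≤ C) : occ s V f = ∑ x ∈ R, V x * lt s f x := by
  have h0 : occ s V f = occ s (fun w => ∑ x ∈ R, V x * (if w = x then (1 : ℝ) else 0)) f := by
    unfold occ
    apply intervalIntegral.integral_congr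
    intro u hu
    rw [Set.uIcc_of_le s.coe_nonneg] at hu
    have hu1 : u.toNNReal ≤ s := by
      rw [← NNReal.coe_le_coe, Real.coe_toNNReal _ hu.1]; exact hu.2
    have hm : f.1 u.toNNReal ∈ R := by
      rw [← h]; exact mem_rangeF.2 ⟨_, hu1, rfl⟩
    simp only [mul_ite, mul_one, mul_zero]
    rw [Finset.sum_ite_eq]
    simp [hm]
  have hC0 : 0 ≤ C := (abs_nonneg _).trans (hC 0)
  rw [h0, occ_sum s R (fun x w => V x * (if w = x then (1 : ℝ) else 0)) (C := C)]
  · apply Finset.sum_congr rfl
    intro x _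
    rw [occ_smul]
    rfl
  · intro x w
    split_ifs
    · simpa using hC x
    · simpa using hC0

lemma prod_map_count (g : Site → ℝ≥0∞) (l : List Site) :
    (l.map g).prod = ∏ x ∈ l.toFinset, g x ^ l.count x := by
  rw [Finset.prod_list_map_count]
  congr!

/-! ### The one-site measures -/

/-- The density of the sum of `n` exponential variables, up to the factor. -/
noncomputable def gd (lam : ℝ) (n : ℕ) (u : ℝ) : ℝ≥0∞ :=
  ENNReal.ofReal (u ^ (n - 1) / ((n - 1).factorial : ℝ) * Real.exp (-((4 - lam) * u)))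

lemma measurable_gd (lam : ℝ) (n : ℕ) : Measurable (gd lam n) := by
  unfold gd
  fun_prop

lemma lintegral_gd {lam a : ℝ} {n : ℕ} (hn : 1 ≤ n) (ha : lam - a < 4) :
    ∫⁻ u in Set.Ici (0 : ℝ), gd lam n u * ENNReal.ofReal (Real.exp (-(a * u)))
      = ENNReal.ofReal ((4 - (lam - a))⁻¹) ^ n := by
  set r := 4 - (lam - a) with hrdef
  have hr : 0 < r := by rw [hrdef]; linarith
  obtain ⟨m, rfl⟩ : ∃ m, n = m + 1 := ⟨n - 1, by omega⟩
  have h1 : ∀ u ∈ Set.Ici (0 : ℝ), gd lam (m + 1) u * ENNReal.ofReal (Real.exp (-(a * u)))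
      = ENNReal.ofReal (r⁻¹ ^ (m + 1)) * ProbabilityTheory.gammaPDF ((m : ℝ) + 1) r u := by
    intro u hu
    have hu' : 0 ≤ u := hu
    rw [ProbabilityTheory.gammaPDF_of_nonneg hu', gd, ← ENNReal.ofReal_mul (by positivity),
      ← ENNReal.ofReal_mul (by positivity), Real.Gamma_nat_eq_factorial]
    congr 1
    simp only [add_tsub_cancel_right, Real.rpow_natCast]
    have h2 : r ^ ((m : ℝ) + 1) = r ^ (m + 1) := by
      rw [← Real.rpow_natCast]; push_cast; rfl
    rw [h2, mul_assoc, ← Real.exp_add, inv_pow]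
    have h3 : -((4 - lam) * u) + -(a * u) = -(r * u) := by rw [hrdef]; ring
    rw [h3]
    field_simp
  rw [setLIntegral_congr_fun measurableSet_Ici h1, lintegral_const_mul]
  · have h4 : ∫⁻ u in Set.Ici (0 : ℝ), ProbabilityTheory.gammaPDF ((m : ℝ) + 1) r u = 1 := by
      have h5 := ProbabilityTheory.lintegral_gammaPDF_eq_one (a := (m : ℝ) + 1) (r := r)
        (by positivity) hr
      rw [← lintegral_add_compl _ (measurableSet_Ici (a := (0 : ℝ))), Set.compl_Ici,
        ProbabilityTheory.lintegral_gammaPDF_of_nonpos le_rfl, add_zero] at h5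
      exact h5
    rw [h4, mul_one, ENNReal.ofReal_pow (by positivity)]
  · unfold ProbabilityTheory.gammaPDF
    exact (ProbabilityTheory.measurable_gammaPDFReal _ _).ennreal_ofReal

/-- The one-site measure. -/
noncomputable def rho (lam : ℝ) (n : ℕ) : Measure ℝ :=
  (volume.restrict (Set.Ici (0 : ℝ))).withDensity (gd lam n)

lemma lintegral_rho {lam a : ℝ} {n : ℕ} (hn : 1 ≤ n) (ha : lam - a < 4) :
    ∫⁻ u, ENNReal.ofReal (Real.exp (-(a * u))) ∂(rho lam n)
      = ENNReal.ofReal ((4 - (lam - a))⁻¹) ^ n := by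
  rw [rho, lintegral_withDensity_eq_lintegral_mul _ (measurable_gd lam n) (by fun_prop)]
  exact lintegral_gd hn ha

lemma rho_univ {lam : ℝ} {n : ℕ} (hn : 1 ≤ n) (hlam : lam < 4) :
    rho lam n Set.univ = fw lam n := by
  have h := lintegral_rho (lam := lam) (a := 0) hn (by simpa using hlam)
  simpa [fw] using h

lemma isFiniteMeasure_rho {lam : ℝ} {n : ℕ} (hn : 1 ≤ n) (hlam : lam < 4) :
    IsFiniteMeasure (rho lam n) := by
  constructor
  rw [rho_univ hn hlam, fw]
  exact ENNReal.pow_lt_top ENNReal.ofReal_lt_top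

lemma rho_Ici {lam β : ℝ} (n : ℕ) (hβ : 0 ≤ β) : rho lam n (Set.Ici β) = gw β lam n := by
  rw [rho, withDensity_apply _ measurableSet_Ici, Measure.restrict_restrict measurableSet_Ici,
    Set.Ici_inter_Ici, sup_eq_left.2 hβ]
  rfl

lemma rho_Iio {lam : ℝ} (n : ℕ) : rho lam n (Set.Iio 0) = 0 := by
  rw [rho, withDensity_apply _ measurableSet_Iio, Measure.restrict_restrict measurableSet_Iio]
  have : Set.Iio (0 : ℝ) ∩ Set.Ici 0 = ∅ := by
    ext x; simp
  rw [this]; simp

end F4

open F4 in
/-- **Main formula.** -/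
theorem main_formula {μ : Measure WP} (hμ : IsLaw μ) {β lam : ℝ} (hβ : 0 ≤ β) (hlam : lam < 4)
    (B : Set Site) (l : List Site) (hl : l.IsChain Adj) (h0 : l.head? = some 0) :
    ∫⁻ s in Set.Ici (0 : ℝ), ENNReal.ofReal (Real.exp (lam * s)) *
        μ {f : WP | chainOf s.toNNReal f = l ∧ ∀ x ∈ l, x ∈ B → β ≤ lt s.toNNReal f x}
      = Wg β lam B l := by
  classical
  have := hμ.prob
  set A : Set (ℝ × WP) := {p | 0 ≤ p.1 ∧ chainOf p.1.toNNReal p.2 = l} with hAdef
  have hA : MeasurableSet A := measurableSet_chainOf_prod l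
  have hcount : ∀ x : {x // x ∈ l.toFinset}, 1 ≤ l.count x.1 := fun x =>
    List.one_le_count_iff.2 (List.mem_toFinset.1 x.2)
  let Φ : ℝ × WP → {x // x ∈ l.toFinset} → ℝ := fun p x => lt p.1.toNNReal p.2 x.1
  have hΦ : Measurable Φ := measurable_pi_lambda _ (fun x => measurable_lt_joint x.1)
  let M : Measure (ℝ × WP) := (((volume.restrict (Set.Ici (0 : ℝ))).prod μ).restrict
    A).withDensity (fun p => ENNReal.ofReal (Real.exp (lam * p.1)))
  have hM : ∀ G : ℝ × WP → ℝ≥0∞, Measurable G → ∫⁻ p, G p ∂M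
      = ∫⁻ s in Set.Ici (0 : ℝ), ∫⁻ f in {f : WP | chainOf s.toNNReal f = l},
        ENNReal.ofReal (Real.exp (lam * s)) * G (s, f) ∂μ := by
    intro G hG
    have hm : Measurable (fun p : ℝ × WP => ENNReal.ofReal (Real.exp (lam * p.1))) := by
      fun_prop
    have hmG : Measurable ((fun p : ℝ × WP => ENNReal.ofReal (Real.exp (lam * p.1))) * G) :=
      hm.mul hG
    rw [lintegral_withDensity_eq_lintegral_mul _ hm hG, ← lintegral_indicator hA,
      lintegral_prod _ (hmG.indicator hA).aemeasurable]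
    apply setLIntegral_congr_fun measurableSet_Ici
    intro s hs
    have hs' : 0 ≤ s := hs
    simp only
    rw [← lintegral_indicator (measurableSet_chainOf s.toNNReal l)]
    apply lintegral_congr
    intro f
    by_cases h : chainOf s.toNNReal f = l
    · have h1 : (s, f) ∈ A := ⟨hs', h⟩
      have h2 : f ∈ {f : WP | chainOf s.toNNReal f = l} := h
      rw [Set.indicator_of_mem h1, Set.indicator_of_mem h2]
      rfl
    · have h1 : (s, f) ∉ A := fun h' => h h'.2
      have h2 : f ∉ {f : WP | chainOf s.toNNReal f = l} := h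
      rw [Set.indicator_of_notMem h1, Set.indicator_of_notMem h2]
  -- Laplace transform of the left side
  have hL : ∀ a : {x // x ∈ l.toFinset} → ℕ,
      ∫⁻ x, ENNReal.ofReal (Real.exp (-∑ i, (a i : ℝ) * x i)) ∂(M.map Φ)
        = ∏ i : {x // x ∈ l.toFinset},
          ENNReal.ofReal ((4 - (lam - (a i : ℝ)))⁻¹) ^ l.count i.1 := by
    intro a
    let V : Site → ℝ := fun x => if h : x ∈ l.toFinset then lam - (a ⟨x, h⟩ : ℝ) else lam
    have hVlt : ∀ x, V x < 4 := by
      intro x
      simp only [V]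
      split_ifs with h
      · have : (0 : ℝ) ≤ (a ⟨x, h⟩ : ℝ) := Nat.cast_nonneg _
        linarith
      · exact hlam
    have hVb : ∀ x, |V x| ≤ |lam| + ∑ i, (a i : ℝ) := by
      intro x
      have h1 : 0 ≤ ∑ i, (a i : ℝ) := Finset.sum_nonneg (fun i _ => Nat.cast_nonneg _)
      simp only [V]
      split_ifs with h
      · have h2 : (a ⟨x, h⟩ : ℝ) ≤ ∑ i, (a i : ℝ) :=
          Finset.single_le_sum (f := fun i => (a i : ℝ)) (fun i _ => Nat.cast_nonneg _)
            (Finset.mem_univ _)
        have h3 : (0 : ℝ) ≤ (a ⟨x, h⟩ : ℝ) := Nat.cast_nonneg _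
        calc |lam - (a ⟨x, h⟩ : ℝ)| ≤ |lam| + |(a ⟨x, h⟩ : ℝ)| := abs_sub _ _
          _ ≤ |lam| + ∑ i, (a i : ℝ) := by rw [abs_of_nonneg h3]; gcongr
      · linarith
    have hmes : Measurable (fun x : {x // x ∈ l.toFinset} → ℝ =>
        ENNReal.ofReal (Real.exp (-∑ i, (a i : ℝ) * x i))) := by
      fun_prop
    rw [lintegral_map hmes hΦ,
      hM (fun p => ENNReal.ofReal (Real.exp (-∑ i, (a i : ℝ) * Φ p i))) (hmes.comp hΦ)]
    have hk := chain_laplace hμ V hVb hVlt l hl h0
    rw [prod_map_count] at hk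
    have hprod : ∏ m ∈ l.toFinset, ENNReal.ofReal ((4 - V m)⁻¹) ^ l.count m
        = ∏ i : {x // x ∈ l.toFinset},
          ENNReal.ofReal ((4 - (lam - (a i : ℝ)))⁻¹) ^ l.count i.1 := by
      rw [← Finset.prod_coe_sort]
      apply Finset.prod_congr rfl
      intro i _
      have : V i.1 = lam - (a i : ℝ) := by
        simp only [V]
        rw [dif_pos i.2]
      rw [this]
    rw [← hprod, ← hk]
    apply setLIntegral_congr_fun measurableSet_Ici
    intro s hs
    have hs' : 0 ≤ s := hs
    apply setLIntegral_congr_fun (measurableSet_chainOf s.toNNReal l)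
    intro f hf
    have hf' : chainOf s.toNNReal f = l := hf
    have hR : rangeF s.toNNReal f = l.toFinset := by rw [← chainOf_toFinset, hf']
    simp only
    rw [← ENNReal.ofReal_mul (Real.exp_nonneg _), ← Real.exp_add]
    congr 2
    have h1 := occ_decomp s.toNNReal f hR V hVb
    have h2 := occ_decomp s.toNNReal f hR (fun _ => (1 : ℝ)) (C := 1) (fun _ => by simp)
    rw [occ_const, Real.coe_toNNReal _ hs', mul_one] at h2
    simp only [one_mul] at h2
    have h3 : lam * s = ∑ i : {x // x ∈ l.toFinset}, lam * lt s.toNNReal f i.1 := by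
      rw [← Finset.mul_sum, Finset.sum_coe_sort l.toFinset (fun x => lt s.toNNReal f x), ← h2]
    rw [h1, ← Finset.sum_coe_sort l.toFinset (fun x => V x * lt s.toNNReal f x), h3,
      ← sub_eq_add_neg, ← Finset.sum_sub_distrib]
    apply Finset.sum_congr rfl
    intro i _
    have : V i.1 = lam - (a i : ℝ) := by
      simp only [V]
      rw [dif_pos i.2]
    rw [this]
    simp only [Φ]
    ring
  have hfin : ∀ x : {x // x ∈ l.toFinset}, IsFiniteMeasure (rho lam (l.count x.1)) := fun x =>
    isFiniteMeasure_rho (hcount x) hlam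
  have hfinM : IsFiniteMeasure (M.map Φ) := by
    constructor
    have h := hL 0
    simp only [Pi.zero_apply, Nat.cast_zero, zero_mul, Finset.sum_const_zero, neg_zero,
      Real.exp_zero, ENNReal.ofReal_one, lintegral_const, one_mul, sub_zero] at h
    rw [h]
    exact ENNReal.prod_lt_top (fun i _ => ENNReal.pow_lt_top ENNReal.ofReal_lt_top)
  have hmain : M.map Φ
      = Measure.pi (fun x : {x // x ∈ l.toFinset} => rho lam (l.count x.1)) := by
    apply laplace_unique
    · rw [Measure.map_apply hΦ]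
      · have : Φ ⁻¹' {x | ∀ i, 0 ≤ x i}ᶜ = ∅ := by
          ext p
          simp only [Set.mem_preimage, Set.mem_compl_iff, Set.mem_ofPred_eq, Set.mem_empty_iff_false,
            iff_false, not_not]
          exact fun i => lt_nonneg _ _ _
        rw [this]; simp
      · apply MeasurableSet.compl
        rw [Set.ofPred_forall]
        exact MeasurableSet.iInter (fun i => measurableSet_le measurable_const
          (measurable_pi_apply i))
    · have : {x : {x // x ∈ l.toFinset} → ℝ | ∀ i, 0 ≤ x i}ᶜ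
          = ⋃ i, Function.eval i ⁻¹' Set.Iio (0 : ℝ) := by
        ext x
        simp
      rw [this, measure_iUnion_null_iff]
      intro i
      exact Measure.pi_eval_preimage_null _ (rho_Iio _)
    · intro a
      rw [hL a]
      have h1 : ∀ x : {x // x ∈ l.toFinset} → ℝ,
          ENNReal.ofReal (Real.exp (-∑ i, (a i : ℝ) * x i))
            = ∏ i, ENNReal.ofReal (Real.exp (-((a i : ℝ) * x i))) := by
        intro x
        rw [← ENNReal.ofReal_prod_of_nonneg (fun i _ => Real.exp_nonneg _), ← Real.exp_sum,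
          Finset.sum_neg_distrib]
      simp_rw [h1]
      rw [lintegral_fintype_prod_eq_prod
        (fun (i : {x // x ∈ l.toFinset}) u => ENNReal.ofReal (Real.exp (-((a i : ℝ) * u))))
        (fun i => by fun_prop)]
      apply Finset.prod_congr rfl
      intro i _
      have h2 : (0 : ℝ) ≤ (a i : ℝ) := Nat.cast_nonneg _
      rw [lintegral_rho (hcount i) (by linarith)]
  -- evaluation
  let S : Set ({x // x ∈ l.toFinset} → ℝ) := {x | ∀ i, i.1 ∈ B → β ≤ x i}
  have hSpi : S = Set.pi Set.univ
      (fun i : {x // x ∈ l.toFinset} => if i.1 ∈ B then Set.Ici β else Set.univ) := by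
    ext x
    simp only [S, Set.mem_ofPred_eq, Set.mem_pi, Set.mem_univ, true_implies]
    apply forall_congr'
    intro i
    by_cases h : i.1 ∈ B <;> simp [h]
  have hS : MeasurableSet S := by
    rw [hSpi]
    apply MeasurableSet.univ_pi
    intro i
    split_ifs
    · exact measurableSet_Ici
    · exact MeasurableSet.univ
  have h1 : (M.map Φ) S = Wg β lam B l := by
    rw [hmain, hSpi, Measure.pi_pi, Wg, ← Finset.prod_coe_sort l.toFinset]
    apply Finset.prod_congr rfl
    intro i _
    by_cases h : i.1 ∈ B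
    · simp only [h, if_true]
      rw [rho_Ici _ hβ]
    · simp only [h, if_false]
      rw [rho_univ (hcount i) hlam]
  rw [← h1, ← lintegral_indicator_one hS, lintegral_map (measurable_one.indicator hS) hΦ,
    hM (fun p => S.indicator 1 (Φ p)) ((measurable_one.indicator hS).comp hΦ)]
  apply setLIntegral_congr_fun measurableSet_Ici
  intro s hs
  have hs' : 0 ≤ s := hs
  have hms : MeasurableSet {f : WP | chainOf s.toNNReal f = l} := measurableSet_chainOf _ l
  have hmv : Measurable (fun f : WP => Φ (s, f)) := hΦ.comp measurable_prodMk_left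
  simp only
  rw [lintegral_const_mul]
  · congr 1
    have h2 : ∀ f : WP, S.indicator (1 : ({x // x ∈ l.toFinset} → ℝ) → ℝ≥0∞) (Φ (s, f))
        = ((fun f : WP => Φ (s, f)) ⁻¹' S).indicator 1 f := fun f => by
      by_cases h : Φ (s, f) ∈ S
      · rw [Set.indicator_of_mem h, Set.indicator_of_mem (by exact h)]; rfl
      · rw [Set.indicator_of_notMem h, Set.indicator_of_notMem (by exact h)]
    simp_rw [h2]
    rw [lintegral_indicator_one (hmv hS), Measure.restrict_apply (hmv hS)]
    congr 1
    ext f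
    simp only [Set.mem_ofPred_eq, Set.mem_inter_iff, Set.mem_preimage, S, Φ]
    constructor
    · rintro ⟨h3, h4⟩
      exact ⟨fun i hi => h4 i.1 (List.mem_toFinset.1 i.2) hi, h3⟩
    · rintro ⟨h3, h4⟩
      exact ⟨h4, fun x hx hxB => h3 ⟨x, List.mem_toFinset.2 hx⟩ hxB⟩
  · exact (measurable_one.indicator hS).comp hmv

end Pool.Agent.WSB71
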