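import Pool.Agent.LT.Transfer
import Pool.Agent.WSB71.FMainFormula
import Pool.Agent.WSB71.FWeights

/-!
# F4, F5: the joint law of the jump chain and of the local times, and what we use of it
-/

open MeasureTheory Filter Topology
open scoped NNReal ENNReal

namespace Pool.Agent.WSB71

open Pool.Agent.LT

/-! ## Measurability -/

lemma lt_bdd (x : Site) : ∀ w, |(fun w : Site => if w = x then (1 : ℝ) else 0) w| ≤ 1 := by
  intro w; by_cases h : w = x <;> simp [h]

lemma measurable_lt_prod (x : Site) :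
    Measurable (fun p : ℝ × WP => lt p.1.toNNReal p.2 x) := by
  have h1 : Measurable (Function.uncurry (fun (s : ℝ≥0) (f : WP) => lt s f x)) := by
    apply measurable_uncurry_of_continuous_of_measurable
    · intro f
      unfold lt occ
      have h := intervalIntegral.continuous_primitive (μ := volume)
        (fun a b => intervalIntegrable_path f _ (lt_bdd x) a b) 0
      exact h.comp NNReal.continuous_coe
    · intro s
      exact measurable_occ s _ (lt_bdd x)
  exact h1.comp ((measurable_real_toNNReal.comp measurable_fst).prodMk measurable_snd)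

/-- the event of `main_formula` -/
def Dset (β : ℝ) (B : Set Site) (l : List Site) : Set (ℝ × WP) :=
  {p | 0 ≤ p.1 ∧ chainOf p.1.toNNReal p.2 = l} ∩ {p | ∀ x ∈ l, x ∈ B → β ≤ lt p.1.toNNReal p.2 x}

lemma measurableSet_Dset (β : ℝ) (B : Set Site) (l : List Site) :
    MeasurableSet (Dset β B l) := by
  apply (measurableSet_chainOf_prod l).inter
  have : {p : ℝ × WP | ∀ x ∈ l, x ∈ B → β ≤ lt p.1.toNNReal p.2 x} =
      ⋂ x : Site, {p : ℝ × WP | x ∈ l → x ∈ B → β ≤ lt p.1.toNNReal p.2 x} := by
    ext p; simp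
  rw [this]
  refine MeasurableSet.iInter fun x => ?_
  by_cases hx : x ∈ l
  · by_cases hB : x ∈ B
    · simp only [hx, hB, forall_true_left]
      exact measurableSet_le measurable_const (measurable_lt_prod x)
    · simp [hB]
  · simp [hx]

/-- the probability in `main_formula` -/
noncomputable def Fm (μ : Measure WP) (β : ℝ) (B : Set Site) (l : List Site) (s : ℝ) : ℝ≥0∞ :=
  μ (Prod.mk s ⁻¹' Dset β B l)

lemma measurable_Fm (μ : Measure WP) [IsProbabilityMeasure μ] (β : ℝ) (B : Set Site)
    (l : List Site) : Measurable (Fm μ β B l) :=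
  measurable_measure_prodMk_left (measurableSet_Dset β B l)

lemma Fm_eq (μ : Measure WP) (β : ℝ) (B : Set Site) (l : List Site) {s : ℝ} (hs : 0 ≤ s) :
    Fm μ β B l s =
      μ {f : WP | chainOf s.toNNReal f = l ∧ ∀ x ∈ l, x ∈ B → β ≤ lt s.toNNReal f x} := by
  unfold Fm Dset
  congr 1
  ext f
  simp [hs]

lemma measurableSet_Fset (β : ℝ) (B : Set Site) (l : List Site) (s : ℝ≥0) :
    MeasurableSet {f : WP | chainOf s f = l ∧ ∀ x ∈ l, x ∈ B → β ≤ lt s f x} := by
  have h := measurable_prodMk_left (x := (s : ℝ)) (measurableSet_Dset β B l)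
  convert h using 1
  ext f
  simp [Dset]

lemma main_formula' {μ : Measure WP} (hμ : IsLaw μ) {β lam : ℝ} (hβ : 0 ≤ β) (hlam : lam < 4)
    (B : Set Site) (l : List Site) (hl : l.IsChain Adj) (h0 : l.head? = some 0) :
    ∫⁻ s in Set.Ici (0 : ℝ), ENNReal.ofReal (Real.exp (lam * s)) * Fm μ β B l s
      = Wg β lam B l := by
  rw [← main_formula hμ hβ hlam B l hl h0]
  refine setLIntegral_congr_fun measurableSet_Ici fun s hs => ?_
  rw [Fm_eq μ β B l hs]

/-! ## Elementary facts on paths -/

lemma lt_mono {s t : ℝ≥0} (h : s ≤ t) (f : WP) (x : Site) : lt s f x ≤ lt t f x := by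
  unfold lt occ
  refine intervalIntegral.integral_mono_interval le_rfl s.coe_nonneg (NNReal.coe_le_coe.2 h) ?_
    (intervalIntegrable_path f _ (lt_bdd x) _ _)
  filter_upwards with u
  show (0 : ℝ) ≤ if f.1 u.toNNReal = x then 1 else 0
  split_ifs <;> norm_num

lemma const_of_chain {f : WP} {x : Site} {t : ℝ≥0} (h : chainOf t f = [x]) {u : ℝ≥0}
    (hu : u ≤ t) : f.1 u = x := by
  have h1 := chainOf_toFinset t f
  rw [h] at h1
  have h2 : f.1 u ∈ rangeF t f := mem_rangeF.2 ⟨u, hu, rfl⟩
  rw [← h1] at h2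
  simpa using h2

lemma chainOf_stop (t : ℝ≥0) (f : WP) : chainOf t (stop t f) = chainOf t f :=
  chainOf_congr (fun u hu => by simp [stop, min_eq_left hu])

lemma rangeF_stop (t : ℝ≥0) (f : WP) : rangeF t (stop t f) = rangeF t f := by
  rw [← chainOf_toFinset, ← chainOf_toFinset, chainOf_stop]

lemma evtE_stop (β : ℝ) (t : ℝ≥0) (f : WP) : stop t f ∈ evtE β t ↔ f ∈ evtE β t := by
  unfold evtE
  simp only [Set.mem_ofPred_eq, rangeF_stop, occ_stop]

lemma measurableSet_chain_mem (t : ℝ≥0) (S : Set (List Site)) :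
    MeasurableSet {f : WP | chainOf t f ∈ S} := by
  have : {f : WP | chainOf t f ∈ S} = ⋃ l ∈ S, {f : WP | chainOf t f = l} := by
    ext f; simp
  rw [this]
  exact MeasurableSet.biUnion (Set.to_countable S) fun l _ => measurableSet_chainOf t l

/-- **F_UB.**  With probability `e^{-4}` there is no jump in `[t, t+1]`. -/
theorem evt_le {μ : Measure WP} (hμ : IsLaw μ) {β lam : ℝ} (hβ : 0 ≤ β) (h0 : 0 ≤ lam)
    (h1 : lam < 4) (t : ℝ≥0) (S : Set (List Site)) :
    μ {f : WP | f ∈ evtE β t ∧ chainOf t f ∈ S}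
      ≤ ENNReal.ofReal (Real.exp (4 - lam * t)) *
        ∑' l : {l : List Site // l ∈ S ∧ l.IsChain Adj ∧ l.head? = some 0}, W β lam l := by
  have hprob := hμ.prob
  set A : Set WP := {f : WP | f ∈ evtE β t ∧ chainOf t f ∈ S} with hA
  set G : Set WP := {f : WP | chainOf 1 f = [0]} with hG
  have hAm : MeasurableSet A :=
    (measurableSet_evtE β t).inter (measurableSet_chain_mem t S)
  have hAstop : stop t ⁻¹' A = A := by
    ext f
    simp only [hA, Set.mem_preimage, Set.mem_ofPred_eq, evtE_stop, chainOf_stop]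
  have hGm : μ G = ENNReal.ofReal (Real.exp (-4)) := by
    rw [hG, chain_time hμ 1 [0] (by simp) rfl]
    simp
  have hmk : μ (A ∩ shift t ⁻¹' G) = μ A * ENNReal.ofReal (Real.exp (-4)) := by
    have := hμ.markov_set t hAm (measurableSet_chainOf 1 [0])
    rw [hAstop] at this
    rw [← hGm]
    exact this
  -- the sum at time `s`
  have key : ∀ s ∈ Set.Icc (t : ℝ) (t + 1), μ A * ENNReal.ofReal (Real.exp (-4)) ≤
      ∑' l : {l : List Site // l ∈ S ∧ l.IsChain Adj ∧ l.head? = some 0},
        Fm μ β Set.univ l s := by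
    intro s hs
    have hs0 : 0 ≤ s := t.coe_nonneg.trans hs.1
    rw [← hmk]
    have hnull : μ {f : WP | f.1 0 ≠ 0} = 0 := hμ.start
    have hsub : A ∩ shift t ⁻¹' G ⊆ {f : WP | f.1 0 ≠ 0} ∪
        ⋃ l : {l : List Site // l ∈ S ∧ l.IsChain Adj ∧ l.head? = some 0},
          {f : WP | chainOf s.toNNReal f = l ∧ ∀ x ∈ (l : List Site), x ∈ Set.univ →
            β ≤ lt s.toNNReal f x} := by
      rintro f ⟨⟨hf1, hf2⟩, hf3⟩
      by_cases hf0 : f.1 0 = 0
      · right
        rw [Set.mem_iUnion]
        refine ⟨⟨chainOf t f, hf2, chainOf_isChain t f, by rw [chainOf_head, hf0]⟩, ?_⟩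
        have hts : t ≤ s.toNNReal := by
          rw [← NNReal.coe_le_coe, Real.coe_toNNReal _ hs0]; exact hs.1
        have hst : s.toNNReal ≤ t + 1 := by
          rw [← NNReal.coe_le_coe, Real.coe_toNNReal _ hs0]; push_cast; exact hs.2
        refine ⟨?_, ?_⟩
        · apply chainOf_const hts
          intro u hu1 hu2
          have h3 : (shift t f).1 (u - t) = 0 :=
            const_of_chain hf3 (by
              rw [tsub_le_iff_left]; exact hu2.trans hst)
          simp only [shift] at h3
          rw [add_tsub_cancel_of_le hu1] at h3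
          exact sub_eq_zero.1 h3
        · intro x hx _
          have h4 : x ∈ rangeF t f := by
            rw [← chainOf_toFinset]; exact List.mem_toFinset.2 hx
          have h5 := hf1 x h4
          simp only [zero_add] at h5
          exact h5.trans (lt_mono hts f x)
      · left; exact hf0
    refine (measure_mono hsub).trans ((measure_union_le _ _).trans ?_)
    rw [hnull, zero_add]
    refine (measure_iUnion_le _).trans (le_of_eq ?_)
    refine tsum_congr fun l => ?_
    rw [Fm_eq μ β Set.univ l hs0]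
  -- integrate
  have hint : μ A * ENNReal.ofReal (Real.exp (-4)) * ENNReal.ofReal (Real.exp (lam * t)) ≤
      ∑' l : {l : List Site // l ∈ S ∧ l.IsChain Adj ∧ l.head? = some 0}, W β lam l := by
    calc μ A * ENNReal.ofReal (Real.exp (-4)) * ENNReal.ofReal (Real.exp (lam * t))
        = ∫⁻ s in Set.Icc (t : ℝ) (t + 1),
            μ A * ENNReal.ofReal (Real.exp (-4)) * ENNReal.ofReal (Real.exp (lam * t)) := by
          rw [setLIntegral_const, Real.volume_Icc]; simp
      _ ≤ ∫⁻ s in Set.Icc (t : ℝ) (t + 1), ∑' l : {l : List Site // l ∈ S ∧ l.IsChain Adj ∧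
            l.head? = some 0}, ENNReal.ofReal (Real.exp (lam * s)) * Fm μ β Set.univ l s := by
          refine setLIntegral_mono' measurableSet_Icc fun s hs => ?_
          rw [ENNReal.tsum_mul_left, mul_comm]
          refine mul_le_mul' ?_ (key s hs)
          apply ENNReal.ofReal_le_ofReal
          apply Real.exp_le_exp.2
          exact mul_le_mul_of_nonneg_left hs.1 h0
      _ ≤ ∫⁻ s in Set.Ici (0 : ℝ), ∑' l : {l : List Site // l ∈ S ∧ l.IsChain Adj ∧
            l.head? = some 0}, ENNReal.ofReal (Real.exp (lam * s)) * Fm μ β Set.univ l s := by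
          apply lintegral_mono_set
          intro s hs
          exact t.coe_nonneg.trans hs.1
      _ = ∑' l : {l : List Site // l ∈ S ∧ l.IsChain Adj ∧ l.head? = some 0}, W β lam l := by
          rw [lintegral_tsum]
          · refine tsum_congr fun l => ?_
            rw [main_formula' hμ hβ h1 Set.univ l l.2.2.1 l.2.2.2]
            simp [Wg, W]
          · intro l
            refine Measurable.aemeasurable ?_
            exact (by fun_prop : Measurable fun s : ℝ => ENNReal.ofReal (Real.exp (lam * s))).mul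
              (measurable_Fm μ β Set.univ l)
  calc μ A = ENNReal.ofReal (Real.exp (4 - lam * t)) *
        (μ A * ENNReal.ofReal (Real.exp (-4)) * ENNReal.ofReal (Real.exp (lam * t))) := by
        rw [mul_assoc (μ A), ← ENNReal.ofReal_mul (Real.exp_nonneg _), ← Real.exp_add,
          mul_left_comm, ← ENNReal.ofReal_mul (Real.exp_nonneg _), ← Real.exp_add]
        ring_nf
        simp
    _ ≤ _ := mul_le_mul' le_rfl hint

lemma fw_ne_top (lam : ℝ) (n : ℕ) : fw lam n ≠ ∞ := by
  unfold fw; exact ENNReal.pow_ne_top ENNReal.ofReal_ne_top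

lemma count_pos_of_mem {l : List Site} {x : Site} (hx : x ∈ l.toFinset) : 1 ≤ l.count x :=
  List.count_pos_iff.2 (List.mem_toFinset.1 hx)

lemma Wg_ne_top {β : ℝ} (hβ : 0 ≤ β) {lam : ℝ} (h : lam < 4) (B : Set Site) (l : List Site) :
    Wg β lam B l ≠ ∞ := by
  unfold Wg
  refine ENNReal.prod_ne_top fun x hx => ?_
  split_ifs
  · exact ne_top_of_le_ne_top (fw_ne_top _ _) (gw_le_fw hβ h (count_pos_of_mem hx))
  · exact fw_ne_top _ _

/-- the exponential moment bound for the weight of a chain -/
lemma Wg_one_le {β : ℝ} (hβ : 0 ≤ β) (B : Set Site) (l : List Site) :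
    Wg β 1 B l ≤ ENNReal.ofReal (Real.exp ((l.length : ℝ) * (β + 1))) * Wg β 0 B l := by
  classical
  have h43 : (4 / 3 : ℝ) ≤ Real.exp 1 := by
    have := Real.add_one_le_exp (1 : ℝ); linarith
  have hone : ∀ x ∈ l.toFinset,
      (if x ∈ B then gw β 1 (l.count x) else fw 1 (l.count x)) ≤
      ENNReal.ofReal (Real.exp ((l.count x : ℝ) * (β + 1))) *
        (if x ∈ B then gw β 0 (l.count x) else fw 0 (l.count x)) := by
    intro x hx
    have hn := count_pos_of_mem hx
    have hn1 : (1 : ℝ) ≤ (l.count x : ℝ) := by exact_mod_cast hn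
    split_ifs
    · refine (gw_exp_moment hβ zero_le_one (by norm_num) hn).trans (mul_le_mul' ?_ le_rfl)
      apply ENNReal.ofReal_le_ofReal
      rw [mul_add, Real.exp_add, mul_one]
      refine mul_le_mul ?_ ?_ (by positivity) (Real.exp_nonneg _)
      · apply Real.exp_le_exp.2; nlinarith
      · rw [← mul_one (l.count x : ℝ), Real.exp_nat_mul]
        refine pow_le_pow_left₀ (by norm_num) ?_ _
        norm_num at h43 ⊢; exact h43
    · unfold fw
      rw [mul_comm (l.count x : ℝ), ← mul_comm (l.count x : ℝ), Real.exp_nat_mul,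
        ENNReal.ofReal_pow (Real.exp_nonneg _), ← mul_pow]
      refine pow_le_pow_left' ?_ _
      rw [← ENNReal.ofReal_mul (Real.exp_nonneg _)]
      apply ENNReal.ofReal_le_ofReal
      have : Real.exp 1 ≤ Real.exp (β + 1) := Real.exp_le_exp.2 (by linarith)
      norm_num
      nlinarith
  unfold Wg
  calc _ ≤ ∏ x ∈ l.toFinset, (ENNReal.ofReal (Real.exp ((l.count x : ℝ) * (β + 1))) *
        (if x ∈ B then gw β 0 (l.count x) else fw 0 (l.count x))) := Finset.prod_le_prod' hone
    _ = _ := by
      rw [Finset.prod_mul_distrib]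
      congr 1
      rw [← ENNReal.ofReal_prod_of_nonneg (fun i _ => Real.exp_nonneg _), ← Real.exp_sum,
        ← Finset.sum_mul]
      congr 4
      rw [← Nat.cast_sum]
      congr 1
      rw [← List.sum_toFinset_count_eq_length l]
      refine Finset.sum_congr rfl fun x _ => ?_
      congr 1
      exact lawful_beq_subsingleton _ _

/-- half of the mass is at times `≤ T` -/
lemma half_mass {μ : Measure WP} (hμ : IsLaw μ) {β T : ℝ} (hβ : 0 ≤ β) (hT : 0 < T)
    (B : Set Site) (l : List Site) (hl : l.IsChain Adj) (h0 : l.head? = some 0)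
    (hlen : (l.length : ℝ) * (16 * (β + 1)) ≤ T) :
    ENNReal.ofReal (1 / 2) * Wg β 0 B l ≤ ∫⁻ s in Set.Icc (0 : ℝ) T, Fm μ β B l s := by
  have hprob := hμ.prob
  have hF := measurable_Fm μ β B l
  have hlen1 : (1 : ℝ) ≤ l.length := by
    cases l with
    | nil => simp at h0
    | cons a l => simp
  have e0 : Wg β 0 B l = ∫⁻ s in Set.Ici (0 : ℝ), Fm μ β B l s := by
    rw [← main_formula' hμ hβ (by norm_num) B l hl h0]
    simp
  have e1 : ∫⁻ s in Set.Ici (0 : ℝ), Fm μ β B l s ≤
      (∫⁻ s in Set.Icc (0 : ℝ) T, Fm μ β B l s) + ∫⁻ s in Set.Ioi T, Fm μ β B l s := by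
    refine le_trans (lintegral_mono_set (t := Set.Icc (0 : ℝ) T ∪ Set.Ioi T) ?_)
      (lintegral_union_le _ _ _)
    intro s hs
    rcases le_or_gt s T with h | h
    · exact Or.inl ⟨hs, h⟩
    · exact Or.inr h
  have e2 : ∫⁻ s in Set.Ioi T, Fm μ β B l s ≤
      ENNReal.ofReal (Real.exp (-T)) * Wg β 1 B l := by
    calc ∫⁻ s in Set.Ioi T, Fm μ β B l s ≤ ∫⁻ s in Set.Ioi T,
          ENNReal.ofReal (Real.exp (-T)) * (ENNReal.ofReal (Real.exp (1 * s)) * Fm μ β B l s) := by
          refine setLIntegral_mono' measurableSet_Ioi fun s hs => ?_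
          rw [← mul_assoc, ← ENNReal.ofReal_mul (Real.exp_nonneg _), ← Real.exp_add]
          refine le_mul_of_one_le_left' ?_
          rw [ENNReal.one_le_ofReal]
          apply Real.one_le_exp
          have : T < s := hs
          linarith
      _ ≤ ∫⁻ s in Set.Ici (0 : ℝ),
          ENNReal.ofReal (Real.exp (-T)) * (ENNReal.ofReal (Real.exp (1 * s)) * Fm μ β B l s) := by
          apply lintegral_mono_set
          intro s hs
          exact hT.le.trans (le_of_lt hs)
      _ = _ := by
          rw [lintegral_const_mul']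
          · rw [main_formula' hμ hβ (by norm_num) B l hl h0]
          · exact ENNReal.ofReal_ne_top
  have e3 : ∫⁻ s in Set.Ioi T, Fm μ β B l s ≤ ENNReal.ofReal (1 / 2) * Wg β 0 B l := by
    refine e2.trans ?_
    refine (mul_le_mul' le_rfl (Wg_one_le hβ B l)).trans ?_
    rw [← mul_assoc, ← ENNReal.ofReal_mul (Real.exp_nonneg _), ← Real.exp_add]
    refine mul_le_mul' (ENNReal.ofReal_le_ofReal ?_) le_rfl
    have h1 : (l.length : ℝ) * (β + 1) ≤ T / 16 := by linarith
    have h2 : (16 : ℝ) ≤ T := by nlinarith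
    calc Real.exp (-T + (l.length : ℝ) * (β + 1)) ≤ Real.exp (-1) :=
          Real.exp_le_exp.2 (by linarith)
      _ ≤ 1 / 2 := by
          rw [Real.exp_neg, one_div]
          have : (2 : ℝ) ≤ Real.exp 1 := by have := Real.add_one_le_exp (1 : ℝ); linarith
          exact inv_anti₀ (by norm_num) this
  have hfin : ENNReal.ofReal (1 / 2) * Wg β 0 B l ≠ ∞ :=
    ENNReal.mul_ne_top ENNReal.ofReal_ne_top (Wg_ne_top hβ (by norm_num) B l)
  have e4 : ENNReal.ofReal (1 / 2) * Wg β 0 B l + ENNReal.ofReal (1 / 2) * Wg β 0 B l ≤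
      (∫⁻ s in Set.Icc (0 : ℝ) T, Fm μ β B l s) + ENNReal.ofReal (1 / 2) * Wg β 0 B l := by
    rw [← add_mul, ← ENNReal.ofReal_add (by norm_num) (by norm_num)]
    norm_num
    calc Wg β 0 B l ≤ _ := e0.le.trans e1
      _ ≤ _ := by
        refine add_le_add le_rfl ?_
        convert e3 using 2
  exact (ENNReal.add_le_add_iff_right hfin).1 e4

/-- **F_LB.**  From chain sums to the probability at some time: `∫_0^∞ P(...) ds = ∑ Wg` and at
most half of the mass comes from times `> T` by `gw_exp_moment` with `θ = 1` (each chain in `S` has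
at most `T / (16 (β+1))` sites). -/
theorem exists_time {μ : Measure WP} (hμ : IsLaw μ) {β T : ℝ} (hβ : 0 ≤ β) (hT : 0 < T)
    (B : Set Site) (S : Set (List Site))
    (hS : ∀ l ∈ S, l.IsChain Adj ∧ l.head? = some 0 ∧ (l.length : ℝ) * (16 * (β + 1)) ≤ T) :
    ∃ s : ℝ≥0, (s : ℝ) ≤ T ∧
      ENNReal.ofReal (1 / (2 * T)) * ∑' l : S, Wg β 0 B l
        ≤ μ {f : WP | chainOf s f ∈ S ∧ ∀ x ∈ chainOf s f, x ∈ B → β ≤ lt s f x} := by
  have hprob := hμ.prob
  -- the integrated bound
  have h1 : ENNReal.ofReal (1 / 2) * ∑' l : S, Wg β 0 B l ≤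
      ∫⁻ s in Set.Icc (0 : ℝ) T, ∑' l : S, Fm μ β B l s := by
    rw [lintegral_tsum (f := fun (l : S) (s : ℝ) => Fm μ β B l s)
      (fun l => (measurable_Fm μ β B l).aemeasurable), ← ENNReal.tsum_mul_left]
    exact ENNReal.tsum_le_tsum fun l =>
      half_mass hμ hβ hT B l (hS l l.2).1 (hS l l.2).2.1 (hS l l.2).2.2
  have hsum : ∀ s : ℝ, 0 ≤ s → ∑' l : S, Fm μ β B l s = μ {f : WP | chainOf s.toNNReal f ∈ S ∧
      ∀ x ∈ chainOf s.toNNReal f, x ∈ B → β ≤ lt s.toNNReal f x} := by
    intro s hs
    have e : {f : WP | chainOf s.toNNReal f ∈ S ∧ ∀ x ∈ chainOf s.toNNReal f, x ∈ B →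
        β ≤ lt s.toNNReal f x} = ⋃ l : S, {f : WP | chainOf s.toNNReal f = l ∧
          ∀ x ∈ (l : List Site), x ∈ B → β ≤ lt s.toNNReal f x} := by
      ext f
      simp only [Set.mem_ofPred_eq, Set.mem_iUnion, Subtype.exists, exists_prop]
      constructor
      · rintro ⟨h1, h2⟩; exact ⟨_, h1, rfl, h2⟩
      · rintro ⟨l, h1, h2, h3⟩; rw [h2]; exact ⟨h1, h3⟩
    rw [e, measure_iUnion]
    · exact tsum_congr fun l => Fm_eq μ β B l hs
    · intro l l' hne
      rw [Function.onFun, Set.disjoint_left]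
      rintro f ⟨h1, _⟩ ⟨h2, _⟩
      exact hne (Subtype.ext (h1.symm.trans h2))
    · intro l
      exact measurableSet_Fset β B l _
  have hfin : ∫⁻ s in Set.Icc (0 : ℝ) T, ∑' l : S, Fm μ β B l s ≠ ∞ := by
    have : ∫⁻ s in Set.Icc (0 : ℝ) T, ∑' l : S, Fm μ β B l s ≤
        ∫⁻ s in Set.Icc (0 : ℝ) T, 1 := by
      refine setLIntegral_mono' measurableSet_Icc fun s hs => ?_
      rw [hsum s hs.1]
      exact prob_le_one
    refine ne_top_of_le_ne_top ?_ this
    rw [setLIntegral_const, Real.volume_Icc, one_mul]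
    exact ENNReal.ofReal_ne_top
  have hvol : (volume : Measure ℝ) (Set.Icc (0 : ℝ) T) = ENNReal.ofReal T := by
    rw [Real.volume_Icc, sub_zero]
  obtain ⟨s, hs, hle⟩ := exists_setLAverage_le (μ := (volume : Measure ℝ))
    (s := Set.Icc (0 : ℝ) T) (f := fun s => ∑' l : S, Fm μ β B l s)
    (by rw [hvol]; simpa using hT) measurableSet_Icc.nullMeasurableSet hfin
  refine ⟨s.toNNReal, by rw [Real.coe_toNNReal _ hs.1]; exact hs.2, ?_⟩
  rw [← hsum s hs.1]
  refine le_trans ?_ hle
  rw [setLAverage_eq, hvol, ENNReal.le_div_iff_mul_le (Or.inl (by simpa using hT))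
    (Or.inl ENNReal.ofReal_ne_top)]
  refine le_trans (le_of_eq ?_) h1
  rw [mul_right_comm, ← ENNReal.ofReal_mul (by positivity)]
  congr 2
  field_simp

/-! ## The number of jumps -/

/-- the finite set of chains with `n` steps from `x` -/
def chains : ℕ → Site → Finset (List Site)
  | 0, x => {[x]}
  | n + 1, x => units.biUnion fun e => (chains n (x + e)).image (List.cons x)

lemma card_units : units.card = 4 := by decide

lemma card_chains (n : ℕ) (x : Site) : (chains n x).card ≤ 4 ^ n := by
  induction n generalizing x with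
  | zero => simp [chains]
  | succ n ih =>
    rw [chains]
    calc _ ≤ ∑ e ∈ units, ((chains n (x + e)).image (List.cons x)).card :=
          Finset.card_biUnion_le
      _ ≤ ∑ e ∈ units, 4 ^ n := Finset.sum_le_sum fun e _ => Finset.card_image_le.trans (ih _)
      _ = 4 ^ (n + 1) := by rw [Finset.sum_const, card_units, smul_eq_mul]; ring

lemma mem_chains {n : ℕ} {x : Site} {l : List Site} (h1 : l.IsChain Adj) (h2 : l.head? = some x)
    (h3 : l.length = n + 1) : l ∈ chains n x := by
  induction n generalizing x l with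
  | zero =>
    cases l with
    | nil => simp at h2
    | cons a l =>
      simp only [List.head?_cons, Option.some.injEq] at h2
      simp only [List.length_cons, zero_add, Nat.add_eq_right, List.length_eq_zero_iff] at h3
      simp [chains, h2, h3]
  | succ n ih =>
    cases l with
    | nil => simp at h2
    | cons a l =>
      simp only [List.head?_cons, Option.some.injEq] at h2
      subst h2
      cases l with
      | nil => simp at h3
      | cons b l =>
        rw [List.isChain_cons_cons] at h1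
        rw [chains, Finset.mem_biUnion]
        refine ⟨b - a, h1.1, ?_⟩
        rw [Finset.mem_image]
        refine ⟨b :: l, ?_, rfl⟩
        rw [add_sub_cancel]
        exact ih h1.2 rfl (by simpa using h3)

/-- the probability that a given chain with `n` steps is the jump chain -/
noncomputable def pn (t : ℝ≥0) (n : ℕ) : ℝ≥0∞ :=
  ENNReal.ofReal (Real.exp (-(4 * t)) * t ^ n / (n.factorial : ℝ))

lemma chain_mem_le {μ : Measure WP} (hμ : IsLaw μ) (t : ℝ≥0) (S : Set (List Site)) :
    μ {f : WP | chainOf t f ∈ S} ≤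
      ∑' n : ℕ, (({l : List Site | l ∈ S ∧ l.IsChain Adj ∧ l.head? = some 0 ∧
        l.length = n + 1}.encard : ℕ∞) : ℝ≥0∞) * pn t n := by
  have hnull : μ {f : WP | f.1 0 ≠ 0} = 0 := hμ.start
  have hsub : {f : WP | chainOf t f ∈ S} ⊆ {f : WP | f.1 0 ≠ 0} ∪
      ⋃ n : ℕ, ⋃ l : {l : List Site | l ∈ S ∧ l.IsChain Adj ∧ l.head? = some 0 ∧
        l.length = n + 1}, {f : WP | chainOf t f = l} := by
    intro f hf
    by_cases hf0 : f.1 0 = 0
    · right
      have hh : (chainOf t f).head? = some 0 := by rw [chainOf_head, hf0]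
      have hlen : (chainOf t f).length = ((chainOf t f).length - 1) + 1 := by
        cases hc : chainOf t f with
        | nil => rw [hc] at hh; simp at hh
        | cons a l => simp
      rw [Set.mem_iUnion]
      refine ⟨(chainOf t f).length - 1, ?_⟩
      rw [Set.mem_iUnion]
      exact ⟨⟨chainOf t f, hf, chainOf_isChain t f, hh, hlen⟩, rfl⟩
    · left; exact hf0
  refine (measure_mono hsub).trans ((measure_union_le _ _).trans ?_)
  rw [hnull, zero_add]
  refine (measure_iUnion_le _).trans (ENNReal.tsum_le_tsum fun n => ?_)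
  refine (measure_iUnion_le _).trans (le_of_eq ?_)
  rw [← ENNReal.tsum_set_const]
  refine tsum_congr fun l => ?_
  obtain ⟨l, h1, h2, h3, h4⟩ := l
  rw [chain_time hμ t l h2 h3, pn, h4]
  simp

lemma tsum_pn (t : ℝ≥0) (a : ℝ) (ha : 0 ≤ a) :
    ∑' n : ℕ, ENNReal.ofReal a ^ n * pn t n = ENNReal.ofReal (Real.exp (-(4 * t) + a * t)) := by
  have h1 : ∀ n : ℕ, ENNReal.ofReal a ^ n * pn t n =
      ENNReal.ofReal (Real.exp (-(4 * t)) * ((a * t) ^ n / (n.factorial : ℝ))) := by
    intro n
    rw [pn, ← ENNReal.ofReal_pow ha, ← ENNReal.ofReal_mul (by positivity)]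
    congr 1
    rw [mul_pow]; ring
  simp_rw [h1]
  have h2 : Summable (fun n : ℕ => Real.exp (-(4 * t)) * ((a * t) ^ n / (n.factorial : ℝ))) :=
    (Real.summable_pow_div_factorial _).mul_left _
  rw [← ENNReal.ofReal_tsum_of_nonneg (fun n => by positivity) h2, tsum_mul_left,
    Real.exp_add]
  congr 2
  rw [Real.exp_eq_exp_ℝ, NormedSpace.exp_eq_tsum_div]

/-- **F_SRW.** -/
theorem chain_srw {μ : Measure WP} (hμ : IsLaw μ) (t : ℝ≥0) (S : Set (List Site)) (c : ℝ≥0∞)
    (hc : ∀ n : ℕ, ((({l : List Site | l ∈ S ∧ l.IsChain Adj ∧ l.head? = some 0 ∧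
      l.length = n + 1}.encard : ℕ∞)) : ℝ≥0∞) ≤ c * 4 ^ n) :
    μ {f : WP | chainOf t f ∈ S} ≤ c := by
  refine (chain_mem_le hμ t S).trans ?_
  calc _ ≤ ∑' n : ℕ, c * (ENNReal.ofReal 4 ^ n * pn t n) := by
        refine ENNReal.tsum_le_tsum fun n => ?_
        rw [← mul_assoc]
        refine mul_le_mul' ((hc n).trans (le_of_eq ?_)) le_rfl
        simp
    _ = c := by
        rw [ENNReal.tsum_mul_left, tsum_pn t 4 (by norm_num)]
        simp

/-- **F_len.** -/
theorem length_le {μ : Measure WP} (hμ : IsLaw μ) (t : ℝ≥0) :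
    μ {f : WP | 32 * (t : ℝ) + 2 ≤ (chainOf t f).length} ≤ ENNReal.ofReal (Real.exp (-t)) := by
  have h1 := chain_mem_le hμ t {l : List Site | 32 * (t : ℝ) + 2 ≤ l.length}
  refine h1.trans ?_
  have hexp : Real.exp (-(32 * (t : ℝ))) * Real.exp (4 * Real.exp 1 * t - 4 * t) ≤
      Real.exp (-t) := by
    rw [← Real.exp_add]
    apply Real.exp_le_exp.2
    have := Real.exp_one_lt_d9
    have ht := t.coe_nonneg
    nlinarith
  calc _ ≤ ∑' n : ℕ, ENNReal.ofReal (Real.exp (-(32 * (t : ℝ)))) *
        (ENNReal.ofReal (4 * Real.exp 1) ^ n * pn t n) := by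
        refine ENNReal.tsum_le_tsum fun n => ?_
        rw [← mul_assoc]
        refine mul_le_mul' ?_ le_rfl
        by_cases hn : 32 * (t : ℝ) + 2 ≤ ((n + 1 : ℕ) : ℝ)
        · have h2 : (({l : List Site | l ∈ {l : List Site | 32 * (t : ℝ) + 2 ≤ l.length} ∧
              l.IsChain Adj ∧ l.head? = some 0 ∧ l.length = n + 1}.encard : ℕ∞) : ℝ≥0∞) ≤
              4 ^ n := by
            have h3 : {l : List Site | l ∈ {l : List Site | 32 * (t : ℝ) + 2 ≤ l.length} ∧
                l.IsChain Adj ∧ l.head? = some 0 ∧ l.length = n + 1} ⊆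
                ((chains n 0 : Finset (List Site)) : Set (List Site)) := by
              rintro l ⟨_, h5, h6, h7⟩
              exact mem_chains h5 h6 h7
            have h4 := Set.encard_le_encard h3
            rw [Set.encard_coe_eq_coe_finsetCard] at h4
            have h5 : (((chains n 0).card : ℕ∞)) ≤ ((4 ^ n : ℕ) : ℕ∞) := by
              exact_mod_cast card_chains n 0
            have h6 := h4.trans h5
            calc _ ≤ ((((4 ^ n : ℕ) : ℕ∞)) : ℝ≥0∞) := by exact_mod_cast h6
              _ = 4 ^ n := by push_cast; rfl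
          refine h2.trans ?_
          rw [← ENNReal.ofReal_pow (by positivity), ← ENNReal.ofReal_mul (Real.exp_nonneg _)]
          have : (4 : ℝ≥0∞) ^ n = ENNReal.ofReal (4 ^ n) := by
            rw [ENNReal.ofReal_pow (by norm_num)]; simp
          rw [this]
          apply ENNReal.ofReal_le_ofReal
          rw [mul_pow, mul_left_comm, ← Real.exp_nat_mul, ← Real.exp_add]
          refine le_mul_of_one_le_right (by positivity) (Real.one_le_exp ?_)
          push_cast at hn
          linarith
        · have h2 : {l : List Site | l ∈ {l : List Site | 32 * (t : ℝ) + 2 ≤ l.length} ∧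
              l.IsChain Adj ∧ l.head? = some 0 ∧ l.length = n + 1} = ∅ := by
            rw [Set.eq_empty_iff_forall_notMem]
            rintro l ⟨h5, _, _, h7⟩
            apply hn
            rw [← h7]; exact h5
          rw [h2]; simp
    _ = ENNReal.ofReal (Real.exp (-(32 * (t : ℝ))) * Real.exp (4 * Real.exp 1 * t - 4 * t)) := by
        rw [ENNReal.tsum_mul_left, tsum_pn t _ (by positivity),
          ← ENNReal.ofReal_mul (Real.exp_nonneg _)]
        congr 3; ring
    _ ≤ _ := ENNReal.ofReal_le_ofReal hexp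

end Pool.Agent.WSB71
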