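import Pool.Agent.WSB71.UDecDef

/-!
# Tiles: definitions

Dual vertices are elements `p` of `Site = ℤ × ℤ` and stand for the points `p + (1/2, 1/2)`.  A step
`p → q` of a dual path crosses the edge between the sites `inn p q` (right hand side) and
`out p q` (left hand side).  Diagonal coordinates: for a site `T x = x₁ + x₂`, `g x = x₁ - x₂`; for a
dual vertex `T p = p₁ + p₂ + 1`, `g p = p₁ - p₂`.  Tiles go roughly to the north east: `T` increases,
the inner side is where `g` is large.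
-/

open MeasureTheory Filter Topology
open scoped NNReal ENNReal

namespace Pool.Agent.WSB71

open Pool.Agent.LT

/-- The site on the right of the dual step `p → q`. -/
def inn (p q : Site) : Site :=
  (p.1 + (1 + (q.1 - p.1) + (q.2 - p.2)) / 2, p.2 + (1 + (q.2 - p.2) - (q.1 - p.1)) / 2)

/-- The site on the left of the dual step `p → q`. -/
def out (p q : Site) : Site :=
  (p.1 + (1 + (q.1 - p.1) - (q.2 - p.2)) / 2, p.2 + (1 + (q.2 - p.2) + (q.1 - p.1)) / 2)

/-- Diagonal coordinates of sites. -/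
def Ts (x : Site) : ℤ := x.1 + x.2

/-- Diagonal coordinates of sites. -/
def gs (x : Site) : ℤ := x.1 - x.2

/-- Diagonal coordinates of dual vertices. -/
def Td (p : Site) : ℤ := p.1 + p.2 + 1

/-- Diagonal coordinates of dual vertices. -/
def gd (p : Site) : ℤ := p.1 - p.2

/-- The steps of a dual path. -/
def steps (γ : List Site) : List (Site × Site) := γ.zip γ.tail

/-- `x` is on the right of `γ`: the staircase `x, x + (1,0), x + (1,-1), x + (2,-1), ...` crosses `γ` an even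
number of times. -/
def rightOf (γ : List Site) (x : Site) : Prop :=
  Even ((steps γ).countP (fun s => min (Td s.1) (Td s.2) = Ts x ∧ 2 * gs x < gd s.1 + gd s.2))

/-- The upper envelope: `max_p (g p - 2 |T - T p|)`. -/
noncomputable def env (γ : List Site) (T : ℤ) : ℤ := sSup {a | ∃ p ∈ γ, a = gd p - 2 * |T - Td p|}

/-- First value of `T`. -/
def Tfst (γ : List Site) : ℤ := Td (γ.headD 0)

/-- Last value of `T`. -/
def Tlst (γ : List Site) : ℤ := Td (γ.getLastD 0)

/-- Inner zone of a tile. -/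
def Cz (γ : List Site) (h : ℤ) : Set Site :=
  {x | rightOf γ x ∧ Tfst γ + 8 * h ≤ Ts x ∧ Ts x ≤ Tlst γ - 8 * h ∧ gs x ≤ env γ (Ts x) + h}

/-- Outer zone of a tile. -/
def Zz (γ : List Site) (h : ℤ) : Set Site :=
  {x | rightOf γ x ∧ Tfst γ + 4 * h < Ts x ∧ Ts x < Tlst γ - 4 * h ∧
    gs x < env γ (Ts x) + 2 * h}

/-- The contour of a tile: a self avoiding dual path from `0` to `v` with regular ends and low
waste, of length between `L` and `2L`. -/
structure TilePath (L : ℕ) (v : Site) (γ : List Site) : Prop where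
  head : γ.head? = some 0
  last : γ.getLast? = some v
  chain : γ.IsChain Adj
  nodup : γ.Nodup
  len : L + 1 ≤ γ.length ∧ γ.length ≤ 2 * L + 1
  regL : ∀ k (hk : k < γ.length), 3 * (k : ℤ) ≤ 4 * (Td γ[k] - Tfst γ)
  regR : ∀ k (hk : k < γ.length), 3 * ((γ.length : ℤ) - 1 - k) ≤ 4 * (Tlst γ - Td γ[k])
  low : 99 * ((γ.length : ℤ) - 1) ≤ 100 * (Tlst γ - Tfst γ)

/-- The conditions on the excursions in a tile (`V` = visits). -/
def TileCond (h s₀ : ℤ) (M : ℕ) (γ : List Site) (V : List Site) : Prop :=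
  (∀ s ∈ steps γ, inn s.1 s.2 ∈ Cz γ h → inn s.1 s.2 ∈ V) ∧
  ∃ ρ : ℤ, h ≤ 4 * ρ ∧ 2 * ρ ≤ h ∧
    {x : Site | rightOf γ x ∧ Tfst γ + 8 * h ≤ Ts x ∧ Ts x ≤ Tlst γ - 8 * h ∧
      env γ (Ts x) + ρ ≤ gs x ∧ gs x < env γ (Ts x) + ρ + s₀ ∧ x ∉ V}.ncard ≤ M

/-- Admissible first sites of excursions. -/
def TileEnt (h : ℤ) (γ : List Site) (a : Site) : Prop :=
  env γ (Ts a) + h - 2 ≤ gs a ∨ Ts a = Tfst γ + 8 * h ∨ Ts a = Tlst γ - 8 * h

/-- A tile: contour and excursions, with prescribed end points `D` of the excursions. -/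
def Tile (h s₀ : ℤ) (L M : ℕ) (v : Site) (D : List (Option Site × Option Site))
    (q : List Site × List (List Site)) : Prop :=
  TilePath L v q.1 ∧ ends q.2 = D ∧
  (∀ e ∈ q.2, ∃ a b, IsExc (Cz q.1 h) (Zz q.1 h) a b e ∧ TileEnt h q.1 a ∧ rightOf q.1 b) ∧
  TileCond h s₀ M q.1 (visits q.2)

/-- The tile sum. -/
noncomputable def ZT (β lam : ℝ) (h s₀ : ℤ) (L M : ℕ) (v : Site)
    (D : List (Option Site × Option Site)) : ℝ≥0∞ :=
  ∑' q : {q : List Site × List (List Site) // Tile h s₀ L M v D q},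
    Wg β lam (Cz q.1.1 h) (visits q.1.2)

end Pool.Agent.WSB71
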