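import Pool.Agent.WSB71.FWeights
import Pool.Agent.WSB71.Tile

/-!
# Tiles: finiteness and continuity in lam (helper7)

The zones of the tile paths of given length lie in a fixed box; the walk killed outside of the box
has finite Green function for jump weights slightly larger than 1/4.
-/

open MeasureTheory Filter Topology
open scoped NNReal ENNReal

namespace Pool.Agent.WSB71

open Pool.Agent.LT

namespace TC

/-! ## Geometry -/

lemma adj_iff {p q : Site} : Adj p q ↔ q = (p.1 + 1, p.2) ∨ q = (p.1 - 1, p.2) ∨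
    q = (p.1, p.2 + 1) ∨ q = (p.1, p.2 - 1) := by
  obtain ⟨p1, p2⟩ := p
  obtain ⟨q1, q2⟩ := q
  simp only [Adj, units, Finset.mem_insert, Finset.mem_singleton, Prod.mk_sub_mk, Prod.mk.injEq]
  constructor
  · rintro (h | h | h | h)
    · left; omega
    · right; left; omega
    · right; right; left; omega
    · right; right; right; omega
  · rintro (h | h | h | h)
    · left; omega
    · right; left; omega
    · right; right; left; omega
    · right; right; right; omega

lemma steps_cons (p q : Site) (l : List Site) : steps (p :: q :: l) = (p, q) :: steps (q :: l) := rfl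

lemma steps_single (p : Site) : steps [p] = [] := rfl

lemma even_cross (T : ℤ) : ∀ (γ : List Site), γ.IsChain Adj → ∀ a b, γ.head? = some a →
    γ.getLast? = some b →
    (Even ((steps γ).countP (fun s => min (Td s.1) (Td s.2) = T)) ↔ (Td a ≤ T ↔ Td b ≤ T)) := by
  intro γ
  induction γ with
  | nil => intro _ a b ha; simp at ha
  | cons p l ih =>
    cases l with
    | nil =>
      intro _ a b ha hb
      simp only [List.head?_cons, Option.some.injEq, List.getLast?_singleton] at ha hb
      subst ha; subst hb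
      simp [steps_single]
    | cons q l =>
      intro hc a b ha hb
      simp only [List.head?_cons, Option.some.injEq] at ha
      subst ha
      rw [List.getLast?_cons_cons] at hb
      rw [List.isChain_cons_cons] at hc
      have h1 := ih hc.2 q b rfl hb
      rw [steps_cons, List.countP_cons]
      have hpq := adj_iff.1 hc.1
      have hT : Td q = Td p + 1 ∨ Td q = Td p - 1 := by
        unfold Td
        rcases hpq with h | h | h | h <;> rw [h] <;> simp <;> omega
      by_cases hm : min (Td p) (Td q) = T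
      · simp only [hm, decide_true, if_true]
        rw [Nat.even_add_one, h1]
        rcases hT with h | h
        · have h2 : Td p ≤ T := by omega
          have h3 : ¬ Td q ≤ T := by omega
          simp only [h2, h3, true_iff, false_iff, not_not]
        · have h2 : ¬ Td p ≤ T := by omega
          have h3 : Td q ≤ T := by omega
          simp only [h2, h3, true_iff, false_iff]
      · simp only [hm, decide_false, Bool.false_eq_true, if_false, add_zero]
        rw [h1]
        have h2 : Td p ≤ T ↔ Td q ≤ T := by omega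
        rw [h2]

/-- positions stay within the length -/
lemma path_bound : ∀ (γ : List Site), γ.IsChain Adj → ∀ a, γ.head? = some a → ∀ p ∈ γ,
    |p.1 - a.1| < γ.length ∧ |p.2 - a.2| < γ.length := by
  intro γ
  induction γ with
  | nil => intro _ a ha; simp at ha
  | cons q l ih =>
    intro hc a ha p hp
    simp only [List.head?_cons, Option.some.injEq] at ha
    subst ha
    rcases List.mem_cons.1 hp with rfl | hp
    · simp
    · cases l with
      | nil => simp at hp
      | cons r l =>
        rw [List.isChain_cons_cons] at hc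
        have h1 := ih hc.2 r rfl p hp
        have h2 := adj_iff.1 hc.1
        have h3 : ((q :: r :: l).length : ℤ) = (r :: l).length + 1 := by simp
        rw [h3]
        obtain ⟨h4, h5⟩ := h1
        rw [abs_lt] at h4 h5
        rw [abs_lt, abs_lt]
        generalize ((r :: l).length : ℤ) = n at h4 h5 ⊢
        rcases h2 with h | h | h | h <;> rw [h] at h4 h5 <;> simp only at h4 h5 <;>
          refine ⟨⟨?_, ?_⟩, ?_, ?_⟩ <;> omega

lemma tp_bound {L : ℕ} {v : Site} {γ : List Site} (hγ : TilePath L v γ) {p : Site} (hp : p ∈ γ) :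
    |p.1| ≤ 2 * L ∧ |p.2| ≤ 2 * L := by
  have h1 := path_bound γ hγ.chain 0 hγ.head p hp
  have h2 := hγ.len.2
  simp only [Prod.fst_zero, Prod.snd_zero, sub_zero] at h1
  have h3 : (γ.length : ℤ) ≤ 2 * L + 1 := by exact_mod_cast h2
  constructor <;> omega

lemma tp_fst {L : ℕ} {v : Site} {γ : List Site} (hγ : TilePath L v γ) : Tfst γ = 1 := by
  unfold Tfst Td
  have h := hγ.head
  cases γ with
  | nil => simp at h
  | cons p l =>
    simp only [List.head?_cons, Option.some.injEq] at h
    subst h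
    simp

lemma tp_lst {L : ℕ} {v : Site} {γ : List Site} (hγ : TilePath L v γ) : Tlst γ = Td v := by
  unfold Tlst
  rw [List.getLastD_eq_getLast?, hγ.last]
  rfl

lemma tp_v {L : ℕ} {v : Site} {γ : List Site} (hγ : TilePath L v γ) : v ∈ γ :=
  List.mem_of_getLast? hγ.last

lemma mem_steps {γ : List Site} {s : Site × Site} (h : s ∈ steps γ) : s.1 ∈ γ ∧ s.2 ∈ γ := by
  unfold steps at h
  obtain ⟨a, b⟩ := s
  have := List.of_mem_zip h
  exact ⟨this.1, List.mem_of_mem_tail this.2⟩

lemma zone_bound {L : ℕ} {v : Site} {γ : List Site} (hγ : TilePath L v γ) {h : ℤ} (hh : 1 ≤ h)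
    {x : Site} (hx : x ∈ Zz γ h) : |x.1| ≤ 8 * L + 2 * h + 2 ∧ |x.2| ≤ 8 * L + 2 * h + 2 := by
  obtain ⟨h1, h2, h3, h4⟩ := hx
  rw [tp_fst hγ] at h2
  rw [tp_lst hγ] at h3
  have hv := tp_bound hγ (tp_v hγ)
  have hv1 : Td v ≤ 4 * L + 1 := by
    unfold Td
    have := abs_le.1 hv.1
    have := abs_le.1 hv.2
    omega
  have henv : env γ (Ts x) ≤ 4 * L := by
    unfold env
    refine csSup_le ⟨_, v, tp_v hγ, rfl⟩ ?_
    rintro a ⟨p, hp, rfl⟩
    have hp1 := tp_bound hγ hp
    have := abs_le.1 hp1.1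
    have := abs_le.1 hp1.2
    have := abs_nonneg (Ts x - Td p)
    unfold gd
    omega
  have hlow : - (4 * (L : ℤ)) ≤ gs x := by
    by_contra hcon
    rw [not_le] at hcon
    unfold rightOf at h1
    have h5 : (steps γ).countP (fun s => min (Td s.1) (Td s.2) = Ts x ∧
        2 * gs x < gd s.1 + gd s.2) = (steps γ).countP (fun s => min (Td s.1) (Td s.2) = Ts x) := by
      apply List.countP_congr
      intro s hs
      have hs1 := mem_steps hs
      have ha := tp_bound hγ hs1.1
      have hb := tp_bound hγ hs1.2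
      have := abs_le.1 ha.1
      have := abs_le.1 ha.2
      have := abs_le.1 hb.1
      have := abs_le.1 hb.2
      have h6 : 2 * gs x < gd s.1 + gd s.2 := by
        unfold gd
        omega
      simp [h6]
    rw [h5, even_cross (Ts x) γ hγ.chain 0 v hγ.head hγ.last] at h1
    have h7 : Td 0 ≤ Ts x := by
      have : Td (0 : Site) = 1 := by simp [Td]
      omega
    have h8 := h1.1 h7
    omega
  unfold Ts gs at *
  constructor <;> rw [abs_le] <;> constructor <;> omega

lemma cz_sub_zz {γ : List Site} {h : ℤ} (hh : 1 ≤ h) : Cz γ h ⊆ Zz γ h := by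
  rintro x ⟨h1, h2, h3, h4⟩
  exact ⟨h1, by omega, by omega, by omega⟩

/-- the box -/
noncomputable def box (R : ℕ) : Finset Site := Finset.Icc (-(R : ℤ)) R ×ˢ Finset.Icc (-(R : ℤ)) R

lemma mem_box {R : ℕ} {x : Site} : x ∈ box R ↔ |x.1| ≤ R ∧ |x.2| ≤ R := by
  simp only [box, Finset.mem_product, Finset.mem_Icc, abs_le]

/-- the radius of the box containing the zones -/
def rad (L : ℕ) (h : ℤ) : ℕ := 8 * L + 2 * h.toNat + 2

lemma zz_box {L : ℕ} {v : Site} {γ : List Site} (hγ : TilePath L v γ) {h : ℤ} (hh : 1 ≤ h)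
    {x : Site} (hx : x ∈ Zz γ h) : x ∈ box (rad L h) := by
  rw [mem_box]
  have := zone_bound hγ hh hx
  have h1 : ((rad L h : ℕ) : ℤ) = 8 * L + 2 * h + 2 := by
    unfold rad
    push_cast
    rw [Int.toNat_of_nonneg (by omega)]
  rw [h1]
  exact this

lemma finite_lists {α : Type*} (S : Finset α) (n : ℕ) :
    {l : List α | l.length ≤ n ∧ ∀ x ∈ l, x ∈ S}.Finite := by
  have h1 : (List.map (Subtype.val : S → α) '' {l : List S | l.length ≤ n}).Finite :=
    (List.finite_length_le S n).image _
  refine h1.subset ?_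
  rintro l ⟨h2, h3⟩
  refine ⟨l.attach.map (fun x => ⟨x.1, h3 x.1 x.2⟩), ?_, ?_⟩
  · simpa using h2
  · rw [List.map_map]
    conv_rhs => rw [← List.attach_map_subtype_val l]
    rfl

lemma finite_paths (L : ℕ) (v : Site) : {γ : List Site | TilePath L v γ}.Finite := by
  refine (finite_lists (box (2 * L)) (2 * L + 1)).subset ?_
  intro γ hγ
  refine ⟨hγ.len.2, fun x hx => ?_⟩
  rw [mem_box]
  have := tp_bound hγ hx
  push_cast
  exact this

/-! ## Sums over lists -/

lemma tsum_list {α : Type*} (g : List α → ℝ≥0∞) :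
    ∑' l, g l = g [] + ∑' a, ∑' l, g (a :: l) := by
  classical
  rw [ENNReal.tsum_eq_add_tsum_ite (f := g) []]
  congr 1
  rw [← ENNReal.tsum_prod (f := fun a l => g (a :: l))]
  have hinj : Function.Injective (fun p : α × List α => p.1 :: p.2) := by
    rintro ⟨a, l⟩ ⟨b, m⟩ h
    simp only [List.cons.injEq] at h
    exact Prod.ext h.1 h.2
  rw [← hinj.tsum_eq]
  · refine tsum_congr fun p => ?_
    simp
  · intro l hl
    cases l with
    | nil => simp at hl
    | cons a l => exact ⟨(a, l), rfl⟩

open Classical in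
/-- weight of a chain killed when it leaves `G` -/
noncomputable def cw (G : Finset Site) (c : ℝ≥0∞) : List Site → ℝ≥0∞
  | [] => 0
  | [_] => 1
  | a :: b :: l => (if a ∈ G ∧ Adj a b then c else 0) * cw G c (b :: l)

/-- truncated sums -/
noncomputable def TT (G : Finset Site) (c : ℝ≥0∞) (n : ℕ) (x : Site) : ℝ≥0∞ :=
  ∑' l : List Site, if l.length ≤ n then cw G c (x :: l) else 0

lemma TT_zero (G : Finset Site) (c : ℝ≥0∞) (x : Site) : TT G c 0 x = 1 := by
  unfold TT
  rw [tsum_list]
  simp [cw]

open Classical in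
lemma TT_succ (G : Finset Site) (c : ℝ≥0∞) (n : ℕ) (x : Site) :
    TT G c (n + 1) x = 1 + ∑' b, (if x ∈ G ∧ Adj x b then c else 0) * TT G c n b := by
  unfold TT
  rw [tsum_list]
  congr 1
  refine tsum_congr fun b => ?_
  rw [← ENNReal.tsum_mul_left]
  refine tsum_congr fun l => ?_
  simp only [List.length_cons, add_le_add_iff_right, cw]
  split_ifs <;> simp

open Classical in
lemma sum_adj (f : Site → ℝ≥0∞) (x : Site) :
    ∑' b, (if Adj x b then f b else 0) = ∑ e ∈ units, f (x + e) := by
  rw [tsum_eq_sum (s := units.image (x + ·))]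
  · rw [Finset.sum_image (by intro a _ b _ h; exact add_left_cancel h)]
    refine Finset.sum_congr rfl fun e he => ?_
    rw [if_pos]
    simpa [Adj] using he
  · intro b hb
    rw [if_neg]
    intro h
    apply hb
    rw [Finset.mem_image]
    exact ⟨b - x, h, by abel⟩

/-- supersolution -/
noncomputable def psi (K : ℝ) (x : Site) : ℝ≥0∞ := ENNReal.ofReal (4 * (K - (x.1 : ℝ) ^ 2))

lemma TT_le {G : Finset Site} {R : ℕ} (hG : ∀ x ∈ G, |x.1| ≤ R) {K r : ℝ}
    (hK : ((R : ℝ) + 1) ^ 2 + 1 ≤ K) (hr : 1 ≤ r) (hr1 : (r - 1) * K ≤ 1 / 4) (n : ℕ) :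
    ∀ x : Site, |x.1| ≤ R + 1 → TT G (ENNReal.ofReal (r / 4)) n x ≤ psi K x := by
  have hone : ∀ x : Site, |x.1| ≤ R + 1 → 1 ≤ psi K x := by
    intro x hx
    unfold psi
    rw [ENNReal.one_le_ofReal]
    have h1 : |(x.1 : ℝ)| ≤ (R : ℝ) + 1 := by exact_mod_cast hx
    have h2 : (x.1 : ℝ) ^ 2 ≤ ((R : ℝ) + 1) ^ 2 := by
      rw [← sq_abs]
      exact pow_le_pow_left₀ (abs_nonneg _) h1 2
    linarith
  induction n with
  | zero => intro x hx; rw [TT_zero]; exact hone x hx
  | succ n ih =>
    intro x hx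
    classical
    rw [TT_succ]
    by_cases hxG : x ∈ G
    · have h1 : ∑' b, (if x ∈ G ∧ Adj x b then ENNReal.ofReal (r / 4) else 0) *
          TT G (ENNReal.ofReal (r / 4)) n b ≤
          ∑' b, (if Adj x b then ENNReal.ofReal (r / 4) * psi K b else 0) := by
        refine ENNReal.tsum_le_tsum fun b => ?_
        by_cases hb : Adj x b
        · simp only [hxG, hb, and_self, if_true]
          refine mul_le_mul_right (ih b ?_) _
          have h2 := hG x hxG
          have h3 := adj_iff.1 hb
          rw [abs_le] at h2 ⊢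
          rcases h3 with h | h | h | h <;> rw [h] <;> simp only <;> constructor <;> omega
        · simp [hb]
      refine (add_le_add le_rfl h1).trans ?_
      rw [sum_adj]
      have h2 : |(x.1 : ℝ)| ≤ (R : ℝ) := by exact_mod_cast hG x hxG
      have h3 : (x.1 : ℝ) ^ 2 ≤ (R : ℝ) ^ 2 := by
        rw [← sq_abs]
        exact pow_le_pow_left₀ (abs_nonneg _) h2 2
      have hp : ∀ e ∈ units, 0 ≤ 4 * (K - ((x + e).1 : ℝ) ^ 2) := by
        intro e he
        have h4 : |((x + e).1 : ℝ)| ≤ (R : ℝ) + 1 := by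
          have h5 : |(x + e).1| ≤ (R : ℤ) + 1 := by
            have := hG x hxG
            simp only [units, Finset.mem_insert, Finset.mem_singleton] at he
            rw [abs_le] at this ⊢
            rcases he with h | h | h | h <;> rw [h] <;> simp only [Prod.fst_add] <;>
              constructor <;> omega
          exact_mod_cast h5
        have h6 : ((x + e).1 : ℝ) ^ 2 ≤ ((R : ℝ) + 1) ^ 2 := by
          rw [← sq_abs]
          exact pow_le_pow_left₀ (abs_nonneg _) h4 2
        linarith
      unfold psi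
      rw [← Finset.mul_sum, ← ENNReal.ofReal_sum_of_nonneg hp,
        ← ENNReal.ofReal_mul (by linarith), ← ENNReal.ofReal_one,
        ← ENNReal.ofReal_add zero_le_one (mul_nonneg (by linarith) (Finset.sum_nonneg hp))]
      apply ENNReal.ofReal_le_ofReal
      have h7 : ∑ e ∈ units, 4 * (K - ((x + e).1 : ℝ) ^ 2) =
          4 * (4 * (K - (x.1 : ℝ) ^ 2) - 2) := by
        unfold units
        rw [Finset.sum_insert (by decide), Finset.sum_insert (by decide),
          Finset.sum_insert (by decide), Finset.sum_singleton]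
        simp only [Prod.fst_add]
        push_cast
        ring
      rw [h7]
      have h8 : 0 ≤ (r - 1) * (x.1 : ℝ) ^ 2 := mul_nonneg (by linarith) (sq_nonneg _)
      nlinarith
    · have h1 : ∑' b, (if x ∈ G ∧ Adj x b then ENNReal.ofReal (r / 4) else 0) *
          TT G (ENNReal.ofReal (r / 4)) n b = 0 := by
        simp [hxG]
      rw [h1, add_zero]
      exact hone x hx

lemma sum_le_psi {G : Finset Site} {R : ℕ} (hG : ∀ x ∈ G, |x.1| ≤ R) {K r : ℝ}
    (hK : ((R : ℝ) + 1) ^ 2 + 1 ≤ K) (hr : 1 ≤ r) (hr1 : (r - 1) * K ≤ 1 / 4)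
    {x : Site} (hx : |x.1| ≤ R + 1) :
    ∑' l : List Site, cw G (ENNReal.ofReal (r / 4)) (x :: l) ≤ psi K x := by
  rw [ENNReal.tsum_eq_iSup_sum]
  refine iSup_le fun s => ?_
  refine le_trans ?_ (TT_le hG hK hr hr1 (s.sup List.length) x hx)
  unfold TT
  refine le_trans (le_of_eq ?_) (ENNReal.sum_le_tsum s)
  refine Finset.sum_congr rfl fun l hl => ?_
  rw [if_pos (Finset.le_sup (f := List.length) hl)]

open Classical in
/-- weight of excursions started in `G` -/
noncomputable def cv (G : Finset Site) (c : ℝ≥0∞) (e : List Site) : ℝ≥0∞ :=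
  if ∃ a ∈ G, e.head? = some a then cw G c e else 0

lemma cv_sum {G : Finset Site} {R : ℕ} (hG : ∀ x ∈ G, |x.1| ≤ R) {K r : ℝ}
    (hK : ((R : ℝ) + 1) ^ 2 + 1 ≤ K) (hr : 1 ≤ r) (hr1 : (r - 1) * K ≤ 1 / 4) :
    ∑' e, cv G (ENNReal.ofReal (r / 4)) e ≠ ∞ := by
  classical
  rw [tsum_list]
  have h1 : cv G (ENNReal.ofReal (r / 4)) [] = 0 := by simp [cv]
  rw [h1, zero_add]
  have h2 : ∑' a, ∑' l, cv G (ENNReal.ofReal (r / 4)) (a :: l) =
      ∑ a ∈ G, ∑' l, cv G (ENNReal.ofReal (r / 4)) (a :: l) := by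
    apply tsum_eq_sum
    intro b hb
    simp [cv, hb]
  rw [h2]
  refine ENNReal.sum_ne_top.2 fun a ha => ?_
  have h3 : ∑' l, cv G (ENNReal.ofReal (r / 4)) (a :: l) =
      ∑' l, cw G (ENNReal.ofReal (r / 4)) (a :: l) := by
    refine tsum_congr fun l => ?_
    simp [cv, ha]
  rw [h3]
  refine ne_top_of_le_ne_top (ENNReal.ofReal_ne_top (r := 4 * (K - (a.1 : ℝ) ^ 2)))
    (sum_le_psi hG hK hr hr1 ?_)
  have := hG a ha
  omega

lemma pow_sum {α : Type*} (f : α → ℝ≥0∞) (k : ℕ) :
    ∑' E : List α, (if E.length = k then (E.map f).prod else 0) = (∑' e, f e) ^ k := by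
  induction k with
  | zero =>
    rw [tsum_list]
    simp
  | succ k ih =>
    rw [tsum_list]
    simp only [List.length_nil, List.length_cons, List.map_cons, List.prod_cons,
      Nat.add_right_cancel_iff]
    rw [if_neg (by omega), zero_add, pow_succ', ← ENNReal.tsum_mul_right]
    refine tsum_congr fun a => ?_
    rw [← ih, ← ENNReal.tsum_mul_left]
    refine tsum_congr fun l => ?_
    split_ifs <;> simp

lemma cw_eq {G : Finset Site} (c : ℝ≥0∞) : ∀ e : List Site, e ≠ [] → e.IsChain Adj →
    (∀ x ∈ e.dropLast, x ∈ G) → cw G c e = c ^ (e.dropLast.length) := by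
  intro e
  induction e with
  | nil => intro h; exact absurd rfl h
  | cons a l ih =>
    cases l with
    | nil => intro _ _ _; simp [cw]
    | cons b l =>
      intro _ hc hG
      rw [List.isChain_cons_cons] at hc
      rw [List.dropLast_cons_cons] at hG ⊢
      have h1 := ih (List.cons_ne_nil _ _) hc.2 (fun x hx => hG x (List.mem_cons_of_mem _ hx))
      have h2 : a ∈ G := hG a List.mem_cons_self
      simp only [cw]
      rw [h1, if_pos ⟨h2, hc.1⟩, List.length_cons, pow_succ']

lemma visits_cons (e : List Site) (E : List (List Site)) :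
    visits (e :: E) = e.dropLast ++ visits E := rfl

lemma prod_cv {G : Finset Site} (c : ℝ≥0∞) : ∀ E : List (List Site),
    (∀ e ∈ E, e ≠ [] ∧ e.IsChain Adj ∧ (∀ x ∈ e.dropLast, x ∈ G) ∧ ∃ a ∈ G, e.head? = some a) →
    (E.map (cv G c)).prod = c ^ (visits E).length := by
  classical
  intro E
  induction E with
  | nil => intro _; simp [visits]
  | cons e E ih =>
    intro h
    rw [List.map_cons, List.prod_cons, ih (fun e' he' => h e' (List.mem_cons_of_mem _ he')),
      visits_cons, List.length_append, pow_add]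
    congr 1
    obtain ⟨h1, h2, h3, h4⟩ := h e List.mem_cons_self
    rw [cv, if_pos h4, cw_eq c e h1 h2 h3]

/-! ## Weights -/

lemma count_pos {l : List Site} {x : Site} (hx : x ∈ l.toFinset) : 1 ≤ l.count x :=
  List.count_pos_iff.2 (List.mem_toFinset.1 hx)

lemma sum_count (l : List Site) : ∑ x ∈ l.toFinset, l.count x = l.length := by
  classical
  rw [← List.sum_toFinset_count_eq_length l]
  refine Finset.sum_congr rfl fun x _ => ?_
  exact congrArg (fun i => @List.count Site i x l) (lawful_beq_subsingleton _ _)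

lemma Wg_zero_le {β : ℝ} (hβ : 0 ≤ β) (B : Set Site) (l : List Site) :
    Wg β 0 B l ≤ ENNReal.ofReal (1 / 4) ^ l.length := by
  classical
  unfold Wg
  calc _ ≤ ∏ x ∈ l.toFinset, ENNReal.ofReal (1 / 4) ^ (l.count x) := by
        refine Finset.prod_le_prod' fun x hx => ?_
        have h1 : fw 0 (l.count x) = ENNReal.ofReal (1 / 4) ^ (l.count x) := by
          unfold fw
          norm_num
        rw [← h1]
        split_ifs
        · exact gw_le_fw hβ (by norm_num) (count_pos hx)
        · exact le_rfl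
    _ = _ := by rw [Finset.prod_pow_eq_pow_sum, sum_count]

lemma Wg_zero_pos {β : ℝ} (hβ : 0 ≤ β) (B : Set Site) (l : List Site) : Wg β 0 B l ≠ 0 := by
  classical
  unfold Wg
  rw [Finset.prod_ne_zero_iff]
  intro x hx
  have h1 : fw 0 (l.count x) ≠ 0 := by
    unfold fw
    apply pow_ne_zero
    rw [Ne, ENNReal.ofReal_eq_zero]
    norm_num
  split_ifs
  · intro h0
    have h2 := gw_ge hβ (count_pos hx)
    rw [h0, nonpos_iff_eq_zero, mul_eq_zero] at h2
    rcases h2 with h2 | h2
    · rw [ENNReal.ofReal_eq_zero] at h2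
      have := Real.exp_pos (-(4 * β))
      linarith
    · exact h1 h2
  · exact h1

lemma Wg_lam_le {β lam : ℝ} (hβ : 0 ≤ β) (h0 : 0 ≤ lam) (h4 : lam < 4) (B : Set Site)
    (l : List Site) {n : ℕ} (hn : l.toFinset.card ≤ n) :
    Wg β lam B l ≤ ENNReal.ofReal (Real.exp (lam * β)) ^ n *
      (ENNReal.ofReal (4 / (4 - lam)) ^ l.length * Wg β 0 B l) := by
  classical
  have h1 : 0 < 4 - lam := by linarith
  have hE : (1 : ℝ≥0∞) ≤ ENNReal.ofReal (Real.exp (lam * β)) := by
    rw [ENNReal.one_le_ofReal]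
    exact Real.one_le_exp (mul_nonneg h0 hβ)
  have hone : ∀ x ∈ l.toFinset,
      (if x ∈ B then gw β lam (l.count x) else fw lam (l.count x)) ≤
      ENNReal.ofReal (Real.exp (lam * β)) * (ENNReal.ofReal (4 / (4 - lam)) ^ (l.count x) *
        (if x ∈ B then gw β 0 (l.count x) else fw 0 (l.count x))) := by
    intro x hx
    split_ifs
    · refine (gw_exp_moment hβ h0 h4 (count_pos hx)).trans (le_of_eq ?_)
      rw [ENNReal.ofReal_mul (Real.exp_nonneg _), ENNReal.ofReal_pow (by positivity), mul_assoc]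
    · refine le_trans (le_of_eq ?_) (le_mul_of_one_le_left' hE)
      unfold fw
      rw [← mul_pow, ← ENNReal.ofReal_mul (by positivity)]
      congr 2
      field_simp
      norm_num
  unfold Wg
  calc _ ≤ ∏ x ∈ l.toFinset, (ENNReal.ofReal (Real.exp (lam * β)) *
        (ENNReal.ofReal (4 / (4 - lam)) ^ (l.count x) *
        (if x ∈ B then gw β 0 (l.count x) else fw 0 (l.count x)))) := Finset.prod_le_prod' hone
    _ = ENNReal.ofReal (Real.exp (lam * β)) ^ l.toFinset.card *
      (ENNReal.ofReal (4 / (4 - lam)) ^ l.length * _) := by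
      rw [Finset.prod_mul_distrib, Finset.prod_mul_distrib, Finset.prod_pow_eq_pow_sum, sum_count,
        Finset.prod_const]
    _ ≤ _ := mul_le_mul_left (pow_le_pow_right₀ hE hn) _

/-! ## Assembly -/

lemma tile_exc {h s₀ : ℤ} {L M : ℕ} {v : Site} {D : List (Option Site × Option Site)}
    (hh : 1 ≤ h) {q : List Site × List (List Site)} (hq : Tile h s₀ L M v D q) :
    ∀ e ∈ q.2, e ≠ [] ∧ e.IsChain Adj ∧ (∀ x ∈ e.dropLast, x ∈ box (rad L h)) ∧
      ∃ a ∈ box (rad L h), e.head? = some a := by
  intro e he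
  obtain ⟨a, b, h1, -, -⟩ := hq.2.2.1 e he
  obtain ⟨⟨h2, h3, h4⟩, h5, h6, h7⟩ := h1
  refine ⟨?_, h4, fun x hx => zz_box hq.1 hh (h7 x hx), a, zz_box hq.1 hh (cz_sub_zz hh h5), h2⟩
  rintro rfl
  simp at h2

lemma mem_visits {E : List (List Site)} {x : Site} : x ∈ visits E ↔ ∃ e ∈ E, x ∈ e.dropLast := by
  unfold visits
  rw [List.mem_flatMap]

lemma tile_visits {h s₀ : ℤ} {L M : ℕ} {v : Site} {D : List (Option Site × Option Site)}
    (hh : 1 ≤ h) {q : List Site × List (List Site)} (hq : Tile h s₀ L M v D q) :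
    (visits q.2).toFinset.card ≤ (box (rad L h)).card := by
  apply Finset.card_le_card
  intro x hx
  rw [List.mem_toFinset, mem_visits] at hx
  obtain ⟨e, he, hx⟩ := hx
  exact (tile_exc hh hq e he).2.2.1 x hx

open Classical in
lemma tile_sum {β : ℝ} (hβ : 0 ≤ β) (h s₀ : ℤ) (L M : ℕ) (hh : 1 ≤ h) (v : Site)
    (D : List (Option Site × Option Site)) : ∃ r : ℝ, 1 < r ∧
    ∑' q : {q : List Site × List (List Site) // Tile h s₀ L M v D q},
      ENNReal.ofReal r ^ (visits q.1.2).length * Wg β 0 (Cz q.1.1 h) (visits q.1.2) ≠ ∞ := by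
  set R := rad L h with hR
  set K : ℝ := ((R : ℝ) + 1) ^ 2 + 1 with hK
  have hK0 : 0 < K := by positivity
  refine ⟨1 + 1 / (4 * K), by have : 0 < 1 / (4 * K) := by positivity
                              linarith, ?_⟩
  set r : ℝ := 1 + 1 / (4 * K) with hr
  have hr1 : 1 ≤ r := by have : 0 < 1 / (4 * K) := by positivity
                         linarith
  have hr2 : (r - 1) * K ≤ 1 / 4 := by
    rw [hr]
    have : (1 + 1 / (4 * K) - 1) * K = 1 / 4 := by field_simp; ring
    exact this.le
  set G := box R with hG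
  have hGR : ∀ x ∈ G, |x.1| ≤ R := fun x hx => (mem_box.1 hx).1
  set c : ℝ≥0∞ := ENNReal.ofReal (r / 4) with hc
  set Γ := (finite_paths L v).toFinset with hΓ
  have key : ∑' q : {q : List Site × List (List Site) // Tile h s₀ L M v D q},
      ENNReal.ofReal r ^ (visits q.1.2).length * Wg β 0 (Cz q.1.1 h) (visits q.1.2) ≤
      ∑' q : List Site × List (List Site), (if q.1 ∈ Γ then 1 else 0) *
        (if q.2.length = D.length then (q.2.map (cv G c)).prod else 0) := by
    refine le_trans ?_ (ENNReal.tsum_comp_le_tsum_of_injective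
      (Subtype.val_injective (p := fun q => Tile h s₀ L M v D q)) _)
    refine ENNReal.tsum_le_tsum fun q => ?_
    have h1 : q.1.1 ∈ Γ := by
      rw [hΓ, Set.Finite.mem_toFinset]
      exact q.2.1
    have h2 : q.1.2.length = D.length := by
      have h3 := congrArg List.length q.2.2.1
      simpa [ends] using h3
    rw [if_pos h1, if_pos h2, one_mul, prod_cv c q.1.2 (tile_exc hh q.2)]
    calc _ ≤ ENNReal.ofReal r ^ (visits q.1.2).length *
          ENNReal.ofReal (1 / 4) ^ (visits q.1.2).length :=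
          mul_le_mul_right (Wg_zero_le hβ _ _) _
      _ = c ^ (visits q.1.2).length := by
          rw [← mul_pow, ← ENNReal.ofReal_mul (by linarith)]
          congr 2
          ring
  refine ne_top_of_le_ne_top ?_ key
  rw [ENNReal.tsum_prod (f := fun (a : List Site) (b : List (List Site)) =>
        (if a ∈ Γ then (1 : ℝ≥0∞) else 0) *
        (if b.length = D.length then (b.map (cv G c)).prod else 0))]
  simp_rw [ENNReal.tsum_mul_left]
  rw [ENNReal.tsum_mul_right, pow_sum, tsum_eq_sum (s := Γ)]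
  · refine ENNReal.mul_ne_top ?_ (ENNReal.pow_ne_top (cv_sum hGR le_rfl hr1 hr2))
    refine ENNReal.sum_ne_top.2 fun a ha => ?_
    rw [if_pos ha]
    exact ENNReal.one_ne_top
  · intro b hb
    rw [if_neg hb]

lemma pow_conv {t r : ℝ} (ht : 0 ≤ t) (ht1 : t ≤ 1) (hr : 1 ≤ r) (n : ℕ) :
    (1 + t * (r - 1)) ^ n ≤ 1 + t * (r ^ n - 1) := by
  induction n with
  | zero => simp
  | succ n ih =>
    have h1 : 0 ≤ r ^ n - 1 := by have := one_le_pow₀ (n := n) hr; linarith
    have h2 : 0 ≤ r - 1 := by linarith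
    have h0 : 0 ≤ 1 + t * (r - 1) := by
      have := mul_nonneg ht h2
      linarith
    have h3 : t * t * ((r ^ n - 1) * (r - 1)) ≤ t * ((r ^ n - 1) * (r - 1)) :=
      mul_le_mul_of_nonneg_right (by nlinarith) (mul_nonneg h1 h2)
    rw [pow_succ, pow_succ]
    calc (1 + t * (r - 1)) ^ n * (1 + t * (r - 1)) ≤
          (1 + t * (r ^ n - 1)) * (1 + t * (r - 1)) := mul_le_mul_of_nonneg_right ih h0
      _ = 1 + t * (r - 1) + t * (r ^ n - 1) + t * t * ((r ^ n - 1) * (r - 1)) := by ring
      _ ≤ 1 + t * (r - 1) + t * (r ^ n - 1) + t * ((r ^ n - 1) * (r - 1)) := by linarith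
      _ = _ := by ring

lemma last_adj : ∀ e : List Site, e.IsChain Adj → 2 ≤ e.length → ∀ b, e.getLast? = some b →
    ∃ p ∈ e.dropLast, Adj p b := by
  intro e
  induction e with
  | nil => intro _ h; simp at h
  | cons a l ih =>
    cases l with
    | nil => intro _ h; simp at h
    | cons c l =>
      intro hc _ b hb
      rw [List.isChain_cons_cons] at hc
      rw [List.dropLast_cons_cons]
      cases l with
      | nil =>
        simp only [List.getLast?_cons_cons, List.getLast?_singleton, Option.some.injEq] at hb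
        subst hb
        exact ⟨a, List.mem_cons_self, hc.1⟩
      | cons d l =>
        rw [List.getLast?_cons_cons] at hb
        obtain ⟨p, hp, hpb⟩ := ih hc.2 (by simp) b hb
        exact ⟨p, List.mem_cons_of_mem _ hp, hpb⟩

lemma box_adj {R : ℕ} {p b : Site} (hp : p ∈ box R) (h : Adj p b) : b ∈ box (R + 1) := by
  rw [mem_box] at hp ⊢
  have h3 := adj_iff.1 h
  push_cast
  rw [abs_le, abs_le] at hp ⊢
  rcases h3 with h | h | h | h <;> rw [h] <;> simp only <;> refine ⟨⟨?_, ?_⟩, ?_, ?_⟩ <;> omega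

lemma box_mono {R S : ℕ} (h : R ≤ S) {p : Site} (hp : p ∈ box R) : p ∈ box S := by
  rw [mem_box] at hp ⊢
  have : (R : ℤ) ≤ S := by exact_mod_cast h
  omega

end TC

open TC in
/-- Finiteness and continuity in `lam`. -/
theorem tile_cont {β : ℝ} (hβ : 0 ≤ β) (h s₀ : ℤ) (L M : ℕ) (hh : 1 ≤ h) (v : Site)
    (D : List (Option Site × Option Site)) {δ : ℝ} (hδ : 0 < δ) : ZT β 0 h s₀ L M v D ≠ ⊤ ∧
    ∃ lam₀ : ℝ, 0 < lam₀ ∧ ∀ lam : ℝ, 0 ≤ lam → lam ≤ lam₀ →
      ZT β lam h s₀ L M v D ≤ ENNReal.ofReal (Real.exp δ) * ZT β 0 h s₀ L M v D := by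
  obtain ⟨r, hr, hS⟩ := tile_sum hβ h s₀ L M hh v D
  set S : ℝ≥0∞ := ∑' q : {q : List Site × List (List Site) // Tile h s₀ L M v D q},
      ENNReal.ofReal r ^ (visits q.1.2).length * Wg β 0 (Cz q.1.1 h) (visits q.1.2) with hSdef
  have hr1 : (1 : ℝ≥0∞) ≤ ENNReal.ofReal r := by
    rw [ENNReal.one_le_ofReal]
    exact hr.le
  have hZS : ZT β 0 h s₀ L M v D ≤ S :=
    ENNReal.tsum_le_tsum fun q => le_mul_of_one_le_left' (one_le_pow₀ hr1)
  have hZ : ZT β 0 h s₀ L M v D ≠ ⊤ := ne_top_of_le_ne_top hS hZS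
  refine ⟨hZ, ?_⟩
  rcases isEmpty_or_nonempty {q : List Site × List (List Site) // Tile h s₀ L M v D q} with hE | hE
  · refine ⟨1, one_pos, fun lam _ _ => ?_⟩
    unfold ZT
    rw [tsum_empty]
    exact bot_le
  · obtain ⟨q0⟩ := hE
    have hZ0 : ZT β 0 h s₀ L M v D ≠ 0 := by
      intro h0
      unfold ZT at h0
      rw [ENNReal.tsum_eq_zero] at h0
      exact Wg_zero_pos hβ _ _ (h0 q0)
    set z : ℝ := (ZT β 0 h s₀ L M v D).toReal with hz
    have hzpos : 0 < z := ENNReal.toReal_pos hZ0 hZ
    have hzeq : ENNReal.ofReal z = ZT β 0 h s₀ L M v D := ENNReal.ofReal_toReal hZ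
    set s : ℝ := S.toReal with hs
    have hseq : ENNReal.ofReal s = S := ENNReal.ofReal_toReal hS
    have hs0 : 0 ≤ s := ENNReal.toReal_nonneg
    set n : ℕ := (box (rad L h)).card with hn
    have hexp : 0 < Real.exp (δ / 2) - 1 := by
      have := Real.add_one_lt_exp (x := δ / 2) (by linarith)
      linarith
    set τ : ℝ := min 1 ((Real.exp (δ / 2) - 1) * z / (s + 1)) with hτ
    have hτ0 : 0 < τ := lt_min one_pos (by positivity)
    have hτ1 : τ ≤ 1 := min_le_left _ _
    have hτ2 : z + τ * s ≤ Real.exp (δ / 2) * z := by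
      have h1 : τ * (s + 1) ≤ (Real.exp (δ / 2) - 1) * z := by
        rw [← le_div_iff₀ (by linarith)]
        exact min_le_right _ _
      nlinarith
    refine ⟨min 1 (min (δ / (2 * (n * β + 1))) (3 * (r - 1) * τ)), ?_, ?_⟩
    · refine lt_min one_pos (lt_min (by positivity) ?_)
      have : 0 < r - 1 := by linarith
      positivity
    · intro lam hl0 hl
      have hl1 : lam ≤ 1 := hl.trans (min_le_left _ _)
      have hl2 : lam ≤ δ / (2 * (n * β + 1)) :=
        (hl.trans (min_le_right _ _)).trans (min_le_left _ _)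
      have hl3 : lam ≤ 3 * (r - 1) * τ := (hl.trans (min_le_right _ _)).trans (min_le_right _ _)
      have hA : ENNReal.ofReal (Real.exp (lam * β)) ^ n ≤ ENNReal.ofReal (Real.exp (δ / 2)) := by
        rw [← ENNReal.ofReal_pow (Real.exp_nonneg _), ← Real.exp_nat_mul]
        apply ENNReal.ofReal_le_ofReal
        apply Real.exp_le_exp.2
        rw [le_div_iff₀ (by positivity)] at hl2
        nlinarith [mul_nonneg hl0 (mul_nonneg (Nat.cast_nonneg (α := ℝ) n) hβ)]
      have hB : ∀ N : ℕ, ENNReal.ofReal (4 / (4 - lam)) ^ N ≤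
          1 + ENNReal.ofReal τ * ENNReal.ofReal r ^ N := by
        intro N
        have h1 : 0 < 4 - lam := by linarith
        have h2 : 4 / (4 - lam) ≤ 1 + τ * (r - 1) := by
          rw [div_le_iff₀ h1]
          nlinarith [mul_pos hτ0 (sub_pos.2 hr)]
        rw [← ENNReal.ofReal_pow (by positivity), ← ENNReal.ofReal_pow (by linarith),
          ← ENNReal.ofReal_mul hτ0.le, ← ENNReal.ofReal_one,
          ← ENNReal.ofReal_add zero_le_one (mul_nonneg hτ0.le (pow_nonneg (by linarith) _))]
        apply ENNReal.ofReal_le_ofReal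
        calc (4 / (4 - lam)) ^ N ≤ (1 + τ * (r - 1)) ^ N := pow_le_pow_left₀ (by positivity) h2 N
          _ ≤ 1 + τ * (r ^ N - 1) := pow_conv hτ0.le hτ1 hr.le N
          _ ≤ _ := by nlinarith
      calc ZT β lam h s₀ L M v D ≤
            ∑' q : {q : List Site × List (List Site) // Tile h s₀ L M v D q},
              ENNReal.ofReal (Real.exp (δ / 2)) * (Wg β 0 (Cz q.1.1 h) (visits q.1.2) +
              ENNReal.ofReal τ * (ENNReal.ofReal r ^ (visits q.1.2).length *
                Wg β 0 (Cz q.1.1 h) (visits q.1.2))) := by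
            refine ENNReal.tsum_le_tsum fun q => ?_
            refine (Wg_lam_le hβ hl0 (by linarith) _ _ (tile_visits hh q.2)).trans ?_
            refine mul_le_mul' hA ?_
            refine (mul_le_mul' (hB _) le_rfl).trans (le_of_eq ?_)
            rw [add_mul, one_mul, mul_assoc]
        _ = ENNReal.ofReal (Real.exp (δ / 2)) *
              (ZT β 0 h s₀ L M v D + ENNReal.ofReal τ * S) := by
            rw [ENNReal.tsum_mul_left, ENNReal.tsum_add, ENNReal.tsum_mul_left]
            rfl
        _ ≤ ENNReal.ofReal (Real.exp (δ / 2)) *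
              (ENNReal.ofReal (Real.exp (δ / 2)) * ZT β 0 h s₀ L M v D) := by
            refine mul_le_mul_right ?_ _
            rw [← hzeq, ← hseq, ← ENNReal.ofReal_mul hτ0.le,
              ← ENNReal.ofReal_add hzpos.le (mul_nonneg hτ0.le hs0),
              ← ENNReal.ofReal_mul (Real.exp_nonneg _)]
            exact ENNReal.ofReal_le_ofReal hτ2
        _ = _ := by
            rw [← mul_assoc, ← ENNReal.ofReal_mul (Real.exp_nonneg _), ← Real.exp_add]
            ring_nf

open TC in
/-- Only finitely many tile data have a nonzero sum, for a bounded number of excursions. -/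
theorem tile_data_finite (β : ℝ) (h s₀ : ℤ) (L M K : ℕ) (hh : 1 ≤ h) :
    {q : Site × List (Option Site × Option Site) | q.2.length ≤ K ∧
      ZT β 0 h s₀ L M q.1 q.2 ≠ 0}.Finite := by
  classical
  set P : Finset (Option Site × Option Site) :=
    ((box (rad L h + 1)).image some) ×ˢ ((box (rad L h + 1)).image some) with hP
  refine Set.Finite.subset ((box (2 * L)).finite_toSet.prod (finite_lists P K)) ?_
  rintro ⟨v, D⟩ ⟨h1, h2⟩
  simp only at h1 h2
  unfold ZT at h2
  rw [Ne, ENNReal.tsum_eq_zero, not_forall] at h2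
  obtain ⟨⟨q, hq⟩, -⟩ := h2
  refine ⟨?_, h1, ?_⟩
  · simp only [Finset.mem_coe]
    rw [mem_box]
    have := tp_bound hq.1 (tp_v hq.1)
    push_cast
    exact this
  · intro x hx
    have hD := hq.2.1
    rw [← hD] at hx
    unfold ends at hx
    rw [List.mem_map] at hx
    obtain ⟨e, he, rfl⟩ := hx
    obtain ⟨a, b, ⟨⟨h3, h4, h5⟩, h6, h7, h8⟩, -, -⟩ := hq.2.2.1 e he
    rw [hP, Finset.mem_product]
    have h9 : 2 ≤ e.length := by
      by_contra hcon
      have h10 : e.length = 1 ∨ e.length = 0 := by omega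
      rcases h10 with h10 | h10
      · obtain ⟨c, rfl⟩ := List.length_eq_one_iff.1 h10
        simp only [List.head?_cons, Option.some.injEq, List.getLast?_singleton] at h3 h4
        subst h3; subst h4
        exact h7 (cz_sub_zz hh h6)
      · rw [List.length_eq_zero_iff] at h10
        subst h10
        simp at h3
    obtain ⟨p, hp, hpb⟩ := last_adj e h5 h9 b h4
    simp only [h3, h4]
    refine ⟨Finset.mem_image_of_mem _ (box_mono (Nat.le_succ _) (zz_box hq.1 hh (cz_sub_zz hh h6))),
      Finset.mem_image_of_mem _ (box_adj (zz_box hq.1 hh (h8 p hp)) hpb)⟩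

end Pool.Agent.WSB71
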