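import Pool.Agent.WSB71.TileParity

/-!
# A tile path is determined by its visits (task WSB71-T2, helper2)

Two tile paths with the same first and last `12h+12` steps such that each is compatible with the
same visits `V` are equal: at the first difference `q`, say `γ'` turns more to the left; then the
inner site of the next step of `γ'` is visited, hence right of `γ`; but it is left of `γ` (parity
lemmas).
-/

open MeasureTheory Filter Topology
open scoped NNReal ENNReal

namespace Pool.Agent.WSB71

open Pool.Agent.LT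

namespace TU

lemma adj_cases {x y : Site} (h : Adj x y) :
    y = x + (1, 0) ∨ y = x + (-1, 0) ∨ y = x + (0, 1) ∨ y = x + (0, -1) := by
  unfold Adj units at h
  simp only [Finset.mem_insert, Finset.mem_singleton] at h
  rcases h with h | h | h | h
  · left; rw [← h]; abel
  · right; left; rw [← h]; abel
  · right; right; left; rw [← h]; abel
  · right; right; right; rw [← h]; abel

lemma mem_steps {γ : List Site} {a b : Site} :
    (a, b) ∈ steps γ ↔ ∃ i : ℕ, γ[i]? = some a ∧ γ[i + 1]? = some b := by
  unfold steps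
  rw [List.mem_iff_getElem?]
  simp only [List.getElem?_zip_eq_some, List.getElem?_tail]

lemma nodup_get {γ : List Site} (hn : γ.Nodup) {i j : ℕ} {a : Site} (h1 : γ[i]? = some a)
    (h2 : γ[j]? = some a) : i = j := by
  obtain ⟨hi, e1⟩ := List.getElem?_eq_some_iff.1 h1
  obtain ⟨hj, e2⟩ := List.getElem?_eq_some_iff.1 h2
  exact hn.getElem_inj_iff.1 (e1.trans e2.symm)

lemma chain_get {γ : List Site} (hc : γ.IsChain Adj) {i : ℕ} {a b : Site} (h1 : γ[i]? = some a)
    (h2 : γ[i + 1]? = some b) : Adj a b := by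
  induction γ generalizing i with
  | nil => simp at h1
  | cons x l ih =>
    cases l with
    | nil => simp at h2
    | cons y l =>
      rw [List.isChain_cons_cons] at hc
      cases i with
      | zero =>
        simp only [List.getElem?_cons_zero, Option.some.injEq, zero_add,
          List.getElem?_cons_succ] at h1 h2
        rw [← h1, ← h2]
        exact hc.1
      | succ i =>
        rw [List.getElem?_cons_succ] at h1 h2
        exact ih hc.2 h1 h2

/-- `γ'` (going to `q'`) turns more to the left than `γ` (going to `q`). -/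
def Lft (o p q q' : Site) : Prop :=
  (q = p + ((p - o).2, -(p - o).1) ∧ (q' = p + (p - o) ∨ q' = p + (-(p - o).2, (p - o).1))) ∨
    (q = p + (p - o) ∧ q' = p + (-(p - o).2, (p - o).1))

lemma lft_total {o p q q' : Site} (h : Adj o p) (h1 : Adj p q) (h2 : Adj p q') (hq : q ≠ o)
    (hq' : q' ≠ o) (hne : q ≠ q') : Lft o p q q' ∨ Lft o p q' q := by
  rcases adj_cases h with rfl | rfl | rfl | rfl <;>
  rcases adj_cases h1 with rfl | rfl | rfl | rfl <;>
  rcases adj_cases h2 with rfl | rfl | rfl | rfl <;>
  first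
    | exact absurd rfl hne
    | (exfalso; apply hq; ext <;> simp; done)
    | (exfalso; apply hq'; ext <;> simp; done)
    | (left; simp [Lft]; done)
    | (right; simp [Lft])

lemma inn_out (p d : Site) : inn p (p + d) = out p (p + (d.2, -d.1)) := by
  unfold inn out
  ext
  · simp only [Prod.fst_add, Prod.snd_add]
    omega
  · simp only [Prod.fst_add, Prod.snd_add]
    omega

lemma step_det {s1 s2 p q : Site} (hs : Adj s1 s2) (hd : Adj p q) :
    (inn s1 s2 = inn p q ∧ out s1 s2 = out p q → s1 = p ∧ s2 = q) ∧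
    (inn s1 s2 = out p q ∧ out s1 s2 = inn p q → s1 = q ∧ s2 = p) := by
  obtain ⟨s1, t1⟩ := s1
  obtain ⟨s2, t2⟩ := s2
  obtain ⟨p1, p2⟩ := p
  obtain ⟨q1, q2⟩ := q
  have ha := adj_cases hs
  have hb := adj_cases hd
  unfold inn out
  simp only [Prod.mk_add_mk, Prod.mk.injEq] at *
  constructor
  · intro h
    omega
  · intro h
    omega

lemma inn_out_adj {p q : Site} (hd : Adj p q) :
    (Adj (inn p q) (out p q) ∧ Ts (out p q) = Ts (inn p q) + 1) ∨
      (Adj (out p q) (inn p q) ∧ Ts (inn p q) = Ts (out p q) + 1) := by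
  obtain ⟨p1, p2⟩ := p
  rcases adj_cases hd with rfl | rfl | rfl | rfl
  · left
    have e1 : inn (p1, p2) ((p1, p2) + (1, 0)) = (p1 + 1, p2) := by
      unfold inn; ext <;> simp
    have e2 : out (p1, p2) ((p1, p2) + (1, 0)) = (p1 + 1, p2 + 1) := by
      unfold out; ext <;> simp
    rw [e1, e2]
    constructor
    · simp [Adj, units]
    · simp only [Ts]; ring
  · right
    have e1 : inn (p1, p2) ((p1, p2) + (-1, 0)) = (p1, p2 + 1) := by
      unfold inn; ext <;> simp
    have e2 : out (p1, p2) ((p1, p2) + (-1, 0)) = (p1, p2) := by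
      unfold out; ext <;> simp
    rw [e1, e2]
    constructor
    · simp [Adj, units]
    · simp only [Ts]; ring
  · right
    have e1 : inn (p1, p2) ((p1, p2) + (0, 1)) = (p1 + 1, p2 + 1) := by
      unfold inn; ext <;> simp
    have e2 : out (p1, p2) ((p1, p2) + (0, 1)) = (p1, p2 + 1) := by
      unfold out; ext <;> simp
    rw [e1, e2]
    constructor
    · simp [Adj, units]
    · simp only [Ts]; ring
  · left
    have e1 : inn (p1, p2) ((p1, p2) + (0, -1)) = (p1, p2) := by
      unfold inn; ext <;> simp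
    have e2 : out (p1, p2) ((p1, p2) + (0, -1)) = (p1 + 1, p2) := by
      unfold out; ext <;> simp
    rw [e1, e2]
    constructor
    · simp [Adj, units]
    · simp only [Ts]; ring

lemma ts_inn {p q : Site} (hd : Adj p q) : Td p - 1 ≤ Ts (inn p q) ∧ Ts (inn p q) ≤ Td p + 1 ∧
    Td p - 1 ≤ Ts (out p q) ∧ Ts (out p q) ≤ Td p + 1 ∧ Td p - 1 ≤ Td q ∧ Td q ≤ Td p + 1 ∧
    ((Ts (inn p q) = Td p ∧ gs (inn p q) ≤ gd p + 1) ∨
      (Ts (inn p q) = Td q ∧ gs (inn p q) ≤ gd q + 1)) := by
  obtain ⟨p1, p2⟩ := p
  obtain ⟨q1, q2⟩ := q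
  have hb := adj_cases hd
  unfold inn out Ts Td gs gd
  simp only [Prod.mk_add_mk, Prod.mk.injEq] at *
  omega

lemma env_ge {γ : List Site} {p : Site} (hp : p ∈ γ) (T : ℤ) : gd p - 2 * |T - Td p| ≤ env γ T := by
  unfold env
  refine le_csSup ?_ ⟨p, hp, rfl⟩
  have : {a | ∃ p ∈ γ, a = gd p - 2 * |T - Td p|} =
      (fun p => gd p - 2 * |T - Td p|) '' {p | p ∈ γ} := by
    ext a
    simp only [Set.mem_ofPred_eq, Set.mem_image]
    constructor
    · rintro ⟨p, hp, rfl⟩
      exact ⟨p, hp, rfl⟩
    · rintro ⟨p, hp, rfl⟩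
      exact ⟨p, hp, rfl⟩
  rw [this]
  exact (γ.finite_toSet.image _).bddAbove

section

variable {L : ℕ} {v : Site} {γ : List Site}

lemma lo (hγ : TilePath L v γ) {k : ℕ} {p : Site} (h : γ[k]? = some p) :
    3 * (k : ℤ) ≤ 4 * (Td p - Tfst γ) := by
  obtain ⟨hk, e⟩ := List.getElem?_eq_some_iff.1 h
  have := hγ.regL k hk
  rwa [e] at this

lemma hi (hγ : TilePath L v γ) {k : ℕ} {p : Site} (h : γ[k]? = some p) :
    3 * ((γ.length : ℤ) - 1 - k) ≤ 4 * (Tlst γ - Td p) := by
  obtain ⟨hk, e⟩ := List.getElem?_eq_some_iff.1 h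
  have := hγ.regR k hk
  rwa [e] at this

lemma lt_len {k : ℕ} {p : Site} (h : γ[k]? = some p) : k < γ.length :=
  (List.getElem?_eq_some_iff.1 h).1

/-- P2 for tile paths. -/
lemma side (hγ : TilePath L v γ) {k : ℕ} {p q : Site} (hp : γ[k]? = some p)
    (hq : γ[k + 1]? = some q) (h0 : Tfst γ + 1 < Td p) (h1 : Td p + 1 < Tlst γ) :
    rightOf γ (inn p q) ∧ ¬ rightOf γ (out p q) := by
  have hadj := chain_get hγ.chain hp hq
  have ht := ts_inn hadj
  refine rightOf_inn hγ.chain hγ.nodup ?_ ?_ ?_ ?_ (s := (p, q)) (mem_steps.2 ⟨k, hp, hq⟩) ?_ ?_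
  · intro x hx
    obtain ⟨i, hi⟩ := List.mem_iff_getElem?.1 hx
    have := lo hγ hi
    omega
  · intro x hx
    obtain ⟨i, hi'⟩ := List.mem_iff_getElem?.1 hx
    have := hi hγ hi'
    have := lt_len hi'
    omega
  · intro x hx
    obtain ⟨i, hi⟩ := List.mem_iff_getElem?.1 hx
    rw [List.getElem?_tail] at hi
    have := lo hγ hi
    push_cast at this
    omega
  · intro x hx
    obtain ⟨i, hi'⟩ := List.mem_iff_getElem?.1 hx
    rw [List.getElem?_dropLast] at hi'
    split_ifs at hi' with hlt
    have := hi hγ hi'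
    omega
  · simp only [lt_min_iff]
    omega
  · simp only [max_lt_iff]
    omega

/-- An edge which is not crossed. -/
lemma nocross (hγ : TilePath L v γ) {k : ℕ} {o p q : Site} (ho : γ[k]? = some o)
    (hp : γ[k + 1]? = some p) (hq : γ[k + 2]? = some q) {d : Site} (hd : Adj p d) (hdo : d ≠ o)
    (hdq : d ≠ q) (h0 : Tfst γ + 1 < Td p) (h1 : Td p + 1 < Tlst γ) :
    rightOf γ (inn p d) ↔ rightOf γ (out p d) := by
  have ht := ts_inn hd
  have hnc : ∀ s ∈ steps γ, ¬ ((inn s.1 s.2 = inn p d ∧ out s.1 s.2 = out p d) ∨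
      (inn s.1 s.2 = out p d ∧ out s.1 s.2 = inn p d)) := by
    rintro ⟨a, b⟩ hs
    obtain ⟨i, ha, hb⟩ := mem_steps.1 hs
    have hab := chain_get hγ.chain ha hb
    have hdet := step_det hab hd
    rintro (h | h)
    · obtain ⟨rfl, rfl⟩ := hdet.1 h
      have e := nodup_get hγ.nodup ha hp
      subst e
      have : some b = some q := hb.symm.trans hq
      exact hdq (Option.some.inj this)
    · obtain ⟨rfl, rfl⟩ := hdet.2 h
      have e := nodup_get hγ.nodup hb hp
      have e2 : i = k := by omega
      subst e2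
      have : some a = some o := ha.symm.trans ho
      exact hdo (Option.some.inj this)
  have hhead : ∀ x ∈ γ.head?, Td x ≤ Tfst γ := by
    intro x hx
    have : Tfst γ = Td x := by
      unfold Tfst
      rw [List.headD_eq_head?_getD, Option.mem_def.1 hx]
      rfl
    omega
  have hlast : ∀ x ∈ γ.getLast?, Tlst γ ≤ Td x := by
    intro x hx
    have : Tlst γ = Td x := by
      unfold Tlst
      rw [List.getLastD_eq_getLast?, Option.mem_def.1 hx]
      rfl
    omega
  rcases inn_out_adj hd with ⟨hadj, hT⟩ | ⟨hadj, hT⟩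
  · apply (rightOf_adj hγ.chain hγ.nodup hadj hT ?_ ?_).2
    · rintro ⟨s, hs, h⟩
      exact hnc s hs h
    · intro x hx
      have := hhead x hx
      omega
    · intro x hx
      have := hlast x hx
      omega
  · apply Iff.symm
    apply (rightOf_adj hγ.chain hγ.nodup hadj hT ?_ ?_).2
    · rintro ⟨s, hs, h⟩
      exact hnc s hs h.symm
    · intro x hx
      have := hhead x hx
      omega
    · intro x hx
      have := hlast x hx
      omega

end

/-- The geometric contradiction at the first difference. -/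
lemma contra {h : ℤ} (hh : 1 ≤ h) {L : ℕ} {v : Site} {γ γ' : List Site}
    (hγ : TilePath L v γ) (hγ' : TilePath L v γ') {V : List Site}
    (hV : ∀ x ∈ V, x ∈ Zz γ h)
    (h1' : ∀ s ∈ steps γ', inn s.1 s.2 ∈ Cz γ' h → inn s.1 s.2 ∈ V)
    {k : ℕ} {o p q q' : Site} (ho : γ[k]? = some o) (hp : γ[k + 1]? = some p)
    (hq : γ[k + 2]? = some q) (hp' : γ'[k + 1]? = some p)
    (hq' : γ'[k + 2]? = some q') (hL : Lft o p q q') (hk : 12 * h ≤ k)
    (hkn : k + 12 * h + 13 ≤ γ.length) (hkn' : k + 12 * h + 13 ≤ γ'.length) : False := by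
  have hop := chain_get hγ.chain ho hp
  have hpq := chain_get hγ.chain hp hq
  have hpq' := chain_get hγ'.chain hp' hq'
  have a1 := lo hγ hp
  have a2 := hi hγ hp
  have a3 := lo hγ' hp'
  have a4 := hi hγ' hp'
  push_cast at a1 a2 a3 a4
  have hS := side hγ hp hq (by omega) (by omega)
  have hS' := side hγ' hp' hq' (by omega) (by omega)
  have ht := ts_inn hpq'
  -- the inner site of the step of `γ'` is visited
  have hmem : inn p q' ∈ V := by
    refine h1' (p, q') (mem_steps.2 ⟨k + 1, hp', hq'⟩) ⟨hS'.1, by simp only; omega,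
      by simp only; omega, ?_⟩
    rcases ht.2.2.2.2.2.2 with ⟨e1, e2⟩ | ⟨e1, e2⟩
    · have := env_ge (γ := γ') (p := p) (List.mem_iff_getElem?.2 ⟨_, hp'⟩) (Ts (inn p q'))
      rw [e1, sub_self, abs_zero] at this
      simp only [e1]
      omega
    · have := env_ge (γ := γ') (p := q') (List.mem_iff_getElem?.2 ⟨_, hq'⟩) (Ts (inn p q'))
      rw [e1, sub_self, abs_zero] at this
      simp only [e1]
      omega
  have hright : rightOf γ (inn p q') := (hV _ hmem).1
  rcases hL with ⟨e1, e2 | e2⟩ | ⟨e1, e2⟩
  · have : inn p q' = out p q := by rw [e2, e1, inn_out]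
    rw [this] at hright
    exact hS.2 hright
  · -- right and left
    have e3 : inn p q' = out p (p + (p - o)) := by
      rw [e2, inn_out]
      congr 2
      ext <;> simp
    have e4 : inn p (p + (p - o)) = out p q := by rw [e1, inn_out]
    have hd : Adj p (p + (p - o)) := by
      unfold Adj at hop ⊢
      rwa [add_sub_cancel_left]
    have hne1 : p + (p - o) ≠ o := by
      obtain ⟨o1, o2⟩ := o
      obtain ⟨p1, p2⟩ := p
      have ha := adj_cases hop
      simp only [Prod.mk_add_mk, Prod.mk_sub_mk, Prod.mk.injEq, ne_eq] at *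
      omega
    have hne2 : p + (p - o) ≠ q := by
      rw [e1]
      obtain ⟨o1, o2⟩ := o
      obtain ⟨p1, p2⟩ := p
      have ha := adj_cases hop
      simp only [Prod.mk_add_mk, Prod.mk_sub_mk, Prod.mk.injEq, ne_eq] at *
      omega
    have hn := nocross hγ ho hp hq hd hne1 hne2 (by omega) (by omega)
    rw [e3, ← hn, e4] at hright
    exact hS.2 hright
  · have : inn p q' = out p q := by
      rw [e2, e1, inn_out]
      congr 2
      ext <;> simp
    rw [this] at hright
    exact hS.2 hright

/-- A difference is far from the common end. -/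
lemma far {γ γ' : List Site} (hn : γ.Nodup) (m : ℕ)
    (hlst : γ.reverse.take m = γ'.reverse.take m) {k : ℕ} {p q q' : Site}
    (hp : γ[k]? = some p) (hq : γ[k + 1]? = some q) (hp' : γ'[k]? = some p)
    (hq' : γ'[k + 1]? = some q') (hne : q ≠ q') : k + 1 + m ≤ γ'.length := by
  by_contra hc
  push Not at hc
  have hk' := lt_len hq'
  have hrev : ∀ i < m, γ.reverse[i]? = γ'.reverse[i]? := by
    intro i hi
    have := congrArg (fun l : List Site => l[i]?) hlst
    simp only [List.getElem?_take, if_pos hi] at this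
    exact this
  have e1 := hrev (γ'.length - 1 - k) (by omega)
  rw [List.getElem?_reverse (l := γ') (by omega),
    show γ'.length - 1 - (γ'.length - 1 - k) = k by omega, hp'] at e1
  have hlen : γ'.length - 1 - k < γ.length := by
    have := (List.getElem?_eq_some_iff.1 e1).1
    rwa [List.length_reverse] at this
  rw [List.getElem?_reverse hlen] at e1
  have e2 := nodup_get hn e1 hp
  have hl : γ.length = γ'.length := by
    have := lt_len hq
    omega
  have e3 := hrev (γ'.length - 1 - (k + 1)) (by omega)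
  rw [List.getElem?_reverse (l := γ') (by omega), List.getElem?_reverse (l := γ) (by omega), hl,
    show γ'.length - 1 - (γ'.length - 1 - (k + 1)) = k + 1 by omega, hq, hq'] at e3
  exact hne (Option.some.inj e3)

end TU

open TU in
theorem tile_unique {h : ℤ} (hh : 1 ≤ h) {L : ℕ} {v : Site} {γ γ' : List Site}
    (hγ : TilePath L v γ) (hγ' : TilePath L v γ') {V : List Site}
    (hV : ∀ x ∈ V, x ∈ Zz γ h ∧ x ∈ Zz γ' h)
    (h1 : ∀ s ∈ steps γ, inn s.1 s.2 ∈ Cz γ h → inn s.1 s.2 ∈ V)
    (h1' : ∀ s ∈ steps γ', inn s.1 s.2 ∈ Cz γ' h → inn s.1 s.2 ∈ V)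
    (hfst : γ.take (12 * h.toNat + 13) = γ'.take (12 * h.toNat + 13))
    (hlst : γ.reverse.take (12 * h.toNat + 13) = γ'.reverse.take (12 * h.toNat + 13)) :
    γ = γ' := by
  obtain ⟨m, hm⟩ : ∃ m, m = 12 * h.toNat + 13 := ⟨_, rfl⟩
  rw [← hm] at hfst hlst
  have hstart : ∀ i < m, γ[i]? = γ'[i]? := by
    intro i hi
    have := congrArg (fun l : List Site => l[i]?) hfst
    simp only [List.getElem?_take, if_pos hi] at this
    exact this
  have hend : ∀ {δ : List Site}, TilePath L v δ → ∀ {k : ℕ}, δ[k]? = some v →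
      δ[k + 1]? = none := by
    intro δ hδ k hk
    have h2 := hδ.last
    rw [List.getLast?_eq_getElem?] at h2
    have := nodup_get hδ.nodup h2 hk
    rw [List.getElem?_eq_none_iff]
    omega
  have hend' : ∀ {δ : List Site}, TilePath L v δ → ∀ {k : ℕ} {p : Site}, δ[k]? = some p →
      δ[k + 1]? = none → p = v := by
    intro δ hδ k p hk hk1
    have h2 := hδ.last
    rw [List.getLast?_eq_getElem?] at h2
    rw [List.getElem?_eq_none_iff] at hk1
    have := lt_len hk
    have e : δ.length - 1 = k := by omega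
    rw [e, hk] at h2
    exact Option.some.inj h2
  have key : ∀ k : ℕ, ∀ i ≤ k, γ[i]? = γ'[i]? := by
    intro k
    induction k with
    | zero =>
      intro i hi
      exact hstart i (by omega)
    | succ k ih =>
      intro i hi
      rcases Nat.lt_or_ge i (k + 1) with hik | hik
      · exact ih i (by omega)
      have : i = k + 1 := by omega
      subst this
      by_cases hkm : k + 1 < m
      · exact hstart _ hkm
      have hk0 : 1 ≤ k := by omega
      have e0 := ih k le_rfl
      have e1 := ih (k - 1) (by omega)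
      rcases hgk : γ[k]? with _ | p
      · rw [hgk] at e0
        have a1 := List.getElem?_eq_none_iff.1 hgk
        have a2 := List.getElem?_eq_none_iff.1 e0.symm
        rw [List.getElem?_eq_none_iff.2 (by omega), List.getElem?_eq_none_iff.2 (by omega)]
      have hgk' : γ'[k]? = some p := by rw [← e0, hgk]
      rcases hq : γ[k + 1]? with _ | q
      · have := hend' hγ hgk hq
        subst this
        exact (hend hγ' hgk').symm
      rcases hq' : γ'[k + 1]? with _ | q'
      · have := hend' hγ' hgk' hq'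
        subst this
        rw [hend hγ hgk] at hq
        exact absurd hq (by simp)
      by_contra hne
      have hne' : q ≠ q' := fun e => hne (by rw [e])
      have f1 := far hγ.nodup m hlst hgk hq hgk' hq' hne'
      have f2 := far hγ'.nodup m hlst.symm hgk' hq' hgk hq hne'.symm
      obtain ⟨j, rfl⟩ : ∃ j, k = j + 1 := ⟨k - 1, by omega⟩
      have hoj : ∃ o, γ[j]? = some o := by
        have := lt_len hgk
        exact ⟨_, List.getElem?_eq_getElem (by omega)⟩
      obtain ⟨o, ho⟩ := hoj
      have ho' : γ'[j]? = some o := by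
        rw [← ih j (by omega), ho]
      have hop := chain_get hγ.chain ho hgk
      have hpq := chain_get hγ.chain hgk hq
      have hpq' := chain_get hγ'.chain hgk' hq'
      have hqo : q ≠ o := by
        rintro rfl
        have := nodup_get hγ.nodup hq ho
        omega
      have hqo' : q' ≠ o := by
        rintro rfl
        have := nodup_get hγ'.nodup hq' ho'
        omega
      rcases lft_total hop hpq hpq' hqo hqo' hne' with hl | hl
      · exact contra hh hγ hγ' (fun x hx => (hV x hx).1) h1' ho hgk hq hgk' hq' hl (by omega)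
          (by omega) (by omega)
      · exact contra hh hγ' hγ (fun x hx => (hV x hx).2) h1 ho' hgk' hq' hgk hq hl (by omega)
          (by omega) (by omega)
  apply List.ext_getElem?
  intro i
  exact key i i le_rfl

end Pool.Agent.WSB71
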