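import Pool.Agent.LT.Upper
import Pool.Agent.WSB71.Defs

/-!
# F6, F7: uniqueness of the law; staying in a finite set
-/

open MeasureTheory Filter Topology
open scoped NNReal ENNReal Matrix.Norms.Operator

namespace Pool.Agent.WSB71

open Pool.Agent.LT

/-! ### Uniqueness of the law -/

/-- Boxes. -/
noncomputable def fu_box (n : ℕ) : Finset Site := Finset.Icc (-(n : ℤ)) n ×ˢ Finset.Icc (-(n : ℤ)) n

lemma fu_mem_box {n : ℕ} {z : Site} : z ∈ fu_box n ↔ |z.1| ≤ n ∧ |z.2| ≤ n := by
  unfold fu_box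
  rw [Finset.mem_product, Finset.mem_Icc, Finset.mem_Icc, abs_le, abs_le]

lemma fu_box_eventually (S : Set Site) (hS : S.Finite) : ∀ᶠ n : ℕ in atTop, ∀ z ∈ S, z ∈ fu_box n := by
  rw [← hS.coe_toFinset]
  simp only [Finset.mem_coe]
  rw [Finset.eventually_all]
  intro z _
  filter_upwards [eventually_ge_atTop (max z.1.natAbs z.2.natAbs)] with n hn
  rw [fu_mem_box, Int.abs_eq_natAbs, Int.abs_eq_natAbs]
  have h1 := (le_max_left _ _).trans hn
  have h2 := (le_max_right _ _).trans hn
  exact ⟨by exact_mod_cast h1, by exact_mod_cast h2⟩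

open Classical in
lemma fu_fkw (A : Finset Site) (s : ℝ≥0) (x : Site) (f : WP) :
    fkw A (fun _ => 0) s x f = if stay x A s f then 1 else 0 := by
  unfold fkw
  by_cases h : stay x A s f
  · rw [Set.indicator_of_mem (by exact h), if_pos h, occ_const, mul_zero, Real.exp_zero]
  · rw [Set.indicator_of_notMem (by exact h), if_neg h]

lemma fu_zero_bdd : ∀ x : Site, |(fun _ : Site => (0 : ℝ)) x| ≤ 0 := fun _ => by simp

lemma fu_tendsto {μ : Measure WP} (hμ : IsLaw μ) (s : ℝ≥0) (y : Site) :
    Tendsto (fun n : ℕ => ∫ f, fkw (fu_box n) (fun _ => 0) s 0 f *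
      (if (0 : Site) + f.1 s = y then (1 : ℝ) else 0) ∂μ) atTop (𝓝 (IsLaw.tp μ s y)) := by
  have := hμ.prob
  rw [IsLaw.tp_eq_integral hμ]
  apply tendsto_integral_of_dominated_convergence (bound := fun _ => 1)
  · intro n
    exact ((measurable_fkw _ _ fu_zero_bdd s 0).mul
      (measurable_ite_eval _ _ _ _ _)).aestronglyMeasurable
  · exact integrable_const _
  · intro n
    refine Eventually.of_forall (fun f => ?_)
    classical
    rw [fu_fkw, Real.norm_eq_abs]
    split_ifs <;> simp
  · refine Eventually.of_forall (fun f => ?_)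
    have h1 := fu_box_eventually {x | ∃ u, u ≤ s ∧ f.1 u = x} (f.2.finite_range s)
    apply tendsto_const_nhds.congr'
    filter_upwards [h1] with n hn
    classical
    have hst : stay 0 (fu_box n) s f := by
      intro u hu
      rw [zero_add]
      exact hn _ ⟨u, hu, rfl⟩
    rw [fu_fkw, if_pos hst, one_mul, zero_add]

lemma fu_tp_unique {μ ν : Measure WP} (hμ : IsLaw μ) (hν : IsLaw ν) (s : ℝ≥0) (y : Site) :
    IsLaw.tp μ s y = IsLaw.tp ν s y := by
  apply tendsto_nhds_unique (fu_tendsto hμ s y)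
  apply (fu_tendsto hν s y).congr'
  have h1 := fu_box_eventually {0, y} (by simp)
  filter_upwards [h1] with n hn
  have h0 : (0 : Site) ∈ fu_box n := hn _ (by simp)
  have hy : y ∈ fu_box n := hn _ (by simp)
  have e1 := feynman_kac hμ (fu_box n) (fun _ => 0) fu_zero_bdd s ⟨0, h0⟩ ⟨y, hy⟩
  have e2 := feynman_kac hν (fu_box n) (fun _ => 0) fu_zero_bdd s ⟨0, h0⟩ ⟨y, hy⟩
  exact e2.trans e1.symm

lemma fu_eval_eq {μ ν : Measure WP} (hμ : IsLaw μ) (hν : IsLaw ν) (s : ℝ≥0) (y : Site) :
    μ {f | f.1 s = y} = ν {f | f.1 s = y} := by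
  have := hμ.prob
  have := hν.prob
  have h := fu_tp_unique hμ hν s y
  unfold IsLaw.tp at h
  exact (ENNReal.toReal_eq_toReal_iff' (measure_ne_top _ _) (measure_ne_top _ _)).1 h

lemma fu_measurable (I : Finset ℝ≥0) (y : ℝ≥0 → Site) :
    MeasurableSet {f : WP | ∀ i ∈ I, f.1 i = y i} := by
  have e : {f : WP | ∀ i ∈ I, f.1 i = y i} = ⋂ i ∈ I, {f : WP | f.1 i = y i} := by
    ext f
    simp
  rw [e]
  exact I.measurableSet_biInter fun i _ =>
    (measurable_eval i) (measurableSet_singleton (y i))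

lemma fu_fdd {μ ν : Measure WP} (hμ : IsLaw μ) (hν : IsLaw ν) (n : ℕ) :
    ∀ I : Finset ℝ≥0, I.card = n → ∀ y : ℝ≥0 → Site,
      μ {f | ∀ i ∈ I, f.1 i = y i} = ν {f | ∀ i ∈ I, f.1 i = y i} := by
  classical
  have := hμ.prob
  have := hν.prob
  induction n with
  | zero =>
    intro I hI y
    rw [Finset.card_eq_zero] at hI
    subst hI
    simp
  | succ n ih =>
    intro I hI y
    have hne : I.Nonempty := by
      rw [← Finset.card_pos]; omega
    set s := I.min' hne with hs
    have hsI : s ∈ I := I.min'_mem hne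
    have hle : ∀ i ∈ I, s ≤ i := fun i hi => I.min'_le i hi
    set J := (I.erase s).image (fun i => i - s) with hJ
    have hJc : J.card = n := by
      rw [hJ, Finset.card_image_of_injOn, Finset.card_erase_of_mem hsI, hI]
      · rfl
      · intro a ha b hb hab
        have ha' := hle a (Finset.mem_of_mem_erase ha)
        have hb' := hle b (Finset.mem_of_mem_erase hb)
        have : s + (a - s) = s + (b - s) := by
          simp only at hab
          rw [hab]
        rwa [add_tsub_cancel_of_le ha', add_tsub_cancel_of_le hb'] at this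
    have hset : {f : WP | ∀ i ∈ I, f.1 i = y i} = stop s ⁻¹' {g : WP | g.1 s = y s} ∩
        shift s ⁻¹' {g : WP | ∀ j ∈ J, g.1 j = y (s + j) - y s} := by
      ext f
      simp only [Set.mem_inter_iff, Set.mem_preimage, Set.mem_ofPred_eq]
      have h0 : (stop s f).1 s = f.1 s := by simp [stop]
      have h1 : ∀ u, (shift s f).1 u = f.1 (s + u) - f.1 s := fun u => rfl
      rw [h0]
      constructor
      · intro h
        refine ⟨h s hsI, ?_⟩
        intro j hj
        rw [hJ, Finset.mem_image] at hj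
        obtain ⟨i, hi, rfl⟩ := hj
        have hi' := Finset.mem_of_mem_erase hi
        rw [h1, add_tsub_cancel_of_le (hle i hi'), h i hi', h s hsI]
      · rintro ⟨h2, h3⟩ i hi
        by_cases his : i = s
        · rw [his]; exact h2
        · have h4 := h3 (i - s) (by
            rw [hJ]
            exact Finset.mem_image_of_mem _ (Finset.mem_erase.2 ⟨his, hi⟩))
          rw [h1, add_tsub_cancel_of_le (hle i hi), h2] at h4
          exact sub_left_injective h4
    have hm1 : MeasurableSet {g : WP | g.1 s = y s} :=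
      (measurable_eval s) (measurableSet_singleton (y s))
    have hm2 := fu_measurable J (fun j => y (s + j) - y s)
    rw [hset, hμ.markov_set s hm1 hm2, hν.markov_set s hm1 hm2,
      ih J hJc (fun j => y (s + j) - y s)]
    congr 1
    have e : stop s ⁻¹' {g : WP | g.1 s = y s} = {f : WP | f.1 s = y s} := by
      ext f
      simp [stop]
    rw [e]
    exact fu_eval_eq hμ hν s (y s)

/-- The law of the walk is unique.  (Transition probabilities `tp μ h z`: Feynman-Kac
`feynman_kac` with `V = 0` in large boxes `A ↑ ℤ²`; then the finite dimensional distributions by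
`IsLaw.markov_set`, and these generate the σ-algebra.) -/
theorem isLaw_unique {μ ν : Measure WP} (hμ : IsLaw μ) (hν : IsLaw ν) : μ = ν := by
  classical
  have := hμ.prob
  have := hν.prob
  have hval : Measurable (Subtype.val : WP → (ℝ≥0 → Site)) := measurable_subtype_coe
  have key : μ.map (Subtype.val : WP → (ℝ≥0 → Site)) = ν.map (Subtype.val : WP → (ℝ≥0 → Site)) := by
    have : IsFiniteMeasure (ν.map (Subtype.val : WP → (ℝ≥0 → Site))) :=
      Measure.isFiniteMeasure_map ν _
    apply IsProjectiveLimit.unique (P := fun I : Finset ℝ≥0 =>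
      (ν.map (Subtype.val : WP → (ℝ≥0 → Site))).map I.restrict) _ (fun I => rfl)
    intro I
    apply Measure.ext_of_singleton
    intro y
    have hr : Measurable (I.restrict : (ℝ≥0 → Site) → (I → Site)) := Finset.measurable_restrict I
    show ((μ.map (Subtype.val : WP → (ℝ≥0 → Site))).map I.restrict) {y} =
      ((ν.map (Subtype.val : WP → (ℝ≥0 → Site))).map I.restrict) {y}
    rw [Measure.map_map hr hval, Measure.map_map hr hval,
      Measure.map_apply (hr.comp hval) (measurableSet_singleton y),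
      Measure.map_apply (hr.comp hval) (measurableSet_singleton y)]
    have e : (I.restrict ∘ Subtype.val : WP → (I → Site)) ⁻¹' {y} =
        {f : WP | ∀ i ∈ I, f.1 i = (fun i => if h : i ∈ I then y ⟨i, h⟩ else 0) i} := by
      ext f
      simp only [Set.mem_preimage, Function.comp_apply, Set.mem_singleton_iff, Set.mem_ofPred_eq]
      constructor
      · intro h i hi
        rw [dif_pos hi, ← h]
        rfl
      · intro h
        funext i
        have := h i.1 i.2
        rw [dif_pos i.2] at this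
        exact this
    rw [e]
    exact fu_fdd hμ hν I.card I rfl _
  apply Measure.ext
  intro T hT
  obtain ⟨T', hT', rfl⟩ := hT
  rw [← Measure.map_apply hval hT', key, Measure.map_apply hval hT']

/-! ### The principal eigenvalue -/

/-- The bilinear form. -/
noncomputable def fu_b (D : Finset Site) (f g : Site → ℝ) : ℝ :=
  ∑ x ∈ D, (4 * (f x * g x) - ∑ e ∈ units, f x * g (x + e))

lemma fu_b_self (D : Finset Site) (f : Site → ℝ) : fu_b D f f = dform D f := by
  unfold fu_b dform
  apply Finset.sum_congr rfl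
  intro x _
  rw [pow_two]

lemma fu_shift_sum {D : Finset Site} {g : Site → ℝ} (hg : ∀ x, x ∉ D → g x = 0) (h : Site → ℝ)
    (e : Site) : ∑ x ∈ D, h (x + e) * g (x + e) = ∑ x ∈ D, if x - e ∈ D then h x * g x else 0 := by
  classical
  rw [← Finset.sum_filter]
  have h1 : ∑ x ∈ D, h (x + e) * g (x + e) = ∑ x ∈ D.filter (fun x => x + e ∈ D),
      h (x + e) * g (x + e) := by
    rw [Finset.sum_filter]
    apply Finset.sum_congr rfl
    intro x _
    split_ifs with hx
    · rfl
    · rw [hg _ hx, mul_zero]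
  rw [h1]
  refine Finset.sum_bij' (fun x _ => x + e) (fun x _ => x - e) ?_ ?_ ?_ ?_ ?_
  · intro x hx
    rw [Finset.mem_filter] at hx ⊢
    exact ⟨hx.2, by simpa using hx.1⟩
  · intro x hx
    rw [Finset.mem_filter] at hx ⊢
    exact ⟨hx.2, by simpa using hx.1⟩
  · intro x _; simp
  · intro x _; simp
  · intro x _; rfl

lemma fu_sq_shift {D : Finset Site} {g : Site → ℝ} (hg : ∀ x, x ∉ D → g x = 0) (e : Site) :
    ∑ x ∈ D, g (x + e) ^ 2 ≤ ∑ x ∈ D, g x ^ 2 := by
  have h := fu_shift_sum hg g e
  simp only [← pow_two] at h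
  rw [h]
  apply Finset.sum_le_sum
  intro x _
  split_ifs
  · exact le_rfl
  · positivity

lemma fu_cross {D : Finset Site} {f g : Site → ℝ} (hf : ∀ x, x ∉ D → f x = 0)
    (hg : ∀ x, x ∉ D → g x = 0) :
    ∑ x ∈ D, ∑ e ∈ units, f x * g (x + e) = ∑ x ∈ D, ∑ e ∈ units, g x * f (x + e) := by
  classical
  rw [Finset.sum_comm, Finset.sum_comm (s := D)]
  have h1 : ∀ e ∈ units, ∑ x ∈ D, f x * g (x + e) = ∑ x ∈ D, g x * f (x + -e) := by
    intro e _
    have h2 := fu_shift_sum hg (fun x => f (x - e)) e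
    simp only [add_sub_cancel_right] at h2
    rw [h2]
    apply Finset.sum_congr rfl
    intro x _
    rw [← sub_eq_add_neg]
    split_ifs with h
    · ring
    · rw [hf _ h]; ring
  rw [Finset.sum_congr rfl h1]
  refine Finset.sum_bij' (fun e _ => -e) (fun e _ => -e) ?_ ?_ ?_ ?_ ?_
  · intro e he; exact units_neg he
  · intro e he; exact units_neg he
  · intro e _; simp
  · intro e _; simp
  · intro e _; rfl

lemma fu_b_comm {D : Finset Site} {f g : Site → ℝ} (hf : ∀ x, x ∉ D → f x = 0)
    (hg : ∀ x, x ∉ D → g x = 0) : fu_b D f g = fu_b D g f := by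
  unfold fu_b
  rw [Finset.sum_sub_distrib, Finset.sum_sub_distrib, fu_cross hf hg]
  congr 1
  apply Finset.sum_congr rfl
  intro x _
  ring

lemma fu_dform_nonneg {D : Finset Site} {f : Site → ℝ} (hf : ∀ x, x ∉ D → f x = 0) :
    0 ≤ dform D f := by
  unfold dform
  rw [Finset.sum_sub_distrib, sub_nonneg, Finset.sum_comm]
  have h1 : ∀ e ∈ units, ∑ x ∈ D, f x * f (x + e) ≤ ∑ x ∈ D, f x ^ 2 := by
    intro e _
    have h2 := fu_sq_shift hf e
    have h3 : ∑ x ∈ D, f x * f (x + e) ≤ ∑ x ∈ D, (f x ^ 2 + f (x + e) ^ 2) / 2 := by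
      apply Finset.sum_le_sum
      intro x _
      nlinarith [sq_nonneg (f x - f (x + e))]
    rw [← Finset.sum_div, Finset.sum_add_distrib] at h3
    linarith
  calc _ ≤ ∑ e ∈ units, ∑ x ∈ D, f x ^ 2 := Finset.sum_le_sum h1
    _ = ∑ x ∈ D, 4 * f x ^ 2 := by
      rw [Finset.sum_const, card_units, ← Finset.mul_sum]
      simp

lemma fu_bdd (D : Finset Site) : BddBelow {r | ∃ f : Site → ℝ, (∀ x, x ∉ D → f x = 0) ∧
    ∑ x ∈ D, f x ^ 2 = 1 ∧ r = dform D f} := by
  refine ⟨0, ?_⟩
  rintro r ⟨f, hf, -, rfl⟩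
  exact fu_dform_nonneg hf

theorem lamD_le_of {D : Finset Site} {f : Site → ℝ} (hf : ∀ x, x ∉ D → f x = 0)
    (h : ∑ x ∈ D, f x ^ 2 = 1) : lamD D ≤ dform D f :=
  csInf_le (fu_bdd D) ⟨f, hf, h, rfl⟩

lemma fu_dform_smul (D : Finset Site) (f : Site → ℝ) (c : ℝ) :
    dform D (fun x => c * f x) = c ^ 2 * dform D f := by
  unfold dform
  rw [Finset.mul_sum]
  apply Finset.sum_congr rfl
  intro x _
  rw [mul_sub, Finset.mul_sum]
  congr 1
  · ring
  · apply Finset.sum_congr rfl
    intro e _
    ring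

theorem lamD_mul_le {D : Finset Site} {f : Site → ℝ} (hf : ∀ x, x ∉ D → f x = 0) :
    lamD D * ∑ x ∈ D, f x ^ 2 ≤ dform D f := by
  set S := ∑ x ∈ D, f x ^ 2 with hS
  have hS0 : 0 ≤ S := Finset.sum_nonneg (fun x _ => sq_nonneg _)
  rcases hS0.eq_or_lt with h0 | h0
  · rw [← h0, mul_zero]
    exact fu_dform_nonneg hf
  · have h1 := lamD_le_of (D := D) (f := fun x => (Real.sqrt S)⁻¹ * f x)
      (fun x hx => by rw [hf x hx, mul_zero]) (by
        simp only [mul_pow]
        rw [← Finset.mul_sum, ← hS, inv_pow, Real.sq_sqrt hS0, inv_mul_cancel₀ h0.ne'])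
    rw [fu_dform_smul, inv_pow, Real.sq_sqrt hS0] at h1
    calc lamD D * S ≤ (S⁻¹ * dform D f) * S := by gcongr
      _ = dform D f := by field_simp

theorem lamD_nonneg (D : Finset Site) : 0 ≤ lamD D := by
  apply Real.sInf_nonneg
  rintro r ⟨f, hf, -, rfl⟩
  exact fu_dform_nonneg hf

lemma fu_pt {D : Finset Site} {a : Site} (ha : a ∈ D) :
    (∀ x, x ∉ D → (fun x => if x = a then (1 : ℝ) else 0) x = 0) ∧
      ∑ x ∈ D, (fun x => if x = a then (1 : ℝ) else 0) x ^ 2 = 1 := by
  constructor
  · intro x hx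
    show (if x = a then (1 : ℝ) else 0) = 0
    rw [if_neg]
    rintro rfl
    exact hx ha
  · simp [ha]

theorem lamD_le_four (D : Finset Site) : lamD D ≤ 4 := by
  rcases D.eq_empty_or_nonempty with rfl | ⟨a, ha⟩
  · unfold lamD
    have : {r | ∃ f : Site → ℝ, (∀ x, x ∉ (∅ : Finset Site) → f x = 0) ∧
        ∑ x ∈ (∅ : Finset Site), f x ^ 2 = 1 ∧ r = dform ∅ f} = ∅ := by
      ext r
      simp
    rw [this, Real.sInf_empty]
    norm_num
  · obtain ⟨h1, h2⟩ := fu_pt ha
    refine (lamD_le_of h1 h2).trans (le_of_eq ?_)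
    unfold dform
    rw [Finset.sum_sub_distrib, ← Finset.mul_sum, h2]
    have h3 : ∑ x ∈ D, ∑ e ∈ units, (if x = a then (1 : ℝ) else 0) *
        (if x + e = a then (1 : ℝ) else 0) = 0 := by
      apply Finset.sum_eq_zero
      intro x _
      apply Finset.sum_eq_zero
      intro e he
      by_cases hx : x = a
      · have hne : ¬ x + e = a := by
          rw [hx]
          intro h
          rw [add_eq_left] at h
          rw [h] at he
          exact absurd he (by decide)
        rw [if_neg hne, mul_zero]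
      · rw [if_neg hx, zero_mul]
    rw [h3]
    norm_num

theorem lamD_anti {D E : Finset Site} (h : D ⊆ E) (hD : D.Nonempty) : lamD E ≤ lamD D := by
  obtain ⟨a, ha⟩ := hD
  obtain ⟨h1, h2⟩ := fu_pt ha
  apply le_csInf
  · exact ⟨_, _, h1, h2, rfl⟩
  · rintro r ⟨f, hf, hf1, rfl⟩
    have hfE : ∀ x, x ∉ E → f x = 0 := fun x hx => hf x (fun hxD => hx (h hxD))
    have e1 : ∑ x ∈ E, f x ^ 2 = ∑ x ∈ D, f x ^ 2 := by
      symm
      apply Finset.sum_subset h
      intro x _ hx
      rw [hf x hx]; norm_num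
    have e2 : dform E f = dform D f := by
      unfold dform
      symm
      apply Finset.sum_subset h
      intro x _ hx
      rw [hf x hx]; simp
    rw [← e2]
    exact lamD_le_of hfE (by rw [e1, hf1])

lemma fu_continuous (D : Finset Site) : Continuous (fun u : D → ℝ => dform D (ext0 D u)) := by
  have h : ∀ z, Continuous (fun u : D → ℝ => ext0 D u z) := by
    intro z
    unfold ext0
    split_ifs with hz
    · exact continuous_apply _
    · exact continuous_const
  unfold dform
  apply continuous_finsetSum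
  intro x _
  apply Continuous.sub
  · exact ((h x).pow 2).const_mul 4
  · apply continuous_finsetSum
    intro e _
    exact (h x).mul (h (x + e))

lemma fu_restrict {D : Finset Site} {f : Site → ℝ} (hf : ∀ x, x ∉ D → f x = 0) :
    ext0 D (fun x : D => f x.1) = f := by
  funext z
  unfold ext0
  split_ifs with hz
  · rfl
  · exact (hf z hz).symm

lemma fu_dform_abs_le {D : Finset Site} (f : Site → ℝ) :
    dform D (fun x => |f x|) ≤ dform D f := by
  unfold dform
  apply Finset.sum_le_sum
  intro x _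
  simp only [sq_abs]
  apply sub_le_sub_left
  apply Finset.sum_le_sum
  intro e _
  rw [← abs_mul]
  exact le_abs_self _

lemma fu_dform_add {D : Finset Site} {f g : Site → ℝ} (hf : ∀ x, x ∉ D → f x = 0)
    (hg : ∀ x, x ∉ D → g x = 0) (t : ℝ) :
    dform D (fun x => f x + t * g x) = dform D f + 2 * t * fu_b D g f + t ^ 2 * dform D g := by
  have h1 : dform D (fun x => f x + t * g x) =
      dform D f + t * (fu_b D f g + fu_b D g f) + t ^ 2 * dform D g := by
    unfold dform fu_b
    rw [← Finset.sum_add_distrib, Finset.mul_sum, Finset.mul_sum, ← Finset.sum_add_distrib,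
      ← Finset.sum_add_distrib]
    apply Finset.sum_congr rfl
    intro x _
    have e1 : ∑ e ∈ units, (f x + t * g x) * (f (x + e) + t * g (x + e)) =
        ∑ e ∈ units, f x * f (x + e) + t * (∑ e ∈ units, f x * g (x + e)) +
          t * (∑ e ∈ units, g x * f (x + e)) + t ^ 2 * ∑ e ∈ units, g x * g (x + e) := by
      rw [Finset.mul_sum, Finset.mul_sum, Finset.mul_sum, ← Finset.sum_add_distrib,
        ← Finset.sum_add_distrib, ← Finset.sum_add_distrib]
      apply Finset.sum_congr rfl
      intro e _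
      ring
    rw [e1]
    ring
  rw [h1, fu_b_comm hf hg]
  ring

/-- There is a nonnegative eigenfunction. -/
theorem exists_eigen {D : Finset Site} (hD : D.Nonempty) : ∃ φ : Site → ℝ, (∀ x, 0 ≤ φ x) ∧
    (∀ x, x ∉ D → φ x = 0) ∧ (∃ x ∈ D, 0 < φ x) ∧
    ∀ x ∈ D, 4 * φ x - ∑ e ∈ units, φ (x + e) = lamD D * φ x := by
  classical
  -- a minimiser on the sphere
  set K : Set (D → ℝ) := {u | ∑ x, u x ^ 2 = 1} with hK
  have hKc : IsCompact K := by
    apply (isCompact_Icc (a := fun _ : D => (-1 : ℝ)) (b := fun _ => 1)).of_isClosed_subset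
    · apply isClosed_eq _ continuous_const
      apply continuous_finsetSum
      intro x _
      exact (continuous_apply x).pow 2
    · intro u hu
      rw [hK, Set.mem_ofPred_eq] at hu
      have h1 : ∀ x, u x ^ 2 ≤ 1 := by
        intro x
        rw [← hu]
        exact Finset.single_le_sum (f := fun x => u x ^ 2) (fun y _ => sq_nonneg _)
          (Finset.mem_univ x)
      rw [Set.mem_Icc]
      constructor
      · intro x
        exact (abs_le.1 (sq_le_one_iff_abs_le_one _ |>.1 (h1 x))).1
      · intro x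
        exact (abs_le.1 (sq_le_one_iff_abs_le_one _ |>.1 (h1 x))).2
  obtain ⟨a, ha⟩ := hD
  have hKne : K.Nonempty := by
    refine ⟨fun x => if x.1 = a then 1 else 0, ?_⟩
    rw [hK, Set.mem_ofPred_eq, Finset.sum_coe_sort D (fun x => (if x = a then (1 : ℝ) else 0) ^ 2)]
    exact (fu_pt ha).2
  obtain ⟨u, huK, hu⟩ := hKc.exists_isMinOn hKne (fu_continuous D).continuousOn
  have hKmem : ∀ f : Site → ℝ, ∑ x ∈ D, f x ^ 2 = 1 → (fun x : D => f x.1) ∈ K := by
    intro f hf
    rw [hK, Set.mem_ofPred_eq, Finset.sum_coe_sort D (fun x => f x ^ 2)]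
    exact hf
  set g := ext0 D u with hg
  have hg0 : ∀ x, x ∉ D → g x = 0 := fun x hx => ext0_not_mem D u hx
  have hg1 : ∑ x ∈ D, g x ^ 2 = 1 := by
    rw [hg, ext0_sq_sum]
    exact huK
  have hmin : lamD D = dform D g := by
    apply le_antisymm (lamD_le_of hg0 hg1)
    refine le_csInf ⟨_, _, (fu_pt ha).1, (fu_pt ha).2, rfl⟩ ?_
    rintro r ⟨f, hf, hf1, rfl⟩
    have := hu (hKmem f hf1)
    simp only [Set.mem_ofPred_eq] at this
    rwa [fu_restrict hf] at this
  -- its absolute value is a minimiser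
  set φ : Site → ℝ := fun x => |g x| with hφ
  have hφ0 : ∀ x, x ∉ D → φ x = 0 := fun x hx => by rw [hφ]; simp [hg0 x hx]
  have hφ1 : ∑ x ∈ D, φ x ^ 2 = 1 := by
    rw [← hg1]
    apply Finset.sum_congr rfl
    intro x _
    exact sq_abs _
  have hφmin : dform D φ = lamD D := by
    apply le_antisymm
    · rw [hmin]; exact fu_dform_abs_le g
    · exact lamD_le_of hφ0 hφ1
  refine ⟨φ, fun x => abs_nonneg _, hφ0, ?_, ?_⟩
  · by_contra hc
    push Not at hc
    have : ∑ x ∈ D, φ x ^ 2 = 0 := by
      apply Finset.sum_eq_zero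
      intro x hx
      have h1 : φ x = 0 := le_antisymm (hc x hx) (abs_nonneg _)
      rw [h1]; norm_num
    rw [hφ1] at this
    exact one_ne_zero this
  · intro x hx
    set δ : Site → ℝ := fun z => if z = x then 1 else 0 with hδ
    obtain ⟨hδ0, hδ1⟩ := fu_pt hx
    have hb : fu_b D δ φ = 4 * φ x - ∑ e ∈ units, φ (x + e) := by
      unfold fu_b
      rw [Finset.sum_eq_single_of_mem x hx]
      · simp [hδ]
      · intro y _ hy
        simp [hδ, hy]
    have hc : ∑ y ∈ D, φ y * δ y = φ x := by
      rw [Finset.sum_eq_single_of_mem x hx]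
      · simp [hδ]
      · intro y _ hy
        simp [hδ, hy]
    have hq : ∀ t : ℝ, 0 ≤ 2 * t * (fu_b D δ φ - lamD D * φ x) + t ^ 2 * (dform D δ - lamD D) := by
      intro t
      have h1 := lamD_mul_le (D := D) (f := fun y => φ y + t * δ y)
        (fun y hy => by
          have : δ y = 0 := hδ0 y hy
          rw [hφ0 y hy, this]; simp)
      rw [fu_dform_add hφ0 hδ0 t, hφmin] at h1
      have h2 : ∑ y ∈ D, (φ y + t * δ y) ^ 2 = 1 + 2 * t * φ x + t ^ 2 := by
        have : ∀ y ∈ D, (φ y + t * δ y) ^ 2 = φ y ^ 2 + 2 * t * (φ y * δ y) + t ^ 2 * δ y ^ 2 := by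
          intro y _; ring
        rw [Finset.sum_congr rfl this, Finset.sum_add_distrib, Finset.sum_add_distrib,
          ← Finset.mul_sum, ← Finset.mul_sum, hφ1, hc, hδ1]
        ring
      rw [h2] at h1
      nlinarith
    set A := fu_b D δ φ - lamD D * φ x with hA
    set B := dform D δ - lamD D with hB
    have hA0 : A = 0 := by
      by_contra hne
      have hBp : 0 < |B| + 1 := by positivity
      have h1 := hq (-(A / (|B| + 1)))
      have h2 : 2 * -(A / (|B| + 1)) * A + (-(A / (|B| + 1))) ^ 2 * B ≤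
          -(A ^ 2 / (|B| + 1)) := by
        have h3 : (-(A / (|B| + 1))) ^ 2 * B ≤ A ^ 2 / (|B| + 1) := by
          calc (-(A / (|B| + 1))) ^ 2 * B ≤ (-(A / (|B| + 1))) ^ 2 * (|B| + 1) := by
                gcongr
                linarith [le_abs_self B]
            _ = A ^ 2 / (|B| + 1) := by field_simp
        have h4 : 2 * -(A / (|B| + 1)) * A = -(2 * (A ^ 2 / (|B| + 1))) := by ring
        rw [h4]
        linarith
      have h5 : 0 < A ^ 2 / (|B| + 1) := by positivity
      linarith
    rw [← hb]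
    linarith

/-- From the maximum of the eigenfunction the walk stays in `D` up to time `s` with probability at
least `e^{-lamD D s}`. -/
theorem stay_ge {D : Finset Site} (hD : D.Nonempty) : ∃ a ∈ D, ∀ μ : Measure WP, IsLaw μ →
    ∀ s : ℝ≥0, Real.exp (-(lamD D * s)) ≤ μ.real {f : WP | stay a D s f} := by
  classical
  obtain ⟨φ, hφ, hφ0, ⟨x₀, hx₀, hx₀p⟩, heig⟩ := exists_eigen hD
  obtain ⟨a, ha, hmax⟩ := D.exists_max_image φ hD
  have hap : 0 < φ a := lt_of_lt_of_le hx₀p (hmax x₀ hx₀)
  refine ⟨a, ha, fun μ hμ s => ?_⟩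
  have := hμ.prob
  set G := gen D (fun _ => 0) with hG
  have hGφ : G.mulVec (fun x : D => φ x.1) = (-lamD D) • (fun x : D => φ x.1) := by
    funext x
    rw [hG, gen_mulVec, fu_restrict hφ0, Pi.smul_apply, smul_eq_mul]
    have := heig x.1 x.2
    linarith
  have hexp := congrFun (exp_eigen G _ _ hGφ (s : ℝ)) ⟨a, ha⟩
  have hent : ∀ y : D, NormedSpace.exp ((s : ℝ) • G) ⟨a, ha⟩ y =
      ∫ f, fkw D (fun _ => 0) s a f * (if a + f.1 s = y.1 then 1 else 0) ∂μ := fun y =>
    (feynman_kac hμ D (fun _ => 0) fu_zero_bdd s ⟨a, ha⟩ y).symm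
  have hent0 : ∀ y : D, 0 ≤ NormedSpace.exp ((s : ℝ) • G) ⟨a, ha⟩ y := by
    intro y
    rw [hent]
    apply integral_nonneg
    intro f
    apply mul_nonneg (fkw_nonneg _ _ _ _ _)
    split_ifs <;> norm_num
  have hsum : μ.real {f : WP | stay a D s f} = ∑ y : D, NormedSpace.exp ((s : ℝ) • G) ⟨a, ha⟩ y := by
    rw [Finset.sum_congr rfl (fun y _ => hent y), ← integral_finsetSum, ← integral_indicator_one
      (measurableSet_stay a D s)]
    · apply integral_congr_ae
      refine Eventually.of_forall (fun f => ?_)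
      show Set.indicator {f : WP | stay a D s f} 1 f =
        ∑ y : D, fkw D (fun _ => 0) s a f * (if a + f.1 s = y.1 then (1 : ℝ) else 0)
      rw [← Finset.mul_sum, fu_fkw]
      by_cases hf : stay a D s f
      · rw [Set.indicator_of_mem (by exact hf), if_pos hf, one_mul,
          Finset.sum_eq_single (⟨a + f.1 s, hf s le_rfl⟩ : D)]
        · simp
        · intro y _ hy
          rw [if_neg]
          intro h
          exact hy (Subtype.ext h.symm)
        · intro h
          exact absurd (Finset.mem_univ _) h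
      · rw [Set.indicator_of_notMem (by exact hf), if_neg hf, zero_mul]
    · intro y _
      exact integrable_fkw_ite D (fun _ => 0) fu_zero_bdd s a y.1
  rw [hsum]
  have h1 : (NormedSpace.exp ((s : ℝ) • G)).mulVec (fun x : D => φ x.1) ⟨a, ha⟩ ≤
      (∑ y : D, NormedSpace.exp ((s : ℝ) • G) ⟨a, ha⟩ y) * φ a := by
    rw [Matrix.mulVec, dotProduct, Finset.sum_mul]
    apply Finset.sum_le_sum
    intro y _
    exact mul_le_mul_of_nonneg_left (hmax y.1 y.2) (hent0 y)
  rw [hexp, Pi.smul_apply, smul_eq_mul] at h1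
  have h2 := le_of_mul_le_mul_right h1 hap
  rwa [neg_mul] at h2

end Pool.Agent.WSB71
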