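import Pool.Agent.LT.Fill

/-!
# The filled set, the depth, travels
-/

open MeasureTheory Filter Topology
open scoped NNReal ENNReal

namespace Pool.Agent.WSB71

open Pool.Agent.LT

theorem exists_box (G : Finset Site) : ∃ p : ℤ × ℤ × ℕ × ℕ,
    ∀ x ∈ G, InBox p.1 p.2.1 p.2.2.1 p.2.2.2 x := by
  obtain ⟨M, hM⟩ : ∃ M : ℕ, ∀ x ∈ G, max x.1.natAbs x.2.natAbs ≤ M :=
    ⟨G.sup fun x => max x.1.natAbs x.2.natAbs, fun x hx =>
      Finset.le_sup (f := fun x : Site => max x.1.natAbs x.2.natAbs) hx⟩
  refine ⟨(-(M : ℤ) - 1, -(M : ℤ) - 1, 2 * M + 1, 2 * M + 1), fun x hx => ?_⟩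
  have h := hM x hx
  have h1 : x.1.natAbs ≤ M := (le_max_left _ _).trans h
  have h2 : x.2.natAbs ≤ M := (le_max_right _ _).trans h
  unfold InBox
  push_cast
  omega

/-- `G` with its holes filled. -/
noncomputable def fil (G : Finset Site) : Finset Site :=
  fill G (exists_box G).choose.1 (exists_box G).choose.2.1 (exists_box G).choose.2.2.1
    (exists_box G).choose.2.2.2

theorem subset_fil (G : Finset Site) : G ⊆ fil G := by
  exact subset_fill (exists_box G).choose_spec

theorem fil_conn {G : Finset Site} (hG : ConnF (G : Set Site)) : ConnF (fil G : Set Site) := by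
  exact connF_fill (exists_box G).choose_spec hG

theorem fil_compl_conn (G : Finset Site) : ConnF (fil G : Set Site)ᶜ := by
  exact connF_fill_compl (exists_box G).choose_spec

theorem adj_fil {G : Finset Site} {x y : Site} (hx : x ∈ fil G) (hy : y ∉ fil G) (h : Adj x y) :
    x ∈ G := by
  exact adj_fill (exists_box G).choose_spec hx hy h

/-- `fil G` is the only finite set which contains `G`, has connected complement, and whose inner
boundary sites belong to `G`; provided `G` is connected (nonempty). -/
theorem fil_unique {G D : Finset Site} (hG : ConnF (G : Set Site)) (hne : G.Nonempty)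
    (hD : ConnF (D : Set Site)) (hDc : ConnF (D : Set Site)ᶜ) (hGD : G ⊆ D)
    (h : ∀ x ∈ D, ∀ y, y ∉ D → Adj x y → x ∈ G) : fil G = D := by
  classical
  obtain ⟨f, hf⟩ : ∃ f : Site, f ∉ fil G ∪ D := Infinite.exists_notMem_finset _
  rw [Finset.notMem_union] at hf
  apply Finset.Subset.antisymm
  · intro x hx
    by_contra hxD
    have h1 := hDc (fun z => decide (z ∈ fil G)) (by
      intro p hp q hq hpq
      have hp' : p ∉ D := hp
      have hq' : q ∉ D := hq
      rw [decide_eq_decide]
      constructor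
      · intro h2
        by_contra h3
        exact hp' (hGD (adj_fil h2 h3 hpq))
      · intro h2
        by_contra h3
        exact hq' (hGD (adj_fil h2 h3 hpq.symm))) x hxD f hf.2
    rw [decide_eq_decide] at h1
    exact hf.1 (h1.1 hx)
  · intro x hx
    by_contra hxG
    have h1 := fil_compl_conn G (fun z => decide (z ∈ D)) (by
      intro p hp q hq hpq
      have hp' : p ∉ fil G := hp
      have hq' : q ∉ fil G := hq
      rw [decide_eq_decide]
      constructor
      · intro h2
        by_contra h3
        exact hp' (subset_fil G (h p h2 q h3 hpq))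
      · intro h2
        by_contra h3
        exact hq' (subset_fil G (h q h2 p h3 hpq.symm))) x hxG f hf.1
    rw [decide_eq_decide] at h1
    exact hf.2 (h1.1 hx)

/-- The edges (directed) from `G` to its holes. -/
noncomputable def holeE (G : Finset Site) : Finset (Site × Site) :=
  (G ×ˢ (fil G \ G)).filter (fun p => Adj p.1 p.2)

/-- Sup-norm distance of two sites. -/
def sd (x y : Site) : ℕ := max (x.1 - y.1).natAbs (x.2 - y.2).natAbs

/-- Depth of `x` in `G`: the sup-norm distance to the complement (`0` outside `G`). -/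
noncomputable def dep (G : Finset Site) (x : Site) : ℕ :=
  sInf {r : ℕ | ∃ y, y ∉ G ∧ sd x y = r}

theorem dep_le {G : Finset Site} {x y : Site} (hy : y ∉ G) : dep G x ≤ sd x y := by
  exact Nat.sInf_le ⟨y, hy, rfl⟩

theorem exists_dep (G : Finset Site) (x : Site) : ∃ y, y ∉ G ∧ sd x y = dep G x := by
  have hne : {r : ℕ | ∃ y, y ∉ G ∧ sd x y = r}.Nonempty := by
    obtain ⟨f, hf⟩ : ∃ f : Site, f ∉ G := Infinite.exists_notMem_finset _
    exact ⟨_, f, hf, rfl⟩
  exact Nat.sInf_mem hne

theorem dep_eq_zero {G : Finset Site} {x : Site} : dep G x = 0 ↔ x ∉ G := by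
  constructor
  · intro h
    obtain ⟨y, hy, h1⟩ := exists_dep G x
    rw [h] at h1
    have : x = y := by
      unfold sd at h1
      ext <;> omega
    rwa [this]
  · intro h
    have h1 := dep_le (x := x) h
    have : sd x x = 0 := by simp [sd]
    omega

theorem dep_lip (G : Finset Site) (x y : Site) : dep G x ≤ dep G y + sd x y := by
  obtain ⟨z, hz, h1⟩ := exists_dep G y
  have h2 := dep_le (x := x) hz
  have h3 : sd x z ≤ sd y z + sd x y := by
    unfold sd
    omega
  omega

theorem mem_of_sd_lt {G : Finset Site} {x y : Site} (h : sd x y < dep G x) : y ∈ G := by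
  by_contra hy
  exact absurd (dep_le (x := x) hy) (not_le.2 h)

/-- `Travels G l r D k`: the chain `l` makes `k` disjoint travels of displacement `≥ r` at depth
`≤ D` in `G`. -/
def Travels (G : Finset Site) (l : List Site) (r D k : ℕ) : Prop :=
  ∃ a b : ℕ → ℕ, (∀ i < k, a i < b i ∧ b i < l.length ∧ r ≤ sd (l.getD (a i) 0) (l.getD (b i) 0) ∧
    ∀ m, a i ≤ m → m ≤ b i → dep G (l.getD m 0) ≤ D) ∧ ∀ i, i + 1 < k → b i ≤ a (i + 1)

theorem Travels.mono {G : Finset Site} {l : List Site} {r r' D D' k k' : ℕ}
    (h : Travels G l r D k) (hr : r' ≤ r) (hD : D ≤ D') (hk : k' ≤ k) : Travels G l r' D' k' := by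
  obtain ⟨a, b, h1, h2⟩ := h
  refine ⟨a, b, fun i hi => ?_, fun i hi => h2 i (by omega)⟩
  obtain ⟨p1, p2, p3, p4⟩ := h1 i (by omega)
  exact ⟨p1, p2, hr.trans p3, fun m hm hm' => (p4 m hm hm').trans hD⟩

end Pool.Agent.WSB71
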