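import Pool.Agent.WSB71.InsA

/-!
# INS: the insertion lemma

`w y n` is the weight of `n ≥ 1` visits at `y`, `Wt w l = ∏_{x ∈ l.toFinset} w x (l.count x)`.
`X ⊆ Y` sets of sites; the sites of `Y` carry the exact weight `gw β lam`.  For a chain `l` let
`hE Y X l` be the number of pairs `(i, x)`, `i ∈ Y` visited, `x ∈ X` not visited, `i ~ x`.
`Ins Y X A` = all chains obtained from a chain `l ∈ A` by inserting, at visits of sites
`i ∈ Y`, any number of trips `i → x → i` with `x ∈ X`, `x ∉ l`, `x ~ i`.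

Claim: `∑_{l ∈ A} Wt w l e^{β hE / 5} ≤ ∑_{l' ∈ Ins A} Wt ŵ l'`, where `ŵ = fw lam` on `X` and
`ŵ = w` off `X`.

Proof. On `X` write `fw lam n = gw β lam n + gl n`, `gl n = ∫_0^β s^{n-1}/(n-1)! e^{-(4-lam)s} ds`.
Expand the product over `X` of the right side: it is the sum over the pairs `(l', S)`, `S ⊆ X ∩ l'`
of `∏_{S} gl ∏_{X∖S} gw ∏_{off X} w`.  The map (`l`, words `w_k` at the positions `k` of `l`) ↦
(`l'`, `S` = set of inserted sites) is injective (delete from `l'` each visit of `S` and the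
next site).  So the right side is at least the sum over `l ∈ A` and all words of
`∏_{i ∈ l} w_i(N_i + M_i) ∏_{x} gl(M_x)`, `M_i = ∑_x M_{ix}`, `M_x = ∑_i M_{ix}`,
`M_{ix}` = number of `x`'s in the words at the visits of `i` (only for `i ∈ Y`).
The number of families of words with given `M_{ix}` is
`∏_i (N_i + M_i - 1)! / ((N_i - 1)! ∏_x M_{ix}!)` and
`(N+M-1)!/(N-1)! gw(N+M) = ∫_β^∞ s^{N+M-1}/(N-1)! e^{-(4-lam)s} ds ≥ β^M gw(N)`.
So the sum is at least `∑_l Wt w l ∏_x Φ(e_x)`, `e_x` = number of visited neighbours of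
`x` in `Y`, `Φ(e) = ∑_{M ≥ 0} (e β)^M / M! gl(M)` (`gl 0 = 1`); and `Φ(e) ≥ ¼ e^{eβ/4} ≥ e^{eβ/5}` for
`1 ≤ e ≤ 4`, `β ≥ β₁`, `0 ≤ lam ≤ 1`.
-/

open MeasureTheory Filter Topology
open scoped NNReal ENNReal

namespace Pool.Agent.WSB71

open Pool.Agent.LT

/-- The chain with inserted trips. -/
def insW (l : List (Site × List Site)) : List Site :=
  l.flatMap (fun p => p.1 :: p.2.flatMap (fun x => [x, p.1]))

/-- All chains obtained by insertions. -/
def Ins (Y X : Set Site) (A : Set (List Site)) : Set (List Site) :=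
  {l' | ∃ l : List (Site × List Site), l.map Prod.fst ∈ A ∧
    (∀ p ∈ l, ∀ x ∈ p.2, p.1 ∈ Y ∧ x ∈ X ∧ x ∉ l.map Prod.fst ∧ Adj p.1 x) ∧ l' = insW l}

open Classical in
/-- The number of hole edges. -/
noncomputable def hE (Y X : Set Site) (l : List Site) : ℕ :=
  ((l.toFinset.filter (· ∈ Y)) ×ˢ units |>.filter (fun p => p.1 + p.2 ∈ X ∧ p.1 + p.2 ∉ l)).card

namespace InsA

/-- admissible families of words -/
def Valid (Y X : Set Site) (W : List (Site × List Site)) : Prop :=
  ∀ p ∈ W, ∀ x ∈ p.2, p.1 ∈ Y ∧ x ∈ X ∧ x ∉ W.map Prod.fst ∧ Adj p.1 x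

theorem lets_snd (i : Site) (w : List Site) : (lets i w).map Prod.snd = (w : Multiset Site) := by
  induction w with
  | nil => rfl
  | cons x w ih => rw [lets_cons, Multiset.map_cons, ih]; rfl

theorem mem_lets {i : Site} {w : List Site} {e : Site × Site} :
    e ∈ lets i w ↔ e.1 = i ∧ e.2 ∈ w := by
  induction w with
  | nil => simp [lets]
  | cons x w ih =>
    rw [lets_cons, Multiset.mem_cons, ih, List.mem_cons]
    constructor
    · rintro (rfl | ⟨h1, h2⟩)
      · exact ⟨rfl, Or.inl rfl⟩
      · exact ⟨h1, Or.inr h2⟩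
    · rintro ⟨h1, h2 | h2⟩
      · exact Or.inl (Prod.ext h1 h2)
      · exact Or.inr ⟨h1, h2⟩

theorem mem_allLets {W : List (Site × List Site)} {e : Site × Site} :
    e ∈ allLets W ↔ ∃ p ∈ W, e.1 = p.1 ∧ e.2 ∈ p.2 := by
  induction W with
  | nil => simp [allLets]
  | cons p W ih =>
    change e ∈ lets p.1 p.2 + allLets W ↔ _
    rw [Multiset.mem_add, ih, mem_lets]
    simp only [List.mem_cons]
    constructor
    · rintro (h | ⟨q, hq, h⟩)
      · exact ⟨p, Or.inl rfl, h⟩
      · exact ⟨q, Or.inr hq, h⟩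
    · rintro ⟨q, rfl | hq, h⟩
      · exact Or.inl h
      · exact Or.inr ⟨q, hq, h⟩

theorem word_coe (i : Site) (w : List Site) :
    ((w.flatMap (fun x => [x, i]) : List Site) : Multiset Site) =
      (lets i w).map Prod.snd + (lets i w).map Prod.fst := by
  induction w with
  | nil => rfl
  | cons x w ih =>
    rw [lets_cons, Multiset.map_cons, Multiset.map_cons, List.flatMap_cons]
    change ((x :: i :: w.flatMap (fun x => [x, i]) : List Site) : Multiset Site) = _
    rw [← Multiset.cons_coe, ← Multiset.cons_coe, ih, Multiset.cons_add, Multiset.add_cons]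

theorem insW_coe (W : List (Site × List Site)) :
    ((insW W : List Site) : Multiset Site) = ((W.map Prod.fst : List Site) : Multiset Site) +
      (allLets W).map Prod.snd + (allLets W).map Prod.fst := by
  induction W with
  | nil => rfl
  | cons p W ih =>
    change (((p.1 :: p.2.flatMap (fun x => [x, p.1])) ++ insW W : List Site) : Multiset Site) =
      ((p.1 :: W.map Prod.fst : List Site) : Multiset Site) +
      (lets p.1 p.2 + allLets W).map Prod.snd + (lets p.1 p.2 + allLets W).map Prod.fst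
    rw [← Multiset.coe_add, ih, ← Multiset.cons_coe, ← Multiset.cons_coe, word_coe,
      Multiset.map_add, Multiset.map_add]
    simp only [← Multiset.singleton_add]
    abel

theorem word_inj {S : Set Site} (i : Site) : ∀ (w w' L L' : List Site), (∀ x ∈ w, x ∈ S) →
    (∀ x ∈ w', x ∈ S) → (∀ y, L.head? = some y → y ∉ S) → (∀ y, L'.head? = some y → y ∉ S) →
    w.flatMap (fun x => [x, i]) ++ L = w'.flatMap (fun x => [x, i]) ++ L' → w = w' ∧ L = L' := by
  intro w
  induction w with
  | nil =>
    intro w' L L' _ hw' hL hL' h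
    cases w' with
    | nil => exact ⟨rfl, h⟩
    | cons x w' =>
      exfalso
      refine hL x ?_ (hw' x List.mem_cons_self)
      change ([] ++ L : List Site).head? = some x
      have : ([] ++ L : List Site) = x :: i :: (w'.flatMap (fun x => [x, i]) ++ L') := h
      rw [this]
      rfl
  | cons x w ih =>
    intro w' L L' hw hw' hL hL' h
    cases w' with
    | nil =>
      exfalso
      refine hL' x ?_ (hw x List.mem_cons_self)
      have : (x :: i :: (w.flatMap (fun x => [x, i]) ++ L) : List Site) = L' := h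
      rw [← this]
      rfl
    | cons y w' =>
      have h1 : (x :: i :: (w.flatMap (fun x => [x, i]) ++ L) : List Site) =
        y :: i :: (w'.flatMap (fun x => [x, i]) ++ L') := h
      rw [List.cons.injEq, List.cons.injEq] at h1
      obtain ⟨rfl, _, h2⟩ := h1
      obtain ⟨rfl, rfl⟩ := ih w' L L' (fun z hz => hw z (List.mem_cons_of_mem _ hz))
        (fun z hz => hw' z (List.mem_cons_of_mem _ hz)) hL hL' h2
      exact ⟨rfl, rfl⟩

theorem insW_head {S : Set Site} {W : List (Site × List Site)} (h : ∀ p ∈ W, p.1 ∉ S) :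
    ∀ y, (insW W).head? = some y → y ∉ S := by
  intro y hy
  cases W with
  | nil => simp [insW] at hy
  | cons p W =>
    have : some p.1 = some y := hy
    rw [Option.some.injEq] at this
    subst this
    exact h p List.mem_cons_self

theorem insW_inj {S : Set Site} : ∀ (W W' : List (Site × List Site)),
    (∀ p ∈ W, p.1 ∉ S) → (∀ p ∈ W, ∀ x ∈ p.2, x ∈ S) →
    (∀ p ∈ W', p.1 ∉ S) → (∀ p ∈ W', ∀ x ∈ p.2, x ∈ S) →
    insW W = insW W' → W = W' := by
  intro W
  induction W with
  | nil =>
    intro W' _ _ _ _ h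
    cases W' with
    | nil => rfl
    | cons p W' =>
      exfalso
      have : ([] : List Site) = p.1 :: (p.2.flatMap (fun x => [x, p.1]) ++ insW W') := h
      exact List.cons_ne_nil _ _ this.symm
  | cons p W ih =>
    intro W' h1 h2 h3 h4 h
    cases W' with
    | nil =>
      exfalso
      have : (p.1 :: (p.2.flatMap (fun x => [x, p.1]) ++ insW W) : List Site) = [] := h
      exact List.cons_ne_nil _ _ this
    | cons q W' =>
      have h5 : (p.1 :: (p.2.flatMap (fun x => [x, p.1]) ++ insW W) : List Site) =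
        q.1 :: (q.2.flatMap (fun x => [x, q.1]) ++ insW W') := h
      rw [List.cons.injEq] at h5
      obtain ⟨h6, h7⟩ := h5
      rw [← h6] at h7
      obtain ⟨h8, h9⟩ := word_inj (S := S) p.1 p.2 q.2 (insW W) (insW W')
        (h2 p List.mem_cons_self) (h4 q List.mem_cons_self)
        (insW_head fun r hr => h1 r (List.mem_cons_of_mem _ hr))
        (insW_head fun r hr => h3 r (List.mem_cons_of_mem _ hr)) h7
      rw [ih W' (fun r hr => h1 r (List.mem_cons_of_mem _ hr))
        (fun r hr => h2 r (List.mem_cons_of_mem _ hr))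
        (fun r hr => h3 r (List.mem_cons_of_mem _ hr))
        (fun r hr => h4 r (List.mem_cons_of_mem _ hr)) h9, Prod.ext h6 h8]

open Classical in
/-- the set of inserted sites -/
noncomputable def sites (W : List (Site × List Site)) : Finset Site :=
  ((allLets W).map Prod.snd).toFinset

theorem mem_sites {W : List (Site × List Site)} {x : Site} :
    x ∈ sites W ↔ ∃ p ∈ W, x ∈ p.2 := by
  unfold sites
  rw [Multiset.mem_toFinset, Multiset.mem_map]
  constructor
  · rintro ⟨e, he, rfl⟩
    obtain ⟨p, hp, _, h⟩ := mem_allLets.1 he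
    exact ⟨p, hp, h⟩
  · rintro ⟨p, hp, h⟩
    exact ⟨(p.1, x), mem_allLets.2 ⟨p, hp, rfl, h⟩, rfl⟩

open Classical in
/-- weight of a chain with a marked set of inserted sites -/
noncomputable def FF (β lam : ℝ) (X : Set Site) (w : Site → ℕ → ℝ≥0∞) (l' : List Site)
    (S : Finset Site) : ℝ≥0∞ :=
  if S ⊆ l'.toFinset ∧ (S : Set Site) ⊆ X then
    (∏ x ∈ S, gl β lam (l'.count x)) * ∏ x ∈ l'.toFinset \ S, w x (l'.count x) else 0

open Classical in
theorem sum_FF {β lam : ℝ} (hβ : 0 ≤ β) (hl : lam < 4) {X : Set Site} {w : Site → ℕ → ℝ≥0∞}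
    (hw : ∀ y ∈ X, ∀ n, w y n = gw β lam n) (l' : List Site) :
    ∑' S : Finset Site, FF β lam X w l' S ≤
      Wt (fun x n => if x ∈ X then fw lam n else w x n) l' := by
  have h1 : Wt (fun x n => if x ∈ X then fw lam n else w x n) l' =
      ∏ x ∈ l'.toFinset, ((if x ∈ X then gl β lam (l'.count x) else 0) + w x (l'.count x)) := by
    unfold Wt
    refine Finset.prod_congr rfl fun x hx => ?_
    change (if x ∈ X then fw lam (l'.count x) else w x (l'.count x)) = _
    by_cases hX : x ∈ X
    · rw [if_pos hX, if_pos hX, hw x hX]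
      exact fw_eq hβ hl (List.count_pos_iff.2 (List.mem_toFinset.1 hx)).ne'
    · rw [if_neg hX, if_neg hX, zero_add]
  rw [h1, Finset.prod_add, tsum_eq_sum (s := l'.toFinset.powerset)]
  · refine Finset.sum_le_sum fun S hS => ?_
    unfold FF
    split_ifs with h
    · refine mul_le_mul_left (le_of_eq ?_) _
      refine Finset.prod_congr rfl fun x hx => ?_
      rw [if_pos (h.2 hx)]
    · exact bot_le
  · intro S hS
    unfold FF
    rw [if_neg]
    rintro ⟨h, _⟩
    exact hS (Finset.mem_powerset.2 h)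

theorem gW_eq {β lam : ℝ} {Y X : Set Site} {w : Site → ℕ → ℝ≥0∞} {W : List (Site × List Site)}
    (hW : Valid Y X W) :
    gW β lam w (W.map Prod.fst) (allLets W) = FF β lam X w (insW W) (sites W) := by
  classical
  have hc : ∀ x, (insW W).count x = (W.map Prod.fst).count x +
      ((allLets W).map Prod.snd).count x + ((allLets W).map Prod.fst).count x := by
    intro x
    have h0 := congrArg (Multiset.count x) (insW_coe W)
    rw [Multiset.count_add, Multiset.count_add, Multiset.coe_count, Multiset.coe_count] at h0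
    have e1 : ∀ L : List Site, @List.count Site instBEqOfDecidableEq x L = L.count x := by
      intro L
      congr 1
      exact lawful_beq_subsingleton _ _
    rw [e1, e1] at h0
    exact h0
  have hs1 : ∀ x ∈ sites W, x ∈ X ∧ x ∉ W.map Prod.fst := by
    intro x hx
    obtain ⟨p, hp, hxp⟩ := mem_sites.1 hx
    exact ⟨(hW p hp x hxp).2.1, (hW p hp x hxp).2.2.1⟩
  have hf1 : ∀ x, x ∉ W.map Prod.fst → ((allLets W).map Prod.fst).count x = 0 := by
    intro x hx
    rw [Multiset.count_eq_zero]
    intro h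
    obtain ⟨e, he, rfl⟩ := Multiset.mem_map.1 h
    obtain ⟨p, hp, h1, _⟩ := mem_allLets.1 he
    exact hx (List.mem_map.2 ⟨p, hp, h1.symm⟩)
  have hmem : ∀ x, x ∈ insW W ↔ x ∈ W.map Prod.fst ∨ x ∈ sites W := by
    intro x
    rw [← Multiset.mem_coe, insW_coe, Multiset.mem_add, Multiset.mem_add, Multiset.mem_coe]
    unfold sites
    rw [Multiset.mem_toFinset]
    constructor
    · rintro ((h | h) | h)
      · exact Or.inl h
      · exact Or.inr h
      · obtain ⟨e, he, rfl⟩ := Multiset.mem_map.1 h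
        obtain ⟨p, hp, h1, _⟩ := mem_allLets.1 he
        exact Or.inl (List.mem_map.2 ⟨p, hp, h1.symm⟩)
    · rintro (h | h)
      · exact Or.inl (Or.inl h)
      · exact Or.inl (Or.inr h)
  unfold FF
  rw [if_pos]
  · unfold gW
    congr 1
    · refine Finset.prod_congr rfl fun x hx => ?_
      have hx' : x ∈ sites W := hx
      rw [hc x, hf1 x (hs1 x hx').2, List.count_eq_zero_of_not_mem (hs1 x hx').2, zero_add, add_zero]
    · have hset : (insW W).toFinset \ sites W = (W.map Prod.fst).toFinset := by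
        ext x
        rw [Finset.mem_sdiff, List.mem_toFinset, List.mem_toFinset, hmem]
        constructor
        · rintro ⟨h | h, h'⟩
          · exact h
          · exact absurd h h'
        · intro h
          exact ⟨Or.inl h, fun h' => (hs1 x h').2 h⟩
      rw [hset]
      refine Finset.prod_congr rfl fun x hx => ?_
      rw [hc x]
      have h0 : ((allLets W).map Prod.snd).count x = 0 := by
        rw [Multiset.count_eq_zero]
        intro h
        have hx' : x ∈ sites W := by
          unfold sites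
          rw [Multiset.mem_toFinset]
          exact h
        exact (hs1 x hx').2 (List.mem_toFinset.1 hx)
      rw [h0, add_zero]
  · refine ⟨fun x hx => ?_, fun x hx => (hs1 x hx).1⟩
    rw [List.mem_toFinset, hmem]
    exact Or.inr hx

open Classical in
theorem per_chain {β lam : ℝ} (hβ : 20 ≤ β) (h0 : 0 ≤ lam) (h1 : lam ≤ 1) {Y X : Set Site}
    {w : Site → ℕ → ℝ≥0∞} (hw : ∀ y ∈ Y, ∀ n, w y n = gw β lam n) (l : List Site) :
    Wt w l * ENNReal.ofReal (Real.exp (β / 5 * hE Y X l)) ≤
      ∑' W : {W : List (Site × List Site) // W.map Prod.fst = l},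
        if Valid Y X W.1 then gW β lam w l (allLets W.1) else 0 := by
  set E0 : Finset (Site × Site) := ((l.toFinset.filter (· ∈ Y)) ×ˢ units |>.filter
    (fun p => p.1 + p.2 ∈ X ∧ p.1 + p.2 ∉ l)) with hE0
  set H : Finset Site := E0.image (fun p => p.1 + p.2) with hH
  set T : Site → Finset Site := fun x => l.toFinset.filter (fun i => i ∈ Y ∧ Adj i x) with hTd
  have hHm : ∀ x ∈ H, x ∈ X ∧ x ∉ l := by
    intro x hx
    obtain ⟨p, hp, rfl⟩ := Finset.mem_image.1 hx
    exact (Finset.mem_filter.1 hp).2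
  have hfib : ∀ x ∈ H, (E0.filter (fun p => p.1 + p.2 = x)).card = (T x).card := by
    intro x hx
    refine Finset.card_nbij' (fun p => p.1) (fun i => (i, x - i)) ?_ ?_ ?_ ?_
    · intro p hp
      rw [Finset.mem_coe, Finset.mem_filter] at hp
      obtain ⟨hp, rfl⟩ := hp
      rw [hE0, Finset.mem_filter, Finset.mem_product, Finset.mem_filter] at hp
      rw [Finset.mem_coe, hTd, Finset.mem_filter]
      refine ⟨hp.1.1.1, hp.1.1.2, ?_⟩
      change p.1 + p.2 - p.1 ∈ units
      rw [add_sub_cancel_left]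
      exact hp.1.2
    · intro i hi
      rw [Finset.mem_coe, hTd, Finset.mem_filter] at hi
      rw [Finset.mem_coe, Finset.mem_filter, hE0, Finset.mem_filter, Finset.mem_product,
        Finset.mem_filter]
      have e : i + (x - i) = x := by abel
      refine ⟨⟨⟨⟨hi.1, hi.2.1⟩, hi.2.2⟩, ?_⟩, e⟩
      change i + (x - i) ∈ X ∧ i + (x - i) ∉ l
      rw [e]
      exact hHm x hx
    · intro p hp
      rw [Finset.mem_coe, Finset.mem_filter] at hp
      obtain ⟨hp, rfl⟩ := hp
      change (p.1, p.1 + p.2 - p.1) = p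
      rw [add_sub_cancel_left]
    · intro i hi
      rfl
  have hcard : hE Y X l = ∑ x ∈ H, (T x).card := by
    change E0.card = _
    rw [Finset.card_eq_sum_card_image (fun p : Site × Site => p.1 + p.2) E0]
    exact Finset.sum_congr rfl hfib
  have hexp : ENNReal.ofReal (Real.exp (β / 5 * hE Y X l)) =
      ∏ x ∈ H, ENNReal.ofReal (Real.exp (β / 5 * (T x).card)) := by
    rw [← ENNReal.ofReal_prod_of_nonneg (fun _ _ => (Real.exp_pos _).le), ← Real.exp_sum,
      ← Finset.mul_sum, hcard]
    push_cast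
    rfl
  rw [hexp]
  have hmain := fixed (H := H) (T := T) hβ h0 h1 hw l ?_ ?_ ?_
  · refine hmain.trans ((Z_le l _).trans (ENNReal.tsum_le_tsum fun W => ?_))
    split_ifs with h2 h3 h3
    · exact le_rfl
    · exfalso
      apply h3
      intro p hp x hx
      have h4 := h2 (p.1, x) (mem_allLets.2 ⟨p, hp, rfl, hx⟩)
      have h5 := (Finset.mem_filter.1 h4.2).2
      refine ⟨h5.1, (hHm x h4.1).1, ?_, h5.2⟩
      rw [W.2]
      exact (hHm x h4.1).2
    · exact bot_le
    · exact le_rfl
  · intro x _ i hi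
    have h2 := Finset.mem_filter.1 hi
    exact ⟨List.mem_toFinset.1 h2.1, h2.2.1⟩
  · intro x hx
    rw [← hfib x hx]
    obtain ⟨p, hp, hpx⟩ := Finset.mem_image.1 hx
    exact Finset.card_pos.2 ⟨p, Finset.mem_filter.2 ⟨hp, hpx⟩⟩
  · intro x _
    have h2 : T x ⊆ units.image (fun e => x - e) := by
      intro i hi
      have h3 : x - i ∈ units := (Finset.mem_filter.1 hi).2.2
      refine Finset.mem_image.2 ⟨x - i, h3, by abel⟩
    exact (Finset.card_le_card h2).trans (Finset.card_image_le.trans (by decide))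

end InsA

open InsA

open Classical in
theorem ins_sum : ∃ β₁ : ℝ, 1 ≤ β₁ ∧ ∀ β : ℝ, β₁ ≤ β → ∀ lam : ℝ, 0 ≤ lam → lam ≤ 1 →
    ∀ Y X : Set Site, X ⊆ Y → ∀ w : Site → ℕ → ℝ≥0∞, (∀ y ∈ Y, ∀ n, w y n = gw β lam n) →
      ∀ A : Set (List Site),
        ∑' l : A, Wt w l * ENNReal.ofReal (Real.exp (β / 5 * hE Y X (l : List Site)))
          ≤ ∑' l : Ins Y X A, Wt (fun x n => if x ∈ X then fw lam n else w x n) l := by
  refine ⟨20, by norm_num, fun β hβ lam h0 h1 Y X hXY w hw A => ?_⟩
  refine (ENNReal.tsum_le_tsum fun l : A => per_chain (X := X) hβ h0 h1 hw l).trans ?_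
  rw [← ENNReal.tsum_sigma (fun (l : A) (W : {W : List (Site × List Site) //
    W.map Prod.fst = (l : List Site)}) =>
      if Valid Y X W.1 then gW β lam w l (allLets W.1) else 0)]
  set h : (Σ l : A, {W : List (Site × List Site) // W.map Prod.fst = (l : List Site)}) → ℝ≥0∞ :=
    fun q => if Valid Y X q.2.1 then gW β lam w q.1 (allLets q.2.1) else 0 with hh
  rw [← tsum_subtype_eq_of_support_subset (f := h)
    (s := {q | Valid Y X q.2.1}) (by
      intro q hq
      by_contra hn
      apply hq
      rw [hh]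
      exact if_neg hn)]
  have hstep : ∀ l' : Ins Y X A, ∑' S : Finset Site, FF β lam X w l' S ≤
      Wt (fun x n => if x ∈ X then fw lam n else w x n) (l' : List Site) := fun l' =>
    sum_FF (by linarith) (by linarith) (fun y hy => hw y (hXY hy)) l'
  refine le_trans ?_ (ENNReal.tsum_le_tsum hstep)
  rw [← ENNReal.tsum_prod (f := fun (l' : Ins Y X A) (S : Finset Site) => FF β lam X w l' S)]
  let enc : {q : (Σ l : A, {W : List (Site × List Site) // W.map Prod.fst = (l : List Site)}) //
      q ∈ {q | Valid Y X q.2.1}} → (Ins Y X A) × Finset Site :=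
    fun q => (⟨insW q.1.2.1, q.1.2.1, by rw [q.1.2.2]; exact q.1.1.2, q.2, rfl⟩, sites q.1.2.1)
  have henc : Function.Injective enc := by
    rintro ⟨⟨⟨l, hl⟩, ⟨W, hW⟩⟩, hq⟩ ⟨⟨⟨l', hl'⟩, ⟨W', hW'⟩⟩, hq'⟩ he
    have he1 : insW W = insW W' := congrArg (fun r => (r.1 : List Site)) he
    have he2 : sites W = sites W' := congrArg Prod.snd he
    have hq1 : Valid Y X W := hq
    have hq2 : Valid Y X W' := hq'
    have key : W = W' := by
      refine insW_inj (S := (sites W : Set Site)) W W' ?_ ?_ ?_ ?_ he1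
      · intro p hp hpS
        obtain ⟨p', hp', hx⟩ := mem_sites.1 hpS
        exact (hq1 p' hp' p.1 hx).2.2.1 (List.mem_map.2 ⟨p, hp, rfl⟩)
      · intro p hp x hx
        exact mem_sites.2 ⟨p, hp, hx⟩
      · intro p hp hpS
        rw [he2] at hpS
        obtain ⟨p', hp', hx⟩ := mem_sites.1 hpS
        exact (hq2 p' hp' p.1 hx).2.2.1 (List.mem_map.2 ⟨p, hp, rfl⟩)
      · intro p hp x hx
        rw [he2]
        exact mem_sites.2 ⟨p, hp, hx⟩
    subst key
    have : l = l' := hW.symm.trans hW'
    subst this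
    rfl
  refine le_trans (le_of_eq (tsum_congr fun q => ?_)) (ENNReal.tsum_comp_le_tsum_of_injective henc
    (fun p : (Ins Y X A) × Finset Site => FF β lam X w p.1 p.2))
  obtain ⟨⟨⟨l, hl⟩, ⟨W, hW⟩⟩, hq⟩ := q
  have hq1 : Valid Y X W := hq
  change (if Valid Y X W then gW β lam w l (allLets W) else 0) = FF β lam X w (insW W) (sites W)
  rw [if_pos hq1, ← gW_eq hq1, hW]

end Pool.Agent.WSB71
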