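import Pool.Agent.LT.Classify
import Pool.Agent.WSB71.FMain
import Pool.Agent.WSB71.Fil
import Pool.Agent.WSB71.Ins

/-!
# AP0: the total number of boundary and hole edges has exponential tails

For a filled set `G ∋ 0` with `b` boundary edges and `q`: by `evt_le` with `lam = 0`,
`P(E_t, fil range = G, ≥ q hole edges) ≤ e^4 ∑ W β 0 l` over chains `l` in `G` with
`fil l.toFinset = G`; by `ins_sum` (`Y = G`, `X` = sites of `G` not adjacent to the complement;
inner boundary sites are visited by `adj_fil`) this is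
`≤ e^{4 - βq/5} ∑_{l' in G, visiting all inner boundary sites} Wt ŵ l'`,
and with `gw_le_tilt` (`κ/2` in place of `κ`) this is at most `e^{4 - βq/5 - βb/2}` times the sum
over all chains in `G` from `0` of `∏ (4 - κ_x/2)^{-N_x}`; it is `≤ (b+1)^2` by the supersolution
`(b+1)^2 - |x|^2/4`.  Sum over `G ∈ Fam 0 b` (`card_famF_le`).
-/

open MeasureTheory Filter Topology
open scoped NNReal ENNReal

namespace Pool.Agent.WSB71

open Pool.Agent.LT

/-! ## Sums over killed chains -/

/-- the chains in `G` from `x` with at most `n` sites -/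
def teCh (G : Finset Site) : ℕ → Site → Finset (List Site)
  | 0, _ => ∅
  | n + 1, x => if x ∈ G then
      insert [x] (units.biUnion fun e => (teCh G n (x + e)).image (List.cons x)) else ∅

lemma te_mem_ch (G : Finset Site) (n : ℕ) : ∀ (x : Site) (l : List Site), l.IsChain Adj →
    l.head? = some x → (∀ y ∈ l, y ∈ G) → l.length ≤ n → l ∈ teCh G n x := by
  induction n with
  | zero =>
    intro x l h1 h2 h3 h4
    have : l = [] := List.length_eq_zero_iff.1 (by omega)
    rw [this] at h2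
    simp at h2
  | succ n ih =>
    intro x l h1 h2 h3 h4
    cases l with
    | nil => simp at h2
    | cons a l =>
      simp only [List.head?_cons, Option.some.injEq] at h2
      subst h2
      have ha : a ∈ G := h3 a (by simp)
      rw [teCh, if_pos ha]
      cases l with
      | nil => simp
      | cons b l =>
        rw [List.isChain_cons_cons] at h1
        rw [Finset.mem_insert]
        right
        rw [Finset.mem_biUnion]
        refine ⟨b - a, h1.1, ?_⟩
        rw [Finset.mem_image]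
        refine ⟨b :: l, ?_, rfl⟩
        rw [add_sub_cancel]
        exact ih b (b :: l) h1.2 rfl (fun y hy => h3 y (List.mem_cons_of_mem _ hy))
          (by simpa using h4)

lemma te_sum_insert_le {α : Type*} [DecidableEq α] (a : α) (s : Finset α) (f : α → ℝ≥0∞) :
    ∑ x ∈ insert a s, f x ≤ f a + ∑ x ∈ s, f x := by
  by_cases h : a ∈ s
  · rw [Finset.insert_eq_of_mem h]; exact le_add_self
  · rw [Finset.sum_insert h]

lemma te_sum_biUnion_le {ι α : Type*} [DecidableEq ι] [DecidableEq α] (s : Finset ι)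
    (t : ι → Finset α) (f : α → ℝ≥0∞) :
    ∑ x ∈ s.biUnion t, f x ≤ ∑ i ∈ s, ∑ x ∈ t i, f x := by
  induction s using Finset.induction_on with
  | empty => simp
  | insert a s ha ih =>
    rw [Finset.biUnion_insert, Finset.sum_insert ha]
    refine le_trans ?_ (add_le_add le_rfl ih)
    rw [← Finset.sum_union_inter]
    exact le_self_add

lemma te_sum_ch (G : Finset Site) (r h : Site → ℝ≥0∞)
    (hh : ∀ x ∈ G, r x * (1 + ∑ e ∈ units, (if x + e ∈ G then h (x + e) else 0)) ≤ h x) (n : ℕ) :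
    ∀ x : Site, ∑ l ∈ teCh G n x, (l.map r).prod ≤ if x ∈ G then h x else 0 := by
  induction n with
  | zero => intro x; simp [teCh]
  | succ n ih =>
    intro x
    by_cases hx : x ∈ G
    · rw [teCh, if_pos hx, if_pos hx]
      refine (te_sum_insert_le _ _ _).trans ?_
      refine le_trans ?_ (hh x hx)
      rw [mul_add, mul_one]
      refine add_le_add (by simp) ?_
      refine (te_sum_biUnion_le _ _ _).trans ?_
      rw [Finset.mul_sum]
      refine Finset.sum_le_sum fun e _ => ?_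
      rw [Finset.sum_image (fun a _ b _ hab => by simpa using hab)]
      simp only [List.map_cons, List.prod_cons]
      rw [← Finset.mul_sum]
      exact mul_le_mul_right (ih (x + e)) _
    · rw [teCh, if_neg hx, if_neg hx]; simp

lemma te_tsum (G : Finset Site) (r h : Site → ℝ≥0∞)
    (hh : ∀ x ∈ G, r x * (1 + ∑ e ∈ units, (if x + e ∈ G then h (x + e) else 0)) ≤ h x)
    (S : Set (List Site)) (x : Site) (hS : ∀ l ∈ S, l.IsChain Adj ∧ l.head? = some x ∧
      ∀ y ∈ l, y ∈ G) :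
    ∑' l : S, ((l : List Site).map r).prod ≤ h x := by
  rw [ENNReal.tsum_eq_iSup_sum]
  refine iSup_le fun s => ?_
  have h1 : ∑ l ∈ s, ((l : List Site).map r).prod =
      ∑ l ∈ s.map (Function.Embedding.subtype _), (l.map r).prod := by
    rw [Finset.sum_map]; rfl
  rw [h1]
  have h2 : s.map (Function.Embedding.subtype _) ⊆
      teCh G ((s.map (Function.Embedding.subtype _)).sup List.length) x := by
    intro l hl
    have hl2 := hl
    rw [Finset.mem_map] at hl
    obtain ⟨⟨m, hm⟩, _, rfl⟩ := hl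
    obtain ⟨h3, h4, h5⟩ := hS m hm
    exact te_mem_ch G _ x _ h3 h4 h5 (Finset.le_sup (f := List.length) hl2)
  refine (Finset.sum_le_sum_of_subset h2).trans ((te_sum_ch G r h hh _ x).trans ?_)
  split_ifs
  · exact le_rfl
  · exact zero_le

/-! ## The size of a set with given boundary -/

lemma te_fst {G : Finset Site} (hc : ConnF (G : Set Site)) (h0 : (0 : Site) ∈ G) {x : Site}
    (hx : x ∈ G) : |x.1| ≤ ((bdry G).card : ℤ) := by
  have h1 : ∀ j : ℤ, (0 ≤ j ∧ j ≤ x.1) ∨ (x.1 ≤ j ∧ j ≤ 0) → j ∈ G.image Prod.fst := by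
    intro j hj
    by_contra hn
    have hn' : ∀ z ∈ G, z.1 ≠ j := by
      intro z hz hzj
      exact hn (Finset.mem_image.2 ⟨z, hz, hzj⟩)
    have h2 := hc (fun z => decide (z.1 < j)) (by
      intro p hp q hq hpq
      have hp' := hn' p hp
      have hq' := hn' q hq
      rw [decide_eq_decide]
      unfold Adj units at hpq
      simp only [Finset.mem_insert, Finset.mem_singleton, Prod.ext_iff, Prod.fst_sub,
        Prod.snd_sub] at hpq
      omega) x hx 0 h0
    rw [decide_eq_decide] at h2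
    have h3 := hn' x hx
    have h4 := hn' 0 h0
    simp only [Prod.fst_zero] at h2 h4
    omega
  have h2 : x.1.natAbs + 1 ≤ (G.image Prod.fst).card := by
    rcases le_total 0 x.1 with h | h
    · have h3 : (Finset.Icc 0 x.1) ⊆ G.image Prod.fst := by
        intro j hj
        rw [Finset.mem_Icc] at hj
        exact h1 j (Or.inl hj)
      have h4 := Finset.card_le_card h3
      rw [Int.card_Icc] at h4
      omega
    · have h3 : (Finset.Icc x.1 0) ⊆ G.image Prod.fst := by
        intro j hj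
        rw [Finset.mem_Icc] at hj
        exact h1 j (Or.inr hj)
      have h4 := Finset.card_le_card h3
      rw [Int.card_Icc] at h4
      omega
  have h3 := perim G
  rw [Int.abs_eq_natAbs]
  omega

lemma te_snd {G : Finset Site} (hc : ConnF (G : Set Site)) (h0 : (0 : Site) ∈ G) {x : Site}
    (hx : x ∈ G) : |x.2| ≤ ((bdry G).card : ℤ) := by
  have h1 : ∀ j : ℤ, (0 ≤ j ∧ j ≤ x.2) ∨ (x.2 ≤ j ∧ j ≤ 0) → j ∈ G.image Prod.snd := by
    intro j hj
    by_contra hn
    have hn' : ∀ z ∈ G, z.2 ≠ j := by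
      intro z hz hzj
      exact hn (Finset.mem_image.2 ⟨z, hz, hzj⟩)
    have h2 := hc (fun z => decide (z.2 < j)) (by
      intro p hp q hq hpq
      have hp' := hn' p hp
      have hq' := hn' q hq
      rw [decide_eq_decide]
      unfold Adj units at hpq
      simp only [Finset.mem_insert, Finset.mem_singleton, Prod.ext_iff, Prod.fst_sub,
        Prod.snd_sub] at hpq
      omega) x hx 0 h0
    rw [decide_eq_decide] at h2
    have h3 := hn' x hx
    have h4 := hn' 0 h0
    simp only [Prod.snd_zero] at h2 h4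
    omega
  have h2 : x.2.natAbs + 1 ≤ (G.image Prod.snd).card := by
    rcases le_total 0 x.2 with h | h
    · have h3 : (Finset.Icc 0 x.2) ⊆ G.image Prod.snd := by
        intro j hj
        rw [Finset.mem_Icc] at hj
        exact h1 j (Or.inl hj)
      have h4 := Finset.card_le_card h3
      rw [Int.card_Icc] at h4
      omega
    · have h3 : (Finset.Icc x.2 0) ⊆ G.image Prod.snd := by
        intro j hj
        rw [Finset.mem_Icc] at hj
        exact h1 j (Or.inr hj)
      have h4 := Finset.card_le_card h3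
      rw [Int.card_Icc] at h4
      omega
  have h3 := perim G
  rw [Int.abs_eq_natAbs]
  omega

/-! ## The supersolution -/

/-- the supersolution -/
noncomputable def teH (b : ℕ) (x : Site) : ℝ := ((b : ℝ) + 1) ^ 2 - ((x.1 : ℝ) ^ 2 + (x.2 : ℝ) ^ 2) / 4

/-- the killed step weight -/
noncomputable def teR (G : Finset Site) (x : Site) : ℝ≥0∞ :=
  ENNReal.ofReal ((4 - (0 + (kap G x : ℝ) / 2))⁻¹)

lemma teH_sum (b : ℕ) (x : Site) : ∑ e ∈ units, teH b (x + e) = 4 * teH b x - 1 := by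
  unfold units teH
  rw [Finset.sum_insert (by decide), Finset.sum_insert (by decide), Finset.sum_insert (by decide),
    Finset.sum_singleton]
  simp only [Prod.fst_add, Prod.snd_add]
  push_cast
  ring

lemma teH_le (b : ℕ) (x : Site) : teH b x ≤ ((b : ℝ) + 1) ^ 2 := by
  unfold teH
  have h1 := sq_nonneg (x.1 : ℝ)
  have h2 := sq_nonneg (x.2 : ℝ)
  linarith

lemma teH_ge {b : ℕ} {x : Site} (h1 : |x.1| ≤ (b : ℤ) + 1) (h2 : |x.2| ≤ (b : ℤ) + 1) :
    ((b : ℝ) + 1) ^ 2 / 2 ≤ teH b x := by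
  unfold teH
  have h3 : |(x.1 : ℝ)| ≤ (b : ℝ) + 1 := by exact_mod_cast h1
  have h4 : |(x.2 : ℝ)| ≤ (b : ℝ) + 1 := by exact_mod_cast h2
  have h5 : (x.1 : ℝ) ^ 2 ≤ ((b : ℝ) + 1) ^ 2 := sq_le_sq' (by linarith [(abs_le.1 h3).1]) (abs_le.1 h3).2
  have h6 : (x.2 : ℝ) ^ 2 ≤ ((b : ℝ) + 1) ^ 2 := sq_le_sq' (by linarith [(abs_le.1 h4).1]) (abs_le.1 h4).2
  linarith

lemma te_super {G : Finset Site} {b : ℕ} (hG : ∀ x ∈ G, |x.1| ≤ (b : ℤ) ∧ |x.2| ≤ (b : ℤ))
    (x : Site) (hx : x ∈ G) :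
    teR G x * (1 + ∑ e ∈ units, (if x + e ∈ G then ENNReal.ofReal (teH b (x + e)) else 0))
      ≤ ENNReal.ofReal (teH b x) := by
  have hk : (kap G x : ℝ) ≤ 4 := by exact_mod_cast kap_le G x
  have hpos : 0 < 4 - (0 + (kap G x : ℝ) / 2) := by linarith
  have hx1 := hG x hx
  have hnb : ∀ e ∈ units, ((b : ℝ) + 1) ^ 2 / 2 ≤ teH b (x + e) := by
    intro e he
    have h3 : |e.1| ≤ 1 ∧ |e.2| ≤ 1 := by
      unfold units at he
      simp only [Finset.mem_insert, Finset.mem_singleton] at he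
      rcases he with h | h | h | h <;> subst h <;> simp
    apply teH_ge
    · rw [Prod.fst_add]
      exact (abs_add_le _ _).trans (add_le_add hx1.1 h3.1)
    · rw [Prod.snd_add]
      exact (abs_add_le _ _).trans (add_le_add hx1.2 h3.2)
  have hH0 : ∀ e ∈ units, 0 ≤ teH b (x + e) := fun e he => le_trans (by positivity) (hnb e he)
  have h1 : (1 : ℝ≥0∞) + ∑ e ∈ units, (if x + e ∈ G then ENNReal.ofReal (teH b (x + e)) else 0)
      = ENNReal.ofReal (1 + ∑ e ∈ units, (if x + e ∈ G then teH b (x + e) else 0)) := by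
    rw [ENNReal.ofReal_add zero_le_one (Finset.sum_nonneg fun e he => by
      split_ifs
      · exact hH0 e he
      · exact le_rfl), ENNReal.ofReal_one, ENNReal.ofReal_sum_of_nonneg (fun e he => by
      split_ifs
      · exact hH0 e he
      · exact le_rfl)]
    congr 1
    refine Finset.sum_congr rfl fun e _ => ?_
    split_ifs
    · rfl
    · simp
  rw [h1, teR, ← ENNReal.ofReal_mul (inv_nonneg.2 hpos.le)]
  apply ENNReal.ofReal_le_ofReal
  rw [inv_mul_le_iff₀ hpos]
  have h2 : ∑ e ∈ units, (if x + e ∈ G then teH b (x + e) else 0) +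
      ∑ e ∈ units.filter (fun e => x + e ∉ G), teH b (x + e) = 4 * teH b x - 1 := by
    rw [← teH_sum, Finset.sum_filter, ← Finset.sum_add_distrib]
    refine Finset.sum_congr rfl fun e _ => ?_
    by_cases h : x + e ∈ G <;> simp [h]
  have h3 : (kap G x : ℝ) * (teH b x / 2) ≤
      ∑ e ∈ units.filter (fun e => x + e ∉ G), teH b (x + e) := by
    unfold kap
    rw [← nsmul_eq_mul]
    apply Finset.card_nsmul_le_sum
    intro e he
    have := hnb e (Finset.mem_filter.1 he).1
    have h5 := teH_le b x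
    linarith
  nlinarith

/-! ## The weight of a chain after insertions -/

open Classical in
lemma te_weight {β : ℝ} (hβ : 0 ≤ β) {G : Finset Site} {X : Set Site}
    (hX : ∀ x ∈ X, kap G x = 0) {l : List Site} (hl : ∀ y ∈ l, y ∈ G)
    (hv : ∀ y ∈ G, kap G y ≠ 0 → y ∈ l) :
    Wt (fun x n => if x ∈ X then fw 0 n else gw β 0 n) l ≤
      ENNReal.ofReal (Real.exp (-(β * (bdry G).card / 2))) * (l.map (teR G)).prod := by
  have h1 : ∀ x ∈ l.toFinset, (if x ∈ X then fw 0 (l.count x) else gw β 0 (l.count x)) ≤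
      ENNReal.ofReal (Real.exp (-((kap G x : ℝ) / 2 * β))) * teR G x ^ (l.count x) := by
    intro x hx
    have hk : (kap G x : ℝ) ≤ 4 := by exact_mod_cast kap_le G x
    split_ifs with h
    · have h0 := hX x h
      unfold teR fw
      rw [h0]
      simp
    · have h2 := gw_le_tilt (β := β) (lam := 0) (κ := (kap G x : ℝ) / 2) hβ (by positivity)
        (by linarith) (n := l.count x) (List.count_pos_iff.2 (List.mem_toFinset.1 hx))
      exact h2
  unfold Wt
  refine (Finset.prod_le_prod' h1).trans ?_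
  rw [Finset.prod_mul_distrib, Finset.prod_list_map_count]
  refine mul_le_mul' ?_ (le_of_eq (by congr!))
  rw [← ENNReal.ofReal_prod_of_nonneg (fun x _ => (Real.exp_pos _).le), ← Real.exp_sum]
  apply ENNReal.ofReal_le_ofReal
  apply Real.exp_le_exp.2
  have h2 : ∑ x ∈ l.toFinset, (kap G x : ℝ) = (bsize G : ℝ) := by
    unfold bsize
    rw [Nat.cast_sum]
    apply Finset.sum_subset (fun x hx => hl x (List.mem_toFinset.1 hx))
    intro x hx hxl
    by_contra hne
    exact hxl (List.mem_toFinset.2 (hv x hx (by simpa using hne)))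
  have h3 : ((bdry G).card : ℝ) ≤ (bsize G : ℝ) := by exact_mod_cast card_bdry_le G
  have h4 : ∑ x ∈ l.toFinset, -((kap G x : ℝ) / 2 * β) = -(β * (bsize G : ℝ) / 2) := by
    rw [← h2, Finset.sum_neg_distrib, neg_inj, Finset.mul_sum, Finset.sum_div]
    refine Finset.sum_congr rfl fun x _ => ?_
    ring
  rw [h4]
  have := mul_le_mul_of_nonneg_left h3 hβ
  linarith

/-! ## Insertions keep chains -/

lemma te_trip {a : Site} : ∀ (w : List Site), (∀ x ∈ w, Adj a x) → ∀ (m : List Site),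
    (a :: m).IsChain Adj → (a :: (w.flatMap (fun x => [x, a]) ++ m)).IsChain Adj := by
  intro w
  induction w with
  | nil => intro _ m h; simpa using h
  | cons x w ih =>
    intro hw m h
    have h1 := ih (fun y hy => hw y (List.mem_cons_of_mem _ hy)) m h
    have h2 : Adj a x := hw x (by simp)
    simp only [List.flatMap_cons, List.cons_append, List.nil_append]
    rw [List.isChain_cons_cons, List.isChain_cons_cons]
    exact ⟨h2, h2.symm, h1⟩

lemma te_insW_chain : ∀ (l : List (Site × List Site)), (l.map Prod.fst).IsChain Adj →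
    (∀ p ∈ l, ∀ x ∈ p.2, Adj p.1 x) → (insW l).IsChain Adj ∧
      (insW l).head? = (l.map Prod.fst).head? := by
  intro l
  induction l with
  | nil => intro _ _; simp [insW]
  | cons p l ih =>
    intro h1 h2
    have h3 : (insW (p :: l)) = p.1 :: (p.2.flatMap (fun x => [x, p.1]) ++ insW l) := by
      simp [insW]
    refine ⟨?_, by rw [h3]; simp⟩
    rw [h3]
    apply te_trip _ (h2 p (by simp))
    have h4 := ih (List.IsChain.tail (l := (p :: l).map Prod.fst) h1) (fun q hq => h2 q (List.mem_cons_of_mem _ hq))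
    rw [List.isChain_cons]
    refine ⟨?_, h4.1⟩
    intro y hy
    rw [h4.2] at hy
    rw [List.map_cons, List.isChain_cons] at h1
    exact h1.1 y hy

lemma te_insW_mem {l : List (Site × List Site)} {y : Site} :
    y ∈ insW l ↔ ∃ p ∈ l, y = p.1 ∨ y ∈ p.2 := by
  unfold insW
  simp only [List.mem_flatMap, List.mem_cons, List.not_mem_nil, or_false]
  constructor
  · rintro ⟨p, hp, h | ⟨x, hx, h | h⟩⟩
    · exact ⟨p, hp, Or.inl h⟩
    · exact ⟨p, hp, Or.inr (h ▸ hx)⟩
    · exact ⟨p, hp, Or.inl h⟩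
  · rintro ⟨p, hp, h | h⟩
    · exact ⟨p, hp, Or.inl h⟩
    · exact ⟨p, hp, Or.inr ⟨y, h, Or.inl rfl⟩⟩

/-! ## One filled set -/

/-- the chains with filled set `G` and at least `q` hole edges -/
def teS (G : Finset Site) (q : ℕ) : Set (List Site) :=
  {l | fil l.toFinset = G ∧ q ≤ (holeE l.toFinset).card}

open Classical in
lemma te_holeE_le {G : Finset Site} {Y X : Set Site} (hY : ∀ x, x ∈ Y ↔ x ∈ G)
    (hX : ∀ x, x ∈ X ↔ x ∈ G ∧ kap G x = 0) {l : List Site} (hl : fil l.toFinset = G) :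
    (holeE l.toFinset).card ≤ hE Y X l := by
  unfold hE
  apply Finset.card_le_card_of_injOn (fun p : Site × Site => (p.1, p.2 - p.1))
  · rintro ⟨x, y⟩ hp
    unfold holeE at hp
    rw [Finset.mem_coe, Finset.mem_filter, Finset.mem_product, Finset.mem_sdiff, hl] at hp
    obtain ⟨⟨hx, hy, hyl⟩, hxy⟩ := hp
    simp only at hx hy hyl hxy
    rw [Finset.mem_coe, Finset.mem_filter, Finset.mem_product, Finset.mem_filter]
    have e1 : x + (y - x) = y := by abel
    refine ⟨⟨⟨hx, ?_⟩, hxy⟩, ?_⟩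
    · have := subset_fil _ hx
      rw [hl] at this
      exact (hY _).2 this
    · simp only
      rw [e1, hX]
      refine ⟨⟨hy, ?_⟩, fun h => hyl (List.mem_toFinset.2 h)⟩
      by_contra hk
      obtain ⟨z, hyz, hz⟩ := kap_ne hk
      apply hyl
      rw [← hl] at hy hz
      exact adj_fil hy hz hyz
  · rintro ⟨x, y⟩ _ ⟨x', y'⟩ _ h
    simp only [Prod.mk.injEq] at h
    obtain ⟨rfl, h2⟩ := h
    have : y = y' := by
      have := congrArg (fun z => z + x) h2
      simpa using this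
    rw [this]

open Classical in
lemma te_G {β₁ : ℝ} (hins : ∀ β : ℝ, β₁ ≤ β → ∀ lam : ℝ, 0 ≤ lam → lam ≤ 1 →
    ∀ Y X : Set Site, X ⊆ Y → ∀ w : Site → ℕ → ℝ≥0∞, (∀ y ∈ Y, ∀ n, w y n = gw β lam n) →
      ∀ A : Set (List Site),
        ∑' l : A, Wt w l * ENNReal.ofReal (Real.exp (β / 5 * hE Y X (l : List Site)))
          ≤ ∑' l : Ins Y X A, Wt (fun x n => if x ∈ X then fw lam n else w x n) l)
    {β : ℝ} (hβ1 : β₁ ≤ β) (hβ : 0 ≤ β) {μ : Measure WP} (hμ : IsLaw μ) (t : ℝ≥0) {b : ℕ}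
    {G : Finset Site} (hG : G ∈ Fam 0 b) (q : ℕ) :
    μ {f : WP | f ∈ evtE β t ∧ chainOf t f ∈ teS G q} ≤
      ENNReal.ofReal (Real.exp 4 * (Real.exp (-(β / 5 * q)) *
        (Real.exp (-(β * b / 2)) * ((b : ℝ) + 1) ^ 2))) := by
  obtain ⟨h0, hc, hcc, hb⟩ := hG
  obtain ⟨Y, hY⟩ : ∃ Y : Set Site, ∀ x, x ∈ Y ↔ x ∈ G := ⟨G, fun x => Iff.rfl⟩
  obtain ⟨X, hX⟩ : ∃ X : Set Site, ∀ x, x ∈ X ↔ x ∈ G ∧ kap G x = 0 :=
    ⟨{x | x ∈ G ∧ kap G x = 0}, fun x => Iff.rfl⟩
  set A : Set (List Site) := {l : List Site | l ∈ teS G q ∧ l.IsChain Adj ∧ l.head? = some 0}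
    with hA
  have h1 := evt_le hμ (β := β) (lam := 0) hβ le_rfl (by norm_num) t (teS G q)
  refine h1.trans ?_
  have h2 := hins β hβ1 0 le_rfl zero_le_one Y X (fun x hx => (hY x).2 ((hX x).1 hx).1)
    (fun _ n => gw β 0 n) (fun y _ n => rfl) A
  -- the left side of the insertion lemma
  have h3 : ∑' l : A, W β 0 (l : List Site) ≤ ENNReal.ofReal (Real.exp (-(β / 5 * q))) *
      ∑' l : A, Wt (fun _ n => gw β 0 n) l *
        ENNReal.ofReal (Real.exp (β / 5 * hE Y X (l : List Site))) := by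
    rw [← ENNReal.tsum_mul_left]
    refine ENNReal.tsum_le_tsum fun l => ?_
    obtain ⟨l, hl, _, _⟩ := l
    have h4 : (q : ℝ) ≤ hE Y X l := by exact_mod_cast hl.2.trans (te_holeE_le hY hX hl.1)
    have h5 : (1 : ℝ≥0∞) ≤ ENNReal.ofReal (Real.exp (-(β / 5 * q))) *
        ENNReal.ofReal (Real.exp (β / 5 * hE Y X l)) := by
      rw [← ENNReal.ofReal_mul (Real.exp_pos _).le, ← Real.exp_add, ENNReal.one_le_ofReal,
        Real.one_le_exp_iff]
      have := mul_le_mul_of_nonneg_left h4 (show 0 ≤ β / 5 by positivity)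
      linarith
    calc W β 0 l = 1 * Wt (fun _ n => gw β 0 n) l := by rw [one_mul]; rfl
      _ ≤ _ := mul_le_mul' h5 le_rfl
      _ = _ := by ring
  -- the right side
  have h4 : ∑' l : Ins Y X A, Wt (fun x n => if x ∈ X then fw 0 n else gw β 0 n) l
      ≤ ENNReal.ofReal (Real.exp (-(β * b / 2))) * ENNReal.ofReal (((b : ℝ) + 1) ^ 2) := by
    have hIns : ∀ l ∈ Ins Y X A, (l.IsChain Adj ∧ l.head? = some 0 ∧
        ∀ y ∈ l, y ∈ G) ∧ ∀ y ∈ G, kap G y ≠ 0 → y ∈ l := by
      rintro l ⟨m, ⟨⟨hm1, hm2⟩, hm3, hm4⟩, hm5, rfl⟩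
      have h5 := te_insW_chain m hm3 (fun p hp x hx => (hm5 p hp x hx).2.2.2)
      refine ⟨⟨h5.1, by rw [h5.2, hm4], ?_⟩, ?_⟩
      · intro y hy
        obtain ⟨p, hp, h | h⟩ := te_insW_mem.1 hy
        · subst h
          rw [← hm1]
          exact subset_fil _ (List.mem_toFinset.2 (List.mem_map_of_mem hp))
        · exact ((hX y).1 (hm5 p hp y h).2.1).1
      · intro y hy hk
        obtain ⟨z, hyz, hz⟩ := kap_ne hk
        have h6 : y ∈ (m.map Prod.fst).toFinset := by
          rw [← hm1] at hy hz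
          exact adj_fil hy hz hyz
        rw [List.mem_toFinset, List.mem_map] at h6
        obtain ⟨p, hp, hpy⟩ := h6
        exact te_insW_mem.2 ⟨p, hp, Or.inl hpy.symm⟩
    have h5 : ∀ l : Ins Y X A,
        Wt (fun x n => if x ∈ X then fw 0 n else gw β 0 n) (l : List Site) ≤
          ENNReal.ofReal (Real.exp (-(β * b / 2))) * ((l : List Site).map (teR G)).prod := by
      intro l
      have h6 := hIns l l.2
      have h7 := te_weight hβ (G := G) (X := X) (fun x hx => ((hX x).1 hx).2) h6.1.2.2 h6.2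
      rw [hb] at h7
      exact h7
    refine (ENNReal.tsum_le_tsum h5).trans ?_
    rw [ENNReal.tsum_mul_left]
    refine mul_le_mul' le_rfl ?_
    have h6 := te_tsum G (teR G) (fun x => ENNReal.ofReal (teH b x))
      (te_super (b := b) (fun x hx => ⟨by have := te_fst hc h0 hx; rwa [hb] at this,
        by have := te_snd hc h0 hx; rwa [hb] at this⟩)) (Ins Y X A) 0
      (fun l hl => (hIns l hl).1)
    exact h6.trans (ENNReal.ofReal_le_ofReal (teH_le b 0))
  calc ENNReal.ofReal (Real.exp (4 - 0 * t)) *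
        ∑' l : {l : List Site // l ∈ teS G q ∧ l.IsChain Adj ∧ l.head? = some 0}, W β 0 l
      ≤ ENNReal.ofReal (Real.exp 4) * (ENNReal.ofReal (Real.exp (-(β / 5 * q))) *
        (ENNReal.ofReal (Real.exp (-(β * b / 2))) * ENNReal.ofReal (((b : ℝ) + 1) ^ 2))) := by
        rw [zero_mul, sub_zero]
        refine mul_le_mul' le_rfl ?_
        refine le_trans (le_of_eq ?_) (h3.trans (mul_le_mul' le_rfl (h2.trans h4)))
        rfl
    _ = _ := by
        rw [← ENNReal.ofReal_mul (Real.exp_pos _).le, ← ENNReal.ofReal_mul (Real.exp_pos _).le,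
          ← ENNReal.ofReal_mul (Real.exp_pos _).le]

/-! ## The result -/

theorem total_edges : ∃ β₀ C : ℝ, 1 ≤ β₀ ∧ 0 < C ∧ ∀ β : ℝ, β₀ ≤ β → ∀ μ : Measure WP, IsLaw μ →
    ∀ t : ℝ≥0, ∀ ℓ : ℕ,
      μ {f : WP | f ∈ evtE β t ∧
        ℓ ≤ (bdry (fil (rangeF t f))).card + (holeE (rangeF t f)).card}
        ≤ ENNReal.ofReal (C * Real.exp (-(ℓ : ℝ))) := by
  classical
  obtain ⟨β₁, hβ₁, hins⟩ := ins_sum
  refine ⟨max β₁ 50, 2 * Real.exp 4, le_max_of_le_left hβ₁, by positivity, ?_⟩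
  intro β hβ μ hμ t ℓ
  have hβ1 : β₁ ≤ β := (le_max_left _ _).trans hβ
  have hβ50 : 50 ≤ β := (le_max_right _ _).trans hβ
  have hβ0 : 0 ≤ β := by linarith
  have hnull : μ {f : WP | f.1 0 ≠ 0} = 0 := hμ.start
  have hsub : {f : WP | f ∈ evtE β t ∧
      ℓ ≤ (bdry (fil (rangeF t f))).card + (holeE (rangeF t f)).card} ⊆
      {f : WP | f.1 0 ≠ 0} ∪ ⋃ b : ℕ, ⋃ G ∈ famF 0 b,
        {f : WP | f ∈ evtE β t ∧ chainOf t f ∈ teS G (ℓ - b)} := by
    rintro f ⟨hf1, hf2⟩
    by_cases hf0 : f.1 0 = 0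
    · right
      rw [Set.mem_iUnion]
      refine ⟨(bdry (fil (rangeF t f))).card, ?_⟩
      simp only [Set.mem_iUnion]
      refine ⟨fil (rangeF t f), mem_famF.2 ⟨subset_fil _ (mem_rangeF.2 ⟨0, zero_le, hf0⟩),
        fil_conn (connF_rangeF t f), fil_compl_conn _, rfl⟩, hf1, ?_⟩
      unfold teS
      rw [Set.mem_ofPred_eq, chainOf_toFinset]
      exact ⟨rfl, by omega⟩
    · left; exact hf0
  refine (measure_mono hsub).trans ((measure_union_le _ _).trans ?_)
  rw [hnull, zero_add]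
  refine (measure_iUnion_le _).trans ?_
  have hterm : ∀ b : ℕ, μ (⋃ G ∈ famF 0 b,
      {f : WP | f ∈ evtE β t ∧ chainOf t f ∈ teS G (ℓ - b)}) ≤
      ENNReal.ofReal (Real.exp 4 * Real.exp (-(ℓ : ℝ))) * (2⁻¹ : ℝ≥0∞) ^ b := by
    intro b
    refine (measure_biUnion_finset_le _ _).trans ?_
    refine (Finset.sum_le_card_nsmul _ _ _ (fun G hG =>
      te_G hins hβ1 hβ0 hμ t (mem_famF.1 hG) (ℓ - b))).trans ?_
    rw [nsmul_eq_mul]
    have h1 : ((famF 0 b).card : ℝ≥0∞) ≤ ENNReal.ofReal ((b : ℝ) * 64 ^ b) := by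
      have := card_famF_le 0 b
      calc ((famF 0 b).card : ℝ≥0∞) ≤ ((b * 64 ^ b : ℕ) : ℝ≥0∞) := by exact_mod_cast this
        _ = _ := by
          rw [← ENNReal.ofReal_natCast]
          push_cast
          rfl
    refine (mul_le_mul' h1 le_rfl).trans ?_
    have h2 : (2⁻¹ : ℝ≥0∞) ^ b = ENNReal.ofReal ((1 / 2 : ℝ) ^ b) := by
      rw [ENNReal.ofReal_pow (by norm_num)]
      congr 1
      rw [one_div, ENNReal.ofReal_inv_of_pos (by norm_num)]
      simp
    rw [h2, ← ENNReal.ofReal_mul (by positivity), ← ENNReal.ofReal_mul (by positivity)]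
    apply ENNReal.ofReal_le_ofReal
    have h3 : ((b : ℝ)) ≤ 2 ^ b := nat_le_two_pow b
    have h4 : ((b : ℝ) + 1) ≤ 2 ^ b := by
      have : b + 1 ≤ 2 ^ b := Nat.lt_two_pow_self
      exact_mod_cast this
    have h5 : ((b : ℝ) + 1) ^ 2 ≤ 4 ^ b := by
      calc ((b : ℝ) + 1) ^ 2 ≤ ((2 : ℝ) ^ b) ^ 2 := by gcongr
        _ = 4 ^ b := by rw [← pow_mul, mul_comm, pow_mul]; norm_num
    have h6 : Real.exp (-(β / 5 * ((ℓ - b : ℕ) : ℝ))) ≤ Real.exp (-(ℓ : ℝ) + b) := by
      apply Real.exp_le_exp.2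
      have h7 : (ℓ : ℝ) ≤ ((ℓ - b : ℕ) : ℝ) + b := by
        have : ℓ ≤ (ℓ - b) + b := by omega
        exact_mod_cast this
      have h8 : (0 : ℝ) ≤ ((ℓ - b : ℕ) : ℝ) := Nat.cast_nonneg _
      nlinarith
    have h7 : Real.exp (-(β * b / 2)) ≤ Real.exp (-25 * b) := by
      apply Real.exp_le_exp.2
      have : (0 : ℝ) ≤ (b : ℝ) := Nat.cast_nonneg _
      nlinarith
    have h8 : (512 : ℝ) ^ b * (Real.exp (b : ℝ) * Real.exp (-25 * b)) ≤ (1 / 2) ^ b := by
      have h9 : Real.exp (b : ℝ) * Real.exp (-25 * b) = (Real.exp (-24)) ^ b := by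
        rw [← Real.exp_add, ← Real.exp_nat_mul]
        congr 1; ring
      rw [h9, ← mul_pow]
      apply pow_le_pow_left₀ (by positivity)
      have h10 := exp_eight
      have h11 : Real.exp (-24) ≤ Real.exp (-8) := Real.exp_le_exp.2 (by norm_num)
      linarith
    calc (b : ℝ) * 64 ^ b * (Real.exp 4 * (Real.exp (-(β / 5 * ((ℓ - b : ℕ) : ℝ))) *
          (Real.exp (-(β * b / 2)) * ((b : ℝ) + 1) ^ 2)))
        ≤ 2 ^ b * 64 ^ b * (Real.exp 4 * (Real.exp (-(ℓ : ℝ) + b) *
          (Real.exp (-25 * b) * 4 ^ b))) := by gcongr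
      _ = Real.exp 4 * Real.exp (-(ℓ : ℝ)) * ((512 : ℝ) ^ b * (Real.exp (b : ℝ) *
            Real.exp (-25 * b))) := by
          rw [Real.exp_add]
          have : (512 : ℝ) ^ b = 2 ^ b * 64 ^ b * 4 ^ b := by
            rw [← mul_pow, ← mul_pow]; norm_num
          rw [this]; ring
      _ ≤ Real.exp 4 * Real.exp (-(ℓ : ℝ)) * (1 / 2) ^ b := by gcongr
  refine (ENNReal.tsum_le_tsum hterm).trans ?_
  rw [ENNReal.tsum_mul_left, ENNReal.tsum_geometric, ENNReal.one_sub_inv_two, inv_inv]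
  refine le_of_eq ?_
  have h2 : (2 : ℝ≥0∞) = ENNReal.ofReal 2 := by simp
  rw [h2, ← ENNReal.ofReal_mul (by positivity)]
  congr 1
  ring

end Pool.Agent.WSB71
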