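import Pool.Agent.WSB71.Fine
import Pool.Agent.WSB71.Peierls

/-!
# AP: the a priori estimate

Proof. (1) `total_edges` with `ℓ = ⌈(c1+1) N⌉`: outside probability `C e^{-(c1+1)N}` both numbers
of edges are `≤ C1 N`.  (2) For a filled set `G ∋ 0` with at most `C1 N` boundary edges and for `S`
a set of scales, `travels_count` and `chain_srw` give
`P(chain_t in G, Travels at all scales j ∈ S with T j = ⌈ε' N / j⌉)
 ≤ C |G| exp (-c ∑_{j ∈ S} ε' N / j)`, `|G| ≤ (C1 N)²`, and there are at most `C1 N 64^{C1 N}` such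
`G` (`Fam`, `card_famF_le`).  (3) the hole edges with `2^j ≤ Λ d ≤ Λ² 2^j`: each hole edge is counted for
at most `Λ²` values of `j`; so at most `Λ² C1 / ε'` scales `j` have more
than `ε' N` of them.  Since `∑ 1/j = ∞` choose `J2` such that after removing so many scales from
`[J1, J2]` the sum of `1/j` is still `≥ H₀`; union over the sets `S ⊆ [J1,J2]` with
`∑_{j∈S} 1/j ≥ H₀`.
-/

open MeasureTheory Filter Topology
open scoped NNReal ENNReal

namespace Pool.Agent.WSB71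

open Pool.Agent.LT

/-- `N = t^{1/3}`. -/
noncomputable def NN3 (t : ℝ≥0) : ℝ := (t : ℝ) ^ ((1 : ℝ) / 3)

/-- A good scale `j` for the path `f`. -/
def GoodScale (t : ℝ≥0) (f : WP) (Λ : ℕ) (ε' : ℝ) (j : ℕ) : Prop :=
  ¬ Travels (fil (rangeF t f)) (chainOf t f) (2 ^ j) (Λ * 2 ^ j) ⌈ε' * NN3 t / j⌉₊ ∧
  ((((holeE (rangeF t f)).filter (fun p => 2 ^ j ≤ Λ * dep (fil (rangeF t f)) p.1 ∧
    dep (fil (rangeF t f)) p.1 ≤ Λ * 2 ^ j)).card : ℕ) : ℝ) ≤ ε' * NN3 t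

/-- each depth belongs to at most `Λ²` scales. -/
lemma card_scales_le (Λ d : ℕ) (I : Finset ℕ) :
    (I.filter (fun j => 2 ^ j ≤ Λ * d ∧ d ≤ Λ * 2 ^ j)).card ≤ Λ ^ 2 := by
  classical
  set T := I.filter (fun j => 2 ^ j ≤ Λ * d ∧ d ≤ Λ * 2 ^ j) with hT
  rcases T.eq_empty_or_nonempty with h | h
  · rw [h]; simp
  · have hj0 := T.min'_mem h
    set j0 := T.min' h with hj0d
    have hsub : T ⊆ Finset.Ico j0 (j0 + Λ ^ 2) := by
      intro j hj
      have h1 : j0 ≤ j := T.min'_le j hj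
      rw [Finset.mem_Ico]
      refine ⟨h1, ?_⟩
      rw [hT, Finset.mem_filter] at hj hj0
      have h2 : 2 ^ j ≤ Λ ^ 2 * 2 ^ j0 := by
        calc 2 ^ j ≤ Λ * d := hj.2.1
          _ ≤ Λ * (Λ * 2 ^ j0) := Nat.mul_le_mul_left _ hj0.2.2
          _ = _ := by ring
      obtain ⟨k, rfl⟩ := Nat.exists_eq_add_of_le h1
      have h3 : 2 ^ k ≤ Λ ^ 2 := by
        rw [pow_add, mul_comm] at h2
        exact Nat.le_of_mul_le_mul_right h2 (by positivity)
      have h4 : k < 2 ^ k := Nat.lt_two_pow_self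
      omega
    calc T.card ≤ (Finset.Ico j0 (j0 + Λ ^ 2)).card := Finset.card_le_card hsub
      _ = Λ ^ 2 := by rw [Nat.card_Ico]; omega

lemma sum_scales_le (Λ : ℕ) (G H : Finset Site) (I : Finset ℕ) (E : Finset (Site × Site)) :
    ∑ j ∈ I, (E.filter (fun p => 2 ^ j ≤ Λ * dep H p.1 ∧ dep H p.1 ≤ Λ * 2 ^ j)).card
      ≤ Λ ^ 2 * E.card := by
  classical
  simp_rw [Finset.card_filter]
  rw [Finset.sum_comm]
  calc ∑ p ∈ E, ∑ j ∈ I, (if 2 ^ j ≤ Λ * dep H p.1 ∧ dep H p.1 ≤ Λ * 2 ^ j then 1 else 0)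
      ≤ ∑ p ∈ E, Λ ^ 2 := by
        refine Finset.sum_le_sum fun p _ => ?_
        rw [← Finset.card_filter]
        exact card_scales_le Λ (dep H p.1) I
    _ = _ := by rw [Finset.sum_const, smul_eq_mul, mul_comm]

lemma exists_harmonic (J₁ : ℕ) (A : ℝ) : ∃ J₂ : ℕ, A ≤ ∑ j ∈ Finset.Icc J₁ J₂, 1 / (j : ℝ) := by
  have h := Real.tendsto_sum_range_one_div_nat_succ_atTop
  obtain ⟨n, hn⟩ := (h.eventually_ge_atTop (A + J₁)).exists
  refine ⟨n, ?_⟩
  have h1 : ∑ i ∈ Finset.range n, 1 / ((i : ℝ) + 1) ≤ ∑ j ∈ Finset.Icc 1 n, 1 / (j : ℝ) := by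
    apply le_of_eq
    rw [Finset.sum_bij (fun i _ => i + 1)]
    · intro i hi; rw [Finset.mem_range] at hi; rw [Finset.mem_Icc]; omega
    · intro i _ j _ hij; omega
    · intro j hj
      rw [Finset.mem_Icc] at hj
      exact ⟨j - 1, by rw [Finset.mem_range]; omega, by omega⟩
    · intro i _; push_cast; rfl
  have h2 : ∑ j ∈ Finset.Icc 1 n, 1 / (j : ℝ) ≤ ∑ j ∈ Finset.range J₁, (1 : ℝ) +
      ∑ j ∈ Finset.Icc J₁ n, 1 / (j : ℝ) := by
    have h3 : Finset.Icc 1 n ⊆ (Finset.Icc 1 n ∩ Finset.range J₁) ∪ Finset.Icc J₁ n := by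
      intro j hj
      simp only [Finset.mem_union, Finset.mem_inter, Finset.mem_range, Finset.mem_Icc] at hj ⊢
      omega
    calc ∑ j ∈ Finset.Icc 1 n, 1 / (j : ℝ)
        ≤ ∑ j ∈ (Finset.Icc 1 n ∩ Finset.range J₁) ∪ Finset.Icc J₁ n, 1 / (j : ℝ) :=
          Finset.sum_le_sum_of_subset_of_nonneg h3 (fun _ _ _ => by positivity)
      _ ≤ ∑ j ∈ Finset.Icc 1 n ∩ Finset.range J₁, 1 / (j : ℝ) +
          ∑ j ∈ Finset.Icc J₁ n, 1 / (j : ℝ) := by
          rw [← Finset.sum_union_inter]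
          exact le_add_of_nonneg_right (Finset.sum_nonneg fun _ _ => by positivity)
      _ ≤ _ := by
          gcongr
          calc ∑ j ∈ Finset.Icc 1 n ∩ Finset.range J₁, 1 / (j : ℝ)
              ≤ ∑ j ∈ Finset.Icc 1 n ∩ Finset.range J₁, (1 : ℝ) := by
                refine Finset.sum_le_sum fun j hj => ?_
                rw [Finset.mem_inter, Finset.mem_Icc] at hj
                have : (1 : ℝ) ≤ j := by exact_mod_cast hj.1.1
                rw [div_le_one (by linarith)]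
                exact this
            _ ≤ ∑ j ∈ Finset.range J₁, (1 : ℝ) :=
                Finset.sum_le_sum_of_subset_of_nonneg Finset.inter_subset_right
                  (fun _ _ _ => by positivity)
  have h4 : ∑ j ∈ Finset.range J₁, (1 : ℝ) = J₁ := by simp
  linarith

/-- the bad event for a given filled set and a given set of scales. -/
lemma pair_bound {μ : Measure WP} (hμ : IsLaw μ) {Λ : ℕ} {c C : ℝ}
    (htr : ∀ G : Finset Site,
    ConnF (G : Set Site)ᶜ → ∀ x ∈ G, ∀ m : ℕ, ∀ S : Finset ℕ, ∀ T : ℕ → ℕ,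
      (({l ∈ chainsIn G x m | ∀ j ∈ S, Travels G l (2 ^ j) (Λ * 2 ^ j) (T j)}.ncard : ℕ) : ℝ)
        ≤ 4 ^ m * (C * G.card * Real.exp (-(c * ∑ j ∈ S, (T j : ℝ)))))
    (t : ℝ≥0) {G : Finset Site} (hG : ConnF (G : Set Site)ᶜ) (h0 : (0 : Site) ∈ G) (S : Finset ℕ)
    (T : ℕ → ℕ) :
    μ {f : WP | chainOf t f ∈ {l : List Site | (∀ y ∈ l, y ∈ G) ∧
      ∀ j ∈ S, Travels G l (2 ^ j) (Λ * 2 ^ j) (T j)}} ≤
      ENNReal.ofReal (C * G.card * Real.exp (-(c * ∑ j ∈ S, (T j : ℝ)))) := by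
  apply chain_srw hμ
  intro m
  have hset : {l : List Site | l ∈ {l : List Site | (∀ y ∈ l, y ∈ G) ∧
      ∀ j ∈ S, Travels G l (2 ^ j) (Λ * 2 ^ j) (T j)} ∧ l.IsChain Adj ∧ l.head? = some 0 ∧
      l.length = m + 1} =
      {l ∈ chainsIn G 0 m | ∀ j ∈ S, Travels G l (2 ^ j) (Λ * 2 ^ j) (T j)} := by
    ext l
    simp only [chainsIn, Set.mem_setOf_eq]
    tauto
  rw [hset]
  have hfin : {l ∈ chainsIn G 0 m | ∀ j ∈ S, Travels G l (2 ^ j) (Λ * 2 ^ j) (T j)}.Finite :=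
    (chainsIn_finite G 0 m).subset (Set.sep_subset _ _)
  rw [← hfin.cast_ncard_eq]
  have h1 := htr G hG 0 h0 m S T
  have h2 : (({l ∈ chainsIn G 0 m | ∀ j ∈ S,
      Travels G l (2 ^ j) (Λ * 2 ^ j) (T j)}.ncard : ℕ) : ℝ≥0∞) ≤
      ENNReal.ofReal (4 ^ m * (C * G.card * Real.exp (-(c * ∑ j ∈ S, (T j : ℝ))))) := by
    rw [← ENNReal.ofReal_natCast]
    exact ENNReal.ofReal_le_ofReal h1
  rw [ENNReal.ofReal_mul (by positivity), ENNReal.ofReal_pow (by norm_num), mul_comm] at h2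
  simpa using h2

/-- numbers of filled sets. -/
lemma card_fams_le (B : ℕ) :
    ((((Finset.range (B + 1)).biUnion (famF 0)).card : ℕ) : ℝ) * (B : ℝ) ^ 2 ≤
      Real.exp (7 * B) := by
  have h1 : ((Finset.range (B + 1)).biUnion (famF 0)).card ≤ (B + 1) * (B * 64 ^ B) := by
    refine Finset.card_biUnion_le.trans ?_
    calc ∑ b ∈ Finset.range (B + 1), (famF 0 b).card
        ≤ ∑ b ∈ Finset.range (B + 1), B * 64 ^ B := by
          refine Finset.sum_le_sum fun b hb => ?_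
          rw [Finset.mem_range] at hb
          refine (card_famF_le 0 b).trans ?_
          exact Nat.mul_le_mul (by omega) (Nat.pow_le_pow_right (by norm_num) (by omega))
      _ = _ := by rw [Finset.sum_const, Finset.card_range, smul_eq_mul]
  have h2 : ((((Finset.range (B + 1)).biUnion (famF 0)).card : ℕ) : ℝ) ≤
      (B + 1) * (B * 64 ^ B) := by exact_mod_cast h1
  have h3 := nat_le_two_pow B
  have h4 : (B : ℝ) + 1 ≤ 2 ^ B := by
    have : B + 1 ≤ 2 ^ B := Nat.lt_two_pow_self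
    exact_mod_cast this
  have hexp : (1024 : ℝ) ≤ Real.exp 7 := by
    have h5 : (2.718 : ℝ) ≤ Real.exp 1 := by
      have := Real.exp_one_gt_d9; linarith
    have h6 : Real.exp 7 = Real.exp 1 ^ 7 := by rw [← Real.exp_nat_mul]; norm_num
    rw [h6]
    calc (1024 : ℝ) ≤ 2.718 ^ 7 := by norm_num
      _ ≤ _ := pow_le_pow_left₀ (by norm_num) h5 7
  calc ((((Finset.range (B + 1)).biUnion (famF 0)).card : ℕ) : ℝ) * (B : ℝ) ^ 2
      ≤ ((B + 1) * (B * 64 ^ B)) * (B : ℝ) ^ 2 := by gcongr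
    _ ≤ (2 ^ B * (2 ^ B * 64 ^ B)) * (2 ^ B) ^ 2 := by gcongr
    _ = 1024 ^ B := by
        have : (1024 : ℝ) = 2 * (2 * 64) * 2 ^ 2 := by norm_num
        rw [this, mul_pow, mul_pow, mul_pow, ← pow_mul, ← pow_mul, mul_comm B 2]
    _ ≤ Real.exp 7 ^ B := pow_le_pow_left₀ (by norm_num) hexp B
    _ = _ := by rw [← Real.exp_nat_mul, mul_comm]

lemma cover {β : ℝ} {t : ℝ≥0} {C₁ ε' H₀ : ℝ} {Λ J₁ J₂ M : ℕ} (hJ₁ : 1 ≤ J₁) (hε : 0 < ε')
    (hN : 0 < NN3 t) (hM : (Λ : ℝ) ^ 2 * C₁ / ε' ≤ M)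
    (hJ₂ : H₀ + M ≤ ∑ j ∈ Finset.Icc J₁ J₂, 1 / (j : ℝ)) :
    {f : WP | f ∈ evtE β t ∧ ¬ (((bdry (fil (rangeF t f))).card : ℝ) ≤ C₁ * NN3 t ∧
            ((holeE (rangeF t f)).card : ℝ) ≤ C₁ * NN3 t ∧
            ∃ j ∈ Finset.Icc J₁ J₂, GoodScale t f Λ ε' j)} ⊆
      ({f : WP | f.1 0 ≠ 0} ∪ {f : WP | f ∈ evtE β t ∧
        ⌈C₁ * NN3 t⌉₊ ≤ (bdry (fil (rangeF t f))).card + (holeE (rangeF t f)).card}) ∪
      ⋃ G ∈ (Finset.range (⌊C₁ * NN3 t⌋₊ + 1)).biUnion (famF 0),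
        ⋃ S ∈ (Finset.Icc J₁ J₂).powerset.filter (fun S : Finset ℕ => H₀ ≤ ∑ j ∈ S, 1 / (j : ℝ)),
          {f : WP | chainOf t f ∈ {l : List Site | (∀ y ∈ l, y ∈ G) ∧
            ∀ j ∈ S, Travels G l (2 ^ j) (Λ * 2 ^ j) ⌈ε' * NN3 t / j⌉₊}} := by
  classical
  rintro f ⟨hfE, hf⟩
  by_cases hf0 : f.1 0 = 0
  swap
  · left; left; exact hf0
  by_cases hℓ : ⌈C₁ * NN3 t⌉₊ ≤ (bdry (fil (rangeF t f))).card + (holeE (rangeF t f)).card
  · left; right; exact ⟨hfE, hℓ⟩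
  right
  rw [not_le, Nat.lt_ceil] at hℓ
  push_cast at hℓ
  have hb : ((bdry (fil (rangeF t f))).card : ℝ) ≤ C₁ * NN3 t := by
    have : (0 : ℝ) ≤ ((holeE (rangeF t f)).card : ℝ) := Nat.cast_nonneg _
    linarith
  have hh : ((holeE (rangeF t f)).card : ℝ) ≤ C₁ * NN3 t := by
    have : (0 : ℝ) ≤ ((bdry (fil (rangeF t f))).card : ℝ) := Nat.cast_nonneg _
    linarith
  have hbad : ∀ j ∈ Finset.Icc J₁ J₂, ¬ GoodScale t f Λ ε' j := by
    intro j hj hg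
    exact hf ⟨hb, hh, j, hj, hg⟩
  set G := fil (rangeF t f) with hG
  set S := (Finset.Icc J₁ J₂).filter
    (fun j : ℕ => Travels G (chainOf t f) (2 ^ j) (Λ * 2 ^ j) ⌈ε' * NN3 t / j⌉₊) with hS
  have hcG : ConnF (rangeF t f : Set Site) := connF_rangeF t f
  have h0G : (0 : Site) ∈ rangeF t f := mem_rangeF.2 ⟨0, zero_le, hf0⟩
  have hGf : G ∈ (Finset.range (⌊C₁ * NN3 t⌋₊ + 1)).biUnion (famF 0) := by
    rw [Finset.mem_biUnion]
    refine ⟨(bdry G).card, ?_, mem_famF.2 ⟨subset_fil _ h0G, fil_conn hcG, fil_compl_conn _, rfl⟩⟩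
    rw [Finset.mem_range]
    have := Nat.le_floor hb
    omega
  -- the exceptional scales
  have hexc : (((Finset.Icc J₁ J₂) \ S).card : ℝ) ≤ M := by
    have h1 : ∀ j ∈ (Finset.Icc J₁ J₂) \ S, ε' * NN3 t ≤
        ((((holeE (rangeF t f)).filter (fun p => 2 ^ j ≤ Λ * dep G p.1 ∧
          dep G p.1 ≤ Λ * 2 ^ j)).card : ℕ) : ℝ) := by
      intro j hj
      rw [Finset.mem_sdiff, hS, Finset.mem_filter] at hj
      have h2 := hbad j hj.1
      rw [GoodScale] at h2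
      have h3 : ¬ Travels G (chainOf t f) (2 ^ j) (Λ * 2 ^ j) ⌈ε' * NN3 t / j⌉₊ :=
        fun h => hj.2 ⟨hj.1, h⟩
      by_contra hcon
      exact h2 ⟨h3, (not_le.1 hcon).le⟩
    have h2 := Finset.sum_le_sum h1
    rw [Finset.sum_const, nsmul_eq_mul] at h2
    have h3 : ∑ j ∈ (Finset.Icc J₁ J₂) \ S,
        ((((holeE (rangeF t f)).filter (fun p => 2 ^ j ≤ Λ * dep G p.1 ∧
          dep G p.1 ≤ Λ * 2 ^ j)).card : ℕ) : ℝ) ≤ (Λ : ℝ) ^ 2 * (holeE (rangeF t f)).card := by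
      have := sum_scales_le Λ G G ((Finset.Icc J₁ J₂) \ S) (holeE (rangeF t f))
      exact_mod_cast this
    have h4 : (((Finset.Icc J₁ J₂) \ S).card : ℝ) * (ε' * NN3 t) ≤
        (Λ : ℝ) ^ 2 * (C₁ * NN3 t) :=
      (h2.trans h3).trans (mul_le_mul_of_nonneg_left hh (by positivity))
    have h5 : (((Finset.Icc J₁ J₂) \ S).card : ℝ) ≤ (Λ : ℝ) ^ 2 * C₁ / ε' := by
      rw [le_div_iff₀ hε]
      refine le_of_mul_le_mul_right ?_ hN
      linarith
    exact h5.trans hM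
  have hSf : S ∈ (Finset.Icc J₁ J₂).powerset.filter (fun S : Finset ℕ => H₀ ≤ ∑ j ∈ S, 1 / (j : ℝ)) := by
    rw [Finset.mem_filter, Finset.mem_powerset]
    refine ⟨Finset.filter_subset _ _, ?_⟩
    have h1 : ∑ j ∈ (Finset.Icc J₁ J₂) \ S, 1 / (j : ℝ) ≤ (((Finset.Icc J₁ J₂) \ S).card : ℝ) := by
      calc ∑ j ∈ (Finset.Icc J₁ J₂) \ S, 1 / (j : ℝ) ≤ ∑ j ∈ (Finset.Icc J₁ J₂) \ S, (1 : ℝ) := by
            refine Finset.sum_le_sum fun j hj => ?_
            rw [Finset.mem_sdiff, Finset.mem_Icc] at hj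
            have : (1 : ℝ) ≤ j := by exact_mod_cast hJ₁.trans hj.1.1
            rw [div_le_one (by linarith)]
            exact this
        _ = _ := by simp
    have h2 := Finset.sum_sdiff (f := fun j : ℕ => 1 / (j : ℝ))
      (Finset.filter_subset (fun j : ℕ => Travels G (chainOf t f) (2 ^ j) (Λ * 2 ^ j)
        ⌈ε' * NN3 t / j⌉₊) (Finset.Icc J₁ J₂))
    rw [← hS] at h2
    linarith
  simp only [Set.mem_iUnion]
  refine ⟨G, hGf, S, hSf, ?_, ?_⟩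
  · intro y hy
    have : y ∈ (chainOf t f).toFinset := by simpa using hy
    rw [chainOf_toFinset] at this
    exact subset_fil _ this
  · intro j hj
    rw [hS, Finset.mem_filter] at hj
    exact hj.2

theorem ap_main : ∃ β₀ : ℝ, 1 ≤ β₀ ∧ ∀ β : ℝ, β₀ ≤ β → ∀ c₁ : ℝ, 0 < c₁ → ∃ C₁ : ℝ, 0 < C₁ ∧
    ∀ Λ : ℕ, 1 ≤ Λ → ∀ ε' : ℝ, 0 < ε' → ∀ J₁ : ℕ, 1 ≤ J₁ → ∃ J₂ : ℕ, ∃ t₀ : ℝ≥0, ∀ t : ℝ≥0, t₀ ≤ t →
      ∀ μ : Measure WP, IsLaw μ →
        μ {f : WP | f ∈ evtE β t ∧ ¬ (((bdry (fil (rangeF t f))).card : ℝ) ≤ C₁ * NN3 t ∧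
            ((holeE (rangeF t f)).card : ℝ) ≤ C₁ * NN3 t ∧
            ∃ j ∈ Finset.Icc J₁ J₂, GoodScale t f Λ ε' j)}
          ≤ ENNReal.ofReal (Real.exp (-(c₁ * NN3 t))) := by
  classical
  obtain ⟨β₀, C, hβ₀, hC, htot⟩ := total_edges
  refine ⟨β₀, hβ₀, fun β hβ c₁ hc₁ => ⟨c₁ + 1, by positivity, fun Λ hΛ ε' hε J₁ hJ₁ => ?_⟩⟩
  obtain ⟨c, C', hc, hC', htr⟩ := travels_count Λ hΛ
  set C₁ := c₁ + 1 with hC₁
  set M : ℕ := ⌈(Λ : ℝ) ^ 2 * C₁ / ε'⌉₊ with hMd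
  have hM : (Λ : ℝ) ^ 2 * C₁ / ε' ≤ M := Nat.le_ceil _
  set H₀ : ℝ := (7 * C₁ + C₁) / (c * ε') with hH₀
  obtain ⟨J₂, hJ₂⟩ := exists_harmonic J₁ (H₀ + M)
  set K : ℝ := (((Finset.Icc J₁ J₂).powerset.card : ℕ) : ℝ) with hK
  set Q : ℝ := 1 + C + K * C' with hQ
  have hK0 : 0 ≤ K := Nat.cast_nonneg _
  have hQ1 : 1 ≤ Q := by
    have : 0 ≤ K * C' := by positivity
    linarith
  refine ⟨J₂, Real.toNNReal (Q ^ 3), fun t ht μ hμ => ?_⟩
  have htR : Q ^ 3 ≤ (t : ℝ) := by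
    have := Real.toNNReal_le_iff_le_coe.1 ht
    exact this
  have hNQ : Q ≤ NN3 t := by
    rw [NN3]
    calc Q = (Q ^ 3) ^ ((1 : ℝ) / 3) := by
          rw [← Real.rpow_natCast, ← Real.rpow_mul (by linarith)]
          norm_num
      _ ≤ _ := Real.rpow_le_rpow (by positivity) htR (by norm_num)
  set N := NN3 t with hN
  have hN0 : 0 < N := by linarith
  have hcov := cover (β := β) (t := t) (C₁ := C₁) (ε' := ε') (H₀ := H₀) (Λ := Λ) (J₁ := J₁)
    (J₂ := J₂) (M := M) hJ₁ hε hN0 hM hJ₂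
  refine (measure_mono hcov).trans ?_
  have hnull : μ {f : WP | f.1 0 ≠ 0} = 0 := hμ.start
  have hC₁0 : 0 < C₁ := by linarith
  -- the first part
  have hp1 : μ ({f : WP | f.1 0 ≠ 0} ∪ {f : WP | f ∈ evtE β t ∧
      ⌈C₁ * N⌉₊ ≤ (bdry (fil (rangeF t f))).card + (holeE (rangeF t f)).card}) ≤
      ENNReal.ofReal (C * Real.exp (-(C₁ * N))) := by
    refine (measure_union_le _ _).trans ?_
    rw [hnull, zero_add]
    refine (htot β hβ μ hμ t _).trans (ENNReal.ofReal_le_ofReal ?_)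
    gcongr
    exact Nat.le_ceil _
  -- the second part
  set B : ℕ := ⌊C₁ * N⌋₊ with hB
  have hBle : (B : ℝ) ≤ C₁ * N := Nat.floor_le (by positivity)
  have hp2 : μ (⋃ G ∈ (Finset.range (B + 1)).biUnion (famF 0),
        ⋃ S ∈ (Finset.Icc J₁ J₂).powerset.filter (fun S : Finset ℕ => H₀ ≤ ∑ j ∈ S, 1 / (j : ℝ)),
          {f : WP | chainOf t f ∈ {l : List Site | (∀ y ∈ l, y ∈ G) ∧
            ∀ j ∈ S, Travels G l (2 ^ j) (Λ * 2 ^ j) ⌈ε' * N / j⌉₊}}) ≤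
      ENNReal.ofReal (K * C' * Real.exp (-(C₁ * N))) := by
    have hterm : ∀ G ∈ (Finset.range (B + 1)).biUnion (famF 0),
        ∀ S ∈ (Finset.Icc J₁ J₂).powerset.filter (fun S : Finset ℕ => H₀ ≤ ∑ j ∈ S, 1 / (j : ℝ)),
        μ {f : WP | chainOf t f ∈ {l : List Site | (∀ y ∈ l, y ∈ G) ∧
            ∀ j ∈ S, Travels G l (2 ^ j) (Λ * 2 ^ j) ⌈ε' * N / j⌉₊}} ≤
          ENNReal.ofReal (C' * B ^ 2 * Real.exp (-(8 * C₁ * N))) := by
      intro G hG S hS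
      rw [Finset.mem_biUnion] at hG
      obtain ⟨b, hb, hGb⟩ := hG
      rw [Finset.mem_range] at hb
      have hfam := mem_famF.1 hGb
      refine (pair_bound hμ htr t hfam.2.2.1 hfam.1 S (fun j => ⌈ε' * N / j⌉₊)).trans
        (ENNReal.ofReal_le_ofReal ?_)
      have hcard : (G.card : ℝ) ≤ (B : ℝ) ^ 2 := by
        have h1 := card_le_sq hfam.2.2.2
        have h2 : G.card ≤ B ^ 2 := h1.trans (Nat.pow_le_pow_left (by omega) 2)
        exact_mod_cast h2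
      rw [Finset.mem_filter] at hS
      have hT : ε' * N * H₀ ≤ ∑ j ∈ S, ((⌈ε' * N / j⌉₊ : ℕ) : ℝ) := by
        calc ε' * N * H₀ ≤ ε' * N * ∑ j ∈ S, 1 / (j : ℝ) := by
              apply mul_le_mul_of_nonneg_left hS.2 (by positivity)
          _ = ∑ j ∈ S, ε' * N / (j : ℝ) := by
              rw [Finset.mul_sum]
              refine Finset.sum_congr rfl fun j _ => ?_
              ring
          _ ≤ _ := Finset.sum_le_sum fun j _ => Nat.le_ceil _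
      have hcT : 8 * C₁ * N ≤ c * ∑ j ∈ S, ((⌈ε' * N / j⌉₊ : ℕ) : ℝ) := by
        calc 8 * C₁ * N = c * (ε' * N * H₀) := by
              rw [hH₀]; field_simp; ring
          _ ≤ _ := mul_le_mul_of_nonneg_left hT hc.le
      calc C' * G.card * Real.exp (-(c * ∑ j ∈ S, ((⌈ε' * N / j⌉₊ : ℕ) : ℝ)))
          ≤ C' * (B : ℝ) ^ 2 * Real.exp (-(8 * C₁ * N)) := by
            gcongr
        _ = _ := rfl
    refine (measure_biUnion_finset_le _ _).trans ?_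
    calc ∑ G ∈ (Finset.range (B + 1)).biUnion (famF 0),
          μ (⋃ S ∈ (Finset.Icc J₁ J₂).powerset.filter (fun S : Finset ℕ => H₀ ≤ ∑ j ∈ S, 1 / (j : ℝ)),
          {f : WP | chainOf t f ∈ {l : List Site | (∀ y ∈ l, y ∈ G) ∧
            ∀ j ∈ S, Travels G l (2 ^ j) (Λ * 2 ^ j) ⌈ε' * N / j⌉₊}})
        ≤ ∑ G ∈ (Finset.range (B + 1)).biUnion (famF 0), ENNReal.ofReal
            (K * (C' * B ^ 2 * Real.exp (-(8 * C₁ * N)))) := by
          refine Finset.sum_le_sum fun G hG => (measure_biUnion_finset_le _ _).trans ?_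
          refine (Finset.sum_le_sum (hterm G hG)).trans ?_
          rw [Finset.sum_const, nsmul_eq_mul, ENNReal.ofReal_mul hK0]
          gcongr
          rw [hK, ENNReal.ofReal_natCast]
          exact_mod_cast Finset.card_filter_le _ _
      _ = ENNReal.ofReal (((((Finset.range (B + 1)).biUnion (famF 0)).card : ℕ) : ℝ) *
            (K * (C' * B ^ 2 * Real.exp (-(8 * C₁ * N))))) := by
          rw [Finset.sum_const, nsmul_eq_mul, ENNReal.ofReal_mul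
            (p := ((((Finset.range (B + 1)).biUnion (famF 0)).card : ℕ) : ℝ)) (Nat.cast_nonneg _),
            ENNReal.ofReal_natCast]
      _ ≤ _ := by
          apply ENNReal.ofReal_le_ofReal
          have h1 := card_fams_le B
          have h2 : Real.exp (7 * (B : ℝ)) * Real.exp (-(8 * C₁ * N)) ≤
              Real.exp (-(C₁ * N)) := by
            rw [← Real.exp_add]
            apply Real.exp_le_exp.2
            linarith
          calc ((((Finset.range (B + 1)).biUnion (famF 0)).card : ℕ) : ℝ) *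
                (K * (C' * B ^ 2 * Real.exp (-(8 * C₁ * N))))
              = K * C' * (((((Finset.range (B + 1)).biUnion (famF 0)).card : ℕ) : ℝ) *
                (B : ℝ) ^ 2 * Real.exp (-(8 * C₁ * N))) := by ring
            _ ≤ K * C' * (Real.exp (7 * (B : ℝ)) * Real.exp (-(8 * C₁ * N))) := by
                gcongr
            _ ≤ K * C' * Real.exp (-(C₁ * N)) := by gcongr
  refine (measure_union_le _ _).trans ((add_le_add hp1 hp2).trans ?_)
  rw [← ENNReal.ofReal_add (by positivity) (by positivity)]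
  apply ENNReal.ofReal_le_ofReal
  have h3 : C + K * C' ≤ Real.exp N := by
    have := Real.add_one_le_exp N
    linarith
  calc C * Real.exp (-(C₁ * N)) + K * C' * Real.exp (-(C₁ * N))
      = (C + K * C') * Real.exp (-(C₁ * N)) := by ring
    _ ≤ Real.exp N * Real.exp (-(C₁ * N)) := by gcongr
    _ = Real.exp (-(c₁ * N)) := by
        rw [← Real.exp_add]; congr 1; rw [hC₁]; ring

end Pool.Agent.WSB71
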