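import Pool.Agent.WSB71.EUpC

/-!
# E2: interpolation of lattice functions by quadratic B-splines
-/

open MeasureTheory Filter Topology
open scoped NNReal ENNReal

namespace Pool.Agent.WSB71

open Pool.Agent.LT

theorem EUp_proj (i : Fin 2) (v : Plane) : (EuclideanSpace.proj i : Plane →L[ℝ] ℝ) v = v i := rfl

theorem EUp_shift {f : Site → ℝ} {D : Finset Site} (hf : ∀ x, x ∉ D → f x = 0) (e : Site)
    (c : Site → ℝ) : ∑ x ∈ D, f x * (c (x - e) - c x) =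
      ∑ x ∈ D ∪ D.image (fun x => x - e), (f (x + e) - f x) * c x := by
  classical
  have hout : ∀ x, x ∉ D ∪ D.image (fun x => x - e) → f (x + e) = 0 ∧ f x = 0 := by
    intro x hx
    rw [Finset.mem_union, not_or] at hx
    refine ⟨hf _ fun h => hx.2 (Finset.mem_image.2 ⟨x + e, h, by abel⟩), hf _ hx.1⟩
  have s1 : Summable fun x => f x * c (x - e) :=
    EUp_summable (D := D) fun x hx => by rw [hf x hx, zero_mul]
  have s2 : Summable fun x => f x * c x :=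
    EUp_summable (D := D) fun x hx => by rw [hf x hx, zero_mul]
  have s3 : Summable fun x => f (x + e) * c x :=
    EUp_summable (D := D ∪ D.image (fun x => x - e)) fun x hx => by
      rw [(hout x hx).1, zero_mul]
  have e1 : ∑' x, f x * (c (x - e) - c x) = ∑ x ∈ D, f x * (c (x - e) - c x) :=
    tsum_eq_sum fun x hx => by rw [hf x hx, zero_mul]
  have e2 : ∑' x, (f (x + e) - f x) * c x =
      ∑ x ∈ D ∪ D.image (fun x => x - e), (f (x + e) - f x) * c x :=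
    tsum_eq_sum fun x hx => by rw [(hout x hx).1, (hout x hx).2]; ring
  have e3 := (Equiv.addRight e).tsum_eq fun x => f x * c (x - e)
  simp only [Equiv.coe_addRight, add_sub_cancel_right] at e3
  rw [← e1, ← e2]
  have e4 : ∑' x, f x * (c (x - e) - c x) = ∑' x, (f x * c (x - e) - f x * c x) :=
    tsum_congr fun x => by ring
  have e5 : ∑' x, (f (x + e) - f x) * c x = ∑' x, (f (x + e) * c x - f x * c x) :=
    tsum_congr fun x => by ring
  rw [e4, e5, s1.tsum_sub s2, s3.tsum_sub s2, e3]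

theorem EUp_E_fin {f : Site → ℝ} {D : Finset Site} (hf : ∀ x, x ∉ D → f x = 0) (e : Site) :
    EUp_E f e = ∑ x ∈ D ∪ D.image (fun x => x - e), (f (x + e) - f x) ^ 2 := by
  classical
  refine tsum_eq_sum fun x hx => ?_
  rw [Finset.mem_union, not_or] at hx
  rw [hf x hx.1, hf (x + e) fun h => hx.2 (Finset.mem_image.2 ⟨x + e, h, by abel⟩)]
  ring

/-- first partial derivative, divided by `N` -/
noncomputable def EUp_A (N : ℝ) (D : Finset Site) (f : Site → ℝ) (y : Plane) : ℝ :=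
  ∑ x ∈ D, f x * (EUp_p (N * y 0 - ((x - (1, 0) : Site).1 : ℤ)) *
    EUp_b (N * y 1 - ((x - (1, 0) : Site).2 : ℤ)) -
    EUp_p (N * y 0 - x.1) * EUp_b (N * y 1 - x.2))

/-- second partial derivative, divided by `N` -/
noncomputable def EUp_B (N : ℝ) (D : Finset Site) (f : Site → ℝ) (y : Plane) : ℝ :=
  ∑ x ∈ D, f x * (EUp_b (N * y 0 - ((x - (0, 1) : Site).1 : ℤ)) *
    EUp_p (N * y 1 - ((x - (0, 1) : Site).2 : ℤ)) -
    EUp_b (N * y 0 - x.1) * EUp_p (N * y 1 - x.2))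

theorem EUp_F_deriv (N : ℝ) (D : Finset Site) (f : Site → ℝ) (y : Plane) :
    HasFDerivAt (EUp_F N D f) ((N * EUp_A N D f y) • (EuclideanSpace.proj (0 : Fin 2) :
      Plane →L[ℝ] ℝ) + (N * EUp_B N D f y) • (EuclideanSpace.proj (1 : Fin 2) :
      Plane →L[ℝ] ℝ)) y := by
  have hp : ∀ i : Fin 2, ∀ m : ℝ, HasFDerivAt (fun y : Plane => N * y i - m)
      (N • (EuclideanSpace.proj i : Plane →L[ℝ] ℝ)) y := by
    intro i m
    exact (((EuclideanSpace.proj i : Plane →L[ℝ] ℝ).hasFDerivAt (x := y)).const_mul N).sub_const m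
  have h1 : ∀ x ∈ D, HasFDerivAt
      (fun y : Plane => f x * (EUp_b (N * y 0 - x.1) * EUp_b (N * y 1 - x.2)))
      (f x • (EUp_b (N * y 0 - x.1) • ((EUp_h (N * y 1 - x.2 + 1 / 2) -
        EUp_h (N * y 1 - x.2 - 1 / 2)) • (N • (EuclideanSpace.proj (1 : Fin 2) :
        Plane →L[ℝ] ℝ))) + EUp_b (N * y 1 - x.2) • ((EUp_h (N * y 0 - x.1 + 1 / 2) -
        EUp_h (N * y 0 - x.1 - 1 / 2)) • (N • (EuclideanSpace.proj (0 : Fin 2) :
        Plane →L[ℝ] ℝ))))) y := by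
    intro x _
    have b0 := (EUp_b_deriv (N * y 0 - x.1)).comp_hasFDerivAt y (hp 0 x.1)
    have b1 := (EUp_b_deriv (N * y 1 - x.2)).comp_hasFDerivAt y (hp 1 x.2)
    exact (b0.mul b1).const_mul (f x)
  have h2 := HasFDerivAt.fun_sum h1
  refine h2.congr_fderiv ?_
  ext v
  simp only [_root_.sum_apply, _root_.smul_apply, _root_.add_apply, smul_eq_mul, EUp_proj]
  unfold EUp_A EUp_B
  rw [Finset.mul_sum, Finset.mul_sum, Finset.sum_mul, Finset.sum_mul, ← Finset.sum_add_distrib]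
  refine Finset.sum_congr rfl fun x _ => ?_
  have a1 : N * y 0 - (((x - (1, 0) : Site).1 : ℤ) : ℝ) - 1 / 2 = N * y 0 - x.1 + 1 / 2 := by
    rw [Prod.fst_sub]; push_cast; ring
  have a2 : N * y 1 - (((x - (1, 0) : Site).2 : ℤ) : ℝ) = N * y 1 - x.2 := by
    rw [Prod.snd_sub]; push_cast; ring
  have a3 : N * y 1 - (((x - (0, 1) : Site).2 : ℤ) : ℝ) - 1 / 2 = N * y 1 - x.2 + 1 / 2 := by
    rw [Prod.snd_sub]; push_cast; ring
  have a4 : N * y 0 - (((x - (0, 1) : Site).1 : ℤ) : ℝ) = N * y 0 - x.1 := by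
    rw [Prod.fst_sub]; push_cast; ring
  unfold EUp_p
  rw [a1, a2, a3, a4]
  ring

theorem EUp_norm (a b : ℝ) : ‖a • (EuclideanSpace.proj (0 : Fin 2) : Plane →L[ℝ] ℝ) +
    b • (EuclideanSpace.proj (1 : Fin 2) : Plane →L[ℝ] ℝ)‖ ^ 2 ≤ a ^ 2 + b ^ 2 := by
  have h : ‖a • (EuclideanSpace.proj (0 : Fin 2) : Plane →L[ℝ] ℝ) +
      b • (EuclideanSpace.proj (1 : Fin 2) : Plane →L[ℝ] ℝ)‖ ≤ Real.sqrt (a ^ 2 + b ^ 2) := by
    apply ContinuousLinearMap.opNorm_le_bound _ (Real.sqrt_nonneg _)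
    intro v
    rw [EuclideanSpace.norm_eq, Fin.sum_univ_two, ← Real.sqrt_mul (by positivity)]
    apply Real.le_sqrt_of_sq_le
    simp only [_root_.add_apply, _root_.smul_apply, smul_eq_mul, EUp_proj, Real.norm_eq_abs,
      sq_abs]
    nlinarith [sq_nonneg (a * v 1 - b * v 0)]
  calc _ ≤ Real.sqrt (a ^ 2 + b ^ 2) ^ 2 := pow_le_pow_left₀ (norm_nonneg _) h 2
    _ = _ := Real.sq_sqrt (by positivity)

theorem EUp_grad {N : ℝ} (hN : 0 < N) {D : Finset Site} {f : Site → ℝ}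
    (hf : ∀ x, x ∉ D → f x = 0) : ∫ y, ‖fderiv ℝ (EUp_F N D f) y‖ ^ 2 ≤ dform D f := by
  classical
  set D₀ := D ∪ D.image (fun x => x - ((1, 0) : Site)) with hD₀
  set D₁ := D ∪ D.image (fun x => x - ((0, 1) : Site)) with hD₁
  set G : Plane → ℝ := fun y => N ^ 2 * (∑ x ∈ D₀, (f (x + (1, 0)) - f x) ^ 2 *
      (EUp_p (N * y 0 - x.1) * EUp_b (N * y 1 - x.2)) +
      ∑ x ∈ D₁, (f (x + (0, 1)) - f x) ^ 2 *
      (EUp_b (N * y 0 - x.1) * EUp_p (N * y 1 - x.2))) with hG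
  have hi0 : ∀ x : Site, Integrable fun y : Plane =>
      EUp_p (N * y 0 - x.1) * EUp_b (N * y 1 - x.2) := fun x =>
    EUp_plane_integrable (EUp_int_scaled EUp_p_integrable hN _)
      (EUp_int_scaled EUp_b_integrable hN _)
  have hi1 : ∀ x : Site, Integrable fun y : Plane =>
      EUp_b (N * y 0 - x.1) * EUp_p (N * y 1 - x.2) := fun x =>
    EUp_plane_integrable (EUp_int_scaled EUp_b_integrable hN _)
      (EUp_int_scaled EUp_p_integrable hN _)
  have hj0 : ∀ x : Site, ∫ y : Plane, EUp_p (N * y 0 - x.1) * EUp_b (N * y 1 - x.2) =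
      N⁻¹ ^ 2 := by
    intro x
    rw [EUp_plane_int (fun t => EUp_p (N * t - x.1)) (fun t => EUp_b (N * t - x.2)),
      EUp_scaled_int hN, EUp_scaled_int hN, EUp_p_int, EUp_b_int]
    ring
  have hj1 : ∀ x : Site, ∫ y : Plane, EUp_b (N * y 0 - x.1) * EUp_p (N * y 1 - x.2) =
      N⁻¹ ^ 2 := by
    intro x
    rw [EUp_plane_int (fun t => EUp_b (N * t - x.1)) (fun t => EUp_p (N * t - x.2)),
      EUp_scaled_int hN, EUp_scaled_int hN, EUp_p_int, EUp_b_int]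
    ring
  have hs0 : Integrable fun y : Plane => ∑ x ∈ D₀, (f (x + (1, 0)) - f x) ^ 2 *
      (EUp_p (N * y 0 - x.1) * EUp_b (N * y 1 - x.2)) :=
    integrable_finsetSum _ fun x _ => (hi0 x).const_mul _
  have hs1 : Integrable fun y : Plane => ∑ x ∈ D₁, (f (x + (0, 1)) - f x) ^ 2 *
      (EUp_b (N * y 0 - x.1) * EUp_p (N * y 1 - x.2)) :=
    integrable_finsetSum _ fun x _ => (hi1 x).const_mul _
  have hGi : Integrable G := (hs0.add hs1).const_mul _
  have hGint : ∫ y, G y = dform D f := by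
    rw [hG, integral_const_mul, integral_add hs0 hs1,
      integral_finsetSum _ fun x _ => (hi0 x).const_mul _,
      integral_finsetSum _ fun x _ => (hi1 x).const_mul _]
    have e0 : ∑ x ∈ D₀, ∫ y : Plane, (f (x + (1, 0)) - f x) ^ 2 *
        (EUp_p (N * y 0 - x.1) * EUp_b (N * y 1 - x.2)) = EUp_E f (1, 0) * N⁻¹ ^ 2 := by
      rw [EUp_E_fin hf, Finset.sum_mul]
      refine Finset.sum_congr rfl fun x _ => ?_
      rw [integral_const_mul, hj0]
    have e1 : ∑ x ∈ D₁, ∫ y : Plane, (f (x + (0, 1)) - f x) ^ 2 *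
        (EUp_b (N * y 0 - x.1) * EUp_p (N * y 1 - x.2)) = EUp_E f (0, 1) * N⁻¹ ^ 2 := by
      rw [EUp_E_fin hf, Finset.sum_mul]
      refine Finset.sum_congr rfl fun x _ => ?_
      rw [integral_const_mul, hj1]
    rw [e0, e1, EUp_dform hf]
    field_simp
  rw [← hGint]
  apply integral_mono_of_nonneg
  · exact Filter.Eventually.of_forall fun y => sq_nonneg _
  · exact hGi
  · refine Filter.Eventually.of_forall fun y => ?_
    show ‖fderiv ℝ (EUp_F N D f) y‖ ^ 2 ≤ G y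
    rw [(EUp_F_deriv N D f y).fderiv]
    refine (EUp_norm _ _).trans ?_
    have eA : EUp_A N D f y = ∑ x ∈ D₀, (f (x + (1, 0)) - f x) *
        (EUp_p (N * y 0 - x.1) * EUp_b (N * y 1 - x.2)) :=
      EUp_shift hf (1, 0) fun x => EUp_p (N * y 0 - x.1) * EUp_b (N * y 1 - x.2)
    have eB : EUp_B N D f y = ∑ x ∈ D₁, (f (x + (0, 1)) - f x) *
        (EUp_b (N * y 0 - x.1) * EUp_p (N * y 1 - x.2)) :=
      EUp_shift hf (0, 1) fun x => EUp_b (N * y 0 - x.1) * EUp_p (N * y 1 - x.2)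
    have jA : EUp_A N D f y ^ 2 ≤ ∑ x ∈ D₀, (f (x + (1, 0)) - f x) ^ 2 *
        (EUp_p (N * y 0 - x.1) * EUp_b (N * y 1 - x.2)) := by
      rw [eA]
      exact EUp_jensen (c := fun x : Site => EUp_p (N * y 0 - x.1) * EUp_b (N * y 1 - x.2))
        (fun x => mul_nonneg (EUp_p_nonneg _) (EUp_b_nonneg _))
        (EUp_part EUp_p_nonneg EUp_b_nonneg EUp_p_sum_le EUp_b_sum_le _ _ _)
    have jB : EUp_B N D f y ^ 2 ≤ ∑ x ∈ D₁, (f (x + (0, 1)) - f x) ^ 2 *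
        (EUp_b (N * y 0 - x.1) * EUp_p (N * y 1 - x.2)) := by
      rw [eB]
      exact EUp_jensen (c := fun x : Site => EUp_b (N * y 0 - x.1) * EUp_p (N * y 1 - x.2))
        (fun x => mul_nonneg (EUp_b_nonneg _) (EUp_p_nonneg _))
        (EUp_part EUp_b_nonneg EUp_p_nonneg EUp_b_sum_le EUp_p_sum_le _ _ _)
    have hN2 : 0 ≤ N ^ 2 := sq_nonneg _
    calc (N * EUp_A N D f y) ^ 2 + (N * EUp_B N D f y) ^ 2 =
        N ^ 2 * (EUp_A N D f y ^ 2 + EUp_B N D f y ^ 2) := by ring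
      _ ≤ _ := mul_le_mul_of_nonneg_left (add_le_add jA jB) hN2

/-- the variational bound for a test function which is not normalised -/
theorem EUp_lam_le {U : Set Plane} {F : Plane → ℝ} (h1 : ContDiff ℝ 1 F)
    (h2 : HasCompactSupport F) (h3 : tsupport F ⊆ U) (h4 : 0 < ∫ y, F y ^ 2) :
    lam U ≤ (∫ y, ‖fderiv ℝ F y‖ ^ 2) / ∫ y, F y ^ 2 := by
  set I : ℝ := ∫ y, F y ^ 2 with hI
  set c : ℝ := (Real.sqrt I)⁻¹ with hc
  have hc2 : c ^ 2 = I⁻¹ := by rw [hc, inv_pow, Real.sq_sqrt h4.le]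
  have hbd : BddBelow {r | ∃ f : Plane → ℝ, ContDiff ℝ 1 f ∧ HasCompactSupport f ∧
      tsupport f ⊆ U ∧ ∫ x, f x ^ 2 = 1 ∧ r = ∫ x, ‖fderiv ℝ f x‖ ^ 2} := by
    refine ⟨0, ?_⟩
    rintro r ⟨f, -, -, -, -, rfl⟩
    exact integral_nonneg fun _ => sq_nonneg _
  refine csInf_le hbd ⟨fun y => c * F y, contDiff_const.mul h1, h2.mul_left, ?_, ?_, ?_⟩
  · exact (tsupport_mul_subset_right).trans h3
  · have : (fun y => (c * F y) ^ 2) = fun y => c ^ 2 * F y ^ 2 := by funext y; ring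
    rw [this, integral_const_mul, hc2, ← hI, inv_mul_cancel₀ h4.ne']
  · have : (fun y => ‖fderiv ℝ (fun y => c * F y) y‖ ^ 2) =
        fun y => c ^ 2 * ‖fderiv ℝ F y‖ ^ 2 := by
      funext y
      rw [fderiv_const_mul (h1.differentiable (by norm_num) y), norm_smul, mul_pow,
        Real.norm_eq_abs, sq_abs]
    rw [this, integral_const_mul, hc2]
    ring

theorem lam_le_lamD {ε Λ : ℝ} (hε : 0 < ε) (hΛ : 0 < Λ) : ∃ N₀ : ℝ, 0 < N₀ ∧ ∀ N : ℝ, N₀ ≤ N →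
    ∀ D : Finset Site, D.Nonempty → ∀ U : Set Plane, IsOpen U →
      (∀ x ∈ D, Metric.closedBall (N⁻¹ • toPlane x) ε ⊆ U) →
        min (lam U) Λ ≤ N ^ 2 * lamD D + ε := by
  refine ⟨3 / ε + 8 * (Λ + 1) + 16 * (Λ + 1) ^ 2 / ε + 1, by positivity, ?_⟩
  intro N hN D hD U hU hDU
  have p1 : 0 < 3 / ε := by positivity
  have p2 : 0 < 16 * (Λ + 1) ^ 2 / ε := by positivity
  have hN1 : 1 ≤ N := by nlinarith
  have hN0 : 0 < N := by linarith
  have hNN : N ≤ N ^ 2 := by nlinarith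
  by_cases hbig : Λ ≤ N ^ 2 * lamD D
  · exact (min_le_right _ _).trans (by linarith)
  push Not at hbig
  refine (min_le_left _ _).trans ?_
  -- choose a test function
  set δ : ℝ := min 1 (ε / 2) / N ^ 2 with hδ
  have hδ0 : 0 < δ := by positivity
  have hδN : N ^ 2 * δ = min 1 (ε / 2) := by rw [hδ]; field_simp
  obtain ⟨x₀, hx₀⟩ := hD
  have hne : {r | ∃ f : Site → ℝ, (∀ x, x ∉ D → f x = 0) ∧ ∑ x ∈ D, f x ^ 2 = 1 ∧
      r = dform D f}.Nonempty := by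
    classical
    refine ⟨_, fun x => if x = x₀ then 1 else 0, ?_, ?_, rfl⟩
    · intro x hx
      have hne : x ≠ x₀ := by
        rintro rfl
        exact hx hx₀
      exact if_neg hne
    · simp [hx₀]
  obtain ⟨r, ⟨f, hf, hf1, rfl⟩, hr⟩ := exists_lt_of_csInf_lt hne
    (lt_add_of_pos_right (lamD D) hδ0)
  set a : ℝ := dform D f with ha
  have ha0 : 0 ≤ a := by
    rw [ha, EUp_dform hf]
    exact add_nonneg (EUp_E_nonneg _ _) (EUp_E_nonneg _ _)
  have haN : N ^ 2 * a ≤ N ^ 2 * lamD D + min 1 (ε / 2) := by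
    have : N ^ 2 * a ≤ N ^ 2 * (lamD D + δ) := mul_le_mul_of_nonneg_left hr.le (by positivity)
    rw [mul_add, hδN] at this
    exact this
  have haN1 : N ^ 2 * a ≤ Λ + 1 := by
    have := min_le_left 1 (ε / 2)
    linarith
  have ha8 : 8 * a ≤ 1 := by
    have h1 : 8 * (Λ + 1) ≤ N ^ 2 := by linarith
    have h2 : N ^ 2 * (8 * a) ≤ N ^ 2 * 1 := by linarith
    exact le_of_mul_le_mul_left h2 (by positivity)
  have h3N : 3 ≤ N * ε := by
    have : 3 / ε ≤ N := by nlinarith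
    rw [div_le_iff₀ hε] at this
    exact this
  obtain ⟨s1, s2⟩ := EUp_F_supp hN0 (D := D) (f := f) h3N
  have s3 : tsupport (EUp_F N D f) ⊆ U := by
    refine s2.trans ?_
    intro y hy
    obtain ⟨x, hx, hxy⟩ := Set.mem_iUnion₂.1 hy
    exact hDU x hx hxy
  have hsq := EUp_F_sq hN0 hf
  rw [hf1, ← ha] at hsq
  have hgr := EUp_grad hN0 hf
  rw [← ha] at hgr
  have hpos : 0 < N⁻¹ ^ 2 * (1 - 4 * a) := by
    have : 0 < 1 - 4 * a := by linarith
    positivity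
  have hpos' : 0 < ∫ y, EUp_F N D f y ^ 2 := hpos.trans_le hsq
  have hlam := EUp_lam_le (EUp_F_C1 N D f) s1 s3 hpos'
  have hle : (∫ y, ‖fderiv ℝ (EUp_F N D f) y‖ ^ 2) / ∫ y, EUp_F N D f y ^ 2 ≤
      N ^ 2 * a * (1 + 8 * a) := by
    have h1 : (∫ y, ‖fderiv ℝ (EUp_F N D f) y‖ ^ 2) / ∫ y, EUp_F N D f y ^ 2 ≤
        a / (N⁻¹ ^ 2 * (1 - 4 * a)) := by
      apply div_le_div₀ ha0 hgr hpos hsq
    refine h1.trans ?_
    rw [div_le_iff₀ hpos]
    have h2 : N ^ 2 * a * (1 + 8 * a) * (N⁻¹ ^ 2 * (1 - 4 * a)) =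
        a * ((1 + 8 * a) * (1 - 4 * a)) := by field_simp
    rw [h2]
    have h3 : 1 ≤ (1 + 8 * a) * (1 - 4 * a) := by nlinarith
    nlinarith
  have hfin : N ^ 2 * a * (8 * a) ≤ ε / 2 := by
    have h1 : 16 * (Λ + 1) ^ 2 / ε ≤ N ^ 2 := by nlinarith
    rw [div_le_iff₀ hε] at h1
    have h2 : (N ^ 2 * a) ^ 2 ≤ (Λ + 1) ^ 2 := pow_le_pow_left₀ (by positivity) haN1 2
    have h3 : N ^ 2 * (N ^ 2 * a * (8 * a)) ≤ N ^ 2 * (ε / 2) := by nlinarith
    exact le_of_mul_le_mul_left h3 (by positivity)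
  have h5 := min_le_right 1 (ε / 2)
  have h6 : N ^ 2 * a * (1 + 8 * a) = N ^ 2 * a + N ^ 2 * a * (8 * a) := by ring
  linarith

end Pool.Agent.WSB71
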