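import Pool.Agent.WSB71.ELow
import Pool.Agent.WSB71.EUp

/-!
# E: lattice and continuum eigenvalues: `lamD_le_lam` (`ELow.lean`), `lam_le_lamD` (`EUp.lean`)
-/
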