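import Mathlib

/-!
# E2, part A: the quadratic B-spline in one variable
-/

open MeasureTheory Filter Topology

namespace Pool.Agent.WSB71

/-- the hat function -/
noncomputable def EUp_h (t : ℝ) : ℝ := max 0 (1 - |t|)

/-- the quadratic B-spline -/
noncomputable def EUp_b (s : ℝ) : ℝ := ∫ t in (s - 1 / 2)..(s + 1 / 2), EUp_h t

theorem EUp_h_cont : Continuous EUp_h := by
  unfold EUp_h; fun_prop

theorem EUp_h_nonneg (t : ℝ) : 0 ≤ EUp_h t := le_max_left _ _

theorem EUp_h_zero {t : ℝ} (ht : 1 ≤ |t|) : EUp_h t = 0 := max_eq_left (by linarith)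

theorem EUp_h_neg (t : ℝ) : EUp_h (-t) = EUp_h t := by
  unfold EUp_h; rw [abs_neg]

theorem EUp_h_sum_eq {s : ℝ} {A : Finset ℤ} (h0 : ⌊s⌋ ∈ A) (h1 : ⌊s⌋ + 1 ∈ A) :
    ∑ m ∈ A, EUp_h (s - m) = 1 := by
  have hsub : ({⌊s⌋, ⌊s⌋ + 1} : Finset ℤ) ⊆ A := by
    intro x hx
    rw [Finset.mem_insert, Finset.mem_singleton] at hx
    rcases hx with rfl | rfl
    · exact h0
    · exact h1
  have f1 := Int.floor_le s
  have f2 := Int.lt_floor_add_one s
  rw [← Finset.sum_subset hsub]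
  · rw [Finset.sum_pair (by omega)]
    unfold EUp_h
    push_cast
    rw [abs_of_nonneg (by linarith : 0 ≤ s - (⌊s⌋ : ℝ)),
      abs_of_nonpos (by linarith : s - ((⌊s⌋ : ℝ) + 1) ≤ 0), max_eq_right (by linarith),
      max_eq_right (by linarith)]
    ring
  · intro m _ hm
    rw [Finset.mem_insert, Finset.mem_singleton] at hm
    push Not at hm
    apply EUp_h_zero
    rcases lt_or_gt_of_ne hm.1 with h | h
    · have : (m : ℝ) + 1 ≤ ⌊s⌋ := by exact_mod_cast h
      exact le_trans (by linarith) (le_abs_self _)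
    · have h' : ⌊s⌋ + 2 ≤ m := by omega
      have : (⌊s⌋ : ℝ) + 2 ≤ m := by exact_mod_cast h'
      rw [abs_of_nonpos (by linarith)]
      linarith

theorem EUp_h_sum_le (s : ℝ) (A : Finset ℤ) : ∑ m ∈ A, EUp_h (s - m) ≤ 1 := by
  have h := EUp_h_sum_eq (s := s) (A := A ∪ {⌊s⌋, ⌊s⌋ + 1}) (by simp) (by simp)
  rw [← h]
  exact Finset.sum_le_sum_of_subset_of_nonneg Finset.subset_union_left
    fun m _ _ => EUp_h_nonneg _

theorem EUp_h_sum_two {t : ℝ} (ht : |t| ≤ 2) :
    ∑ m ∈ Finset.Icc (-2 : ℤ) 2, EUp_h (t - m) = 1 := by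
  obtain ⟨ht1, ht2⟩ := abs_le.1 ht
  have hf1 : -2 ≤ ⌊t⌋ := by
    rw [Int.le_floor]; push_cast; exact ht1
  have hf2 : ⌊t⌋ ≤ 2 := by
    have : ⌊t⌋ ≤ ⌊(2 : ℝ)⌋ := Int.floor_mono ht2
    simpa using this
  have h := EUp_h_sum_eq (s := t) (A := Finset.Icc (-2 : ℤ) 3) (by simp; omega) (by simp; omega)
  rw [← h]
  apply Finset.sum_subset
  · intro m hm
    rw [Finset.mem_Icc] at hm ⊢
    omega
  · intro m hm hm'
    rw [Finset.mem_Icc] at hm hm'
    have : m = 3 := by omega
    rw [this]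
    apply EUp_h_zero
    push_cast
    rw [abs_of_nonpos (by linarith)]
    linarith

theorem EUp_b_eq (s : ℝ) (m : ℤ) :
    EUp_b (s - m) = ∫ t in (s - 1 / 2)..(s + 1 / 2), EUp_h (t - m) := by
  unfold EUp_b
  rw [intervalIntegral.integral_comp_sub_right (fun t => EUp_h t) (m : ℝ)]
  congr 1 <;> ring

theorem EUp_b_sum (s : ℝ) (A : Finset ℤ) : ∑ m ∈ A, EUp_b (s - m) =
    ∫ t in (s - 1 / 2)..(s + 1 / 2), ∑ m ∈ A, EUp_h (t - m) := by
  rw [intervalIntegral.integral_finsetSum]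
  · exact Finset.sum_congr rfl fun m _ => EUp_b_eq s m
  · intro m _
    exact (EUp_h_cont.comp (continuous_id.sub continuous_const)).intervalIntegrable _ _

theorem EUp_b_nonneg (s : ℝ) : 0 ≤ EUp_b s :=
  intervalIntegral.integral_nonneg (by linarith) fun t _ => EUp_h_nonneg t

theorem EUp_b_zero {s : ℝ} (hs : 3 / 2 ≤ |s|) : EUp_b s = 0 := by
  unfold EUp_b
  rw [intervalIntegral.integral_congr (g := fun _ => (0 : ℝ))]
  · simp
  · intro t ht
    rw [Set.uIcc_of_le (by linarith)] at ht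
    apply EUp_h_zero
    rcases le_abs.1 hs with h | h
    · exact le_trans (by linarith [ht.1]) (le_abs_self _)
    · rw [abs_of_nonpos (by linarith [ht.2])]
      linarith [ht.2]

theorem EUp_b_sum_le (s : ℝ) (A : Finset ℤ) : ∑ m ∈ A, EUp_b (s - m) ≤ 1 := by
  rw [EUp_b_sum]
  have hc : Continuous fun t : ℝ => ∑ m ∈ A, EUp_h (t - m) :=
    continuous_finsetSum _ fun m _ => EUp_h_cont.comp (continuous_id.sub continuous_const)
  have h := intervalIntegral.integral_mono_on (μ := volume) (f := fun t : ℝ => ∑ m ∈ A, EUp_h (t - m))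
    (g := fun _ => (1 : ℝ)) (by linarith : s - 1 / 2 ≤ s + 1 / 2) (hc.intervalIntegrable _ _)
    intervalIntegrable_const fun t _ => EUp_h_sum_le t A
  refine h.trans (le_of_eq ?_)
  rw [intervalIntegral.integral_const, smul_eq_mul]
  ring

theorem EUp_b_sum_eq {s : ℝ} (hs : |s| ≤ 3 / 2) :
    ∑ m ∈ Finset.Icc (-2 : ℤ) 2, EUp_b (s - m) = 1 := by
  obtain ⟨h1, h2⟩ := abs_le.1 hs
  rw [EUp_b_sum, intervalIntegral.integral_congr (g := fun _ => (1 : ℝ))]
  · rw [intervalIntegral.integral_const, smul_eq_mul]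
    ring
  · intro t ht
    rw [Set.uIcc_of_le (by linarith)] at ht
    exact EUp_h_sum_two (abs_le.2 ⟨by linarith [ht.1], by linarith [ht.2]⟩)

theorem EUp_b_deriv (s : ℝ) : HasDerivAt EUp_b (EUp_h (s + 1 / 2) - EUp_h (s - 1 / 2)) s := by
  have hF : ∀ x : ℝ, HasDerivAt (fun u => ∫ t in (0 : ℝ)..u, EUp_h t) (EUp_h x) x := fun x =>
    intervalIntegral.integral_hasDerivAt_right (EUp_h_cont.intervalIntegrable _ _)
      (EUp_h_cont.stronglyMeasurableAtFilter _ _) EUp_h_cont.continuousAt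
  have h1 : HasDerivAt (fun s : ℝ => ∫ t in (0 : ℝ)..(s + 1 / 2), EUp_h t) (EUp_h (s + 1 / 2)) s := by
    exact (hF (s + 1 / 2)).comp_add_const s (1 / 2)
  have h2 : HasDerivAt (fun s : ℝ => ∫ t in (0 : ℝ)..(s - 1 / 2), EUp_h t) (EUp_h (s - 1 / 2)) s := by
    exact (hF (s - 1 / 2)).comp_sub_const s (1 / 2)
  refine (h1.sub h2).congr_of_eventuallyEq (Filter.Eventually.of_forall fun u => ?_)
  show EUp_b u = (∫ t in (0 : ℝ)..(u + 1 / 2), EUp_h t) - ∫ t in (0 : ℝ)..(u - 1 / 2), EUp_h t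
  unfold EUp_b
  rw [intervalIntegral.integral_interval_sub_left (EUp_h_cont.intervalIntegrable _ _)
    (EUp_h_cont.intervalIntegrable _ _)]

theorem EUp_b_cont : Continuous EUp_b :=
  continuous_iff_continuousAt.2 fun s => (EUp_b_deriv s).continuousAt

theorem EUp_b_C1 : ContDiff ℝ 1 EUp_b := by
  rw [contDiff_one_iff_deriv]
  refine ⟨fun s => (EUp_b_deriv s).differentiableAt, ?_⟩
  have : deriv EUp_b = fun s => EUp_h (s + 1 / 2) - EUp_h (s - 1 / 2) :=
    funext fun s => (EUp_b_deriv s).deriv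
  rw [this]
  have := EUp_h_cont
  fun_prop

/-- a function with the partition of unity property has integral `1` -/
theorem EUp_int_one {g : ℝ → ℝ} (hg : Continuous g) (h0 : ∀ t, 2 ≤ |t| → g t = 0)
    (h1 : ∀ t ∈ Set.Icc (0 : ℝ) 1, ∑ m ∈ Finset.Icc (-2 : ℤ) 2, g (t - m) = 1) :
    ∫ t, g t = 1 := by
  have hsupp : Function.support g ⊆ Set.Ioc (-2 : ℝ) 2 := by
    intro t ht
    by_contra hcon
    apply ht
    apply h0
    rw [Set.mem_Ioc, not_and_or, not_lt, not_le] at hcon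
    rcases hcon with h | h
    · rw [abs_of_nonpos (by linarith)]; linarith
    · rw [abs_of_nonneg (by linarith)]; exact h.le
  rw [← intervalIntegral.integral_eq_integral_of_support_subset hsupp]
  have hi : ∀ a b : ℝ, IntervalIntegrable g volume a b := fun a b => hg.intervalIntegrable _ _
  have hs : ∀ m : ℝ, ∫ t in m..(m + 1), g t = ∫ t in (0 : ℝ)..1, g (t + m) := by
    intro m
    rw [intervalIntegral.integral_comp_add_right (fun t => g t) m]
    congr 1 <;> ring
  have e1 : ∫ t in (-2 : ℝ)..2, g t = (∫ t in (-2 : ℝ)..(-2 + 1), g t) +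
      (∫ t in (-1 : ℝ)..(-1 + 1), g t) + (∫ t in (0 : ℝ)..(0 + 1), g t) +
      (∫ t in (1 : ℝ)..(1 + 1), g t) := by
    have a1 : (-2 : ℝ) + 1 = -1 := by norm_num
    have a2 : (-1 : ℝ) + 1 = 0 := by norm_num
    have a3 : (0 : ℝ) + 1 = 1 := by norm_num
    have a4 : (1 : ℝ) + 1 = 2 := by norm_num
    rw [a1, a2, a3, a4, intervalIntegral.integral_add_adjacent_intervals (hi _ _) (hi _ _),
      intervalIntegral.integral_add_adjacent_intervals (hi _ _) (hi _ _),
      intervalIntegral.integral_add_adjacent_intervals (hi _ _) (hi _ _)]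
  have hc : ∀ m : ℝ, IntervalIntegrable (fun t => g (t + m)) volume 0 1 := fun m =>
    (hg.comp (continuous_id.add continuous_const)).intervalIntegrable _ _
  rw [e1, hs, hs, hs, hs, ← intervalIntegral.integral_add (hc _) (hc _),
    ← intervalIntegral.integral_add ((hc _).add (hc _)) (hc _),
    ← intervalIntegral.integral_add (((hc _).add (hc _)).add (hc _)) (hc _)]
  rw [intervalIntegral.integral_congr (g := fun _ => (1 : ℝ))]
  · simp
  · intro t ht
    rw [Set.uIcc_of_le (by norm_num)] at ht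
    have h2 := h1 t ht
    have e2 : Finset.Icc (-2 : ℤ) 2 = {-2, -1, 0, 1, 2} := by decide
    rw [e2, Finset.sum_insert (by decide), Finset.sum_insert (by decide),
      Finset.sum_insert (by decide), Finset.sum_insert (by decide), Finset.sum_singleton] at h2
    push_cast at h2
    have h3 : g (t - -2) = 0 := h0 _ (by
      rw [abs_of_nonneg (by linarith [ht.1])]; linarith [ht.1])
    rw [h3] at h2
    show g (t + -2) + g (t + -1) + g (t + 0) + g (t + 1) = 1
    have a1 : t + -2 = t - 2 := by ring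
    have a2 : t + -1 = t - 1 := by ring
    have a3 : t + 0 = t - 0 := by ring
    have a4 : t + 1 = t - -1 := by ring
    rw [a1, a2, a3, a4]
    linarith

theorem EUp_h_int : ∫ t, EUp_h t = 1 :=
  EUp_int_one EUp_h_cont (fun t ht => EUp_h_zero (by linarith))
    fun t ht => EUp_h_sum_two (abs_le.2 ⟨by linarith [ht.1], by linarith [ht.2]⟩)

theorem EUp_b_int : ∫ t, EUp_b t = 1 :=
  EUp_int_one EUp_b_cont (fun t ht => EUp_b_zero (by linarith))
    fun t ht => EUp_b_sum_eq (abs_le.2 ⟨by linarith [ht.1], by linarith [ht.2]⟩)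

theorem EUp_h_supp : HasCompactSupport EUp_h :=
  HasCompactSupport.intro (isCompact_Icc (a := (-1 : ℝ)) (b := 1)) fun t ht => by
    apply EUp_h_zero
    by_contra hcon
    push Not at hcon
    obtain ⟨h1, h2⟩ := abs_lt.1 hcon
    exact ht ⟨h1.le, h2.le⟩

theorem EUp_b_supp : HasCompactSupport EUp_b :=
  HasCompactSupport.intro (isCompact_Icc (a := (-3 / 2 : ℝ)) (b := 3 / 2)) fun t ht => by
    apply EUp_b_zero
    by_contra hcon
    push Not at hcon
    obtain ⟨h1, h2⟩ := abs_lt.1 hcon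
    exact ht ⟨by linarith, h2.le⟩

theorem EUp_h_integrable : Integrable EUp_h := EUp_h_cont.integrable_of_hasCompactSupport EUp_h_supp

theorem EUp_b_integrable : Integrable EUp_b := EUp_b_cont.integrable_of_hasCompactSupport EUp_b_supp

/-- the autocorrelation of the B-spline -/
noncomputable def EUp_k (m : ℤ) : ℝ := ∫ s, EUp_b s * EUp_b (s - m)

theorem EUp_bb_integrable (m n : ℝ) : Integrable fun s => EUp_b (s - m) * EUp_b (s - n) := by
  have h1 : Continuous fun s => EUp_b (s - m) * EUp_b (s - n) := by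
    have := EUp_b_cont
    fun_prop
  refine h1.integrable_of_hasCompactSupport ?_
  exact (EUp_b_supp.comp_homeomorph (Homeomorph.subRight m)).mul_right

theorem EUp_k_nonneg (m : ℤ) : 0 ≤ EUp_k m :=
  integral_nonneg fun s => mul_nonneg (EUp_b_nonneg _) (EUp_b_nonneg _)

theorem EUp_k_zero {m : ℤ} (hm : m ∉ Finset.Icc (-2 : ℤ) 2) : EUp_k m = 0 := by
  unfold EUp_k
  have : (fun s => EUp_b s * EUp_b (s - m)) = fun _ => (0 : ℝ) := by
    funext s
    by_cases hs : 3 / 2 ≤ |s|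
    · rw [EUp_b_zero hs, zero_mul]
    · push Not at hs
      obtain ⟨h1, h2⟩ := abs_lt.1 hs
      rw [EUp_b_zero (s := s - m), mul_zero]
      rw [Finset.mem_Icc, not_and_or, not_le, not_le] at hm
      rcases hm with h | h
      · have : (m : ℝ) ≤ -3 := by exact_mod_cast (by omega : m ≤ -3)
        exact le_trans (by linarith) (le_abs_self _)
      · have : (3 : ℝ) ≤ m := by exact_mod_cast (by omega : 3 ≤ m)
        rw [abs_of_nonpos (by linarith)]
        linarith
  rw [this]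
  simp

theorem EUp_k_sum : ∑ m ∈ Finset.Icc (-2 : ℤ) 2, EUp_k m = 1 := by
  unfold EUp_k
  rw [← integral_finsetSum _ fun m _ => by simpa using EUp_bb_integrable 0 m, ← EUp_b_int]
  congr 1
  funext s
  rw [← Finset.mul_sum]
  by_cases hs : 3 / 2 ≤ |s|
  · rw [EUp_b_zero hs, zero_mul]
  · rw [EUp_b_sum_eq (not_le.1 hs).le, mul_one]

/-- scaled autocorrelation -/
theorem EUp_k_scaled {N : ℝ} (hN : 0 < N) (m n : ℤ) :
    ∫ t, EUp_b (N * t - m) * EUp_b (N * t - n) = N⁻¹ * EUp_k (n - m) := by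
  have h1 := Measure.integral_comp_mul_left (fun s => EUp_b (s - m) * EUp_b (s - n)) N
  rw [h1, abs_of_pos (by positivity), smul_eq_mul]
  congr 1
  have h2 := integral_sub_right_eq_self (μ := volume) (fun s => EUp_b s * EUp_b (s - (n - m : ℤ)))
    (m : ℝ)
  unfold EUp_k
  rw [← h2]
  congr 1
  funext s
  push_cast
  congr 2
  ring

theorem EUp_scaled_int {p : ℝ → ℝ} {N : ℝ} (hN : 0 < N) (m : ℝ) :
    ∫ t, p (N * t - m) = N⁻¹ * ∫ t, p t := by
  have h1 := Measure.integral_comp_mul_left (fun s => p (s - m)) N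
  rw [h1, abs_of_pos (by positivity), smul_eq_mul, integral_sub_right_eq_self]

end Pool.Agent.WSB71
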