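import Pool.Agent.WSB71.Defs
import Pool.Agent.WSB71.EUpA

/-!
# E2, part B: identities on the lattice
-/

open MeasureTheory Filter Topology

namespace Pool.Agent.WSB71

open Pool.Agent.LT

/-- correlation sum -/
noncomputable def EUp_S (f : Site → ℝ) (u : Site) : ℝ := ∑' x, f x * f (x + u)

/-- energy of the differences in direction `u` -/
noncomputable def EUp_E (f : Site → ℝ) (u : Site) : ℝ := ∑' x, (f (x + u) - f x) ^ 2

theorem EUp_summable {f : Site → ℝ} {D : Finset Site} (hf : ∀ x, x ∉ D → f x = 0) :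
    Summable f := summable_of_ne_finset_zero (s := D) hf

theorem EUp_sum1 {f : Site → ℝ} {D : Finset Site} (hf : ∀ x, x ∉ D → f x = 0) (u : Site) :
    Summable fun x => f x * f (x + u) :=
  EUp_summable (D := D) fun x hx => by rw [hf x hx, zero_mul]

theorem EUp_sum2 {f : Site → ℝ} {D : Finset Site} (hf : ∀ x, x ∉ D → f x = 0) :
    Summable fun x => f x ^ 2 :=
  EUp_summable (D := D) fun x hx => by rw [hf x hx]; ring

theorem EUp_sum3 {f : Site → ℝ} {D : Finset Site} (hf : ∀ x, x ∉ D → f x = 0) (u : Site) :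
    Summable fun x => f (x + u) ^ 2 :=
  (Equiv.addRight u).summable_iff.2 (EUp_sum2 hf)

theorem EUp_sumE {f : Site → ℝ} {D : Finset Site} (hf : ∀ x, x ∉ D → f x = 0) (u : Site) :
    Summable fun x => (f (x + u) - f x) ^ 2 := by
  have := ((EUp_sum3 hf u).add (EUp_sum2 hf)).sub ((EUp_sum1 hf u).mul_left 2)
  refine this.congr fun x => ?_
  ring

theorem EUp_E_eq {f : Site → ℝ} {D : Finset Site} (hf : ∀ x, x ∉ D → f x = 0) (u : Site) :
    EUp_E f u = 2 * EUp_S f 0 - 2 * EUp_S f u := by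
  have h1 : EUp_E f u = ∑' x, (f (x + u) ^ 2 + f x ^ 2 - 2 * (f x * f (x + u))) :=
    tsum_congr fun x => by ring
  have h2 : ∑' x, f (x + u) ^ 2 = ∑' x, f x ^ 2 := (Equiv.addRight u).tsum_eq fun x => f x ^ 2
  have h3 : EUp_S f 0 = ∑' x, f x ^ 2 := tsum_congr fun x => by rw [add_zero, pow_two]
  rw [h1, ((EUp_sum3 hf u).add (EUp_sum2 hf)).tsum_sub ((EUp_sum1 hf u).mul_left 2),
    (EUp_sum3 hf u).tsum_add (EUp_sum2 hf), h2, h3, tsum_mul_left]
  unfold EUp_S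
  ring

theorem EUp_S_neg (f : Site → ℝ) (u : Site) : EUp_S f (-u) = EUp_S f u := by
  unfold EUp_S
  rw [← (Equiv.addRight u).tsum_eq fun x => f x * f (x + -u)]
  refine tsum_congr fun x => ?_
  simp only [Equiv.coe_addRight]
  rw [add_neg_cancel_right, mul_comm]

theorem EUp_S_fin {f : Site → ℝ} {D : Finset Site} (hf : ∀ x, x ∉ D → f x = 0) (u : Site) :
    EUp_S f u = ∑ x ∈ D, f x * f (x + u) :=
  tsum_eq_sum fun x hx => by rw [hf x hx, zero_mul]

theorem EUp_dform {f : Site → ℝ} {D : Finset Site} (hf : ∀ x, x ∉ D → f x = 0) :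
    dform D f = EUp_E f (1, 0) + EUp_E f (0, 1) := by
  have h0 : ∑ x ∈ D, f x ^ 2 = EUp_S f 0 := by
    rw [EUp_S_fin hf]
    exact Finset.sum_congr rfl fun x _ => by rw [add_zero, pow_two]
  have h1 := EUp_S_fin hf (1, 0)
  have h2 := EUp_S_fin hf (-1, 0)
  have h3 := EUp_S_fin hf (0, 1)
  have h4 := EUp_S_fin hf (0, -1)
  have h5 : EUp_S f (-1, 0) = EUp_S f (1, 0) := EUp_S_neg f (1, 0)
  have h6 : EUp_S f (0, -1) = EUp_S f (0, 1) := EUp_S_neg f (0, 1)
  have hd : dform D f = 4 * ∑ x ∈ D, f x ^ 2 - (∑ x ∈ D, f x * f (x + (1, 0)) +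
      ∑ x ∈ D, f x * f (x + (-1, 0)) + ∑ x ∈ D, f x * f (x + (0, 1)) +
      ∑ x ∈ D, f x * f (x + (0, -1))) := by
    unfold dform
    rw [Finset.mul_sum, ← Finset.sum_add_distrib, ← Finset.sum_add_distrib,
      ← Finset.sum_add_distrib, ← Finset.sum_sub_distrib]
    refine Finset.sum_congr rfl fun x _ => ?_
    unfold units
    rw [Finset.sum_insert (by decide), Finset.sum_insert (by decide),
      Finset.sum_insert (by decide), Finset.sum_singleton]
    ring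
  rw [hd, h0, ← h1, ← h2, ← h3, ← h4, h5, h6, EUp_E_eq hf, EUp_E_eq hf]
  ring

theorem EUp_E_nonneg (f : Site → ℝ) (u : Site) : 0 ≤ EUp_E f u :=
  tsum_nonneg fun _ => sq_nonneg _

theorem EUp_E_add {f : Site → ℝ} {D : Finset Site} (hf : ∀ x, x ∉ D → f x = 0) (u v : Site) :
    EUp_E f (u + v) ≤ 2 * EUp_E f u + 2 * EUp_E f v := by
  have h1 : EUp_E f u = ∑' x, (f (x + v + u) - f (x + v)) ^ 2 :=
    ((Equiv.addRight v).tsum_eq fun x => (f (x + u) - f x) ^ 2).symm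
  have hs : Summable fun x => (f (x + v + u) - f (x + v)) ^ 2 :=
    (Equiv.addRight v).summable_iff.2 (EUp_sumE hf u)
  rw [h1]
  unfold EUp_E
  rw [← tsum_mul_left, ← tsum_mul_left, ← (hs.mul_left 2).tsum_add ((EUp_sumE hf v).mul_left 2)]
  refine (EUp_sumE hf (u + v)).tsum_le_tsum (fun x => ?_)
    ((hs.mul_left 2).add ((EUp_sumE hf v).mul_left 2))
  have : x + (u + v) = x + v + u := by abel
  rw [this]
  nlinarith [sq_nonneg ((f (x + v + u) - f (x + v)) - (f (x + v) - f x))]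

theorem EUp_E_neg {f : Site → ℝ} {D : Finset Site} (hf : ∀ x, x ∉ D → f x = 0) (u : Site) :
    EUp_E f (-u) = EUp_E f u := by
  rw [EUp_E_eq hf, EUp_E_eq hf, EUp_S_neg]

theorem EUp_E_zero (f : Site → ℝ) : EUp_E f 0 = 0 := by
  unfold EUp_E
  have : (fun x => (f (x + 0) - f x) ^ 2) = fun _ : Site => (0 : ℝ) := by
    funext x; rw [add_zero, sub_self]; ring
  rw [this, tsum_zero]

theorem EUp_E_two {f : Site → ℝ} {D : Finset Site} (hf : ∀ x, x ∉ D → f x = 0) (u : Site) {a : ℤ}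
    (ha : a ∈ Finset.Icc (-2 : ℤ) 2) : EUp_E f (a • u) ≤ 4 * EUp_E f u := by
  have h0 := EUp_E_nonneg f u
  have h2 : EUp_E f ((2 : ℤ) • u) ≤ 4 * EUp_E f u := by
    have : (2 : ℤ) • u = u + u := two_zsmul u
    rw [this]
    have := EUp_E_add hf u u
    linarith
  rw [Finset.mem_Icc] at ha
  obtain ⟨h3, h4⟩ := ha
  have h5 : a = -2 ∨ a = -1 ∨ a = 0 ∨ a = 1 ∨ a = 2 := by omega
  rcases h5 with rfl | rfl | rfl | rfl | rfl
  · rw [neg_smul, EUp_E_neg hf]; exact h2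
  · rw [neg_smul, EUp_E_neg hf, one_smul]; linarith
  · rw [zero_smul, EUp_E_zero]; linarith
  · rw [one_smul]; linarith
  · exact h2

theorem EUp_E_box {f : Site → ℝ} {D : Finset Site} (hf : ∀ x, x ∉ D → f x = 0) {u : Site}
    (hu : u ∈ Finset.Icc (-2 : ℤ) 2 ×ˢ Finset.Icc (-2 : ℤ) 2) : EUp_E f u ≤ 8 * dform D f := by
  rw [Finset.mem_product] at hu
  have h1 := EUp_E_two hf (1, 0) hu.1
  have h2 := EUp_E_two hf (0, 1) hu.2
  have h3 := EUp_E_add hf (u.1 • ((1, 0) : Site)) (u.2 • ((0, 1) : Site))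
  have h4 : u.1 • ((1, 0) : Site) + u.2 • ((0, 1) : Site) = u := by
    ext <;> simp
  rw [h4] at h3
  rw [EUp_dform hf]
  linarith

theorem EUp_Q {f : Site → ℝ} {D : Finset Site} (hf : ∀ x, x ∉ D → f x = 0) :
    ∑ x ∈ D, f x ^ 2 - 4 * dform D f ≤ ∑ x ∈ D, ∑ z ∈ D,
      f x * f z * (EUp_k (z.1 - x.1) * EUp_k (z.2 - x.2)) := by
  classical
  set Box : Finset Site := Finset.Icc (-2 : ℤ) 2 ×ˢ Finset.Icc (-2 : ℤ) 2 with hBox
  set K : Site → ℝ := fun u => EUp_k u.1 * EUp_k u.2 with hK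
  have hK0 : ∀ u, 0 ≤ K u := fun u => mul_nonneg (EUp_k_nonneg _) (EUp_k_nonneg _)
  have hKz : ∀ u, u ∉ Box → K u = 0 := by
    intro u hu
    rw [hBox, Finset.mem_product, not_and_or] at hu
    rcases hu with h | h
    · show EUp_k u.1 * EUp_k u.2 = 0
      rw [EUp_k_zero h, zero_mul]
    · show EUp_k u.1 * EUp_k u.2 = 0
      rw [EUp_k_zero h, mul_zero]
  have hKs : ∑ u ∈ Box, K u = 1 := by
    rw [hBox, Finset.sum_product]
    simp only [hK]
    rw [← Finset.sum_mul_sum, EUp_k_sum, one_mul]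
  have h1 : ∀ x : Site, ∑ z ∈ D, f z * K (z - x) = ∑ u ∈ Box, f (x + u) * K u := by
    intro x
    have e1 : ∑' z, f z * K (z - x) = ∑ z ∈ D, f z * K (z - x) :=
      tsum_eq_sum fun z hz => by rw [hf z hz, zero_mul]
    have e2 : ∑' u, f (x + u) * K u = ∑ u ∈ Box, f (x + u) * K u :=
      tsum_eq_sum fun u hu => by rw [hKz u hu, mul_zero]
    have e3 := (Equiv.addLeft x).tsum_eq fun z => f z * K (z - x)
    simp only [Equiv.coe_addLeft, add_sub_cancel_left] at e3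
    rw [← e1, ← e2, e3]
  have h2 : ∑ x ∈ D, ∑ z ∈ D, f x * f z * (EUp_k (z.1 - x.1) * EUp_k (z.2 - x.2)) =
      ∑ u ∈ Box, K u * EUp_S f u := by
    have e1 : ∀ x ∈ D, ∑ z ∈ D, f x * f z * (EUp_k (z.1 - x.1) * EUp_k (z.2 - x.2)) =
        ∑ u ∈ Box, f x * (f (x + u) * K u) := by
      intro x _
      rw [← Finset.mul_sum, ← h1 x, Finset.mul_sum]
      refine Finset.sum_congr rfl fun z _ => ?_
      show f x * f z * (EUp_k (z.1 - x.1) * EUp_k (z.2 - x.2)) =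
        f x * (f z * (EUp_k (z.1 - x.1) * EUp_k (z.2 - x.2)))
      ring
    rw [Finset.sum_congr rfl e1, Finset.sum_comm]
    refine Finset.sum_congr rfl fun u _ => ?_
    rw [EUp_S_fin hf, Finset.mul_sum]
    refine Finset.sum_congr rfl fun x _ => ?_
    ring
  rw [h2]
  have h0 : ∑ x ∈ D, f x ^ 2 = EUp_S f 0 := by
    rw [EUp_S_fin hf]
    exact Finset.sum_congr rfl fun x _ => by rw [add_zero, pow_two]
  rw [h0]
  have h3 : ∀ u ∈ Box, K u * (EUp_S f 0 - 4 * dform D f) ≤ K u * EUp_S f u := by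
    intro u hu
    apply mul_le_mul_of_nonneg_left _ (hK0 u)
    have e1 := EUp_E_eq hf u
    have e2 := EUp_E_box hf hu
    linarith
  calc EUp_S f 0 - 4 * dform D f = ∑ u ∈ Box, K u * (EUp_S f 0 - 4 * dform D f) := by
        rw [← Finset.sum_mul, hKs, one_mul]
    _ ≤ _ := Finset.sum_le_sum h3

end Pool.Agent.WSB71
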