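import Pool.Agent.WSB71.EUpB

/-!
# E2, part C: the interpolated function on the plane
-/

open MeasureTheory Filter Topology

namespace Pool.Agent.WSB71

open Pool.Agent.LT

/-- the coordinates of the plane -/
noncomputable def EUp_e : Plane ≃ᵐ ℝ × ℝ :=
  (MeasurableEquiv.toLp 2 (Fin 2 → ℝ)).symm.trans MeasurableEquiv.finTwoArrow

theorem EUp_e_apply (y : Plane) : EUp_e y = (y 0, y 1) := rfl

theorem EUp_e_mp : MeasurePreserving EUp_e volume volume :=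
  (EuclideanSpace.volume_preserving_symm_measurableEquiv_toLp (Fin 2)).trans
    (volume_preserving_finTwoArrow ℝ)

theorem EUp_plane_int (p q : ℝ → ℝ) : ∫ y : Plane, p (y 0) * q (y 1) = (∫ t, p t) * ∫ t, q t := by
  have h := EUp_e_mp.integral_comp' (g := fun z : ℝ × ℝ => p z.1 * q z.2)
  have h2 : ∫ y : Plane, p (y 0) * q (y 1) = ∫ y : Plane, (fun z : ℝ × ℝ => p z.1 * q z.2) (EUp_e y) :=
    rfl
  rw [h2, h]
  exact integral_prod_mul p q

theorem EUp_plane_integrable {p q : ℝ → ℝ} (hp : Integrable p) (hq : Integrable q) :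
    Integrable fun y : Plane => p (y 0) * q (y 1) := by
  have h := EUp_e_mp.integrable_comp_of_integrable (g := fun z : ℝ × ℝ => p z.1 * q z.2)
    (hp.mul_prod hq)
  exact h

theorem EUp_int_scaled {p : ℝ → ℝ} (hp : Integrable p) {N : ℝ} (hN : 0 < N) (m : ℝ) :
    Integrable fun t => p (N * t - m) :=
  (hp.comp_sub_right m).comp_mul_left' hN.ne'

theorem EUp_jensen {D : Finset Site} {c g : Site → ℝ} (hc : ∀ x, 0 ≤ c x)
    (hs : ∑ x ∈ D, c x ≤ 1) : (∑ x ∈ D, g x * c x) ^ 2 ≤ ∑ x ∈ D, g x ^ 2 * c x := by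
  have h := Finset.sum_sq_le_sum_mul_sum_of_sq_le_mul D (r := fun x => g x * c x)
    (f := fun x => g x ^ 2 * c x) (g := c) (fun x _ => mul_nonneg (sq_nonneg _) (hc x))
    (fun x _ => hc x) (fun x _ => le_of_eq (by ring))
  have h0 : 0 ≤ ∑ x ∈ D, g x ^ 2 * c x :=
    Finset.sum_nonneg fun x _ => mul_nonneg (sq_nonneg _) (hc x)
  calc (∑ x ∈ D, g x * c x) ^ 2 ≤ (∑ x ∈ D, g x ^ 2 * c x) * ∑ x ∈ D, c x := h
    _ ≤ (∑ x ∈ D, g x ^ 2 * c x) * 1 := mul_le_mul_of_nonneg_left hs h0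
    _ = _ := mul_one _

theorem EUp_part {p q : ℝ → ℝ} (hp0 : ∀ t, 0 ≤ p t) (hq0 : ∀ t, 0 ≤ q t)
    (hp : ∀ (s : ℝ) (A : Finset ℤ), ∑ m ∈ A, p (s - m) ≤ 1)
    (hq : ∀ (s : ℝ) (A : Finset ℤ), ∑ m ∈ A, q (s - m) ≤ 1) (s t : ℝ) (D : Finset Site) :
    ∑ x ∈ D, p (s - x.1) * q (t - x.2) ≤ 1 := by
  have hsub : D ⊆ D.image Prod.fst ×ˢ D.image Prod.snd := by
    intro x hx
    rw [Finset.mem_product]
    exact ⟨Finset.mem_image_of_mem _ hx, Finset.mem_image_of_mem _ hx⟩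
  refine (Finset.sum_le_sum_of_subset_of_nonneg hsub
    fun x _ _ => mul_nonneg (hp0 _) (hq0 _)).trans ?_
  rw [Finset.sum_product]
  have h1 : ∑ m ∈ D.image Prod.fst, ∑ n ∈ D.image Prod.snd, p (s - (m : ℝ)) * q (t - (n : ℝ)) =
      (∑ m ∈ D.image Prod.fst, p (s - m)) * ∑ n ∈ D.image Prod.snd, q (t - n) :=
    (Finset.sum_mul_sum _ _ _ _).symm
  show ∑ m ∈ D.image Prod.fst, ∑ n ∈ D.image Prod.snd, p (s - (m : ℝ)) * q (t - (n : ℝ)) ≤ 1
  rw [h1]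
  have h2 := hp s (D.image Prod.fst)
  have h3 := hq t (D.image Prod.snd)
  have h4 : 0 ≤ ∑ n ∈ D.image Prod.snd, q (t - n) := Finset.sum_nonneg fun _ _ => hq0 _
  calc (∑ m ∈ D.image Prod.fst, p (s - m)) * ∑ n ∈ D.image Prod.snd, q (t - n)
      ≤ 1 * 1 := mul_le_mul h2 h3 h4 zero_le_one
    _ = 1 := one_mul 1

/-- the shifted hat -/
noncomputable def EUp_p (t : ℝ) : ℝ := EUp_h (t - 1 / 2)

theorem EUp_p_nonneg (t : ℝ) : 0 ≤ EUp_p t := EUp_h_nonneg _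

theorem EUp_p_sum_le (s : ℝ) (A : Finset ℤ) : ∑ m ∈ A, EUp_p (s - m) ≤ 1 := by
  refine le_trans (le_of_eq ?_) (EUp_h_sum_le (s - 1 / 2) A)
  refine Finset.sum_congr rfl fun m _ => ?_
  unfold EUp_p
  congr 1
  ring

theorem EUp_p_integrable : Integrable EUp_p := EUp_h_integrable.comp_sub_right (1 / 2)

theorem EUp_p_int : ∫ t, EUp_p t = 1 := by
  unfold EUp_p
  rw [integral_sub_right_eq_self (μ := volume) EUp_h (1 / 2 : ℝ), EUp_h_int]

/-- the interpolation of `f` -/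
noncomputable def EUp_F (N : ℝ) (D : Finset Site) (f : Site → ℝ) (y : Plane) : ℝ :=
  ∑ x ∈ D, f x * (EUp_b (N * y 0 - x.1) * EUp_b (N * y 1 - x.2))

theorem EUp_F_C1 (N : ℝ) (D : Finset Site) (f : Site → ℝ) : ContDiff ℝ 1 (EUp_F N D f) := by
  unfold EUp_F
  apply ContDiff.sum
  intro x _
  have h0 : ContDiff ℝ 1 fun y : Plane => N * y 0 - (x.1 : ℝ) := by fun_prop
  have h1 : ContDiff ℝ 1 fun y : Plane => N * y 1 - (x.2 : ℝ) := by fun_prop
  exact contDiff_const.mul ((EUp_b_C1.comp h0).mul (EUp_b_C1.comp h1))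

theorem EUp_F_near {N : ℝ} (hN : 0 < N) {D : Finset Site} {f : Site → ℝ} {y : Plane}
    (hy : EUp_F N D f y ≠ 0) {ε : ℝ} (hε : 3 ≤ N * ε) :
    ∃ x ∈ D, y ∈ Metric.closedBall (N⁻¹ • toPlane x) ε := by
  obtain ⟨x, hx, hx0⟩ := Finset.exists_ne_zero_of_sum_ne_zero hy
  refine ⟨x, hx, ?_⟩
  have h0 : |N * y 0 - x.1| < 3 / 2 := by
    by_contra hcon
    apply hx0
    rw [EUp_b_zero (not_lt.1 hcon), zero_mul, mul_zero]
  have h1 : |N * y 1 - x.2| < 3 / 2 := by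
    by_contra hcon
    apply hx0
    rw [EUp_b_zero (s := N * y 1 - x.2) (not_lt.1 hcon), mul_zero, mul_zero]
  have hε0 : 0 < ε := by
    by_contra hcon
    push Not at hcon
    nlinarith
  rw [Metric.mem_closedBall, EuclideanSpace.dist_eq, Fin.sum_univ_two]
  apply Real.sqrt_le_iff.2
  refine ⟨hε0.le, ?_⟩
  have e0 : (N⁻¹ • toPlane x) 0 = N⁻¹ * x.1 := by simp [toPlane]
  have e1 : (N⁻¹ • toPlane x) 1 = N⁻¹ * x.2 := by simp [toPlane]
  rw [e0, e1, Real.dist_eq, Real.dist_eq, sq_abs, sq_abs]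
  have a0 : (N * (y 0 - N⁻¹ * x.1)) ^ 2 ≤ (3 / 2) ^ 2 := by
    have : N * (y 0 - N⁻¹ * x.1) = N * y 0 - x.1 := by field_simp
    rw [this, ← sq_abs]
    exact pow_le_pow_left₀ (abs_nonneg _) h0.le 2
  have a1 : (N * (y 1 - N⁻¹ * x.2)) ^ 2 ≤ (3 / 2) ^ 2 := by
    have : N * (y 1 - N⁻¹ * x.2) = N * y 1 - x.2 := by field_simp
    rw [this, ← sq_abs]
    exact pow_le_pow_left₀ (abs_nonneg _) h1.le 2
  have a2 : 3 ^ 2 ≤ (N * ε) ^ 2 := pow_le_pow_left₀ (by norm_num) hε 2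
  rw [mul_pow] at a0 a1 a2
  have hN2 : 0 < N ^ 2 := by positivity
  nlinarith

theorem EUp_F_supp {N : ℝ} (hN : 0 < N) {D : Finset Site} {f : Site → ℝ} {ε : ℝ}
    (hε : 3 ≤ N * ε) : HasCompactSupport (EUp_F N D f) ∧
      tsupport (EUp_F N D f) ⊆ ⋃ x ∈ D, Metric.closedBall (N⁻¹ • toPlane x) ε := by
  have hc : IsCompact (⋃ x ∈ D, Metric.closedBall (N⁻¹ • toPlane x) ε) :=
    D.isCompact_biUnion fun x _ => isCompact_closedBall _ _
  have hs : Function.support (EUp_F N D f) ⊆ ⋃ x ∈ D, Metric.closedBall (N⁻¹ • toPlane x) ε := by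
    intro y hy
    obtain ⟨x, hx, hxy⟩ := EUp_F_near hN hy hε
    exact Set.mem_iUnion₂.2 ⟨x, hx, hxy⟩
  exact ⟨HasCompactSupport.of_support_subset_isCompact hc hs,
    closure_minimal hs hc.isClosed⟩

theorem EUp_F_sq {N : ℝ} (hN : 0 < N) {D : Finset Site} {f : Site → ℝ}
    (hf : ∀ x, x ∉ D → f x = 0) :
    N⁻¹ ^ 2 * (∑ x ∈ D, f x ^ 2 - 4 * dform D f) ≤ ∫ y, EUp_F N D f y ^ 2 := by
  have h1 : ∀ y, EUp_F N D f y ^ 2 = ∑ x ∈ D, ∑ z ∈ D, f x * f z *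
      ((EUp_b (N * y 0 - x.1) * EUp_b (N * y 0 - z.1)) *
        (EUp_b (N * y 1 - x.2) * EUp_b (N * y 1 - z.2))) := by
    intro y
    unfold EUp_F
    rw [pow_two, Finset.sum_mul_sum]
    refine Finset.sum_congr rfl fun x _ => Finset.sum_congr rfl fun z _ => ?_
    ring
  have hbb : ∀ m n : ℤ, Integrable fun t : ℝ => EUp_b (N * t - m) * EUp_b (N * t - n) :=
    fun m n => (EUp_bb_integrable m n).comp_mul_left' hN.ne'
  have hint : ∀ x z : Site, Integrable fun y : Plane =>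
      (EUp_b (N * y 0 - x.1) * EUp_b (N * y 0 - z.1)) *
        (EUp_b (N * y 1 - x.2) * EUp_b (N * y 1 - z.2)) := fun x z =>
    EUp_plane_integrable (hbb x.1 z.1) (hbb x.2 z.2)
  have h2 : ∫ y, EUp_F N D f y ^ 2 = ∑ x ∈ D, ∑ z ∈ D, f x * f z *
      ((N⁻¹ * EUp_k (z.1 - x.1)) * (N⁻¹ * EUp_k (z.2 - x.2))) := by
    simp only [h1]
    rw [integral_finsetSum _ fun x _ => integrable_finsetSum _ fun z _ =>
      (hint x z).const_mul _]
    refine Finset.sum_congr rfl fun x _ => ?_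
    rw [integral_finsetSum _ fun z _ => (hint x z).const_mul _]
    refine Finset.sum_congr rfl fun z _ => ?_
    rw [integral_const_mul]
    congr 1
    rw [EUp_plane_int (fun t => EUp_b (N * t - x.1) * EUp_b (N * t - z.1))
      (fun t => EUp_b (N * t - x.2) * EUp_b (N * t - z.2)), EUp_k_scaled hN, EUp_k_scaled hN]
  rw [h2]
  have h3 : ∑ x ∈ D, ∑ z ∈ D, f x * f z *
      ((N⁻¹ * EUp_k (z.1 - x.1)) * (N⁻¹ * EUp_k (z.2 - x.2))) = N⁻¹ ^ 2 * ∑ x ∈ D, ∑ z ∈ D,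
      f x * f z * (EUp_k (z.1 - x.1) * EUp_k (z.2 - x.2)) := by
    rw [Finset.mul_sum]
    refine Finset.sum_congr rfl fun x _ => ?_
    rw [Finset.mul_sum]
    refine Finset.sum_congr rfl fun z _ => ?_
    ring
  rw [h3]
  exact mul_le_mul_of_nonneg_left (EUp_Q hf) (by positivity)

end Pool.Agent.WSB71
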