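import Pool.Agent.WSB71.Robin

/-!
# AP2: exponential moments of `∑ 1/dep²` along chains inside `G` (task WSB71-A4)

Everything is a count of nearest neighbour chains inside `G`, uniform in the length.

`chainsIn G x n` = chains of length `n + 1` (that is `n` steps) from `x` inside `G`.
-/

open MeasureTheory Filter Topology
open scoped NNReal ENNReal

namespace Pool.Agent.WSB71

open Pool.Agent.LT

/-- Chains with `n` steps from `x` staying in `G`. -/
def chainsIn (G : Finset Site) (x : Site) (n : ℕ) : Set (List Site) :=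
  {l | l.length = n + 1 ∧ l.head? = some x ∧ l.IsChain Adj ∧ ∀ y ∈ l, y ∈ G}

theorem chainsIn_finite (G : Finset Site) (x : Site) (n : ℕ) : (chainsIn G x n).Finite := by
  have h1 : {l : List G | l.length = n + 1}.Finite := List.finite_length_eq G (n + 1)
  refine (h1.image (List.map Subtype.val)).subset ?_
  rintro l ⟨hl, -, -, hG⟩
  refine ⟨l.attach.map (fun y => ⟨y.1, hG y.1 y.2⟩), by simpa using hl, ?_⟩
  rw [List.map_map]
  exact List.attach_map_subtype_val l

namespace ExpMomAux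

/-- The exponential weight of a list. -/
noncomputable def ew (w : Site → ℝ) (l : List Site) : ℝ := (l.map w).prod

/-- The chain sum. -/
noncomputable def S (G : Finset Site) (w : Site → ℝ) (n : ℕ) (x : Site) : ℝ :=
  ∑ l ∈ (chainsIn_finite G x n).toFinset, ew w l

lemma ew_nonneg {w : Site → ℝ} (hw : ∀ x, 0 ≤ w x) (l : List Site) : 0 ≤ ew w l := by
  apply List.prod_nonneg
  intro a ha
  obtain ⟨b, -, rfl⟩ := List.mem_map.1 ha
  exact hw b

lemma S_nonneg {w : Site → ℝ} (hw : ∀ x, 0 ≤ w x) (G : Finset Site) (n : ℕ) (x : Site) :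
    0 ≤ S G w n x := Finset.sum_nonneg fun _ _ => ew_nonneg hw _

lemma S_of_notMem {w : Site → ℝ} {G : Finset Site} {n : ℕ} {x : Site} (hx : x ∉ G) :
    S G w n x = 0 := by
  unfold S
  apply Finset.sum_eq_zero
  intro l hl
  exfalso
  rw [Set.Finite.mem_toFinset] at hl
  obtain ⟨h1, h2, h3, h4⟩ := hl
  exact hx (h4 x (List.mem_of_mem_head? h2))

lemma S_zero_le {w : Site → ℝ} (hw : ∀ x, 0 ≤ w x) (G : Finset Site) (x : Site) :
    S G w 0 x ≤ w x := by
  unfold S
  have hsub : (chainsIn_finite G x 0).toFinset ⊆ {[x]} := by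
    intro l hl
    rw [Set.Finite.mem_toFinset] at hl
    obtain ⟨h1, h2, h3, h4⟩ := hl
    obtain ⟨a, rfl⟩ := List.length_eq_one_iff.1 (by simpa using h1)
    simp at h2
    simp [h2]
  refine (Finset.sum_le_sum_of_subset_of_nonneg hsub fun _ _ _ => ew_nonneg hw _).trans ?_
  simp [ew]

lemma S_succ_le {w : Site → ℝ} (hw : ∀ x, 0 ≤ w x) (G : Finset Site) (n : ℕ) (x : Site) :
    S G w (n + 1) x ≤ w x * ∑ e ∈ units, S G w n (x + e) := by
  classical
  have hsub : (chainsIn_finite G x (n + 1)).toFinset ⊆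
      units.biUnion (fun e => ((chainsIn_finite G (x + e) n).toFinset).image (List.cons x)) := by
    intro l hl
    rw [Set.Finite.mem_toFinset] at hl
    obtain ⟨h1, h2, h3, h4⟩ := hl
    match l, h1, h2, h3, h4 with
    | [], h1, _, _, _ => simp at h1
    | [a], h1, _, _, _ => simp at h1
    | a :: b :: t, h1, h2, h3, h4 =>
      simp only [List.head?_cons, Option.some.injEq] at h2
      subst h2
      rw [List.isChain_cons_cons] at h3
      rw [Finset.mem_biUnion]
      refine ⟨b - a, h3.1, ?_⟩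
      rw [Finset.mem_image]
      refine ⟨b :: t, ?_, rfl⟩
      rw [Set.Finite.mem_toFinset]
      refine ⟨by simpa using h1, by simp, h3.2, fun y hy => h4 y (List.mem_cons_of_mem _ hy)⟩
  refine (Finset.sum_le_sum_of_subset_of_nonneg hsub fun _ _ _ => ew_nonneg hw _).trans ?_
  rw [Finset.sum_biUnion, Finset.mul_sum]
  · apply Finset.sum_le_sum
    intro e _
    rw [Finset.sum_image (fun a _ b _ h => List.cons_injective h), S, Finset.mul_sum]
    apply Finset.sum_le_sum
    intro l _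
    simp [ew]
  · intro e _ e' _ hne
    simp only [Function.onFun]
    rw [Finset.disjoint_left]
    intro l h1 h2
    rw [Finset.mem_image] at h1 h2
    obtain ⟨l1, hl1, rfl⟩ := h1
    obtain ⟨l2, hl2, h⟩ := h2
    have : l2 = l1 := by simpa using h
    subst this
    rw [Set.Finite.mem_toFinset] at hl1 hl2
    have := hl1.2.1.symm.trans hl2.2.1
    simp only [Option.some.injEq, add_right_inj] at this
    exact hne this

/-- The symmetrised operator. -/
noncomputable def B (G : Finset Site) (s : Site → ℝ) (f : Site → ℝ) (x : Site) : ℝ :=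
  if x ∈ G then s x * (1 / 4) * ∑ e ∈ units, s (x + e) * f (x + e) else 0

lemma units_sum (g : Site → ℝ) : ∑ e ∈ units, g e = g (1, 0) + g (-1, 0) + g (0, 1) + g (0, -1) := by
  simp [units, Finset.sum_insert, Finset.mem_insert, Finset.mem_singleton]
  ring

/-- Symmetry of the hopping form. -/
lemma hop_symm {G : Finset Site} {f g : Site → ℝ} (hf : ∀ x, x ∉ G → f x = 0)
    (hg : ∀ x, x ∉ G → g x = 0) :
    ∑ x ∈ G, f x * ∑ e ∈ units, g (x + e) = ∑ x ∈ G, g x * ∑ e ∈ units, f (x + e) := by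
  classical
  have key : ∀ (f g : Site → ℝ), (∀ x, x ∉ G → f x = 0) → (∀ x, x ∉ G → g x = 0) → ∀ e : Site,
      ∑ x ∈ G, f x * g (x + e) = ∑ x ∈ G, g x * f (x - e) := by
    intro f g hf hg e
    have h1 : ∑ x ∈ G, f x * g (x + e) = ∑ᶠ x, f x * g (x + e) := by
      rw [finsum_eq_sum_of_support_subset _ (s := G)]
      intro x hx
      by_contra h
      exact hx (by simp [hf x h])
    have h2 : ∑ x ∈ G, g x * f (x - e) = ∑ᶠ x, g x * f (x - e) := by
      rw [finsum_eq_sum_of_support_subset _ (s := G)]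
      intro x hx
      by_contra h
      exact hx (by simp [hg x h])
    rw [h1, h2, ← finsum_comp_equiv (f := fun x => g x * f (x - e)) (Equiv.addRight e)]
    apply finsum_congr
    intro x
    simp [mul_comm]
  simp only [Finset.mul_sum]
  rw [Finset.sum_comm, Finset.sum_comm (s := G)]
  simp only [units_sum]
  rw [key f g hf hg, key f g hf hg, key f g hf hg, key f g hf hg]
  simp only [sub_eq_add_neg]
  have e1 : -((1 : ℤ), (0 : ℤ)) = (-1, 0) := by simp
  have e2 : -((-1 : ℤ), (0 : ℤ)) = (1, 0) := by simp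
  have e3 : -((0 : ℤ), (1 : ℤ)) = (0, -1) := by simp
  have e4 : -((0 : ℤ), (-1 : ℤ)) = (0, 1) := by simp
  rw [e1, e2, e3, e4]
  ring

/-- Contraction. -/
lemma B_contr {G : Finset Site} {s : Site → ℝ}
    (hform : ∀ h : Site → ℝ, (∀ x, x ∉ G → h x = 0) →
      |∑ x ∈ G, s x * h x * ((1 / 4) * ∑ e ∈ units, s (x + e) * h (x + e))| ≤ ∑ x ∈ G, h x ^ 2)
    {f : Site → ℝ} (hf : ∀ x, x ∉ G → f x = 0) :
    ∑ x ∈ G, B G s f x ^ 2 ≤ ∑ x ∈ G, f x ^ 2 := by
  set g := B G s f with hg
  have hg0 : ∀ x, x ∉ G → g x = 0 := fun x hx => by simp [hg, B, hx]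
  set Q : (Site → ℝ) → (Site → ℝ) → ℝ := fun a b =>
    ∑ x ∈ G, s x * a x * ((1 / 4) * ∑ e ∈ units, s (x + e) * b (x + e)) with hQ
  have hsymm : Q f g = Q g f := by
    have := hop_symm (G := G) (f := fun x => s x * f x) (g := fun x => s x * g x)
      (fun x hx => by simp [hf x hx]) (fun x hx => by simp [hg0 x hx])
    simp only [hQ]
    calc _ = (1 / 4) * ∑ x ∈ G, s x * f x * ∑ e ∈ units, s (x + e) * g (x + e) := by
            rw [Finset.mul_sum]; exact Finset.sum_congr rfl fun _ _ => by ring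
      _ = (1 / 4) * ∑ x ∈ G, s x * g x * ∑ e ∈ units, s (x + e) * f (x + e) := by rw [this]
      _ = _ := by rw [Finset.mul_sum]; exact Finset.sum_congr rfl fun _ _ => by ring
  have hQg : Q g f = ∑ x ∈ G, g x ^ 2 := by
    simp only [hQ]
    apply Finset.sum_congr rfl
    intro x hx
    have : g x = s x * (1 / 4) * ∑ e ∈ units, s (x + e) * f (x + e) := by simp [hg, B, hx]
    rw [pow_two]
    nth_rewrite 3 [this]
    ring
  have h1 := hform (fun x => f x + g x) (fun x hx => by simp [hf x hx, hg0 x hx])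
  have h2 := hform (fun x => f x - g x) (fun x hx => by simp [hf x hx, hg0 x hx])
  have e1 : ∑ x ∈ G, s x * (f x + g x) * ((1 / 4) * ∑ e ∈ units, s (x + e) * (f (x + e) + g (x + e)))
      = Q f f + Q f g + Q g f + Q g g := by
    simp only [hQ, ← Finset.sum_add_distrib]
    apply Finset.sum_congr rfl
    intro x _
    simp only [mul_add, Finset.sum_add_distrib]
    ring
  have e2 : ∑ x ∈ G, s x * (f x - g x) * ((1 / 4) * ∑ e ∈ units, s (x + e) * (f (x + e) - g (x + e)))
      = Q f f - Q f g - Q g f + Q g g := by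
    simp only [hQ, ← Finset.sum_add_distrib, ← Finset.sum_sub_distrib]
    apply Finset.sum_congr rfl
    intro x _
    simp only [mul_sub, Finset.sum_sub_distrib]
    ring
  have n1 : ∑ x ∈ G, (f x + g x) ^ 2 = ∑ x ∈ G, f x ^ 2 + 2 * ∑ x ∈ G, f x * g x
      + ∑ x ∈ G, g x ^ 2 := by
    rw [Finset.mul_sum, ← Finset.sum_add_distrib, ← Finset.sum_add_distrib]
    exact Finset.sum_congr rfl fun _ _ => by ring
  have n2 : ∑ x ∈ G, (f x - g x) ^ 2 = ∑ x ∈ G, f x ^ 2 - 2 * ∑ x ∈ G, f x * g x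
      + ∑ x ∈ G, g x ^ 2 := by
    rw [Finset.mul_sum, ← Finset.sum_sub_distrib, ← Finset.sum_add_distrib]
    exact Finset.sum_congr rfl fun _ _ => by ring
  rw [e1, n1] at h1
  rw [e2, n2] at h2
  have a1 := (abs_le.1 h1).2
  have a2 := (abs_le.1 h2).1
  rw [hsymm] at a1 a2
  rw [hQg] at a1 a2
  linarith

end ExpMomAux

open ExpMomAux in
/-- AP2.  The operator `f ↦ e^{κ/d²} ¼ ∑_e f(· + e)` (killed outside `G`) is dominated in quadratic form:
`⟨f, P f⟩ = ∑ f² - ¼ dform G f ≤ ∑ f² (1 - 1/(4 C d²)) ≤ ∑ f² e^{-κ/d²}`; so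
`B = e^{κ/2d²} P e^{κ/2d²}` has `⟨f, B f⟩ ≤ ∑ f²`; for the lower end of the spectrum use that
`ℤ²` is bipartite (or `|⟨f, B f⟩| ≤ ⟨|f|, B |f|⟩`), `B` symmetric, so `‖B‖ ≤ 1` and
`∑_y B^n(x,y) ≤ |G|^{1/2}`. -/
theorem exp_moment : ∃ κ : ℝ, 0 < κ ∧ ∀ G : Finset Site, ConnF (G : Set Site)ᶜ → ∀ x ∈ G, ∀ n : ℕ,
    ∑ l ∈ (chainsIn_finite G x n).toFinset,
      Real.exp (κ * (l.map (fun z => 1 / (dep G z : ℝ) ^ 2)).sum) ≤ 3 * G.card * 4 ^ n := by
  obtain ⟨C, hC, hH⟩ := hardy
  set κ : ℝ := min 1 (1 / (4 * C)) with hκ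
  have hκ0 : 0 < κ := lt_min one_pos (by positivity)
  have hκ1 : κ ≤ 1 := min_le_left _ _
  have hκC : κ ≤ 1 / (4 * C) := min_le_right _ _
  refine ⟨κ, hκ0, fun G hG x hx n => ?_⟩
  set s : Site → ℝ := fun z => Real.exp (κ / 2 * (1 / (dep G z : ℝ) ^ 2)) with hs
  set w : Site → ℝ := fun z => s z * s z with hw
  have hs0 : ∀ z, 0 < s z := fun z => Real.exp_pos _
  have hw0 : ∀ z, 0 ≤ w z := fun z => (mul_pos (hs0 z) (hs0 z)).le
  have hwexp : ∀ z, w z = Real.exp (κ * (1 / (dep G z : ℝ) ^ 2)) := by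
    intro z
    simp only [hw, hs]
    rw [← Real.exp_add]
    congr 1
    ring
  have hew : ∀ l : List Site, Real.exp (κ * (l.map (fun z => 1 / (dep G z : ℝ) ^ 2)).sum)
      = ew w l := by
    intro l
    induction l with
    | nil => simp [ew]
    | cons a t ih =>
      simp only [List.map_cons, List.sum_cons, mul_add, Real.exp_add, ew, List.prod_cons]
      rw [ih, hwexp a]
      rfl
  have hdepinv : ∀ z, 1 / (dep G z : ℝ) ^ 2 ≤ 1 := by
    intro z
    rcases Nat.eq_zero_or_pos (dep G z) with h | h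
    · simp [h]
    · rw [div_le_one (by positivity)]
      have : (1 : ℝ) ≤ dep G z := by exact_mod_cast h
      nlinarith
  have hdepinv0 : ∀ z, 0 ≤ 1 / (dep G z : ℝ) ^ 2 := fun z => by positivity
  have hwle : ∀ z, w z ≤ Real.exp 1 := by
    intro z
    rw [hwexp]
    apply Real.exp_le_exp.2
    calc κ * (1 / (dep G z : ℝ) ^ 2) ≤ 1 * 1 :=
          mul_le_mul hκ1 (hdepinv z) (hdepinv0 z) zero_le_one
      _ = 1 := one_mul 1
  -- the quadratic form
  have hform : ∀ h : Site → ℝ, (∀ x, x ∉ G → h x = 0) →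
      |∑ x ∈ G, s x * h x * ((1 / 4) * ∑ e ∈ units, s (x + e) * h (x + e))|
        ≤ ∑ x ∈ G, h x ^ 2 := by
    intro h hh
    set k : Site → ℝ := fun z => |s z * h z| with hk
    have hk0 : ∀ x, x ∉ G → k x = 0 := fun x hx => by simp [hk, hh x hx]
    have hH' := hH G hG k hk0
    have hdf : dform G k = ∑ x ∈ G, 4 * k x ^ 2 - ∑ x ∈ G, k x * ∑ e ∈ units, k (x + e) := by
      rw [dform, Finset.sum_sub_distrib]
      congr 1
      exact Finset.sum_congr rfl fun _ _ => by rw [Finset.mul_sum]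
    have h1 : |∑ x ∈ G, s x * h x * ((1 / 4) * ∑ e ∈ units, s (x + e) * h (x + e))|
        ≤ (1 / 4) * ∑ x ∈ G, k x * ∑ e ∈ units, k (x + e) := by
      refine (Finset.abs_sum_le_sum_abs _ _).trans ?_
      rw [Finset.mul_sum]
      apply Finset.sum_le_sum
      intro x _
      rw [abs_mul, abs_mul (1 / 4 : ℝ), abs_of_pos (by norm_num : (0 : ℝ) < 1 / 4)]
      have : |∑ e ∈ units, s (x + e) * h (x + e)| ≤ ∑ e ∈ units, k (x + e) :=
        Finset.abs_sum_le_sum_abs _ _
      have hkx : 0 ≤ |s x * h x| := abs_nonneg _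
      calc |s x * h x| * (1 / 4 * |∑ e ∈ units, s (x + e) * h (x + e)|)
          ≤ |s x * h x| * (1 / 4 * ∑ e ∈ units, k (x + e)) := by gcongr
        _ = 1 / 4 * (k x * ∑ e ∈ units, k (x + e)) := by simp only [hk]; ring
    have h2 : ∑ x ∈ G, k x * ∑ e ∈ units, k (x + e)
        ≤ ∑ x ∈ G, (4 * k x ^ 2 - 1 / C * (k x ^ 2 / (dep G x : ℝ) ^ 2)) := by
      rw [Finset.sum_sub_distrib, ← Finset.mul_sum (f := fun x => k x ^ 2 / (dep G x : ℝ) ^ 2)]
      have : 1 / C * ∑ x ∈ G, k x ^ 2 / (dep G x : ℝ) ^ 2 ≤ dform G k := by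
        rw [one_div, inv_mul_le_iff₀ hC]
        exact hH'
      rw [hdf] at this
      linarith
    have h3 : ∀ z ∈ G, (1 / 4) * (4 * k z ^ 2 - 1 / C * (k z ^ 2 / (dep G z : ℝ) ^ 2)) ≤ h z ^ 2 := by
      intro z _
      have hk2 : k z ^ 2 = w z * h z ^ 2 := by
        simp only [hk, sq_abs, hw]; ring
      set t : ℝ := 1 / (dep G z : ℝ) ^ 2 with ht
      have ht0 : 0 ≤ t := hdepinv0 z
      have hexp : 1 - t / (4 * C) ≤ Real.exp (-(κ * t)) := by
        have := Real.add_one_le_exp (-(κ * t))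
        have h5 : κ * t ≤ 1 / (4 * C) * t := mul_le_mul_of_nonneg_right hκC ht0
        have h6 : 1 / (4 * C) * t = t / (4 * C) := by ring
        linarith
      have hw1 : w z * Real.exp (-(κ * t)) = 1 := by
        rw [hwexp, ← Real.exp_add]; simp [ht]
      calc (1 / 4) * (4 * k z ^ 2 - 1 / C * (k z ^ 2 / (dep G z : ℝ) ^ 2))
          = k z ^ 2 * (1 - t / (4 * C)) := by
            rw [ht]; field_simp
        _ ≤ k z ^ 2 * Real.exp (-(κ * t)) := by gcongr
        _ = h z ^ 2 := by rw [hk2]; linear_combination (h z ^ 2) * hw1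
    calc _ ≤ (1 / 4) * ∑ x ∈ G, k x * ∑ e ∈ units, k (x + e) := h1
      _ ≤ (1 / 4) * ∑ x ∈ G, (4 * k x ^ 2 - 1 / C * (k x ^ 2 / (dep G x : ℝ) ^ 2)) := by gcongr
      _ = ∑ x ∈ G, (1 / 4) * (4 * k x ^ 2 - 1 / C * (k x ^ 2 / (dep G x : ℝ) ^ 2)) := by
          rw [Finset.mul_sum]
      _ ≤ _ := Finset.sum_le_sum h3
  -- the iterates
  set v : ℕ → Site → ℝ := fun m => (B G s)^[m] (fun z => if z ∈ G then s z else 0) with hv
  have hv0 : ∀ m z, z ∉ G → v m z = 0 := by
    intro m z hz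
    cases m with
    | zero => simp [hv, hz]
    | succ m => simp only [hv, Function.iterate_succ_apply']; simp [B, hz]
  have hvS : ∀ m z, z ∈ G → S G w m z ≤ 4 ^ m * (s z * v m z) := by
    intro m
    induction m with
    | zero =>
      intro z hz
      refine (S_zero_le hw0 G z).trans ?_
      simp [hv, hz, hw]
    | succ m ih =>
      intro z hz
      refine (S_succ_le hw0 G m z).trans ?_
      have ih' : ∀ y, S G w m y ≤ 4 ^ m * (s y * v m y) := by
        intro y
        by_cases hy : y ∈ G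
        · exact ih y hy
        · rw [S_of_notMem hy, hv0 m y hy]; simp
      have hB : v (m + 1) z = s z * (1 / 4) * ∑ e ∈ units, s (z + e) * v m (z + e) := by
        simp only [hv, Function.iterate_succ_apply']
        simp [B, hz]
      rw [hB]
      calc w z * ∑ e ∈ units, S G w m (z + e)
          ≤ w z * ∑ e ∈ units, 4 ^ m * (s (z + e) * v m (z + e)) := by
            apply mul_le_mul_of_nonneg_left _ (hw0 z)
            exact Finset.sum_le_sum fun e _ => ih' _
        _ = _ := by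
            rw [← Finset.mul_sum]
            simp only [hw]
            ring
  have hnorm : ∀ m, ∑ z ∈ G, v m z ^ 2 ≤ Real.exp 1 * G.card := by
    intro m
    induction m with
    | zero =>
      calc ∑ z ∈ G, v 0 z ^ 2 ≤ ∑ z ∈ G, Real.exp 1 := by
            apply Finset.sum_le_sum
            intro z hz
            simp only [hv, Function.iterate_zero, id, hz, if_true]
            rw [pow_two]
            exact hwle z
        _ = _ := by simp [mul_comm]
    | succ m ih =>
      refine le_trans ?_ ih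
      have := B_contr hform (hv0 m)
      simpa only [hv, Function.iterate_succ_apply'] using this
  have hcard : (1 : ℝ) ≤ G.card := by
    exact_mod_cast Finset.card_pos.2 ⟨x, hx⟩
  have hvx : s x * v n x ≤ Real.exp 1 * G.card := by
    have h1 : v n x ^ 2 ≤ Real.exp 1 * G.card :=
      (Finset.single_le_sum (f := fun z => v n z ^ 2) (fun z _ => sq_nonneg _) hx).trans (hnorm n)
    have h2 : s x ^ 2 ≤ Real.exp 1 := by rw [pow_two]; exact hwle x
    have h3 : (s x * v n x) ^ 2 ≤ (Real.exp 1 * G.card) ^ 2 := by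
      have he : 0 < Real.exp 1 := Real.exp_pos 1
      calc (s x * v n x) ^ 2 = s x ^ 2 * v n x ^ 2 := by ring
        _ ≤ Real.exp 1 * (Real.exp 1 * G.card) := by gcongr
        _ = Real.exp 1 * Real.exp 1 * G.card * 1 := by ring
        _ ≤ Real.exp 1 * Real.exp 1 * G.card * G.card := by gcongr
        _ = _ := by ring
    exact (abs_le_of_sq_le_sq' h3 (by positivity)).2
  calc ∑ l ∈ (chainsIn_finite G x n).toFinset,
      Real.exp (κ * (l.map (fun z => 1 / (dep G z : ℝ) ^ 2)).sum) = S G w n x := by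
        rw [S]; exact Finset.sum_congr rfl fun l _ => hew l
    _ ≤ 4 ^ n * (s x * v n x) := hvS n x hx
    _ ≤ 4 ^ n * (Real.exp 1 * G.card) := by gcongr
    _ ≤ 4 ^ n * (3 * G.card) := by
        have : Real.exp 1 ≤ 3 := by have := Real.exp_one_lt_d9; linarith
        gcongr
    _ = _ := by ring

end Pool.Agent.WSB71
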