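import Pool.Agent.LT.BadSum
import Pool.Agent.WSB71.Defs

/-!
# F1: the jump chain of a step path

`chainOf s f` is the list of the successive values of `f` on `[0, s]`.  It is the eventual value of
`gchain N s f` (values at dyadic times, without consecutive repetitions).  A step path has finitely
many jumps on `[0, s]` (cover by the neighbourhoods of `IsStepPath.nhd`), and between two
consecutive jump times there is a dyadic time as soon as the mesh is small.
-/

open MeasureTheory Filter Topology
open scoped NNReal ENNReal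

namespace Pool.Agent.WSB71

open Pool.Agent.LT

theorem destutter'_eq_cons {α : Type*} (R : α → α → Prop) [DecidableRel R] (l : List α) (a : α) :
    ∃ l', l.destutter' R a = a :: l' := by
  induction l with
  | nil => exact ⟨[], rfl⟩
  | cons b l ih =>
    rw [List.destutter'_cons]
    split_ifs
    · exact ⟨_, rfl⟩
    · exact ih

/-- `HC f b a l`: the list of the successive values of `f` on `[a, b]` is `l`. -/
inductive HC (f : ℝ≥0 → Site) (b : ℝ≥0) : ℝ≥0 → List Site → Prop
  | single {a : ℝ≥0} (hab : a ≤ b) (hf : ∀ u, a ≤ u → u ≤ b → f u = f a) : HC f b a [f a]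
  | cons {a c : ℝ≥0} {l : List Site} (hac : a < c) (hcb : c ≤ b)
      (hf : ∀ u, a ≤ u → u < c → f u = f a) (hne : f a ≠ f c) (h : HC f b c l) :
      HC f b a (f a :: l)

namespace HC

variable {f g : ℝ≥0 → Site} {a b c t : ℝ≥0} {l l' : List Site}

theorem le (h : HC f b a l) : a ≤ b := by
  cases h with
  | single hab _ => exact hab
  | cons hac hcb _ _ _ => exact hac.le.trans hcb

theorem exists_cons (h : HC f b a l) : ∃ l', l = f a :: l' := by
  cases h with
  | single _ _ => exact ⟨[], rfl⟩
  | cons _ _ _ _ _ => exact ⟨_, rfl⟩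

theorem ne_nil (h : HC f b a l) : l ≠ [] := by
  obtain ⟨l', rfl⟩ := h.exists_cons
  exact List.cons_ne_nil _ _

theorem head (h : HC f b a l) : l.head? = some (f a) := by
  obtain ⟨l', rfl⟩ := h.exists_cons
  rfl

theorem getLast (h : HC f b a l) : l.getLast? = some (f b) := by
  induction h with
  | single hab hf => rw [List.getLast?_singleton, hf _ hab le_rfl]
  | cons hac hcb hf hne h ih =>
    obtain ⟨l', rfl⟩ := h.exists_cons
    rw [List.getLast?_cons_cons]
    exact ih

theorem isChain (hs : IsStepPath f) (h : HC f b a l) : l.IsChain Adj := by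
  induction h with
  | single hab hf => exact List.isChain_singleton _
  | @cons a c l hac hcb hf hne h ih =>
    obtain ⟨l', rfl⟩ := h.exists_cons
    refine List.isChain_cons_cons.2 ⟨?_, ih⟩
    obtain ⟨δ, hδ, x, hx, hx'⟩ := hs.left c (lt_of_le_of_lt zero_le hac)
    obtain ⟨u, hu1, hu2, hu3⟩ : ∃ u, a ≤ u ∧ u < c ∧ c < u + δ := by
      rcases le_or_gt c δ with h1 | h1
      · obtain ⟨u, hu1, hu2⟩ := exists_between hac
        exact ⟨u, hu1.le, hu2, lt_of_le_of_lt h1
          (lt_add_of_pos_left _ (lt_of_le_of_lt zero_le hu1))⟩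
      · have h2 : max a (c - δ) < c := max_lt hac (tsub_lt_self (hδ.trans h1) hδ)
        obtain ⟨u, hu1, hu2⟩ := exists_between h2
        refine ⟨u, ((le_max_left _ _).trans_lt hu1).le, hu2, ?_⟩
        exact (tsub_lt_iff_right h1.le).1 ((le_max_right _ _).trans_lt hu1)
    have e : x = f a := by rw [← hx u hu2 hu3, hf u hu1 hu2]
    subst e
    rcases hx' with h' | h'
    · exact absurd h'.symm hne
    · exact h'

theorem mem_iff (h : HC f b a l) (x : Site) : x ∈ l ↔ ∃ u, a ≤ u ∧ u ≤ b ∧ f u = x := by
  induction h with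
  | @single a hab hf =>
    rw [List.mem_singleton]
    constructor
    · rintro rfl
      exact ⟨a, le_rfl, hab, rfl⟩
    · rintro ⟨u, h1, h2, rfl⟩
      exact hf u h1 h2
  | @cons a c l hac hcb hf hne h ih =>
    rw [List.mem_cons, ih]
    constructor
    · rintro (rfl | ⟨u, h1, h2, rfl⟩)
      · exact ⟨a, le_rfl, hac.le.trans hcb, rfl⟩
      · exact ⟨u, hac.le.trans h1, h2, rfl⟩
    · rintro ⟨u, h1, h2, rfl⟩
      rcases lt_or_ge u c with h3 | h3
      · exact Or.inl (hf u h1 h3)
      · exact Or.inr ⟨u, h3, h2, rfl⟩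

theorem prolong (h : HC f b c l) (hac : a ≤ c) (hf : ∀ u, a ≤ u → u ≤ c → f u = f a) :
    HC f b a l := by
  have hfc : f c = f a := hf c hac le_rfl
  cases h with
  | single hcb hg =>
    rw [hfc]
    refine HC.single (hac.trans hcb) fun u h1 h2 => ?_
    rcases le_or_gt u c with h3 | h3
    · exact hf u h1 h3
    · rw [hg u h3.le h2, hfc]
  | @cons _ d l hcd hdb hg hne h =>
    rw [hfc]
    refine HC.cons (lt_of_le_of_lt hac hcd) hdb (fun u h1 h2 => ?_) (by rw [← hfc]; exact hne) h
    rcases le_or_gt u c with h3 | h3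
    · exact hf u h1 h3
    · rw [hg u h3.le h2, hfc]

theorem congr (h : HC f b a l) (hfg : ∀ u, a ≤ u → u ≤ b → f u = g u) : HC g b a l := by
  induction h with
  | @single a hab hf =>
    rw [hfg a le_rfl hab]
    refine HC.single hab fun u h1 h2 => ?_
    rw [← hfg u h1 h2, ← hfg a le_rfl hab]
    exact hf u h1 h2
  | @cons a c l hac hcb hf hne h ih =>
    have hab := hac.le.trans hcb
    rw [hfg a le_rfl hab]
    refine HC.cons hac hcb (fun u h1 h2 => ?_) ?_ (ih fun u h1 h2 => hfg u (hac.le.trans h1) h2)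
    · rw [← hfg u h1 (h2.le.trans hcb), ← hfg a le_rfl hab]
      exact hf u h1 h2
    · rw [← hfg a le_rfl hab, ← hfg c hac.le hcb]
      exact hne

theorem extend (h : HC f b a l) (hbt : b ≤ t) (hf : ∀ u, b ≤ u → u ≤ t → f u = f b) :
    HC f t a l := by
  induction h with
  | @single a hab hg =>
    refine HC.single (hab.trans hbt) fun u h1 h2 => ?_
    rcases le_or_gt u b with h3 | h3
    · exact hg u h1 h3
    · rw [hf u h3.le h2]
      exact hg b hab le_rfl
  | @cons a c l hac hcb hg hne h ih => exact HC.cons hac (hcb.trans hbt) hg hne ih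

theorem append (h : HC f b a l) (h' : HC f t b l') : HC f t a (l ++ l'.tail) := by
  induction h with
  | @single a hab hf =>
    obtain ⟨l'', rfl⟩ := h'.exists_cons
    have e : f b = f a := hf b hab le_rfl
    have := h'.prolong hab hf
    rw [e] at this
    exact this
  | @cons a c l hac hcb hf hne h ih =>
    exact HC.cons hac (hcb.trans h'.le) hf hne ih

theorem shift {s : ℝ≥0} (h : HC (fun u => f (s + u) - f s) b a l) :
    HC f (s + b) (s + a) (l.map (fun z => f s + z)) := by
  induction h with
  | @single a hab hf =>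
    have e : ([f (s + a) - f s] : List Site).map (fun z => f s + z) = [f (s + a)] := by simp
    rw [e]
    refine HC.single (by gcongr) fun u h1 h2 => ?_
    obtain ⟨v, rfl⟩ : ∃ v, u = s + v := ⟨u - s, (add_tsub_cancel_of_le (le_self_add.trans h1)).symm⟩
    have := hf v (by simpa using h1) (by simpa using h2)
    exact sub_left_injective this
  | @cons a c l hac hcb hf hne h ih =>
    have e : ((f (s + a) - f s) :: l : List Site).map (fun z => f s + z)
        = f (s + a) :: l.map (fun z => f s + z) := by simp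
    rw [e]
    refine HC.cons (by gcongr) (by gcongr) (fun u h1 h2 => ?_) (fun h' => hne ?_) ih
    · obtain ⟨v, rfl⟩ : ∃ v, u = s + v :=
        ⟨u - s, (add_tsub_cancel_of_le (le_self_add.trans h1)).symm⟩
      have := hf v (by simpa using h1) (by simpa using h2)
      exact sub_left_injective this
    · show f (s + a) - f s = f (s + c) - f s
      rw [h']

theorem exists_grid (h : HC f b a l) : ∃ δ : ℝ≥0, 0 < δ ∧ ∀ (T : List ℝ≥0) (a' : ℝ≥0),
    T.head? = some a' → a ≤ a' → a' < a + δ → T.getLast? = some b →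
    T.IsChain (fun u v => u ≤ v ∧ v < u + δ) → (T.map f).destutter (· ≠ ·) = l := by
  induction h with
  | @single a hab hf =>
    refine ⟨1, one_pos, ?_⟩
    intro T
    induction T with
    | nil => intro a' h; exact (Option.some_ne_none _ h.symm).elim
    | cons u T ih =>
      intro a' h1 h2 h3 h4 h5
      have hu : u = a' := Option.some.inj h1
      subst hu
      clear h1 h3
      rw [List.map_cons, List.destutter_cons']
      clear ih
      have key : ∀ (T : List ℝ≥0) (u : ℝ≥0), a ≤ u → (u :: T).getLast? = some b →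
          (u :: T).IsChain (fun u v => u ≤ v ∧ v < u + 1) →
          List.destutter' (· ≠ ·) (f a) (T.map f) = [f a] ∧ u ≤ b := by
        intro T
        induction T with
        | nil =>
          intro u hu h1 _
          refine ⟨rfl, ?_⟩
          rw [List.getLast?_singleton] at h1
          exact (Option.some.inj h1).le
        | cons v T ih =>
          intro u hu h1 h2
          rw [List.getLast?_cons_cons] at h1
          rw [List.isChain_cons_cons] at h2
          obtain ⟨⟨h3, h4⟩, h5⟩ := h2
          obtain ⟨h6, h7⟩ := ih v (hu.trans h3) h1 h5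
          refine ⟨?_, h3.trans h7⟩
          rw [List.map_cons, List.destutter'_cons_neg, h6]
          rw [hf v (hu.trans h3) h7]
          exact fun h => h rfl
      obtain ⟨h6, h7⟩ := key T u h2 h4 h5
      rw [hf u h2 h7]
      exact h6
  | @cons a c l hac hcb hf hne h ih =>
    obtain ⟨δ, hδ, ih⟩ := ih
    obtain ⟨l', rfl⟩ := h.exists_cons
    refine ⟨min δ (c - a), lt_min hδ (tsub_pos_of_lt hac), ?_⟩
    have key : ∀ (T : List ℝ≥0) (u : ℝ≥0), a ≤ u → u < c → (u :: T).getLast? = some b →
        (u :: T).IsChain (fun u v => u ≤ v ∧ v < u + min δ (c - a)) →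
        List.destutter' (· ≠ ·) (f a) (T.map f) = f a :: f c :: l' := by
      intro T
      induction T with
      | nil =>
        intro u h1 h2 h3 _
        rw [List.getLast?_singleton] at h3
        have : u = b := Option.some.inj h3
        exact absurd (this ▸ h2) (not_lt.2 hcb)
      | cons v T ihT =>
        intro u h1 h2 h3 h4
        rw [List.getLast?_cons_cons] at h3
        rw [List.isChain_cons_cons] at h4
        obtain ⟨⟨h5, h6⟩, h7⟩ := h4
        rw [List.map_cons]
        rcases lt_or_ge v c with h8 | h8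
        · rw [List.destutter'_cons_neg, ihT v (h1.trans h5) h8 h3 h7]
          rw [hf v (h1.trans h5) h8]
          exact fun h => h rfl
        · have h9 := ih (v :: T) v rfl h8 (h6.trans_le (by
            refine add_le_add h2.le (min_le_left _ _))) h3 (h7.imp fun x y hxy =>
              ⟨hxy.1, hxy.2.trans_le (by gcongr; exact min_le_left _ _)⟩)
          rw [List.map_cons, List.destutter_cons'] at h9
          have h10 : f v = f c := by
            obtain ⟨l₁, hl₁⟩ := destutter'_eq_cons (· ≠ ·) (T.map f) (f v)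
            rw [h9] at hl₁
            exact (List.cons.inj hl₁).1.symm
          rw [List.destutter'_cons_pos, h9]
          rw [h10]
          exact hne
    intro T a' h1 h2 h3 h4 h5
    obtain ⟨T', rfl⟩ : ∃ T', T = a' :: T' := by
      cases T with
      | nil => exact (Option.some_ne_none _ h1.symm).elim
      | cons u T => exact ⟨T, by rw [Option.some.inj h1]⟩
    have h6 : a' < c := by
      refine h3.trans_le ?_
      calc a + min δ (c - a) ≤ a + (c - a) := by gcongr; exact min_le_right _ _
        _ = c := add_tsub_cancel_of_le hac.le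
    rw [List.map_cons, List.destutter_cons', hf a' h2 h6]
    exact key T' a' h2 h6 h4 h5

theorem unique (h : HC f b a l) (h' : HC f b a l') : l = l' := by
  induction h generalizing l' with
  | @single a hab hf =>
    cases h' with
    | single _ _ => rfl
    | @cons _ c l hac hcb hf' hne h => exact absurd (hf c hac.le hcb).symm hne
  | @cons a c l hac hcb hf hne h ih =>
    cases h' with
    | single _ hf' => exact absurd (hf' c hac.le hcb).symm hne
    | @cons _ c' l' hac' hcb' hf' hne' h' =>
      have e : c = c' := by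
        rcases lt_trichotomy c c' with h1 | h1 | h1
        · exact absurd (hf' c hac.le h1).symm hne
        · exact h1
        · exact absurd (hf c' hac'.le h1).symm hne'
      subst e
      rw [ih h']

end HC

/-- Every step path has a chain. -/
theorem exists_hc {f : ℝ≥0 → Site} (hf : IsStepPath f) (s : ℝ≥0) : ∃ l, HC f s 0 l := by
  set A : Set ℝ≥0 := {a | ∃ l, HC f s a l} with hA
  have hsA : s ∈ A := ⟨[f s], HC.single le_rfl fun u h1 h2 => by rw [le_antisymm h2 h1]⟩
  have hne : A.Nonempty := ⟨s, hsA⟩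
  have hlow : sInf A ∈ A := by
    obtain ⟨δ, hδ, h⟩ := hf.right (sInf A)
    obtain ⟨a, ⟨l, hl⟩, h2⟩ := exists_lt_of_csInf_lt hne (lt_add_of_pos_right (sInf A) hδ)
    have h1 : sInf A ≤ a := csInf_le' ⟨l, hl⟩
    exact ⟨l, hl.prolong h1 fun u h3 h4 => h u h3 (h4.trans_lt h2)⟩
  rcases eq_or_lt_of_le (show (0 : ℝ≥0) ≤ sInf A from zero_le) with h0 | h0
  · rw [← h0] at hlow
    exact hlow
  · exfalso
    obtain ⟨l, hl⟩ := hlow
    obtain ⟨δ, hδ, x, hx, hx'⟩ := hf.left (sInf A) h0
    obtain ⟨u, hu2, hu3⟩ : ∃ u, u < sInf A ∧ sInf A < u + δ := by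
      rcases le_or_gt (sInf A) δ with h1 | h1
      · obtain ⟨u, hu1, hu2⟩ := exists_between h0
        exact ⟨u, hu2, lt_of_le_of_lt h1 (lt_add_of_pos_left _ hu1)⟩
      · obtain ⟨u, hu1, hu2⟩ := exists_between (tsub_lt_self (hδ.trans h1) hδ)
        exact ⟨u, hu2, (tsub_lt_iff_right h1.le).1 hu1⟩
    have hfu : f u = x := hx u hu2 hu3
    have hf' : ∀ v, u ≤ v → v < sInf A → f v = f u := by
      intro v h1 h2
      rw [hfu]
      exact hx v h2 (hu3.trans_le (by gcongr))
    have huA : u ∈ A := by
      by_cases hxf : f u = f (sInf A)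
      · refine ⟨l, hl.prolong hu2.le fun v h1 h2 => ?_⟩
        rcases lt_or_eq_of_le h2 with h3 | h3
        · exact hf' v h1 h3
        · rw [h3, hxf]
      · exact ⟨_, HC.cons hu2 hl.le hf' hxf hl⟩
    exact absurd (csInf_le' huA) (not_le.2 hu2)

/-- The dyadic times. -/
noncomputable def dts (N : ℕ) (s : ℝ≥0) : List ℝ≥0 :=
  List.ofFn (fun i : Fin (2 ^ N + 1) => ((i : ℕ) : ℝ≥0) * (s / 2 ^ N))

theorem gchain_eq (N : ℕ) (s : ℝ≥0) (f : WP) :
    gchain N s f = ((dts N s).map f.1).destutter (· ≠ ·) := by
  unfold gchain dts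
  rw [List.map_ofFn]
  rfl

theorem dts_head (N : ℕ) (s : ℝ≥0) : (dts N s).head? = some 0 := by
  unfold dts
  rw [List.ofFn_succ, List.head?_cons]
  congr 1
  simp

theorem dts_getLast (N : ℕ) (s : ℝ≥0) : (dts N s).getLast? = some s := by
  unfold dts
  rw [List.ofFn_succ']
  rw [List.concat_eq_append, List.getLast?_append]
  simp only [List.getLast?_singleton, Fin.val_last, Option.some_or]
  congr 1
  push_cast
  field_simp

theorem dts_isChain (N : ℕ) (s : ℝ≥0) {δ : ℝ≥0} (h : s / 2 ^ N < δ) :
    (dts N s).IsChain (fun u v => u ≤ v ∧ v < u + δ) := by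
  unfold dts
  rw [List.isChain_ofFn]
  intro i hi
  constructor
  · gcongr
    simp
  · show ((i + 1 : ℕ) : ℝ≥0) * (s / 2 ^ N) < (i : ℝ≥0) * (s / 2 ^ N) + δ
    push_cast
    rw [add_mul, one_mul]
    gcongr

theorem HC.gchain {s : ℝ≥0} {f : WP} {l : List Site} (h : HC f.1 s 0 l) :
    ∀ᶠ N in atTop, gchain N s f = l := by
  obtain ⟨δ, hδ, H⟩ := h.exists_grid
  filter_upwards [(tendsto_div_two_pow s).eventually (gt_mem_nhds hδ)] with N hN
  rw [gchain_eq]
  exact H _ 0 (dts_head N s) le_rfl (by rwa [zero_add]) (dts_getLast N s) (dts_isChain N s hN)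

theorem gchain_eventually (s : ℝ≥0) (f : WP) : ∃ l, ∀ᶠ N in atTop, gchain N s f = l := by
  obtain ⟨l, hl⟩ := exists_hc f.2 s
  exact ⟨l, hl.gchain⟩

/-- The jump chain of `f` up to time `s`. -/
noncomputable def chainOf (s : ℝ≥0) (f : WP) : List Site := (gchain_eventually s f).choose

theorem chainOf_spec (s : ℝ≥0) (f : WP) : ∀ᶠ N in atTop, gchain N s f = chainOf s f :=
  (gchain_eventually s f).choose_spec

theorem chainOf_eq_of_eventually {s : ℝ≥0} {f : WP} {l : List Site}
    (h : ∀ᶠ N in atTop, gchain N s f = l) : chainOf s f = l := by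
  obtain ⟨N, h1, h2⟩ := ((chainOf_spec s f).and h).exists
  rw [← h1, h2]

theorem chainOf_eq {s : ℝ≥0} {f : WP} {l : List Site} (h : HC f.1 s 0 l) : chainOf s f = l :=
  chainOf_eq_of_eventually h.gchain

theorem chainOf_hc (s : ℝ≥0) (f : WP) : HC f.1 s 0 (chainOf s f) := by
  obtain ⟨l, hl⟩ := exists_hc f.2 s
  rw [chainOf_eq hl]
  exact hl

theorem chainOf_head (s : ℝ≥0) (f : WP) : (chainOf s f).head? = some (f.1 0) :=
  (chainOf_hc s f).head

theorem chainOf_getLast (s : ℝ≥0) (f : WP) : (chainOf s f).getLast? = some (f.1 s) :=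
  (chainOf_hc s f).getLast

theorem chainOf_isChain (s : ℝ≥0) (f : WP) : (chainOf s f).IsChain Adj :=
  (chainOf_hc s f).isChain f.2

theorem chainOf_nn (s : ℝ≥0) (f : WP) : NN (f.1 0) (f.1 s) (chainOf s f) :=
  ⟨chainOf_head s f, chainOf_getLast s f, chainOf_isChain s f⟩

theorem chainOf_toFinset (s : ℝ≥0) (f : WP) : (chainOf s f).toFinset = rangeF s f := by
  ext x
  rw [List.mem_toFinset, (chainOf_hc s f).mem_iff, mem_rangeF]
  simp

theorem setOf_chainOf (s : ℝ≥0) (f : WP) (l : List Site) :
    chainOf s f = l ↔ ∃ M, ∀ N, M ≤ N → gchain N s f = l := by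
  constructor
  · rintro rfl
    exact eventually_atTop.1 (chainOf_spec s f)
  · intro h
    exact chainOf_eq_of_eventually (eventually_atTop.2 h)

theorem measurableSet_gchain (N : ℕ) (s : ℝ≥0) (l : List Site) :
    MeasurableSet {f : WP | gchain N s f = l} := by
  have h : Measurable (fun (f : WP) (i : Fin (2 ^ N + 1)) => f.1 ((i : ℕ) * (s / 2 ^ N))) :=
    measurable_pi_iff.2 fun i => measurable_eval _
  have h2 : MeasurableSet {v : Fin (2 ^ N + 1) → Site | (List.ofFn v).destutter (· ≠ ·) = l} :=
    (Set.to_countable _).measurableSet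
  exact h h2

theorem measurableSet_chainOf (s : ℝ≥0) (l : List Site) :
    MeasurableSet {f : WP | chainOf s f = l} := by
  have e : {f : WP | chainOf s f = l} = ⋃ M : ℕ, ⋂ N : ℕ, ⋂ _ : M ≤ N, {f | gchain N s f = l} := by
    ext f
    simp only [Set.mem_ofPred_eq, Set.mem_iUnion, Set.mem_iInter]
    exact setOf_chainOf s f l
  rw [e]
  exact MeasurableSet.iUnion fun M => MeasurableSet.iInter fun N => MeasurableSet.iInter fun _ =>
    measurableSet_gchain N s l

/-- Joint measurability of the evaluation. -/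
theorem measurable_eval_prod : Measurable (fun p : ℝ≥0 × WP => p.2.1 p.1) := by
  apply measurable_of_tendsto_metrizable
    (f := fun N : ℕ => (fun p : ℝ≥0 × WP => p.2.1 (gp (1 / 2 ^ N) p.1)))
  · intro N
    have h1 : Measurable (fun q : ℕ × WP => q.2.1 ((q.1 + 1 : ℕ) * (1 / 2 ^ N))) :=
      measurable_from_prod_countable_right fun n =>
        measurable_eval (((n + 1 : ℕ) : ℝ≥0) * (1 / 2 ^ N))
    have h2 : Measurable (fun p : ℝ≥0 × WP => (⌊p.1 / (1 / 2 ^ N)⌋₊, p.2)) :=
      Measurable.prodMk (Nat.measurable_floor.comp (measurable_fst.div_const _)) measurable_snd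
    exact h1.comp h2
  · rw [tendsto_pi_nhds]
    intro p
    have h := gp_tendsto p.2 p.1 (δ := fun N => 1 / 2 ^ N) (fun N => by positivity)
      tendsto_inv_two_pow
    apply tendsto_const_nhds.congr'
    filter_upwards [h] with N hN
    rw [hN]

/-- Joint measurability. -/
theorem measurableSet_chainOf_prod (l : List Site) :
    MeasurableSet {p : ℝ × WP | 0 ≤ p.1 ∧ chainOf p.1.toNNReal p.2 = l} := by
  have h1 : ∀ N, MeasurableSet {p : ℝ × WP | gchain N p.1.toNNReal p.2 = l} := by
    intro N
    have h : Measurable (fun (p : ℝ × WP) (i : Fin (2 ^ N + 1)) =>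
        p.2.1 ((i : ℕ) * (p.1.toNNReal / 2 ^ N))) := by
      refine measurable_pi_iff.2 fun i => ?_
      have h3 : Measurable (fun p : ℝ × WP => (((i : ℕ) : ℝ≥0) * (p.1.toNNReal / 2 ^ N), p.2)) :=
        Measurable.prodMk (((measurable_real_toNNReal.comp measurable_fst).div_const _).const_mul _)
          measurable_snd
      exact measurable_eval_prod.comp h3
    have h2 : MeasurableSet {v : Fin (2 ^ N + 1) → Site | (List.ofFn v).destutter (· ≠ ·) = l} :=
      (Set.to_countable _).measurableSet
    exact h h2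
  have e : {p : ℝ × WP | 0 ≤ p.1 ∧ chainOf p.1.toNNReal p.2 = l} = {p : ℝ × WP | 0 ≤ p.1} ∩
      ⋃ M : ℕ, ⋂ N : ℕ, ⋂ _ : M ≤ N, {p | gchain N p.1.toNNReal p.2 = l} := by
    ext p
    simp only [Set.mem_ofPred_eq, Set.mem_iUnion, Set.mem_iInter, Set.mem_inter_iff]
    rw [setOf_chainOf]
  rw [e]
  refine MeasurableSet.inter (measurableSet_le measurable_const measurable_fst) ?_
  exact MeasurableSet.iUnion fun M => MeasurableSet.iInter fun N => MeasurableSet.iInter fun _ =>
    h1 N

theorem chainOf_congr {s : ℝ≥0} {f g : WP} (h : ∀ u ≤ s, f.1 u = g.1 u) :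
    chainOf s f = chainOf s g :=
  (chainOf_eq ((chainOf_hc s f).congr fun u _ h2 => h u h2)).symm

theorem chainOf_const {s t : ℝ≥0} {f : WP} (hst : s ≤ t)
    (h : ∀ u, s ≤ u → u ≤ t → f.1 u = f.1 s) : chainOf t f = chainOf s f :=
  chainOf_eq ((chainOf_hc s f).extend hst h)

/-- Concatenation. -/
theorem chainOf_add (s r : ℝ≥0) (f : WP) :
    chainOf (s + r) f
      = chainOf s f ++ ((chainOf r (shift s f)).map (fun z => f.1 s + z)).tail := by
  have h := HC.shift (s := s) (f := f.1) (chainOf_hc r (LT.shift s f))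
  rw [add_zero] at h
  exact chainOf_eq ((chainOf_hc s f).append h)

end Pool.Agent.WSB71
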