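import Pool.Agent.WSB71.FChain

/-!
# F2: Feynman-Kac for the jump chain

Same proof as `LT/FK.lean` (skeleton chain at the times `i s / 2^N`), but with the state space of
the prefixes of `l`: the grid chain `gchain N s f` equals `l = [x_0, ..., x_k]` iff there is a
(unique) index path `i_0 = 0 ≤ i_1 ≤ ...` with steps `0` or `1` ending at `k` with
`f (grid point m) = x_{i_m}`; so the integral is an entry of the `2^N`-th power of the
`(k+1) × (k+1)` upper bidiagonal matrix `T i j = tp μ δ (x_j - x_i) e^{δ V x_j}` (`j ∈ {i, i+1}`),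
which tends to `exp (s G)`, `G i i = V x_i - 4`, `G i (i+1) = 1` (use `tendsto_one_add_pow_exp'`,
`tp_zero_tendsto`, `IsLaw.rate`).  The functions `w_i(s) = (exp (s G)) i k` satisfy
`w_i' = (V x_i - 4) w_i + w_{i+1}`, and integrating over `[0, ∞)` gives
`∫ w_i = (4 - V x_i)⁻¹ ∫ w_{i+1}`.  For `V = 0`: `w_i(s) = e^{-4s} s^(k-i) / (k-i)!`.
-/

open MeasureTheory Filter Topology
open scoped NNReal ENNReal

namespace Pool.Agent.WSB71

open Pool.Agent.LT

namespace FKer

open Pool.Agent.LT.IsLaw

/-- The chain of the values at the times `i δ`, `i ≤ M`, of the path started at `y`. -/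
noncomputable def dch (δ : ℝ≥0) (M : ℕ) (y : Site) (f : WP) : List Site :=
  List.destutter' (· ≠ ·) y (List.ofFn (fun i : Fin M => y + f.1 (((i : ℕ) + 1 : ℕ) * δ)))

/-- The potential weight. -/
noncomputable def dpr (V : Site → ℝ) (δ : ℝ≥0) (M : ℕ) (y : Site) (f : WP) : ℝ :=
  ∏ i ∈ Finset.range M, Real.exp (δ * V (y + f.1 ((i + 1 : ℕ) * δ)))

/-- The weight of the chain `l`. -/
noncomputable def DG (V : Site → ℝ) (δ : ℝ≥0) (M : ℕ) (y : Site) (l : List Site) (f : WP) : ℝ :=
  if dch δ M y f = l then dpr V δ M y f else 0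

lemma dch_succ (δ : ℝ≥0) (M : ℕ) (y : Site) (f : WP) :
    dch δ (M + 1) y f = if f.1 δ = 0 then dch δ M y (shift δ f)
      else y :: dch δ M (y + f.1 δ) (shift δ f) := by
  have h1 : (fun i : Fin M => y + f.1 (((i.succ : ℕ) + 1 : ℕ) * δ))
      = fun i : Fin M => y + f.1 δ + (shift δ f).1 (((i : ℕ) + 1 : ℕ) * δ) := by
    funext i
    have : (((i.succ : ℕ) + 1 : ℕ) : ℝ≥0) * δ = δ + (((i : ℕ) + 1 : ℕ) : ℝ≥0) * δ := by
      rw [Fin.val_succ]; push_cast; ring
    rw [this]
    simp only [shift]
    abel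
  unfold dch
  rw [List.ofFn_succ, List.destutter'_cons, h1]
  have h2 : ((((0 : Fin (M + 1)) : ℕ) + 1 : ℕ) : ℝ≥0) * δ = δ := by simp
  rw [h2]
  by_cases h : f.1 δ = 0
  · rw [if_pos h, h, add_zero, if_neg (by simp)]
  · rw [if_neg h, if_pos (fun h' => h (by simpa using h'.symm))]

lemma dch_zero (δ : ℝ≥0) (y : Site) (f : WP) : dch δ 0 y f = [y] := by
  unfold dch
  simp

lemma destutter'_head (y : Site) (l : List Site) :
    ∃ r, List.destutter' (· ≠ ·) y l = y :: r := by
  induction l with
  | nil => exact ⟨[], rfl⟩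
  | cons b l ih =>
    rw [List.destutter'_cons]
    split_ifs
    · exact ⟨_, rfl⟩
    · exact ih

lemma dch_head (δ : ℝ≥0) (M : ℕ) (y : Site) (f : WP) : ∃ r, dch δ M y f = y :: r :=
  destutter'_head _ _

lemma dpr_succ (V : Site → ℝ) (δ : ℝ≥0) (M : ℕ) (y : Site) (f : WP) :
    dpr V δ (M + 1) y f
      = Real.exp (δ * V (y + f.1 δ)) * dpr V δ M (y + f.1 δ) (shift δ f) := by
  unfold dpr
  rw [Finset.prod_range_succ', mul_comm]
  congr 1
  · simp
  · apply Finset.prod_congr rfl
    intro i _
    have : (((i + 1) + 1 : ℕ) : ℝ≥0) * δ = δ + ((i + 1 : ℕ) : ℝ≥0) * δ := by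
      push_cast; ring
    rw [this]
    have h2 : y + f.1 (δ + ((i + 1 : ℕ) : ℝ≥0) * δ)
        = y + f.1 δ + (shift δ f).1 (((i + 1 : ℕ) : ℝ≥0) * δ) := by
      simp only [shift]; abel
    rw [h2]

lemma DG_succ (V : Site → ℝ) (δ : ℝ≥0) (M : ℕ) (y z : Site) (hyz : z ≠ y) (r : List Site) (f : WP) :
    DG V δ (M + 1) y (y :: z :: r) f
      = (if y + (stop δ f).1 δ = y then Real.exp (δ * V y) else 0)
          * DG V δ M y (y :: z :: r) (shift δ f)
        + (if y + (stop δ f).1 δ = z then Real.exp (δ * V z) else 0)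
          * DG V δ M z (z :: r) (shift δ f) := by
  have hstop : (stop δ f).1 δ = f.1 δ := by simp [stop]
  rw [hstop]
  unfold DG
  rw [dch_succ, dpr_succ]
  by_cases h0 : f.1 δ = 0
  · rw [if_pos h0, h0, add_zero, if_pos rfl, if_neg hyz.symm, zero_mul, add_zero]
    split_ifs <;> simp
  · rw [if_neg h0, if_neg (show ¬ y + f.1 δ = y by simpa using h0), zero_mul, zero_add]
    by_cases hz : y + f.1 δ = z
    · rw [if_pos hz, hz]
      by_cases h2 : dch δ M z (shift δ f) = z :: r
      · rw [if_pos h2, if_pos (by rw [h2])]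
      · rw [if_neg h2, if_neg (fun h => h2 (List.cons_injective h)), mul_zero]
    · rw [if_neg hz, zero_mul, if_neg]
      intro h
      obtain ⟨r', hr'⟩ := dch_head δ M (y + f.1 δ) (shift δ f)
      rw [hr'] at h
      have := (List.cons.inj (List.cons.inj h).2).1
      exact hz this

lemma DG_succ_single (V : Site → ℝ) (δ : ℝ≥0) (M : ℕ) (y : Site) (f : WP) :
    DG V δ (M + 1) y [y] f
      = (if y + (stop δ f).1 δ = y then Real.exp (δ * V y) else 0)
          * DG V δ M y [y] (shift δ f) := by
  have hstop : (stop δ f).1 δ = f.1 δ := by simp [stop]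
  rw [hstop]
  unfold DG
  rw [dch_succ, dpr_succ]
  by_cases h0 : f.1 δ = 0
  · rw [if_pos h0, h0, add_zero, if_pos rfl]
    split_ifs <;> simp
  · rw [if_neg h0, if_neg (show ¬ y + f.1 δ = y by simpa using h0), zero_mul, if_neg]
    intro h
    obtain ⟨r', hr'⟩ := dch_head δ M (y + f.1 δ) (shift δ f)
    rw [hr'] at h
    simp at h

lemma measurable_dpr (V : Site → ℝ) (δ : ℝ≥0) (M : ℕ) (y : Site) : Measurable (dpr V δ M y) := by
  unfold dpr
  apply Finset.measurable_prod
  intro i _
  exact (Measurable.of_discrete (f := fun z : Site => Real.exp (δ * V (y + z)))).comp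
    (measurable_eval _)

lemma measurableSet_dch (δ : ℝ≥0) (M : ℕ) (y : Site) (l : List Site) :
    MeasurableSet {f : WP | dch δ M y f = l} := by
  have h1 : Measurable (fun (f : WP) (i : Fin M) => f.1 (((i : ℕ) + 1 : ℕ) * δ)) :=
    measurable_pi_iff.2 (fun i => measurable_eval _)
  have h2 : MeasurableSet {g : Fin M → Site |
      List.destutter' (· ≠ ·) y (List.ofFn (fun i : Fin M => y + g i)) = l} :=
    MeasurableSet.of_discrete
  exact h1 h2

lemma measurable_DG (V : Site → ℝ) (δ : ℝ≥0) (M : ℕ) (y : Site) (l : List Site) :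
    Measurable (DG V δ M y l) :=
  Measurable.ite (measurableSet_dch δ M y l) (measurable_dpr V δ M y) measurable_const

lemma dpr_nonneg (V : Site → ℝ) (δ : ℝ≥0) (M : ℕ) (y : Site) (f : WP) : 0 ≤ dpr V δ M y f :=
  Finset.prod_nonneg (fun _ _ => (Real.exp_pos _).le)

lemma DG_nonneg (V : Site → ℝ) (δ : ℝ≥0) (M : ℕ) (y : Site) (l : List Site) (f : WP) :
    0 ≤ DG V δ M y l f := by
  unfold DG
  split_ifs
  · exact dpr_nonneg _ _ _ _ _
  · exact le_rfl

lemma dpr_le (V : Site → ℝ) {C : ℝ} (hC : ∀ x, |V x| ≤ C) (δ : ℝ≥0) (M : ℕ)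
    (y : Site) (f : WP) : dpr V δ M y f ≤ Real.exp (M * δ * C) := by
  unfold dpr
  calc _ ≤ ∏ i ∈ Finset.range M, Real.exp (δ * C) := by
        apply Finset.prod_le_prod (fun _ _ => (Real.exp_pos _).le)
        intro i _
        apply Real.exp_le_exp.2
        exact mul_le_mul_of_nonneg_left ((le_abs_self _).trans (hC _)) δ.coe_nonneg
    _ = Real.exp (M * δ * C) := by
      rw [Finset.prod_const, Finset.card_range, ← Real.exp_nat_mul]; ring_nf

lemma DG_bdd (V : Site → ℝ) {C : ℝ} (hC : ∀ x, |V x| ≤ C) (δ : ℝ≥0) (M : ℕ)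
    (y : Site) (l : List Site) (f : WP) : |DG V δ M y l f| ≤ Real.exp (M * δ * C) := by
  rw [abs_of_nonneg (DG_nonneg _ _ _ _ _ _)]
  unfold DG
  split_ifs
  · exact dpr_le V hC δ M y f
  · positivity

/-- The skeleton matrix. -/
noncomputable def TM (μ : Measure WP) (V : Site → ℝ) (l : List Site) (δ : ℝ≥0) :
    Matrix (Fin l.length) (Fin l.length) ℝ :=
  fun i j => if j = i then tp μ δ 0 * Real.exp (δ * V (l.get i))
    else if (j : ℕ) = i + 1 then tp μ δ (l.get j - l.get i) * Real.exp (δ * V (l.get j)) else 0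

/-- The generator. -/
noncomputable def GM (V : Site → ℝ) (l : List Site) :
    Matrix (Fin l.length) (Fin l.length) ℝ :=
  fun i j => if j = i then V (l.get i) - 4 else if (j : ℕ) = i + 1 then 1 else 0

/-- The final vector. -/
noncomputable def fin1 (n : ℕ) : Fin n → ℝ := fun i => if (i : ℕ) + 1 = n then 1 else 0

lemma bidiag_mulVec {n : ℕ} (A : Matrix (Fin n) (Fin n) ℝ)
    (hA : ∀ i j : Fin n, j ≠ i → (j : ℕ) ≠ i + 1 → A i j = 0) (v : Fin n → ℝ) (i : Fin n) :
    A.mulVec v i = A i i * v i
      + if h : (i : ℕ) + 1 < n then A i ⟨i + 1, h⟩ * v ⟨i + 1, h⟩ else 0 := by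
  rw [Matrix.mulVec, dotProduct]
  by_cases h : (i : ℕ) + 1 < n
  · rw [dif_pos h]
    have hne : i ≠ ⟨(i : ℕ) + 1, h⟩ := by
      intro h'; have := congrArg Fin.val h'; simp at this
    rw [← Finset.sum_subset (Finset.subset_univ {i, ⟨(i : ℕ) + 1, h⟩})]
    · rw [Finset.sum_pair hne]
    · intro j _ hj
      simp only [Finset.mem_insert, Finset.mem_singleton, not_or] at hj
      rw [hA i j hj.1 (fun h' => hj.2 (Fin.ext h')), zero_mul]
  · rw [dif_neg h, add_zero]
    rw [← Finset.sum_subset (Finset.subset_univ {i})]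
    · rw [Finset.sum_singleton]
    · intro j _ hj
      rw [Finset.mem_singleton] at hj
      rw [hA i j hj (fun h' => h (by rw [← h']; exact j.2)), zero_mul]

lemma TM_supp (μ : Measure WP) (V : Site → ℝ) (l : List Site) (δ : ℝ≥0) (i j : Fin l.length)
    (h1 : j ≠ i) (h2 : (j : ℕ) ≠ i + 1) : TM μ V l δ i j = 0 := by
  unfold TM
  rw [if_neg h1, if_neg h2]

lemma GM_supp (V : Site → ℝ) (l : List Site) (i j : Fin l.length)
    (h1 : j ≠ i) (h2 : (j : ℕ) ≠ i + 1) : GM V l i j = 0 := by
  unfold GM
  rw [if_neg h1, if_neg h2]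

lemma chain_step {l : List Site} (hl : l.IsChain Adj) (i : ℕ) (h : i + 1 < l.length) :
    Adj l[i] l[i + 1] := List.isChain_iff_getElem.1 hl i h

lemma adj_ne {x y : Site} (h : Adj x y) : y ≠ x := by
  rintro rfl
  have h0 : (0 : Site) ∉ units := by decide
  apply h0
  have := h
  unfold Adj at this
  rwa [sub_self] at this

lemma integral_step {μ : Measure WP} (hμ : IsLaw μ) (V : Site → ℝ) (δ : ℝ≥0) (M : ℕ)
    (y z z' : Site) (r : List Site) :
    ∫ f, (if y + (stop δ f).1 δ = z then Real.exp (δ * V z) else 0)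
        * DG V δ M z' r (shift δ f) ∂μ
      = tp μ δ (z - y) * Real.exp (δ * V z) * ∫ f, DG V δ M z' r f ∂μ := by
  have hm := hμ.markov_integral δ
    (Φ := fun f => if y + f.1 δ = z then Real.exp (δ * V z) else 0)
    (Ψ := fun f => DG V δ M z' r f)
    (measurable_ite_eval _ _ _ _ _) (measurable_DG V δ M z' r)
  rw [hm]
  congr 1
  have hstop : ∀ f : WP, (stop δ f).1 δ = f.1 δ := fun f => by simp [stop]
  simp only [hstop]
  rw [tp_eq_integral hμ, ← integral_mul_const]
  congr 1
  funext f
  have hiff : y + f.1 δ = z ↔ f.1 δ = z - y := by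
    rw [eq_sub_iff_add_eq, add_comm]
  by_cases hc : f.1 δ = z - y
  · rw [if_pos (hiff.2 hc), if_pos hc, one_mul]
  · rw [if_neg (fun h => hc (hiff.1 h)), if_neg hc, zero_mul]

lemma integrable_step {μ : Measure WP} (hμ : IsLaw μ) (V : Site → ℝ) {C : ℝ}
    (hC : ∀ x, |V x| ≤ C) (δ : ℝ≥0) (M : ℕ) (y z z' : Site) (r : List Site) :
    Integrable (fun f => (if y + (stop δ f).1 δ = z then Real.exp (δ * V z) else 0)
        * DG V δ M z' r (shift δ f)) μ := by
  have := hμ.prob
  have hmeas : Measurable (fun f : WP => (if y + (stop δ f).1 δ = z then Real.exp (δ * V z) else 0)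
      * DG V δ M z' r (shift δ f)) := by
    apply Measurable.mul
    · exact (measurable_ite_eval _ _ _ _ _).comp (measurable_stop δ)
    · exact (measurable_DG V δ M z' r).comp (measurable_shift δ)
  apply integrable_of_bdd hmeas (C := Real.exp (δ * V z) * Real.exp (M * δ * C))
  intro f
  rw [abs_mul]
  apply mul_le_mul _ (DG_bdd V hC δ M z' r (shift δ f)) (abs_nonneg _) (by positivity)
  split_ifs
  · rw [abs_of_nonneg (Real.exp_pos _).le]
  · rw [abs_zero]; positivity

/-- The skeleton formula. -/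
lemma skeleton {μ : Measure WP} (hμ : IsLaw μ) (V : Site → ℝ) {C : ℝ}
    (hC : ∀ x, |V x| ≤ C) {l : List Site} (hl : l.IsChain Adj) (δ : ℝ≥0) (M : ℕ)
    (i : Fin l.length) :
    ∫ f, DG V δ M (l.get i) (l.drop i) f ∂μ
      = ((TM μ V l δ) ^ M).mulVec (fin1 l.length) i := by
  have := hμ.prob
  induction M generalizing i with
  | zero =>
    rw [pow_zero, Matrix.one_mulVec]
    have h1 : ∀ f : WP, DG V δ 0 (l.get i) (l.drop i) f = fin1 l.length i := by
      intro f
      unfold DG fin1
      rw [dch_zero]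
      have hd : l.drop i = l[(i : ℕ)] :: l.drop (i + 1) := List.drop_eq_getElem_cons i.2
      by_cases h : (i : ℕ) + 1 = l.length
      · rw [if_pos h, if_pos]
        · unfold dpr; simp
        · rw [hd, h, List.drop_length]
          rfl
      · rw [if_neg h, if_neg]
        intro h'
        apply h
        have := congrArg List.length h'
        rw [List.length_drop] at this
        simp only [List.length_cons, List.length_nil] at this
        have h3 := i.2
        omega
    simp only [h1]
    simp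
  | succ M ih =>
    rw [pow_succ', ← Matrix.mulVec_mulVec, bidiag_mulVec _ (TM_supp μ V l δ)]
    have hd : l.drop i = l[(i : ℕ)] :: l.drop (i + 1) := List.drop_eq_getElem_cons i.2
    have hTii : TM μ V l δ i i = tp μ δ (l.get i - l.get i) * Real.exp (δ * V (l.get i)) := by
      unfold TM
      rw [if_pos rfl, sub_self]
    by_cases h : (i : ℕ) + 1 < l.length
    · rw [dif_pos h]
      have hd2 : l.drop (i + 1) = l[(i : ℕ) + 1] :: l.drop (i + 1 + 1) :=
        List.drop_eq_getElem_cons h
      have hne : l[(i : ℕ) + 1] ≠ l[(i : ℕ)] := adj_ne (chain_step hl i h)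
      have h1 : ∀ f : WP, DG V δ (M + 1) (l.get i) (l.drop i) f
          = (if l.get i + (stop δ f).1 δ = l.get i then Real.exp (δ * V (l.get i)) else 0)
              * DG V δ M (l.get i) (l.drop i) (shift δ f)
            + (if l.get i + (stop δ f).1 δ = l.get ⟨i + 1, h⟩ then
                Real.exp (δ * V (l.get ⟨i + 1, h⟩)) else 0)
              * DG V δ M (l.get ⟨i + 1, h⟩) (l.drop ((⟨i + 1, h⟩ : Fin l.length) : ℕ))
                (shift δ f) := by
        intro f
        have := DG_succ V δ M (l[(i : ℕ)]) (l[(i : ℕ) + 1]) hne (l.drop (i + 1 + 1)) f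
        rw [← hd2, ← hd] at this
        exact this
      simp only [h1]
      rw [integral_add (integrable_step hμ V hC _ _ _ _ _ _) (integrable_step hμ V hC _ _ _ _ _ _),
        integral_step hμ, integral_step hμ, ih i, ih ⟨i + 1, h⟩, hTii]
      congr 2
      unfold TM
      rw [if_neg, if_pos rfl]
      intro h'; have := congrArg Fin.val h'; simp at this
    · rw [dif_neg h, add_zero]
      have hd2 : l.drop (i + 1) = [] := List.drop_eq_nil_of_le (by omega)
      have h1 : ∀ f : WP, DG V δ (M + 1) (l.get i) (l.drop i) f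
          = (if l.get i + (stop δ f).1 δ = l.get i then Real.exp (δ * V (l.get i)) else 0)
              * DG V δ M (l.get i) (l.drop i) (shift δ f) := by
        intro f
        have := DG_succ_single V δ M (l[(i : ℕ)]) f
        rw [hd, hd2]
        exact this
      simp only [h1]
      rw [integral_step hμ, ih i, hTii]

section limits

open scoped Matrix.Norms.Operator

lemma hid : Tendsto (fun h : ℝ≥0 => (h : ℝ)) (𝓝[>] 0) (𝓝 0) := by
  have : Tendsto (fun h : ℝ≥0 => (h : ℝ)) (𝓝 0) (𝓝 ((0 : ℝ≥0) : ℝ)) :=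
    NNReal.continuous_coe.tendsto 0
  exact this.mono_left nhdsWithin_le_nhds

lemma hpos : ∀ᶠ h : ℝ≥0 in 𝓝[>] 0, (0 : ℝ) < h := by
  filter_upwards [self_mem_nhdsWithin] with h hh
  exact_mod_cast hh

lemma entry_lim {μ : Measure WP} (hμ : IsLaw μ) (V : Site → ℝ) {l : List Site}
    (hl : l.IsChain Adj) (i j : Fin l.length) :
    Tendsto (fun h : ℝ≥0 => (TM μ V l h i j - (1 : Matrix (Fin l.length) (Fin l.length) ℝ) i j)
      / (h : ℝ)) (𝓝[>] 0) (𝓝 (GM V l i j)) := by
  have hexp : ∀ c : ℝ, Tendsto (fun h : ℝ≥0 => Real.exp (h * c)) (𝓝[>] 0) (𝓝 1) := by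
    intro c
    have := (Real.continuous_exp.tendsto _).comp (hid.mul_const c)
    simpa [Function.comp_def] using this
  unfold GM TM
  by_cases hxy : j = i
  · subst hxy
    simp only [if_true, Matrix.one_apply_eq]
    have hder : Tendsto (fun h : ℝ≥0 => (Real.exp (h * V (l.get j)) - 1) / (h : ℝ)) (𝓝[>] 0)
        (𝓝 (V (l.get j))) := by
      have h1 : HasDerivAt (fun u : ℝ => Real.exp (u * V (l.get j))) (V (l.get j)) 0 := by
        have := ((hasDerivAt_id (0 : ℝ)).mul_const (V (l.get j))).exp
        simpa using this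
      have h2 := hasDerivAt_iff_tendsto_slope.1 h1
      have h3 : Tendsto (fun h : ℝ≥0 => (h : ℝ)) (𝓝[>] 0) (𝓝[≠] 0) := by
        rw [tendsto_nhdsWithin_iff]
        exact ⟨hid, hpos.mono (fun h hh => hh.ne')⟩
      have h4 := h2.comp h3
      refine h4.congr (fun h => ?_)
      simp only [Function.comp, slope, vsub_eq_sub, sub_zero, zero_mul, Real.exp_zero, smul_eq_mul]
      ring
    have h1 := ((tp_zero_tendsto hμ).mul hder).sub hμ.rate_zero
    rw [one_mul] at h1
    apply h1.congr'
    filter_upwards [hpos] with h hh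
    simp only [tp]
    ring
  · have hxy' : i ≠ j := fun h => hxy h.symm
    simp only [if_neg hxy, Matrix.one_apply_ne hxy', sub_zero]
    by_cases hj : (j : ℕ) = i + 1
    · simp only [if_pos hj]
      have hadj : l.get j - l.get i ∈ units := by
        have h1 := chain_step hl i (by rw [← hj]; exact j.2)
        have h2 : j = ⟨(i : ℕ) + 1, by rw [← hj]; exact j.2⟩ := Fin.ext hj
        rw [h2]
        exact h1
      have h1 := (hμ.rate _ hadj).mul (hexp (V (l.get j)))
      rw [one_mul] at h1
      refine h1.congr (fun h => ?_)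
      simp only [tp]
      ring
    · simp only [if_neg hj, zero_div]
      exact tendsto_const_nhds

lemma TM_zero {μ : Measure WP} (hμ : IsLaw μ) (V : Site → ℝ) {l : List Site}
    (hl : l.IsChain Adj) : TM μ V l 0 = 1 := by
  ext i j
  unfold TM
  by_cases hij : j = i
  · subst hij
    simp [tp_at_zero hμ]
  · rw [if_neg hij, Matrix.one_apply_ne (Ne.symm hij)]
    split_ifs with h
    · have hadj : l.get j - l.get i ∈ units := by
        have h1 := chain_step hl i (by rw [← h]; exact j.2)
        have h2 : j = ⟨(i : ℕ) + 1, by rw [← h]; exact j.2⟩ := Fin.ext h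
        rw [h2]
        exact h1
      have h0u : (0 : Site) ∉ units := by decide
      rw [tp_at_zero hμ, if_neg, zero_mul]
      intro h'
      rw [h'] at hadj
      exact h0u hadj
    · rfl

lemma TM_pow_tendsto {μ : Measure WP} (hμ : IsLaw μ) (V : Site → ℝ) {l : List Site}
    (hl : l.IsChain Adj) (hne : l ≠ []) (s : ℝ≥0) :
    Tendsto (fun N : ℕ => TM μ V l (s / 2 ^ N) ^ (2 ^ N)) atTop
      (𝓝 (NormedSpace.exp ((s : ℝ) • GM V l))) := by
  have : Nonempty (Fin l.length) := ⟨⟨0, List.length_pos_iff.2 hne⟩⟩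
  have hn : Tendsto (fun N : ℕ => 2 ^ N) atTop atTop :=
    tendsto_pow_atTop_atTop_of_one_lt (by norm_num)
  set a : ℕ → Matrix (Fin l.length) (Fin l.length) ℝ :=
    fun N => ((2 ^ N : ℕ) : ℝ) • (TM μ V l (s / 2 ^ N) - 1) with ha
  have hlim : Tendsto a atTop (𝓝 ((s : ℝ) • GM V l)) := by
    rcases eq_or_lt_of_le (show (0 : ℝ≥0) ≤ s from zero_le) with h0 | hs
    · have h1 : ∀ N, a N = 0 := by
        intro N
        rw [ha]
        simp only [← h0, zero_div, TM_zero hμ V hl, sub_self, smul_zero]
      have h2 : a = fun _ => 0 := funext h1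
      rw [h2, ← h0]
      simp
    · refine tendsto_pi_nhds.2 (fun x => tendsto_pi_nhds.2 (fun y => ?_))
      have h1 : Tendsto (fun N : ℕ => s / 2 ^ N) atTop (𝓝[>] 0) := by
        rw [tendsto_nhdsWithin_iff]
        refine ⟨tendsto_div_two_pow s, Eventually.of_forall (fun N => ?_)⟩
        show 0 < s / 2 ^ N
        positivity
      have h2 := ((entry_lim hμ V hl x y).comp h1).const_mul (s : ℝ)
      refine h2.congr (fun N => ?_)
      simp only [Function.comp, ha, Matrix.smul_apply, Matrix.sub_apply, smul_eq_mul]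
      have hs' : (s : ℝ) ≠ 0 := by
        have : (0 : ℝ) < s := by exact_mod_cast hs
        exact this.ne'
      push_cast
      field_simp
  have := tendsto_one_add_pow_exp' hlim hn
  refine this.congr (fun N => ?_)
  congr 1
  simp only [ha, smul_smul]
  rw [inv_mul_cancel₀ (by positivity), one_smul]
  abel

/-- The solution of the backward system. -/
noncomputable def sol (V : Site → ℝ) (l : List Site) (i : Fin l.length) (s : ℝ) : ℝ :=
  (NormedSpace.exp (s • GM V l)).mulVec (fin1 l.length) i

lemma sol_zero (V : Site → ℝ) (l : List Site) (i : Fin l.length) :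
    sol V l i 0 = fin1 l.length i := by
  unfold sol
  rw [exp_zero_mulVec]

lemma sol_deriv (V : Site → ℝ) (l : List Site) (i : Fin l.length) (s : ℝ) :
    HasDerivAt (sol V l i) (-(4 - V (l.get i)) * sol V l i s
      + if h : (i : ℕ) + 1 < l.length then sol V l ⟨i + 1, h⟩ s else 0) s := by
  have h1 := hasDerivAt_exp_mulVec' (GM V l) (fin1 l.length) i s
  refine h1.congr_deriv ?_
  rw [bidiag_mulVec _ (GM_supp V l)]
  have h2 : GM V l i i = -(4 - V (l.get i)) := by
    unfold GM; rw [if_pos rfl]; ring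
  rw [h2]
  congr 1
  split_ifs with h
  · have h3 : GM V l i ⟨i + 1, h⟩ = 1 := by
      unfold GM
      rw [if_neg, if_pos rfl]
      intro h'; have := congrArg Fin.val h'; simp at this
    rw [h3, one_mul]
    rfl
  · rfl

lemma sol_tendsto {μ : Measure WP} (hμ : IsLaw μ) (V : Site → ℝ) {C : ℝ}
    (hC : ∀ x, |V x| ≤ C) {l : List Site} (hl : l.IsChain Adj) (s : ℝ≥0) (i : Fin l.length) :
    Tendsto (fun N : ℕ => ∫ f, DG V (s / 2 ^ N) (2 ^ N) (l.get i) (l.drop i) f ∂μ) atTop
      (𝓝 (sol V l i s)) := by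
  have hne : l ≠ [] := List.length_pos_iff.1 (lt_of_le_of_lt (Nat.zero_le _) i.2)
  have h1 := TM_pow_tendsto hμ V hl hne s
  have h2 : ∀ N : ℕ, ∫ f, DG V (s / 2 ^ N) (2 ^ N) (l.get i) (l.drop i) f ∂μ
      = ((TM μ V l (s / 2 ^ N)) ^ (2 ^ N)).mulVec (fin1 l.length) i :=
    fun N => skeleton hμ V hC hl _ _ i
  simp only [h2]
  unfold sol Matrix.mulVec dotProduct
  apply tendsto_finset_sum
  intro j _
  exact (tendsto_pi_nhds.1 (tendsto_pi_nhds.1 h1 i) j).mul_const _

lemma sol_nonneg {μ : Measure WP} (hμ : IsLaw μ) (V : Site → ℝ) {C : ℝ}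
    (hC : ∀ x, |V x| ≤ C) {l : List Site} (hl : l.IsChain Adj) (s : ℝ≥0) (i : Fin l.length) :
    0 ≤ sol V l i s :=
  ge_of_tendsto' (sol_tendsto hμ V hC hl s i) (fun N => integral_nonneg (fun f =>
    DG_nonneg _ _ _ _ _ _))

end limits

lemma dch_eq_gchain (s : ℝ≥0) (f : WP) (hf : f.1 0 = 0) (N : ℕ) :
    dch (s / 2 ^ N) (2 ^ N) 0 f = gchain N s f := by
  unfold dch gchain
  rw [List.ofFn_succ, List.destutter_cons']
  simp only [Fin.val_zero, Nat.cast_zero, zero_mul, hf, zero_add, Fin.val_succ]

/-- The Feynman-Kac formula for the jump chain. -/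
lemma fk_chain {μ : Measure WP} (hμ : IsLaw μ) (V : Site → ℝ) {C : ℝ}
    (hC : ∀ x, |V x| ≤ C) {l : List Site} (hl : l.IsChain Adj) (h0 : l.head? = some 0) (s : ℝ≥0)
    (hpos : 0 < l.length) :
    ∫ f, Set.indicator {f : WP | chainOf s f = l} (fun f => Real.exp (occ s V f)) f ∂μ
      = sol V l ⟨0, hpos⟩ s := by
  have := hμ.prob
  have hget : l.get ⟨0, hpos⟩ = 0 := by
    cases l with
    | nil => simp at hpos
    | cons a r => simpa using h0
  have h1 := sol_tendsto hμ V hC hl s ⟨0, hpos⟩
  simp only [List.drop_zero, hget] at h1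
  have h2 : Tendsto (fun N : ℕ => ∫ f, DG V (s / 2 ^ N) (2 ^ N) 0 l f ∂μ) atTop
      (𝓝 (∫ f, Set.indicator {f : WP | chainOf s f = l} (fun f => Real.exp (occ s V f)) f ∂μ)) := by
    apply tendsto_integral_of_dominated_convergence (bound := fun _ => Real.exp (s * C))
    · intro N
      exact (measurable_DG _ _ _ _ _).aestronglyMeasurable
    · exact integrable_const _
    · intro N
      refine Eventually.of_forall (fun f => ?_)
      have := DG_bdd V hC (s / 2 ^ N) (2 ^ N) 0 l f
      rw [Real.norm_eq_abs]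
      refine this.trans (le_of_eq ?_)
      congr 1
      have h3 : (((2 ^ N : ℕ) : ℝ≥0)) * (s / 2 ^ N) = s := by push_cast; field_simp
      have h2 : (((2 ^ N : ℕ) : ℝ)) * ((s / 2 ^ N : ℝ≥0) : ℝ) = s := by exact_mod_cast h3
      rw [h2]
    · filter_upwards [hμ.start] with f hf
      have hg := chainOf_spec s f
      have hr : Tendsto (fun N : ℕ => dpr V (s / 2 ^ N) (2 ^ N) 0 f) atTop
          (𝓝 (Real.exp (occ s V f))) := by
        have h2 := (Real.continuous_exp.tendsto _).comp (riem_tendsto s V hC f)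
        refine h2.congr (fun N => ?_)
        simp only [Function.comp]
        unfold dpr riem
        rw [Finset.mul_sum, Real.exp_sum]
        apply Finset.prod_congr rfl
        intro i _
        rw [zero_add]
      by_cases hc : chainOf s f = l
      · rw [Set.indicator_of_mem (by exact hc)]
        apply hr.congr'
        filter_upwards [hg] with N hN
        unfold DG
        rw [if_pos]
        rw [dch_eq_gchain s f hf N, hN, hc]
      · rw [Set.indicator_of_notMem (by exact hc)]
        apply tendsto_const_nhds.congr'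
        filter_upwards [hg] with N hN
        unfold DG
        rw [if_neg]
        rw [dch_eq_gchain s f hf N, hN]
        exact hc
  exact tendsto_nhds_unique h2 h1

lemma indicator_meas {V : Site → ℝ} {C : ℝ} (hC : ∀ x, |V x| ≤ C) (l : List Site) (s : ℝ≥0) :
    Measurable (fun f => Set.indicator {f : WP | chainOf s f = l}
      (fun f => Real.exp (occ s V f)) f) :=
  Measurable.indicator (measurable_occ s V hC).exp (measurableSet_chainOf s l)

lemma fk_lintegral {μ : Measure WP} (hμ : IsLaw μ) (V : Site → ℝ) {C : ℝ}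
    (hC : ∀ x, |V x| ≤ C) {l : List Site} (hl : l.IsChain Adj) (h0 : l.head? = some 0) (s : ℝ≥0)
    (hpos : 0 < l.length) :
    ∫⁻ f in {f : WP | chainOf s f = l}, ENNReal.ofReal (Real.exp (occ s V f)) ∂μ
      = ENNReal.ofReal (sol V l ⟨0, hpos⟩ s) := by
  have := hμ.prob
  rw [← fk_chain hμ V hC hl h0 s hpos, ofReal_integral_eq_lintegral_ofReal]
  · rw [← lintegral_indicator (measurableSet_chainOf s l)]
    apply lintegral_congr
    intro f
    simp only [Set.indicator]
    split_ifs <;> simp
  · apply integrable_of_bdd (indicator_meas hC l s) (C := Real.exp (s * C))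
    intro f
    simp only [Set.indicator]
    split_ifs
    · rw [abs_of_nonneg (Real.exp_pos _).le]
      exact Real.exp_le_exp.2 (occ_le s hC f)
    · rw [abs_zero]; positivity
  · refine Eventually.of_forall (fun f => ?_)
    exact Set.indicator_nonneg (fun f _ => (Real.exp_pos _).le) f

/-- One step of the bidiagonal system. -/
lemma ode_step {w g : ℝ → ℝ} {a : ℝ} (ha : 0 < a) (hw : ∀ t, HasDerivAt w (-a * w t + g t) t)
    (hg : Continuous g) (hw0 : ∀ t, 0 ≤ t → 0 ≤ w t) (hg0 : ∀ t, 0 ≤ t → 0 ≤ g t)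
    (hgi : IntegrableOn g (Set.Ioi 0)) :
    IntegrableOn w (Set.Ioi 0) ∧
      ∫ t in Set.Ioi 0, w t = a⁻¹ * (w 0 + ∫ t in Set.Ioi 0, g t) := by
  have hwc : Continuous w := continuous_iff_continuousAt.2 (fun t => (hw t).continuousAt)
  have hd : Continuous (fun t => -a * w t + g t) := (hwc.const_mul _).add hg
  have hint : IntegrableOn w (Set.Ioi 0) := by
    apply integrableOn_Ioi_of_intervalIntegral_norm_bounded
      (a⁻¹ * (w 0 + ∫ t in Set.Ioi 0, g t)) 0 (l := atTop) (b := id)
    · intro b
      exact (hwc.integrableOn_Icc).mono_set Set.Ioc_subset_Icc_self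
    · exact tendsto_id
    · filter_upwards [eventually_ge_atTop 0] with b hb
      have h1 : ∫ t in (0:ℝ)..b, ‖w t‖ = ∫ t in (0:ℝ)..b, w t := by
        apply intervalIntegral.integral_congr
        intro t ht
        rw [Set.uIcc_of_le hb] at ht
        exact Real.norm_of_nonneg (hw0 t ht.1)
      have h2 : ∫ t in (0:ℝ)..b, (-a * w t + g t) = w b - w 0 :=
        intervalIntegral.integral_eq_sub_of_hasDerivAt (fun t _ => hw t)
          (hd.intervalIntegrable _ _)
      rw [intervalIntegral.integral_add ((hwc.const_mul _).intervalIntegrable _ _)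
        (hg.intervalIntegrable _ _), intervalIntegral.integral_const_mul] at h2
      have h3 : ∫ t in (0:ℝ)..b, g t ≤ ∫ t in Set.Ioi 0, g t := by
        rw [intervalIntegral.integral_of_le hb]
        apply setIntegral_mono_set hgi
        · filter_upwards [ae_restrict_mem measurableSet_Ioi] with t ht
          exact hg0 t (le_of_lt ht)
        · exact Set.Ioc_subset_Ioi_self.eventuallyLE
      show ∫ t in (0:ℝ)..b, ‖w t‖ ≤ _
      rw [h1, le_inv_mul_iff₀ ha]
      have h4 := hw0 b hb
      linarith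
  refine ⟨hint, ?_⟩
  have hdi : IntegrableOn (fun t => -a * w t + g t) (Set.Ioi 0) := (hint.const_mul _).add hgi
  have hlim := tendsto_zero_of_hasDerivAt_of_integrableOn_Ioi (fun t _ => hw t) hdi hint
  have h1 := integral_Ioi_of_hasDerivAt_of_tendsto' (fun t _ => hw t) hdi hlim
  rw [integral_add (hint.const_mul _) hgi, integral_const_mul] at h1
  rw [eq_inv_mul_iff_mul_eq₀ ha.ne']
  linarith

lemma sol_cont (V : Site → ℝ) (l : List Site) (i : Fin l.length) : Continuous (sol V l i) :=
  continuous_iff_continuousAt.2 (fun t => (sol_deriv V l i t).continuousAt)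

lemma sol_laplace {μ : Measure WP} (hμ : IsLaw μ) (V : Site → ℝ) {C : ℝ}
    (hC : ∀ x, |V x| ≤ C) (hV : ∀ x, V x < 4) {l : List Site} (hl : l.IsChain Adj) (m : ℕ)
    (i : Fin l.length) (him : (i : ℕ) + m + 1 = l.length) :
    IntegrableOn (sol V l i) (Set.Ioi 0) ∧
      ∫ t in Set.Ioi 0, sol V l i t = ((l.drop i).map (fun x => (4 - V x)⁻¹)).prod := by
  have hnn : ∀ (i : Fin l.length) (t : ℝ), 0 ≤ t → 0 ≤ sol V l i t := by
    intro i t ht
    have := sol_nonneg hμ V hC hl ⟨t, ht⟩ i
    exact this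
  induction m generalizing i with
  | zero =>
    have h := ode_step (w := sol V l i) (g := fun _ => 0) (a := 4 - V (l.get i))
      (by linarith [hV (l.get i)])
      (fun t => by
        have := sol_deriv V l i t
        rw [dif_neg (by omega)] at this
        exact this)
      continuous_const (hnn i) (fun _ _ => le_rfl) integrableOn_zero
    refine ⟨h.1, ?_⟩
    rw [h.2, sol_zero]
    have hd : l.drop i = l[(i : ℕ)] :: l.drop (i + 1) := List.drop_eq_getElem_cons i.2
    have hd2 : l.drop (i + 1) = [] := List.drop_eq_nil_of_le (by omega)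
    rw [hd, hd2]
    unfold fin1
    rw [if_pos (by omega)]
    simp
  | succ m ih =>
    have hlt : (i : ℕ) + 1 < l.length := by omega
    obtain ⟨h1, h2⟩ := ih ⟨i + 1, hlt⟩ (by simp only []; omega)
    have h := ode_step (w := sol V l i) (g := sol V l ⟨i + 1, hlt⟩) (a := 4 - V (l.get i))
      (by linarith [hV (l.get i)])
      (fun t => by
        have := sol_deriv V l i t
        rw [dif_pos hlt] at this
        exact this)
      (sol_cont _ _ _) (hnn i) (hnn _) h1
    refine ⟨h.1, ?_⟩
    rw [h.2, sol_zero, h2]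
    have hd : l.drop i = l[(i : ℕ)] :: l.drop (i + 1) := List.drop_eq_getElem_cons i.2
    rw [hd]
    unfold fin1
    rw [if_neg (by omega), zero_add, List.map_cons, List.prod_cons]
    rfl

lemma sol_exp {l : List Site} (m : ℕ) (i : Fin l.length) (him : (i : ℕ) + m + 1 = l.length)
    (t : ℝ) : sol (fun _ => 0) l i t = Real.exp (-(4 * t)) * t ^ m / (m.factorial : ℝ) := by
  have hE : ∀ t : ℝ, HasDerivAt (fun t : ℝ => Real.exp (4 * t)) (Real.exp (4 * t) * 4) t := by
    intro t
    have := ((hasDerivAt_id t).const_mul 4).exp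
    simpa using this
  have key : Real.exp (4 * t) * sol (fun _ => 0) l i t = t ^ m / (m.factorial : ℝ) := by
    induction m generalizing i t with
    | zero =>
      have h1 : ∀ t, HasDerivAt (fun t => Real.exp (4 * t) * sol (fun _ => 0) l i t) 0 t := by
        intro t
        have h := sol_deriv (fun _ => 0) l i t
        rw [dif_neg (by omega)] at h
        refine ((hE t).fun_mul h).congr_deriv ?_
        ring
      have := is_const_of_deriv_eq_zero
        (f := fun t => Real.exp (4 * t) * sol (fun _ => 0) l i t)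
        (fun s => (h1 s).differentiableAt) (fun s => (h1 s).deriv) t 0
      simp only [mul_zero, Real.exp_zero, one_mul, sol_zero] at this
      rw [this]
      unfold fin1
      rw [if_pos (by omega)]
      simp
    | succ m ih =>
      have hlt : (i : ℕ) + 1 < l.length := by omega
      have h1 : ∀ t, HasDerivAt (fun t => Real.exp (4 * t) * sol (fun _ => 0) l i t
          - t ^ (m + 1) / ((m + 1).factorial : ℝ)) 0 t := by
        intro t
        have h := sol_deriv (fun _ => 0) l i t
        rw [dif_pos hlt] at h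
        have h2 := ih ⟨i + 1, hlt⟩ (by simp only []; omega) t
        have h3 : HasDerivAt (fun t : ℝ => t ^ (m + 1) / ((m + 1).factorial : ℝ))
            (t ^ m / (m.factorial : ℝ)) t := by
          refine ((hasDerivAt_pow (m + 1) t).div_const _).congr_deriv ?_
          rw [Nat.factorial_succ]
          have : (m.factorial : ℝ) ≠ 0 := by positivity
          push_cast
          field_simp
        refine (((hE t).fun_mul h).sub h3).congr_deriv ?_
        rw [← h2]
        ring
      have := is_const_of_deriv_eq_zero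
        (f := fun t => Real.exp (4 * t) * sol (fun _ => 0) l i t
          - t ^ (m + 1) / ((m + 1).factorial : ℝ))
        (fun s => (h1 s).differentiableAt) (fun s => (h1 s).deriv) t 0
      simp only [mul_zero, Real.exp_zero, one_mul, sol_zero] at this
      unfold fin1 at this
      rw [if_neg (by omega)] at this
      simp only [ne_eq, Nat.succ_ne_zero, not_false_eq_true, zero_pow, zero_div, sub_zero] at this
      linarith
  have h2 : Real.exp (-(4 * t)) * Real.exp (4 * t) = 1 := by
    rw [← Real.exp_add]; simp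
  rw [mul_div_assoc, ← key, ← mul_assoc, h2, one_mul]

end FKer

/-- Integrated Feynman-Kac formula for the jump chain. -/
theorem chain_laplace {μ : Measure WP} (hμ : IsLaw μ) (V : Site → ℝ) {C : ℝ}
    (hC : ∀ x, |V x| ≤ C) (hV : ∀ x, V x < 4) (l : List Site) (hl : l.IsChain Adj)
    (h0 : l.head? = some 0) :
    ∫⁻ s in Set.Ici (0 : ℝ), ∫⁻ f in {f : WP | chainOf s.toNNReal f = l},
        ENNReal.ofReal (Real.exp (occ s.toNNReal V f)) ∂μ
      = (l.map (fun x => ENNReal.ofReal ((4 - V x)⁻¹))).prod := by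
  have hpos : 0 < l.length := by
    cases l with
    | nil => simp at h0
    | cons a r => simp
  obtain ⟨h1, h2⟩ := FKer.sol_laplace hμ V hC hV hl (l.length - 1) ⟨0, hpos⟩ (by simp only []; omega)
  have h3 : ∀ s : ℝ, ∫⁻ f in {f : WP | chainOf s.toNNReal f = l},
        ENNReal.ofReal (Real.exp (occ s.toNNReal V f)) ∂μ
      = ENNReal.ofReal (FKer.sol V l ⟨0, hpos⟩ s.toNNReal) :=
    fun s => FKer.fk_lintegral hμ V hC hl h0 s.toNNReal hpos
  simp only [h3]
  rw [← setLIntegral_congr Ioi_ae_eq_Ici]
  have h4 : ∫⁻ s in Set.Ioi (0 : ℝ), ENNReal.ofReal (FKer.sol V l ⟨0, hpos⟩ s.toNNReal)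
      = ∫⁻ s in Set.Ioi (0 : ℝ), ENNReal.ofReal (FKer.sol V l ⟨0, hpos⟩ s) := by
    apply setLIntegral_congr_fun measurableSet_Ioi
    intro s hs
    simp only [Real.coe_toNNReal s (le_of_lt hs)]
  rw [h4, ← ofReal_integral_eq_lintegral_ofReal h1]
  · rw [h2]
    simp only [List.drop_zero]
    clear h3 h4 h1 h2 h0 hl
    induction l with
    | nil => simp
    | cons a r ih =>
      simp only [List.map_cons, List.prod_cons]
      rw [ENNReal.ofReal_mul (by have := hV a; exact inv_nonneg.2 (by linarith))]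
      congr 1
      by_cases hr : 0 < r.length
      · exact ih hr
      · have : r = [] := by
          cases r with
          | nil => rfl
          | cons b r => simp at hr
        subst this
        simp
  · filter_upwards [ae_restrict_mem measurableSet_Ioi] with s hs
    have := FKer.sol_nonneg hμ V hC hl ⟨s, le_of_lt hs⟩ ⟨0, hpos⟩
    exact this

/-- The law of the jump chain at a fixed time. -/
theorem chain_time {μ : Measure WP} (hμ : IsLaw μ) (t : ℝ≥0) (l : List Site) (hl : l.IsChain Adj)
    (h0 : l.head? = some 0) :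
    μ {f : WP | chainOf t f = l}
      = ENNReal.ofReal (Real.exp (-(4 * t)) * t ^ (l.length - 1) / ((l.length - 1).factorial : ℝ)) := by
  have hpos : 0 < l.length := by
    cases l with
    | nil => simp at h0
    | cons a r => simp
  have h1 := FKer.fk_lintegral hμ (fun _ => 0) (C := 0) (fun _ => by simp) hl h0 t hpos
  rw [FKer.sol_exp (l.length - 1) ⟨0, hpos⟩ (by simp only []; omega)] at h1
  rw [← h1]
  have h2 : ∀ f : WP, ENNReal.ofReal (Real.exp (occ t (fun _ => 0) f)) = 1 := by
    intro f
    rw [occ_const]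
    simp
  simp only [h2]
  simp

end Pool.Agent.WSB71
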