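import Pool.Agent.WSB71.ExpMom

/-!
# AP3: the number of fine moves (task WSB71-A5, helper42)

Everything is a count of nearest neighbour chains inside `G`, uniform in the length.

A fine move from `z` (with respect to the parameter `Λ' = 16 Λ`, size `s = fsz G Λ' z`) ends as soon as
either the displacement exceeds `s`, or `⌊(s + 1)² / 2⌋` steps are made (for `s = 0` after one step).
`upd` is the new state (start of the current move, number of its steps already made).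

* `sumF`: with `b` the number of moves ended by displacement and `a` the number of moves ended by time,
  the sum of `(3/2)^b (1/2)^a` over all chains with `n` steps is at most `2 * 4 ^ n`
  (the potential `V = 1/2 + (D + K - τ)/(s+1)²`, `D` the squared Euclidean displacement, is a martingale
  inside a move, is `≤ 1` at its start, `≥ 3/2` at an end by displacement, `≥ 1/2` at an end by time).
* `costA`: `a ≤ C ∑ 1/dep²`.
* `travels_le`: `∑_j T_j ≤ 4 (a + b + 1)`.
-/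

open MeasureTheory Filter Topology
open scoped NNReal ENNReal

namespace Pool.Agent.WSB71

open Pool.Agent.LT

/-- The size of the fine moves started at `z`. -/
noncomputable def fsz (G : Finset Site) (Λ : ℕ) (z : Site) : ℕ := dep G z / Λ

namespace FineAux

/-- The number of steps allowed in a move of size `s`. -/
def KK (s : ℕ) : ℕ := (s + 1) ^ 2 / 2

/-- The new state. -/
noncomputable def upd (G : Finset Site) (Λ : ℕ) (σ : Site × ℕ) (y : Site) : Site × ℕ :=
  if fsz G Λ σ.1 = 0 ∨ fsz G Λ σ.1 < sd σ.1 y ∨ KK (fsz G Λ σ.1) ≤ σ.2 + 1 then (y, 0)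
  else (σ.1, σ.2 + 1)

/-- The move is ended by displacement. -/
noncomputable def eB (G : Finset Site) (Λ : ℕ) (σ : Site × ℕ) (y : Site) : ℕ :=
  if fsz G Λ σ.1 ≠ 0 ∧ fsz G Λ σ.1 < sd σ.1 y then 1 else 0

/-- The move is ended by time. -/
noncomputable def eA (G : Finset Site) (Λ : ℕ) (σ : Site × ℕ) (y : Site) : ℕ :=
  if fsz G Λ σ.1 = 0 ∨ (¬ fsz G Λ σ.1 < sd σ.1 y ∧ KK (fsz G Λ σ.1) ≤ σ.2 + 1) then 1 else 0

/-- Number of moves ended by time. -/
noncomputable def cA (G : Finset Site) (Λ : ℕ) : Site × ℕ → List Site → ℕ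
  | _, [] => 0
  | σ, y :: t => eA G Λ σ y + cA G Λ (upd G Λ σ y) t

/-- Number of moves ended by displacement. -/
noncomputable def cB (G : Finset Site) (Λ : ℕ) : Site × ℕ → List Site → ℕ
  | _, [] => 0
  | σ, y :: t => eB G Λ σ y + cB G Λ (upd G Λ σ y) t

/-- Squared Euclidean distance. -/
def qd (x y : Site) : ℝ := ((y.1 : ℝ) - x.1) ^ 2 + ((y.2 : ℝ) - x.2) ^ 2

/-- The potential. -/
noncomputable def V (G : Finset Site) (Λ : ℕ) (σ : Site × ℕ) (y : Site) : ℝ :=
  if fsz G Λ σ.1 = 0 then 1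
  else 1 / 2 + (qd σ.1 y + (KK (fsz G Λ σ.1) : ℝ) - σ.2) / ((fsz G Λ σ.1 : ℝ) + 1) ^ 2

/-- The invariant of the states. -/
def Inv (G : Finset Site) (Λ : ℕ) (σ : Site × ℕ) : Prop :=
  fsz G Λ σ.1 = 0 ∨ σ.2 + 1 ≤ KK (fsz G Λ σ.1)

lemma KK_le (s : ℕ) : (KK s : ℝ) ≤ ((s : ℝ) + 1) ^ 2 / 2 := by
  unfold KK
  have := @Nat.cast_div_le ℝ _ _ _ ((s + 1) ^ 2) 2
  push_cast at this
  exact this

lemma KK_ge {s : ℕ} (hs : s ≠ 0) : ((s : ℝ) + 1) ^ 2 / 4 ≤ (KK s : ℝ) := by
  have h1 : (s + 1) ^ 2 ≤ 4 * KK s := by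
    unfold KK
    have : 4 ≤ (s + 1) ^ 2 := by
      have : 1 ≤ s := Nat.one_le_iff_ne_zero.2 hs
      nlinarith
    omega
  have h2 : (((s + 1) ^ 2 : ℕ) : ℝ) ≤ ((4 * KK s : ℕ) : ℝ) := by exact_mod_cast h1
  push_cast at h2
  linarith

lemma KK_pos {s : ℕ} (hs : s ≠ 0) : 1 ≤ KK s := by
  unfold KK
  have : 4 ≤ (s + 1) ^ 2 := by
    have : 1 ≤ s := Nat.one_le_iff_ne_zero.2 hs
    nlinarith
  omega

lemma qd_self (x : Site) : qd x x = 0 := by simp [qd]

lemma qd_nonneg (x y : Site) : 0 ≤ qd x y := by unfold qd; positivity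

lemma sq_natAbs_le (n : ℕ) (a : ℤ) (h : n < a.natAbs) : ((n : ℝ) + 1) ^ 2 ≤ (a : ℝ) ^ 2 := by
  have h1 : ((n : ℝ) + 1) ≤ |(a : ℝ)| := by
    have : ((n + 1 : ℕ) : ℤ) ≤ |a| := by
      rw [Int.abs_eq_natAbs]
      exact_mod_cast h
    have h2 : (((n + 1 : ℕ) : ℤ) : ℝ) ≤ ((|a| : ℤ) : ℝ) := by exact_mod_cast this
    push_cast at h2
    exact h2
  rw [← sq_abs (a : ℝ)]
  exact pow_le_pow_left₀ (by positivity) h1 2

lemma qd_ge {n : ℕ} {x y : Site} (h : n < sd x y) : ((n : ℝ) + 1) ^ 2 ≤ qd x y := by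
  unfold sd at h
  unfold qd
  rcases lt_max_iff.1 h with h | h
  · have := sq_natAbs_le n _ h
    push_cast at this
    nlinarith [sq_nonneg ((y.2 : ℝ) - x.2)]
  · have := sq_natAbs_le n _ h
    push_cast at this
    nlinarith [sq_nonneg ((y.1 : ℝ) - x.1)]

lemma units_sum' (g : Site → ℝ) :
    ∑ e ∈ units, g e = g (1, 0) + g (-1, 0) + g (0, 1) + g (0, -1) := by
  simp [units, Finset.sum_insert, Finset.mem_insert, Finset.mem_singleton]
  ring

lemma inv_start (G : Finset Site) (Λ : ℕ) (y : Site) : Inv G Λ (y, 0) := by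
  unfold Inv
  by_cases h : fsz G Λ y = 0
  · exact Or.inl h
  · exact Or.inr (by simpa using KK_pos h)

lemma inv_upd {G : Finset Site} {Λ : ℕ} {σ : Site × ℕ} (y : Site) :
    Inv G Λ (upd G Λ σ y) := by
  unfold upd
  split_ifs with h
  · exact inv_start G Λ y
  · push Not at h
    right
    simp only
    omega

lemma V_start (G : Finset Site) (Λ : ℕ) (y : Site) : V G Λ (y, 0) y ≤ 1 := by
  unfold V
  split_ifs with h
  · exact le_refl _
  · simp only [qd_self, Nat.cast_zero, sub_zero, zero_add]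
    have h1 := KK_le (fsz G Λ y)
    have h2 : (0 : ℝ) < ((fsz G Λ y : ℝ) + 1) ^ 2 := by positivity
    have h3 : (KK (fsz G Λ y) : ℝ) / ((fsz G Λ y : ℝ) + 1) ^ 2 ≤ 1 / 2 := by
      rw [div_le_iff₀ h2]
      linarith
    linarith

lemma V_ge {G : Finset Site} {Λ : ℕ} {σ : Site × ℕ} (hσ : Inv G Λ σ) (y : Site) :
    1 / 2 ≤ V G Λ σ y := by
  unfold V
  split_ifs with h
  · norm_num
  · have h1 : σ.2 + 1 ≤ KK (fsz G Λ σ.1) := hσ.resolve_left h
    have h2 : ((σ.2 : ℝ) + 1) ≤ KK (fsz G Λ σ.1) := by exact_mod_cast h1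
    have h3 := qd_nonneg σ.1 y
    have : 0 ≤ (qd σ.1 y + (KK (fsz G Λ σ.1) : ℝ) - σ.2) / ((fsz G Λ σ.1 : ℝ) + 1) ^ 2 := by
      apply div_nonneg _ (by positivity)
      linarith
    linarith

lemma step_pt {G : Finset Site} {Λ : ℕ} {σ : Site × ℕ} (hσ : Inv G Λ σ) (h0 : fsz G Λ σ.1 ≠ 0)
    (y : Site) :
    (3 / 2 : ℝ) ^ eB G Λ σ y * (1 / 2) ^ eA G Λ σ y * V G Λ (upd G Λ σ y) y ≤
      1 / 2 + (qd σ.1 y + (KK (fsz G Λ σ.1) : ℝ) - (σ.2 + 1)) / ((fsz G Λ σ.1 : ℝ) + 1) ^ 2 := by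
  have h1 : σ.2 + 1 ≤ KK (fsz G Λ σ.1) := hσ.resolve_left h0
  have h2 : ((σ.2 : ℝ) + 1) ≤ KK (fsz G Λ σ.1) := by exact_mod_cast h1
  have h3 : (0 : ℝ) < ((fsz G Λ σ.1 : ℝ) + 1) ^ 2 := by positivity
  by_cases hd : fsz G Λ σ.1 < sd σ.1 y
  · have e1 : eB G Λ σ y = 1 := by simp [eB, h0, hd]
    have e2 : eA G Λ σ y = 0 := by simp [eA, h0, hd]
    have e3 : upd G Λ σ y = (y, 0) := by simp [upd, h0, hd]
    rw [e1, e2, e3]
    have h4 := V_start G Λ y
    have h5 := qd_ge hd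
    have h6 : 1 ≤ (qd σ.1 y + (KK (fsz G Λ σ.1) : ℝ) - (σ.2 + 1)) / ((fsz G Λ σ.1 : ℝ) + 1) ^ 2 := by
      rw [le_div_iff₀ h3]
      linarith
    linarith
  · by_cases ht : KK (fsz G Λ σ.1) ≤ σ.2 + 1
    · have e1 : eB G Λ σ y = 0 := by simp [eB, hd]
      have e2 : eA G Λ σ y = 1 := by
        unfold eA
        rw [if_pos (Or.inr ⟨hd, ht⟩)]
      have e3 : upd G Λ σ y = (y, 0) := by
        unfold upd
        rw [if_pos (Or.inr (Or.inr ht))]
      rw [e1, e2, e3]
      have h4 := V_start G Λ y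
      have h5 := qd_nonneg σ.1 y
      have h6 : 0 ≤ (qd σ.1 y + (KK (fsz G Λ σ.1) : ℝ) - (σ.2 + 1)) /
          ((fsz G Λ σ.1 : ℝ) + 1) ^ 2 := by
        apply div_nonneg _ h3.le
        linarith
      linarith
    · have e1 : eB G Λ σ y = 0 := by simp [eB, hd]
      have e2 : eA G Λ σ y = 0 := by
        unfold eA
        rw [if_neg]
        push Not
        exact ⟨h0, fun _ => by omega⟩
      have e3 : upd G Λ σ y = (σ.1, σ.2 + 1) := by
        unfold upd
        rw [if_neg]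
        push Not
        exact ⟨h0, by omega, by omega⟩
      rw [e1, e2, e3]
      unfold V
      simp only [h0, if_false]
      push_cast
      linarith

lemma step_sum {G : Finset Site} {Λ : ℕ} {σ : Site × ℕ} (hσ : Inv G Λ σ) (y : Site) :
    ∑ e ∈ units, (3 / 2 : ℝ) ^ eB G Λ σ (y + e) * (1 / 2) ^ eA G Λ σ (y + e) *
      V G Λ (upd G Λ σ (y + e)) (y + e) ≤ 4 * V G Λ σ y := by
  by_cases h0 : fsz G Λ σ.1 = 0
  · have hV : V G Λ σ y = 1 := by simp [V, h0]
    have hp : ∀ y', (3 / 2 : ℝ) ^ eB G Λ σ y' * (1 / 2) ^ eA G Λ σ y' *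
        V G Λ (upd G Λ σ y') y' ≤ 1 := by
      intro y'
      have e1 : eB G Λ σ y' = 0 := by simp [eB, h0]
      have e2 : eA G Λ σ y' = 1 := by simp [eA, h0]
      have e3 : upd G Λ σ y' = (y', 0) := by simp [upd, h0]
      rw [e1, e2, e3]
      have h4 := V_start G Λ y'
      linarith
    rw [hV, units_sum' (fun e => (3 / 2 : ℝ) ^ eB G Λ σ (y + e) * (1 / 2) ^ eA G Λ σ (y + e) *
      V G Λ (upd G Λ σ (y + e)) (y + e))]
    have := hp (y + (1, 0))
    have := hp (y + (-1, 0))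
    have := hp (y + (0, 1))
    have := hp (y + (0, -1))
    linarith
  · refine (Finset.sum_le_sum fun e _ => step_pt hσ h0 (y + e)).trans ?_
    rw [units_sum' (fun e => 1 / 2 + (qd σ.1 (y + e) + (KK (fsz G Λ σ.1) : ℝ) - (σ.2 + 1)) /
      ((fsz G Λ σ.1 : ℝ) + 1) ^ 2)]
    have hV : V G Λ σ y = 1 / 2 + (qd σ.1 y + (KK (fsz G Λ σ.1) : ℝ) - σ.2) /
      ((fsz G Λ σ.1 : ℝ) + 1) ^ 2 := by simp [V, h0]
    rw [hV]
    apply le_of_eq
    have h3 : ((fsz G Λ σ.1 : ℝ) + 1) ^ 2 ≠ 0 := by positivity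
    field_simp
    unfold qd
    simp only [Prod.fst_add, Prod.snd_add]
    push_cast
    ring

/-- First step decomposition of a sum over chains. -/
lemma sum_succ_le (G : Finset Site) (n : ℕ) (x : Site) (Ψ : List Site → ℝ) (hΨ : ∀ l, 0 ≤ Ψ l) :
    ∑ l ∈ (chainsIn_finite G x (n + 1)).toFinset, Ψ l ≤
      ∑ e ∈ units, ∑ l ∈ (chainsIn_finite G (x + e) n).toFinset, Ψ (x :: l) := by
  classical
  have hsub : (chainsIn_finite G x (n + 1)).toFinset ⊆
      units.biUnion (fun e => ((chainsIn_finite G (x + e) n).toFinset).image (List.cons x)) := by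
    intro l hl
    rw [Set.Finite.mem_toFinset] at hl
    obtain ⟨h1, h2, h3, h4⟩ := hl
    match l, h1, h2, h3, h4 with
    | [], h1, _, _, _ => simp at h1
    | [a], h1, _, _, _ => simp at h1
    | a :: b :: t, h1, h2, h3, h4 =>
      simp only [List.head?_cons, Option.some.injEq] at h2
      subst h2
      rw [List.isChain_cons_cons] at h3
      rw [Finset.mem_biUnion]
      refine ⟨b - a, h3.1, ?_⟩
      rw [Finset.mem_image]
      refine ⟨b :: t, ?_, rfl⟩
      rw [Set.Finite.mem_toFinset]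
      refine ⟨by simpa using h1, by simp, h3.2, fun y hy => h4 y (List.mem_cons_of_mem _ hy)⟩
  refine (Finset.sum_le_sum_of_subset_of_nonneg hsub fun _ _ _ => hΨ _).trans ?_
  rw [Finset.sum_biUnion]
  · apply Finset.sum_le_sum
    intro e _
    rw [Finset.sum_image (fun a _ b _ h => List.cons_injective h)]
  · intro e _ e' _ hne
    simp only [Function.onFun]
    rw [Finset.disjoint_left]
    intro l h1 h2
    rw [Finset.mem_image] at h1 h2
    obtain ⟨l1, hl1, rfl⟩ := h1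
    obtain ⟨l2, hl2, h⟩ := h2
    have : l2 = l1 := by simpa using h
    subst this
    rw [Set.Finite.mem_toFinset] at hl1 hl2
    have := hl1.2.1.symm.trans hl2.2.1
    simp only [Option.some.injEq, add_right_inj] at this
    exact hne this

/-- The weight. -/
noncomputable def FF (G : Finset Site) (Λ : ℕ) (σ : Site × ℕ) (t : List Site) : ℝ :=
  (3 / 2 : ℝ) ^ cB G Λ σ t * (1 / 2) ^ cA G Λ σ t

lemma FF_nonneg (G : Finset Site) (Λ : ℕ) (σ : Site × ℕ) (t : List Site) : 0 ≤ FF G Λ σ t := by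
  unfold FF; positivity

lemma FF_cons (G : Finset Site) (Λ : ℕ) (σ : Site × ℕ) (y : Site) (t : List Site) :
    FF G Λ σ (y :: t) = ((3 / 2 : ℝ) ^ eB G Λ σ y * (1 / 2) ^ eA G Λ σ y) *
      FF G Λ (upd G Λ σ y) t := by
  unfold FF
  rw [cA, cB, pow_add, pow_add]
  ring

theorem sumF (G : Finset Site) (Λ : ℕ) (n : ℕ) : ∀ (σ : Site × ℕ) (_ : Inv G Λ σ) (y : Site),
    ∑ l ∈ (chainsIn_finite G y n).toFinset, FF G Λ σ l.tail ≤ 2 * 4 ^ n * V G Λ σ y := by
  induction n with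
  | zero =>
    intro σ hσ y
    have hsub : (chainsIn_finite G y 0).toFinset ⊆ {[y]} := by
      intro l hl
      rw [Set.Finite.mem_toFinset] at hl
      obtain ⟨h1, h2, h3, h4⟩ := hl
      obtain ⟨a, rfl⟩ := List.length_eq_one_iff.1 (by simpa using h1)
      simp at h2
      simp [h2]
    refine (Finset.sum_le_sum_of_subset_of_nonneg hsub fun _ _ _ => FF_nonneg _ _ _ _).trans ?_
    have h := V_ge hσ y
    simp only [Finset.sum_singleton, List.tail_cons, FF, cA, cB]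
    linarith
  | succ n ih =>
    intro σ hσ y
    refine (sum_succ_le G n y (fun l => FF G Λ σ l.tail) fun _ => FF_nonneg _ _ _ _).trans ?_
    simp only [List.tail_cons]
    have key : ∀ e ∈ units, ∑ l ∈ (chainsIn_finite G (y + e) n).toFinset, FF G Λ σ l ≤
        2 * 4 ^ n * ((3 / 2 : ℝ) ^ eB G Λ σ (y + e) * (1 / 2) ^ eA G Λ σ (y + e) *
          V G Λ (upd G Λ σ (y + e)) (y + e)) := by
      intro e _
      have h1 : ∑ l ∈ (chainsIn_finite G (y + e) n).toFinset, FF G Λ σ l =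
          ((3 / 2 : ℝ) ^ eB G Λ σ (y + e) * (1 / 2) ^ eA G Λ σ (y + e)) *
          ∑ l ∈ (chainsIn_finite G (y + e) n).toFinset, FF G Λ (upd G Λ σ (y + e)) l.tail := by
        rw [Finset.mul_sum]
        apply Finset.sum_congr rfl
        intro l hl
        rw [Set.Finite.mem_toFinset] at hl
        obtain ⟨h1, h2, h3, h4⟩ := hl
        match l, h1, h2 with
        | [], h1, _ => simp at h1
        | a :: t, h1, h2 =>
          simp only [List.head?_cons, Option.some.injEq] at h2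
          subst h2
          rw [FF_cons, List.tail_cons]
      rw [h1]
      have h2 := ih (upd G Λ σ (y + e)) (inv_upd (y + e)) (y + e)
      have h3 : (0 : ℝ) ≤ (3 / 2 : ℝ) ^ eB G Λ σ (y + e) * (1 / 2) ^ eA G Λ σ (y + e) := by
        positivity
      calc _ ≤ ((3 / 2 : ℝ) ^ eB G Λ σ (y + e) * (1 / 2) ^ eA G Λ σ (y + e)) *
            (2 * 4 ^ n * V G Λ (upd G Λ σ (y + e)) (y + e)) := mul_le_mul_of_nonneg_left h2 h3
        _ = _ := by ring
    refine (Finset.sum_le_sum key).trans ?_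
    rw [← Finset.mul_sum]
    have h := step_sum hσ y
    have h4 : (0 : ℝ) ≤ 2 * 4 ^ n := by positivity
    calc _ ≤ 2 * 4 ^ n * (4 * V G Λ σ y) := mul_le_mul_of_nonneg_left h h4
      _ = _ := by ring

/-! ### The cost of the moves ended by time -/

lemma sd_self (x : Site) : sd x x = 0 := by simp [sd]

lemma sd_comm (x y : Site) : sd x y = sd y x := by unfold sd; omega

lemma sd_tri (x y z : Site) : sd x z ≤ sd x y + sd y z := by unfold sd; omega

lemma fsz_mul_le (G : Finset Site) (Λ : ℕ) (z : Site) : Λ * fsz G Λ z ≤ dep G z := by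
  unfold fsz
  exact Nat.mul_div_le _ _

lemma dep_lt (G : Finset Site) {Λ : ℕ} (hΛ : 1 ≤ Λ) (z : Site) : dep G z < Λ * (fsz G Λ z + 1) := by
  unfold fsz
  exact Nat.lt_mul_div_succ _ (by omega)

lemma dep_near {G : Finset Site} {Λ : ℕ} (hΛ : 1 ≤ Λ) {z y : Site} (h : sd z y ≤ fsz G Λ z) :
    dep G y ≤ 2 * Λ * (fsz G Λ z + 1) := by
  have h1 := dep_lip G y z
  rw [sd_comm] at h1
  have h2 := dep_lt G hΛ z
  have h3 : fsz G Λ z ≤ Λ * (fsz G Λ z + 1) := by nlinarith
  have h4 : 2 * Λ * (fsz G Λ z + 1) = Λ * (fsz G Λ z + 1) + Λ * (fsz G Λ z + 1) := by ring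
  omega

/-- The weight of a step of a move from `z`. -/
noncomputable def ww (G : Finset Site) (Λ : ℕ) (z : Site) : ℝ :=
  1 / (2 * Λ * ((fsz G Λ z : ℝ) + 1)) ^ 2

lemma ww_le {G : Finset Site} {Λ : ℕ} (hΛ : 1 ≤ Λ) {z y : Site} (h : sd z y ≤ fsz G Λ z)
    (hy : y ∈ G) : ww G Λ z ≤ 1 / (dep G y : ℝ) ^ 2 := by
  unfold ww
  have h0 : 0 < dep G y := by
    rw [Nat.pos_iff_ne_zero]
    intro h0
    exact dep_eq_zero.1 h0 hy
  have h0' : (0 : ℝ) < dep G y := by exact_mod_cast h0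
  have h1 : (dep G y : ℝ) ≤ 2 * Λ * ((fsz G Λ z : ℝ) + 1) := by exact_mod_cast dep_near hΛ h
  apply one_div_le_one_div_of_le (by positivity)
  exact pow_le_pow_left₀ h0'.le h1 2

lemma ww_nonneg (G : Finset Site) (Λ : ℕ) (z : Site) : 0 ≤ ww G Λ z := by
  unfold ww; positivity

lemma ww_time {G : Finset Site} {Λ : ℕ} (hΛ : 1 ≤ Λ) {σ : Site × ℕ} {y : Site}
    (h : eA G Λ σ y = 1) : 1 / (16 * (Λ : ℝ) ^ 2) ≤ ((σ.2 : ℝ) + 1) * ww G Λ σ.1 := by
  have hΛ' : (0 : ℝ) < Λ := by exact_mod_cast hΛ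
  unfold eA at h
  split_ifs at h with h1
  · rcases h1 with h1 | ⟨-, h1⟩
    · unfold ww
      rw [h1]
      have h2 : (0 : ℝ) ≤ σ.2 := by positivity
      have h3 : 1 / (16 * (Λ : ℝ) ^ 2) ≤ 1 / (2 * Λ * (((0 : ℕ) : ℝ) + 1)) ^ 2 := by
        apply one_div_le_one_div_of_le (by positivity)
        push_cast
        nlinarith [sq_nonneg (Λ : ℝ)]
      have h4 : (0 : ℝ) ≤ 1 / (2 * Λ * (((0 : ℕ) : ℝ) + 1)) ^ 2 := by positivity
      nlinarith
    · by_cases h0 : fsz G Λ σ.1 = 0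
      · unfold ww
        rw [h0]
        have h2 : (0 : ℝ) ≤ σ.2 := by positivity
        have h3 : 1 / (16 * (Λ : ℝ) ^ 2) ≤ 1 / (2 * Λ * (((0 : ℕ) : ℝ) + 1)) ^ 2 := by
          apply one_div_le_one_div_of_le (by positivity)
          push_cast
          nlinarith [sq_nonneg (Λ : ℝ)]
        have h4 : (0 : ℝ) ≤ 1 / (2 * Λ * (((0 : ℕ) : ℝ) + 1)) ^ 2 := by positivity
        nlinarith
      · have h2 := KK_ge h0
        have h3 : (KK (fsz G Λ σ.1) : ℝ) ≤ (σ.2 : ℝ) + 1 := by exact_mod_cast h1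
        unfold ww
        rw [div_le_iff₀ (by positivity)]
        set s : ℝ := (fsz G Λ σ.1 : ℝ) + 1 with hs
        have hs0 : 0 < s := by positivity
        have h5 : ((σ.2 : ℝ) + 1) * (1 / (2 * Λ * s) ^ 2) * (16 * (Λ : ℝ) ^ 2) =
            ((σ.2 : ℝ) + 1) * 4 / s ^ 2 := by
          field_simp
          ring
        rw [h5, le_div_iff₀ (by positivity)]
        linarith

lemma eA_le (G : Finset Site) (Λ : ℕ) (σ : Site × ℕ) (y : Site) : eA G Λ σ y = 0 ∨ eA G Λ σ y = 1 := by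
  unfold eA
  split_ifs
  · exact Or.inr rfl
  · exact Or.inl rfl

lemma upd_near {G : Finset Site} {Λ : ℕ} (σ : Site × ℕ) (y : Site) :
    sd (upd G Λ σ y).1 y ≤ fsz G Λ (upd G Λ σ y).1 := by
  unfold upd
  split_ifs with h
  · simp only [sd_self]
    exact Nat.zero_le _
  · push Not at h
    exact h.2.1

lemma upd_two (G : Finset Site) (Λ : ℕ) (σ : Site × ℕ) (y : Site) :
    upd G Λ σ y = (y, 0) ∨ (upd G Λ σ y = (σ.1, σ.2 + 1) ∧ eA G Λ σ y = 0 ∧ eB G Λ σ y = 0 ∧
      fsz G Λ σ.1 ≠ 0 ∧ sd σ.1 y ≤ fsz G Λ σ.1) := by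
  unfold upd
  split_ifs with h
  · exact Or.inl rfl
  · right
    push Not at h
    refine ⟨rfl, ?_, ?_, h.1, h.2.1⟩
    · unfold eA
      rw [if_neg]
      push Not
      exact ⟨h.1, fun _ => h.2.2⟩
    · unfold eB
      rw [if_neg]
      push Not
      exact fun _ => h.2.1

theorem costA {G : Finset Site} {Λ : ℕ} (hΛ : 1 ≤ Λ) : ∀ (t : List Site) (σ : Site × ℕ) (y : Site),
    y ∈ G → (∀ u ∈ t, u ∈ G) → sd σ.1 y ≤ fsz G Λ σ.1 →
    1 / (16 * (Λ : ℝ) ^ 2) * (cA G Λ σ t : ℝ) ≤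
      σ.2 * ww G Λ σ.1 + ((y :: t).map (fun z => 1 / (dep G z : ℝ) ^ 2)).sum := by
  intro t
  induction t with
  | nil =>
    intro σ y hy _ hd
    simp only [cA, Nat.cast_zero, mul_zero]
    have h1 := ww_nonneg G Λ σ.1
    have : (0 : ℝ) ≤ σ.2 * ww G Λ σ.1 := by positivity
    simp only [List.map_cons, List.map_nil, List.sum_cons, List.sum_nil]
    positivity
  | cons y' t ih =>
    intro σ y hy ht hd
    have hy' : y' ∈ G := ht y' (by simp)
    have ht' : ∀ u ∈ t, u ∈ G := fun u hu => ht u (by simp [hu])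
    have h1 := ih (upd G Λ σ y') y' hy' ht' (upd_near σ y')
    have h2 := ww_le hΛ hd hy
    rw [List.map_cons, List.sum_cons]
    rw [cA]
    push_cast
    have hw := ww_nonneg G Λ σ.1
    have hσ : (0 : ℝ) ≤ σ.2 := by positivity
    rcases upd_two G Λ σ y' with h | ⟨h, h3, -⟩
    · rw [h] at h1
      simp only [Nat.cast_zero, zero_mul, zero_add] at h1
      rw [h]
      rcases eA_le G Λ σ y' with h4 | h4
      · rw [h4]
        push_cast
        have : 0 ≤ (σ.2 : ℝ) * ww G Λ σ.1 := by positivity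
        linarith
      · have h5 := ww_time hΛ h4
        rw [h4]
        push_cast
        linarith
    · rw [h] at h1
      rw [h, h3]
      push_cast at h1 ⊢
      linarith

/-! ### The deterministic part -/

/-- The sum of the sizes (plus one) of the moves started at a time in `[a, b)`. -/
noncomputable def Ph (G : Finset Site) (Λ : ℕ) (p : ℕ → Site) (st : ℕ → Site × ℕ) (a b : ℕ) : ℕ :=
  ∑ k ∈ Finset.Ico a b, if (st k).2 = 0 then fsz G Λ (p k) + 1 else 0

lemma Ph_succ {G : Finset Site} {Λ : ℕ} {p : ℕ → Site} {st : ℕ → Site × ℕ} {a b : ℕ} (h : a ≤ b) :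
    Ph G Λ p st a (b + 1) = Ph G Λ p st a b + if (st b).2 = 0 then fsz G Λ (p b) + 1 else 0 := by
  unfold Ph
  rw [Finset.sum_Ico_succ_top h]

/-- A run of states along the positions `p 0, …, p n`. -/
structure Run (G : Finset Site) (Λ : ℕ) (p : ℕ → Site) (st : ℕ → Site × ℕ) (n : ℕ) : Prop where
  zero : st 0 = (p 0, 0)
  succ : ∀ k < n, st (k + 1) = upd G Λ (st k) (p (k + 1))
  adj : ∀ k < n, sd (p k) (p (k + 1)) ≤ 1

lemma Run.near {G : Finset Site} {Λ : ℕ} {p : ℕ → Site} {st : ℕ → Site × ℕ} {n : ℕ}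
    (h : Run G Λ p st n) : ∀ k ≤ n, sd (st k).1 (p k) ≤ fsz G Λ (st k).1 ∧
      ((st k).2 = 0 → (st k).1 = p k) ∧ ((st k).2 ≠ 0 → fsz G Λ (st k).1 ≠ 0) := by
  intro k hk
  cases k with
  | zero =>
    rw [h.zero]
    simp [sd_self]
  | succ k =>
    rw [h.succ k (by omega)]
    rcases upd_two G Λ (st k) (p (k + 1)) with h1 | ⟨h1, -, -, h2, h3⟩
    · rw [h1]
      simp [sd_self]
    · rw [h1]
      exact ⟨h3, by simp, fun _ => h2⟩

lemma Run.phi {G : Finset Site} {Λ : ℕ} {p : ℕ → Site} {st : ℕ → Site × ℕ} {n : ℕ}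
    (h : Run G Λ p st n) {a : ℕ} : ∀ b, a ≤ b → b ≤ n →
    ((st b).2 = 0 → sd (p a) (p b) ≤ (if (st a).2 = 0 then 0 else 2 * fsz G Λ (st a).1 + 1) +
      Ph G Λ p st a b) ∧
    ((st b).2 ≠ 0 → sd (p a) (st b).1 + fsz G Λ (st b).1 + 1 ≤
      (if (st a).2 = 0 then 0 else 2 * fsz G Λ (st a).1 + 1) + Ph G Λ p st a b) := by
  intro b hab
  induction b, hab using Nat.le_induction with
  | base =>
    intro hn
    obtain ⟨h1, -, -⟩ := h.near a hn
    constructor
    · intro h0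
      rw [sd_self]
      exact Nat.zero_le _
    · intro h0
      rw [if_neg h0, sd_comm]
      omega
  | succ b hab ih =>
    intro hn
    obtain ⟨ih1, ih2⟩ := ih (by omega)
    obtain ⟨n1, n2, n3⟩ := h.near b (by omega)
    have hs := h.succ b (by omega)
    have ha := h.adj b (by omega)
    rw [Ph_succ hab]
    rcases upd_two G Λ (st b) (p (b + 1)) with h1 | ⟨h1, -, -, h2, h3⟩
    · rw [hs, h1]
      refine ⟨fun _ => ?_, fun h => absurd rfl h⟩
      by_cases h0 : (st b).2 = 0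
      · rw [if_pos h0]
        have := ih1 h0
        have := sd_tri (p a) (p b) (p (b + 1))
        omega
      · rw [if_neg h0]
        have e1 := ih2 h0
        have e2 := sd_tri (p a) (st b).1 (p (b + 1))
        have e3 := sd_tri (st b).1 (p b) (p (b + 1))
        omega
    · rw [hs, h1]
      refine ⟨fun h => absurd h (by simp), fun _ => ?_⟩
      simp only
      by_cases h0 : (st b).2 = 0
      · rw [if_pos h0, n2 h0]
        have := ih1 h0
        omega
      · rw [if_neg h0]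
        have := ih2 h0
        omega

lemma Run.sd_le {G : Finset Site} {Λ : ℕ} {p : ℕ → Site} {st : ℕ → Site × ℕ} {n : ℕ}
    (h : Run G Λ p st n) {a b : ℕ} (hab : a ≤ b) (hb : b ≤ n) :
    sd (p a) (p b) ≤ (if (st a).2 = 0 then 0 else 2 * fsz G Λ (st a).1 + 1) +
      Ph G Λ p st a b := by
  obtain ⟨h1, h2⟩ := h.phi b hab hb
  obtain ⟨n1, -, -⟩ := h.near b hb
  by_cases h0 : (st b).2 = 0
  · exact h1 h0
  · have := h2 h0
    have := sd_tri (p a) (st b).1 (p b)
    omega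

/-- A travel of displacement `≥ r` at depth `≤ Λ r` meets many moves. -/
lemma Run.travel {G : Finset Site} {Λ : ℕ} (hΛ : 1 ≤ Λ) {p : ℕ → Site} {st : ℕ → Site × ℕ} {n : ℕ}
    (h : Run G (16 * Λ) p st n) {a b r : ℕ} (hab : a ≤ b) (hb : b ≤ n) (hr : r ≤ sd (p a) (p b))
    (hd : dep G (p a) ≤ Λ * r) : r ≤ 2 * Ph G (16 * Λ) p st a b := by
  have h1 := h.sd_le hab hb
  by_cases h0 : (st a).2 = 0
  · rw [if_pos h0] at h1
    omega
  · rw [if_neg h0] at h1
    obtain ⟨n1, -, n3⟩ := h.near a (by omega)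
    have h2 := n3 h0
    set s := fsz G (16 * Λ) (st a).1 with hs
    have h3 := fsz_mul_le G (16 * Λ) (st a).1
    rw [← hs] at h3
    have h4 := dep_lip G (st a).1 (p a)
    have h5 : Λ * (15 * s) ≤ Λ * r := by
      have : s ≤ Λ * s := Nat.le_mul_of_pos_left s (by omega)
      have e : 16 * Λ * s = Λ * (15 * s) + Λ * s := by ring
      omega
    have h6 : 15 * s ≤ r := Nat.le_of_mul_le_mul_left h5 (by omega)
    omega

lemma sum_disj (g : ℕ → ℕ) (a b : ℕ → ℕ) (n : ℕ) : ∀ k, (∀ i < k, a i ≤ b i ∧ b i ≤ n) →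
    (∀ i, i + 1 < k → b i ≤ a (i + 1)) →
    ∑ i ∈ Finset.range k, ∑ m ∈ Finset.Ico (a i) (b i), g m ≤ ∑ m ∈ Finset.range n, g m := by
  have key : ∀ k, (∀ i < k + 1, a i ≤ b i ∧ b i ≤ n) → (∀ i, i + 1 < k + 1 → b i ≤ a (i + 1)) →
      ∑ i ∈ Finset.range (k + 1), ∑ m ∈ Finset.Ico (a i) (b i), g m ≤
        ∑ m ∈ Finset.range (b k), g m := by
    intro k
    induction k with
    | zero =>
      intro h1 _
      simp only [zero_add, Finset.range_one, Finset.sum_singleton]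
      apply Finset.sum_le_sum_of_subset
      intro m hm
      rw [Finset.mem_Ico] at hm
      rw [Finset.mem_range]
      omega
    | succ k ih =>
      intro h1 h2
      rw [Finset.sum_range_succ]
      have h3 := ih (fun i hi => h1 i (by omega)) (fun i hi => h2 i (by omega))
      have h4 := h2 k (by omega)
      have h5 : ∑ m ∈ Finset.range (b k), g m ≤ ∑ m ∈ Finset.range (a (k + 1)), g m := by
        apply Finset.sum_le_sum_of_subset
        intro m hm
        rw [Finset.mem_range] at hm ⊢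
        omega
      have h6 : ∑ m ∈ Finset.range (a (k + 1)), g m + ∑ m ∈ Finset.Ico (a (k + 1)) (b (k + 1)), g m =
          ∑ m ∈ Finset.range (b (k + 1)), g m :=
        Finset.sum_range_add_sum_Ico g (h1 (k + 1) (by omega)).1
      omega
  intro k h1 h2
  cases k with
  | zero => simp
  | succ k =>
    refine (key k h1 h2).trans ?_
    apply Finset.sum_le_sum_of_subset
    intro m hm
    rw [Finset.mem_range] at hm ⊢
    have := (h1 k (by omega)).2
    omega

/-- The moves of size at most `2^j / 16`. -/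
noncomputable def gj (G : Finset Site) (Λ : ℕ) (p : ℕ → Site) (st : ℕ → Site × ℕ) (j k : ℕ) : ℕ :=
  if (st k).2 = 0 ∧ 16 * fsz G Λ (p k) ≤ 2 ^ j then fsz G Λ (p k) + 1 else 0

lemma Run.scale {G : Finset Site} {Λ : ℕ} (hΛ : 1 ≤ Λ) {p : ℕ → Site} {st : ℕ → Site × ℕ} {n : ℕ}
    (h : Run G (16 * Λ) p st n) {j T : ℕ} {a b : ℕ → ℕ}
    (h1 : ∀ i < T, a i < b i ∧ b i ≤ n ∧ 2 ^ j ≤ sd (p (a i)) (p (b i)) ∧
      ∀ m, a i ≤ m → m ≤ b i → dep G (p m) ≤ Λ * 2 ^ j)
    (h2 : ∀ i, i + 1 < T → b i ≤ a (i + 1)) :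
    T * 2 ^ j ≤ 2 * ∑ k ∈ Finset.range n, gj G (16 * Λ) p st j k := by
  have h3 : ∀ i ∈ Finset.range T, 2 ^ j ≤
      2 * ∑ m ∈ Finset.Ico (a i) (b i), gj G (16 * Λ) p st j m := by
    intro i hi
    rw [Finset.mem_range] at hi
    obtain ⟨q1, q2, q3, q4⟩ := h1 i hi
    have h4 := h.travel hΛ q1.le q2 q3 (q4 (a i) le_rfl q1.le)
    refine h4.trans (Nat.mul_le_mul_left 2 (le_of_eq ?_))
    unfold Ph
    apply Finset.sum_congr rfl
    intro m hm
    rw [Finset.mem_Ico] at hm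
    have h5 := q4 m hm.1 hm.2.le
    have h6 := fsz_mul_le G (16 * Λ) (p m)
    have h7 : 16 * fsz G (16 * Λ) (p m) ≤ 2 ^ j := by
      have : Λ * (16 * fsz G (16 * Λ) (p m)) ≤ Λ * 2 ^ j := by
        calc Λ * (16 * fsz G (16 * Λ) (p m)) = 16 * Λ * fsz G (16 * Λ) (p m) := by ring
          _ ≤ _ := h6.trans h5
      exact Nat.le_of_mul_le_mul_left this (by omega)
    unfold gj
    by_cases h0 : (st m).2 = 0
    · rw [if_pos h0, if_pos ⟨h0, h7⟩]
    · rw [if_neg h0, if_neg (fun h => h0 h.1)]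
  have h4 := sum_disj (gj G (16 * Λ) p st j) a b n T (fun i hi => ⟨(h1 i hi).1.le, (h1 i hi).2.1⟩) h2
  calc T * 2 ^ j = ∑ i ∈ Finset.range T, 2 ^ j := by simp
    _ ≤ ∑ i ∈ Finset.range T, 2 * ∑ m ∈ Finset.Ico (a i) (b i), gj G (16 * Λ) p st j m :=
        Finset.sum_le_sum h3
    _ = 2 * ∑ i ∈ Finset.range T, ∑ m ∈ Finset.Ico (a i) (b i), gj G (16 * Λ) p st j m := by
        rw [Finset.mul_sum]
    _ ≤ _ := Nat.mul_le_mul_left 2 h4

/-- A geometric sum. -/
lemma geo (S : Finset ℕ) (A : ℕ) (hA : 1 ≤ A) :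
    ∑ j ∈ S, (if A ≤ 2 ^ j then (1 / 2 ^ j : ℝ) else 0) ≤ 2 / A := by
  classical
  set j0 := Nat.clog 2 A with hj0
  have h0 : ∀ j, A ≤ 2 ^ j → j0 ≤ j := fun j hj => (Nat.clog_le_iff_le_pow (by norm_num)).2 hj
  have h1 : A ≤ 2 ^ j0 := Nat.le_pow_clog (by norm_num) A
  set n := S.sup id + 1 + j0 with hn
  have h2 : ∑ j ∈ S, (if A ≤ 2 ^ j then (1 / 2 ^ j : ℝ) else 0) ≤
      ∑ j ∈ Finset.Ico j0 n, (1 / 2 ^ j : ℝ) := by
    rw [← Finset.sum_filter]
    apply Finset.sum_le_sum_of_subset_of_nonneg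
    · intro j hj
      rw [Finset.mem_filter] at hj
      rw [Finset.mem_Ico]
      refine ⟨h0 j hj.2, ?_⟩
      have : j ≤ S.sup id := Finset.le_sup (f := id) hj.1
      omega
    · intro j _ _
      positivity
  refine h2.trans ?_
  have h3 : ∀ m, ∑ j ∈ Finset.Ico j0 (j0 + m), (1 / 2 ^ j : ℝ) = 2 / 2 ^ j0 - 2 / 2 ^ (j0 + m) := by
    intro m
    induction m with
    | zero => simp
    | succ m ih =>
      rw [← add_assoc, Finset.sum_Ico_succ_top (by omega), ih]
      rw [pow_succ 2 (j0 + m)]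
      have : (2 : ℝ) ^ (j0 + m) ≠ 0 := by positivity
      field_simp
      ring
  have h4 : n = j0 + (S.sup id + 1) := by omega
  rw [h4, h3]
  have h5 : (0 : ℝ) < 2 / 2 ^ (j0 + (S.sup id + 1)) := by positivity
  have h6 : (2 : ℝ) / 2 ^ j0 ≤ 2 / A := by
    apply div_le_div_of_nonneg_left (by norm_num) (by exact_mod_cast hA)
    exact_mod_cast h1
  linarith

lemma geo_move (S : Finset ℕ) (s : ℕ) :
    ∑ j ∈ S, (if 16 * s ≤ 2 ^ j then (2 * ((s : ℝ) + 1)) / 2 ^ j else 0) ≤ 4 := by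
  have h1 : ∑ j ∈ S, (if 16 * s ≤ 2 ^ j then (2 * ((s : ℝ) + 1)) / 2 ^ j else 0) =
      2 * ((s : ℝ) + 1) * ∑ j ∈ S, (if 16 * s ≤ 2 ^ j then (1 / 2 ^ j : ℝ) else 0) := by
    rw [Finset.mul_sum]
    apply Finset.sum_congr rfl
    intro j _
    split_ifs
    · ring
    · ring
  rw [h1]
  by_cases hs : s = 0
  · subst hs
    have h2 := geo S 1 le_rfl
    have h3 : ∑ j ∈ S, (if 16 * 0 ≤ 2 ^ j then (1 / 2 ^ j : ℝ) else 0) =
        ∑ j ∈ S, (if 1 ≤ 2 ^ j then (1 / 2 ^ j : ℝ) else 0) := by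
      apply Finset.sum_congr rfl
      intro j _
      rw [if_pos (Nat.zero_le _), if_pos (Nat.one_le_two_pow)]
    rw [h3]
    push_cast at h2 ⊢
    linarith
  · have hs1 : 1 ≤ s := Nat.one_le_iff_ne_zero.2 hs
    have h2 := geo S (16 * s) (by omega)
    have hs2 : (1 : ℝ) ≤ s := by exact_mod_cast hs1
    have h3 : (0 : ℝ) ≤ 2 * ((s : ℝ) + 1) := by positivity
    calc _ ≤ 2 * ((s : ℝ) + 1) * (2 / ((16 * s : ℕ) : ℝ)) := mul_le_mul_of_nonneg_left h2 h3
      _ ≤ 4 := by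
        push_cast
        rw [mul_div_assoc', div_le_iff₀ (by positivity)]
        nlinarith

/-- The number of moves bounds the number of travels. -/
lemma total {G : Finset Site} {Λ : ℕ} {p : ℕ → Site} {st : ℕ → Site × ℕ} {n : ℕ}
    {S : Finset ℕ} {T : ℕ → ℕ}
    (h1 : ∀ j ∈ S, T j * 2 ^ j ≤ 2 * ∑ k ∈ Finset.range n, gj G (16 * Λ) p st j k) :
    ∑ j ∈ S, (T j : ℝ) ≤ 4 * ∑ k ∈ Finset.range n, (if (st k).2 = 0 then (1 : ℝ) else 0) := by
  have h2 : ∀ j ∈ S, (T j : ℝ) ≤ ∑ k ∈ Finset.range n, (2 * (gj G (16 * Λ) p st j k : ℝ)) / 2 ^ j := by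
    intro j hj
    have h3 : ((T j * 2 ^ j : ℕ) : ℝ) ≤ ((2 * ∑ k ∈ Finset.range n, gj G (16 * Λ) p st j k : ℕ) : ℝ) := by
      exact_mod_cast h1 j hj
    push_cast at h3
    rw [← Finset.sum_div, le_div_iff₀ (by positivity), ← Finset.mul_sum]
    exact h3
  refine (Finset.sum_le_sum h2).trans ?_
  rw [Finset.sum_comm, Finset.mul_sum]
  apply Finset.sum_le_sum
  intro k _
  by_cases h0 : (st k).2 = 0
  · rw [if_pos h0]
    have h3 := geo_move S (fsz G (16 * Λ) (p k))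
    refine (le_of_eq ?_).trans (h3.trans (by norm_num))
    apply Finset.sum_congr rfl
    intro j _
    unfold gj
    by_cases h4 : 16 * fsz G (16 * Λ) (p k) ≤ 2 ^ j
    · rw [if_pos ⟨h0, h4⟩, if_pos h4]
      push_cast
      ring
    · rw [if_neg (fun h => h4 h.2), if_neg h4]
      simp
  · rw [if_neg h0]
    apply le_of_eq
    rw [mul_zero]
    apply Finset.sum_eq_zero
    intro j _
    unfold gj
    rw [if_neg (fun h => h0 h.1)]
    simp

/-! ### From lists to runs -/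

lemma ends_eq (G : Finset Site) (Λ : ℕ) (σ : Site × ℕ) (y : Site) :
    (if (upd G Λ σ y).2 = 0 then (1 : ℝ) else 0) ≤ eA G Λ σ y + eB G Λ σ y := by
  by_cases h0 : fsz G Λ σ.1 = 0
  · have : eA G Λ σ y = 1 := by simp [eA, h0]
    rw [this]
    have h2 : (0 : ℝ) ≤ eB G Λ σ y := by positivity
    push_cast
    split_ifs <;> linarith
  · by_cases hd : fsz G Λ σ.1 < sd σ.1 y
    · have : eB G Λ σ y = 1 := by simp [eB, h0, hd]
      rw [this]
      have h2 : (0 : ℝ) ≤ eA G Λ σ y := by positivity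
      push_cast
      split_ifs <;> linarith
    · by_cases ht : KK (fsz G Λ σ.1) ≤ σ.2 + 1
      · have : eA G Λ σ y = 1 := by
          unfold eA
          rw [if_pos (Or.inr ⟨hd, ht⟩)]
        rw [this]
        have h2 : (0 : ℝ) ≤ eB G Λ σ y := by positivity
        push_cast
        split_ifs <;> linarith
      · have e3 : upd G Λ σ y = (σ.1, σ.2 + 1) := by
          unfold upd
          rw [if_neg]
          push Not
          exact ⟨h0, by omega, by omega⟩
        rw [e3]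
        simp only [Nat.add_eq_zero_iff, one_ne_zero, and_false, if_false]
        positivity

/-- The states along a list. -/
noncomputable def stL (G : Finset Site) (Λ : ℕ) (σ : Site × ℕ) (t : List Site) (k : ℕ) : Site × ℕ :=
  (t.take k).foldl (upd G Λ) σ

lemma stL_count (G : Finset Site) (Λ : ℕ) : ∀ (t : List Site) (σ : Site × ℕ),
    ∑ k ∈ Finset.range t.length, (if (stL G Λ σ t k).2 = 0 then (1 : ℝ) else 0) ≤
      (if σ.2 = 0 then (1 : ℝ) else 0) + cA G Λ σ t + cB G Λ σ t := by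
  intro t
  induction t with
  | nil =>
    intro σ
    simp only [List.length_nil, Finset.range_zero, Finset.sum_empty, cA, cB, Nat.cast_zero, add_zero]
    split_ifs <;> norm_num
  | cons y t ih =>
    intro σ
    rw [List.length_cons, Finset.sum_range_succ']
    have h1 : ∀ k, stL G Λ σ (y :: t) (k + 1) = stL G Λ (upd G Λ σ y) t k := by
      intro k
      simp [stL]
    have h2 : stL G Λ σ (y :: t) 0 = σ := by simp [stL]
    simp only [h1, h2]
    rw [cA, cB]
    have h3 := ih (upd G Λ σ y)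
    have h4 := ends_eq G Λ σ y
    push_cast
    linarith

lemma stL_succ (G : Finset Site) (Λ : ℕ) (σ : Site × ℕ) (x : Site) (t : List Site) {k : ℕ}
    (hk : k < t.length) :
    stL G Λ σ t (k + 1) = upd G Λ (stL G Λ σ t k) ((x :: t).getD (k + 1) 0) := by
  unfold stL
  rw [List.take_succ_eq_append_getElem hk, List.foldl_append, List.getD_cons_succ,
    List.getD_eq_getElem _ _ hk]
  rfl

lemma sd_adj {x y : Site} (h : Adj x y) : sd x y ≤ 1 := by
  unfold Adj units at h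
  simp only [Finset.mem_insert, Finset.mem_singleton, Prod.ext_iff, Prod.fst_sub, Prod.snd_sub] at h
  unfold sd
  omega

lemma run_list (G : Finset Site) (Λ : ℕ) (x : Site) (t : List Site)
    (h : (x :: t).IsChain Adj) :
    Run G Λ (fun k => (x :: t).getD k 0) (stL G Λ (x, 0) t) t.length := by
  refine ⟨by simp [stL], fun k hk => stL_succ G Λ _ x t hk, fun k hk => ?_⟩
  apply sd_adj
  have h1 := List.isChain_iff_getElem.1 h k (by simpa using hk)
  rw [List.getD_eq_getElem _ _ (by simp; omega), List.getD_eq_getElem _ _ (by simp; omega)]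
  exact h1

lemma pow_ineq {a b : ℕ} (h : 3 * a ≤ b) : (11 / 10 : ℝ) ^ (a + b) ≤ (3 / 2) ^ b * (1 / 2) ^ a := by
  obtain ⟨c, rfl⟩ := Nat.exists_eq_add_of_le h
  have e1 : (11 / 10 : ℝ) ^ (a + (3 * a + c)) = ((11 / 10 : ℝ) ^ 4) ^ a * (11 / 10) ^ c := by
    rw [← pow_mul, ← pow_add]
    congr 1
    ring
  have e2 : (3 / 2 : ℝ) ^ (3 * a + c) * (1 / 2) ^ a = ((3 / 2 : ℝ) ^ 3 * (1 / 2)) ^ a * (3 / 2) ^ c := by
    rw [mul_pow, ← pow_mul, pow_add]
    ring
  rw [e1, e2]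
  apply mul_le_mul
  · exact pow_le_pow_left₀ (by positivity) (by norm_num) a
  · exact pow_le_pow_left₀ (by positivity) (by norm_num) c
  · positivity
  · positivity

lemma exp_twentieth : Real.exp (1 / 20) ≤ 11 / 10 := by
  have h := Real.one_sub_le_exp_neg (1 / 20)
  rw [Real.exp_neg] at h
  have h1 : 0 < Real.exp (1 / 20) := Real.exp_pos _
  have h2 : Real.exp (1 / 20) * (1 - 1 / 20) ≤ 1 := by
    calc Real.exp (1 / 20) * (1 - 1 / 20) ≤ Real.exp (1 / 20) * (Real.exp (1 / 20))⁻¹ :=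
          mul_le_mul_of_nonneg_left h h1.le
      _ = 1 := mul_inv_cancel₀ h1.ne'
  linarith

lemma pointwise {κ c0 c4 W : ℝ} {a b : ℕ} (hκ : 0 < κ) (hc0 : 0 < c0) (hc : c4 ≤ κ * c0 / 4) (hc' : c4 ≤ 1 / 20)
    (hW : c0 * (a : ℝ) ≤ W) :
    Real.exp (c4 * ((a : ℝ) + b)) ≤ (3 / 2) ^ b * (1 / 2) ^ a + Real.exp (κ * W) := by
  by_cases h : c4 * ((a : ℝ) + b) ≤ κ * W
  · have h1 := Real.exp_le_exp.2 h
    have h2 : (0 : ℝ) ≤ (3 / 2) ^ b * (1 / 2) ^ a := by positivity
    linarith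
  · push Not at h
    have h1 : κ * (c0 * a) ≤ κ * W := mul_le_mul_of_nonneg_left hW hκ.le
    have hab : (0 : ℝ) ≤ (a : ℝ) + b := by positivity
    have h2 : c4 * ((a : ℝ) + b) ≤ κ * c0 / 4 * ((a : ℝ) + b) := mul_le_mul_of_nonneg_right hc hab
    have h3 : 3 * a ≤ b := by
      by_contra h3
      push Not at h3
      have h4 : (b : ℝ) ≤ 3 * a := by exact_mod_cast h3.le
      have h5 : κ * (c0 * a) < κ * c0 / 4 * ((a : ℝ) + b) := by linarith
      have h6 : 0 < κ * c0 := mul_pos hκ hc0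
      have : κ * c0 / 4 * ((a : ℝ) + b) ≤ κ * c0 / 4 * (4 * a) := by
        apply mul_le_mul_of_nonneg_left _ (by linarith)
        linarith
      have e : κ * c0 / 4 * (4 * (a : ℝ)) = κ * (c0 * a) := by ring
      linarith
    have h4 := pow_ineq h3
    have h5 : Real.exp (c4 * ((a : ℝ) + b)) ≤ Real.exp (1 / 20) ^ (a + b) := by
      rw [← Real.exp_nat_mul]
      apply Real.exp_le_exp.2
      push_cast
      nlinarith
    have h6 : Real.exp (1 / 20) ^ (a + b) ≤ (11 / 10) ^ (a + b) :=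
      pow_le_pow_left₀ (Real.exp_pos _).le exp_twentieth _
    have h7 := Real.exp_pos (κ * W)
    linarith

end FineAux

open FineAux

/-- AP3: for each `Λ` there is `c > 0` such that for every finite set `S` of scales and all numbers
`T j`, the number of chains with `m` steps from `x` inside `G` with `Travels G l (2^j) (Λ 2^j) (T j)`
for all `j ∈ S` is at most `4^m * (C |G|) e^{-c ∑_{j ∈ S} T j}`. -/
theorem travels_count (Λ : ℕ) (hΛ : 1 ≤ Λ) : ∃ c C : ℝ, 0 < c ∧ 0 < C ∧ ∀ G : Finset Site,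
    ConnF (G : Set Site)ᶜ → ∀ x ∈ G, ∀ m : ℕ, ∀ S : Finset ℕ, ∀ T : ℕ → ℕ,
      (({l ∈ chainsIn G x m | ∀ j ∈ S, Travels G l (2 ^ j) (Λ * 2 ^ j) (T j)}.ncard : ℕ) : ℝ)
        ≤ 4 ^ m * (C * G.card * Real.exp (-(c * ∑ j ∈ S, (T j : ℝ)))) := by
  classical
  obtain ⟨κ, hκ, hexp⟩ := exp_moment
  set c0 : ℝ := 1 / (16 * ((16 * Λ : ℕ) : ℝ) ^ 2) with hc0
  have hΛ0 : (0 : ℝ) < ((16 * Λ : ℕ) : ℝ) := by
    have : 0 < 16 * Λ := by omega
    exact_mod_cast this
  have hc0p : 0 < c0 := by positivity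
  set c4 : ℝ := min (κ * c0 / 4) (1 / 20) with hc4
  have hc4p : 0 < c4 := lt_min (by positivity) (by norm_num)
  refine ⟨c4 / 4, 10, by positivity, by norm_num, ?_⟩
  intro G hG x hx m S T
  set A : Set (List Site) := {l ∈ chainsIn G x m | ∀ j ∈ S, Travels G l (2 ^ j) (Λ * 2 ^ j) (T j)}
    with hA
  have hAfin : A.Finite := (chainsIn_finite G x m).subset (fun l hl => hl.1)
  set E : ℝ := Real.exp (c4 / 4 * ∑ j ∈ S, (T j : ℝ)) with hE
  have hEp : 0 < E := Real.exp_pos _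
  -- the pointwise bound
  have hpt : ∀ l ∈ A, E ≤ 2 * (FF G (16 * Λ) (x, 0) l.tail +
      Real.exp (κ * (l.map (fun z => 1 / (dep G z : ℝ) ^ 2)).sum)) := by
    intro l hl
    obtain ⟨⟨h1, h2, h3, h4⟩, h5⟩ := hl
    match l, h1, h2, h3, h4, h5 with
    | [], h1, _, _, _, _ => simp at h1
    | y :: t, h1, h2, h3, h4, h5 =>
      simp only [List.head?_cons, Option.some.injEq] at h2
      subst h2
      have hrun := run_list G (16 * Λ) y t h3
      have htot := total (S := S) (T := T) (G := G) (Λ := Λ)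
        (p := fun k => (y :: t).getD k 0) (st := stL G (16 * Λ) (y, 0) t) (n := t.length) (by
          intro j hj
          obtain ⟨a, b, h6, h7⟩ := h5 j hj
          refine hrun.scale hΛ (a := a) (b := b) (fun i hi => ?_) h7
          obtain ⟨q1, q2, q3, q4⟩ := h6 i hi
          refine ⟨q1, ?_, q3, q4⟩
          rw [List.length_cons] at q2
          omega)
      have hcnt := stL_count G (16 * Λ) t (y, 0)
      simp only [if_true] at hcnt
      have hcost := costA (G := G) (Λ := 16 * Λ) (by omega) t (y, 0) y (h4 y (by simp))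
        (fun u hu => h4 u (by simp [hu])) (by simp [sd_self])
      simp only [Nat.cast_zero, zero_mul, zero_add] at hcost
      have hp := pointwise (κ := κ) (c0 := c0) (c4 := c4) (b := cB G (16 * Λ) (y, 0) t) hκ hc0p
        (min_le_left _ _) (min_le_right _ _) hcost
      have hE1 : E ≤ Real.exp c4 * Real.exp (c4 * ((cA G (16 * Λ) (y, 0) t : ℝ) +
          cB G (16 * Λ) (y, 0) t)) := by
        rw [← Real.exp_add, hE]
        apply Real.exp_le_exp.2
        nlinarith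
      have hE2 : Real.exp c4 ≤ 2 := by
        have h6 : Real.exp c4 ≤ Real.exp (1 / 20) := Real.exp_le_exp.2 (min_le_right _ _)
        linarith [exp_twentieth]
      rw [List.tail_cons]
      unfold FF
      calc E ≤ _ := hE1
        _ ≤ 2 * _ := mul_le_mul hE2 hp (Real.exp_pos _).le (by norm_num)
  -- the sum
  have hcard : 1 ≤ (G.card : ℝ) := by
    have : 0 < G.card := Finset.card_pos.2 ⟨x, hx⟩
    exact_mod_cast this
  have hsum : (A.ncard : ℝ) * E ≤ 4 ^ m * (10 * G.card) := by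
    have e1 : (A.ncard : ℝ) * E = ∑ l ∈ hAfin.toFinset, E := by
      rw [Finset.sum_const, nsmul_eq_mul, Set.ncard_eq_toFinset_card A hAfin]
    rw [e1]
    calc ∑ l ∈ hAfin.toFinset, E ≤ ∑ l ∈ hAfin.toFinset, 2 * (FF G (16 * Λ) (x, 0) l.tail +
          Real.exp (κ * (l.map (fun z => 1 / (dep G z : ℝ) ^ 2)).sum)) := by
          apply Finset.sum_le_sum
          intro l hl
          rw [Set.Finite.mem_toFinset] at hl
          exact hpt l hl
      _ ≤ ∑ l ∈ (chainsIn_finite G x m).toFinset, 2 * (FF G (16 * Λ) (x, 0) l.tail +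
          Real.exp (κ * (l.map (fun z => 1 / (dep G z : ℝ) ^ 2)).sum)) := by
          apply Finset.sum_le_sum_of_subset_of_nonneg
          · intro l hl
            rw [Set.Finite.mem_toFinset] at hl ⊢
            exact hl.1
          · intro l _ _
            have := FF_nonneg G (16 * Λ) (x, 0) l.tail
            positivity
      _ = 2 * (∑ l ∈ (chainsIn_finite G x m).toFinset, FF G (16 * Λ) (x, 0) l.tail +
          ∑ l ∈ (chainsIn_finite G x m).toFinset,
            Real.exp (κ * (l.map (fun z => 1 / (dep G z : ℝ) ^ 2)).sum)) := by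
          rw [← Finset.mul_sum, Finset.sum_add_distrib]
      _ ≤ 4 ^ m * (10 * G.card) := by
          have h1 := sumF G (16 * Λ) m (x, 0) (inv_start G (16 * Λ) x) x
          have h2 := V_start G (16 * Λ) x
          have h3 := hexp G hG x hx m
          have h4 : (0 : ℝ) < 4 ^ m := by positivity
          have h5 : 2 * (4 : ℝ) ^ m * V G (16 * Λ) (x, 0) x ≤ 2 * 4 ^ m * 1 :=
            mul_le_mul_of_nonneg_left h2 (by positivity)
          nlinarith
  rw [Real.exp_neg]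
  rw [← hE]
  have : (A.ncard : ℝ) ≤ 4 ^ m * (10 * G.card) / E := by
    rw [le_div_iff₀ hEp]
    exact hsum
  calc (A.ncard : ℝ) ≤ 4 ^ m * (10 * G.card) / E := this
    _ = _ := by
      rw [div_eq_mul_inv]
      ring

end Pool.Agent.WSB71
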