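import Pool.Agent.LT.Tour
import Pool.Agent.WSB71.RealDef

/-!
# Flat rows

A row of trapezoidal blocks above a flat boundary, followed by rows of squares at all scales up to a
given height.
-/

open MeasureTheory ProbabilityTheory Filter Topology
open scoped NNReal ENNReal

namespace Pool.Agent.WSB71

open Pool.Agent.LT

/-- Reflection in the second axis. -/
def symMir : Sym where
  g := { toFun := fun x => (-x.1, x.2), invFun := fun x => (-x.1, x.2),
         left_inv := fun x => by simp, right_inv := fun x => by simp,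
         map_add' := fun x y => by ext <;> simp [add_comm] }
  pres e he := by
    simp only [units, Finset.mem_insert, Finset.mem_singleton] at he
    rcases he with h | h | h | h <;> subst h <;> decide
  pres' e he := by
    simp only [units, Finset.mem_insert, Finset.mem_singleton] at he
    rcases he with h | h | h | h <;> subst h <;> decide

/-- Exchange of the coordinates. -/
def symSwap : Sym where
  g := { toFun := fun x => (x.2, x.1), invFun := fun x => (x.2, x.1),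
         left_inv := fun x => by simp, right_inv := fun x => by simp,
         map_add' := fun x y => by ext <;> simp }
  pres e he := by
    simp only [units, Finset.mem_insert, Finset.mem_singleton] at he
    rcases he with h | h | h | h <;> subst h <;> decide
  pres' e he := by
    simp only [units, Finset.mem_insert, Finset.mem_singleton] at he
    rcases he with h | h | h | h <;> subst h <;> decide

lemma symMir_g (x : Site) : symMir.g x = (-x.1, x.2) := rfl

lemma symSwap_g (x : Site) : symSwap.g x = (x.2, x.1) := rfl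

/-- One row at scale `k`. -/
lemma flat_scale {C : ℝ} (hC1 : 1 ≤ C)
    (hC : ∀ m : ℕ, 1 ≤ m → ∀ β : ℝ, 1 ≤ β → ∀ x ∈ sq m, ∀ z ∈ sq m,
      Cov (sq m) (mid m) β (C * β * (m ^ 2 * Real.sqrt m)) x z (C * β * Real.sqrt m))
    {n k H : ℕ} (hk : 1 ≤ k) (hkn : 8 * k ≤ n) (hkH : 8 * k ≤ H) {β : ℝ} (hβ : 1 ≤ β) :
    Cov (rectF 0 n 0 H) (rectF k (n - k) k (7 * k)) β (48 * C * β * n * (k * Real.sqrt k))
      (0, 0) ((n : ℤ) - 1, 0) (3 / 4 * C * β * n / Real.sqrt k) := by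
  have hk' : (1 : ℝ) ≤ k := by exact_mod_cast hk
  have hk0 : (0 : ℝ) < k := by linarith
  have hsk : 0 < Real.sqrt k := Real.sqrt_pos.2 hk0
  have hkn' : 8 * (k : ℝ) ≤ n := by exact_mod_cast hkn
  set I : ℕ := (n - 8 * k) / (4 * k) + 1 with hI
  have hI1 : (n : ℤ) - 8 * k ≤ I * (4 * k) := by
    have h1 := Nat.lt_div_mul_add (a := n - 8 * k) (b := 4 * k) (by omega)
    have h2 : n - 8 * k ≤ I * (4 * k) := by
      rw [hI, add_mul, one_mul]; omega
    have h3 : ((n - 8 * k : ℕ) : ℤ) ≤ ((I * (4 * k) : ℕ) : ℤ) := by exact_mod_cast h2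
    push_cast [Nat.cast_sub hkn] at h3
    exact h3
  have hI2 : (I : ℝ) + 1 ≤ n / (4 * k) := by
    have h1 : (((n - 8 * k) / (4 * k) : ℕ) : ℝ) ≤ ((n - 8 * k : ℕ) : ℝ) / ((4 * k : ℕ) : ℝ) :=
      Nat.cast_div_le
    rw [Nat.cast_sub hkn] at h1
    push_cast at h1
    have h2 : ((n : ℝ) - 8 * k) / (4 * k) = n / (4 * k) - 2 := by
      field_simp
      ring
    rw [h2] at h1
    rw [hI]
    push_cast
    linarith
  have hmem : ∀ a : ℤ, 0 ≤ a → a < 8 * k → ((a, 0) : Site) ∈ sq (8 * k) := by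
    intro a h1 h2
    rw [mem_sq]
    push_cast
    refine ⟨?_, ?_, ?_, ?_⟩ <;> first | trivial | omega
  have hm1 : 1 ≤ 8 * k := by omega
  have hr := row (A := sq (8 * k)) (R := mid (8 * k)) (Q := rectF 0 n 0 H) (β := β) (S := 4 * k)
    (p := k) (p' := 7 * k) (q := k) (q' := 7 * k) (e := 8 * k - 1) (u0 := 0) (u1 := n - 8 * k)
    (hmem 0 le_rfl (by omega))
    (fun a h1 h2 => hC (8 * k) hm1 β hβ _ (hmem 0 le_rfl (by omega)) _ (hmem a h1 (by omega)))
    (hC (8 * k) hm1 β hβ _ (hmem 0 le_rfl (by omega)) _ (hmem _ (by omega) (by omega)))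
    (by
      intro x h1 h2 h3 h4
      unfold mid
      rw [Finset.mem_filter, mem_sq]
      push_cast
      omega)
    (by omega) (by omega) (by omega)
    (by
      intro u h1 h2 z hz
      rw [mem_sq] at hz
      rw [mem_rectF]
      simp only [Prod.fst_add, Prod.snd_add]
      push_cast at hz
      omega) I (by omega)
  have e1 : ((n : ℤ) - 8 * k + (8 * k - 1), (0 : ℤ)) = ((n : ℤ) - 1, 0) := by
    ext <;> simp
  rw [e1] at hr
  have hsq := sqrt_eight_mul k
  refine hr.mono (le_refl _) ?_ le_rfl ?_ ?_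
  · intro x hx
    rw [mem_rectF] at hx ⊢
    omega
  · calc ((I : ℝ) + 1) * (C * β * (((8 * k : ℕ) : ℝ) ^ 2 * Real.sqrt ((8 * k : ℕ) : ℝ)))
        ≤ (n / (4 * k)) * (C * β * (((8 * k : ℕ) : ℝ) ^ 2 * (3 * Real.sqrt k))) := by gcongr
      _ = 48 * C * β * n * (k * Real.sqrt k) := by
          push_cast
          field_simp
          ring
  · calc ((I : ℝ) + 1) * (C * β * Real.sqrt ((8 * k : ℕ) : ℝ))
        ≤ (n / (4 * k)) * (C * β * (3 * Real.sqrt k)) := by gcongr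
      _ = 3 / 4 * C * β * n * (Real.sqrt k / k) := by
          field_simp
      _ = 3 / 4 * C * β * n / Real.sqrt k := by
          have : Real.sqrt k / k = 1 / Real.sqrt k := by
            rw [div_eq_div_iff hk0.ne' hsk.ne', Real.mul_self_sqrt hk0.le]; ring
          rw [this]; ring

/-- A row at scale `k`, back and forth. -/
lemma flat_scale2 {C : ℝ} (hC1 : 1 ≤ C)
    (hC : ∀ m : ℕ, 1 ≤ m → ∀ β : ℝ, 1 ≤ β → ∀ x ∈ sq m, ∀ z ∈ sq m,
      Cov (sq m) (mid m) β (C * β * (m ^ 2 * Real.sqrt m)) x z (C * β * Real.sqrt m))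
    {n k H : ℕ} (hk : 1 ≤ k) (hkn : 8 * k ≤ n) (hkH : 8 * k ≤ H) {β : ℝ} (hβ : 1 ≤ β) :
    Cov (rectF 0 n 0 H) (rectF k (n - k) k (7 * k)) β (96 * C * β * n * (k * Real.sqrt k))
      ((n : ℤ) - 1, 0) ((n : ℤ) - 1, 0) (3 / 2 * C * β * n / Real.sqrt k) := by
  have h1 := flat_scale hC1 hC hk hkn hkH hβ
  have h2 := h1.sym symMir ((n : ℤ) - 1, 0) (A' := rectF 0 n 0 H) (R' := ∅) (by
    intro z hz
    rw [mem_rectF] at hz ⊢
    simp only [symMir_g, Prod.mk_add_mk]
    omega) (by simp)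
  have e1 : (((n : ℤ) - 1, 0) : Site) + symMir.g (0, 0) = ((n : ℤ) - 1, 0) := by
    rw [symMir_g]; ext <;> simp
  have e2 : (((n : ℤ) - 1, 0) : Site) + symMir.g ((n : ℤ) - 1, 0) = (0, 0) := by
    rw [symMir_g]; ext <;> simp
  rw [e1, e2] at h2
  refine (h2.comp h1).mono (le_refl _) ?_ le_rfl ?_ ?_
  · rw [Finset.empty_union]
  · linarith
  · have : 3 / 2 * C * β * n / Real.sqrt k
        = 3 / 4 * C * β * n / Real.sqrt k + 3 / 4 * C * β * n / Real.sqrt k := by ring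
    rw [this]

/-- All scales. -/
lemma flat_scales {C : ℝ} (hC1 : 1 ≤ C)
    (hC : ∀ m : ℕ, 1 ≤ m → ∀ β : ℝ, 1 ≤ β → ∀ x ∈ sq m, ∀ z ∈ sq m,
      Cov (sq m) (mid m) β (C * β * (m ^ 2 * Real.sqrt m)) x z (C * β * Real.sqrt m))
    {n h H M : ℕ} (hh : 1 ≤ h) {β : ℝ} (hβ : 1 ≤ β) {τ c : ℝ}
    (h0 : Cov (rectF 0 n 0 H) (rectF M (n - M) 0 h) β τ (0, 0) ((n : ℤ) - 1, 0) c) (J : ℕ)
    (hJ : ∀ j < J, h * 2 ^ j ≤ M ∧ 8 * (h * 2 ^ j) ≤ n ∧ 8 * (h * 2 ^ j) ≤ H) :
    Cov (rectF 0 n 0 H) (rectF M (n - M) 0 ((h * 2 ^ J : ℕ) : ℤ)) β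
      (τ + 96 * C * β * n * Real.sqrt M * ((h * 2 ^ J : ℕ) : ℝ)) (0, 0) ((n : ℤ) - 1, 0)
      (c + 6 * C * β * n * (1 / Real.sqrt h - 1 / Real.sqrt ((h * 2 ^ J : ℕ) : ℝ))) := by
  induction J with
  | zero =>
    refine h0.mono (le_refl _) (by simp) le_rfl ?_ (by simp)
    have : 0 ≤ 96 * C * β * n * Real.sqrt M * ((h * 2 ^ 0 : ℕ) : ℝ) := by positivity
    linarith
  | succ J ih =>
    have ih' := ih (fun j hj => hJ j (by omega))
    set k : ℕ := h * 2 ^ J with hk
    have hk1 : 1 ≤ k := Nat.one_le_iff_ne_zero.2 (by positivity)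
    obtain ⟨hkM, hkn, hkH⟩ := hJ J (by omega)
    have h1 := flat_scale2 hC1 hC hk1 hkn hkH hβ
    have e1 : h * 2 ^ (J + 1) = 2 * k := by rw [hk, pow_succ]; ring
    rw [e1]
    have hk1' : (1 : ℝ) ≤ k := by exact_mod_cast hk1
    have hk0 : (0 : ℝ) < k := by linarith
    have hsk : 0 < Real.sqrt k := Real.sqrt_pos.2 hk0
    have hkM' : (k : ℝ) ≤ M := by exact_mod_cast hkM
    refine (ih'.comp h1).mono (le_refl _) ?_ le_rfl ?_ ?_
    · intro x hx
      rw [Finset.mem_union, mem_rectF, mem_rectF]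
      rw [mem_rectF] at hx
      push_cast at hx
      have hkM2 : (k : ℤ) ≤ M := by exact_mod_cast hkM
      omega
    · have h2 : (k : ℝ) * Real.sqrt k ≤ k * Real.sqrt M := by
        apply mul_le_mul_of_nonneg_left _ hk0.le
        exact Real.sqrt_le_sqrt hkM'
      have h3 : 96 * C * β * n * (k * Real.sqrt k) ≤ 96 * C * β * n * (k * Real.sqrt M) := by
        gcongr
      push_cast
      nlinarith
    · have h2 : Real.sqrt ((2 * k : ℕ) : ℝ) = Real.sqrt 2 * Real.sqrt k := by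
        push_cast
        rw [Real.sqrt_mul (by norm_num)]
      rw [h2]
      have h3 : (1.4 : ℝ) ≤ Real.sqrt 2 := by
        rw [Real.le_sqrt (by norm_num) (by norm_num)]; norm_num
      have h4 : 1 / (Real.sqrt 2 * Real.sqrt k) ≤ 3 / 4 * (1 / Real.sqrt k) := by
        rw [div_le_iff₀ (by positivity)]
        have : 3 / 4 * (1 / Real.sqrt k) * (Real.sqrt 2 * Real.sqrt k) = 3 / 4 * Real.sqrt 2 := by
          field_simp
        rw [this]
        linarith
      have h5 : 3 / 2 * C * β * n / Real.sqrt k = 6 * C * β * n * (1 / 4 * (1 / Real.sqrt k)) := by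
        ring
      rw [h5]
      have h6 : 0 ≤ 6 * C * β * n := by positivity
      have h7 := mul_le_mul_of_nonneg_left h4 h6
      linarith

/-- The row of trapezoidal blocks along the boundary. -/
lemma flat_layer {ε : ℝ} (hε : 0 < ε) (hε1 : ε ≤ 1) (h1 : ℕ) : ∃ h L : ℕ, h1 ≤ h ∧ 1 ≤ h ∧
    1 ≤ L ∧ ∃ β0 K : ℝ, 1 ≤ β0 ∧ 0 ≤ K ∧ ∀ β : ℝ, β0 ≤ β → ∀ n H : ℕ, 2 * h + L ≤ n →
      2 * h ≤ H → Cov (rectF 0 n 0 H) (rectF h (n - h) 0 h) β (K * β * n) (0, 0)
        ((n : ℤ) - 1, 0) (4 * h + β * (n + L) * (1 + ε / 8)) := by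
  -- choose the scale
  have hlim : Tendsto (fun x : ℝ => (1 + 2 * x) * (1 + x) + 4 * x ^ 2) (𝓝 0) (𝓝 1) := by
    have : Continuous (fun x : ℝ => (1 + 2 * x) * (1 + x) + 4 * x ^ 2) := by fun_prop
    have h2 := this.tendsto 0
    simpa using h2
  have hlim2 : Tendsto (fun h : ℕ => (1 + 2 * (1 / (h : ℝ))) * (1 + 1 / (h : ℝ))
      + 4 * (1 / (h : ℝ)) ^ 2) atTop (𝓝 1) := hlim.comp tendsto_one_div_atTop_nhds_zero_nat
  have hev := hlim2.eventually (gt_mem_nhds (show (1 : ℝ) < 1 + ε / 16 by linarith))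
  obtain ⟨h2, hh2⟩ := hev.exists_forall_of_atTop
  obtain ⟨h, hh⟩ : ∃ h : ℕ, h = max (max h1 1) h2 := ⟨_, rfl⟩
  have hh1 : h1 ≤ h := by rw [hh]; exact (le_max_left _ _).trans (le_max_left _ _)
  have hhone : 1 ≤ h := by rw [hh]; exact (le_max_right _ _).trans (le_max_left _ _)
  have hhh2 : h2 ≤ h := by rw [hh]; exact le_max_right _ _
  have hlt := hh2 h hhh2
  have hh' : (1 : ℝ) ≤ h := by exact_mod_cast hhone
  obtain ⟨L, hL⟩ : ∃ L : ℕ, L = h ^ 2 := ⟨_, rfl⟩
  have hL1 : 1 ≤ L := by rw [hL]; exact Nat.one_le_pow _ _ (by omega)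
  have hL' : (L : ℝ) = (h : ℝ) ^ 2 := by rw [hL]; push_cast; ring
  have hL1' : (1 : ℝ) ≤ L := by exact_mod_cast hL1
  have hLpos : (0 : ℝ) < L := by linarith
  -- energy
  have hE := trap_energy hhone hL1
  have hE2 : ∑ z ∈ tblk h L, potl (tblk h L) (trap h L) z * trap h L z ^ 2 ≤ L * (1 + ε / 16) := by
    refine hE.trans ?_
    have h3 : (1 : ℝ) / (h + 1) ≤ 1 / h := by
      apply one_div_le_one_div_of_le (by linarith) (by linarith)
    calc ((L : ℝ) + 2 * h) * (1 + 1 / (h + 1)) + 4 ≤ ((L : ℝ) + 2 * h) * (1 + 1 / h) + 4 := by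
          gcongr
      _ = L * ((1 + 2 * (1 / (h : ℝ))) * (1 + 1 / (h : ℝ)) + 4 * (1 / (h : ℝ)) ^ 2) := by
          rw [hL']; field_simp
      _ ≤ L * (1 + ε / 16) := by gcongr
  -- the block covering
  obtain ⟨η, hη⟩ : ∃ η : ℝ, η = ε / 100 := ⟨_, rfl⟩
  have hη0 : 0 < η := by rw [hη]; positivity
  have hη1 : η ≤ 1 := by rw [hη]; linarith
  have hsub : rectF 0 L 0 h ⊆ tblk h L := by
    intro x hx
    rw [mem_rectF] at hx
    rw [mem_tblk]
    omega
  have hhZ : (1 : ℤ) ≤ h := by exact_mod_cast hhone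
  have hLZ : (1 : ℤ) ≤ L := by exact_mod_cast hL1
  have hmem : ∀ a : ℤ, 0 ≤ a → a ≤ L + h - 1 → ((a, 0) : Site) ∈ tblk h L := by
    intro a h3 h4
    rw [mem_tblk]
    simp only
    omega
  obtain ⟨β0, Cτ, hβ0, hCτ, hblk⟩ := block_cover (-(h : ℤ) - 1) (-1) (L + 2 * h) (2 * h) (trap h L)
    ⟨(0, 0), hmem 0 le_rfl (by omega)⟩ (fun x hx => trap_pos hx) (fun x hx => trap_zero hx)
    (rectF 0 L 0 h) hsub
    (by
      intro z hz
      rw [mem_rectF] at hz
      unfold trap tr1 tr2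
      rw [if_neg (by omega), if_neg (by omega), if_pos (by omega), if_neg (by omega),
        if_pos (by omega)]
      norm_num) hη0
  change ∀ β, β0 ≤ β → ∀ x ∈ tblk h L, ∀ y ∈ tblk h L, Cov (tblk h L) (rectF 0 L 0 h) β (Cτ * β) x y
    (β * ((1 + η) * (∑ z ∈ tblk h L, potl (tblk h L) (trap h L) z * trap h L z ^ 2 + η) + η)) at hblk
  refine ⟨h, L, hh1, hhone, hL1, β0, 2 * Cτ + h, hβ0, by positivity, ?_⟩
  intro β hβ
  have hβ1 : 1 ≤ β := hβ0.trans hβ
  have hβpos : 0 < β := by linarith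
  -- unit cost of a block
  obtain ⟨c, hc⟩ : ∃ c : ℝ, c = β * (L * (1 + ε / 8)) := ⟨_, rfl⟩
  have hcost : β * ((1 + η) * (∑ z ∈ tblk h L, potl (tblk h L) (trap h L) z * trap h L z ^ 2 + η) + η)
      ≤ c := by
    rw [hc]
    apply mul_le_mul_of_nonneg_left _ hβpos.le
    have h3 : (1 + η) * (∑ z ∈ tblk h L, potl (tblk h L) (trap h L) z * trap h L z ^ 2 + η) + η
        ≤ (1 + η) * (L * (1 + ε / 16) + η * L) + η * L := by
      have : η ≤ η * L := by nlinarith
      gcongr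
    refine h3.trans ?_
    have h4 : (1 + η) * (L * (1 + ε / 16) + η * L) + η * L
        = L * ((1 + η) * (1 + ε / 16 + η) + η) := by ring
    rw [h4]
    apply mul_le_mul_of_nonneg_left _ (by positivity)
    have h6 : (1 + η) * (1 + ε / 16 + η) + η = 1 + ε / 16 + 3 * η + η ^ 2 + η * ε / 16 := by ring
    rw [h6]
    have h7 : η ^ 2 ≤ η := by nlinarith
    have h8 : η * ε ≤ η := by nlinarith
    rw [hη] at h7 h8 ⊢
    linarith
  have hblk' : ∀ x ∈ tblk h L, ∀ y ∈ tblk h L, Cov (tblk h L) (rectF 0 L 0 h) β (Cτ * β) x y c :=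
    fun x hx y hy => (hblk β hβ x hx y hy).mono (le_refl _) (le_refl _) le_rfl le_rfl hcost
  intro n H hn1 hH
  have hn3 : 1 ≤ n := by omega
  have hn3' : (1 : ℝ) ≤ n := by exact_mod_cast hn3
  obtain ⟨I, hI⟩ : ∃ I : ℕ, I = (n - (2 * h + L)) / L + 1 := ⟨_, rfl⟩
  have hI1 : (n : ℤ) - (2 * h + L) ≤ I * L := by
    have h1 := Nat.lt_div_mul_add (a := n - (2 * h + L)) (b := L) (by omega)
    have h2 : n - (2 * h + L) ≤ I * L := by
      rw [hI, add_mul, one_mul]; omega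
    have h3 : ((n - (2 * h + L) : ℕ) : ℤ) ≤ ((I * L : ℕ) : ℤ) := by exact_mod_cast h2
    push_cast [Nat.cast_sub hn1] at h3
    exact h3
  have hI2 : (I : ℝ) + 1 ≤ n / L + 1 := by
    have h1 : (((n - (2 * h + L)) / L : ℕ) : ℝ) ≤ ((n - (2 * h + L) : ℕ) : ℝ) / (L : ℝ) :=
      Nat.cast_div_le
    rw [Nat.cast_sub hn1] at h1
    push_cast at h1
    have h2 : ((n : ℝ) - (2 * h + L)) / L ≤ n / L - 1 := by
      rw [div_le_iff₀ hLpos]
      have : ((n : ℝ) / L - 1) * L = n - L := by field_simp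
      rw [this]
      linarith
    rw [hI]
    push_cast
    linarith
  have hr := row (A := tblk h L) (R := rectF 0 L 0 h) (Q := rectF 0 n 0 H) (β := β) (S := L)
    (p := 0) (p' := L) (q := 0) (q' := h) (e := L + h - 1) (u0 := h) (u1 := n - L - h)
    (hmem 0 le_rfl (by omega))
    (fun a h1 h2 => hblk' _ (hmem 0 le_rfl (by omega)) _ (hmem a h1 (by omega)))
    (hblk' _ (hmem 0 le_rfl (by omega)) _ (hmem _ (by omega) (by omega)))
    (by
      intro x h1 h2 h3 h4
      rw [mem_rectF]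
      omega)
    (by omega) (by omega) (by omega)
    (by
      intro u h1 h2 z hz
      rw [mem_tblk] at hz
      rw [mem_rectF]
      simp only [Prod.fst_add, Prod.snd_add]
      omega) I (by omega)
  have e1 : ((n : ℤ) - L - h + (L + h - 1), (0 : ℤ)) = ((n : ℤ) - 1, 0) := by
    ext
    · simp only; ring
    · rfl
  rw [e1] at hr
  have htr : Cov (rectF 0 n 0 H) ∅ β h (0, 0) (h, 0) (4 * h) := by
    have ht := covAt_travel (a := -1) (b := -1) (w := h + 1) (h := 1) β h (x := (0, 0))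
      (y := ((h : ℤ), 0)) (by unfold InBox; push_cast; refine ⟨?_, ?_, ?_, ?_⟩ <;> first | trivial | omega)
      (by unfold InBox; push_cast; refine ⟨?_, ?_, ?_, ?_⟩ <;> first | trivial | omega) (by simp)
    refine ⟨(h : ℝ≥0), by simp, ht.mono ?_ (le_refl _) le_rfl le_rfl⟩
    intro x hx
    rw [mem_boxF] at hx
    unfold InBox at hx
    rw [mem_rectF]
    push_cast at hx
    omega
  refine (htr.comp hr).mono (le_refl _) ?_ le_rfl ?_ ?_
  · intro x hx
    rw [Finset.empty_union, mem_rectF]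
    rw [mem_rectF] at hx
    omega
  · have h3 : ((I : ℝ) + 1) * (Cτ * β) ≤ (n / L + 1) * (Cτ * β) := by gcongr
    have h4 : (n : ℝ) / L + 1 ≤ 2 * n := by
      have : (n : ℝ) / L ≤ n := div_le_self (by linarith) hL1'
      linarith
    have h5 : ((n : ℝ) / L + 1) * (Cτ * β) ≤ 2 * n * (Cτ * β) := by gcongr
    have h6 : (h : ℝ) ≤ h * β * n := by
      have : 1 ≤ β * n := by nlinarith
      nlinarith
    linarith
  · have h3 : ((I : ℝ) + 1) * c ≤ (n / L + 1) * c := by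
      apply mul_le_mul_of_nonneg_right hI2
      rw [hc]; positivity
    have h4 : ((n : ℝ) / L + 1) * c = β * (n + L) * (1 + ε / 8) := by
      rw [hc]; field_simp
    rw [h4] at h3
    linarith

theorem realizable_flat {η : ℝ} (hη : 0 < η) : ∃ β₀ : ℝ, 1 ≤ β₀ ∧ ∀ β : ℝ, β₀ ≤ β →
    Realizable β (0, 1) ((1 + η) * β) := by
  obtain ⟨C, hC1, hC⟩ := cov_mid
  obtain ⟨ε, hε⟩ : ∃ ε : ℝ, ε = min η 1 := ⟨_, rfl⟩
  have hε0 : 0 < ε := by rw [hε]; exact lt_min hη one_pos
  have hε1 : ε ≤ 1 := by rw [hε]; exact min_le_right _ _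
  have hεη : ε ≤ η := by rw [hε]; exact min_le_left _ _
  obtain ⟨h1, hh1⟩ := exists_nat_ge ((12 * C / ε) ^ 2)
  obtain ⟨h, L, hh1', hh, hL1, β0, K, hβ0, hK, hlay⟩ := flat_layer hε0 hε1 h1
  refine ⟨β0, hβ0, ?_⟩
  intro β hβ
  have hβ1 : 1 ≤ β := hβ0.trans hβ
  have hβpos : 0 < β := by linarith
  have hh' : (1 : ℝ) ≤ h := by exact_mod_cast hh
  have hsh : 12 * C / ε ≤ Real.sqrt h := by
    rw [Real.le_sqrt (by positivity) (by positivity)]
    exact hh1.trans (by exact_mod_cast hh1')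
  have hshpos : 0 < Real.sqrt h := Real.sqrt_pos.2 (by linarith)
  have hcost1 : 6 * C * (1 / Real.sqrt h) ≤ ε / 2 := by
    rw [div_le_iff₀ hε0] at hsh
    rw [mul_one_div, div_le_iff₀ hshpos]
    linarith
  refine ⟨by simp, 0, ?_⟩
  intro b2 hb2
  -- the scales
  obtain ⟨J, hJ⟩ : ∃ J : ℕ, J = b2.toNat := ⟨_, rfl⟩
  obtain ⟨m, hm⟩ : ∃ m : ℕ, m = h * 2 ^ J := ⟨_, rfl⟩
  have hmh : h ≤ m := by
    rw [hm]
    exact Nat.le_mul_of_pos_right _ (by positivity)
  have hb2m : b2 < m := by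
    have h3 : J < 2 ^ J := Nat.lt_two_pow_self
    have h4 : 2 ^ J ≤ m := by
      rw [hm]
      exact Nat.le_mul_of_pos_left _ (by omega)
    have h5 : (J : ℤ) = b2 := by rw [hJ]; exact Int.toNat_of_nonneg hb2
    omega
  obtain ⟨N0, hN0⟩ : ∃ N0 : ℕ, N0 = 8 * m + 2 * h + L := ⟨_, rfl⟩
  obtain ⟨C1, hC1'⟩ : ∃ C1 : ℝ, C1 = (K * β + 96 * C * β * Real.sqrt m * m) * (1 + N0) := ⟨_, rfl⟩
  obtain ⟨C2, hC2⟩ : ∃ C2 : ℝ, C2 = 4 * h + β * (N0 + L) * 2 + β * N0 := ⟨_, rfl⟩
  have hC1nn : 0 ≤ C1 := by rw [hC1']; positivity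
  have hC2nn : 0 ≤ C2 := by rw [hC2]; positivity
  refine ⟨N0, C1 + C2, by omega, ?_⟩
  intro k hk
  have hk' : (1 : ℝ) ≤ k := by exact_mod_cast hk
  obtain ⟨n, hn⟩ : ∃ n : ℕ, n = k + N0 := ⟨_, rfl⟩
  have hn' : (n : ℝ) = k + N0 := by rw [hn]; push_cast; ring
  have hb := hlay β hβ n (8 * m) (by omega) (by omega)
  have hb' : Cov (rectF 0 n 0 ((8 * m : ℕ) : ℤ)) (rectF m (n - m) 0 h) β (K * β * n) (0, 0)
      ((n : ℤ) - 1, 0) (4 * h + β * (n + L) * (1 + ε / 8)) := by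
    refine hb.mono (le_refl _) ?_ le_rfl le_rfl le_rfl
    intro x hx
    rw [mem_rectF] at hx ⊢
    omega
  have hs := flat_scales hC1 hC hh hβ1 hb' J (by
    intro j hj
    have h3 : 2 ^ j ≤ 2 ^ J := Nat.pow_le_pow_right (by norm_num) hj.le
    have h4 : h * 2 ^ j ≤ m := by rw [hm]; exact Nat.mul_le_mul_left _ h3
    omega)
  rw [← hm] at hs
  -- transport
  have hs2 := hs.sym symSwap 0 (A' := (rectF 0 ((8 * m : ℕ) : ℤ) 0 n))
    (R' := rectF 0 m m (n - m)) (by
      intro z hz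
      rw [mem_rectF] at hz
      rw [symSwap_g, zero_add, mem_rectF]
      simp only
      omega) (by
      intro z hz
      rw [mem_rectF] at hz
      refine ⟨(z.2, z.1), ?_, ?_⟩
      · rw [mem_rectF]
        simp only
        omega
      · rw [symSwap_g, zero_add])
  simp only [symSwap_g, zero_add] at hs2
  obtain ⟨s, hsτ, hcov⟩ := hs2
  refine ⟨(0, 0), (0, (n : ℤ) - 1), ?_, ?_, s, ?_, ?_⟩
  · unfold EndReg cr dt
    simp
  · unfold EndReg cr dt
    refine ⟨by simp, Or.inr ?_⟩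
    have e : (0 : ℤ) * 0 + 1 * ((n : ℤ) - 1) - k * (0 * 0 + 1 * 1) = N0 - 1 := by
      rw [hn]; push_cast; ring
    simp only
    rw [e, abs_le]
    omega
  · refine hsτ.trans ?_
    have h3 : (n : ℝ) ≤ (1 + N0) * k := by
      rw [hn']
      have : (0 : ℝ) ≤ N0 := Nat.cast_nonneg _
      nlinarith
    have h4 : K * β * n + 96 * C * β * n * Real.sqrt m * m
        = (K * β + 96 * C * β * Real.sqrt m * m) * n := by ring
    rw [h4]
    calc (K * β + 96 * C * β * Real.sqrt m * m) * n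
        ≤ (K * β + 96 * C * β * Real.sqrt m * m) * ((1 + N0) * k) := by gcongr
      _ = C1 * k := by rw [hC1']; ring
      _ ≤ (C1 + C2) * k := by
          have : 0 ≤ C2 * k := by positivity
          linarith
  · intro μ hμ
    have := hμ.prob
    have h3 := hcov μ hμ
    have hcost : 4 * h + β * (n + L) * (1 + ε / 8) + 6 * C * β * n * (1 / Real.sqrt h
        - 1 / Real.sqrt (m : ℝ)) ≤ (1 + η) * β * k + (C1 + C2) := by
      have h4 : 0 ≤ 1 / Real.sqrt (m : ℝ) := by positivity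
      have h5 : 6 * C * β * n * (1 / Real.sqrt h - 1 / Real.sqrt (m : ℝ))
          ≤ β * n * (6 * C * (1 / Real.sqrt h)) := by
        have : 0 ≤ 6 * C * β * n * (1 / Real.sqrt (m : ℝ)) := by positivity
        linarith
      have h6 : β * n * (6 * C * (1 / Real.sqrt h)) ≤ β * n * (ε / 2) := by gcongr
      have h7 : 4 * h + β * (n + L) * (1 + ε / 8) + β * n * (ε / 2)
          = β * k * (1 + ε / 8 + ε / 2) + (4 * h + β * (N0 + L) * (1 + ε / 8)
            + β * N0 * (ε / 2)) := by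
        rw [hn']; ring
      have h8 : β * k * (1 + ε / 8 + ε / 2) ≤ (1 + η) * β * k := by
        have : 0 ≤ β * k := by positivity
        nlinarith
      have h9 : 4 * h + β * (N0 + L) * (1 + ε / 8) + β * N0 * (ε / 2) ≤ C2 := by
        rw [hC2]
        have : 0 ≤ β * (N0 + L) := by positivity
        have : 0 ≤ β * (N0 : ℝ) := by positivity
        have a1 : β * (N0 + L) * (1 + ε / 8) ≤ β * (N0 + L) * 2 := by
          apply mul_le_mul_of_nonneg_left _ (by positivity)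
          linarith
        have a2 : β * N0 * (ε / 2) ≤ β * N0 := by
          have : β * N0 * (ε / 2) ≤ β * N0 * 1 := by
            apply mul_le_mul_of_nonneg_left _ (by positivity)
            linarith
          linarith
        linarith
      linarith
    refine (Real.exp_le_exp.2 (neg_le_neg hcost)).trans (h3.trans ?_)
    apply measureReal_mono (h₂ := measure_ne_top _ _)
    rintro f ⟨g1, g2, g3⟩
    have hin : ∀ u ≤ s, 0 ≤ ((0, 0) + f.1 u : Site).1 ∧ ((0, 0) + f.1 u : Site).1 < 8 * m ∧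
        0 ≤ ((0, 0) + f.1 u : Site).2 ∧ ((0, 0) + f.1 u : Site).2 < n := by
      intro u hu
      have h4 := g1 u hu
      rw [mem_rectF] at h4
      push_cast at h4
      omega
    refine ⟨?_, ?_, ?_⟩
    · intro u hu
      have h4 := hin u hu
      unfold cr dt
      simp only
      rw [abs_le]
      rw [hn] at h4
      push_cast at h4
      omega
    · exact g3
    · intro z hz1 hz2 hz3 hz4
      apply g2
      unfold cr at hz3 hz4
      unfold dt at hz1 hz2
      simp only at hz1 hz2 hz3 hz4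
      have hz0 : 0 ≤ z.1 := by
        rcases hz4 with hz4 | ⟨u, hu, hz4⟩
        · omega
        · have h4 := hin u hu
          rw [hz4] at h4
          exact h4.1
      rw [mem_rectF]
      rw [hn]
      push_cast
      omega

end Pool.Agent.WSB71
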