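import Pool.Agent.LB24.Main

/-!
# LB: the lower bound for zonogons with realizable sides (statements)

`N = t^{1/3}`.  Sides `k_i v_i` and `-k_i v_i`, `k_i = ⌈x_i N⌉`, in the order of their directions,
clockwise (interior on the right); vertices `P_0, ..., P_{2m} = P_0` lattice points, `0` well inside.  Put
`D_0` = sites of the polygon with `cr v_j (x - P_j) ≥ b2 + const` for every side `j` (the core).
The path:
 1. from `0` a tour of the core: every site of `D_0` gets local time `≥ β`, staying in `D_0`, at cost
    `≤ η N` when `b2 ≥ b2(η)`: Whitney squares; use `Cov` for squares (`mid m`: cost `C β √m` for a square of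
    side `m`, `LT/CovMid.lean`, `LT/Tour.lean`), `O(N / 2^i)` squares of side `~ 2^i` along each side,
    all placed by translations, steps between neighbouring squares in their union (`covAt_travel'`);
 2. for each side travel (cost `C log N` through squares of increasing and decreasing size) to a blob at an
    end of the side; a blob is the ball of radius `ρ(b3)` around a vertex `P_j`, all of whose
    sites get local time `≥ β` (cost `O(1)`, `cov_brute`), containing the end regions of the rows;
 3. the row of `k_j` periods along the side, cost `c_j k_j + C`;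
 4. return to `a ∈ D_0` of `stay_ge` and stay in `D_0` up to time `t`: cost `lamD D_0 t`, and
    `N² lamD D_0 ≤ lam (interior K) + ε` (`lamD_le_lam`; `D_0 ⊇` lattice points of `N • C`).
All the times before step 4 are `≤ C N^3` small multiples? (only `≤ t` is needed: the number
of steps of parts 1-3 is `O(N² √N)`).
Every visited site is in the core, in a blob, or in the middle part of a row with
`cr ≤ b2 + const`: so choose the row parameter `b2` larger than the core's.  The event `E_t` holds.
-/

open MeasureTheory Filter Topology
open scoped NNReal ENNReal

namespace Pool.Agent.WSB71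

open Pool.Agent.LT

theorem lb_main {β : ℝ} (hβ : 1 ≤ β) {m : ℕ} (v : Fin m → Site) (x c : Fin m → ℝ)
    (hx : ∀ i, 0 < x i) (hv : ∀ i, Realizable β (v i) (c i))
    (hne : (interior (zonogon v x)).Nonempty) {ε : ℝ} (hε : 0 < ε) :
    ∃ t₀ : ℝ≥0, ∀ t : ℝ≥0, t₀ ≤ t → ∀ μ : Measure WP, IsLaw μ →
      Real.exp (-((2 * ∑ i, x i * c i + lam (interior (zonogon v x)) + ε) * (t : ℝ) ^ ((1 : ℝ) / 3)))
        ≤ μ.real (evtE β t) :=
  Pool.Agent.LB24.lb_main hβ v x c hx hv hne hε

end Pool.Agent.WSB71
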