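import Pool.Agent.LT.Energy
import Pool.Agent.WSB71.LBStat

/-!
# Lower bound for the cost of realizable pairs (task WSB71-B3, helper2)

The principal eigenvalue of a disc of radius `r` is at most `20 / (3 r ^ 2)` (test function
`(r² - |p|²)²`); a square with sides along `v` and `rot v` costs at most
`4 a c / |v| + 28 / a²`; compare with the upper bound for the probability of `E_t`.
-/

open MeasureTheory Filter Topology
open scoped NNReal ENNReal

namespace Pool.Agent.WSB71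

open Pool.Agent.LT

namespace RealLow

/-- `max x 0 ^ 2`. -/
noncomputable def hh (x : ℝ) : ℝ := (max x 0) ^ 2

lemma hh_deriv (x : ℝ) : HasDerivAt hh (2 * max x 0) x := by
  unfold hh
  rcases lt_trichotomy x 0 with hx | hx | hx
  · rw [max_eq_right hx.le, mul_zero]
    have : (fun y : ℝ => (max y 0) ^ 2) =ᶠ[𝓝 x] fun _ => 0 := by
      filter_upwards [Iio_mem_nhds hx] with y hy
      rw [max_eq_right (le_of_lt hy)]; norm_num
    exact (hasDerivAt_const x (0 : ℝ)).congr_of_eventuallyEq this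
  · subst hx
    rw [max_self, mul_zero, hasDerivAt_iff_isLittleO]
    simp only [max_self, sub_zero, smul_zero]
    rw [Asymptotics.isLittleO_iff]
    intro c hc
    filter_upwards [Metric.ball_mem_nhds (0 : ℝ) hc] with y hy
    rw [mem_ball_zero_iff, Real.norm_eq_abs] at hy
    have h1 : (max y 0) ^ 2 ≤ |y| ^ 2 := by
      apply pow_le_pow_left₀ (le_max_right _ _)
      exact max_le (le_abs_self y) (abs_nonneg y)
    have h0 : (0 : ℝ) ≤ (max y 0) ^ 2 := sq_nonneg _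
    simp only [ne_eq, OfNat.ofNat_ne_zero, not_false_eq_true, zero_pow, sub_zero]
    rw [Real.norm_eq_abs, Real.norm_eq_abs, abs_of_nonneg h0]
    have := abs_nonneg y
    nlinarith
  · rw [max_eq_left hx.le]
    have : (fun y : ℝ => (max y 0) ^ 2) =ᶠ[𝓝 x] fun y => y ^ 2 := by
      filter_upwards [Ioi_mem_nhds hx] with y hy
      rw [max_eq_left (le_of_lt hy)]
    have h2 := (hasDerivAt_pow 2 x)
    simp only [Nat.cast_ofNat, Nat.add_one_sub_one, pow_one] at h2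
    exact h2.congr_of_eventuallyEq this

lemma hh_contDiff : ContDiff ℝ 1 hh := by
  rw [contDiff_one_iff_deriv]
  refine ⟨fun x => (hh_deriv x).differentiableAt, ?_⟩
  have : deriv hh = fun x => 2 * max x 0 := funext fun x => (hh_deriv x).deriv
  rw [this]
  fun_prop

/-- The test function. -/
noncomputable def ff (r : ℝ) (p : Plane) : ℝ := hh (r ^ 2 - ‖p‖ ^ 2)

lemma ff_contDiff (r : ℝ) : ContDiff ℝ 1 (ff r) :=
  hh_contDiff.comp (contDiff_const.sub (contDiff_norm_sq ℝ))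

lemma ff_fderiv (r : ℝ) (p : Plane) :
    HasFDerivAt (ff r) ((-(4 * max (r ^ 2 - ‖p‖ ^ 2) 0)) • innerSL ℝ p) p := by
  have h1 : HasFDerivAt (fun q : Plane => r ^ 2 - ‖q‖ ^ 2) (-(2 • innerSL ℝ p)) p := by
    have := (hasStrictFDerivAt_norm_sq p).hasFDerivAt
    exact this.const_sub _
  have h2 := (hh_deriv (r ^ 2 - ‖p‖ ^ 2)).comp_hasFDerivAt p h1
  refine h2.congr_fderiv ?_
  ext q
  simp
  ring

lemma ff_fderiv_norm (r : ℝ) (p : Plane) :
    ‖fderiv ℝ (ff r) p‖ ^ 2 = 16 * ‖p‖ ^ 2 * hh (r ^ 2 - ‖p‖ ^ 2) := by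
  rw [(ff_fderiv r p).fderiv, norm_smul, innerSL_apply_norm, norm_neg, Real.norm_eq_abs,
    abs_of_nonneg (by positivity)]
  unfold hh
  ring

lemma ff_support {r : ℝ} (hr : 0 < r) : tsupport (ff r) ⊆ Metric.closedBall 0 r := by
  apply closure_minimal _ Metric.isClosed_closedBall
  intro p hp
  rw [mem_closedBall_zero_iff]
  by_contra hc
  push Not at hc
  apply hp
  unfold ff hh
  rw [max_eq_right (by nlinarith [norm_nonneg p])]
  norm_num

lemma ff_compact {r : ℝ} (hr : 0 < r) : HasCompactSupport (ff r) :=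
  HasCompactSupport.of_support_subset_isCompact (isCompact_closedBall 0 r)
    ((subset_tsupport _).trans (ff_support hr))

lemma one_dim {r : ℝ} (hr : 0 < r) (g G : ℝ → ℝ) (hg : ∀ y, HasDerivAt G (g y) y)
    (hgc : Continuous g) (F : ℝ → ℝ) (h1 : ∀ y, 0 < y → y ≤ r → F y = g y)
    (h2 : ∀ y, r < y → F y = 0) : ∫ y in Set.Ioi 0, F y = G r - G 0 := by
  rw [setIntegral_eq_of_subset_of_forall_sdiff_eq_zero (s := Set.Ioc 0 r) measurableSet_Ioi
    (fun y hy => hy.1)]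
  · rw [setIntegral_congr_fun (g := g) measurableSet_Ioc (fun y hy => h1 y hy.1 hy.2),
      ← intervalIntegral.integral_of_le hr.le]
    exact intervalIntegral.integral_eq_sub_of_hasDerivAt (fun y _ => hg y)
      (hgc.intervalIntegrable _ _)
  · intro y hy
    apply h2
    by_contra hc
    push Not at hc
    exact hy.2 ⟨hy.1, hc⟩

/-- The constant of the polar coordinates. -/
noncomputable def cc : ℝ := 2 * (volume : Measure Plane).real (Metric.ball 0 1)

lemma cc_pos : 0 < cc := by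
  unfold cc
  have : 0 < (volume : Measure Plane).real (Metric.ball 0 1) := by
    rw [Measure.real, ENNReal.toReal_pos_iff]
    exact ⟨Metric.measure_ball_pos _ _ one_pos, measure_ball_lt_top⟩
  positivity

lemma polar (F : ℝ → ℝ) : ∫ p : Plane, F ‖p‖ = cc * ∫ y in Set.Ioi 0, y * F y := by
  rw [integral_fun_norm_addHaar]
  simp [cc, mul_assoc]

lemma int_sq {r : ℝ} (hr : 0 < r) : ∫ p : Plane, ff r p ^ 2 = cc * (r ^ 10 / 10) := by
  have h := polar (fun y => hh (r ^ 2 - y ^ 2) ^ 2)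
  have e : ∀ p : Plane, ff r p ^ 2 = (fun y => hh (r ^ 2 - y ^ 2) ^ 2) ‖p‖ := fun p => rfl
  simp_rw [e]
  rw [h]
  congr 1
  rw [one_dim hr (fun y => y * (r ^ 2 - y ^ 2) ^ 4) (fun y => -((r ^ 2 - y ^ 2) ^ 5 / 10))]
  · ring
  · intro y
    have h1 : HasDerivAt (fun y : ℝ => r ^ 2 - y ^ 2) (-(2 * y)) y := by
      have := (hasDerivAt_pow 2 y).const_sub (r ^ 2)
      simpa using this
    have h2 := ((h1.pow 5).div_const 10).neg
    refine h2.congr_deriv ?_
    simp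
    ring
  · fun_prop
  · intro y hy hyr
    unfold hh
    rw [max_eq_left (by nlinarith)]
    ring
  · intro y hy
    unfold hh
    rw [max_eq_right (by nlinarith)]
    ring

lemma int_grad {r : ℝ} (hr : 0 < r) :
    ∫ p : Plane, ‖fderiv ℝ (ff r) p‖ ^ 2 = cc * (2 / 3 * r ^ 8) := by
  have h := polar (fun y => 16 * y ^ 2 * hh (r ^ 2 - y ^ 2))
  have e : ∀ p : Plane, ‖fderiv ℝ (ff r) p‖ ^ 2 = (fun y => 16 * y ^ 2 * hh (r ^ 2 - y ^ 2)) ‖p‖ :=
    fun p => ff_fderiv_norm r p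
  simp_rw [e]
  rw [h]
  congr 1
  rw [one_dim hr (fun y => 16 * y ^ 3 * (r ^ 2 - y ^ 2) ^ 2)
    (fun y => 4 * r ^ 4 * y ^ 4 - 16 / 3 * r ^ 2 * y ^ 6 + 2 * y ^ 8)]
  · ring
  · intro y
    have h1 := (((hasDerivAt_pow 4 y).const_mul (4 * r ^ 4)).sub
      ((hasDerivAt_pow 6 y).const_mul (16 / 3 * r ^ 2))).add ((hasDerivAt_pow 8 y).const_mul 2)
    refine h1.congr_deriv ?_
    simp
    ring
  · fun_prop
  · intro y hy hyr
    unfold hh
    rw [max_eq_left (by nlinarith)]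
    ring
  · intro y hy
    unfold hh
    rw [max_eq_right (by nlinarith)]
    ring

lemma lam_le {U : Set Plane} {r : ℝ} (hr : 0 < r) (hU : Metric.closedBall 0 r ⊆ U) :
    lam U ≤ 20 / 3 / r ^ 2 := by
  unfold lam
  apply csInf_le
  · refine ⟨0, ?_⟩
    rintro _ ⟨f, -, -, -, -, rfl⟩
    exact integral_nonneg fun _ => by positivity
  · obtain ⟨I, hI⟩ : ∃ I : ℝ, I = cc * (r ^ 10 / 10) := ⟨_, rfl⟩
    have hc := cc_pos
    have hI0 : 0 < I := by rw [hI]; positivity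
    have hs : (Real.sqrt I)⁻¹ ^ 2 = I⁻¹ := by rw [inv_pow, Real.sq_sqrt hI0.le]
    refine ⟨fun p => (Real.sqrt I)⁻¹ * ff r p, contDiff_const.mul (ff_contDiff r),
      (ff_compact hr).mul_left, ?_, ?_, ?_⟩
    · exact (tsupport_mul_subset_right).trans ((ff_support hr).trans hU)
    · simp_rw [mul_pow]
      rw [integral_const_mul, int_sq hr, hs, ← hI]
      exact inv_mul_cancel₀ hI0.ne'
    · have e : ∀ p : Plane, ‖fderiv ℝ (fun q => (Real.sqrt I)⁻¹ * ff r q) p‖ ^ 2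
          = I⁻¹ * ‖fderiv ℝ (ff r) p‖ ^ 2 := by
        intro p
        rw [fderiv_const_mul ((ff_contDiff r).differentiable (by norm_num) p), norm_smul, mul_pow,
          Real.norm_eq_abs, sq_abs, hs]
      simp_rw [e]
      rw [integral_const_mul, int_grad hr, hI]
      field_simp
      ring

lemma norm_toPlane_sq (v : Site) : ‖toPlane v‖ ^ 2 = (v.1 : ℝ) ^ 2 + (v.2 : ℝ) ^ 2 := by
  rw [EuclideanSpace.norm_sq_eq, Fin.sum_univ_two]
  simp

lemma norm_toPlane_pos {v : Site} (hv : v ≠ 0) : 0 < ‖toPlane v‖ := by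
  rw [norm_pos_iff]
  intro h
  apply hv
  have h0 := congrFun (congrArg (fun p : Plane => (p : Fin 2 → ℝ)) h) 0
  have h1 := congrFun (congrArg (fun p : Plane => (p : Fin 2 → ℝ)) h) 1
  simp only [toPlane_zero, toPlane_one, PiLp.zero_apply, Int.cast_eq_zero] at h0 h1
  exact Prod.ext h0 h1

lemma plane_norm_sq (p : Plane) : ‖p‖ ^ 2 = p 0 ^ 2 + p 1 ^ 2 := by
  rw [EuclideanSpace.norm_sq_eq, Fin.sum_univ_two]
  simp

lemma ball_sub {v : Site} (hv : v ≠ 0) {a b : ℝ} (hb : 0 < b) (ha : a * ‖toPlane v‖ = b) :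
    Metric.closedBall (0 : Plane) (b / 2) ⊆ zonogon ![v, (-v.2, v.1)] ![a, a] := by
  intro p hp
  rw [mem_closedBall_zero_iff] at hp
  have hn := norm_toPlane_pos hv
  have ha0 : 0 < a := by
    by_contra hc
    push Not at hc
    nlinarith
  obtain ⟨n, hn'⟩ : ∃ n, n = ‖toPlane v‖ := ⟨_, rfl⟩
  have hsq := norm_toPlane_sq v
  rw [← hn'] at hn hsq ha
  have hp2 : p 0 ^ 2 + p 1 ^ 2 ≤ (b / 2) ^ 2 := by
    rw [← plane_norm_sq]
    exact pow_le_pow_left₀ (norm_nonneg _) hp 2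
  have key : ∀ A B : ℝ, A ^ 2 + B ^ 2 = n ^ 2 →
      |(p 0 * A + p 1 * B) / (a * n ^ 2)| ≤ 1 / 2 := by
    intro A B hAB
    rw [abs_div, abs_of_pos (by positivity : 0 < a * n ^ 2), div_le_iff₀ (by positivity)]
    apply abs_le_of_sq_le_sq _ (by positivity)
    have h1 : (p 0 * A + p 1 * B) ^ 2 ≤ (p 0 ^ 2 + p 1 ^ 2) * (A ^ 2 + B ^ 2) := by
      nlinarith [sq_nonneg (p 0 * B - p 1 * A)]
    have h2 : (p 0 ^ 2 + p 1 ^ 2) * (A ^ 2 + B ^ 2) ≤ (b / 2) ^ 2 * n ^ 2 := by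
      rw [hAB]
      exact mul_le_mul_of_nonneg_right hp2 (by positivity)
    calc (p 0 * A + p 1 * B) ^ 2 ≤ (b / 2) ^ 2 * n ^ 2 := h1.trans h2
      _ = (1 / 2 * (a * n ^ 2)) ^ 2 := by rw [← ha]; ring
  refine ⟨![(p 0 * v.1 + p 1 * v.2) / (a * n ^ 2), (p 0 * (-v.2) + p 1 * v.1) / (a * n ^ 2)],
    ?_, ?_⟩
  · intro i
    fin_cases i
    · exact key _ _ hsq.symm
    · exact key _ _ (by rw [hsq]; ring)
  · rw [Fin.sum_univ_two]
    have hn0 := hn.ne'
    have hne : (v.1 : ℝ) ^ 2 + (v.2 : ℝ) ^ 2 ≠ 0 := by rw [← hsq]; positivity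
    ext i
    fin_cases i
    · simp
      rw [hsq]
      field_simp
      ring
    · simp
      rw [hsq]
      field_simp
      ring

end RealLow

open RealLow in
/-- Lower bound for all costs. -/
theorem realizable_lower : ∃ β₀ : ℝ, 1 ≤ β₀ ∧ ∀ β : ℝ, β₀ ≤ β → ∀ μ : Measure WP, IsLaw μ →
    ∀ v c, Realizable β v c → β / 2 * ‖toPlane v‖ ≤ c := by
  obtain ⟨β0, hβ0, hup⟩ := upper_bound (η := 1) one_pos le_rfl
  refine ⟨β0, hβ0, ?_⟩
  intro β hβ μ hμ v c hvc
  by_contra hcon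
  push Not at hcon
  have hβ1 : 1 ≤ β := hβ0.trans hβ
  have hβpos : 0 < β := by linarith
  have hv := hvc.1
  have hn := norm_toPlane_pos hv
  -- cube roots
  obtain ⟨s, hs0, hs⟩ : ∃ s : ℝ, 0 < s ∧ s ^ 3 = β :=
    ⟨β ^ ((1 : ℝ) / 3), by positivity, by
      rw [← Real.rpow_natCast, ← Real.rpow_mul hβpos.le]; norm_num⟩
  have hpi := Real.pi_pos
  obtain ⟨q, hq0, hq⟩ : ∃ q : ℝ, 0 < q ∧ q ^ 3 = Real.pi ^ 2 :=
    ⟨(Real.pi ^ 2) ^ ((1 : ℝ) / 3), by positivity, by
      rw [← Real.rpow_natCast, ← Real.rpow_mul (by positivity)]; norm_num⟩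
  have hq21 : 2.1 ≤ q := by
    by_contra hc
    push Not at hc
    have h1 : q ^ 3 < 2.1 ^ 3 := pow_lt_pow_left₀ hc hq0.le (by norm_num)
    have h2 := Real.pi_gt_d2
    rw [hq] at h1
    nlinarith
  obtain ⟨a, ha⟩ : ∃ a : ℝ, a = 3 / s / ‖toPlane v‖ := ⟨_, rfl⟩
  have hb : 0 < 3 / s := by positivity
  have hab : a * ‖toPlane v‖ = 3 / s := by rw [ha]; field_simp
  have ha0 : 0 < a := by rw [ha]; positivity
  have hball := ball_sub hv hb hab
  have hint : Metric.ball (0 : Plane) (3 / s / 2) ⊆ interior (zonogon ![v, (-v.2, v.1)] ![a, a]) :=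
    interior_maximal (Metric.ball_subset_closedBall.trans hball) Metric.isOpen_ball
  have hcl : Metric.closedBall (0 : Plane) (3 / s * 0.49) ⊆
      interior (zonogon ![v, (-v.2, v.1)] ![a, a]) :=
    (Metric.closedBall_subset_ball (by linarith)).trans hint
  have hlam := lam_le (by positivity : 0 < 3 / s * 0.49) hcl
  have hlam2 : lam (interior (zonogon ![v, (-v.2, v.1)] ![a, a])) ≤ 3.12 * s ^ 2 := by
    refine hlam.trans ?_
    have : (20 : ℝ) / 3 / (3 / s * 0.49) ^ 2 = s ^ 2 * (20 / 3 / (9 * 0.49 ^ 2)) := by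
      field_simp
      norm_num
    rw [this]
    nlinarith [sq_nonneg s]
  have hlb := lb_main hβ1 ![v, (-v.2, v.1)] ![a, a] ![c, c]
    (by intro i; fin_cases i <;> simpa using ha0)
    (by
      intro i
      fin_cases i
      · exact hvc
      · exact realizable_rot hvc)
    ⟨0, hint (Metric.mem_ball_self (by positivity))⟩ (ε := s ^ 2) (by positivity)
  obtain ⟨t₀, hlb⟩ := hlb
  obtain ⟨N0, hN⟩ := hup β hβ
  obtain ⟨T, hT⟩ : ∃ T : ℝ, T = max (max 1 (t₀ : ℝ)) (N0 * s / q) := ⟨_, rfl⟩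
  have hT1 : 1 ≤ T := by rw [hT]; exact (le_max_left _ _).trans (le_max_left _ _)
  have hTt : (t₀ : ℝ) ≤ T := by rw [hT]; exact (le_max_right _ _).trans (le_max_left _ _)
  have hTN : N0 * s / q ≤ T := by rw [hT]; exact le_max_right _ _
  have hT0 : 0 < T := by linarith
  obtain ⟨t, ht⟩ : ∃ t : ℝ≥0, (t : ℝ) = T ^ 3 := ⟨⟨T ^ 3, by positivity⟩, rfl⟩
  have hTt3 : T ≤ T ^ 3 := by nlinarith [sq_nonneg (T - 1), sq_nonneg T]
  have h1 := hlb t (by rw [← NNReal.coe_le_coe, ht]; linarith) μ hμ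
  have h2 := hN (q * T / s) (by
    rw [div_le_iff₀ hq0] at hTN
    rw [le_div_iff₀ hs0]
    linarith) t (by rw [ht, ← hs, ← hq]; field_simp) μ hμ
  have h2' : μ.real (evtE β t) ≤ Real.exp (-((6 - 1) * β * (q * T / s))) := by
    unfold Measure.real
    exact ENNReal.toReal_le_of_le_ofReal (Real.exp_pos _).le h2
  have h3 := h1.trans h2'
  rw [Real.exp_le_exp] at h3
  have ht3 : (t : ℝ) ^ ((1 : ℝ) / 3) = T := by
    rw [ht, ← Real.rpow_natCast, ← Real.rpow_mul hT0.le]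
    norm_num
  rw [ht3] at h3
  simp only [Fin.sum_univ_two, Matrix.cons_val_zero, Matrix.cons_val_one] at h3
  have h4 : (6 - 1) * β * (q * T / s) = 5 * s ^ 2 * q * T := by
    rw [← hs]; field_simp; ring
  rw [h4] at h3
  have h5 : 5 * s ^ 2 * q ≤ 2 * (a * c + a * c) +
      lam (interior (zonogon ![v, (-v.2, v.1)] ![a, a])) + s ^ 2 := by
    by_contra hc
    push Not at hc
    nlinarith
  have h6 : a * c < 3 / 2 * s ^ 2 := by
    have : a * c < a * (β / 2 * ‖toPlane v‖) := mul_lt_mul_of_pos_left hcon ha0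
    calc a * c < a * (β / 2 * ‖toPlane v‖) := this
      _ = (a * ‖toPlane v‖) * (β / 2) := by ring
      _ = 3 / 2 * s ^ 2 := by rw [hab, ← hs]; field_simp
  have hs2 : 0 < s ^ 2 := by positivity
  nlinarith

end Pool.Agent.WSB71
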