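import Pool.Agent.WSB71.Flat
import Pool.Agent.WSB71.RealLow

/-!
# Flat rows and the lower bound for the cost of realizable pairs

`realizable_flat` (Flat.lean), `realizable_lower` (RealLow.lean).
-/
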