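import Pool.Agent.WSB71.TileParity

/-!
# G6: the band dichotomy

Squares of side about `h / 50` inside the band, centred at the middle of the band, one for each value of
`T`.  Rows and columns which contain no edge between `V` and its complement in the band are monochromatic in
each square, and all of them have the same colour.
-/

open MeasureTheory Filter Topology
open scoped NNReal ENNReal

namespace Pool.Agent.WSB71

open Pool.Agent.LT

namespace GBand

/-- Adjacency in coordinates. -/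
theorem adj_iff {x y : Site} : Adj x y ↔ (y.1 = x.1 + 1 ∧ y.2 = x.2) ∨
    (y.1 = x.1 - 1 ∧ y.2 = x.2) ∨ (y.1 = x.1 ∧ y.2 = x.2 + 1) ∨ (y.1 = x.1 ∧ y.2 = x.2 - 1) := by
  unfold Adj units
  simp only [Finset.mem_insert, Finset.mem_singleton, Prod.ext_iff, Prod.fst_sub, Prod.snd_sub]
  omega

/-! ### The envelope -/

theorem env_finite (γ : List Site) (T : ℤ) : {a | ∃ p ∈ γ, a = gd p - 2 * |T - Td p|}.Finite := by
  refine ((γ.toFinset.image fun p => gd p - 2 * |T - Td p|).finite_toSet).subset ?_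
  rintro a ⟨p, hp, rfl⟩
  rw [Finset.mem_coe, Finset.mem_image]
  exact ⟨p, List.mem_toFinset.2 hp, rfl⟩

theorem le_env {γ : List Site} {p : Site} (hp : p ∈ γ) (T : ℤ) :
    gd p - 2 * |T - Td p| ≤ env γ T :=
  le_csSup (env_finite γ T).bddAbove ⟨p, hp, rfl⟩

theorem env_le {γ : List Site} (hne : γ ≠ []) {T c : ℤ}
    (h : ∀ p ∈ γ, gd p - 2 * |T - Td p| ≤ c) : env γ T ≤ c := by
  obtain ⟨p, hp⟩ := List.exists_mem_of_ne_nil γ hne
  refine csSup_le ⟨_, p, hp, rfl⟩ ?_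
  rintro a ⟨p, hp, rfl⟩
  exact h p hp

theorem env_lip {γ : List Site} (hne : γ ≠ []) (T T' : ℤ) :
    env γ T ≤ env γ T' + 2 * |T - T'| := by
  refine env_le hne fun p hp => ?_
  have h1 := le_env hp T'
  have h2 : |T' - Td p| ≤ |T - Td p| + |T - T'| := by
    have := abs_sub_le T' T (Td p)
    rw [abs_sub_comm T' T] at this
    linarith
  linarith

/-! ### Steps -/

theorem steps_cons_cons (a b : Site) (l : List Site) :
    steps (a :: b :: l) = (a, b) :: steps (b :: l) := rfl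

theorem steps_singleton (a : Site) : steps [a] = [] := rfl

theorem adj_of_mem_steps : ∀ {γ : List Site}, γ.IsChain Adj → ∀ {s : Site × Site}, s ∈ steps γ →
    Adj s.1 s.2 ∧ s.1 ∈ γ ∧ s.2 ∈ γ
  | [], _, s, hs => by simp [steps] at hs
  | [a], _, s, hs => by simp [steps] at hs
  | a :: b :: l, hc, s, hs => by
    rw [steps_cons_cons, List.mem_cons] at hs
    rw [List.isChain_cons_cons] at hc
    rcases hs with rfl | hs
    · exact ⟨hc.1, by simp, by simp⟩
    · obtain ⟨h1, h2, h3⟩ := adj_of_mem_steps hc.2 hs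
      exact ⟨h1, List.mem_cons_of_mem _ h2, List.mem_cons_of_mem _ h3⟩

/-- parity of the number of crossings of a level -/
theorem even_cross (T : ℤ) : ∀ (l : List Site) (a : Site), (a :: l).IsChain Adj →
    (Even ((steps (a :: l)).countP (fun s => min (Td s.1) (Td s.2) = T)) ↔
      (Td a ≤ T ↔ Td ((a :: l).getLast (by simp)) ≤ T))
  | [], a, _ => by simp [steps_singleton]
  | b :: l, a, hc => by
    rw [List.isChain_cons_cons] at hc
    have ih := even_cross T l b hc.2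
    rw [steps_cons_cons, List.countP_cons, List.getLast_cons_cons]
    have hab : Td b = Td a + 1 ∨ Td b = Td a - 1 := by
      have := adj_iff.1 hc.1
      unfold Td
      omega
    by_cases h : min (Td a) (Td b) = T
    · simp only [h, decide_true, if_true]
      rw [Nat.even_add_one, ih]
      have h1 : (Td a ≤ T ↔ ¬ Td b ≤ T) := by omega
      rw [h1]
      tauto
    · simp only [h, decide_false, Bool.false_eq_true, if_false, add_zero]
      rw [ih]
      have h1 : (Td a ≤ T ↔ Td b ≤ T) := by omega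
      rw [h1]

theorem inn_out {p q : Site} (h : Adj p q) :
    min (Ts (inn p q)) (Ts (out p q)) = min (Td p) (Td q) ∧
    gs (inn p q) + gs (out p q) = gd p + gd q ∧
    (Ts (inn p q) = Ts (out p q) + 1 ∨ Ts (out p q) = Ts (inn p q) + 1) ∧
    (gs (inn p q) = gs (out p q) + 1 ∨ gs (out p q) = gs (inn p q) + 1) ∧
    (Ts (inn p q) - Td p = 0 ∨ Ts (inn p q) - Td p = 1 ∨ Ts (inn p q) - Td p = -1) ∧
    (gs (inn p q) - gd p = 0 ∨ gs (inn p q) - gd p = 1 ∨ gs (inn p q) - gd p = -1) ∧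
    max (Td p) (Td q) = min (Td p) (Td q) + 1 := by
  have := adj_iff.1 h
  unfold Ts gs Td gd inn out
  simp only
  rcases this with ⟨h1, h2⟩ | ⟨h1, h2⟩ | ⟨h1, h2⟩ | ⟨h1, h2⟩ <;> rw [h1, h2] <;> omega

/-! ### The staircase of level `T` -/

/-- The site of the staircase of level `T` with the coordinate `g`. -/
def zz (T g : ℤ) : Site := ((T + g + 1) / 2, (T - g + 1) / 2)

theorem gs_zz (T g : ℤ) : gs (zz T g) = g := by
  unfold gs zz
  simp only
  omega

theorem Ts_zz (T g : ℤ) : Ts (zz T g) = T + (T + g) % 2 := by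
  unfold Ts zz
  simp only
  omega

theorem adj_zz (T g : ℤ) : Adj (zz T g) (zz T (g + 1)) := by
  rw [adj_iff]
  unfold zz
  simp only
  omega

theorem eq_of_Ts_gs {x y : Site} (h1 : Ts x = Ts y) (h2 : gs x = gs y) : x = y := by
  unfold Ts at h1
  unfold gs at h2
  exact Prod.ext (by omega) (by omega)

/-! ### Facts on tile paths -/

theorem tile_ne {L : ℕ} {v : Site} {γ : List Site} (hγ : TilePath L v γ) : γ ≠ [] := by
  intro h
  have := hγ.len.1
  rw [h] at this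
  simp at this

theorem tile_lo {L : ℕ} {v : Site} {γ : List Site} (hγ : TilePath L v γ) :
    (∀ p ∈ γ, Tfst γ ≤ Td p) ∧ (∀ p ∈ γ, Td p ≤ Tlst γ) ∧ (∀ p ∈ γ.tail, Tfst γ < Td p) ∧
      (∀ p ∈ γ.dropLast, Td p < Tlst γ) := by
  refine ⟨fun p hp => ?_, fun p hp => ?_, fun p hp => ?_, fun p hp => ?_⟩
  · obtain ⟨k, hk, rfl⟩ := List.mem_iff_getElem.1 hp
    have := hγ.regL k hk
    omega
  · obtain ⟨k, hk, rfl⟩ := List.mem_iff_getElem.1 hp
    have := hγ.regR k hk
    omega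
  · obtain ⟨k, hk, rfl⟩ := List.mem_iff_getElem.1 hp
    rw [List.length_tail] at hk
    rw [List.getElem_tail]
    have := hγ.regL (k + 1) (by omega)
    push_cast at this
    omega
  · obtain ⟨k, hk, rfl⟩ := List.mem_iff_getElem.1 hp
    rw [List.length_dropLast] at hk
    rw [List.getElem_dropLast]
    have := hγ.regR k (by omega)
    omega

theorem Tfst_eq {γ : List Site} {p : Site} (hp : p ∈ γ.head?) : Td p = Tfst γ := by
  cases γ with
  | nil => simp at hp
  | cons a l =>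
    simp only [List.head?_cons, Option.mem_def, Option.some.injEq] at hp
    subst hp
    rfl

theorem Tlst_eq {γ : List Site} {p : Site} (hp : p ∈ γ.getLast?) : Td p = Tlst γ := by
  unfold Tlst
  rw [List.getLastD_eq_getLast?, Option.mem_def.1 hp]
  rfl

/-- the uppermost crossing of a level -/
theorem exists_top {L : ℕ} {v : Site} {γ : List Site} (hγ : TilePath L v γ) {T : ℤ}
    (h1 : Tfst γ < T) (h2 : T + 1 < Tlst γ) :
    ∃ g₀ : ℤ, (∃ s ∈ steps γ, inn s.1 s.2 = zz T g₀) ∧ (∀ g, g₀ ≤ g → rightOf γ (zz T g)) ∧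
      g₀ ≤ env γ T + 3 := by
  classical
  obtain ⟨hlo, hhi, hlo', hhi'⟩ := tile_lo hγ
  have hne := tile_ne hγ
  -- there is a crossing
  have hodd : ¬ Even ((steps γ).countP (fun s => min (Td s.1) (Td s.2) = T)) := by
    cases γ with
    | nil => exact absurd rfl hne
    | cons a l =>
      rw [even_cross T l a hγ.chain]
      have e1 : Td a = Tfst (a :: l) := rfl
      have e2 : Td ((a :: l).getLast (by simp)) = Tlst (a :: l) :=
        Tlst_eq (by rw [List.getLast?_eq_getLast_of_ne_nil (by simp)]; rfl)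
      rw [e1, e2]
      omega
  have hex : ∃ s ∈ steps γ, min (Td s.1) (Td s.2) = T := by
    by_contra hcon
    push Not at hcon
    apply hodd
    have : (steps γ).countP (fun s => min (Td s.1) (Td s.2) = T) = 0 := by
      rw [List.countP_eq_zero]
      intro s hs
      simpa using hcon s hs
    rw [this]
    exact Even.zero
  have hne2 : ((steps γ).toFinset.filter fun s => min (Td s.1) (Td s.2) = T).Nonempty := by
    obtain ⟨s, hs, hsT⟩ := hex
    exact ⟨s, by simp [hs, hsT]⟩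
  obtain ⟨s, hs, hmax⟩ := Finset.exists_max_image _ (fun s : Site × Site => gd s.1 + gd s.2) hne2
  simp only [Finset.mem_filter, List.mem_toFinset] at hs hmax
  obtain ⟨hs, hsT⟩ := hs
  obtain ⟨hadj, hs1, hs2⟩ := adj_of_mem_steps hγ.chain hs
  obtain ⟨i1, i2, i3, i4, i5, i6, i7⟩ := inn_out hadj
  set g₀ : ℤ := max (gs (inn s.1 s.2)) (gs (out s.1 s.2)) with hg₀
  have hsum : gd s.1 + gd s.2 = 2 * g₀ - 1 := by omega
  -- sites of level `T` above are on the right
  have hev : ∀ g, g₀ ≤ g → (T + g) % 2 = 0 → rightOf γ (zz T g) := by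
    intro g hg hpar
    unfold rightOf
    have : (steps γ).countP (fun s => min (Td s.1) (Td s.2) = Ts (zz T g) ∧
        2 * gs (zz T g) < gd s.1 + gd s.2) = 0 := by
      rw [List.countP_eq_zero]
      intro s' hs'
      rw [gs_zz, Ts_zz, hpar, add_zero]
      intro hcon
      have hcon' := of_decide_eq_true hcon
      have := hmax s' ⟨hs', hcon'.1⟩
      omega
    rw [this]
    exact Even.zero
  have hall : ∀ g, g₀ ≤ g → rightOf γ (zz T g) := by
    intro g hg
    rcases Int.emod_two_eq_zero_or_one (T + g) with hpar | hpar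
    · exact hev g hg hpar
    · have hnext := hev (g + 1) (by omega) (by omega)
      have hA : Adj (zz T (g + 1)) (zz T g) := (adj_zz T g).symm
      have hTT : Ts (zz T g) = Ts (zz T (g + 1)) + 1 := by
        rw [Ts_zz, Ts_zz]
        omega
      have hP := rightOf_adj hγ.chain hγ.nodup hA hTT
        (fun p hp => by rw [Tfst_eq hp, Ts_zz]; omega)
        (fun p hp => by rw [Tlst_eq hp, Ts_zz]; omega)
      have hno : ¬ ∃ s ∈ steps γ, (inn s.1 s.2 = zz T (g + 1) ∧ out s.1 s.2 = zz T g) ∨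
          (inn s.1 s.2 = zz T g ∧ out s.1 s.2 = zz T (g + 1)) := by
        rintro ⟨s', hs', hio⟩
        obtain ⟨hadj', _, _⟩ := adj_of_mem_steps hγ.chain hs'
        obtain ⟨j1, j2, _⟩ := inn_out hadj'
        have hm := hmax s' ⟨hs', by
          rcases hio with ⟨e1, e2⟩ | ⟨e1, e2⟩
          · rw [← j1, e1, e2, Ts_zz, Ts_zz]
            omega
          · rw [← j1, e1, e2, Ts_zz, Ts_zz]
            omega⟩
        rcases hio with ⟨e1, e2⟩ | ⟨e1, e2⟩
        · rw [e1, e2, gs_zz, gs_zz] at j2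
          omega
        · rw [e1, e2, gs_zz, gs_zz] at j2
          omega
      exact (hP.2 hno).1 hnext
  refine ⟨g₀, ⟨s, hs, ?_⟩, hall, ?_⟩
  · have hP2 := rightOf_inn hγ.chain hγ.nodup hlo hhi hlo' hhi' hs (by rw [hsT]; exact h1)
      (by rw [i7, hsT]; exact h2)
    have hR := hall g₀ le_rfl
    rcases i4 with i4 | i4
    · -- the inner site has the larger coordinate
      apply eq_of_Ts_gs
      · rw [Ts_zz]
        have hpar : (T + g₀) % 2 = Ts (inn s.1 s.2) - T := by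
          have e1 : Ts (inn s.1 s.2) = T ∨ Ts (inn s.1 s.2) = T + 1 := by omega
          have e2 : (Ts (inn s.1 s.2) + gs (inn s.1 s.2)) % 2 = 0 := by
            unfold Ts gs
            omega
          have e3 : g₀ = gs (inn s.1 s.2) := by omega
          omega
        omega
      · rw [gs_zz]
        omega
    · exfalso
      apply hP2.2
      have e0 : out s.1 s.2 = zz T g₀ := by
        apply eq_of_Ts_gs
        · rw [Ts_zz]
          have hpar : (T + g₀) % 2 = Ts (out s.1 s.2) - T := by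
            have e1 : Ts (out s.1 s.2) = T ∨ Ts (out s.1 s.2) = T + 1 := by omega
            have e2 : (Ts (out s.1 s.2) + gs (out s.1 s.2)) % 2 = 0 := by
              unfold Ts gs
              omega
            have e3 : g₀ = gs (out s.1 s.2) := by omega
            omega
          omega
        · rw [gs_zz]
          omega
      rw [e0]
      exact hR
  · have h3 := le_env hs1 T
    have h3' := le_env hs2 T
    have h4 : |T - Td s.1| + |T - Td s.2| ≤ 1 := by
      rcases le_total (Td s.1) (Td s.2) with hle | hle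
      · have e1 : T - Td s.1 = 0 := by omega
        rw [e1, abs_zero, zero_add, abs_le]
        omega
      · have e1 : T - Td s.2 = 0 := by omega
        rw [e1, abs_zero, add_zero, abs_le]
        omega
    omega

/-- the inner zone is finite -/
theorem Cz_finite {L : ℕ} {v : Site} {γ : List Site} (hγ : TilePath L v γ) {h : ℤ} (hh : 1 ≤ h) :
    (Cz γ h).Finite := by
  have hne := tile_ne hγ
  obtain ⟨M, hM⟩ : ∃ M : ℤ, ∀ p ∈ γ, |gd p| ≤ M ∧ |Td p| ≤ M := by
    refine ⟨(γ.map fun p => |gd p| + |Td p|).sum, fun p hp => ?_⟩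
    have h1 : |gd p| + |Td p| ≤ (γ.map fun p => |gd p| + |Td p|).sum :=
      List.single_le_sum (by
        intro x hx
        obtain ⟨q, _, rfl⟩ := List.mem_map.1 hx
        positivity) _ (List.mem_map.2 ⟨p, hp, rfl⟩)
    have h2 := abs_nonneg (gd p)
    have h3 := abs_nonneg (Td p)
    constructor <;> linarith
  have hF : |Tfst γ| ≤ M := by
    cases γ with
    | nil => exact absurd rfl hne
    | cons a l => exact (hM a (by simp)).2
  have hLs : |Tlst γ| ≤ M := by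
    have e1 : γ.getLast hne ∈ γ := List.getLast_mem hne
    have e2 : Td (γ.getLast hne) = Tlst γ :=
      Tlst_eq (by rw [List.getLast?_eq_getLast_of_ne_nil hne]; rfl)
    rw [← e2]
    exact (hM _ e1).2
  refine (((Finset.Icc (-(2 * M + h + 10)) (2 * M + h + 10)) ×ˢ
    (Finset.Icc (-(2 * M + h + 10)) (2 * M + h + 10))).finite_toSet).subset ?_
  rintro x ⟨hR, hx1, hx2, hx3⟩
  -- upper bound for `env`
  have henv : env γ (Ts x) ≤ M := env_le hne fun p hp => by
    have h1 := (abs_le.1 (hM p hp).1).2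
    have h2 := abs_nonneg (Ts x - Td p)
    linarith
  have hlow : -M - 1 ≤ gs x := by
    by_contra hcon
    push Not at hcon
    have hodd : ¬ Even ((steps γ).countP (fun s => min (Td s.1) (Td s.2) = Ts x)) := by
      cases γ with
      | nil => exact absurd rfl hne
      | cons a l =>
        rw [even_cross (Ts x) l a hγ.chain]
        have e1 : Td a = Tfst (a :: l) := rfl
        have e2 : Td ((a :: l).getLast (by simp)) = Tlst (a :: l) :=
          Tlst_eq (by rw [List.getLast?_eq_getLast_of_ne_nil (by simp)]; rfl)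
        rw [e1, e2]
        omega
    apply hodd
    unfold rightOf at hR
    have : (steps γ).countP (fun s => min (Td s.1) (Td s.2) = Ts x ∧ 2 * gs x < gd s.1 + gd s.2) =
        (steps γ).countP (fun s => min (Td s.1) (Td s.2) = Ts x) := by
      refine List.countP_congr fun s hs => ?_
      obtain ⟨_, hs1, hs2⟩ := adj_of_mem_steps hγ.chain hs
      have g1 := (abs_le.1 (hM _ hs1).1).1
      have g2 := (abs_le.1 (hM _ hs2).1).1
      simp only [decide_eq_true_eq]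
      constructor
      · exact fun h => h.1
      · exact fun h => ⟨h, by omega⟩
    rw [this] at hR
    exact hR
  rw [abs_le] at hF hLs
  rw [Finset.mem_coe, Finset.mem_product, Finset.mem_Icc, Finset.mem_Icc]
  unfold Ts gs at *
  omega

/-! ### The band -/

/-- The band of a function. -/
def Bd (E : ℤ → ℤ) (A B h : ℤ) : Set Site :=
  {x | A ≤ Ts x ∧ Ts x ≤ B ∧ E (Ts x) * 4 + h ≤ 4 * gs x ∧ 2 * gs x ≤ 2 * E (Ts x) + h}

/-- Centres of the squares. -/
def cg (E : ℤ → ℤ) (h T : ℤ) : ℤ := E T + 3 * h / 8 + (T + E T + 3 * h / 8) % 2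

/-- Centres of the squares. -/
def cen (E : ℤ → ℤ) (h T : ℤ) : Site := ((T + cg E h T) / 2, (T - cg E h T) / 2)

/-- The squares. -/
def Sq (E : ℤ → ℤ) (h T : ℤ) : Set Site :=
  {x | |x.1 - (cen E h T).1| ≤ h / 100 ∧ |x.2 - (cen E h T).2| ≤ h / 100}

/-- The edges between `V` and its complement in the band. -/
def Se (E : ℤ → ℤ) (A B h : ℤ) (V : Set Site) : Set (Site × Site) :=
  {q | Adj q.1 q.2 ∧ q.1 ∈ V ∧ q.2 ∉ V ∧ q.1 ∈ Bd E A B h ∧ q.2 ∈ Bd E A B h}

theorem cen_sum (E : ℤ → ℤ) (h T : ℤ) : (cen E h T).1 + (cen E h T).2 = T ∧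
    (cen E h T).1 - (cen E h T).2 = cg E h T := by
  unfold cen cg
  simp only
  omega

theorem Sq_sub {E : ℤ → ℤ} (hE : ∀ T T', E T ≤ E T' + 2 * |T - T'|) {A B h T : ℤ}
    (hh : 10 ^ 6 ≤ h) (h1 : A + 2 * (h / 100) ≤ T) (h2 : T ≤ B - 2 * (h / 100)) {x : Site}
    (hx : x ∈ Sq E h T) : x ∈ Bd E A B h := by
  obtain ⟨hx1, hx2⟩ := hx
  rw [abs_le] at hx1 hx2
  obtain ⟨c1, c2⟩ := cen_sum E h T
  have e1 : |Ts x - T| ≤ 2 * (h / 100) := by
    rw [abs_le]
    unfold Ts
    omega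
  have e2 : |T - Ts x| ≤ 2 * (h / 100) := by rw [abs_sub_comm]; exact e1
  have e3 := hE (Ts x) T
  have e4 := hE T (Ts x)
  have e5 : |gs x - cg E h T| ≤ 2 * (h / 100) := by
    rw [abs_le]
    unfold gs
    omega
  have e6 : cg E h T = E T + 3 * h / 8 + (T + E T + 3 * h / 8) % 2 := rfl
  rw [abs_le] at e5
  have e7 := (abs_le.1 e1)
  refine ⟨by omega, by omega, by omega, by omega⟩

theorem Bd_finite {E : ℤ → ℤ} (hE : ∀ T T', E T ≤ E T' + 2 * |T - T'|) (A B h : ℤ) :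
    (Bd E A B h).Finite := by
  set M : ℤ := |E A| + 2 * |B - A| + |A| + |B| + |h| with hM
  refine (((Finset.Icc (-(2 * M)) (2 * M)) ×ˢ (Finset.Icc (-(2 * M)) (2 * M))).finite_toSet).subset ?_
  rintro x ⟨h1, h2, h3, h4⟩
  have e1 := hE (Ts x) A
  have e2 := hE A (Ts x)
  have e3 : |Ts x - A| ≤ |B - A| := by
    rw [abs_of_nonneg (by omega : 0 ≤ Ts x - A), abs_of_nonneg (by omega : 0 ≤ B - A)]
    omega
  have e4 : |A - Ts x| ≤ |B - A| := by rw [abs_sub_comm]; exact e3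
  have f1 := neg_abs_le (E A)
  have f2 := le_abs_self (E A)
  have f3 := neg_abs_le A
  have f4 := le_abs_self B
  have f5 := neg_abs_le h
  have f6 := le_abs_self h
  have f7 := abs_nonneg (B - A)
  have f8 := abs_nonneg A
  have f9 := abs_nonneg B
  rw [Finset.mem_coe, Finset.mem_product, Finset.mem_Icc, Finset.mem_Icc]
  unfold Ts gs at *
  omega

theorem Se_finite {E : ℤ → ℤ} (hE : ∀ T T', E T ≤ E T' + 2 * |T - T'|) (A B h : ℤ)
    (V : Set Site) : (Se E A B h V).Finite :=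
  ((Bd_finite hE A B h).prod (Bd_finite hE A B h)).subset fun _ hq => ⟨hq.2.2.2.1, hq.2.2.2.2⟩

theorem interval_iff {P : ℤ → Prop} {a a' : ℤ} (h : a ≤ a')
    (hP : ∀ i, a ≤ i → i < a' → (P i ↔ P (i + 1))) : P a ↔ P a' := by
  induction a', h using Int.leInduction with
  | base => rfl
  | succ n hn ih => exact (ih fun i h1 h2 => hP i h1 (by omega)).trans (hP n hn (by omega))

/-- bad rows -/
noncomputable def BR (E : ℤ → ℤ) (A B h : ℤ) (V : Set Site) : Set ℤ :=
  (fun q : Site × Site => q.1.2) '' Se E A B h V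

/-- bad columns -/
noncomputable def BC (E : ℤ → ℤ) (A B h : ℤ) (V : Set Site) : Set ℤ :=
  (fun q : Site × Site => q.1.1) '' Se E A B h V

section

variable {E : ℤ → ℤ} {A B h : ℤ} {V : Set Site}

theorem row_mono (hE : ∀ T T', E T ≤ E T' + 2 * |T - T'|) {T : ℤ}
    (hh : 10 ^ 6 ≤ h) (h1 : A + 2 * (h / 100) ≤ T) (h2 : T ≤ B - 2 * (h / 100)) {y : ℤ}
    (hy : y ∉ BR E A B h V) {a a' : ℤ} (ha : ((a, y) : Site) ∈ Sq E h T)
    (ha' : ((a', y) : Site) ∈ Sq E h T) : ((a, y) : Site) ∈ V ↔ ((a', y) : Site) ∈ V := by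
  have key : ∀ a a' : ℤ, a ≤ a' → ((a, y) : Site) ∈ Sq E h T → ((a', y) : Site) ∈ Sq E h T →
      (((a, y) : Site) ∈ V ↔ ((a', y) : Site) ∈ V) := by
    intro a a' haa ha ha'
    have hin : ∀ i, a ≤ i → i ≤ a' → ((i, y) : Site) ∈ Sq E h T := by
      intro i hi1 hi2
      obtain ⟨p1, p2⟩ := ha
      obtain ⟨p3, _⟩ := ha'
      refine ⟨?_, p2⟩
      rw [abs_le] at p1 p3 ⊢
      simp only at p1 p3 ⊢
      omega
    refine interval_iff (P := fun i => ((i, y) : Site) ∈ V) haa fun i hi1 hi2 => ?_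
    have b1 := Sq_sub hE hh h1 h2 (hin i hi1 (by omega))
    have b2 := Sq_sub hE hh h1 h2 (hin (i + 1) (by omega) (by omega))
    constructor
    · intro hV
      by_contra hV'
      exact hy ⟨((i, y), (i + 1, y)), ⟨by rw [adj_iff]; simp, hV, hV', b1, b2⟩, rfl⟩
    · intro hV
      by_contra hV'
      exact hy ⟨((i + 1, y), (i, y)), ⟨by rw [adj_iff]; simp, hV, hV', b2, b1⟩, rfl⟩
  rcases le_total a a' with h' | h'
  · exact key a a' h' ha ha'
  · exact (key a' a h' ha' ha).symm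

theorem col_mono (hE : ∀ T T', E T ≤ E T' + 2 * |T - T'|) {T : ℤ}
    (hh : 10 ^ 6 ≤ h) (h1 : A + 2 * (h / 100) ≤ T) (h2 : T ≤ B - 2 * (h / 100)) {a : ℤ}
    (hy : a ∉ BC E A B h V) {y y' : ℤ} (ha : ((a, y) : Site) ∈ Sq E h T)
    (ha' : ((a, y') : Site) ∈ Sq E h T) : ((a, y) : Site) ∈ V ↔ ((a, y') : Site) ∈ V := by
  have key : ∀ y y' : ℤ, y ≤ y' → ((a, y) : Site) ∈ Sq E h T → ((a, y') : Site) ∈ Sq E h T →
      (((a, y) : Site) ∈ V ↔ ((a, y') : Site) ∈ V) := by
    intro y y' haa ha ha'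
    have hin : ∀ i, y ≤ i → i ≤ y' → ((a, i) : Site) ∈ Sq E h T := by
      intro i hi1 hi2
      obtain ⟨p1, p2⟩ := ha
      obtain ⟨_, p3⟩ := ha'
      refine ⟨p1, ?_⟩
      rw [abs_le] at p2 p3 ⊢
      simp only at p2 p3 ⊢
      omega
    refine interval_iff (P := fun i => ((a, i) : Site) ∈ V) haa fun i hi1 hi2 => ?_
    have b1 := Sq_sub hE hh h1 h2 (hin i hi1 (by omega))
    have b2 := Sq_sub hE hh h1 h2 (hin (i + 1) (by omega) (by omega))
    constructor
    · intro hV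
      by_contra hV'
      exact hy ⟨((a, i), (a, i + 1)), ⟨by rw [adj_iff]; simp, hV, hV', b1, b2⟩, rfl⟩
    · intro hV
      by_contra hV'
      exact hy ⟨((a, i + 1), (a, i)), ⟨by rw [adj_iff]; simp, hV, hV', b2, b1⟩, rfl⟩
  rcases le_total y y' with h' | h'
  · exact key y y' h' ha ha'
  · exact (key y' y h' ha' ha).symm

/-- among many consecutive integers there is one outside of a small set -/
theorem exists_good {X : Set ℤ} (hX : X.Finite) {a b : ℤ} (hc : (X.ncard : ℤ) < b - a + 1) :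
    ∃ i, a ≤ i ∧ i ≤ b ∧ i ∉ X := by
  by_contra hcon
  push Not at hcon
  have hsub : ((Finset.Icc a b : Finset ℤ) : Set ℤ) ⊆ X := by
    intro i hi
    rw [Finset.mem_coe, Finset.mem_Icc] at hi
    exact hcon i hi.1 hi.2
  have h1 := Set.ncard_le_ncard hsub hX
  rw [Set.ncard_coe_finset, Int.card_Icc] at h1
  omega

theorem BR_finite (hE : ∀ T T', E T ≤ E T' + 2 * |T - T'|) : (BR E A B h V).Finite :=
  (Se_finite hE A B h V).image _

theorem BC_finite (hE : ∀ T T', E T ≤ E T' + 2 * |T - T'|) : (BC E A B h V).Finite :=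
  (Se_finite hE A B h V).image _

theorem BR_card (hE : ∀ T T', E T ≤ E T' + 2 * |T - T'|) :
    (BR E A B h V).ncard ≤ (Se E A B h V).ncard :=
  Set.ncard_image_le (Se_finite hE A B h V)

theorem BC_card (hE : ∀ T T', E T ≤ E T' + 2 * |T - T'|) :
    (BC E A B h V).ncard ≤ (Se E A B h V).ncard :=
  Set.ncard_image_le (Se_finite hE A B h V)

/-- all sites in good rows of one square have the same colour -/
theorem same_col (hE : ∀ T T', E T ≤ E T' + 2 * |T - T'|) {T : ℤ}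
    (hh : 10 ^ 6 ≤ h) (h1 : A + 2 * (h / 100) ≤ T) (h2 : T ≤ B - 2 * (h / 100))
    (hS : 10000 * ((Se E A B h V).ncard : ℤ) ≤ h) {x x' : Site} (hx : x ∈ Sq E h T)
    (hx' : x' ∈ Sq E h T) (hr : x.2 ∉ BR E A B h V) (hr' : x'.2 ∉ BR E A B h V) :
    x ∈ V ↔ x' ∈ V := by
  obtain ⟨a, ha1, ha2, ha⟩ := exists_good (BC_finite (A := A) (B := B) (h := h) (V := V) hE)
    (a := (cen E h T).1 - h / 100) (b := (cen E h T).1 + h / 100) (by
      have := BC_card (A := A) (B := B) (h := h) (V := V) hE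
      omega)
  have m1 : ((a, x.2) : Site) ∈ Sq E h T := ⟨by rw [abs_le]; simp only; omega, hx.2⟩
  have m2 : ((a, x'.2) : Site) ∈ Sq E h T := ⟨by rw [abs_le]; simp only; omega, hx'.2⟩
  have e1 : x ∈ V ↔ ((a, x.2) : Site) ∈ V := row_mono hE hh h1 h2 hr hx m1
  have e2 : x' ∈ V ↔ ((a, x'.2) : Site) ∈ V := row_mono hE hh h1 h2 hr' hx' m2
  rw [e1, e2]
  exact col_mono hE hh h1 h2 ha m1 m2

/-- one colour for all squares -/
theorem mono (hE : ∀ T T', E T ≤ E T' + 2 * |T - T'|) (hh : 10 ^ 6 ≤ h)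
    (hS : 10000 * ((Se E A B h V).ncard : ℤ) ≤ h) :
    (∀ T, A + 2 * (h / 100) ≤ T → T ≤ B - 2 * (h / 100) → ∀ x ∈ Sq E h T, x.2 ∉ BR E A B h V →
      x ∈ V) ∨
    (∀ T, A + 2 * (h / 100) ≤ T → T ≤ B - 2 * (h / 100) → ∀ x ∈ Sq E h T, x.2 ∉ BR E A B h V →
      x ∉ V) := by
  set P : ℤ → Prop := fun T => ∃ x ∈ Sq E h T, x.2 ∉ BR E A B h V ∧ x ∈ V with hPdef
  by_cases hT : A + 2 * (h / 100) ≤ B - 2 * (h / 100)
  swap
  · left
    intro T hT1 hT2
    omega
  have hstep : ∀ T, A + 2 * (h / 100) ≤ T → T < B - 2 * (h / 100) → (P T ↔ P (T + 1)) := by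
    intro T hT1 hT2
    -- the centres are close
    obtain ⟨c1, c2⟩ := cen_sum E h T
    obtain ⟨c3, c4⟩ := cen_sum E h (T + 1)
    have g1 : cg E h T = E T + 3 * h / 8 + (T + E T + 3 * h / 8) % 2 := rfl
    have g2 : cg E h (T + 1) = E (T + 1) + 3 * h / 8 + (T + 1 + E (T + 1) + 3 * h / 8) % 2 := rfl
    have l1 := hE T (T + 1)
    have l2 := hE (T + 1) T
    have a1 : |T - (T + 1)| = 1 := by
      rw [show T - (T + 1) = -1 by ring]
      rfl
    have a2 : |T + 1 - T| = 1 := by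
      rw [show T + 1 - T = 1 by ring]
      rfl
    rw [a1] at l1
    rw [a2] at l2
    obtain ⟨y, hy1, hy2, hy⟩ := exists_good (BR_finite (A := A) (B := B) (h := h) (V := V) hE)
      (a := (cen E h T).2 - h / 100 + 2) (b := (cen E h T).2 + h / 100 - 2) (by
        have := BR_card (A := A) (B := B) (h := h) (V := V) hE
        omega)
    have m1 : (((cen E h T).1, y) : Site) ∈ Sq E h T := by
      refine ⟨?_, ?_⟩ <;> rw [abs_le] <;> simp only <;> omega
    have m2 : (((cen E h T).1, y) : Site) ∈ Sq E h (T + 1) := by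
      refine ⟨?_, ?_⟩ <;> rw [abs_le] <;> simp only <;> omega
    constructor
    · rintro ⟨x, hx, hxr, hxV⟩
      exact ⟨_, m2, hy, (same_col hE hh hT1 hT2.le hS hx m1 hxr hy).1 hxV⟩
    · rintro ⟨x, hx, hxr, hxV⟩
      exact ⟨_, m1, hy, (same_col hE hh (by omega) (by omega) hS hx m2 hxr hy).1 hxV⟩
  by_cases hP : P (A + 2 * (h / 100))
  · left
    intro T hT1 hT2 x hx hxr
    have hPT : P T := (interval_iff hT1 fun i hi1 hi2 => hstep i hi1 (by omega)).1 hP
    obtain ⟨x', hx', hxr', hxV'⟩ := hPT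
    exact (same_col hE hh hT1 hT2 hS hx' hx hxr' hxr).1 hxV'
  · right
    intro T hT1 hT2 x hx hxr hxV
    apply hP
    exact (interval_iff hT1 fun i hi1 hi2 => hstep i hi1 (by omega)).2 ⟨x, hx, hxr, hxV⟩

/-- in the visited case the unvisited sites of the squares are in bad rows and bad columns -/
theorem bad_of_unvisited (hE : ∀ T T', E T ≤ E T' + 2 * |T - T'|) (hh : 10 ^ 6 ≤ h)
    (hS : 10000 * ((Se E A B h V).ncard : ℤ) ≤ h)
    (hm : ∀ T, A + 2 * (h / 100) ≤ T → T ≤ B - 2 * (h / 100) → ∀ x ∈ Sq E h T,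
      x.2 ∉ BR E A B h V → x ∈ V) {T : ℤ} (h1 : A + 2 * (h / 100) ≤ T)
    (h2 : T ≤ B - 2 * (h / 100)) {x : Site} (hx : x ∈ Sq E h T) (hxV : x ∉ V) :
    x.1 ∈ BC E A B h V ∧ x.2 ∈ BR E A B h V := by
  refine ⟨?_, by_contra fun hc => hxV (hm T h1 h2 x hx hc)⟩
  by_contra hc
  obtain ⟨y, hy1, hy2, hy⟩ := exists_good (BR_finite (A := A) (B := B) (h := h) (V := V) hE)
    (a := (cen E h T).2 - h / 100) (b := (cen E h T).2 + h / 100) (by
      have := BR_card (A := A) (B := B) (h := h) (V := V) hE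
      omega)
  have m1 : ((x.1, y) : Site) ∈ Sq E h T := ⟨hx.1, by rw [abs_le]; simp only; omega⟩
  exact hxV ((col_mono hE hh h1 h2 hc hx m1).2 (hm T h1 h2 _ m1 hy))

/-- the end parts of a strip -/
theorem end_card (A B ρ s₀ r : ℤ) (hs : 1 ≤ s₀) (hr : 0 ≤ r) :
    ({x : Site | ((A ≤ Ts x ∧ Ts x < A + 2 * r) ∨ (B - 2 * r < Ts x ∧ Ts x ≤ B)) ∧
      E (Ts x) + ρ ≤ gs x ∧ gs x < E (Ts x) + ρ + s₀}).Finite ∧
    (({x : Site | ((A ≤ Ts x ∧ Ts x < A + 2 * r) ∨ (B - 2 * r < Ts x ∧ Ts x ≤ B)) ∧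
      E (Ts x) + ρ ≤ gs x ∧ gs x < E (Ts x) + ρ + s₀}).ncard : ℤ) ≤ 4 * r * s₀ := by
  classical
  set S : Set Site := {x : Site | ((A ≤ Ts x ∧ Ts x < A + 2 * r) ∨
    (B - 2 * r < Ts x ∧ Ts x ≤ B)) ∧ E (Ts x) + ρ ≤ gs x ∧ gs x < E (Ts x) + ρ + s₀} with hSdef
  set F : Finset (ℤ × ℤ) := (Finset.Ico A (A + 2 * r) ∪ Finset.Ioc (B - 2 * r) B) ×ˢ
    Finset.Ico 0 s₀ with hF
  set φ : Site → ℤ × ℤ := fun x => (Ts x, gs x - E (Ts x) - ρ) with hφ
  have hinj : Function.Injective φ := by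
    intro x y hxy
    simp only [hφ, Prod.mk.injEq] at hxy
    obtain ⟨e1, e2⟩ := hxy
    rw [e1] at e2
    exact eq_of_Ts_gs e1 (by omega)
  have hsub : φ '' S ⊆ (F : Set (ℤ × ℤ)) := by
    rintro _ ⟨x, ⟨hx1, hx2, hx3⟩, rfl⟩
    rw [hF, Finset.mem_coe, Finset.mem_product, Finset.mem_union, Finset.mem_Ico, Finset.mem_Ioc,
      Finset.mem_Ico]
    exact ⟨hx1, by simp only [hφ]; omega, by simp only [hφ]; omega⟩
  have hfin : (φ '' S).Finite := F.finite_toSet.subset hsub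
  have hfin' : S.Finite := hfin.of_finite_image hinj.injOn
  refine ⟨hfin', ?_⟩
  have h1 : S.ncard = (φ '' S).ncard := (Set.ncard_image_of_injective _ hinj).symm
  have h2 : (φ '' S).ncard ≤ F.card := by
    rw [← Set.ncard_coe_finset]
    exact Set.ncard_le_ncard hsub F.finite_toSet
  have h3 : F.card ≤ ((Finset.Ico A (A + 2 * r)).card + (Finset.Ioc (B - 2 * r) B).card) *
      (Finset.Ico 0 s₀).card := by
    rw [hF, Finset.card_product]
    exact Nat.mul_le_mul_right _ (Finset.card_union_le _ _)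
  rw [Int.card_Ico, Int.card_Ioc, Int.card_Ico] at h3
  have h4 : (((A + 2 * r - A).toNat + (B - (B - 2 * r)).toNat) * (s₀ - 0).toNat : ℕ) =
      ((4 * r * s₀).toNat) := by
    have e1 : (A + 2 * r - A).toNat + (B - (B - 2 * r)).toNat = (4 * r).toNat := by omega
    rw [e1, sub_zero]
    exact (Int.toNat_mul (by omega) (by omega)).symm
  rw [h4] at h3
  have h5 : 0 ≤ 4 * r * s₀ := by positivity
  have h6 : S.ncard ≤ (4 * r * s₀).toNat := by omega
  calc (S.ncard : ℤ) ≤ ((4 * r * s₀).toNat : ℤ) := by exact_mod_cast h6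
    _ = 4 * r * s₀ := Int.toNat_of_nonneg h5

/-- the visited case -/
theorem case_visited (hE : ∀ T T', E T ≤ E T' + 2 * |T - T'|) {s₀ : ℤ} (hs : 1 ≤ s₀)
    (hh : 10 ^ 6 * s₀ ≤ h)
    (hS : 10000 * ((Se E A B h V).ncard : ℤ) ≤ h)
    (hm : ∀ T, A + 2 * (h / 100) ≤ T → T ≤ B - 2 * (h / 100) → ∀ x ∈ Sq E h T,
      x.2 ∉ BR E A B h V → x ∈ V) (R : Site → Prop) :
    ∃ ρ : ℤ, h ≤ 4 * ρ ∧ 2 * ρ ≤ h ∧
      ({x : Site | R x ∧ A ≤ Ts x ∧ Ts x ≤ B ∧
        E (Ts x) + ρ ≤ gs x ∧ gs x < E (Ts x) + ρ + s₀ ∧ x ∉ V}.ncard : ℤ) ≤ s₀ * h := by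
  classical
  have hh1 : 10 ^ 6 ≤ h := by omega
  set r : ℤ := h / 100 with hr
  set m : ℤ := 3 * h / 8 with hmdef
  set J : ℤ := r / s₀ with hJ
  have hrpos : 10 ^ 4 * s₀ ≤ r := by omega
  have hJ1 : J * s₀ ≤ r := Int.ediv_mul_le r (by omega)
  have hJ2 : r < (J + 1) * s₀ := Int.lt_ediv_add_one_mul_self r (by omega)
  have hJ3 : 10 ^ 4 ≤ J := by
    rw [hJ, Int.le_ediv_iff_mul_le (by omega)]
    exact hrpos
  have hBCf := BC_finite (A := A) (B := B) (h := h) (V := V) hE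
  have hBRf := BR_finite (A := A) (B := B) (h := h) (V := V) hE
  set F : Finset Site := hBCf.toFinset ×ˢ hBRf.toFinset with hF
  have hFcard : F.card ≤ (Se E A B h V).ncard * (Se E A B h V).ncard := by
    rw [hF, Finset.card_product]
    refine Nat.mul_le_mul ?_ ?_
    · rw [← Set.ncard_eq_toFinset_card _ hBCf]
      exact BC_card hE
    · rw [← Set.ncard_eq_toFinset_card _ hBRf]
      exact BR_card hE
  set f : Site → ℤ := fun x => (gs x - E (Ts x) - m) / s₀ with hf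
  set n : ℕ := (s₀ * h / 2).toNat with hn
  have hn' : (n : ℤ) = s₀ * h / 2 := Int.toNat_of_nonneg (by positivity)
  have htne : (Finset.Ico (0 : ℤ) J).Nonempty := ⟨0, by rw [Finset.mem_Ico]; omega⟩
  have hcard : F.card ≤ (Finset.Ico (0 : ℤ) J).card * n := by
    rw [Int.card_Ico, sub_zero]
    have e1 : ((J.toNat : ℕ) : ℤ) = J := Int.toNat_of_nonneg (by omega)
    have : (F.card : ℤ) ≤ (J.toNat : ℤ) * (n : ℤ) := by
      rw [e1, hn']
      set e : ℤ := ((Se E A B h V).ncard : ℤ) with he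
      have e0 : 0 ≤ e := by positivity
      have e2 : (F.card : ℤ) ≤ e * e := by rw [he]; exact_mod_cast hFcard
      have e3 : e * e ≤ e * h := by nlinarith
      -- `J * (s₀ h / 2) ≥ (J s₀) (h / 2) - J ≥ ...`
      have e4 : s₀ * h - 1 ≤ 2 * (s₀ * h / 2) := by omega
      have e5 : r ≤ 2 * (J * s₀) := by nlinarith
      have e6 : J * (s₀ * h - 1) ≤ 2 * (J * (s₀ * h / 2)) := by nlinarith
      have e7 : J ≤ J * s₀ := by nlinarith
      -- 4 * J * (..) ≥ 2 J s₀ h - 2 J ≥ r h - 2 J s₀ ...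
      have e8 : r * h ≤ 2 * (J * s₀) * h := mul_le_mul_of_nonneg_right e5 (by omega)
      have e9 : 100 * r ≥ h - 100 := by omega
      have e10 : (h - 100) * h ≤ 100 * (r * h) := by nlinarith
      have e11 : 10000 * (e * h) ≤ h * h := by nlinarith
      nlinarith
    exact_mod_cast this
  obtain ⟨j, hj, hjn⟩ := Finset.exists_card_fiber_le_of_card_le_mul (f := f) htne hcard
  rw [Finset.mem_Ico] at hj
  have hj1 : 0 ≤ j * s₀ := mul_nonneg hj.1 (by omega)
  have hj2 : j * s₀ + s₀ ≤ J * s₀ := by nlinarith [hj.2]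
  refine ⟨m + j * s₀, by omega, by omega, ?_⟩
  obtain ⟨hfinE, hcardE⟩ := end_card (E := E) A B (m + j * s₀) s₀ r hs (by omega)
  set SE : Set Site := {x : Site | ((A ≤ Ts x ∧ Ts x < A + 2 * r) ∨
    (B - 2 * r < Ts x ∧ Ts x ≤ B)) ∧ E (Ts x) + (m + j * s₀) ≤ gs x ∧
      gs x < E (Ts x) + (m + j * s₀) + s₀} with hSE
  have hsub : {x : Site | R x ∧ A ≤ Ts x ∧ Ts x ≤ B ∧
        E (Ts x) + (m + j * s₀) ≤ gs x ∧ gs x < E (Ts x) + (m + j * s₀) + s₀ ∧ x ∉ V} ⊆
      ((F.filter fun x => f x = j : Finset Site) : Set Site) ∪ SE := by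
    rintro x ⟨_, hx1, hx2, hx3, hx4, hxV⟩
    by_cases hmid : A + 2 * r ≤ Ts x ∧ Ts x ≤ B - 2 * r
    · left
      have hxSq : x ∈ Sq E h (Ts x) := by
        obtain ⟨c1, c2⟩ := cen_sum E h (Ts x)
        have g1 : cg E h (Ts x) = E (Ts x) + 3 * h / 8 + (Ts x + E (Ts x) + 3 * h / 8) % 2 := rfl
        have g2 : x.1 + x.2 = Ts x := rfl
        have g3 : x.1 - x.2 = gs x := rfl
        refine ⟨?_, ?_⟩ <;> rw [abs_le] <;> omega
      obtain ⟨b1, b2⟩ := bad_of_unvisited hE hh1 hS hm hmid.1 hmid.2 hxSq hxV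
      rw [Finset.mem_coe, Finset.mem_filter, hF, Finset.mem_product]
      refine ⟨⟨hBCf.mem_toFinset.2 b1, hBRf.mem_toFinset.2 b2⟩, ?_⟩
      simp only [hf]
      have : (gs x - E (Ts x) - m) / s₀ = j := by
        rw [Int.ediv_eq_iff_of_pos (by omega)]
        constructor
        · linarith
        · linarith
      exact this
    · right
      refine ⟨?_, hx3, hx4⟩
      omega
  have h1 := Set.ncard_le_ncard hsub ((Finset.finite_toSet _).union hfinE)
  have h2 := Set.ncard_union_le ((F.filter fun x => f x = j : Finset Site) : Set Site) SE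
  rw [Set.ncard_coe_finset] at h2
  have h3 : (((F.filter fun x => f x = j).card : ℕ) : ℤ) ≤ s₀ * h / 2 := by
    rw [← hn']
    exact_mod_cast hjn
  have h4 : 4 * r * s₀ ≤ s₀ * h / 2 := by
    rw [Int.le_ediv_iff_mul_le (by norm_num)]
    have : 100 * r ≤ h := by omega
    nlinarith
  have h5 : 2 * (s₀ * h / 2) ≤ s₀ * h := by omega
  calc (({x : Site | R x ∧ A ≤ Ts x ∧ Ts x ≤ B ∧
        E (Ts x) + (m + j * s₀) ≤ gs x ∧ gs x < E (Ts x) + (m + j * s₀) + s₀ ∧
          x ∉ V}).ncard : ℤ)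
      ≤ (((F.filter fun x => f x = j).card + SE.ncard : ℕ) : ℤ) := by
        exact_mod_cast h1.trans h2
    _ ≤ s₀ * h := by push_cast; linarith

end

/-- the unvisited case: an edge for every level -/
theorem exists_edge {L : ℕ} {v : Site} {γ : List Site} (hγ : TilePath L v γ) {h : ℤ}
    (hh : 10 ^ 6 ≤ h) (V : Set Site)
    (hV : ∀ s ∈ steps γ, inn s.1 s.2 ∈ Cz γ h → inn s.1 s.2 ∈ V)
    (hE : ∀ T T', env γ T ≤ env γ T' + 2 * |T - T'|)
    (hS : 10000 * ((Se (env γ) (Tfst γ + 8 * h) (Tlst γ - 8 * h) h V).ncard : ℤ) ≤ h)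
    (hm : ∀ T, Tfst γ + 8 * h + 2 * (h / 100) ≤ T → T ≤ Tlst γ - 8 * h - 2 * (h / 100) →
      ∀ x ∈ Sq (env γ) h T, x.2 ∉ BR (env γ) (Tfst γ + 8 * h) (Tlst γ - 8 * h) h V → x ∉ V)
    {T : ℤ} (h1 : Tfst γ + 8 * h + 2 * (h / 100) ≤ T)
    (h2 : T < Tlst γ - 8 * h - 2 * (h / 100)) :
    ∃ g : ℤ, zz T g ∈ V ∧ zz T (g + 1) ∉ V ∧ zz T g ∈ Cz γ h ∧ zz T (g + 1) ∈ Cz γ h := by
  obtain ⟨g₀, ⟨s, hs, hinn⟩, hR, hg₀⟩ := exists_top hγ (T := T) (by omega) (by omega)
  obtain ⟨y, hy1, hy2, hy⟩ := exists_good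
    (BR_finite (A := Tfst γ + 8 * h) (B := Tlst γ - 8 * h) (h := h) (V := V) hE)
    (a := (cen (env γ) h T).2 - h / 100 + 1) (b := (cen (env γ) h T).2 + h / 100 - 1) (by
      have := BR_card (A := Tfst γ + 8 * h) (B := Tlst γ - 8 * h) (h := h) (V := V) hE
      omega)
  obtain ⟨c1, c2⟩ := cen_sum (env γ) h T
  have g1 : cg (env γ) h T = env γ T + 3 * h / 8 + (T + env γ T + 3 * h / 8) % 2 := rfl
  have hz : zz T (T - 2 * y) = (T - y, y) := by
    unfold zz
    exact Prod.ext (by simp only; omega) (by simp only; omega)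
  have hzSq : zz T (T - 2 * y) ∈ Sq (env γ) h T := by
    rw [hz]
    refine ⟨?_, ?_⟩ <;> rw [abs_le] <;> simp only <;> omega
  have hzV : zz T (T - 2 * y) ∉ V := hm T h1 h2.le _ hzSq (by rw [hz]; exact hy)
  have hl1 := hE T (T + 1)
  have a1 : |T - (T + 1)| = 1 := by
    rw [show T - (T + 1) = -1 by ring]
    rfl
  rw [a1] at hl1
  have hCz : ∀ g, g₀ ≤ g → g ≤ T - 2 * y → zz T g ∈ Cz γ h := by
    intro g hg1 hg2
    refine ⟨hR g hg1, ?_⟩
    rw [Ts_zz, gs_zz]
    rcases Int.emod_two_eq_zero_or_one (T + g) with hp | hp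
    · rw [hp, add_zero]
      omega
    · rw [hp]
      omega
  have hlt : g₀ < T - 2 * y := by omega
  have hV0 : zz T g₀ ∈ V := by
    rw [← hinn]
    exact hV s hs (by rw [hinn]; exact hCz g₀ le_rfl hlt.le)
  by_contra hcon
  push Not at hcon
  have key : ∀ k : ℕ, g₀ + k ≤ T - 2 * y → zz T (g₀ + k) ∈ V := by
    intro k
    induction k with
    | zero => intro _; simpa using hV0
    | succ k ih =>
      intro hk
      push_cast at hk ⊢
      have i1 := ih (by omega)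
      by_contra hc
      refine hcon (g₀ + k) i1 (by rw [add_assoc]; exact hc) (hCz _ (by omega) (by omega)) ?_
      exact hCz _ (by omega) (by omega)
  have := key (T - 2 * y - g₀).toNat (by omega)
  rw [show g₀ + (((T - 2 * y - g₀).toNat : ℕ) : ℤ) = T - 2 * y by omega] at this
  exact hzV this

end GBand

open GBand in
/-- **G6.**  Band dichotomy. -/
theorem band_dichotomy {L : ℕ} {v : Site} {γ : List Site} (hγ : TilePath L v γ) {h s₀ : ℤ}
    (hs : 1 ≤ s₀) (hh : 10 ^ 6 * s₀ ≤ h) (hhL : 1000 * h ≤ L) (V : Set Site)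
    (hV : ∀ s ∈ steps γ, inn s.1 s.2 ∈ Cz γ h → inn s.1 s.2 ∈ V)
    (hE : 10000 * ({q : Site × Site | Adj q.1 q.2 ∧ q.1 ∈ V ∧ q.2 ∉ V ∧
      (∀ x ∈ ({q.1, q.2} : Set Site), Tfst γ + 8 * h ≤ Ts x ∧ Ts x ≤ Tlst γ - 8 * h ∧
        env γ (Ts x) * 4 + h ≤ 4 * gs x ∧ 2 * gs x ≤ 2 * env γ (Ts x) + h)}.ncard : ℤ) ≤ h) :
    (∃ ρ : ℤ, h ≤ 4 * ρ ∧ 2 * ρ ≤ h ∧
      ({x : Site | rightOf γ x ∧ Tfst γ + 8 * h ≤ Ts x ∧ Ts x ≤ Tlst γ - 8 * h ∧
        env γ (Ts x) + ρ ≤ gs x ∧ gs x < env γ (Ts x) + ρ + s₀ ∧ x ∉ V}.ncard : ℤ) ≤ s₀ * h) ∨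
    (L : ℤ) ≤ 8 * ({q : Site × Site | Adj q.1 q.2 ∧ q.1 ∈ V ∧ q.2 ∉ V ∧ q.1 ∈ Cz γ h ∧
      q.2 ∈ Cz γ h}.ncard : ℤ) := by
  classical
  have hh1 : 10 ^ 6 ≤ h := by omega
  have hlip : ∀ T T', env γ T ≤ env γ T' + 2 * |T - T'| := env_lip (tile_ne hγ)
  have hset : {q : Site × Site | Adj q.1 q.2 ∧ q.1 ∈ V ∧ q.2 ∉ V ∧
      (∀ x ∈ ({q.1, q.2} : Set Site), Tfst γ + 8 * h ≤ Ts x ∧ Ts x ≤ Tlst γ - 8 * h ∧
        env γ (Ts x) * 4 + h ≤ 4 * gs x ∧ 2 * gs x ≤ 2 * env γ (Ts x) + h)} =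
      Se (env γ) (Tfst γ + 8 * h) (Tlst γ - 8 * h) h V := by
    ext q
    constructor
    · rintro ⟨q1, q2, q3, q4⟩
      exact ⟨q1, q2, q3, q4 q.1 (by simp), q4 q.2 (by simp)⟩
    · rintro ⟨q1, q2, q3, q4, q5⟩
      refine ⟨q1, q2, q3, ?_⟩
      intro x hx
      rcases hx with rfl | hx
      · exact q4
      · rw [Set.mem_singleton_iff.1 hx]
        exact q5
  rw [hset] at hE
  rcases mono hlip hh1 hE with hm | hm
  · left
    exact case_visited hlip hs hh hE hm _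
  · right
    set A' : ℤ := Tfst γ + 8 * h + 2 * (h / 100) with hA'
    set B' : ℤ := Tlst γ - 8 * h - 2 * (h / 100) with hB'
    have hex := fun T (h1 : A' ≤ T) (h2 : T < B') => exists_edge hγ hh1 V hV hlip hE hm h1 h2
    choose! g hg using hex
    set S : Set (Site × Site) := {q : Site × Site | Adj q.1 q.2 ∧ q.1 ∈ V ∧ q.2 ∉ V ∧
      q.1 ∈ Cz γ h ∧ q.2 ∈ Cz γ h} with hSdef
    have hSfin : S.Finite := (((Cz_finite hγ (by omega : 1 ≤ h)).prod
      (Cz_finite hγ (by omega : 1 ≤ h)))).subset fun _ hq => ⟨hq.2.2.2.1, hq.2.2.2.2⟩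
    set φ : ℤ → Site × Site := fun T => (zz T (g T), zz T (g T + 1)) with hφ
    have hinj : Function.Injective φ := by
      intro T T' hTT
      have e1 : min (Ts (φ T).1) (Ts (φ T).2) = T := by
        simp only [hφ, Ts_zz]
        omega
      have e2 : min (Ts (φ T').1) (Ts (φ T').2) = T' := by
        simp only [hφ, Ts_zz]
        omega
      rw [← e1, hTT, e2]
    have hsub : φ '' ((Finset.Ico A' B' : Finset ℤ) : Set ℤ) ⊆ S := by
      rintro _ ⟨T, hT, rfl⟩
      rw [Finset.mem_coe, Finset.mem_Ico] at hT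
      obtain ⟨k1, k2, k3, k4⟩ := hg T hT.1 hT.2
      exact ⟨adj_zz T (g T), k1, k2, k3, k4⟩
    have h1 := Set.ncard_le_ncard hsub hSfin
    rw [Set.ncard_image_of_injective _ hinj, Set.ncard_coe_finset, Int.card_Ico] at h1
    have h2 := hγ.low
    have h3 := hγ.len.1
    have h4 : (L : ℤ) + 1 ≤ (γ.length : ℤ) := by exact_mod_cast h3
    omega

end Pool.Agent.WSB71
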