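import Mathlib

/-!
# G3: blocks

`φ i = 8 (number of flags in [a, i)) - (i - a)`; a point is regular if and only if it is a minimum of
`φ` on `[a, s]` and a maximum of `φ` on `[s, b]`.  Rising sun lemma: the number of points of
`[u, w)` which are not the maximum of `φ` on `[t, w]` is at most `φ w - φ u + (w - u)`, which is
`8` times the number of flags.
-/

namespace Pool.Agent.WSB71

/-- Number of flagged indices in `[i, j)`. -/
noncomputable def nfl (F : Set ℤ) (i j : ℤ) : ℕ := (F ∩ Set.Ico i j).ncard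

/-- `s` is regular in `[a, b]` for the flags `F`: every window starting or ending at `s` has at
most one eighth of flags. -/
def RegPt (F : Set ℤ) (a b s : ℤ) : Prop :=
  (∀ i, s ≤ i → i ≤ b → 8 * (nfl F s i : ℤ) ≤ i - s) ∧
  (∀ i, a ≤ i → i ≤ s → 8 * (nfl F i s : ℤ) ≤ s - i)

namespace GBlocks

open Classical in
/-- the rising sun lemma -/
theorem rising (φ : ℤ → ℤ) (hφ : ∀ i, φ (i + 1) = φ i + 7 ∨ φ (i + 1) = φ i - 1) (w : ℤ) (n : ℕ) :
    ∃ d : ℤ, 0 ≤ d ∧ (∃ j, w - n ≤ j ∧ j ≤ w ∧ φ j = φ (w - n) + d) ∧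
      (∀ j, w - n ≤ j → j ≤ w → φ j ≤ φ (w - n) + d) ∧
      (((Finset.Ico (w - n) w).filter (fun t => ∃ j, t < j ∧ j ≤ w ∧ φ t < φ j)).card : ℤ) + d
        ≤ φ w - φ (w - n) + n := by
  induction n with
  | zero =>
    refine ⟨0, le_rfl, ⟨w, by simp, le_rfl, by simp⟩, fun j h1 h2 => ?_, by simp⟩
    have : j = w := by push_cast at h1; omega
    rw [this]; simp
  | succ n ih =>
    obtain ⟨d, hd0, ⟨j0, hj1, hj2, hj3⟩, hmax, hcard⟩ := ih
    have hsplit : Finset.Ico (w - ((n + 1 : ℕ) : ℤ)) w =
        insert (w - ((n + 1 : ℕ) : ℤ)) (Finset.Ico (w - n) w) := by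
      ext t
      simp only [Finset.mem_Ico, Finset.mem_insert]
      push_cast
      omega
    have hnot : w - ((n + 1 : ℕ) : ℤ) ∉ Finset.Ico (w - n) w := by
      simp only [Finset.mem_Ico]; push_cast; omega
    set s := w - ((n + 1 : ℕ) : ℤ) with hs
    have hs1 : w - n = s + 1 := by rw [hs]; push_cast; ring
    rw [hs1] at hj1 hj3 hmax hcard hsplit hnot
    have hcs : (((Finset.Ico s w).filter (fun t => ∃ j, t < j ∧ j ≤ w ∧ φ t < φ j)).card : ℤ) =
        (((Finset.Ico (s + 1) w).filter (fun t => ∃ j, t < j ∧ j ≤ w ∧ φ t < φ j)).card : ℤ) +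
          (if ∃ j, s < j ∧ j ≤ w ∧ φ s < φ j then 1 else 0) := by
      rw [hsplit, Finset.filter_insert]
      split_ifs with h
      · rw [Finset.card_insert_of_notMem (fun hh => hnot (Finset.mem_of_mem_filter _ hh))]
        push_cast; ring
      · ring
    rcases hφ s with h7 | h7
    · refine ⟨d + 7, by omega, ⟨j0, by omega, hj2, by omega⟩, fun j h1 h2 => ?_, ?_⟩
      · rcases eq_or_lt_of_le h1 with h | h
        · rw [← h]; omega
        · have := hmax j (by omega) h2
          omega
      · rw [hcs]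
        have : (if ∃ j, s < j ∧ j ≤ w ∧ φ s < φ j then (1 : ℤ) else 0) ≤ 1 := by
          split_ifs <;> norm_num
        push_cast
        omega
    · by_cases hd : 2 ≤ d
      · refine ⟨d - 1, by omega, ⟨j0, by omega, hj2, by omega⟩, fun j h1 h2 => ?_, ?_⟩
        · rcases eq_or_lt_of_le h1 with h | h
          · rw [← h]; omega
          · have := hmax j (by omega) h2
            omega
        · rw [hcs]
          have : (if ∃ j, s < j ∧ j ≤ w ∧ φ s < φ j then (1 : ℤ) else 0) ≤ 1 := by
            split_ifs <;> norm_num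
          push_cast
          omega
      · have hno : ¬ ∃ j, s < j ∧ j ≤ w ∧ φ s < φ j := by
          rintro ⟨j, h1, h2, h3⟩
          have := hmax j (by omega) h2
          omega
        rw [if_neg hno] at hcs
        refine ⟨0, le_rfl, ⟨s, le_rfl, by rw [hs]; push_cast; omega, by ring⟩, fun j h1 h2 => ?_, ?_⟩
        · rcases eq_or_lt_of_le h1 with h | h
          · rw [← h]; omega
          · by_contra hcon
            exact hno ⟨j, h, h2, by omega⟩
        · rw [hcs]
          push_cast
          omega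

open Classical in
theorem rising' (φ : ℤ → ℤ) (hφ : ∀ i, φ (i + 1) = φ i + 7 ∨ φ (i + 1) = φ i - 1) {u w : ℤ}
    (huw : u ≤ w) :
    (((Finset.Ico u w).filter (fun t => ∃ j, t < j ∧ j ≤ w ∧ φ t < φ j)).card : ℤ)
        ≤ φ w - φ u + (w - u) := by
  obtain ⟨d, hd, -, -, h⟩ := rising φ hφ w (w - u).toNat
  have e1 : ((w - u).toNat : ℤ) = w - u := Int.toNat_of_nonneg (by omega)
  rw [e1] at h
  have e2 : w - (w - u) = u := by ring
  rw [e2] at h
  omega

open Classical in
theorem rising'' (φ : ℤ → ℤ) (hφ : ∀ i, φ (i + 1) = φ i + 7 ∨ φ (i + 1) = φ i - 1) {u w : ℤ}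
    (huw : u ≤ w) :
    (((Finset.Ioc u w).filter (fun t => ∃ i, u ≤ i ∧ i < t ∧ φ i < φ t)).card : ℤ)
        ≤ φ w - φ u + (w - u) := by
  have hψ : ∀ i, (fun i => -φ (-i)) (i + 1) = (fun i => -φ (-i)) i + 7 ∨
      (fun i => -φ (-i)) (i + 1) = (fun i => -φ (-i)) i - 1 := by
    intro i
    have h := hφ (-i - 1)
    have e : -i - 1 + 1 = -i := by ring
    rw [e] at h
    have e2 : -(i + 1) = -i - 1 := by ring
    show -φ (-(i + 1)) = -φ (-i) + 7 ∨ -φ (-(i + 1)) = -φ (-i) - 1
    rw [e2]
    omega
  have h := rising' (fun i => -φ (-i)) hψ (u := -w) (w := -u) (by omega)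
  have hc : ((Finset.Ioc u w).filter (fun t => ∃ i, u ≤ i ∧ i < t ∧ φ i < φ t)).card ≤
      ((Finset.Ico (-w) (-u)).filter (fun t => ∃ j, t < j ∧ j ≤ -u ∧
        (fun i => -φ (-i)) t < (fun i => -φ (-i)) j)).card := by
    refine Finset.card_le_card_of_injOn (fun t => -t) ?_ (fun x _ y _ hxy => by simpa using hxy)
    intro t ht
    simp only [Finset.coe_filter, Finset.mem_Ioc, Set.mem_ofPred_eq] at ht
    obtain ⟨⟨h1, h2⟩, i, hi1, hi2, hi3⟩ := ht
    simp only [Finset.coe_filter, Finset.mem_Ico, Set.mem_ofPred_eq]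
    refine ⟨⟨by omega, by omega⟩, -i, by omega, by omega, ?_⟩
    rw [neg_neg, neg_neg]
    omega
  have hc' : (((Finset.Ioc u w).filter (fun t => ∃ i, u ≤ i ∧ i < t ∧ φ i < φ t)).card : ℤ) ≤
      (((Finset.Ico (-w) (-u)).filter (fun t => ∃ j, t < j ∧ j ≤ -u ∧
        (fun i => -φ (-i)) t < (fun i => -φ (-i)) j)).card : ℤ) := by exact_mod_cast hc
  refine hc'.trans (h.trans ?_)
  simp only [neg_neg]
  omega

/-! ### flags -/

theorem nfl_self (F : Set ℤ) (i : ℤ) : nfl F i i = 0 := by simp [nfl]

open Classical in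
theorem nfl_succ (F : Set ℤ) {i j : ℤ} (h : i ≤ j) :
    (nfl F i (j + 1) : ℤ) = nfl F i j + (if j ∈ F then 1 else 0) := by
  have hfin : (F ∩ Set.Ico i j).Finite := (Set.finite_Ico i j).subset Set.inter_subset_right
  unfold nfl
  split_ifs with hj
  · have e : F ∩ Set.Ico i (j + 1) = insert j (F ∩ Set.Ico i j) := by
      ext t
      simp only [Set.mem_inter_iff, Set.mem_Ico, Set.mem_insert_iff]
      constructor
      · rintro ⟨h1, h2, h3⟩
        by_cases ht : t = j
        · exact Or.inl ht
        · exact Or.inr ⟨h1, h2, by omega⟩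
      · rintro (rfl | ⟨h1, h2, h3⟩)
        · exact ⟨hj, h, by omega⟩
        · exact ⟨h1, h2, by omega⟩
    rw [e, Set.ncard_insert_of_notMem (by simp) hfin]
    push_cast; ring
  · have e : F ∩ Set.Ico i (j + 1) = F ∩ Set.Ico i j := by
      ext t
      simp only [Set.mem_inter_iff, Set.mem_Ico]
      constructor
      · rintro ⟨h1, h2, h3⟩
        refine ⟨h1, h2, ?_⟩
        rcases eq_or_ne t j with rfl | hne
        · exact absurd h1 hj
        · omega
      · rintro ⟨h1, h2, h3⟩
        exact ⟨h1, h2, by omega⟩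
    rw [e]; ring

open Classical in
theorem nfl_pred (F : Set ℤ) {i j : ℤ} (h : i < j) :
    (nfl F i j : ℤ) = nfl F (i + 1) j + (if i ∈ F then 1 else 0) := by
  have hfin : (F ∩ Set.Ico (i + 1) j).Finite := (Set.finite_Ico _ j).subset Set.inter_subset_right
  unfold nfl
  split_ifs with hj
  · have e : F ∩ Set.Ico i j = insert i (F ∩ Set.Ico (i + 1) j) := by
      ext t
      simp only [Set.mem_inter_iff, Set.mem_Ico, Set.mem_insert_iff]
      constructor
      · rintro ⟨h1, h2, h3⟩
        by_cases ht : t = i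
        · exact Or.inl ht
        · exact Or.inr ⟨h1, by omega, h3⟩
      · rintro (rfl | ⟨h1, h2, h3⟩)
        · exact ⟨hj, le_rfl, h⟩
        · exact ⟨h1, by omega, h3⟩
    rw [e, Set.ncard_insert_of_notMem (by simp) hfin]
    push_cast; ring
  · have e : F ∩ Set.Ico i j = F ∩ Set.Ico (i + 1) j := by
      ext t
      simp only [Set.mem_inter_iff, Set.mem_Ico]
      constructor
      · rintro ⟨h1, h2, h3⟩
        refine ⟨h1, ?_, h3⟩
        rcases eq_or_ne t i with rfl | hne
        · exact absurd h1 hj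
        · omega
      · rintro ⟨h1, h2, h3⟩
        exact ⟨h1, by omega, h3⟩
    rw [e]; ring

theorem nfl_rev (F : Set ℤ) {i j : ℤ} (h : j ≤ i) : nfl F i j = 0 := by
  unfold nfl
  rw [Set.Ico_eq_empty (by omega)]
  simp

/-- the height function -/
noncomputable def hgt (F : Set ℤ) (a i : ℤ) : ℤ := 8 * ((nfl F a i : ℤ) - nfl F i a) - (i - a)

theorem hgt_step (F : Set ℤ) (a i : ℤ) :
    hgt F a (i + 1) = hgt F a i + 7 ∨ hgt F a (i + 1) = hgt F a i - 1 := by
  classical
  unfold hgt
  by_cases hi : i ∈ F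
  · left
    rcases le_or_gt a i with h | h
    · have h1 := nfl_succ F h
      rw [if_pos hi] at h1
      rw [h1, nfl_rev F h, nfl_rev F (show a ≤ i + 1 by omega)]
      push_cast; ring
    · have h1 := nfl_pred F h
      rw [if_pos hi] at h1
      rw [h1, nfl_rev F (show i ≤ a by omega), nfl_rev F (show i + 1 ≤ a by omega)]
      push_cast; ring
  · right
    rcases le_or_gt a i with h | h
    · have h1 := nfl_succ F h
      rw [if_neg hi] at h1
      rw [h1, nfl_rev F h, nfl_rev F (show a ≤ i + 1 by omega)]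
      push_cast; ring
    · have h1 := nfl_pred F h
      rw [if_neg hi] at h1
      rw [h1, nfl_rev F (show i ≤ a by omega), nfl_rev F (show i + 1 ≤ a by omega)]
      push_cast; ring

theorem nfl_eq (F : Set ℤ) (a : ℤ) {s i : ℤ} (ha : a ≤ s) (h : s ≤ i) :
    8 * (nfl F s i : ℤ) = hgt F a i - hgt F a s + (i - s) := by
  classical
  have key : ∀ n : ℕ, 8 * (nfl F s (s + n) : ℤ) = hgt F a (s + n) - hgt F a s + n := by
    intro n
    induction n with
    | zero => simp [nfl_self]
    | succ n ih =>
      have e : s + ((n + 1 : ℕ) : ℤ) = s + n + 1 := by push_cast; ring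
      rw [e, nfl_succ F (show s ≤ s + n by omega)]
      have h2 : hgt F a (s + n + 1) = hgt F a (s + n) + (8 * (if s + (n : ℤ) ∈ F then 1 else 0) - 1) := by
        unfold hgt
        rw [nfl_succ F (show a ≤ s + n by omega), nfl_rev F (show a ≤ s + n by omega),
          nfl_rev F (show a ≤ s + n + 1 by omega)]
        push_cast; ring
      rw [h2]
      push_cast
      linarith
  have := key (i - s).toNat
  have e1 : ((i - s).toNat : ℤ) = i - s := Int.toNat_of_nonneg (by omega)
  rw [e1] at this
  have e2 : s + (i - s) = i := by ring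
  rw [e2] at this
  exact this

theorem regPt_iff {F : Set ℤ} {a b s : ℤ} (ha : a ≤ s) : RegPt F a b s ↔
    (∀ i, s ≤ i → i ≤ b → hgt F a i ≤ hgt F a s) ∧
    (∀ i, a ≤ i → i ≤ s → hgt F a s ≤ hgt F a i) := by
  constructor
  · rintro ⟨h1, h2⟩
    refine ⟨fun i hi hb => ?_, fun i hi hb => ?_⟩
    · have := h1 i hi hb
      rw [nfl_eq F a ha hi] at this
      omega
    · have := h2 i hi hb
      rw [nfl_eq F a hi hb] at this
      omega
  · rintro ⟨h1, h2⟩
    refine ⟨fun i hi hb => ?_, fun i hi hb => ?_⟩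
    · have := h1 i hi hb
      rw [nfl_eq F a ha hi]
      omega
    · have := h2 i hi hb
      rw [nfl_eq F a hi hb]
      omega

/-- a gap without regular points -/
theorem gap {F : Set ℤ} {a b u w : ℤ} (hau : a ≤ u) (huw : u < w) (hwb : w ≤ b)
    (hu : u = a ∨ RegPt F a b u) (hw : w = b ∨ RegPt F a b w)
    (hno : ∀ s, u < s → s < w → ¬ RegPt F a b s) :
    w - u ≤ 16 * (nfl F u w : ℤ) + 1 ∧ (¬ RegPt F a b u → w - u ≤ 16 * (nfl F u w : ℤ)) := by
  classical
  set φ := hgt F a with hφd
  have hφ := hgt_step F a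
  have h1 := rising' φ hφ huw.le
  have h2 := rising'' φ hφ huw.le
  have h3 : 8 * (nfl F u w : ℤ) = φ w - φ u + (w - u) := nfl_eq F a hau huw.le
  set N1 := (Finset.Ico u w).filter (fun t => ∃ j, t < j ∧ j ≤ w ∧ φ t < φ j) with hN1
  set N2 := (Finset.Ioc u w).filter (fun t => ∃ i, u ≤ i ∧ i < t ∧ φ i < φ t) with hN2
  -- every irregular point of `[u, w)` is in one of the two sets
  have hbad : ∀ s, u ≤ s → s < w → ¬ RegPt F a b s → s ∈ N1 ∪ N2 := by
    intro s hs1 hs2 hs3
    rw [regPt_iff (by omega)] at hs3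
    by_cases hA : ∀ i, s ≤ i → i ≤ b → hgt F a i ≤ hgt F a s
    · have hB : ¬ ∀ i, a ≤ i → i ≤ s → hgt F a s ≤ hgt F a i := fun h => hs3 ⟨hA, h⟩
      push Not at hB
      obtain ⟨i, hi1, hi2, hi3⟩ := hB
      refine Finset.mem_union_right _ ?_
      have hus : u < s := by
        rcases eq_or_lt_of_le hs1 with h | h
        · exfalso
          rcases hu with hu | hu
          · have : i = s := by omega
            rw [this] at hi3; omega
          · rw [regPt_iff hau] at hu
            have := hu.2 i hi1 (by omega)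
            rw [← h] at hi3
            omega
        · exact h
      rw [hN2, Finset.mem_filter, Finset.mem_Ioc]
      refine ⟨⟨hus, hs2.le⟩, ?_⟩
      by_cases hiu : u ≤ i
      · refine ⟨i, hiu, ?_, hi3⟩
        rcases eq_or_lt_of_le hi2 with h | h
        · rw [h] at hi3; omega
        · exact h
      · rcases hu with hu | hu
        · omega
        · rw [regPt_iff hau] at hu
          have := hu.2 i hi1 (by omega)
          exact ⟨u, le_rfl, hus, by rw [hφd]; omega⟩
    · push Not at hA
      obtain ⟨i, hi1, hi2, hi3⟩ := hA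
      refine Finset.mem_union_left _ ?_
      rw [hN1, Finset.mem_filter, Finset.mem_Ico]
      refine ⟨⟨hs1, hs2⟩, ?_⟩
      by_cases hiw : i ≤ w
      · refine ⟨i, ?_, hiw, hi3⟩
        rcases eq_or_lt_of_le hi1 with h | h
        · rw [← h] at hi3; omega
        · exact h
      · rcases hw with hw | hw
        · omega
        · rw [regPt_iff (by omega)] at hw
          have := hw.1 i (by omega) hi2
          exact ⟨w, hs2, le_rfl, by rw [hφd]; omega⟩
  have hcu : ((N1 ∪ N2).card : ℤ) ≤ 16 * (nfl F u w : ℤ) := by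
    have := Finset.card_union_le N1 N2
    have h5 : ((N1 ∪ N2).card : ℤ) ≤ N1.card + N2.card := by exact_mod_cast this
    omega
  constructor
  · have hsub : Finset.Ioo u w ⊆ N1 ∪ N2 := by
      intro s hs
      rw [Finset.mem_Ioo] at hs
      exact hbad s hs.1.le hs.2 (hno s hs.1 hs.2)
    have := Finset.card_le_card hsub
    rw [Int.card_Ioo] at this
    omega
  · intro hur
    have hsub : Finset.Ico u w ⊆ N1 ∪ N2 := by
      intro s hs
      rw [Finset.mem_Ico] at hs
      rcases eq_or_lt_of_le hs.1 with h | h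
      · rw [← h]; exact hbad u le_rfl huw hur
      · exact hbad s hs.1 hs.2 (hno s h hs.2)
    have := Finset.card_le_card hsub
    rw [Int.card_Ico] at this
    omega

theorem nfl_mono (F : Set ℤ) {s u w : ℤ} (h : s ≤ u) : (nfl F u w : ℤ) ≤ nfl F s w := by
  have hfin : (F ∩ Set.Ico s w).Finite := (Set.finite_Ico s w).subset Set.inter_subset_right
  have : nfl F u w ≤ nfl F s w :=
    Set.ncard_le_ncard (Set.inter_subset_inter_right _ (Set.Ico_subset_Ico_left h)) hfin
  exact_mod_cast this

/-- a long gap after a regular point -/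
theorem long_gap {F : Set ℤ} {a b s w : ℤ} {L : ℤ} (hL : 1 ≤ L) (has : a ≤ s)
    (hs : RegPt F a b s) (hsw : s + 2 * L < w) (hwb : w ≤ b) (hw : w = b ∨ RegPt F a b w)
    (hno : ∀ t, s + L ≤ t → t < w → ¬ RegPt F a b t) :
    w - s ≤ 100 * (nfl F s w : ℤ) := by
  -- the last regular point before `s + L`
  have hex : ∃ u, (s ≤ u ∧ u < s + L ∧ RegPt F a b u) ∧
      ∀ z, (s ≤ z ∧ z < s + L ∧ RegPt F a b z) → z ≤ u := by
    have hb : ∃ b' : ℤ, ∀ z, (s ≤ z ∧ z < s + L ∧ RegPt F a b z) → z ≤ b' :=
      ⟨s + L, fun z hz => hz.2.1.le⟩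
    exact Int.exists_greatest_of_bdd hb ⟨s, le_rfl, by omega, hs⟩
  obtain ⟨u, ⟨hu1, hu2, hu3⟩, hmax⟩ := hex
  have hg := gap (F := F) (a := a) (b := b) (u := u) (w := w) (by omega) (by omega) hwb
    (Or.inr hu3) hw (by
      intro t ht1 ht2 ht3
      rcases lt_or_ge t (s + L) with h | h
      · have := hmax t ⟨by omega, h, ht3⟩
        omega
      · exact hno t h ht2 ht3)
  have h1 := hg.1
  have h2 := nfl_mono F (w := w) hu1
  omega

/-- greedy from a regular point -/
theorem greedy {F : Set ℤ} {a b : ℤ} {L : ℕ} (hL : 1 ≤ L) : ∀ (N : ℕ) (s : ℤ), a ≤ s → s ≤ b →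
    b - s ≤ N → RegPt F a b s →
    ∃ (r : ℕ) (c : ℕ → ℤ), c 0 = s ∧ c r = b ∧ (∀ i < r, c i < c (i + 1)) ∧
      (r * L : ℤ) ≤ b - s + L ∧ ∃ e : ℕ, ∀ i < r,
        (RegPt F a b (c i) ∧ RegPt F a b (c (i + 1)) ∧ (L : ℤ) ≤ c (i + 1) - c i ∧
          c (i + 1) - c i ≤ 2 * L) ∨
        c (i + 1) - c i ≤ 100 * (nfl F (c i) (c (i + 1)) : ℤ) ∨
        (i = e ∧ c (i + 1) - c i ≤ 2 * L) := by
  intro N
  induction N with
  | zero =>
    intro s has hsb hN hs
    have : s = b := by push_cast at hN; omega
    refine ⟨0, fun _ => b, this.symm, rfl, fun i hi => absurd hi (by omega), ?_, 0,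
      fun i hi => absurd hi (by omega)⟩
    push_cast
    omega
  | succ N ih =>
    intro s has hsb hN hs
    rcases eq_or_lt_of_le hsb with hsb' | hsb'
    · refine ⟨0, fun _ => b, hsb'.symm, rfl, fun i hi => absurd hi (by omega), ?_, 0,
        fun i hi => absurd hi (by omega)⟩
      push_cast
      omega
    · have hL' : (1 : ℤ) ≤ L := by exact_mod_cast hL
      by_cases hex : ∃ z, s + L ≤ z ∧ z ≤ b ∧ RegPt F a b z
      · have hex2 : ∃ u, (s + L ≤ u ∧ u ≤ b ∧ RegPt F a b u) ∧
            ∀ z, (s + L ≤ z ∧ z ≤ b ∧ RegPt F a b z) → u ≤ z :=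
          Int.exists_least_of_bdd ⟨s + L, fun z hz => hz.1⟩ hex
        obtain ⟨s', ⟨h1, h2, h3⟩, hmin⟩ := hex2
        obtain ⟨r, c, hc0, hcr, hci, hrL, e, he⟩ := ih s' (by omega) h2 (by push_cast at hN; omega) h3
        refine ⟨r + 1, fun i => if i = 0 then s else c (i - 1), by simp, by simp [hcr], ?_, ?_,
          e + 1, ?_⟩
        · intro i hi
          rcases i with _ | i
          · simp [hc0]; omega
          · simpa using hci i (by omega)
        · push_cast
          nlinarith
        · intro i hi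
          rcases i with _ | i
          · simp only [if_true, zero_add, one_ne_zero, if_false, Nat.sub_self, hc0]
            rcases le_or_gt (s' - s) (2 * L) with h | h
            · exact Or.inl ⟨hs, h3, by omega, h⟩
            · refine Or.inr (Or.inl ?_)
              refine long_gap hL' has hs (by omega) h2 (Or.inr h3) ?_
              intro t ht1 ht2 ht3
              have := hmin t ⟨ht1, by omega, ht3⟩
              omega
          · have := he i (by omega)
            simpa using this
      · refine ⟨1, fun i => if i = 0 then s else b, by simp, by simp, ?_, ?_, 0, ?_⟩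
        · intro i hi
          have : i = 0 := by omega
          subst this
          simpa using hsb'
        · push_cast; omega
        · intro i hi
          have : i = 0 := by omega
          subst this
          simp only [if_true, zero_add, one_ne_zero, if_false]
          rcases le_or_gt (b - s) (2 * L) with h | h
          · exact Or.inr (Or.inr ⟨trivial, h⟩)
          · refine Or.inr (Or.inl ?_)
            refine long_gap hL' has hs (by omega) le_rfl (Or.inl rfl) ?_
            intro t ht1 ht2 ht3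
            exact hex ⟨t, ht1, by omega, ht3⟩

end GBlocks

open GBlocks in
/-- **G3.**  Blocks. The block ends are `c 0 = a, c 1, ..., c r = b`. -/
theorem exists_blocks {F : Set ℤ} {a b : ℤ} (hab : a ≤ b) {L : ℕ} (hL : 1 ≤ L) :
    ∃ (r : ℕ) (c : ℕ → ℤ), c 0 = a ∧ c r = b ∧ (∀ i < r, c i < c (i + 1)) ∧
      (r * L : ℤ) ≤ b - a + 2 * L ∧ ∃ e : ℕ, ∀ i < r,
        (RegPt F a b (c i) ∧ RegPt F a b (c (i + 1)) ∧ (L : ℤ) ≤ c (i + 1) - c i ∧
          c (i + 1) - c i ≤ 2 * L) ∨
        c (i + 1) - c i ≤ 100 * (nfl F (c i) (c (i + 1)) : ℤ) ∨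
        (i = e ∧ c (i + 1) - c i ≤ 2 * L) := by
  have hL' : (1 : ℤ) ≤ L := by exact_mod_cast hL
  by_cases ha : RegPt F a b a
  · obtain ⟨r, c, hc0, hcr, hci, hrL, e, he⟩ := greedy hL (b - a).toNat a le_rfl hab
      (by rw [Int.toNat_of_nonneg (by omega)]) ha
    exact ⟨r, c, hc0, hcr, hci, by omega, e, he⟩
  · have hab' : a < b := by
      rcases eq_or_lt_of_le hab with h | h
      · exfalso
        apply ha
        rw [regPt_iff le_rfl]
        refine ⟨fun i h1 h2 => ?_, fun i h1 h2 => ?_⟩
        · have : i = a := by omega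
          rw [this]
        · have : i = a := by omega
          rw [this]
      · exact h
    by_cases hex : ∃ z, a < z ∧ z ≤ b ∧ RegPt F a b z
    · have hex2 : ∃ u, (a < u ∧ u ≤ b ∧ RegPt F a b u) ∧
          ∀ z, (a < z ∧ z ≤ b ∧ RegPt F a b z) → u ≤ z :=
        Int.exists_least_of_bdd ⟨a, fun z hz => hz.1.le⟩ hex
      obtain ⟨s, ⟨h1, h2, h3⟩, hmin⟩ := hex2
      obtain ⟨r, c, hc0, hcr, hci, hrL, e, he⟩ := greedy hL (b - s).toNat s h1.le h2
        (by rw [Int.toNat_of_nonneg (by omega)]) h3
      refine ⟨r + 1, fun i => if i = 0 then a else c (i - 1), by simp, by simp [hcr], ?_, ?_,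
        e + 1, ?_⟩
      · intro i hi
        rcases i with _ | i
        · simp [hc0]; omega
        · simpa using hci i (by omega)
      · push_cast
        nlinarith
      · intro i hi
        rcases i with _ | i
        · simp only [if_true, zero_add, one_ne_zero, if_false, Nat.sub_self, hc0]
          refine Or.inr (Or.inl ?_)
          have := (gap (F := F) (a := a) (b := b) (u := a) (w := s) le_rfl h1 h2 (Or.inl rfl)
            (Or.inr h3) (by
              intro t ht1 ht2 ht3
              have := hmin t ⟨ht1, by omega, ht3⟩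
              omega)).2 ha
          omega
        · have := he i (by omega)
          simpa using this
    · refine ⟨1, fun i => if i = 0 then a else b, by simp, by simp, ?_, ?_, 0, ?_⟩
      · intro i hi
        have : i = 0 := by omega
        subst this
        simpa using hab'
      · push_cast; omega
      · intro i hi
        have : i = 0 := by omega
        subst this
        simp only [if_true, zero_add, one_ne_zero, if_false]
        refine Or.inr (Or.inl ?_)
        have := (gap (F := F) (a := a) (b := b) (u := a) (w := b) le_rfl hab' le_rfl (Or.inl rfl)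
          (Or.inl rfl) (by
            intro t ht1 ht2 ht3
            exact hex ⟨t, ht1, ht2.le, ht3⟩)).2 ha
        omega

end Pool.Agent.WSB71
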