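import Pool.Agent.WSB71.GeoDef

/-!
# The contour of a connected set with connected complement

A dart is a pair `(q, i)`: the dual step from the dual vertex `q` in the direction `uu i`, with its
right hand site `kp q i` in `G` and its left hand site `kp q (i + 1)` outside `G`.  The successor of a
dart turns right if possible, or left if possible at the dual vertices with `ρ q = true`.  It is a
permutation of the finite set of darts, and it has one orbit only (`sg_sameCycle`).  Changing `ρ` at one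
plaquette with four boundary edges would change the sign of the permutation, so there is no such
plaquette (`no_diag`).
-/

open MeasureTheory Filter Topology
open scoped NNReal ENNReal

namespace Pool.Agent.WSB71

open Pool.Agent.LT

namespace GC

/-- The four directions. -/
def uu : Fin 4 → Site := ![(1, 0), (0, 1), (-1, 0), (0, -1)]

/-- Offsets of the four corners of a plaquette. -/
def oo : Fin 4 → Site := ![(1, 0), (1, 1), (0, 1), (0, 0)]

/-- The corners of the plaquette `q`. -/
def kp (q : Site) (i : Fin 4) : Site := q + oo i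

lemma oo_shift : ∀ i : Fin 4, uu i + oo (i + 3) = oo i ∧ uu i + oo (i + 2) = oo (i + 1) := by
  decide

lemma kp_shift3 (q : Site) (i : Fin 4) : kp (q + uu i) (i + 3) = kp q i := by
  unfold kp
  rw [add_assoc, (oo_shift i).1]

lemma kp_shift2 (q : Site) (i : Fin 4) : kp (q + uu i) (i + 2) = kp q (i + 1) := by
  unfold kp
  rw [add_assoc, (oo_shift i).2]

lemma inn_uu (q : Site) (i : Fin 4) : inn q (q + uu i) = kp q i := by
  have key : ∀ i : Fin 4, (((1 + (uu i).1 + (uu i).2) / 2, (1 + (uu i).2 - (uu i).1) / 2) : Site)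
      = oo i := by decide
  unfold inn kp
  have e1 : (q + uu i).1 - q.1 = (uu i).1 := by simp
  have e2 : (q + uu i).2 - q.2 = (uu i).2 := by simp
  rw [e1, e2, ← key i]
  rfl

lemma out_uu (q : Site) (i : Fin 4) : out q (q + uu i) = kp q (i + 1) := by
  have key : ∀ i : Fin 4, (((1 + (uu i).1 - (uu i).2) / 2, (1 + (uu i).2 + (uu i).1) / 2) : Site)
      = oo (i + 1) := by decide
  unfold out kp
  have e1 : (q + uu i).1 - q.1 = (uu i).1 := by simp
  have e2 : (q + uu i).2 - q.2 = (uu i).2 := by simp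
  rw [e1, e2, ← key i]
  rfl

lemma uu_mem : ∀ i : Fin 4, uu i ∈ units := by decide

lemma uu_inj : ∀ i j : Fin 4, uu i = uu j → i = j := by decide

lemma exists_uu : ∀ e ∈ units, ∃ i : Fin 4, oo (i + 1) - oo i = e := by decide

/-- The direction after a dart of direction `i`, at a plaquette with corner values `a`. -/
def nt (a : Fin 4 → Bool) (ρ : Bool) (i : Fin 4) : Fin 4 :=
  if ρ then (if a (i + 1) then i + 1 else if a i then i else i + 3)
  else (if a i then (if a (i + 1) then i + 1 else i) else i + 3)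

lemma fun4 {P : (Fin 4 → Bool) → Prop} (h : ∀ a0 a1 a2 a3, P ![a0, a1, a2, a3])
    (a : Fin 4 → Bool) : P a := by
  have e : a = ![a 0, a 1, a 2, a 3] := by
    funext i
    fin_cases i <;> rfl
  rw [e]
  exact h _ _ _ _

lemma nt_spec : ∀ a : Fin 4 → Bool, ∀ (ρ : Bool) (i : Fin 4), a (i + 3) = true →
    a (i + 2) = false → a (nt a ρ i) = true ∧ a (nt a ρ i + 1) = false :=
  fun4 (by decide)

set_option maxRecDepth 100000 in
lemma nt_inj : ∀ a : Fin 4 → Bool, ∀ (ρ : Bool) (i i' : Fin 4), a (i + 3) = true →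
    a (i + 2) = false → a (i' + 3) = true → a (i' + 2) = false → nt a ρ i = nt a ρ i' → i = i' :=
  fun4 (by decide)

/-- Indicator in `ZMod 2`. -/
def zb (b : Bool) : ZMod 2 := if b then 1 else 0

set_option maxRecDepth 100000 in
lemma even_aux0 : ∀ a : Fin 4 → Bool, ∀ (ρ : Bool) (x0 x1 x2 x3 : Bool),
    zb ((a 0 && !a 1) && x0) + zb ((a 1 && !a 2) && x1) + zb ((a 2 && !a 3) && x2)
      + zb ((a 3 && !a 0) && x3)
    + (zb ((a 3 && !a 2) && ![x0, x1, x2, x3] (nt a ρ 0))
      + zb ((a 0 && !a 3) && ![x0, x1, x2, x3] (nt a ρ 1))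
      + zb ((a 1 && !a 0) && ![x0, x1, x2, x3] (nt a ρ 2))
      + zb ((a 2 && !a 1) && ![x0, x1, x2, x3] (nt a ρ 3))) = 0 :=
  fun4 (by decide)

variable {G : Finset Site}

/-- Corner values. -/
def av (G : Finset Site) (q : Site) (k : Fin 4) : Bool := decide (kp q k ∈ G)

/-- Darts. -/
def IsD (G : Finset Site) (d : Site × Fin 4) : Prop :=
  av G d.1 d.2 = true ∧ av G d.1 (d.2 + 1) = false

lemma isD_iff {q : Site} {i : Fin 4} : IsD G (q, i) ↔ kp q i ∈ G ∧ kp q (i + 1) ∉ G := by
  unfold IsD av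
  simp

/-- A dart, seen from its end point. -/
lemma isD_end {d : Site × Fin 4} : IsD G d ↔
    av G (d.1 + uu d.2) (d.2 + 3) = true ∧ av G (d.1 + uu d.2) (d.2 + 2) = false := by
  unfold IsD av
  rw [kp_shift3, kp_shift2]

/-- The successor of a dart. -/
def stp (G : Finset Site) (ρ : Site → Bool) (d : Site × Fin 4) : Site × Fin 4 :=
  (d.1 + uu d.2, nt (av G (d.1 + uu d.2)) (ρ (d.1 + uu d.2)) d.2)

lemma stp_isD (ρ : Site → Bool) {d : Site × Fin 4} (h : IsD G d) : IsD G (stp G ρ d) := by
  rw [isD_end] at h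
  exact nt_spec _ _ _ h.1 h.2

lemma stp_inj (ρ : Site → Bool) {d d' : Site × Fin 4} (h : IsD G d) (h' : IsD G d')
    (he : stp G ρ d = stp G ρ d') : d = d' := by
  rw [isD_end] at h h'
  unfold stp at he
  rw [Prod.mk.injEq] at he
  obtain ⟨e1, e2⟩ := he
  rw [← e1] at e2 h'
  have e3 := nt_inj _ _ _ _ h.1 h.2 h'.1 h'.2 e2
  refine Prod.ext ?_ e3
  rw [e3] at e1
  exact add_right_cancel e1

/-- The type of the darts. -/
abbrev DD (G : Finset Site) : Type := {d : Site × Fin 4 // IsD G d}

instance : Finite (DD G) := by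
  apply Finite.of_injective (β := {x : Site // x ∈ G} × Fin 4)
    (fun d => (⟨kp d.1.1 d.1.2, (isD_iff.1 d.2).1⟩, d.1.2))
  rintro ⟨⟨q, i⟩, h⟩ ⟨⟨q', i'⟩, h'⟩ he
  simp only [Prod.mk.injEq, Subtype.mk.injEq] at he
  obtain ⟨e1, rfl⟩ := he
  have : q = q' := add_right_cancel e1
  subst this
  rfl

noncomputable instance : Fintype (DD G) := Fintype.ofFinite _

/-- The successor permutation. -/
noncomputable def sg (G : Finset Site) (ρ : Site → Bool) : Equiv.Perm (DD G) :=
  Equiv.ofBijective (fun d => ⟨stp G ρ d.1, stp_isD ρ d.2⟩) (Finite.injective_iff_bijective.1 (by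
    intro d d' h
    exact Subtype.ext (stp_inj ρ d.2 d'.2 (congrArg Subtype.val h))))

lemma sg_val (ρ : Site → Bool) (d : DD G) : (sg G ρ d).1 = stp G ρ d.1 := rfl

/-- There is one orbit. -/
theorem sg_sameCycle (hG : ConnF (G : Set Site)) (hGc : ConnF (G : Set Site)ᶜ) (ρ : Site → Bool)
    (d d' : DD G) : (sg G ρ).SameCycle d d' := by
  classical
  -- the indicator of the orbit
  obtain ⟨χ, hχ⟩ : ∃ χ : Site × Fin 4 → Bool, ∀ e, χ e = true ↔
      ∃ h : IsD G e, (sg G ρ).SameCycle d ⟨e, h⟩ :=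
    ⟨fun e => decide (∃ h : IsD G e, (sg G ρ).SameCycle d ⟨e, h⟩), fun e => by simp⟩
  have hχD : ∀ e, χ e = true → IsD G e := fun e he => ((hχ e).1 he).1
  have hχs : ∀ e, IsD G e → χ e = χ (stp G ρ e) := by
    intro e he
    have h1 : χ e = true ↔ χ (stp G ρ e) = true := by
      rw [hχ, hχ]
      constructor
      · rintro ⟨h, h2⟩
        refine ⟨stp_isD ρ h, ?_⟩
        have h3 := (Equiv.Perm.sameCycle_apply_right (f := sg G ρ) (x := d) (y := ⟨e, h⟩)).2 h2
        exact h3
      · rintro ⟨h, h2⟩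
        refine ⟨he, ?_⟩
        exact (Equiv.Perm.sameCycle_apply_right (f := sg G ρ) (x := d) (y := ⟨e, he⟩)).1 h2
    exact Bool.eq_iff_iff.2 h1
  obtain ⟨c, hc⟩ : ∃ c : Edge → ZMod 2, ∀ (x : Site) (b : Bool), c (x, b) =
      if b then zb (χ (x, 3)) + zb (χ (x - (0, 1), 1)) else zb (χ (x, 2)) + zb (χ (x - (1, 0), 0)) :=
    ⟨fun e => if e.2 then zb (χ (e.1, 3)) + zb (χ (e.1 - (0, 1), 1))
      else zb (χ (e.1, 2)) + zb (χ (e.1 - (1, 0), 0)), fun x b => rfl⟩
  have hct : ∀ x, c (x, true) = zb (χ (x, 3)) + zb (χ (x - (0, 1), 1)) := fun x => by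
    rw [hc]; simp
  have hcf : ∀ x, c (x, false) = zb (χ (x, 2)) + zb (χ (x - (1, 0), 0)) := fun x => by
    rw [hc]; simp
  have hout : ∀ q i, χ (q, i) = ((av G q i && !av G q (i + 1)) && χ (q, i)) := by
    intro q i
    by_cases h : χ (q, i) = true
    · obtain ⟨h1, h2⟩ := hχD _ h
      simp only at h1 h2
      rw [h, h1, h2]; rfl
    · simp only [Bool.not_eq_true] at h
      rw [h]; simp
  have hin : ∀ q i, χ (q - uu i, i) = ((av G q (i + 3) && !av G q (i + 2)) &&
      χ (q, nt (av G q) (ρ q) i)) := by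
    intro q i
    have e1 : q - uu i + uu i = q := by abel
    by_cases h : IsD G (q - uu i, i)
    · have h1 := h
      rw [isD_end] at h1
      simp only [e1] at h1
      rw [hχs _ h]
      unfold stp
      simp only [e1]
      rw [h1.1, h1.2]
      rfl
    · have h1 : ¬ (av G q (i + 3) = true ∧ av G q (i + 2) = false) := by
        intro h2
        apply h
        rw [isD_end]
        simp only [e1]
        exact h2
      have h2 : χ (q - uu i, i) = false := by
        by_contra h3
        exact h (hχD _ (by simpa using h3))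
      have h3 : (av G q (i + 3) && !av G q (i + 2)) = false := by
        by_contra h4
        apply h1
        simpa using h4
      rw [h2, h3]
      rfl
  have hclosed : ∀ p : Site, c (p, true) + c (p + (0, 1), true) + c (p, false)
      + c (p + (1, 0), false) = 0 := by
    intro p
    have h0 := even_aux0 (av G p) (ρ p) (χ (p, 0)) (χ (p, 1)) (χ (p, 2)) (χ (p, 3))
    have hv : ![χ (p, 0), χ (p, 1), χ (p, 2), χ (p, 3)] = fun i => χ (p, i) := by
      funext i
      fin_cases i <;> rfl
    rw [hv] at h0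
    have o0 := hout p 0
    have o1 := hout p 1
    have o2 := hout p 2
    have o3 := hout p 3
    have i0 := hin p 0
    have i1 := hin p 1
    have i2 := hin p 2
    have i3 := hin p 3
    simp only [Fin.isValue, zero_add, show (1 : Fin 4) + 1 = 2 from rfl,
      show (2 : Fin 4) + 1 = 3 from rfl, show (3 : Fin 4) + 1 = 0 from rfl,
      show (1 : Fin 4) + 3 = 0 from rfl, show (2 : Fin 4) + 3 = 1 from rfl,
      show (3 : Fin 4) + 3 = 2 from rfl, show (1 : Fin 4) + 2 = 3 from rfl,
      show (2 : Fin 4) + 2 = 0 from rfl, show (3 : Fin 4) + 2 = 1 from rfl] at o0 o1 o2 o3 i0 i1 i2 i3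
    rw [← o0, ← o1, ← o2, ← o3, ← i0, ← i1, ← i2, ← i3] at h0
    have u0 : p - uu 0 = p - (1, 0) := rfl
    have u1 : p - uu 1 = p - (0, 1) := rfl
    have u2 : p - uu 2 = p + (1, 0) := by
      have : uu 2 = -(1, 0) := by decide
      rw [this, sub_neg_eq_add]
    have u3 : p - uu 3 = p + (0, 1) := by
      have : uu 3 = -(0, 1) := by decide
      rw [this, sub_neg_eq_add]
    rw [u0, u1, u2, u3] at h0
    rw [hct, hct, hcf, hcf]
    have e1 : p + (0, 1) - (0, 1) = p := by abel
    have e2 : p + (1, 0) - (1, 0) = p := by abel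
    rw [e1, e2]
    rw [← h0]
    abel
  obtain ⟨g, hg⟩ := exists_potential c hclosed
  -- darts of an edge
  have hzero : ∀ x b, (x ∈ G ↔ x + dirv b ∈ G) → c (x, b) = 0 := by
    intro x b h
    cases b
    · rw [hcf]
      have h1 : χ (x, 2) = false := by
        by_contra h3
        have h4 := isD_iff.1 (hχD _ (by simpa using h3))
        have e1 : kp x 2 = x + dirv false := rfl
        have e2 : kp x (2 + 1) = x := by
          show x + (0, 0) = x
          simp
        rw [e1, e2] at h4
        exact h4.2 (h.2 h4.1)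
      have h2 : χ (x - (1, 0), 0) = false := by
        by_contra h3
        have h4 := isD_iff.1 (hχD _ (by simpa using h3))
        have e1 : kp (x - (1, 0)) 0 = x := by
          show x - (1, 0) + (1, 0) = x
          abel
        have e2 : kp (x - (1, 0)) (0 + 1) = x + dirv false := by
          show x - (1, 0) + (1, 1) = x + (0, 1)
          ext <;> simp
        rw [e1, e2] at h4
        exact h4.2 (h.1 h4.1)
      rw [h1, h2]; rfl
    · rw [hct]
      have h1 : χ (x, 3) = false := by
        by_contra h3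
        have h4 := isD_iff.1 (hχD _ (by simpa using h3))
        have e1 : kp x 3 = x := by
          show x + (0, 0) = x
          simp
        have e2 : kp x (3 + 1) = x + dirv true := rfl
        rw [e1, e2] at h4
        exact h4.2 (h.1 h4.1)
      have h2 : χ (x - (0, 1), 1) = false := by
        by_contra h3
        have h4 := isD_iff.1 (hχD _ (by simpa using h3))
        have e1 : kp (x - (0, 1)) 1 = x + dirv true := by
          show x - (0, 1) + (1, 1) = x + (1, 0)
          ext <;> simp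
        have e2 : kp (x - (0, 1)) (1 + 1) = x := by
          show x - (0, 1) + (0, 1) = x
          abel
        rw [e1, e2] at h4
        exact h4.2 (h.2 h4.1)
      rw [h1, h2]; rfl
  -- the two values of the potential
  have hconst : ∀ S : Set Site, ConnF S → (∀ x ∈ S, ∀ y ∈ S, Adj x y → g x = g y) →
      ∀ x ∈ S, ∀ y ∈ S, g x = g y := by
    intro S hS hgS x hx y hy
    have h1 := hS (fun z => decide (g z = 0)) (by
      intro x hx y hy hxy
      rw [hgS x hx y hy hxy]) x hx y hy
    have h2 : ∀ a b : ZMod 2, decide (a = 0) = decide (b = 0) → a = b := by decide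
    exact h2 _ _ h1
  have hnotbd : ∀ x b, (x ∈ G ↔ x + dirv b ∈ G) → g (x + dirv b) = g x := by
    intro x b h
    rw [hg, hzero x b h, add_zero]
  have hgD : ∀ x ∈ (G : Set Site), ∀ y ∈ (G : Set Site), g x = g y := by
    apply hconst _ hG
    intro x hx y hy hxy
    obtain ⟨b, h | h⟩ := adj_cases hxy
    · subst h; exact (hnotbd x b (by simp only [Finset.mem_coe] at hx hy; simp [hx, hy])).symm
    · subst h; exact (hnotbd y b (by simp only [Finset.mem_coe] at hx hy; simp [hx, hy]))
  have hgDc : ∀ x ∈ (G : Set Site)ᶜ, ∀ y ∈ (G : Set Site)ᶜ, g x = g y := by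
    apply hconst _ hGc
    intro x hx y hy hxy
    obtain ⟨b, h | h⟩ := adj_cases hxy
    · subst h
      exact (hnotbd x b (by
        simp only [Set.mem_compl_iff, Finset.mem_coe] at hx hy; simp [hx, hy])).symm
    · subst h
      exact (hnotbd y b (by simp only [Set.mem_compl_iff, Finset.mem_coe] at hx hy; simp [hx, hy]))
  -- the difference of the potential along a dart
  have hdart : ∀ e : Site × Fin 4, IsD G e →
      g (kp e.1 (e.2 + 1)) = g (kp e.1 e.2) + zb (χ e) := by
    rintro ⟨q, i⟩ he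
    have hz : ∀ e', ¬ IsD G e' → zb (χ e') = 0 := by
      intro e' he'
      have : χ e' = false := by
        by_contra h3
        exact he' (hχD _ (by simpa using h3))
      rw [this]; rfl
    have hz2 : ∀ z w : ZMod 2, z = w + z + w := by decide
    obtain ⟨he1, he2⟩ := isD_iff.1 he
    fin_cases i
    · -- direction 0: the edge from q + (1,0) to q + (1,1)
      have h1 := hg (q + (1, 0)) false
      rw [hcf] at h1
      have e1 : q + (1, 0) + dirv false = kp q (0 + 1) := by
        show q + (1, 0) + (0, 1) = q + (1, 1)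
        ext <;> simp
      have e2 : q + (1, 0) - (1, 0) = q := by abel
      rw [e1, e2, hz (q + (1, 0), 2), zero_add (zb _)] at h1
      · exact h1
      · intro h3
        have h4 := (isD_iff.1 h3).1
        have e3 : kp (q + (1, 0)) 2 = kp q (0 + 1) := by
          show q + (1, 0) + (0, 1) = q + (1, 1)
          ext <;> simp
        rw [e3] at h4
        exact he2 h4
    · -- direction 1: the edge from q + (1,1) to q + (0,1)
      have h1 := hg (q + (0, 1)) true
      rw [hct] at h1
      have e1 : q + (0, 1) + dirv true = kp q 1 := by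
        show q + (0, 1) + (1, 0) = q + (1, 1)
        ext <;> simp
      have e2 : q + (0, 1) - (0, 1) = q := by abel
      rw [e1, e2, hz (q + (0, 1), 3), zero_add (zb _)] at h1
      · show g (q + (0, 1)) = g (kp q 1) + zb (χ (q, 1))
        rw [h1, add_assoc]
        have h5 : ∀ z : ZMod 2, z + z = 0 := by decide
        rw [h5, add_zero]
      · intro h3
        have h4 := (isD_iff.1 h3).1
        have e3 : kp (q + (0, 1)) 3 = kp q (1 + 1) := by
          show q + (0, 1) + (0, 0) = q + (0, 1)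
          simp
        rw [e3] at h4
        exact he2 h4
    · -- direction 2: the edge from q + (0,1) to q
      have h1 := hg q false
      rw [hcf] at h1
      rw [hz (q - (1, 0), 0), add_zero] at h1
      · have e1 : kp q (2 + 1) = q := by
          show q + (0, 0) = q
          simp
        show g (kp q (2 + 1)) = g (kp q 2) + zb (χ (q, 2))
        rw [e1]
        have e2 : kp q 2 = q + dirv false := rfl
        rw [e2, h1, add_assoc]
        have h5 : ∀ z : ZMod 2, z + z = 0 := by decide
        rw [h5, add_zero]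
      · intro h3
        have h4 := (isD_iff.1 h3).1
        have e3 : kp (q - (1, 0)) 0 = kp q (2 + 1) := by
          show q - (1, 0) + (1, 0) = q + (0, 0)
          ext <;> simp
        rw [e3] at h4
        exact he2 h4
    · -- direction 3: the edge from q to q + (1,0)
      have h1 := hg q true
      rw [hct] at h1
      rw [hz (q - (0, 1), 1), add_zero] at h1
      · have e1 : kp q 3 = q := by
          show q + (0, 0) = q
          simp
        show g (kp q (3 + 1)) = g (kp q 3) + zb (χ (q, 3))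
        rw [e1]
        exact h1
      · intro h3
        have h4 := (isD_iff.1 h3).1
        have e3 : kp (q - (0, 1)) 1 = kp q (3 + 1) := by
          show q - (0, 1) + (1, 1) = q + (1, 0)
          ext <;> simp
        rw [e3] at h4
        exact he2 h4
  -- conclusion
  have h1 := hdart d.1 d.2
  have h2 := hdart d'.1 d'.2
  obtain ⟨a1, a2⟩ := isD_iff.1 d.2
  obtain ⟨b1, b2⟩ := isD_iff.1 d'.2
  rw [hgD _ a1 _ b1, hgDc _ (by simpa using a2) _ (by simpa using b2)] at h1
  rw [h1] at h2
  have h3 : zb (χ d.1) = zb (χ d'.1) := add_left_cancel h2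
  have h4 : χ d.1 = true := (hχ _).2 ⟨d.2, Equiv.Perm.SameCycle.refl _ _⟩
  rw [h4] at h3
  have h5 : ∀ b, zb true = zb b → b = true := by decide
  obtain ⟨h6, h7⟩ := (hχ _).1 (h5 _ h3)
  exact h7

/-- The sign of a transitive permutation. -/
lemma sign_of_trans {α : Type*} [Fintype α] [DecidableEq α] [Nontrivial α] {f : Equiv.Perm α}
    (h : ∀ x y, f.SameCycle x y) : Equiv.Perm.sign f = -(-1) ^ Fintype.card α := by
  have hfix : ∀ x, f x ≠ x := by
    intro x hx
    obtain ⟨y, hy⟩ := exists_ne x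
    obtain ⟨i, hi⟩ := h x y
    rw [Equiv.Perm.zpow_apply_eq_self_of_apply_eq_self hx] at hi
    exact hy hi.symm
  have hc : f.IsCycle := by
    obtain ⟨x, _, _⟩ := exists_pair_ne α
    exact ⟨x, hfix x, fun y _ => h x y⟩
  have hs : f.support = Finset.univ := by
    ext x; simp [hfix x]
  rw [hc.sign, hs, Finset.card_univ]

/-- There is no plaquette with four boundary edges. -/
theorem no_diag (hG : ConnF (G : Set Site)) (hGc : ConnF (G : Set Site)ᶜ) {q : Site} {i : Fin 4}
    (h0 : kp q i ∈ G) (h1 : kp q (i + 1) ∉ G) (h2 : kp q (i + 2) ∈ G) : kp q (i + 3) ∈ G := by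
  classical
  by_contra h3
  have v0 : av G q i = true := by simpa [av] using h0
  have v1 : av G q (i + 1) = false := by simpa [av] using h1
  have v2 : av G q (i + 2) = true := by simpa [av] using h2
  have v3 : av G q (i + 3) = false := by simpa [av] using h3
  have f1 : ∀ i : Fin 4, i + 1 + 3 = i ∧ i + 1 + 2 = i + 3 ∧ i + 3 + 3 = i + 2 ∧
      i + 3 + 2 = i + 1 ∧ i + 1 + 1 = i + 2 ∧ i + 3 + 1 = i ∧ i + 1 ≠ i + 3 := by decide
  obtain ⟨g1, g2, g3, g4, g5, g6, g7⟩ := f1 i
  have c1 : q - uu (i + 1) + uu (i + 1) = q := by abel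
  have c2 : q - uu (i + 3) + uu (i + 3) = q := by abel
  have hd1 : IsD G (q - uu (i + 1), i + 1) := by
    rw [isD_end]
    simp only [c1, g1, g2]
    exact ⟨v0, v3⟩
  have hd2 : IsD G (q - uu (i + 3), i + 3) := by
    rw [isD_end]
    simp only [c2, g3, g4]
    exact ⟨v2, v1⟩
  obtain ⟨d1, hd1'⟩ : ∃ d1 : DD G, d1 = ⟨_, hd1⟩ := ⟨_, rfl⟩
  obtain ⟨d2, hd2'⟩ : ∃ d2 : DD G, d2 = ⟨_, hd2⟩ := ⟨_, rfl⟩
  have hne : d1 ≠ d2 := by
    rw [hd1', hd2']
    intro h
    have h4 := congrArg (fun d : DD G => d.1.2) h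
    exact g7 h4
  have hnt : Nontrivial (DD G) := ⟨d1, d2, hne⟩
  obtain ⟨ρ0, hρ0⟩ : ∃ ρ0 : Site → Bool, ∀ x, ρ0 x = false := ⟨fun _ => false, fun _ => rfl⟩
  obtain ⟨ρ1, hρ1⟩ : ∃ ρ1 : Site → Bool, ∀ x, ρ1 x = decide (x = q) := ⟨fun x => _, fun _ => rfl⟩
  have hρq : ρ1 q = true := by rw [hρ1]; simp
  have key : sg G ρ1 = sg G ρ0 * Equiv.swap d1 d2 := by
    apply Equiv.ext
    intro d
    rw [Equiv.Perm.mul_apply]
    by_cases e1 : d = d1
    · rw [e1, Equiv.swap_apply_left]
      apply Subtype.ext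
      rw [sg_val, sg_val, hd1', hd2']
      unfold stp
      simp only [c1, c2, hρq, hρ0]
      unfold nt
      simp only [if_true, g5, v2, g3, g6, v3, Bool.false_eq_true, if_false]
    · by_cases e2 : d = d2
      · rw [e2, Equiv.swap_apply_right]
        apply Subtype.ext
        rw [sg_val, sg_val, hd1', hd2']
        unfold stp
        simp only [c1, c2, hρq, hρ0]
        unfold nt
        simp only [if_true, g6, v0, g1, v1, Bool.false_eq_true, if_false]
      · rw [Equiv.swap_apply_of_ne_of_ne e1 e2]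
        apply Subtype.ext
        rw [sg_val, sg_val]
        have h4 : d.1.1 + uu d.1.2 ≠ q := by
          intro h5
          obtain ⟨h6, h7⟩ := isD_end.1 d.2
          rw [h5] at h6 h7
          have h8 : ∀ j i : Fin 4, j = i + 1 ∨ j = i + 3 ∨ j + 3 = i + 1 ∨ j + 3 = i + 3 := by
            decide
          have h9 : d.1.1 = q - uu d.1.2 := by rw [← h5]; abel
          rcases h8 d.1.2 i with h | h | h | h
          · apply e1
            rw [hd1']
            apply Subtype.ext
            refine Prod.ext ?_ h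
            rw [h9, h]
          · apply e2
            rw [hd2']
            apply Subtype.ext
            refine Prod.ext ?_ h
            rw [h9, h]
          · rw [h, v1] at h6
            exact absurd h6 (by simp)
          · rw [h, v3] at h6
            exact absurd h6 (by simp)
        unfold stp
        rw [hρ0, hρ1]
        simp only [h4, decide_false]
  have s1 := sign_of_trans (sg_sameCycle hG hGc ρ1)
  have s0 := sign_of_trans (sg_sameCycle hG hGc ρ0)
  rw [key, Equiv.Perm.sign_mul, Equiv.Perm.sign_swap hne, s0] at s1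
  have h4 : ∀ u : ℤˣ, u * -1 ≠ u := by decide
  exact h4 _ s1

/-- The edge crossed by a dart. -/
def ed (d : Site × Fin 4) : Edge :=
  ![(d.1 + (1, 0), false), (d.1 + (0, 1), true), (d.1, false), (d.1, true)] d.2

lemma kp0 (q : Site) : kp q 0 = q + (1, 0) := rfl

lemma kp1 (q : Site) : kp q 1 = q + (1, 1) := rfl

lemma kp2 (q : Site) : kp q 2 = q + (0, 1) := rfl

lemma kp3 (q : Site) : kp q 3 = q := by
  show q + (0, 0) = q
  simp

theorem card_DD (G : Finset Site) : Fintype.card (DD G) = (bdry G).card := by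
  classical
  rw [← Finset.card_univ]
  have a1 : ∀ q : Site, q + (1, 0) + (0, 1) = q + (1, 1) := by
    intro q; ext <;> simp
  have a2 : ∀ q : Site, q + (0, 1) + (1, 0) = q + (1, 1) := by
    intro q; ext <;> simp
  have s1 : (1 : Fin 4) + 1 = 2 := rfl
  have s2 : (2 : Fin 4) + 1 = 3 := rfl
  have s3 : (3 : Fin 4) + 1 = 0 := rfl
  have s0 : (0 : Fin 4) + 1 = 1 := rfl
  have hD0 : ∀ q, IsD G (q, 0) ↔ q + (1, 0) ∈ G ∧ q + (1, 1) ∉ G := fun q => by
    rw [isD_iff, s0, kp0, kp1]
  have hD1 : ∀ q, IsD G (q, 1) ↔ q + (1, 1) ∈ G ∧ q + (0, 1) ∉ G := fun q => by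
    rw [isD_iff, s1, kp1, kp2]
  have hD2 : ∀ q, IsD G (q, 2) ↔ q + (0, 1) ∈ G ∧ q ∉ G := fun q => by
    rw [isD_iff, s2, kp2, kp3]
  have hD3 : ∀ q, IsD G (q, 3) ↔ q ∈ G ∧ q + (1, 0) ∉ G := fun q => by
    rw [isD_iff, s3, kp3, kp0]
  have E0 : ∀ q, ed (q, 0) = (q + (1, 0), false) := fun q => rfl
  have E1 : ∀ q, ed (q, 1) = (q + (0, 1), true) := fun q => rfl
  have E2 : ∀ q, ed (q, 2) = (q, false) := fun q => rfl
  have E3 : ∀ q, ed (q, 3) = (q, true) := fun q => rfl
  have dt : dirv true = (1, 0) := rfl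
  have df : dirv false = (0, 1) := rfl
  have hcases : ∀ i : Fin 4, i = 0 ∨ i = 1 ∨ i = 2 ∨ i = 3 := by decide
  apply Finset.card_bij (fun (d : DD G) _ => ed d.1)
  · rintro ⟨⟨q, i⟩, h⟩ _
    simp only
    rcases hcases i with rfl | rfl | rfl | rfl
    · rw [hD0] at h
      rw [E0, mem_bdry, df, a1]
      tauto
    · rw [hD1] at h
      rw [E1, mem_bdry, dt, a2]
      tauto
    · rw [hD2] at h
      rw [E2, mem_bdry, df]
      tauto
    · rw [hD3] at h
      rw [E3, mem_bdry, dt]
      tauto
  · rintro ⟨⟨q, i⟩, h⟩ _ ⟨⟨q', i'⟩, h'⟩ _ he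
    simp only at he
    apply Subtype.ext
    simp only
    rcases hcases i with rfl | rfl | rfl | rfl <;> rcases hcases i' with rfl | rfl | rfl | rfl
    · rw [E0, E0, Prod.mk.injEq] at he
      rw [add_right_cancel he.1]
    · rw [E0, E1, Prod.mk.injEq] at he
      exact absurd he.2 (by simp)
    · rw [E0, E2, Prod.mk.injEq] at he
      rw [hD0] at h
      rw [hD2, ← he.1, a1] at h'
      exact absurd h'.1 h.2
    · rw [E0, E3, Prod.mk.injEq] at he
      exact absurd he.2 (by simp)
    · rw [E1, E0, Prod.mk.injEq] at he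
      exact absurd he.2 (by simp)
    · rw [E1, E1, Prod.mk.injEq] at he
      rw [add_right_cancel he.1]
    · rw [E1, E2, Prod.mk.injEq] at he
      exact absurd he.2 (by simp)
    · rw [E1, E3, Prod.mk.injEq] at he
      rw [hD1] at h
      rw [hD3, ← he.1] at h'
      exact absurd h'.1 h.2
    · rw [E2, E0, Prod.mk.injEq] at he
      rw [hD0] at h'
      rw [hD2, he.1, a1] at h
      exact absurd h.1 h'.2
    · rw [E2, E1, Prod.mk.injEq] at he
      exact absurd he.2 (by simp)
    · rw [E2, E2, Prod.mk.injEq] at he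
      rw [he.1]
    · rw [E2, E3, Prod.mk.injEq] at he
      exact absurd he.2 (by simp)
    · rw [E3, E0, Prod.mk.injEq] at he
      exact absurd he.2 (by simp)
    · rw [E3, E1, Prod.mk.injEq] at he
      rw [hD1] at h'
      rw [hD3, he.1] at h
      exact absurd h.1 h'.2
    · rw [E3, E2, Prod.mk.injEq] at he
      exact absurd he.2 (by simp)
    · rw [E3, E3, Prod.mk.injEq] at he
      rw [he.1]
  · rintro ⟨x, b⟩ hx
    rw [mem_bdry] at hx
    cases b
    · rw [df] at hx
      by_cases h1 : x ∈ G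
      · have h2 : x + (0, 1) ∉ G := fun h => hx (by simp [h1, h])
        refine ⟨⟨(x - (1, 0), 0), ?_⟩, Finset.mem_univ _, ?_⟩
        · rw [hD0]
          have e1 : x - (1, 0) + (1, 0) = x := by abel
          have e2 : x - (1, 0) + (1, 1) = x + (0, 1) := by ext <;> simp
          rw [e1, e2]
          exact ⟨h1, h2⟩
        · rw [E0]
          have e1 : x - (1, 0) + (1, 0) = x := by abel
          rw [e1]
      · have h2 : x + (0, 1) ∈ G := by
          by_contra h; exact hx (by simp [h1, h])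
        refine ⟨⟨(x, 2), ?_⟩, Finset.mem_univ _, ?_⟩
        · rw [hD2]
          exact ⟨h2, h1⟩
        · rw [E2]
    · rw [dt] at hx
      by_cases h1 : x ∈ G
      · have h2 : x + (1, 0) ∉ G := fun h => hx (by simp [h1, h])
        refine ⟨⟨(x, 3), ?_⟩, Finset.mem_univ _, ?_⟩
        · rw [hD3]
          exact ⟨h1, h2⟩
        · rw [E3]
      · have h2 : x + (1, 0) ∈ G := by
          by_contra h; exact hx (by simp [h1, h])
        refine ⟨⟨(x - (0, 1), 1), ?_⟩, Finset.mem_univ _, ?_⟩
        · rw [hD1]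
          have e1 : x - (0, 1) + (0, 1) = x := by abel
          have e2 : x - (0, 1) + (1, 1) = x + (1, 0) := by ext <;> simp
          rw [e1, e2]
          exact ⟨h2, h1⟩
        · rw [E1]
          have e1 : x - (0, 1) + (0, 1) = x := by abel
          rw [e1]

/-- **The contour.** -/
theorem exists_contour_aux {G : Finset Site} (hne : G.Nonempty) (hG : ConnF (G : Set Site))
    (hGc : ConnF (G : Set Site)ᶜ) : ∃ (n : ℕ) (p : ℤ → Site), 4 ≤ n ∧ n = (bdry G).card ∧
      (∀ i, p (i + n) = p i) ∧ (∀ i, Adj (p i) (p (i + 1))) ∧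
      (∀ i j, p i = p j → (n : ℤ) ∣ i - j) ∧
      (∀ i, inn (p i) (p (i + 1)) ∈ G ∧ out (p i) (p (i + 1)) ∉ G) ∧
      (∀ x ∈ G, ∀ y, y ∉ G → Adj x y → ∃ i : ℤ, 0 ≤ i ∧ i < n ∧
        inn (p i) (p (i + 1)) = x ∧ out (p i) (p (i + 1)) = y) := by
  classical
  have hn4 : 4 ≤ (bdry G).card := by
    have h1 := perim G
    have h2 : 1 ≤ (G.image Prod.fst).card := Finset.card_pos.2 (hne.image _)
    have h3 : 1 ≤ (G.image Prod.snd).card := Finset.card_pos.2 (hne.image _)
    omega
  have hcard := card_DD G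
  obtain ⟨d0⟩ : Nonempty (DD G) := by
    rw [← Fintype.card_pos_iff, hcard]
    omega
  obtain ⟨σ, hσ⟩ : ∃ σ : Equiv.Perm (DD G), σ = sg G (fun _ => false) := ⟨_, rfl⟩
  have htr : ∀ d d', σ.SameCycle d d' := by
    rw [hσ]; exact sg_sameCycle hG hGc _
  have hcyc : σ.IsCycleOn ((Finset.univ : Finset (DD G)) : Set (DD G)) := by
    refine ⟨?_, fun x _ y _ => htr x y⟩
    rw [Finset.coe_univ]
    exact Set.bijOn_univ.2 σ.bijective
  have hmem : d0 ∈ (Finset.univ : Finset (DD G)) := Finset.mem_univ _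
  have hsucc : ∀ i : ℤ, (σ ^ (i + 1)) d0 = σ ((σ ^ i) d0) := by
    intro i
    rw [add_comm, zpow_add, zpow_one, Equiv.Perm.mul_apply]
  have hstep : ∀ d : DD G, (σ d).1.1 = d.1.1 + uu d.1.2 := by
    intro d
    rw [hσ]
    rfl
  have hp1 : ∀ i : ℤ, ((σ ^ (i + 1)) d0).1.1 = ((σ ^ i) d0).1.1 + uu ((σ ^ i) d0).1.2 := by
    intro i
    rw [hsucc, hstep]
  refine ⟨(bdry G).card, fun i => ((σ ^ i) d0).1.1, hn4, rfl, ?_, ?_, ?_, ?_, ?_⟩
  · intro i
    have h1 : (σ ^ (i + ((bdry G).card : ℤ))) d0 = (σ ^ i) d0 := by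
      rw [hcyc.zpow_apply_eq_zpow_apply hmem, Finset.card_univ, hcard, Int.modEq_iff_dvd]
      exact ⟨-1, by ring⟩
    simp only
    rw [h1]
  · intro i
    simp only
    rw [hp1]
    unfold Adj
    rw [add_sub_cancel_left]
    exact uu_mem _
  · intro i j hij
    simp only at hij
    have h1 : (σ ^ i) d0 = (σ ^ j) d0 := by
      apply Subtype.ext
      refine Prod.ext hij ?_
      have h2 := ((σ ^ i) d0).2
      have h3 := ((σ ^ j) d0).2
      obtain ⟨⟨q, k⟩, hk⟩ : ∃ e : Site × Fin 4, e = ((σ ^ i) d0).1 := ⟨_, rfl⟩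
      obtain ⟨⟨q', k'⟩, hk'⟩ : ∃ e : Site × Fin 4, e = ((σ ^ j) d0).1 := ⟨_, rfl⟩
      rw [← hk] at h2 hij ⊢
      rw [← hk'] at h3 hij ⊢
      simp only at hij ⊢
      subst hij
      obtain ⟨a1, a2⟩ := isD_iff.1 h2
      obtain ⟨b1, b2⟩ := isD_iff.1 h3
      have h4 : ∀ k k' : Fin 4, k' = k ∨ k' = k + 1 ∨ k' = k + 2 ∨ k' = k + 3 := by decide
      rcases h4 k k' with h | h | h | h
      · exact h.symm
      · rw [h] at b1
        exact absurd b1 a2
      · exfalso
        rw [h] at b1 b2
        have h5 := no_diag hG hGc a1 a2 b1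
        have e : k + 2 + 1 = k + 3 := (by decide : ∀ k : Fin 4, k + 2 + 1 = k + 3) k
        rw [e] at b2
        exact b2 h5
      · exfalso
        rw [h] at b1 b2
        have e : k + 3 + 1 = k := (by decide : ∀ k : Fin 4, k + 3 + 1 = k) k
        rw [e] at b2
        exact b2 a1
    rw [hcyc.zpow_apply_eq_zpow_apply hmem, Finset.card_univ, hcard] at h1
    exact h1.symm.dvd
  · intro i
    simp only
    rw [hp1, inn_uu, out_uu]
    exact isD_iff.1 ((σ ^ i) d0).2
  · intro x hx y hy hxy
    obtain ⟨k, hk⟩ := exists_uu _ hxy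
    have e1 : kp (x - oo k) k = x := by
      unfold kp; abel
    have e2 : kp (x - oo k) (k + 1) = y := by
      unfold kp
      have : x - oo k + oo (k + 1) = x + (oo (k + 1) - oo k) := by abel
      rw [this, hk]; abel
    have hd : IsD G (x - oo k, k) := by
      rw [isD_iff, e1, e2]
      exact ⟨hx, hy⟩
    obtain ⟨m, hm1, hm2⟩ := hcyc.exists_pow_eq hmem (Finset.mem_univ (⟨_, hd⟩ : DD G))
    refine ⟨m, by positivity, ?_, ?_⟩
    · rw [Finset.card_univ, hcard] at hm1
      exact_mod_cast hm1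
    · simp only
      rw [hp1, inn_uu, out_uu, zpow_natCast, hm2]
      exact ⟨e1, e2⟩

end GC

open GC in
theorem exists_contour {G : Finset Site} (hne : G.Nonempty) (hG : ConnF (G : Set Site))
    (hGc : ConnF (G : Set Site)ᶜ) : ∃ (n : ℕ) (p : ℤ → Site), Cont G n p := by
  obtain ⟨n, p, h1, h2, h3, h4, h5, h6, h7⟩ := exists_contour_aux hne hG hGc
  exact ⟨n, p, ⟨h1, h2, h3, h4, h5, h6, h7⟩⟩

end Pool.Agent.WSB71
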