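import Pool.Agent.WSB71.GeoDef

/-!
# G2: near approaches of the contour

Parities of closed dual paths with values in `ZMod 2`: `fs P Q x` is `1` iff the step `P → Q` crosses the
horizontal half line to the right of the site `x`; `cl P Q x` is the same for the L-shaped closing path
between `P` and `Q` (through the corner with the largest first coordinate); `par p a b x` is the parity of
the portion `[a, b]` of `p`, closed.
-/

open MeasureTheory Filter Topology
open scoped NNReal ENNReal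

namespace Pool.Agent.WSB71

open Pool.Agent.LT

namespace NearFam

/-- The step `P → Q` crosses the horizontal half line to the right of `x`. -/
def fs (P Q x : Site) : ZMod 2 :=
  if P.1 = Q.1 ∧ x.1 ≤ P.1 ∧ P.2 ≠ Q.2 ∧ max P.2 Q.2 = x.2 then 1 else 0

/-- The closing path. -/
def cl (P Q x : Site) : ZMod 2 :=
  if min P.2 Q.2 < x.2 ∧ x.2 ≤ max P.2 Q.2 ∧ x.1 ≤ max P.1 Q.1 then 1 else 0

/-- `P` is on the half line to the right of the edge from `x` to `x + (0, 1)`. -/
def hs (P x : Site) : ZMod 2 := if P.2 = x.2 ∧ x.1 ≤ P.1 then 1 else 0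

/-- The step `P → Q` crosses the edge between `x` and `y`. -/
def crs (P Q x y : Site) : ZMod 2 :=
  if (inn P Q = x ∧ out P Q = y) ∨ (inn P Q = y ∧ out P Q = x) then 1 else 0

lemma adj_four {P Q : Site} (h : Adj P Q) : Q = (P.1 + 1, P.2) ∨ Q = (P.1 - 1, P.2) ∨
    Q = (P.1, P.2 + 1) ∨ Q = (P.1, P.2 - 1) := by
  obtain ⟨a, b⟩ := P
  obtain ⟨c, d⟩ := Q
  unfold Adj units at h
  simp only [Finset.mem_insert, Finset.mem_singleton, Prod.mk_sub_mk, Prod.mk.injEq] at h
  simp only [Prod.mk.injEq]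
  omega

lemma inn_out {P Q : Site} (h : Adj P Q) :
    (Q = (P.1 + 1, P.2) ∧ inn P Q = (P.1 + 1, P.2) ∧ out P Q = (P.1 + 1, P.2 + 1)) ∨
    (Q = (P.1 - 1, P.2) ∧ inn P Q = (P.1, P.2 + 1) ∧ out P Q = (P.1, P.2)) ∨
    (Q = (P.1, P.2 + 1) ∧ inn P Q = (P.1 + 1, P.2 + 1) ∧ out P Q = (P.1, P.2 + 1)) ∨
    (Q = (P.1, P.2 - 1) ∧ inn P Q = (P.1, P.2) ∧ out P Q = (P.1 + 1, P.2)) := by
  rcases adj_four h with rfl | rfl | rfl | rfl
  · refine Or.inl ⟨rfl, ?_, ?_⟩ <;> simp only [inn, out, Prod.mk.injEq] <;> omega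
  · refine Or.inr (Or.inl ⟨rfl, ?_, ?_⟩) <;> simp only [inn, out, Prod.mk.injEq] <;> omega
  · refine Or.inr (Or.inr (Or.inl ⟨rfl, ?_, ?_⟩)) <;> simp only [inn, out, Prod.mk.injEq] <;> omega
  · refine Or.inr (Or.inr (Or.inr ⟨rfl, ?_, ?_⟩)) <;> simp only [inn, out, Prod.mk.injEq] <;> omega

lemma inn_out_inj {P Q P' Q' : Site} (h : Adj P Q) (h' : Adj P' Q') (hi : inn P Q = inn P' Q')
    (ho : out P Q = out P' Q') : P = P' := by
  rcases inn_out h with ⟨_, h1, h2⟩ | ⟨_, h1, h2⟩ | ⟨_, h1, h2⟩ | ⟨_, h1, h2⟩ <;>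
  rcases inn_out h' with ⟨_, h3, h4⟩ | ⟨_, h3, h4⟩ | ⟨_, h3, h4⟩ | ⟨_, h3, h4⟩ <;>
  · rw [h1, h3, Prod.mk.injEq] at hi
    rw [h2, h4, Prod.mk.injEq] at ho
    ext <;> omega

/-- A crossed edge is close to the starting point of the step. -/
lemma crs_near {P Q x y : Site} (h : Adj P Q) (hc : crs P Q x y ≠ 0) :
    (P.1 ≤ x.1 ∧ x.1 ≤ P.1 + 1) ∧ (P.2 ≤ x.2 ∧ x.2 ≤ P.2 + 1) := by
  unfold crs at hc
  rw [ne_eq, ite_eq_right_iff, not_forall] at hc
  obtain ⟨hc, _⟩ := hc
  rcases inn_out h with ⟨_, h1, h2⟩ | ⟨_, h1, h2⟩ | ⟨_, h1, h2⟩ | ⟨_, h1, h2⟩ <;>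
  · rw [h1, h2] at hc
    rcases hc with ⟨rfl, rfl⟩ | ⟨rfl, rfl⟩ <;> simp

lemma out_near {P Q : Site} (h : Adj P Q) :
    (P.1 ≤ (out P Q).1 ∧ (out P Q).1 ≤ P.1 + 1) ∧ (P.2 ≤ (out P Q).2 ∧ (out P Q).2 ≤ P.2 + 1) := by
  rcases inn_out h with ⟨_, h1, h2⟩ | ⟨_, h1, h2⟩ | ⟨_, h1, h2⟩ | ⟨_, h1, h2⟩ <;> rw [h2] <;> simp

lemma z2 (a : ZMod 2) : a + a = 0 := by revert a; decide

lemma z2_eq {a b : ZMod 2} (h : a + b = 0) : a = b := by revert a b; decide

lemma fs_right {P Q : Site} (h : Adj P Q) (x : Site) :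
    fs P Q x + fs P Q (x + (1, 0)) = crs P Q x (x + (1, 0)) := by
  obtain ⟨a, b⟩ := x
  obtain ⟨P1, P2⟩ := P
  rcases inn_out h with ⟨h0, h1, h2⟩ | ⟨h0, h1, h2⟩ | ⟨h0, h1, h2⟩ | ⟨h0, h1, h2⟩ <;>
  · unfold crs
    rw [h1, h2, h0]
    unfold fs
    simp only [Prod.mk_add_mk, Prod.mk.injEq, add_zero, true_and]
    split_ifs <;> first | decide | (exfalso; omega)

lemma fs_up {P Q : Site} (h : Adj P Q) (x : Site) :
    fs P Q x + fs P Q (x + (0, 1)) = hs P x + hs Q x + crs P Q x (x + (0, 1)) := by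
  obtain ⟨a, b⟩ := x
  obtain ⟨P1, P2⟩ := P
  rcases inn_out h with ⟨h0, h1, h2⟩ | ⟨h0, h1, h2⟩ | ⟨h0, h1, h2⟩ | ⟨h0, h1, h2⟩ <;>
  · unfold crs
    rw [h1, h2, h0]
    unfold fs hs
    simp only [Prod.mk_add_mk, Prod.mk.injEq, add_zero, true_and]
    split_ifs <;> first | decide | (exfalso; omega)

/-- `x` is outside of the box spanned by `P` and `Q`. -/
def Far (P Q x : Site) : Prop :=
  x.2 + 1 ≤ min P.2 Q.2 ∨ max P.2 Q.2 < x.2 ∨ max P.1 Q.1 < x.1 ∨ x.1 + 1 ≤ min P.1 Q.1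

lemma cl_right {P Q x : Site} (h : Far P Q x) : cl P Q x + cl P Q (x + (1, 0)) = 0 := by
  obtain ⟨a, b⟩ := x
  obtain ⟨P1, P2⟩ := P
  obtain ⟨Q1, Q2⟩ := Q
  unfold Far at h
  unfold cl
  simp only [Prod.mk_add_mk, add_zero] at h ⊢
  split_ifs <;> first | decide | (exfalso; omega)

lemma cl_up {P Q x : Site} (h : Far P Q x) : cl P Q x + cl P Q (x + (0, 1)) = hs P x + hs Q x := by
  obtain ⟨a, b⟩ := x
  obtain ⟨P1, P2⟩ := P
  obtain ⟨Q1, Q2⟩ := Q
  unfold Far at h
  unfold cl hs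
  simp only [Prod.mk_add_mk, add_zero] at h ⊢
  split_ifs <;> first | decide | (exfalso; omega)

lemma cl_comm (P Q x : Site) : cl P Q x = cl Q P x := by
  unfold cl
  rw [min_comm, max_comm P.2, max_comm P.1]

/-- Parity of a portion of path, not closed. -/
noncomputable def S (p : ℤ → Site) (a b : ℤ) (x : Site) : ZMod 2 := ∑ k ∈ Finset.Ico a b, fs (p k) (p (k + 1)) x

/-- Parity of a portion of path, closed. -/
noncomputable def A (p : ℤ → Site) (a b : ℤ) (x : Site) : ZMod 2 := S p a b x + cl (p a) (p b) x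

/-- Number of crossings of an edge, mod 2. -/
noncomputable def X (p : ℤ → Site) (a b : ℤ) (x y : Site) : ZMod 2 :=
  ∑ k ∈ Finset.Ico a b, crs (p k) (p (k + 1)) x y

variable {p : ℤ → Site}

lemma S_right (hp : ∀ i, Adj (p i) (p (i + 1))) (a b : ℤ) (x : Site) :
    S p a b x + S p a b (x + (1, 0)) = X p a b x (x + (1, 0)) := by
  unfold S X
  rw [← Finset.sum_add_distrib]
  exact Finset.sum_congr rfl fun k _ => fs_right (hp k) x

lemma tele (f : ℤ → ZMod 2) {a b : ℤ} (hab : a ≤ b) :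
    ∑ k ∈ Finset.Ico a b, (f k + f (k + 1)) = f a + f b := by
  induction b, hab using Int.leInduction with
  | base => simp [z2]
  | succ b hab ih =>
    have h1 : Finset.Ico a (b + 1) = insert b (Finset.Ico a b) := by
      ext z
      simp only [Finset.mem_Ico, Finset.mem_insert]
      omega
    rw [h1, Finset.sum_insert (by simp), ih]
    linear_combination z2 (f b)

lemma S_up (hp : ∀ i, Adj (p i) (p (i + 1))) {a b : ℤ} (hab : a ≤ b) (x : Site) :
    S p a b x + S p a b (x + (0, 1)) = hs (p a) x + hs (p b) x + X p a b x (x + (0, 1)) := by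
  unfold S X
  rw [← Finset.sum_add_distrib, ← tele (fun k => hs (p k) x) hab, ← Finset.sum_add_distrib]
  exact Finset.sum_congr rfl fun k _ => fs_up (hp k) x

lemma A_right (hp : ∀ i, Adj (p i) (p (i + 1))) (a b : ℤ) {x : Site} (h : Far (p a) (p b) x) :
    A p a b x + A p a b (x + (1, 0)) = X p a b x (x + (1, 0)) := by
  unfold A
  linear_combination S_right hp a b x + cl_right h

lemma A_up (hp : ∀ i, Adj (p i) (p (i + 1))) {a b : ℤ} (hab : a ≤ b) {x : Site}
    (h : Far (p a) (p b) x) :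
    A p a b x + A p a b (x + (0, 1)) = X p a b x (x + (0, 1)) := by
  unfold A
  linear_combination S_up hp hab x + cl_up h + z2 (hs (p a) x) + z2 (hs (p b) x)

/-! ### The contour -/

variable {G : Finset Site} {n : ℕ}

lemma per_mul (hp : Cont G n p) (i m : ℤ) : p (i + m * n) = p i := by
  have h : Function.Periodic p (n : ℤ) := hp.per
  exact h.int_mul m i

open Classical in
/-- The indicator of `G`. -/
noncomputable def ig (G : Finset Site) (x : Site) : ZMod 2 := if x ∈ G then 1 else 0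

lemma crs_comm (P Q x y : Site) : crs P Q x y = crs P Q y x := by
  unfold crs
  simp only [or_comm]

lemma crs_zero (hp : Cont G n p) {x y : Site} (h : x ∈ G ↔ y ∈ G) (k : ℤ) :
    crs (p k) (p (k + 1)) x y = 0 := by
  unfold crs
  rw [if_neg]
  obtain ⟨h1, h2⟩ := hp.side k
  rintro (⟨rfl, rfl⟩ | ⟨rfl, rfl⟩)
  · exact h2 (h.1 h1)
  · exact h2 (h.2 h1)

lemma X_zero (hp : Cont G n p) {x y : Site} (h : x ∈ G ↔ y ∈ G) (a b : ℤ) :
    X p a b x y = 0 := Finset.sum_eq_zero fun k _ => crs_zero hp h k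

lemma X_comm (p : ℤ → Site) (a b : ℤ) (x y : Site) : X p a b x y = X p a b y x :=
  Finset.sum_congr rfl fun _ _ => crs_comm _ _ _ _

lemma X_one (hp : Cont G n p) {x y : Site} (hx : x ∈ G) (hy : y ∉ G) (h : Adj x y) (a : ℤ) :
    X p a (a + n) x y = 1 := by
  obtain ⟨i, hi0, hin, hi1, hi2⟩ := hp.surj x hx y hy h
  have hn : (0 : ℤ) < n := by have := hp.pos; omega
  -- translate
  obtain ⟨k, hka, hkb, hk⟩ : ∃ k : ℤ, a ≤ k ∧ k < a + n ∧ ∃ m : ℤ, k = i + m * n := by
    refine ⟨a + (i - a) % n, ?_, ?_, -((i - a) / n), ?_⟩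
    · have := Int.emod_nonneg (i - a) hn.ne'; omega
    · have := Int.emod_lt_of_pos (i - a) hn; omega
    · have := Int.emod_add_mul_ediv (i - a) n
      linarith
  obtain ⟨m, hm⟩ := hk
  have hpk : p k = p i := by rw [hm, per_mul hp]
  have hpk' : p (k + 1) = p (i + 1) := by
    rw [show k + 1 = i + 1 + m * n by rw [hm]; ring, per_mul hp]
  unfold X
  rw [Finset.sum_eq_single k]
  · unfold crs
    rw [hpk, hpk', if_pos (Or.inl ⟨hi1, hi2⟩)]
  · intro k' hk' hne
    unfold crs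
    rw [if_neg]
    rintro (⟨h1, h2⟩ | ⟨h1, h2⟩)
    · have h3 : p k' = p k := by
        refine inn_out_inj (hp.adj k') (hp.adj k) ?_ ?_
        · rw [h1, hpk, hpk', hi1]
        · rw [h2, hpk, hpk', hi2]
      have h4 := hp.inj _ _ h3
      rw [Finset.mem_Ico] at hk'
      obtain ⟨c, hc⟩ := h4
      have h5 : c = 0 := by
        by_contra h0
        rcases lt_or_gt_of_ne h0 with h6 | h6
        · have : (n : ℤ) * c ≤ n * (-1) := by
            apply mul_le_mul_of_nonneg_left _ hn.le; omega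
          omega
        · have : (n : ℤ) * 1 ≤ n * c := by
            apply mul_le_mul_of_nonneg_left _ hn.le; omega
          omega
      rw [h5, mul_zero] at hc
      omega
    · exact hy (h1 ▸ (hp.side k').1)
  · intro h; exact absurd (Finset.mem_Ico.2 ⟨hka, hkb⟩) h

lemma X_full (hp : Cont G n p) {x y : Site} (h : Adj x y) (a : ℤ) :
    X p a (a + n) x y = ig G x + ig G y := by
  unfold ig
  by_cases hx : x ∈ G <;> by_cases hy : y ∈ G
  · rw [if_pos hx, if_pos hy, X_zero hp (by tauto)]; rfl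
  · rw [if_pos hx, if_neg hy, X_one hp hx hy h]; rfl
  · rw [if_neg hx, if_pos hy, X_comm, X_one hp hy hx]
    · rfl
    · unfold Adj at h ⊢
      have := units_neg h
      simpa using this
  · rw [if_neg hx, if_neg hy, X_zero hp (by tauto)]; rfl

/-- The path is bounded. -/
lemma exists_bound (hp : Cont G n p) : ∃ B : ℤ, ∀ k, |(p k).2| ≤ B := by
  have hn : (0 : ℤ) < n := by have := hp.pos; omega
  refine ⟨∑ k ∈ Finset.Ico (0 : ℤ) n, |(p k).2|, fun k => ?_⟩
  have h1 : p k = p (k % n) := by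
    have := Int.emod_add_mul_ediv k n
    conv_lhs => rw [← this, mul_comm (n : ℤ), per_mul hp]
  rw [h1]
  refine Finset.single_le_sum (f := fun k => |(p k).2|) (fun i _ => abs_nonneg _) ?_
  rw [Finset.mem_Ico]
  exact ⟨Int.emod_nonneg _ hn.ne', Int.emod_lt_of_pos _ hn⟩

lemma S_far {B : ℤ} (hB : ∀ k, |(p k).2| ≤ B) (a b : ℤ) {x : Site} (hx : B < |x.2|) :
    S p a b x = 0 := by
  refine Finset.sum_eq_zero fun k _ => ?_
  unfold fs
  rw [if_neg]
  rintro ⟨_, _, _, h⟩
  have h1 := hB k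
  have h2 := hB (k + 1)
  rw [abs_le] at h1 h2
  rw [lt_abs] at hx
  omega

lemma A_far {B : ℤ} (hB : ∀ k, |(p k).2| ≤ B) (a b : ℤ) {x : Site} (hx : B < |x.2|) :
    A p a b x = 0 := by
  unfold A
  rw [S_far hB a b hx, zero_add]
  unfold cl
  rw [if_neg]
  rintro ⟨h3, h4, _⟩
  have h1 := hB a
  have h2 := hB b
  rw [abs_le] at h1 h2
  rw [lt_abs] at hx
  omega

/-- The parity of the contour is the indicator of `G`. -/
lemma S_full (hp : Cont G n p) (a : ℤ) (x : Site) : S p a (a + n) x = ig G x := by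
  obtain ⟨B, hB⟩ := exists_bound hp
  have hstep : ∀ z, S p a (a + n) z + ig G z = S p a (a + n) (z + (0, 1)) + ig G (z + (0, 1)) := by
    intro z
    have h1 := S_up hp.adj (a := a) (b := a + n) (by omega) z
    have h2 := X_full hp (x := z) (y := z + (0, 1)) (by
      unfold Adj; simp [units]) a
    rw [hp.per] at h1
    linear_combination h1 + h2 + z2 (hs (p a) z) - z2 (S p a (a + n) (z + (0, 1)))
      + z2 (ig G z)
  have hit : ∀ (m : ℕ), S p a (a + n) x + ig G x
      = S p a (a + n) (x + (0, (m : ℤ))) + ig G (x + (0, (m : ℤ))) := by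
    intro m
    induction m with
    | zero =>
      have h0 : x + (0, ((0 : ℕ) : ℤ)) = x := by ext <;> simp
      rw [h0]
    | succ m ih =>
      rw [ih, hstep]
      congr 2 <;>
      · rw [add_assoc]
        congr 2
  -- far away
  obtain ⟨C, hC⟩ : ∃ C : ℤ, ∀ y ∈ G, |y.2| ≤ C :=
    ⟨∑ y ∈ G, |y.2|, fun y hy => Finset.single_le_sum (f := fun y : Site => |y.2|)
      (fun i _ => abs_nonneg _) hy⟩
  have h1 := hit (|x.2| + |B| + |C| + 1).toNat
  have h2 : (((|x.2| + |B| + |C| + 1).toNat : ℕ) : ℤ) = |x.2| + |B| + |C| + 1 := by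
    rw [Int.toNat_of_nonneg]; positivity
  rw [h2] at h1
  have h3 : |B| + |C| < |(x + (0, |x.2| + |B| + |C| + 1)).2| := by
    show |B| + |C| < |x.2 + (|x.2| + |B| + |C| + 1)|
    rw [lt_abs]
    left
    have := neg_abs_le x.2
    omega
  rw [S_far hB _ _ (lt_of_le_of_lt (by have := le_abs_self B; have := abs_nonneg C; omega) h3)]
    at h1
  have h4 : ig G (x + (0, |x.2| + |B| + |C| + 1)) = 0 := by
    unfold ig
    rw [if_neg]
    intro h
    have h5 := hC _ h
    have h6 := le_abs_self C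
    have h7 := abs_nonneg B
    omega
  rw [h4, add_zero] at h1
  exact z2_eq h1

/-! ### Points of `K` -/

lemma far_out {x y : Site} (hy : y ∉ G) {L : ℕ} (hx : L < dep G x) : L < sd x y :=
  lt_of_lt_of_le hx (Nat.sInf_le ⟨y, hy, rfl⟩)

lemma mem_G {x : Site} {L : ℕ} (hx : L < dep G x) : x ∈ G := by
  by_contra h
  have := far_out h hx
  simp [sd] at this

lemma K_far (hp : Cont G n p) {L : ℕ} {x : Site} (hx : L < dep G x) (k : ℤ) :
    (L : ℤ) ≤ |x.1 - (p k).1| ∨ (L : ℤ) ≤ |x.2 - (p k).2| := by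
  have h1 := far_out (hp.side k).2 hx
  have h2 := out_near (hp.adj k)
  unfold sd at h1
  rw [lt_max_iff] at h1
  rw [Int.abs_eq_natAbs, Int.abs_eq_natAbs]
  omega

lemma K_Far (hp : Cont G n p) {L : ℕ} (hL : 8 ≤ L) {x : Site} (hx : L < dep G x) {a b : ℤ}
    (h4 : 4 * sd (p a) (p b) ≤ L) : Far (p a) (p b) x := by
  have h1 := K_far hp hx a
  unfold sd at h4
  rw [Int.abs_eq_natAbs, Int.abs_eq_natAbs] at h1
  have h5 := le_max_left ((p a).1 - (p b).1).natAbs ((p a).2 - (p b).2).natAbs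
  have h6 := le_max_right ((p a).1 - (p b).1).natAbs ((p a).2 - (p b).2).natAbs
  unfold Far
  omega

lemma A_const (hp : Cont G n p) {L : ℕ} (hL : 8 ≤ L) {K : Finset Site} (hK : ConnF (K : Set Site))
    (hKd : ∀ x ∈ K, L < dep G x) {a b : ℤ} (hab : a ≤ b) (h4 : 4 * sd (p a) (p b) ≤ L) :
    ∀ x ∈ K, ∀ y ∈ K, A p a b x = A p a b y := by
  have key : ∀ x ∈ K, ∀ c, x + dirv c ∈ K → A p a b x = A p a b (x + dirv c) := by
    intro x hx c hy
    have hF := K_Far hp hL (hKd x hx) h4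
    have hX : X p a b x (x + dirv c) = 0 := X_zero hp (by
      have h1 := mem_G (hKd x hx)
      have h2 := mem_G (hKd _ hy)
      tauto) a b
    apply z2_eq
    rw [← hX]
    cases c
    · exact A_up hp.adj hab hF
    · exact A_right hp.adj a b hF
  intro x hx y hy
  have h1 := hK (fun z => decide (A p a b z = 0)) (by
    intro x hx y hy hxy
    obtain ⟨c, h | h⟩ := adj_cases hxy
    · subst h
      rw [key x hx c hy]
    · subst h
      rw [key y hy c hx]) x hx y hy
  have h2 : ∀ a b : ZMod 2, decide (a = 0) = decide (b = 0) → a = b := by decide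
  exact h2 _ _ h1

lemma S_add {a b c : ℤ} (h1 : a ≤ b) (h2 : b ≤ c) (x : Site) :
    S p a b x + S p b c x = S p a c x := by
  unfold S
  rw [← Finset.Ico_union_Ico_eq_Ico h1 h2, Finset.sum_union]
  rw [Finset.disjoint_left]
  intro z hz hz'
  rw [Finset.mem_Ico] at hz hz'
  omega

lemma A_sum (hp : Cont G n p) {i i' : ℤ} (h1 : i ≤ i') (h2 : i' ≤ i + n) (x : Site) :
    A p i i' x + A p i' (i + n) x = ig G x := by
  unfold A
  rw [← S_full hp i x, ← S_add h1 h2 x, hp.per i, cl_comm (p i') (p i)]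
  linear_combination z2 (cl (p i) (p i') x)

lemma S_per (hp : Cont G n p) (a b m : ℤ) (x : Site) :
    S p (a + m * n) (b + m * n) x = S p a b x := by
  unfold S
  refine (Finset.sum_bij (fun k _ => k + m * n) ?_ ?_ ?_ ?_).symm
  · intro k hk
    rw [Finset.mem_Ico] at hk ⊢
    omega
  · intro k _ k' _ h
    exact add_right_cancel h
  · intro k hk
    rw [Finset.mem_Ico] at hk
    exact ⟨k - m * n, Finset.mem_Ico.2 (by omega), by ring⟩
  · intro k _
    rw [per_mul hp, show k + m * n + 1 = k + 1 + m * n by ring, per_mul hp]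

lemma A_per (hp : Cont G n p) (a b m : ℤ) (x : Site) :
    A p (a + m * n) (b + m * n) x = A p a b x := by
  unfold A
  rw [S_per hp, per_mul hp, per_mul hp]

/-- At least one of the two arcs is removable. -/
lemma removable (hp : Cont G n p) {L : ℕ} (hL : 8 ≤ L) {K : Finset Site} (hK : ConnF (K : Set Site))
    (hKd : ∀ x ∈ K, L < dep G x) {i i' : ℤ} (h1 : i ≤ i') (h2 : i' ≤ i + n)
    (h4 : 4 * sd (p i) (p i') ≤ L) :
    (∀ x ∈ K, A p i i' x = 0) ∨ (∀ x ∈ K, A p i' (i + n) x = 0) := by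
  by_cases h : ∀ x ∈ K, A p i i' x = 0
  · exact Or.inl h
  · right
    push Not at h
    obtain ⟨x₀, hx₀, h0⟩ := h
    intro x hx
    have h5 := A_const hp hL hK hKd h1 h4 x hx x₀ hx₀
    have h6 := A_sum hp h1 h2 x
    have h7 : ig G x = 1 := if_pos (mem_G (hKd x hx))
    rw [h5, h7] at h6
    have h8 : ∀ a b : ZMod 2, a ≠ 0 → a + b = 1 → b = 0 := by decide
    exact h8 _ _ h0 h6

/-! ### Greedy choice -/

lemma greedy {α : Type*} (ℓ : α → ℤ) (comp : α → α → Prop)
    (hsymm : ∀ q r, comp q r → comp r q) (N : ℕ) : ∀ R : Finset α, R.card ≤ N →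
    ∃ J ⊆ R, (∀ q ∈ J, ∀ r ∈ J, q ≠ r → comp q r) ∧
      ∀ r ∈ R, r ∈ J ∨ ∃ q ∈ J, ¬ comp q r ∧ ℓ r ≤ ℓ q := by
  classical
  induction N with
  | zero =>
    intro R hR
    have : R = ∅ := Finset.card_eq_zero.1 (by omega)
    subst this
    exact ⟨∅, by simp, by simp, by simp⟩
  | succ N ih =>
    intro R hR
    rcases R.eq_empty_or_nonempty with h | h
    · subst h
      exact ⟨∅, by simp, by simp, by simp⟩
    obtain ⟨q, hq, hmax⟩ := R.exists_max_image ℓ h
    obtain ⟨J, hJ, hJ1, hJ2⟩ := ih (R.filter (fun r => r ≠ q ∧ comp q r)) (by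
      have : R.filter (fun r => r ≠ q ∧ comp q r) ⊂ R := by
        rw [Finset.filter_ssubset]
        exact ⟨q, hq, by simp⟩
      have := Finset.card_lt_card this
      omega)
    refine ⟨insert q J, ?_, ?_, ?_⟩
    · intro r hr
      rw [Finset.mem_insert] at hr
      rcases hr with rfl | hr
      · exact hq
      · exact (Finset.mem_filter.1 (hJ hr)).1
    · intro r hr r' hr' hne
      rw [Finset.mem_insert] at hr hr'
      rcases hr with rfl | hr <;> rcases hr' with rfl | hr'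
      · exact absurd rfl hne
      · exact (Finset.mem_filter.1 (hJ hr')).2.2
      · exact hsymm _ _ (Finset.mem_filter.1 (hJ hr)).2.2
      · exact hJ1 r hr r' hr' hne
    · intro r hr
      by_cases h1 : r = q
      · left; rw [h1]; exact Finset.mem_insert_self _ _
      by_cases h2 : comp q r
      · rcases hJ2 r (Finset.mem_filter.2 ⟨hr, h1, h2⟩) with h3 | ⟨q', h3, h4⟩
        · left; exact Finset.mem_insert_of_mem h3
        · right; exact ⟨q', Finset.mem_insert_of_mem h3, h4⟩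
      · right; exact ⟨q, Finset.mem_insert_self _ _, h2, hmax r hr⟩

/-! ### Sums over arcs modulo `n` -/

open Classical in
lemma sum_mod (hn : 0 < n) (c : ℤ → ZMod 2) (hc : ∀ k m : ℤ, c (k + m * n) = c k) {a b : ℤ}
    (h1 : b ≤ a + n) : ∑ k ∈ Finset.Ico a b, c k
      = ∑ j ∈ Finset.Ico (0 : ℤ) n, if ∃ m : ℤ, a ≤ j + m * n ∧ j + m * n < b then c j else 0 := by
  have hn' : (0 : ℤ) < n := by exact_mod_cast hn
  rw [← Finset.sum_filter]
  refine Finset.sum_bij (fun k _ => k % n) ?_ ?_ ?_ ?_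
  · intro k hk
    rw [Finset.mem_Ico] at hk
    rw [Finset.mem_filter, Finset.mem_Ico]
    have h2 := Int.emod_add_mul_ediv k n
    refine ⟨⟨Int.emod_nonneg _ hn'.ne', Int.emod_lt_of_pos _ hn'⟩, k / n, ?_⟩
    rw [mul_comm (k / (n : ℤ)), h2]
    exact hk
  · intro k hk k' hk' h
    rw [Finset.mem_Ico] at hk hk'
    have h2 := Int.emod_add_mul_ediv k n
    have h3 := Int.emod_add_mul_ediv k' n
    rw [h] at h2
    have h4 : k - k' = n * (k / n - k' / n) := by linear_combination h3 - h2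
    have h5 : k / (n : ℤ) - k' / n = 0 := by
      by_contra h0
      rcases lt_or_gt_of_ne h0 with h6 | h6
      · have : (n : ℤ) * (k / n - k' / n) ≤ n * (-1) := by
          apply mul_le_mul_of_nonneg_left _ hn'.le; omega
        omega
      · have : (n : ℤ) * 1 ≤ n * (k / n - k' / n) := by
          apply mul_le_mul_of_nonneg_left _ hn'.le; omega
        omega
    rw [h5, mul_zero] at h4
    omega
  · intro j hj
    rw [Finset.mem_filter, Finset.mem_Ico] at hj
    obtain ⟨⟨hj1, hj2⟩, m, hm⟩ := hj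
    refine ⟨j + m * n, Finset.mem_Ico.2 hm, ?_⟩
    rw [Int.add_mul_emod_self_right, Int.emod_eq_of_lt hj1 hj2]
  · intro k hk
    have h2 := Int.emod_add_mul_ediv k n
    conv_lhs => rw [← h2, mul_comm (n : ℤ), hc]

/-! ### Geometry -/

lemma inner_tp (u : Plane) (v : Site) : (inner ℝ u (toPlane v) : ℝ) = u 0 * v.1 + u 1 * v.2 := by
  simp [toPlane, PiLp.inner_apply, Fin.sum_univ_two]
  ring

lemma inner_near (u : Plane) {x y : Site} {r : ℤ} (h1 : |x.1 - y.1| ≤ r) (h2 : |x.2 - y.2| ≤ r) :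
    (inner ℝ u (toPlane x) : ℝ) ≤ inner ℝ u (toPlane y) + ‖u‖ * (2 * r) := by
  rw [inner_tp, inner_tp]
  have h3 : |u 0| ≤ ‖u‖ := by
    have := PiLp.norm_apply_le u 0
    rwa [Real.norm_eq_abs] at this
  have h4 : |u 1| ≤ ‖u‖ := by
    have := PiLp.norm_apply_le u 1
    rwa [Real.norm_eq_abs] at this
  have h5 : |(x.1 : ℝ) - y.1| ≤ r := by exact_mod_cast h1
  have h6 : |(x.2 : ℝ) - y.2| ≤ r := by exact_mod_cast h2
  have h7 : u 0 * ((x.1 : ℝ) - y.1) ≤ ‖u‖ * r := by
    calc u 0 * ((x.1 : ℝ) - y.1) ≤ |u 0 * ((x.1 : ℝ) - y.1)| := le_abs_self _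
      _ = |u 0| * |(x.1 : ℝ) - y.1| := abs_mul _ _
      _ ≤ ‖u‖ * r := mul_le_mul h3 h5 (abs_nonneg _) (norm_nonneg _)
  have h8 : u 1 * ((x.2 : ℝ) - y.2) ≤ ‖u‖ * r := by
    calc u 1 * ((x.2 : ℝ) - y.2) ≤ |u 1 * ((x.2 : ℝ) - y.2)| := le_abs_self _
      _ = |u 1| * |(x.2 : ℝ) - y.2| := abs_mul _ _
      _ ≤ ‖u‖ * r := mul_le_mul h4 h6 (abs_nonneg _) (norm_nonneg _)
  linarith

/-- The arc conditions. -/
def Ok (n : ℕ) (p : ℤ → Site) (L : ℕ) (q : ℤ × ℤ) : Prop :=
  q.1 + 4 * L ≤ q.2 ∧ q.2 + 4 * L ≤ q.1 + n ∧ 4 * sd (p q.1) (p q.2) ≤ L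

/-- Disjointness of arcs modulo `n`. -/
def Disj (n : ℕ) (q q' : ℤ × ℤ) : Prop := ∀ m : ℤ, q.2 ≤ q'.1 + m * n ∨ q'.2 + m * n ≤ q.1

lemma sd_comm' (x y : Site) : sd x y = sd y x := by
  unfold sd
  rw [← Int.natAbs_neg, ← Int.natAbs_neg (x.2 - y.2), neg_sub, neg_sub]

lemma Disj.symm {q q' : ℤ × ℤ} (h : Disj n q q') : Disj n q' q := by
  intro m
  rcases h (-m) with h | h
  · right; linarith
  · left; linarith

/-- The end of an arc of `J` is in no open arc of `J`. -/
lemma end_notIn {L : ℕ} (hL : 8 ≤ L) {J : Finset (ℤ × ℤ)} (hJ : ∀ q ∈ J, Ok n p L q)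
    (hd : ∀ q ∈ J, ∀ q' ∈ J, q ≠ q' → Disj n q q') {q : ℤ × ℤ} (hq : q ∈ J) :
    ∀ q' ∈ J, ¬ InArc n q' q.1 := by
  rintro q' hq' ⟨m, h1, h2⟩
  by_cases h : q' = q
  · subst h
    obtain ⟨h3, h4, -⟩ := hJ _ hq
    have h5 : m ≤ 0 ∨ 1 ≤ m := by omega
    rcases h5 with h5 | h5
    · have : m * (n : ℤ) ≤ 0 := mul_nonpos_of_nonpos_of_nonneg h5 (by positivity)
      omega
    · have : 1 * (n : ℤ) ≤ m * n := mul_le_mul_of_nonneg_right h5 (by positivity)
      omega
  · have h3 := (hJ _ hq).1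
    rcases hd q' hq' q hq h m with h4 | h4 <;> omega

/-- The total parity. -/
noncomputable def M (n : ℕ) (p : ℤ → Site) (J : Finset (ℤ × ℤ)) (x : Site) : ZMod 2 :=
  S p 0 n x + ∑ q ∈ J, A p q.1 q.2 x

open Classical in
lemma M_step (hp : Cont G n p) {L : ℕ} {J : Finset (ℤ × ℤ)} (hJ : ∀ q ∈ J, Ok n p L q)
    (hd : ∀ q ∈ J, ∀ q' ∈ J, q ≠ q' → Disj n q q') {z : Site}
    (hz : ∀ k, crs (p k) (p (k + 1)) z (z + (0, 1)) ≠ 0 → ∃ q ∈ J, InArc n q k)
    (hF : ∀ q ∈ J, Far (p q.1) (p q.2) z) : M n p J z = M n p J (z + (0, 1)) := by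
  have hn : 0 < n := by have := hp.pos; omega
  set c : ℤ → ZMod 2 := fun k => crs (p k) (p (k + 1)) z (z + (0, 1)) with hc
  have hcp : ∀ k m : ℤ, c (k + m * n) = c k := by
    intro k m
    simp only [hc]
    rw [per_mul hp, show k + m * n + 1 = k + 1 + m * n by ring, per_mul hp]
  have h1 : S p 0 n z + S p 0 n (z + (0, 1)) = ∑ k ∈ Finset.Ico (0 : ℤ) n, c k := by
    have h := S_up hp.adj (a := 0) (b := n) (by omega) z
    have h' : p n = p 0 := by have := hp.per 0; rwa [zero_add] at this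
    rw [h'] at h
    rw [h]
    unfold X
    linear_combination z2 (hs (p 0) z)
  have h2 : ∀ q ∈ J, A p q.1 q.2 z + A p q.1 q.2 (z + (0, 1))
      = ∑ j ∈ Finset.Ico (0 : ℤ) n,
        if ∃ m : ℤ, q.1 ≤ j + m * n ∧ j + m * n < q.2 then c j else 0 := by
    intro q hq
    obtain ⟨h3, h4, -⟩ := hJ q hq
    rw [A_up hp.adj (by omega) (hF q hq), ← sum_mod hn c hcp (by omega)]
    rfl
  have h3 : M n p J z + M n p J (z + (0, 1)) = 0 := by
    calc M n p J z + M n p J (z + (0, 1)) = (S p 0 n z + S p 0 n (z + (0, 1)))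
          + ∑ q ∈ J, (A p q.1 q.2 z + A p q.1 q.2 (z + (0, 1))) := by
          unfold M
          rw [Finset.sum_add_distrib]
          ring
      _ = ∑ j ∈ Finset.Ico (0 : ℤ) n, (c j + ∑ q ∈ J,
          if ∃ m : ℤ, q.1 ≤ j + m * n ∧ j + m * n < q.2 then c j else 0) := by
          rw [h1, Finset.sum_congr rfl h2, Finset.sum_comm, ← Finset.sum_add_distrib]
      _ = 0 := by
          refine Finset.sum_eq_zero fun j _ => ?_
          by_cases h0 : c j = 0
          · rw [h0]; simp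
          · obtain ⟨q, hq, m, hm1, hm2⟩ := hz j h0
            rw [Finset.sum_eq_single q]
            · rw [if_pos ⟨m, hm1.le, hm2⟩, z2]
            · intro q' hq' hne
              rw [if_neg]
              rintro ⟨m', h5, h6⟩
              rcases hd q hq q' hq' hne.symm (m - m') with h7 | h7
              · have : (m - m') * (n : ℤ) = m * n - m' * n := by ring
                omega
              · have : (m - m') * (n : ℤ) = m * n - m' * n := by ring
                omega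
            · intro h; exact absurd hq h
  exact z2_eq h3

/-- The enclosure property. -/
lemma enclosed (hp : Cont G n p) {L : ℕ} (hL : 8 ≤ L) {J : Finset (ℤ × ℤ)}
    (hJ : ∀ q ∈ J, Ok n p L q) (hd : ∀ q ∈ J, ∀ q' ∈ J, q ≠ q' → Disj n q q') {x : Site}
    (hx : L < dep G x) (hJx : ∀ q ∈ J, A p q.1 q.2 x = 0) (u : Plane) :
    ∃ i : ℤ, (∀ q ∈ J, ¬ InArc n q i) ∧
      (inner ℝ u (toPlane x) : ℝ) ≤ inner ℝ u (toPlane (p i)) + ‖u‖ * (L + 4) := by
  by_contra hcon
  push Not at hcon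
  have hM : M n p J x = 1 := by
    unfold M
    rw [Finset.sum_eq_zero hJx, add_zero]
    have := S_full hp 0 x
    rw [zero_add] at this
    rw [this]
    exact if_pos (mem_G hx)
  -- the key step
  have key : ∀ z : Site, (inner ℝ u (toPlane x) : ℝ) ≤ inner ℝ u (toPlane z) →
      M n p J z = M n p J (z + (0, 1)) := by
    intro z hz
    refine M_step hp hJ hd ?_ ?_
    · intro k hk
      by_contra hno
      push Not at hno
      have h1 := hcon k hno
      have h2 := crs_near (hp.adj k) hk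
      have h3 := inner_near u (x := z) (y := p k) (r := 1) (by rw [abs_le]; omega)
        (by rw [abs_le]; omega)
      have h4 : ‖u‖ * (2 * ((1 : ℤ) : ℝ)) ≤ ‖u‖ * (L + 4) := by
        apply mul_le_mul_of_nonneg_left _ (norm_nonneg _)
        have : (0 : ℝ) ≤ L := by positivity
        push_cast
        linarith
      linarith
    · intro q hq
      by_contra hno
      have h1 := hcon q.1 (end_notIn hL hJ hd hq)
      obtain ⟨-, -, h5⟩ := hJ q hq
      unfold Far at hno
      unfold sd at h5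
      have h6 := le_max_left ((p q.1).1 - (p q.2).1).natAbs ((p q.1).2 - (p q.2).2).natAbs
      have h7 := le_max_right ((p q.1).1 - (p q.2).1).natAbs ((p q.1).2 - (p q.2).2).natAbs
      have h3 := inner_near u (x := z) (y := p q.1) (r := (L : ℤ) / 4) (by rw [abs_le]; omega)
        (by rw [abs_le]; omega)
      have h4 : ‖u‖ * (2 * (((L : ℤ) / 4 : ℤ) : ℝ)) ≤ ‖u‖ * (L + 4) := by
        apply mul_le_mul_of_nonneg_left _ (norm_nonneg _)
        have h8 : 2 * ((L : ℤ) / 4) ≤ (L : ℤ) + 4 := by omega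
        have h9 : ((2 * ((L : ℤ) / 4) : ℤ) : ℝ) ≤ (((L : ℤ) + 4 : ℤ) : ℝ) := by exact_mod_cast h8
        push_cast at h9
        exact h9
      linarith
  obtain ⟨B, hB⟩ := exists_bound hp
  have hfar : ∀ z : Site, B < |z.2| → M n p J z = 0 := by
    intro z hz
    unfold M
    rw [S_far hB _ _ hz, Finset.sum_eq_zero (fun q _ => A_far hB _ _ hz), add_zero]
  have hB0 : 0 ≤ B := (abs_nonneg _).trans (hB 0)
  set m : ℕ := (|x.2| + B + 1).toNat with hm
  have hm' : (m : ℤ) = |x.2| + B + 1 := by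
    rw [hm, Int.toNat_of_nonneg]; positivity
  have h01 : (0 : ZMod 2) ≠ 1 := by decide
  rcases le_total 0 (u 1) with hu | hu
  · have hit : ∀ k : ℕ, M n p J x = M n p J (x + (0, (k : ℤ))) := by
      intro k
      induction k with
      | zero =>
        have h0 : x + (0, ((0 : ℕ) : ℤ)) = x := by ext <;> simp
        rw [h0]
      | succ k ih =>
        rw [ih, key (x + (0, (k : ℤ)))]
        · rw [add_assoc]
          congr 2
        · rw [inner_tp, inner_tp]
          simp only [Prod.fst_add, Prod.snd_add, Int.cast_add, add_zero, Int.cast_natCast]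
          have : (0 : ℝ) ≤ u 1 * k := by positivity
          linarith
    have h1 := hit m
    rw [hM, hfar] at h1
    · exact h01 h1.symm
    · show B < |x.2 + (m : ℤ)|
      rw [hm', lt_abs]
      left
      have := neg_abs_le x.2
      omega
  · have hit : ∀ k : ℕ, M n p J x = M n p J (x + (0, -(k : ℤ))) := by
      intro k
      induction k with
      | zero =>
        have h0 : x + (0, -((0 : ℕ) : ℤ)) = x := by ext <;> simp
        rw [h0]
      | succ k ih =>
        rw [ih]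
        have h2 := key (x + (0, -((k + 1 : ℕ) : ℤ))) (by
          rw [inner_tp, inner_tp]
          simp only [Prod.fst_add, Prod.snd_add, Int.cast_add, add_zero, Int.cast_neg,
            Int.cast_natCast]
          have : u 1 * ((k + 1 : ℕ) : ℝ) ≤ 0 := mul_nonpos_of_nonpos_of_nonneg hu (by positivity)
          linarith)
        rw [h2]
        congr 1
        ext
        · simp
        · simp only [Prod.snd_add]
          push_cast
          ring
    have h1 := hit m
    rw [hM, hfar] at h1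
    · exact h01 h1.symm
    · show B < |x.2 + -(m : ℤ)|
      rw [hm', lt_abs]
      right
      have := le_abs_self x.2
      omega

end NearFam

/-- **G2.**  Near approaches. -/
theorem near_family {G : Finset Site} {n : ℕ} {p : ℤ → Site} (hp : Cont G n p) {L : ℕ}
    (hL : 8 ≤ L) {K : Finset Site} (hK : ConnF (K : Set Site)) (hKd : ∀ x ∈ K, L < dep G x) :
    ∃ J : Finset (ℤ × ℤ),
      (∀ q ∈ J, q.1 + 4 * L ≤ q.2 ∧ q.2 + 4 * L ≤ q.1 + n ∧ 4 * sd (p q.1) (p q.2) ≤ L) ∧
      (∀ q ∈ J, ∀ q' ∈ J, q ≠ q' → ∀ m : ℤ, q.2 ≤ q'.1 + m * n ∨ q'.2 + m * n ≤ q.1) ∧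
      (∀ i i' : ℤ, 4 * sd (p i) (p i') ≤ L → i + 4 * L ≤ i' → i' + 4 * L ≤ i + n →
        (∃ q ∈ J, NearArc n q i ∧ NearArc n q i')) ∧
      (K.Nonempty → ∀ u : Plane, ∀ x ∈ K, ∃ i : ℤ, (∀ q ∈ J, ¬ InArc n q i) ∧
        inner ℝ u (toPlane x) ≤ inner ℝ u (toPlane (p i)) + ‖u‖ * (L + 4)) := by
  classical
  have hn : (0 : ℤ) < n := by have := hp.pos; omega
  set R : Finset (ℤ × ℤ) := (Finset.Ico (0 : ℤ) n ×ˢ Finset.Ico (0 : ℤ) (2 * n)).filter
    (fun q => NearFam.Ok n p L q ∧ ∀ x ∈ K, NearFam.A p q.1 q.2 x = 0) with hR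
  obtain ⟨J, hJR, hJd, hJm⟩ := NearFam.greedy (fun q : ℤ × ℤ => q.2 - q.1) (NearFam.Disj n)
    (fun _ _ h => h.symm) _ R le_rfl
  have hJ : ∀ q ∈ J, NearFam.Ok n p L q := fun q hq => (Finset.mem_filter.1 (hJR hq)).2.1
  refine ⟨J, hJ, hJd, ?_, ?_⟩
  · intro i i' h4 h1 h2
    -- any removable arc is near an arc of `J`
    have key : ∀ a b : ℤ, NearFam.Ok n p L (a, b) → (∀ x ∈ K, NearFam.A p a b x = 0) →
        ∃ q ∈ J, NearArc n q a ∧ NearArc n q b := by
      rintro a b ⟨ha, hb, hs⟩ hA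
      simp only at ha hb hs
      have hd := Int.emod_add_mul_ediv a n
      have hd0 := Int.emod_nonneg a hn.ne'
      have hd1 := Int.emod_lt_of_pos a hn
      have e1 : a % n = a + (-(a / n)) * n := by linear_combination hd
      have hmem : ((a % n, b + (-(a / n)) * n) : ℤ × ℤ) ∈ R := by
        rw [hR, Finset.mem_filter, Finset.mem_product, Finset.mem_Ico, Finset.mem_Ico]
        refine ⟨⟨⟨hd0, hd1⟩, ?_⟩, ⟨?_, ?_, ?_⟩, ?_⟩
        · simp only
          omega
        · simp only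
          omega
        · simp only
          omega
        · simp only
          rw [e1, NearFam.per_mul hp, NearFam.per_mul hp]
          exact hs
        · intro x hx
          simp only
          rw [e1, NearFam.A_per hp]
          exact hA x hx
      rcases hJm _ hmem with h | ⟨q, hq, h, hl⟩
      · refine ⟨_, h, ⟨-(a / n), ?_⟩, ⟨-(a / n), ?_⟩⟩
        · simp only
          omega
        · simp only
          omega
      · unfold NearFam.Disj at h
        push Not at h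
        obtain ⟨m, hm1, hm2⟩ := h
        simp only at hm1 hm2 hl
        refine ⟨q, hq, ⟨m - a / n, ?_⟩, ⟨m - a / n, ?_⟩⟩
        · have e2 : (m - a / n) * (n : ℤ) = m * n + (-(a / n)) * n := by ring
          rw [e2]
          omega
        · have e2 : (m - a / n) * (n : ℤ) = m * n + (-(a / n)) * n := by ring
          rw [e2]
          omega
    rcases NearFam.removable hp hL hK hKd (i := i) (i' := i') (by omega) (by omega) h4 with h | h
    · exact key i i' ⟨h1, h2, h4⟩ h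
    · obtain ⟨q, hq, h5, m, h6⟩ := key i' (i + n) ⟨by simp only; omega, by simp only; omega, by
        simp only
        rw [hp.per, NearFam.sd_comm']
        exact h4⟩ h
      refine ⟨q, hq, ⟨m + 1, ?_⟩, h5⟩
      have e2 : i + (m + 1) * (n : ℤ) = i + n + m * n := by ring
      rw [e2]
      exact h6
  · intro _ u x hx
    exact NearFam.enclosed hp hL hJ hJd (hKd x hx)
      (fun q hq => (Finset.mem_filter.1 (hJR hq)).2.2 x hx) u

end Pool.Agent.WSB71
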