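import Pool.Agent.WSB71.Fil
import Pool.Agent.WSB71.Tile

/-!
# G: geometry of the contour (definitions)

`Cont G n p`: `p` is the contour of the filled set `G`, an `n`-periodic simple closed dual path with
`G` on its right.  The definitions of `Geo.lean`.
-/

open MeasureTheory Filter Topology
open scoped NNReal ENNReal

namespace Pool.Agent.WSB71

open Pool.Agent.LT

/-- The contour. -/
structure Cont (G : Finset Site) (n : ℕ) (p : ℤ → Site) : Prop where
  pos : 4 ≤ n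
  card : n = (bdry G).card
  per : ∀ i, p (i + n) = p i
  adj : ∀ i, Adj (p i) (p (i + 1))
  inj : ∀ i j, p i = p j → (n : ℤ) ∣ i - j
  side : ∀ i, inn (p i) (p (i + 1)) ∈ G ∧ out (p i) (p (i + 1)) ∉ G
  surj : ∀ x ∈ G, ∀ y, y ∉ G → Adj x y → ∃ i : ℤ, 0 ≤ i ∧ i < n ∧
    inn (p i) (p (i + 1)) = x ∧ out (p i) (p (i + 1)) = y

/-- `i` (mod `n`) is in the open arc `q`. -/
def InArc (n : ℕ) (q : ℤ × ℤ) (i : ℤ) : Prop := ∃ m : ℤ, q.1 < i + m * n ∧ i + m * n < q.2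

/-- `i` (mod `n`) is within the distance `q.2 - q.1` of the arc `q`. -/
def NearArc (n : ℕ) (q : ℤ × ℤ) (i : ℤ) : Prop :=
  ∃ m : ℤ, q.1 - (q.2 - q.1) ≤ i + m * n ∧ i + m * n ≤ q.2 + (q.2 - q.1)

/-- Rotation by `r` quarter turns (counterclockwise) of dual vertices about `0`, that is about the
point `(1/2, 1/2)`. -/
def rd : ℕ → Site → Site
  | 0, p => p
  | r + 1, p => rd r (-p.2, p.1)

/-- The same rotation, of sites. -/
def rs : ℕ → Site → Site
  | 0, x => x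
  | r + 1, x => rs r (1 - x.2, x.1)

/-- The normalised path of the block `[s, s']`. -/
def blk (p : ℤ → Site) (r : ℕ) (s s' : ℤ) : List Site :=
  (List.range ((s' - s).toNat + 1)).map (fun k => rd r (p (s + k) - p s))

/-- Position of a site relative to the block starting at `s`. -/
def rel (p : ℤ → Site) (r : ℕ) (s : ℤ) (x : Site) : Site := rs r (x - p s)

/-- Rotated `T`-coordinate along the contour. -/
def Tr (p : ℤ → Site) (r : ℕ) (i : ℤ) : ℤ := Td (rd r (p i))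

/-- An eligible block `[s, s']` inside the portion `[a, b]` of the contour. -/
structure Elig (n : ℕ) (p : ℤ → Site) (L : ℕ) (a b : ℤ) (r : ℕ) (s s' : ℤ) : Prop where
  hb : b ≤ a + n
  ha : a + 4 * L ≤ s
  hb' : s' + 4 * L ≤ b
  len : s + L ≤ s' ∧ s' ≤ s + 2 * L
  reg : ∀ i, (s ≤ i → i ≤ b → 3 * (i - s) ≤ 4 * (Tr p r i - Tr p r s)) ∧
    (a ≤ i → i ≤ s → 3 * (s - i) ≤ 4 * (Tr p r s - Tr p r i))
  reg' : ∀ i, (s' ≤ i → i ≤ b → 3 * (i - s') ≤ 4 * (Tr p r i - Tr p r s')) ∧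
    (a ≤ i → i ≤ s' → 3 * (s' - i) ≤ 4 * (Tr p r s' - Tr p r i))
  low : 99 * (s' - s) ≤ 100 * (Tr p r s' - Tr p r s)
  far : ∀ i, s ≤ i → i ≤ s' → ∀ i', 4 * sd (p i) (p i') ≤ L → ∃ m : ℤ, |i - i' - m * n| < 4 * L

end Pool.Agent.WSB71
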