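import Pool.Agent.WSB71.Defs

/-!
# V: the variational problem, definitions
-/

open MeasureTheory Filter Topology
open scoped NNReal ENNReal Pointwise

namespace Pool.Agent.WSB71

open Pool.Agent.LT

/-- Nonempty compact convex sets. -/
def CC (K : Set Plane) : Prop := K.Nonempty ∧ IsCompact K ∧ Convex ℝ K

/-- Abstract perimeter functionals on compact convex sets. -/
structure PerLike (P : Set Plane → ℝ) : Prop where
  mono : ∀ K K', CC K → CC K' → K ⊆ K' → P K ≤ P K'
  trans : ∀ K, CC K → ∀ z : Plane, P ((fun p => z + p) '' K) = P K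
  smul : ∀ K, CC K → ∀ s : ℝ, 0 ≤ s → P (s • K) = s * P K
  add_le : ∀ K K', CC K → CC K' → P (K + K') ≤ P K + P K'
  neg : ∀ K, CC K → P (-K) = P K
  lower : ∃ a : ℝ, 0 < a ∧ ∀ K, CC K → a * Metric.diam K ≤ P K

/-- The functional. -/
noncomputable def FF (P : Set Plane → ℝ) (K : Set Plane) : ℝ := lam (interior K) + P K

/-- The heat kernel of the plane at time `s` (generator `Δ`, variance `2 s` per coordinate). -/
noncomputable def vhk (s : ℝ) (x : Plane) : ℝ≥0∞ :=
  ENNReal.ofReal ((4 * Real.pi * s)⁻¹ * Real.exp (-(‖x‖ ^ 2 / (4 * s))))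

/-- One step of the Gaussian chain killed outside `K`. -/
noncomputable def vT (K : Set Plane) (s : ℝ) (f : Plane → ℝ≥0∞) (x : Plane) : ℝ≥0∞ :=
  ∫⁻ z in K, vhk s (x - z) * f z

/-- The points of `K` at distance at least `r` from the complement. -/
def vcore (K : Set Plane) (r : ℝ) : Set Plane := {x | Metric.closedBall x r ⊆ K}

/-- `T^n 1_{c₁} T^n 1_{c₂} ... 1_{c_k} T^n`: the chain has to be in `c₁`, ..., `c_k` at the times
`n, 2n, ..., kn`. -/
noncomputable def vA (K : Set Plane) (s : ℝ) (n : ℕ) :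
    List (Set Plane) → (Plane → ℝ≥0∞) → Plane → ℝ≥0∞
  | [], f => (vT K s)^[n] f
  | c :: cs, f => (vT K s)^[n] (c.indicator (vA K s n cs f))

/-- The tilted kernel of a window: `T^{(k+1)n} + γ T^n 1_{c₁} ... 1_{c_k} T^n`. -/
noncomputable def vW (K : Set Plane) (s : ℝ) (n : ℕ) (cs : List (Set Plane)) (γ : ℝ≥0∞)
    (f : Plane → ℝ≥0∞) (x : Plane) : ℝ≥0∞ :=
  (vT K s)^[(cs.length + 1) * n] f x + γ * vA K s n cs f x

end Pool.Agent.WSB71
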