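import Pool.Agent.WSB71.RealSym
import Pool.Agent.WSB71.VDef

/-!
# LP duality: the existence of a good zonogon

`zonoCone`: pairs `(z, r)`, `z` a finite family of points, such that all `z j` lie in a zonogon with
realizable sides of cost at most `r`.  It is a convex cone with interior points.  `K` lies in the convex
hull of finitely many points `p j ∈ (1 + δ) K`.  If `(p, PP K + ε)` is not in the cone, separate: one gets
vectors `u j` and `σ ≥ 0` with `½ ∑ |⟨u j, v⟩| ≤ 2 σ c` for all realizable `(v, c)` and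
`σ (PP K + ε) ≤ ∑ ⟨u j, p j⟩`; `σ > 0` because of the axis vectors; `ρ j = u j / (4 σ)` is
admissible and contradicts the definition of `PP`.
-/

open MeasureTheory Filter Topology
open scoped NNReal ENNReal Pointwise

namespace Pool.Agent.WSB71

open Pool.Agent.LT

theorem zonogon_convex {m : ℕ} (v : Fin m → Site) (x : Fin m → ℝ) : Convex ℝ (zonogon v x) := by
  rintro p ⟨s, hs, rfl⟩ q ⟨t, ht, rfl⟩ a b ha hb hab
  refine ⟨fun i => a * s i + b * t i, fun i => ?_, ?_⟩
  · calc |a * s i + b * t i| ≤ |a * s i| + |b * t i| := abs_add_le _ _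
      _ = a * |s i| + b * |t i| := by rw [abs_mul, abs_mul, abs_of_nonneg ha, abs_of_nonneg hb]
      _ ≤ a * (1 / 2) + b * (1 / 2) :=
          add_le_add (mul_le_mul_of_nonneg_left (hs i) ha) (mul_le_mul_of_nonneg_left (ht i) hb)
      _ = 1 / 2 := by rw [← add_mul, hab, one_mul]
  · rw [Finset.smul_sum, Finset.smul_sum, ← Finset.sum_add_distrib]
    refine Finset.sum_congr rfl fun i _ => ?_
    rw [smul_smul, smul_smul, ← add_smul]
    congr 1
    ring

theorem zonogon_append {m n : ℕ} {v : Fin m → Site} {x : Fin m → ℝ} {v' : Fin n → Site}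
    {x' : Fin n → ℝ} {p p' : Plane} (hp : p ∈ zonogon v x) (hp' : p' ∈ zonogon v' x') :
    p + p' ∈ zonogon (Fin.append v v') (Fin.append x x') := by
  obtain ⟨s, hs, rfl⟩ := hp
  obtain ⟨t, ht, rfl⟩ := hp'
  refine ⟨Fin.append s t, fun i => ?_, ?_⟩
  · refine Fin.addCases (fun i => ?_) (fun i => ?_) i
    · rw [Fin.append_left]; exact hs i
    · rw [Fin.append_right]; exact ht i
  · rw [Fin.sum_univ_add]
    simp only [Fin.append_left, Fin.append_right]

theorem zonogon_smul {m : ℕ} {v : Fin m → Site} {x : Fin m → ℝ} {p : Plane} (hp : p ∈ zonogon v x)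
    (a : ℝ) : a • p ∈ zonogon v (fun i => a * x i) := by
  obtain ⟨s, hs, rfl⟩ := hp
  refine ⟨s, hs, ?_⟩
  rw [Finset.smul_sum]
  refine Finset.sum_congr rfl fun i _ => ?_
  rw [smul_smul]
  congr 1
  ring

/-- pairs `(z, r)`: all `z j` lie in a zonogon with realizable sides of cost at most `r`. -/
def zonoCone (β : ℝ) (ι : Type) : ConvexCone ℝ ((ι → Plane) × ℝ) where
  carrier := {q | ∃ (m : ℕ) (v : Fin m → Site) (x c : Fin m → ℝ), (∀ i, 0 < x i) ∧
      (∀ i, Realizable β (v i) (c i)) ∧ (∀ j, q.1 j ∈ zonogon v x) ∧ 2 * ∑ i, x i * c i ≤ q.2}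
  smul_mem' := by
    rintro a ha q ⟨m, v, x, c, hx, hr, hz, hc⟩
    refine ⟨m, v, fun i => a * x i, c, fun i => mul_pos ha (hx i), hr, fun j => ?_, ?_⟩
    · exact zonogon_smul (hz j) a
    · have : 2 * ∑ i, a * x i * c i = a * (2 * ∑ i, x i * c i) := by
        rw [Finset.mul_sum, Finset.mul_sum, Finset.mul_sum]
        refine Finset.sum_congr rfl fun i _ => ?_
        ring
      rw [this]
      exact mul_le_mul_of_nonneg_left hc ha.le
  add_mem' := by
    rintro q ⟨m, v, x, c, hx, hr, hz, hc⟩ q' ⟨m', v', x', c', hx', hr', hz', hc'⟩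
    refine ⟨m + m', Fin.append v v', Fin.append x x', Fin.append c c', fun i => ?_, fun i => ?_,
      fun j => ?_, ?_⟩
    · refine Fin.addCases (fun i => ?_) (fun i => ?_) i
      · rw [Fin.append_left]; exact hx i
      · rw [Fin.append_right]; exact hx' i
    · refine Fin.addCases (fun i => ?_) (fun i => ?_) i
      · rw [Fin.append_left, Fin.append_left]; exact hr i
      · rw [Fin.append_right, Fin.append_right]; exact hr' i
    · exact zonogon_append (hz j) (hz' j)
    · rw [Fin.sum_univ_add]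
      simp only [Fin.append_left, Fin.append_right]
      have : (q + q').2 = q.2 + q'.2 := rfl
      rw [this]
      linarith

theorem mem_zonoCone {β : ℝ} {ι : Type} {q : (ι → Plane) × ℝ} : q ∈ zonoCone β ι ↔
    ∃ (m : ℕ) (v : Fin m → Site) (x c : Fin m → ℝ), (∀ i, 0 < x i) ∧
      (∀ i, Realizable β (v i) (c i)) ∧ (∀ j, q.1 j ∈ zonogon v x) ∧ 2 * ∑ i, x i * c i ≤ q.2 :=
  Iff.rfl

/-- one realizable pair -/
theorem single_mem {β : ℝ} {ι : Type} {v : Site} {c : ℝ} (h : Realizable β v c) (s : ι → ℝ)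
    (hs : ∀ j, |s j| ≤ 1 / 2) : ((fun j => s j • toPlane v, 2 * c) : (ι → Plane) × ℝ) ∈
      zonoCone β ι := by
  refine ⟨1, fun _ => v, fun _ => 1, fun _ => c, fun _ => one_pos, fun _ => h, fun j => ?_, ?_⟩
  · exact ⟨fun _ => s j, fun _ => hs j, by simp⟩
  · simp

theorem zero_mem_zonoCone {β : ℝ} {ι : Type} {r : ℝ} (hr : 0 ≤ r) :
    ((0, r) : (ι → Plane) × ℝ) ∈ zonoCone β ι := by
  refine ⟨0, Fin.elim0, Fin.elim0, Fin.elim0, fun i => i.elim0, fun i => i.elim0, fun j => ?_, ?_⟩
  · exact ⟨Fin.elim0, fun i => i.elim0, by simp⟩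
  · simpa using hr

theorem two_mul_inner_le_width {K : Set Plane} (hK : IsCompact K) (hs : -K = K) {k : Plane}
    (hk : k ∈ K) (u : Plane) : 2 * inner ℝ u k ≤ width K u := by
  have hcont : ContinuousOn (fun x : Plane => (inner ℝ u x : ℝ)) K := by fun_prop
  have hb := (hK.image_of_continuousOn hcont)
  have h1 : inner ℝ u k ≤ sSup ((fun x : Plane => (inner ℝ u x : ℝ)) '' K) :=
    le_csSup hb.bddAbove ⟨k, hk, rfl⟩
  have hk' : -k ∈ K := by rw [← hs]; simpa using hk
  have h2 : sInf ((fun x : Plane => (inner ℝ u x : ℝ)) '' K) ≤ inner ℝ u (-k) :=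
    csInf_le hb.bddBelow ⟨-k, hk', rfl⟩
  rw [inner_neg_right] at h2
  unfold width
  linarith

theorem width_le {K : Set Plane} (hne : K.Nonempty) {M : ℝ} (hM : ∀ k ∈ K, ‖k‖ ≤ M) (u : Plane) :
    width K u ≤ 2 * M * ‖u‖ := by
  have hin : ∀ k ∈ K, |(inner ℝ u k : ℝ)| ≤ ‖u‖ * M := fun k hk =>
    (abs_real_inner_le_norm u k).trans (mul_le_mul_of_nonneg_left (hM k hk) (norm_nonneg _))
  have h1 : sSup ((fun x : Plane => (inner ℝ u x : ℝ)) '' K) ≤ ‖u‖ * M := by
    refine csSup_le (hne.image _) ?_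
    rintro _ ⟨k, hk, rfl⟩
    exact (abs_le.1 (hin k hk)).2
  have h2 : -(‖u‖ * M) ≤ sInf ((fun x : Plane => (inner ℝ u x : ℝ)) '' K) := by
    refine le_csInf (hne.image _) ?_
    rintro _ ⟨k, hk, rfl⟩
    exact (abs_le.1 (hin k hk)).1
  unfold width
  linarith

theorem inner_toPlane (u : Plane) (v : Site) :
    (inner ℝ u (toPlane v) : ℝ) = u 0 * v.1 + u 1 * v.2 := by
  simp [toPlane, PiLp.inner_apply, Fin.sum_univ_two]
  ring

theorem norm_le_abs_add (u : Plane) : ‖u‖ ≤ |u 0| + |u 1| := by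
  rw [EuclideanSpace.norm_eq, Real.sqrt_le_left (by positivity), Fin.sum_univ_two]
  simp only [Real.norm_eq_abs]
  nlinarith [abs_nonneg (u 0), abs_nonneg (u 1)]

theorem admZ_norm {β c₀ : ℝ} (h0 : Realizable β (0, 1) c₀) (h1 : Realizable β (-1, 0) c₀)
    {ρ : List Plane} (hρ : AdmZ β ρ) : (ρ.map (fun u => ‖u‖)).sum ≤ 2 * c₀ := by
  have a0 := hρ _ _ h0
  have a1 := hρ _ _ h1
  have hle : (ρ.map (fun u => ‖u‖)).sum ≤ (ρ.map (fun u : Plane =>
      |inner ℝ u (toPlane (0, 1))| + |inner ℝ u (toPlane (-1, 0))|)).sum := by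
    refine List.sum_le_sum fun u _ => ?_
    rw [inner_toPlane, inner_toPlane]
    have := norm_le_abs_add u
    simp only [Int.cast_zero, mul_zero, Int.cast_one, mul_one, zero_add, Int.cast_neg, mul_neg,
      add_zero, abs_neg]
    linarith
  rw [List.sum_map_add] at hle
  linarith

/-- the set in the definition of `PP` is bounded -/
theorem PP_bdd {β c₀ : ℝ} (h0 : Realizable β (0, 1) c₀) (h1 : Realizable β (-1, 0) c₀)
    {K : Set Plane} (hK : CC K) :
    BddAbove {r | ∃ ρ : List Plane, AdmZ β ρ ∧ r = 2 * (ρ.map (width K)).sum} := by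
  obtain ⟨M, hM⟩ := hK.2.1.isBounded.exists_norm_le
  obtain ⟨k, hk⟩ := hK.1
  have hM0 : 0 ≤ M := (norm_nonneg k).trans (hM k hk)
  refine ⟨2 * (2 * M * (2 * c₀)), ?_⟩
  rintro r ⟨ρ, hρ, rfl⟩
  have h2 : (ρ.map (width K)).sum ≤ (ρ.map (fun u : Plane => 2 * M * ‖u‖)).sum :=
    List.sum_le_sum fun u _ => width_le hK.1 hM u
  rw [List.sum_map_mul_left] at h2
  have h3 := admZ_norm h0 h1 hρ
  have h4 : 2 * M * (ρ.map (fun u => ‖u‖)).sum ≤ 2 * M * (2 * c₀) :=
    mul_le_mul_of_nonneg_left h3 (by linarith)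
  linarith

theorem le_PP {β c₀ : ℝ} (h0 : Realizable β (0, 1) c₀) (h1 : Realizable β (-1, 0) c₀)
    {K : Set Plane} (hK : CC K) {ρ : List Plane} (hρ : AdmZ β ρ) :
    2 * (ρ.map (width K)).sum ≤ PP β K :=
  le_csSup (PP_bdd h0 h1 hK) ⟨ρ, hρ, rfl⟩

theorem PP_nonneg {β a c₀ : ℝ} (ha : 0 < a)
    (hlow : ∀ v c, Realizable β v c → a * ‖toPlane v‖ ≤ c) (h0 : Realizable β (0, 1) c₀)
    (h1 : Realizable β (-1, 0) c₀) {K : Set Plane} (hK : CC K) : 0 ≤ PP β K := by
  have hnil : AdmZ β [] := by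
    intro v c h
    have := hlow v c h
    simp only [List.map_nil, List.sum_nil]
    exact (mul_nonneg ha.le (norm_nonneg _)).trans this
  have := le_PP h0 h1 hK hnil
  simpa using this

/-- the zonotope cone has an interior point -/
theorem zonoCone_interior {β c₀ : ℝ} (h0 : Realizable β (0, 1) c₀) (h1 : Realizable β (-1, 0) c₀)
    (ι : Type) [Fintype ι] : (interior (zonoCone β ι : Set ((ι → Plane) × ℝ))).Nonempty := by
  refine ⟨(0, 4 * c₀ + 1), ?_⟩
  rw [mem_interior]
  refine ⟨{q | (∀ j, |q.1 j 0| < 1 / 2 ∧ |q.1 j 1| < 1 / 2) ∧ 4 * c₀ < q.2}, ?_, ?_, ?_⟩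
  · rintro ⟨z, r⟩ ⟨hz, hr⟩
    have e1 := single_mem (ι := ι) h0 (fun j => z j 1) (fun j => (hz j).2.le)
    have e2 := single_mem (ι := ι) h1 (fun j => -(z j 0))
      (fun j => by rw [abs_neg]; exact (hz j).1.le)
    have e3 := zero_mem_zonoCone (β := β) (ι := ι) (r := r - 4 * c₀) (by simp at hr; linarith)
    have e4 := (zonoCone β ι).add_mem ((zonoCone β ι).add_mem e1 e2) e3
    have : ((z, r) : (ι → Plane) × ℝ) = ((fun j => z j 1 • toPlane (0, 1), 2 * c₀) +
        (fun j => (-(z j 0)) • toPlane (-1, 0), 2 * c₀) + (0, r - 4 * c₀)) := by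
      refine Prod.ext ?_ ?_
      · funext j
        simp only [Prod.fst_add, Pi.add_apply, Pi.zero_apply, add_zero]
        ext i
        fin_cases i <;> simp [toPlane]
      · simp only [Prod.snd_add]; ring
    rw [this]
    exact e4
  · refine IsOpen.and ?_ (isOpen_lt continuous_const continuous_snd)
    have : {q : (ι → Plane) × ℝ | ∀ j, |q.1 j 0| < 1 / 2 ∧ |q.1 j 1| < 1 / 2} =
        ⋂ j, {q : (ι → Plane) × ℝ | |q.1 j 0| < 1 / 2 ∧ |q.1 j 1| < 1 / 2} := by
      ext q; simp
    show IsOpen {q : (ι → Plane) × ℝ | ∀ j, |q.1 j 0| < 1 / 2 ∧ |q.1 j 1| < 1 / 2}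
    rw [this]
    refine isOpen_iInter_of_finite fun j => ?_
    refine IsOpen.and ?_ ?_
    · exact isOpen_lt (by fun_prop) continuous_const
    · exact isOpen_lt (by fun_prop) continuous_const
  · constructor
    · intro j; simp
    · simp

/-- **LP duality**, core version. -/
theorem exists_zonogon_core {β a c₀ : ℝ} (ha : 0 < a)
    (hlow : ∀ v c, Realizable β v c → a * ‖toPlane v‖ ≤ c) (h0 : Realizable β (0, 1) c₀)
    (h1 : Realizable β (-1, 0) c₀)
    {K : Set Plane} (hK : CC K) (hKi : (interior K).Nonempty) (hs : -K = K) {ε : ℝ} (hε : 0 < ε) :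
    ∃ (m : ℕ) (v : Fin m → Site) (x c : Fin m → ℝ), (∀ i, 0 < x i) ∧
      (∀ i, Realizable β (v i) (c i)) ∧ K ⊆ zonogon v x ∧
      2 * ∑ i, x i * c i ≤ PP β K + ε := by
  classical
  have hP := PP_nonneg ha hlow h0 h1 hK
  set P := PP β K with hPdef
  set δ := ε / (2 * (P + 1)) with hδ
  have hδ0 : 0 < δ := by positivity
  have hδP : δ * P < ε := by
    rw [hδ, div_mul_eq_mul_div, div_lt_iff₀ (by positivity)]
    nlinarith
  -- `0` is an interior point
  have hzero : (0 : Plane) ∈ interior K := by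
    obtain ⟨y, hy⟩ := hKi
    have hy' : -y ∈ interior K := by
      have h2 : -interior K ⊆ interior K := by
        refine interior_maximal ?_ isOpen_interior.neg
        intro z hz
        have hz' : -z ∈ K := interior_subset (Set.mem_neg.1 hz)
        rw [← hs]
        exact Set.mem_neg.2 hz'
      exact h2 (by simpa using hy)
    have := (hK.2.2.interior) hy hy' (a := 1 / 2) (b := 1 / 2) (by norm_num) (by norm_num)
      (by norm_num)
    simpa using this
  -- finitely many points
  obtain ⟨F, hF1, hF2⟩ := hK.2.2.exists_subset_interior_convexHull_finset_of_isCompact hK.2.1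
    (t := AffineMap.homothety (0 : Plane) (1 + δ) '' K) (by
      have h := hK.2.2.subset_interior_image_homothety_of_one_lt hzero (1 + δ) (by linarith)
      exact mem_nhdsSet_iff_forall.2 fun x hx => mem_interior_iff_mem_nhds.1 (h hx))
  have hFK : K ⊆ convexHull ℝ (F : Set Plane) := hF1.trans interior_subset
  have hFp : ∀ p ∈ F, ∃ k ∈ K, p = (1 + δ) • k := by
    intro p hp
    obtain ⟨k, hk, rfl⟩ := hF2 (subset_convexHull ℝ _ hp)
    exact ⟨k, hk, by simp [AffineMap.homothety_apply, add_smul]⟩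
  -- the cone
  have key : ((fun p : F => (p : Plane), P + ε) : (F → Plane) × ℝ) ∈ zonoCone β F := by
    by_contra hnot
    obtain ⟨f, hf0, hf⟩ := geometric_hahn_banach_of_nonempty_interior_point
      (zonoCone β F).convex (x := ((fun p : F => (p : Plane), P + ε) : (F → Plane) × ℝ))
      (fun h => hnot (interior_subset h)) (zonoCone_interior h0 h1 F)
    have hneg : ∀ q ∈ zonoCone β F, f q ≤ 0 := by
      intro q hq
      by_contra hpos
      push Not at hpos
      set y := f ((fun p : F => (p : Plane), P + ε) : (F → Plane) × ℝ) with hy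
      have h2 : f (((|y| + 1) / f q) • q) ≤ y :=
        hf _ ((zonoCone β F).smul_mem (by positivity) hq)
      rw [map_smul, smul_eq_mul, div_mul_cancel₀ _ hpos.ne'] at h2
      linarith [le_abs_self y]
    -- the representing vectors
    set g : F → (Plane →L[ℝ] ℝ) := fun p =>
      f.comp ((ContinuousLinearMap.inl ℝ (F → Plane) ℝ).comp
        (ContinuousLinearMap.single ℝ (fun _ : F => Plane) p)) with hg
    set u : F → Plane := fun p => (InnerProductSpace.toDual ℝ Plane).symm (g p) with hu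
    have hug : ∀ p z, (inner ℝ (u p) z : ℝ) = g p z := fun p z =>
      InnerProductSpace.toDual_symm_apply
    have hfq : ∀ q : (F → Plane) × ℝ, f q = ∑ p, (inner ℝ (u p) (q.1 p) : ℝ) + q.2 * f (0, 1) := by
      intro q
      have e : q = (∑ p, ((Pi.single p (q.1 p), 0) : (F → Plane) × ℝ)) + q.2 • (0, 1) := by
        refine Prod.ext ?_ ?_
        · rw [Prod.fst_add, Prod.fst_sum]
          simp only [Prod.smul_fst, smul_zero, add_zero]
          exact (Finset.univ_sum_single q.1).symm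
        · rw [Prod.snd_add, Prod.snd_sum]
          simp
      conv_lhs => rw [e]
      rw [map_add, map_sum, map_smul, smul_eq_mul]
      congr 1
      refine Finset.sum_congr rfl fun p _ => ?_
      rw [hug]
      simp [hg]
    set σ := -f (0, 1) with hσ
    have hσ0 : 0 ≤ σ := by
      have := hneg _ (zero_mem_zonoCone (β := β) (ι := F) (r := 1) (by norm_num))
      linarith
    have hineq : ∀ v c, Realizable β v c → ∑ p, |(inner ℝ (u p) (toPlane v) : ℝ)| ≤ 4 * σ * c := by
      intro v c hvc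
      have h2 := hneg _ (single_mem (ι := F) hvc
        (fun p => if 0 ≤ (inner ℝ (u p) (toPlane v) : ℝ) then 1 / 2 else -(1 / 2))
        (fun p => by split_ifs <;> norm_num [abs_of_pos]))
      rw [hfq] at h2
      simp only [inner_smul_right] at h2
      have h3 : ∀ p, (if 0 ≤ (inner ℝ (u p) (toPlane v) : ℝ) then (1 : ℝ) / 2 else -(1 / 2)) *
          inner ℝ (u p) (toPlane v) = |(inner ℝ (u p) (toPlane v) : ℝ)| / 2 := by
        intro p
        split_ifs with hh
        · rw [abs_of_nonneg hh]; ring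
        · rw [abs_of_neg (not_le.1 hh)]; ring
      simp only [h3] at h2
      rw [← Finset.sum_div] at h2
      linarith
    have hσpos : 0 < σ := by
      rcases hσ0.lt_or_eq with h | h
      · exact h
      · exfalso
        apply hf0
        have hu0 : ∀ p, u p = 0 := by
          intro p
          have b0 := hineq _ _ h0
          have b1 := hineq _ _ h1
          rw [← h] at b0 b1
          simp only [mul_zero, zero_mul] at b0 b1
          have c0 := (Finset.single_le_sum (fun p _ => abs_nonneg _) (Finset.mem_univ p)).trans b0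
          have c1 := (Finset.single_le_sum (fun p _ => abs_nonneg _) (Finset.mem_univ p)).trans b1
          rw [inner_toPlane] at c0 c1
          simp only [Int.cast_zero, mul_zero, Int.cast_one, mul_one, zero_add, Int.cast_neg,
            mul_neg, add_zero, abs_neg] at c0 c1
          have := norm_le_abs_add (u p)
          have h9 : ‖u p‖ ≤ 0 := by linarith
          exact norm_le_zero_iff.1 h9
        refine ContinuousLinearMap.ext fun q => ?_
        rw [hfq]
        have : f (0, 1) = 0 := by linarith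
        simp [hu0, this]
    -- the admissible list
    set ρ : List Plane := (Finset.univ : Finset F).toList.map (fun p => (4 * σ)⁻¹ • u p) with hρ
    have hsum : ∀ w : Plane → ℝ, (ρ.map w).sum = ∑ p : F, w ((4 * σ)⁻¹ • u p) := by
      intro w
      rw [hρ, List.map_map]
      exact Finset.sum_map_toList _ _
    have hadm : AdmZ β ρ := by
      intro v c hvc
      rw [hsum]
      have h2 := hineq v c hvc
      have h3 : ∀ p : F, |(inner ℝ ((4 * σ)⁻¹ • u p) (toPlane v) : ℝ)| =
          (4 * σ)⁻¹ * |(inner ℝ (u p) (toPlane v) : ℝ)| := by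
        intro p
        rw [real_inner_smul_left, abs_mul, abs_of_pos (by positivity)]
      simp only [h3]
      rw [← Finset.mul_sum, inv_mul_le_iff₀ (by positivity)]
      linarith
    have hwid := le_PP h0 h1 hK hadm
    rw [hsum] at hwid
    -- compare
    have hx := hf _ (zero_mem_zonoCone (β := β) (ι := F) (r := 0) le_rfl)
    have hz : ((0, 0) : (F → Plane) × ℝ) = 0 := rfl
    rw [hz, map_zero, hfq] at hx
    have hx2 : σ * (P + ε) ≤ ∑ p : F, (inner ℝ (u p) (p : Plane) : ℝ) := by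
      simp only at hx
      nlinarith
    have hx3 : ∀ p : F, (inner ℝ (u p) (p : Plane) : ℝ) ≤
        (1 + δ) * (2 * σ) * width K ((4 * σ)⁻¹ • u p) := by
      intro p
      obtain ⟨k, hk, hpk⟩ := hFp p p.2
      have h2 := two_mul_inner_le_width hK.2.1 hs hk ((4 * σ)⁻¹ • u p)
      rw [real_inner_smul_left] at h2
      rw [hpk, real_inner_smul_right]
      have h3 : (inner ℝ (u p) k : ℝ) ≤ 2 * σ * width K ((4 * σ)⁻¹ • u p) := by
        have h4 : (inner ℝ (u p) k : ℝ) = 2 * σ * (2 * ((4 * σ)⁻¹ * inner ℝ (u p) k)) := by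
          field_simp
          ring
        rw [h4]
        exact mul_le_mul_of_nonneg_left h2 (by positivity)
      calc (1 + δ) * (inner ℝ (u p) k : ℝ) ≤ (1 + δ) * (2 * σ * width K ((4 * σ)⁻¹ • u p)) :=
            mul_le_mul_of_nonneg_left h3 (by positivity)
        _ = _ := by ring
    have hx4 := hx2.trans (Finset.sum_le_sum fun p _ => hx3 p)
    rw [← Finset.mul_sum] at hx4
    have hx5 : (1 + δ) * (2 * σ) * ∑ p : F, width K ((4 * σ)⁻¹ • u p) ≤ (1 + δ) * σ * P := by
      calc (1 + δ) * (2 * σ) * ∑ p : F, width K ((4 * σ)⁻¹ • u p)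
          = (1 + δ) * σ * (2 * ∑ p : F, width K ((4 * σ)⁻¹ • u p)) := by ring
        _ ≤ (1 + δ) * σ * P := mul_le_mul_of_nonneg_left hwid (by positivity)
    have hx6 : σ * (P + ε) ≤ σ * ((1 + δ) * P) := by linarith
    have hx7 := le_of_mul_le_mul_left hx6 hσpos
    linarith
  obtain ⟨m, v, x, c, hx, hr, hz, hc⟩ := key
  refine ⟨m, v, x, c, hx, hr, ?_, hc⟩
  refine hFK.trans (convexHull_min ?_ (zonogon_convex v x))
  intro p hp
  exact hz ⟨p, hp⟩

/-- **LP duality.** -/
theorem exists_zonogon {β a c₀ : ℝ} (ha : 0 < a)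
    (hlow : ∀ v c, Realizable β v c → a * ‖toPlane v‖ ≤ c) (h0 : Realizable β (0, 1) c₀)
    {K : Set Plane} (hK : CC K) (hKi : (interior K).Nonempty) (hs : -K = K) {ε : ℝ} (hε : 0 < ε) :
    ∃ (m : ℕ) (v : Fin m → Site) (x c : Fin m → ℝ), (∀ i, 0 < x i) ∧
      (∀ i, Realizable β (v i) (c i)) ∧ K ⊆ zonogon v x ∧
      2 * ∑ i, x i * c i ≤ PP β K + ε :=
  exists_zonogon_core ha hlow h0 (by simpa using realizable_rot h0) hK hKi hs hε

end Pool.Agent.WSB71
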