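import Pool.Agent.WSB71.GBlocks
import Pool.Agent.WSB71.GeoDef
import Pool.Agent.WSB71.LPdual

/-!
# UB: the surface tension, rotations
-/

open MeasureTheory Filter Topology
open scoped NNReal ENNReal

namespace Pool.Agent.WSB71

open Pool.Agent.LT

namespace GeoB

/-- all unit directions are realizable with the same cost -/
lemma real_units {β c₀ : ℝ} (h : Realizable β (0, 1) c₀) : Realizable β (-1, 0) c₀ ∧
    Realizable β (0, -1) c₀ ∧ Realizable β (1, 0) c₀ := by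
  have h1 := realizable_rot h
  have h2 := realizable_rot h1
  have h3 := realizable_rot h2
  simp only [neg_zero, neg_neg] at h1 h2 h3
  exact ⟨h1, h2, h3⟩

lemma WW_zero {β : ℝ} (hβ : 0 ≤ β) (hlow : ∀ v c, Realizable β v c → β / 2 * ‖toPlane v‖ ≤ c) :
    (0 : Plane) ∈ WW β := by
  intro v c h
  rw [inner_zero_left]
  exact (mul_nonneg (by linarith) (norm_nonneg _)).trans (hlow v c h)

lemma WW_bd {β c₀ : ℝ} (h : Realizable β (0, 1) c₀) {w : Plane} (hw : w ∈ WW β) :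
    |w 0| ≤ c₀ ∧ |w 1| ≤ c₀ := by
  obtain ⟨h1, h2, h3⟩ := real_units h
  have a0 := hw _ _ h
  have a1 := hw _ _ h1
  have a2 := hw _ _ h2
  have a3 := hw _ _ h3
  rw [inner_toPlane] at a0 a1 a2 a3
  simp only [Int.cast_zero, mul_zero, Int.cast_one, mul_one, zero_add, Int.cast_neg, mul_neg,
    add_zero] at a0 a1 a2 a3
  exact ⟨abs_le.2 ⟨by linarith, by linarith⟩, abs_le.2 ⟨by linarith, by linarith⟩⟩

lemma WW_compact {β c₀ : ℝ} (h : Realizable β (0, 1) c₀) : IsCompact (WW β) := by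
  refine Metric.isCompact_of_isClosed_isBounded ?_ ?_
  · have : WW β = ⋂ v : Site, ⋂ c : ℝ, ⋂ _ : Realizable β v c,
        {w : Plane | inner ℝ w (toPlane v) ≤ c} := by
      ext w
      simp [WW]
    rw [this]
    refine isClosed_iInter fun v => isClosed_iInter fun c => isClosed_iInter fun _ => ?_
    exact isClosed_le (by fun_prop) continuous_const
  · rw [isBounded_iff_forall_norm_le]
    refine ⟨c₀ + c₀, fun w hw => ?_⟩
    have h1 := WW_bd h hw
    exact (norm_le_abs_add w).trans (add_le_add h1.1 h1.2)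

lemma tau_bdd {β c₀ : ℝ} (h : Realizable β (0, 1) c₀) (v : Plane) :
    BddAbove ((fun w : Plane => (inner ℝ w v : ℝ)) '' WW β) :=
  ((WW_compact h).image (by fun_prop)).bddAbove

lemma le_tau {β c₀ : ℝ} (h : Realizable β (0, 1) c₀) {w : Plane} (hw : w ∈ WW β) (v : Plane) :
    inner ℝ w v ≤ tau β v := le_csSup (tau_bdd h v) ⟨w, hw, rfl⟩

lemma exists_tau {β c₀ : ℝ} (hβ : 0 ≤ β)
    (hlow : ∀ v c, Realizable β v c → β / 2 * ‖toPlane v‖ ≤ c) (h : Realizable β (0, 1) c₀)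
    (v : Plane) : ∃ w ∈ WW β, inner ℝ w v = tau β v := by
  obtain ⟨w, hw, hmax⟩ := (WW_compact h).exists_isMaxOn ⟨0, WW_zero hβ hlow⟩
    (f := fun w : Plane => (inner ℝ w v : ℝ)) (by fun_prop)
  refine ⟨w, hw, le_antisymm (le_tau h hw v) ?_⟩
  refine csSup_le (Set.Nonempty.image _ ⟨0, WW_zero hβ hlow⟩) ?_
  rintro _ ⟨w', hw', rfl⟩
  exact hmax hw'

/-- rotation of normals -/
lemma WW_rot {β : ℝ} {w : Plane} (hw : w ∈ WW β) : !₂[-w 1, w 0] ∈ WW β := by
  intro v c hv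
  have h3 := realizable_rot (realizable_rot (realizable_rot hv))
  have h4 := hw _ _ h3
  rw [inner_toPlane] at h4 ⊢
  simp only [neg_neg] at h4
  simp
  push_cast at h4
  linarith

lemma tau_rot_le {β c₀ : ℝ} (hβ : 0 ≤ β)
    (hlow : ∀ v c, Realizable β v c → β / 2 * ‖toPlane v‖ ≤ c) (h : Realizable β (0, 1) c₀)
    (v : Site) : tau β (toPlane v) ≤ tau β (toPlane (-v.2, v.1)) := by
  obtain ⟨w, hw, he⟩ := exists_tau hβ hlow h (toPlane v)
  rw [← he]
  refine le_trans (le_of_eq ?_) (le_tau h (WW_rot hw) _)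
  rw [inner_toPlane, inner_toPlane]
  simp
  ring

lemma tau_rot {β c₀ : ℝ} (hβ : 0 ≤ β)
    (hlow : ∀ v c, Realizable β v c → β / 2 * ‖toPlane v‖ ≤ c) (h : Realizable β (0, 1) c₀)
    (v : Site) : tau β (toPlane (-v.2, v.1)) = tau β (toPlane v) := by
  have h1 := tau_rot_le hβ hlow h v
  have h2 := tau_rot_le hβ hlow h (-v.2, v.1)
  have h3 := tau_rot_le hβ hlow h (-v.1, -v.2)
  have h4 := tau_rot_le hβ hlow h (v.2, -v.1)
  simp only [neg_neg] at h2 h3 h4
  have e : ((v.1, v.2) : Site) = v := rfl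
  rw [e] at h4
  linarith

lemma tau_rd {β c₀ : ℝ} (hβ : 0 ≤ β)
    (hlow : ∀ v c, Realizable β v c → β / 2 * ‖toPlane v‖ ≤ c) (h : Realizable β (0, 1) c₀)
    (r : ℕ) (v : Site) : tau β (toPlane (rd r v)) = tau β (toPlane v) := by
  induction r generalizing v with
  | zero => rfl
  | succ r ih =>
    change tau β (toPlane (rd r (-v.2, v.1))) = _
    rw [ih, tau_rot hβ hlow h]

/-- rotation into the first quadrant -/
lemma exists_rd (v : Site) : ∃ r < 4, 0 ≤ (rd r v).1 ∧ 0 ≤ (rd r v).2 := by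
  rcases le_or_gt 0 v.1 with h1 | h1 <;> rcases le_or_gt 0 v.2 with h2 | h2
  · exact ⟨0, by norm_num, h1, h2⟩
  · refine ⟨1, by norm_num, ?_, ?_⟩ <;> simp only [rd] <;> omega
  · refine ⟨3, by norm_num, ?_, ?_⟩ <;> simp only [rd] <;> omega
  · refine ⟨2, by norm_num, ?_, ?_⟩ <;> simp only [rd] <;> omega

lemma rd_sub (r : ℕ) (x y : Site) : rd r (x - y) = rd r x - rd r y := by
  induction r generalizing x y with
  | zero => rfl
  | succ r ih =>
    change rd r (-(x - y).2, (x - y).1) = rd r (-x.2, x.1) - rd r (-y.2, y.1)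
    rw [← ih]
    congr 1
    ext
    · simp; ring
    · simp

lemma rd_adj (r : ℕ) {x y : Site} (h : Adj x y) : Adj (rd r x) (rd r y) := by
  induction r generalizing x y with
  | zero => exact h
  | succ r ih =>
    change Adj (rd r (-x.2, x.1)) (rd r (-y.2, y.1))
    apply ih
    unfold Adj units at h ⊢
    simp only [Finset.mem_insert, Finset.mem_singleton, Prod.ext_iff, Prod.fst_sub,
      Prod.snd_sub] at h ⊢
    omega

/-- the `T`-coordinate changes by one -/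
lemma Tr_step {p : ℤ → Site} (hp : ∀ i, Adj (p i) (p (i + 1))) (r : ℕ) (i : ℤ) :
    Tr p r (i + 1) = Tr p r i + 1 ∨ Tr p r (i + 1) = Tr p r i - 1 := by
  have h := rd_adj r (hp i)
  unfold Tr Td
  unfold Adj units at h
  simp only [Finset.mem_insert, Finset.mem_singleton, Prod.ext_iff, Prod.fst_sub,
      Prod.snd_sub] at h
  omega

/-- the increase of the `T`-coordinate -/
lemma Tr_inc {p : ℤ → Site} (hp : ∀ i, Adj (p i) (p (i + 1))) (r : ℕ) {F : Set ℤ}
    (hF : ∀ i, Tr p r (i + 1) < Tr p r i → i ∈ F) {i j : ℤ} (hij : i ≤ j) :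
    j - i - 2 * (nfl F i j : ℤ) ≤ Tr p r j - Tr p r i := by
  classical
  obtain ⟨k, hk⟩ := Int.eq_ofNat_of_zero_le (sub_nonneg.2 hij)
  have e : j = i + k := by linarith
  subst e
  clear hk hij
  induction k with
  | zero => simp [GBlocks.nfl_self]
  | succ k ih =>
    have e : i + ((k + 1 : ℕ) : ℤ) = i + k + 1 := by push_cast; ring
    rw [e, GBlocks.nfl_succ F (by omega : i ≤ i + (k : ℤ))]
    rcases Tr_step hp r (i + k) with h | h
    · have : (0 : ℤ) ≤ (if i + (k : ℤ) ∈ F then 1 else 0) := by split_ifs <;> norm_num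
      omega
    · rw [if_pos (hF _ (by omega))]
      omega

/-- a good normal for a vector in the first quadrant -/
lemma exists_normal {β c₀ : ℝ} (hβ : 0 ≤ β)
    (hlow : ∀ v c, Realizable β v c → β / 2 * ‖toPlane v‖ ≤ c) (h : Realizable β (0, 1) c₀)
    {v : Site} (h1 : 0 ≤ v.1) (h2 : 0 ≤ v.2) : ∃ w : ℝ × ℝ, (0 ≤ w.1 ∧ 0 ≤ w.2) ∧
      (w.1 ≤ c₀ ∧ w.2 ≤ c₀) ∧ w.1 * v.1 + w.2 * v.2 = tau β (toPlane v) ∧
      ∀ u : Site, w.1 * u.1 + w.2 * u.2 ≤ tau β (toPlane u) := by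
  obtain ⟨w, hw, he⟩ := exists_tau hβ hlow h (toPlane v)
  have hw' := WW_abs hw
  have hb := WW_bd h hw
  have hle : ∀ u : Site, |w 0| * u.1 + |w 1| * u.2 ≤ tau β (toPlane u) := by
    intro u
    have := le_tau h hw' (toPlane u)
    rw [inner_toPlane] at this
    simpa using this
  refine ⟨(|w 0|, |w 1|), ⟨abs_nonneg _, abs_nonneg _⟩, hb, le_antisymm (hle v) ?_, hle⟩
  rw [← he, inner_toPlane]
  have a1 : (0 : ℝ) ≤ v.1 := by exact_mod_cast h1
  have a2 : (0 : ℝ) ≤ v.2 := by exact_mod_cast h2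
  exact add_le_add (mul_le_mul_of_nonneg_right (le_abs_self _) a1)
    (mul_le_mul_of_nonneg_right (le_abs_self _) a2)

end GeoB

end Pool.Agent.WSB71
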