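import Pool.Agent.WSB71.TileParity
import Pool.Agent.WSB71.UGeoTau

/-!
# G4: zones of eligible blocks

Everything is proved in normalised coordinates (`GZ.NB`), in which the block starts at the dual
vertex `0` and goes to the north east.
-/

open MeasureTheory Filter Topology
open scoped NNReal ENNReal

namespace Pool.Agent.WSB71

open Pool.Agent.LT

namespace GZ

/-! ### rotations -/

theorem adj_iff (x y : Site) : Adj x y ↔
    (y.1 = x.1 + 1 ∧ y.2 = x.2) ∨ (y.1 = x.1 - 1 ∧ y.2 = x.2) ∨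
    (y.1 = x.1 ∧ y.2 = x.2 + 1) ∨ (y.1 = x.1 ∧ y.2 = x.2 - 1) := by
  simp only [Adj, units, Finset.mem_insert, Finset.mem_singleton, Prod.ext_iff, Prod.fst_sub,
    Prod.snd_sub]
  omega

theorem rd_sub (r : ℕ) (x y : Site) : rd r (x - y) = rd r x - rd r y := by
  induction r generalizing x y with
  | zero => rfl
  | succ r ih =>
    simp only [rd]
    rw [← ih]
    congr 1
    ext <;> simp <;> ring

theorem rs_sub (r : ℕ) (x y : Site) : rs r (x - y) = rs r x - rd r y := by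
  induction r generalizing x y with
  | zero => rfl
  | succ r ih =>
    simp only [rd, rs]
    rw [← ih]
    congr 1
    ext <;> simp <;> ring

theorem rd_zero (r : ℕ) : rd r 0 = 0 := by
  have := rd_sub r 0 0
  simpa using this

theorem rs_sub_rs (r : ℕ) (x y : Site) : rs r x - rs r y = rd r (x - y) := by
  have h := rs_sub r x (x - y)
  rw [sub_sub_cancel] at h
  rw [h, sub_sub_cancel]

/-- sup norm -/
def nrm (z : Site) : ℕ := max z.1.natAbs z.2.natAbs

theorem sd_eq (x y : Site) : sd x y = nrm (x - y) := rfl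

theorem nrm_rd (r : ℕ) (z : Site) : nrm (rd r z) = nrm z := by
  induction r generalizing z with
  | zero => rfl
  | succ r ih =>
    simp only [rd]
    rw [ih]
    simp only [nrm, Int.natAbs_neg]
    exact max_comm _ _

theorem rs_box (r : ℕ) (z : Site) (h : 0 ≤ z.1 ∧ z.1 ≤ 1 ∧ 0 ≤ z.2 ∧ z.2 ≤ 1) :
    0 ≤ (rs r z).1 ∧ (rs r z).1 ≤ 1 ∧ 0 ≤ (rs r z).2 ∧ (rs r z).2 ≤ 1 := by
  induction r generalizing z with
  | zero => exact h
  | succ r ih =>
    simp only [rs]
    exact ih _ ⟨by simp; omega, by simp; omega, by simp; omega, by simp; omega⟩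

theorem nrm_le_rs (r : ℕ) (z : Site) : nrm z ≤ nrm (rs r z) + 1 := by
  have h1 := rs_box r 0 ⟨by simp, by simp, by simp, by simp⟩
  have h2 : rs r z - rs r 0 = rd r z := by rw [rs_sub_rs, sub_zero]
  rw [← nrm_rd r z, ← h2]
  simp only [nrm, Prod.fst_sub, Prod.snd_sub]
  omega

theorem units_rd (r : ℕ) (z : Site) : rd r z ∈ units ↔ z ∈ units := by
  induction r generalizing z with
  | zero => rfl
  | succ r ih =>
    simp only [rd]
    rw [ih]
    simp only [units, Finset.mem_insert, Finset.mem_singleton, Prod.ext_iff]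
    omega

theorem adj_rd (r : ℕ) (p q : Site) : Adj (rd r p) (rd r q) ↔ Adj p q := by
  unfold Adj
  rw [← rd_sub, units_rd]

theorem adj_rs (r : ℕ) (p q : Site) : Adj (rs r p) (rs r q) ↔ Adj p q := by
  unfold Adj
  rw [rs_sub_rs, units_rd]

theorem rd_inj {r : ℕ} {x y : Site} (h : rd r x = rd r y) : x = y := by
  have h1 : nrm (rd r (x - y)) = 0 := by rw [rd_sub, h, sub_self]; rfl
  rw [nrm_rd] at h1
  simp only [nrm] at h1
  have h2 : (x - y).1 = 0 := by omega
  have h3 : (x - y).2 = 0 := by omega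
  exact sub_eq_zero.1 (Prod.ext h2 h3)

theorem rs_inj {r : ℕ} {x y : Site} (h : rs r x = rs r y) : x = y := by
  have h1 : rd r (x - y) = rd r 0 := by rw [← rs_sub_rs, h, sub_self, rd_zero]
  exact sub_eq_zero.1 (rd_inj h1)

theorem rs_surj (r : ℕ) (y : Site) : ∃ x, rs r x = y := by
  induction r with
  | zero => exact ⟨y, rfl⟩
  | succ r ih =>
    obtain ⟨x, hx⟩ := ih
    refine ⟨(x.2, 1 - x.1), ?_⟩
    simp only [rs]
    rw [← hx]
    congr 1
    ext <;> simp

theorem inn_sub (p q c : Site) : inn (p - c) (q - c) = inn p q - c := by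
  ext <;> simp [inn] <;> ring_nf

theorem out_sub (p q c : Site) : out (p - c) (q - c) = out p q - c := by
  ext <;> simp [out] <;> ring_nf

end GZ

theorem inn_rd (r : ℕ) (p q : Site) (h : Adj p q) :
    inn (rd r p) (rd r q) = rs r (inn p q) ∧ out (rd r p) (rd r q) = rs r (out p q) := by
  induction r generalizing p q with
  | zero => exact ⟨rfl, rfl⟩
  | succ r ih =>
    have h' : Adj ((-p.2, p.1) : Site) ((-q.2, q.1) : Site) := by
      rw [GZ.adj_iff] at h ⊢
      simp only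
      omega
    obtain ⟨h1, h2⟩ := ih _ _ h'
    simp only [rd, rs]
    rw [h1, h2]
    rw [GZ.adj_iff] at h
    constructor
    · congr 1
      ext <;> simp only [inn] <;> omega
    · congr 1
      ext <;> simp only [out] <;> omega

namespace GZ

/-! ### strips -/

/-- The site of the staircase between the levels `t` and `t + 1` with second coordinate `g`. -/
def S (t g : ℤ) : Site := ((t + 1 + g) / 2, (t + 1 - g) / 2)

theorem adj_cases {p q : Site} (h : Adj p q) :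
    (q = (p.1 + 1, p.2) ∧ inn p q = (p.1 + 1, p.2) ∧ out p q = (p.1 + 1, p.2 + 1)) ∨
    (q = (p.1 - 1, p.2) ∧ inn p q = (p.1, p.2 + 1) ∧ out p q = (p.1, p.2)) ∨
    (q = (p.1, p.2 + 1) ∧ inn p q = (p.1 + 1, p.2 + 1) ∧ out p q = (p.1, p.2 + 1)) ∨
    (q = (p.1, p.2 - 1) ∧ inn p q = (p.1, p.2) ∧ out p q = (p.1 + 1, p.2)) := by
  obtain ⟨a, b⟩ := p
  obtain ⟨c, d⟩ := q
  rw [adj_iff] at h
  rcases h with ⟨h1, h2⟩ | ⟨h1, h2⟩ | ⟨h1, h2⟩ | ⟨h1, h2⟩
  · left
    simp only at h1 h2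
    subst h1 h2
    refine ⟨rfl, ?_, ?_⟩ <;> simp only [inn, out, Prod.mk.injEq] <;> omega
  · right; left
    simp only at h1 h2
    subst h1 h2
    refine ⟨rfl, ?_, ?_⟩ <;> simp only [inn, out, Prod.mk.injEq] <;> omega
  · right; right; left
    simp only at h1 h2
    subst h1 h2
    refine ⟨rfl, ?_, ?_⟩ <;> simp only [inn, out, Prod.mk.injEq] <;> omega
  · right; right; right
    simp only at h1 h2
    subst h1 h2
    refine ⟨rfl, ?_, ?_⟩ <;> simp only [inn, out, Prod.mk.injEq] <;> omega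

theorem cross_data {p q x y : Site} (h : Adj p q)
    (hxy : (inn p q = x ∧ out p q = y) ∨ (inn p q = y ∧ out p q = x)) :
    Adj x y ∧ min (Ts x) (Ts y) = min (Td p) (Td q) ∧ gs x + gs y = gd p + gd q := by
  rcases adj_cases h with ⟨h1, h2, h3⟩ | ⟨h1, h2, h3⟩ | ⟨h1, h2, h3⟩ | ⟨h1, h2, h3⟩ <;>
    rw [h2, h3] at hxy <;> rw [h1, adj_iff] <;> clear h1 h2 h3 h <;>
    rcases hxy with ⟨rfl, rfl⟩ | ⟨rfl, rfl⟩ <;>
    simp only [Ts, Td, gs, gd, and_true, true_and, or_true, true_or] <;> omega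

theorem cross_of {p q x y : Site} (h : Adj p q) (h' : Adj x y)
    (ht : min (Ts x) (Ts y) = min (Td p) (Td q)) (hg : gs x + gs y = gd p + gd q) :
    (inn p q = x ∧ out p q = y) ∨ (inn p q = y ∧ out p q = x) := by
  rw [adj_iff] at h'
  rcases adj_cases h with ⟨h1, h2, h3⟩ | ⟨h1, h2, h3⟩ | ⟨h1, h2, h3⟩ | ⟨h1, h2, h3⟩ <;>
    rw [h2, h3] <;> rw [h1] at ht hg <;>
    simp only [Ts, Td, gs, gd, Prod.ext_iff] at ht hg ⊢ <;>
    clear h1 h2 h3 h <;>
    rcases h' with ⟨h4, h5⟩ | ⟨h4, h5⟩ | ⟨h4, h5⟩ | ⟨h4, h5⟩ <;> rw [h4, h5] at ht hg ⊢ <;>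
    clear h4 h5 <;> omega

theorem adj_S (t g : ℤ) : Adj (S t g) (S t (g + 1)) := by
  rw [adj_iff]
  simp only [S]
  omega

theorem S_T (t g : ℤ) : t ≤ Ts (S t g) ∧ Ts (S t g) ≤ t + 1 ∧ gs (S t g) = g ∧
    min (Ts (S t g)) (Ts (S t (g + 1))) = t := by
  simp only [S, Ts, gs]
  omega

theorem S_self (x : Site) : S (Ts x) (gs x) = x := by
  simp only [S, Ts, gs]
  ext <;> simp only <;> omega

theorem adj_T {p q : Site} (h : Adj p q) :
    (Td q = Td p + 1 ∨ Td q = Td p - 1) ∧ (gd q = gd p + 1 ∨ gd q = gd p - 1) := by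
  rw [adj_iff] at h
  simp only [Td, gd]
  omega

theorem adj_Ts {p q : Site} (h : Adj p q) :
    (Ts q = Ts p + 1 ∨ Ts q = Ts p - 1) ∧ (gs q = gs p + 1 ∨ gs q = gs p - 1) := by
  rw [adj_iff] at h
  simp only [Ts, gs]
  omega

theorem adj_ne {p q : Site} (h : Adj p q) : inn p q ≠ out p q := by
  rw [adj_iff] at h
  simp only [inn, out, ne_eq, Prod.ext_iff]
  omega

/-- the first `m + 1` vertices -/
def bl (P : ℤ → Site) (m : ℕ) : List Site := (List.range (m + 1)).map (fun k : ℕ => P (k : ℤ))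

theorem bl_length (P : ℤ → Site) (m : ℕ) : (bl P m).length = m + 1 := by simp [bl]

theorem bl_get (P : ℤ → Site) (m k : ℕ) (hk : k < (bl P m).length) : (bl P m)[k] = P k := by
  simp [bl]

theorem mem_bl {P : ℤ → Site} {m : ℕ} {q : Site} : q ∈ bl P m ↔ ∃ k : ℕ, k ≤ m ∧ P k = q := by
  simp [bl]

theorem steps_bl (P : ℤ → Site) (m : ℕ) :
    steps (bl P m) = (List.range m).map (fun k : ℕ => (P (k : ℤ), P ((k : ℤ) + 1))) := by
  unfold steps
  apply List.ext_getElem
  · simp [bl]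
  · intro k h1 h2
    simp [bl]

theorem mem_steps {P : ℤ → Site} {m : ℕ} {s : Site × Site} :
    s ∈ steps (bl P m) ↔ ∃ k : ℕ, k < m ∧ s = (P k, P (k + 1)) := by
  rw [steps_bl]
  simp [eq_comm]

theorem bl_headD (P : ℤ → Site) (m : ℕ) (d : Site) : (bl P m).headD d = P 0 := by
  simp [bl, List.range_succ_eq_map]

theorem bl_head (P : ℤ → Site) (m : ℕ) : (bl P m).head? = some (P 0) := by
  simp [bl, List.range_succ_eq_map]

theorem bl_last (P : ℤ → Site) (m : ℕ) : (bl P m).getLast? = some (P m) := by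
  simp [bl, List.range_succ]

theorem bl_lastD (P : ℤ → Site) (m : ℕ) (d : Site) : (bl P m).getLastD d = P m := by
  simp [List.getLastD_eq_getLast?, bl_last]

theorem bl_Tfst (P : ℤ → Site) (m : ℕ) : Tfst (bl P m) = Td (P 0) := by
  rw [Tfst, bl_headD]

theorem bl_Tlst (P : ℤ → Site) (m : ℕ) : Tlst (bl P m) = Td (P m) := by
  rw [Tlst, bl_lastD]

theorem bl_chain {P : ℤ → Site} (hP : ∀ i, Adj (P i) (P (i + 1))) (m : ℕ) :
    (bl P m).IsChain Adj := by
  rw [List.isChain_iff_getElem]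
  intro k hk
  rw [bl_get, bl_get]
  have := hP k
  push_cast
  exact this

theorem tail_bl (P : ℤ → Site) (m : ℕ) :
    (bl P m).tail = (List.range m).map (fun k : ℕ => P ((k : ℤ) + 1)) := by
  apply List.ext_getElem
  · simp [bl]
  · intro k h1 h2
    simp [bl]

theorem dropLast_bl (P : ℤ → Site) (m : ℕ) :
    (bl P m).dropLast = (List.range m).map (fun k : ℕ => P (k : ℤ)) := by
  apply List.ext_getElem
  · simp [bl]
  · intro k h1 h2
    simp [bl]

theorem steps_nil : steps [] = [] := rfl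

/-! ### envelope -/

theorem env_finite (γ : List Site) (T : ℤ) : {a | ∃ p ∈ γ, a = gd p - 2 * |T - Td p|}.Finite := by
  refine (γ.toFinset.finite_toSet.image (fun p => gd p - 2 * |T - Td p|)).subset ?_
  rintro a ⟨p, hp, rfl⟩
  exact ⟨p, by simpa using hp, rfl⟩

theorem env_ge {γ : List Site} {p : Site} (hp : p ∈ γ) (T : ℤ) : gd p - 2 * |T - Td p| ≤ env γ T :=
  le_csSup (env_finite γ T).bddAbove ⟨p, hp, rfl⟩

theorem env_mem {γ : List Site} (hγ : γ ≠ []) (T : ℤ) :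
    ∃ p ∈ γ, env γ T = gd p - 2 * |T - Td p| := by
  obtain ⟨q, hq⟩ := List.exists_mem_of_ne_nil γ hγ
  have h := Int.csSup_mem (s := {a | ∃ p ∈ γ, a = gd p - 2 * |T - Td p|}) ⟨_, q, hq, rfl⟩
    (env_finite γ T).bddAbove
  exact h

theorem env_lip {γ : List Site} (hγ : γ ≠ []) (T T' : ℤ) : env γ T ≤ env γ T' + 2 * |T - T'| := by
  obtain ⟨p, hp, h⟩ := env_mem hγ T
  have h1 := env_ge hp T'
  have h2 : |T' - Td p| ≤ |T' - T| + |T - Td p| := abs_sub_le _ _ _
  rw [abs_sub_comm T' T] at h2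
  omega

/-! ### the side -/

theorem side_eq {γ : List Site} (hc : γ.IsChain Adj) (hn : γ.Nodup) {x y : Site}
    (hxy : Adj x y) (hx : Tfst γ < Ts x ∧ Ts x < Tlst γ) (hy : Tfst γ < Ts y ∧ Ts y < Tlst γ)
    (h : ∀ s ∈ steps γ, ¬ ((inn s.1 s.2 = x ∧ out s.1 s.2 = y) ∨
      (inn s.1 s.2 = y ∧ out s.1 s.2 = x))) : rightOf γ x ↔ rightOf γ y := by
  have key : ∀ z : Site, Tfst γ < Ts z ∧ Ts z < Tlst γ →
      (∀ p ∈ γ.head?, Td p ≠ Ts z) ∧ (∀ p ∈ γ.getLast?, Td p ≠ Ts z) := by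
    intro z hz
    constructor
    · intro p hp
      have : Tfst γ = Td p := by
        rw [Option.mem_def] at hp
        simp [Tfst, List.headD_eq_head?_getD, hp]
      omega
    · intro p hp
      have : Tlst γ = Td p := by
        rw [Option.mem_def] at hp
        simp [Tlst, List.getLastD_eq_getLast?, hp]
      omega
  rcases (adj_Ts hxy).1 with hT | hT
  · exact (rightOf_adj hc hn hxy hT (key y hy).1 (key y hy).2).2
      (fun ⟨s, hs, h'⟩ => h s hs h')
  · have hT' : Ts x = Ts y + 1 := by omega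
    exact ((rightOf_adj hc hn hxy.symm hT' (key x hx).1 (key x hx).2).2
      (fun ⟨s, hs, h'⟩ => h s hs h'.symm)).symm

/-! ### parity of the number of crossings of a strip -/

theorem par_cross {P : ℤ → Site} (hP : ∀ i, Adj (P i) (P (i + 1))) {t : ℤ} (h0 : Td (P 0) ≤ t)
    (m : ℕ) : Even ((List.range m).countP
      (fun k : ℕ => min (Td (P (k : ℤ))) (Td (P ((k : ℤ) + 1))) = t)) ↔ Td (P m) ≤ t := by
  induction m with
  | zero => simp [h0]
  | succ m ih =>
    rw [List.range_succ, List.countP_append, List.countP_singleton]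
    have h1 := (adj_T (hP m)).1
    by_cases hc : min (Td (P (m : ℤ))) (Td (P ((m : ℤ) + 1))) = t
    · simp only [hc, decide_true, if_true]
      rw [Nat.even_add_one, ih]
      push_cast
      omega
    · simp only [hc, decide_false, Bool.false_eq_true, if_false, add_zero]
      rw [ih]
      push_cast
      omega

theorem rightOf_bl {P : ℤ → Site} {m : ℕ} {x : Site} : rightOf (bl P m) x ↔
    Even ((List.range m).countP (fun k : ℕ => min (Td (P (k : ℤ))) (Td (P ((k : ℤ) + 1))) = Ts x ∧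
      2 * gs x < gd (P (k : ℤ)) + gd (P ((k : ℤ) + 1)))) := by
  rw [rightOf, steps_bl, List.countP_map]
  rfl

theorem exists_left {P : ℤ → Site} (hP : ∀ i, Adj (P i) (P (i + 1))) {m : ℕ} {x : Site}
    (hr : rightOf (bl P m) x) (h0 : Td (P 0) ≤ Ts x) (h1 : Ts x < Td (P m)) :
    ∃ k : ℕ, k < m ∧ min (Td (P (k : ℤ))) (Td (P ((k : ℤ) + 1))) = Ts x ∧
      gd (P (k : ℤ)) + gd (P ((k : ℤ) + 1)) < 2 * gs x := by
  by_contra hcon
  push Not at hcon
  rw [rightOf_bl] at hr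
  have h2 : (List.range m).countP (fun k : ℕ => min (Td (P (k : ℤ))) (Td (P ((k : ℤ) + 1))) = Ts x ∧
      2 * gs x < gd (P (k : ℤ)) + gd (P ((k : ℤ) + 1))) =
      (List.range m).countP (fun k : ℕ => min (Td (P (k : ℤ))) (Td (P ((k : ℤ) + 1))) = Ts x) := by
    apply List.countP_congr
    intro k hk
    rw [List.mem_range] at hk
    simp only [decide_eq_true_eq]
    constructor
    · exact fun h => h.1
    · intro h
      refine ⟨h, ?_⟩
      have h3 := hcon k hk h
      have h4 := (adj_T (hP k)).2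
      omega
  rw [h2, par_cross hP h0 m] at hr
  omega

/-! ### eligible blocks in normalised coordinates -/

/-- An eligible block in normalised coordinates. -/
structure NB (n : ℕ) (P : ℤ → Site) (L : ℕ) (a b : ℤ) (m : ℕ) : Prop where
  P0 : P 0 = 0
  adj : ∀ i, Adj (P i) (P (i + 1))
  per : ∀ i, P (i + n) = P i
  inj : ∀ i j, P i = P j → (n : ℤ) ∣ i - j
  hb : b ≤ a + n
  ha : a + 4 * L ≤ 0
  hb' : (m : ℤ) + 4 * L ≤ b
  len : L ≤ m ∧ m ≤ 2 * L
  reg1 : ∀ i, 0 ≤ i → i ≤ b → 3 * i ≤ 4 * (Td (P i) - 1)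
  reg2 : ∀ i, a ≤ i → i ≤ 0 → 3 * (-i) ≤ 4 * (1 - Td (P i))
  reg3 : ∀ i : ℤ, (m : ℤ) ≤ i → i ≤ b → 3 * (i - m) ≤ 4 * (Td (P i) - Td (P m))
  reg4 : ∀ i : ℤ, a ≤ i → i ≤ m → 3 * (m - i) ≤ 4 * (Td (P m) - Td (P i))
  low : 99 * (m : ℤ) ≤ 100 * (Td (P m) - 1)
  far : ∀ i : ℤ, 0 ≤ i → i ≤ m → ∀ i' : ℤ, 4 * sd (P i) (P i') ≤ L → ∃ k : ℤ, |i - i' - k * n| < 4 * L

theorem Td_zero : Td 0 = 1 := by simp [Td]

theorem Td_sub (x y : Site) : Td (x - y) = Td x - Td y + 1 := by
  simp only [Td, Prod.fst_sub, Prod.snd_sub]; ring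

theorem nb_of_elig {G : Finset Site} {n : ℕ} {p : ℤ → Site} (hp : Cont G n p) {L : ℕ}
    {a b : ℤ} {r : ℕ} {s s' : ℤ} (he : Elig n p L a b r s s') :
    NB n (fun i => rd r (p (s + i) - p s)) L (a - s) (b - s) (s' - s).toNat := by
  have hss : s ≤ s' := by have := he.len.1; omega
  have hm : (((s' - s).toNat : ℕ) : ℤ) = s' - s := Int.toNat_of_nonneg (by omega)
  have hT : ∀ i, Td (rd r (p (s + i) - p s)) = Tr p r (s + i) - Tr p r s + 1 := by
    intro i
    rw [rd_sub, Td_sub]; rfl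
  have hTm : Td (rd r (p (s + (((s' - s).toNat : ℕ) : ℤ)) - p s)) = Tr p r s' - Tr p r s + 1 := by
    rw [hm, hT]
    rw [show s + (s' - s) = s' by ring]
  refine ⟨?_, ?_, ?_, ?_, ?_, ?_, ?_, ?_, ?_, ?_, ?_, ?_, ?_, ?_⟩
  · simp only [add_zero, sub_self]
    exact rd_zero r
  · intro i
    rw [adj_rd]
    have h := hp.adj (s + i)
    rw [adj_iff] at h ⊢
    simp only [Prod.fst_sub, Prod.snd_sub]
    rw [show s + (i + 1) = s + i + 1 by ring]
    omega
  · intro i
    rw [show s + (i + (n : ℤ)) = s + i + n by ring, hp.per]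
  · intro i j hij
    have h1 := rd_inj hij
    have h2 := hp.inj _ _ (sub_left_inj.1 h1)
    rwa [show s + i - (s + j) = i - j by ring] at h2
  · have := he.hb; omega
  · have := he.ha; omega
  · have := he.hb'; omega
  · have := he.len; omega
  · intro i h1 h2
    rw [hT]
    have := (he.reg (s + i)).1 (by omega) (by omega)
    omega
  · intro i h1 h2
    rw [hT]
    have := (he.reg (s + i)).2 (by omega) (by omega)
    omega
  · intro i h1 h2
    rw [hT, hTm]
    have := (he.reg' (s + i)).1 (by omega) (by omega)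
    omega
  · intro i h1 h2
    rw [hTm, hT i]
    have := (he.reg' (s + i)).2 (by omega) (by omega)
    omega
  · rw [hTm]
    have := he.low
    omega
  · intro i h1 h2 i' h3
    rw [sd_eq, ← rd_sub, nrm_rd, sub_sub_sub_cancel_right] at h3
    obtain ⟨k, hk⟩ := he.far (s + i) (by omega) (by omega) (s + i') h3
    refine ⟨k, ?_⟩
    rwa [show s + i - (s + i') - k * (n : ℤ) = i - i' - k * n by ring] at hk

theorem blk_eq {p : ℤ → Site} {r : ℕ} {s s' : ℤ} :
    blk p r s s' = bl (fun i => rd r (p (s + i) - p s)) (s' - s).toNat := by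
  unfold blk bl
  simp only [List.bind_eq_flatMap, List.pure_def]
  rw [← List.map_eq_flatMap, List.map_map]
  rfl

namespace NB

variable {n : ℕ} {P : ℤ → Site} {L : ℕ} {a b : ℤ} {m : ℕ}

theorem per_mul (H : NB n P L a b m) (i k : ℤ) : P (i + k * n) = P i := by
  induction k with
  | zero => simp
  | succ k ih => rw [add_mul, one_mul, ← add_assoc, H.per, ih]
  | pred k ih =>
    rw [← ih, ← H.per (i + (-(k : ℤ) - 1) * n)]
    congr 1
    ring

theorem lip (H : NB n P L a b m) (i : ℤ) (k : ℕ) :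
    |Td (P (i + k)) - Td (P i)| ≤ k ∧ |gd (P (i + k)) - gd (P i)| ≤ k := by
  induction k with
  | zero => simp
  | succ k ih =>
    have h := adj_T (H.adj (i + k))
    push_cast
    rw [← add_assoc]
    rw [abs_le, abs_le] at *
    omega

theorem lip' (H : NB n P L a b m) {i j : ℤ} (hij : i ≤ j) :
    |Td (P j) - Td (P i)| ≤ j - i ∧ |gd (P j) - gd (P i)| ≤ j - i := by
  have h := H.lip i (j - i).toNat
  have h1 : (((j - i).toNat : ℕ) : ℤ) = j - i := Int.toNat_of_nonneg (by omega)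
  rw [h1, add_sub_cancel] at h
  exact h

theorem waste (H : NB n P L a b m) {i j : ℤ} (hi : 0 ≤ i) (hj : j ≤ m) :
    100 * (j - i) - m ≤ 100 * (Td (P j) - Td (P i)) := by
  have h1 := (H.lip' hi).1
  have h2 := (H.lip' hj).1
  rw [H.P0, Td_zero] at h1
  have h3 := H.low
  rw [abs_le] at h1 h2
  omega

theorem mlt (H : NB n P L a b m) (hL : 1 ≤ L) : (m : ℤ) < n := by
  have h1 := H.hb
  have h2 := H.ha
  have h3 := H.hb'
  omega

theorem nodup (H : NB n P L a b m) (hL : 1 ≤ L) : (bl P m).Nodup := by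
  unfold bl
  refine List.Nodup.map_on ?_ List.nodup_range
  intro i hi j hj hij
  rw [List.mem_range] at hi hj
  have h1 := H.inj _ _ hij
  have h2 := H.mlt hL
  obtain ⟨c, hc⟩ := h1
  have h3 : c = 0 := by
    by_contra h0
    rcases lt_or_gt_of_ne h0 with h | h
    · nlinarith
    · nlinarith
  rw [h3, mul_zero] at hc
  omega

theorem tilePath (H : NB n P L a b m) (hL : 1 ≤ L) : TilePath L (P m) (bl P m) := by
  refine ⟨?_, bl_last P m, bl_chain H.adj m, H.nodup hL, ?_, ?_, ?_, ?_⟩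
  · rw [bl_head, H.P0]
  · rw [bl_length]; have := H.len; omega
  · intro k hk
    rw [bl_get, bl_Tfst, H.P0, Td_zero]
    rw [bl_length] at hk
    have h1 := H.hb'
    exact H.reg1 k (by omega) (by omega)
  · intro k hk
    rw [bl_get, bl_Tlst, bl_length]
    rw [bl_length] at hk
    have h1 := H.ha
    have := H.reg4 k (by omega) (by omega)
    push_cast
    omega
  · rw [bl_length, bl_Tlst, bl_Tfst, H.P0, Td_zero]
    have := H.low
    push_cast
    omega

/-- the `T` coordinates along the block -/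
theorem T_range (H : NB n P L a b m) {i : ℤ} (h0 : 0 ≤ i) (h1 : i ≤ m) :
    1 ≤ Td (P i) ∧ Td (P i) ≤ Td (P m) ∧ (0 < i → 1 < Td (P i)) ∧ (i < m → Td (P i) < Td (P m)) := by
  have h2 := H.hb'
  have h3 := H.ha
  have h4 := H.reg1 i h0 (by omega)
  have h5 := H.reg4 i (by omega) h1
  omega

theorem inn_right (H : NB n P L a b m) (hL : 1 ≤ L) {k : ℕ} (hk : k < m)
    (h0 : 1 < min (Td (P k)) (Td (P ((k : ℤ) + 1))))
    (h1 : max (Td (P k)) (Td (P ((k : ℤ) + 1))) < Td (P m)) :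
    rightOf (bl P m) (inn (P k) (P ((k : ℤ) + 1))) ∧
      ¬ rightOf (bl P m) (out (P k) (P ((k : ℤ) + 1))) := by
  have hF : Tfst (bl P m) = 1 := by rw [bl_Tfst, H.P0, Td_zero]
  have hE : Tlst (bl P m) = Td (P m) := bl_Tlst P m
  refine rightOf_inn (bl_chain H.adj m) (H.nodup hL) ?_ ?_ ?_ ?_
    (s := (P k, P ((k : ℤ) + 1))) (mem_steps.2 ⟨k, hk, rfl⟩) ?_ ?_
  · intro p hp
    obtain ⟨j, hj, rfl⟩ := mem_bl.1 hp
    rw [hF]
    exact (H.T_range (by omega) (by omega)).1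
  · intro p hp
    obtain ⟨j, hj, rfl⟩ := mem_bl.1 hp
    rw [hE]
    exact (H.T_range (by omega) (by omega)).2.1
  · intro p hp
    rw [tail_bl, List.mem_map] at hp
    obtain ⟨j, hj, rfl⟩ := hp
    rw [List.mem_range] at hj
    rw [hF]
    exact (H.T_range (by omega) (by omega)).2.2.1 (by omega)
  · intro p hp
    rw [dropLast_bl, List.mem_map] at hp
    obtain ⟨j, hj, rfl⟩ := hp
    rw [List.mem_range] at hj
    rw [hE]
    exact (H.T_range (by omega) (by omega)).2.2.2 (by omega)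
  · rw [hF]; exact h0
  · rw [hE]; exact h1

theorem near_block (H : NB n P L a b m) {k₀ i : ℤ} (h0 : 0 ≤ k₀) (h1 : k₀ ≤ m)
    (hs : 4 * sd (P k₀) (P i) ≤ L) (hT : 1 ≤ Td (P i)) (hT' : Td (P i) < Td (P m)) :
    ∃ k : ℤ, 0 ≤ i + k * n ∧ i + k * n < m := by
  obtain ⟨k, hk⟩ := H.far k₀ h0 h1 i hs
  refine ⟨k, ?_⟩
  have h2 := H.ha
  have h3 := H.hb'
  rw [abs_lt] at hk
  have hP : P (i + k * n) = P i := H.per_mul i k
  generalize hj : i + k * (n : ℤ) = j at *
  have hj1 : -(4 * (L : ℤ)) < j := by omega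
  have hj2 : j < m + 4 * (L : ℤ) := by omega
  rw [← hP] at hT hT'
  constructor
  · by_contra hc
    have := H.reg2 j (by omega) (by omega)
    omega
  · by_contra hc
    have := H.reg3 j (by omega) (by omega)
    omega

theorem env_le (H : NB n P L a b m) {k : ℕ} (hk : k ≤ m) {t : ℤ} (ht : |t - Td (P k)| ≤ 1) :
    100 * env (bl P m) t ≤ 100 * gd (P k) + 200 + 2 * m := by
  have hne : bl P m ≠ [] := by
    intro h
    have := bl_length P m
    rw [h] at this
    simp at this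
  obtain ⟨q, hq, he⟩ := env_mem hne t
  obtain ⟨j, hj, rfl⟩ := mem_bl.1 hq
  rw [he]
  have habs : |Td (P k) - Td (P j)| ≤ |t - Td (P k)| + |t - Td (P j)| := by
    have := abs_sub_le (Td (P k)) t (Td (P j))
    rwa [abs_sub_comm (Td (P k)) t] at this
  rcases le_total (k : ℤ) (j : ℤ) with hkj | hkj
  · have h1 := H.waste (i := k) (j := j) (by omega) (by omega)
    have h2 := (H.lip' hkj).2
    have h3 : Td (P j) - Td (P k) ≤ |Td (P k) - Td (P j)| := by
      rw [abs_sub_comm]; exact le_abs_self _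
    rw [abs_le] at h2
    omega
  · have h1 := H.waste (i := j) (j := k) (by omega) (by omega)
    have h2 := (H.lip' hkj).2
    have h3 : Td (P k) - Td (P j) ≤ |Td (P k) - Td (P j)| := le_abs_self _
    rw [abs_le] at h2
    omega

end NB

theorem sd_le {p q : Site} {A B : ℤ} (hT : |Td p - Td q| ≤ A) (hg : |gd p - gd q| ≤ B) :
    2 * (sd p q : ℤ) ≤ A + B := by
  simp only [sd, Td, gd] at *
  rw [abs_le] at hT hg
  omega

namespace NB

variable {n : ℕ} {P : ℤ → Site} {L : ℕ} {a b : ℤ} {m : ℕ}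

/-- The key lemma. -/
theorem zone_main (H : NB n P L a b m) {h : ℤ} (hh : 1 ≤ h) (hhL : 1000 * h ≤ L) {Gp : Set Site}
    (hside : ∀ i, inn (P i) (P (i + 1)) ∈ Gp ∧ out (P i) (P (i + 1)) ∉ Gp)
    (hsurj : ∀ x ∈ Gp, ∀ y, y ∉ Gp → Adj x y → ∃ i : ℤ,
      inn (P i) (P (i + 1)) = x ∧ out (P i) (P (i + 1)) = y)
    {x : Site} (hx : x ∈ Zz (bl P m) h) :
    x ∈ Gp ∧ ∃ k : ℕ, k < m ∧ min (Td (P (k : ℤ))) (Td (P ((k : ℤ) + 1))) = Ts x ∧
      gd (P (k : ℤ)) + gd (P ((k : ℤ) + 1)) < 2 * gs x ∧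
      100 * (gs x - gd (P (k : ℤ))) < 200 + 200 * h + 2 * m := by
  classical
  have hL : 1 ≤ L := by omega
  obtain ⟨hr, hx1, hx2, hx3⟩ := hx
  have hF : Tfst (bl P m) = 1 := by rw [bl_Tfst, H.P0, Td_zero]
  have hE : Tlst (bl P m) = Td (P m) := bl_Tlst P m
  rw [hF] at hx1
  rw [hE] at hx2
  -- the last crossing on the left
  have hP0 : Td (P 0) ≤ Ts x := by rw [H.P0, Td_zero]; omega
  obtain ⟨k₁, hk₁, hk₁t, hk₁g⟩ := exists_left H.adj hr hP0 (by omega)
  let F : Finset ℕ := (Finset.range m).filter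
    (fun k : ℕ => min (Td (P (k : ℤ))) (Td (P ((k : ℤ) + 1))) = Ts x ∧
      gd (P (k : ℤ)) + gd (P ((k : ℤ) + 1)) < 2 * gs x)
  have hF1 : F.Nonempty := ⟨k₁, by simp [F, hk₁, hk₁t, hk₁g]⟩
  obtain ⟨k, hkF, hkmax⟩ := F.exists_max_image
    (fun k : ℕ => gd (P (k : ℤ)) + gd (P ((k : ℤ) + 1))) hF1
  simp only [F, Finset.mem_filter, Finset.mem_range] at hkF hkmax
  obtain ⟨hkm, hkt, hkg⟩ := hkF
  have hadjk := adj_T (H.adj k)
  -- the envelope
  have henv := H.env_le (k := k) (by omega) (t := Ts x) (by rw [abs_le]; omega)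
  have hlen := H.len
  have hgx : 100 * (gs x - gd (P (k : ℤ))) < 200 + 200 * h + 2 * m := by omega
  -- the coordinate of the crossing
  obtain ⟨g₀, hg₀⟩ : ∃ g₀ : ℤ, gd (P (k : ℤ)) + gd (P ((k : ℤ) + 1)) = 2 * g₀ + 1 := by
    rcases hadjk.2 with h1 | h1
    · exact ⟨gd (P (k : ℤ)), by omega⟩
    · exact ⟨gd (P (k : ℤ)) - 1, by omega⟩
  have hg₀x : g₀ < gs x := by omega
  -- no crossing in between
  have hno : ∀ i g : ℤ, min (Td (P i)) (Td (P (i + 1))) = Ts x →
      gd (P i) + gd (P (i + 1)) = 2 * g + 1 → g₀ < g → g < gs x → False := by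
    intro i g hi1 hi2 hi3 hi4
    have hadji := adj_T (H.adj i)
    have hs : 2 * (sd (P (k : ℤ)) (P i) : ℤ) ≤ 1 + (gs x - gd (P (k : ℤ)) + 1) :=
      sd_le (by rw [abs_le]; omega) (by rw [abs_le]; omega)
    have hs' : 4 * sd (P (k : ℤ)) (P i) ≤ L := by omega
    obtain ⟨c, hc1, hc2⟩ := H.near_block (by omega) (by omega) hs' (by omega) (by omega)
    obtain ⟨j, hj⟩ := Int.eq_ofNat_of_zero_le hc1
    have hPj : P (j : ℤ) = P i := by rw [← hj]; exact H.per_mul i c
    have hPj' : P ((j : ℤ) + 1) = P (i + 1) := by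
      rw [← hj, ← H.per_mul (i + 1) c]
      congr 1
      ring
    have := hkmax j ⟨by omega, by rw [hPj, hPj']; exact hi1, by rw [hPj, hPj']; omega⟩
    rw [hPj, hPj'] at this
    omega
  -- walk
  have hc := bl_chain H.adj m
  have hn := H.nodup hL
  have walk : ∀ j : ℕ, g₀ + 1 ≤ gs x - j → rightOf (bl P m) (S (Ts x) (gs x - j)) ∧
      (S (Ts x) (gs x - j) ∈ Gp ↔ x ∈ Gp) := by
    intro j
    induction j with
    | zero =>
      intro _
      simp only [Nat.cast_zero, sub_zero]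
      rw [S_self]
      exact ⟨hr, Iff.rfl⟩
    | succ j ih =>
      intro hj
      push_cast at hj
      obtain ⟨ih1, ih2⟩ := ih (by omega)
      have hadj := adj_S (Ts x) (gs x - ((j + 1 : ℕ) : ℤ))
      have he : gs x - ((j + 1 : ℕ) : ℤ) + 1 = gs x - (j : ℤ) := by push_cast; ring
      rw [he] at hadj
      have hS1 := S_T (Ts x) (gs x - ((j + 1 : ℕ) : ℤ))
      have hS2 := S_T (Ts x) (gs x - (j : ℤ))
      rw [he] at hS1
      have hnc : ∀ i : ℤ, ¬ ((inn (P i) (P (i + 1)) = S (Ts x) (gs x - ((j + 1 : ℕ) : ℤ)) ∧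
          out (P i) (P (i + 1)) = S (Ts x) (gs x - (j : ℤ))) ∨
          (inn (P i) (P (i + 1)) = S (Ts x) (gs x - (j : ℤ)) ∧
          out (P i) (P (i + 1)) = S (Ts x) (gs x - ((j + 1 : ℕ) : ℤ)))) := by
        intro i hi
        obtain ⟨_, h2, h3⟩ := cross_data (H.adj i) hi
        rw [hS1.2.2.2] at h2
        rw [hS1.2.2.1, hS2.2.2.1] at h3
        exact hno i (gs x - ((j + 1 : ℕ) : ℤ)) h2.symm (by push_cast at h3 ⊢; omega)
          (by push_cast; omega) (by push_cast; omega)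
      have hside1 : rightOf (bl P m) (S (Ts x) (gs x - ((j + 1 : ℕ) : ℤ))) ↔
          rightOf (bl P m) (S (Ts x) (gs x - (j : ℤ))) := by
        apply side_eq hc hn hadj
        · rw [hF, hE]; omega
        · rw [hF, hE]; omega
        · intro s hs
          obtain ⟨i, hi, rfl⟩ := mem_steps.1 hs
          exact hnc i
      refine ⟨hside1.2 ih1, ?_⟩
      rw [← ih2]
      constructor
      · intro h1
        by_contra h2
        obtain ⟨i, hi1, hi2⟩ := hsurj _ h1 _ h2 hadj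
        exact hnc i (Or.inl ⟨hi1, hi2⟩)
      · intro h1
        by_contra h2
        obtain ⟨i, hi1, hi2⟩ := hsurj _ h1 _ h2 hadj.symm
        exact hnc i (Or.inr ⟨hi1, hi2⟩)
  -- the end of the walk
  have hend := walk (gs x - g₀ - 1).toNat (by omega)
  have he : gs x - (((gs x - g₀ - 1).toNat : ℕ) : ℤ) = g₀ + 1 := by omega
  rw [he] at hend
  have hS0 := S_T (Ts x) g₀
  have hS1 := S_T (Ts x) (g₀ + 1)
  have hcr := cross_of (H.adj k) (adj_S (Ts x) g₀) (by rw [hS0.2.2.2, hkt])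
    (by rw [hS0.2.2.1, hS1.2.2.1, hg₀]; ring)
  have hin := H.inn_right hL hkm (by omega) (by omega)
  refine ⟨?_, k, hkm, hkt, hkg, hgx⟩
  rcases hcr with ⟨_, h2⟩ | ⟨h1, _⟩
  · exact absurd hend.1 (by rw [← h2]; exact hin.2)
  · exact hend.2.1 (by rw [← h1]; exact (hside k).1)

end NB

/-! ### back to the original coordinates -/

theorem sd_le' {x y : Site} {A B : ℤ} (hT : |Ts x - Ts y| ≤ A) (hg : |gs x - gs y| ≤ B) :
    2 * (sd x y : ℤ) ≤ A + B := by
  simp only [sd, Ts, gs] at *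
  rw [abs_le] at hT hg
  omega

theorem sd_le'' {x p : Site} {A B : ℤ} (hT : |Ts x + 1 - Td p| ≤ A) (hg : |gs x - gd p| ≤ B) :
    2 * (sd x p : ℤ) ≤ A + B := by
  simp only [sd, Ts, Td, gs, gd] at *
  rw [abs_le] at hT hg
  omega

theorem rel_inj {p : ℤ → Site} {r : ℕ} {s : ℤ} {x y : Site} (h : rel p r s x = rel p r s y) :
    x = y := sub_left_inj.1 (rs_inj h)

theorem rel_sd {p : ℤ → Site} {r : ℕ} {s : ℤ} {x y : Site} :
    sd (rel p r s x) (rel p r s y) = sd x y := by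
  rw [sd_eq, sd_eq, rel, rel, rs_sub_rs, nrm_rd, sub_sub_sub_cancel_right]

theorem rel_adj {p : ℤ → Site} {r : ℕ} {s : ℤ} {x y : Site} :
    Adj (rel p r s x) (rel p r s y) ↔ Adj x y := by
  rw [rel, rel, adj_rs]
  unfold Adj
  rw [sub_sub_sub_cancel_right]

theorem rel_inn {G : Finset Site} {n : ℕ} {p : ℤ → Site} (hp : Cont G n p) (r : ℕ) (s i : ℤ) :
    inn (rd r (p (s + i) - p s)) (rd r (p (s + (i + 1)) - p s)) =
      rel p r s (inn (p (s + i)) (p (s + i + 1))) ∧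
    out (rd r (p (s + i) - p s)) (rd r (p (s + (i + 1)) - p s)) =
      rel p r s (out (p (s + i)) (p (s + i + 1))) := by
  have h : Adj (p (s + i) - p s) (p (s + (i + 1)) - p s) := by
    have h := hp.adj (s + i)
    unfold Adj at h ⊢
    rw [sub_sub_sub_cancel_right, show s + (i + 1) = s + i + 1 by ring]
    exact h
  obtain ⟨h1, h2⟩ := inn_rd r _ _ h
  rw [h1, h2, inn_sub, out_sub, show s + (i + 1) = s + i + 1 by ring]
  exact ⟨rfl, rfl⟩

theorem sd_rel {p : ℤ → Site} {r : ℕ} {s i : ℤ} {x : Site} :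
    sd x (p (s + i)) ≤ sd (rel p r s x) (rd r (p (s + i) - p s)) + 1 := by
  rw [sd_eq, sd_eq, rel, ← rs_sub, sub_sub_sub_cancel_right]
  exact nrm_le_rs r _

theorem side_rel {G : Finset Site} {n : ℕ} {p : ℤ → Site} (hp : Cont G n p) (r : ℕ) (s : ℤ) :
    ∀ i : ℤ, inn (rd r (p (s + i) - p s)) (rd r (p (s + (i + 1)) - p s)) ∈
        rel p r s '' (G : Set Site) ∧
      out (rd r (p (s + i) - p s)) (rd r (p (s + (i + 1)) - p s)) ∉ rel p r s '' (G : Set Site) := by
  intro i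
  obtain ⟨h1, h2⟩ := rel_inn hp r s i
  obtain ⟨h3, h4⟩ := hp.side (s + i)
  rw [h1, h2]
  refine ⟨⟨_, h3, rfl⟩, ?_⟩
  rintro ⟨y, hy, hy'⟩
  rw [rel_inj hy'] at hy
  exact h4 hy

theorem surj_rel {G : Finset Site} {n : ℕ} {p : ℤ → Site} (hp : Cont G n p) (r : ℕ) (s : ℤ) :
    ∀ x ∈ rel p r s '' (G : Set Site), ∀ y, y ∉ rel p r s '' (G : Set Site) → Adj x y → ∃ i : ℤ,
      inn (rd r (p (s + i) - p s)) (rd r (p (s + (i + 1)) - p s)) = x ∧
      out (rd r (p (s + i) - p s)) (rd r (p (s + (i + 1)) - p s)) = y := by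
  rintro _ ⟨x, hx, rfl⟩ y hy hadj
  obtain ⟨z, hz⟩ := rs_surj r y
  have hy0 : rel p r s (z + p s) = y := by rw [rel, add_sub_cancel_right, hz]
  rw [← hy0] at hadj hy ⊢
  have hyG : z + p s ∉ G := fun h => hy ⟨_, h, rfl⟩
  obtain ⟨i, _, _, h1, h2⟩ := hp.surj x hx _ hyG (rel_adj.1 hadj)
  refine ⟨i - s, ?_⟩
  obtain ⟨h3, h4⟩ := rel_inn hp r s (i - s)
  rw [h3, h4, show s + (i - s) = i by ring, h1, h2]
  exact ⟨rfl, rfl⟩

theorem zone_right {G : Finset Site} {n : ℕ} {p : ℤ → Site} (hp : Cont G n p) {L : ℕ} {h : ℤ}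
    (hh : 1 ≤ h) (hhL : 1000 * h ≤ L) {a b : ℤ} {r : ℕ} {s s' : ℤ} (he : Elig n p L a b r s s')
    (z y : Site) (hz : rel p r s z ∈ Zz (blk p r s s') h) (hy : y ∈ G) (hzy : Adj z y) :
    rightOf (blk p r s s') (rel p r s y) := by
  have H := nb_of_elig hp he
  rw [blk_eq] at hz ⊢
  have hL : 1 ≤ L := by omega
  obtain ⟨hzG, -⟩ := H.zone_main hh hhL (side_rel hp r s) (surj_rel hp r s) hz
  obtain ⟨hr, hz1, hz2, -⟩ := hz
  have hyG : rel p r s y ∈ rel p r s '' (G : Set Site) := ⟨y, hy, rfl⟩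
  have hadj : Adj (rel p r s z) (rel p r s y) := rel_adj.2 hzy
  have hT := (adj_Ts hadj).1
  refine (side_eq (bl_chain H.adj _) (H.nodup hL) hadj (by omega) (by omega) ?_).1 hr
  intro q hq hcr
  obtain ⟨k, hk, rfl⟩ := mem_steps.1 hq
  obtain ⟨h1, h2⟩ := side_rel hp r s k
  rcases hcr with ⟨-, h3⟩ | ⟨-, h3⟩
  · exact h2 (by rw [h3]; exact hyG)
  · exact h2 (by rw [h3]; exact hzG)

end GZ

open GZ in
theorem elig_zone {G : Finset Site} {n : ℕ} {p : ℤ → Site} (hp : Cont G n p) {L : ℕ} {h : ℤ}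
    (hh : 1 ≤ h) (hhL : 1000 * h ≤ L) {a b : ℤ} {r : ℕ} {s s' : ℤ} (he : Elig n p L a b r s s') :
    TilePath L (rd r (p s' - p s)) (blk p r s s') ∧
    (∀ x, rel p r s x ∈ Zz (blk p r s s') h → x ∈ G ∧ dep G x < L ∧
      (∃ i, s ≤ i ∧ i ≤ s' ∧ 10 * sd x (p i) ≤ L) ∧
      ∀ i, inn (p i) (p (i + 1)) = x → ∃ m : ℤ, s ≤ i + m * n ∧ i + m * n < s') ∧
    (∀ x y, rel p r s x ∈ Cz (blk p r s s') h → rel p r s y ∉ Zz (blk p r s s') h → y ∈ G →
      (∃ z, Adj z y ∧ rel p r s z ∈ Zz (blk p r s s') h) → h ≤ 6 * sd x y) ∧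
    (∀ x y, rel p r s x ∈ Cz (blk p r s s') h → rel p r s y ∉ Cz (blk p r s s') h → y ∈ G →
      Adj x y → TileEnt h (blk p r s s') (rel p r s x)) ∧
    (∀ z y, rel p r s z ∈ Zz (blk p r s s') h → y ∈ G → Adj z y →
      rightOf (blk p r s s') (rel p r s y)) := by
  have H := nb_of_elig hp he
  have hL : 1 ≤ L := by omega
  have hss : s + L ≤ s' ∧ s' ≤ s + 2 * L := he.len
  have hm : (((s' - s).toNat : ℕ) : ℤ) = s' - s := Int.toNat_of_nonneg (by omega)
  have hne : blk p r s s' ≠ [] := by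
    intro h0
    have := bl_length (fun i => rd r (p (s + i) - p s)) (s' - s).toNat
    rw [← blk_eq, h0] at this
    simp at this
  have hCZ : ∀ x, x ∈ Cz (blk p r s s') h → x ∈ Zz (blk p r s s') h := by
    intro x hx
    obtain ⟨h1, h2, h3, h4⟩ := hx
    exact ⟨h1, by omega, by omega, by omega⟩
  refine ⟨?_, ?_, ?_, ?_, zone_right hp hh hhL he⟩
  · have h1 := H.tilePath hL
    rw [hm, show s + (s' - s) = s' by ring, ← blk_eq] at h1
    exact h1
  · intro x hx
    rw [blk_eq] at hx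
    obtain ⟨hxG, k, hk, hkt, hkg, hkD⟩ :=
      H.zone_main hh hhL (side_rel hp r s) (surj_rel hp r s) hx
    obtain ⟨x', hx', hxx⟩ := hxG
    rw [rel_inj hxx] at hx'
    have hks : (k : ℤ) < s' - s := by omega
    have hadjk := adj_T (H.adj k)
    obtain ⟨hi1, hi2⟩ := rel_inn hp r s k
    have hmL : (((s' - s).toNat : ℕ) : ℤ) ≤ 2 * L := by omega
    obtain ⟨-, hx1, hx2, -⟩ := hx
    have hF : Tfst (bl (fun i => rd r (p (s + i) - p s)) (s' - s).toNat) = 1 := by
      rw [bl_Tfst]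
      simp only [add_zero, sub_self, rd_zero]
      rfl
    have hE := bl_Tlst (fun i => rd r (p (s + i) - p s)) (s' - s).toNat
    refine ⟨hx', ?_, ⟨s + k, by omega, by omega, ?_⟩, ?_⟩
    · have h1 := dep_le (G := G) (x := x) (hp.side (s + k)).2
      rw [← rel_sd (p := p) (r := r) (s := s), ← hi2] at h1
      obtain ⟨h2, h3, h4⟩ := cross_data (H.adj k) (Or.inl ⟨rfl, rfl⟩)
      have h5 := adj_Ts h2
      have h6 := sd_le' (x := rel p r s x)
        (y := out (rd r (p (s + k) - p s)) (rd r (p (s + (k + 1)) - p s)))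
        (A := 1) (B := gs (rel p r s x) - gd (rd r (p (s + k) - p s)) + 2)
        (by rw [abs_le]; omega) (by rw [abs_le]; omega)
      omega
    · have h1 := sd_rel (p := p) (r := r) (s := s) (i := k) (x := x)
      have h6 := sd_le'' (x := rel p r s x) (p := rd r (p (s + k) - p s))
        (A := 1) (B := gs (rel p r s x) - gd (rd r (p (s + k) - p s)))
        (by rw [abs_le]; omega) (by rw [abs_le]; omega)
      omega
    · intro i hi
      obtain ⟨hj1, hj2⟩ := rel_inn hp r s (i - s)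
      rw [show s + (i - s) = i by ring, show s + (i - s + 1) = i + 1 by ring] at hj1 hj2
      rw [hi] at hj1
      have hadji := H.adj (i - s)
      rw [show s + (i - s) = i by ring, show s + (i - s + 1) = i + 1 by ring] at hadji
      obtain ⟨h2, h3, h4⟩ := cross_data hadji (Or.inl ⟨hj1, rfl⟩)
      have h5 := adj_Ts h2
      have h6 := adj_T hadji
      have h7 := sd_le (p := rd r (p (s + k) - p s)) (q := rd r (p i - p s))
        (A := 2) (B := gs (rel p r s x) - gd (rd r (p (s + k) - p s)) + 2)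
        (by rw [abs_le]; omega) (by rw [abs_le]; omega)
      have h8 : 4 * sd (rd r (p (s + k) - p s)) (rd r (p (s + (i - s)) - p s)) ≤ L := by
        rw [show s + (i - s) = i by ring]
        omega
      obtain ⟨c, hc1, hc2⟩ := H.near_block (k₀ := k) (i := i - s) (by omega) (by omega) h8
        (by rw [show s + (i - s) = i by ring]; omega)
        (by rw [show s + (i - s) = i by ring]; omega)
      exact ⟨c, by omega, by omega⟩
  · rintro x y hx hy hyG ⟨z, hzy, hz⟩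
    have hyr := zone_right hp hh hhL he z y hz hyG hzy
    rw [← rel_sd (p := p) (r := r) (s := s)]
    generalize rel p r s x = x' at *
    generalize rel p r s y = y' at *
    obtain ⟨-, h2, h3, h4⟩ := hx
    have h5 := env_lip hne (Ts x') (Ts y')
    have h6 : |Ts x' - Ts y'| ≤ 2 * (sd x' y' : ℤ) := by
      rw [abs_le]
      simp only [sd, Ts]
      omega
    have h7 : gs y' - gs x' ≤ 2 * (sd x' y' : ℤ) := by
      simp only [sd, gs]
      omega
    by_contra hcon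
    apply hy
    rw [abs_le] at h6
    have h8 := abs_le.2 h6
    exact ⟨hyr, by omega, by omega, by omega⟩
  · intro x y hx hy hyG hxy
    have hyr := zone_right hp hh hhL he x y (hCZ _ hx) hyG hxy
    have hadj : Adj (rel p r s x) (rel p r s y) := rel_adj.2 hxy
    generalize rel p r s x = x' at *
    generalize rel p r s y = y' at *
    obtain ⟨-, h2, h3, h4⟩ := hx
    have h5 := env_lip hne (Ts x') (Ts y')
    have h6 := adj_Ts hadj
    have h7 : |Ts x' - Ts y'| = 1 := by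
      rcases h6.1 with h | h
      · rw [h]; simp
      · rw [h]; simp
    rw [h7] at h5
    unfold TileEnt
    by_contra hcon
    push Not at hcon
    obtain ⟨hc1, hc2, hc3⟩ := hcon
    apply hy
    exact ⟨hyr, by omega, by omega, by omega⟩

namespace GZ

theorem Tr_per {G : Finset Site} {n : ℕ} {p : ℤ → Site} (hp : Cont G n p) (r : ℕ) (i m : ℤ) :
    Tr p r (i + m * n) = Tr p r i := by
  have h : p (i + m * n) = p i := by
    induction m with
    | zero => simp
    | succ k ih => rw [add_mul, one_mul, ← add_assoc, hp.per, ih]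
    | pred k ih =>
      rw [← ih, ← hp.per (i + (-(k : ℤ) - 1) * n)]
      congr 1
      ring
  rw [Tr, Tr, h]

theorem zone_T {p : ℤ → Site} {r : ℕ} {s s' h : ℤ} (hs : s ≤ s') {x : Site}
    (hx : rel p r s x ∈ Zz (blk p r s s') h) :
    Tr p r s + 4 * h < Ts (rs r x) ∧ Ts (rs r x) < Tr p r s' - 4 * h := by
  obtain ⟨-, h1, h2, -⟩ := hx
  have hm : (((s' - s).toNat : ℕ) : ℤ) = s' - s := Int.toNat_of_nonneg (by omega)
  rw [blk_eq, bl_Tfst] at h1
  rw [blk_eq, bl_Tlst] at h2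
  rw [hm, show s + (s' - s) = s' by ring, rd_sub, Td_sub] at h2
  simp only [add_zero, sub_self, rd_zero, Td_zero] at h1
  have h3 : Ts (rel p r s x) = Ts (rs r x) - Td (rd r (p s)) + 1 := by
    rw [rel, rs_sub]
    simp only [Ts, Td, Prod.fst_sub, Prod.snd_sub]
    ring
  rw [h3] at h1 h2
  simp only [Tr]
  omega

theorem sd_tri (x y z : Site) : sd y z ≤ sd x y + sd x z := by
  simp only [sd]
  omega

end GZ

open GZ in
theorem elig_disj {G : Finset Site} {n : ℕ} {p : ℤ → Site} (hp : Cont G n p) {L : ℕ} {h : ℤ}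
    (hh : 1 ≤ h) (hhL : 1000 * h ≤ L) {a b a₁ b₁ : ℤ} {r r₁ : ℕ} {s s' s₁ s₁' : ℤ}
    (he : Elig n p L a b r s s') (he₁ : Elig n p L a₁ b₁ r₁ s₁ s₁')
    (hab : ∀ m : ℤ, b ≤ a₁ + m * n ∨ b₁ + m * n ≤ a ∨
      (a = a₁ + m * n ∧ b = b₁ + m * n ∧ r = r₁ ∧ (s' ≤ s₁ + m * n ∨ s₁' + m * n ≤ s)))
    (x : Site) (hx : rel p r s x ∈ Zz (blk p r s s') h)
    (hx₁ : rel p r₁ s₁ x ∈ Zz (blk p r₁ s₁ s₁') h) : False := by
  obtain ⟨-, -, ⟨i, hi1, hi2, hi3⟩, -⟩ := (elig_zone hp hh hhL he).2.1 x hx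
  obtain ⟨-, -, ⟨j, hj1, hj2, hj3⟩, -⟩ := (elig_zone hp hh hhL he₁).2.1 x hx₁
  have htri := GZ.sd_tri x (p i) (p j)
  obtain ⟨m, hm⟩ := he.far i hi1 hi2 j (by omega)
  rw [abs_lt] at hm
  have e1 := he.ha
  have e2 := he.hb'
  have e3 := he₁.ha
  have e4 := he₁.hb'
  have e5 := he.len
  have e6 := he₁.len
  have hz := zone_T (by omega) hx
  have hz₁ := zone_T (by omega) hx₁
  rcases hab m with h1 | h1 | ⟨h1, h2, rfl, h3⟩
  · omega
  · omega
  · rcases h3 with h3 | h3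
    · have h4 := (he.reg' (s₁ + m * n)).1 h3 (by omega)
      rw [Tr_per hp] at h4
      omega
    · have h4 := (he.reg (s₁' + m * n)).2 (by omega) h3
      rw [Tr_per hp] at h4
      omega

end Pool.Agent.WSB71
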