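import Pool.Agent.WSB71.GContour
import Pool.Agent.WSB71.GNear
import Pool.Agent.WSB71.GZone
import Pool.Agent.WSB71.GBand

/-!
# G: geometry of the contour

`exists_contour` (GContour.lean), `near_family` (GNear.lean), `exists_blocks` (GBlocks.lean), `inn_rd`, `elig_zone`,
`elig_disj` (GZone.lean), `band_dichotomy` (GBand.lean); definitions in GeoDef.lean.
-/
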