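import Pool.Agent.WSB71.FWeights

/-!
# INS, part A: the sum over the families of words above a fixed chain

`phi_ge`: the generating function of one hole; `cnt_ge`: the number of families of words with
given letters (transfer recursion `Z_cons_ge`); `fixed`: the lower bound for one chain.
-/

open MeasureTheory Filter Topology
open scoped NNReal ENNReal

namespace Pool.Agent.WSB71

open Pool.Agent.LT

/-- Weight of a chain. -/
noncomputable def Wt (w : Site → ℕ → ℝ≥0∞) (l : List Site) : ℝ≥0∞ :=
  ∏ x ∈ l.toFinset, w x (l.count x)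

namespace InsA

/-- lower part of the weight, `1` for zero visits -/
noncomputable def gl (β lam : ℝ) (n : ℕ) : ℝ≥0∞ :=
  if n = 0 then 1 else fw lam n - gw β lam n

theorem gl_zero (β lam : ℝ) : gl β lam 0 = 1 := by
  unfold gl
  rw [if_pos rfl]

theorem fw_eq {β lam : ℝ} (hβ : 0 ≤ β) (hl : lam < 4) {n : ℕ} (hn : n ≠ 0) :
    fw lam n = gl β lam n + gw β lam n := by
  unfold gl
  rw [if_neg hn]
  exact (tsub_add_cancel_of_le (gw_le_fw hβ hl (Nat.one_le_iff_ne_zero.2 hn))).symm

theorem fw_le_tilt {β lam : ℝ} (hβ : 0 ≤ β) (hl : lam + 1 < 4) (n : ℕ) :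
    fw lam n ≤ gl β lam n + ENNReal.ofReal (Real.exp (-β)) * fw (lam + 1) n := by
  rcases Nat.eq_zero_or_pos n with rfl | hn
  · rw [gl_zero]
    unfold fw
    rw [pow_zero]
    exact le_self_add
  · rw [fw_eq hβ (by linarith) hn.ne']
    have h := gw_le_tilt (κ := 1) hβ zero_le_one hl hn
    rw [one_mul] at h
    gcongr

theorem gw_step {β lam : ℝ} (hβ : 0 ≤ β) {n : ℕ} (hn : 1 ≤ n) :
    ENNReal.ofReal β * gw β lam n ≤ (n : ℝ≥0∞) * gw β lam (n + 1) := by
  obtain ⟨m, rfl⟩ : ∃ m, n = m + 1 := ⟨n - 1, by omega⟩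
  unfold gw
  rw [← lintegral_const_mul' _ _ ENNReal.ofReal_ne_top,
    ← lintegral_const_mul' _ _ (ENNReal.natCast_ne_top _)]
  refine setLIntegral_mono' measurableSet_Ici fun s hs => ?_
  have hs0 : 0 ≤ s := hβ.trans hs
  rw [← ENNReal.ofReal_mul hβ, ← ENNReal.ofReal_natCast (m + 1),
    ← ENNReal.ofReal_mul (Nat.cast_nonneg _)]
  refine ENNReal.ofReal_le_ofReal ?_
  rw [Nat.add_sub_cancel, Nat.add_sub_cancel, Nat.factorial_succ, pow_succ]
  push_cast
  have h3 : (m.factorial : ℝ) ≠ 0 := by positivity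
  have h4 : (m : ℝ) + 1 ≠ 0 := by positivity
  have h5 : ((m : ℝ) + 1) * (s ^ m * s / (((m : ℝ) + 1) * (m.factorial : ℝ))
      * Real.exp (-((4 - lam) * s))) = s * (s ^ m / (m.factorial : ℝ)
      * Real.exp (-((4 - lam) * s))) := by
    field_simp
  rw [h5]
  exact mul_le_mul_of_nonneg_right hs (by positivity)

theorem gw_asc {β lam : ℝ} (hβ : 0 ≤ β) {n : ℕ} (hn : 1 ≤ n) (m : ℕ) :
    ENNReal.ofReal β ^ m * gw β lam n ≤ (n.ascFactorial m : ℝ≥0∞) * gw β lam (n + m) := by
  induction m with
  | zero => simp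
  | succ m ih =>
    rw [pow_succ', Nat.ascFactorial_succ, mul_assoc]
    calc ENNReal.ofReal β * (ENNReal.ofReal β ^ m * gw β lam n)
        ≤ ENNReal.ofReal β * ((n.ascFactorial m : ℝ≥0∞) * gw β lam (n + m)) := by gcongr
      _ = (n.ascFactorial m : ℝ≥0∞) * (ENNReal.ofReal β * gw β lam (n + m)) := by ring
      _ ≤ (n.ascFactorial m : ℝ≥0∞) * (((n + m : ℕ) : ℝ≥0∞) * gw β lam (n + m + 1)) := by
          exact mul_le_mul_right (gw_step hβ (by omega)) _
      _ = _ := by
          rw [add_assoc n m 1]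
          push_cast
          ring

/-- Tonelli for sums over functions -/
theorem tsum_pi_prod {ι : Type} [Fintype ι] : ∀ {κ : ι → Type} (f : ∀ i, κ i → ℝ≥0∞),
    ∑' m : (∀ i, κ i), ∏ i, f i (m i) = ∏ i, ∑' k, f i k := by
  classical
  refine Fintype.induction_empty_option (P := fun (ι : Type) [Fintype ι] => ∀ {κ : ι → Type}
    (f : ∀ i, κ i → ℝ≥0∞), ∑' m : (∀ i, κ i), ∏ i, f i (m i) = ∏ i, ∑' k, f i k) ?_ ?_ ?_ ι
  · intro α β _ e ih κ f
    let _ := Fintype.ofEquiv β e.symm
    have h1 := ih (κ := fun a => κ (e a)) (fun a => f (e a))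
    rw [← (Equiv.piCongrLeft κ e).tsum_eq]
    rw [← Equiv.prod_comp e (fun i => ∑' k, f i k)]
    refine Eq.trans (tsum_congr fun m => ?_) h1
    rw [← Equiv.prod_comp e]
    refine Finset.prod_congr rfl fun a _ => ?_
    rw [Equiv.piCongrLeft_apply_apply]
  · intro κ f
    rw [Finset.univ_eq_empty, Finset.prod_empty]
    rw [tsum_eq_single (fun i => i.elim)]
    · rw [Finset.prod_empty]
    · intro m hm
      exact absurd (funext fun i => i.elim) hm
  · intro α _ ih κ f
    rw [← (Equiv.piOptionEquivProd (β := κ)).symm.tsum_eq, ENNReal.tsum_prod', Fintype.prod_option,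
      ← ih (fun a => f (some a)), ← ENNReal.tsum_mul_right]
    refine tsum_congr fun a => ?_
    rw [← ENNReal.tsum_mul_left]
    refine tsum_congr fun b => ?_
    rw [Fintype.prod_option]
    rfl

theorem tsum_exp {x : ℝ} (hx : 0 ≤ x) :
    ∑' k : ℕ, ENNReal.ofReal (x ^ k / (k.factorial : ℝ)) = ENNReal.ofReal (Real.exp x) := by
  rw [← ENNReal.ofReal_tsum_of_nonneg (fun k => by positivity) (Real.summable_pow_div_factorial x)]
  rw [Real.exp_eq_exp_ℝ, NormedSpace.exp_eq_tsum_div]

theorem phi_ge {β lam : ℝ} (hβ : 20 ≤ β) (h0 : 0 ≤ lam) (h1 : lam ≤ 1) {T : Type} [Fintype T]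
    (hT1 : 1 ≤ Fintype.card T) (hT4 : Fintype.card T ≤ 4) :
    ENNReal.ofReal (Real.exp (β / 5 * Fintype.card T)) ≤
      ∑' m : T → ℕ, (∏ i, ENNReal.ofReal β ^ m i / ((m i).factorial : ℝ≥0∞)) *
        gl β lam (∑ i, m i) := by
  have key : ∀ r : ℝ, 0 ≤ r → ∑' m : T → ℕ, (∏ i, ENNReal.ofReal β ^ m i /
      ((m i).factorial : ℝ≥0∞)) * ENNReal.ofReal r ^ (∑ i, m i) =
      ENNReal.ofReal (Real.exp (β * r * Fintype.card T)) := by
    intro r hr
    have e1 : ∀ m : T → ℕ, (∏ i, ENNReal.ofReal β ^ m i /
      ((m i).factorial : ℝ≥0∞)) * ENNReal.ofReal r ^ (∑ i, m i) =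
        ∏ i, ENNReal.ofReal ((β * r) ^ m i / ((m i).factorial : ℝ)) := by
      intro m
      rw [← Finset.prod_pow_eq_pow_sum, ← Finset.prod_mul_distrib]
      refine Finset.prod_congr rfl fun i _ => ?_
      rw [ENNReal.ofReal_div_of_pos (by positivity), ENNReal.ofReal_pow (by positivity),
        ENNReal.ofReal_mul (by linarith), mul_pow, ENNReal.ofReal_natCast,
        ENNReal.div_eq_inv_mul, ENNReal.div_eq_inv_mul, mul_assoc]
    simp_rw [e1]
    rw [tsum_pi_prod (ι := T) (κ := fun _ => ℕ)
      (fun _ k => ENNReal.ofReal ((β * r) ^ k / ((k).factorial : ℝ)))]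
    rw [tsum_exp (by positivity), Finset.prod_const, Finset.card_univ,
      ← ENNReal.ofReal_pow (Real.exp_pos _).le, ← Real.exp_nat_mul]
    congr 2
    ring
  set e := Fintype.card T with he
  set Φ := ∑' m : T → ℕ, (∏ i, ENNReal.ofReal β ^ m i / ((m i).factorial : ℝ≥0∞)) *
        gl β lam (∑ i, m i) with hΦ
  have hc : 0 < 4 - lam := by linarith
  have hc' : 0 < 4 - (lam + 1) := by linarith
  have k1 := key (4 - lam)⁻¹ (inv_pos.2 hc).le
  have k2 := key (4 - (lam + 1))⁻¹ (inv_pos.2 hc').le
  have h2 : ENNReal.ofReal (Real.exp (β * (4 - lam)⁻¹ * e)) ≤ Φ +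
      ENNReal.ofReal (Real.exp (-β)) * ENNReal.ofReal (Real.exp (β * (4 - (lam + 1))⁻¹ * e)) := by
    rw [← k1, ← k2, hΦ, ← ENNReal.tsum_mul_left, ← ENNReal.tsum_add]
    refine ENNReal.tsum_le_tsum fun m => ?_
    have := fw_le_tilt (β := β) (lam := lam) (by linarith) (by linarith) (∑ i, m i)
    calc _ ≤ (∏ i, ENNReal.ofReal β ^ m i / ((m i).factorial : ℝ≥0∞)) * (gl β lam (∑ i, m i) +
          ENNReal.ofReal (Real.exp (-β)) * fw (lam + 1) (∑ i, m i)) :=
          mul_le_mul_right this _
      _ = _ := by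
          unfold fw
          ring
  have e1 : (1 : ℝ) ≤ e := by exact_mod_cast hT1
  have e4 : (e : ℝ) ≤ 4 := by exact_mod_cast hT4
  -- real inequality
  have h3 : Real.exp (β / 5 * e) + Real.exp (-β) * Real.exp (β * (4 - (lam + 1))⁻¹ * e) ≤
      Real.exp (β * (4 - lam)⁻¹ * e) := by
    have q1 : β * (4 - (lam + 1))⁻¹ * e ≤ β * (4 - lam)⁻¹ * e + β * (2 / 3) := by
      have : (4 - (lam + 1))⁻¹ - (4 - lam)⁻¹ ≤ 1 / 6 := by
        rw [inv_sub_inv hc'.ne' hc.ne', div_le_div_iff₀ (mul_pos hc' hc) (by norm_num)]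
        nlinarith
      have h6 : β * e * ((4 - (lam + 1))⁻¹ - (4 - lam)⁻¹) ≤ β * e * (1 / 6) :=
        mul_le_mul_of_nonneg_left this (by positivity)
      nlinarith
    have q2 : β / 4 * e ≤ β * (4 - lam)⁻¹ * e := by
      have : (1 / 4 : ℝ) ≤ (4 - lam)⁻¹ := by
        rw [one_div]
        exact inv_anti₀ hc (by linarith)
      have h6 : β * e * (1 / 4) ≤ β * e * (4 - lam)⁻¹ :=
        mul_le_mul_of_nonneg_left this (by positivity)
      nlinarith
    have q3 : Real.exp (-β) * Real.exp (β * (4 - (lam + 1))⁻¹ * e) ≤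
        Real.exp (β * (4 - lam)⁻¹ * e) * (1 / 2) := by
      have : Real.exp (-1) ≤ 1 / 2 := by
        rw [Real.exp_neg, one_div]
        exact inv_anti₀ (by norm_num) (by linarith [Real.add_one_le_exp (1 : ℝ)])
      calc _ = Real.exp (-β + β * (4 - (lam + 1))⁻¹ * e) := (Real.exp_add _ _).symm
        _ ≤ Real.exp (β * (4 - lam)⁻¹ * e + (-1)) := Real.exp_le_exp.2 (by linarith)
        _ = Real.exp (β * (4 - lam)⁻¹ * e) * Real.exp (-1) := Real.exp_add _ _
        _ ≤ _ := mul_le_mul_of_nonneg_left this (Real.exp_pos _).le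
    have q4 : Real.exp (β / 5 * e) ≤ Real.exp (β * (4 - lam)⁻¹ * e) * (1 / 2) := by
      have : Real.exp (-1) ≤ 1 / 2 := by
        rw [Real.exp_neg, one_div]
        exact inv_anti₀ (by norm_num) (by linarith [Real.add_one_le_exp (1 : ℝ)])
      have h7 : β / 5 * e ≤ β * (4 - lam)⁻¹ * e + (-1) := by
        have : 20 * 1 ≤ β * e := mul_le_mul hβ e1 (by norm_num) (by linarith)
        linarith
      calc _ ≤ Real.exp (β * (4 - lam)⁻¹ * e + (-1)) := Real.exp_le_exp.2 h7
        _ = Real.exp (β * (4 - lam)⁻¹ * e) * Real.exp (-1) := Real.exp_add _ _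
        _ ≤ _ := mul_le_mul_of_nonneg_left this (Real.exp_pos _).le
    linarith
  have h4 : ENNReal.ofReal (Real.exp (β / 5 * e)) + ENNReal.ofReal (Real.exp (-β)) *
      ENNReal.ofReal (Real.exp (β * (4 - (lam + 1))⁻¹ * e)) ≤ Φ +
      ENNReal.ofReal (Real.exp (-β)) * ENNReal.ofReal (Real.exp (β * (4 - (lam + 1))⁻¹ * e)) := by
    refine le_trans ?_ h2
    rw [← ENNReal.ofReal_mul (Real.exp_pos _).le, ← ENNReal.ofReal_add (Real.exp_pos _).le
      (by positivity)]
    exact ENNReal.ofReal_le_ofReal h3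
  exact (ENNReal.add_le_add_iff_right
    (ENNReal.mul_ne_top ENNReal.ofReal_ne_top ENNReal.ofReal_ne_top)).1 h4

/-- letters of a family of words -/
def lets (i : Site) (w : List Site) : Multiset (Site × Site) := (w.map (fun x => (i, x)) : List _)

theorem lets_cons (i x : Site) (w : List Site) : lets i (x :: w) = (i, x) ::ₘ lets i w := rfl

/-- all letters -/
def allLets : List (Site × List Site) → Multiset (Site × Site)
  | [] => 0
  | p :: W => lets p.1 p.2 + allLets W

/-- Sum over the families of words above a chain. -/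
noncomputable def Z : List Site → (Multiset (Site × Site) → ℝ≥0∞) → ℝ≥0∞
  | [], g => g 0
  | i :: l, g => ∑' w : List Site, Z l (fun m => g (lets i w + m))

theorem Z_le (l : List Site) : ∀ g : Multiset (Site × Site) → ℝ≥0∞,
    Z l g ≤ ∑' W : {W : List (Site × List Site) // W.map Prod.fst = l}, g (allLets W.1) := by
  induction l with
  | nil =>
    intro g
    exact ENNReal.le_tsum (f := fun W : {W : List (Site × List Site) // W.map Prod.fst = []} =>
      g (allLets W.1)) ⟨[], rfl⟩
  | cons i l ih =>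
    intro g
    have h1 : Z (i :: l) g ≤ ∑' w : List Site, ∑' W : {W : List (Site × List Site) //
        W.map Prod.fst = l}, g (lets i w + allLets W.1) :=
      ENNReal.tsum_le_tsum fun w => ih _
    refine h1.trans ?_
    rw [← ENNReal.tsum_prod (f := fun (w : List Site) (W : {W : List (Site × List Site) //
        W.map Prod.fst = l}) => g (lets i w + allLets W.1))]
    refine ENNReal.tsum_comp_le_tsum_of_injective (f := fun q : List Site ×
      {W : List (Site × List Site) // W.map Prod.fst = l} =>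
      (⟨(i, q.1) :: q.2.1, by rw [List.map_cons, q.2.2]⟩ :
        {W : List (Site × List Site) // W.map Prod.fst = i :: l})) ?_ (fun W => g (allLets W.1))
    rintro ⟨w, W, hW⟩ ⟨w', W', hW'⟩ h
    simp only [Subtype.mk.injEq, List.cons.injEq, Prod.mk.injEq, true_and] at h
    rw [Prod.mk.injEq, Subtype.mk.injEq]
    exact h

theorem Z_mono (l : List Site) : ∀ {g g' : Multiset (Site × Site) → ℝ≥0∞}, (∀ m, g m ≤ g' m) →
    Z l g ≤ Z l g' := by
  induction l with
  | nil => intro g g' h; exact h 0
  | cons i l ih => intro g g' h; exact ENNReal.tsum_le_tsum fun w => ih fun m => h _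

theorem Z_tsum {ι : Type} (l : List Site) : ∀ (g : ι → Multiset (Site × Site) → ℝ≥0∞),
    Z l (fun m => ∑' a, g a m) = ∑' a, Z l (g a) := by
  induction l with
  | nil => intro g; rfl
  | cons i l ih =>
    intro g
    change ∑' w : List Site, Z l (fun m => ∑' a, g a (lets i w + m)) = _
    have : ∀ w : List Site, Z l (fun m => ∑' a, g a (lets i w + m)) =
        ∑' a, Z l (fun m => g a (lets i w + m)) := fun w => ih (fun a m => g a (lets i w + m))
    simp_rw [this]
    rw [ENNReal.tsum_comm]
    rfl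

theorem Z_mul (l : List Site) (c : ℝ≥0∞) : ∀ (g : Multiset (Site × Site) → ℝ≥0∞),
    Z l (fun m => c * g m) = c * Z l g := by
  induction l with
  | nil => intro g; rfl
  | cons i l ih =>
    intro g
    change ∑' w : List Site, Z l (fun m => c * g (lets i w + m)) = _
    have : ∀ w : List Site, Z l (fun m => c * g (lets i w + m)) =
        c * Z l (fun m => g (lets i w + m)) := fun w => ih (fun m => g (lets i w + m))
    simp_rw [this]
    rw [ENNReal.tsum_mul_left]
    rfl

theorem Z_zero (l : List Site) : Z l (fun _ => 0) = 0 := by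
  induction l with
  | nil => rfl
  | cons i l ih =>
    change ∑' w : List Site, Z l (fun _ => 0) = 0
    simp [ih]

/-- the recursion: first word empty, or remove the first letter -/
theorem Z_cons_ge (i : Site) (l : List Site) (g : Multiset (Site × Site) → ℝ≥0∞) :
    Z l g + ∑' x : Site, Z (i :: l) (fun m => g ((i, x) ::ₘ m)) ≤ Z (i :: l) g := by
  classical
  change _ ≤ ∑' w : List Site, Z l (fun m => g (lets i w + m))
  rw [ENNReal.tsum_eq_add_tsum_ite ([] : List Site)]
  refine add_le_add (le_of_eq ?_) ?_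
  · congr 1
    funext m
    change g m = g (0 + m)
    rw [zero_add]
  · have hf : Function.Injective (fun q : Site × List Site => q.1 :: q.2) := by
      intro q q' h
      simp only [List.cons.injEq] at h
      exact Prod.ext h.1 h.2
    have h1 := ENNReal.tsum_comp_le_tsum_of_injective hf
      (fun w => @ite _ (w = []) (Classical.propDecidable (w = [])) 0
        (Z l (fun m => g (lets i w + m))))
    refine le_trans (le_of_eq ?_) h1
    rw [ENNReal.tsum_prod (f := fun x w => @ite _ (x :: w = [])
      (Classical.propDecidable (x :: w = [])) 0 (Z l (fun m => g (lets i (x :: w) + m))))]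
    refine tsum_congr fun x => ?_
    change ∑' w : List Site, Z l (fun m => g (lets i w + m |> fun m' => (i, x) ::ₘ m')) = _
    refine tsum_congr fun w => ?_
    rw [if_neg (List.cons_ne_nil x w)]
    congr 1
    funext m
    rw [lets_cons, Multiset.cons_add]

open Classical in
/-- number of families of words with given letters -/
noncomputable def cnt (l : List Site) (m : Multiset (Site × Site)) : ℝ≥0∞ :=
  Z l (fun m' => if m' = m then 1 else 0)

open Classical in
theorem cnt_cons_ge (i : Site) (l : List Site) (m : Multiset (Site × Site)) :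
    cnt l m + ∑' x : Site, (if (i, x) ∈ m then cnt (i :: l) (m.erase (i, x)) else 0)
      ≤ cnt (i :: l) m := by
  refine le_trans (add_le_add le_rfl (le_of_eq ?_)) (Z_cons_ge i l _)
  refine tsum_congr fun x => ?_
  by_cases hx : (i, x) ∈ m
  · rw [if_pos hx]
    unfold cnt
    congr 1
    funext m'
    congr 1
    rw [eq_iff_iff]
    constructor
    · rintro rfl
      rw [Multiset.cons_erase hx]
    · rintro h
      rw [← h, Multiset.erase_cons_head]
  · rw [if_neg hx]
    refine ((congrArg (Z (i :: l)) (funext fun m' => ?_)).trans (Z_zero (i :: l))).symm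
    rw [if_neg]
    rintro rfl
    exact hx (Multiset.mem_cons_self _ _)

open Classical in
/-- product of the factorials of the multiplicities -/
noncomputable def D (J : Finset (Site × Site)) (m : Multiset (Site × Site)) : ℝ≥0∞ :=
  ∏ e ∈ J, ((m.count e).factorial : ℝ≥0∞)

open Classical in
noncomputable def asc (I : Finset Site) (l : List Site) (m : Multiset (Site × Site)) : ℝ≥0∞ :=
  ∏ i ∈ I, ((l.count i).ascFactorial ((m.map Prod.fst).count i) : ℝ≥0∞)

open Classical in
theorem D_erase {J : Finset (Site × Site)} {m : Multiset (Site × Site)} {e : Site × Site}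
    (he : e ∈ J) (hm : e ∈ m) : D J m = (m.count e : ℝ≥0∞) * D J (m.erase e) := by
  unfold D
  rw [← Finset.mul_prod_erase J _ he, ← Finset.mul_prod_erase J _ he, ← mul_assoc]
  congr 1
  · rw [Multiset.count_erase_self]
    have h : 0 < m.count e := Multiset.count_pos.2 hm
    obtain ⟨k, hk⟩ : ∃ k, m.count e = k + 1 := ⟨m.count e - 1, by omega⟩
    rw [hk, Nat.factorial_succ, Nat.add_sub_cancel]
    push_cast
    ring
  · refine Finset.prod_congr rfl fun e' he' => ?_
    rw [Multiset.count_erase_of_ne (Finset.ne_of_mem_erase he')]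

open Classical in
theorem tsum_count (i : Site) (m : Multiset (Site × Site)) :
    ∑' x : Site, (if (i, x) ∈ m then (m.count (i, x) : ℝ≥0∞) else 0) =
      ((m.map Prod.fst).count i : ℝ≥0∞) := by
  have h0 : ∀ x : Site, (if (i, x) ∈ m then (m.count (i, x) : ℝ≥0∞) else 0) =
      (m.count (i, x) : ℝ≥0∞) := by
    intro x
    by_cases hx : (i, x) ∈ m
    · rw [if_pos hx]
    · rw [if_neg hx, Multiset.count_eq_zero_of_notMem hx, Nat.cast_zero]
  simp_rw [h0]
  clear h0
  induction m using Multiset.induction_on with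
  | empty => simp
  | cons e m ih =>
    simp_rw [Multiset.count_cons, Multiset.map_cons, Multiset.count_cons]
    push_cast
    rw [ENNReal.tsum_add, ih]
    congr 1
    rcases e with ⟨j, y⟩
    by_cases hj : i = j
    · subst hj
      rw [tsum_eq_single y]
      · simp
      · intro x hx
        rw [if_neg]
        intro h
        exact hx (Prod.mk.inj h).2
    · rw [if_neg (by exact hj)]
      rw [ENNReal.tsum_eq_zero]
      intro x
      rw [if_neg]
      intro h
      exact hj (Prod.mk.inj h).1

theorem asc_arith (N M : ℕ) : (N + 1).ascFactorial M =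
    N.ascFactorial M + M * (N + 1).ascFactorial (M - 1) := by
  cases M with
  | zero => simp
  | succ M =>
    have h : N * (N + 1).ascFactorial M = (N + M) * N.ascFactorial M := Nat.succ_ascFactorial N M
    rw [Nat.add_sub_cancel, Nat.ascFactorial_succ, Nat.ascFactorial_succ, ← h]
    ring

open Classical in
theorem cnt_ge (I : Finset Site) (J : Finset (Site × Site)) :
    ∀ (m : Multiset (Site × Site)), (∀ e ∈ m, e ∈ J ∧ e.1 ∈ I) → ∀ l : List Site,
      asc I l m ≤ D J m * cnt l m := by
  intro m
  induction m using Multiset.strongInductionOn with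
  | ih m IH =>
    intro hm l
    induction l with
    | nil =>
      by_cases h : m = 0
      · subst h
        unfold asc D cnt
        simp [Z]
      · obtain ⟨e, he⟩ := Multiset.exists_mem_of_ne_zero h
        have : asc I [] m = 0 := by
          unfold asc
          refine Finset.prod_eq_zero (hm e he).2 ?_
          rw [List.count_nil]
          have h1 : 0 < (m.map Prod.fst).count e.1 :=
            Multiset.count_pos.2 (Multiset.mem_map_of_mem _ he)
          rw [Nat.cast_eq_zero]
          obtain ⟨k, hk⟩ : ∃ k, (m.map Prod.fst).count e.1 = k + 1 :=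
            ⟨(m.map Prod.fst).count e.1 - 1, by omega⟩
          rw [hk]
          exact Nat.zero_ascFactorial k
        rw [this]
        exact bot_le
    | cons i l ihl =>
      refine le_trans ?_ (mul_le_mul_right (cnt_cons_ge i l m) _)
      rw [mul_add, ← ENNReal.tsum_mul_left]
      have h1 : ∀ x : Site, (if (i, x) ∈ m then (m.count (i, x) : ℝ≥0∞) else 0) *
          asc I (i :: l) (m.erase (i, x)) ≤ D J m *
          (if (i, x) ∈ m then cnt (i :: l) (m.erase (i, x)) else 0) := by
        intro x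
        by_cases hx : (i, x) ∈ m
        · rw [if_pos hx, if_pos hx, D_erase (hm _ hx).1 hx, mul_assoc]
          refine mul_le_mul_right (IH _ ?_ ?_ _) _
          · exact Multiset.erase_lt.2 hx
          · exact fun e he => hm e (Multiset.mem_of_mem_erase he)
        · rw [if_neg hx, zero_mul]
          exact bot_le
      by_cases hi : i ∈ I
      · set R : ℝ≥0∞ := ∏ j ∈ I.erase i, ((l.count j).ascFactorial ((m.map Prod.fst).count j) : ℝ≥0∞)
          with hR
        set N := l.count i with hN
        set M := (m.map Prod.fst).count i with hM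
        have e1 : asc I (i :: l) m = ((N + 1).ascFactorial M : ℝ≥0∞) * R := by
          unfold asc
          rw [← Finset.mul_prod_erase I _ hi]
          congr 1
          · rw [List.count_cons_self]
          · refine Finset.prod_congr rfl fun j hj => ?_
            rw [List.count_cons_of_ne (Finset.ne_of_mem_erase hj).symm]
        have e2 : asc I l m = (N.ascFactorial M : ℝ≥0∞) * R := by
          unfold asc
          rw [← Finset.mul_prod_erase I _ hi]
        have e3 : ∀ x : Site, (i, x) ∈ m → asc I (i :: l) (m.erase (i, x)) =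
            ((N + 1).ascFactorial (M - 1) : ℝ≥0∞) * R := by
          intro x hx
          unfold asc
          rw [← Finset.mul_prod_erase I _ hi, Multiset.map_erase_of_mem _ _ hx]
          congr 1
          · rw [List.count_cons_self, Multiset.count_erase_self]
          · refine Finset.prod_congr rfl fun j hj => ?_
            rw [List.count_cons_of_ne (Finset.ne_of_mem_erase hj).symm,
              Multiset.count_erase_of_ne (Finset.ne_of_mem_erase hj)]
        have e4 : ∑' x : Site, (if (i, x) ∈ m then (m.count (i, x) : ℝ≥0∞) else 0) *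
            asc I (i :: l) (m.erase (i, x)) = (M : ℝ≥0∞) *
              (((N + 1).ascFactorial (M - 1) : ℝ≥0∞) * R) := by
          rw [← tsum_count, ← ENNReal.tsum_mul_right]
          refine tsum_congr fun x => ?_
          by_cases hx : (i, x) ∈ m
          · rw [e3 x hx]
          · rw [if_neg hx, zero_mul, zero_mul]
        calc asc I (i :: l) m = asc I l m + (M : ℝ≥0∞) *
              (((N + 1).ascFactorial (M - 1) : ℝ≥0∞) * R) := by
              rw [e1, e2, asc_arith]
              push_cast
              ring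
          _ ≤ _ := by
              rw [← e4]
              exact add_le_add (ihl) (ENNReal.tsum_le_tsum h1)
      · refine le_trans (le_of_eq ?_) (ihl.trans le_self_add)
        unfold asc
        refine Finset.prod_congr rfl fun j hj => ?_
        rw [List.count_cons_of_ne]
        rintro rfl
        exact hi hj

theorem Z_eq (l : List Site) (g : Multiset (Site × Site) → ℝ≥0∞) :
    Z l g = ∑' a : Multiset (Site × Site), g a * cnt l a := by
  classical
  have h : g = fun m => ∑' a : Multiset (Site × Site), g a * (if m = a then 1 else 0) := by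
    funext m
    rw [tsum_eq_single m]
    · rw [if_pos rfl, mul_one]
    · intro a ha
      rw [if_neg ha.symm, mul_zero]
  have h2 := Z_tsum l (fun (a : Multiset (Site × Site)) m => g a * (if m = a then 1 else 0))
  refine (congrArg (Z l) h).trans (h2.trans (tsum_congr fun a => ?_))
  rw [Z_mul]
  unfold cnt
  congr 2

theorem msum {ι : Type} (s : Finset ι) (f : ι → Multiset (Site × Site)) (g : Site × Site → Site) :
    (∑ i ∈ s, f i).map g = ∑ i ∈ s, (f i).map g :=
  map_sum (Multiset.mapAddMonoidHom g) f s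

variable {H : Finset Site} {T : Site → Finset Site}

/-- the multiset of letters with given multiplicities -/
def toM (μ : ∀ x : H, T x → ℕ) : Multiset (Site × Site) :=
  ∑ x : H, ∑ i : T x, μ x i • ({((i : Site), (x : Site))} : Multiset (Site × Site))

open Classical in
theorem count_toM (μ : ∀ x : H, T x → ℕ) (x : H) (i : T x) :
    (toM μ).count ((i : Site), (x : Site)) = μ x i := by
  unfold toM
  rw [Multiset.count_sum', Finset.sum_eq_single x]
  · rw [Multiset.count_sum', Finset.sum_eq_single i]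
    · rw [Multiset.count_nsmul, Multiset.count_singleton_self, mul_one]
    · intro j _ hj
      rw [Multiset.count_nsmul, Multiset.count_singleton, if_neg, mul_zero]
      intro h
      exact hj (Subtype.ext (Prod.mk.inj h).1.symm)
    · intro h
      exact absurd (Finset.mem_univ _) h
  · intro y _ hy
    rw [Multiset.count_sum']
    refine Finset.sum_eq_zero fun j _ => ?_
    rw [Multiset.count_nsmul, Multiset.count_singleton, if_neg, mul_zero]
    intro h
    exact hy (Subtype.ext (Prod.mk.inj h).2.symm)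
  · intro h
    exact absurd (Finset.mem_univ _) h

theorem toM_injective : Function.Injective (toM (H := H) (T := T)) := by
  classical
  intro μ ν h
  funext x i
  rw [← count_toM μ x i, ← count_toM ν x i, h]

theorem mem_toM {μ : ∀ x : H, T x → ℕ} {e : Site × Site} (he : e ∈ toM μ) :
    e.2 ∈ H ∧ e.1 ∈ T e.2 := by
  unfold toM at he
  rw [Multiset.mem_sum] at he
  obtain ⟨x, _, he⟩ := he
  rw [Multiset.mem_sum] at he
  obtain ⟨i, _, he⟩ := he
  have h := Multiset.mem_of_mem_nsmul he
  rw [Multiset.mem_singleton] at h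
  subst h
  exact ⟨x.2, i.2⟩

theorem card_toM (μ : ∀ x : H, T x → ℕ) : (toM μ).card = ∑ x : H, ∑ i : T x, μ x i := by
  unfold toM
  rw [Multiset.card_sum]
  refine Finset.sum_congr rfl fun x _ => ?_
  rw [Multiset.card_sum]
  refine Finset.sum_congr rfl fun i _ => ?_
  rw [Multiset.card_nsmul, Multiset.card_singleton, mul_one]

open Classical in
theorem count_snd_toM (μ : ∀ x : H, T x → ℕ) (x : H) :
    ((toM μ).map Prod.snd).count (x : Site) = ∑ i : T x, μ x i := by
  unfold toM
  rw [msum, Multiset.count_sum', Finset.sum_eq_single x]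
  · rw [msum, Multiset.count_sum']
    refine Finset.sum_congr rfl fun i _ => ?_
    rw [Multiset.map_nsmul, Multiset.count_nsmul, Multiset.map_singleton,
      Multiset.count_singleton_self, mul_one]
  · intro y _ hy
    rw [msum, Multiset.count_sum']
    refine Finset.sum_eq_zero fun j _ => ?_
    rw [Multiset.map_nsmul, Multiset.count_nsmul, Multiset.map_singleton,
      Multiset.count_singleton, if_neg, mul_zero]
    intro h
    exact hy (Subtype.ext h.symm)
  · intro h
    exact absurd (Finset.mem_univ _) h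

/-- the embedding of the edges -/
def emb : (Σ x : H, T x) ↪ Site × Site :=
  ⟨fun q => ((q.2 : Site), (q.1 : Site)), by
    rintro ⟨⟨x, hx⟩, ⟨i, hi⟩⟩ ⟨⟨y, hy⟩, ⟨j, hj⟩⟩ h
    simp only [Prod.mk.injEq] at h
    obtain ⟨rfl, rfl⟩ := h
    rfl⟩

theorem D_toM (μ : ∀ x : H, T x → ℕ) :
    D (Finset.univ.map (emb (H := H) (T := T))) (toM μ) = ∏ x : H, ∏ i : T x, ((μ x i).factorial : ℝ≥0∞) := by
  classical
  unfold D
  rw [Finset.prod_map, Fintype.prod_sigma]
  refine Finset.prod_congr rfl fun x _ => Finset.prod_congr rfl fun i _ => ?_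
  change (((toM μ).count ((i : Site), (x : Site))).factorial : ℝ≥0∞) = _
  rw [count_toM]

open Classical in
/-- the weight of a multiset of letters -/
noncomputable def gW (β lam : ℝ) (w : Site → ℕ → ℝ≥0∞) (l : List Site)
    (m : Multiset (Site × Site)) : ℝ≥0∞ :=
  (∏ x ∈ (m.map Prod.snd).toFinset, gl β lam ((m.map Prod.snd).count x)) *
    ∏ i ∈ l.toFinset, w i (l.count i + (m.map Prod.fst).count i)

open Classical in
theorem fixed {β lam : ℝ} (hβ : 20 ≤ β) (h0 : 0 ≤ lam) (h1 : lam ≤ 1) {Y : Set Site}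
    {w : Site → ℕ → ℝ≥0∞} (hw : ∀ y ∈ Y, ∀ n, w y n = gw β lam n) (l : List Site)
    (hT : ∀ x ∈ H, ∀ i ∈ T x, i ∈ l ∧ i ∈ Y) (hT1 : ∀ x ∈ H, 1 ≤ (T x).card)
    (hT4 : ∀ x ∈ H, (T x).card ≤ 4) :
    Wt w l * ∏ x ∈ H, ENNReal.ofReal (Real.exp (β / 5 * (T x).card)) ≤
      Z l (fun m => if ∀ e ∈ m, e.2 ∈ H ∧ e.1 ∈ T e.2 then gW β lam w l m else 0) := by
  have hβ0 : 0 ≤ β := by linarith
  rw [Z_eq]
  refine le_trans ?_ (ENNReal.tsum_comp_le_tsum_of_injective (toM_injective (H := H) (T := T)) _)
  have hΦ : ∏ x ∈ H, ENNReal.ofReal (Real.exp (β / 5 * (T x).card)) ≤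
      ∑' μ : (∀ x : H, T x → ℕ), ∏ x : H, ((∏ i, ENNReal.ofReal β ^ μ x i /
        ((μ x i).factorial : ℝ≥0∞)) * gl β lam (∑ i, μ x i)) := by
    rw [tsum_pi_prod (ι := H) (κ := fun x => T x → ℕ) (fun x m => (∏ i, ENNReal.ofReal β ^ m i /
        ((m i).factorial : ℝ≥0∞)) * gl β lam (∑ i, m i)), ← Finset.prod_coe_sort H]
    refine Finset.prod_le_prod' fun x _ => ?_
    have := phi_ge hβ h0 h1 (T := T x) (by rw [Fintype.card_coe]; exact hT1 x x.2)
      (by rw [Fintype.card_coe]; exact hT4 x x.2)
    rw [Fintype.card_coe] at this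
    exact this
  refine (mul_le_mul_right hΦ _).trans ?_
  rw [← ENNReal.tsum_mul_left]
  refine ENNReal.tsum_le_tsum fun μ => ?_
  rw [if_pos (fun e he => mem_toM he)]
  have hc := cnt_ge l.toFinset (Finset.univ.map (emb (H := H) (T := T))) (toM μ) (fun e he => ?_) l
  swap
  · have h := mem_toM he
    refine ⟨Finset.mem_map.2 ⟨⟨⟨e.2, h.1⟩, ⟨e.1, h.2⟩⟩, Finset.mem_univ _, rfl⟩, ?_⟩
    exact List.mem_toFinset.2 (hT _ h.1 _ h.2).1
  have hD0 : D (Finset.univ.map (emb (H := H) (T := T))) (toM μ) ≠ 0 := by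
    unfold D
    rw [Finset.prod_ne_zero_iff]
    intro e _
    exact_mod_cast (Nat.factorial_pos _).ne'
  have hD1 : D (Finset.univ.map (emb (H := H) (T := T))) (toM μ) ≠ ⊤ := by
    unfold D
    exact ENNReal.prod_ne_top fun e _ => ENNReal.natCast_ne_top _
  -- the visits
  have hv : ENNReal.ofReal β ^ (toM μ).card * Wt w l ≤ (∏ i ∈ l.toFinset,
      w i (l.count i + ((toM μ).map Prod.fst).count i)) * asc l.toFinset l (toM μ) := by
    have hcard : (toM μ).card = ∑ i ∈ l.toFinset, ((toM μ).map Prod.fst).count i := by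
      rw [Multiset.sum_count_eq_card, Multiset.card_map]
      intro i hi
      obtain ⟨e, he, rfl⟩ := Multiset.mem_map.1 hi
      have h := mem_toM he
      exact List.mem_toFinset.2 (hT _ h.1 _ h.2).1
    unfold Wt asc
    rw [hcard, ← Finset.prod_pow_eq_pow_sum, ← Finset.prod_mul_distrib, ← Finset.prod_mul_distrib]
    refine Finset.prod_le_prod' fun i hi => ?_
    by_cases hiY : i ∈ Y
    · rw [hw i hiY, hw i hiY, mul_comm (gw β lam _)]
      exact gw_asc hβ0 (List.count_pos_iff.2 (List.mem_toFinset.1 hi)) _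
    · have hz : ((toM μ).map Prod.fst).count i = 0 := by
        rw [Multiset.count_eq_zero]
        intro hi'
        obtain ⟨e, he, rfl⟩ := Multiset.mem_map.1 hi'
        have h := mem_toM he
        exact hiY (hT _ h.1 _ h.2).2
      rw [hz]
      simp
  have hgl : ∏ x ∈ ((toM μ).map Prod.snd).toFinset, gl β lam (((toM μ).map Prod.snd).count x) =
      ∏ x : H, gl β lam (∑ i, μ x i) := by
    have h3 : ∏ x : H, gl β lam (∑ i, μ x i) = ∏ x ∈ H, gl β lam (((toM μ).map Prod.snd).count x) := by
      rw [← Finset.prod_coe_sort H]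
      refine Finset.prod_congr rfl fun x _ => ?_
      rw [count_snd_toM]
    rw [h3]
    refine Finset.prod_subset ?_ ?_
    · intro x hx
      rw [Multiset.mem_toFinset] at hx
      obtain ⟨e, he, rfl⟩ := Multiset.mem_map.1 hx
      exact (mem_toM he).1
    · intro x _ hx
      rw [Multiset.mem_toFinset] at hx
      rw [Multiset.count_eq_zero_of_notMem hx, gl_zero]
  unfold gW
  rw [hgl]
  have hprod : ∏ x : H, ((∏ i, ENNReal.ofReal β ^ μ x i / ((μ x i).factorial : ℝ≥0∞)) *
      gl β lam (∑ i, μ x i)) = ENNReal.ofReal β ^ (toM μ).card *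
        (D (Finset.univ.map (emb (H := H) (T := T))) (toM μ))⁻¹ * ∏ x : H, gl β lam (∑ i, μ x i) := by
    rw [Finset.prod_mul_distrib]
    congr 1
    rw [card_toM, D_toM, ← Finset.prod_pow_eq_pow_sum]
    rw [ENNReal.prod_inv_distrib, ← Finset.prod_mul_distrib]
    · refine Finset.prod_congr rfl fun x _ => ?_
      rw [← Finset.prod_pow_eq_pow_sum, ENNReal.prod_inv_distrib, ← Finset.prod_mul_distrib]
      · rfl
      · intro i _ j _ _
        exact Or.inr (ENNReal.natCast_ne_top _)
    · intro x _ y _ _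
      exact Or.inr (ENNReal.prod_ne_top fun e _ => ENNReal.natCast_ne_top _)
  rw [hprod]
  have hc' : (D (Finset.univ.map (emb (H := H) (T := T))) (toM μ))⁻¹ * asc l.toFinset l (toM μ) ≤ cnt l (toM μ) := by
    rw [mul_comm, ← div_eq_mul_inv]
    refine ENNReal.div_le_of_le_mul ?_
    rw [mul_comm]
    exact hc
  calc Wt w l * (ENNReal.ofReal β ^ (toM μ).card *
        (D (Finset.univ.map (emb (H := H) (T := T))) (toM μ))⁻¹ * ∏ x : H, gl β lam (∑ i, μ x i))
      = (ENNReal.ofReal β ^ (toM μ).card * Wt w l) * ((D (Finset.univ.map (emb (H := H) (T := T))) (toM μ))⁻¹ *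
        ∏ x : H, gl β lam (∑ i, μ x i)) := by ring
    _ ≤ ((∏ i ∈ l.toFinset, w i (l.count i + ((toM μ).map Prod.fst).count i)) *
        asc l.toFinset l (toM μ)) * ((D (Finset.univ.map (emb (H := H) (T := T))) (toM μ))⁻¹ *
        ∏ x : H, gl β lam (∑ i, μ x i)) := mul_le_mul_left hv _
    _ = ((∏ x : H, gl β lam (∑ i, μ x i)) * ∏ i ∈ l.toFinset,
        w i (l.count i + ((toM μ).map Prod.fst).count i)) *
        ((D (Finset.univ.map (emb (H := H) (T := T))) (toM μ))⁻¹ * asc l.toFinset l (toM μ)) := by ring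
    _ ≤ _ := mul_le_mul_right hc' _

end InsA

end Pool.Agent.WSB71
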