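import Pool.Agent.WSB71.RealSym
import Pool.Agent.WSB71.VDef

/-!
# The perimeter functional `PP β`: elementary properties (task WSB71-L2)
-/

open MeasureTheory Filter Topology
open scoped NNReal ENNReal Pointwise

namespace Pool.Agent.WSB71

open Pool.Agent.LT

namespace PPper

/-! ### widths -/

lemma compact_inner {K : Set Plane} (hK : IsCompact K) (u : Plane) :
    IsCompact ((fun x => inner ℝ u x) '' K) :=
  hK.image (continuous_const.inner continuous_id)

lemma width_ge {K : Set Plane} (hK : IsCompact K) (u : Plane) {x y : Plane} (hx : x ∈ K)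
    (hy : y ∈ K) : inner ℝ u x - inner ℝ u y ≤ width K u := by
  have hc := compact_inner hK u
  have h1 := le_csSup hc.bddAbove (Set.mem_image_of_mem (fun x => inner ℝ u x) hx)
  have h2 := csInf_le hc.bddBelow (Set.mem_image_of_mem (fun x => inner ℝ u x) hy)
  unfold width
  exact sub_le_sub h1 h2

lemma width_le {K : Set Plane} (hne : K.Nonempty) {u : Plane} {r : ℝ}
    (h : ∀ x ∈ K, ∀ y ∈ K, inner ℝ u x - inner ℝ u y ≤ r) : width K u ≤ r := by
  unfold width
  have hne' : ((fun x => inner ℝ u x) '' K).Nonempty := hne.image _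
  rw [sub_le_iff_le_add]
  apply csSup_le hne'
  rintro _ ⟨x, hx, rfl⟩
  rw [← sub_le_iff_le_add']
  apply le_csInf hne'
  rintro _ ⟨y, hy, rfl⟩
  have := h x hx y hy
  linarith

lemma width_nonneg {K : Set Plane} (hK : CC K) (u : Plane) : 0 ≤ width K u := by
  obtain ⟨x, hx⟩ := hK.1
  have := width_ge hK.2.1 u hx hx
  linarith

lemma width_mono {K K' : Set Plane} (hK : CC K) (hK' : CC K') (h : K ⊆ K') (u : Plane) :
    width K u ≤ width K' u :=
  width_le hK.1 fun _ hx _ hy => width_ge hK'.2.1 u (h hx) (h hy)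

lemma width_diam {K : Set Plane} (hK : CC K) (u : Plane) : width K u ≤ ‖u‖ * Metric.diam K := by
  apply width_le hK.1
  intro x hx y hy
  rw [← inner_sub_right]
  refine (real_inner_le_norm _ _).trans ?_
  apply mul_le_mul_of_nonneg_left _ (norm_nonneg _)
  rw [← dist_eq_norm]
  exact Metric.dist_le_diam_of_mem hK.2.1.isBounded hx hy

lemma width_add {K K' : Set Plane} (hK : CC K) (hK' : CC K') (u : Plane) :
    width (K + K') u ≤ width K u + width K' u := by
  apply width_le (hK.1.add hK'.1)
  rintro _ ⟨x, hx, x', hx', rfl⟩ _ ⟨y, hy, y', hy', rfl⟩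
  have h1 := width_ge hK.2.1 u hx hy
  have h2 := width_ge hK'.2.1 u hx' hy'
  simp only [inner_add_right]
  linarith

lemma width_trans {K : Set Plane} (hK : CC K) (z u : Plane) :
    width ((fun p => z + p) '' K) u = width K u := by
  have hc : IsCompact ((fun p => z + p) '' K) := hK.2.1.image (continuous_const.add continuous_id)
  apply le_antisymm
  · apply width_le (hK.1.image _)
    rintro _ ⟨x, hx, rfl⟩ _ ⟨y, hy, rfl⟩
    have h1 := width_ge hK.2.1 u hx hy
    simp only [inner_add_right]
    linarith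
  · apply width_le hK.1
    intro x hx y hy
    have h1 := width_ge hc u (Set.mem_image_of_mem _ hx) (Set.mem_image_of_mem _ hy)
    simp only [inner_add_right] at h1
    linarith

lemma width_neg_le {K : Set Plane} (hne : K.Nonempty) (hK : IsCompact K) (u : Plane) :
    width (-K) u ≤ width K u := by
  apply width_le hne.neg
  intro x hx y hy
  have h1 := width_ge hK u (Set.mem_neg.1 hy) (Set.mem_neg.1 hx)
  simp only [inner_neg_right] at h1
  linarith

lemma width_neg {K : Set Plane} (hK : CC K) (u : Plane) : width (-K) u = width K u := by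
  apply le_antisymm (width_neg_le hK.1 hK.2.1 u)
  have h := width_neg_le hK.1.neg hK.2.1.neg u
  rwa [neg_neg] at h

lemma width_smul (K : Set Plane) (u : Plane) {s : ℝ} (hs : 0 ≤ s) :
    width (s • K) u = s * width K u := by
  have e : (fun x => inner ℝ u x) '' (s • K) = s • ((fun x => inner ℝ u x) '' K) := by
    ext r
    constructor
    · rintro ⟨_, ⟨x, hx, rfl⟩, rfl⟩
      refine ⟨inner ℝ u x, ⟨x, hx, rfl⟩, ?_⟩
      simp [inner_smul_right]
    · rintro ⟨_, ⟨x, hx, rfl⟩, rfl⟩
      refine ⟨s • x, ⟨x, hx, rfl⟩, ?_⟩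
      simp [inner_smul_right]
  unfold width
  rw [e, Real.sSup_smul_of_nonneg hs, Real.sInf_smul_of_nonneg hs]
  simp only [smul_eq_mul]
  ring

/-! ### the set of values -/

lemma inner_toPlane (u : Plane) (v : Site) :
    inner ℝ u (toPlane v) = u 0 * (v.1 : ℝ) + u 1 * (v.2 : ℝ) := by
  rw [PiLp.inner_apply, Fin.sum_univ_two]
  simp [mul_comm]

lemma norm_le_abs (u : Plane) : ‖u‖ ≤ |u 0| + |u 1| := by
  rw [EuclideanSpace.norm_eq, Fin.sum_univ_two]
  apply Real.sqrt_le_iff.2
  refine ⟨by positivity, ?_⟩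
  rw [Real.norm_eq_abs, Real.norm_eq_abs]
  nlinarith [abs_nonneg (u 0), abs_nonneg (u 1)]

lemma adm_nil {β a : ℝ} (ha : 0 < a)
    (hlow : ∀ v c, Realizable β v c → a * ‖toPlane v‖ ≤ c) : AdmZ β [] := by
  intro v c h
  simp only [List.map_nil, List.sum_nil]
  exact (mul_nonneg ha.le (norm_nonneg _)).trans (hlow v c h)

lemma adm_norm {β c₀ : ℝ} (h0 : Realizable β (0, 1) c₀) {ρ : List Plane} (h : AdmZ β ρ) :
    (ρ.map (fun u => ‖u‖)).sum ≤ 2 * c₀ := by
  have h1 := h _ _ h0
  have h2 := h _ _ (realizable_rot h0)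
  have h3 : (ρ.map (fun u => ‖u‖)).sum ≤
      (ρ.map (fun u => |inner ℝ u (toPlane (0, 1))|)).sum +
        (ρ.map (fun u => |inner ℝ u (toPlane (-(1 : ℤ), 0))|)).sum := by
    rw [← List.sum_map_add]
    apply List.sum_le_sum
    intro u _
    rw [inner_toPlane, inner_toPlane]
    refine (norm_le_abs u).trans ?_
    simp
    rw [add_comm]
  have h4 := h3.trans (add_le_add h1 h2)
  linarith

lemma value_le {β c₀ : ℝ} (h0 : Realizable β (0, 1) c₀) {K : Set Plane} (hK : CC K)
    {ρ : List Plane} (h : AdmZ β ρ) :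
    2 * (ρ.map (width K)).sum ≤ 2 * (2 * c₀ * Metric.diam K) := by
  have h1 : (ρ.map (width K)).sum ≤ (ρ.map (fun u => ‖u‖ * Metric.diam K)).sum :=
    List.sum_le_sum fun u _ => width_diam hK u
  rw [List.sum_map_mul_right] at h1
  have h2 := mul_le_mul_of_nonneg_right (adm_norm h0 h) (Metric.diam_nonneg (s := K))
  linarith

lemma bdd {β c₀ : ℝ} (h0 : Realizable β (0, 1) c₀) {K : Set Plane} (hK : CC K) :
    BddAbove {r | ∃ ρ : List Plane, AdmZ β ρ ∧ r = 2 * (ρ.map (width K)).sum} := by
  refine ⟨2 * (2 * c₀ * Metric.diam K), ?_⟩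
  rintro _ ⟨ρ, hρ, rfl⟩
  exact value_le h0 hK hρ

lemma le_PP {β c₀ : ℝ} (h0 : Realizable β (0, 1) c₀) {K : Set Plane} (hK : CC K)
    {ρ : List Plane} (h : AdmZ β ρ) : 2 * (ρ.map (width K)).sum ≤ PP β K :=
  le_csSup (bdd h0 hK) ⟨ρ, h, rfl⟩

lemma PP_le {β a : ℝ} (ha : 0 < a)
    (hlow : ∀ v c, Realizable β v c → a * ‖toPlane v‖ ≤ c) {K : Set Plane} {r : ℝ}
    (h : ∀ ρ : List Plane, AdmZ β ρ → 2 * (ρ.map (width K)).sum ≤ r) : PP β K ≤ r := by
  apply csSup_le
  · exact ⟨_, [], adm_nil ha hlow, rfl⟩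
  · rintro _ ⟨ρ, hρ, rfl⟩
    exact h ρ hρ

lemma PP_congr (β : ℝ) {K K' : Set Plane} (h : ∀ u, width K u = width K' u) :
    PP β K = PP β K' := by
  have : width K = width K' := funext h
  unfold PP
  rw [this]

lemma PP_smul (β : ℝ) (K : Set Plane) {s : ℝ} (hs : 0 ≤ s) : PP β (s • K) = s * PP β K := by
  have hw : width (s • K) = fun u => s * width K u := funext fun u => width_smul K u hs
  have e : {r | ∃ ρ : List Plane, AdmZ β ρ ∧ r = 2 * (ρ.map (width (s • K))).sum} =
      s • {r | ∃ ρ : List Plane, AdmZ β ρ ∧ r = 2 * (ρ.map (width K)).sum} := by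
    ext r
    constructor
    · rintro ⟨ρ, hρ, rfl⟩
      refine ⟨_, ⟨ρ, hρ, rfl⟩, ?_⟩
      rw [hw, List.sum_map_mul_left]
      simp only [smul_eq_mul]
      ring
    · rintro ⟨_, ⟨ρ, hρ, rfl⟩, rfl⟩
      refine ⟨ρ, hρ, ?_⟩
      rw [hw, List.sum_map_mul_left]
      simp only [smul_eq_mul]
      ring
  unfold PP
  rw [e, Real.sSup_smul_of_nonneg hs, smul_eq_mul]

/-! ### closed polygons -/

lemma closed_var {n : ℕ} {b : ℕ → ℝ} (hb : b n = b 0) {j k : ℕ} (hjk : j ≤ k) (hk : k ≤ n) :
    2 * |b j - b k| ≤ ∑ i ∈ Finset.range n, |b (i + 1) - b i| := by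
  have h1 := dist_le_Ico_sum_dist b (Nat.zero_le j)
  have h2 := dist_le_Ico_sum_dist b hjk
  have h3 := dist_le_Ico_sum_dist b hk
  have e : ∑ i ∈ Finset.range n, |b (i + 1) - b i| =
      ∑ i ∈ Finset.Ico 0 j, dist (b i) (b (i + 1)) + ∑ i ∈ Finset.Ico j k, dist (b i) (b (i + 1)) +
        ∑ i ∈ Finset.Ico k n, dist (b i) (b (i + 1)) := by
    rw [Finset.sum_Ico_consecutive _ (Nat.zero_le j) hjk,
      Finset.sum_Ico_consecutive _ (Nat.zero_le k) hk, ← Finset.range_eq_Ico]
    apply Finset.sum_congr rfl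
    intro i _
    rw [Real.dist_eq, abs_sub_comm]
  rw [Real.dist_eq] at h1 h2 h3
  rw [hb] at h3
  have h4 : |b j - b k| ≤ |b 0 - b j| + |b k - b 0| := by
    have := abs_sub_le (b j) (b 0) (b k)
    rw [abs_sub_comm (b j) (b 0), abs_sub_comm (b 0) (b k)] at this
    exact this
  linarith

lemma closed_var' {n : ℕ} {b : ℕ → ℝ} (hb : b n = b 0) {j k : ℕ} (hj : j ≤ n) (hk : k ≤ n) :
    b j - b k ≤ (∑ i ∈ Finset.range n, |b (i + 1) - b i|) / 2 := by
  have h : 2 * |b j - b k| ≤ ∑ i ∈ Finset.range n, |b (i + 1) - b i| := by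
    rcases le_total j k with h | h
    · exact closed_var hb h hk
    · rw [abs_sub_comm]
      exact closed_var hb h hj
  have := le_abs_self (b j - b k)
  linarith

lemma width_hull {n : ℕ} {q : ℕ → Plane} (hq : q n = q 0) (u : Plane) :
    2 * width (convexHull ℝ (q '' Set.Iic n)) u ≤
      ∑ i ∈ Finset.range n, |inner ℝ u (q (i + 1) - q i)| := by
  have hne : (convexHull ℝ (q '' Set.Iic n)).Nonempty :=
    (Set.Nonempty.image q ⟨0, Set.mem_Iic.2 (Nat.zero_le n)⟩).convexHull
  set r : ℝ := (∑ i ∈ Finset.range n, |inner ℝ u (q (i + 1) - q i)|) / 2 with hr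
  have key : ∀ j ≤ n, ∀ k ≤ n, inner ℝ u (q j) - inner ℝ u (q k) ≤ r := by
    intro j hj k hk
    have h := closed_var' (b := fun i => inner ℝ u (q i)) (by simp only [hq]) hj hk
    rw [hr]
    simpa only [inner_sub_right] using h
  have hlin : IsLinearMap ℝ (fun x : Plane => inner ℝ u x) :=
    ⟨fun x y => inner_add_right _ _ _, fun c x => by simp [inner_smul_right]⟩
  have h1 : ∀ k ≤ n, ∀ x ∈ convexHull ℝ (q '' Set.Iic n), inner ℝ u x ≤ r + inner ℝ u (q k) := by
    intro k hk
    have : convexHull ℝ (q '' Set.Iic n) ⊆ {x | inner ℝ u x ≤ r + inner ℝ u (q k)} := by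
      apply convexHull_min
      · rintro _ ⟨j, hj, rfl⟩
        have := key j hj k hk
        simp only [Set.mem_ofPred_eq]
        linarith
      · exact convex_halfSpace_le hlin _
    intro x hx
    exact this hx
  have h2 : width (convexHull ℝ (q '' Set.Iic n)) u ≤ r := by
    apply width_le hne
    intro x hx
    have : convexHull ℝ (q '' Set.Iic n) ⊆ {y | inner ℝ u x - r ≤ inner ℝ u y} := by
      apply convexHull_min
      · rintro _ ⟨k, hk, rfl⟩
        have := h1 k hk x hx
        simp only [Set.mem_ofPred_eq]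
        linarith
      · exact convex_halfSpace_ge hlin _
    intro y hy
    have h3 : inner ℝ u x - r ≤ inner ℝ u y := this hy
    linarith
  linarith

lemma sum_list_comm (ρ : List Plane) (g : Plane → ℕ → ℝ) (s : Finset ℕ) :
    (ρ.map (fun u => ∑ i ∈ s, g u i)).sum = ∑ i ∈ s, (ρ.map (fun u => g u i)).sum := by
  induction ρ with
  | nil => simp
  | cons u ρ ih => simp only [List.map_cons, List.sum_cons, ih, Finset.sum_add_distrib]

lemma inner_list_sum (ρ : List Plane) (s : Plane → ℝ) (v : Plane) :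
    inner ℝ ((ρ.map (fun u => s u • u)).sum) v = (ρ.map (fun u => s u * inner ℝ u v)).sum := by
  induction ρ with
  | nil => simp
  | cons u ρ ih => simp only [List.map_cons, List.sum_cons, inner_add_left, ih, real_inner_smul_left]

lemma WW_bdd {β c₀ : ℝ} (h0 : Realizable β (0, 1) c₀) (d : Plane) :
    BddAbove ((fun n => inner ℝ n d) '' WW β) := by
  have r1 := realizable_rot h0
  have r2 := realizable_rot r1
  have r3 := realizable_rot r2
  refine ⟨2 * c₀ * ‖d‖, ?_⟩
  rintro _ ⟨n, hn, rfl⟩
  have e0 := hn _ _ h0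
  have e1 := hn _ _ r1
  have e2 := hn _ _ r2
  have e3 := hn _ _ r3
  rw [inner_toPlane] at e0 e1 e2 e3
  simp at e0 e1 e2 e3
  have a0 : |n 0| ≤ c₀ := abs_le.2 ⟨by linarith, by linarith⟩
  have a1 : |n 1| ≤ c₀ := abs_le.2 ⟨by linarith, by linarith⟩
  refine (real_inner_le_norm _ _).trans ?_
  apply mul_le_mul_of_nonneg_right _ (norm_nonneg _)
  have := norm_le_abs n
  linarith

lemma list_le_tau {β c₀ : ℝ} (h0 : Realizable β (0, 1) c₀) {ρ : List Plane} (h : AdmZ β ρ)
    (d : Plane) : (ρ.map (fun u => |inner ℝ u d|)).sum ≤ tau β d := by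
  classical
  set s : Plane → ℝ := fun u => if 0 ≤ inner ℝ u d then 1 else -1 with hs
  set n : Plane := (ρ.map (fun u => s u • u)).sum with hn
  have hs1 : ∀ u, |s u| = 1 := by
    intro u
    simp only [hs]
    split_ifs <;> simp
  have hs2 : ∀ u, s u * inner ℝ u d = |inner ℝ u d| := by
    intro u
    simp only [hs]
    split_ifs with h1
    · rw [one_mul, abs_of_nonneg h1]
    · rw [neg_one_mul, abs_of_neg (not_le.1 h1)]
  have hW : n ∈ WW β := by
    intro v c hv
    rw [hn, inner_list_sum]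
    refine le_trans ?_ (h v c hv)
    apply List.sum_le_sum
    intro u _
    refine (le_abs_self _).trans ?_
    rw [abs_mul, hs1, one_mul]
  have e : inner ℝ n d = (ρ.map (fun u => |inner ℝ u d|)).sum := by
    rw [hn, inner_list_sum]
    simp only [hs2]
  rw [← e]
  exact le_csSup (WW_bdd h0 d) ⟨n, hW, rfl⟩

end PPper

open PPper

/-- The properties of the perimeter functional, given a lower bound for all costs and some
realizable pairs in the axis directions. -/
theorem PP_perLike {β a c₀ : ℝ} (ha : 0 < a)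
    (hlow : ∀ v c, Realizable β v c → a * ‖toPlane v‖ ≤ c) (h0 : Realizable β (0, 1) c₀) :
    PerLike (PP β) where
  mono K K' hK hK' h := by
    apply PP_le ha hlow
    intro ρ hρ
    refine le_trans ?_ (le_PP h0 hK' hρ)
    have := List.sum_le_sum (l := ρ) (f := width K) (g := width K')
      fun u _ => width_mono hK hK' h u
    linarith
  trans K hK z := PP_congr β fun u => width_trans hK z u
  smul K _ s hs := PP_smul β K hs
  add_le K K' hK hK' := by
    apply PP_le ha hlow
    intro ρ hρ
    have h1 := le_PP h0 hK hρ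
    have h2 := le_PP h0 hK' hρ
    have h3 := List.sum_le_sum (l := ρ) (f := width (K + K')) (g := fun u => width K u + width K' u)
      fun u _ => width_add hK hK' u
    rw [List.sum_map_add] at h3
    have e1 : (ρ.map fun u => width K u) = ρ.map (width K) := rfl
    have e2 : (ρ.map fun u => width K' u) = ρ.map (width K') := rfl
    rw [e1, e2] at h3
    linarith
  neg K hK := PP_congr β fun u => width_neg hK u
  lower := by
    refine ⟨2 * a, by linarith, fun K hK => ?_⟩
    have hPP : 0 ≤ PP β K := by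
      have := le_PP h0 hK (adm_nil ha hlow)
      simpa using this
    have h : Metric.diam K ≤ PP β K / (2 * a) := by
      apply Metric.diam_le_of_forall_dist_le (by positivity)
      intro x hx y hy
      rw [le_div_iff₀ (by linarith)]
      rcases eq_or_ne x y with rfl | hxy
      · simpa using hPP
      · have hn : 0 < ‖x - y‖ := norm_pos_iff.2 (sub_ne_zero.2 hxy)
        have hadm : AdmZ β [(a / ‖x - y‖) • (x - y)] := by
          intro v c hv
          simp only [List.map_cons, List.map_nil, List.sum_cons, List.sum_nil, add_zero]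
          refine le_trans ?_ (hlow v c hv)
          refine (abs_real_inner_le_norm _ _).trans ?_
          rw [norm_smul, Real.norm_of_nonneg (by positivity), div_mul_cancel₀ _ hn.ne']
        have h1 := le_PP h0 hK hadm
        simp only [List.map_cons, List.map_nil, List.sum_cons, List.sum_nil, add_zero] at h1
        have h2 := width_ge hK.2.1 ((a / ‖x - y‖) • (x - y)) hx hy
        rw [← inner_sub_right, real_inner_smul_left, real_inner_self_eq_norm_sq] at h2
        have h3 : a / ‖x - y‖ * ‖x - y‖ ^ 2 = a * ‖x - y‖ := by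
          field_simp
        rw [h3] at h2
        rw [dist_eq_norm]
        linarith
    rw [le_div_iff₀ (by linarith)] at h
    linarith

/-- For a closed polygon `q 0, ..., q n = q 0` the cost is at least the perimeter functional of
its convex hull (any order of the vertices): each admissible `ρ` is dominated by `tau` (the
zonotope of `ρ` is in `WW β`), and a closed polygon covers each width twice. -/
theorem PP_hull_le {β a c₀ : ℝ} (ha : 0 < a)
    (hlow : ∀ v c, Realizable β v c → a * ‖toPlane v‖ ≤ c) (h0 : Realizable β (0, 1) c₀)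
    (n : ℕ) (q : ℕ → Plane) (hq : q n = q 0) :
    PP β (convexHull ℝ (q '' Set.Iic n)) ≤ ∑ i ∈ Finset.range n, tau β (q (i + 1) - q i) := by
  apply PP_le ha hlow
  intro ρ hρ
  have h1 : 2 * (ρ.map (width (convexHull ℝ (q '' Set.Iic n)))).sum ≤
      (ρ.map (fun u => ∑ i ∈ Finset.range n, |inner ℝ u (q (i + 1) - q i)|)).sum := by
    rw [← List.sum_map_mul_left]
    exact List.sum_le_sum fun u _ => width_hull hq u
  refine h1.trans ?_
  rw [sum_list_comm ρ (fun u i => |inner ℝ u (q (i + 1) - q i)|)]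
  exact Finset.sum_le_sum fun i _ => list_le_tau h0 hρ _

end Pool.Agent.WSB71
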