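import Pool.Agent.WSB71.RealSym
import Pool.Agent.WSB71.LPdual
import Pool.Agent.WSB71.PPper

/-!
# LP: symmetries of realizability, the perimeter functional `PP β`, LP duality

`realizable_rot`, `realizable_refl`, `WW_abs` (RealSym.lean), `exists_zonogon` (LPdual.lean), `PP_perLike`,
`PP_hull_le` (PPper.lean).
-/
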