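import Pool.Agent.WSB71.MassProof

/-!
# M: the mass of the connecting pieces

`nash`, `sum_kap_le_dform` (Nash.lean), `robin_ge`, `lamD_deep` (Robin.lean), `mass` (MassProof.lean).
-/
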