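import Pool.Agent.WSB71.Robin

/-!
# M4, first part (helper78): the discrete heat semigroup `P = 1 - L / 8` of the relaxed walk

`L` is the matrix of `eform G H θ`.  `P` is symmetric, has nonnegative entries, is substochastic and
`0 ≤ P`.
-/

open MeasureTheory Filter Topology
open scoped NNReal ENNReal

namespace Pool.Agent.WSB71

open Pool.Agent.LT

namespace MP

/-- The diagonal. -/
noncomputable def aw (G : Finset Site) (θ : ℝ) (x : Site) : ℝ := 4 - (1 - θ) * kap G x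

variable {G H : Finset Site} {θ : ℝ}

lemma aw_le (hθ1 : θ ≤ 1) (x : Site) : aw G θ x ≤ 4 := by
  unfold aw
  have : (0 : ℝ) ≤ kap G x := Nat.cast_nonneg _
  nlinarith [mul_nonneg (sub_nonneg.2 hθ1) this]

lemma aw_ge (hθ : 0 ≤ θ) (x : Site) : 4 - (kap G x : ℝ) ≤ aw G θ x := by
  unfold aw
  have : (0 : ℝ) ≤ kap G x := Nat.cast_nonneg _
  nlinarith [mul_nonneg hθ this]

lemma aw_ge' (hθ1 : θ ≤ 1) (x : Site) : 4 * θ ≤ aw G θ x := by
  unfold aw
  have : (kap G x : ℝ) ≤ 4 := by exact_mod_cast kap_le G x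
  nlinarith [mul_nonneg (sub_nonneg.2 hθ1) (sub_nonneg.2 this)]

open Classical in
/-- The operator `1 - L / 8`. -/
noncomputable def P (G H : Finset Site) (θ : ℝ) (f : Site → ℝ) (x : Site) : ℝ :=
  if x ∈ H then ((8 - aw G θ x) * f x + ∑ e ∈ units, f (x + e)) / 8 else 0

lemma P_off (f : Site → ℝ) {x : Site} (hx : x ∉ H) : P G H θ f x = 0 := by
  unfold P
  rw [if_neg hx]

lemma P_on (f : Site → ℝ) {x : Site} (hx : x ∈ H) :
    P G H θ f x = ((8 - aw G θ x) * f x + ∑ e ∈ units, f (x + e)) / 8 := by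
  unfold P
  rw [if_pos hx]

lemma P_nonneg (hθ1 : θ ≤ 1) {f : Site → ℝ} (hf : ∀ x, 0 ≤ f x) (x : Site) :
    0 ≤ P G H θ f x := by
  by_cases hx : x ∈ H
  · rw [P_on f hx]
    have h1 := aw_le (G := G) hθ1 x
    have h2 : 0 ≤ ∑ e ∈ units, f (x + e) := Finset.sum_nonneg (fun e _ => hf _)
    have h3 := hf x
    have h4 : 0 ≤ 8 - aw G θ x := by linarith
    positivity
  · rw [P_off f hx]

/-- The inner product on `H`. -/
noncomputable def ip (H : Finset Site) (f g : Site → ℝ) : ℝ := ∑ x ∈ H, f x * g x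

lemma ip_self (f : Site → ℝ) : ip H f f = ∑ x ∈ H, f x ^ 2 := by
  unfold ip
  apply Finset.sum_congr rfl
  intro x _
  ring

lemma ip_self_nonneg (f : Site → ℝ) : 0 ≤ ip H f f := by
  rw [ip_self]
  exact Finset.sum_nonneg (fun _ _ => sq_nonneg _)

lemma ip_comm (f g : Site → ℝ) : ip H f g = ip H g f := by
  unfold ip
  exact Finset.sum_congr rfl (fun _ _ => mul_comm _ _)

lemma ip_P (f g : Site → ℝ) : ip H f (P G H θ g) =
    (∑ x ∈ H, (8 - aw G θ x) * (f x * g x) + ∑ x ∈ H, ∑ e ∈ units, f x * g (x + e)) / 8 := by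
  unfold ip
  rw [← Finset.sum_add_distrib, Finset.sum_div]
  apply Finset.sum_congr rfl
  intro x hx
  rw [P_on g hx, ← Finset.mul_sum]
  ring

lemma ip_symm {f g : Site → ℝ} (hf : ∀ x, x ∉ H → f x = 0) (hg : ∀ x, x ∉ H → g x = 0) :
    ip H f (P G H θ g) = ip H (P G H θ f) g := by
  rw [ip_comm (P G H θ f) g, ip_P, ip_P, fu_cross hf hg]
  congr 2
  apply Finset.sum_congr rfl
  intro x _
  ring

lemma ip_P_self (f : Site → ℝ) :
    ip H f (P G H θ f) = ip H f f - eform G H θ f / 8 := by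
  rw [ip_P]
  unfold eform ip
  rw [Finset.sum_sub_distrib]
  have e1 : ∑ x ∈ H, (8 - aw G θ x) * (f x * f x)
      = 8 * ∑ x ∈ H, f x * f x - ∑ x ∈ H, (4 - (1 - θ) * (kap G x : ℝ)) * f x ^ 2 := by
    rw [Finset.mul_sum, ← Finset.sum_sub_distrib]
    apply Finset.sum_congr rfl
    intro x _
    unfold aw
    ring
  rw [e1]
  ring

/-- `P ≥ 0`. -/
lemma ip_P_nonneg (hθ1 : θ ≤ 1) {f : Site → ℝ} (hf : ∀ x, x ∉ H → f x = 0) :
    0 ≤ ip H f (P G H θ f) := by
  rw [ip_P]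
  have h1 : ∀ e ∈ units, -∑ x ∈ H, f x ^ 2 ≤ ∑ x ∈ H, f x * f (x + e) := by
    intro e _
    have h2 := fu_sq_shift hf e
    have h3 : ∑ x ∈ H, -((f x ^ 2 + f (x + e) ^ 2) / 2) ≤ ∑ x ∈ H, f x * f (x + e) := by
      apply Finset.sum_le_sum
      intro x _
      nlinarith [sq_nonneg (f x + f (x + e))]
    rw [Finset.sum_neg_distrib, ← Finset.sum_div, Finset.sum_add_distrib] at h3
    linarith
  have h4 : -(4 * ∑ x ∈ H, f x ^ 2) ≤ ∑ x ∈ H, ∑ e ∈ units, f x * f (x + e) := by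
    rw [Finset.sum_comm]
    calc -(4 * ∑ x ∈ H, f x ^ 2) = ∑ e ∈ units, -∑ x ∈ H, f x ^ 2 := by
          rw [Finset.sum_const, card_units]
          simp
      _ ≤ _ := Finset.sum_le_sum h1
  have h5 : 4 * ∑ x ∈ H, f x ^ 2 ≤ ∑ x ∈ H, (8 - aw G θ x) * (f x * f x) := by
    rw [Finset.mul_sum]
    apply Finset.sum_le_sum
    intro x _
    have := aw_le (G := G) hθ1 x
    nlinarith [sq_nonneg (f x), mul_nonneg (sub_nonneg.2 this) (sq_nonneg (f x))]
  have h6 : 0 ≤ ∑ x ∈ H, (8 - aw G θ x) * (f x * f x) + ∑ x ∈ H, ∑ e ∈ units, f x * f (x + e) := by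
    linarith
  positivity

lemma P_add (f g : Site → ℝ) (t : ℝ) (x : Site) :
    P G H θ (fun y => f y + t * g y) x = P G H θ f x + t * P G H θ g x := by
  by_cases hx : x ∈ H
  · rw [P_on _ hx, P_on _ hx, P_on _ hx, Finset.sum_add_distrib, ← Finset.mul_sum]
    ring
  · rw [P_off _ hx, P_off _ hx, P_off _ hx]
    ring

/-- Cauchy-Schwarz for the form of `P`. -/
lemma P_cs (hθ1 : θ ≤ 1) {f g : Site → ℝ} (hf : ∀ x, x ∉ H → f x = 0)
    (hg : ∀ x, x ∉ H → g x = 0) :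
    ip H g (P G H θ f) ^ 2 ≤ ip H f (P G H θ f) * ip H g (P G H θ g) := by
  have h1 : ∀ t : ℝ, 0 ≤ ip H g (P G H θ g) * (t * t) + (2 * ip H g (P G H θ f)) * t
      + ip H f (P G H θ f) := by
    intro t
    have h2 := ip_P_nonneg (G := G) (H := H) hθ1 (f := fun y => f y + t * g y)
      (fun x hx => by rw [hf x hx, hg x hx]; ring)
    have h3 : ip H (fun y => f y + t * g y) (P G H θ (fun y => f y + t * g y))
        = ip H f (P G H θ f) + t * (ip H f (P G H θ g) + ip H g (P G H θ f))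
          + t ^ 2 * ip H g (P G H θ g) := by
      unfold ip
      rw [← Finset.sum_add_distrib, Finset.mul_sum, Finset.mul_sum, ← Finset.sum_add_distrib,
        ← Finset.sum_add_distrib]
      apply Finset.sum_congr rfl
      intro x _
      rw [P_add]
      ring
    have h4 : ip H f (P G H θ g) = ip H g (P G H θ f) := by
      rw [ip_symm hf hg, ip_comm]
    rw [h3, h4] at h2
    linarith
  have h5 := discrim_le_zero h1
  unfold discrim at h5
  nlinarith

/-- Contraction. -/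
lemma P_contr (hθ1 : θ ≤ 1) {μ : ℝ} (hμ1 : μ ≤ 1)
    (hgap : ∀ f : Site → ℝ, (∀ x, x ∉ H → f x = 0) → 8 * μ * ip H f f ≤ eform G H θ f)
    {f : Site → ℝ} (hf : ∀ x, x ∉ H → f x = 0) :
    ip H (P G H θ f) (P G H θ f) ≤ (1 - μ) * ip H f (P G H θ f) ∧
    ip H f (P G H θ f) ≤ (1 - μ) * ip H f f := by
  have h0 : ∀ x, x ∉ H → P G H θ f x = 0 := fun x hx => P_off f hx
  have h1 : ∀ g : Site → ℝ, (∀ x, x ∉ H → g x = 0) →
      ip H g (P G H θ g) ≤ (1 - μ) * ip H g g := by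
    intro g hg
    rw [ip_P_self]
    have := hgap g hg
    linarith
  refine ⟨?_, h1 f hf⟩
  have h2 := P_cs (G := G) hθ1 hf h0
  have h3 := h1 _ h0
  have h4 := ip_P_nonneg (G := G) (H := H) hθ1 hf
  set a := ip H (P G H θ f) (P G H θ f) with ha
  have ha0 : 0 ≤ a := ip_self_nonneg _
  set b := ip H f (P G H θ f) with hb
  have h5 : a ^ 2 ≤ b * ((1 - μ) * a) := h2.trans (mul_le_mul_of_nonneg_left h3 h4)
  rcases ha0.eq_or_lt with h6 | h6
  · rw [← h6]
    exact mul_nonneg (by linarith) h4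
  · have h7 : a * a ≤ ((1 - μ) * b) * a := by nlinarith
    exact le_of_mul_le_mul_right h7 h6

/-- Mass does not increase. -/
lemma sum_P_le (hθ : 0 ≤ θ) (hHG : H ⊆ G) {f : Site → ℝ} (hf : ∀ x, x ∉ H → f x = 0)
    (hf0 : ∀ x, 0 ≤ f x) : ∑ x ∈ H, P G H θ f x ≤ ∑ x ∈ H, f x := by
  classical
  have h1 := ip_symm (G := G) (θ := θ) (H := H) (f := fun x => if x ∈ H then (1 : ℝ) else 0) (g := f)
    (fun x hx => if_neg hx) hf
  have e1 : ip H (fun x => if x ∈ H then (1 : ℝ) else 0) (P G H θ f) = ∑ x ∈ H, P G H θ f x := by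
    unfold ip
    apply Finset.sum_congr rfl
    intro x hx
    show (if x ∈ H then (1 : ℝ) else 0) * _ = _
    rw [if_pos hx, one_mul]
  rw [← e1, h1]
  unfold ip
  apply Finset.sum_le_sum
  intro x hx
  have h2 : P G H θ (fun x => if x ∈ H then (1 : ℝ) else 0) x ≤ 1 := by
    rw [P_on _ hx, if_pos hx, div_le_one (by norm_num)]
    have h3 : ∑ e ∈ units, (if x + e ∈ H then (1 : ℝ) else 0) ≤ 4 - kap G x := by
      have h4 : ∑ e ∈ units, (if x + e ∈ H then (1 : ℝ) else 0)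
          ≤ ∑ e ∈ units, (1 - if x + e ∉ G then (1 : ℝ) else 0) := by
        apply Finset.sum_le_sum
        intro e _
        by_cases h5 : x + e ∈ H
        · rw [if_pos h5, if_neg (not_not.2 (hHG h5))]
          norm_num
        · rw [if_neg h5]
          split_ifs <;> norm_num
      refine h4.trans (le_of_eq ?_)
      rw [Finset.sum_sub_distrib, Finset.sum_const, card_units]
      unfold kap
      rw [Finset.card_filter]
      push_cast
      norm_num
    have h6 := aw_ge (G := G) hθ x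
    linarith
  calc P G H θ (fun x => if x ∈ H then (1 : ℝ) else 0) x * f x ≤ 1 * f x :=
        mul_le_mul_of_nonneg_right h2 (hf0 x)
    _ = f x := one_mul _

/-- Powers. -/
noncomputable def Pk (G H : Finset Site) (θ : ℝ) (k : ℕ) (f : Site → ℝ) : Site → ℝ :=
  (P G H θ)^[k] f

lemma Pk_zero (f : Site → ℝ) : Pk G H θ 0 f = f := rfl

lemma Pk_succ (k : ℕ) (f : Site → ℝ) : Pk G H θ (k + 1) f = P G H θ (Pk G H θ k f) := by
  unfold Pk
  rw [Function.iterate_succ_apply']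

lemma Pk_add (k m : ℕ) (f : Site → ℝ) : Pk G H θ (k + m) f = Pk G H θ k (Pk G H θ m f) := by
  unfold Pk
  rw [Function.iterate_add_apply]

lemma Pk_off {f : Site → ℝ} (hf : ∀ x, x ∉ H → f x = 0) (k : ℕ) :
    ∀ x, x ∉ H → Pk G H θ k f x = 0 := by
  intro x hx
  cases k with
  | zero => exact hf x hx
  | succ k =>
    rw [Pk_succ]
    exact P_off _ hx

lemma Pk_nonneg (hθ1 : θ ≤ 1) {f : Site → ℝ} (hf : ∀ x, 0 ≤ f x) (k : ℕ) :
    ∀ x, 0 ≤ Pk G H θ k f x := by
  induction k with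
  | zero => exact hf
  | succ k ih =>
    intro x
    rw [Pk_succ]
    exact P_nonneg hθ1 ih x

lemma Pk_symm {f g : Site → ℝ} (hf : ∀ x, x ∉ H → f x = 0) (hg : ∀ x, x ∉ H → g x = 0) (k : ℕ) :
    ip H f (Pk G H θ k g) = ip H (Pk G H θ k f) g := by
  induction k generalizing f g with
  | zero => rfl
  | succ k ih =>
    rw [Pk_succ, ip_symm hf (Pk_off hg k), ih (fun x hx => P_off _ hx) hg]
    have : Pk G H θ k (P G H θ f) = Pk G H θ (k + 1) f := by
      rw [Pk_add k 1]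
      rfl
    rw [this]

lemma sum_Pk_le (hθ : 0 ≤ θ) (hθ1 : θ ≤ 1) (hHG : H ⊆ G) {f : Site → ℝ}
    (hf : ∀ x, x ∉ H → f x = 0) (hf0 : ∀ x, 0 ≤ f x) (k : ℕ) :
    ∑ x ∈ H, Pk G H θ k f x ≤ ∑ x ∈ H, f x := by
  induction k with
  | zero => exact le_rfl
  | succ k ih =>
    rw [Pk_succ]
    exact (sum_P_le hθ hHG (Pk_off hf k) (Pk_nonneg hθ1 hf0 k)).trans ih

/-- Spectral decay. -/
lemma Pk_decay (hθ1 : θ ≤ 1) {μ : ℝ} (hμ1 : μ ≤ 1)
    (hgap : ∀ f : Site → ℝ, (∀ x, x ∉ H → f x = 0) → 8 * μ * ip H f f ≤ eform G H θ f)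
    {f : Site → ℝ} (hf : ∀ x, x ∉ H → f x = 0) (k : ℕ) :
    ip H (Pk G H θ k f) (Pk G H θ k f) ≤ ((1 - μ) ^ k) ^ 2 * ip H f f := by
  induction k with
  | zero => simp [Pk_zero]
  | succ k ih =>
    obtain ⟨h1, h2⟩ := P_contr hθ1 hμ1 hgap (Pk_off (G := G) (θ := θ) hf k)
    rw [Pk_succ]
    have h3 : (0 : ℝ) ≤ 1 - μ := by linarith
    calc _ ≤ (1 - μ) * ip H (Pk G H θ k f) (P G H θ (Pk G H θ k f)) := h1
      _ ≤ (1 - μ) * ((1 - μ) * ip H (Pk G H θ k f) (Pk G H θ k f)) := by gcongr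
      _ ≤ (1 - μ) * ((1 - μ) * (((1 - μ) ^ k) ^ 2 * ip H f f)) := by gcongr
      _ = _ := by ring

/-- Nash decay. -/
lemma Pk_nash (hθ : 0 < θ) (hθ1 : θ ≤ 1) (hHG : H ⊆ G) {C : ℝ} (hC : 0 < C)
    (hN : ∀ f : Site → ℝ, (∀ x, x ∉ H → f x = 0) →
      (∑ x ∈ H, f x ^ 2) ^ 2 ≤ C * dform H f * (∑ x ∈ H, |f x|) ^ 2)
    {f : Site → ℝ} (hf : ∀ x, x ∉ H → f x = 0) (hf0 : ∀ x, 0 ≤ f x) (hf1 : ∑ x ∈ H, f x ≤ 1)
    (hf2 : ip H f f ≤ 1) (k : ℕ) :
    ip H (Pk G H θ k f) (Pk G H θ k f) * (1 + θ / (8 * C) * k) ≤ 1 := by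
  induction k with
  | zero => simpa [Pk_zero] using hf2
  | succ k ih =>
    set u := Pk G H θ k f with hu
    have hu0 : ∀ x, 0 ≤ u x := Pk_nonneg hθ1 hf0 k
    have huo : ∀ x, x ∉ H → u x = 0 := Pk_off hf k
    have hu1 : ∑ x ∈ H, |u x| ≤ 1 := by
      have : ∑ x ∈ H, |u x| = ∑ x ∈ H, u x :=
        Finset.sum_congr rfl (fun x _ => abs_of_nonneg (hu0 x))
      rw [this]
      exact (sum_Pk_le hθ.le hθ1 hHG hf hf0 k).trans hf1
    rw [Pk_succ, ← hu]
    set a := ip H u u with ha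
    have ha0 : 0 ≤ a := ip_self_nonneg _
    have hd0 := fu_dform_nonneg huo
    have h1 := hN u huo
    rw [← ip_self, ← ha] at h1
    have h2 : a ^ 2 ≤ C * dform H u := by
      refine h1.trans ?_
      have h3 : (∑ x ∈ H, |u x|) ^ 2 ≤ 1 := by
        have : 0 ≤ ∑ x ∈ H, |u x| := Finset.sum_nonneg (fun _ _ => abs_nonneg _)
        nlinarith
      calc C * dform H u * (∑ x ∈ H, |u x|) ^ 2 ≤ C * dform H u * 1 := by gcongr
        _ = _ := mul_one _
    have h4 := FRobin.dform_le_eform' hHG hθ hθ1 huo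
    have h5 : ip H (P G H θ u) (P G H θ u) ≤ ip H u (P G H θ u) := by
      have := (P_contr (G := G) (H := H) hθ1 (μ := 0) (by norm_num) (fun g hg => by
        rw [mul_zero, zero_mul]
        exact FRobin.eform_nonneg hHG hθ hg) huo).1
      simpa using this
    rw [ip_P_self, ← ha] at h5
    set b := ip H (P G H θ u) (P G H θ u) with hb
    have hb0 : 0 ≤ b := ip_self_nonneg _
    set c := θ / (8 * C) with hc
    have hc0 : 0 < c := by positivity
    have h6 : b ≤ a - c * a ^ 2 := by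
      have h7 : c * a ^ 2 ≤ eform G H θ u / 8 := by
        have h8 : θ * (a ^ 2) ≤ C * eform G H θ u := by
          calc θ * (a ^ 2) ≤ θ * (C * dform H u) := by gcongr
            _ = C * (θ * dform H u) := by ring
            _ ≤ C * eform G H θ u := by gcongr
        rw [hc, div_mul_eq_mul_div, div_le_div_iff₀ (by positivity) (by norm_num)]
        nlinarith
      linarith
    have h9 : b * (1 + c * a) ≤ a := by
      have h10 : 0 ≤ 1 + c * a := by positivity
      calc b * (1 + c * a) ≤ (a - c * a ^ 2) * (1 + c * a) := by gcongr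
        _ = a - c ^ 2 * a ^ 3 := by ring
        _ ≤ a := by
          have : 0 ≤ c ^ 2 * a ^ 3 := by positivity
          linarith
    push_cast
    -- `a (1 + c k) ≤ 1` gives `b (1 + c k + c) ≤ 1`
    rcases ha0.eq_or_lt with h11 | h11
    · have : b ≤ 0 := by
        rw [← h11] at h9
        linarith
      have hb' : b = 0 := le_antisymm this hb0
      rw [hb', zero_mul]
      exact zero_le_one
    · have h12 : b * (1 + c * a) * (1 + c * k + c) ≤ 1 * (1 + c * a) := by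
        have h13 : 0 ≤ 1 + c * (k : ℝ) + c := by positivity
        calc b * (1 + c * a) * (1 + c * k + c) ≤ a * (1 + c * k + c) := by gcongr
          _ = a * (1 + c * k) + c * a := by ring
          _ ≤ 1 + c * a := by linarith
          _ = _ := by ring
      have h14 : (b * (1 + c * ((k : ℝ) + 1))) * (1 + c * a) ≤ 1 * (1 + c * a) := by
        calc _ = b * (1 + c * a) * (1 + c * k + c) := by ring
          _ ≤ _ := h12
      exact le_of_mul_le_mul_right h14 (by positivity)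

end MP

end Pool.Agent.WSB71
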