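import Pool.Agent.WSB71.FUnique

/-!
# M1: the Nash inequality on the square lattice

Loomis-Whitney for `f²`: `∑ f⁴ ≤ (∑ |∂₁ f²|) (∑ |∂₂ f²|) ≤ 2 (∑ f²) dform`, and
`(∑ f²)³ ≤ (∑ |f|)² ∑ f⁴`.
-/

open MeasureTheory Filter Topology
open scoped NNReal ENNReal

namespace Pool.Agent.WSB71

open Pool.Agent.LT

namespace Nash

/-- Sum of a shifted function. -/
lemma sum_shift {H K : Finset Site} {g : Site → ℝ} (hg : ∀ x, x ∉ H → g x = 0) (e : Site)
    (hK : ∀ x ∈ H, x - e ∈ K) : ∑ x ∈ K, g (x + e) = ∑ x ∈ H, g x := by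
  classical
  have h1 : ∑ x ∈ K, g (x + e) = ∑ y ∈ K.image (fun x => x + e), g y := by
    rw [Finset.sum_image]
    intro x _ y _ hxy
    exact add_right_cancel hxy
  rw [h1]
  symm
  refine Finset.sum_subset ?_ fun x _ hx => hg x hx
  intro x hx
  rw [Finset.mem_image]
  exact ⟨x - e, hK x hx, by simp⟩

/-- The sum of the squared differences in direction `e` over a large set. -/
lemma sum_diff_sq {H K : Finset Site} {f : Site → ℝ} (hf : ∀ x, x ∉ H → f x = 0) (e : Site)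
    (hK0 : H ⊆ K) (hK : ∀ x ∈ H, x - e ∈ K) :
    ∑ x ∈ K, (f (x + e) - f x) ^ 2 = 2 * ∑ x ∈ H, f x ^ 2 - 2 * ∑ x ∈ H, f x * f (x + e) := by
  have h1 : ∑ x ∈ K, f (x + e) ^ 2 = ∑ x ∈ H, f x ^ 2 :=
    sum_shift (g := fun x => f x ^ 2) (fun x hx => by rw [hf x hx]; ring) e hK
  have h2 : ∑ x ∈ K, f x ^ 2 = ∑ x ∈ H, f x ^ 2 :=
    (Finset.sum_subset hK0 fun x _ hx => by rw [hf x hx]; ring).symm
  have h3 : ∑ x ∈ K, f x * f (x + e) = ∑ x ∈ H, f x * f (x + e) :=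
    (Finset.sum_subset hK0 fun x _ hx => by rw [hf x hx]; ring).symm
  have h4 : ∀ x, (f (x + e) - f x) ^ 2 = f (x + e) ^ 2 + f x ^ 2 - 2 * (f x * f (x + e)) := by
    intro x; ring
  simp only [h4]
  rw [Finset.sum_sub_distrib, Finset.sum_add_distrib, ← Finset.mul_sum, h1, h2, h3]
  ring

lemma cross_neg {H : Finset Site} {f : Site → ℝ} (hf : ∀ x, x ∉ H → f x = 0) (e : Site) :
    ∑ x ∈ H, f x * f (x + -e) = ∑ x ∈ H, f x * f (x + e) := by
  classical
  have h1 := fu_shift_sum hf (fun x => f (x - e)) e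
  simp only [add_sub_cancel_right] at h1
  rw [h1]
  apply Finset.sum_congr rfl
  intro x _
  rw [← sub_eq_add_neg]
  split_ifs with h
  · ring
  · rw [hf _ h]; ring

lemma dform_eq {H K : Finset Site} {f : Site → ℝ} (hf : ∀ x, x ∉ H → f x = 0)
    (hK0 : H ⊆ K) (hK1 : ∀ x ∈ H, x - (1, 0) ∈ K) (hK2 : ∀ x ∈ H, x - (0, 1) ∈ K) :
    dform H f = ∑ x ∈ K, (f (x + (1, 0)) - f x) ^ 2 + ∑ x ∈ K, (f (x + (0, 1)) - f x) ^ 2 := by
  rw [sum_diff_sq hf (1, 0) hK0 hK1, sum_diff_sq hf (0, 1) hK0 hK2]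
  unfold dform
  rw [Finset.sum_sub_distrib, ← Finset.mul_sum, Finset.sum_comm]
  have hu : units = {(1, 0), -(1, 0), (0, 1), -(0, 1)} := by decide
  rw [hu, Finset.sum_insert (by decide), Finset.sum_insert (by decide),
    Finset.sum_insert (by decide), Finset.sum_singleton, cross_neg hf, cross_neg hf]
  ring

/-- One dimensional bound: a function on the integers vanishing at `R + 1`. -/
lemma le_sum_abs (g : ℤ → ℝ) (a R : ℤ) (hg : g (R + 1) = 0) {x : ℤ} (hx : a ≤ x)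
    (hx2 : x ≤ R + 1) : g x ≤ ∑ z ∈ Finset.Icc a R, |g (z + 1) - g z| := by
  classical
  have key : ∀ k : ℕ, g (R + 1 - k) ≤ ∑ z ∈ Finset.Icc (R + 1 - k) R, |g (z + 1) - g z| := by
    intro k
    induction k with
    | zero => simp [hg]
    | succ k ih =>
      have e : Finset.Icc (R + 1 - ((k + 1 : ℕ) : ℤ)) R =
          insert (R + 1 - ((k + 1 : ℕ) : ℤ)) (Finset.Icc (R + 1 - (k : ℤ)) R) := by
        ext z
        simp only [Finset.mem_Icc, Finset.mem_insert]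
        push_cast
        omega
      rw [e, Finset.sum_insert]
      · have h1 : R + 1 - ((k + 1 : ℕ) : ℤ) + 1 = R + 1 - (k : ℤ) := by push_cast; ring
        rw [h1]
        have h2 := neg_abs_le (g (R + 1 - (k : ℤ)) - g (R + 1 - ((k + 1 : ℕ) : ℤ)))
        linarith
      · simp only [Finset.mem_Icc]
        push_cast
        omega
  have h1 := key (R + 1 - x).toNat
  have h2 : R + 1 - (((R + 1 - x).toNat : ℕ) : ℤ) = x := by omega
  rw [h2] at h1
  refine h1.trans (Finset.sum_le_sum_of_subset_of_nonneg ?_ fun _ _ _ => abs_nonneg _)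
  intro z hz
  simp only [Finset.mem_Icc] at hz ⊢
  omega

/-- Cauchy-Schwarz for the differences of `f²`. -/
lemma sum_abs_sq {H K : Finset Site} {f : Site → ℝ} (hf : ∀ x, x ∉ H → f x = 0) (e : Site)
    (hK0 : H ⊆ K) (hK : ∀ x ∈ H, x - e ∈ K) :
    (∑ x ∈ K, |f (x + e) ^ 2 - f x ^ 2|) ^ 2 ≤
      (∑ x ∈ K, (f (x + e) - f x) ^ 2) * (4 * ∑ x ∈ H, f x ^ 2) := by
  have h1 : ∀ x, |f (x + e) ^ 2 - f x ^ 2| = |f (x + e) - f x| * |f (x + e) + f x| := by
    intro x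
    rw [← abs_mul]
    congr 1
    ring
  simp only [h1]
  refine (Finset.sum_mul_sq_le_sq_mul_sq K (fun x => |f (x + e) - f x|)
    (fun x => |f (x + e) + f x|)).trans ?_
  simp only [sq_abs]
  refine mul_le_mul_of_nonneg_left ?_ (Finset.sum_nonneg fun _ _ => sq_nonneg _)
  have h2 : ∑ x ∈ K, f (x + e) ^ 2 = ∑ x ∈ H, f x ^ 2 :=
    sum_shift (g := fun x => f x ^ 2) (fun x hx => by rw [hf x hx]; ring) e hK
  have h3 : ∑ x ∈ K, f x ^ 2 = ∑ x ∈ H, f x ^ 2 :=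
    (Finset.sum_subset hK0 fun x _ hx => by rw [hf x hx]; ring).symm
  calc ∑ x ∈ K, (f (x + e) + f x) ^ 2 ≤ ∑ x ∈ K, (2 * f (x + e) ^ 2 + 2 * f x ^ 2) := by
        refine Finset.sum_le_sum fun x _ => ?_
        nlinarith [sq_nonneg (f (x + e) - f x)]
    _ = 4 * ∑ x ∈ H, f x ^ 2 := by
        rw [Finset.sum_add_distrib, ← Finset.mul_sum, ← Finset.mul_sum, h2, h3]
        ring

/-- Ladyzhenskaya's inequality. -/
lemma sum_four {H : Finset Site} {f : Site → ℝ} (hf : ∀ x, x ∉ H → f x = 0) :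
    ∑ x ∈ H, f x ^ 4 ≤ 2 * (∑ x ∈ H, f x ^ 2) * dform H f := by
  classical
  obtain ⟨R, hR⟩ : ∃ R : ℤ, ∀ x ∈ H, |x.1| < R ∧ |x.2| < R := by
    refine ⟨∑ x ∈ H, (|x.1| + |x.2|) + 1, fun x hx => ?_⟩
    have h1 := Finset.single_le_sum (f := fun x : Site => |x.1| + |x.2|)
      (fun y _ => by positivity) hx
    have h2 := abs_nonneg x.1
    have h3 := abs_nonneg x.2
    constructor
    · linarith
    · linarith
  set I := Finset.Icc (-R) R with hI
  set K : Finset Site := I ×ˢ I with hKdef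
  have hmem : ∀ x : Site, x ∈ K ↔ (-R ≤ x.1 ∧ x.1 ≤ R) ∧ (-R ≤ x.2 ∧ x.2 ≤ R) := by
    intro x
    rw [hKdef, Finset.mem_product, hI, Finset.mem_Icc, Finset.mem_Icc]
  have hb : ∀ x ∈ H, -R < x.1 ∧ x.1 < R ∧ -R < x.2 ∧ x.2 < R := by
    intro x hx
    have := hR x hx
    rw [abs_lt, abs_lt] at this
    exact ⟨this.1.1, this.1.2, this.2.1, this.2.2⟩
  have hK0 : H ⊆ K := by
    intro x hx
    have := hb x hx
    rw [hmem]
    omega
  have hK1 : ∀ x ∈ H, x - (1, 0) ∈ K := by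
    intro x hx
    have := hb x hx
    rw [hmem]
    simp only [Prod.fst_sub, Prod.snd_sub]
    omega
  have hK2 : ∀ x ∈ H, x - (0, 1) ∈ K := by
    intro x hx
    have := hb x hx
    rw [hmem]
    simp only [Prod.fst_sub, Prod.snd_sub]
    omega
  set A : ℤ → ℝ := fun y => ∑ z ∈ I, |f (z + 1, y) ^ 2 - f (z, y) ^ 2| with hA
  set B : ℤ → ℝ := fun x => ∑ z ∈ I, |f (x, z + 1) ^ 2 - f (x, z) ^ 2| with hB
  have hf1 : ∀ y, f (R + 1, y) = 0 := by
    intro y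
    apply hf
    intro h
    have := hb _ h
    simp only at this
    omega
  have hf2 : ∀ x, f (x, R + 1) = 0 := by
    intro x
    apply hf
    intro h
    have := hb _ h
    simp only at this
    omega
  have hA1 : ∀ x ∈ K, f x ^ 2 ≤ A x.2 := by
    intro x hx
    rw [hmem] at hx
    exact le_sum_abs (fun z => f (z, x.2) ^ 2) (-R) R (by simp [hf1]) hx.1.1 (by omega)
  have hB1 : ∀ x ∈ K, f x ^ 2 ≤ B x.1 := by
    intro x hx
    rw [hmem] at hx
    exact le_sum_abs (fun z => f (x.1, z) ^ 2) (-R) R (by simp [hf2]) hx.2.1 (by omega)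
  have hA0 : ∀ y, 0 ≤ A y := fun y => Finset.sum_nonneg fun _ _ => abs_nonneg _
  have h4 : ∑ x ∈ H, f x ^ 4 ≤ (∑ x ∈ I, B x) * (∑ y ∈ I, A y) := by
    calc ∑ x ∈ H, f x ^ 4 ≤ ∑ x ∈ K, f x ^ 4 :=
          Finset.sum_le_sum_of_subset_of_nonneg hK0 fun x _ _ => by positivity
      _ ≤ ∑ x ∈ K, B x.1 * A x.2 := by
          refine Finset.sum_le_sum fun x hx => ?_
          have e : f x ^ 4 = f x ^ 2 * f x ^ 2 := by ring
          rw [e]
          exact mul_le_mul (hB1 x hx) (hA1 x hx) (sq_nonneg _)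
            ((sq_nonneg _).trans (hB1 x hx))
      _ = (∑ x ∈ I, B x) * (∑ y ∈ I, A y) := by
          rw [hKdef, Finset.sum_product, Finset.sum_mul_sum]
  have h5 : ∑ y ∈ I, A y = ∑ x ∈ K, |f (x + (1, 0)) ^ 2 - f x ^ 2| := by
    rw [hKdef, Finset.sum_product, Finset.sum_comm]
    refine Finset.sum_congr rfl fun y _ => Finset.sum_congr rfl fun z _ => ?_
    simp
  have h6 : ∑ x ∈ I, B x = ∑ x ∈ K, |f (x + (0, 1)) ^ 2 - f x ^ 2| := by
    rw [hKdef, Finset.sum_product]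
    refine Finset.sum_congr rfl fun y _ => Finset.sum_congr rfl fun z _ => ?_
    simp
  have h7 := sum_abs_sq hf (1, 0) hK0 hK1
  have h8 := sum_abs_sq hf (0, 1) hK0 hK2
  rw [← h5] at h7
  rw [← h6] at h8
  rw [dform_eq hf hK0 hK1 hK2]
  nlinarith [sq_nonneg (∑ y ∈ I, A y - ∑ x ∈ I, B x)]

/-- Interpolation. -/
lemma interp (H : Finset Site) (f : Site → ℝ) :
    (∑ x ∈ H, f x ^ 2) ^ 4 ≤ (∑ x ∈ H, |f x|) ^ 2 * ((∑ x ∈ H, f x ^ 2) * ∑ x ∈ H, f x ^ 4) := by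
  have h1 : (∑ x ∈ H, f x ^ 2) ^ 2 ≤ (∑ x ∈ H, |f x|) * ∑ x ∈ H, |f x| ^ 3 := by
    have h := Finset.sum_mul_sq_le_sq_mul_sq H (fun x => Real.sqrt |f x|)
      (fun x => |f x| * Real.sqrt |f x|)
    have e1 : ∀ x, Real.sqrt |f x| * (|f x| * Real.sqrt |f x|) = f x ^ 2 := by
      intro x
      have := Real.mul_self_sqrt (abs_nonneg (f x))
      calc Real.sqrt |f x| * (|f x| * Real.sqrt |f x|)
          = |f x| * (Real.sqrt |f x| * Real.sqrt |f x|) := by ring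
        _ = f x ^ 2 := by rw [this, ← sq_abs (f x)]; ring
    have e2 : ∀ x, Real.sqrt |f x| ^ 2 = |f x| := fun x => Real.sq_sqrt (abs_nonneg _)
    have e3 : ∀ x, (|f x| * Real.sqrt |f x|) ^ 2 = |f x| ^ 3 := by
      intro x
      rw [mul_pow, e2]; ring
    simp only [e1, e2, e3] at h
    exact h
  have h2 : (∑ x ∈ H, |f x| ^ 3) ^ 2 ≤ (∑ x ∈ H, f x ^ 2) * ∑ x ∈ H, f x ^ 4 := by
    have h := Finset.sum_mul_sq_le_sq_mul_sq H (fun x => |f x|) (fun x => f x ^ 2)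
    have e1 : ∀ x, |f x| * f x ^ 2 = |f x| ^ 3 := by
      intro x
      rw [← sq_abs (f x)]; ring
    have e2 : ∀ x, (f x ^ 2) ^ 2 = f x ^ 4 := fun x => by ring
    simp only [e1, e2, sq_abs] at h
    exact h
  have h3 : 0 ≤ ∑ x ∈ H, |f x| ^ 3 := Finset.sum_nonneg fun _ _ => by positivity
  have h4 : 0 ≤ ∑ x ∈ H, |f x| := Finset.sum_nonneg fun _ _ => abs_nonneg _
  calc (∑ x ∈ H, f x ^ 2) ^ 4 = ((∑ x ∈ H, f x ^ 2) ^ 2) ^ 2 := by ring
    _ ≤ ((∑ x ∈ H, |f x|) * ∑ x ∈ H, |f x| ^ 3) ^ 2 := pow_le_pow_left₀ (sq_nonneg _) h1 2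
    _ = (∑ x ∈ H, |f x|) ^ 2 * (∑ x ∈ H, |f x| ^ 3) ^ 2 := by ring
    _ ≤ _ := mul_le_mul_of_nonneg_left h2 (sq_nonneg _)

end Nash

/-- M1: Nash inequality. -/
theorem nash : ∃ C : ℝ, 0 < C ∧ ∀ H : Finset Site, ∀ f : Site → ℝ, (∀ x, x ∉ H → f x = 0) →
    (∑ x ∈ H, f x ^ 2) ^ 2 ≤ C * dform H f * (∑ x ∈ H, |f x|) ^ 2 := by
  refine ⟨2, by norm_num, fun H f hf => ?_⟩
  set S := ∑ x ∈ H, f x ^ 2 with hS
  set L := ∑ x ∈ H, |f x| with hL
  have hS0 : 0 ≤ S := Finset.sum_nonneg fun _ _ => sq_nonneg _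
  have hD0 := fu_dform_nonneg hf
  rcases hS0.eq_or_lt with h0 | h0
  · rw [← h0]
    have : 0 ≤ 2 * dform H f * L ^ 2 := by positivity
    simpa using this
  · have h1 := Nash.interp H f
    have h2 := Nash.sum_four hf
    rw [← hS] at h1 h2
    rw [← hL] at h1
    have h3 : S ^ 4 ≤ L ^ 2 * (S * (2 * S * dform H f)) :=
      h1.trans (mul_le_mul_of_nonneg_left (mul_le_mul_of_nonneg_left h2 hS0) (sq_nonneg _))
    have h4 : 0 < S ^ 2 := by positivity
    have h5 : S ^ 2 * S ^ 2 ≤ S ^ 2 * (2 * dform H f * L ^ 2) := by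
      calc S ^ 2 * S ^ 2 = S ^ 4 := by ring
        _ ≤ L ^ 2 * (S * (2 * S * dform H f)) := h3
        _ = S ^ 2 * (2 * dform H f * L ^ 2) := by ring
    exact le_of_mul_le_mul_left h5 h4

/-- The boundary part of the Dirichlet form. -/
theorem sum_kap_le_dform {G H : Finset Site} (hHG : H ⊆ G) {f : Site → ℝ}
    (hf : ∀ x, x ∉ H → f x = 0) : ∑ x ∈ H, (kap G x : ℝ) * f x ^ 2 ≤ dform H f := by
  classical
  -- each direction
  have hdir : ∀ e : Site, ∑ x ∈ H, f x * f (x + e) ≤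
      (∑ x ∈ H, (if x + e ∈ H then f x ^ 2 else 0) + ∑ x ∈ H, (if x - e ∈ H then f x ^ 2 else 0)) / 2 := by
    intro e
    have h1 := fu_shift_sum hf (fun x => f x) e
    have h2 : ∀ x ∈ H, f x * f (x + e) ≤
        ((if x + e ∈ H then f x ^ 2 else 0) + f (x + e) * f (x + e)) / 2 := by
      intro x _
      split_ifs with h
      · nlinarith [sq_nonneg (f x - f (x + e))]
      · rw [hf _ h]; simp
    refine (Finset.sum_le_sum h2).trans ?_
    rw [← Finset.sum_div, Finset.sum_add_distrib, h1]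
    simp only [pow_two]
    exact le_rfl
  have hflip : ∑ e ∈ units, ∑ x ∈ H, (if x - e ∈ H then f x ^ 2 else 0) =
      ∑ e ∈ units, ∑ x ∈ H, (if x + e ∈ H then f x ^ 2 else 0) := by
    refine Finset.sum_bij' (fun e _ => -e) (fun e _ => -e) ?_ ?_ ?_ ?_ ?_
    · intro e he; exact units_neg he
    · intro e he; exact units_neg he
    · intro e _; simp
    · intro e _; simp
    · intro e _; simp [sub_eq_add_neg]
  have h1 : ∑ x ∈ H, ∑ e ∈ units, f x * f (x + e) ≤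
      ∑ e ∈ units, ∑ x ∈ H, (if x + e ∈ H then f x ^ 2 else 0) := by
    rw [Finset.sum_comm]
    refine (Finset.sum_le_sum fun e _ => hdir e).trans ?_
    rw [← Finset.sum_div, Finset.sum_add_distrib, hflip]
    linarith
  have h2 : ∑ e ∈ units, ∑ x ∈ H, (if x + e ∈ H then f x ^ 2 else 0) ≤
      ∑ x ∈ H, (4 - (kap G x : ℝ)) * f x ^ 2 := by
    rw [Finset.sum_comm]
    refine Finset.sum_le_sum fun x _ => ?_
    have h3 : ∑ e ∈ units, (if x + e ∈ H then f x ^ 2 else 0) ≤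
        ∑ e ∈ units, (f x ^ 2 - if x + e ∉ G then f x ^ 2 else 0) := by
      refine Finset.sum_le_sum fun e _ => ?_
      by_cases hG : x + e ∈ G
      · rw [if_neg (not_not.2 hG)]
        split_ifs
        · simp
        · simp [sq_nonneg]
      · rw [if_pos hG, if_neg (fun h => hG (hHG h))]
        simp
    refine h3.trans (le_of_eq ?_)
    rw [Finset.sum_sub_distrib, Finset.sum_const, card_units, ← Finset.sum_filter,
      Finset.sum_const]
    unfold kap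
    rw [nsmul_eq_mul, nsmul_eq_mul]
    push_cast
    ring
  unfold dform
  rw [Finset.sum_sub_distrib]
  have h4 : ∑ x ∈ H, (4 - (kap G x : ℝ)) * f x ^ 2 =
      ∑ x ∈ H, 4 * f x ^ 2 - ∑ x ∈ H, (kap G x : ℝ) * f x ^ 2 := by
    rw [← Finset.sum_sub_distrib]
    exact Finset.sum_congr rfl fun x _ => by ring
  linarith

end Pool.Agent.WSB71
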