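import Pool.Agent.WSB71.MassOp
import Pool.Agent.WSB71.Nash

/-!
# M4 (helper78): the mass of the connecting pieces

`V = ∑ q^k P^k 1 / (8 - lam)`, `q = 8 / (8 - lam)`, solves `(L - lam) V = 1`; it is bounded by `A N²` by
Nash decay up to time `N²` and spectral decay afterwards.  Path sums are compared with `V` and
`1 + lam V` by induction on the length.
-/

open MeasureTheory Filter Topology
open scoped NNReal ENNReal

namespace Pool.Agent.WSB71

open Pool.Agent.LT

namespace MP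

variable {G H : Finset Site} {θ lam : ℝ}

open Classical in
/-- The indicator of `H`. -/
noncomputable def ind (H : Finset Site) (x : Site) : ℝ := if x ∈ H then 1 else 0

open Classical in
/-- The indicator of a point. -/
noncomputable def pt (z : Site) (x : Site) : ℝ := if x = z then 1 else 0

lemma ind_off {x : Site} (hx : x ∉ H) : ind H x = 0 := if_neg hx

lemma ind_nonneg (x : Site) : 0 ≤ ind H x := by
  unfold ind
  split_ifs <;> norm_num

lemma pt_off {z : Site} (hz : z ∈ H) : ∀ x, x ∉ H → pt z x = 0 := by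
  intro x hx
  unfold pt
  rw [if_neg]
  rintro rfl
  exact hx hz

lemma pt_nonneg (z x : Site) : 0 ≤ pt z x := by
  unfold pt
  split_ifs <;> norm_num

lemma ip_pt {z : Site} (hz : z ∈ H) (f : Site → ℝ) : ip H (pt z) f = f z := by
  classical
  unfold ip pt
  simp [hz]

lemma sum_pt {z : Site} (hz : z ∈ H) : ∑ x ∈ H, pt z x = 1 := by
  classical
  unfold pt
  simp [hz]

lemma ip_ind_self : ip H (ind H) (ind H) = H.card := by
  classical
  unfold ip ind
  simp

lemma ip_ind (f : Site → ℝ) : ip H f (ind H) = ∑ x ∈ H, f x := by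
  unfold ip ind
  apply Finset.sum_congr rfl
  intro x hx
  rw [if_pos hx, mul_one]

lemma ip_cs (f g : Site → ℝ) : ip H f g ≤ √(ip H f f) * √(ip H g g) := by
  have h1 := Finset.sum_mul_sq_le_sq_mul_sq H f g
  have h2 : (ip H f g) ^ 2 ≤ (√(ip H f f) * √(ip H g g)) ^ 2 := by
    rw [mul_pow, Real.sq_sqrt (ip_self_nonneg _), Real.sq_sqrt (ip_self_nonneg _), ip_self, ip_self]
    exact h1
  exact le_trans (le_abs_self _) (abs_le_of_sq_le_sq h2 (by positivity))

/-- `P^k 1`. -/
noncomputable def S (G H : Finset Site) (θ : ℝ) (k : ℕ) (z : Site) : ℝ := Pk G H θ k (ind H) z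

lemma S_nonneg (hθ1 : θ ≤ 1) (k : ℕ) (z : Site) : 0 ≤ S G H θ k z :=
  Pk_nonneg hθ1 ind_nonneg k z

lemma S_off (k : ℕ) {z : Site} (hz : z ∉ H) : S G H θ k z = 0 :=
  Pk_off (fun _ hx => ind_off hx) k z hz

lemma S_le_one (hθ : 0 ≤ θ) (hθ1 : θ ≤ 1) (hHG : H ⊆ G) (k : ℕ) (z : Site) :
    S G H θ k z ≤ 1 := by
  by_cases hz : z ∈ H
  · unfold S
    rw [← ip_pt hz (Pk G H θ k (ind H)), Pk_symm (pt_off hz) (fun _ hx => ind_off hx), ip_ind]
    refine (sum_Pk_le hθ hθ1 hHG (pt_off hz) (pt_nonneg z) k).trans ?_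
    rw [sum_pt hz]
  · rw [S_off k hz]
    exact zero_le_one

lemma S_late (hθ : 0 < θ) (hθ1 : θ ≤ 1) (hHG : H ⊆ G) {C : ℝ} (hC : 0 < C)
    (hN : ∀ f : Site → ℝ, (∀ x, x ∉ H → f x = 0) →
      (∑ x ∈ H, f x ^ 2) ^ 2 ≤ C * dform H f * (∑ x ∈ H, |f x|) ^ 2)
    {μ : ℝ} (hμ1 : μ ≤ 1)
    (hgap : ∀ f : Site → ℝ, (∀ x, x ∉ H → f x = 0) → 8 * μ * ip H f f ≤ eform G H θ f)
    {m : ℕ} (hm : 0 < m) (j : ℕ) (z : Site) :
    S G H θ (m + j) z ≤ √(8 * C / (θ * m)) * √(H.card : ℝ) * (1 - μ) ^ j := by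
  have hmR : (0 : ℝ) < m := by exact_mod_cast hm
  have h1μ : 0 ≤ 1 - μ := by linarith
  by_cases hz : z ∈ H
  · unfold S
    rw [Pk_add, ← ip_pt hz (Pk G H θ m _),
      Pk_symm (pt_off hz) (Pk_off (fun _ hx => ind_off hx) j)]
    refine (ip_cs _ _).trans ?_
    have h1 : ip H (Pk G H θ m (pt z)) (Pk G H θ m (pt z)) ≤ 8 * C / (θ * m) := by
      have h2 := Pk_nash hθ hθ1 hHG hC hN (pt_off hz) (pt_nonneg z) (sum_pt hz).le
        (by rw [ip_pt hz]; unfold pt; simp) m
      have h3 := ip_self_nonneg (H := H) (Pk G H θ m (pt z))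
      rw [le_div_iff₀ (by positivity)]
      have h4 : ip H (Pk G H θ m (pt z)) (Pk G H θ m (pt z)) * (θ / (8 * C) * m) ≤ 1 := by
        nlinarith
      have h5 : ip H (Pk G H θ m (pt z)) (Pk G H θ m (pt z)) * (θ * m)
          = ip H (Pk G H θ m (pt z)) (Pk G H θ m (pt z)) * (θ / (8 * C) * m) * (8 * C) := by
        field_simp
      rw [h5]
      nlinarith
    have h6 : ip H (Pk G H θ j (ind H)) (Pk G H θ j (ind H)) ≤ ((1 - μ) ^ j) ^ 2 * H.card := by
      have := Pk_decay (G := G) (H := H) hθ1 hμ1 hgap (f := ind H) (fun _ hx => ind_off hx) j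
      rwa [ip_ind_self] at this
    have h7 : √(ip H (Pk G H θ j (ind H)) (Pk G H θ j (ind H))) ≤ (1 - μ) ^ j * √(H.card : ℝ) := by
      refine (Real.sqrt_le_sqrt h6).trans (le_of_eq ?_)
      rw [Real.sqrt_mul (by positivity), Real.sqrt_sq (by positivity)]
    calc √(ip H (Pk G H θ m (pt z)) (Pk G H θ m (pt z))) *
          √(ip H (Pk G H θ j (ind H)) (Pk G H θ j (ind H)))
        ≤ √(8 * C / (θ * m)) * ((1 - μ) ^ j * √(H.card : ℝ)) := by
          gcongr
      _ = _ := by ring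
  · rw [S_off _ hz]
    positivity

/-- The potential. -/
noncomputable def V (G H : Finset Site) (θ lam : ℝ) (z : Site) : ℝ :=
  (1 / (8 - lam)) * ∑' k : ℕ, (8 / (8 - lam)) ^ k * S G H θ k z

lemma V_off {z : Site} (hz : z ∉ H) : V G H θ lam z = 0 := by
  unfold V
  simp only [S_off _ hz, mul_zero, tsum_zero]

lemma V_nonneg (hθ1 : θ ≤ 1) (hl : lam ≤ 4) (z : Site) : 0 ≤ V G H θ lam z := by
  unfold V
  have : 0 < 8 - lam := by linarith
  have h2 : 0 ≤ ∑' k : ℕ, (8 / (8 - lam)) ^ k * S G H θ k z :=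
    tsum_nonneg (fun k => mul_nonneg (by positivity) (S_nonneg hθ1 k z))
  positivity

/-- Hypotheses collected. -/
structure Hyp (G H : Finset Site) (θ lam C μ : ℝ) : Prop where
  hθ : 0 < θ
  hθ1 : θ ≤ 1
  hHG : H ⊆ G
  hC : 0 < C
  hN : ∀ f : Site → ℝ, (∀ x, x ∉ H → f x = 0) →
      (∑ x ∈ H, f x ^ 2) ^ 2 ≤ C * dform H f * (∑ x ∈ H, |f x|) ^ 2
  hμ1 : μ ≤ 1
  hgap : ∀ f : Site → ℝ, (∀ x, x ∉ H → f x = 0) → 8 * μ * ip H f f ≤ eform G H θ f
  hl0 : 0 ≤ lam
  hl4 : lam ≤ 4
  hlμ : lam < 8 * μ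

variable {C μ : ℝ}

lemma late_le (h : Hyp G H θ lam C μ) {m : ℕ} (hm : 0 < m) (j : ℕ) (z : Site) :
    (8 / (8 - lam)) ^ (j + m) * S G H θ (j + m) z ≤
      ((8 / (8 - lam)) ^ m * (√(8 * C / (θ * m)) * √(H.card : ℝ)))
        * (8 / (8 - lam) * (1 - μ)) ^ j := by
  have h8 : 0 < 8 - lam := by linarith [h.hl4]
  have h1 := S_late h.hθ h.hθ1 h.hHG h.hC h.hN h.hμ1 h.hgap hm j z
  rw [add_comm j m]
  calc (8 / (8 - lam)) ^ (m + j) * S G H θ (m + j) z
      ≤ (8 / (8 - lam)) ^ (m + j) * (√(8 * C / (θ * m)) * √(H.card : ℝ) * (1 - μ) ^ j) := by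
        gcongr
    _ = _ := by rw [pow_add, mul_pow]; ring

lemma ratio (h : Hyp G H θ lam C μ) :
    0 ≤ 8 / (8 - lam) * (1 - μ) ∧ 8 / (8 - lam) * (1 - μ) < 1 := by
  have h8 : 0 < 8 - lam := by linarith [h.hl4]
  have h1 := h.hμ1
  have h2 := h.hlμ
  constructor
  · have : 0 ≤ 1 - μ := by linarith
    positivity
  · rw [div_mul_eq_mul_div, div_lt_one h8]
    linarith

lemma summ (h : Hyp G H θ lam C μ) (z : Site) :
    Summable (fun k : ℕ => (8 / (8 - lam)) ^ k * S G H θ k z) := by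
  have h8 : 0 < 8 - lam := by linarith [h.hl4]
  obtain ⟨r0, r1⟩ := ratio h
  rw [← summable_nat_add_iff 1]
  refine Summable.of_nonneg_of_le (fun k => mul_nonneg (by positivity) (S_nonneg h.hθ1 _ z))
    (fun k => late_le h one_pos k z) ?_
  exact (summable_geometric_of_lt_one r0 r1).mul_left _

lemma V_eq (h : Hyp G H θ lam C μ) {z : Site} (hz : z ∈ H) :
    (aw G θ z - lam) * V G H θ lam z = 1 + ∑ e ∈ units, V G H θ lam (z + e) := by
  have h8 : 0 < 8 - lam := by linarith [h.hl4]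
  have h8' : 8 - lam ≠ 0 := h8.ne'
  set q := 8 / (8 - lam) with hq
  have hT : ∀ x, ∑' k : ℕ, q ^ k * S G H θ k x = (8 - lam) * V G H θ lam x := by
    intro x
    unfold V
    rw [← hq]
    field_simp
  have h1 := (summ h z).tsum_eq_zero_add
  rw [← hq] at h1
  rw [hT z] at h1
  have h2 : S G H θ 0 z = 1 := by
    unfold S
    rw [Pk_zero]
    exact if_pos hz
  have h3 : ∀ k : ℕ, q ^ (k + 1) * S G H θ (k + 1) z =
      (q / 8) * ((8 - aw G θ z) * (q ^ k * S G H θ k z)
        + ∑ e ∈ units, q ^ k * S G H θ k (z + e)) := by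
    intro k
    have : S G H θ (k + 1) z = ((8 - aw G θ z) * S G H θ k z + ∑ e ∈ units, S G H θ k (z + e)) / 8 := by
      unfold S
      rw [Pk_succ, P_on _ hz]
    rw [this, ← Finset.mul_sum]
    ring
  have hsum : ∀ x, Summable (fun k : ℕ => q ^ k * S G H θ k x) := fun x => summ h x
  have h4 : ∑' k : ℕ, q ^ (k + 1) * S G H θ (k + 1) z =
      (q / 8) * ((8 - aw G θ z) * ((8 - lam) * V G H θ lam z)
        + ∑ e ∈ units, (8 - lam) * V G H θ lam (z + e)) := by
    simp only [h3]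
    rw [tsum_mul_left, Summable.tsum_add ((hsum z).mul_left _)
      (summable_sum (fun e _ => hsum (z + e))), tsum_mul_left, hT,
      Summable.tsum_finsetSum (fun e _ => hsum (z + e))]
    simp only [hT]
  rw [h4, pow_zero, one_mul, h2, ← Finset.mul_sum] at h1
  have h5 : q / 8 = 1 / (8 - lam) := by
    rw [hq]
    field_simp
  rw [h5] at h1
  have h6 : 1 / (8 - lam) * ((8 - aw G θ z) * ((8 - lam) * V G H θ lam z)
      + (8 - lam) * ∑ e ∈ units, V G H θ lam (z + e))
      = (8 - aw G θ z) * V G H θ lam z + ∑ e ∈ units, V G H θ lam (z + e) := by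
    field_simp
  rw [h6] at h1
  linarith

lemma V_le (h : Hyp G H θ lam C μ) {m : ℕ} (hm : 0 < m) (z : Site) :
    V G H θ lam z ≤ (8 / (8 - lam)) ^ m *
      (m + √(8 * C / (θ * m)) * √(H.card : ℝ) * (8 / (8 * μ - lam))) := by
  have h8 : 0 < 8 - lam := by linarith [h.hl4]
  have hq1 : 1 ≤ 8 / (8 - lam) := by
    rw [le_div_iff₀ h8]
    linarith [h.hl0]
  set q := 8 / (8 - lam) with hq
  have hμl : 0 < 8 * μ - lam := by linarith [h.hlμ]
  obtain ⟨r0, r1⟩ := ratio h
  rw [← hq] at r0 r1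
  have hs := summ h z
  rw [← hq] at hs
  have h1 := hs.sum_add_tsum_nat_add m
  have h2 : ∑ k ∈ Finset.range m, q ^ k * S G H θ k z ≤ q ^ m * m := by
    calc ∑ k ∈ Finset.range m, q ^ k * S G H θ k z ≤ ∑ k ∈ Finset.range m, q ^ m := by
          apply Finset.sum_le_sum
          intro k hk
          have a1 : q ^ k ≤ q ^ m := pow_le_pow_right₀ hq1 (Finset.mem_range.1 hk).le
          have a2 := S_le_one h.hθ.le h.hθ1 h.hHG k z
          have a3 := S_nonneg (G := G) (H := H) h.hθ1 k z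
          calc q ^ k * S G H θ k z ≤ q ^ k * 1 := by gcongr
            _ = q ^ k := mul_one _
            _ ≤ q ^ m := a1
      _ = q ^ m * m := by rw [Finset.sum_const, Finset.card_range, nsmul_eq_mul, mul_comm]
  have h3 : ∑' j : ℕ, q ^ (j + m) * S G H θ (j + m) z ≤
      q ^ m * (√(8 * C / (θ * m)) * √(H.card : ℝ)) * (1 - q * (1 - μ))⁻¹ := by
    rw [← tsum_geometric_of_lt_one r0 r1, ← tsum_mul_left]
    apply Summable.tsum_le_tsum
    · intro j
      exact late_le h hm j z
    · exact (summable_nat_add_iff m).2 hs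
    · exact (summable_geometric_of_lt_one r0 r1).mul_left _
  have h4 : (1 - q * (1 - μ))⁻¹ ≤ 8 / (8 * μ - lam) := by
    have : 1 - q * (1 - μ) = (8 * μ - lam) / (8 - lam) := by
      rw [hq]
      field_simp
      ring
    rw [this, inv_div]
    gcongr
    linarith [h.hl0]
  have h5 : ∑' k : ℕ, q ^ k * S G H θ k z ≤ q ^ m *
      (m + √(8 * C / (θ * m)) * √(H.card : ℝ) * (8 / (8 * μ - lam))) := by
    rw [← h1]
    have h6 : q ^ m * (√(8 * C / (θ * m)) * √(H.card : ℝ)) * (1 - q * (1 - μ))⁻¹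
        ≤ q ^ m * (√(8 * C / (θ * m)) * √(H.card : ℝ)) * (8 / (8 * μ - lam)) := by
      gcongr
    calc _ ≤ q ^ m * m + q ^ m * (√(8 * C / (θ * m)) * √(H.card : ℝ)) * (8 / (8 * μ - lam)) :=
          add_le_add h2 (h3.trans h6)
      _ = _ := by ring
  have h7 : 0 ≤ ∑' k : ℕ, q ^ k * S G H θ k z :=
    tsum_nonneg (fun k => mul_nonneg (by positivity) (S_nonneg h.hθ1 k z))
  have h8' : 1 / (8 - lam) ≤ 1 := by
    rw [div_le_one h8]
    linarith [h.hl4]
  calc V G H θ lam z = 1 / (8 - lam) * ∑' k : ℕ, q ^ k * S G H θ k z := rfl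
    _ ≤ 1 * ∑' k : ℕ, q ^ k * S G H θ k z := by gcongr
    _ = ∑' k : ℕ, q ^ k * S G H θ k z := one_mul _
    _ ≤ _ := h5

/-! ### Sums over lists -/

lemma tsum_lists (p : List Site → Prop) (F : List Site → ℝ≥0∞) (b : ℝ≥0∞)
    (h : ∀ (n : ℕ) (s : Finset (List Site)), (∀ l ∈ s, p l ∧ l.length ≤ n) → ∑ l ∈ s, F l ≤ b) :
    ∑' l : {l : List Site // p l}, F l ≤ b := by
  classical
  rw [ENNReal.tsum_eq_iSup_sum]
  apply iSup_le
  intro t
  have h1 := h ((t.map (Function.Embedding.subtype p)).sup List.length)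
    (t.map (Function.Embedding.subtype p)) (by
      intro l hl
      refine ⟨?_, Finset.le_sup (f := List.length) hl⟩
      rw [Finset.mem_map] at hl
      obtain ⟨a, _, rfl⟩ := hl
      exact a.2)
  rw [Finset.sum_map] at h1
  exact h1

/-- One step of the recursion for lists starting at `z`. -/
lemma sum_step (F : List Site → ℝ≥0∞) (z : Site) (s : Finset (List Site))
    (hs : ∀ l ∈ s, l.head? = some z ∧ l.IsChain Adj) :
    ∑ l ∈ s, F l ≤ (if [z] ∈ s then F [z] else 0) +
      ∑ e ∈ units, ∑ t ∈ (s.image List.tail).filter (fun t => t.head? = some (z + e)),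
        F (z :: t) := by
  classical
  have h1 : s ⊆ (if [z] ∈ s then {[z]} else ∅) ∪ units.biUnion (fun e =>
      ((s.image List.tail).filter (fun t => t.head? = some (z + e))).image (List.cons z)) := by
    intro l hl
    obtain ⟨h2, h3⟩ := hs l hl
    rw [Finset.mem_union]
    cases l with
    | nil => simp at h2
    | cons a l =>
      simp only [List.head?_cons, Option.some.injEq] at h2
      subst h2
      cases l with
      | nil => left; rw [if_pos hl]; simp
      | cons b l =>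
        right
        rw [List.isChain_cons_cons] at h3
        rw [Finset.mem_biUnion]
        refine ⟨b - a, h3.1, ?_⟩
        rw [Finset.mem_image]
        refine ⟨b :: l, ?_, rfl⟩
        rw [Finset.mem_filter, Finset.mem_image]
        refine ⟨⟨a :: b :: l, hl, rfl⟩, ?_⟩
        simp
  have h0 : ∀ (u v : Finset (List Site)), ∑ l ∈ u ∪ v, F l ≤ ∑ l ∈ u, F l + ∑ l ∈ v, F l := by
    intro u v
    rw [← Finset.sum_union_inter]
    exact le_self_add
  refine (Finset.sum_le_sum_of_subset h1).trans ((h0 _ _).trans ?_)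
  apply add_le_add
  · split_ifs
    · simp
    · simp
  · have hB : ∀ (u : Finset Site) (t : Site → Finset (List Site)),
        ∑ l ∈ u.biUnion t, F l ≤ ∑ e ∈ u, ∑ l ∈ t e, F l := by
      intro u t
      induction u using Finset.induction_on with
      | empty => simp
      | insert a u ha ih =>
        rw [Finset.biUnion_insert, Finset.sum_insert ha]
        exact (h0 _ _).trans (add_le_add le_rfl ih)
    refine (hB _ _).trans ?_
    apply Finset.sum_le_sum
    intro e _
    rw [Finset.sum_image]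
    intro x _ y _ hxy
    exact List.cons_injective hxy

lemma prod_cons_map (w : Site → ℝ≥0∞) (z : Site) (t : List Site) :
    ((z :: t).map w).prod = w z * (t.map w).prod := by
  rw [List.map_cons, List.prod_cons]

/-- Path sums in `H` are bounded by `V`. -/
lemma chain_sum (w : Site → ℝ≥0∞) (a v : Site → ℝ) (ha : ∀ x ∈ H, 0 < a x)
    (hw : ∀ x, w x = ENNReal.ofReal (a x)⁻¹) (hv : ∀ x, 0 ≤ v x)
    (hav : ∀ x ∈ H, 1 + ∑ e ∈ units, v (x + e) ≤ a x * v x) (n : ℕ) :
    ∀ (z : Site) (s : Finset (List Site)), (∀ l ∈ s, (l.head? = some z ∧ l.IsChain Adj ∧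
      ∀ x ∈ l, x ∈ H) ∧ l.length ≤ n) → ∑ l ∈ s, (l.map w).prod ≤ ENNReal.ofReal (v z) := by
  classical
  induction n with
  | zero =>
    intro z s hs
    have : s = ∅ := by
      rw [Finset.eq_empty_iff_forall_notMem]
      intro l hl
      obtain ⟨⟨h1, -, -⟩, h2⟩ := hs l hl
      have : l = [] := List.length_eq_zero_iff.1 (by omega)
      rw [this] at h1
      simp at h1
    rw [this, Finset.sum_empty]
    exact zero_le
  | succ n ih =>
    intro z s hs
    rcases s.eq_empty_or_nonempty with rfl | ⟨l0, hl0⟩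
    · rw [Finset.sum_empty]
      exact zero_le
    · have hz : z ∈ H := by
        obtain ⟨⟨h1, -, h3⟩, -⟩ := hs l0 hl0
        exact h3 z (List.mem_of_mem_head? (by rw [h1]; rfl))
      refine (sum_step _ z s (fun l hl => ⟨(hs l hl).1.1, (hs l hl).1.2.1⟩)).trans ?_
      have h1 : (if [z] ∈ s then ((([z] : List Site).map w).prod) else 0) ≤ w z := by
        split_ifs
        · simp
        · exact zero_le
      have h2 : ∀ e ∈ units, ∑ t ∈ (s.image List.tail).filter (fun t => t.head? = some (z + e)),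
          ((z :: t).map w).prod ≤ w z * ENNReal.ofReal (v (z + e)) := by
        intro e _
        simp only [prod_cons_map]
        rw [← Finset.mul_sum]
        gcongr
        apply ih
        intro t ht
        rw [Finset.mem_filter, Finset.mem_image] at ht
        obtain ⟨⟨l, hl, rfl⟩, h3⟩ := ht
        obtain ⟨⟨h4, h5, h6⟩, h7⟩ := hs l hl
        refine ⟨⟨h3, h5.tail, fun x hx => h6 x (List.mem_of_mem_tail hx)⟩, ?_⟩
        rw [List.length_tail]
        omega
      refine (add_le_add h1 (Finset.sum_le_sum h2)).trans ?_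
      rw [← Finset.mul_sum, ← ENNReal.ofReal_sum_of_nonneg (fun e _ => hv (z + e))]
      have h3 : w z + w z * ENNReal.ofReal (∑ e ∈ units, v (z + e))
          = w z * ENNReal.ofReal (1 + ∑ e ∈ units, v (z + e)) := by
        rw [ENNReal.ofReal_add zero_le_one (Finset.sum_nonneg (fun e _ => hv _)),
          ENNReal.ofReal_one, mul_add, mul_one]
      have ha' := ha z hz
      rw [h3, hw, ← ENNReal.ofReal_mul (inv_nonneg.2 ha'.le)]
      apply ENNReal.ofReal_le_ofReal
      rw [inv_mul_le_iff₀ ha']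
      exact hav z hz

/-- Hitting sums are bounded by `1 + lam V`. -/
lemma hit_sum (w : Site → ℝ≥0∞) (a v : Site → ℝ) (hl0 : 0 ≤ lam) (ha : ∀ x ∈ H, 0 < a x)
    (hw : ∀ x, w x = ENNReal.ofReal (a x)⁻¹) (hv : ∀ x, 0 ≤ v x)
    (hav : ∀ x ∈ H, 1 + ∑ e ∈ units, v (x + e) ≤ a x * v x)
    (hcard : ∀ x ∈ H, ((units.filter (fun e => x + e ∈ H)).card : ℝ) ≤ a x + lam)
    (C : Set Site) (n : ℕ) :
    ∀ (z : Site) (s : Finset (List Site)), (∀ l ∈ s, (l.head? = some z ∧ l.IsChain Adj ∧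
      (∃ b ∈ l.getLast?, b ∈ C ∧ b ∈ H) ∧ ∀ x ∈ l.dropLast, x ∈ H ∧ x ∉ C) ∧ l.length ≤ n) →
      ∑ l ∈ s, (l.dropLast.map w).prod ≤ ENNReal.ofReal (1 + lam * v z) := by
  classical
  induction n with
  | zero =>
    intro z s hs
    have : s = ∅ := by
      rw [Finset.eq_empty_iff_forall_notMem]
      intro l hl
      obtain ⟨⟨h1, -, -⟩, h2⟩ := hs l hl
      have : l = [] := List.length_eq_zero_iff.1 (by omega)
      rw [this] at h1
      simp at h1
    rw [this, Finset.sum_empty]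
    exact zero_le
  | succ n ih =>
    intro z s hs
    -- the structure of the lists in `s`
    have key : ∀ l ∈ s, (l = [z] ∧ z ∈ C ∧ z ∈ H) ∨ (z ∈ H ∧ z ∉ C ∧ ∃ b t, l = z :: b :: t ∧ b ∈ H) := by
      intro l hl
      obtain ⟨⟨h1, h2, ⟨c, hc, hcC, hcH⟩, h3⟩, -⟩ := hs l hl
      cases l with
      | nil => simp at h1
      | cons a l =>
        simp only [List.head?_cons, Option.some.injEq] at h1
        subst h1
        cases l with
        | nil =>
          left
          simp only [List.getLast?_singleton, Option.mem_def, Option.some.injEq] at hc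
          subst hc
          exact ⟨rfl, hcC, hcH⟩
        | cons b t =>
          right
          have h4 := h3 a (by rw [List.dropLast_cons_of_ne_nil (by simp)]; simp)
          refine ⟨h4.1, h4.2, b, t, rfl, ?_⟩
          cases t with
          | nil =>
            simp only [List.getLast?_cons_cons, List.getLast?_singleton, Option.mem_def,
              Option.some.injEq] at hc
            subst hc
            exact hcH
          | cons d t =>
            exact (h3 b (by simp)).1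
    have hpos : (1 : ℝ≥0∞) ≤ ENNReal.ofReal (1 + lam * v z) := by
      rw [← ENNReal.ofReal_one]
      apply ENNReal.ofReal_le_ofReal
      have := mul_nonneg hl0 (hv z)
      linarith
    by_cases hzC : z ∈ C
    · have hsub : s ⊆ {[z]} := by
        intro l hl
        rcases key l hl with h1 | h1
        · rw [h1.1]; simp
        · exact absurd hzC h1.2.1
      refine (Finset.sum_le_sum_of_subset hsub).trans ?_
      simpa using hpos
    · by_cases hz : z ∈ H
      · refine (sum_step _ z s (fun l hl => ⟨(hs l hl).1.1, (hs l hl).1.2.1⟩)).trans ?_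
        have h1 : [z] ∉ s := by
          intro h
          rcases key _ h with h2 | ⟨-, -, b, t, h2, -⟩
          · exact hzC h2.2.1
          · simp at h2
        rw [if_neg h1, zero_add]
        have h2 : ∀ e ∈ units, ∑ t ∈ (s.image List.tail).filter (fun t => t.head? = some (z + e)),
            ((z :: t).dropLast.map w).prod ≤
              if z + e ∈ H then w z * ENNReal.ofReal (1 + lam * v (z + e)) else 0 := by
          intro e _
          have h3 : ∀ t ∈ (s.image List.tail).filter (fun t => t.head? = some (z + e)),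
              z + e ∈ H ∧ t ≠ [] ∧ (((t.head? = some (z + e) ∧ t.IsChain Adj ∧
                (∃ b ∈ t.getLast?, b ∈ C ∧ b ∈ H) ∧ ∀ x ∈ t.dropLast, x ∈ H ∧ x ∉ C) ∧
                t.length ≤ n)) := by
            intro t ht
            rw [Finset.mem_filter, Finset.mem_image] at ht
            obtain ⟨⟨l, hl, rfl⟩, h3⟩ := ht
            obtain ⟨⟨h4, h5, h6, h7⟩, h8⟩ := hs l hl
            rcases key l hl with h9 | ⟨-, -, b, t, rfl, hb⟩
            · exact absurd h9.2.1 hzC
            · simp only [List.tail_cons, List.head?_cons, Option.some.injEq] at h3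
              subst h3
              refine ⟨hb, by simp, ⟨rfl, h5.tail, ?_, ?_⟩, ?_⟩
              · simpa using h6
              · intro x hx
                apply h7
                rw [List.dropLast_cons_of_ne_nil (by simp)]
                exact List.mem_cons_of_mem _ hx
              · simpa using h8
          split_ifs with hze
          · have h4 : ∑ t ∈ (s.image List.tail).filter (fun t => t.head? = some (z + e)),
                ((z :: t).dropLast.map w).prod
                = ∑ t ∈ (s.image List.tail).filter (fun t => t.head? = some (z + e)),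
                w z * (t.dropLast.map w).prod := by
              apply Finset.sum_congr rfl
              intro t ht
              rw [List.dropLast_cons_of_ne_nil (h3 t ht).2.1, prod_cons_map]
            rw [h4, ← Finset.mul_sum]
            gcongr
            apply ih
            intro t ht
            exact (h3 t ht).2.2
          · have h4 : (s.image List.tail).filter (fun t => t.head? = some (z + e)) = ∅ := by
              rw [Finset.eq_empty_iff_forall_notMem]
              intro t ht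
              exact hze (h3 t ht).1
            rw [h4, Finset.sum_empty]
        refine (Finset.sum_le_sum h2).trans ?_
        rw [← Finset.sum_filter, ← Finset.mul_sum,
          ← ENNReal.ofReal_sum_of_nonneg (fun e _ => by
            have := mul_nonneg hl0 (hv (z + e)); linarith)]
        have ha' := ha z hz
        rw [hw, ← ENNReal.ofReal_mul (inv_nonneg.2 ha'.le)]
        apply ENNReal.ofReal_le_ofReal
        rw [inv_mul_le_iff₀ ha', Finset.sum_add_distrib, ← Finset.mul_sum, Finset.sum_const,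
          nsmul_eq_mul, mul_one]
        have h5 : ∑ e ∈ units.filter (fun e => z + e ∈ H), v (z + e) ≤ ∑ e ∈ units, v (z + e) :=
          Finset.sum_le_sum_of_subset_of_nonneg (Finset.filter_subset _ _) (fun e _ _ => hv _)
        have h6 := hcard z hz
        have h7 := hav z hz
        have h8 : lam * (1 + ∑ e ∈ units, v (z + e)) ≤ lam * (a z * v z) :=
          mul_le_mul_of_nonneg_left h7 hl0
        have h9 := mul_le_mul_of_nonneg_left h5 hl0
        nlinarith
      · have : s = ∅ := by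
          rw [Finset.eq_empty_iff_forall_notMem]
          intro l hl
          rcases key l hl with h1 | h1
          · exact hzC h1.2.1
          · exact hz h1.1
        rw [this, Finset.sum_empty]
        exact zero_le

/-- The abstract form. -/
lemma mass_abs {B : Finset Site} (h : Hyp G (G \ B) θ lam C μ) (hlθ : lam < 4 * θ) {M : ℝ}
    (hM : ∀ z, V G (G \ B) θ lam z ≤ M) (D : Set Site) (z : Site) :
    (∑' l : {l : List Site // l.head? = some z ∧ l.IsChain Adj ∧
        (∃ a ∈ l.getLast?, a ∈ D ∧ a ∈ G ∧ a ∉ B) ∧ ∀ x ∈ l.dropLast, x ∈ G ∧ x ∉ B ∧ x ∉ D},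
      ((l : List Site).dropLast.map (rw1 G lam θ)).prod ≤ ENNReal.ofReal (1 + lam * M)) ∧
    (∑' l : {l : List Site // l.head? = some z ∧ l.IsChain Adj ∧
        ∀ x ∈ l, x ∈ G ∧ x ∉ B ∧ x ∉ D},
      ((l : List Site).map (rw1 G lam θ)).prod ≤ ENNReal.ofReal M) := by
  classical
  have ha : ∀ x ∈ G \ B, 0 < aw G θ x - lam := by
    intro x _
    have := aw_ge' (G := G) h.hθ1 x
    linarith
  have hw : ∀ x, rw1 G lam θ x = ENNReal.ofReal (aw G θ x - lam)⁻¹ := by
    intro x
    unfold rw1 aw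
    congr 2
    ring
  have hv : ∀ x, 0 ≤ V G (G \ B) θ lam x := fun x => V_nonneg h.hθ1 h.hl4 x
  have hav : ∀ x ∈ G \ B, 1 + ∑ e ∈ units, V G (G \ B) θ lam (x + e)
      ≤ (aw G θ x - lam) * V G (G \ B) θ lam x :=
    fun x hx => (V_eq h hx).ge
  have hcard : ∀ x ∈ G \ B, ((units.filter (fun e => x + e ∈ G \ B)).card : ℝ)
      ≤ (aw G θ x - lam) + lam := by
    intro x _
    have h1 := aw_ge (G := G) h.hθ.le x
    have h2 : (units.filter (fun e => x + e ∈ G \ B)).card + kap G x ≤ 4 := by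
      unfold kap
      rw [← card_units, ← Finset.card_union_of_disjoint]
      · apply Finset.card_le_card
        intro e he
        rw [Finset.mem_union, Finset.mem_filter, Finset.mem_filter] at he
        rcases he with he | he <;> exact he.1
      · rw [Finset.disjoint_left]
        intro e h3 h4
        rw [Finset.mem_filter] at h3 h4
        exact h4.2 (h.hHG h3.2)
    have h3 : ((units.filter (fun e => x + e ∈ G \ B)).card : ℝ) + kap G x ≤ 4 := by
      exact_mod_cast h2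
    linarith
  constructor
  · refine tsum_lists (fun l => l.head? = some z ∧ l.IsChain Adj ∧
        (∃ a ∈ l.getLast?, a ∈ D ∧ a ∈ G ∧ a ∉ B) ∧ ∀ x ∈ l.dropLast, x ∈ G ∧ x ∉ B ∧ x ∉ D)
      (fun l => (l.dropLast.map (rw1 G lam θ)).prod) _ ?_
    intro n s hs
    refine (hit_sum (H := G \ B) (rw1 G lam θ) (fun x => aw G θ x - lam) (V G (G \ B) θ lam)
      h.hl0 ha hw hv hav hcard D n z s ?_).trans ?_
    · intro l hl
      obtain ⟨⟨h1, h2, ⟨a, h3, h4, h5, h6⟩, h7⟩, h8⟩ := hs l hl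
      exact ⟨⟨h1, h2, ⟨a, h3, h4, Finset.mem_sdiff.2 ⟨h5, h6⟩⟩, fun x hx =>
        ⟨Finset.mem_sdiff.2 ⟨(h7 x hx).1, (h7 x hx).2.1⟩, (h7 x hx).2.2⟩⟩, h8⟩
    · apply ENNReal.ofReal_le_ofReal
      have := mul_le_mul_of_nonneg_left (hM z) h.hl0
      linarith
  · refine tsum_lists (fun l => l.head? = some z ∧ l.IsChain Adj ∧
        ∀ x ∈ l, x ∈ G ∧ x ∉ B ∧ x ∉ D)
      (fun l => (l.map (rw1 G lam θ)).prod) _ ?_
    intro n s hs
    refine (chain_sum (H := G \ B) (rw1 G lam θ) (fun x => aw G θ x - lam)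
      (V G (G \ B) θ lam) ha hw hv hav n z s ?_).trans ?_
    · intro l hl
      obtain ⟨⟨h1, h2, h7⟩, h8⟩ := hs l hl
      exact ⟨⟨h1, h2, fun x hx => Finset.mem_sdiff.2 ⟨(h7 x hx).1, (h7 x hx).2.1⟩⟩, h8⟩
    · exact ENNReal.ofReal_le_ofReal (hM z)

/-- Lower bound for the Dirichlet eigenvalue from the Nash inequality. -/
lemma lamD_ge {C : ℝ} (hC : 0 < C)
    (hN : ∀ f : Site → ℝ, (∀ x, x ∉ H → f x = 0) →
      (∑ x ∈ H, f x ^ 2) ^ 2 ≤ C * dform H f * (∑ x ∈ H, |f x|) ^ 2)
    (hne : H.Nonempty) {R : ℝ} (hR : 0 < R) (hcard : (H.card : ℝ) ≤ R) : 1 / (C * R) ≤ lamD H := by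
  obtain ⟨a, ha⟩ := hne
  obtain ⟨p1, p2⟩ := fu_pt ha
  apply le_csInf
  · exact ⟨_, _, p1, p2, rfl⟩
  · rintro r ⟨f, hf, hf1, rfl⟩
    have h1 := hN f hf
    rw [hf1, one_pow] at h1
    have h2 : (∑ x ∈ H, |f x|) ^ 2 ≤ H.card := by
      have h3 := Finset.sum_mul_sq_le_sq_mul_sq H (fun _ => (1 : ℝ)) (fun x => |f x|)
      simp only [one_mul, one_pow, Finset.sum_const, nsmul_eq_mul, mul_one, sq_abs] at h3
      rw [hf1, mul_one] at h3
      exact h3
    have h4 := fu_dform_nonneg hf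
    rw [div_le_iff₀ (by positivity)]
    calc (1 : ℝ) ≤ C * dform H f * (∑ x ∈ H, |f x|) ^ 2 := h1
      _ ≤ C * dform H f * R := by
        gcongr
        exact h2.trans hcard
      _ = dform H f * (C * R) := by ring

end MP

/-- M4. -/
theorem mass {ε θ Λ₀ C₁ : ℝ} (hε : 0 < ε) (hθ : 0 < θ) (hθ1 : θ ≤ 1) (hΛ : 0 < Λ₀) (hC : 0 < C₁) :
    ∃ A N₀ : ℝ, 1 ≤ A ∧ 0 < N₀ ∧ ∀ N : ℝ, N₀ ≤ N → ∀ G B : Finset Site, ConnF (G : Set Site)ᶜ →
      (G.card : ℝ) ≤ (C₁ * N) ^ 2 → ∀ lam : ℝ, 0 ≤ lam → lam ≤ (1 - ε) * lamD (G \ B) →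
      lam ≤ Λ₀ / N ^ 2 → ∀ C : Set Site, ∀ z ∈ G, z ∉ B →
        (∑' l : {l : List Site // l.head? = some z ∧ l.IsChain Adj ∧
            (∃ a ∈ l.getLast?, a ∈ C ∧ a ∈ G ∧ a ∉ B) ∧
            ∀ x ∈ l.dropLast, x ∈ G ∧ x ∉ B ∧ x ∉ C},
          ((l : List Site).dropLast.map (rw1 G lam θ)).prod ≤ ENNReal.ofReal A) ∧
        (∑' l : {l : List Site // l.head? = some z ∧ l.IsChain Adj ∧
            ∀ x ∈ l, x ∈ G ∧ x ∉ B ∧ x ∉ C},
          ((l : List Site).map (rw1 G lam θ)).prod ≤ ENNReal.ofReal (A * N ^ 2)) := by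
  obtain ⟨Cn, hCn, hnash⟩ := nash
  set ε1 := min ε 1 with hε1
  have hε1p : 0 < ε1 := lt_min hε one_pos
  have hε11 : ε1 ≤ 1 := min_le_right _ _
  have hε1ε : ε1 ≤ ε := min_le_left _ _
  obtain ⟨N₁, hN₁, hrob⟩ := robin_ge (ε := ε1 / 2) (θ := θ) (Λ := Λ₀ + 1) (by positivity) hθ hθ1
    (by positivity)
  set c₁ := min 1 (ε1 / 2 / (Cn * C₁ ^ 2)) with hc₁
  have hc₁p : 0 < c₁ := lt_min one_pos (by positivity)
  set K := √(8 * Cn * C₁ ^ 2 / θ) with hK
  have hK0 : 0 ≤ K := Real.sqrt_nonneg _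
  set A' := Real.exp (2 * Λ₀) * (2 + K * (8 / c₁)) with hA'
  have hA'0 : 0 < A' := by positivity
  refine ⟨1 + (1 + Λ₀) * A', max N₁ (max 1 ((Λ₀ + 1) / θ)), by nlinarith, by positivity, ?_⟩
  intro N hN G B hG hcard lam hl0 hlε hlN C z hzG hzB
  have hNN₁ : N₁ ≤ N := (le_max_left _ _).trans hN
  have hN1 : 1 ≤ N := ((le_max_left _ _).trans (le_max_right _ _)).trans hN
  have hNθ : (Λ₀ + 1) / θ ≤ N := ((le_max_right _ _).trans (le_max_right _ _)).trans hN
  have hN0 : 0 < N := by linarith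
  have hN2 : N ≤ N ^ 2 := by nlinarith
  have hN2p : 0 < N ^ 2 := by positivity
  have hb1 : (Λ₀ + 1) / N ^ 2 ≤ θ := by
    rw [div_le_iff₀ hN2p]
    rw [div_le_iff₀ hθ] at hNθ
    nlinarith
  have hb2 : Λ₀ / N ^ 2 + 1 / N ^ 2 = (Λ₀ + 1) / N ^ 2 := by ring
  have hb3 : 0 < 1 / N ^ 2 := by positivity
  have hlθ : lam < θ := by linarith
  have hzH : z ∈ G \ B := Finset.mem_sdiff.2 ⟨hzG, hzB⟩
  have hHcard : (((G \ B).card : ℕ) : ℝ) ≤ (C₁ * N) ^ 2 :=
    le_trans (by exact_mod_cast Finset.card_le_card Finset.sdiff_subset) hcard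
  have hlamD := lamD_nonneg (G \ B)
  have hlamD2 : 1 / (Cn * (C₁ * N) ^ 2) ≤ lamD (G \ B) :=
    MP.lamD_ge hCn (hnash (G \ B)) ⟨z, hzH⟩ (by positivity) hHcard
  set μ := min ((1 - ε1 / 2) * lamD (G \ B)) ((Λ₀ + 1) / N ^ 2) / 8 with hμ
  have h8μ : 8 * μ = min ((1 - ε1 / 2) * lamD (G \ B)) ((Λ₀ + 1) / N ^ 2) := by
    rw [hμ]; ring
  have hgapN : c₁ / N ^ 2 ≤ 8 * μ - lam := by
    rw [h8μ, le_sub_iff_add_le]
    apply le_min
    · have g1 : lam ≤ (1 - ε1) * lamD (G \ B) :=
        hlε.trans (mul_le_mul_of_nonneg_right (by linarith) hlamD)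
      have g2 : c₁ / N ^ 2 ≤ (ε1 / 2) * lamD (G \ B) := by
        calc c₁ / N ^ 2 ≤ (ε1 / 2 / (Cn * C₁ ^ 2)) / N ^ 2 := by
              gcongr
              exact min_le_right _ _
          _ = (ε1 / 2) * (1 / (Cn * (C₁ * N) ^ 2)) := by
              field_simp
          _ ≤ _ := by gcongr
      linarith
    · have g1 : c₁ / N ^ 2 ≤ 1 / N ^ 2 := by
        gcongr
        exact min_le_left _ _
      linarith
  have hgpos : 0 < c₁ / N ^ 2 := by positivity
  have hyp : MP.Hyp G (G \ B) θ lam Cn μ :=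
    { hθ := hθ
      hθ1 := hθ1
      hHG := Finset.sdiff_subset
      hC := hCn
      hN := hnash (G \ B)
      hμ1 := by
        have := min_le_right ((1 - ε1 / 2) * lamD (G \ B)) ((Λ₀ + 1) / N ^ 2)
        rw [← h8μ] at this
        linarith
      hgap := by
        intro f hf
        rw [h8μ, MP.ip_self]
        exact hrob N hNN₁ G B hG f hf
      hl0 := hl0
      hl4 := by linarith
      hlμ := by linarith }
  -- the time scale
  set m := ⌈N ^ 2⌉₊ with hm
  have hm1 : N ^ 2 ≤ m := Nat.le_ceil _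
  have hm2 : (m : ℝ) ≤ 2 * N ^ 2 := by
    have := (Nat.ceil_lt_add_one hN2p.le).le
    rw [← hm] at this
    nlinarith
  have hmpos : 0 < m := Nat.ceil_pos.2 hN2p
  have hmR : (0 : ℝ) < m := by exact_mod_cast hmpos
  have hV : ∀ y, MP.V G (G \ B) θ lam y ≤ A' * N ^ 2 := by
    intro y
    refine (MP.V_le hyp hmpos y).trans ?_
    have h8 : 0 < 8 - lam := by linarith
    have v1 : (8 / (8 - lam)) ^ m ≤ Real.exp (2 * Λ₀) := by
      have w1 : 8 / (8 - lam) ≤ Real.exp lam := by
        have w2 : 8 / (8 - lam) ≤ lam + 1 := by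
          rw [div_le_iff₀ h8]
          nlinarith
        exact w2.trans (Real.add_one_le_exp lam)
      calc (8 / (8 - lam)) ^ m ≤ (Real.exp lam) ^ m := by gcongr
        _ = Real.exp (m * lam) := by rw [← Real.exp_nat_mul]
        _ ≤ Real.exp (2 * Λ₀) := by
          apply Real.exp_le_exp.2
          calc (m : ℝ) * lam ≤ (2 * N ^ 2) * (Λ₀ / N ^ 2) := by gcongr
            _ = 2 * Λ₀ := by field_simp
    have v2 : √(8 * Cn / (θ * m)) * √((G \ B).card : ℝ) ≤ K := by
      rw [← Real.sqrt_mul (by positivity), hK]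
      apply Real.sqrt_le_sqrt
      rw [div_mul_eq_mul_div, div_le_div_iff₀ (by positivity) hθ]
      have v3 : ((G \ B).card : ℝ) ≤ C₁ ^ 2 * m := by
        calc ((G \ B).card : ℝ) ≤ (C₁ * N) ^ 2 := hHcard
          _ = C₁ ^ 2 * N ^ 2 := by ring
          _ ≤ C₁ ^ 2 * m := by gcongr
      calc 8 * Cn * ((G \ B).card : ℝ) * θ ≤ 8 * Cn * (C₁ ^ 2 * m) * θ := by gcongr
        _ = _ := by ring
    have v4 : 8 / (8 * μ - lam) ≤ 8 / c₁ * N ^ 2 := by
      calc 8 / (8 * μ - lam) ≤ 8 / (c₁ / N ^ 2) := by gcongr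
        _ = _ := by field_simp
    have v5 : 0 ≤ 8 / (8 * μ - lam) := by
      have : 0 < 8 * μ - lam := by linarith
      positivity
    calc (8 / (8 - lam)) ^ m * (m + √(8 * Cn / (θ * m)) * √((G \ B).card : ℝ)
          * (8 / (8 * μ - lam)))
        ≤ Real.exp (2 * Λ₀) * (2 * N ^ 2 + K * (8 / c₁ * N ^ 2)) := by
          gcongr
      _ = A' * N ^ 2 := by rw [hA']; ring
  obtain ⟨r1, r2⟩ := MP.mass_abs hyp (by linarith) hV C z
  constructor
  · refine r1.trans (ENNReal.ofReal_le_ofReal ?_)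
    have : lam * (A' * N ^ 2) ≤ Λ₀ * A' := by
      calc lam * (A' * N ^ 2) ≤ (Λ₀ / N ^ 2) * (A' * N ^ 2) := by gcongr
        _ = Λ₀ * A' := by field_simp
    linarith
  · refine r2.trans (ENNReal.ofReal_le_ofReal ?_)
    have h1 : A' ≤ 1 + (1 + Λ₀) * A' := by
      have h2 : 0 ≤ Λ₀ * A' := mul_nonneg hΛ.le hA'0.le
      linarith
    exact mul_le_mul_of_nonneg_right h1 hN2p.le

end Pool.Agent.WSB71
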