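import Pool.Agent.LT.Cov
import Pool.Agent.LT.Shape
import Pool.Agent.WSB71.RealDef

/-!
# Symmetries of realizability

`realizable_of_sym`: transport of row events under an affine symmetry `x ↦ t k + g x` of the lattice
which preserves `cr` and preserves or reverses `dt`.
-/

open MeasureTheory Filter Topology
open scoped NNReal ENNReal Pointwise

namespace Pool.Agent.WSB71

open Pool.Agent.LT

namespace RealSym

/-- The inverse symmetry. -/
def inv (σ : Sym) : Sym := ⟨σ.g.symm, σ.pres', fun e he => by simpa using σ.pres e he⟩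

lemma inv_act_act (σ : Sym) (f : WP) : (inv σ).act (σ.act f) = f := by
  apply Subtype.ext
  funext u
  show σ.g.symm (σ.g (f.1 u)) = f.1 u
  rw [AddEquiv.symm_apply_apply]

lemma act_inv_act (σ : Sym) (f : WP) : σ.act ((inv σ).act f) = f := by
  apply Subtype.ext
  funext u
  show σ.g (σ.g.symm (f.1 u)) = f.1 u
  rw [AddEquiv.apply_symm_apply]

/-- The action on paths as a measurable equivalence. -/
def actEquiv (σ : Sym) : WP ≃ᵐ WP where
  toFun := σ.act
  invFun := (inv σ).act
  left_inv := inv_act_act σ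
  right_inv := act_inv_act σ
  measurable_toFun := σ.measurable_act
  measurable_invFun := (inv σ).measurable_act

lemma map_act_real (σ : Sym) (μ : Measure WP) (S : Set WP) :
    (μ.map σ.act).real S = μ.real (σ.act ⁻¹' S) := by
  unfold Measure.real
  rw [show μ.map σ.act = μ.map (actEquiv σ) from rfl, MeasurableEquiv.map_apply]
  rfl

/-- Transport of realizability. -/
theorem realizable_of_sym {β : ℝ} (σ : Sym) {v v' : Site} {c : ℝ} (hv' : v' ≠ 0)
    (hdd : dt v' v' = dt v v) (t : ℕ → Site) (hcr : ∀ k x, cr v' (t k + σ.g x) = cr v x)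
    (hdt : (∀ (k : ℕ) x, dt v' (t k + σ.g x) = dt v x) ∨
      (∀ (k : ℕ) x, dt v' (t k + σ.g x) = k * dt v v - dt v x))
    (h : Realizable β v c) : Realizable β v' c := by
  obtain ⟨-, b1, hb1⟩ := h
  refine ⟨hv', b1, fun b2 hb2 => ?_⟩
  obtain ⟨b3, C, hb3, hk⟩ := hb1 b2 hb2
  refine ⟨b3, C, hb3, fun k hk1 => ?_⟩
  obtain ⟨x, y, hx, hy, s, hs, hμ⟩ := hk k hk1
  have hEnd : ∀ z, EndReg v b3 k z → EndReg v' b3 k (t k + σ.g z) := by
    intro z hz
    refine ⟨by rw [hcr]; exact hz.1, ?_⟩
    rw [hdd]
    rcases hdt with hdt | hdt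
    · rw [hdt]; exact hz.2
    · rw [hdt]
      rcases hz.2 with h1 | h1
      · right
        have e : (k : ℤ) * dt v v - dt v z - k * dt v v = -dt v z := by ring
        rw [e, abs_neg]
        exact h1
      · left
        rw [abs_sub_comm]
        exact h1
  refine ⟨t k + σ.g x, t k + σ.g y, hEnd x hx, hEnd y hy, s, hs, fun μ hlaw => ?_⟩
  have := hlaw.prob
  have h1 := hμ _ ((inv σ).isLaw hlaw)
  rw [map_act_real] at h1
  refine h1.trans ?_
  apply measureReal_mono (h₂ := measure_ne_top _ _)
  intro f hf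
  obtain ⟨h2, h3, h4⟩ := hf
  have key : ∀ u z, x + ((inv σ).act f).1 u = z ↔ (t k + σ.g x) + f.1 u = t k + σ.g z := by
    intro u z
    have e : ((inv σ).act f).1 u = σ.g.symm (f.1 u) := rfl
    rw [e]
    constructor
    · intro h5
      rw [← h5, map_add, AddEquiv.apply_symm_apply]
      abel
    · intro h5
      rw [add_assoc] at h5
      have h6 := add_left_cancel h5
      have h7 : σ.g.symm (σ.g x + f.1 u) = z := by rw [h6, AddEquiv.symm_apply_apply]
      rw [map_add, AddEquiv.symm_apply_apply] at h7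
      exact h7
  have pos : ∀ u, (t k + σ.g x) + f.1 u = t k + σ.g (x + ((inv σ).act f).1 u) := fun u =>
    (key u _).1 rfl
  refine ⟨?_, (key s y).1 h3, ?_⟩
  · intro u hu
    obtain ⟨g1, g2, g3⟩ := h2 u hu
    rw [pos u, hcr, hdd]
    refine ⟨g1, ?_⟩
    rcases hdt with hdt | hdt
    · rw [hdt]; exact ⟨g2, g3⟩
    · rw [hdt]
      constructor
      · linarith
      · linarith
  · intro z hz1 hz2 hz3 hz4
    obtain ⟨w, rfl⟩ : ∃ w, t k + σ.g w = z :=
      ⟨σ.g.symm (z - t k), by rw [AddEquiv.apply_symm_apply]; abel⟩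
    rw [hcr] at hz3 hz4
    rw [hdd] at hz2
    have hw : b3 ≤ dt v w ∧ dt v w ≤ k * dt v v - b3 := by
      rcases hdt with hdt | hdt
      · rw [hdt] at hz1 hz2
        exact ⟨hz1, hz2⟩
      · rw [hdt] at hz1 hz2
        constructor
        · linarith
        · linarith
    have h5 := h4 w hw.1 hw.2 hz3 (by
      rcases hz4 with h6 | ⟨u, hu, h6⟩
      · exact Or.inl h6
      · exact Or.inr ⟨u, hu, (key u w).2 h6⟩)
    refine h5.trans (le_of_eq ?_)
    unfold occ
    apply intervalIntegral.integral_congr
    intro u _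
    simp only [key]

/-- Reflection in the diagonal. -/
def symSwap : Sym where
  g := { toFun := fun x => (x.2, x.1), invFun := fun x => (x.2, x.1),
         left_inv := fun x => by simp, right_inv := fun x => by simp,
         map_add' := fun x y => by ext <;> simp }
  pres e he := by
    simp only [units, Finset.mem_insert, Finset.mem_singleton] at he
    rcases he with h | h | h | h <;> subst h <;> decide
  pres' e he := by
    simp only [units, Finset.mem_insert, Finset.mem_singleton] at he
    rcases he with h | h | h | h <;> subst h <;> decide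

lemma symSwap_g (x : Site) : symSwap.g x = (x.2, x.1) := rfl

end RealSym

open RealSym

/-- Rotation by a quarter turn (`symRot`, `Sym.isLaw`). -/
theorem realizable_rot {β : ℝ} {v : Site} {c : ℝ} (h : Realizable β v c) :
    Realizable β (-v.2, v.1) c := by
  refine realizable_of_sym symRot ?_ ?_ (fun _ => 0) ?_ (Or.inl ?_) h
  · intro h0
    apply h.1
    have h1 := congrArg Prod.fst h0
    have h2 := congrArg Prod.snd h0
    simp only [Prod.fst_zero, Prod.snd_zero, neg_eq_zero] at h1 h2
    exact Prod.ext h2 h1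
  · simp only [dt]; ring
  · intro k x
    simp only [cr, symRot_g, Prod.fst_add, Prod.snd_add, Prod.fst_zero, Prod.snd_zero]; ring
  · intro k x
    simp only [dt, symRot_g, Prod.fst_add, Prod.snd_add, Prod.fst_zero, Prod.snd_zero]; ring

/-- Reflection in the diagonal, and reversal: `v ↦ (-v.2, -v.1)`; the row of `-r v` is the
image of the row of `v` under `x ↦ r x - k r v`, `r (x₁, x₂) = (x₂, x₁)`. -/
theorem realizable_refl {β : ℝ} {v : Site} {c : ℝ} (h : Realizable β v c) :
    Realizable β (-v.2, -v.1) c := by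
  refine realizable_of_sym symSwap ?_ ?_ (fun k => (-(k * v.2), -(k * v.1))) ?_ (Or.inr ?_) h
  · intro h0
    apply h.1
    have h1 := congrArg Prod.fst h0
    have h2 := congrArg Prod.snd h0
    simp only [Prod.fst_zero, Prod.snd_zero, neg_eq_zero] at h1 h2
    exact Prod.ext h2 h1
  · simp only [dt]; ring
  · intro k x
    simp only [cr, symSwap_g, Prod.fst_add, Prod.snd_add]; ring
  · intro k x
    simp only [dt, symSwap_g, Prod.fst_add, Prod.snd_add]; ring

/-- The Wulff shape is invariant under sign changes of the coordinates. -/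
theorem WW_abs {β : ℝ} {n : Plane} (h : n ∈ WW β) : !₂[|n 0|, |n 1|] ∈ WW β := by
  have hin : ∀ (m : Plane) (v : Site), inner ℝ m (toPlane v) = m 0 * (v.1 : ℝ) + m 1 * (v.2 : ℝ) := by
    intro m v
    rw [PiLp.inner_apply, Fin.sum_univ_two]
    simp [mul_comm]
  have hx : ∀ v c, Realizable β v c → Realizable β (v.1, -v.2) c := by
    intro v c hv
    have := realizable_rot (realizable_refl hv)
    simpa using this
  have hy : ∀ v c, Realizable β v c → Realizable β (-v.1, v.2) c := by
    intro v c hv
    have := realizable_refl (realizable_rot hv)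
    simpa using this
  intro v c hv
  rw [hin]
  simp only [Matrix.cons_val_zero, Matrix.cons_val_one]
  have h1 := h v c hv
  have h2 := h _ c (hx v c hv)
  have h3 := h _ c (hy v c hv)
  have h4 := h _ c (hx _ c (hy v c hv))
  rw [hin] at h1 h2 h3 h4
  push_cast at h1 h2 h3 h4
  rcases abs_cases (n 0) with ⟨h5, -⟩ | ⟨h5, -⟩ <;> rcases abs_cases (n 1) with ⟨h6, -⟩ | ⟨h6, -⟩ <;>
    rw [h5, h6] <;> linarith

end Pool.Agent.WSB71
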