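import Pool.Agent.WSB71.Tile

/-!
# Parity lemmas for dual paths

P1: across an edge of the lattice the parity of the number of crossings of the staircase changes iff the
path crosses the edge (count the degrees of the dual vertices on one diagonal).
P2: the site on the right of a step is on the right of the path: true for the first step, and the side
of `inn` is constant along the path (right turn: the same inner site, left turn: the same outer site,
straight: P1).
-/

open MeasureTheory Filter Topology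
open scoped NNReal ENNReal

namespace Pool.Agent.WSB71

open Pool.Agent.LT

namespace TileParity

lemma adj_cases {p q : Site} (h : Adj p q) : (q.1 = p.1 + 1 ∧ q.2 = p.2) ∨
    (q.1 = p.1 - 1 ∧ q.2 = p.2) ∨ (q.1 = p.1 ∧ q.2 = p.2 + 1) ∨ (q.1 = p.1 ∧ q.2 = p.2 - 1) := by
  unfold Adj at h
  simp only [units, Finset.mem_insert, Finset.mem_singleton, Prod.ext_iff, Prod.fst_sub,
    Prod.snd_sub] at h
  omega

/-- The step crosses the edge `{x, y}`. -/
def Cr (x y : Site) (s : Site × Site) : Prop :=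
  (inn s.1 s.2 = x ∧ out s.1 s.2 = y) ∨ (inn s.1 s.2 = y ∧ out s.1 s.2 = x)

/-- The steps counted for the site `x`. -/
def Ct (x : Site) (s : Site × Site) : Prop :=
  min (Td s.1) (Td s.2) = Ts x ∧ 2 * gs x < gd s.1 + gd s.2

/-- The dual vertices on the diagonal of `y` beyond `y`. -/
def Sv (y : Site) (p : Site) : Prop := Td p = Ts y ∧ gs y + 1 ≤ gd p

private lemma inn_e (a b : ℤ) : inn (a, b) (a + 1, b) = (a + 1, b) := by
  ext <;> simp only [inn] <;> omega
private lemma inn_w (a b : ℤ) : inn (a, b) (a - 1, b) = (a, b + 1) := by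
  ext <;> simp only [inn] <;> omega
private lemma inn_n (a b : ℤ) : inn (a, b) (a, b + 1) = (a + 1, b + 1) := by
  ext <;> simp only [inn] <;> omega
private lemma inn_s (a b : ℤ) : inn (a, b) (a, b - 1) = (a, b) := by
  ext <;> simp only [inn] <;> omega
private lemma out_e (a b : ℤ) : out (a, b) (a + 1, b) = (a + 1, b + 1) := by
  ext <;> simp only [out] <;> omega
private lemma out_w (a b : ℤ) : out (a, b) (a - 1, b) = (a, b) := by
  ext <;> simp only [out] <;> omega
private lemma out_n (a b : ℤ) : out (a, b) (a, b + 1) = (a, b + 1) := by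
  ext <;> simp only [out] <;> omega
private lemma out_s (a b : ℤ) : out (a, b) (a, b - 1) = (a + 1, b) := by
  ext <;> simp only [out] <;> omega

open Classical in
lemma pointwise {x y : Site} (hxy : Adj x y) (hT : Ts y = Ts x + 1) {s : Site × Site}
    (hs : Adj s.1 s.2) :
    ((if Ct x s then 1 else 0) + (if Ct y s then 1 else 0) + (if Cr x y s then 1 else 0)
      + (if Sv y s.1 then 1 else 0) + (if Sv y s.2 then 1 else 0)) % 2 = 0 := by
  obtain ⟨⟨a, b⟩, ⟨a', b'⟩⟩ := s
  obtain ⟨c, d⟩ := x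
  obtain ⟨c', d'⟩ := y
  have h1 := adj_cases hxy
  have h2 := adj_cases hs
  simp only [Ts] at hT
  simp only at h1 h2
  have h1' : (c' = c + 1 ∧ d' = d) ∨ (c' = c ∧ d' = d + 1) := by omega
  clear h1 hT hxy hs
  rcases h2 with ⟨rfl, rfl⟩ | ⟨rfl, rfl⟩ | ⟨rfl, rfl⟩ | ⟨rfl, rfl⟩
  · have hm : min (a + b' + 1) (a + 1 + b' + 1) = a + b' + 1 := by omega
    simp only [Ct, Cr, Sv, inn_e, out_e, Td, gd, Ts, gs, Prod.mk.injEq, hm]
    clear hm
    rcases h1' with ⟨rfl, rfl⟩ | ⟨rfl, rfl⟩ <;> split_ifs <;> omega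
  · have hm : min (a + b' + 1) (a - 1 + b' + 1) = a + b' := by omega
    simp only [Ct, Cr, Sv, inn_w, out_w, Td, gd, Ts, gs, Prod.mk.injEq, hm]
    clear hm
    rcases h1' with ⟨rfl, rfl⟩ | ⟨rfl, rfl⟩ <;> split_ifs <;> omega
  · have hm : min (a' + b + 1) (a' + (b + 1) + 1) = a' + b + 1 := by omega
    simp only [Ct, Cr, Sv, inn_n, out_n, Td, gd, Ts, gs, Prod.mk.injEq, hm]
    clear hm
    rcases h1' with ⟨rfl, rfl⟩ | ⟨rfl, rfl⟩ <;> split_ifs <;> omega
  · have hm : min (a' + b + 1) (a' + (b - 1) + 1) = a' + b := by omega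
    simp only [Ct, Cr, Sv, inn_s, out_s, Td, gd, Ts, gs, Prod.mk.injEq, hm]
    clear hm
    rcases h1' with ⟨rfl, rfl⟩ | ⟨rfl, rfl⟩ <;> split_ifs <;> omega

open Classical in
lemma count_parity {α : Type*} (A B C D E : α → Prop) (L : List α)
    (h : ∀ s ∈ L, ((if A s then 1 else 0) + (if B s then 1 else 0) + (if C s then 1 else 0)
      + (if D s then 1 else 0) + (if E s then 1 else 0)) % 2 = 0) :
    (L.countP (fun s => decide (A s)) + L.countP (fun s => decide (B s))
      + L.countP (fun s => decide (C s)) + L.countP (fun s => decide (D s))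
      + L.countP (fun s => decide (E s))) % 2 = 0 := by
  induction L with
  | nil => simp
  | cons a t ih =>
    have h1 := h a List.mem_cons_self
    have h2 := ih fun s hs => h s (List.mem_cons_of_mem _ hs)
    simp only [List.countP_cons, decide_eq_true_eq]
    omega

lemma steps_cons_cons (a b : Site) (t : List Site) :
    steps (a :: b :: t) = (a, b) :: steps (b :: t) := rfl

lemma steps_single (a : Site) : steps [a] = [] := rfl

lemma mem_steps {γ : List Site} {s : Site × Site} (hs : s ∈ steps γ) : s.1 ∈ γ ∧ s.2 ∈ γ := by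
  unfold steps at hs
  have := List.of_mem_zip hs
  exact ⟨this.1, List.mem_of_mem_tail this.2⟩

open Classical in
lemma count_fst (P : Site → Prop) : ∀ (γ : List Site), (∀ p ∈ γ.getLast?, ¬ P p) →
    (steps γ).countP (fun s => decide (P s.1)) = γ.countP (fun p => decide (P p))
  | [], _ => rfl
  | [a], h => by
    have : ¬ P a := h a (by simp)
    simp [steps_single, this]
  | a :: b :: t, h => by
    rw [steps_cons_cons, List.countP_cons, List.countP_cons,
      count_fst P (b :: t) (fun p hp => h p (by simpa using hp))]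

open Classical in
lemma count_snd_aux (P : Site → Prop) : ∀ (γ : List Site),
    (steps γ).countP (fun s => decide (P s.2)) = γ.tail.countP (fun p => decide (P p))
  | [] => rfl
  | [a] => by simp [steps_single]
  | a :: b :: t => by
    rw [steps_cons_cons, List.countP_cons, count_snd_aux P (b :: t)]
    simp [List.countP_cons]

open Classical in
lemma count_snd (P : Site → Prop) (γ : List Site) (h : ∀ p ∈ γ.head?, ¬ P p) :
    (steps γ).countP (fun s => decide (P s.2)) = γ.countP (fun p => decide (P p)) := by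
  rw [count_snd_aux]
  cases γ with
  | nil => rfl
  | cons a t =>
    have : ¬ P a := h a (by simp)
    simp [this]

lemma adj_of_mem_steps : ∀ {γ : List Site}, γ.IsChain Adj → ∀ {s : Site × Site}, s ∈ steps γ →
    Adj s.1 s.2
  | [], _, _, hs => by simp [steps] at hs
  | [a], _, _, hs => by simp [steps_single] at hs
  | a :: b :: t, hc, s, hs => by
    rw [steps_cons_cons, List.mem_cons] at hs
    rw [List.isChain_cons_cons] at hc
    rcases hs with rfl | hs
    · exact hc.1
    · exact adj_of_mem_steps hc.2 hs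

/-- Two steps crossing the same edge have the same set of end points. -/
lemma cr_unique {x y : Site} (hxy : Adj x y) {s s' : Site × Site} (hs : Adj s.1 s.2)
    (hs' : Adj s'.1 s'.2) (h : Cr x y s) (h' : Cr x y s') :
    (s'.1 = s.1 ∧ s'.2 = s.2) ∨ (s'.1 = s.2 ∧ s'.2 = s.1) := by
  obtain ⟨⟨a, b⟩, ⟨a', b'⟩⟩ := s
  obtain ⟨⟨e, f⟩, ⟨e', f'⟩⟩ := s'
  obtain ⟨c, d⟩ := x
  obtain ⟨c', d'⟩ := y
  have h1 := adj_cases hxy
  have h2 := adj_cases hs
  have h3 := adj_cases hs'
  simp only at h1 h2 h3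
  clear h1 hxy hs hs'
  rcases h2 with ⟨rfl, rfl⟩ | ⟨rfl, rfl⟩ | ⟨rfl, rfl⟩ | ⟨rfl, rfl⟩ <;>
    rcases h3 with ⟨rfl, rfl⟩ | ⟨rfl, rfl⟩ | ⟨rfl, rfl⟩ | ⟨rfl, rfl⟩ <;>
    simp only [Cr, inn_e, inn_w, inn_n, inn_s, out_e, out_w, out_n, out_s, Prod.mk.injEq] at h h' ⊢ <;>
    omega

open Classical in
lemma count_cr_le {x y : Site} (hxy : Adj x y) : ∀ (γ : List Site), γ.IsChain Adj → γ.Nodup →
    (steps γ).countP (fun s => decide (Cr x y s)) ≤ 1
  | [], _, _ => by simp [steps]
  | [a], _, _ => by simp [steps_single]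
  | a :: b :: t, hc, hn => by
    rw [steps_cons_cons, List.countP_cons]
    have hc' := List.isChain_cons_cons.1 hc
    have hn' := List.nodup_cons.1 hn
    by_cases h : Cr x y (a, b)
    · have h0 : (steps (b :: t)).countP (fun s => decide (Cr x y s)) = 0 := by
        rw [List.countP_eq_zero]
        intro s hs
        simp only [decide_eq_true_eq]
        intro hs'
        have h1 := cr_unique hxy (s := (a, b)) hc'.1 (adj_of_mem_steps hc'.2 hs) h hs'
        have h2 := mem_steps hs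
        rcases h1 with h1 | h1
        · have e : s.1 = a := h1.1
          rw [e] at h2
          exact hn'.1 h2.1
        · have e : s.2 = a := h1.2
          rw [e] at h2
          exact hn'.1 h2.2
      rw [h0]
      split_ifs <;> omega
    · have := count_cr_le hxy (b :: t) hc'.2 hn'.2
      simp only [h, decide_false, Bool.false_eq_true, if_false, add_zero]
      exact this

lemma rightOf_iff (γ : List Site) (x : Site) [DecidablePred (Ct x)] :
    rightOf γ x ↔ (steps γ).countP (fun s => decide (Ct x s)) % 2 = 0 := by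
  unfold rightOf
  rw [Nat.even_iff]
  have : (fun s : Site × Site => decide (Ct x s)) =
      fun s => decide (min (Td s.1) (Td s.2) = Ts x ∧ 2 * gs x < gd s.1 + gd s.2) := by
    funext s
    exact decide_eq_decide.2 Iff.rfl
  rw [this]

end TileParity

open TileParity

/-- Parity lemma P1: across an edge of the lattice the side changes iff `γ` crosses it. -/
theorem rightOf_adj {γ : List Site} (hc : γ.IsChain Adj) (hn : γ.Nodup) {x y : Site}
    (hxy : Adj x y) (hT : Ts y = Ts x + 1) (h0 : ∀ p ∈ γ.head?, Td p ≠ Ts y)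
    (h1 : ∀ p ∈ γ.getLast?, Td p ≠ Ts y) :
    (rightOf γ x ↔ rightOf γ y) ↔
      ¬ ∃ s ∈ steps γ, (inn s.1 s.2 = x ∧ out s.1 s.2 = y) ∨ (inn s.1 s.2 = y ∧ out s.1 s.2 = x) := by
  classical
  have hpar := count_parity (Ct x) (Ct y) (Cr x y) (fun s => Sv y s.1) (fun s => Sv y s.2)
    (steps γ) (fun s hs => pointwise hxy hT (adj_of_mem_steps hc hs))
  rw [count_fst (Sv y) γ (fun p hp h => h1 p hp h.1),
    count_snd (Sv y) γ (fun p hp h => h0 p hp h.1)] at hpar
  have hle := count_cr_le hxy γ hc hn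
  rw [rightOf_iff, rightOf_iff]
  have hex : (∃ s ∈ steps γ, (inn s.1 s.2 = x ∧ out s.1 s.2 = y) ∨
      (inn s.1 s.2 = y ∧ out s.1 s.2 = x)) ↔
      (steps γ).countP (fun s => decide (Cr x y s)) ≠ 0 := by
    rw [ne_eq, List.countP_eq_zero]
    push Not
    simp only [decide_eq_true_eq]
    rfl
  rw [hex]
  omega

namespace TileParity

lemma Td_head {γ : List Site} {p : Site} (h : p ∈ γ.head?) : Td p = Tfst γ := by
  unfold Tfst
  cases γ with
  | nil => simp at h
  | cons a t =>
    simp at h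
    simp [h]

lemma Td_last {γ : List Site} {p : Site} (h : p ∈ γ.getLast?) : Td p = Tlst γ := by
  unfold Tlst
  rw [List.getLastD_eq_getLast?, Option.mem_def.1 h]
  rfl

lemma mem_steps_iff {γ : List Site} {s : Site × Site} :
    s ∈ steps γ ↔ ∃ (k : ℕ) (hk : k + 1 < γ.length), s = (γ[k], γ[k + 1]) := by
  unfold steps
  rw [List.mem_iff_getElem]
  constructor
  · rintro ⟨k, hk, h⟩
    rw [List.length_zip, List.length_tail] at hk
    refine ⟨k, by omega, ?_⟩
    rw [← h, List.getElem_zip, List.getElem_tail]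
  · rintro ⟨k, hk, h⟩
    refine ⟨k, by rw [List.length_zip, List.length_tail]; omega, ?_⟩
    rw [h, List.getElem_zip, List.getElem_tail]

/-- The crossed edge of a step. -/
lemma inn_out {p q : Site} (h : Adj p q) :
    (Adj (inn p q) (out p q) ∧ Ts (out p q) = Ts (inn p q) + 1 ∧
      Ts (out p q) = max (Td p) (Td q)) ∨
    (Adj (out p q) (inn p q) ∧ Ts (inn p q) = Ts (out p q) + 1 ∧
      Ts (inn p q) = max (Td p) (Td q)) := by
  obtain ⟨a, b⟩ := p
  obtain ⟨a', b'⟩ := q
  have h2 := adj_cases h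
  simp only at h2
  simp only [Adj, units, Finset.mem_insert, Finset.mem_singleton, Prod.ext_iff, Prod.fst_sub,
    Prod.snd_sub, inn, out, Ts, Td]
  rcases h2 with ⟨rfl, rfl⟩ | ⟨rfl, rfl⟩ | ⟨rfl, rfl⟩ | ⟨rfl, rfl⟩ <;> omega

lemma adj_iff' (γ : List Site) (hc : γ.IsChain Adj) (hn : γ.Nodup) {x y : Site}
    (hxy : Adj x y) (hT : Ts y = Ts x + 1) (h0 : Ts y ≠ Tfst γ) (h1 : Ts y ≠ Tlst γ) :
    (rightOf γ x ↔ rightOf γ y) ↔ ¬ ∃ s ∈ steps γ, Cr x y s :=
  rightOf_adj hc hn hxy hT (fun p hp => by rw [Td_head hp]; exact h0.symm)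
    (fun p hp => by rw [Td_last hp]; exact h1.symm)

lemma adj_cases' {p q : Site} (h : Adj p q) :
    (p.1 + 1 = q.1 ∧ p.2 = q.2) ∨ (p.1 - 1 = q.1 ∧ p.2 = q.2) ∨
      (p.1 = q.1 ∧ p.2 + 1 = q.2) ∨ (p.1 = q.1 ∧ p.2 - 1 = q.2) := by
  have := adj_cases h
  omega

lemma iff_not_of {P Q : Prop} (h : ¬ (P ↔ Q)) : P ↔ ¬ Q :=
  ⟨fun a b => h ⟨fun _ => b, fun _ => a⟩, fun a => by
    by_contra hcon
    exact h ⟨fun x => absurd x hcon, fun x => absurd x a⟩⟩

lemma cross {γ : List Site} (hc : γ.IsChain Adj) (hn : γ.Nodup) {s : Site × Site}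
    (hs : s ∈ steps γ) (h0 : max (Td s.1) (Td s.2) ≠ Tfst γ)
    (h1 : max (Td s.1) (Td s.2) ≠ Tlst γ) :
    (rightOf γ (inn s.1 s.2) ↔ ¬ rightOf γ (out s.1 s.2)) := by
  rcases inn_out (adj_of_mem_steps hc hs) with ⟨h2, h3, h4⟩ | ⟨h2, h3, h4⟩
  · have h5 := adj_iff' γ hc hn h2 h3 (by rw [h4]; exact h0) (by rw [h4]; exact h1)
    have h6 : ∃ s' ∈ steps γ, Cr (inn s.1 s.2) (out s.1 s.2) s' := ⟨s, hs, Or.inl ⟨rfl, rfl⟩⟩
    exact iff_not_of (fun h => h5.1 h h6)
  · have h5 := adj_iff' γ hc hn h2 h3 (by rw [h4]; exact h0) (by rw [h4]; exact h1)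
    have h6 : ∃ s' ∈ steps γ, Cr (out s.1 s.2) (inn s.1 s.2) s' := ⟨s, hs, Or.inr ⟨rfl, rfl⟩⟩
    exact iff_not_of (fun h => h5.1 h.symm h6)

lemma steps_of_fst {γ : List Site} (hn : γ.Nodup) {k : ℕ} (hk : k < γ.length) {s : Site × Site}
    (hs : s ∈ steps γ) (h : s.1 = γ[k]) : ∃ hk' : k + 1 < γ.length, s.2 = γ[k + 1] := by
  obtain ⟨j, hj, rfl⟩ := mem_steps_iff.1 hs
  have hjk : j = k := (hn.getElem_inj_iff).1 h
  subst hjk
  exact ⟨hj, rfl⟩

lemma steps_of_snd {γ : List Site} (hn : γ.Nodup) {k : ℕ} (hk : k + 1 < γ.length)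
    {s : Site × Site} (hs : s ∈ steps γ) (h : s.2 = γ[k + 1]) : s.1 = γ[k] := by
  obtain ⟨j, hj, rfl⟩ := mem_steps_iff.1 hs
  have hjk : j + 1 = k + 1 := (hn.getElem_inj_iff).1 h
  have : j = k := by omega
  subst this
  rfl

/-- No step crosses the edge dual to `{q, q'}` if `q'` is not a neighbour of `q` in the path. -/
lemma no_cross {γ : List Site} (hc : γ.IsChain Adj) (hn : γ.Nodup) {k : ℕ}
    (hk : k + 2 < γ.length) {q' : Site} (hq : Adj γ[k + 1] q') (h1 : γ[k] ≠ q')
    (h2 : γ[k + 2] ≠ q') {x y : Site} (hxy : Adj x y) (hcr : Cr x y (γ[k + 1], q')) :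
    ¬ ∃ s ∈ steps γ, Cr x y s := by
  rintro ⟨s, hs, h3⟩
  rcases cr_unique hxy (s := (γ[k + 1], q')) hq (adj_of_mem_steps hc hs) hcr h3 with h4 | h4
  · obtain ⟨_, h5⟩ := steps_of_fst hn (k := k + 1) (by omega) hs h4.1
    exact h2 (h5.symm.trans h4.2)
  · have h5 := steps_of_snd hn (k := k) (by omega) hs h4.2
    exact h1 (h5.symm.trans h4.1)

lemma i1 (a b : ℤ) : inn (a - 1, b) (a, b) = (a, b) := by
  ext <;> simp only [inn] <;> omega
lemma i2 (a b : ℤ) : inn (a + 1, b) (a, b) = (a + 1, b + 1) := by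
  ext <;> simp only [inn] <;> omega
lemma i3 (a b : ℤ) : inn (a, b - 1) (a, b) = (a + 1, b) := by
  ext <;> simp only [inn] <;> omega
lemma i4 (a b : ℤ) : inn (a, b + 1) (a, b) = (a, b + 1) := by
  ext <;> simp only [inn] <;> omega
lemma i5 (a b : ℤ) : inn (a, b) (a + 1, b) = (a + 1, b) := by
  ext <;> simp only [inn] <;> omega
lemma i6 (a b : ℤ) : inn (a, b) (a - 1, b) = (a, b + 1) := by
  ext <;> simp only [inn] <;> omega
lemma i7 (a b : ℤ) : inn (a, b) (a, b + 1) = (a + 1, b + 1) := by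
  ext <;> simp only [inn] <;> omega
lemma i8 (a b : ℤ) : inn (a, b) (a, b - 1) = (a, b) := by
  ext <;> simp only [inn] <;> omega
lemma o1 (a b : ℤ) : out (a - 1, b) (a, b) = (a, b + 1) := by
  ext <;> simp only [out] <;> omega
lemma o2 (a b : ℤ) : out (a + 1, b) (a, b) = (a + 1, b) := by
  ext <;> simp only [out] <;> omega
lemma o3 (a b : ℤ) : out (a, b - 1) (a, b) = (a, b) := by
  ext <;> simp only [out] <;> omega
lemma o4 (a b : ℤ) : out (a, b + 1) (a, b) = (a + 1, b + 1) := by
  ext <;> simp only [out] <;> omega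
lemma o5 (a b : ℤ) : out (a, b) (a + 1, b) = (a + 1, b + 1) := by
  ext <;> simp only [out] <;> omega
lemma o6 (a b : ℤ) : out (a, b) (a - 1, b) = (a, b) := by
  ext <;> simp only [out] <;> omega
lemma o7 (a b : ℤ) : out (a, b) (a, b + 1) = (a, b + 1) := by
  ext <;> simp only [out] <;> omega
lemma o8 (a b : ℤ) : out (a, b) (a, b - 1) = (a + 1, b) := by
  ext <;> simp only [out] <;> omega

lemma transition {γ : List Site} (hc : γ.IsChain Adj) (hn : γ.Nodup) {k : ℕ}
    (hk : k + 2 < γ.length) (h0 : Tfst γ < Td γ[k + 1]) (hp : Td γ[k] < Tlst γ)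
    (hq : Td γ[k + 1] < Tlst γ) (hr : Td γ[k + 2] < Tlst γ)
    (h : rightOf γ (inn γ[k] γ[k + 1])) : rightOf γ (inn γ[k + 1] γ[k + 2]) := by
  have hs1 : (γ[k], γ[k + 1]) ∈ steps γ := mem_steps_iff.2 ⟨k, by omega, rfl⟩
  have hs2 : (γ[k + 1], γ[k + 2]) ∈ steps γ := mem_steps_iff.2 ⟨k + 1, by omega, rfl⟩
  have ha1 := adj_of_mem_steps hc hs1
  have ha2 := adj_of_mem_steps hc hs2
  have c1 := cross hc hn hs1 (by simp only; omega) (by simp only; omega)
  have c2 := cross hc hn hs2 (by simp only; omega) (by simp only; omega)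
  have hne : γ[k] ≠ γ[k + 2] := by
    intro h5
    have := (hn.getElem_inj_iff).1 h5
    omega
  have hnc := fun (q' : Site) (hq : Adj γ[k + 1] q') (h1 : γ[k] ≠ q') (h2 : γ[k + 2] ≠ q')
    (x y : Site) (hxy : Adj x y) (hcr : Cr x y (γ[k + 1], q')) =>
      no_cross hc hn hk hq h1 h2 hxy hcr
  have hP := fun (x y : Site) (hxy : Adj x y) => adj_iff' γ hc hn (x := x) (y := y) hxy
  simp only at ha1 ha2 c1 c2
  generalize γ[k] = p at *
  generalize γ[k + 1] = q at *
  generalize γ[k + 2] = r at *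
  obtain ⟨a, b⟩ := q
  obtain ⟨a1, b1⟩ := p
  obtain ⟨a2, b2⟩ := r
  have h2 := adj_cases' ha1.symm
  have h3 := adj_cases' ha2
  simp only at h2 h3
  have hadjx : ∀ u v : ℤ, Adj (u, v) (u + 1, v) := by
    intro u v; simp [Adj, units]
  have hadjy : ∀ u v : ℤ, Adj (u, v) (u, v + 1) := by
    intro u v; simp [Adj, units]
  have hadjx' : ∀ u v : ℤ, Adj (u, v) (u - 1, v) := by
    intro u v; simp [Adj, units]
  have hadjy' : ∀ u v : ℤ, Adj (u, v) (u, v - 1) := by
    intro u v; simp [Adj, units]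
  simp only [Td] at h0 hp hq hr
  rcases h2 with ⟨rfl, rfl⟩ | ⟨rfl, rfl⟩ | ⟨rfl, rfl⟩ | ⟨rfl, rfl⟩ <;>
    rcases h3 with ⟨rfl, rfl⟩ | ⟨rfl, rfl⟩ | ⟨rfl, rfl⟩ | ⟨rfl, rfl⟩
  -- west in
  · exact absurd rfl hne
  · rw [i2] at h
    rw [i6]
    refine ((hP (a, b + 1) (a + 1, b + 1) (hadjx a (b + 1)) (by simp only [Ts]; omega)
      (by simp only [Ts]; omega) (by simp only [Ts]; omega)).2 ?_).2 h
    exact hnc (a, b + 1) (hadjy a b) (by simp) (by simp) _ _ (hadjx a (b + 1))
      (Or.inr ⟨i7 a b, o7 a b⟩)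
  · rw [i2] at h
    rw [i7]
    exact h
  · rw [o2] at c1
    rw [o8] at c2
    exact c2.2 (c1.1 h)
  -- east in
  · rw [i1] at h
    rw [i5]
    refine ((hP (a, b) (a + 1, b) (hadjx a b) (by simp only [Ts]; omega)
      (by simp only [Ts]; omega) (by simp only [Ts]; omega)).2 ?_).1 h
    exact hnc (a, b - 1) (hadjy' a b) (by simp) (by simp) _ _ (hadjx a b)
      (Or.inl ⟨i8 a b, o8 a b⟩)
  · exact absurd rfl hne
  · rw [o1] at c1
    rw [o7] at c2
    exact c2.2 (c1.1 h)
  · rw [i1] at h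
    rw [i8]
    exact h
  -- south in
  · rw [o4] at c1
    rw [o5] at c2
    exact c2.2 (c1.1 h)
  · rw [i4] at h
    rw [i6]
    exact h
  · exact absurd rfl hne
  · rw [i4] at h
    rw [i8]
    refine ((hP (a, b) (a, b + 1) (hadjy a b) (by simp only [Ts]; omega)
      (by simp only [Ts]; omega) (by simp only [Ts]; omega)).2 ?_).2 h
    exact hnc (a - 1, b) (hadjx' a b) (by simp) (by simp) _ _ (hadjy a b)
      (Or.inr ⟨i6 a b, o6 a b⟩)
  -- north in
  · rw [i3] at h
    rw [i5]
    exact h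
  · rw [o3] at c1
    rw [o6] at c2
    exact c2.2 (c1.1 h)
  · rw [i3] at h
    rw [i7]
    refine ((hP (a + 1, b) (a + 1, b + 1) (hadjy (a + 1) b) (by simp only [Ts]; omega)
      (by simp only [Ts]; omega) (by simp only [Ts]; omega)).2 ?_).1 h
    exact hnc (a + 1, b) (hadjx a b) (by simp) (by simp) _ _ (hadjy (a + 1) b)
      (Or.inl ⟨i5 a b, o5 a b⟩)
  · exact absurd rfl hne

open Classical in
lemma base {γ : List Site} (hc : γ.IsChain Adj) (hn : γ.Nodup)
    (hlo' : ∀ p ∈ γ.tail, Tfst γ < Td p) (hhi' : ∀ p ∈ γ.dropLast, Td p < Tlst γ)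
    (hk : 0 + 2 < γ.length) : rightOf γ (inn γ[0] γ[0 + 1]) := by
  have hs : (γ[0], γ[0 + 1]) ∈ steps γ := mem_steps_iff.2 ⟨0, by omega, rfl⟩
  have hb : Td γ[0 + 1] < Tlst γ := by
    apply hhi'
    have e : γ[0 + 1] = γ.dropLast[0 + 1]'(by rw [List.length_dropLast]; omega) := by
      rw [List.getElem_dropLast]
    rw [e]
    exact List.getElem_mem _
  have ha := adj_of_mem_steps hc hs
  have hcr := cross hc hn hs
  rcases γ with _ | ⟨a, _ | ⟨b, t⟩⟩
  · simp at hk
  · simp at hk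
  · simp only [List.getElem_cons_zero, List.getElem_cons_succ, zero_add] at hb ha hcr ⊢
    have hb0 : Tfst (a :: b :: t) < Td b := hlo' b (by simp)
    have hTf : Tfst (a :: b :: t) = Td a := rfl
    have hrest : ∀ x : Site, Ts x = Tfst (a :: b :: t) →
        (steps (b :: t)).countP (fun s => decide (Ct x s)) = 0 := by
      intro x hx
      rw [List.countP_eq_zero]
      intro s hs
      simp only [decide_eq_true_eq]
      intro hs'
      have h2 := mem_steps hs
      have h3 := hlo' s.1 (by simpa using h2.1)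
      have h4 := hlo' s.2 (by simpa using h2.2)
      have h5 := hs'.1
      rw [hx] at h5
      omega
    obtain ⟨a1, a2⟩ := a
    obtain ⟨b1, b2⟩ := b
    have h2 := adj_cases' ha
    simp only at h2
    simp only [Td] at hTf hb0
    rcases h2 with ⟨rfl, rfl⟩ | ⟨rfl, rfl⟩ | ⟨rfl, rfl⟩ | ⟨rfl, rfl⟩
    · rw [i5, rightOf_iff, steps_cons_cons, List.countP_cons,
        hrest _ (by simp only [Ts]; omega)]
      have : ¬ Ct (a1 + 1, a2) ((a1, a2), (a1 + 1, a2)) := by
        simp only [Ct, Td, Ts, gs, gd]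
        omega
      simp [this]
    · omega
    · have h3 : ¬ rightOf ((a1, a2) :: (a1, a2 + 1) :: t) (out (a1, a2) (a1, a2 + 1)) := by
        rw [o7, rightOf_iff, steps_cons_cons, List.countP_cons,
          hrest _ (by simp only [Ts]; omega)]
        have : Ct (a1, a2 + 1) ((a1, a2), (a1, a2 + 1)) := by
          simp only [Ct, Td, Ts, gs, gd]
          omega
        simp [this]
      simp only [Td] at hb
      refine (hcr ?_ ?_).2 h3
      · simp only [Td]; omega
      · simp only [Td]; omega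
    · omega

lemma all_right {γ : List Site} (hc : γ.IsChain Adj) (hn : γ.Nodup)
    (hlo' : ∀ p ∈ γ.tail, Tfst γ < Td p) (hhi' : ∀ p ∈ γ.dropLast, Td p < Tlst γ) :
    ∀ (k : ℕ) (hk : k + 2 < γ.length), rightOf γ (inn γ[k] γ[k + 1]) := by
  have hdrop : ∀ (j : ℕ) (hj : j + 1 < γ.length), Td γ[j] < Tlst γ := by
    intro j hj
    apply hhi'
    have e : γ[j] = γ.dropLast[j]'(by rw [List.length_dropLast]; omega) := by
      rw [List.getElem_dropLast]
    rw [e]
    exact List.getElem_mem _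
  have htail : ∀ (j : ℕ) (hj : j + 1 < γ.length), Tfst γ < Td γ[j + 1] := by
    intro j hj
    apply hlo'
    have e : γ[j + 1] = γ.tail[j]'(by rw [List.length_tail]; omega) := by
      rw [List.getElem_tail]
    rw [e]
    exact List.getElem_mem _
  intro k
  induction k with
  | zero => exact fun hk => base hc hn hlo' hhi' hk
  | succ k ih =>
    intro hk
    exact transition hc hn (by omega) (htail k (by omega)) (hdrop k (by omega))
      (hdrop (k + 1) (by omega)) (hdrop (k + 2) (by omega)) (ih (by omega))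

end TileParity

/-- Parity lemma P2: inner sites are on the right, outer sites on the left, provided the path goes
from the lower to the upper side of the strip. -/
theorem rightOf_inn {γ : List Site} (hc : γ.IsChain Adj) (hn : γ.Nodup)
    (hlo : ∀ p ∈ γ, Tfst γ ≤ Td p) (hhi : ∀ p ∈ γ, Td p ≤ Tlst γ)
    (hlo' : ∀ p ∈ γ.tail, Tfst γ < Td p) (hhi' : ∀ p ∈ γ.dropLast, Td p < Tlst γ)
    {s : Site × Site} (hs : s ∈ steps γ) (h0 : Tfst γ < min (Td s.1) (Td s.2))
    (h1 : max (Td s.1) (Td s.2) < Tlst γ) :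
    rightOf γ (inn s.1 s.2) ∧ ¬ rightOf γ (out s.1 s.2) := by
  have hcr := TileParity.cross hc hn hs (by omega) (by omega)
  obtain ⟨k, hk, rfl⟩ := TileParity.mem_steps_iff.1 hs
  have hk2 : k + 2 < γ.length := by
    by_contra hcon
    have e : γ[k + 1] ∈ γ.getLast? := by
      rw [List.getLast?_eq_getElem?, Option.mem_def, List.getElem?_eq_some_iff]
      refine ⟨by omega, ?_⟩
      congr 1
      omega
    have := TileParity.Td_last e
    simp only at h1
    omega
  have h2 := TileParity.all_right hc hn hlo' hhi' k hk2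
  exact ⟨h2, hcr.1 h2⟩

end Pool.Agent.WSB71
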