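import Pool.Agent.TR90.Main

/-!
# Tiles

`rightOf_adj`, `rightOf_inn` (TileParity.lean), `tile_unique` (TileUnique.lean), `tile_cont`,
`tile_data_finite` (TileCont.lean), `tile_realizable` (`Pool/Agent/TR90`).
-/

open MeasureTheory Filter Topology
open scoped NNReal ENNReal

namespace Pool.Agent.WSB71

open Pool.Agent.LT

/-- **L1.** -/
theorem tile_realizable {β ε : ℝ} (hβ : 1 ≤ β) (hε : 0 < ε) : ∃ s₀ : ℤ, 1 ≤ s₀ ∧ ∃ ε₅ : ℝ, 0 < ε₅ ∧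
    ∃ Λ₀ : ℕ, 1 ≤ Λ₀ ∧ ∀ Λ : ℕ, Λ₀ ≤ Λ → ∃ j₀ : ℕ, ∃ c₉ : ℝ, 0 < c₉ ∧ ∀ j : ℕ, j₀ ≤ j →
      ∀ M : ℕ, (M : ℝ) ≤ ε₅ * (Λ * 2 ^ j : ℕ) →
      ∀ (v : Site) (D : List (Option Site × Option Site)),
        (D.length : ℝ) ≤ c₉ * (Λ * 2 ^ j : ℕ) / j →
        ZT β 0 (2 ^ j) s₀ (Λ * 2 ^ j) M v D ≠ 0 →
          Realizable β v (-Real.log (ZT β 0 (2 ^ j) s₀ (Λ * 2 ^ j) M v D).toReal
            + ε * (Λ * 2 ^ j : ℕ)) :=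
  Pool.Agent.TR90.tile_realizable hβ hε

end Pool.Agent.WSB71
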