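import Pool.Agent.LT.PlaneDef

/-!
# V2: the Prékopa-Leindler inequality in the plane (midpoint form)

Dimension one: truncate, so that `f`, `g` are bounded; normalise `sup f = sup g = 1`; for `0 < t < 1`
the level sets satisfy `({f > t} + {g > t})/2 ⊆ {h > t}` and are nonempty, `|A + B| ≥ |A| + |B|` for nonempty compact
sets of reals (`A + min B` and `max A + B` overlap in one point), inner regularity, layer cake, and
`(a + b)/2 ≥ √(a b)`.  Dimension two: Fubini (`∫ h(v, ·) ≥ √(∫ f(x,·) ∫ g(y,·))` for `v = (x+y)/2` by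
dimension one, then dimension one again), and `EuclideanSpace.volume_preserving_..`. -/

open MeasureTheory Filter Topology
open scoped NNReal ENNReal Pointwise

namespace Pool.Agent.WSB71

open Pool.Agent.LT

/-- Brunn-Minkowski for compact sets of reals -/
lemma bm_compact {K L : Set ℝ} (hK : IsCompact K) (hL : IsCompact L) (hK0 : K.Nonempty)
    (hL0 : L.Nonempty) : volume K + volume L ≤ volume (K + L) := by
  obtain ⟨a, haK, ha⟩ := hK.exists_isGreatest hK0
  obtain ⟨b, hbL, hb⟩ := hL.exists_isLeast hL0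
  have h1 : volume ((fun x => x + b) '' K) = volume K := by
    rw [Set.image_add_right, measure_preimage_add_right]
  have h2 : volume ((fun x => a + x) '' L) = volume L := by
    rw [Set.image_add_left, measure_preimage_add]
  have m2 : MeasurableSet ((fun x => a + x) '' L) :=
    (hL.image (continuous_const.add continuous_id)).measurableSet
  have hdis : AEDisjoint volume ((fun x => x + b) '' K) ((fun x => a + x) '' L) := by
    refine measure_mono_null (t := {a + b}) ?_ (measure_singleton _)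
    rintro x ⟨⟨k, hk, rfl⟩, ⟨l, hl, hxl⟩⟩
    have h3 := ha hk
    have h4 := hb hl
    simp only at hxl ⊢
    rw [Set.mem_singleton_iff]
    linarith
  rw [← h1, ← h2, ← measure_union₀ m2.nullMeasurableSet hdis]
  refine measure_mono (Set.union_subset ?_ ?_)
  · rintro _ ⟨k, hk, rfl⟩
    exact Set.add_mem_add hk hbL
  · rintro _ ⟨l, hl, rfl⟩
    exact Set.add_mem_add haK hl

/-- Brunn-Minkowski, midpoint form -/
lemma bm_mid {A B C : Set ℝ} (hA : MeasurableSet A) (hB : MeasurableSet B) (hA0 : A.Nonempty)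
    (hB0 : B.Nonempty) (h : ∀ a ∈ A, ∀ b ∈ B, (a + b) / 2 ∈ C) :
    volume A + volume B ≤ 2 * volume C := by
  have key : ∀ K L : Set ℝ, K ⊆ A → L ⊆ B → IsCompact K → IsCompact L → K.Nonempty →
      L.Nonempty → volume K + volume L ≤ 2 * volume C := by
    intro K L hKA hLB hK hL hK0 hL0
    refine (bm_compact hK hL hK0 hL0).trans ?_
    have h1 : ((1 / 2 : ℝ) • (K + L)) ⊆ C := by
      rintro _ ⟨_, ⟨k, hk, l, hl, rfl⟩, rfl⟩
      have := h k (hKA hk) l (hLB hl)
      have e : (1 / 2 : ℝ) • (k + l) = (k + l) / 2 := by rw [smul_eq_mul]; ring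
      simp only [e]
      exact this
    have h2 := measure_mono (μ := volume) h1
    rw [Measure.addHaar_smul, Module.finrank_self, pow_one, abs_of_pos (by norm_num)] at h2
    calc volume (K + L) = 2 * (ENNReal.ofReal (1 / 2) * volume (K + L)) := by
          rw [← mul_assoc]
          have : (2 : ℝ≥0∞) * ENNReal.ofReal (1 / 2) = 1 := by
            rw [← ENNReal.ofReal_ofNat, ← ENNReal.ofReal_mul (by norm_num)]
            norm_num
          rw [this, one_mul]
      _ ≤ 2 * volume C := by gcongr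
  obtain ⟨a, ha⟩ := hA0
  obtain ⟨b, hb⟩ := hB0
  have hne : ∀ {K : Set ℝ} {c : ℝ≥0∞}, c < volume K → K.Nonempty := by
    intro K c hc
    rw [Set.nonempty_iff_ne_empty]
    rintro rfl
    simp at hc
  by_cases h0 : volume A = 0
  · rw [h0, zero_add]
    refine le_of_forall_lt fun c hc => ?_
    obtain ⟨L, hLB, hL, hcL⟩ := hB.exists_lt_isCompact hc
    have := key {a} L (Set.singleton_subset_iff.2 ha) hLB isCompact_singleton hL
      (Set.singleton_nonempty a) (hne hcL)
    rw [measure_singleton, zero_add] at this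
    exact hcL.trans_le this
  by_cases h0' : volume B = 0
  · rw [h0', add_zero]
    refine le_of_forall_lt fun c hc => ?_
    obtain ⟨L, hLB, hL, hcL⟩ := hA.exists_lt_isCompact hc
    have := key L {b} hLB (Set.singleton_subset_iff.2 hb) hL isCompact_singleton (hne hcL)
      (Set.singleton_nonempty b)
    rw [measure_singleton, add_zero] at this
    exact hcL.trans_le this
  refine le_of_forall_lt fun c hc => ?_
  obtain ⟨y, hy, z, hz, hyz⟩ := ENNReal.exists_lt_add_of_lt_add hc h0 h0'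
  obtain ⟨K, hKA, hK, hyK⟩ := hA.exists_lt_isCompact hy
  obtain ⟨L, hLB, hL, hzL⟩ := hB.exists_lt_isCompact hz
  exact hyz.trans_le ((add_le_add hyK.le hzL.le).trans
    (key K L hKA hLB hK hL (hne hyK) (hne hzL)))

/-- normalised form -/
lemma pl_norm {f g h : ℝ → ℝ≥0∞} (hf : Measurable f) (hg : Measurable g) (hh : Measurable h)
    (hf1 : ∀ x, f x ≤ 1) (hg1 : ∀ x, g x ≤ 1)
    (sf : ∀ t : ℝ, t < 1 → ∃ x, ENNReal.ofReal t < f x)
    (sg : ∀ t : ℝ, t < 1 → ∃ x, ENNReal.ofReal t < g x)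
    (H : ∀ x y, f x * g y ≤ h ((x + y) / 2) ^ 2) :
    (∫⁻ x, f x) + (∫⁻ x, g x) ≤ 2 * ∫⁻ x, h x := by
  -- layer cake
  have cake : ∀ p : ℝ → ℝ≥0∞, Measurable p → (∀ x, p x ≤ 1) →
      ∫⁻ x, p x = ∫⁻ t in Set.Ioi (0 : ℝ), volume {a : ℝ | t < (p a).toReal} := by
    intro p hp hp1
    rw [← lintegral_eq_lintegral_meas_lt volume (f := fun x => (p x).toReal)
      (Eventually.of_forall fun x => ENNReal.toReal_nonneg) hp.ennreal_toReal.aemeasurable]
    refine lintegral_congr fun x => ?_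
    rw [ENNReal.ofReal_toReal (ne_top_of_le_ne_top ENNReal.one_ne_top (hp1 x))]
  have lt_iff : ∀ (p : ℝ → ℝ≥0∞), (∀ x, p x ≤ 1) → ∀ t : ℝ, 0 < t → ∀ x,
      (t < (p x).toReal ↔ ENNReal.ofReal t < p x) := by
    intro p hp1 t ht x
    rw [ENNReal.ofReal_lt_iff_lt_toReal ht.le (ne_top_of_le_ne_top ENNReal.one_ne_top (hp1 x))]
  let k : ℝ → ℝ≥0∞ := fun x => min (h x) 1
  have hk : Measurable k := hh.min measurable_const
  have hk1 : ∀ x, k x ≤ 1 := fun x => min_le_right _ _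
  have hkh : ∫⁻ x, k x ≤ ∫⁻ x, h x := lintegral_mono fun x => min_le_left _ _
  refine le_trans ?_ (mul_le_mul_right hkh 2)
  rw [cake f hf hf1, cake g hg hg1, cake k hk hk1]
  have hanti : Measurable fun t : ℝ => volume {a : ℝ | t < (f a).toReal} := by
    refine Antitone.measurable fun s t hst => measure_mono fun x hx => ?_
    exact lt_of_le_of_lt hst hx
  rw [← lintegral_add_left hanti, ← lintegral_const_mul' _ _ (by norm_num)]
  refine setLIntegral_mono' measurableSet_Ioi fun t ht => ?_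
  have ht0 : 0 < t := ht
  by_cases ht1 : t < 1
  · obtain ⟨x0, hx0⟩ := sf t ht1
    obtain ⟨y0, hy0⟩ := sg t ht1
    refine bm_mid (measurableSet_lt measurable_const hf.ennreal_toReal)
      (measurableSet_lt measurable_const hg.ennreal_toReal)
      ⟨x0, (lt_iff f hf1 t ht0 x0).2 hx0⟩ ⟨y0, (lt_iff g hg1 t ht0 y0).2 hy0⟩ ?_
    intro x hx y hy
    have hx' := (lt_iff f hf1 t ht0 x).1 hx
    have hy' := (lt_iff g hg1 t ht0 y).1 hy
    refine (lt_iff k hk1 t ht0 _).2 ?_
    refine lt_min ?_ ?_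
    · by_contra hcon
      push Not at hcon
      have h1 : h ((x + y) / 2) ^ 2 ≤ ENNReal.ofReal t ^ 2 := by gcongr
      have h2 : ENNReal.ofReal t * ENNReal.ofReal t < f x * g y := ENNReal.mul_lt_mul hx' hy'
      have h3 := H x y
      rw [← pow_two] at h2
      exact absurd (h3.trans h1) (not_le.2 h2)
    · exact ENNReal.ofReal_lt_one.2 ht1
  · have e1 : {a : ℝ | t < (f a).toReal} = ∅ := by
      rw [Set.eq_empty_iff_forall_notMem]
      intro x hx
      have h1 := (lt_iff f hf1 t ht0 x).1 hx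
      have h2 : (1 : ℝ≥0∞) ≤ ENNReal.ofReal t := ENNReal.one_le_ofReal.2 (not_lt.1 ht1)
      exact absurd (h2.trans_lt h1) (not_lt.2 (hf1 x))
    have e2 : {a : ℝ | t < (g a).toReal} = ∅ := by
      rw [Set.eq_empty_iff_forall_notMem]
      intro x hx
      have h1 := (lt_iff g hg1 t ht0 x).1 hx
      have h2 : (1 : ℝ≥0∞) ≤ ENNReal.ofReal t := ENNReal.one_le_ofReal.2 (not_lt.1 ht1)
      exact absurd (h2.trans_lt h1) (not_lt.2 (hg1 x))
    rw [e1, e2, measure_empty, add_zero]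
    exact zero_le

lemma four_mul_le {a b r : ℝ≥0∞} (h : a + b ≤ 2 * r) : a * b ≤ r ^ 2 := by
  have h1 : 4 * (a * b) ≤ (a + b) ^ 2 := by
    wlog hab : a ≤ b generalizing a b
    · have := this (a := b) (b := a) (by rwa [add_comm]) (le_of_not_ge hab)
      rwa [mul_comm b a, add_comm b a] at this
    obtain ⟨c, rfl⟩ := exists_add_of_le hab
    calc 4 * (a * (a + c)) ≤ 4 * (a * (a + c)) + c ^ 2 := le_self_add
      _ = (a + (a + c)) ^ 2 := by ring
  have h2 : (a + b) ^ 2 ≤ 4 * r ^ 2 := by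
    calc (a + b) ^ 2 ≤ (2 * r) ^ 2 := by gcongr
      _ = 4 * r ^ 2 := by ring
  exact (ENNReal.mul_le_mul_iff_right (by norm_num) (by norm_num)).1 (h1.trans h2)

/-- bounded form -/
lemma pl_bdd {f g h : ℝ → ℝ≥0∞} (hf : Measurable f) (hg : Measurable g) (hh : Measurable h)
    (Mf Mg : ℕ) (hMf : ∀ x, f x ≤ Mf) (hMg : ∀ x, g x ≤ Mg)
    (H : ∀ x y, f x * g y ≤ h ((x + y) / 2) ^ 2) :
    (∫⁻ x, f x) * (∫⁻ x, g x) ≤ (∫⁻ x, h x) ^ 2 := by
  set a := ⨆ x, f x with ha
  set b := ⨆ x, g x with hb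
  have haT : a ≠ ⊤ := ne_top_of_le_ne_top (ENNReal.natCast_ne_top Mf) (iSup_le hMf)
  have hbT : b ≠ ⊤ := ne_top_of_le_ne_top (ENNReal.natCast_ne_top Mg) (iSup_le hMg)
  by_cases ha0 : a = 0
  · have : ∀ x, f x = 0 := fun x => le_antisymm ((le_iSup f x).trans ha0.le) zero_le
    simp [this]
  by_cases hb0 : b = 0
  · have : ∀ x, g x = 0 := fun x => le_antisymm ((le_iSup g x).trans hb0.le) zero_le
    simp [this]
  set c := (a * b) ^ (1 / 2 : ℝ) with hc
  have hab0 : a * b ≠ 0 := mul_ne_zero ha0 hb0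
  have habT : a * b ≠ ⊤ := ENNReal.mul_ne_top haT hbT
  have hc2 : c ^ 2 = a * b := by
    rw [hc, ← ENNReal.rpow_natCast, ← ENNReal.rpow_mul]
    norm_num
  have hc0 : c ≠ 0 := by
    intro h0
    rw [h0] at hc2
    exact hab0 (by rw [← hc2]; norm_num)
  have hcT : c ≠ ⊤ := by
    intro h0
    rw [h0] at hc2
    exact habT (by rw [← hc2]; norm_num)
  have hsup : ∀ (p : ℝ → ℝ≥0∞) (s : ℝ≥0∞), s = ⨆ x, p x → s ≠ 0 → s ≠ ⊤ →
      (∀ x, s⁻¹ * p x ≤ 1) ∧ ∀ t : ℝ, t < 1 → ∃ x, ENNReal.ofReal t < s⁻¹ * p x := by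
    intro p s hs hs0 hsT
    constructor
    · intro x
      calc s⁻¹ * p x ≤ s⁻¹ * s := by gcongr; rw [hs]; exact le_iSup p x
        _ = 1 := ENNReal.inv_mul_cancel hs0 hsT
    · intro t ht
      have h1 : ENNReal.ofReal t * s < s := by
        have h2 : ENNReal.ofReal t < 1 := ENNReal.ofReal_lt_one.2 ht
        calc ENNReal.ofReal t * s < 1 * s := (ENNReal.mul_lt_mul_iff_left hs0 hsT).2 h2
          _ = s := one_mul s
      conv_rhs at h1 => rw [hs]
      obtain ⟨x, hx⟩ := lt_iSup_iff.1 h1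
      refine ⟨x, ?_⟩
      calc ENNReal.ofReal t = s⁻¹ * (ENNReal.ofReal t * s) := by
            rw [mul_comm, mul_assoc, ENNReal.mul_inv_cancel hs0 hsT, mul_one]
        _ < s⁻¹ * p x := (ENNReal.mul_lt_mul_iff_right (ENNReal.inv_ne_zero.2 hsT)
            (ENNReal.inv_ne_top.2 hs0)).2 hx
  obtain ⟨f1, f2⟩ := hsup f a ha ha0 haT
  obtain ⟨g1, g2⟩ := hsup g b hb hb0 hbT
  have hn := pl_norm (f := fun x => a⁻¹ * f x) (g := fun x => b⁻¹ * g x) (h := fun x => c⁻¹ * h x)
    (hf.const_mul _) (hg.const_mul _) (hh.const_mul _) f1 g1 f2 g2 (by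
      intro x y
      have e1 : c⁻¹ ^ 2 = a⁻¹ * b⁻¹ := by
        rw [← ENNReal.inv_pow, hc2, ENNReal.mul_inv (Or.inl ha0) (Or.inl haT)]
      calc a⁻¹ * f x * (b⁻¹ * g y) = a⁻¹ * b⁻¹ * (f x * g y) := by ring
        _ ≤ a⁻¹ * b⁻¹ * h ((x + y) / 2) ^ 2 := by gcongr; exact H x y
        _ = (c⁻¹ * h ((x + y) / 2)) ^ 2 := by rw [mul_pow, e1])
  rw [lintegral_const_mul _ hf, lintegral_const_mul _ hg, lintegral_const_mul _ hh] at hn
  have h4 := four_mul_le hn
  calc (∫⁻ x, f x) * (∫⁻ x, g x) = (a * b) * (a⁻¹ * (∫⁻ x, f x) * (b⁻¹ * ∫⁻ x, g x)) := by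
        have e1 : a * a⁻¹ = 1 := ENNReal.mul_inv_cancel ha0 haT
        have e2 : b * b⁻¹ = 1 := ENNReal.mul_inv_cancel hb0 hbT
        calc (∫⁻ x, f x) * (∫⁻ x, g x) = (a * a⁻¹) * (b * b⁻¹) *
              ((∫⁻ x, f x) * (∫⁻ x, g x)) := by rw [e1, e2, one_mul, one_mul]
          _ = _ := by ring
    _ ≤ c ^ 2 * (c⁻¹ * ∫⁻ x, h x) ^ 2 := by
        rw [hc2]
        gcongr
    _ = (c * c⁻¹) ^ 2 * (∫⁻ x, h x) ^ 2 := by ring
    _ = (∫⁻ x, h x) ^ 2 := by rw [ENNReal.mul_inv_cancel hc0 hcT, one_pow, one_mul]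

theorem pl_line {f g h : ℝ → ℝ≥0∞} (hf : Measurable f) (hg : Measurable g) (hh : Measurable h)
    (H : ∀ x y, f x * g y ≤ h ((x + y) / 2) ^ 2) :
    (∫⁻ x, f x) * (∫⁻ x, g x) ≤ (∫⁻ x, h x) ^ 2 := by
  have trunc : ∀ p : ℝ → ℝ≥0∞, Measurable p →
      ∫⁻ x, p x = ⨆ n : ℕ, ∫⁻ x, min (p x) n := by
    intro p hp
    rw [← lintegral_iSup (fun n => hp.min measurable_const)]
    · refine lintegral_congr fun x => ?_
      apply le_antisymm
      · by_cases hx : p x = ⊤
        · rw [hx]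
          simp only [min_eq_right le_top]
          rw [ENNReal.iSup_natCast]
        · obtain ⟨n, hn⟩ := ENNReal.exists_nat_gt hx
          exact le_iSup_of_le n (le_min le_rfl hn.le)
      · exact iSup_le fun n => min_le_left _ _
    · intro n m hnm x
      exact min_le_min le_rfl (by exact_mod_cast hnm)
  rw [trunc f hf, trunc g hg, ENNReal.iSup_mul]
  refine iSup_le fun n => ?_
  rw [ENNReal.mul_iSup]
  refine iSup_le fun m => ?_
  refine pl_bdd (hf.min measurable_const) (hg.min measurable_const) hh n m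
    (fun x => min_le_right _ _) (fun x => min_le_right _ _) fun x y => ?_
  exact (mul_le_mul' (min_le_left _ _) (min_le_left _ _)).trans (H x y)

theorem pl_plane {f g h : Plane → ℝ≥0∞} (hf : Measurable f) (hg : Measurable g)
    (hh : Measurable h) (H : ∀ x y, f x * g y ≤ h ((1 / 2 : ℝ) • (x + y)) ^ 2) :
    (∫⁻ x, f x) * (∫⁻ x, g x) ≤ (∫⁻ x, h x) ^ 2 := by
  -- coordinates
  let E : ℝ × ℝ → Plane := fun q => WithLp.toLp 2 ![q.1, q.2]
  have hE : MeasurePreserving E volume volume :=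
    (PiLp.volume_preserving_toLp (Fin 2)).comp (volume_preserving_finTwoArrow ℝ).symm
  have tr : ∀ p : Plane → ℝ≥0∞, Measurable p →
      ∫⁻ x, p x = ∫⁻ x : ℝ, ∫⁻ y : ℝ, p (E (x, y)) := by
    intro p hp
    rw [← hE.lintegral_comp hp, Measure.volume_eq_prod]
    exact lintegral_prod _ (hp.comp hE.measurable).aemeasurable
  rw [tr f hf, tr g hg, tr h hh]
  have hm : ∀ p : Plane → ℝ≥0∞, Measurable p → Measurable fun x : ℝ => ∫⁻ y : ℝ, p (E (x, y)) :=
    fun p hp => Measurable.lintegral_prod_right' (hp.comp hE.measurable)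
  have hm2 : ∀ p : Plane → ℝ≥0∞, Measurable p → ∀ x : ℝ, Measurable fun y : ℝ => p (E (x, y)) :=
    fun p hp x => (hp.comp hE.measurable).comp measurable_prodMk_left
  refine pl_line (hm f hf) (hm g hg) (hm h hh) fun x x' => ?_
  refine pl_line (hm2 f hf x) (hm2 g hg x') (hm2 h hh _) fun y y' => ?_
  have e : E ((x + x') / 2, (y + y') / 2) = (1 / 2 : ℝ) • (E (x, y) + E (x', y')) := by
    ext i
    fin_cases i
    · simp [E]; ring
    · simp [E]; ring
  rw [e]
  exact H _ _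

end Pool.Agent.WSB71
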