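import Pool.Agent.WSB71.VMass
import Pool.Agent.WSB71.VPL

/-!
# V7: Prékopa-Leindler with a gain

`K₀, K₁` with midpoints in `Kh`.  `G_s(x - z) G_s(y - z') exp(|w - w'|²/(8s)) = G_s(m - m')²`, `w = x - y`, `w' = z - z'`,
`m, m'` the midpoints.
 * `pl_step`: if `(R x + (e^{Θ(x-y)} - 1) A x) f y ≤ F((x+y)/2)²` on `K₀ × K₁`, `A ≤ R`, `0 ≤ Θ`, and
   `Θ'(w) ≤ |w - w'|²/(8s) + Θ(w')`, `0 ≤ Θ'`, then the same for `T R, T A, T f, T F, Θ'` everywhere: `pl_plane` for fixed `x, y` with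
   `1_{K₀}(z) G_s(x-z) (R z + (e^{Θ'(w)} - 1) A z)`, `1_{K₁}(z') G_s(y-z') f z'`, `1_{Kh} G_s(m-·) F`; uses
   `e^q (R + (e^Θ - 1) A) ≥ R + (e^{q+Θ} - 1) A` since `A ≤ R`.
 * potentials: `Θ_t(w) = max 0 (L D(w) - 2 L² t)`, `D` = maximum of the functions `d` of the caps already met (going backwards in time):
   `D` is `1`-Lipschitz and `L a ≤ a²/(8s) + 2 L² s`.  At a cap `(c, d)`: `A` is replaced by `c.indicator A`; for `z ∈ c ∩ K₀`,
   `z' ∈ K₁` one has `d (z - z') ≤ 0`, so `D` may be replaced by `max D d`.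
 * at the beginning of the window `D ≥ δ` everywhere, the time is `k n s`, `L = δ/(4 k n s)`: gain
   `exp (δ²/(8 k n s))`.
 * `gain_iter`: induction on the number of windows (`A` of the next window is built from the new `R`), finally `pl_plane` for the
   integrals. -/

open MeasureTheory Filter Topology
open scoped NNReal ENNReal Pointwise

namespace Pool.Agent.WSB71

open Pool.Agent.LT

namespace VG

/-! ## The parallelogram identity for the heat kernel -/

lemma vhk_mul (s : ℝ) (a b : Plane) :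
    vhk s a * vhk s b = vhk s ((1 / 2 : ℝ) • (a + b)) ^ 2 *
      ENNReal.ofReal (Real.exp (-(‖a - b‖ ^ 2 / (8 * s)))) := by
  by_cases hs : s = 0
  · subst hs
    simp [vhk]
  rcases lt_or_gt_of_ne hs with hneg | hpos
  · have h1 : ∀ x : Plane, vhk s x = 0 := by
      intro x
      unfold vhk
      rw [ENNReal.ofReal_eq_zero]
      apply mul_nonpos_of_nonpos_of_nonneg _ (Real.exp_nonneg _)
      rw [inv_nonpos]
      have := Real.pi_pos
      nlinarith
    rw [h1 a, h1 b, h1 ((1 / 2 : ℝ) • (a + b))]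
    simp
  have hc : 0 ≤ (4 * Real.pi * s)⁻¹ := by positivity
  unfold vhk
  rw [← ENNReal.ofReal_mul (by positivity), ← ENNReal.ofReal_pow (by positivity),
    ← ENNReal.ofReal_mul (by positivity)]
  congr 1
  have h2 : ‖a‖ ^ 2 + ‖b‖ ^ 2 = 2 * ‖(1 / 2 : ℝ) • (a + b)‖ ^ 2 + ‖a - b‖ ^ 2 / 2 := by
    have h3 := parallelogram_law_with_norm ℝ a b
    rw [norm_smul, mul_pow]
    norm_num
    nlinarith
  have h4 : Real.exp (-(‖a‖ ^ 2 / (4 * s))) * Real.exp (-(‖b‖ ^ 2 / (4 * s))) =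
      Real.exp (-(‖(1 / 2 : ℝ) • (a + b)‖ ^ 2 / (4 * s))) ^ 2 *
        Real.exp (-(‖a - b‖ ^ 2 / (8 * s))) := by
    rw [← Real.exp_add, ← Real.exp_nat_mul, ← Real.exp_add]
    congr 1
    field_simp
    push_cast
    linarith
  calc _ = (4 * Real.pi * s)⁻¹ ^ 2 *
        (Real.exp (-(‖a‖ ^ 2 / (4 * s))) * Real.exp (-(‖b‖ ^ 2 / (4 * s)))) := by ring
    _ = _ := by rw [h4]; ring

/-! ## Elementary inequality -/

lemma coef_le {R A : ℝ≥0∞} (hAR : A ≤ R) {q Θ Θ' : ℝ} (hq : 0 ≤ q) (hΘ : 0 ≤ Θ)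
    (h : Θ' ≤ q + Θ) : ENNReal.ofReal (Real.exp (-q)) *
      (R + ENNReal.ofReal (Real.exp Θ' - 1) * A) ≤ R + ENNReal.ofReal (Real.exp Θ - 1) * A := by
  have h1 : ENNReal.ofReal (Real.exp q) * ENNReal.ofReal (Real.exp (-q)) = 1 := by
    rw [← ENNReal.ofReal_mul (Real.exp_nonneg _), ← Real.exp_add]
    simp
  have hE : ENNReal.ofReal (Real.exp q) = 1 + ENNReal.ofReal (Real.exp q - 1) := by
    have h2 : 0 ≤ Real.exp q - 1 := by
      have := Real.one_le_exp hq; linarith
    rw [← ENNReal.ofReal_one, ← ENNReal.ofReal_add zero_le_one h2]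
    ring_nf
  have ha : ENNReal.ofReal (Real.exp Θ' - 1) ≤ ENNReal.ofReal (Real.exp q - 1) +
      ENNReal.ofReal (Real.exp q) * ENNReal.ofReal (Real.exp Θ - 1) := by
    have h2 : 0 ≤ Real.exp q - 1 := by
      have := Real.one_le_exp hq; linarith
    have h3 : 0 ≤ Real.exp Θ - 1 := by
      have := Real.one_le_exp hΘ; linarith
    rw [← ENNReal.ofReal_mul (Real.exp_nonneg _),
      ← ENNReal.ofReal_add h2 (mul_nonneg (Real.exp_nonneg _) h3)]
    apply ENNReal.ofReal_le_ofReal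
    have h4 : Real.exp Θ' ≤ Real.exp q * Real.exp Θ := by
      rw [← Real.exp_add]
      exact Real.exp_le_exp.2 h
    nlinarith
  have key : R + ENNReal.ofReal (Real.exp Θ' - 1) * A ≤
      ENNReal.ofReal (Real.exp q) * (R + ENNReal.ofReal (Real.exp Θ - 1) * A) := by
    calc R + ENNReal.ofReal (Real.exp Θ' - 1) * A ≤ R + (ENNReal.ofReal (Real.exp q - 1) +
          ENNReal.ofReal (Real.exp q) * ENNReal.ofReal (Real.exp Θ - 1)) * A := by gcongr
      _ = R + ENNReal.ofReal (Real.exp q - 1) * A +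
          ENNReal.ofReal (Real.exp q) * ENNReal.ofReal (Real.exp Θ - 1) * A := by ring
      _ ≤ R + ENNReal.ofReal (Real.exp q - 1) * R +
          ENNReal.ofReal (Real.exp q) * ENNReal.ofReal (Real.exp Θ - 1) * A := by gcongr
      _ = _ := by rw [hE]; ring
  calc _ ≤ ENNReal.ofReal (Real.exp (-q)) *
        (ENNReal.ofReal (Real.exp q) * (R + ENNReal.ofReal (Real.exp Θ - 1) * A)) := by gcongr
    _ = (ENNReal.ofReal (Real.exp q) * ENNReal.ofReal (Real.exp (-q))) *
        (R + ENNReal.ofReal (Real.exp Θ - 1) * A) := by ring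
    _ = _ := by rw [h1, one_mul]

/-! ## One step -/

section step

variable {K₀ K₁ Kh : Set Plane} {s : ℝ}

/-- the inequality on `S₀ × S₁` -/
def PK (S₀ S₁ : Set Plane) (Θ : Plane → ℝ) (R A f F : Plane → ℝ≥0∞) : Prop :=
  ∀ x ∈ S₀, ∀ y ∈ S₁, (R x + ENNReal.ofReal (Real.exp (Θ (x - y)) - 1) * A x) * f y ≤
    F ((1 / 2 : ℝ) • (x + y)) ^ 2

lemma pl_step (h0 : MeasurableSet K₀) (h1 : MeasurableSet K₁) (hh : MeasurableSet Kh)
    (hmid : ∀ x ∈ K₀, ∀ y ∈ K₁, (1 / 2 : ℝ) • (x + y) ∈ Kh) (hs : 0 < s)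
    {R A f F : Plane → ℝ≥0∞} (hR : Measurable R) (hA : Measurable A) (hf : Measurable f)
    (hF : Measurable F) (hAR : ∀ x, A x ≤ R x) {Θ Θ' : Plane → ℝ} (hΘ0 : ∀ w, 0 ≤ Θ w)
    (hΘ : ∀ w w', Θ' w ≤ ‖w - w'‖ ^ 2 / (8 * s) + Θ w') (H : PK K₀ K₁ Θ R A f F) :
    PK Set.univ Set.univ Θ' (vT K₀ s R) (vT K₀ s A) (vT K₁ s f) (vT Kh s F) := by
  intro x _ y _
  set γ : ℝ≥0∞ := ENNReal.ofReal (Real.exp (Θ' (x - y)) - 1) with hγ
  have hG : ∀ p : Plane, Measurable fun z : Plane => vhk s (p - z) := fun p =>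
    (measurable_vhk s).comp (measurable_const.sub measurable_id)
  have m1 : Measurable fun z => vhk s (x - z) * (R z + γ * A z) :=
    (hG x).mul (hR.add (hA.const_mul γ))
  have m2 : Measurable fun z => vhk s (y - z) * f z := (hG y).mul hf
  have m3 : Measurable fun z => vhk s ((1 / 2 : ℝ) • (x + y) - z) * F z := (hG _).mul hF
  have key := pl_plane (m1.indicator h0) (m2.indicator h1) (m3.indicator hh) (by
    intro z z'
    by_cases hz : z ∈ K₀
    · by_cases hz' : z' ∈ K₁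
      · rw [Set.indicator_of_mem hz, Set.indicator_of_mem hz', Set.indicator_of_mem (hmid z hz z' hz')]
        have h2 := H z hz z' hz'
        have h3 := vhk_mul s (x - z) (y - z')
        have h4 : (1 / 2 : ℝ) • (x - z + (y - z')) =
            (1 / 2 : ℝ) • (x + y) - (1 / 2 : ℝ) • (z + z') := by
          rw [← smul_sub]; congr 1; abel
        have h5 : x - z - (y - z') = (x - y) - (z - z') := by abel
        rw [h4, h5] at h3
        have h6 := coef_le (hAR z) (q := ‖(x - y) - (z - z')‖ ^ 2 / (8 * s))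
          (Θ := Θ (z - z')) (Θ' := Θ' (x - y)) (by positivity) (hΘ0 _) (hΘ _ _)
        calc vhk s (x - z) * (R z + γ * A z) * (vhk s (y - z') * f z')
            = (vhk s (x - z) * vhk s (y - z')) * (R z + γ * A z) * f z' := by ring
          _ = vhk s ((1 / 2 : ℝ) • (x + y) - (1 / 2 : ℝ) • (z + z')) ^ 2 *
              ((ENNReal.ofReal (Real.exp (-(‖(x - y) - (z - z')‖ ^ 2 / (8 * s)))) *
                (R z + γ * A z)) * f z') := by rw [h3]; ring
          _ ≤ vhk s ((1 / 2 : ℝ) • (x + y) - (1 / 2 : ℝ) • (z + z')) ^ 2 *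
              ((R z + ENNReal.ofReal (Real.exp (Θ (z - z')) - 1) * A z) * f z') := by
            gcongr
          _ ≤ vhk s ((1 / 2 : ℝ) • (x + y) - (1 / 2 : ℝ) • (z + z')) ^ 2 *
              F ((1 / 2 : ℝ) • (z + z')) ^ 2 := by gcongr
          _ = _ := by rw [mul_pow]
      · rw [Set.indicator_of_notMem hz']
        simp
    · rw [Set.indicator_of_notMem hz]
      simp)
  rw [lintegral_indicator h0, lintegral_indicator h1, lintegral_indicator hh] at key
  refine le_trans (le_of_eq ?_) key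
  congr 1
  unfold vT
  have m4 : Measurable fun z => vhk s (x - z) * A z := (hG x).mul hA
  have m5 : Measurable fun z => vhk s (x - z) * R z := (hG x).mul hR
  rw [← lintegral_const_mul γ m4, ← lintegral_add_left m5]
  refine lintegral_congr fun z => ?_
  ring

lemma PK.mono {S₀ S₁ : Set Plane} {Θ : Plane → ℝ} {R A f F : Plane → ℝ≥0∞}
    (H : PK Set.univ Set.univ Θ R A f F) : PK S₀ S₁ Θ R A f F :=
  fun x _ y _ => H x trivial y trivial

/-! ## The potential -/

/-- the potential -/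
noncomputable def Th (L t : ℝ) : List (Set Plane × (Plane → ℝ)) → Plane → ℝ
  | [], _ => 0
  | q :: cs, w => max (L * q.2 w - 2 * L ^ 2 * t) (Th L t cs w)

lemma Th_nonneg (L t : ℝ) : ∀ (cs : List (Set Plane × (Plane → ℝ))) (w : Plane),
    0 ≤ Th L t cs w := by
  intro cs
  induction cs with
  | nil => intro w; exact le_rfl
  | cons q cs ih => intro w; exact le_max_of_le_right (ih w)

lemma Th_step {L t : ℝ} (hL : 0 ≤ L) (hs : 0 < s) : ∀ {cs : List (Set Plane × (Plane → ℝ))},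
    (∀ q ∈ cs, ∀ w w', q.2 w ≤ q.2 w' + ‖w - w'‖) → ∀ w w',
      Th L (t + s) cs w ≤ ‖w - w'‖ ^ 2 / (8 * s) + Th L t cs w' := by
  intro cs
  induction cs with
  | nil =>
    intro _ w w'
    simp only [Th]
    positivity
  | cons q cs ih =>
    intro h w w'
    have h1 := ih (fun q hq => h q (List.mem_cons_of_mem _ hq)) w w'
    have h2 := h q List.mem_cons_self w w'
    simp only [Th]
    refine max_le ?_ (h1.trans (by gcongr; exact le_max_right _ _))
    have h3 : L * ‖w - w'‖ ≤ ‖w - w'‖ ^ 2 / (8 * s) + 2 * L ^ 2 * s := by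
      have h4 : 0 ≤ (‖w - w'‖ - 4 * L * s) ^ 2 / (8 * s) := by positivity
      have h5 : (‖w - w'‖ - 4 * L * s) ^ 2 / (8 * s) =
          ‖w - w'‖ ^ 2 / (8 * s) - L * ‖w - w'‖ + 2 * L ^ 2 * s := by
        field_simp
        ring
      linarith
    have h6 : L * q.2 w ≤ L * (q.2 w' + ‖w - w'‖) := mul_le_mul_of_nonneg_left h2 hL
    have h7 : L * q.2 w' - 2 * L ^ 2 * t ≤ max (L * q.2 w' - 2 * L ^ 2 * t) (Th L t cs w') :=
      le_max_left _ _
    linarith

lemma Th_ge {L t : ℝ} : ∀ {cs : List (Set Plane × (Plane → ℝ))}, ∀ q ∈ cs, ∀ w,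
    L * q.2 w - 2 * L ^ 2 * t ≤ Th L t cs w := by
  intro cs
  induction cs with
  | nil => intro q hq; simp at hq
  | cons q' cs ih =>
    intro q hq w
    rcases List.mem_cons.1 hq with rfl | hq
    · exact le_max_left _ _
    · exact le_max_of_le_right (ih q hq w)

lemma iter_le (K : Set Plane) (s : ℝ) (n : ℕ) {f g : Plane → ℝ≥0∞} (h : ∀ x, f x ≤ g x)
    (x : Plane) : (vT K s)^[n] f x ≤ (vT K s)^[n] g x :=
  vT_iter_mono le_rfl s n h x

lemma pl_iter (h0 : MeasurableSet K₀) (h1 : MeasurableSet K₁) (hh : MeasurableSet Kh)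
    (hmid : ∀ x ∈ K₀, ∀ y ∈ K₁, (1 / 2 : ℝ) • (x + y) ∈ Kh) (hs : 0 < s)
    {R A f F : Plane → ℝ≥0∞} (hR : Measurable R) (hA : Measurable A) (hf : Measurable f)
    (hF : Measurable F) (hAR : ∀ x, A x ≤ R x) {L t : ℝ} (hL : 0 ≤ L)
    {cs : List (Set Plane × (Plane → ℝ))} (hlip : ∀ q ∈ cs, ∀ w w', q.2 w ≤ q.2 w' + ‖w - w'‖)
    (H : PK K₀ K₁ (Th L t cs) R A f F) (n : ℕ) :
    PK Set.univ Set.univ (Th L (t + (n + 1 : ℕ) * s) cs) ((vT K₀ s)^[n + 1] R)
      ((vT K₀ s)^[n + 1] A) ((vT K₁ s)^[n + 1] f) ((vT Kh s)^[n + 1] F) := by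
  induction n with
  | zero =>
    have := pl_step h0 h1 hh hmid hs hR hA hf hF hAR (Th_nonneg L t cs)
      (Th_step (t := t) hL hs hlip) H
    simpa using this
  | succ n ih =>
    have h2 := pl_step h0 h1 hh hmid hs (measurable_vT_iter K₀ s (n + 1) hR)
      (measurable_vT_iter K₀ s (n + 1) hA) (measurable_vT_iter K₁ s (n + 1) hf)
      (measurable_vT_iter Kh s (n + 1) hF) (iter_le K₀ s (n + 1) hAR)
      (Th_nonneg L (t + (n + 1 : ℕ) * s) cs) (Th_step (t := t + (n + 1 : ℕ) * s) hL hs hlip)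
      ih.mono
    have e : ∀ (K : Set Plane) (g : Plane → ℝ≥0∞), (vT K s)^[n + 1 + 1] g =
        vT K s ((vT K s)^[n + 1] g) := fun K g => Function.iterate_succ_apply' _ _ _
    rw [e, e, e, e]
    have h3 : t + (n + 1 : ℕ) * s + s = t + ((n + 1 + 1 : ℕ) : ℝ) * s := by push_cast; ring
    rw [h3] at h2
    exact h2

lemma measurable_vA (K : Set Plane) (s : ℝ) (n : ℕ) : ∀ {cs : List (Set Plane)},
    (∀ c ∈ cs, MeasurableSet c) → ∀ {f : Plane → ℝ≥0∞}, Measurable f →
      Measurable (vA K s n cs f) := by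
  intro cs
  induction cs with
  | nil => intro _ f hf; exact measurable_vT_iter K s n hf
  | cons c cs ih =>
    intro h f hf
    exact measurable_vT_iter K s n ((ih (fun c hc => h c (List.mem_cons_of_mem _ hc)) hf).indicator
      (h c List.mem_cons_self))

lemma vA_le (K : Set Plane) (s : ℝ) (n : ℕ) : ∀ (cs : List (Set Plane)) (f : Plane → ℝ≥0∞)
    (x : Plane), vA K s n cs f x ≤ (vT K s)^[(cs.length + 1) * n] f x := by
  intro cs
  induction cs with
  | nil => intro f x; simp [vA]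
  | cons c cs ih =>
    intro f x
    have h1 : (vT K s)^[((c :: cs).length + 1) * n] f =
        (vT K s)^[n] ((vT K s)^[(cs.length + 1) * n] f) := by
      have e3 : ((c :: cs).length + 1) * n = n + (cs.length + 1) * n := by
        simp only [List.length_cons]
        ring
      rw [e3, Function.iterate_add_apply]
    rw [h1]
    refine iter_le K s n (fun z => ?_) x
    exact (Set.indicator_le_self' (fun _ _ => zero_le) z).trans (ih f z)

lemma window (h0 : MeasurableSet K₀) (h1 : MeasurableSet K₁) (hh : MeasurableSet Kh)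
    (hmid : ∀ x ∈ K₀, ∀ y ∈ K₁, (1 / 2 : ℝ) • (x + y) ∈ Kh) (hs : 0 < s) {n : ℕ} (hn : 1 ≤ n)
    {R f F : Plane → ℝ≥0∞} (hR : Measurable R) (hf : Measurable f) (hF : Measurable F)
    (H : ∀ x ∈ K₀, ∀ y ∈ K₁, R x * f y ≤ F ((1 / 2 : ℝ) • (x + y)) ^ 2) {L : ℝ} (hL : 0 ≤ L) :
    ∀ {cs : List (Set Plane × (Plane → ℝ))}, (∀ q ∈ cs, MeasurableSet q.1) →
      (∀ q ∈ cs, ∀ w w', q.2 w ≤ q.2 w' + ‖w - w'‖) →
      (∀ q ∈ cs, ∀ x ∈ q.1, x ∈ K₀ → ∀ y ∈ K₁, q.2 (x - y) ≤ 0) →
      PK Set.univ Set.univ (Th L (cs.length * n * s) cs) ((vT K₀ s)^[(cs.length + 1) * n] R)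
        (vA K₀ s n (cs.map Prod.fst) R) ((vT K₁ s)^[(cs.length + 1) * n] f)
        ((vT Kh s)^[(cs.length + 1) * n] F) := by
  obtain ⟨m, rfl⟩ : ∃ m, n = m + 1 := ⟨n - 1, by omega⟩
  intro cs
  induction cs with
  | nil =>
    intro _ _ _
    have h2 := pl_iter h0 h1 hh hmid hs hR hR hf hF (fun _ => le_rfl) hL (t := 0) (cs := [])
      (by simp) (by
        intro x hx y hy
        simp only [Th, Real.exp_zero, sub_self, ENNReal.ofReal_zero, zero_mul, add_zero]
        exact H x hx y hy) m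
    intro x hx y hy
    have h3 := h2 x hx y hy
    simp only [Th, List.length_nil, zero_add, one_mul, List.map_nil, vA] at h3 ⊢
    exact h3
  | cons q cs ih =>
    intro hcm hlip hd
    have h2 := ih (fun q hq => hcm q (List.mem_cons_of_mem _ hq))
      (fun q hq => hlip q (List.mem_cons_of_mem _ hq))
      (fun q hq => hd q (List.mem_cons_of_mem _ hq))
    set t : ℝ := cs.length * (m + 1 : ℕ) * s with ht
    have ht0 : 0 ≤ t := by positivity
    set R' := (vT K₀ s)^[(cs.length + 1) * (m + 1)] R with hR'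
    set f' := (vT K₁ s)^[(cs.length + 1) * (m + 1)] f with hf'
    set F' := (vT Kh s)^[(cs.length + 1) * (m + 1)] F with hF'
    set A' := vA K₀ s (m + 1) (cs.map Prod.fst) R with hA'
    have mR' : Measurable R' := measurable_vT_iter _ _ _ hR
    have mf' : Measurable f' := measurable_vT_iter _ _ _ hf
    have mF' : Measurable F' := measurable_vT_iter _ _ _ hF
    have mA' : Measurable A' := measurable_vA _ _ _ (by
      intro c hc
      obtain ⟨q', hq', rfl⟩ := List.mem_map.1 hc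
      exact hcm q' (List.mem_cons_of_mem _ hq')) hR
    have hAR : ∀ x, (q.1.indicator A') x ≤ R' x := by
      intro x
      refine (Set.indicator_le_self' (fun _ _ => zero_le) x).trans ?_
      have := vA_le K₀ s (m + 1) (cs.map Prod.fst) R x
      rw [List.length_map] at this
      exact this
    have h3 : PK K₀ K₁ (Th L t (q :: cs)) R' (q.1.indicator A') f' F' := by
      intro x hx y hy
      have h4 := h2 x trivial y trivial
      by_cases hxc : x ∈ q.1
      · have h5 : Th L t (q :: cs) (x - y) = Th L t cs (x - y) := by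
          simp only [Th]
          apply max_eq_right
          have h6 := hd q List.mem_cons_self x hxc hx y hy
          have h7 : L * q.2 (x - y) ≤ 0 := mul_nonpos_of_nonneg_of_nonpos hL h6
          have h8 : 0 ≤ 2 * L ^ 2 * t := by positivity
          have := Th_nonneg L t cs (x - y)
          linarith
        rw [h5, Set.indicator_of_mem hxc]
        exact h4
      · rw [Set.indicator_of_notMem hxc, mul_zero, add_zero]
        refine le_trans ?_ h4
        gcongr
        exact le_self_add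
    have h9 := pl_iter h0 h1 hh hmid hs mR' (mA'.indicator (hcm q List.mem_cons_self)) mf' mF' hAR
      hL hlip h3 m
    have e1 : ∀ (K : Set Plane) (g : Plane → ℝ≥0∞), (vT K s)^[m + 1]
        ((vT K s)^[(cs.length + 1) * (m + 1)] g) =
        (vT K s)^[((q :: cs).length + 1) * (m + 1)] g := by
      intro K g
      have e3 : ((q :: cs).length + 1) * (m + 1) = (m + 1) + (cs.length + 1) * (m + 1) := by
        simp only [List.length_cons]
        ring
      rw [e3]
      exact (Function.iterate_add_apply _ (m + 1) ((cs.length + 1) * (m + 1)) g).symm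
    have e2 : t + (m + 1 : ℕ) * s = ((q :: cs).length : ℝ) * (m + 1 : ℕ) * s := by
      rw [ht]
      simp only [List.length_cons]
      push_cast
      ring
    rw [e2, hR', hf', hF', e1, e1, e1] at h9
    exact h9

lemma measurable_vW (K : Set Plane) (s : ℝ) (n : ℕ) {cs : List (Set Plane)}
    (hcs : ∀ c ∈ cs, MeasurableSet c) (γ : ℝ≥0∞) {f : Plane → ℝ≥0∞} (hf : Measurable f) :
    Measurable (vW K s n cs γ f) :=
  (measurable_vT_iter K s _ hf).add ((measurable_vA K s n hcs hf).const_mul γ)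

lemma measurable_vW_iter (K : Set Plane) (s : ℝ) (n : ℕ) {cs : List (Set Plane)}
    (hcs : ∀ c ∈ cs, MeasurableSet c) (γ : ℝ≥0∞) (j : ℕ) {f : Plane → ℝ≥0∞} (hf : Measurable f) :
    Measurable ((vW K s n cs γ)^[j] f) := by
  induction j with
  | zero => exact hf
  | succ j ih =>
    rw [Function.iterate_succ_apply']
    exact measurable_vW K s n hcs γ ih

end step

end VG

/-- One window. -/
theorem gain_window {K₀ K₁ Kh : Set Plane} (h0 : MeasurableSet K₀) (h1 : MeasurableSet K₁)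
    (hh : MeasurableSet Kh) (hmid : ∀ x ∈ K₀, ∀ y ∈ K₁, (1 / 2 : ℝ) • (x + y) ∈ Kh)
    {s : ℝ} (hs : 0 < s) {n : ℕ} (hn : 1 ≤ n) {cs : List (Set Plane × (Plane → ℝ))}
    (hne : cs ≠ []) (hcm : ∀ q ∈ cs, MeasurableSet q.1) (hlip : ∀ q ∈ cs, ∀ w w', q.2 w ≤ q.2 w' + ‖w - w'‖)
    (hd : ∀ q ∈ cs, ∀ x ∈ q.1, x ∈ K₀ → ∀ y ∈ K₁, q.2 (x - y) ≤ 0) {δ : ℝ} (hδ : 0 < δ)
    (hall : ∀ w, ∃ q ∈ cs, δ ≤ q.2 w) {R f F : Plane → ℝ≥0∞} (hR : Measurable R)
    (hf : Measurable f) (hF : Measurable F)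
    (H : ∀ x ∈ K₀, ∀ y ∈ K₁, R x * f y ≤ F ((1 / 2 : ℝ) • (x + y)) ^ 2) (x y : Plane) :
    vW K₀ s n (cs.map Prod.fst)
        (ENNReal.ofReal (Real.exp (δ ^ 2 / (8 * cs.length * n * s)) - 1)) R x *
      (vT K₁ s)^[(cs.length + 1) * n] f y ≤
      (vT Kh s)^[(cs.length + 1) * n] F ((1 / 2 : ℝ) • (x + y)) ^ 2 := by
  have hk : (0 : ℝ) < cs.length := by
    have := List.length_pos_iff.2 hne
    exact_mod_cast this
  have hn' : (0 : ℝ) < n := by exact_mod_cast hn
  set L : ℝ := δ / (4 * (cs.length * n * s)) with hL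
  have hL0 : 0 ≤ L := by positivity
  have h2 := VG.window h0 h1 hh hmid hs hn hR hf hF H hL0 hcm hlip hd x trivial y trivial
  refine le_trans ?_ h2
  unfold vW
  rw [List.length_map]
  gcongr
  obtain ⟨q, hq, hδq⟩ := hall (x - y)
  refine le_trans ?_ (VG.Th_ge q hq (x - y))
  have h3 : L * δ ≤ L * q.2 (x - y) := mul_le_mul_of_nonneg_left hδq hL0
  have h4 : δ ^ 2 / (8 * cs.length * n * s) = L * δ - 2 * L ^ 2 * (cs.length * n * s) := by
    rw [hL]
    field_simp
    ring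
  linarith

/-- All windows. -/
theorem gain_iter {K₀ K₁ Kh : Set Plane} (h0 : MeasurableSet K₀) (h1 : MeasurableSet K₁)
    (hh : MeasurableSet Kh) (hmid : ∀ x ∈ K₀, ∀ y ∈ K₁, (1 / 2 : ℝ) • (x + y) ∈ Kh)
    {s : ℝ} (hs : 0 < s) {n : ℕ} (hn : 1 ≤ n) {cs : List (Set Plane × (Plane → ℝ))}
    (hne : cs ≠ []) (hcm : ∀ q ∈ cs, MeasurableSet q.1) (hlip : ∀ q ∈ cs, ∀ w w', q.2 w ≤ q.2 w' + ‖w - w'‖)
    (hd : ∀ q ∈ cs, ∀ x ∈ q.1, x ∈ K₀ → ∀ y ∈ K₁, q.2 (x - y) ≤ 0) {δ : ℝ} (hδ : 0 < δ)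
    (hall : ∀ w, ∃ q ∈ cs, δ ≤ q.2 w) (j : ℕ) :
    (∫⁻ x in K₀, (vW K₀ s n (cs.map Prod.fst)
        (ENNReal.ofReal (Real.exp (δ ^ 2 / (8 * cs.length * n * s)) - 1)))^[j] (fun _ => 1) x) *
      (∫⁻ y in K₁, (vT K₁ s)^[j * ((cs.length + 1) * n)] (fun _ => 1) y) ≤
      (∫⁻ x in Kh, (vT Kh s)^[j * ((cs.length + 1) * n)] (fun _ => 1) x) ^ 2 := by
  set γ : ℝ≥0∞ := ENNReal.ofReal (Real.exp (δ ^ 2 / (8 * cs.length * n * s)) - 1) with hγ
  have hcs : ∀ c ∈ cs.map Prod.fst, MeasurableSet c := by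
    intro c hc
    obtain ⟨q, hq, rfl⟩ := List.mem_map.1 hc
    exact hcm q hq
  have key : ∀ j : ℕ, ∀ x ∈ K₀, ∀ y ∈ K₁,
      (vW K₀ s n (cs.map Prod.fst) γ)^[j] (fun _ => 1) x *
        (vT K₁ s)^[j * ((cs.length + 1) * n)] (fun _ => 1) y ≤
        (vT Kh s)^[j * ((cs.length + 1) * n)] (fun _ => 1) ((1 / 2 : ℝ) • (x + y)) ^ 2 := by
    intro j
    induction j with
    | zero => intro x _ y _; simp
    | succ j ih =>
      intro x _ y _
      have h2 := gain_window h0 h1 hh hmid hs hn hne hcm hlip hd hδ hall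
        (VG.measurable_vW_iter K₀ s n hcs γ j measurable_const)
        (measurable_vT_iter K₁ s (j * ((cs.length + 1) * n)) measurable_const)
        (measurable_vT_iter Kh s (j * ((cs.length + 1) * n)) measurable_const) ih x y
      have e1 : (j + 1) * ((cs.length + 1) * n) =
          (cs.length + 1) * n + j * ((cs.length + 1) * n) := by ring
      rw [Function.iterate_succ_apply', e1, Function.iterate_add_apply,
        Function.iterate_add_apply]
      exact h2
  have h3 := pl_plane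
    (((VG.measurable_vW_iter K₀ s n hcs γ j (f := fun _ => 1) measurable_const)).indicator h0)
    ((measurable_vT_iter K₁ s (j * ((cs.length + 1) * n)) (f := fun _ => 1)
      measurable_const).indicator h1)
    ((measurable_vT_iter Kh s (j * ((cs.length + 1) * n)) (f := fun _ => 1)
      measurable_const).indicator hh) (by
      intro x y
      by_cases hx : x ∈ K₀
      · by_cases hy : y ∈ K₁
        · rw [Set.indicator_of_mem hx, Set.indicator_of_mem hy,
            Set.indicator_of_mem (hmid x hx y hy)]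
          exact key j x hx y hy
        · rw [Set.indicator_of_notMem hy]
          simp
      · rw [Set.indicator_of_notMem hx]
        simp)
  rw [lintegral_indicator h0, lintegral_indicator h1, lintegral_indicator hh] at h3
  exact h3

end Pool.Agent.WSB71
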