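import Pool.Agent.WSB71.VDef

/-!
# V4: lower bound of the quadratic form of `vT`

`∫∫ φ(x) G_s(x - z) φ(z) = 1 - ½ ∫ G_s(h) ‖φ - φ(· - h)‖² dh` and `‖φ - φ(· - h)‖² ≤ ∫ (∇φ · h)²`
(fundamental theorem of calculus along the segment, Jensen, translation invariance), and
`∫ G_s(h) (v · h)² dh = 2 s |v|²`. -/

open MeasureTheory Filter Topology
open scoped NNReal ENNReal Pointwise

namespace Pool.Agent.WSB71

open Pool.Agent.LT

namespace VLowAux

theorem lint_supp {K S : Set Plane} (hS : MeasurableSet S) (hSK : S ⊆ K) {g : Plane → ℝ≥0∞}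
    (hg : ∀ x, x ∉ S → g x = 0) : ∫⁻ x in K, g x = ∫⁻ x, g x := by
  apply le_antisymm (setLIntegral_le_lintegral K g)
  have h1 : ∫⁻ x, g x = ∫⁻ x in S, g x := by
    rw [← lintegral_indicator hS]
    apply lintegral_congr
    intro x
    by_cases hx : x ∈ S
    · rw [Set.indicator_of_mem hx]
    · rw [Set.indicator_of_notMem hx, hg x hx]
  rw [h1]
  exact lintegral_mono' (Measure.restrict_mono hSK le_rfl) le_rfl

theorem prod2 {u v : ℝ → ℝ} (hu : Integrable u) (hv : Integrable v) :
    Integrable (fun h : Plane => u (h 0) * v (h 1)) ∧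
    ∫ h : Plane, u (h 0) * v (h 1) = (∫ x, u x) * ∫ x, v x := by
  have e1 : MeasurePreserving (WithLp.ofLp : Plane → (Fin 2 → ℝ)) := PiLp.volume_preserving_ofLp (Fin 2)
  have e2 : MeasurePreserving (MeasurableEquiv.finTwoArrow : (Fin 2 → ℝ) ≃ᵐ ℝ × ℝ) :=
    volume_preserving_finTwoArrow ℝ
  have e3 : MeasurePreserving (fun h : Plane => ((h 0 : ℝ), (h 1 : ℝ))) volume volume := e2.comp e1
  have h1 : Integrable (fun z : ℝ × ℝ => u z.1 * v z.2) (volume : Measure (ℝ × ℝ)) :=
    hu.mul_prod hv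
  constructor
  · exact e3.integrable_comp_of_integrable h1
  · have h2 : ∫ h : Plane, u (h 0) * v (h 1) = ∫ z : ℝ × ℝ, u z.1 * v z.2 := by
      have h3 := MeasureTheory.integral_map (μ := (volume : Measure Plane)) (φ := fun h : Plane => ((h 0 : ℝ), (h 1 : ℝ)))
        e3.measurable.aemeasurable (f := fun z : ℝ × ℝ => u z.1 * v z.2)
        (by rw [e3.map_eq]; exact h1.aestronglyMeasurable)
      rw [e3.map_eq] at h3
      rw [h3]
    rw [h2]
    exact integral_prod_mul u v

theorem gauss1 {s : ℝ} (hs : 0 < s) :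
    let γ : ℝ → ℝ := ProbabilityTheory.gaussianPDFReal 0 (Real.toNNReal (2 * s))
    Integrable γ ∧ Integrable (fun x => γ x * x) ∧ Integrable (fun x => γ x * x ^ 2) ∧
    ∫ x, γ x = 1 ∧ ∫ x, γ x * x = 0 ∧ ∫ x, γ x * x ^ 2 = 2 * s := by
  intro γ
  have hv : Real.toNNReal (2 * s) ≠ 0 := by
    simp [Real.toNNReal_eq_zero]; linarith
  have hc : ((Real.toNNReal (2 * s) : ℝ≥0) : ℝ) = 2 * s := Real.coe_toNNReal _ (by linarith)
  have hI : ∀ f : ℝ → ℝ, Integrable f (ProbabilityTheory.gaussianReal 0 (Real.toNNReal (2 * s))) →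
      Integrable (fun x => γ x * f x) := by
    intro f hf
    rw [ProbabilityTheory.gaussianReal_of_var_ne_zero _ hv] at hf
    have h1 := (integrable_withDensity_iff_integrable_smul'
      (ProbabilityTheory.measurable_gaussianPDF 0 (Real.toNNReal (2 * s)))
      (Filter.Eventually.of_forall (fun x => ProbabilityTheory.gaussianPDF_lt_top))).1 hf
    refine h1.congr (Filter.Eventually.of_forall (fun x => ?_))
    simp only [ProbabilityTheory.toReal_gaussianPDF, smul_eq_mul]
    rfl
  have hE : ∀ f : ℝ → ℝ, ∫ x, γ x * f x =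
      ∫ x, f x ∂(ProbabilityTheory.gaussianReal 0 (Real.toNNReal (2 * s))) := by
    intro f
    rw [ProbabilityTheory.integral_gaussianReal_eq_integral_smul hv]
    rfl
  have hm : ∫ x, x ∂(ProbabilityTheory.gaussianReal 0 (Real.toNNReal (2 * s))) = 0 := by
    rw [ProbabilityTheory.integral_id_gaussianReal]
  refine ⟨ProbabilityTheory.integrable_gaussianPDFReal _ _, ?_, ?_,
    ProbabilityTheory.integral_gaussianPDFReal_eq_one _ hv, ?_, ?_⟩
  · exact hI _ ((ProbabilityTheory.memLp_id_gaussianReal 1).integrable (by simp))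
  · exact hI _ ((ProbabilityTheory.memLp_id_gaussianReal (μ := 0) (v := Real.toNNReal (2 * s)) 2).integrable_sq)
  · rw [hE, hm]
  · rw [hE]
    have h2 := ProbabilityTheory.variance_fun_id_gaussianReal (μ := 0) (v := Real.toNNReal (2 * s))
    rw [ProbabilityTheory.variance_eq_integral (by fun_prop)] at h2
    rw [hm] at h2
    simp only [sub_zero] at h2
    rw [h2, hc]

theorem norm_clm_sq (L : Plane →L[ℝ] ℝ) :
    ‖L‖ ^ 2 = L (EuclideanSpace.single 0 1) ^ 2 + L (EuclideanSpace.single 1 1) ^ 2 := by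
  set v : Plane := (InnerProductSpace.toDual ℝ Plane).symm L with hv
  have h1 : ∀ w : Plane, L w = inner ℝ v w := by
    intro w
    rw [hv, InnerProductSpace.toDual_symm_apply]
  have h2 : ‖L‖ = ‖v‖ := by
    rw [hv, LinearIsometryEquiv.norm_map]
  rw [h2, EuclideanSpace.norm_sq_eq, Fin.sum_univ_two, h1, h1]
  simp [EuclideanSpace.inner_single_right]

theorem clm_apply_eq (L : Plane →L[ℝ] ℝ) (h : Plane) :
    L h = h 0 * L (EuclideanSpace.single 0 1) + h 1 * L (EuclideanSpace.single 1 1) := by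
  have h1 : h = h 0 • (EuclideanSpace.single 0 1 : Plane) + h 1 • (EuclideanSpace.single 1 1 : Plane) := by
    ext i
    fin_cases i <;> simp
  conv_lhs => rw [h1]
  rw [map_add, map_smul, map_smul, smul_eq_mul, smul_eq_mul]

theorem sq_int_le {u : ℝ → ℝ} (hu : Continuous u) :
    (∫ t in (0:ℝ)..1, u t) ^ 2 ≤ ∫ t in (0:ℝ)..1, u t ^ 2 := by
  set c := ∫ t in (0:ℝ)..1, u t with hc
  have h1 : 0 ≤ ∫ t in (0:ℝ)..1, (u t - c) ^ 2 :=
    intervalIntegral.integral_nonneg (by norm_num) (fun t _ => sq_nonneg _)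
  have h2 : ∫ t in (0:ℝ)..1, (u t - c) ^ 2 =
      (∫ t in (0:ℝ)..1, u t ^ 2) - 2 * c * c + c ^ 2 := by
    have h3 : ∀ t, (u t - c) ^ 2 = u t ^ 2 - 2 * c * u t + c ^ 2 := fun t => by ring
    simp_rw [h3]
    rw [intervalIntegral.integral_add, intervalIntegral.integral_sub,
      intervalIntegral.integral_const_mul, intervalIntegral.integral_const, ← hc]
    · simp
    · exact Continuous.intervalIntegrable (by fun_prop) _ _
    · exact Continuous.intervalIntegrable (by fun_prop) _ _
    · exact Continuous.intervalIntegrable (by fun_prop) _ _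
    · exact Continuous.intervalIntegrable (by fun_prop) _ _
  nlinarith

theorem shift_le {φ : Plane → ℝ} (h1 : ContDiff ℝ 1 φ) (x h : Plane) :
    ENNReal.ofReal ((φ x - φ (x - h)) ^ 2) ≤
      ∫⁻ t in Set.Icc (0:ℝ) 1, ENNReal.ofReal ((fderiv ℝ φ (x - h + t • h) h) ^ 2) := by
  have hd : Continuous (fderiv ℝ φ) := h1.continuous_fderiv (by norm_num)
  have hu : Continuous (fun t : ℝ => fderiv ℝ φ (x - h + t • h) h) := by fun_prop
  have h2 : ∫ t in (0:ℝ)..1, fderiv ℝ φ (x - h + t • h) h = φ x - φ (x - h) := by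
    have h3 : ∀ t ∈ Set.uIcc (0:ℝ) 1, HasDerivAt (fun t : ℝ => φ (x - h + t • h))
        (fderiv ℝ φ (x - h + t • h) h) t := by
      intro t _
      have h4 : HasFDerivAt φ (fderiv ℝ φ (x - h + t • h)) (x - h + t • h) :=
        (h1.differentiable (by norm_num) _).hasFDerivAt
      have h5 : HasDerivAt (fun t : ℝ => x - h + t • h) h t := by
        have := ((hasDerivAt_id t).smul_const h).const_add (x - h)
        simpa using this
      exact h4.comp_hasDerivAt t h5
    rw [intervalIntegral.integral_eq_sub_of_hasDerivAt h3 (hu.intervalIntegrable _ _)]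
    simp
  have h6 := sq_int_le hu
  rw [h2] at h6
  refine (ENNReal.ofReal_le_ofReal h6).trans ?_
  rw [intervalIntegral.integral_of_le (by norm_num), integral_Icc_eq_integral_Ioc.symm]
  rw [ofReal_integral_eq_lintegral_ofReal]
  · exact (Continuous.integrableOn_Icc (by fun_prop))
  · exact Filter.Eventually.of_forall (fun t => sq_nonneg _)

theorem shift_int {φ : Plane → ℝ} (h1 : ContDiff ℝ 1 φ) (h2 : HasCompactSupport φ) (h : Plane) :
    ∫ x, (φ x - φ (x - h)) ^ 2 ≤ ∫ x, (fderiv ℝ φ x h) ^ 2 := by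
  have hd : Continuous (fderiv ℝ φ) := h1.continuous_fderiv (by norm_num)
  have hc : Continuous φ := h1.continuous
  have hds : HasCompactSupport (fun x => (fderiv ℝ φ x h) ^ 2) := by
    have := h2.fderiv ℝ
    exact this.comp_left (g := fun L : Plane →L[ℝ] ℝ => (L h) ^ 2) (by simp)
  have hi : Integrable (fun x => (fderiv ℝ φ x h) ^ 2) :=
    Continuous.integrable_of_hasCompactSupport (by fun_prop) hds
  have key : ∫⁻ x, ENNReal.ofReal ((φ x - φ (x - h)) ^ 2) ≤
      ∫⁻ x, ENNReal.ofReal ((fderiv ℝ φ x h) ^ 2) := by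
    calc ∫⁻ x, ENNReal.ofReal ((φ x - φ (x - h)) ^ 2)
        ≤ ∫⁻ x, ∫⁻ t in Set.Icc (0:ℝ) 1, ENNReal.ofReal ((fderiv ℝ φ (x - h + t • h) h) ^ 2) :=
          lintegral_mono (fun x => shift_le h1 x h)
      _ = ∫⁻ t in Set.Icc (0:ℝ) 1, ∫⁻ x, ENNReal.ofReal ((fderiv ℝ φ (x - h + t • h) h) ^ 2) := by
          rw [lintegral_lintegral_swap]
          apply Measurable.aemeasurable
          apply Continuous.measurable
          apply ENNReal.continuous_ofReal.comp
          have : Continuous (fun p : Plane × ℝ => fderiv ℝ φ (p.1 - h + p.2 • h) h) := by fun_prop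
          exact this.pow 2
      _ = ∫⁻ t in Set.Icc (0:ℝ) 1, ∫⁻ x, ENNReal.ofReal ((fderiv ℝ φ x h) ^ 2) := by
          apply lintegral_congr
          intro t
          have h3 := lintegral_add_right_eq_self (μ := (volume : Measure Plane))
            (fun x => ENNReal.ofReal ((fderiv ℝ φ x h) ^ 2)) (-h + t • h)
          rw [← h3]
          apply lintegral_congr
          intro x
          rw [show x + (-h + t • h) = x - h + t • h by abel]
      _ = ∫⁻ x, ENNReal.ofReal ((fderiv ℝ φ x h) ^ 2) := by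
          rw [setLIntegral_const]
          simp
  rw [← ofReal_integral_eq_lintegral_ofReal hi (Filter.Eventually.of_forall (fun x => sq_nonneg _))] at key
  have hi2 : Integrable (fun x => (φ x - φ (x - h)) ^ 2) := by
    have e1 : Integrable (fun x => φ x ^ 2) := by
      apply Continuous.integrable_of_hasCompactSupport (by fun_prop)
      exact h2.comp_left (g := fun r : ℝ => r ^ 2) (by simp)
    have e2 : Integrable (fun x => φ (x - h) ^ 2) := e1.comp_sub_right h
    have e3 : Integrable (fun x => φ x * φ (x - h)) := by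
      apply Continuous.integrable_of_hasCompactSupport (by fun_prop)
      exact h2.mul_right
    have e4 := (e1.add e2).sub (e3.const_mul 2)
    refine e4.congr (Filter.Eventually.of_forall (fun x => ?_))
    simp only [Pi.add_apply, Pi.sub_apply]
    ring
  rw [← ofReal_integral_eq_lintegral_ofReal hi2 (Filter.Eventually.of_forall (fun x => sq_nonneg _))] at key
  exact (ENNReal.ofReal_le_ofReal_iff (integral_nonneg (fun x => sq_nonneg _))).1 key

theorem quad_int {φ : Plane → ℝ} (h1 : ContDiff ℝ 1 φ) (h2 : HasCompactSupport φ) :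
    ∃ A B C : ℝ, (∀ h : Plane, ∫ x, (fderiv ℝ φ x h) ^ 2 =
      A * h 0 ^ 2 + 2 * B * (h 0 * h 1) + C * h 1 ^ 2) ∧ A + C = ∫ x, ‖fderiv ℝ φ x‖ ^ 2 := by
  have hd : Continuous (fderiv ℝ φ) := h1.continuous_fderiv (by norm_num)
  have hs := h2.fderiv ℝ
  set a : Plane → ℝ := fun x => fderiv ℝ φ x (EuclideanSpace.single 0 1) with ha
  set b : Plane → ℝ := fun x => fderiv ℝ φ x (EuclideanSpace.single 1 1) with hb
  have hac : Continuous a := by rw [ha]; fun_prop
  have hbc : Continuous b := by rw [hb]; fun_prop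
  have has : HasCompactSupport a :=
    hs.comp_left (g := fun L : Plane →L[ℝ] ℝ => L (EuclideanSpace.single 0 1)) (by simp)
  have hbs : HasCompactSupport b :=
    hs.comp_left (g := fun L : Plane →L[ℝ] ℝ => L (EuclideanSpace.single 1 1)) (by simp)
  have i1 : Integrable (fun x => a x ^ 2) :=
    Continuous.integrable_of_hasCompactSupport (by fun_prop)
      (has.comp_left (g := fun r : ℝ => r ^ 2) (by simp))
  have i2 : Integrable (fun x => b x ^ 2) :=
    Continuous.integrable_of_hasCompactSupport (by fun_prop)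
      (hbs.comp_left (g := fun r : ℝ => r ^ 2) (by simp))
  have i3 : Integrable (fun x => a x * b x) :=
    Continuous.integrable_of_hasCompactSupport (by fun_prop) has.mul_right
  refine ⟨∫ x, a x ^ 2, ∫ x, a x * b x, ∫ x, b x ^ 2, ?_, ?_⟩
  · intro h
    have h3 : ∀ x, (fderiv ℝ φ x h) ^ 2 =
        h 0 ^ 2 * a x ^ 2 + 2 * (h 0 * h 1) * (a x * b x) + h 1 ^ 2 * b x ^ 2 := by
      intro x
      rw [clm_apply_eq]
      simp only [ha, hb]
      ring
    simp_rw [h3]
    rw [integral_add, integral_add, integral_const_mul, integral_const_mul, integral_const_mul]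
    · ring
    · exact i1.const_mul _
    · exact i3.const_mul _
    · exact (i1.const_mul _).add (i3.const_mul _)
    · exact i2.const_mul _
  · rw [← integral_add i1 i2]
    apply integral_congr_ae
    refine Filter.Eventually.of_forall (fun x => ?_)
    simp only [ha, hb]
    rw [norm_clm_sq]

/-- Real density of `vhk`. -/
theorem vhk_prod {s : ℝ} (hs : 0 < s) (h : Plane) :
    vhk s h = ENNReal.ofReal (ProbabilityTheory.gaussianPDFReal 0 (Real.toNNReal (2 * s)) (h 0) *
      ProbabilityTheory.gaussianPDFReal 0 (Real.toNNReal (2 * s)) (h 1)) := by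
  have hc : ((Real.toNNReal (2 * s) : ℝ≥0) : ℝ) = 2 * s := Real.coe_toNNReal _ (by linarith)
  unfold vhk
  congr 1
  simp only [ProbabilityTheory.gaussianPDFReal]
  rw [hc, EuclideanSpace.norm_sq_eq, Fin.sum_univ_two]
  have h1 : (√(2 * Real.pi * (2 * s)))⁻¹ * (√(2 * Real.pi * (2 * s)))⁻¹ = (4 * Real.pi * s)⁻¹ := by
    rw [← mul_inv, Real.mul_self_sqrt (by positivity)]
    congr 1
    ring
  have h2 : Real.exp (-((‖h 0‖ ^ 2 + ‖h 1‖ ^ 2) / (4 * s))) =
      Real.exp (-(h 0 - 0) ^ 2 / (2 * (2 * s))) * Real.exp (-(h 1 - 0) ^ 2 / (2 * (2 * s))) := by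
    rw [← Real.exp_add]
    congr 1
    rw [Real.norm_eq_abs, Real.norm_eq_abs, sq_abs, sq_abs]
    field_simp
    ring
  rw [h2, ← h1]
  ring

theorem ofReal_int_le {μ : Measure Plane} {f : Plane → ℝ} (hf : Integrable f μ) :
    ENNReal.ofReal (∫ x, f x ∂μ) ≤ ∫⁻ x, ENNReal.ofReal (f x) ∂μ := by
  have h1 : Integrable (fun x => max (f x) 0) μ := hf.pos_part
  have h2 : ∫ x, f x ∂μ ≤ ∫ x, max (f x) 0 ∂μ :=
    integral_mono hf h1 (fun x => le_max_left _ _)
  refine (ENNReal.ofReal_le_ofReal h2).trans ?_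
  rw [ofReal_integral_eq_lintegral_ofReal h1 (Filter.Eventually.of_forall (fun x => le_max_right _ _))]
  apply lintegral_mono
  intro x
  rcases le_total (f x) 0 with h | h
  · simp [max_eq_right h]
  · simp [max_eq_left h]

end VLowAux

open VLowAux in
theorem vT_low {K : Set Plane} {φ : Plane → ℝ} (h1 : ContDiff ℝ 1 φ) (h2 : HasCompactSupport φ)
    (h3 : tsupport φ ⊆ K) (h4 : ∫ x, φ x ^ 2 = 1) {s : ℝ} (hs : 0 < s) :
    ∫⁻ x in K, ‖φ x‖ₑ ^ 2 = 1 ∧
    ENNReal.ofReal (1 - s * ∫ x, ‖fderiv ℝ φ x‖ ^ 2) ≤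
      ∫⁻ x in K, ‖φ x‖ₑ * vT K s (fun z => ‖φ z‖ₑ) x := by
  have hc : Continuous φ := h1.continuous
  have hS : MeasurableSet (tsupport φ) := (isClosed_tsupport φ).measurableSet
  have hz : ∀ x, x ∉ tsupport φ → φ x = 0 := fun x hx => image_eq_zero_of_notMem_tsupport hx
  have e1 : Integrable (fun x => φ x ^ 2) := by
    apply Continuous.integrable_of_hasCompactSupport (by fun_prop)
    exact h2.comp_left (g := fun r : ℝ => r ^ 2) (by simp)
  have hme : Measurable (fun x => ‖φ x‖ₑ) := hc.measurable.enorm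
  have hvm : Measurable (vhk s) := by
    unfold vhk
    fun_prop
  constructor
  · rw [lint_supp hS h3 (fun x hx => by rw [hz x hx]; simp)]
    have : ∀ x, ‖φ x‖ₑ ^ 2 = ENNReal.ofReal (φ x ^ 2) := by
      intro x
      rw [Real.enorm_eq_ofReal_abs, ← ENNReal.ofReal_pow (abs_nonneg _), sq_abs]
    simp_rw [this]
    rw [← ofReal_integral_eq_lintegral_ofReal e1 (Filter.Eventually.of_forall (fun x => sq_nonneg _)),
      h4, ENNReal.ofReal_one]
  · -- rewrite the right side
    have hR : ∫⁻ x in K, ‖φ x‖ₑ * vT K s (fun z => ‖φ z‖ₑ) x =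
        ∫⁻ h, vhk s h * ∫⁻ x, ‖φ x‖ₑ * ‖φ (x - h)‖ₑ := by
      rw [lint_supp hS h3 (fun x hx => by rw [hz x hx]; simp)]
      have a1 : ∀ x, ‖φ x‖ₑ * vT K s (fun z => ‖φ z‖ₑ) x =
          ∫⁻ h, vhk s h * (‖φ x‖ₑ * ‖φ (x - h)‖ₑ) := by
        intro x
        unfold vT
        rw [lint_supp hS h3 (fun z hz' => by simp [hz z hz'])]
        rw [← lintegral_sub_left_eq_self (fun z => vhk s (x - z) * ‖φ z‖ₑ) x]
        rw [← lintegral_const_mul _ (by
          simp only [sub_sub_cancel]
          exact hvm.mul (hme.comp (measurable_const.sub measurable_id)))]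
        apply lintegral_congr
        intro h
        rw [sub_sub_cancel]
        ring
      simp_rw [a1]
      rw [lintegral_lintegral_swap]
      · apply lintegral_congr
        intro h
        rw [lintegral_const_mul]
        exact hme.mul (hme.comp (measurable_id.sub measurable_const))
      · apply Measurable.aemeasurable
        exact (hvm.comp measurable_snd).mul ((hme.comp measurable_fst).mul
          (hme.comp (measurable_fst.sub measurable_snd)))
    rw [hR]
    obtain ⟨A, B, C, hQ, hAC⟩ := quad_int h1 h2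
    -- the correlation
    have hcor : ∀ h : Plane, ENNReal.ofReal (1 - (A * h 0 ^ 2 + 2 * B * (h 0 * h 1) + C * h 1 ^ 2) / 2)
        ≤ ∫⁻ x, ‖φ x‖ₑ * ‖φ (x - h)‖ₑ := by
      intro h
      have e2 : Integrable (fun x => φ (x - h) ^ 2) := e1.comp_sub_right h
      have e3 : Integrable (fun x => φ x * φ (x - h)) := by
        apply Continuous.integrable_of_hasCompactSupport (by fun_prop)
        exact h2.mul_right
      have b1 : ∫ x, (φ x - φ (x - h)) ^ 2 = 2 - 2 * ∫ x, φ x * φ (x - h) := by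
        have b2 : ∀ x, (φ x - φ (x - h)) ^ 2 = φ x ^ 2 + φ (x - h) ^ 2 - 2 * (φ x * φ (x - h)) :=
          fun x => by ring
        simp_rw [b2]
        rw [integral_sub, integral_add e1 e2, integral_const_mul,
          integral_sub_right_eq_self (fun x => φ x ^ 2) h, h4]
        · ring
        · exact e1.add e2
        · exact e3.const_mul 2
      have b3 := shift_int h1 h2 h
      rw [b1, hQ h] at b3
      have b4 : 1 - (A * h 0 ^ 2 + 2 * B * (h 0 * h 1) + C * h 1 ^ 2) / 2 ≤
          ∫ x, φ x * φ (x - h) := by linarith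
      refine (ENNReal.ofReal_le_ofReal b4).trans ?_
      refine (Real.ofReal_le_enorm _).trans ?_
      refine (enorm_integral_le_lintegral_enorm _).trans ?_
      apply lintegral_mono
      intro x
      simp only [enorm_mul]
      exact le_rfl
    obtain ⟨g0, g1, g2, m0, m1, m2⟩ := gauss1 hs
    set γ : ℝ → ℝ := ProbabilityTheory.gaussianPDFReal 0 (Real.toNNReal (2 * s)) with hγ
    have hγ0 : ∀ x, 0 ≤ γ x := fun x => ProbabilityTheory.gaussianPDFReal_nonneg _ _ _
    obtain ⟨p00, q00⟩ := prod2 g0 g0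
    obtain ⟨p20, q20⟩ := prod2 g2 g0
    obtain ⟨p11, q11⟩ := prod2 g1 g1
    obtain ⟨p02, q02⟩ := prod2 g0 g2
    have hfun : ∀ h : Plane, γ (h 0) * γ (h 1) *
        (1 - (A * h 0 ^ 2 + 2 * B * (h 0 * h 1) + C * h 1 ^ 2) / 2) =
        γ (h 0) * γ (h 1) - (A / 2 * (γ (h 0) * h 0 ^ 2 * γ (h 1)) +
          B * (γ (h 0) * h 0 * (γ (h 1) * h 1)) + C / 2 * (γ (h 0) * (γ (h 1) * h 1 ^ 2))) :=
      fun h => by ring
    have hint : Integrable (fun h : Plane => γ (h 0) * γ (h 1) *
        (1 - (A * h 0 ^ 2 + 2 * B * (h 0 * h 1) + C * h 1 ^ 2) / 2)) := by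
      simp_rw [hfun]
      exact p00.sub (((p20.const_mul _).add (p11.const_mul _)).add (p02.const_mul _))
    have hval : ∫ h : Plane, γ (h 0) * γ (h 1) *
        (1 - (A * h 0 ^ 2 + 2 * B * (h 0 * h 1) + C * h 1 ^ 2) / 2) =
        1 - s * ∫ x, ‖fderiv ℝ φ x‖ ^ 2 := by
      simp_rw [hfun]
      rw [integral_sub, integral_add, integral_add, integral_const_mul, integral_const_mul,
        integral_const_mul, q00, q20, q11, q02, m0, m1, m2, ← hAC]
      · ring
      · exact p20.const_mul _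
      · exact p11.const_mul _
      · exact (p20.const_mul _).add (p11.const_mul _)
      · exact p02.const_mul _
      · exact p00
      · exact ((p20.const_mul _).add (p11.const_mul _)).add (p02.const_mul _)
    rw [← hval]
    refine (ofReal_int_le hint).trans ?_
    apply lintegral_mono
    intro h
    show ENNReal.ofReal (γ (h 0) * γ (h 1) *
        (1 - (A * h 0 ^ 2 + 2 * B * (h 0 * h 1) + C * h 1 ^ 2) / 2)) ≤
      vhk s h * ∫⁻ (x : Plane), ‖φ x‖ₑ * ‖φ (x - h)‖ₑ
    rw [vhk_prod hs h, ENNReal.ofReal_mul (mul_nonneg (hγ0 _) (hγ0 _))]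
    exact mul_le_mul' le_rfl (hcor h)

end Pool.Agent.WSB71
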