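import Pool.Agent.WSB71.VUpB

/-!
# V5c: mollification: regularity of `g = η * F`
-/

open MeasureTheory Filter Topology
open scoped NNReal ENNReal Pointwise

namespace Pool.Agent.WSB71

open Pool.Agent.LT

namespace VU12

/-- Taylor for the mollifier. -/
lemma taylor {η : Plane → ℝ} (h1 : ContDiff ℝ 2 η) (h2 : HasCompactSupport η) :
    ∃ M : ℝ, 0 ≤ M ∧ (∀ x h, |η x - η (x - h) - fderiv ℝ η x h| ≤ M * ‖h‖ ^ 2) ∧
      ∀ x z, ‖fderiv ℝ η x - fderiv ℝ η z‖ ≤ M * ‖x - z‖ := by
  have h3 : ContDiff ℝ 1 (fderiv ℝ η) := h1.fderiv_right (by norm_num)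
  obtain ⟨C, hC⟩ := ContDiff.lipschitzWith_of_hasCompactSupport (h2.fderiv ℝ) h3 (by norm_num)
  have hL : ∀ x z, ‖fderiv ℝ η x - fderiv ℝ η z‖ ≤ C * ‖x - z‖ := by
    intro x z
    have := hC.dist_le_mul x z
    rwa [dist_eq_norm, dist_eq_norm] at this
  refine ⟨C, C.2, ?_, hL⟩
  intro x h
  have hd : Differentiable ℝ η := h1.differentiable (by norm_num)
  have key := (convex_segment x (x - h)).norm_image_sub_le_of_norm_hasFDerivWithin_le
    (f := fun z => η z - fderiv ℝ η x z) (f' := fun z => fderiv ℝ η z - fderiv ℝ η x)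
    (C := C * ‖h‖) (fun z _ => ((hd z).hasFDerivAt.sub (fderiv ℝ η x).hasFDerivAt).hasFDerivWithinAt)
    (fun z hz => by
      refine (hL z x).trans (mul_le_mul_of_nonneg_left ?_ C.2)
      have := norm_sub_le_of_mem_segment hz
      have e : x - h - x = -h := by abel
      rw [e, norm_neg] at this
      exact this) (right_mem_segment ℝ _ _) (left_mem_segment ℝ _ _)
  rw [Real.norm_eq_abs, sub_sub_cancel] at key
  have e : η x - fderiv ℝ η x x - (η (x - h) - fderiv ℝ η x (x - h)) =
      η x - η (x - h) - fderiv ℝ η x h := by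
    rw [map_sub]
    ring
  rw [e] at key
  calc _ ≤ _ := key
    _ = _ := by ring

/-- The data of the mollification. -/
structure MD (K : Set Plane) (ρ : ℝ) (F η : Plane → ℝ) (M V : ℝ) : Prop where
  hF : Measurable F
  hF0 : ∀ x, 0 ≤ F x
  hFK : ∀ x, x ∉ K → F x = 0
  hFi : Integrable F
  hFV : ∫ y, F y ≤ V
  hη1 : Continuous η
  hη2 : HasCompactSupport η
  hη0 : ∀ y, 0 ≤ η y
  hηρ : ∀ y, η y ≠ 0 → ‖y‖ ≤ ρ
  hηi : ∫⁻ y, ENNReal.ofReal (η y) = 1
  hd : Differentiable ℝ η
  hM : 0 ≤ M
  hT : ∀ x h, |η x - η (x - h) - fderiv ℝ η x h| ≤ M * ‖h‖ ^ 2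
  hL : ∀ x z, ‖fderiv ℝ η x - fderiv ℝ η z‖ ≤ M * ‖x - z‖
  hc : Continuous (fderiv ℝ η)
  hcs : HasCompactSupport (fderiv ℝ η)

/-- The mollified function. -/
noncomputable def gg (F η : Plane → ℝ) (x : Plane) : ℝ := ∫ y, F y * η (x - y)

/-- Its derivative. -/
noncomputable def gd (F η : Plane → ℝ) (x : Plane) : Plane →L[ℝ] ℝ :=
  ∫ y, F y • fderiv ℝ η (x - y)

variable {K : Set Plane} {ρ : ℝ} {F η : Plane → ℝ} {M V : ℝ}

lemma MD.int1 (h : MD K ρ F η M V) (x : Plane) : Integrable fun y => F y * η (x - y) := by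
  obtain ⟨C, hC⟩ := h.hη2.exists_bound_of_continuous h.hη1
  exact h.hFi.mul_bdd (c := C) (by have := h.hη1; fun_prop) (Eventually.of_forall fun y => hC _)

lemma MD.int2 (h : MD K ρ F η M V) (x : Plane) :
    Integrable fun y => F y • fderiv ℝ η (x - y) := by
  obtain ⟨C, hC⟩ := h.hcs.exists_bound_of_continuous h.hc
  exact h.hFi.smul_bdd C (by have := h.hc; fun_prop) (Eventually.of_forall fun y => hC _)

lemma MD.tay (h : MD K ρ F η M V) (x k : Plane) :
    |gg F η x - gg F η (x - k) - gd F η x k| ≤ M * V * ‖k‖ ^ 2 := by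
  have e1 : gd F η x k = ∫ y, F y * fderiv ℝ η (x - y) k := by
    unfold gd
    rw [ContinuousLinearMap.integral_apply (h.int2 x)]
    rfl
  have i3 : Integrable fun y => F y * fderiv ℝ η (x - y) k := by
    have := (h.int2 x).apply_continuousLinearMap k
    exact this
  have e2 : gg F η x - gg F η (x - k) - gd F η x k =
      ∫ y, F y * (η (x - y) - η (x - y - k) - fderiv ℝ η (x - y) k) := by
    rw [e1]
    unfold gg
    have i1 := h.int1 x
    have i2 := h.int1 (x - k)
    rw [← integral_sub i1 i2,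
      ← integral_sub (f := fun y => F y * η (x - y) - F y * η (x - k - y)) (i1.sub i2) i3]
    refine integral_congr_ae (Eventually.of_forall fun y => ?_)
    simp only
    have e3 : x - k - y = x - y - k := by abel
    rw [e3]
    ring
  rw [e2, ← Real.norm_eq_abs]
  have h1 : ∀ y, ‖F y * (η (x - y) - η (x - y - k) - fderiv ℝ η (x - y) k)‖ ≤
      F y * (M * ‖k‖ ^ 2) := by
    intro y
    rw [norm_mul, Real.norm_of_nonneg (h.hF0 y), Real.norm_eq_abs]
    exact mul_le_mul_of_nonneg_left (h.hT _ _) (h.hF0 y)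
  calc _ ≤ ∫ y, F y * (M * ‖k‖ ^ 2) :=
        norm_integral_le_of_norm_le (h.hFi.mul_const _) (Eventually.of_forall h1)
    _ = (∫ y, F y) * (M * ‖k‖ ^ 2) := integral_mul_const _ _
    _ ≤ V * (M * ‖k‖ ^ 2) := mul_le_mul_of_nonneg_right h.hFV
        (mul_nonneg h.hM (by positivity))
    _ = _ := by ring

lemma MD.hasD (h : MD K ρ F η M V) (x : Plane) : HasFDerivAt (gg F η) (gd F η x) x := by
  rw [hasFDerivAt_iff_isLittleO_nhds_zero]
  have h1 : (fun k : Plane => gg F η (x + k) - gg F η x - gd F η x k) =O[𝓝 0]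
      fun k => ‖k‖ ^ 2 := by
    refine Asymptotics.IsBigO.of_bound (M * V) (Eventually.of_forall fun k => ?_)
    have h2 := h.tay x (-k)
    rw [norm_neg, sub_neg_eq_add, map_neg] at h2
    rw [Real.norm_eq_abs, norm_pow, norm_norm]
    refine le_trans (le_of_eq ?_) h2
    rw [← abs_neg]
    congr 1
    ring
  refine h1.trans_isLittleO ?_
  rw [← Asymptotics.isLittleO_norm_right]
  have h3 : (fun k : Plane => ‖k‖ ^ 2) = fun k => ‖k‖ * ‖k‖ := by
    funext k; ring
  rw [h3]
  refine Asymptotics.IsLittleO.mul_isBigO (f₁ := fun k : Plane => ‖k‖) (g₁ := fun _ => (1 : ℝ))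
    (f₂ := fun k : Plane => ‖k‖) (g₂ := fun k => ‖k‖) ?_ (Asymptotics.isBigO_refl _ _) |>.trans_isBigO ?_
  · rw [Asymptotics.isLittleO_one_iff]
    have : Tendsto (fun k : Plane => ‖k‖) (𝓝 0) (𝓝 ‖(0 : Plane)‖) := continuous_norm.tendsto 0
    rwa [norm_zero] at this
  · simp only [one_mul]
    exact Asymptotics.isBigO_refl _ _

lemma MD.contd (h : MD K ρ F η M V) : Continuous (gd F η) := by
  have h1 : ∀ x z, ‖gd F η x - gd F η z‖ ≤ M * V * ‖x - z‖ := by
    intro x z
    unfold gd
    rw [← integral_sub (h.int2 x) (h.int2 z)]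
    have h1 : ∀ y, ‖F y • fderiv ℝ η (x - y) - F y • fderiv ℝ η (z - y)‖ ≤
        F y * (M * ‖x - z‖) := by
      intro y
      rw [← smul_sub, norm_smul, Real.norm_of_nonneg (h.hF0 y)]
      refine mul_le_mul_of_nonneg_left ?_ (h.hF0 y)
      have := h.hL (x - y) (z - y)
      rwa [sub_sub_sub_cancel_right] at this
    calc _ ≤ ∫ y, F y * (M * ‖x - z‖) :=
          norm_integral_le_of_norm_le (h.hFi.mul_const _) (Eventually.of_forall h1)
      _ = (∫ y, F y) * (M * ‖x - z‖) := integral_mul_const _ _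
      _ ≤ V * (M * ‖x - z‖) := mul_le_mul_of_nonneg_right h.hFV
          (mul_nonneg h.hM (norm_nonneg _))
      _ = _ := by ring
  have h2 : LipschitzWith (M * V).toNNReal (gd F η) := by
    refine LipschitzWith.of_dist_le' fun x z => ?_
    rw [dist_eq_norm, dist_eq_norm]
    exact h1 x z
  exact h2.continuous

lemma MD.contDiff (h : MD K ρ F η M V) : ContDiff ℝ 1 (gg F η) :=
  contDiff_one_iff_hasFDerivAt.2 ⟨gd F η, h.contd, h.hasD⟩

lemma MD.supp (h : MD K ρ F η M V) : Function.support (gg F η) ⊆ Metric.cthickening ρ K := by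
  intro x hx
  have h1 : ∃ y, F y * η (x - y) ≠ 0 := by
    by_contra h2
    push Not at h2
    apply hx
    unfold gg
    simp [h2]
  obtain ⟨y, hy⟩ := h1
  have hy1 : y ∈ K := by
    by_contra h2
    exact hy (by rw [h.hFK y h2, zero_mul])
  have hy2 := h.hηρ (x - y) (right_ne_zero_of_mul hy)
  refine Metric.mem_cthickening_of_dist_le x y ρ K hy1 ?_
  rw [dist_eq_norm]
  exact hy2

lemma MD.tsupp (h : MD K ρ F η M V) : tsupport (gg F η) ⊆ Metric.cthickening ρ K :=
  closure_minimal h.supp Metric.isClosed_cthickening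

/-- The other form. -/
lemma gg_eq (F η : Plane → ℝ) (x : Plane) : gg F η x = ∫ y, η y * F (x - y) := by
  unfold gg
  rw [← integral_sub_left_eq_self (fun y => η y * F (x - y)) volume x]
  refine integral_congr_ae (Eventually.of_forall fun y => ?_)
  simp only
  rw [sub_sub_cancel, mul_comm]

lemma MD.int1' (h : MD K ρ F η M V) (x : Plane) : Integrable fun y => η y * F (x - y) := by
  obtain ⟨C, hC⟩ := h.hη2.exists_bound_of_continuous h.hη1
  exact (h.hFi.comp_sub_left x).bdd_mul (c := C) (by have := h.hη1; fun_prop)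
    (Eventually.of_forall fun y => hC _)

lemma MD.inte (h : MD K ρ F η M V) : Integrable η :=
  h.hη1.integrable_of_hasCompactSupport h.hη2

lemma MD.int_one (h : MD K ρ F η M V) : ∫ y, η y = 1 := by
  have h1 := ofReal_integral_eq_lintegral_ofReal h.inte (Eventually.of_forall h.hη0)
  rw [h.hηi] at h1
  have h2 := congrArg ENNReal.toReal h1
  rw [ENNReal.toReal_ofReal (integral_nonneg h.hη0)] at h2
  simpa using h2

lemma MD.near (h : MD K ρ F η M V) : N2 (fun x => F x - gg F η x) ≤
    ∫⁻ y, ENNReal.ofReal (η y) * DD2 F y := by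
  refine moll h.hη1.measurable h.hη0 h.hηi (P := fun x y => F x - F (x - y)) ?_ ?_
  · have := h.hF
    unfold Function.uncurry
    fun_prop
  · intro x
    rw [gg_eq]
    have e : (fun y => η y * (F x - F (x - y))) = fun y => η y * F x - η y * F (x - y) := by
      funext y; ring
    rw [e, integral_sub (h.inte.mul_const _) (h.int1' x), integral_mul_const, h.int_one, one_mul]

lemma MD.diff (h : MD K ρ F η M V) (k : Plane) :
    N2 (fun x => gg F η x - gg F η (x - k)) ≤ DD2 F k := by
  have h1 := moll h.hη1.measurable h.hη0 h.hηi (P := fun x y => F (x - y) - F (x - y - k))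
    (by have := h.hF; unfold Function.uncurry; fun_prop)
    (G := fun x => gg F η x - gg F η (x - k)) (by
      intro x
      rw [gg_eq, gg_eq, ← integral_sub (h.int1' x) (h.int1' (x - k))]
      refine integral_congr_ae (Eventually.of_forall fun y => ?_)
      simp only
      have e3 : x - k - y = x - y - k := by abel
      rw [e3]
      ring)
  refine h1.trans (le_of_eq ?_)
  have h2 : ∀ y, ∫⁻ x, ENNReal.ofReal ((F (x - y) - F (x - y - k)) ^ 2) = DD2 F k := by
    intro y
    unfold DD2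
    exact lintegral_sub_right_eq_self (fun x => ENNReal.ofReal ((F x - F (x - k)) ^ 2)) y
  simp only [h2]
  have hm : Measurable fun y => ENNReal.ofReal (η y) := by have := h.hη1; fun_prop
  rw [lintegral_mul_const _ hm, h.hηi, one_mul]

end VU12

end Pool.Agent.WSB71
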