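import Pool.Agent.WSB71.VUpA
import Pool.Agent.WSB71.VUpC

/-!
# V5d: the energy inequality
-/

open MeasureTheory Filter Topology
open scoped NNReal ENNReal Pointwise

namespace Pool.Agent.WSB71

open Pool.Agent.LT

namespace VU12

lemma lam_le {U : Set Plane} {g : Plane → ℝ} (h1 : ContDiff ℝ 1 g) (h2 : HasCompactSupport g)
    (h3 : tsupport g ⊆ U) : lam U * ∫ x, g x ^ 2 ≤ ∫ x, ‖fderiv ℝ g x‖ ^ 2 := by
  have hE : 0 ≤ ∫ x, ‖fderiv ℝ g x‖ ^ 2 := integral_nonneg fun x => by positivity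
  have hG : 0 ≤ ∫ x, g x ^ 2 := integral_nonneg fun x => by positivity
  rcases hG.eq_or_lt with h0 | h0
  · rw [← h0, mul_zero]
    exact hE
  obtain ⟨c, hc⟩ : ∃ c, c = (Real.sqrt (∫ x, g x ^ 2))⁻¹ := ⟨_, rfl⟩
  have hc2 : c ^ 2 = (∫ x, g x ^ 2)⁻¹ := by
    rw [hc, inv_pow, Real.sq_sqrt hG]
  have key : lam U ≤ c ^ 2 * ∫ x, ‖fderiv ℝ g x‖ ^ 2 := by
    unfold lam
    refine csInf_le ⟨0, ?_⟩ ⟨fun x => c * g x, ?_, ?_, ?_, ?_, ?_⟩
    · rintro r ⟨f, -, -, -, -, rfl⟩
      exact integral_nonneg fun x => by positivity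
    · exact contDiff_const.mul h1
    · exact h2.mul_left
    · exact (tsupport_mul_subset_right).trans h3
    · simp only [mul_pow]
      rw [integral_const_mul, hc2, inv_mul_cancel₀ h0.ne']
    · rw [← integral_const_mul]
      refine integral_congr_ae (Eventually.of_forall fun x => ?_)
      simp only
      have hd : DifferentiableAt ℝ g x := (h1.differentiable (by norm_num)) x
      rw [fderiv_const_mul hd, norm_smul, mul_pow, Real.norm_eq_abs, sq_abs]
  rw [hc2] at key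
  calc lam U * ∫ x, g x ^ 2 ≤ ((∫ x, g x ^ 2)⁻¹ * ∫ x, ‖fderiv ℝ g x‖ ^ 2) * ∫ x, g x ^ 2 :=
        mul_le_mul_of_nonneg_right key hG
    _ = _ := by field_simp

lemma young {a b r δ : ℝ} (hδ : 0 < δ) (h : |b - a| ≤ r) :
    a ^ 2 ≤ (1 + δ) * b ^ 2 + (1 + 1 / δ) * r ^ 2 := by
  have h1 : (b - a) ^ 2 ≤ r ^ 2 := by
    rw [← sq_abs (b - a)]
    exact pow_le_pow_left₀ (abs_nonneg _) h 2
  have h2 : (1 + 1 / δ) * (b - a) ^ 2 ≤ (1 + 1 / δ) * r ^ 2 :=
    mul_le_mul_of_nonneg_left h1 (by positivity)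
  have h3 : (1 + δ) * b ^ 2 + (1 + 1 / δ) * (b - a) ^ 2 - a ^ 2 = (δ * b + (b - a)) ^ 2 / δ := by
    field_simp
    ring
  have h4 : 0 ≤ (δ * b + (b - a)) ^ 2 / δ := by positivity
  linarith

variable {K : Set Plane} {ρ : ℝ} {F η : Plane → ℝ} {M V : ℝ}

lemma MD.gd_zero (h : MD K ρ F η M V) {x : Plane} (hx : x ∉ Metric.cthickening ρ K) :
    gd F η x = 0 := by
  have h1 : x ∉ tsupport (gg F η) := fun h2 => hx (h.tsupp h2)
  have h2 := (h.hasD x).fderiv
  rw [← h2]
  exact image_eq_zero_of_notMem_tsupport fun h3 => h1 (tsupport_fderiv_subset ℝ h3)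

lemma MD.pointwise (h : MD K ρ F η M V) {δ : ℝ} (hδ : 0 < δ) (k : Plane) :
    ∫⁻ x, ENNReal.ofReal ((gd F η x k) ^ 2) ≤
      ENNReal.ofReal (1 + δ) * DD2 F k +
      ENNReal.ofReal ((1 + 1 / δ) * (M * V) ^ 2) * volume (Metric.cthickening ρ K) *
        ENNReal.ofReal (‖k‖ ^ 4) := by
  have hm : MeasurableSet (Metric.cthickening ρ K) := Metric.isClosed_cthickening.measurableSet
  have hgm : Measurable (gg F η) := h.contDiff.continuous.measurable
  have h1 : ∀ x, ENNReal.ofReal ((gd F η x k) ^ 2) ≤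
      ENNReal.ofReal (1 + δ) * ENNReal.ofReal ((gg F η x - gg F η (x - k)) ^ 2) +
      (Metric.cthickening ρ K).indicator (fun _ =>
        ENNReal.ofReal ((1 + 1 / δ) * (M * V) ^ 2) * ENNReal.ofReal (‖k‖ ^ 4)) x := by
    intro x
    by_cases hx : x ∈ Metric.cthickening ρ K
    · rw [Set.indicator_of_mem hx, ← ENNReal.ofReal_mul (by positivity),
        ← ENNReal.ofReal_mul (by positivity), ← ENNReal.ofReal_add (by positivity) (by positivity)]
      refine ENNReal.ofReal_le_ofReal ((young hδ (h.tay x k)).trans (le_of_eq ?_))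
      ring
    · rw [h.gd_zero hx]
      simp
  refine (lintegral_mono h1).trans ?_
  rw [lintegral_add_left (by fun_prop), lintegral_const_mul _ (by fun_prop),
    lintegral_indicator_const hm]
  refine add_le_add (mul_le_mul_right (h.diff k) _) (le_of_eq ?_)
  ring

lemma MD.energy (h : MD K ρ F η M V) (hK : IsCompact K) (hN : N2 F = 1) {δ : ℝ} (hδ : 0 < δ)
    {C : ℝ} (hC : 0 ≤ C) {s : ℝ} (hs : 0 < s)
    (h4 : ∫⁻ h, vhk s h * ENNReal.ofReal (‖h‖ ^ 4) ≤ ENNReal.ofReal (C * s ^ 2)) :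
    QQ F s ≤ 1 ∧ 2 * s * ∫ x, ‖fderiv ℝ (gg F η) x‖ ^ 2 ≤
      (1 + δ) * (2 - 2 * (QQ F s).toReal) + (1 + 1 / δ) * (M * V) ^ 2 *
        (volume (Metric.cthickening ρ K)).toReal * (C * s ^ 2) := by
  have hv := measurable_vhk s
  have hQ := QQ_DD2 h.hF h.hF0 hs
  rw [hN, mul_one] at hQ
  have hQ1 : QQ F s ≤ 1 := by
    have h5 : 2 * QQ F s ≤ 2 * 1 := by
      rw [mul_one]
      calc 2 * QQ F s ≤ 2 * QQ F s + ∫⁻ h, vhk s h * DD2 F h := le_self_add
        _ = 2 := hQ
    exact (ENNReal.mul_le_mul_iff_right (by norm_num) (by norm_num)).1 h5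
  have hQt : QQ F s ≠ ⊤ := ne_top_of_le_ne_top ENNReal.one_ne_top hQ1
  have hIt : ∫⁻ h, vhk s h * DD2 F h ≠ ⊤ := by
    refine ne_top_of_le_ne_top (b := 2) (by norm_num) ?_
    calc ∫⁻ h, vhk s h * DD2 F h ≤ 2 * QQ F s + ∫⁻ h, vhk s h * DD2 F h := le_add_self
      _ = 2 := hQ
  have hI : (∫⁻ h, vhk s h * DD2 F h).toReal = 2 - 2 * (QQ F s).toReal := by
    have h6 := congrArg ENNReal.toReal hQ
    rw [ENNReal.toReal_add (ENNReal.mul_ne_top (by norm_num) hQt) hIt, ENNReal.toReal_mul] at h6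
    simp only [ENNReal.toReal_ofNat] at h6
    linarith
  refine ⟨hQ1, ?_⟩
  have hfd : ∀ x, fderiv ℝ (gg F η) x = gd F η x := fun x => (h.hasD x).fderiv
  simp only [hfd]
  have hKc : IsCompact (Metric.cthickening ρ K) := hK.cthickening
  have hgc : HasCompactSupport (gd F η) := by
    refine HasCompactSupport.intro hKc fun x hx => h.gd_zero hx
  have hvol : volume (Metric.cthickening ρ K) ≠ ⊤ := hKc.measure_lt_top.ne
  have hcont := h.contd
  -- the left side
  have hL : ENNReal.ofReal (2 * s * ∫ x, ‖gd F η x‖ ^ 2) =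
      ∫⁻ k, vhk s k * ∫⁻ x, ENNReal.ofReal ((gd F η x k) ^ 2) := by
    have e1 : ∫⁻ k, vhk s k * ∫⁻ x, ENNReal.ofReal ((gd F η x k) ^ 2) =
        ∫⁻ k, ∫⁻ x, vhk s k * ENNReal.ofReal ((gd F η x k) ^ 2) := by
      refine lintegral_congr fun k => ?_
      rw [lintegral_const_mul _ (by fun_prop)]
    have hc2 : Continuous fun p : Plane × Plane => gd F η p.2 p.1 :=
      (hcont.comp continuous_snd).clm_apply continuous_fst
    have hmm : Measurable (Function.uncurry fun (k x : Plane) =>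
        vhk s k * ENNReal.ofReal ((gd F η x k) ^ 2)) := by
      have e2 : Measurable fun p : Plane × Plane => vhk s p.1 := hv.comp measurable_fst
      exact e2.mul (ENNReal.measurable_ofReal.comp (hc2.measurable.pow_const 2))
    rw [e1, lintegral_lintegral_swap hmm.aemeasurable]
    have e3 : ∀ x, ∫⁻ k, vhk s k * ENNReal.ofReal ((gd F η x k) ^ 2) =
        ENNReal.ofReal (2 * s * ‖gd F η x‖ ^ 2) := fun x => M2 hs _
    rw [lintegral_congr e3, ← integral_const_mul]
    refine ofReal_integral_eq_lintegral_ofReal ?_ (Eventually.of_forall fun x => by positivity)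
    refine Integrable.const_mul ?_ _
    refine Continuous.integrable_of_hasCompactSupport (by fun_prop) ?_
    exact hgc.comp_left (g := fun v : Plane →L[ℝ] ℝ => ‖v‖ ^ 2) (by simp)
  have hR : ENNReal.ofReal (2 * s * ∫ x, ‖gd F η x‖ ^ 2) ≤
      ENNReal.ofReal (1 + δ) * (∫⁻ k, vhk s k * DD2 F k) +
      ENNReal.ofReal ((1 + 1 / δ) * (M * V) ^ 2) * volume (Metric.cthickening ρ K) *
        ENNReal.ofReal (C * s ^ 2) := by
    rw [hL]
    have hdm := measurable_DD2 h.hF
    have e4 : ∀ k, vhk s k * ∫⁻ x, ENNReal.ofReal ((gd F η x k) ^ 2) ≤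
        ENNReal.ofReal (1 + δ) * (vhk s k * DD2 F k) +
        ENNReal.ofReal ((1 + 1 / δ) * (M * V) ^ 2) * volume (Metric.cthickening ρ K) *
          (vhk s k * ENNReal.ofReal (‖k‖ ^ 4)) := by
      intro k
      refine (mul_le_mul_right (h.pointwise hδ k) _).trans (le_of_eq ?_)
      ring
    refine (lintegral_mono e4).trans ?_
    rw [lintegral_add_left (by fun_prop), lintegral_const_mul _ (by fun_prop),
      lintegral_const_mul _ (by fun_prop)]
    gcongr
  have hfin : ENNReal.ofReal (1 + δ) * (∫⁻ k, vhk s k * DD2 F k) +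
      ENNReal.ofReal ((1 + 1 / δ) * (M * V) ^ 2) * volume (Metric.cthickening ρ K) *
        ENNReal.ofReal (C * s ^ 2) ≠ ⊤ :=
    ENNReal.add_ne_top.2 ⟨ENNReal.mul_ne_top ENNReal.ofReal_ne_top hIt,
      ENNReal.mul_ne_top (ENNReal.mul_ne_top ENNReal.ofReal_ne_top hvol) ENNReal.ofReal_ne_top⟩
  have hT := ENNReal.toReal_mono hfin hR
  rw [ENNReal.toReal_ofReal (mul_nonneg (by positivity)
      (integral_nonneg fun x => by positivity)),
    ENNReal.toReal_add (ENNReal.mul_ne_top ENNReal.ofReal_ne_top hIt)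
      (ENNReal.mul_ne_top (ENNReal.mul_ne_top ENNReal.ofReal_ne_top hvol) ENNReal.ofReal_ne_top),
    ENNReal.toReal_mul, ENNReal.toReal_mul, ENNReal.toReal_mul, hI,
    ENNReal.toReal_ofReal (by positivity), ENNReal.toReal_ofReal (by positivity),
    ENNReal.toReal_ofReal (by positivity)] at hT
  exact hT

/-- The norm of the mollified function. -/
lemma MD.norm (h : MD K ρ F η M V) (hK : IsCompact K) (hN : N2 F = 1) {δ : ℝ} (hδ : 0 < δ)
    {r : ℝ} (hr : 0 < r) {C₀ : ℝ} (hC₀ : 0 ≤ C₀)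
    (hη : ∀ y, ENNReal.ofReal (η y) ≤ ENNReal.ofReal C₀ * vhk r y) :
    1 ≤ (1 + δ) * (∫ x, gg F η x ^ 2) + (1 + 1 / δ) * (C₀ * (2 - 2 * (QQ F r).toReal)) := by
  have hv := measurable_vhk r
  have hQ := QQ_DD2 h.hF h.hF0 hr
  rw [hN, mul_one] at hQ
  have hQt : QQ F r ≠ ⊤ := by
    intro h5
    rw [h5] at hQ
    simp at hQ
  have hIt : ∫⁻ h, vhk r h * DD2 F h ≠ ⊤ := by
    refine ne_top_of_le_ne_top (b := 2) (by norm_num) ?_
    calc ∫⁻ h, vhk r h * DD2 F h ≤ 2 * QQ F r + ∫⁻ h, vhk r h * DD2 F h := le_add_self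
      _ = 2 := hQ
  have hI : (∫⁻ h, vhk r h * DD2 F h).toReal = 2 - 2 * (QQ F r).toReal := by
    have h6 := congrArg ENNReal.toReal hQ
    rw [ENNReal.toReal_add (ENNReal.mul_ne_top (by norm_num) hQt) hIt, ENNReal.toReal_mul] at h6
    simp only [ENNReal.toReal_ofNat] at h6
    linarith
  have hKc : IsCompact (Metric.cthickening ρ K) := hK.cthickening
  have hgc : HasCompactSupport (gg F η) := by
    refine HasCompactSupport.intro hKc fun x hx => ?_
    by_contra h5
    exact hx (h.supp h5)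
  have hcont : Continuous (gg F η) := h.contDiff.continuous
  have hG : ENNReal.ofReal (∫ x, gg F η x ^ 2) = N2 (gg F η) := by
    refine ofReal_integral_eq_lintegral_ofReal ?_ (Eventually.of_forall fun x => by positivity)
    refine Continuous.integrable_of_hasCompactSupport (by fun_prop) ?_
    exact hgc.comp_left (g := fun v : ℝ => v ^ 2) (by simp)
  have hFm := h.hF
  have h1 : N2 F ≤ ENNReal.ofReal (1 + δ) * N2 (gg F η) +
      ENNReal.ofReal (1 + 1 / δ) * N2 (fun x => F x - gg F η x) := by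
    unfold N2
    rw [← lintegral_const_mul _ (by fun_prop), ← lintegral_const_mul _ (by fun_prop),
      ← lintegral_add_left (by fun_prop)]
    refine lintegral_mono fun x => ?_
    rw [← ENNReal.ofReal_mul (by positivity), ← ENNReal.ofReal_mul (by positivity),
      ← ENNReal.ofReal_add (by positivity) (by positivity)]
    refine ENNReal.ofReal_le_ofReal ?_
    have := young (a := F x) (b := gg F η x) hδ (le_refl |gg F η x - F x|)
    rw [sq_abs] at this
    refine this.trans (le_of_eq ?_)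
    ring
  have h2 : N2 (fun x => F x - gg F η x) ≤ ENNReal.ofReal C₀ * ∫⁻ h, vhk r h * DD2 F h := by
    refine h.near.trans ?_
    have hdm := measurable_DD2 h.hF
    rw [← lintegral_const_mul _ (by fun_prop)]
    refine lintegral_mono fun y => ?_
    rw [← mul_assoc]
    exact mul_le_mul_left (hη y) _
  rw [hN, ← hG] at h1
  have h3 := h1.trans (add_le_add le_rfl (mul_le_mul_right h2 _))
  have hfin2 : ENNReal.ofReal (1 + 1 / δ) * (ENNReal.ofReal C₀ * ∫⁻ h, vhk r h * DD2 F h) ≠ ⊤ :=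
    ENNReal.mul_ne_top ENNReal.ofReal_ne_top (ENNReal.mul_ne_top ENNReal.ofReal_ne_top hIt)
  have hfin1 : ENNReal.ofReal (1 + δ) * ENNReal.ofReal (∫ x, gg F η x ^ 2) ≠ ⊤ :=
    ENNReal.mul_ne_top ENNReal.ofReal_ne_top ENNReal.ofReal_ne_top
  have hT := ENNReal.toReal_mono (ENNReal.add_ne_top.2 ⟨hfin1, hfin2⟩) h3
  rw [ENNReal.toReal_add hfin1 hfin2, ENNReal.toReal_mul, ENNReal.toReal_mul, ENNReal.toReal_mul,
    ENNReal.toReal_ofReal (by positivity),
    ENNReal.toReal_ofReal (integral_nonneg fun x => by positivity),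
    ENNReal.toReal_ofReal (by positivity), ENNReal.toReal_ofReal hC₀, hI,
    ENNReal.toReal_one] at hT
  exact hT

end VU12

end Pool.Agent.WSB71
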