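import Pool.Agent.WSB71.VLam
import Pool.Agent.WSB71.VUpD

/-!
# V5: upper bound of the quadratic form of `vT` by the eigenvalue

Let `f ≥ 0` be supported in `K`, `∫ f² = 1`, `Q_s = ∫∫ f G_s f`, `λ = lam U`, `D(h) = ‖f - f(·-h)‖²`, so
`2 (1 - Q_s) = ∫ G_s(h) D(h) dh`.  If `1 - Q_s ≥ s λ` we are done.  So let `1 - Q_s < s λ`.
 (i) `Q_s^n ≤ Q_{ns}` (`vT_pow_ge`, `vT_iter_le`), so `1 - Q_r ≤ r λ` for `r = n s ∈ [ρ², 2 ρ²]`.
 (ii) `g = η * f`, `η` a normalised bump with support in the ball of radius `ρ`, and `η ≤ 64 G_r`; Jensen: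
   `‖f - g‖² ≤ ∫ η D ≤ 64 ∫ G_r D = 128 (1 - Q_r) ≤ 256 ρ² λ`: so `‖g‖² ≥ 1 - small`.
 (iii) `‖g - g(·-h)‖² ≤ D(h)`, and `|g(x) - g(x-h) - ∇g(x) h| ≤ M |h|²` with `M` depending on `η` and `K` only, so
   `2 s ‖∇g‖² = ∫ G_s(h) ‖∇g h‖² ≤ (1 + δ) 2 (1 - Q_s) + C s²`.
 (iv) `λ ‖g‖² ≤ ‖∇g‖²`.
-/

open MeasureTheory Filter Topology
open scoped NNReal ENNReal Pointwise

namespace Pool.Agent.WSB71

open Pool.Agent.LT

namespace VU12

lemma final_real {l ε δ τ B s a G E : ℝ} (hε : 0 < ε) (hl : 0 ≤ l) (hδ : 0 < δ) (hδ1 : δ ≤ 1)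
    (h1 : 6 * (δ * l) ≤ ε) (h2 : 4 * (l * τ) ≤ ε) (h3 : 4 * ((1 + δ) * B * s) ≤ ε) (hs : 0 < s)
    (ha : 0 ≤ a) (hG : 1 ≤ (1 + δ) * G + τ) (hE : l * G ≤ E)
    (hS : 2 * s * E ≤ (1 + δ) * (2 * a) + 2 * B * s ^ 2) : s * (l - ε) ≤ a := by
  by_cases hle : l ≤ ε
  · have : s * (l - ε) ≤ 0 := mul_nonpos_of_nonneg_of_nonpos hs.le (by linarith)
    linarith
  push Not at hle
  have e1 : s * (l * (1 - τ)) ≤ (1 + δ) * (s * E) := by
    have h4 : l * (1 - τ) ≤ (1 + δ) * (l * G) := by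
      have := mul_le_mul_of_nonneg_left (show 1 - τ ≤ (1 + δ) * G by linarith) hl
      linarith
    have h5 : (1 + δ) * (l * G) ≤ (1 + δ) * E := mul_le_mul_of_nonneg_left hE (by linarith)
    have h6 := mul_le_mul_of_nonneg_left (h4.trans h5) hs.le
    linarith
  have e2 : (1 + δ) * (s * E) ≤ (1 + δ) * ((1 + δ) * a + B * s ^ 2) :=
    mul_le_mul_of_nonneg_left (by linarith) (by linarith)
  have e3 : (1 + δ) * B * s ^ 2 ≤ s * (ε / 4) := by
    have := mul_le_mul_of_nonneg_left h3 hs.le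
    nlinarith
  have e4 : s * (l * (1 - τ)) ≥ s * (l - ε / 4) := by
    refine mul_le_mul_of_nonneg_left ?_ hs.le
    linarith
  have e5 : s * (l - ε / 2) ≤ (1 + δ) ^ 2 * a := by nlinarith
  have e6 : (1 + δ) ^ 2 * (l - ε) ≤ l - ε / 2 := by
    have h7 : (1 + δ) ^ 2 ≤ 1 + 3 * δ := by nlinarith
    have h8 := mul_le_mul_of_nonneg_right h7 (show 0 ≤ l - ε by linarith)
    have h9 : 0 ≤ δ * ε := by positivity
    nlinarith
  have e7 : (1 + δ) ^ 2 * (s * (l - ε)) ≤ (1 + δ) ^ 2 * a := by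
    have := mul_le_mul_of_nonneg_left e6 hs.le
    linarith
  exact le_of_mul_le_mul_left e7 (by positivity)

section F

variable {K : Set Plane} {F : Plane → ℝ}

lemma ofReal_zero_of (hFK : ∀ x, x ∉ K → F x = 0) :
    K.indicator (fun x => ENNReal.ofReal (F x)) = fun x => ENNReal.ofReal (F x) := by
  funext x
  by_cases hx : x ∈ K
  · rw [Set.indicator_of_mem hx]
  · rw [Set.indicator_of_notMem hx, hFK x hx, ENNReal.ofReal_zero]

lemma set_eq (hK : MeasurableSet K) (hFK : ∀ x, x ∉ K → F x = 0) (w : Plane → ℝ≥0∞) :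
    ∫⁻ x in K, w x * ENNReal.ofReal (F x) = ∫⁻ x, w x * ENNReal.ofReal (F x) := by
  rw [← lintegral_indicator hK]
  refine lintegral_congr fun x => ?_
  by_cases hx : x ∈ K
  · rw [Set.indicator_of_mem hx]
  · rw [Set.indicator_of_notMem hx, hFK x hx, ENNReal.ofReal_zero, mul_zero]

lemma QQ_set (hK : MeasurableSet K) (hFK : ∀ x, x ∉ K → F x = 0) (t : ℝ) :
    ∫⁻ x in K, ENNReal.ofReal (F x) * ∫⁻ z in K, vhk t (x - z) * ENNReal.ofReal (F z) =
      QQ F t := by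
  unfold QQ
  simp only [set_eq hK hFK (fun z => vhk t (_ - z))]
  simp only [mul_comm (ENNReal.ofReal (F _))]
  exact set_eq hK hFK _

lemma QQ_pow (hK : MeasurableSet K) (hF : Measurable F) (hF0 : ∀ x, 0 ≤ F x)
    (hFK : ∀ x, x ∉ K → F x = 0)
    (hN : N2 F = 1) {s : ℝ} (hs : 0 < s) {n : ℕ} (hn : 1 ≤ n) : QQ F s ^ n ≤ QQ F (n * s) := by
  have h1 : ∫⁻ x in K, ENNReal.ofReal (F x) ^ 2 = 1 := by
    rw [← hN]
    unfold N2
    have := set_eq hK hFK (fun x => ENNReal.ofReal (F x))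
    simp only [← _root_.sq] at this
    rw [this]
    refine lintegral_congr fun x => ?_
    rw [← ENNReal.ofReal_pow (hF0 x)]
  have h2 := vT_pow_ge K hs (f := fun x => ENNReal.ofReal (F x)) (by fun_prop) h1 n
  have h3 : ∫⁻ x in K, ENNReal.ofReal (F x) * vT K s (fun x => ENNReal.ofReal (F x)) x =
      QQ F s := QQ_set hK hFK s
  rw [h3] at h2
  refine h2.trans ?_
  rw [← QQ_set hK hFK (n * s)]
  refine lintegral_mono fun x => mul_le_mul_right ?_ _
  exact vT_iter_le K hs hn (by fun_prop) x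

lemma int_F (hK : IsCompact K) (hF : Measurable F) (hF0 : ∀ x, 0 ≤ F x)
    (hFK : ∀ x, x ∉ K → F x = 0) (hN : N2 F = 1) :
    Integrable F ∧ ∫ y, F y ≤ Real.sqrt (volume K).toReal := by
  have h1 : (∫⁻ x, ENNReal.ofReal (F x)) ^ 2 ≤ volume K := by
    have h2 := cs (volume.restrict K) (a := fun x => ENNReal.ofReal (F x)) (b := fun _ => 1)
      (by fun_prop) (by fun_prop)
    simp only [mul_one, one_pow] at h2
    have h3 := set_eq hK.measurableSet hFK (fun _ => 1)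
    simp only [one_mul] at h3
    rw [h3] at h2
    refine h2.trans ?_
    rw [lintegral_const, one_mul, Measure.restrict_apply_univ]
    refine mul_le_of_le_one_left bot_le ?_
    rw [← hN]
    unfold N2
    refine (setLIntegral_le_lintegral _ _).trans (le_of_eq ?_)
    refine lintegral_congr fun x => ?_
    rw [← ENNReal.ofReal_pow (hF0 x)]
  have hv : volume K ≠ ⊤ := hK.measure_lt_top.ne
  have h4 : ∫⁻ x, ENNReal.ofReal (F x) ≠ ⊤ := by
    intro h5
    rw [h5] at h1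
    exact hv (top_le_iff.1 (by simpa using h1))
  have hi : Integrable F := by
    refine ⟨hF.aestronglyMeasurable, ?_⟩
    rw [hasFiniteIntegral_iff_ofReal (Eventually.of_forall hF0)]
    exact lt_top_iff_ne_top.2 h4
  refine ⟨hi, ?_⟩
  have h6 := ofReal_integral_eq_lintegral_ofReal hi (Eventually.of_forall hF0)
  refine Real.le_sqrt_of_sq_le ?_
  have h7 := ENNReal.toReal_mono hv h1
  rw [← h6, ENNReal.toReal_pow, ENNReal.toReal_ofReal (integral_nonneg hF0)] at h7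
  exact h7

end F

lemma bump_le {ρ : ℝ} (hρ : 0 < ρ) (φ : ContDiffBump (0 : Plane)) (h1 : φ.rIn = ρ / 2)
    (h2 : φ.rOut = ρ) {r : ℝ} (hr1 : ρ ^ 2 ≤ r) (hr2 : r ≤ 2 * ρ ^ 2) (y : Plane) :
    ENNReal.ofReal (φ.normed volume y) ≤ ENNReal.ofReal 64 * vhk r y := by
  have hr : 0 < r := lt_of_lt_of_le (by positivity) hr1
  by_cases hy : φ.normed volume y = 0
  · rw [hy, ENNReal.ofReal_zero]
    exact bot_le
  have hy1 : y ∈ Metric.ball (0 : Plane) φ.rOut := by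
    rw [← φ.support_normed_eq (μ := volume)]
    exact hy
  rw [h2, mem_ball_zero_iff] at hy1
  unfold vhk
  rw [← ENNReal.ofReal_mul (by norm_num)]
  refine ENNReal.ofReal_le_ofReal ?_
  have h3 := φ.normed_le_div_measure_closedBall_rOut (μ := volume) 2 (by rw [h1, h2]; linarith) y
  have h4 : (volume : Measure Plane).real (Metric.closedBall 0 φ.rOut) = Real.pi * ρ ^ 2 := by
    rw [h2, Measure.real, EuclideanSpace.volume_closedBall_fin_two,
      ENNReal.toReal_mul, ENNReal.toReal_pow, ENNReal.toReal_ofReal hρ.le, mul_comm]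
    congr 1
    simp [Real.pi_pos.le]
  have h5 : Module.finrank ℝ Plane = 2 := by simp
  rw [h4, h5] at h3
  have hpi := Real.pi_pos
  have h6 : (1 : ℝ) / 2 ≤ Real.exp (-(‖y‖ ^ 2 / (4 * r))) := by
    have h7 : ‖y‖ ^ 2 / (4 * r) ≤ 1 / 2 := by
      rw [div_le_iff₀ (by positivity)]
      have : ‖y‖ ^ 2 ≤ ρ ^ 2 := pow_le_pow_left₀ (norm_nonneg _) hy1.le 2
      linarith
    have h8 := Real.add_one_le_exp (-(‖y‖ ^ 2 / (4 * r)))
    linarith
  have h9 : (8 * Real.pi * ρ ^ 2)⁻¹ ≤ (4 * Real.pi * r)⁻¹ := by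
    refine inv_anti₀ (by positivity) ?_
    nlinarith
  calc φ.normed volume y ≤ 2 ^ 2 / (Real.pi * ρ ^ 2) := h3
    _ = 64 * ((8 * Real.pi * ρ ^ 2)⁻¹ * (1 / 2)) := by
        field_simp
        norm_num
    _ ≤ 64 * ((4 * Real.pi * r)⁻¹ * Real.exp (-(‖y‖ ^ 2 / (4 * r)))) := by
        refine mul_le_mul_of_nonneg_left ?_ (by norm_num)
        exact mul_le_mul h9 h6 (by norm_num) (by positivity)

theorem core {K U : Set Plane} (hK : IsCompact K) (hU : IsOpen U) (hKU : K ⊆ U) {ε : ℝ}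
    (hε : 0 < ε) : ∃ s₀ : ℝ, 0 < s₀ ∧ ∀ s : ℝ, 0 < s → s ≤ s₀ → ∀ F : Plane → ℝ,
      Measurable F → (∀ x, 0 ≤ F x) → (∀ x, x ∉ K → F x = 0) → N2 F = 1 →
      QQ F s ≤ ENNReal.ofReal (Real.exp (-(s * (lam U - ε)))) := by
  obtain ⟨l, hl⟩ : ∃ l, l = lam U := ⟨_, rfl⟩
  have hl0 : 0 ≤ l := by rw [hl]; exact lam_nonneg U
  -- δ
  obtain ⟨δ, hδ, hδ1, hδ2⟩ : ∃ δ : ℝ, 0 < δ ∧ δ ≤ 1 ∧ 6 * (δ * l) ≤ ε := by
    refine ⟨min 1 (ε / (6 * (l + 1))), lt_min one_pos (by positivity), min_le_left _ _, ?_⟩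
    have h1 : min 1 (ε / (6 * (l + 1))) * l ≤ ε / (6 * (l + 1)) * l :=
      mul_le_mul_of_nonneg_right (min_le_right _ _) hl0
    have h2 : ε / (6 * (l + 1)) * l ≤ ε / 6 := by
      rw [div_mul_eq_mul_div, div_le_div_iff₀ (by positivity) (by norm_num)]
      nlinarith
    linarith
  -- ρ
  obtain ⟨ρ₁, hρ₁, hρ₂⟩ := hK.exists_cthickening_subset_open hU hKU
  obtain ⟨c, hc⟩ : ∃ c, c = (1 + 1 / δ) * (64 * (2 * (2 * l))) := ⟨_, rfl⟩
  have hc0 : 0 ≤ c := by rw [hc]; positivity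
  obtain ⟨ρ, hρ, hρ1, hρ3⟩ : ∃ ρ : ℝ, 0 < ρ ∧ ρ ≤ ρ₁ ∧ 4 * (l * (c * ρ ^ 2)) ≤ ε := by
    refine ⟨min ρ₁ (min 1 (ε / (4 * (l * c) + 1))), by positivity, min_le_left _ _, ?_⟩
    set ρ := min ρ₁ (min 1 (ε / (4 * (l * c) + 1))) with hρdef
    have h1 : ρ ≤ 1 := (min_le_right _ _).trans (min_le_left _ _)
    have h2 : ρ ≤ ε / (4 * (l * c) + 1) := (min_le_right _ _).trans (min_le_right _ _)
    have h0 : 0 < ρ := by positivity
    have h3 : ρ ^ 2 ≤ ε / (4 * (l * c) + 1) := by nlinarith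
    have h4 : 4 * (l * c) * ρ ^ 2 ≤ 4 * (l * c) * (ε / (4 * (l * c) + 1)) :=
      mul_le_mul_of_nonneg_left h3 (by positivity)
    have h5 : 4 * (l * c) * (ε / (4 * (l * c) + 1)) ≤ ε := by
      rw [mul_div_assoc', div_le_iff₀ (by positivity)]
      nlinarith
    calc 4 * (l * (c * ρ ^ 2)) = 4 * (l * c) * ρ ^ 2 := by ring
      _ ≤ ε := h4.trans h5
  -- η
  obtain ⟨φ, hφ1, hφ2⟩ : ∃ φ : ContDiffBump (0 : Plane), φ.rIn = ρ / 2 ∧ φ.rOut = ρ :=
    ⟨⟨ρ / 2, ρ, by positivity, by linarith⟩, rfl, rfl⟩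
  obtain ⟨η, hη⟩ : ∃ η : Plane → ℝ, η = φ.normed volume := ⟨_, rfl⟩
  have hηs : ContDiff ℝ 2 η := by rw [hη]; exact φ.contDiff_normed
  have hηc : HasCompactSupport η := by rw [hη]; exact φ.hasCompactSupport_normed
  obtain ⟨M, hM, hT, hL⟩ := taylor hηs hηc
  obtain ⟨C, hC, hC4⟩ := M4
  obtain ⟨V, hV⟩ : ∃ V, V = Real.sqrt (volume K).toReal := ⟨_, rfl⟩
  obtain ⟨B, hB⟩ : ∃ B, B = (1 + 1 / δ) * (M * V) ^ 2 *
    (volume (Metric.cthickening ρ K)).toReal * C / 2 := ⟨_, rfl⟩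
  have hB0 : 0 ≤ B := by
    rw [hB]
    have := ENNReal.toReal_nonneg (a := volume (Metric.cthickening ρ K))
    positivity
  refine ⟨min (ρ ^ 2) (ε / (4 * ((1 + δ) * B) + 1)), lt_min (by positivity) (by positivity), ?_⟩
  intro s hs hs0 F hF hF0 hFK hN
  have hs1 : s ≤ ρ ^ 2 := hs0.trans (min_le_left _ _)
  have hs2 : 4 * ((1 + δ) * B * s) ≤ ε := by
    have h1 : s ≤ ε / (4 * ((1 + δ) * B) + 1) := hs0.trans (min_le_right _ _)
    have h2 : 4 * ((1 + δ) * B) * s ≤ 4 * ((1 + δ) * B) * (ε / (4 * ((1 + δ) * B) + 1)) :=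
      mul_le_mul_of_nonneg_left h1 (by positivity)
    have h3 : 4 * ((1 + δ) * B) * (ε / (4 * ((1 + δ) * B) + 1)) ≤ ε := by
      rw [mul_div_assoc', div_le_iff₀ (by positivity)]
      nlinarith
    linarith
  obtain ⟨hi, hiV⟩ := int_F hK hF hF0 hFK hN
  have hD : MD K ρ F η M V := by
    refine ⟨hF, hF0, hFK, hi, by rw [hV]; exact hiV, hηs.continuous, hηc, ?_, ?_, ?_,
      hηs.differentiable (by norm_num), hM, hT, hL, hηs.continuous_fderiv (by norm_num),
      hηc.fderiv ℝ⟩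
    · rw [hη]; exact φ.nonneg_normed
    · intro y hy
      rw [hη] at hy
      have hy1 : y ∈ Metric.ball (0 : Plane) φ.rOut := by
        rw [← φ.support_normed_eq (μ := volume)]
        exact hy
      rw [hφ2, mem_ball_zero_iff] at hy1
      exact hy1.le
    · rw [← ofReal_integral_eq_lintegral_ofReal (hηs.continuous.integrable_of_hasCompactSupport hηc)
        (Eventually.of_forall fun y => by rw [hη]; exact φ.nonneg_normed y), hη,
        φ.integral_normed, ENNReal.ofReal_one]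
  obtain ⟨hQ1, hen⟩ := hD.energy hK hN hδ hC hs (hC4 s hs)
  have hQt : QQ F s ≠ ⊤ := ne_top_of_le_ne_top ENNReal.one_ne_top hQ1
  obtain ⟨a, ha⟩ : ∃ a, a = 1 - (QQ F s).toReal := ⟨_, rfl⟩
  have hq1 : (QQ F s).toReal ≤ 1 := by
    have := ENNReal.toReal_mono ENNReal.one_ne_top hQ1
    simpa using this
  have ha0 : 0 ≤ a := by rw [ha]; linarith
  have hq0 : 0 ≤ (QQ F s).toReal := ENNReal.toReal_nonneg
  -- the main claim
  have claim : s * (l - ε) ≤ a := by
    by_cases hcase : s * l ≤ a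
    · have : s * (l - ε) ≤ s * l := mul_le_mul_of_nonneg_left (by linarith) hs.le
      linarith
    push Not at hcase
    obtain ⟨n, hn⟩ : ∃ n : ℕ, n = ⌈ρ ^ 2 / s⌉₊ := ⟨_, rfl⟩
    have hn1 : ρ ^ 2 ≤ n * s := by
      have h1 := Nat.le_ceil (ρ ^ 2 / s)
      rw [← hn, div_le_iff₀ hs] at h1
      exact h1
    have hn2 : n * s ≤ 2 * ρ ^ 2 := by
      have h1 := Nat.ceil_lt_add_one (show 0 ≤ ρ ^ 2 / s by positivity)
      rw [← hn] at h1
      have h2 : (n : ℝ) * s ≤ (ρ ^ 2 / s + 1) * s := mul_le_mul_of_nonneg_right h1.le hs.le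
      have h3 : (ρ ^ 2 / s + 1) * s = ρ ^ 2 + s := by field_simp
      linarith
    have hn0 : 1 ≤ n := by
      rw [hn, Nat.one_le_ceil_iff]
      positivity
    have hr : 0 < n * s := lt_of_lt_of_le (by positivity) hn1
    have hnorm := hD.norm hK hN hδ hr (C₀ := 64) (by norm_num) (fun y => by
      rw [hη]
      exact bump_le hρ φ hφ1 hφ2 hn1 hn2 y)
    have hpow := QQ_pow hK.measurableSet hF hF0 hFK hN hs hn0
    obtain ⟨hQr1, -⟩ := hD.energy hK hN hδ hC hr (hC4 _ hr)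
    have hQrt : QQ F (n * s) ≠ ⊤ := ne_top_of_le_ne_top ENNReal.one_ne_top hQr1
    have hpow' : (QQ F s).toReal ^ n ≤ (QQ F (n * s)).toReal := by
      have := ENNReal.toReal_mono hQrt hpow
      rwa [ENNReal.toReal_pow] at this
    have hbern : 1 - n * a ≤ (QQ F s).toReal ^ n := by
      have h1 := one_add_mul_le_pow (a := -a) (by linarith) n
      have h2 : 1 + -a = (QQ F s).toReal := by rw [ha]; ring
      rw [h2] at h1
      linarith
    have hr2 : 1 - (QQ F (n * s)).toReal ≤ 2 * ρ ^ 2 * l := by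
      have h1 : n * a ≤ n * (s * l) := mul_le_mul_of_nonneg_left hcase.le (Nat.cast_nonneg _)
      have h2 : (n * s) * l ≤ (2 * ρ ^ 2) * l := mul_le_mul_of_nonneg_right hn2 hl0
      linarith
    refine final_real (τ := c * ρ ^ 2) (B := B) (G := ∫ x, gg F η x ^ 2)
      (E := ∫ x, ‖fderiv ℝ (gg F η) x‖ ^ 2) hε hl0 hδ hδ1 hδ2 hρ3 hs2 hs ha0 ?_ ?_ ?_
    · refine hnorm.trans ?_
      have h1 : (1 + 1 / δ) * (64 * (2 - 2 * (QQ F (n * s)).toReal)) ≤ c * ρ ^ 2 := by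
        rw [hc]
        have h2 : (1 + 1 / δ) * (64 * (2 - 2 * (QQ F (n * s)).toReal)) ≤
            (1 + 1 / δ) * (64 * (2 * (2 * ρ ^ 2 * l))) := by
          refine mul_le_mul_of_nonneg_left ?_ (by positivity)
          linarith
        refine h2.trans (le_of_eq ?_)
        ring
      linarith
    · rw [hl]
      have hcomp : IsCompact (Metric.cthickening ρ K) := hK.cthickening
      refine lam_le hD.contDiff ?_ ?_
      · refine HasCompactSupport.intro hcomp fun x hx => ?_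
        by_contra h5
        exact hx (hD.supp h5)
      · exact hD.tsupp.trans ((Metric.cthickening_mono hρ1 K).trans hρ₂)
    · refine hen.trans (le_of_eq ?_)
      rw [hB, ha]
      ring
  rw [← ENNReal.ofReal_toReal hQt]
  refine ENNReal.ofReal_le_ofReal ?_
  have h1 := Real.add_one_le_exp (-(s * (l - ε)))
  rw [hl] at h1 claim
  linarith

end VU12

open VU12

theorem vT_up {K U : Set Plane} (hK : IsCompact K) (hU : IsOpen U) (hKU : K ⊆ U) {ε : ℝ}
    (hε : 0 < ε) : ∃ s₀ : ℝ, 0 < s₀ ∧ ∀ s : ℝ, 0 < s → s ≤ s₀ → ∀ f : Plane → ℝ≥0∞,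
      Measurable f → ∫⁻ x in K, f x * vT K s f x ≤
        ENNReal.ofReal (Real.exp (-(s * (lam U - ε)))) * ∫⁻ x in K, f x ^ 2 := by
  obtain ⟨s₀, hs₀, hcore⟩ := core hK hU hKU hε
  refine ⟨s₀, hs₀, fun s hs hss f hf => ?_⟩
  have hKm := hK.measurableSet
  have hv := measurable_vhk s
  -- normalised functions
  have hnorm : ∀ f : Plane → ℝ≥0∞, Measurable f → ∫⁻ x in K, f x ^ 2 = 1 →
      ∫⁻ x in K, f x * vT K s f x ≤ ENNReal.ofReal (Real.exp (-(s * (lam U - ε)))) := by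
    intro f hf h1
    have hfin : ∀ᵐ x ∂(volume.restrict K), f x < ⊤ := by
      have h2 := ae_lt_top (μ := volume.restrict K) (hf.pow_const 2) (by rw [h1]; norm_num)
      filter_upwards [h2] with x hx
      by_contra h3
      rw [not_lt, top_le_iff] at h3
      rw [h3] at hx
      simp at hx
    obtain ⟨F, hFdef⟩ : ∃ F : Plane → ℝ, F = K.indicator (fun x => (f x).toReal) := ⟨_, rfl⟩
    have hFm : Measurable F := by rw [hFdef]; exact (hf.ennreal_toReal).indicator hKm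
    have hF0 : ∀ x, 0 ≤ F x := by
      intro x
      rw [hFdef]
      exact Set.indicator_nonneg (fun _ _ => ENNReal.toReal_nonneg) x
    have hFK : ∀ x, x ∉ K → F x = 0 := by
      intro x hx
      rw [hFdef, Set.indicator_of_notMem hx]
    have hFf : ∀ᵐ x ∂(volume.restrict K), ENNReal.ofReal (F x) = f x := by
      filter_upwards [hfin, ae_restrict_mem hKm] with x hx hxK
      rw [hFdef, Set.indicator_of_mem hxK, ENNReal.ofReal_toReal hx.ne]
    have hN : N2 F = 1 := by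
      rw [← h1]
      unfold N2
      have h2 := set_eq hKm hFK (fun x => ENNReal.ofReal (F x))
      have h3 : ∀ x, ENNReal.ofReal (F x ^ 2) = ENNReal.ofReal (F x) * ENNReal.ofReal (F x) := by
        intro x
        rw [← ENNReal.ofReal_mul (hF0 x), _root_.sq]
      rw [lintegral_congr h3, ← h2]
      refine lintegral_congr_ae ?_
      filter_upwards [hFf] with x hx
      rw [hx, _root_.sq]
    refine le_trans (le_of_eq ?_) (hcore s hs hss F hFm hF0 hFK hN)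
    rw [← QQ_set hKm hFK s]
    refine lintegral_congr_ae ?_
    filter_upwards [hFf] with x hx
    rw [hx]
    congr 1
    unfold vT
    refine lintegral_congr_ae ?_
    filter_upwards [hFf] with z hz
    rw [hz]
  obtain ⟨I, hI⟩ : ∃ I, I = ∫⁻ x in K, f x ^ 2 := ⟨_, rfl⟩
  rw [← hI]
  by_cases hI0 : I = 0
  · have h1 : ∀ᵐ x ∂(volume.restrict K), f x = 0 := by
      rw [hI0] at hI
      have h2 := (lintegral_eq_zero_iff (hf.pow_const 2)).1 hI.symm
      filter_upwards [h2] with x hx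
      simpa using hx
    have h2 : ∫⁻ x in K, f x * vT K s f x = 0 := by
      have h3 : ∫⁻ x in K, f x * vT K s f x = ∫⁻ x in K, 0 := by
        refine lintegral_congr_ae ?_
        filter_upwards [h1] with x hx
        rw [hx, zero_mul]
      rw [h3, lintegral_zero]
    rw [h2]
    exact bot_le
  by_cases hIt : I = ⊤
  · rw [hIt, ENNReal.mul_top (by
      rw [Ne, ENNReal.ofReal_eq_zero, not_le]
      exact Real.exp_pos _)]
    exact le_top
  obtain ⟨c, hc⟩ : ∃ c : ℝ≥0∞, c = (I ^ (1 / (2 : ℝ)))⁻¹ := ⟨_, rfl⟩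
  have hc2 : c ^ 2 * I = 1 := by
    have h2 : (I ^ (1 / (2 : ℝ))) ^ 2 = I := by
      rw [← ENNReal.rpow_natCast, ← ENNReal.rpow_mul]
      norm_num
    rw [hc, ← ENNReal.inv_pow, h2, ENNReal.inv_mul_cancel hI0 hIt]
  have h1 := hnorm (fun x => c * f x) (by fun_prop) (by
    simp only [mul_pow]
    rw [lintegral_const_mul _ (by fun_prop), ← hI, hc2])
  have h2 : ∫⁻ x in K, (c * f x) * vT K s (fun x => c * f x) x =
      c ^ 2 * ∫⁻ x in K, f x * vT K s f x := by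
    have hm := measurable_vT K s hf
    rw [← lintegral_const_mul _ (by fun_prop)]
    refine lintegral_congr fun x => ?_
    have h3 : vT K s (fun x => c * f x) x = c * vT K s f x := by
      unfold vT
      rw [← lintegral_const_mul _ (by fun_prop)]
      refine lintegral_congr fun z => ?_
      ring
    rw [h3]
    ring
  rw [h2] at h1
  calc ∫⁻ x in K, f x * vT K s f x = (c ^ 2 * I) * ∫⁻ x in K, f x * vT K s f x := by
        rw [hc2, one_mul]
    _ = (c ^ 2 * ∫⁻ x in K, f x * vT K s f x) * I := by ring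
    _ ≤ _ := mul_le_mul_left h1 _

end Pool.Agent.WSB71
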