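import Pool.Agent.WSB71.VCaps
import Pool.Agent.WSB71.VGain
import Pool.Agent.WSB71.VLow
import Pool.Agent.WSB71.VUp

/-!
# V8: strict convexity of the eigenvalue

`λ₀, λ₁, λ_h` the eigenvalues of the interiors of `K₀, K₁, Kh = ½ (K₀ + K₁)`.
Fix `τ = 1`, `Λ = λ₀ + 1`; `cs', δ` from `vcaps_list`, `cs = (univ, 0) :: (cs' ++ [(univ, 0)])`, `k = cs.length`; `c, r₀` from `vcore_mass`; `r` small also for
`vcore_open` (all caps); `J, κ` from `vcore_low`.  For `n' ≥ 1` let `n = J n'`, `s = τ/n`; all constants below do not depend on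
`n'`.
For `ε ≤ 1` and `φ`, `ψ` from `exists_near` for `λ₀, λ₁` (with `ε`), `f = ‖φ‖ₑ`: `vT_low`, `vT_pow_ge`:
`⟨f, W f⟩ ≥ (1 - s(λ₀+ε))^{(k+1)n} + γ ⟨f, A f⟩`, `γ = exp (δ²/(8 k τ)) - 1`.  As the first and last cap are `univ`,
`⟨f, A f⟩ = ⟨T^n f, vA (tail) f⟩` (`vT_adj_iter`); write `vA = (..)` applied to `T^n f` at the end: so
`⟨f, A f⟩ ≥ ⟨g, B g⟩`, `g = T^n f`, and `B g ≥ const ∫_{core} g` on the core (as `vA_low`), `∫_{core} g ≥ c`: `⟨f, A f⟩ ≥ c₂ > 0`.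
`gain_iter` with `j = 2^i`, `vW_low`, `vT_pow_ge` for `ψ`, and `vT_pow_le` with `κ = exp (-s (lam U - ε))`, `U ⊇ Kh` open, from `vT_up`: take
`2^i`-th roots, `i → ∞`:
`((1 - s(λ₀+ε))^{(k+1)n} + γ c₂) (1 - s(λ₁+ε))^{(k+1)n} ≤ exp (-2 (k+1) τ (lam U - ε))`.
Then `n' → ∞`: `(e^{-(k+1)τ(λ₀+ε)} + γ c₂) e^{-(k+1)τ(λ₁+ε)} ≤ e^{-2(k+1)τ(lam U - ε)}`; then `ε → 0`; then
`U = z + (1+η) interior (Kh - z)`, `z ∈ interior Kh`, `η → 0`: `lam U = (1+η)^{-2} λ_h`.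
So `e^{-(k+1)τ(λ₀+λ₁)} < e^{-2(k+1)τ λ_h}`. -/

open MeasureTheory Filter Topology
open scoped NNReal ENNReal Pointwise

namespace Pool.Agent.WSB71

open Pool.Agent.LT

/-- Upper bound of all path sums (`ε → 0`, `U` shrinking to the interior), from `vT_up`, `vT_pow_le`, `lam_smul`. -/
theorem vT_upper {K : Set Plane} (hK : CC K) (hKi : (interior K).Nonempty) {ε : ℝ} (hε : 0 < ε) :
    ∃ s₀ : ℝ, 0 < s₀ ∧ ∀ s : ℝ, 0 < s → s ≤ s₀ → ∀ (n : ℕ) (f : Plane → ℝ≥0∞), Measurable f →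
      ∫⁻ x in K, f x * (vT K s)^[n] f x ≤
        ENNReal.ofReal (Real.exp (-(n * s * (lam (interior K) - ε)))) * ∫⁻ x in K, f x ^ 2 := by
  obtain ⟨z, hz⟩ := hKi
  set L := lam (interior K) with hL
  obtain ⟨t, ht1, ht⟩ : ∃ t : ℝ, 1 < t ∧ L - ε / 2 ≤ (t ^ 2)⁻¹ * L := by
    have hc : Tendsto (fun t : ℝ => (t ^ 2)⁻¹ * L) (𝓝[>] 1) (𝓝 L) := by
      have h0 : ContinuousAt (fun t : ℝ => (t ^ 2)⁻¹ * L) 1 := by
        fun_prop (disch := norm_num)
      have h2 := h0.tendsto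
      simp only [one_pow, inv_one, one_mul] at h2
      exact h2.mono_left nhdsWithin_le_nhds
    have h1 := hc.eventually (lt_mem_nhds (show L - ε / 2 < L by linarith))
    obtain ⟨t, h, h'⟩ := (h1.and self_mem_nhdsWithin).exists
    exact ⟨t, h', h.le⟩
  have ht0 : 0 < t := by linarith
  set U := interior (AffineMap.homothety z t '' K) with hUdef
  have hKU : K ⊆ U := hK.2.2.subset_interior_image_homothety_of_one_lt hz t ht1
  have hU : IsOpen U := isOpen_interior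
  have hUeq : U = (fun p => (1 - t) • z + p) '' (t • interior K) := by
    rw [hUdef, ← interior_smul₀ ht0.ne']
    have e1 : (AffineMap.homothety z t '' K) = (fun p => (1 - t) • z + p) '' (t • K) := by
      rw [← Set.image_smul, Set.image_image]
      apply Set.image_congr
      intro p _
      simp only [AffineMap.homothety_apply, vsub_eq_sub, vadd_eq_add, smul_sub, sub_smul, one_smul]
      abel
    rw [e1]
    exact ((Homeomorph.addLeft ((1 - t) • z)).image_interior _).symm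
  have hlam : lam U = (t ^ 2)⁻¹ * L := by
    rw [hUeq, lam_trans, lam_smul _ ht0]
  obtain ⟨s₀, hs₀, H⟩ := vT_up hK.2.1 hU hKU (half_pos hε)
  refine ⟨s₀, hs₀, fun s hs hss n f hf => ?_⟩
  have hKv : volume K ≠ ⊤ := hK.2.1.measure_lt_top.ne
  have hκ : ENNReal.ofReal (Real.exp (-(s * (L - ε)))) ≠ 0 := by
    simp [Real.exp_pos]
  have h2 := vT_pow_le hKv hs hκ (fun g hg => ?_) n hf
  · refine h2.trans_eq ?_
    rw [← ENNReal.ofReal_pow (Real.exp_pos _).le, ← Real.exp_nat_mul]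
    congr 4
    ring
  · refine (H s hs hss g hg).trans ?_
    have : L - ε ≤ lam U - ε / 2 := by rw [hlam]; linarith
    gcongr

theorem vA_append_univ (K : Set Plane) (s : ℝ) (n : ℕ) (cs : List (Set Plane))
    (f : Plane → ℝ≥0∞) :
    vA K s n (cs ++ [Set.univ]) f = vA K s n cs ((vT K s)^[n] f) := by
  induction cs with
  | nil => simp [vA]
  | cons c cs ih => simp only [List.cons_append, vA, ih]

/-- Lower bound of `⟨f, A f⟩` for almost minimisers, uniform. `K'` is `K` or `K` without a ball. -/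
theorem vA_gain {K : Set Plane} (hK : CC K) {τ Λ : ℝ} (hτ : 0 < τ) (hΛ : 0 < Λ) (k : ℕ) {v : ℝ}
    (hv : 0 < v) {r₁ : ℝ} (hr₁ : 0 < r₁) : ∃ c : ℝ, 0 < c ∧ ∃ J : ℕ, 1 ≤ J ∧ ∃ n₀ : ℕ, ∀ n : ℕ, n₀ ≤ n →
      ∀ cs : List (Set Plane), cs.length ≤ k → (∀ a ∈ cs, MeasurableSet a) →
      (∀ a ∈ cs, ∀ r : ℝ, 0 < r → r ≤ r₁ → ENNReal.ofReal v ≤ volume (vcore K r ∩ a)) →
      ∀ K' ⊆ K, MeasurableSet K' → ∀ f : Plane → ℝ≥0∞, Measurable f → (∀ x, x ∉ K' → f x = 0) →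
        ∫⁻ x in K', f x ^ 2 = 1 →
        ENNReal.ofReal (1 - τ / ((J * n : ℕ) : ℝ) * Λ) ≤
          ∫⁻ x in K', f x * vT K' (τ / ((J * n : ℕ) : ℝ)) f x →
        ENNReal.ofReal c ≤ ∫⁻ x in K, f x *
          vA K (τ / ((J * n : ℕ) : ℝ)) (J * n) (Set.univ :: (cs ++ [Set.univ])) f x := by
  obtain ⟨c₁, r₀, hc₁, hr₀, Hm⟩ := vcore_mass hK hτ hΛ
  set r := min r₀ r₁ with hr
  have hr0 : 0 < r := lt_min hr₀ hr₁
  obtain ⟨J, hJ, κ, hκ, Hκ⟩ := vcore_low hK hr0 hτ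
  set κ' := min κ 1 with hκ'
  set v' := min v 1 with hv'
  have hκ'0 : 0 < κ' := lt_min hκ one_pos
  have hv'0 : 0 < v' := lt_min hv one_pos
  refine ⟨c₁ * (κ' ^ (k + 1) * v' ^ k * c₁), by positivity, J, hJ, max 1 ⌈2 * τ * Λ⌉₊, ?_⟩
  intro n hn cs hlen hcm hcs K' hK' hK'm f hf hf0 hf1 hlow
  have hn1 : 1 ≤ n := le_trans (le_max_left _ _) hn
  have hn2 : 2 * τ * Λ ≤ n := by
    have : ⌈2 * τ * Λ⌉₊ ≤ n := le_trans (le_max_right _ _) hn
    exact (Nat.le_ceil _).trans (by exact_mod_cast this)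
  have hJn1 : 1 ≤ J * n := Nat.one_le_iff_ne_zero.2 (by positivity)
  have hJn2 : 2 * τ * Λ ≤ ((J * n : ℕ) : ℝ) := by
    refine hn2.trans ?_
    exact_mod_cast Nat.le_mul_of_pos_left n hJ
  set s := τ / ((J * n : ℕ) : ℝ) with hs
  have hmass := Hm r hr0 (min_le_left _ _) (J * n) hJn1 hJn2 K' hK' hK'm f hf hf1 hlow
  set g := (vT K s)^[J * n] f with hg
  have hgm : Measurable g := measurable_vT_iter K s _ hf
  have hcore_m : MeasurableSet (vcore K r) := measurableSet_vcore hK r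
  have hmass' : ENNReal.ofReal c₁ ≤ ∫⁻ x in vcore K r, g x := by
    refine hmass.trans (lintegral_mono fun x => ?_)
    exact vT_iter_mono hK' s _ (fun _ => le_rfl) x
  have hVA := vA_low (K := K) (r := r) (s := s) (n := J * n) hr0.le hcore_m
    (κ := ENNReal.ofReal κ) (v := ENNReal.ofReal v) (fun f hf x hx => Hκ n hn1 f hf x hx)
    hcm (fun a ha => hcs a ha r hr0 (min_le_right _ _)) hgm
  have hconst : ENNReal.ofReal (κ' ^ (k + 1) * v' ^ k * c₁) ≤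
      ENNReal.ofReal κ ^ (cs.length + 1) * ENNReal.ofReal v ^ cs.length *
        ∫⁻ z in vcore K r, g z := by
    rw [ENNReal.ofReal_mul (by positivity), ENNReal.ofReal_mul (by positivity),
      ENNReal.ofReal_pow hκ'0.le, ENNReal.ofReal_pow hv'0.le]
    refine mul_le_mul' (mul_le_mul' ?_ ?_) hmass'
    · calc ENNReal.ofReal κ' ^ (k + 1) ≤ ENNReal.ofReal κ' ^ (cs.length + 1) := by
            apply pow_le_pow_right_of_le_one' _ (by omega)
            rw [← ENNReal.ofReal_one]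
            exact ENNReal.ofReal_le_ofReal (min_le_right _ _)
        _ ≤ _ := by
            gcongr
            exact min_le_left _ _
    · calc ENNReal.ofReal v' ^ k ≤ ENNReal.ofReal v' ^ cs.length := by
            apply pow_le_pow_right_of_le_one' _ (by omega)
            rw [← ENNReal.ofReal_one]
            exact ENNReal.ofReal_le_ofReal (min_le_right _ _)
        _ ≤ _ := by
            gcongr
            exact min_le_left _ _
  have e1 : vA K s (J * n) (Set.univ :: (cs ++ [Set.univ])) f =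
      (vT K s)^[J * n] (vA K s (J * n) cs g) := by
    simp only [vA, Set.indicator_univ, vA_append_univ]
    rfl
  rw [e1, vT_adj_iter K s _ hf (measurable_vA K s _ hcm hgm)]
  calc ENNReal.ofReal (c₁ * (κ' ^ (k + 1) * v' ^ k * c₁))
      = ENNReal.ofReal c₁ * ENNReal.ofReal (κ' ^ (k + 1) * v' ^ k * c₁) :=
        ENNReal.ofReal_mul hc₁.le
    _ ≤ (∫⁻ x in vcore K r, g x) * ENNReal.ofReal (κ' ^ (k + 1) * v' ^ k * c₁) := by gcongr
    _ = ∫⁻ x in vcore K r, g x * ENNReal.ofReal (κ' ^ (k + 1) * v' ^ k * c₁) := by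
        rw [lintegral_mul_const _ hgm]
    _ ≤ ∫⁻ x in vcore K r, g x * vA K s (J * n) cs g x := by
        apply setLIntegral_mono' hcore_m
        intro x hx
        gcongr
        exact hconst.trans (hVA x hx)
    _ ≤ ∫⁻ x in K, g x * vA K s (J * n) cs g x :=
        lintegral_mono_set (vcore_subset hr0.le)

theorem le_of_two_pow_le {a b C : ℝ≥0∞} (hC : C ≠ ⊤) (hb : b ≠ ⊤)
    (h : ∀ i : ℕ, a ^ (2 ^ i) ≤ C * b ^ (2 ^ i)) : a ≤ b := by
  have h0 : a ≤ C * b := by simpa using h 0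
  have ha : a ≠ ⊤ := ne_top_of_le_ne_top (ENNReal.mul_ne_top hC hb) h0
  rw [← ENNReal.toReal_le_toReal ha hb]
  by_contra hlt
  push Not at hlt
  have hR : ∀ i : ℕ, a.toReal ^ (2 ^ i) ≤ C.toReal * b.toReal ^ (2 ^ i) := by
    intro i
    have := ENNReal.toReal_mono (ENNReal.mul_ne_top hC (ENNReal.pow_ne_top hb)) (h i)
    simpa [ENNReal.toReal_mul, ENNReal.toReal_pow] using this
  rcases (ENNReal.toReal_nonneg (a := b)).eq_or_lt with hb0 | hb0
  · have := hR 0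
    rw [← hb0] at this hlt
    simp at this
    linarith
  · have hq : 1 < a.toReal / b.toReal := by rwa [one_lt_div hb0]
    have ht : Tendsto (fun i : ℕ => (a.toReal / b.toReal) ^ (2 ^ i)) atTop atTop :=
      (tendsto_pow_atTop_atTop_of_one_lt hq).comp
        (tendsto_pow_atTop_atTop_of_one_lt (by norm_num : (1 : ℕ) < 2))
    obtain ⟨i, hi⟩ := (ht.eventually_gt_atTop C.toReal).exists
    rw [div_pow, lt_div_iff₀ (by positivity)] at hi
    exact absurd (hR i) (not_le.2 hi)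

/-- Growth of the chain from the quadratic form. -/
theorem vT_growth {K : Set Plane} (hKm : MeasurableSet K) {s : ℝ}
    {f : Plane → ℝ≥0∞} (hf : Measurable f) (h1 : ∫⁻ x in K, f x ^ 2 = 1) {M : ℝ≥0∞}
    (hMt : M ≠ ⊤) (hM : ∀ x, f x ≤ M) (m i : ℕ) :
    (∫⁻ x in K, f x * (vT K s)^[m] f x) ^ (2 ^ i) ≤
      M ^ 2 * ∫⁻ x in K, (vT K s)^[2 ^ i * m] (fun _ => 1) x := by
  have key := vW_low hKm (s := s) (n := m) (cs := []) (by simp) (by simp) (γ := 0) hf h1 hMt hM i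
  have e1 : ∀ g : Plane → ℝ≥0∞, vW K s m [] 0 g = (vT K s)^[m] g := by
    intro g
    funext x
    simp [vW]
  have e2 : ∀ (j : ℕ) (g : Plane → ℝ≥0∞), (vW K s m [] 0)^[j] g = (vT K s)^[j * m] g := by
    intro j
    induction j with
    | zero => intro g; simp
    | succ j ih =>
      intro g
      rw [Function.iterate_succ_apply, ih, e1, ← Function.iterate_add_apply]
      congr 1
      ring
  simpa only [e1, e2] using key

theorem testfun {K : Set Plane} {ε : ℝ} (hKi : (interior K).Nonempty) (hε : 0 < ε) :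
    ∃ (f : Plane → ℝ≥0∞) (M : ℝ≥0∞), Measurable f ∧ M ≠ ⊤ ∧ (∀ x, f x ≤ M) ∧
      (∀ x, x ∉ K → f x = 0) ∧ ∫⁻ x in K, f x ^ 2 = 1 ∧ ∀ s : ℝ, 0 < s →
        ENNReal.ofReal (1 - s * (lam (interior K) + ε)) ≤ ∫⁻ x in K, f x * vT K s f x := by
  obtain ⟨φ, h1, h2, h3, h4, h5⟩ := exists_near isOpen_interior hKi hε
  have h3' : tsupport φ ⊆ K := h3.trans interior_subset
  obtain ⟨C, hC⟩ := h1.continuous.bounded_above_of_compact_support h2
  refine ⟨fun x => ‖φ x‖ₑ, ENNReal.ofReal C, h1.continuous.measurable.enorm, ENNReal.ofReal_ne_top, ?_, ?_,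
    (vT_low h1 h2 h3' h4 one_pos).1, ?_⟩
  · intro x
    show ‖φ x‖ₑ ≤ ENNReal.ofReal C
    rw [← ofReal_norm]
    exact ENNReal.ofReal_le_ofReal (hC x)
  · intro x hx
    have : φ x = 0 := by
      by_contra h
      exact hx (h3' (subset_tsupport _ h))
    simp [this]
  · intro s hs
    refine le_trans (ENNReal.ofReal_le_ofReal ?_) (vT_low h1 h2 h3' h4 hs).2
    gcongr

theorem caps_core {K : Set Plane} (L : List (Set Plane))
    (hL : ∀ a ∈ L, IsOpen a ∧ (interior K ∩ a).Nonempty) :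
    ∃ r₁ v : ℝ, 0 < r₁ ∧ 0 < v ∧ ∀ a ∈ L, ∀ r : ℝ, 0 < r → r ≤ r₁ →
      ENNReal.ofReal v ≤ volume (vcore K r ∩ a) := by
  induction L with
  | nil => exact ⟨1, 1, one_pos, one_pos, by simp⟩
  | cons b L ih =>
    obtain ⟨r, v, hr, hv, H⟩ := ih (fun a ha => hL a (List.mem_cons_of_mem _ ha))
    obtain ⟨r', v', hr', hv', H'⟩ := vcore_open (hL b List.mem_cons_self).1
      (hL b List.mem_cons_self).2
    refine ⟨min r r', min v v', lt_min hr hr', lt_min hv hv', ?_⟩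
    intro a ha t ht htr
    rcases List.mem_cons.1 ha with rfl | ha
    · exact (ENNReal.ofReal_le_ofReal (min_le_right _ _)).trans
        (H' t ht (htr.trans (min_le_right _ _)))
    · exact (ENNReal.ofReal_le_ofReal (min_le_left _ _)).trans
        (H a ha t ht (htr.trans (min_le_left _ _)))

/-- The inequality for one mesh. -/
theorem half_mesh {K₀ K₁ Kh : Set Plane} (h0 : CC K₀) (h1 : CC K₁) (hh : CC Kh)
    (hih : (interior Kh).Nonempty)
    (hmid : ∀ x ∈ K₀, ∀ y ∈ K₁, (1 / 2 : ℝ) • (x + y) ∈ Kh)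
    {cs : List (Set Plane × (Plane → ℝ))} {δ : ℝ} (hδ : 0 < δ) (hne : cs ≠ [])
    (hrev : (cs.map Prod.fst).reverse = cs.map Prod.fst)
    (hcm : ∀ q ∈ cs, MeasurableSet q.1)
    (hlip : ∀ q ∈ cs, ∀ w w', q.2 w ≤ q.2 w' + ‖w - w'‖)
    (hd : ∀ q ∈ cs, ∀ x ∈ q.1, x ∈ K₀ → ∀ y ∈ K₁, q.2 (x - y) ≤ 0)
    (hall : ∀ w, ∃ q ∈ cs, δ ≤ q.2 w) {ε : ℝ} (hε : 0 < ε) {a₀ a₁ c : ℝ} (hc : 0 ≤ c)
    {f g : Plane → ℝ≥0∞} {M₀ M₁ : ℝ≥0∞} (hf : Measurable f) (hg : Measurable g)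
    (hM₀ : M₀ ≠ ⊤) (hM₁ : M₁ ≠ ⊤) (hfM : ∀ x, f x ≤ M₀) (hgM : ∀ x, g x ≤ M₁)
    (hf1 : ∫⁻ x in K₀, f x ^ 2 = 1) (hg1 : ∫⁻ x in K₁, g x ^ 2 = 1)
    (hfa : ∀ s : ℝ, 0 < s → ENNReal.ofReal (1 - s * a₀) ≤ ∫⁻ x in K₀, f x * vT K₀ s f x)
    (hga : ∀ s : ℝ, 0 < s → ENNReal.ofReal (1 - s * a₁) ≤ ∫⁻ x in K₁, g x * vT K₁ s g x)
    {J n₀ : ℕ} (hJ : 1 ≤ J)
    (hA : ∀ n : ℕ, n₀ ≤ n → ENNReal.ofReal c ≤ ∫⁻ x in K₀, f x *
      vA K₀ (1 / ((J * n : ℕ) : ℝ)) (J * n) (cs.map Prod.fst) f x) :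
    ∀ᶠ n : ℕ in atTop,
      ((1 - 1 / ((J * n : ℕ) : ℝ) * a₀) ^ ((cs.length + 1) * (J * n)) +
        (Real.exp (δ ^ 2 / (8 * cs.length)) - 1) * c) *
        (1 - 1 / ((J * n : ℕ) : ℝ) * a₁) ^ ((cs.length + 1) * (J * n)) ≤
      Real.exp (-(2 * (cs.length + 1) * (lam (interior Kh) - ε))) := by
  obtain ⟨s₀, hs₀, Hup⟩ := vT_upper hh hih hε
  have hJn : Tendsto (fun n : ℕ => ((J * n : ℕ) : ℝ)) atTop atTop :=
    tendsto_natCast_atTop_atTop.comp (tendsto_id.const_mul_atTop' hJ)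
  have hs0 : Tendsto (fun n : ℕ => 1 / ((J * n : ℕ) : ℝ)) atTop (𝓝 0) := by
    simp_rw [one_div]
    exact hJn.inv_tendsto_atTop
  have ev1 : ∀ᶠ n : ℕ in atTop, 1 / ((J * n : ℕ) : ℝ) < s₀ := hs0.eventually (gt_mem_nhds hs₀)
  have ev2 : ∀ᶠ n : ℕ in atTop, 0 < 1 - 1 / ((J * n : ℕ) : ℝ) * a₀ := by
    have : Tendsto (fun n : ℕ => 1 - 1 / ((J * n : ℕ) : ℝ) * a₀) atTop (𝓝 (1 - 0 * a₀)) :=
      tendsto_const_nhds.sub (hs0.mul_const a₀)
    exact this.eventually (lt_mem_nhds (by norm_num))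
  have ev3 : ∀ᶠ n : ℕ in atTop, 0 < 1 - 1 / ((J * n : ℕ) : ℝ) * a₁ := by
    have : Tendsto (fun n : ℕ => 1 - 1 / ((J * n : ℕ) : ℝ) * a₁) atTop (𝓝 (1 - 0 * a₁)) :=
      tendsto_const_nhds.sub (hs0.mul_const a₁)
    exact this.eventually (lt_mem_nhds (by norm_num))
  filter_upwards [ev1, ev2, ev3, eventually_ge_atTop n₀, eventually_ge_atTop 1] with n e1 e2 e3 e4 e5
  set N := J * n with hN
  set s := 1 / (N : ℝ) with hs
  set k := cs.length with hk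
  have hN1 : 1 ≤ N := Nat.one_le_iff_ne_zero.2 (by positivity)
  have hNR : (0 : ℝ) < N := by exact_mod_cast hN1
  have hspos : 0 < s := by positivity
  have hNs : (N : ℝ) * s = 1 := by rw [hs]; field_simp
  have hgamma : δ ^ 2 / (8 * k * N * s) = δ ^ 2 / (8 * k) := by
    rw [mul_assoc (8 * (k : ℝ)), hNs, mul_one]
  set m := (k + 1) * N with hm
  set γ := ENNReal.ofReal (Real.exp (δ ^ 2 / (8 * k)) - 1) with hγ
  have hexp : 0 ≤ Real.exp (δ ^ 2 / (8 * k)) - 1 := by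
    have := Real.add_one_le_exp (δ ^ 2 / (8 * k))
    have h2 : 0 ≤ δ ^ 2 / (8 * k) := by positivity
    linarith
  have hK₀m : MeasurableSet K₀ := h0.2.1.measurableSet
  have hK₁m : MeasurableSet K₁ := h1.2.1.measurableSet
  have hKhm : MeasurableSet Kh := hh.2.1.measurableSet
  have hcm' : ∀ a ∈ cs.map Prod.fst, MeasurableSet a := by
    intro a ha
    obtain ⟨q, hq, rfl⟩ := List.mem_map.1 ha
    exact hcm q hq
  have hlen : (cs.map Prod.fst).length = k := by simp [hk]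
  -- lower bounds
  set a := ∫⁻ x in K₀, f x * vW K₀ s N (cs.map Prod.fst) γ f x with ha
  set b := ∫⁻ x in K₁, g x * (vT K₁ s)^[m] g x with hb
  have hbl : ENNReal.ofReal ((1 - s * a₁) ^ m) ≤ b := by
    rw [ENNReal.ofReal_pow e3.le]
    exact (pow_le_pow_left' (hga s hspos) m).trans (vT_pow_ge K₁ hspos hg hg1 m)
  have hal : ENNReal.ofReal ((1 - s * a₀) ^ m + (Real.exp (δ ^ 2 / (8 * k)) - 1) * c) ≤ a := by
    have hsplit : a = (∫⁻ x in K₀, f x * (vT K₀ s)^[m] f x) +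
        γ * ∫⁻ x in K₀, f x * vA K₀ s N (cs.map Prod.fst) f x := by
      have hm1 : Measurable (fun x => f x * vA K₀ s N (cs.map Prod.fst) f x) :=
        hf.mul (measurable_vA K₀ s N hcm' hf)
      have hm2 : Measurable (fun x => f x * (vT K₀ s)^[m] f x) :=
        hf.mul (measurable_vT_iter K₀ s m hf)
      rw [ha, ← lintegral_const_mul _ hm1, ← lintegral_add_left hm2]
      apply lintegral_congr
      intro x
      simp only [vW, hlen]
      ring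
    rw [hsplit, ENNReal.ofReal_add (by positivity) (by positivity), ENNReal.ofReal_mul hexp,
      ENNReal.ofReal_pow e2.le]
    refine add_le_add ?_ (mul_le_mul' le_rfl (hA n e4))
    exact (pow_le_pow_left' (hfa s hspos) m).trans (vT_pow_ge K₀ hspos hf hf1 m)
  -- growth
  set V := ∫⁻ _x in Kh, (1 : ℝ≥0∞) with hV
  have hVt : V ≠ ⊤ := by
    rw [hV, lintegral_one, Measure.restrict_apply_univ]
    exact hh.2.1.measure_lt_top.ne
  set E := ENNReal.ofReal (Real.exp (-(m * s * (lam (interior Kh) - ε)))) with hE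
  have hpow : ∀ i : ℕ, (a * b) ^ (2 ^ i) ≤ (M₀ ^ 2 * M₁ ^ 2 * V ^ 2) * (E ^ 2) ^ (2 ^ i) := by
    intro i
    have ga : a ^ (2 ^ i) ≤ M₀ ^ 2 * ∫⁻ x in K₀, (vW K₀ s N (cs.map Prod.fst) γ)^[2 ^ i]
        (fun _ => 1) x := vW_low hK₀m hcm' hrev hf hf1 hM₀ hfM i
    have gb : b ^ (2 ^ i) ≤ M₁ ^ 2 * ∫⁻ x in K₁, (vT K₁ s)^[2 ^ i * m] (fun _ => 1) x :=
      vT_growth hK₁m hg hg1 hM₁ hgM m i
    have gi := gain_iter hK₀m hK₁m hKhm hmid hspos hN1 hne hcm hlip hd hδ hall (2 ^ i)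
    rw [hgamma] at gi
    have gh : ∫⁻ x in Kh, (vT Kh s)^[2 ^ i * m] (fun _ => 1) x ≤ E ^ (2 ^ i) * V := by
      have := Hup s hspos e1.le (2 ^ i * m) (fun _ => 1) measurable_const
      simp only [one_mul, one_pow] at this
      refine this.trans_eq ?_
      rw [hE, ← ENNReal.ofReal_pow (Real.exp_pos _).le, ← Real.exp_nat_mul]
      congr 3
      push_cast
      ring
    calc (a * b) ^ (2 ^ i) = a ^ (2 ^ i) * b ^ (2 ^ i) := mul_pow _ _ _
      _ ≤ (M₀ ^ 2 * ∫⁻ x in K₀, (vW K₀ s N (cs.map Prod.fst) γ)^[2 ^ i] (fun _ => 1) x) *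
          (M₁ ^ 2 * ∫⁻ x in K₁, (vT K₁ s)^[2 ^ i * m] (fun _ => 1) x) := mul_le_mul' ga gb
      _ = (M₀ ^ 2 * M₁ ^ 2) * ((∫⁻ x in K₀, (vW K₀ s N (cs.map Prod.fst) γ)^[2 ^ i]
            (fun _ => 1) x) * ∫⁻ x in K₁, (vT K₁ s)^[2 ^ i * m] (fun _ => 1) x) := by ring
      _ ≤ (M₀ ^ 2 * M₁ ^ 2) * (∫⁻ x in Kh, (vT Kh s)^[2 ^ i * m] (fun _ => 1) x) ^ 2 := by
          gcongr
      _ ≤ (M₀ ^ 2 * M₁ ^ 2) * (E ^ (2 ^ i) * V) ^ 2 := by gcongr
      _ = (M₀ ^ 2 * M₁ ^ 2 * V ^ 2) * (E ^ 2) ^ (2 ^ i) := by ring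
  have hfin := le_of_two_pow_le (by finiteness) (by rw [hE]; finiteness) hpow
  have hmul := (mul_le_mul' hal hbl).trans hfin
  rw [hE, ← ENNReal.ofReal_pow (Real.exp_pos _).le, ← ENNReal.ofReal_mul (by positivity),
    ENNReal.ofReal_le_ofReal_iff (by positivity), ← Real.exp_nat_mul] at hmul
  refine hmul.trans_eq ?_
  congr 1
  have : (m : ℝ) * s = k + 1 := by
    rw [hm]; push_cast; rw [mul_assoc, hNs, mul_one]
  rw [this]
  push_cast
  ring

theorem half_limit {a₀ a₁ G E : ℝ} {k J : ℕ} (hJ : 1 ≤ J)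
    (h : ∀ᶠ n : ℕ in atTop, ((1 - 1 / ((J * n : ℕ) : ℝ) * a₀) ^ ((k + 1) * (J * n)) + G) *
      (1 - 1 / ((J * n : ℕ) : ℝ) * a₁) ^ ((k + 1) * (J * n)) ≤ E) :
    (Real.exp (-((k + 1) * a₀)) + G) * Real.exp (-((k + 1) * a₁)) ≤ E := by
  have hlim : ∀ a : ℝ, Tendsto (fun n : ℕ => (1 - 1 / ((J * n : ℕ) : ℝ) * a) ^ ((k + 1) * (J * n)))
      atTop (𝓝 (Real.exp (-((k + 1) * a)))) := by
    intro a
    have h1 := Real.tendsto_one_add_div_pow_exp (-a)
    have h2 : Tendsto (fun n : ℕ => J * n) atTop atTop := tendsto_id.const_mul_atTop' hJ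
    have h3 := (h1.comp h2).pow (k + 1)
    rw [← Real.exp_nat_mul] at h3
    have e : -((k + 1) * a) = ((k + 1 : ℕ) : ℝ) * -a := by push_cast; ring
    rw [e]
    refine h3.congr fun n => ?_
    simp only [Function.comp]
    rw [← pow_mul, mul_comm (J * n) (k + 1)]
    congr 1
    ring
  exact le_of_tendsto (((hlim a₀).add_const G).mul (hlim a₁)) h

theorem lam_half_lt {K₀ K₁ : Set Plane} (h0 : CC K₀) (h1 : CC K₁) (hi0 : (interior K₀).Nonempty)
    (hi1 : (interior K₁).Nonempty) (h : ∀ w : Plane, ¬ K₀ ⊆ (fun p => w + p) '' K₁) :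
    lam (interior ((1 / 2 : ℝ) • (K₀ + K₁))) <
      (lam (interior K₀) + lam (interior K₁)) / 2 := by
  obtain ⟨cs', δ, hδ, hrev', hopen, hlip', hd', hall'⟩ := vcaps_list h0 h1 hi0 h
  set Kh := (1 / 2 : ℝ) • (K₀ + K₁) with hKh
  have hh : CC Kh := ⟨(h0.1.add h1.1).smul_set, (h0.2.1.add h1.2.1).smul _,
    (h0.2.2.add h1.2.2).smul _⟩
  have hih : (interior Kh).Nonempty := by
    rw [hKh, interior_smul₀ (by norm_num)]
    refine Set.Nonempty.smul_set ?_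
    have : interior K₀ + K₁ ⊆ interior (K₀ + K₁) :=
      interior_maximal (Set.add_subset_add_right interior_subset) isOpen_interior.add_right
    exact (hi0.add h1.1).mono this
  have hmid : ∀ x ∈ K₀, ∀ y ∈ K₁, (1 / 2 : ℝ) • (x + y) ∈ Kh := fun x hx y hy =>
    Set.smul_mem_smul_set (Set.add_mem_add hx hy)
  obtain ⟨r₁, v, hr₁, hv, hcore⟩ := caps_core (K := K₀) (cs'.map Prod.fst) (by
    intro a ha
    obtain ⟨q, hq, rfl⟩ := List.mem_map.1 ha
    exact hopen q hq)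
  set q₀ : Set Plane × (Plane → ℝ) := (Set.univ, fun _ => 0) with hq₀
  set cs := q₀ :: (cs' ++ [q₀]) with hcs
  have hmap : cs.map Prod.fst = Set.univ :: (cs'.map Prod.fst ++ [Set.univ]) := by
    simp [hcs, hq₀]
  have hmem : ∀ q ∈ cs, q = q₀ ∨ q ∈ cs' := by
    intro q hq
    simp only [hcs, List.mem_cons, List.mem_append, List.not_mem_nil, or_false] at hq
    tauto
  have hne : cs ≠ [] := by simp [hcs]
  have hrev : (cs.map Prod.fst).reverse = cs.map Prod.fst := by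
    rw [hmap]
    simp [hrev']
  have hcm : ∀ q ∈ cs, MeasurableSet q.1 := by
    intro q hq
    rcases hmem q hq with rfl | hq
    · exact MeasurableSet.univ
    · exact (hopen q hq).1.measurableSet
  have hlip : ∀ q ∈ cs, ∀ w w', q.2 w ≤ q.2 w' + ‖w - w'‖ := by
    intro q hq w w'
    rcases hmem q hq with rfl | hq
    · simp [hq₀]
    · exact hlip' q hq w w'
  have hd : ∀ q ∈ cs, ∀ x ∈ q.1, x ∈ K₀ → ∀ y ∈ K₁, q.2 (x - y) ≤ 0 := by
    intro q hq x hx hx0 y hy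
    rcases hmem q hq with rfl | hq
    · simp [hq₀]
    · exact hd' q hq x hx hx0 y hy
  have hall : ∀ w, ∃ q ∈ cs, δ ≤ q.2 w := by
    intro w
    obtain ⟨q, hq, h⟩ := hall' w
    exact ⟨q, by simp [hcs, hq], h⟩
  set L₀ := lam (interior K₀) with hL₀
  set L₁ := lam (interior K₁) with hL₁
  set Lh := lam (interior Kh) with hLh
  have hL₀0 : 0 ≤ L₀ := lam_nonneg _
  obtain ⟨c, hc, J, hJ, n₀, HA⟩ := vA_gain h0 (τ := 1) (Λ := L₀ + 1) one_pos (by linarith)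
    (cs'.map Prod.fst).length hv hr₁
  set k := cs.length with hk
  set G := (Real.exp (δ ^ 2 / (8 * k)) - 1) * c with hG
  have hkpos : (0 : ℝ) < k := by
    have : 0 < k := List.length_pos_of_ne_nil hne
    exact_mod_cast this
  have hGpos : 0 < G := by
    refine mul_pos ?_ hc
    have h2 : 0 < δ ^ 2 / (8 * k) := by positivity
    have := Real.add_one_le_exp (δ ^ 2 / (8 * k))
    linarith
  have hε : ∀ ε : ℝ, 0 < ε → ε ≤ 1 →
      (Real.exp (-((k + 1) * (L₀ + ε))) + G) * Real.exp (-((k + 1) * (L₁ + ε))) ≤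
        Real.exp (-(2 * (k + 1) * (Lh - ε))) := by
    intro ε hε hε1
    obtain ⟨f, M₀, hf, hM₀, hfM, hfK, hf1, hfa⟩ := testfun hi0 hε
    obtain ⟨g, M₁, hg, hM₁, hgM, hgK, hg1, hga⟩ := testfun hi1 hε
    apply half_limit hJ
    apply half_mesh h0 h1 hh hih hmid hδ hne hrev hcm hlip hd hall hε hc.le hf hg hM₀ hM₁ hfM hgM
      hf1 hg1 hfa hga hJ (n₀ := max n₀ 1)
    intro n hn
    rw [hmap]
    have hn0 : 1 ≤ n := (le_max_right _ _).trans hn
    have hspos : 0 < 1 / ((J * n : ℕ) : ℝ) := by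
      have : 0 < J * n := by positivity
      have : (0 : ℝ) < ((J * n : ℕ) : ℝ) := by exact_mod_cast this
      positivity
    refine HA n ((le_max_left _ _).trans hn) _ le_rfl ?_ hcore K₀ subset_rfl
      h0.2.1.measurableSet f hf hfK hf1 ?_
    · intro a ha
      obtain ⟨q, hq, rfl⟩ := List.mem_map.1 ha
      exact (hopen q hq).1.measurableSet
    · refine le_trans (ENNReal.ofReal_le_ofReal ?_) (hfa _ hspos)
      have : 1 / ((J * n : ℕ) : ℝ) * (L₀ + ε) ≤ 1 / ((J * n : ℕ) : ℝ) * (L₀ + 1) := by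
        gcongr
      linarith
  have hfinal : (Real.exp (-((k + 1) * L₀)) + G) * Real.exp (-((k + 1) * L₁)) ≤
      Real.exp (-(2 * (k + 1) * Lh)) := by
    have c1 : Tendsto (fun ε : ℝ => (Real.exp (-((k + 1) * (L₀ + ε))) + G) *
        Real.exp (-((k + 1) * (L₁ + ε)))) (𝓝[>] 0)
        (𝓝 ((Real.exp (-((k + 1) * (L₀ + 0))) + G) * Real.exp (-((k + 1) * (L₁ + 0))))) := by
      apply Tendsto.mono_left _ nhdsWithin_le_nhds
      apply Continuous.tendsto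
      fun_prop
    have c2 : Tendsto (fun ε : ℝ => Real.exp (-(2 * (k + 1) * (Lh - ε)))) (𝓝[>] 0)
        (𝓝 (Real.exp (-(2 * (k + 1) * (Lh - 0))))) := by
      apply Tendsto.mono_left _ nhdsWithin_le_nhds
      apply Continuous.tendsto
      fun_prop
    have ev : ∀ᶠ ε : ℝ in 𝓝[>] 0, (Real.exp (-((k + 1) * (L₀ + ε))) + G) *
        Real.exp (-((k + 1) * (L₁ + ε))) ≤ Real.exp (-(2 * (k + 1) * (Lh - ε))) := by
      filter_upwards [self_mem_nhdsWithin, nhdsWithin_le_nhds (Iic_mem_nhds one_pos)] with ε h h'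
      exact hε ε h h'
    simpa only [add_zero, sub_zero] using le_of_tendsto_of_tendsto c1 c2 ev
  have hlt : Real.exp (-((k + 1) * L₀)) * Real.exp (-((k + 1) * L₁)) <
      Real.exp (-(2 * (k + 1) * Lh)) := by
    refine lt_of_lt_of_le ?_ hfinal
    have := Real.exp_pos (-((k + 1) * L₁))
    nlinarith
  rw [← Real.exp_add, Real.exp_lt_exp] at hlt
  have h4 : (k + 1 : ℝ) * (2 * Lh) < (k + 1) * (L₀ + L₁) := by nlinarith
  have h5 := lt_of_mul_lt_mul_left h4 (by positivity)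
  linarith

end Pool.Agent.WSB71
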