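import Pool.Agent.WSB71.VComp
import Pool.Agent.WSB71.VStrict

/-!
# V11: existence, symmetry and uniqueness of the minimiser

`var_limit`: the common compactness argument.  Let `K n` be convex bodies, `e n > 0`, `e n → 0`, and
`lam (thickening (e n) (K n)) + P (K n) ≤ m + b n`, `b n → 0`.  Then `P (K n)` is bounded (`lam ≥ 0`), so the diameters are bounded
(`lower`); translate so that `0 ∈ K n`; `vseq`; the limit `K'` has nonempty interior: otherwise `vflat`, the thickenings are in slabs of width tending to `0` and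
`lam_slab` contradicts the bound (`P ≥ 0`).  `vsandwich` (after a translation so that a ball centred at `0` is in `K'`):
`lam (thickening ..) ≥ (1 + t_n)^{-2} lam (interior K')`, `P (K n) ≥ (1 - t_n) P K'` (`mono`, `smul`).  So `FF P K' ≤ m`.
`var_min`: apply it to a minimising sequence (`interior K ⊆ thickening`, so `lam (thickening (1/n) (K n)) ≤ lam (interior (K n))`); all values are `≥ 0`.
`var_unique`: if `K₀ ⊄ w + K₁` for all `w`, then `½ (K₀ + K₁)` has a smaller value: `lam_half_lt`, and `P (½(K₀+K₁)) ≤ (P K₀ + P K₁)/2`.  So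
`K₀ ⊆ w + K₁`, and by symmetry `K₁ ⊆ w' + K₀`, so `K₀ ⊆ (w + w') + K₀`, so `w + w' = 0` (compactness).
`var_exists`: `K` a minimiser; `-K` is one, too (`lam (-U) = lam U`, or: `-K` is the image of `K`, change of variables); by
`var_unique` `-K = w + K`; `Ks = w/2 + K`. -/

open MeasureTheory Filter Topology
open scoped NNReal ENNReal Pointwise

namespace Pool.Agent.WSB71

open Pool.Agent.LT

private theorem neg_test (U : Set Plane) : {r | ∃ f : Plane → ℝ, ContDiff ℝ 1 f ∧
    HasCompactSupport f ∧ tsupport f ⊆ U ∧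
    ∫ x, f x ^ 2 = 1 ∧ r = ∫ x, ‖fderiv ℝ f x‖ ^ 2} ⊆ {r | ∃ f : Plane → ℝ, ContDiff ℝ 1 f ∧
    HasCompactSupport f ∧ tsupport f ⊆ -U ∧
    ∫ x, f x ^ 2 = 1 ∧ r = ∫ x, ‖fderiv ℝ f x‖ ^ 2} := by
  rintro r ⟨f, hf, hc, hs, h1, rfl⟩
  refine ⟨fun x => f (-x), hf.comp contDiff_neg, ?_, ?_, ?_, ?_⟩
  · exact hc.comp_homeomorph (Homeomorph.neg Plane)
  · have h : tsupport (fun x : Plane => f (-x)) = -tsupport f := by
      have h1 := tsupport_comp_eq_preimage f (Homeomorph.neg Plane)
      exact h1
    rw [h]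
    exact Set.neg_subset_neg.2 hs
  · have h := integral_neg_eq_self (fun x : Plane => f x ^ 2) volume
    rw [← h1, ← h]
  · have h := integral_neg_eq_self (fun x : Plane => ‖fderiv ℝ f x‖ ^ 2) volume
    rw [← h]
    congr 1
    ext x
    have h2 : fderiv ℝ (fun x : Plane => f (-x)) x = -(fderiv ℝ f (-x)) := by
      have h3 := fderiv_comp_smul (𝕜 := ℝ) (f := f) (x := x) (-1)
      simpa using h3
    rw [h2, norm_neg]

theorem lam_neg (U : Set Plane) : lam (-U) = lam U := by
  unfold lam
  congr 1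
  apply Set.Subset.antisymm
  · have h := neg_test (-U)
    rwa [neg_neg] at h
  · exact neg_test U

private theorem perLike_nonneg {P : Set Plane → ℝ} (hP : PerLike P) {K : Set Plane} (hK : CC K) :
    0 ≤ P K := by
  obtain ⟨a, ha, h⟩ := hP.lower
  exact le_trans (mul_nonneg ha.le Metric.diam_nonneg) (h K hK)

private theorem FF_translate {P : Set Plane → ℝ} (hP : PerLike P) {K : Set Plane} (hK : CC K)
    (z : Plane) : FF P ((fun p => z + p) '' K) = FF P K := by
  unfold FF
  rw [interior_translate, lam_trans, hP.trans K hK]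

private theorem thickening_translate (ε : ℝ) (K : Set Plane) (z : Plane) :
    Metric.thickening ε ((fun p => z + p) '' K) = (fun p => z + p) '' Metric.thickening ε K := by
  ext x
  simp only [Metric.mem_thickening_iff, Set.mem_image]
  constructor
  · rintro ⟨y, ⟨y', hy', rfl⟩, h⟩
    refine ⟨-z + x, ⟨y', hy', ?_⟩, by abel⟩
    rw [← dist_add_left z]
    convert h using 2
    abel
  · rintro ⟨y, ⟨y', hy', h⟩, rfl⟩
    exact ⟨z + y', ⟨y', hy', rfl⟩, by rwa [dist_add_left]⟩

private theorem hausdorff_translate (A B : Set Plane) (z : Plane) :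
    Metric.hausdorffDist ((fun p => z + p) '' A) ((fun p => z + p) '' B) =
      Metric.hausdorffDist A B :=
  Metric.hausdorffDist_image (isometry_add_left z)

private theorem translate_translate (A : Set Plane) (z w : Plane) :
    (fun p => z + p) '' ((fun p => w + p) '' A) = (fun p => (z + w) + p) '' A := by
  rw [Set.image_image]
  congr 1
  ext x
  simp [add_assoc]

private theorem translate_zero (A : Set Plane) : (fun p => (0 : Plane) + p) '' A = A := by
  simp

theorem var_limit {P : Set Plane → ℝ} (hP : PerLike P) {K : ℕ → Set Plane} (hK : ∀ n, CC (K n))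
    {e b : ℕ → ℝ} {m : ℝ} (he : ∀ n, 0 < e n) (he0 : Tendsto e atTop (𝓝 0))
    (hb : Tendsto b atTop (𝓝 0))
    (h : ∀ n, lam (Metric.thickening (e n) (K n)) + P (K n) ≤ m + b n) :
    ∃ (K' : Set Plane) (z : ℕ → Plane) (φ : ℕ → ℕ), CC K' ∧ (interior K').Nonempty ∧
      StrictMono φ ∧ FF P K' ≤ m ∧
      Tendsto (fun n => Metric.hausdorffDist (K (φ n)) ((fun p => z n + p) '' K')) atTop (𝓝 0) := by
  obtain ⟨a, ha, hlow⟩ := hP.lower
  -- bounds
  obtain ⟨B, hB⟩ := hb.bddAbove_range
  have hB' : ∀ n, b n ≤ B := fun n => hB ⟨n, rfl⟩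
  have hPn : ∀ n, 0 ≤ P (K n) := fun n => perLike_nonneg hP (hK n)
  have hdiam : ∀ n, Metric.diam (K n) ≤ (m + B) / a := by
    intro n
    rw [le_div_iff₀ ha, mul_comm]
    have := hlow (K n) (hK n)
    have := h n
    have := lam_nonneg (Metric.thickening (e n) (K n))
    have := hB' n
    linarith
  choose x hx using fun n => (hK n).1
  set K1 : ℕ → Set Plane := fun n => (fun p => -x n + p) '' K n with hK1
  have hK1c : ∀ n, CC (K1 n) := fun n => cc_translate (hK n) _
  have hD : ∀ n, K1 n ⊆ Metric.closedBall 0 ((m + B) / a) := by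
    rintro n y ⟨p, hp, rfl⟩
    rw [mem_closedBall_zero_iff]
    have h1 := Metric.dist_le_diam_of_mem (hK n).2.1.isBounded hp (hx n)
    rw [dist_eq_norm] at h1
    have h2 : -x n + p = p - x n := by abel
    show ‖-x n + p‖ ≤ _
    rw [h2]
    exact h1.trans (hdiam n)
  obtain ⟨K', hK', -, φ, hφ, hlim⟩ := vseq hK1c hD
  have hfin : ∀ n, Metric.hausdorffEDist (K1 (φ n)) K' ≠ ⊤ := fun n =>
    Metric.hausdorffEDist_ne_top_of_nonempty_of_bounded (hK1c _).1 hK'.1
      (hK1c _).2.1.isBounded hK'.2.1.isBounded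
  have hPK1 : ∀ n, P (K1 n) = P (K n) := fun n => hP.trans _ (hK n) _
  have hlamK1 : ∀ n, lam (Metric.thickening (e n) (K1 n)) = lam (Metric.thickening (e n) (K n)) := by
    intro n
    rw [hK1]
    simp only
    rw [thickening_translate, lam_trans]
  have hη0 : ∀ n, 0 ≤ Metric.hausdorffDist (K1 (φ n)) K' := fun n => Metric.hausdorffDist_nonneg
  have heφ : Tendsto (fun n => e (φ n)) atTop (𝓝 0) := he0.comp hφ.tendsto_atTop
  have hbφ : Tendsto (fun n => b (φ n)) atTop (𝓝 0) := hb.comp hφ.tendsto_atTop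
  have hint : (interior K').Nonempty := by
    by_contra hne
    obtain ⟨u, c, hu, hc⟩ := vflat hK' hne
    obtain ⟨s, hs, hslab⟩ := lam_slab
    have hw : ∀ n, s / (e (φ n) + Metric.hausdorffDist (K1 (φ n)) K' + 0) ^ 2 ≤ m + B := by
      intro n
      have hpos : 0 < e (φ n) + Metric.hausdorffDist (K1 (φ n)) K' + 0 := by
        have := he (φ n); have := hη0 n; linarith
      have h1 := hslab (Metric.thickening (e (φ n)) (K1 (φ n))) Metric.isOpen_thickening
        ((hK1c _).1.mono (Metric.self_subset_thickening (he _) _)) u c _ hu hpos ?_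
      · refine h1.trans ?_
        rw [hlamK1]
        have := h (φ n)
        have := hPn (φ n)
        have := hB' (φ n)
        linarith
      · intro y hy
        obtain ⟨y', hy', hyd⟩ := Metric.mem_thickening_iff.1 hy
        obtain ⟨y'', hy'', hyd'⟩ := hK'.2.1.exists_infDist_eq_dist hK'.1 y'
        have h2 := Metric.infDist_le_hausdorffDist_of_mem hy' (hfin n)
        rw [hyd'] at h2
        have h3 : dist y y'' ≤ e (φ n) + Metric.hausdorffDist (K1 (φ n)) K' + 0 := by
          have := dist_triangle y y' y''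
          linarith
        rw [← hc y'' hy'', ← inner_sub_right]
        refine (abs_real_inner_le_norm _ _).trans ?_
        rw [hu, one_mul, ← dist_eq_norm]
        exact h3
    have hlim2 : Tendsto (fun n => e (φ n) + Metric.hausdorffDist (K1 (φ n)) K' + 0) atTop
        (𝓝[>] 0) := by
      rw [tendsto_nhdsWithin_iff]
      constructor
      · simpa using heφ.add hlim
      · refine Eventually.of_forall fun n => ?_
        have := he (φ n); have := hη0 n
        simp only [Set.mem_Ioi]; linarith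
    have hlim3 : Tendsto (fun n => s / (e (φ n) + Metric.hausdorffDist (K1 (φ n)) K' + 0) ^ 2)
        atTop atTop := by
      have h4 : Tendsto (fun t : ℝ => s / t ^ 2) (𝓝[>] 0) atTop := by
        have h5 : Tendsto (fun t : ℝ => (t ^ 2)⁻¹) (𝓝[>] 0) atTop := by
          apply tendsto_inv_nhdsGT_zero.comp
          rw [tendsto_nhdsWithin_iff]
          constructor
          · have : Tendsto (fun t : ℝ => t ^ 2) (𝓝 0) (𝓝 (0 ^ 2)) := (continuous_pow 2).tendsto 0
            rw [zero_pow two_ne_zero] at this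
            exact this.mono_left nhdsWithin_le_nhds
          · filter_upwards [self_mem_nhdsWithin] with t ht
            exact pow_pos (Set.mem_Ioi.1 ht) 2
        simpa [div_eq_mul_inv] using h5.const_mul_atTop hs
      exact h4.comp hlim2
    obtain ⟨n, hn⟩ := (hlim3.eventually (eventually_gt_atTop (m + B))).exists
    exact absurd (hw n) (not_le.2 hn)
  -- centre
  obtain ⟨x0, hx0⟩ := hint
  obtain ⟨r, hr, hball⟩ := Metric.isOpen_iff.1 isOpen_interior x0 hx0
  set K2 : Set Plane := (fun p => -x0 + p) '' K' with hK2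
  have hK2c : CC K2 := cc_translate hK' _
  have hball2 : Metric.closedBall (0 : Plane) (r / 2) ⊆ K2 := by
    intro y hy
    rw [mem_closedBall_zero_iff] at hy
    refine ⟨x0 + y, interior_subset (hball ?_), by simp⟩
    rw [Metric.mem_ball, dist_eq_norm]
    have : x0 + y - x0 = y := by abel
    rw [this]; linarith
  have hint2 : (interior K2).Nonempty := by
    rw [hK2, interior_translate]
    exact ⟨_, _, hx0, rfl⟩
  have hFF2 : FF P K2 = FF P K' := FF_translate hP hK' _
  set L : ℕ → Set Plane := fun n => (fun p => -x0 + p) '' K1 (φ n) with hL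
  have hLc : ∀ n, CC (L n) := fun n => cc_translate (hK1c _) _
  have hLd : ∀ n, Metric.hausdorffDist (L n) K2 = Metric.hausdorffDist (K1 (φ n)) K' := fun n =>
    hausdorff_translate _ _ _
  set η : ℕ → ℝ := fun n => Metric.hausdorffDist (K1 (φ n)) K' with hη
  have hr2 : 0 < r / 2 := by positivity
  have hev : ∀ᶠ n in atTop, η n < r / 2 := hlim.eventually_lt_const hr2
  have hmain : ∀ᶠ n in atTop, ((1 + (η n + e (φ n)) / (r / 2)) ^ 2)⁻¹ * lam (interior K2) +
      (1 - η n / (r / 2)) * P K2 ≤ m + b (φ n) := by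
    filter_upwards [hev] with n hn
    obtain ⟨-, hs2, hs3⟩ := vsandwich hK2c (hLc n) hr2 hball2 (hη0 n) hn (hLd n).le
    have h1 : (1 - η n / (r / 2)) * P K2 ≤ P (L n) := by
      have h0 : 0 ≤ 1 - η n / (r / 2) := by
        rw [sub_nonneg, div_le_one hr2]; exact hn.le
      rw [← hP.smul K2 hK2c _ h0]
      exact hP.mono _ _ (cc_smul hK2c _) (hLc n) hs2
    have h2 : ((1 + (η n + e (φ n)) / (r / 2)) ^ 2)⁻¹ * lam (interior K2) ≤
        lam (Metric.thickening (e (φ n)) (L n)) := by
      have hpos : 0 < 1 + (η n + e (φ n)) / (r / 2) := by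
        have := he (φ n); have := hη0 n; positivity
      rw [← lam_smul _ hpos]
      exact lam_anti Metric.isOpen_thickening
        ((hLc n).1.mono (Metric.self_subset_thickening (he _) _)) (hs3 _ (he _))
    have h3 : lam (Metric.thickening (e (φ n)) (L n)) =
        lam (Metric.thickening (e (φ n)) (K (φ n))) := by
      rw [← hlamK1, hL]
      simp only
      rw [thickening_translate, lam_trans]
    have h4 : P (L n) = P (K (φ n)) := by
      rw [← hPK1, hL]
      simp only
      rw [hP.trans _ (hK1c _)]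
    have h5 := h (φ n)
    rw [h3] at h2
    rw [h4] at h1
    linarith
  have hlimit : lam (interior K2) + P K2 ≤ m := by
    have hl1 : Tendsto (fun n => ((1 + (η n + e (φ n)) / (r / 2)) ^ 2)⁻¹ * lam (interior K2) +
      (1 - η n / (r / 2)) * P K2) atTop (𝓝 (lam (interior K2) + P K2)) := by
      have h1 : Tendsto (fun n => ((1 + (η n + e (φ n)) / (r / 2)) ^ 2)⁻¹ * lam (interior K2) +
        (1 - η n / (r / 2)) * P K2) atTop (𝓝 (((1 + (0 + 0) / (r / 2)) ^ 2)⁻¹ * lam (interior K2) +
        (1 - 0 / (r / 2)) * P K2)) := by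
        apply Tendsto.add
        · apply Tendsto.mul_const
          apply Tendsto.inv₀
          · apply Tendsto.pow
            exact ((hlim.add heφ).div_const _).const_add _
          · norm_num
        · apply Tendsto.mul_const
          exact (hlim.div_const _).const_sub _
      simpa using h1
    have hl2 : Tendsto (fun n => m + b (φ n)) atTop (𝓝 m) := by
      simpa using hbφ.const_add m
    exact le_of_tendsto_of_tendsto hl1 hl2 hmain
  refine ⟨K', fun n => x (φ n), φ, hK', ⟨x0, hx0⟩, hφ, ?_, ?_⟩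
  · rw [← hFF2]; exact hlimit
  · have h1 : ∀ n, Metric.hausdorffDist (K (φ n)) ((fun p => x (φ n) + p) '' K') =
        Metric.hausdorffDist (K1 (φ n)) K' := by
      intro n
      have h2 : K (φ n) = (fun p => x (φ n) + p) '' K1 (φ n) := by
        rw [hK1]
        simp only
        rw [translate_translate, add_neg_cancel, translate_zero]
      rw [h2, hausdorff_translate]
    simp only [h1]
    exact hlim

private theorem half_convex {P : Set Plane → ℝ} (hP : PerLike P) {K₀ K₁ : Set Plane} (h0 : CC K₀)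
    (h1 : CC K₁) (hi0 : (interior K₀).Nonempty) (hi1 : (interior K₁).Nonempty)
    (hm0 : ∀ K, CC K → (interior K).Nonempty → FF P K₀ ≤ FF P K)
    (hm1 : ∀ K, CC K → (interior K).Nonempty → FF P K₁ ≤ FF P K) :
    ∃ w : Plane, K₀ ⊆ (fun p => w + p) '' K₁ := by
  by_contra hcon
  push Not at hcon
  have h := lam_half_lt h0 h1 hi0 hi1 hcon
  have hc : CC ((1 / 2 : ℝ) • (K₀ + K₁)) := cc_smul (cc_add h0 h1) _
  have hi : (interior ((1 / 2 : ℝ) • (K₀ + K₁))).Nonempty := by
    rw [interior_smul₀ (by norm_num : (1 / 2 : ℝ) ≠ 0)]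
    apply Set.Nonempty.smul_set
    obtain ⟨x, hx⟩ := hi0
    obtain ⟨y, hy⟩ := h1.1
    exact ⟨x + y, subset_interior_add_left (Set.add_mem_add hx hy)⟩
  have h2 := hm0 _ hc hi
  have h3 := hm1 _ h0 hi0
  have h4 := hm0 _ h1 hi1
  have h5 : P ((1 / 2 : ℝ) • (K₀ + K₁)) ≤ (P K₀ + P K₁) / 2 := by
    rw [hP.smul _ (cc_add h0 h1) _ (by norm_num)]
    have := hP.add_le _ _ h0 h1
    linarith
  unfold FF at h2 h3 h4
  linarith

theorem var_unique {P : Set Plane → ℝ} (hP : PerLike P) {K₀ K₁ : Set Plane} (h0 : CC K₀)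
    (h1 : CC K₁) (hi0 : (interior K₀).Nonempty) (hi1 : (interior K₁).Nonempty)
    (hm0 : ∀ K, CC K → (interior K).Nonempty → FF P K₀ ≤ FF P K)
    (hm1 : ∀ K, CC K → (interior K).Nonempty → FF P K₁ ≤ FF P K) :
    ∃ w : Plane, K₀ = (fun p => w + p) '' K₁ := by
  obtain ⟨w, hw⟩ := half_convex hP h0 h1 hi0 hi1 hm0 hm1
  obtain ⟨w', hw'⟩ := half_convex hP h1 h0 hi1 hi0 hm1 hm0
  have hstep : ∀ x ∈ K₀, x - (w + w') ∈ K₀ := by
    intro x hx
    obtain ⟨y, hy, rfl⟩ := hw hx
    obtain ⟨z, hz, rfl⟩ := hw' hy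
    have : w + (w' + z) - (w + w') = z := by abel
    simp only
    rw [this]
    exact hz
  have hiter : ∀ n : ℕ, ∀ x ∈ K₀, x - (n : ℝ) • (w + w') ∈ K₀ := by
    intro n
    induction n with
    | zero => intro x hx; simpa using hx
    | succ n ih =>
      intro x hx
      have := hstep _ (ih x hx)
      have h2 : x - ((n + 1 : ℕ) : ℝ) • (w + w') = x - (n : ℝ) • (w + w') - (w + w') := by
        push_cast
        rw [add_smul, one_smul]
        abel
      rwa [h2]
  have hzero : w + w' = 0 := by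
    by_contra hne
    have hpos : 0 < ‖w + w'‖ := norm_pos_iff.2 hne
    obtain ⟨x, hx⟩ := h0.1
    obtain ⟨n, hn⟩ := exists_nat_gt (Metric.diam K₀ / ‖w + w'‖)
    rw [div_lt_iff₀ hpos] at hn
    have h2 := Metric.dist_le_diam_of_mem h0.2.1.isBounded hx (hiter n x hx)
    rw [dist_eq_norm] at h2
    have h3 : x - (x - (n : ℝ) • (w + w')) = (n : ℝ) • (w + w') := by abel
    rw [h3, norm_smul, Real.norm_natCast] at h2
    linarith
  refine ⟨w, Set.Subset.antisymm hw ?_⟩
  rintro _ ⟨y, hy, rfl⟩
  obtain ⟨z, hz, rfl⟩ := hw' hy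
  have : w + (w' + z) = z := by
    rw [← add_assoc, hzero, zero_add]
  simp only
  rw [this]
  exact hz

/-- Existence of a (centrally symmetric) minimiser. -/
theorem var_exists {P : Set Plane → ℝ} (hP : PerLike P) : ∃ Ks : Set Plane, CC Ks ∧
    (interior Ks).Nonempty ∧ -Ks = Ks ∧ ∀ K, CC K → (interior K).Nonempty → FF P Ks ≤ FF P K := by
  set S : Set ℝ := {r | ∃ K, CC K ∧ (interior K).Nonempty ∧ r = FF P K} with hS
  have hne : S.Nonempty := by
    refine ⟨_, Metric.closedBall 0 1, ⟨⟨0, by simp⟩, isCompact_closedBall _ _,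
      convex_closedBall _ _⟩, ?_, rfl⟩
    refine ⟨0, Metric.ball_subset_interior_closedBall ?_⟩
    simp
  have hbdd : BddBelow S := by
    refine ⟨0, ?_⟩
    rintro _ ⟨K, hK, -, rfl⟩
    exact add_nonneg (lam_nonneg _) (perLike_nonneg hP hK)
  have hseq : ∀ n : ℕ, ∃ K, CC K ∧ (interior K).Nonempty ∧ FF P K < sInf S + 1 / ((n : ℝ) + 1) := by
    intro n
    have hpos : (0 : ℝ) < 1 / ((n : ℝ) + 1) := by positivity
    obtain ⟨_, ⟨K, hK, hi, rfl⟩, hlt⟩ := Real.lt_sInf_add_pos hne hpos
    exact ⟨K, hK, hi, hlt⟩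
  choose K hK hi hlt using hseq
  have ht : Tendsto (fun n : ℕ => 1 / ((n : ℝ) + 1)) atTop (𝓝 0) :=
    tendsto_one_div_add_atTop_nhds_zero_nat
  obtain ⟨K', z, φ, hK', hi', -, hFF, -⟩ := var_limit hP hK (e := fun n : ℕ => 1 / ((n : ℝ) + 1))
    (b := fun n : ℕ => 1 / ((n : ℝ) + 1)) (m := sInf S) (fun n => by positivity) ht ht (by
      intro n
      have h1 : lam (Metric.thickening (1 / ((n : ℝ) + 1)) (K n)) ≤ lam (interior (K n)) :=
        lam_anti isOpen_interior (hi n)
          (interior_subset.trans (Metric.self_subset_thickening (by positivity) _))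
      have h2 := hlt n
      unfold FF at h2
      linarith)
  have hmin : ∀ K, CC K → (interior K).Nonempty → FF P K' ≤ FF P K := fun K hK hi =>
    hFF.trans (csInf_le hbdd ⟨K, hK, hi, rfl⟩)
  have hintneg : interior (-K') = -interior K' := by
    have := (Homeomorph.neg Plane).preimage_interior K'
    exact this.symm
  have hineg : (interior (-K')).Nonempty := by
    rw [hintneg]; exact hi'.neg
  have hminneg : ∀ K, CC K → (interior K).Nonempty → FF P (-K') ≤ FF P K := by
    intro K hK hi
    have : FF P (-K') = FF P K' := by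
      unfold FF
      rw [hintneg, lam_neg, hP.neg K' hK']
    rw [this]
    exact hmin K hK hi
  obtain ⟨w, hw⟩ := var_unique hP (cc_neg hK') hK' hineg hi' hminneg hmin
  refine ⟨(fun p => (1 / 2 : ℝ) • w + p) '' K', cc_translate hK' _, ?_, ?_, ?_⟩
  · rw [interior_translate]; exact hi'.image _
  · ext x
    rw [Set.mem_neg]
    have key : ∀ y : Plane, y ∈ (fun p => (1 / 2 : ℝ) • w + p) '' K' ↔ y - (1 / 2 : ℝ) • w ∈ K' := by
      intro y
      constructor
      · rintro ⟨p, hp, rfl⟩
        simpa using hp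
      · intro hy
        exact ⟨_, hy, by simp⟩
    have key2 : ∀ y : Plane, -y ∈ K' ↔ y - w ∈ K' := by
      intro y
      rw [← Set.mem_neg, hw]
      constructor
      · rintro ⟨p, hp, rfl⟩
        simpa using hp
      · intro hy
        exact ⟨_, hy, by simp⟩
    rw [key, key]
    have h1 : -x - (1 / 2 : ℝ) • w = -(x + (1 / 2 : ℝ) • w) := by abel
    rw [h1, key2]
    have h2 : x + (1 / 2 : ℝ) • w - w = x - (1 / 2 : ℝ) • w := by
      have : w = (1 / 2 : ℝ) • w + (1 / 2 : ℝ) • w := by rw [← add_smul]; norm_num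
      nth_rw 2 [this]
      abel
    rw [h2]
  · intro K hK hi
    rw [FF_translate hP hK']
    exact hmin K hK hi

end Pool.Agent.WSB71
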