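import Pool.Agent.WSB71.VBall
import Pool.Agent.WSB71.VExist

/-!
# V12: stability

By contradiction with `c = ε₀ = 1/(n+1)`: `ε_n ≤ 1/(n+1)`, `K_n`, `R_n` violate the conclusion.  `var_limit` gives
a subsequence with `K_n` close to `z_n + K'` in Hausdorff distance, `FF P K' ≤ FF P Ks`; so `K'` is a minimiser and `K' = w + Ks`
(`var_unique`); let `y_n = z_n + w`: `hausdorffDist (K_n) (y_n + Ks) → 0`.
`R_n ≠ ∅` (its Hausdorff distance to a set is positive), `R_n` is within `o(1)` of `y_n + Ks`; since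
`δ ≤ hausdorffDist R_n (y_n + Ks)` there is `q_n ∈ y_n + Ks` with `infDist q_n R_n > δ/2`; take `p = q_n`: `closedBall p (δ/4)` is disjoint from
`R_n`.  For `p' ∈ closedBall p (δ/16)`: the set `thickening ∖ closedBall p' (δ/8)` contains `R_n`.  As the conclusion fails there is such a `p'_n` with
`lam (thickening ε_n K_n ∖ closedBall p'_n (δ/8)) + P K_n < FF P Ks + 1/(n+1)`.  Since
`closedBall q_n (δ/16) ⊆ closedBall p'_n (δ/8)`, with `closedBall x₀ r ⊆ Ks`: by `vsandwich` (after translation)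
`thickening ε_n K_n ∖ closedBall p'_n (δ/8)` is contained in `y_n + x₀ + (1+t_n) • (interior (Ks - x₀) ∖ closedBall q' (δ/32))`, with `q' ∈ Ks - x₀`
(`q' = (q_n - y_n - x₀)/(1+t_n)`, in `Ks - x₀` by convexity since `0` is in this set).  So by `lam_anti`, `lam_trans`, `lam_smul` and `ball_gap`
`lam (..) ≥ (1+t_n)^{-2} (lam (interior Ks) + c)`, and `P K_n ≥ (1 - t_n) P Ks`: contradiction for `n → ∞`. -/

open MeasureTheory Filter Topology
open scoped NNReal ENNReal Pointwise

namespace Pool.Agent.WSB71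

open Pool.Agent.LT

namespace VStable

/-- one step -/
lemma step {P : Set Plane → ℝ} (hP : PerLike P) {Ks : Set Plane} (hK : CC Ks) {x₀ : Plane}
    {r : ℝ} (hr : 0 < r) (hball : Metric.closedBall x₀ r ⊆ Ks) {δ c : ℝ}
    (hc : ∀ q ∈ (fun p => -x₀ + p) '' Ks,
      (interior ((fun p => -x₀ + p) '' Ks) \ Metric.closedBall q (δ / 32)).Nonempty →
      lam (interior ((fun p => -x₀ + p) '' Ks)) + c ≤
        lam (interior ((fun p => -x₀ + p) '' Ks) \ Metric.closedBall q (δ / 32)))
    {K : Set Plane} (hKK : CC K) {y : Plane} {η ε : ℝ} (hη0 : 0 ≤ η)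
    (hη : Metric.hausdorffDist K ((fun p => y + p) '' Ks) ≤ η) (hηr : η < r) (hε : 0 < ε)
    (hT : (η + ε) / r ≤ 1) {q p' : Plane} (hq : q ∈ (fun p => y + p) '' Ks)
    (hp' : p' ∈ Metric.closedBall q (δ / 16))
    (hne : (Metric.thickening ε K \ Metric.closedBall p' (δ / 8)).Nonempty) :
    ((1 + (η + ε) / r) ^ 2)⁻¹ * (lam (interior Ks) + c) + (1 - η / r) * P Ks ≤
      lam (Metric.thickening ε K \ Metric.closedBall p' (δ / 8)) + P K := by
  set T : ℝ := 1 + (η + ε) / r with hTdef
  have hq0 : 0 ≤ (η + ε) / r := by positivity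
  have hT1 : 1 ≤ T := by linarith
  have hT0 : 0 < T := by linarith
  have hT2 : T ≤ 2 := by linarith
  set K₀ : Set Plane := (fun p => -x₀ + p) '' Ks with hK₀
  set v : Plane := -y - x₀ with hv
  have hCC0 : CC K₀ := cc_translate hK _
  have hCC1 : CC ((fun p => v + p) '' K) := cc_translate hKK _
  have himg : (fun p => v + p) '' ((fun p => y + p) '' Ks) = K₀ := by
    rw [Set.image_image, hK₀]
    congr 1
    funext p
    rw [hv]; abel
  have hd : Metric.hausdorffDist ((fun p => v + p) '' K) K₀ ≤ η := by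
    rw [← himg, Metric.hausdorffDist_image (isometry_add_left v)]
    exact hη
  have hb0 : Metric.closedBall 0 r ⊆ K₀ := by
    intro w hw
    refine ⟨x₀ + w, hball ?_, by simp⟩
    rw [Metric.mem_closedBall, dist_eq_norm] at hw ⊢
    simpa using hw
  obtain ⟨-, s2, s3⟩ := vsandwich hCC0 hCC1 hr hb0 hη0 hηr hd
  have h00 : (0 : Plane) ∈ K₀ := hb0 (Metric.mem_closedBall_self hr.le)
  have hlam0 : lam (interior K₀) = lam (interior Ks) := by
    rw [hK₀, interior_translate, lam_trans]
  set U : Set Plane := Metric.thickening ε K \ Metric.closedBall p' (δ / 8) with hU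
  have hUo : IsOpen U := Metric.isOpen_thickening.sdiff Metric.isClosed_closedBall
  have hvq : v + q ∈ K₀ := by
    rw [← himg]; exact ⟨q, hq, rfl⟩
  set q' : Plane := T⁻¹ • (v + q) with hq'
  have hq'm : q' ∈ K₀ :=
    hCC0.2.2.smul_mem_of_zero_mem h00 hvq ⟨by positivity, inv_le_one_of_one_le₀ hT1⟩
  set V : Set Plane := interior K₀ \ Metric.closedBall q' (δ / 32) with hV
  have hsub : (fun p => v + p) '' U ⊆ T • V := by
    rintro _ ⟨u, ⟨hu1, hu2⟩, rfl⟩
    have h1 : v + u ∈ Metric.thickening ε ((fun p => v + p) '' K) := by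
      rw [Metric.mem_thickening_iff] at hu1 ⊢
      obtain ⟨z, hz, hz'⟩ := hu1
      exact ⟨v + z, ⟨z, hz, rfl⟩, by rwa [dist_add_left]⟩
    obtain ⟨k, hk, hk'⟩ := s3 ε hε h1
    refine ⟨k, ⟨hk, fun hcon => hu2 ?_⟩, hk'⟩
    have hk2 : T • k = v + u := hk'
    have hq2 : T • q' = v + q := by
      rw [hq', smul_smul, mul_inv_cancel₀ hT0.ne', one_smul]
    have h2 : dist u q ≤ δ / 16 := by
      have e : dist u q = T * dist k q' := by
        rw [← dist_add_left v u q, ← hk2, ← hq2, dist_smul₀, Real.norm_eq_abs, abs_of_pos hT0]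
      rw [e]
      have h3 := Metric.mem_closedBall.1 hcon
      have h4 : 0 ≤ dist k q' := dist_nonneg
      nlinarith
    have h3 := dist_triangle u q p'
    have h4 := Metric.mem_closedBall.1 hp'
    rw [dist_comm] at h4
    rw [Metric.mem_closedBall]
    linarith
  have hVne : V.Nonempty := by
    obtain ⟨u, hu⟩ := hne
    obtain ⟨k, hk, -⟩ := hsub ⟨u, hu, rfl⟩
    exact ⟨k, hk⟩
  have hUo' : IsOpen ((fun p => v + p) '' U) := by
    have := (isOpenMap_add_left v) U hUo
    exact this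
  have h1 : lam (T • V) ≤ lam U := by
    rw [← lam_trans U v]
    exact lam_anti hUo' (hne.image _) hsub
  rw [lam_smul V hT0] at h1
  have h2 := hc q' hq'm hVne
  rw [hlam0] at h2
  have h3 : (T ^ 2)⁻¹ * (lam (interior Ks) + c) ≤ (T ^ 2)⁻¹ * lam V :=
    mul_le_mul_of_nonneg_left h2 (by positivity)
  have h4 : (1 - η / r) * P Ks ≤ P K := by
    have e1 : P K₀ = P Ks := hP.trans Ks hK _
    have hs : 0 ≤ 1 - η / r := by
      rw [sub_nonneg, div_le_one hr]; exact hηr.le
    rw [← e1, ← hP.smul K₀ hCC0 _ hs, ← hP.trans K hKK v]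
    exact hP.mono _ _ (cc_smul hCC0 _) hCC1 s2
  linarith

end VStable

open VStable in
/-- Stability. -/
theorem var_stable {P : Set Plane → ℝ} (hP : PerLike P) {Ks : Set Plane} (hK : CC Ks)
    (hKi : (interior Ks).Nonempty) (hmin : ∀ K, CC K → (interior K).Nonempty → FF P Ks ≤ FF P K)
    {δ : ℝ} (hδ : 0 < δ) : ∃ c > 0, ∃ ε₀ > 0, ∀ ε : ℝ, 0 < ε → ε ≤ ε₀ → ∀ K, CC K →
      ∀ R : Set Plane, R ⊆ Metric.thickening ε K →
      (∀ z : Plane, δ ≤ Metric.hausdorffDist R ((fun p => z + p) '' Ks)) →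
      FF P Ks + c ≤ lam (Metric.thickening ε K) + P K ∨
      ∃ p : Plane, Disjoint R (Metric.closedBall p (δ / 4)) ∧
        ∀ p' ∈ Metric.closedBall p (δ / 16),
          (Metric.thickening ε K \ Metric.closedBall p' (δ / 8)).Nonempty ∧
          FF P Ks + c ≤ lam (Metric.thickening ε K \ Metric.closedBall p' (δ / 8)) + P K := by
  by_contra hcon
  push Not at hcon
  have hpos : ∀ n : ℕ, 0 < 1 / ((n : ℝ) + 1) := fun n => by positivity
  have hseq := fun n : ℕ => hcon (1 / ((n : ℝ) + 1)) (hpos n) (1 / ((n : ℝ) + 1)) (hpos n)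
  choose e he0 he1 K hKC R hRK hRd hl hp using hseq
  have hinv : Tendsto (fun n : ℕ => 1 / ((n : ℝ) + 1)) atTop (𝓝 0) :=
    tendsto_one_div_add_atTop_nhds_zero_nat
  have he : Tendsto e atTop (𝓝 0) :=
    squeeze_zero (fun n => (he0 n).le) he1 hinv
  obtain ⟨K', z, φ, hK'C, hK'i, hφ, hFF, hH⟩ := var_limit hP hKC he0 he hinv
    (m := FF P Ks) (fun n => (hl n).le)
  obtain ⟨w, hw⟩ := var_unique hP hK'C hK hK'i hKi
    (fun L hL hLi => hFF.trans (hmin L hL hLi)) hmin
  -- the ball
  obtain ⟨x₀, hx₀⟩ := hKi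
  obtain ⟨r, hr, hball⟩ := Metric.isOpen_iff.1 isOpen_interior x₀ hx₀
  have hball' : Metric.closedBall x₀ (r / 2) ⊆ Ks :=
    (Metric.closedBall_subset_ball (by linarith)).trans (hball.trans interior_subset)
  have hr2 : 0 < r / 2 := by linarith
  have hK0i : (interior ((fun p => -x₀ + p) '' Ks)).Nonempty := by
    rw [interior_translate]
    exact ⟨_, x₀, hx₀, rfl⟩
  obtain ⟨c, hc0, hc⟩ := ball_gap (cc_translate hK (-x₀)) hK0i (ρ := δ / 32) (by positivity)
  set y : ℕ → Plane := fun n => z n + w with hy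
  have hyK : ∀ n, (fun p => z n + p) '' K' = (fun p => y n + p) '' Ks := by
    intro n
    rw [hw, Set.image_image]
    congr 1
    funext p
    simp only [hy]
    abel
  set η : ℕ → ℝ := fun n => Metric.hausdorffDist (K (φ n)) ((fun p => y n + p) '' Ks) with hη
  have hη0 : Tendsto η atTop (𝓝 0) := by
    refine hH.congr fun n => ?_
    rw [hyK]
  have heφ : Tendsto (fun n => e (φ n)) atTop (𝓝 0) := he.comp hφ.tendsto_atTop
  have hinvφ : Tendsto (fun n => 1 / ((φ n : ℝ) + 1)) atTop (𝓝 0) :=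
    hinv.comp hφ.tendsto_atTop
  have hsum : Tendsto (fun n => η n + e (φ n)) atTop (𝓝 0) := by
    simpa using hη0.add heφ
  -- the inequality
  have hev : ∀ᶠ n in atTop, ((1 + (η n + e (φ n)) / (r / 2)) ^ 2)⁻¹ * (lam (interior Ks) + c) +
      (1 - η n / (r / 2)) * P Ks ≤ FF P Ks + 1 / ((φ n : ℝ) + 1) := by
    have h1 : ∀ᶠ n in atTop, η n + e (φ n) < min (δ / 2) (r / 2) :=
      hsum.eventually (gt_mem_nhds (lt_min (by linarith) hr2))
    filter_upwards [h1] with n hn
    have hn1 : η n + e (φ n) < δ / 2 := hn.trans_le (min_le_left _ _)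
    have hn2 : η n + e (φ n) < r / 2 := hn.trans_le (min_le_right _ _)
    have hηn : 0 ≤ η n := Metric.hausdorffDist_nonneg
    have hen := he0 (φ n)
    have hKC' := hKC (φ n)
    have hSC : CC ((fun p => y n + p) '' Ks) := cc_translate hK _
    have hfin : Metric.hausdorffEDist (K (φ n)) ((fun p => y n + p) '' Ks) ≠ ⊤ :=
      Metric.hausdorffEDist_ne_top_of_nonempty_of_bounded hKC'.1 hSC.1 hKC'.2.1.isBounded
        hSC.2.1.isBounded
    have hRne : (R (φ n)).Nonempty := by
      rw [Set.nonempty_iff_ne_empty]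
      intro h0
      have := hRd (φ n) 0
      rw [h0, Metric.hausdorffDist_empty'] at this
      linarith
    -- the points of `R` are close to `S`
    have hRS : ∀ x ∈ R (φ n), Metric.infDist x ((fun p => y n + p) '' Ks) ≤ η n + e (φ n) := by
      intro x hx
      obtain ⟨u, hu, hxu⟩ := Metric.mem_thickening_iff.1 (hRK (φ n) hx)
      have h2 : Metric.infDist u ((fun p => y n + p) '' Ks) ≤ η n :=
        Metric.infDist_le_hausdorffDist_of_mem hu hfin
      have h3 : Metric.infDist x ((fun p => y n + p) '' Ks) ≤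
          Metric.infDist u ((fun p => y n + p) '' Ks) + dist x u :=
        Metric.infDist_le_infDist_add_dist
      linarith
    obtain ⟨q, hq, hqR⟩ : ∃ q ∈ (fun p => y n + p) '' Ks, δ / 2 < Metric.infDist q (R (φ n)) := by
      by_contra hno
      push Not at hno
      have h2 := Metric.hausdorffDist_le_of_infDist (r := max (δ / 2) (η n + e (φ n)))
        (by positivity) (fun x hx => (hRS x hx).trans (le_max_right _ _))
        (fun x hx => (hno x hx).trans (le_max_left _ _))
      have h3 := hRd (φ n) (y n)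
      have h4 : max (δ / 2) (η n + e (φ n)) < δ := max_lt (by linarith) (by linarith)
      linarith
    have hdist : ∀ x ∈ R (φ n), δ / 2 < dist q x := fun x hx =>
      hqR.trans_le (Metric.infDist_le_dist_of_mem hx)
    have hdisj : Disjoint (R (φ n)) (Metric.closedBall q (δ / 4)) := by
      rw [Set.disjoint_left]
      intro x hx hx'
      have h2 := hdist x hx
      have h3 := Metric.mem_closedBall.1 hx'
      rw [dist_comm] at h3
      linarith
    obtain ⟨p', hp'm, hp'⟩ := hp (φ n) q hdisj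
    have hne : (Metric.thickening (e (φ n)) (K (φ n)) \ Metric.closedBall p' (δ / 8)).Nonempty := by
      obtain ⟨x, hx⟩ := hRne
      refine ⟨x, hRK (φ n) hx, fun hx' => ?_⟩
      have h2 := hdist x hx
      have h3 := Metric.mem_closedBall.1 hx'
      have h4 := Metric.mem_closedBall.1 hp'm
      have h5 := dist_triangle q p' x
      rw [dist_comm] at h3 h4
      linarith
    have h6 := step hP hK hr2 hball' hc hKC' hηn le_rfl (by linarith) hen
      ((div_le_one hr2).2 hn2.le) hq hp'm hne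
    exact h6.trans (hp' hne).le
  -- the limit
  have hlim1 : Tendsto (fun n => ((1 + (η n + e (φ n)) / (r / 2)) ^ 2)⁻¹ *
      (lam (interior Ks) + c) + (1 - η n / (r / 2)) * P Ks) atTop
      (𝓝 (((1 + 0 / (r / 2)) ^ 2)⁻¹ * (lam (interior Ks) + c) + (1 - 0 / (r / 2)) * P Ks)) := by
    refine Tendsto.add (Tendsto.mul_const _ (Tendsto.inv₀ ?_ ?_)) (Tendsto.mul_const _ ?_)
    · exact ((hsum.div_const _).const_add 1).pow 2
    · simp
    · exact (hη0.div_const _).const_sub 1
  have hlim2 : Tendsto (fun n => FF P Ks + 1 / ((φ n : ℝ) + 1)) atTop (𝓝 (FF P Ks + 0)) :=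
    hinvφ.const_add _
  have hfinal := le_of_tendsto_of_tendsto hlim1 hlim2 hev
  simp only [zero_div, add_zero, one_pow, inv_one, one_mul, sub_zero] at hfinal
  unfold FF at hfinal
  linarith

end Pool.Agent.WSB71
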