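import Pool.Agent.WSB71.UMain
import Pool.Agent.WSB71.VStable

/-!
# TOP1: the shape theorem on path space
-/

open MeasureTheory Filter Topology
open scoped NNReal ENNReal Pointwise

namespace Pool.Agent.WSB71

open Pool.Agent.LT

namespace TopP

/-- The minimal value is almost a lower bound for thickenings. -/
lemma min_thick {P : Set Plane → ℝ} (hP : PerLike P) {Ks : Set Plane}
    (hmin : ∀ K, CC K → (interior K).Nonempty → FF P Ks ≤ FF P K) {K : Set Plane} (hK : CC K)
    {e : ℝ} (he : 0 < e) :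
    FF P Ks ≤ lam (Metric.thickening e K) + P K + e * P (Metric.closedBall 0 1) := by
  have hB : CC (Metric.closedBall (0 : Plane) 1) :=
    ⟨⟨0, Metric.mem_closedBall_self zero_le_one⟩, isCompact_closedBall _ _, convex_closedBall _ _⟩
  have hBe : CC (e • Metric.closedBall (0 : Plane) 1) := cc_smul hB e
  have hKB : CC (K + e • Metric.closedBall (0 : Plane) 1) := cc_add hK hBe
  have hth : Metric.thickening e K ⊆ K + e • Metric.closedBall (0 : Plane) 1 := by
    intro x hx
    obtain ⟨y, hy, hxy⟩ := Metric.mem_thickening_iff.1 hx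
    refine ⟨y, hy, x - y, ?_, by simp⟩
    refine ⟨e⁻¹ • (x - y), ?_, ?_⟩
    · rw [mem_closedBall_zero_iff, norm_smul, norm_inv, Real.norm_eq_abs, abs_of_pos he,
        ← dist_eq_norm, inv_mul_le_iff₀ he, mul_one]
      exact hxy.le
    · simp only
      rw [smul_smul, mul_inv_cancel₀ he.ne', one_smul]
  have hint : Metric.thickening e K ⊆ interior (K + e • Metric.closedBall (0 : Plane) 1) :=
    interior_maximal hth Metric.isOpen_thickening
  have hne : (Metric.thickening e K).Nonempty := by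
    obtain ⟨x, hx⟩ := hK.1
    exact ⟨x, Metric.self_subset_thickening he K hx⟩
  have h1 := hmin _ hKB (hne.mono hint)
  have h2 : lam (interior (K + e • Metric.closedBall (0 : Plane) 1)) ≤
      lam (Metric.thickening e K) := lam_anti Metric.isOpen_thickening hne hint
  have h3 := hP.add_le K (e • Metric.closedBall (0 : Plane) 1) hK hBe
  rw [hP.smul _ hB e he.le] at h3
  unfold FF at h1 ⊢
  linarith

lemma PerLike.nonneg {P : Set Plane → ℝ} (hP : PerLike P) {K : Set Plane} (hK : CC K) :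
    0 ≤ P K := by
  obtain ⟨a, ha, h⟩ := hP.lower
  have := h K hK
  have h1 : 0 ≤ a * Metric.diam K := mul_nonneg ha.le Metric.diam_nonneg
  linarith

/-- A finite net of a ball. -/
lemma exists_net (R δ : ℝ) (hδ : 0 < δ) :
    ∃ Pc : Finset Plane, ∀ p : Plane, ‖p‖ ≤ R → ∃ p' ∈ Pc, dist p' p ≤ δ := by
  obtain ⟨T, -, hT1, hT2⟩ := (isCompact_closedBall (0 : Plane) R).finite_cover_balls hδ
  refine ⟨hT1.toFinset, fun p hp => ?_⟩
  obtain ⟨q, hq1, hq2⟩ := Set.mem_iUnion₂.1 (hT2 (mem_closedBall_zero_iff.2 hp))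
  refine ⟨q, hT1.mem_toFinset.2 hq1, ?_⟩
  rw [dist_comm]
  exact (Metric.mem_ball.1 hq2).le

lemma zero_mem_sR (t : ℝ≥0) {f : WP} (hf : f.1 0 = 0) : (0 : Plane) ∈ sR t f := by
  refine ⟨0, ?_, ?_⟩
  · rw [Finset.mem_coe, mem_rangeF]
    exact ⟨0, zero_le, hf⟩
  · have : toPlane (0 : Site) = 0 := by
      ext i
      fin_cases i <;> simp [toPlane]
    simp only [this, smul_zero]

end TopP

open TopP

theorem shape_path : ∃ β₀ : ℝ, 1 ≤ β₀ ∧ ∀ β : ℝ, β₀ ≤ β → (∃ μ : Measure WP, IsLaw μ) →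
    ∃ Ks : Set Plane, CC Ks ∧ (interior Ks).Nonempty ∧ ∀ δ > 0, ∀ κ > 0,
      ∃ t₀ : ℝ≥0, ∀ t : ℝ≥0, t₀ ≤ t → ∀ μ : Measure WP, IsLaw μ →
        μ (evtE β t) ≠ 0 ∧
        μ {f | f ∈ evtE β t ∧ ∀ z : Plane, δ ≤ Metric.hausdorffDist (sR t f)
          ((fun p => z + p) '' Ks)} ≤ ENNReal.ofReal κ * μ (evtE β t) := by
  obtain ⟨β1, hβ1, hUB⟩ := ub_main
  obtain ⟨β2, hβ2, hFl⟩ := realizable_flat (η := 1) one_pos
  obtain ⟨β3, hβ3, hLo⟩ := realizable_lower
  refine ⟨max β1 (max β2 β3), hβ1.trans (le_max_left _ _), ?_⟩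
  intro β hβ hex
  obtain ⟨ν, hν⟩ := hex
  have hb1 : β1 ≤ β := (le_max_left _ _).trans hβ
  have hb2 : β2 ≤ β := (le_max_left _ _).trans ((le_max_right _ _).trans hβ)
  have hb3 : β3 ≤ β := (le_max_right _ _).trans ((le_max_right _ _).trans hβ)
  have hβone : 1 ≤ β := hβ1.trans hb1
  have hβ0 : 0 < β := by linarith
  have hlow := hLo β hb3 ν hν
  have hflat := hFl β hb2
  have hP : PerLike (PP β) := PP_perLike (by linarith : 0 < β / 2) hlow hflat
  obtain ⟨Ks, hCC, hint, hsym, hmin⟩ := var_exists hP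
  refine ⟨Ks, hCC, hint, ?_⟩
  intro δ hδ κ hκ
  obtain ⟨c, hc, ε₀, hε₀, hstab⟩ := var_stable hP hCC hint hmin hδ
  set F := FF (PP β) Ks with hF
  set ε := ε₀ with hε
  obtain ⟨c', hc'⟩ : ∃ c', c' = min c (β * ε / 16) := ⟨_, rfl⟩
  have hc'0 : 0 < c' := by rw [hc']; positivity
  have hc'c : c' ≤ c := by rw [hc']; exact min_le_left _ _
  have hc'ε : c' ≤ β * ε / 16 := by rw [hc']; exact min_le_right _ _
  have hPball : 0 ≤ PP β (Metric.closedBall 0 1) := PerLike.nonneg hP
    ⟨⟨0, Metric.mem_closedBall_self zero_le_one⟩, isCompact_closedBall _ _, convex_closedBall _ _⟩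
  obtain ⟨ε₂, hε₂⟩ : ∃ ε₂, ε₂ = min ε (β * ε / 16 / (PP β (Metric.closedBall 0 1) + 1)) := ⟨_, rfl⟩
  have hε₂0 : 0 < ε₂ := by rw [hε₂]; positivity
  have hε₂ε : ε₂ ≤ ε := by rw [hε₂]; exact min_le_left _ _
  have hε₂P : ε₂ * PP β (Metric.closedBall 0 1) ≤ β * ε / 16 := by
    have h1 : ε₂ ≤ β * ε / 16 / (PP β (Metric.closedBall 0 1) + 1) := by
      rw [hε₂]; exact min_le_right _ _
    have h2 : ε₂ * (PP β (Metric.closedBall 0 1) + 1) ≤ β * ε / 16 := by
      rwa [le_div_iff₀ (by positivity)] at h1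
    nlinarith
  have hFn : 0 ≤ F := by
    rw [hF]; unfold FF
    have := PerLike.nonneg hP hCC
    have := lam_nonneg (interior Ks)
    linarith
  obtain ⟨a₀, ha₀, hdiam⟩ := hP.lower
  set a := F + c' with ha
  have ha0 : 0 < a := by linarith
  -- the net
  obtain ⟨Pc, hPc⟩ := exists_net (a / a₀ + 2 * ε + δ) (δ / 16) (by positivity)
  obtain ⟨t₁, ht₁⟩ := hUB β hb1 ν hν a ε ε₂ (c' / 4) (3 * δ / 16) (δ / 8) ha0 hε₀ hε₂0 hε₂ε
    (by positivity) (by positivity) (by linarith) Pc
  -- the lower bound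
  obtain ⟨m, v, x, cc, hx, hr, hsub, hcost⟩ := exists_zonogon (by linarith : 0 < β / 2) hlow hflat
    hCC hint hsym (ε := c' / 8) (by positivity)
  have hzi : interior Ks ⊆ interior (zonogon v x) := interior_mono hsub
  obtain ⟨t₂, ht₂⟩ := lb_main hβone v x cc hx hr (hint.mono hzi) (ε := c' / 8) (by positivity)
  have hlamz : lam (interior (zonogon v x)) ≤ lam (interior Ks) :=
    lam_anti isOpen_interior hint hzi
  -- large times
  have hNN : Tendsto (fun t : ℝ≥0 => NN3 t) atTop atTop := by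
    unfold NN3
    exact (tendsto_rpow_atTop (by norm_num : (0 : ℝ) < 1 / 3)).comp
      (NNReal.tendsto_coe_atTop.2 tendsto_id)
  have hexp : ∀ᶠ t : ℝ≥0 in atTop, Real.exp (-(c' / 2 * NN3 t)) ≤ κ := by
    have h1 : Tendsto (fun t : ℝ≥0 => Real.exp (-(c' / 2 * NN3 t))) atTop (𝓝 0) :=
      Real.tendsto_exp_neg_atTop_nhds_zero.comp (hNN.const_mul_atTop (by positivity))
    exact (h1.eventually (gt_mem_nhds hκ)).mono fun _ h => h.le
  obtain ⟨t₃, ht₃⟩ := eventually_atTop.1 hexp
  refine ⟨max t₁ (max t₂ t₃), ?_⟩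
  intro t ht μ hμ
  have hμν : μ = ν := isLaw_unique hμ hν
  subst hμν
  have hprob := hμ.prob
  have e1 : t₁ ≤ t := (le_max_left _ _).trans ht
  have e2 : t₂ ≤ t := (le_max_left _ _).trans ((le_max_right _ _).trans ht)
  have e3 : t₃ ≤ t := (le_max_right _ _).trans ((le_max_right _ _).trans ht)
  have hN0 : 0 ≤ NN3 t := by unfold NN3; positivity
  have hL : Real.exp (-((F + c' / 4) * NN3 t)) ≤ μ.real (evtE β t) := by
    refine le_trans (Real.exp_le_exp.2 ?_) (ht₂ t e2 μ hμ)
    have h1 : 2 * ∑ i, x i * cc i + lam (interior (zonogon v x)) + c' / 8 ≤ F + c' / 4 := by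
      rw [hF]; unfold FF
      linarith
    have h2 := mul_le_mul_of_nonneg_right h1 hN0
    unfold NN3 at h2 ⊢
    linarith
  have hLpos : 0 < μ.real (evtE β t) := lt_of_lt_of_le (Real.exp_pos _) hL
  refine ⟨?_, ?_⟩
  · intro h0
    rw [Measure.real, h0] at hLpos
    simp at hLpos
  set S : Set WP := {f | ∀ z : Plane, δ ≤ Metric.hausdorffDist (sR t f)
          ((fun p => z + p) '' Ks)} with hS
  have hset : {f | f ∈ evtE β t ∧ ∀ z : Plane, δ ≤ Metric.hausdorffDist (sR t f)
          ((fun p => z + p) '' Ks)} = S ∩ evtE β t := by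
    ext f
    simp only [hS, Set.mem_inter_iff, Set.mem_setOf_eq, and_comm]
  rw [hset]
  have hU := ht₁ t e1 a le_rfl S ?_ ?_
  · refine hU.trans ?_
    have h1 : μ (evtE β t) = ENNReal.ofReal (μ.real (evtE β t)) := by
      rw [Measure.real, ENNReal.ofReal_toReal (measure_ne_top _ _)]
    rw [h1, ← ENNReal.ofReal_mul hκ.le]
    apply ENNReal.ofReal_le_ofReal
    have h2 : Real.exp (-((a - c' / 4) * NN3 t)) =
        Real.exp (-(c' / 2 * NN3 t)) * Real.exp (-((F + c' / 4) * NN3 t)) := by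
      rw [← Real.exp_add]
      congr 1
      rw [ha]; ring
    rw [h2]
    exact mul_le_mul (ht₃ t e3) hL (Real.exp_pos _).le hκ.le
  · intro f hfS hfE hf0 K hK hsubK
    rcases hstab ε hε₀ le_rfl K hK (sR t f) hsubK hfS with h1 | ⟨p, hp1, hp2⟩
    · left; linarith
    by_cases hPK : a ≤ PP β K
    · left
      have := lam_nonneg (Metric.thickening ε K)
      linarith
    push Not at hPK
    have hd : Metric.diam K ≤ a / a₀ := by
      rw [le_div_iff₀ ha₀]
      have := hdiam K hK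
      linarith
    by_cases hpR : ‖p‖ ≤ a / a₀ + 2 * ε + δ
    · right
      obtain ⟨p', hp'1, hp'2⟩ := hPc p hpR
      refine ⟨p', hp'1, ?_, ?_⟩
      · refine hp1.mono_right ?_
        apply Metric.closedBall_subset_closedBall'
        linarith
      · have := (hp2 p' (Metric.mem_closedBall.2 hp'2)).2
        linarith
    · left
      push Not at hpR
      have h2 := (hp2 p (Metric.mem_closedBall_self (by positivity))).2
      have h3 : Metric.thickening ε K \ Metric.closedBall p (δ / 8) = Metric.thickening ε K := by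
        rw [sdiff_eq_left]
        rw [Set.disjoint_left]
        intro y hy hyp
        obtain ⟨k, hk, hyk⟩ := Metric.mem_thickening_iff.1 hy
        obtain ⟨k₀, hk₀, h0k⟩ := Metric.mem_thickening_iff.1 (hsubK (zero_mem_sR t hf0))
        have h4 := Metric.dist_le_diam_of_mem hK.2.1.isBounded hk hk₀
        have h5 : ‖p‖ = dist p 0 := (dist_zero_right p).symm
        have h6 := dist_triangle4 p y k k₀
        have h7 := dist_triangle p k₀ 0
        rw [Metric.mem_closedBall] at hyp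
        rw [dist_comm y p] at hyp
        rw [dist_comm 0 k₀] at h0k
        linarith
      rw [h3] at h2
      linarith
  · intro K hK
    have h1 := min_thick hP hmin hK hε₂0
    rw [← hF] at h1
    linarith

end Pool.Agent.WSB71
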