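import Pool.Agent.WSB71.TopMain
import Pool.Agent.WSB71.TopPath

/-!
# The final theorems

`shape_path` (TopPath.lean): the shape theorem on path space; `main_full_of` (TopMain.lean), `scale_full_of`
(TopScale.lean): transfer to processes.
-/

open MeasureTheory Filter Topology
open scoped NNReal ENNReal

namespace Pool.Agent.WSB71

open Pool.Agent.LT

universe u

/-- **Main theorem.** -/
theorem main_full : ∃ β₀ : ℝ, 0 < β₀ ∧ ∃ S : ℝ → Set (EuclideanSpace ℝ (Fin 2)),
    ∀ (Ω : Type u) [MeasurableSpace Ω] (P : Measure Ω) (X : ℝ≥0 → Ω → Site), IsSRW P X →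
      (∀ β : ℝ, β₀ ≤ β → (S β).Nonempty ∧ IsCompact (S β) ∧
        (∀ᶠ t : ℝ≥0 in atTop, P (evt X β t) ≠ 0) ∧
        ∀ ε > 0, Tendsto (fun t : ℝ≥0 => ProbabilityTheory.cond P (evt X β t)
          {ω | ε ≤ shapeDist (S β) X t ω}) atTop (𝓝 0)) ∧
      Tendsto (fun β => ⨅ z : EuclideanSpace ℝ (Fin 2),
        Metric.hausdorffDist (S β) ((fun p => z + p) '' unitSquare)) atTop (𝓝 0) :=
  main_full_of.{u} shape_path

end Pool.Agent.WSB71
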