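import Pool.Agent.WSB71.APMain

/-!
# UB: the scaled range; `datum_exists` is in `UDatum.lean`, the final upper bound `ub_main` in `UMain.lean`
-/

open MeasureTheory Filter Topology
open scoped NNReal ENNReal

namespace Pool.Agent.WSB71

open Pool.Agent.LT

/-- The scaled range. -/
noncomputable def sR (t : ℝ≥0) (f : WP) : Set Plane :=
  (fun x : Site => (NN3 t)⁻¹ • toPlane x) '' (rangeF t f : Set Site)

end Pool.Agent.WSB71
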