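import Pool.Agent.LT.Main
import Pool.Agent.WSB71.UBFinal
import Pool.Agent.WSB71.VDef

/-!
# The final theorem from the statement on path space

`main_full_of`: transfer from `IsLaw` to `IsSRW`, rescaling by the diameter, convergence to the
square (`shapes_converge`).
-/

open MeasureTheory Filter Topology
open scoped NNReal ENNReal Pointwise

namespace Pool.Agent.WSB71

open Pool.Agent.LT

universe u

/-! ### Rescaling by the diameter -/

/-- The diameters of Hausdorff close sets are close. -/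
lemma diam_le_add_of_close {A B : Set Plane} {δ : ℝ} (hB : Bornology.IsBounded B) (hδ : 0 ≤ δ)
    (h : ∀ x ∈ A, ∃ y ∈ B, dist x y < δ) : Metric.diam A ≤ Metric.diam B + 2 * δ := by
  apply Metric.diam_le_of_forall_dist_le (by have := Metric.diam_nonneg (s := B); linarith)
  intro x hx y hy
  obtain ⟨x', hx', h1⟩ := h x hx
  obtain ⟨y', hy', h2⟩ := h y hy
  have h3 := Metric.dist_le_diam_of_mem hB hx' hy'
  have h4 := dist_triangle4 x x' y' y
  rw [dist_comm y' y] at h4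
  linarith

/-- If `c⁻¹ R` is close to `z + K` then `R / diam R` is close to a translate of `K / diam K`. -/
lemma close_rescale {R K : Set Plane} {c δ M : ℝ} {z : Plane} (hc : 0 < c) (hδ : 0 < δ)
    (hRb : Bornology.IsBounded R) (hRne : R.Nonempty) (hKb : Bornology.IsBounded K)
    (hKne : K.Nonempty) (hM : 0 ≤ M) (hKM : ∀ k ∈ K, ‖k‖ ≤ M) (hd : 0 < Metric.diam K)
    (hδd : 4 * δ ≤ Metric.diam K)
    (h : Metric.hausdorffDist ((fun p => c⁻¹ • p) '' R) ((fun p => z + p) '' K) < δ) :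
    ∃ w : Plane, Metric.hausdorffDist ((fun p => (Metric.diam R)⁻¹ • p) '' R)
      ((fun p => w + p) '' ((fun p => (Metric.diam K)⁻¹ • p) '' K))
      ≤ (2 / Metric.diam K + 4 * M / Metric.diam K ^ 2) * δ := by
  set d := Metric.diam K with hdd
  set A : Set Plane := (fun p => c⁻¹ • p) '' R with hA
  set B : Set Plane := (fun p => z + p) '' K with hBdef
  have hBb : Bornology.IsBounded B := (isometry_add z).lipschitz.isBounded_image hKb
  have hAsm : A = c⁻¹ • R := rfl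
  have hAb : Bornology.IsBounded A := by rw [hAsm]; exact hRb.smul₀ _
  have hAne : A.Nonempty := hRne.image _
  have hBne : B.Nonempty := hKne.image _
  have hfin : Metric.hausdorffEDist A B ≠ ⊤ := edist_ne_top hAne hBne hAb hBb
  have hAB : ∀ x ∈ A, ∃ y ∈ B, dist x y < δ := fun x hx =>
    Metric.exists_dist_lt_of_hausdorffDist_lt hx h hfin
  have hBA : ∀ y ∈ B, ∃ x ∈ A, dist y x < δ := fun y hy => by
    obtain ⟨x, hx, h1⟩ := Metric.exists_dist_lt_of_hausdorffDist_lt' hy h hfin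
    exact ⟨x, hx, by rw [dist_comm]; exact h1⟩
  have hdB : Metric.diam B = d := (isometry_add z).diam_image K
  have hdA : Metric.diam A = c⁻¹ * Metric.diam R := by
    rw [hAsm, diam_smul₀, Real.norm_eq_abs, abs_of_pos (by positivity)]
  have h1 := diam_le_add_of_close hBb hδ.le hAB
  have h2 := diam_le_add_of_close hAb hδ.le hBA
  set a := Metric.diam A with haa
  rw [hdB] at h1 h2
  have ha0 : d / 2 ≤ a := by linarith
  have hapos : 0 < a := by linarith
  have hkey : |a⁻¹ - d⁻¹| ≤ 4 * δ / d ^ 2 := by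
    have h3 : a⁻¹ - d⁻¹ = (d - a) / (a * d) := by field_simp
    rw [h3, abs_div, abs_of_pos (by positivity : 0 < a * d)]
    have h4 : |d - a| ≤ 2 * δ := by rw [abs_le]; constructor <;> linarith
    rw [div_le_div_iff₀ (by positivity) (by positivity)]
    have h5 : |d - a| * d ^ 2 ≤ 2 * δ * d ^ 2 := by gcongr
    have h6 : 4 * δ * (d / 2 * d) ≤ 4 * δ * (a * d) := by gcongr
    nlinarith
  have hainv : a⁻¹ ≤ 2 / d := by
    rw [inv_le_comm₀ hapos (by positivity)]
    rw [inv_div]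
    exact ha0
  have hscale : ∀ p : Plane, (Metric.diam R)⁻¹ • p = a⁻¹ • (c⁻¹ • p) := by
    intro p
    rw [smul_smul]
    congr 1
    rw [hdA]
    field_simp
  have hbound : ∀ x k : Plane, k ∈ K → dist x (z + k) < δ →
      dist (a⁻¹ • x) (a⁻¹ • z + d⁻¹ • k) ≤ (2 / d + 4 * M / d ^ 2) * δ := by
    intro x k hk hx
    have e1 : dist (a⁻¹ • x) (a⁻¹ • (z + k)) = a⁻¹ * dist x (z + k) := by
      rw [dist_smul₀, Real.norm_eq_abs, abs_of_pos (by positivity)]
    have e2 : dist (a⁻¹ • (z + k)) (a⁻¹ • z + d⁻¹ • k) = |a⁻¹ - d⁻¹| * ‖k‖ := by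
      rw [smul_add, dist_add_left, dist_eq_norm, ← sub_smul, norm_smul, Real.norm_eq_abs]
    have e3 := dist_triangle (a⁻¹ • x) (a⁻¹ • (z + k)) (a⁻¹ • z + d⁻¹ • k)
    rw [e1, e2] at e3
    have e4 : a⁻¹ * dist x (z + k) ≤ 2 / d * δ := by gcongr
    have e5 : |a⁻¹ - d⁻¹| * ‖k‖ ≤ 4 * δ / d ^ 2 * M := by
      gcongr
      exact hKM k hk
    have e6 : (2 / d + 4 * M / d ^ 2) * δ = 2 / d * δ + 4 * δ / d ^ 2 * M := by ring
    linarith
  refine ⟨a⁻¹ • z, Metric.hausdorffDist_le_of_mem_dist (by positivity) ?_ ?_⟩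
  · rintro _ ⟨r, hr, rfl⟩
    obtain ⟨_, ⟨k, hk, rfl⟩, h3⟩ := hAB _ ⟨r, hr, rfl⟩
    refine ⟨a⁻¹ • z + d⁻¹ • k, ⟨d⁻¹ • k, ⟨k, hk, rfl⟩, rfl⟩, ?_⟩
    simp only [hscale]
    exact hbound _ k hk h3
  · rintro _ ⟨_, ⟨k, hk, rfl⟩, rfl⟩
    obtain ⟨_, ⟨r, hr, rfl⟩, h3⟩ := hBA _ ⟨k, hk, rfl⟩
    refine ⟨(Metric.diam R)⁻¹ • r, ⟨r, hr, rfl⟩, ?_⟩
    simp only [hscale]
    rw [dist_comm]
    apply hbound _ k hk
    rw [dist_comm]
    exact h3

/-! ### Conditional probabilities -/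

section

variable {Ω : Type*} [MeasurableSpace Ω] {P : Measure Ω} {X : ℝ≥0 → Ω → Site}

/-- Transfer of conditional probabilities. -/
lemma cond_le_of {β : ℝ} {t : ℝ≥0} {κ : ℝ} (h : IsSRW P X) {T : Set WP} {B : Set Ω}
    (hT : (P.map (pathOf h.path)) {f | f ∈ evtE β t ∧ f ∈ T}
      ≤ ENNReal.ofReal κ * (P.map (pathOf h.path)) (evtE β t))
    (hB : ∀ ω, ω ∈ B → pathOf h.path ω ∈ T) :
    ProbabilityTheory.cond P (evt X β t) B ≤ ENNReal.ofReal κ := by
  rw [ProbabilityTheory.cond_apply (measurableSet_evt h β t)]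
  have h1 : P (evt X β t ∩ B) ≤ ENNReal.ofReal κ * P (evt X β t) := by
    rw [prob_evt h]
    refine le_trans ?_ hT
    refine le_trans ?_ (Measure.le_map_apply (measurable_pathOf h.path h.meas).aemeasurable _)
    apply measure_mono
    rintro ω ⟨h2, h3⟩
    rw [evt_eq h] at h2
    exact ⟨h2, hB ω h3⟩
  calc (P (evt X β t))⁻¹ * P (evt X β t ∩ B)
      ≤ (P (evt X β t))⁻¹ * (ENNReal.ofReal κ * P (evt X β t)) := by gcongr
    _ = ENNReal.ofReal κ * (P (evt X β t) * (P (evt X β t))⁻¹) := by ring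
    _ ≤ ENNReal.ofReal κ * 1 := by gcongr; exact ENNReal.mul_inv_le_one _
    _ = _ := mul_one _

end

lemma sR_eq (t : ℝ≥0) (f : WP) :
    sR t f = (fun p : Plane => (NN3 t)⁻¹ • p) '' (toPlane '' (rangeF t f : Set Site)) := by
  unfold sR
  rw [Set.image_image]

/-- **The final theorem from the statement on path space.** -/
theorem main_full_of (H : ∃ β₀ : ℝ, 1 ≤ β₀ ∧ ∀ β : ℝ, β₀ ≤ β → (∃ μ : Measure WP, IsLaw μ) →
    ∃ Ks : Set Plane, CC Ks ∧ (interior Ks).Nonempty ∧ ∀ δ > 0, ∀ κ > 0,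
      ∃ t₀ : ℝ≥0, ∀ t : ℝ≥0, t₀ ≤ t → ∀ μ : Measure WP, IsLaw μ →
        μ (evtE β t) ≠ 0 ∧
        μ {f | f ∈ evtE β t ∧ ∀ z : Plane, δ ≤ Metric.hausdorffDist (sR t f)
          ((fun p => z + p) '' Ks)} ≤ ENNReal.ofReal κ * μ (evtE β t)) :
    ∃ β₀ : ℝ, 0 < β₀ ∧ ∃ S : ℝ → Set (EuclideanSpace ℝ (Fin 2)),
    ∀ (Ω : Type u) [MeasurableSpace Ω] (P : Measure Ω) (X : ℝ≥0 → Ω → Site), IsSRW P X →
      (∀ β : ℝ, β₀ ≤ β → (S β).Nonempty ∧ IsCompact (S β) ∧
        (∀ᶠ t : ℝ≥0 in atTop, P (evt X β t) ≠ 0) ∧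
        ∀ ε > 0, Tendsto (fun t : ℝ≥0 => ProbabilityTheory.cond P (evt X β t)
          {ω | ε ≤ shapeDist (S β) X t ω}) atTop (𝓝 0)) ∧
      Tendsto (fun β => ⨅ z : EuclideanSpace ℝ (Fin 2),
        Metric.hausdorffDist (S β) ((fun p => z + p) '' unitSquare)) atTop (𝓝 0) := by
  classical
  obtain ⟨β₀, hβ₀, H⟩ := H
  by_cases hlaw : ∃ μ : Measure WP, IsLaw μ
  swap
  · refine ⟨1, one_pos, fun _ => ∅, ?_⟩
    intro Ω _ P X hX
    exact absurd ⟨_, hX.isLaw⟩ hlaw
  choose! Ks hK using fun β (hβ : β₀ ≤ β) => H β hβ hlaw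
  refine ⟨β₀, by linarith, fun β => (fun p => (Metric.diam (Ks β))⁻¹ • p) '' Ks β, ?_⟩
  intro Ω _ P X hX
  have hmain : ∀ β : ℝ, β₀ ≤ β →
      ((fun p : Plane => (Metric.diam (Ks β))⁻¹ • p) '' Ks β).Nonempty ∧
      IsCompact ((fun p : Plane => (Metric.diam (Ks β))⁻¹ • p) '' Ks β) ∧
        (∀ᶠ t : ℝ≥0 in atTop, P (evt X β t) ≠ 0) ∧
        ∀ ε > 0, Tendsto (fun t : ℝ≥0 => ProbabilityTheory.cond P (evt X β t)
          {ω | ε ≤ shapeDist ((fun p : Plane => (Metric.diam (Ks β))⁻¹ • p) '' Ks β) X t ω})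
            atTop (𝓝 0) := by
    intro β hβ
    obtain ⟨⟨hne, hcomp, -⟩, hint, hlim⟩ := hK β hβ
    have hdiam : 0 < Metric.diam (Ks β) := by
      obtain ⟨x, hx⟩ := hint
      obtain ⟨r, hr, hball⟩ := Metric.isOpen_iff.1 isOpen_interior x hx
      have hx1 : x ∈ Ks β := interior_subset hx
      have hx2 : x + !₂[r / 2, 0] ∈ Ks β := by
        apply interior_subset
        apply hball
        rw [Metric.mem_ball, dist_self_add_left, EuclideanSpace.norm_eq]
        simp only [Fin.sum_univ_two]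
        simp only [norm_zero, Matrix.cons_val_zero, Matrix.cons_val_one,
          Matrix.cons_val_fin_one, Real.norm_eq_abs, sq_abs]
        have h0 : (r / 2) ^ 2 + 0 ^ 2 = (r / 2) ^ 2 := by ring
        rw [h0, Real.sqrt_sq (by positivity)]
        linarith
      have h1 := Metric.dist_le_diam_of_mem hcomp.isBounded hx2 hx1
      have h2 : 0 < dist (x + !₂[r / 2, 0]) x := by
        rw [dist_pos]
        intro h3
        have h4 := congrArg (fun p : Plane => p 0) h3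
        simp at h4
        exact hr.ne' h4
      linarith
    obtain ⟨M, hM⟩ := hcomp.isBounded.exists_norm_le
    have hM0 : 0 ≤ max M 0 := le_max_right _ _
    have hM' : ∀ k ∈ Ks β, ‖k‖ ≤ max M 0 := fun k hk => (hM k hk).trans (le_max_left _ _)
    refine ⟨hne.image _, hcomp.image (by fun_prop), ?_, ?_⟩
    · obtain ⟨t₀, ht₀⟩ := hlim 1 one_pos 1 one_pos
      filter_upwards [eventually_ge_atTop t₀] with t ht
      rw [prob_evt hX]
      exact (ht₀ t ht _ hX.isLaw).1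
    · intro ε hε
      rw [ENNReal.tendsto_nhds_zero]
      intro κ hκ
      obtain ⟨k, hk0, hkκ⟩ : ∃ k : ℝ, 0 < k ∧ ENNReal.ofReal k ≤ κ := by
        by_cases htop : κ = ∞
        · exact ⟨1, one_pos, by rw [htop]; exact le_top⟩
        · exact ⟨κ.toReal, ENNReal.toReal_pos hκ.ne' htop, by rw [ENNReal.ofReal_toReal htop]⟩
      set d := Metric.diam (Ks β) with hd
      set q : ℝ := 2 / d + 4 * max M 0 / d ^ 2 with hq
      have hq0 : 0 < q := by positivity
      obtain ⟨δ, hδ⟩ : ∃ δ, δ = min (d / 4) (ε / (2 * q)) := ⟨_, rfl⟩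
      have hδ0 : 0 < δ := by rw [hδ]; positivity
      have hδ1 : 4 * δ ≤ d := by
        have : δ ≤ d / 4 := by rw [hδ]; exact min_le_left _ _
        linarith
      have hδ2 : q * δ < ε := by
        have h1 : δ ≤ ε / (2 * q) := by rw [hδ]; exact min_le_right _ _
        have h2 : q * δ ≤ q * (ε / (2 * q)) := by gcongr
        have h3 : q * (ε / (2 * q)) = ε / 2 := by field_simp
        linarith
      obtain ⟨t₀, ht₀⟩ := hlim δ hδ0 k hk0
      filter_upwards [eventually_ge_atTop t₀, eventually_gt_atTop (0 : ℝ≥0)] with t ht htpos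
      refine le_trans ?_ hkκ
      have hN : 0 < NN3 t := by
        unfold NN3
        exact Real.rpow_pos_of_pos (by exact_mod_cast htpos) _
      refine cond_le_of hX (T := {f | ∀ z : Plane, δ ≤ Metric.hausdorffDist (sR t f)
          ((fun p => z + p) '' Ks β)}) (ht₀ t ht _ hX.isLaw).2 ?_
      intro ω hω z
      by_contra hcon
      push Not at hcon
      rw [sR_eq] at hcon
      have hRfin : (toPlane '' (rangeF t (pathOf hX.path ω) : Set Site)).Finite :=
        (Finset.finite_toSet _).image _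
      have hRne : (toPlane '' (rangeF t (pathOf hX.path ω) : Set Site)).Nonempty := by
        refine ⟨_, X 0 ω, ?_, rfl⟩
        rw [Finset.mem_coe, mem_rangeF]
        exact ⟨0, zero_le, rfl⟩
      obtain ⟨w, hw⟩ := close_rescale hN hδ0 hRfin.isBounded hRne hcomp.isBounded hne hM0 hM'
        hdiam hδ1 hcon
      have h1 : shapeDist ((fun p : Plane => d⁻¹ • p) '' Ks β) X t ω ≤ q * δ := by
        refine le_trans (ciInf_le (shapeDist_bdd _ X t ω) w) ?_
        unfold scaledRange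
        rw [rangeUpTo_eq hX]
        exact hw
      have h2 : ε ≤ shapeDist ((fun p : Plane => d⁻¹ • p) '' Ks β) X t ω := hω
      linarith
  refine ⟨hmain, ?_⟩
  apply shapes_converge Ω P X hX _ β₀
  intro β hβ
  obtain ⟨h1, h2, -, h3⟩ := hmain β hβ
  exact ⟨h1, h2, h3⟩

end Pool.Agent.WSB71
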