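import Pool.Agent.WSB71.GBlocks
import Pool.Agent.WSB71.GeoDef

/-!
# UB: accounting in one portion (`acct`)
-/

open MeasureTheory Filter Topology
open scoped NNReal ENNReal

namespace Pool.Agent.WSB71

open Pool.Agent.LT

/-- Scalar product of a pair of reals with a lattice vector. -/
def sp (w : ℝ × ℝ) (x : Site) : ℝ := w.1 * x.1 + w.2 * x.2

/-- The flags of a portion: indices in the arcs `J` and backward steps. -/
def Flags (p : ℤ → Site) (r : ℕ) (J : Finset (ℤ × ℤ)) : Set ℤ :=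
  {i | (∃ q ∈ J, q.1 ≤ i ∧ i < q.2) ∨ Tr p r (i + 1) < Tr p r i}

lemma acct_rd_sub (r : ℕ) : ∀ x y : Site, rd r (x - y) = rd r x - rd r y := by
  induction r with
  | zero => intro x y; rfl
  | succ r ih =>
    intro x y
    show rd r (-(x - y).2, (x - y).1) = rd r (-x.2, x.1) - rd r (-y.2, y.1)
    rw [← ih]
    congr 1
    ext <;> simp; ring

lemma acct_rd_units (r : ℕ) : ∀ x : Site, x ∈ units → rd r x ∈ units := by
  induction r with
  | zero => intro x h; exact h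
  | succ r ih =>
    intro x h
    refine ih _ ?_
    simp only [units, Finset.mem_insert, Finset.mem_singleton] at h ⊢
    rcases h with h | h | h | h <;> subst h <;> simp

lemma acct_rd_abs (r : ℕ) : ∀ x : Site, ∀ m : ℕ, x.1.natAbs ≤ m → x.2.natAbs ≤ m →
    (rd r x).1.natAbs ≤ m ∧ (rd r x).2.natAbs ≤ m := by
  induction r with
  | zero => intro x m h1 h2; exact ⟨h1, h2⟩
  | succ r ih =>
    intro x m h1 h2
    exact ih _ m (by simpa using h2) (by simpa using h1)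

lemma acct_sp_sub (w : ℝ × ℝ) (x y : Site) : sp w (x - y) = sp w x - sp w y := by
  simp only [sp, Prod.fst_sub, Prod.snd_sub, Int.cast_sub]
  ring

/-- Telescoping over an integer interval. -/
lemma acct_tele (f : ℤ → ℝ) {a b : ℤ} (hab : a ≤ b) :
    ∑ j ∈ Finset.Ico a b, (f (j + 1) - f j) = f b - f a := by
  induction b, hab using Int.le_induction with
  | base => simp
  | succ b hab ih =>
    rw [← Finset.insert_Ico_right_eq_Ico_add_one hab, Finset.sum_insert (by simp), ih]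
    ring

lemma acct_union (g : ℤ → ℝ) {a b d : ℤ} (hab : a ≤ b) (hbd : b ≤ d) :
    ∑ j ∈ Finset.Ico a d, g j = ∑ j ∈ Finset.Ico a b, g j + ∑ j ∈ Finset.Ico b d, g j := by
  rw [← Finset.sum_union (Finset.disjoint_left.2 fun x hx hx' => by
    simp only [Finset.mem_Ico] at hx hx'; omega)]
  congr 1
  ext x
  simp only [Finset.mem_union, Finset.mem_Ico]
  omega

lemma acct_mono {k : ℕ} {c : ℕ → ℤ} (hc : ∀ i < k, c i < c (i + 1)) :
    ∀ i ≤ k, ∀ j ≤ i, c j ≤ c i := by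
  intro i
  induction i with
  | zero => intro _ j hj; rw [Nat.le_zero.1 hj]
  | succ i ih =>
    intro hi j hj
    rcases Nat.lt_or_ge j (i + 1) with h | h
    · have h1 := ih (by omega) j (by omega)
      have h2 := hc i (by omega)
      omega
    · rw [show j = i + 1 by omega]

lemma acct_blocks (g : ℤ → ℝ) {k : ℕ} {c : ℕ → ℤ} (hc : ∀ i < k, c i < c (i + 1)) :
    ∑ i ∈ Finset.range k, ∑ j ∈ Finset.Ico (c i) (c (i + 1)), g j =
      ∑ j ∈ Finset.Ico (c 0) (c k), g j := by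
  have hmono := acct_mono hc
  have key : ∀ m ≤ k, ∑ i ∈ Finset.range m, ∑ j ∈ Finset.Ico (c i) (c (i + 1)), g j =
      ∑ j ∈ Finset.Ico (c 0) (c m), g j := by
    intro m
    induction m with
    | zero => intro _; simp
    | succ m ih =>
      intro hm
      rw [Finset.sum_range_succ, ih (by omega),
        ← acct_union g (hmono m (by omega) 0 (Nat.zero_le _)) (hc m (by omega)).le]
  exact key k le_rfl

open Classical in
/-- Sum of a function over the indices in arcs, taken over the blocks outside `Ex`. -/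
lemma acct_arcs (g : ℤ → ℝ) {J : Finset (ℤ × ℤ)} {k : ℕ} {c : ℕ → ℤ}
    (hJ : ∀ q ∈ J, c 0 ≤ q.1 ∧ q.2 ≤ c k)
    (hJd : ∀ q ∈ J, ∀ q' ∈ J, q ≠ q' → q.2 ≤ q'.1 ∨ q'.2 ≤ q.1)
    (hc : ∀ i < k, c i < c (i + 1)) {Ex : Finset ℕ}
    (hEx : ∀ i ∈ Ex, i < k ∧ ∀ q ∈ J, c (i + 1) ≤ q.1 ∨ q.2 ≤ c i) :
    ∑ i ∈ (Finset.range k).filter (fun i => i ∉ Ex), ∑ j ∈ Finset.Ico (c i) (c (i + 1)),
      (if ∃ q ∈ J, q.1 ≤ j ∧ j < q.2 then g j else 0) =
      ∑ q ∈ J, ∑ j ∈ Finset.Ico q.1 q.2, g j := by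
  rw [Finset.sum_filter]
  have h1 : ∀ i ∈ Finset.range k, (if i ∉ Ex then ∑ j ∈ Finset.Ico (c i) (c (i + 1)),
      (if ∃ q ∈ J, q.1 ≤ j ∧ j < q.2 then g j else 0) else 0) =
      ∑ j ∈ Finset.Ico (c i) (c (i + 1)), (if ∃ q ∈ J, q.1 ≤ j ∧ j < q.2 then g j else 0) := by
    intro i _
    by_cases hi : i ∈ Ex
    · simp only [hi, not_true_eq_false, if_false]
      symm
      refine Finset.sum_eq_zero fun j hj => if_neg ?_
      rintro ⟨q, hq, hq1, hq2⟩
      simp only [Finset.mem_Ico] at hj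
      rcases (hEx i hi).2 q hq with h | h <;> omega
    · simp only [hi, not_false_eq_true, if_true]
  rw [Finset.sum_congr rfl h1, acct_blocks _ hc, ← Finset.sum_filter,
    ← Finset.sum_biUnion (s := J) (t := fun q => Finset.Ico q.1 q.2)]
  · congr 1
    ext j
    simp only [Finset.mem_filter, Finset.mem_Ico, Finset.mem_biUnion]
    constructor
    · rintro ⟨-, q, hq, h⟩
      exact ⟨q, hq, h⟩
    · rintro ⟨q, hq, h⟩
      have := hJ q hq
      exact ⟨by omega, q, hq, h⟩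
  · intro q hq q' hq' hne
    refine Finset.disjoint_left.2 fun x hx hx' => ?_
    simp only [Finset.mem_Ico] at hx hx'
    rcases hJd q hq q' hq' hne with h | h <;> omega

open Classical in
lemma acct_nfl (F : Set ℤ) (a b : ℤ) :
    ∑ j ∈ Finset.Ico a b, (if j ∈ F then (1 : ℝ) else 0) = (nfl F a b : ℝ) := by
  rw [← Finset.sum_filter, Finset.sum_const, nsmul_eq_mul, mul_one, nfl]
  congr 1
  rw [← Set.ncard_coe_finset]
  congr 1
  ext j
  simp [and_comm]

/-- The cost of a step. -/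
lemma acct_step {β η : ℝ} (hβ : 0 ≤ β) (hη : 0 ≤ η) (hη' : 2000 * η ≤ 1) {p : ℤ → Site}
    (hadj : ∀ i, Adj (p i) (p (i + 1))) (r : ℕ) {w : ℝ × ℝ}
    (hw0 : 0 ≤ w.1 ∧ 0 ≤ w.2) (hw1 : w.1 ≤ (1 + η) * β ∧ w.2 ≤ (1 + η) * β) (j : ℤ) :
    (sp w (rd r (p (j + 1))) - sp w (rd r (p j)) ≤ (1 + η) * β) ∧
    (Tr p r (j + 1) < Tr p r j → sp w (rd r (p (j + 1))) - sp w (rd r (p j)) ≤ 0) := by
  have h := acct_rd_units r _ (hadj j)
  rw [acct_rd_sub] at h
  rw [← acct_sp_sub]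
  have hT : Tr p r (j + 1) - Tr p r j =
      (rd r (p (j + 1)) - rd r (p j)).1 + (rd r (p (j + 1)) - rd r (p j)).2 := by
    simp only [Tr, Td, Prod.fst_sub, Prod.snd_sub]
    ring
  generalize rd r (p (j + 1)) - rd r (p j) = x at h hT
  have hb : 0 ≤ (1 + η) * β := by positivity
  simp only [units, Finset.mem_insert, Finset.mem_singleton] at h
  rcases h with h | h | h | h <;> subst h
  · refine ⟨by simp [sp]; linarith [hw1.1], fun h => ?_⟩
    simp at hT; omega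
  · refine ⟨by simp [sp]; linarith [hw0.1], fun _ => by simp [sp]; linarith [hw0.1]⟩
  · refine ⟨by simp [sp]; linarith [hw1.2], fun h => ?_⟩
    simp at hT; omega
  · refine ⟨by simp [sp]; linarith [hw0.2], fun _ => by simp [sp]; linarith [hw0.2]⟩

/-- The cost of an arc. -/
lemma acct_arc {β η : ℝ} (hβ : 0 ≤ β) (hη : 0 ≤ η) (hη' : 2000 * η ≤ 1) {p : ℤ → Site}
    {L : ℕ} (r : ℕ) {w : ℝ × ℝ}
    (hw0 : 0 ≤ w.1 ∧ 0 ≤ w.2) (hw1 : w.1 ≤ (1 + η) * β ∧ w.2 ≤ (1 + η) * β) {q : ℤ × ℤ}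
    (hq : q.1 + 4 * L ≤ q.2) (hq' : 4 * sd (p q.1) (p q.2) ≤ L) :
    3 / 4 * β * ((q.2 - q.1 : ℤ) : ℝ) ≤
      (1 - η) * β * ((q.2 - q.1 : ℤ) : ℝ) - (sp w (rd r (p q.2)) - sp w (rd r (p q.1))) := by
  have h0 : (p q.2 - p q.1).1.natAbs ≤ sd (p q.1) (p q.2) ∧
      (p q.2 - p q.1).2.natAbs ≤ sd (p q.1) (p q.2) := by
    simp only [sd, Prod.fst_sub, Prod.snd_sub]
    constructor
    · refine le_trans ?_ (le_max_left _ _)
      omega
    · refine le_trans ?_ (le_max_right _ _)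
      omega
  have h := acct_rd_abs r _ _ h0.1 h0.2
  rw [← acct_sp_sub, ← acct_rd_sub]
  generalize rd r (p q.2 - p q.1) = x at h
  have h1 : 4 * x.1 ≤ L := by omega
  have h2 : 4 * x.2 ≤ L := by omega
  have h3 : (4 : ℝ) * L ≤ ((q.2 - q.1 : ℤ) : ℝ) := by
    have : (4 : ℤ) * L ≤ q.2 - q.1 := by omega
    exact_mod_cast this
  have h1' : (4 : ℝ) * x.1 ≤ L := by exact_mod_cast h1
  have h2' : (4 : ℝ) * x.2 ≤ L := by exact_mod_cast h2
  have hL : (0 : ℝ) ≤ L := Nat.cast_nonneg _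
  have h4 : sp w x ≤ (1 + η) * β * L / 2 := by
    have e1 : w.1 * x.1 ≤ (1 + η) * β * (L / 4) := by
      calc w.1 * x.1 ≤ w.1 * (L / 4) := mul_le_mul_of_nonneg_left (by linarith) hw0.1
        _ ≤ _ := mul_le_mul_of_nonneg_right hw1.1 (by positivity)
    have e2 : w.2 * x.2 ≤ (1 + η) * β * (L / 4) := by
      calc w.2 * x.2 ≤ w.2 * (L / 4) := mul_le_mul_of_nonneg_left (by linarith) hw0.2
        _ ≤ _ := mul_le_mul_of_nonneg_right hw1.2 (by positivity)
    simp only [sp]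
    linarith
  set N : ℝ := ((q.2 - q.1 : ℤ) : ℝ) with hN
  have h5 : (1 + η) * β * L / 2 ≤ (1 + η) * β * (N / 8) := by
    have : (1 + η) * β * L / 2 = (1 + η) * β * (L / 2) := by ring
    rw [this]
    exact mul_le_mul_of_nonneg_left (by linarith) (by positivity)
  have hN0 : 0 ≤ N := by linarith
  have h6 : 0 ≤ β * N * (1 / 8 - η * 9 / 8) := by
    have : 0 ≤ 1 / 8 - η * 9 / 8 := by linarith
    positivity
  nlinarith [h4, h5, h6]

open Classical in
/-- **Accounting in one portion.** -/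
theorem acct {β η : ℝ} (hβ : 0 ≤ β) (hη : 0 ≤ η) (hη' : 2000 * η ≤ 1) {p : ℤ → Site}
    (hadj : ∀ i, Adj (p i) (p (i + 1))) {L : ℕ} (hL : 1 ≤ L) (r : ℕ) {w : ℝ × ℝ}
    (hw0 : 0 ≤ w.1 ∧ 0 ≤ w.2) (hw1 : w.1 ≤ (1 + η) * β ∧ w.2 ≤ (1 + η) * β) {a b : ℤ}
    (hab : a ≤ b) {J : Finset (ℤ × ℤ)}
    (hJ : ∀ q ∈ J, a ≤ q.1 ∧ q.2 ≤ b ∧ q.1 + 4 * L ≤ q.2 ∧ 4 * sd (p q.1) (p q.2) ≤ L)
    (hJd : ∀ q ∈ J, ∀ q' ∈ J, q ≠ q' → q.2 ≤ q'.1 ∨ q'.2 ≤ q.1) {k : ℕ} {c : ℕ → ℤ}
    (h0 : c 0 = a) (hk : c k = b) (hc : ∀ i < k, c i < c (i + 1)) {Ex : Finset ℕ}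
    (hEx : ∀ i ∈ Ex, i < k ∧ ∀ q ∈ J, c (i + 1) ≤ q.1 ∨ q.2 ≤ c i)
    (hdi : ∀ i < k, i ∉ Ex → c (i + 1) - c i ≤ 100 * (nfl (Flags p r J) (c i) (c (i + 1)) : ℤ) ∨
      c (i + 1) - c i ≤ 2 * L) :
    sp w (rd r (p b - p a)) + β / 2 * ∑ q ∈ J, ((q.2 - q.1 : ℤ) : ℝ) ≤
      ∑ i ∈ Finset.range k, (if i ∈ Ex then sp w (rd r (p (c (i + 1)) - p (c i)))
        else (1 - η) * β * ((c (i + 1) - c i : ℤ) : ℝ)) +
      4 * η * β * L * ((Finset.range k).filter (fun i => i ∉ Ex ∧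
        200 * (nfl (Flags p r J) (c i) (c (i + 1)) : ℤ) < c (i + 1) - c i)).card := by
  set f : ℤ → ℝ := fun j => sp w (rd r (p j)) with hf
  set e : ℤ → ℝ := fun j => (1 - η) * β - (f (j + 1) - f j) with he
  set F := Flags p r J with hF
  -- sums of `e`
  have hsum : ∀ x y : ℤ, x ≤ y → ∑ j ∈ Finset.Ico x y, e j =
      (1 - η) * β * ((y - x : ℤ) : ℝ) - (f y - f x) := by
    intro x y hxy
    simp only [he]
    rw [Finset.sum_sub_distrib, acct_tele f hxy, Finset.sum_const, Int.card_Ico, nsmul_eq_mul]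
    congr 1
    have : (((y - x).toNat : ℕ) : ℝ) = ((y - x : ℤ) : ℝ) := by
      have h : (((y - x).toNat : ℕ) : ℤ) = y - x := Int.toNat_of_nonneg (by omega)
      exact_mod_cast h
    rw [this]
    ring
  -- the two lower bounds
  have hstep := acct_step hβ hη hη' hadj r hw0 hw1
  have hlow : ∀ j, (if ∃ q ∈ J, q.1 ≤ j ∧ j < q.2 then e j - 3 / 4 * β else 0) +
      (if ∃ q ∈ J, q.1 ≤ j ∧ j < q.2 then β / 2 else 0) +
      (β / 4 * (if j ∈ F then (1 : ℝ) else 0) - 2 * η * β) ≤ e j := by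
    intro j
    have hηβ : 0 ≤ η * β := by positivity
    by_cases hA : ∃ q ∈ J, q.1 ≤ j ∧ j < q.2
    · have hjF : j ∈ F := Or.inl hA
      rw [if_pos hA, if_pos hA, if_pos hjF]
      linarith
    · rw [if_neg hA, if_neg hA]
      by_cases hB : Tr p r (j + 1) < Tr p r j
      · have hjF : j ∈ F := Or.inr hB
        rw [if_pos hjF]
        have := (hstep j).2 hB
        simp only [he, hf]
        have h2 : η * β ≤ 1 / 2000 * β := mul_le_mul_of_nonneg_right (by linarith) hβ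
        linarith
      · have hjF : j ∉ F := by
          rintro (h | h)
          · exact hA h
          · exact hB h
        rw [if_neg hjF]
        have := (hstep j).1
        simp only [he, hf]
        linarith
  have hJ' : ∀ q ∈ J, c 0 ≤ q.1 ∧ q.2 ≤ c k := fun q hq => by
    rw [h0, hk]; exact ⟨(hJ q hq).1, (hJ q hq).2.1⟩
  have hsA := acct_arcs (fun j => e j - 3 / 4 * β) hJ' hJd hc hEx
  have hsB := acct_arcs (fun _ => β / 2) hJ' hJd hc hEx
  -- the arcs pay for themselves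
  have hA0 : 0 ≤ ∑ q ∈ J, ∑ j ∈ Finset.Ico q.1 q.2, (e j - 3 / 4 * β) := by
    refine Finset.sum_nonneg fun q hq => ?_
    obtain ⟨_, _, hq3, hq4⟩ := hJ q hq
    have hq5 : q.1 ≤ q.2 := by omega
    rw [Finset.sum_sub_distrib, hsum _ _ hq5, Finset.sum_const, Int.card_Ico, nsmul_eq_mul]
    have : (((q.2 - q.1).toNat : ℕ) : ℝ) = ((q.2 - q.1 : ℤ) : ℝ) := by
      have h : (((q.2 - q.1).toNat : ℕ) : ℤ) = q.2 - q.1 := Int.toNat_of_nonneg (by omega)
      exact_mod_cast h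
    rw [this]
    have := acct_arc hβ hη hη' (p := p) r hw0 hw1 hq3 hq4
    simp only [hf]
    linarith
  have hB0 : ∑ q ∈ J, ∑ j ∈ Finset.Ico q.1 q.2, β / 2 =
      β / 2 * ∑ q ∈ J, ((q.2 - q.1 : ℤ) : ℝ) := by
    rw [Finset.mul_sum]
    refine Finset.sum_congr rfl fun q hq => ?_
    obtain ⟨_, _, hq3, hq4⟩ := hJ q hq
    rw [Finset.sum_const, Int.card_Ico, nsmul_eq_mul]
    have : (((q.2 - q.1).toNat : ℕ) : ℝ) = ((q.2 - q.1 : ℤ) : ℝ) := by
      have h : (((q.2 - q.1).toNat : ℕ) : ℤ) = q.2 - q.1 := Int.toNat_of_nonneg (by omega)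
      exact_mod_cast h
    rw [this]
    ring
  -- summation over the blocks outside `Ex`
  have hC : β / 2 * ∑ q ∈ J, ((q.2 - q.1 : ℤ) : ℝ) +
      ∑ i ∈ (Finset.range k).filter (fun i => i ∉ Ex), (β / 4 * (nfl F (c i) (c (i + 1)) : ℝ) -
        2 * η * β * ((c (i + 1) - c i : ℤ) : ℝ)) ≤
      ∑ i ∈ (Finset.range k).filter (fun i => i ∉ Ex),
        ((1 - η) * β * ((c (i + 1) - c i : ℤ) : ℝ) - (f (c (i + 1)) - f (c i))) := by
    have h1 : ∀ i ∈ (Finset.range k).filter (fun i => i ∉ Ex),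
        ((1 - η) * β * ((c (i + 1) - c i : ℤ) : ℝ) - (f (c (i + 1)) - f (c i))) =
        ∑ j ∈ Finset.Ico (c i) (c (i + 1)), e j := by
      intro i hi
      simp only [Finset.mem_filter, Finset.mem_range] at hi
      rw [hsum _ _ (hc i hi.1).le]
    rw [Finset.sum_congr rfl h1]
    have h2 : ∀ i ∈ (Finset.range k).filter (fun i => i ∉ Ex),
        (β / 4 * (nfl F (c i) (c (i + 1)) : ℝ) - 2 * η * β * ((c (i + 1) - c i : ℤ) : ℝ)) =
        ∑ j ∈ Finset.Ico (c i) (c (i + 1)),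
          (β / 4 * (if j ∈ F then (1 : ℝ) else 0) - 2 * η * β) := by
      intro i hi
      simp only [Finset.mem_filter, Finset.mem_range] at hi
      rw [Finset.sum_sub_distrib, ← Finset.mul_sum, acct_nfl, Finset.sum_const, Int.card_Ico,
        nsmul_eq_mul]
      have : (((c (i + 1) - c i).toNat : ℕ) : ℝ) = ((c (i + 1) - c i : ℤ) : ℝ) := by
        have h : (((c (i + 1) - c i).toNat : ℕ) : ℤ) = c (i + 1) - c i :=
          Int.toNat_of_nonneg (by have := hc i hi.1; omega)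
        exact_mod_cast h
      rw [this]
      ring
    rw [Finset.sum_congr rfl h2]
    have h3 : ∑ i ∈ (Finset.range k).filter (fun i => i ∉ Ex),
        ∑ j ∈ Finset.Ico (c i) (c (i + 1)),
        ((if ∃ q ∈ J, q.1 ≤ j ∧ j < q.2 then e j - 3 / 4 * β else 0) +
          (if ∃ q ∈ J, q.1 ≤ j ∧ j < q.2 then β / 2 else 0) +
          (β / 4 * (if j ∈ F then (1 : ℝ) else 0) - 2 * η * β)) ≤
        ∑ i ∈ (Finset.range k).filter (fun i => i ∉ Ex),
          ∑ j ∈ Finset.Ico (c i) (c (i + 1)), e j :=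
      Finset.sum_le_sum fun i _ => Finset.sum_le_sum fun j _ => hlow j
    simp only [Finset.sum_add_distrib] at h3
    rw [hsA, hsB, hB0] at h3
    linarith
  -- the deficit of the blocks outside `Ex`
  have hD : ∀ i ∈ (Finset.range k).filter (fun i => i ∉ Ex),
      - (if 200 * (nfl F (c i) (c (i + 1)) : ℤ) < c (i + 1) - c i then 4 * η * β * L else 0) ≤
      β / 4 * (nfl F (c i) (c (i + 1)) : ℝ) - 2 * η * β * ((c (i + 1) - c i : ℤ) : ℝ) := by
    intro i hi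
    simp only [Finset.mem_filter, Finset.mem_range] at hi
    have hηβ : 0 ≤ η * β := by positivity
    split_ifs with h
    · have h2 : c (i + 1) - c i ≤ 2 * L := by
        rcases hdi i hi.1 hi.2 with h' | h'
        · have : (0 : ℤ) ≤ (nfl F (c i) (c (i + 1)) : ℤ) := Int.natCast_nonneg _
          omega
        · exact h'
      have h3 : ((c (i + 1) - c i : ℤ) : ℝ) ≤ 2 * L := by exact_mod_cast h2
      have h4 : η * β * ((c (i + 1) - c i : ℤ) : ℝ) ≤ η * β * (2 * L) :=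
        mul_le_mul_of_nonneg_left h3 hηβ
      have h5 : 0 ≤ β / 4 * (nfl F (c i) (c (i + 1)) : ℝ) := by positivity
      linarith
    · have h2 : c (i + 1) - c i ≤ 200 * (nfl F (c i) (c (i + 1)) : ℤ) := not_lt.1 h
      have h3 : ((c (i + 1) - c i : ℤ) : ℝ) ≤ 200 * (nfl F (c i) (c (i + 1)) : ℝ) := by
        exact_mod_cast h2
      have h4 : η * β * ((c (i + 1) - c i : ℤ) : ℝ) ≤
          η * β * (200 * (nfl F (c i) (c (i + 1)) : ℝ)) :=
        mul_le_mul_of_nonneg_left h3 hηβ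
      have h5 : 0 ≤ (1 / 4 - 400 * η) * (β * (nfl F (c i) (c (i + 1)) : ℝ)) := by
        have : 0 ≤ 1 / 4 - 400 * η := by linarith
        positivity
      linarith
  have hE := Finset.sum_le_sum hD
  rw [Finset.sum_neg_distrib, ← Finset.sum_filter, Finset.filter_filter, Finset.sum_const,
    nsmul_eq_mul] at hE
  -- telescoping over all blocks
  have hT : sp w (rd r (p b - p a)) = ∑ i ∈ Finset.range k, (f (c (i + 1)) - f (c i)) := by
    rw [Finset.sum_range_sub (fun i => f (c i)) k, h0, hk, acct_rd_sub, acct_sp_sub]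
  have hT2 : ∑ i ∈ Finset.range k, (if i ∈ Ex then sp w (rd r (p (c (i + 1)) - p (c i)))
        else (1 - η) * β * ((c (i + 1) - c i : ℤ) : ℝ)) =
      ∑ i ∈ Finset.range k, (f (c (i + 1)) - f (c i)) +
      ∑ i ∈ (Finset.range k).filter (fun i => i ∉ Ex),
        ((1 - η) * β * ((c (i + 1) - c i : ℤ) : ℝ) - (f (c (i + 1)) - f (c i))) := by
    rw [Finset.sum_filter, ← Finset.sum_add_distrib]
    refine Finset.sum_congr rfl fun i _ => ?_
    by_cases hi : i ∈ Ex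
    · simp only [hi, if_true, not_true_eq_false, if_false, add_zero, hf]
      rw [acct_rd_sub, acct_sp_sub]
    · simp only [hi, if_false, not_false_eq_true, if_true]
      ring
  rw [hT, hT2]
  linarith

end Pool.Agent.WSB71
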