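import Pool.Agent.WSB71.Defs

/-!
# U1: decomposition of chains into excursions and connecting pieces, definitions (split off from UDec.lean)
-/

open MeasureTheory Filter Topology
open scoped NNReal ENNReal

namespace Pool.Agent.WSB71

open Pool.Agent.LT

/-- The visits of a list of excursions. -/
def visits (E : List (List Site)) : List Site := E.flatMap List.dropLast

/-- `e` is an excursion of the zone `(C, Z)` from `a` to `b`. -/
def IsExc (C Z : Set Site) (a b : Site) (e : List Site) : Prop :=
  NN a b e ∧ a ∈ C ∧ b ∉ Z ∧ ∀ x ∈ e.dropLast, x ∈ Z

/-- The end points of a list of excursions. -/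
def ends (E : List (List Site)) : List (Option Site × Option Site) :=
  E.map (fun e => (e.head?, e.getLast?))

end Pool.Agent.WSB71
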