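import Pool.Agent.WSB71.Fil
import Pool.Agent.WSB71.Ins
import Pool.Agent.WSB71.UDecDef

/-!
# U1: decomposition of chains into excursions and connecting pieces

List combinatorics, see `USum.lean`.
-/

open MeasureTheory Filter Topology
open scoped NNReal ENNReal

namespace Pool.Agent.WSB71

open Pool.Agent.LT

open Classical in
/-- Decomposition of a chain. -/
inductive Dec {ι : Type} (C Z : ι → Set Site) : List Site → (ι → List (List Site)) → Prop
  | last (s : List Site) (hs : s ≠ []) (h : ∀ x ∈ s, ∀ i, x ∉ C i) : Dec C Z s (fun _ => [])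
  | step (s e l : List Site) (i : ι) (a b : Site) (E : ι → List (List Site))
      (hs : ∀ x ∈ s, ∀ j, x ∉ C j) (he : IsExc (C i) (Z i) a b e) (hl : l.head? = some b)
      (h : Dec C Z l E) :
      Dec C Z (s ++ e.dropLast ++ l) (Function.update E i (e :: E i))

theorem exists_split {α : Type*} (p : α → Prop) :
    ∀ l : List α, (∃ x ∈ l, p x) → ∃ s a t, l = s ++ a :: t ∧ p a ∧ ∀ x ∈ s, ¬ p x := by
  classical
  intro l
  induction l with
  | nil => rintro ⟨x, hx, _⟩; exact absurd hx List.not_mem_nil
  | cons y l ih =>
    intro h
    by_cases hy : p y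
    · exact ⟨[], y, l, rfl, hy, fun x hx => absurd hx List.not_mem_nil⟩
    · obtain ⟨x, hx, hp⟩ := h
      rcases List.mem_cons.1 hx with rfl | hx
      · exact absurd hp hy
      · obtain ⟨s, a, t, h1, h2, h3⟩ := ih ⟨x, hx, hp⟩
        refine ⟨y :: s, a, t, by rw [h1]; rfl, h2, fun z hz => ?_⟩
        rcases List.mem_cons.1 hz with rfl | hz
        · exact hy
        · exact h3 z hz

/-- Every chain which ends outside the zones has a decomposition. -/
theorem exists_dec {ι : Type} [Finite ι] {C Z : ι → Set Site} (hCZ : ∀ i, C i ⊆ Z i)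
    (hdisj : ∀ i j, i ≠ j → Disjoint (Z i) (Z j)) {l : List Site} (hl : l ≠ [])
    (hc : l.IsChain Adj) (hlast : ∀ a ∈ l.getLast?, ∀ i, a ∉ Z i) :
    ∃ E : ι → List (List Site), Dec C Z l E := by
  classical
  obtain ⟨n, hn⟩ : ∃ n, l.length ≤ n := ⟨_, le_rfl⟩
  induction n generalizing l with
  | zero => exact absurd (List.length_eq_zero_iff.1 (Nat.le_zero.1 hn)) hl
  | succ n ih =>
    by_cases hC : ∀ x ∈ l, ∀ i, x ∉ C i
    · exact ⟨_, Dec.last l hl hC⟩
    push Not at hC
    obtain ⟨s, a, t, h1, ⟨i, ha⟩, h3⟩ := exists_split (fun x => ∃ i, x ∈ C i) l hC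
    have haZ : a ∈ Z i := hCZ i ha
    have hex : ∃ x ∈ a :: t, x ∉ Z i := by
      obtain ⟨b, hb⟩ : ∃ b, l.getLast? = some b := ⟨_, List.getLast?_eq_some_getLast hl⟩
      refine ⟨b, ?_, hlast b hb i⟩
      rw [h1, List.getLast?_append_of_ne_nil _ (List.cons_ne_nil a t)] at hb
      exact List.mem_of_getLast? hb
    obtain ⟨e', b, t', h4, h5, h6⟩ := exists_split (fun x => x ∉ Z i) (a :: t) hex
    have h6' : ∀ x ∈ e', x ∈ Z i := fun x hx => not_not.1 (h6 x hx)
    obtain ⟨e'', rfl⟩ : ∃ e'', e' = a :: e'' := by
      cases e' with
      | nil =>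
        have : a = b := (List.cons.inj h4).1
        exact absurd haZ (this ▸ h5)
      | cons x e'' =>
        exact ⟨e'', by rw [(List.cons.inj h4).1]⟩
    have h7 : l = s ++ (a :: e'') ++ (b :: t') := by rw [h1, h4, List.append_assoc]
    have hc' : (b :: t').IsChain Adj := by
      rw [h7] at hc
      exact (List.isChain_append.1 hc).2.1
    have hce : ((a :: e'') ++ [b]).IsChain Adj := by
      have h8 : l = s ++ (((a :: e'') ++ [b]) ++ t') := by rw [h7]; simp
      rw [h8] at hc
      exact (List.isChain_append.1 (List.isChain_append.1 hc).2.1).1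
    obtain ⟨E, hE⟩ := ih (l := b :: t') (List.cons_ne_nil _ _) hc' (by
        intro x hx j
        apply hlast x
        rw [h7, List.getLast?_append_of_ne_nil _ (List.cons_ne_nil b t')]
        exact hx) (by
        rw [h7] at hn
        simp only [List.length_append, List.length_cons] at hn ⊢
        omega)
    have hdl : ((a :: e'') ++ [b]).dropLast = a :: e'' := List.dropLast_concat
    rw [h7]
    have key := Dec.step (C := C) (Z := Z) s ((a :: e'') ++ [b]) (b :: t') i a b E
      (fun x hx j hj => h3 x hx ⟨j, hj⟩)
      ⟨⟨rfl, List.getLast?_concat, hce⟩, ha, h5, by rw [hdl]; exact h6'⟩ rfl hE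
    rw [hdl] at key
    exact ⟨_, key⟩

theorem insW_append (l₁ l₂ : List (Site × List Site)) : insW (l₁ ++ l₂) = insW l₁ ++ insW l₂ := by
  unfold insW
  rw [List.flatMap_append]

theorem mem_insW {l : List (Site × List Site)} {x : Site} (h : x ∈ insW l) :
    ∃ p ∈ l, x = p.1 ∨ x ∈ p.2 := by
  unfold insW at h
  obtain ⟨p, hp, hx⟩ := List.mem_flatMap.1 h
  refine ⟨p, hp, ?_⟩
  rcases List.mem_cons.1 hx with rfl | hx
  · exact Or.inl rfl
  · obtain ⟨y, hy, hx⟩ := List.mem_flatMap.1 hx
    simp only [List.mem_cons, List.not_mem_nil, or_false] at hx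
    rcases hx with rfl | rfl
    · exact Or.inr hy
    · exact Or.inl rfl

theorem insW_eq_of_nil {l : List (Site × List Site)} (h : ∀ p ∈ l, p.2 = []) :
    insW l = l.map Prod.fst := by
  induction l with
  | nil => rfl
  | cons p l ih =>
    have h1 : insW (p :: l) = (p.1 :: p.2.flatMap (fun x => [x, p.1])) ++ insW l := rfl
    rw [h1, ih fun q hq => h q (List.mem_cons_of_mem _ hq), h p List.mem_cons_self]
    rfl

theorem insW_head {l : List (Site × List Site)} : (insW l).head? = (l.map Prod.fst).head? := by
  cases l with
  | nil => rfl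
  | cons p l => rfl

/-- The decomposition and insertions outside the zones. -/
theorem dec_insW {ι : Type} [Finite ι] {C Z : ι → Set Site} (hCZ : ∀ i, C i ⊆ Z i)
    (hdisj : ∀ i j, i ≠ j → Disjoint (Z i) (Z j)) {l : List (Site × List Site)}
    {E : ι → List (List Site)} (hE : Dec C Z (l.map Prod.fst) E)
    (hY : ∀ p ∈ l, ∀ x ∈ p.2, ∀ i, p.1 ∉ Z i ∧ x ∉ Z i) : Dec C Z (insW l) E := by
  classical
  generalize hm : l.map Prod.fst = m at hE
  induction hE generalizing l with
  | last s hs h =>
    subst hm
    refine Dec.last _ ?_ ?_
    · intro h0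
      apply hs
      have := insW_head (l := l)
      rw [h0] at this
      exact List.head?_eq_none_iff.1 this.symm
    · intro x hx i
      obtain ⟨p, hp, hx | hx⟩ := mem_insW hx
      · rw [hx]
        exact h _ (List.mem_map_of_mem hp) i
      · exact fun hxC => (hY p hp x hx i).2 (hCZ i hxC)
  | step s e l₀ i a b E hs he hl h ih =>
    obtain ⟨l₁₂, l₃, rfl, h12, h3⟩ := List.map_eq_append_iff.1 hm
    obtain ⟨l₁, l₂, rfl, h1, h2⟩ := List.map_eq_append_iff.1 h12
    have h4 := ih (l := l₃) (fun p hp => hY p (List.mem_append_right _ hp)) h3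
    have h5 : insW l₂ = e.dropLast := by
      rw [← h2]
      refine insW_eq_of_nil fun p hp => ?_
      by_contra hne
      obtain ⟨x, hx⟩ := List.exists_mem_of_ne_nil _ hne
      have h6 := (hY p (List.mem_append_left _ (List.mem_append_right _ hp)) x hx i).1
      apply h6
      apply he.2.2.2
      rw [← h2]
      exact List.mem_map_of_mem hp
    rw [insW_append, insW_append, h5]
    refine Dec.step _ e _ i a b E ?_ he ?_ h4
    · intro x hx j
      obtain ⟨p, hp, hx | hx⟩ := mem_insW hx
      · rw [hx]
        apply hs
        rw [← h1]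
        exact List.mem_map_of_mem hp
      · exact fun hxC => (hY p (List.mem_append_left _ (List.mem_append_left _ hp)) x hx j).2
          (hCZ j hxC)
    · rw [insW_head, h3]
      exact hl

theorem isExc_split {C Z : Set Site} (hCZ : C ⊆ Z) {a b : Site} {e : List Site}
    (he : IsExc C Z a b e) : ∃ z, e = e.dropLast ++ [b] ∧ e.dropLast.head? = some a ∧
      z ∈ Z ∧ Adj z b := by
  obtain ⟨⟨h1, h2, h3⟩, h4, h5, h6⟩ := he
  have hne : e ≠ [] := by rintro rfl; exact absurd h1 (by simp)
  have hlast : e.getLast hne = b := by
    rw [List.getLast?_eq_some_getLast hne] at h2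
    exact Option.some.inj h2
  have hsplit : e = e.dropLast ++ [b] := by
    rw [← hlast]
    exact (List.dropLast_append_getLast hne).symm
  have hne' : e.dropLast ≠ [] := by
    intro h0
    rw [h0, List.nil_append] at hsplit
    rw [hsplit] at h1
    have : b = a := Option.some.inj h1
    exact h5 (this ▸ hCZ h4)
  have hhead : e.dropLast.head? = some a := by
    rw [hsplit, List.head?_append_of_ne_nil _ hne'] at h1
    exact h1
  refine ⟨e.dropLast.getLast hne', hsplit, hhead, h6 _ (List.getLast_mem hne'), ?_⟩
  rw [hsplit] at h3
  have h7 := (List.isChain_append.1 h3).2.2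
  exact h7 _ (List.getLast?_eq_some_getLast hne') b rfl

/-- The excursions are travels. -/
theorem dec_travels {ι : Type} [Finite ι] {C Z : ι → Set Site} {G : Finset Site} {r D : ℕ}
    (hCZ : ∀ i, C i ⊆ Z i) (hdep : ∀ i, ∀ x ∈ Z i, dep G x < D)
    (hfar : ∀ i, ∀ x ∈ C i, ∀ y ∈ G, y ∉ Z i → (∃ z ∈ Z i, Adj z y) → r ≤ sd x y)
    {l : List Site} {E : ι → List (List Site)} (hE : Dec C Z l E) (hG : ∀ x ∈ l, x ∈ G)
    {K : ℕ} (hK : ∃ S : Finset ι, K ≤ ∑ i ∈ S, (E i).length) : Travels G l r D K := by
  classical
  suffices h : ∃ T, (∀ S : Finset ι, ∑ i ∈ S, (E i).length ≤ T) ∧ Travels G l r D T by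
    obtain ⟨T, h1, h2⟩ := h
    obtain ⟨S, hS⟩ := hK
    obtain ⟨a, b, h3, h4⟩ := h2
    have hKT : K ≤ T := hS.trans (h1 S)
    exact ⟨a, b, fun i hi => h3 i (hi.trans_le hKT), fun i hi => h4 i (hi.trans_le hKT)⟩
  clear hK K
  induction hE with
  | last s hs h =>
    refine ⟨0, fun S => by simp, fun _ => 0, fun _ => 0, ?_, ?_⟩
    · intro i hi; exact absurd hi (Nat.not_lt_zero i)
    · intro i hi; exact absurd hi (Nat.not_lt_zero _)
  | step s e l i a b E hs he hl h ih =>
    obtain ⟨T, h1, A, B, h2, h3⟩ := ih fun x hx => hG x (List.mem_append_right _ hx)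
    obtain ⟨z, hsplit, hhead, hz, hzb⟩ := isExc_split (hCZ i) he
    have hZ := he.2.2.2
    set e' := e.dropLast with he'
    obtain ⟨l', rfl⟩ : ∃ l', l = b :: l' := by
      cases l with
      | nil => exact absurd hl (by simp)
      | cons y l' => exact ⟨l', by rw [Option.some.inj hl]⟩
    have hpos : 0 < e'.length := by
      cases hq : e' with
      | nil => rw [hq] at hhead; exact absurd hhead (by simp)
      | cons y l' => exact Nat.succ_pos _
    have hbG : b ∈ G := hG b (List.mem_append_right _ List.mem_cons_self)
    have hget1 : ∀ m, ((s ++ e') ++ b :: l').getD (s.length + e'.length + m) 0 =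
        (b :: l').getD m 0 := by
      intro m
      rw [List.getD_append_right _ _ _ _ (by rw [List.length_append]; omega), List.length_append]
      congr 1
      omega
    have hget2 : ∀ m, m < e'.length → ((s ++ e') ++ b :: l').getD (s.length + m) 0 ∈ e' := by
      intro m hm
      rw [List.getD_append _ _ _ _ (by rw [List.length_append]; omega),
        List.getD_append_right _ _ _ _ (by omega)]
      have : s.length + m - s.length = m := by omega
      rw [this, List.getD_eq_getElem _ _ hm]
      exact List.getElem_mem hm
    have hget0 : ((s ++ e') ++ b :: l').getD s.length 0 = a := by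
      rw [List.getD_append _ _ _ _ (by rw [List.length_append]; omega),
        List.getD_append_right _ _ _ _ le_rfl, Nat.sub_self]
      cases hq : e' with
      | nil => rw [hq] at hhead; exact absurd hhead (by simp)
      | cons y l' =>
        rw [hq] at hhead
        exact Option.some.inj hhead
    have hdb : dep G b ≤ D := by
      have h4 := dep_lip G b z
      have h5 := hdep i z hz
      have h6 : sd b z ≤ 1 := by
        unfold Adj units at hzb
        simp only [Finset.mem_insert, Finset.mem_singleton, Prod.ext_iff, Prod.fst_sub,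
          Prod.snd_sub] at hzb
        unfold sd
        omega
      omega
    refine ⟨T + 1, ?_, fun k => Nat.casesOn k s.length (fun k => s.length + e'.length + A k),
      fun k => Nat.casesOn k (s.length + e'.length) (fun k => s.length + e'.length + B k), ?_, ?_⟩
    · intro S
      have h4 := h1 S
      have h5 : ∑ j ∈ S, (Function.update E i (e :: E i) j).length ≤
          ∑ j ∈ S, ((E j).length + if j = i then 1 else 0) := by
        refine Finset.sum_le_sum fun j _ => ?_
        by_cases hj : j = i
        · subst hj; simp
        · rw [Function.update_of_ne hj]; simp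
      have h6 : ∑ j ∈ S, (if j = i then 1 else 0) ≤ 1 := by
        rw [Finset.sum_ite_eq']
        split_ifs <;> simp
      rw [Finset.sum_add_distrib] at h5
      omega
    · intro k hk
      cases k with
      | zero =>
        refine ⟨?_, ?_, ?_, ?_⟩
        · show s.length < s.length + e'.length
          omega
        · show s.length + e'.length < _
          simp only [List.length_append, List.length_cons]
          omega
        · show r ≤ sd (((s ++ e') ++ b :: l').getD s.length 0)
            (((s ++ e') ++ b :: l').getD (s.length + e'.length) 0)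
          have h4 := hget1 0
          rw [Nat.add_zero] at h4
          rw [hget0, h4]
          exact hfar i a he.2.1 b hbG he.2.2.1 ⟨z, hz, hzb⟩
        · intro m hm1 hm2
          change s.length ≤ m at hm1
          change m ≤ s.length + e'.length at hm2
          rcases lt_or_eq_of_le hm2 with hm | hm
          · have h4 := hget2 (m - s.length) (by omega)
            have h5 : s.length + (m - s.length) = m := by omega
            rw [h5] at h4
            exact (hdep i _ (hZ _ h4)).le
          · have h4 := hget1 0
            rw [Nat.add_zero] at h4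
            rw [hm, h4]
            exact hdb
      | succ k =>
        obtain ⟨h4, h5, h6, h7⟩ := h2 k (by omega)
        refine ⟨?_, ?_, ?_, ?_⟩
        · show s.length + e'.length + A k < s.length + e'.length + B k
          omega
        · show s.length + e'.length + B k < _
          simp only [List.length_append, List.length_cons] at h5 ⊢
          omega
        · show r ≤ sd (((s ++ e') ++ b :: l').getD (s.length + e'.length + A k) 0)
            (((s ++ e') ++ b :: l').getD (s.length + e'.length + B k) 0)
          rw [hget1, hget1]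
          exact h6
        · intro m hm1 hm2
          change s.length + e'.length + A k ≤ m at hm1
          change m ≤ s.length + e'.length + B k at hm2
          have h8 := h7 (m - (s.length + e'.length)) (by omega) (by omega)
          have h9 := hget1 (m - (s.length + e'.length))
          have h10 : s.length + e'.length + (m - (s.length + e'.length)) = m := by omega
          rw [h10] at h9
          rw [h9]
          exact h8
    · intro k hk
      cases k with
      | zero =>
        show s.length + e'.length ≤ s.length + e'.length + A 0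
        omega
      | succ k =>
        show s.length + e'.length + B k ≤ s.length + e'.length + A (k + 1)
        have := h3 k (by omega)
        omega

end Pool.Agent.WSB71
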