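import Pool.Agent.WSB71.GeoDef
import Pool.Agent.WSB71.MassDef
import Pool.Agent.WSB71.UDec

/-!
# UB: block data, validity (definitions)

A datum is a dual vertex `s0` and a list `bs` of block data: displacement `v`, number of steps `len`,
kind (`0` crude, `1` blocked, `2` exact), rotation, end points `D` of the excursions in the zone
(relative coordinates; only for exact blocks).
-/

open MeasureTheory Filter Topology
open scoped NNReal ENNReal

namespace Pool.Agent.WSB71

open Pool.Agent.LT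

/-- Data of a block. -/
structure BD where
  /-- displacement -/
  v : Site
  /-- number of steps -/
  len : ℕ
  /-- kind: `0` crude, `1` blocked, `2` exact -/
  kind : ℕ
  /-- rotation -/
  rot : ℕ
  /-- end points of the excursions -/
  D : List (Option Site × Option Site)

/-- Inner zone of the block from index `c`, in absolute coordinates. -/
def absC (p : ℤ → Site) (h : ℤ) (b : BD) (c : ℤ) : Set Site :=
  {x | rel p b.rot c x ∈ Cz (blk p b.rot c (c + b.len)) h}

/-- Outer zone of the block from index `c`, in absolute coordinates. -/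
def absZ (p : ℤ → Site) (h : ℤ) (b : BD) (c : ℤ) : Set Site :=
  {x | rel p b.rot c x ∈ Zz (blk p b.rot c (c + b.len)) h}

/-- Validity of the block data for the set `G` with contour `p` and block ends `c 0, ..., c r`. -/
structure GVal (h : ℤ) (L : ℕ) (s0 : Site) (bs : List BD) (G : Finset Site) (n : ℕ)
    (p : ℤ → Site) (c : ℕ → ℤ) : Prop where
  cont : Cont G n p
  start : p (c 0) = s0
  tot : c bs.length = c 0 + n
  step : ∀ i (hi : i < bs.length), c (i + 1) = c i + bs[i].len ∧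
    p (c (i + 1)) = p (c i) + bs[i].v
  noD : ∀ i (hi : i < bs.length), bs[i].kind ≠ 2 → bs[i].D = []
  tile : ∀ i (hi : i < bs.length), bs[i].kind = 2 →
    TilePath L (rd bs[i].rot bs[i].v) (blk p bs[i].rot (c i) (c i + bs[i].len))
  zone : ∀ i (hi : i < bs.length), bs[i].kind ≠ 0 → ∀ x ∈ absZ p h bs[i] (c i),
    x ∈ G ∧ dep G x < L ∧
      ∀ k, inn (p k) (p (k + 1)) = x → ∃ m : ℤ, c i ≤ k + m * n ∧ k + m * n < c (i + 1)
  disj : ∀ i j (hi : i < bs.length) (hj : j < bs.length), i ≠ j → bs[i].kind ≠ 0 →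
    bs[j].kind ≠ 0 → Disjoint (absZ p h bs[i] (c i)) (absZ p h bs[j] (c j))

/-- The zones used for the decomposition of chains (exact blocks only). -/
def exC (p : ℤ → Site) (h : ℤ) (bs : List BD) (c : ℕ → ℤ) (i : Fin bs.length) : Set Site :=
  {x | bs[i].kind = 2 ∧ x ∈ absC p h bs[i] (c i)}

/-- The zones used for the decomposition of chains (exact blocks only). -/
def exZ (p : ℤ → Site) (h : ℤ) (bs : List BD) (c : ℕ → ℤ) (i : Fin bs.length) : Set Site :=
  {x | bs[i].kind = 2 ∧ x ∈ absZ p h bs[i] (c i)}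

/-- Validity of the datum for the chain `l` (from the origin). -/
def Val (h s₀ : ℤ) (L M : ℕ) (s0 : Site) (bs : List BD) (l : List Site) : Prop :=
  l.head? = some 0 ∧ l.IsChain Adj ∧
  ∃ (n : ℕ) (p : ℤ → Site) (c : ℕ → ℤ), GVal h L s0 bs (fil l.toFinset) n p c ∧
    (∃ E : Fin bs.length → List (List Site), Dec (exC p h bs c) (exZ p h bs c) l E ∧
      ∀ i : Fin bs.length, bs[i].kind = 2 →
        Tile h s₀ L M (rd bs[i].rot bs[i].v) bs[i].D
          (blk p bs[i].rot (c i) (c i + bs[i].len),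
            (E i).map (List.map (rel p bs[i].rot (c i))))) ∧
    (∀ i (hi : i < bs.length), bs[i].kind = 1 → (L : ℤ) ≤ 8 *
      ({q : Site × Site | Adj q.1 q.2 ∧ q.1 ∈ l ∧ q.2 ∉ l ∧ q.1 ∈ absC p h bs[i] (c i) ∧
        q.2 ∈ absC p h bs[i] (c i)}.ncard : ℤ))

/-- The weight of a block. -/
noncomputable def wB (β lam θ : ℝ) (h s₀ : ℤ) (L M : ℕ) (b : BD) : ℝ≥0∞ :=
  if b.kind = 2 then ZT β lam h s₀ L M (rd b.rot b.v) b.D
  else if b.kind = 1 then
    ENNReal.ofReal (4 ^ b.len * Real.exp (-((1 - θ) * β * b.len)) * Real.exp (-(β * L / 40)))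
  else ENNReal.ofReal (4 ^ b.len * Real.exp (-((1 - θ) * β * b.len)))

/-- Mass bounds. -/
def MassBd (G B : Finset Site) (lam θ : ℝ) (A A' : ℝ≥0∞) : Prop :=
  ∀ C : Set Site, ∀ z ∈ G, z ∉ B →
    (∑' l : {l : List Site // l.head? = some z ∧ l.IsChain Adj ∧
        (∃ a ∈ l.getLast?, a ∈ C ∧ a ∈ G ∧ a ∉ B) ∧
        ∀ x ∈ l.dropLast, x ∈ G ∧ x ∉ B ∧ x ∉ C},
      ((l : List Site).dropLast.map (rw1 G lam θ)).prod ≤ A) ∧
    (∑' l : {l : List Site // l.head? = some z ∧ l.IsChain Adj ∧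
        ∀ x ∈ l, x ∈ G ∧ x ∉ B ∧ x ∉ C},
      ((l : List Site).map (rw1 G lam θ)).prod ≤ A')

end Pool.Agent.WSB71
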