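import Pool.Agent.WSB71.MassDef
import Pool.Agent.WSB71.UDec

/-!
# U2: proof of `u_sum`

`UT ι n` is the type of the data (connecting pieces and order of the zones) of a decomposition with
`n` excursions; `glue` reconstructs the chain from the excursions and these data.
-/

open MeasureTheory Filter Topology
open scoped NNReal ENNReal

namespace Pool.Agent.WSB71

open Pool.Agent.LT

namespace US

/-- Data of a decomposition with `n` excursions. -/
def UT (ι : Type) : ℕ → Type
  | 0 => List Site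
  | n + 1 => (List Site × ι) × UT ι n

/-- All connecting pieces. -/
def pieces {ι : Type} : (n : ℕ) → UT ι n → List Site
  | 0, s => s
  | n + 1, x => x.1.1 ++ pieces n x.2

open Classical in
/-- The chain. -/
noncomputable def glue {ι : Type} : (n : ℕ) → (ι → List (List Site)) → UT ι n → List Site
  | 0, _, s => s
  | n + 1, E, x => x.1.1 ++ (E x.1.2).headI.dropLast ++
      glue n (Function.update E x.1.2 (E x.1.2).tail) x.2

/-- Valid last piece. -/
def V0 {ι : Type} (C : ι → Set Site) (H : Set Site) (z : Site) (s : List Site) : Prop :=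
  s.head? = some z ∧ s.IsChain Adj ∧ ∀ x ∈ s, x ∈ H ∧ ∀ i, x ∉ C i

open Classical in
/-- Valid data. -/
def Valid {ι : Type} (C : ι → Set Site) (H : Set Site) :
    (n : ℕ) → Site → (ι → List (List Site)) → UT ι n → Prop
  | 0, z, _, s => V0 C H z s
  | n + 1, z, E, x => ∃ e es a b, E x.1.2 = e :: es ∧ e.head? = some a ∧ e.getLast? = some b ∧
      a ∈ C x.1.2 ∧ a ∈ H ∧ b ∈ H ∧ (x.1.1 ++ [a]).head? = some z ∧
      (x.1.1 ++ [a]).IsChain Adj ∧ (∀ y ∈ x.1.1, y ∈ H ∧ ∀ j, y ∉ C j) ∧
      Valid C H n b (Function.update E x.1.2 es) x.2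

open Classical in
theorem aux0 {ι : Type} (C : ι → Set Site) (H : Set Site) (z : Site) (rw : Site → ℝ≥0∞) (s : List Site) :
    (if V0 C H z s then (s.map rw).prod else 0) =
      Set.indicator {l : List Site | V0 C H z l} (fun l => (l.map rw).prod) s := by
  simp [Set.indicator_apply]

open Classical in
theorem bound {ι : Type} {C : ι → Set Site} {H : Set Site}
    (hdisj : ∀ i j, i ≠ j → Disjoint (C i) (C j)) {rw : Site → ℝ≥0∞} {A A' : ℝ≥0∞}
    (hA : ∀ z ∈ H, ∑' l : {l : List Site // l.head? = some z ∧ l.IsChain Adj ∧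
            (∃ a ∈ l.getLast?, (∃ i, a ∈ C i) ∧ a ∈ H) ∧
            ∀ x ∈ l.dropLast, x ∈ H ∧ ∀ i, x ∉ C i},
          ((l : List Site).dropLast.map rw).prod ≤ A)
    (hA' : ∀ z ∈ H, ∑' l : {l : List Site // l.head? = some z ∧ l.IsChain Adj ∧
            ∀ x ∈ l, x ∈ H ∧ ∀ i, x ∉ C i},
          ((l : List Site).map rw).prod ≤ A') :
    ∀ (n : ℕ) (z : Site), z ∈ H → ∀ E : ι → List (List Site),
      ∑' x : UT ι n, (if Valid C H n z E x then ((pieces n x).map rw).prod else 0) ≤
        A ^ n * A' := by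
  intro n
  induction n with
  | zero =>
    intro z hz E
    rw [pow_zero, one_mul]
    refine le_trans (le_of_eq ?_) (hA' z hz)
    have h := tsum_subtype {l : List Site | V0 C H z l} (fun l => (l.map rw).prod)
    refine Eq.trans ?_ h.symm
    exact tsum_congr fun s => aux0 C H z rw s
  | succ n ih =>
    intro z hz E
    -- the condition on the first piece
    let P : List Site × ι → Prop := fun q => ∃ e es a, E q.2 = e :: es ∧ e.head? = some a ∧
      a ∈ C q.2 ∧ a ∈ H ∧ (q.1 ++ [a]).head? = some z ∧ (q.1 ++ [a]).IsChain Adj ∧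
      (∀ y ∈ q.1, y ∈ H ∧ ∀ j, y ∉ C j)
    have h1 : ∑' x : UT ι (n + 1), (if Valid C H (n + 1) z E x then
        ((pieces (n + 1) x).map rw).prod else 0) =
        ∑' (q : List Site × ι) (x : UT ι n), (if Valid C H (n + 1) z E (q, x) then
        ((pieces (n + 1) (q, x)).map rw).prod else 0) :=
      ENNReal.tsum_prod (f := fun (q : List Site × ι) (x : UT ι n) =>
        (if Valid C H (n + 1) z E (q, x) then ((pieces (n + 1) (q, x)).map rw).prod else 0))
    rw [h1]
    have h2 : ∀ q : List Site × ι, ∑' x : UT ι n, (if Valid C H (n + 1) z E (q, x) then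
        ((pieces (n + 1) (q, x)).map rw).prod else 0) ≤
        (if P q then (q.1.map rw).prod else 0) * (A ^ n * A') := by
      intro q
      by_cases hP : P q
      · rw [if_pos hP]
        obtain ⟨e, es, a, k1, k2, k3, k4, k5, k6, k7⟩ := hP
        by_cases hb : ∃ b, e.getLast? = some b ∧ b ∈ H
        · obtain ⟨b, hb1, hb2⟩ := hb
          have h3 : ∀ x : UT ι n, (if Valid C H (n + 1) z E (q, x) then
              ((pieces (n + 1) (q, x)).map rw).prod else 0) ≤ (q.1.map rw).prod *
              (if Valid C H n b (Function.update E q.2 es) x then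
                ((pieces n x).map rw).prod else 0) := by
            intro x
            split_ifs with h4 h5 h5
            · simp [pieces, List.map_append, List.prod_append]
            · exfalso
              obtain ⟨e', es', a', b', m1, m2, m3, m4, m5, m6, m7, m8, m9, m10⟩ := h4
              simp only at m1 m10
              rw [k1] at m1
              obtain ⟨rfl, rfl⟩ := List.cons_eq_cons.1 m1
              rw [hb1] at m3
              obtain rfl := Option.some.inj m3
              exact h5 m10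
            · exact bot_le
            · exact bot_le
          refine (ENNReal.tsum_le_tsum h3).trans ?_
          rw [ENNReal.tsum_mul_left]
          exact mul_le_mul_right (ih b hb2 _) _
        · have h3 : ∀ x : UT ι n, (if Valid C H (n + 1) z E (q, x) then
              ((pieces (n + 1) (q, x)).map rw).prod else 0) = 0 := by
            intro x
            rw [if_neg]
            rintro ⟨e', es', a', b', m1, m2, m3, m4, m5, m6, m7, m8, m9, m10⟩
            simp only at m1
            rw [k1] at m1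
            obtain ⟨rfl, rfl⟩ := List.cons_eq_cons.1 m1
            exact hb ⟨b', m3, m6⟩
          simp_rw [h3]
          simp
      · have h3 : ∀ x : UT ι n, (if Valid C H (n + 1) z E (q, x) then
              ((pieces (n + 1) (q, x)).map rw).prod else 0) = 0 := by
          intro x
          rw [if_neg]
          rintro ⟨e', es', a', b', m1, m2, m3, m4, m5, m6, m7, m8, m9, m10⟩
          exact hP ⟨e', es', a', m1, m2, m4, m5, m7, m8, m9⟩
        simp_rw [h3]
        simp
    refine (ENNReal.tsum_le_tsum h2).trans ?_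
    rw [ENNReal.tsum_mul_right, pow_succ', mul_assoc]
    refine mul_le_mul_left ?_ _
    -- the sum over the first piece
    refine le_trans ?_ (hA z hz)
    have h4 : ∑' q : List Site × ι, (if P q then (q.1.map rw).prod else 0) =
        ∑' q : {q : List Site × ι // P q}, ((q : List Site × ι).1.map rw).prod := by
      have h := tsum_subtype {q : List Site × ι | P q} (fun q => (q.1.map rw).prod)
      exact h.symm
    rw [h4]
    choose e es a k1 k2 k3 k4 k5 k6 k7 using fun q : {q : List Site × ι // P q} => q.2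
    let J : {q : List Site × ι // P q} → {l : List Site // l.head? = some z ∧ l.IsChain Adj ∧
            (∃ a ∈ l.getLast?, (∃ i, a ∈ C i) ∧ a ∈ H) ∧
            ∀ x ∈ l.dropLast, x ∈ H ∧ ∀ i, x ∉ C i} := fun q =>
      ⟨(q : List Site × ι).1 ++ [a q], k5 q, k6 q, ⟨a q, by simp, ⟨_, k3 q⟩, k4 q⟩, by
        rw [List.dropLast_concat]
        exact k7 q⟩
    have hJ : Function.Injective J := by
      intro q q' hqq
      have h5 : (q : List Site × ι).1 ++ [a q] = (q' : List Site × ι).1 ++ [a q'] :=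
        congrArg Subtype.val hqq
      have h6 := List.append_inj' h5 (by simp)
      have h7 : a q = a q' := by simpa using h6.2
      have h8 : (q : List Site × ι).2 = (q' : List Site × ι).2 := by
        by_contra hne
        exact (Set.disjoint_left.1 (hdisj _ _ hne)) (k3 q) (h7 ▸ k3 q')
      exact Subtype.ext (Prod.ext h6.1 h8)
    have h9 := ENNReal.tsum_comp_le_tsum_of_injective hJ
      (fun l => ((l : List Site).dropLast.map rw).prod)
    refine le_trans (le_of_eq ?_) h9
    congr 1
    funext q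
    simp [J]

theorem sum_update_add {ι : Type} [Fintype ι] [DecidableEq ι] {α : Type} (F : α → ℕ) (E : ι → α) (i : ι) (v : α) (k : ℕ)
    (h : F v = k + F (E i)) : ∑ j, F (Function.update E i v j) = k + ∑ j, F (E j) := by
  have h1 : ∀ j, F (Function.update E i v j) = (if j = i then k else 0) + F (E j) := by
    intro j
    by_cases hj : j = i
    · subst hj
      simp [h]
    · simp [hj]
  simp_rw [h1]
  rw [Finset.sum_add_distrib]
  simp

open Classical in
theorem exists_par {ι : Type} [Fintype ι] {C Z : ι → Set Site} {H : Set Site} (hCZ : ∀ i, C i ⊆ Z i)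
    {l : List Site} {E : ι → List (List Site)} (hE : Dec C Z l E) :
    ∀ z, l.head? = some z → l.IsChain Adj → (∀ x ∈ l, x ∈ H) → ∀ n, ∑ i, (E i).length = n →
      ∃ x : UT ι n, glue n E x = l ∧ Valid C H n z E x ∧
        (∀ y, l.count y = (pieces n x).count y + ∑ i, (visits (E i)).count y) ∧
        (∀ y ∈ pieces n x, ∀ j, y ∉ C j) ∧ ∀ i, ∀ e ∈ E i, ∃ a b, IsExc (C i) (Z i) a b e := by
  induction hE with
  | last s hs h =>
    intro z hz hc hH n hn
    simp only [List.length_nil, Finset.sum_const_zero] at hn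
    subst hn
    refine ⟨s, rfl, ⟨hz, hc, fun x hx => ⟨hH x hx, h x hx⟩⟩, fun y => ?_, h, fun i e he => ?_⟩
    · simp [visits, pieces]
    · simp at he
  | step s e l i a b E hs he hl hD ih =>
    intro z hz hc hH n hn
    have hn' : ∑ j, (Function.update E i (e :: E i) j).length = 1 + ∑ j, (E j).length :=
      sum_update_add (fun v : List (List Site) => v.length) E i (e :: E i) 1
        (by simp [add_comm])
    rw [hn'] at hn
    obtain ⟨m, rfl⟩ : ∃ m, n = m + 1 := ⟨n - 1, by omega⟩
    obtain ⟨⟨he1, he2, he3⟩, haC, hbZ, heZ⟩ := id he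
    -- the excursion has at least two sites
    have hab : a ≠ b := fun h => hbZ (h ▸ hCZ i haC)
    have hd : e.dropLast.head? = some a := by
      match e, he1, he2 with
      | [x], h1, h2 =>
        exfalso
        simp at h1 h2
        exact hab (h1.symm.trans h2)
      | x :: y :: t, h1, h2 =>
        simpa using h1
    obtain ⟨d, hd'⟩ : ∃ d, e.dropLast = a :: d := by
      match h : e.dropLast, hd with
      | x :: d, h1 =>
        simp at h1
        exact ⟨d, by rw [h1]⟩
    have hcl : l.IsChain Adj := (List.isChain_append.1 hc).2.1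
    have hHl : ∀ x ∈ l, x ∈ H := fun x hx => hH x (by simp [hx])
    obtain ⟨x, x1, x2, x3, x4, x5⟩ := ih b hl hcl hHl m (by omega)
    have haH : a ∈ H := hH a (by simp [hd'])
    have hbH : b ∈ H := hHl b (List.mem_of_mem_head? (by rw [hl]; rfl))
    have hbig : s ++ e.dropLast ++ l = (s ++ [a]) ++ (d ++ l) := by
      rw [hd']
      simp
    have hupd : Function.update (Function.update E i (e :: E i)) i (E i) = E := by
      rw [Function.update_idem, Function.update_eq_self]
    refine ⟨((s, i), x), ?_, ?_, fun y => ?_, fun y hy => ?_, fun j e' he' => ?_⟩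
    · have g1 : glue (m + 1) (Function.update E i (e :: E i)) ((s, i), x) =
          s ++ e.dropLast ++ glue m (Function.update (Function.update E i (e :: E i)) i (E i)) x := by
        simp only [glue, Function.update_self, List.headI_cons, List.tail_cons]
      rw [g1, hupd, x1]
    · refine ⟨e, E i, a, b, by simp, he1, he2, haC, haH, hbH, ?_, ?_, ?_, ?_⟩
      · rw [hbig] at hz
        rw [List.head?_append] at hz
        match h : (s ++ [a]).head? with
        | none => simp at h
        | some v =>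
          rw [h] at hz
          exact hz
      · rw [hbig] at hc
        exact (List.isChain_append.1 hc).1
      · intro y hy
        exact ⟨hH y (by simp [hy]), hs y hy⟩
      · simp only [hupd]
        exact x2
    · rw [List.count_append, List.count_append, x3 y]
      have h1 : ∑ j, (visits (Function.update E i (e :: E i) j)).count y =
          e.dropLast.count y + ∑ j, (visits (E j)).count y :=
        sum_update_add (fun v : List (List Site) => (visits v).count y) E i (e :: E i)
          (e.dropLast.count y) (by simp [visits])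
      rw [h1]
      have h2 : pieces (m + 1) ((s, i), x) = s ++ pieces m x := rfl
      rw [h2, List.count_append]
      omega
    · have h2 : pieces (m + 1) ((s, i), x) = s ++ pieces m x := rfl
      rw [h2, List.mem_append] at hy
      rcases hy with hy | hy
      · exact hs y hy
      · exact x4 y hy
    · by_cases hj : j = i
      · subst hj
        rw [Function.update_self] at he'
        rcases List.mem_cons.1 he' with rfl | h3
        · exact ⟨a, b, he⟩
        · exact x5 j e' h3
      · rw [Function.update_of_ne hj] at he'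
        exact x5 j e' he'

/-- A sum of products is at most the product of the sums. -/
theorem tsum_prod_le {ι X : Type} [Fintype ι] (g : ι → X → ℝ≥0∞) :
    ∑' E : ι → X, ∏ i, g i (E i) ≤ ∏ i, ∑' x, g i x := by
  classical
  rw [ENNReal.tsum_eq_iSup_sum]
  refine iSup_le fun T => ?_
  let t : ι → Finset X := fun i => T.image (fun E => E i)
  have hsub : T ⊆ Fintype.piFinset t := by
    intro E hE
    rw [Fintype.mem_piFinset]
    intro i
    exact Finset.mem_image_of_mem _ hE
  calc ∑ E ∈ T, ∏ i, g i (E i) ≤ ∑ E ∈ Fintype.piFinset t, ∏ i, g i (E i) :=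
        Finset.sum_le_sum_of_subset hsub
    _ = ∏ i, ∑ x ∈ t i, g i x := (Finset.prod_univ_sum t g).symm
    _ ≤ ∏ i, ∑' x, g i x := Finset.prod_le_prod' fun i _ => ENNReal.sum_le_tsum _

theorem fw_le_rw1 {lam θ : ℝ} (hθ1 : θ ≤ 1) (h4 : lam < 4 * θ) (G : Finset Site) (x : Site) (n : ℕ) :
    fw lam n ≤ rw1 G lam θ x ^ n := by
  unfold fw rw1
  refine pow_le_pow_left₀ bot_le (ENNReal.ofReal_le_ofReal ?_) n
  have h1 : ((kap G x : ℕ) : ℝ) ≤ 4 := by
    have : kap G x ≤ 4 := (Finset.card_filter_le _ _).trans (by decide)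
    exact_mod_cast this
  have h0 : (0 : ℝ) ≤ (kap G x : ℕ) := Nat.cast_nonneg _
  have h2 : (1 - θ) * (kap G x : ℕ) ≤ (1 - θ) * 4 := mul_le_mul_of_nonneg_left h1 (by linarith)
  have h3 : 0 ≤ (1 - θ) * (kap G x : ℕ) := mul_nonneg (by linarith) h0
  exact inv_anti₀ (by linarith) (by linarith)

open Classical in
/-- The factor of the site `y` in `Wg β lam C L`. -/
noncomputable def hfac (β lam : ℝ) (C : Set Site) (L : List Site) (y : Site) : ℝ≥0∞ :=
  if y ∈ L then (if y ∈ C then gw β lam (L.count y) else fw lam (L.count y)) else 1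

theorem Wg_eq (β lam : ℝ) (C : Set Site) (L : List Site) (S : Finset Site) (hS : L.toFinset ⊆ S) :
    Wg β lam C L = ∏ y ∈ S, hfac β lam C L y := by
  classical
  rw [← Finset.prod_subset hS]
  · unfold Wg
    refine Finset.prod_congr rfl fun y hy => ?_
    rw [List.mem_toFinset] at hy
    simp [hfac, hy]
  · intro y _ hy
    rw [List.mem_toFinset] at hy
    simp [hfac, hy]

theorem map_prod_eq (r : Site → ℝ≥0∞) (p : List Site) (S : Finset Site) (hS : p.toFinset ⊆ S) :
    (p.map r).prod = ∏ y ∈ S, r y ^ p.count y := by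
  have h1 : (p.map r).prod = ∏ y ∈ p.toFinset, r y ^ p.count y := by
    rw [Finset.prod_list_map_count]
    refine Finset.prod_congr rfl fun m _ => ?_
    congr 1
    congr!
  rw [h1]
  refine Finset.prod_subset (f := fun y => r y ^ p.count y) hS fun y _ hy => ?_
  have hy' : y ∉ p := fun h => hy (List.mem_toFinset.2 h)
  simp only [List.count_eq_zero_of_not_mem hy', pow_zero]

open Classical in
/-- The factor of the site `y` in the constant. -/
noncomputable def cfac {ι : Type} (β θ : ℝ) (G : Finset Site) (Z : ι → Set Site) (y : Site) : ℝ≥0∞ :=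
  if ∀ i, y ∉ Z i then ENNReal.ofReal (Real.exp (-((1 - θ) * β * kap G y))) else 1

theorem const_eq {ι : Type} (β θ : ℝ) (G : Finset Site) (Z : ι → Set Site) (S : Finset Site) (hSG : S ⊆ G)
    (h : ∀ x ∈ G, (∀ i, x ∉ Z i) → kap G x ≠ 0 → x ∈ S) :
    ENNReal.ofReal (Real.exp (-((1 - θ) * β *
        (∑ x ∈ G, Set.indicator {x | ∀ i, x ∉ Z i} (fun x => (kap G x : ℝ)) x)))) =
      ∏ y ∈ S, cfac β θ G Z y := by
  classical
  have h1 : ∏ y ∈ S, cfac β θ G Z y = ∏ y ∈ G, cfac β θ G Z y := by
    refine Finset.prod_subset hSG fun y hy hyS => ?_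
    unfold cfac
    split_ifs with h2
    · have h3 : kap G y = 0 := by
        by_contra h4
        exact hyS (h y hy h2 h4)
      rw [h3]
      simp
    · rfl
  rw [h1, Finset.mul_sum, ← Finset.sum_neg_distrib, Real.exp_sum,
    ENNReal.ofReal_prod_of_nonneg (fun _ _ => (Real.exp_pos _).le)]
  refine Finset.prod_congr rfl fun y _ => ?_
  unfold cfac
  split_ifs with h2
  · rw [Set.indicator_of_mem (show y ∈ {x | ∀ i, x ∉ Z i} from h2)]
  · rw [Set.indicator_of_notMem (show y ∉ {x | ∀ i, x ∉ Z i} from h2)]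
    simp

theorem weight_le {ι : Type} [Fintype ι] {β lam θ : ℝ} (hθ1 : θ ≤ 1) (h4 : lam < 4 * θ)
    {G : Finset Site} {C Z : ι → Set Site}
    (hdisj : ∀ i j, i ≠ j → Disjoint (Z i) (Z j)) (w : Site → ℕ → ℝ≥0∞)
    (hw1 : ∀ x ∈ G, (∀ i, x ∉ Z i) → ∀ n, 1 ≤ n → w x n ≤
      ENNReal.ofReal (Real.exp (-((1 - θ) * β * kap G x))) * rw1 G lam θ x ^ n)
    (hw2 : ∀ i, ∀ x ∈ C i, ∀ n, w x n = gw β lam n)
    (hw3 : ∀ i, ∀ x ∈ Z i, x ∉ C i → ∀ n, 1 ≤ n → w x n ≤ fw lam n)
    {l p : List Site} {E : ι → List (List Site)} (hlG : ∀ x ∈ l, x ∈ G)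
    (hvis : ∀ x ∈ G, (∀ i, x ∉ Z i) → kap G x ≠ 0 → x ∈ l)
    (hcount : ∀ y, l.count y = p.count y + ∑ i, (visits (E i)).count y)
    (hp : ∀ y ∈ p, ∀ j, y ∉ C j) (hexc : ∀ i, ∀ e ∈ E i, ∃ a b, IsExc (C i) (Z i) a b e) :
    Wt w l ≤ ENNReal.ofReal (Real.exp (-((1 - θ) * β *
        (∑ x ∈ G, Set.indicator {x | ∀ i, x ∉ Z i} (fun x => (kap G x : ℝ)) x)))) *
      (p.map (rw1 G lam θ)).prod * ∏ i, Wg β lam (C i) (visits (E i)) := by
  classical
  have hvZ : ∀ i, ∀ y ∈ visits (E i), y ∈ Z i := by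
    intro i y hy
    unfold visits at hy
    obtain ⟨e, he, hye⟩ := List.mem_flatMap.1 hy
    obtain ⟨a, b, hx⟩ := hexc i e he
    exact hx.2.2.2 y hye
  have hcnt0 : ∀ i y, y ∉ Z i → (visits (E i)).count y = 0 := fun i y hy =>
    List.count_eq_zero_of_not_mem fun h => hy (hvZ i y h)
  have hsp : p.toFinset ⊆ l.toFinset := by
    intro y hy
    rw [List.mem_toFinset] at hy ⊢
    have h1 := hcount y
    have h2 : 0 < p.count y := List.count_pos_iff.2 hy
    exact List.count_pos_iff.1 (by omega)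
  have hsv : ∀ i, (visits (E i)).toFinset ⊆ l.toFinset := by
    intro i y hy
    rw [List.mem_toFinset] at hy ⊢
    have h1 := hcount y
    have h2 : 0 < (visits (E i)).count y := List.count_pos_iff.2 hy
    have h3 : (visits (E i)).count y ≤ ∑ j, (visits (E j)).count y :=
      Finset.single_le_sum (f := fun j => (visits (E j)).count y) (fun _ _ => Nat.zero_le _)
        (Finset.mem_univ i)
    exact List.count_pos_iff.1 (by omega)
  rw [const_eq β θ G Z l.toFinset (fun y hy => hlG y (List.mem_toFinset.1 hy))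
    (fun x hx h1 h2 => List.mem_toFinset.2 (hvis x hx h1 h2)), map_prod_eq _ p l.toFinset hsp]
  have h5 : ∏ i, Wg β lam (C i) (visits (E i)) =
      ∏ y ∈ l.toFinset, ∏ i, hfac β lam (C i) (visits (E i)) y := by
    rw [Finset.prod_comm]
    exact Finset.prod_congr rfl fun i _ => Wg_eq β lam (C i) _ _ (hsv i)
  rw [h5, ← Finset.prod_mul_distrib, ← Finset.prod_mul_distrib]
  unfold Wt
  refine Finset.prod_le_prod' fun y hy => ?_
  rw [List.mem_toFinset] at hy
  have hpos : 1 ≤ l.count y := List.count_pos_iff.2 hy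
  by_cases hZ : ∃ i, y ∈ Z i
  · obtain ⟨i, hi⟩ := hZ
    have hne : ∀ j, j ≠ i → y ∉ Z j := fun j hj hyj =>
      (Set.disjoint_left.1 (hdisj j i hj)) hyj hi
    have hc : cfac β θ G Z y = 1 := by
      unfold cfac
      rw [if_neg]
      intro h
      exact h i hi
    have hsum : ∑ j, (visits (E j)).count y = (visits (E i)).count y :=
      Finset.sum_eq_single i (fun j _ hj => hcnt0 j y (hne j hj)) (by simp)
    have hprod : ∏ j, hfac β lam (C j) (visits (E j)) y = hfac β lam (C i) (visits (E i)) y := by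
      refine Finset.prod_eq_single i (fun j _ hj => ?_) (by simp)
      unfold hfac
      rw [if_neg fun h => hne j hj (hvZ j y h)]
    rw [hc, one_mul, hprod, hcount y, hsum]
    rw [hcount y, hsum] at hpos
    by_cases hyC : y ∈ C i
    · have h6 : p.count y = 0 := List.count_eq_zero_of_not_mem fun h => hp y h i hyC
      rw [h6, zero_add] at hpos ⊢
      rw [pow_zero, one_mul, hw2 i y hyC]
      unfold hfac
      rw [if_pos (List.count_pos_iff.1 hpos), if_pos hyC]
    · refine (hw3 i y hi hyC _ hpos).trans ?_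
      have h7 : fw lam (p.count y + (visits (E i)).count y) =
          fw lam (p.count y) * fw lam ((visits (E i)).count y) := by
        unfold fw
        rw [pow_add]
      have h8 : fw lam ((visits (E i)).count y) = hfac β lam (C i) (visits (E i)) y := by
        unfold hfac
        split_ifs with h9
        · rfl
        · rw [List.count_eq_zero_of_not_mem h9]
          unfold fw
          rw [pow_zero]
      rw [h7, h8]
      exact mul_le_mul_left (fw_le_rw1 hθ1 h4 G y _) _
  · have hZ' : ∀ i, y ∉ Z i := fun i h => hZ ⟨i, h⟩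
    have hsum : ∑ j, (visits (E j)).count y = 0 :=
      Finset.sum_eq_zero fun j _ => hcnt0 j y (hZ' j)
    have hprod : ∏ j, hfac β lam (C j) (visits (E j)) y = 1 := by
      refine Finset.prod_eq_one fun j _ => ?_
      unfold hfac
      rw [if_neg fun h => hZ' j (hvZ j y h)]
    have hc : cfac β θ G Z y = ENNReal.ofReal (Real.exp (-((1 - θ) * β * kap G y))) := by
      unfold cfac
      rw [if_pos hZ']
    rw [hprod, mul_one, hc, hcount y, hsum, add_zero]
    rw [hcount y, hsum, add_zero] at hpos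
    exact hw1 y (hlG y hy) hZ' _ hpos

end US

open US

/-- **(U)** -/
theorem u_sum {ι : Type} [Fintype ι] {β lam θ : ℝ} (hβ : 0 ≤ β) (hlam : 0 ≤ lam) (hθ : 0 < θ)
    (hθ1 : θ ≤ 1) (h4 : lam < 4 * θ) {G B : Finset Site} {C Z : ι → Set Site}
    (hCZ : ∀ i, C i ⊆ Z i) (hZG : ∀ i, ∀ x ∈ Z i, x ∈ G)
    (hdisj : ∀ i j, i ≠ j → Disjoint (Z i) (Z j)) {A A' : ℝ≥0∞}
    (hA : ∀ z ∈ G, z ∉ B → ∑' l : {l : List Site // l.head? = some z ∧ l.IsChain Adj ∧
            (∃ a ∈ l.getLast?, (∃ i, a ∈ C i) ∧ a ∈ G ∧ a ∉ B) ∧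
            ∀ x ∈ l.dropLast, x ∈ G ∧ x ∉ B ∧ ∀ i, x ∉ C i},
          ((l : List Site).dropLast.map (rw1 G lam θ)).prod ≤ A)
    (hA' : ∀ z ∈ G, z ∉ B → ∑' l : {l : List Site // l.head? = some z ∧ l.IsChain Adj ∧
            ∀ x ∈ l, x ∈ G ∧ x ∉ B ∧ ∀ i, x ∉ C i},
          ((l : List Site).map (rw1 G lam θ)).prod ≤ A')
    (w : Site → ℕ → ℝ≥0∞)
    (hw1 : ∀ x ∈ G, (∀ i, x ∉ Z i) → ∀ n, 1 ≤ n → w x n ≤
      ENNReal.ofReal (Real.exp (-((1 - θ) * β * kap G x))) * rw1 G lam θ x ^ n)
    (hw2 : ∀ i, ∀ x ∈ C i, ∀ n, w x n = gw β lam n)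
    (hw3 : ∀ i, ∀ x ∈ Z i, x ∉ C i → ∀ n, 1 ≤ n → w x n ≤ fw lam n)
    (D : ι → List (Option Site × Option Site)) (Q : ι → List (List Site) → Prop)
    (S : Set (List Site))
    (hS : ∀ l ∈ S, l.head? = some 0 ∧ l.IsChain Adj ∧ (∀ x ∈ l, x ∈ G ∧ x ∉ B) ∧
      (∀ x ∈ G, (∀ i, x ∉ Z i) → kap G x ≠ 0 → x ∈ l) ∧
      ∃ E, Dec C Z l E ∧ ∀ i, ends (E i) = D i ∧ Q i (E i)) :
    ∑' l : S, Wt w l ≤
      ENNReal.ofReal (Real.exp (-((1 - θ) * β *
        (∑ x ∈ G, Set.indicator {x | ∀ i, x ∉ Z i} (fun x => (kap G x : ℝ)) x))))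
      * A ^ (∑ i, (D i).length) * A' *
      ∏ i, ∑' E : {E : List (List Site) // ends E = D i ∧ Q i E ∧
          ∀ e ∈ E, ∃ a b, IsExc (C i) (Z i) a b e}, Wg β lam (C i) (visits E) := by
  classical
  rcases S.eq_empty_or_nonempty with hSe | ⟨l0, hl0⟩
  · subst hSe
    simp
  -- the start
  have h0 : (0 : Site) ∈ {x : Site | x ∈ G ∧ x ∉ B} := by
    obtain ⟨h1, _, h2, _⟩ := hS l0 hl0
    exact h2 0 (List.mem_of_mem_head? (by rw [h1]; rfl))
  set n := ∑ i, (D i).length with hn
  set c := ENNReal.ofReal (Real.exp (-((1 - θ) * β *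
        (∑ x ∈ G, Set.indicator {x | ∀ i, x ∉ Z i} (fun x => (kap G x : ℝ)) x)))) with hc
  set H : Set Site := {x : Site | x ∈ G ∧ x ∉ B} with hH
  let g : ι → List (List Site) → ℝ≥0∞ := fun i E =>
    Set.indicator {E : List (List Site) | ends E = D i ∧ Q i E ∧
      ∀ e ∈ E, ∃ a b, IsExc (C i) (Z i) a b e} (fun E => Wg β lam (C i) (visits E)) E
  let f : UT ι n → (ι → List (List Site)) → ℝ≥0∞ := fun x E =>
    if Valid C H n 0 E x then ((pieces n x).map (rw1 G lam θ)).prod else 0
  -- the data of a chain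
  have key : ∀ l : S, ∃ q : (ι → List (List Site)) × UT ι n, glue n q.1 q.2 = l ∧
      Wt w l ≤ c * (f q.2 q.1 * ∏ i, g i (q.1 i)) := by
    rintro ⟨l, hl⟩
    obtain ⟨k1, k2, k3, k4, E, k5, k6⟩ := hS l hl
    have hnE : ∑ i, (E i).length = n := by
      rw [hn]
      refine Finset.sum_congr rfl fun i _ => ?_
      rw [← (k6 i).1]
      simp [ends]
    obtain ⟨x, x1, x2, x3, x4, x5⟩ := exists_par (H := H) hCZ k5 0 k1 k2 (fun x hx => k3 x hx) n hnE
    refine ⟨(E, x), x1, ?_⟩
    have h1 := weight_le hθ1 h4 hdisj w hw1 hw2 hw3 (l := l) (fun x hx => (k3 x hx).1) k4 x3 x4 x5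
    refine h1.trans (le_of_eq ?_)
    have h2 : f x E = ((pieces n x).map (rw1 G lam θ)).prod := if_pos x2
    have h3 : ∀ i, g i (E i) = Wg β lam (C i) (visits (E i)) := fun i =>
      Set.indicator_of_mem (show E i ∈ {E : List (List Site) | ends E = D i ∧ Q i E ∧
        ∀ e ∈ E, ∃ a b, IsExc (C i) (Z i) a b e} from ⟨(k6 i).1, (k6 i).2, x5 i⟩) _
    simp only [h2, h3]
    rw [mul_assoc]
  choose J hJ1 hJ2 using key
  have hJinj : Function.Injective J := by
    intro l l' hll
    apply Subtype.ext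
    rw [← hJ1 l, ← hJ1 l', hll]
  have hdisjC : ∀ i j, i ≠ j → Disjoint (C i) (C j) := fun i j hij =>
    (hdisj i j hij).mono (hCZ i) (hCZ j)
  have hbound : ∀ E : ι → List (List Site), ∑' x : UT ι n, f x E ≤ A ^ n * A' := by
    intro E
    refine bound hdisjC (H := H) (rw := rw1 G lam θ) ?_ ?_ n 0 h0 E
    · intro z hz
      refine le_trans (ENNReal.tsum_mono_subtype
        (fun l : List Site => (l.dropLast.map (rw1 G lam θ)).prod)
        (s := {l : List Site | l.head? = some z ∧ l.IsChain Adj ∧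
            (∃ a ∈ l.getLast?, (∃ i, a ∈ C i) ∧ a ∈ H) ∧
            ∀ x ∈ l.dropLast, x ∈ H ∧ ∀ i, x ∉ C i})
        (t := {l : List Site | l.head? = some z ∧ l.IsChain Adj ∧
            (∃ a ∈ l.getLast?, (∃ i, a ∈ C i) ∧ a ∈ G ∧ a ∉ B) ∧
            ∀ x ∈ l.dropLast, x ∈ G ∧ x ∉ B ∧ ∀ i, x ∉ C i}) ?_) (hA z hz.1 hz.2)
      rintro l ⟨m1, m2, ⟨v, hv, hi, hvH⟩, m3⟩
      exact ⟨m1, m2, ⟨v, hv, hi, hvH.1, hvH.2⟩,
        fun x hx => ⟨(m3 x hx).1.1, (m3 x hx).1.2, (m3 x hx).2⟩⟩
    · intro z hz
      refine le_trans (ENNReal.tsum_mono_subtype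
        (fun l : List Site => (l.map (rw1 G lam θ)).prod)
        (s := {l : List Site | l.head? = some z ∧ l.IsChain Adj ∧
            ∀ x ∈ l, x ∈ H ∧ ∀ i, x ∉ C i})
        (t := {l : List Site | l.head? = some z ∧ l.IsChain Adj ∧
            ∀ x ∈ l, x ∈ G ∧ x ∉ B ∧ ∀ i, x ∉ C i}) ?_) (hA' z hz.1 hz.2)
      rintro l ⟨m1, m2, m3⟩
      exact ⟨m1, m2, fun x hx => ⟨(m3 x hx).1.1, (m3 x hx).1.2, (m3 x hx).2⟩⟩
  calc ∑' l : S, Wt w l
      ≤ ∑' l : S, c * (f (J l).2 (J l).1 * ∏ i, g i ((J l).1 i)) := ENNReal.tsum_le_tsum hJ2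
    _ ≤ ∑' q : (ι → List (List Site)) × UT ι n, c * (f q.2 q.1 * ∏ i, g i (q.1 i)) :=
        ENNReal.tsum_comp_le_tsum_of_injective hJinj
          (fun q : (ι → List (List Site)) × UT ι n => c * (f q.2 q.1 * ∏ i, g i (q.1 i)))
    _ = c * ∑' (E : ι → List (List Site)), (∑' x : UT ι n, f x E) * ∏ i, g i (E i) := by
        rw [ENNReal.tsum_mul_left, ENNReal.tsum_prod
          (f := fun (E : ι → List (List Site)) (x : UT ι n) => f x E * ∏ i, g i (E i))]
        simp_rw [ENNReal.tsum_mul_right]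
    _ ≤ c * ∑' (E : ι → List (List Site)), (A ^ n * A') * ∏ i, g i (E i) := by
        refine mul_le_mul_right (ENNReal.tsum_le_tsum fun E => ?_) _
        exact mul_le_mul_left (hbound E) _
    _ = c * A ^ n * A' * ∑' (E : ι → List (List Site)), ∏ i, g i (E i) := by
        rw [ENNReal.tsum_mul_left, ← mul_assoc, ← mul_assoc]
    _ ≤ c * A ^ n * A' * ∏ i, ∑' E, g i E := mul_le_mul_right (tsum_prod_le g) _
    _ = _ := by
        congr 1
        refine Finset.prod_congr rfl fun i _ => ?_
        exact (tsum_subtype {E : List (List Site) | ends E = D i ∧ Q i E ∧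
          ∀ e ∈ E, ∃ a b, IsExc (C i) (Z i) a b e}
          (fun E => Wg β lam (C i) (visits E))).symm

end Pool.Agent.WSB71
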