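import Pool.Agent.WSB71.FMain
import Pool.Agent.WSB71.UBDefs
import Pool.Agent.WSB71.USumProof

/-!
# UB: the bound for one datum (proof)

The chains are sorted by the normalised contour `p` (shifted such that the first block starts at `0`).
For one contour: `ins_sum` (blocked blocks) and `u_sum` (exact blocks).  The sum over the contours: a
contour is determined by the paths of its blocks.
-/

open MeasureTheory Filter Topology
open scoped NNReal ENNReal

namespace Pool.Agent.WSB71

open Pool.Agent.LT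

namespace UBD12

/-! ## Rotations -/

lemma rd_inj : ∀ r : ℕ, Function.Injective (rd r)
  | 0 => fun _ _ h => h
  | r + 1 => by
    intro a b h
    have h1 := rd_inj r h
    simp only [Prod.mk.injEq, neg_inj] at h1
    exact Prod.ext h1.2 h1.1

lemma rs_inj : ∀ r : ℕ, Function.Injective (rs r)
  | 0 => fun _ _ h => h
  | r + 1 => by
    intro a b h
    have h1 := rs_inj r h
    simp only [Prod.mk.injEq] at h1
    exact Prod.ext h1.2 (by linarith [h1.1])

lemma rd_zero : ∀ r : ℕ, rd r 0 = 0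
  | 0 => rfl
  | r + 1 => by
    have : rd (r + 1) 0 = rd r (-(0 : Site).2, (0 : Site).1) := rfl
    rw [this]
    have h : ((-(0 : Site).2, (0 : Site).1) : Site) = 0 := by
      ext <;> simp
    rw [h, rd_zero r]

lemma rd_adj : ∀ (r : ℕ) {a b : Site}, Adj a b → Adj (rd r a) (rd r b)
  | 0, _, _, h => h
  | r + 1, a, b, h => by
    refine rd_adj r ?_
    unfold Adj units at h ⊢
    simp only [Finset.mem_insert, Finset.mem_singleton, Prod.ext_iff, Prod.fst_sub,
      Prod.snd_sub] at h ⊢
    omega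

lemma rel_inj (p : ℤ → Site) (r : ℕ) (s : ℤ) : Function.Injective (rel p r s) := by
  intro x y h
  have h1 := rs_inj r h
  exact sub_left_injective h1

/-! ## Paths of the blocks -/

lemma blk_eq (p : ℤ → Site) (r : ℕ) (s s' : ℤ) : blk p r s s' =
    (List.range ((s' - s).toNat + 1)).map (fun k : ℕ => rd r (p (s + k) - p s)) := by
  unfold blk
  generalize List.range ((s' - s).toNat + 1) = l
  induction l with
  | nil => rfl
  | cons a l ih =>
    rw [List.map_cons, ← ih]
    rfl

lemma blk_head (p : ℤ → Site) (r : ℕ) (s s' : ℤ) : (blk p r s s').head? = some 0 := by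
  rw [blk_eq, List.range_succ_eq_map]
  simp [rd_zero]

lemma blk_len (p : ℤ → Site) (r : ℕ) (s : ℤ) (k : ℕ) : (blk p r s (s + k)).length = k + 1 := by
  rw [blk_eq, List.length_map, List.length_range]
  omega

lemma adj_sub {a b c : Site} (h : Adj a b) : Adj (a - c) (b - c) := by
  unfold Adj at h ⊢
  rwa [sub_sub_sub_cancel_right]

lemma blk_chain {p : ℤ → Site} (hp : ∀ i, Adj (p i) (p (i + 1))) (r : ℕ) (s s' : ℤ) :
    (blk p r s s').IsChain Adj := by
  rw [blk_eq, List.isChain_map]
  generalize (s' - s).toNat + 1 = m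
  rw [List.isChain_iff_getElem]
  intro i hi
  rw [List.getElem_range, List.getElem_range]
  refine rd_adj r (adj_sub ?_)
  have := hp (s + i)
  rw [add_assoc] at this
  push_cast
  exact this

lemma blk_get {p p' : ℤ → Site} {r : ℕ} {s : ℤ} {k : ℕ} (h : blk p r s (s + k) = blk p' r s (s + k))
    (hs : p s = p' s) {j : ℕ} (hj : j ≤ k) : p (s + j) = p' (s + j) := by
  have h1 : (blk p r s (s + k))[j]? = (blk p' r s (s + k))[j]? := by rw [h]
  rw [blk_eq, blk_eq] at h1
  have hm : (s + (k : ℤ) - s).toNat + 1 = k + 1 := by omega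
  rw [hm, List.getElem?_map, List.getElem?_map, List.getElem?_range (by omega)] at h1
  simp only [Option.map_some, Option.some.injEq] at h1
  have h2 := rd_inj r h1
  rw [hs] at h2
  exact sub_left_injective h2

/-! ## Chains with insertions -/

lemma ins_chain {l : List (Site × List Site)} (h : (l.map Prod.fst).IsChain Adj)
    (hl : ∀ p ∈ l, ∀ x ∈ p.2, Adj p.1 x) : (insW l).IsChain Adj := by
  -- trips
  have trips : ∀ (a : Site) (w : List Site) (t : List Site), (∀ x ∈ w, Adj a x) →
      (a :: t).IsChain Adj → (a :: (w.flatMap (fun x => [x, a]) ++ t)).IsChain Adj := by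
    intro a w t hw ht
    induction w with
    | nil => exact ht
    | cons x w ih =>
      have h1 := ih fun y hy => hw y (List.mem_cons_of_mem _ hy)
      have h2 := hw x List.mem_cons_self
      rw [List.flatMap_cons]
      show (a :: x :: a :: (w.flatMap (fun x => [x, a]) ++ t)).IsChain Adj
      rw [List.isChain_cons_cons, List.isChain_cons_cons]
      exact ⟨h2, h2.symm, h1⟩
  induction l with
  | nil => exact List.IsChain.nil
  | cons q l ih =>
    have h1 : insW (q :: l) = (q.1 :: (q.2.flatMap (fun x => [x, q.1]) ++ insW l)) := rfl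
    rw [h1]
    refine trips _ _ _ (hl q List.mem_cons_self) ?_
    have h3 : (l.map Prod.fst).IsChain Adj := by
      rw [List.map_cons] at h
      exact h.tail
    have h2 := ih h3 fun p hp => hl p (List.mem_cons_of_mem _ hp)
    rw [List.isChain_cons]
    refine ⟨?_, h2⟩
    intro y hy
    rw [insW_head] at hy
    rw [List.map_cons, List.isChain_cons] at h
    exact h.1 y hy

lemma mem_insW_of_mem {l : List (Site × List Site)} {x : Site} (h : x ∈ l.map Prod.fst) :
    x ∈ insW l := by
  obtain ⟨q, hq, rfl⟩ := List.mem_map.1 h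
  unfold insW
  exact List.mem_flatMap.2 ⟨q, hq, List.mem_cons_self⟩

/-- Empty zones have no excursions. -/
lemma dec_nil {ι : Type} {C Z : ι → Set Site} {l : List Site} {E : ι → List (List Site)}
    (h : Dec C Z l E) {i : ι} (hi : C i = ∅) : E i = [] := by
  classical
  induction h with
  | last s hs h => rfl
  | step s e l j a b E hs he hl h ih =>
    have hij : i ≠ j := by
      rintro rfl
      have := he.2.1
      rw [hi] at this
      exact this
    rw [Function.update_of_ne hij]
    exact ih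

/-! ## Invariance of the weights -/

open Classical in
lemma Wg_map {β lam : ℝ} {B B' : Set Site} {f : Site → Site} (hf : Function.Injective f)
    (hB : ∀ x, x ∈ B ↔ f x ∈ B') (l : List Site) : Wg β lam B l = Wg β lam B' (l.map f) := by
  unfold Wg
  have h1 : (l.map f).toFinset = l.toFinset.image f := by
    ext y
    simp
  rw [h1, Finset.prod_image (fun x _ y _ h => hf h)]
  refine Finset.prod_congr rfl fun x _ => ?_
  rw [List.count_map_of_injective l f hf x]
  by_cases hx : x ∈ B
  · rw [if_pos hx, if_pos ((hB x).1 hx)]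
  · rw [if_neg hx, if_neg (fun h => hx ((hB x).2 h))]

lemma visits_map (f : Site → Site) (E : List (List Site)) :
    visits (E.map (List.map f)) = (visits E).map f := by
  unfold visits
  induction E with
  | nil => rfl
  | cons e E ih =>
    rw [List.map_cons, List.flatMap_cons, List.flatMap_cons, List.map_append, ih,
      List.map_dropLast]

lemma ends_map (f : Site → Site) (E : List (List Site)) :
    ends (E.map (List.map f)) = (ends E).map (fun q => (q.1.map f, q.2.map f)) := by
  unfold ends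
  rw [List.map_map, List.map_map]
  refine List.map_congr_left fun e _ => ?_
  simp

/-! ## Normalisation -/

/-- Partial sums of the lengths. -/
def cc (bs : List BD) (i : ℕ) : ℕ := ((bs.take i).map BD.len).sum

lemma cc_zero (bs : List BD) : cc bs 0 = 0 := rfl

lemma cc_succ (bs : List BD) {i : ℕ} (hi : i < bs.length) :
    cc bs (i + 1) = cc bs i + bs[i].len := by
  unfold cc
  rw [List.take_succ_eq_append_getElem hi, List.map_append, List.sum_append]
  simp

lemma cc_mono (bs : List BD) {i j : ℕ} (h : i ≤ j) (hj : j ≤ bs.length) : cc bs i ≤ cc bs j := by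
  induction j, h using Nat.le_induction with
  | base => exact le_rfl
  | succ j _ ih =>
    have h1 := ih (by omega)
    rw [cc_succ bs (by omega : j < bs.length)]
    omega

/-- The block containing `k`. -/
lemma exists_block (bs : List BD) {k m : ℕ} (hm : m ≤ bs.length) (hk : k < cc bs m) :
    ∃ i, ∃ hi : i < bs.length, cc bs i ≤ k ∧ k < cc bs i + bs[i].len := by
  induction m with
  | zero => rw [cc_zero] at hk; omega
  | succ m ih =>
    by_cases h : k < cc bs m
    · exact ih (by omega) h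
    · refine ⟨m, by omega, by omega, ?_⟩
      rw [← cc_succ]
      exact hk

/-- Validity for the normalised contour `p`. -/
def NVal (h s₀ : ℤ) (L M : ℕ) (s0 : Site) (bs : List BD) (p : ℤ → Site) (l : List Site) : Prop :=
  l.head? = some 0 ∧ l.IsChain Adj ∧
  GVal h L s0 bs (fil l.toFinset) (cc bs bs.length) p (fun i => (cc bs i : ℤ)) ∧
    (∃ E : Fin bs.length → List (List Site),
      Dec (exC p h bs (fun i => (cc bs i : ℤ))) (exZ p h bs (fun i => (cc bs i : ℤ))) l E ∧
      ∀ i : Fin bs.length, bs[i].kind = 2 →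
        Tile h s₀ L M (rd bs[i].rot bs[i].v) bs[i].D
          (blk p bs[i].rot (cc bs i : ℤ) ((cc bs i : ℤ) + bs[i].len),
            (E i).map (List.map (rel p bs[i].rot (cc bs i : ℤ))))) ∧
    (∀ i (hi : i < bs.length), bs[i].kind = 1 → (L : ℤ) ≤ 8 *
      ({q : Site × Site | Adj q.1 q.2 ∧ q.1 ∈ l ∧ q.2 ∉ l ∧
        q.1 ∈ absC p h bs[i] (cc bs i : ℤ) ∧
        q.2 ∈ absC p h bs[i] (cc bs i : ℤ)}.ncard : ℤ))

lemma cont_shift {G : Finset Site} {n : ℕ} {p : ℤ → Site} (hp : Cont G n p) (a : ℤ) :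
    Cont G n (fun j => p (a + j)) where
  pos := hp.pos
  card := hp.card
  per i := by
    show p (a + (i + n)) = p (a + i)
    rw [← add_assoc, hp.per]
  adj i := by
    show Adj (p (a + i)) (p (a + (i + 1)))
    rw [← add_assoc]
    exact hp.adj _
  inj i j h := by
    have := hp.inj _ _ h
    rwa [add_sub_add_left_eq_sub] at this
  side i := by
    show inn (p (a + i)) (p (a + (i + 1))) ∈ G ∧ out (p (a + i)) (p (a + (i + 1))) ∉ G
    rw [← add_assoc]
    exact hp.side _
  surj x hx y hy hxy := by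
    obtain ⟨i, h1, h2, h3, h4⟩ := hp.surj x hx y hy hxy
    have hn : (0 : ℤ) < n := by have := hp.pos; omega
    have hper : ∀ (j m : ℤ), p (j + m * n) = p j := by
      intro j m
      induction m using Int.induction_on generalizing j with
      | zero => rw [zero_mul, add_zero]
      | succ m ih =>
        have e : j + ((m : ℤ) + 1) * n = (j + m * n) + n := by ring
        rw [e, hp.per, ih]
      | pred m ih =>
        have h5 := hp.per (j + (-(m : ℤ) - 1) * n)
        have e : j + (-(m : ℤ) - 1) * n + n = j + (-m) * n := by ring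
        rw [e, ih] at h5
        exact h5.symm
    have e : ∃ m : ℤ, a + (i - a) % n = i + m * n := by
      refine ⟨-((i - a) / n), ?_⟩
      have := Int.emod_add_mul_ediv (i - a) n
      linarith [mul_comm (n : ℤ) ((i - a) / n)]
    obtain ⟨m, hm⟩ := e
    refine ⟨(i - a) % n, Int.emod_nonneg _ hn.ne', Int.emod_lt_of_pos _ hn, ?_⟩
    show inn (p (a + (i - a) % n)) (p (a + ((i - a) % n + 1))) = x ∧
      out (p (a + (i - a) % n)) (p (a + ((i - a) % n + 1))) = y
    rw [← add_assoc, hm]
    have e2 : i + m * n + 1 = (i + 1) + m * n := by ring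
    rw [e2, hper, hper]
    exact ⟨h3, h4⟩

lemma blk_shift (p : ℤ → Site) (r : ℕ) (a s s' : ℤ) :
    blk (fun j => p (a + j)) r s s' = blk p r (a + s) (a + s') := by
  rw [blk_eq, blk_eq]
  have e : (a + s' - (a + s)).toNat = (s' - s).toNat := by congr 1; ring
  rw [e]
  refine List.map_congr_left fun k _ => ?_
  simp only [add_assoc]

theorem exists_nval {h s₀ : ℤ} {L M : ℕ} {s0 : Site} {bs : List BD} {l : List Site}
    (hv : Val h s₀ L M s0 bs l) : ∃ p, NVal h s₀ L M s0 bs p l := by
  obtain ⟨h1, h2, n, p, c, hG, ⟨E, hE1, hE2⟩, hb⟩ := hv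
  have hc : ∀ i, i ≤ bs.length → c i = c 0 + cc bs i := by
    intro i
    induction i with
    | zero => intro _; simp [cc_zero]
    | succ i ih =>
      intro hi
      rw [(hG.step i (by omega)).1, ih (by omega), cc_succ bs (by omega)]
      push_cast
      ring
  have hn : n = cc bs bs.length := by
    have h3 := hG.tot
    rw [hc _ le_rfl] at h3
    omega
  subst hn
  have hrel : ∀ (r : ℕ) i, i < bs.length →
      rel (fun j => p (c 0 + j)) r (cc bs i : ℤ) = rel p r (c i) := by
    intro r i hi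
    rw [hc i hi.le]
    rfl
  have hblk : ∀ i (hi : i < bs.length),
      blk (fun j => p (c 0 + j)) bs[i].rot (cc bs i : ℤ) ((cc bs i : ℤ) + bs[i].len) =
        blk p bs[i].rot (c i) (c i + bs[i].len) := by
    intro i hi
    rw [blk_shift, hc i hi.le, add_assoc]
  have hC : ∀ i (hi : i < bs.length),
      absC (fun j => p (c 0 + j)) h bs[i] (cc bs i : ℤ) = absC p h bs[i] (c i) := by
    intro i hi
    unfold absC
    rw [hblk i hi, hrel _ i hi]
  have hZ : ∀ i (hi : i < bs.length),
      absZ (fun j => p (c 0 + j)) h bs[i] (cc bs i : ℤ) = absZ p h bs[i] (c i) := by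
    intro i hi
    unfold absZ
    rw [hblk i hi, hrel _ i hi]
  have heC : exC (fun j => p (c 0 + j)) h bs (fun i => (cc bs i : ℤ)) = exC p h bs c := by
    funext i
    unfold exC
    rw [Fin.getElem_fin, hC i.1 i.2]
  have heZ : exZ (fun j => p (c 0 + j)) h bs (fun i => (cc bs i : ℤ)) = exZ p h bs c := by
    funext i
    unfold exZ
    rw [Fin.getElem_fin, hZ i.1 i.2]
  refine ⟨fun j => p (c 0 + j), h1, h2, ?_, ⟨E, ?_, ?_⟩, ?_⟩
  · refine ⟨cont_shift hG.cont _, ?_, ?_, ?_, hG.noD, ?_, ?_, ?_⟩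
    · show p (c 0 + (cc bs 0 : ℤ)) = s0
      rw [cc_zero, Nat.cast_zero, add_zero]
      exact hG.start
    · show (cc bs bs.length : ℤ) = (cc bs 0 : ℤ) + (cc bs bs.length : ℤ)
      rw [cc_zero, Nat.cast_zero, zero_add]
    · intro i hi
      refine ⟨?_, ?_⟩
      · show (cc bs (i + 1) : ℤ) = (cc bs i : ℤ) + bs[i].len
        rw [cc_succ bs hi]
        push_cast
        rfl
      · show p (c 0 + (cc bs (i + 1) : ℤ)) = p (c 0 + (cc bs i : ℤ)) + bs[i].v
        rw [← hc _ (by omega), ← hc _ hi.le]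
        exact (hG.step i hi).2
    · intro i hi hk
      have := hG.tile i hi hk
      rw [← hblk i hi] at this
      exact this
    · intro i hi hk x hx
      rw [hZ i hi] at hx
      obtain ⟨h3, h4, h5⟩ := hG.zone i hi hk x hx
      refine ⟨h3, h4, ?_⟩
      intro k hk'
      have e : c 0 + (k + 1) = c 0 + k + 1 := by ring
      have hk2 : inn (p (c 0 + k)) (p (c 0 + (k + 1))) = x := hk'
      rw [e] at hk2
      obtain ⟨m, h6, h7⟩ := h5 _ hk2
      refine ⟨m, ?_, ?_⟩
      · show (cc bs i : ℤ) ≤ _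
        have := hc i hi.le
        linarith
      · show _ < (cc bs (i + 1) : ℤ)
        have := hc (i + 1) (by omega)
        linarith
    · intro i j hi hj hij hki hkj
      rw [hZ i hi, hZ j hj]
      exact hG.disj i j hi hj hij hki hkj
  · rw [heC, heZ]
    exact hE1
  · intro i hk
    have h3 := hE2 i hk
    simp only [Fin.getElem_fin] at h3 ⊢
    rw [hblk i.1 i.2, hrel _ i.1 i.2]
    exact h3
  · intro i hi hk
    rw [hC i hi]
    exact hb i hi hk

/-! ## The contour determines the set -/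

lemma step_det {p q p' q' : Site} (h : Adj p q) (h' : Adj p' q') (hi : inn p q = inn p' q')
    (ho : out p q = out p' q') : p = p' := by
  unfold Adj units at h h'
  unfold inn at hi
  unfold out at ho
  simp only [Finset.mem_insert, Finset.mem_singleton, Prod.ext_iff, Prod.fst_sub,
    Prod.snd_sub] at h h' hi ho
  refine Prod.ext ?_ ?_ <;> omega

lemma G_sub {G G' : Finset Site} {n n' : ℕ} {p : ℤ → Site} (hp : Cont G n p) (hp' : Cont G' n' p)
    {x y : Site} (hx : x ∈ G) (hy : y ∉ G) (h : Adj x y) : x ∈ G' ∧ y ∉ G' := by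
  obtain ⟨i, -, -, h3, h4⟩ := hp.surj x hx y hy h
  rw [← h3, ← h4]
  exact hp'.side i

lemma adj_dirv' (x : Site) (b : Bool) : Adj x (x + dirv b) := by
  unfold Adj
  rw [add_sub_cancel_left]
  cases b <;> decide

theorem G_eq {G G' : Finset Site} {n n' : ℕ} {p : ℤ → Site} (hp : Cont G n p)
    (hp' : Cont G' n' p) : G = G' := by
  refine bdry_inj ?_
  have key : ∀ (G G' : Finset Site) (n n' : ℕ), Cont G n p → Cont G' n' p →
      bdry G ⊆ bdry G' := by
    intro G G' n n' hp hp'
    rintro ⟨x, b⟩ hx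
    rw [mem_bdry] at hx ⊢
    have ha := adj_dirv' x b
    by_cases h1 : x ∈ G
    · have h2 : x + dirv b ∉ G := fun h => hx (by simp [h1, h])
      obtain ⟨h3, h4⟩ := G_sub hp hp' h1 h2 ha
      simp [h3, h4]
    · have h2 : x + dirv b ∈ G := by
        by_contra h
        exact hx (by simp [h1, h])
      obtain ⟨h3, h4⟩ := G_sub hp hp' h2 h1 ha.symm
      simp [h3, h4]
  exact Finset.Subset.antisymm (key _ _ _ _ hp hp') (key _ _ _ _ hp' hp)

lemma per_mul {G : Finset Site} {n : ℕ} {p : ℤ → Site} (hp : Cont G n p) (j m : ℤ) :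
    p (j + m * n) = p j := by
  induction m using Int.induction_on generalizing j with
  | zero => rw [zero_mul, add_zero]
  | succ m ih =>
    have e : j + ((m : ℤ) + 1) * n = (j + m * n) + n := by ring
    rw [e, hp.per, ih]
  | pred m ih =>
    have h5 := hp.per (j + (-(m : ℤ) - 1) * n)
    have e : j + (-(m : ℤ) - 1) * n + n = j + (-m) * n := by ring
    rw [e, ih] at h5
    exact h5.symm

theorem p_inj {h : ℤ} {L : ℕ} {s0 : Site} {bs : List BD} {G G' : Finset Site} {p p' : ℤ → Site}
    (hG : GVal h L s0 bs G (cc bs bs.length) p (fun i => (cc bs i : ℤ)))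
    (hG' : GVal h L s0 bs G' (cc bs bs.length) p' (fun i => (cc bs i : ℤ)))
    (hb : ∀ i (hi : i < bs.length),
      blk p bs[i].rot (cc bs i : ℤ) ((cc bs i : ℤ) + bs[i].len) =
        blk p' bs[i].rot (cc bs i : ℤ) ((cc bs i : ℤ) + bs[i].len)) : p = p' := by
  have h1 : ∀ i, i ≤ bs.length → p (cc bs i : ℤ) = p' (cc bs i : ℤ) := by
    intro i
    induction i with
    | zero =>
      intro _
      have h2 : p (cc bs 0 : ℤ) = s0 := hG.start
      have h3 : p' (cc bs 0 : ℤ) = s0 := hG'.start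
      rw [h2, h3]
    | succ i ih =>
      intro hi
      have hi' : i < bs.length := by omega
      have h2 : p (cc bs (i + 1) : ℤ) = p (cc bs i : ℤ) + bs[i].v := (hG.step i hi').2
      have h3 : p' (cc bs (i + 1) : ℤ) = p' (cc bs i : ℤ) + bs[i].v := (hG'.step i hi').2
      rw [h2, h3, ih (by omega)]
  have hn : (0 : ℤ) < (cc bs bs.length : ℤ) := by
    have := hG.cont.pos
    omega
  have h2 : ∀ k : ℕ, k < cc bs bs.length → p k = p' k := by
    intro k hk
    obtain ⟨i, hi, h3, h4⟩ := exists_block bs le_rfl hk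
    have h5 := blk_get (hb i hi) (h1 i hi.le) (j := k - cc bs i) (by omega)
    have e : (cc bs i : ℤ) + ((k - cc bs i : ℕ) : ℤ) = k := by omega
    rwa [e] at h5
  funext j
  obtain ⟨k, hk⟩ : ∃ k : ℕ, (k : ℤ) = j % (cc bs bs.length : ℤ) :=
    ⟨(j % (cc bs bs.length : ℤ)).toNat, Int.toNat_of_nonneg (Int.emod_nonneg _ hn.ne')⟩
  have hk2 : k < cc bs bs.length := by
    have := Int.emod_lt_of_pos j hn
    omega
  have e : j = k + (j / (cc bs bs.length : ℤ)) * (cc bs bs.length : ℕ) := by
    have := Int.emod_add_mul_ediv j (cc bs bs.length : ℤ)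
    rw [hk]
    linarith [mul_comm (j / (cc bs bs.length : ℤ)) (cc bs bs.length : ℤ)]
  rw [e, per_mul hG.cont, per_mul hG'.cont]
  exact h2 k hk2

/-! ## Counting the boundary outside the exact zones -/

open Classical in
theorem len_le {h : ℤ} {L : ℕ} {s0 : Site} {bs : List BD} {G : Finset Site} {p : ℤ → Site}
    (hG : GVal h L s0 bs G (cc bs bs.length) p (fun i => (cc bs i : ℤ))) :
    (∑ i : Fin bs.length, if bs[i].kind = 2 then 0 else bs[i].len) ≤
      ∑ x ∈ G, Set.indicator {x | ∀ i, x ∉ exZ p h bs (fun i => (cc bs i : ℤ)) i}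
        (fun x => kap G x) x := by
  have hR : (∑ x ∈ G, Set.indicator {x | ∀ i, x ∉ exZ p h bs (fun i => (cc bs i : ℤ)) i}
        (fun x => kap G x) x) =
      ((G.filter (fun x => ∀ i, x ∉ exZ p h bs (fun i => (cc bs i : ℤ)) i)).sigma
        (fun x => units.filter (fun e => x + e ∉ G))).card := by
    rw [Finset.card_sigma, Finset.sum_filter]
    refine Finset.sum_congr rfl fun x _ => ?_
    rw [Set.indicator_apply]
    rfl
  have hL : (∑ i : Fin bs.length, if bs[i].kind = 2 then 0 else bs[i].len) =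
      (((Finset.univ : Finset (Fin bs.length)).filter (fun i => ¬ bs[i].kind = 2)).sigma
        (fun i => Finset.range bs[i].len)).card := by
    rw [Finset.card_sigma, Finset.sum_filter]
    refine Finset.sum_congr rfl fun i _ => ?_
    by_cases hk : bs[i].kind = 2
    · simp
    · simp
  rw [hR, hL]
  refine Finset.card_le_card_of_injOn
    (fun q => ⟨inn (p ((cc bs q.1 : ℤ) + q.2)) (p ((cc bs q.1 : ℤ) + q.2 + 1)),
      out (p ((cc bs q.1 : ℤ) + q.2)) (p ((cc bs q.1 : ℤ) + q.2 + 1)) -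
      inn (p ((cc bs q.1 : ℤ) + q.2)) (p ((cc bs q.1 : ℤ) + q.2 + 1))⟩) ?_ ?_
  · rintro ⟨i, j⟩ hq
    simp only [Finset.coe_sigma, Set.mem_sigma_iff, Finset.mem_coe, Finset.mem_filter,
      Finset.mem_univ, true_and, Finset.mem_range] at hq
    obtain ⟨hi, hj⟩ := hq
    obtain ⟨h1, h2⟩ := hG.cont.side ((cc bs i : ℤ) + j)
    have hadj := hG.cont.adj ((cc bs i : ℤ) + j)
    simp only [Finset.coe_sigma, Set.mem_sigma_iff, Finset.mem_coe, Finset.mem_filter]
    refine ⟨⟨h1, ?_⟩, ?_, ?_⟩
    · rintro i' ⟨hk, hx⟩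
      obtain ⟨h3, h4, h5⟩ := hG.zone i'.1 i'.2 (by
        have : bs[i'].kind = bs[i'.1].kind := rfl
        omega) _ hx
      obtain ⟨m, h6, h7⟩ := h5 _ rfl
      have hN1 : cc bs (i'.1 + 1) ≤ cc bs bs.length := cc_mono bs (by omega) le_rfl
      have hN2 : cc bs (i.1 + 1) ≤ cc bs bs.length := cc_mono bs (by omega) le_rfl
      have hs : cc bs (i.1 + 1) = cc bs i.1 + bs[i].len := cc_succ bs i.2
      have hm : m = 0 := by
        have hn : (0 : ℤ) < (cc bs bs.length : ℤ) := by
          have := hG.cont.pos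
          omega
        have a1 : m * (cc bs bs.length : ℤ) < 1 * (cc bs bs.length : ℤ) := by
          have : (0 : ℤ) ≤ (cc bs i : ℤ) + j := by positivity
          have h8 : ((cc bs (i'.1 + 1) : ℕ) : ℤ) ≤ (cc bs bs.length : ℤ) := by exact_mod_cast hN1
          linarith
        have a2 : (-1) * (cc bs bs.length : ℤ) < m * (cc bs bs.length : ℤ) := by
          have h9 : (0 : ℤ) ≤ (cc bs i' : ℤ) := by positivity
          have h10 : ((cc bs i : ℕ) : ℤ) + j < (cc bs bs.length : ℤ) := by
            have : cc bs i.1 + j < cc bs bs.length := by omega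
            exact_mod_cast this
          linarith
        have b1 := lt_of_mul_lt_mul_right a1 hn.le
        have b2 := lt_of_mul_lt_mul_right a2 hn.le
        omega
      rw [hm, zero_mul, add_zero] at h6 h7
      have h8 : cc bs i' ≤ cc bs i + j := by exact_mod_cast h6
      have h9 : cc bs i + j < cc bs (i' + 1) := by exact_mod_cast h7
      have hne : i.1 ≠ i'.1 := by
        intro he
        have : i = i' := Fin.ext he
        rw [this] at hi
        exact hi hk
      rcases lt_or_gt_of_ne hne with hlt | hlt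
      · have := cc_mono bs (show i.1 + 1 ≤ i'.1 from hlt) i'.2.le
        omega
      · have := cc_mono bs (show i'.1 + 1 ≤ i.1 from hlt) i.2.le
        omega
    · have : ∀ (p q : Site), Adj p q → out p q - inn p q ∈ units := by
        intro p q h
        unfold Adj units at h
        unfold out inn units
        simp only [Finset.mem_insert, Finset.mem_singleton, Prod.ext_iff, Prod.fst_sub,
          Prod.snd_sub] at h ⊢
        omega
      exact this _ _ hadj
    · rw [add_sub_cancel]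
      exact h2
  · rintro ⟨i, j⟩ hq ⟨i', j'⟩ hq' heq
    simp only [Finset.coe_sigma, Set.mem_sigma_iff, Finset.mem_coe, Finset.mem_filter,
      Finset.mem_univ, true_and, Finset.mem_range] at hq hq'
    simp only [Sigma.mk.injEq, heq_eq_eq] at heq
    obtain ⟨e1, e2⟩ := heq
    rw [e1] at e2
    have e3 := sub_left_injective e2
    have e4 := step_det (hG.cont.adj ((cc bs i : ℤ) + j)) (hG.cont.adj ((cc bs i' : ℤ) + j'))
      e1 e3
    have e5 := hG.cont.inj _ _ e4
    have hN1 : cc bs (i'.1 + 1) ≤ cc bs bs.length := cc_mono bs (by omega) le_rfl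
    have hN2 : cc bs (i.1 + 1) ≤ cc bs bs.length := cc_mono bs (by omega) le_rfl
    have hs : cc bs (i.1 + 1) = cc bs i.1 + bs[i].len := cc_succ bs i.2
    have hs' : cc bs (i'.1 + 1) = cc bs i'.1 + bs[i'].len := cc_succ bs i'.2
    have h6 := hq.2
    have h7 := hq'.2
    have e6 : (cc bs i : ℤ) + j - ((cc bs i' : ℤ) + j') = 0 := by
      refine Int.eq_zero_of_abs_lt_dvd e5 ?_
      rw [abs_lt]
      constructor <;> omega
    have hii : i = i' := by
      by_contra hne
      have hne' : i.1 ≠ i'.1 := fun he => hne (Fin.ext he)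
      rcases lt_or_gt_of_ne hne' with hlt | hlt
      · have := cc_mono bs (show i.1 + 1 ≤ i'.1 from hlt) i'.2.le
        omega
      · have := cc_mono bs (show i'.1 + 1 ≤ i.1 from hlt) i.2.le
        omega
    subst hii
    have : j = j' := by omega
    rw [this]

/-! ## The blocked blocks -/

lemma cz_sub (γ : List Site) {h : ℤ} (hh : 1 ≤ h) : Cz γ h ⊆ Zz γ h := by
  rintro x ⟨h1, h2, h3, h4⟩
  exact ⟨h1, by omega, by omega, by omega⟩

lemma absC_sub (p : ℤ → Site) {h : ℤ} (hh : 1 ≤ h) (b : BD) (c : ℤ) :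
    absC p h b c ⊆ absZ p h b c := fun _ hx => cz_sub _ hh hx

/-- The zones of the blocked blocks. -/
def Yb (p : ℤ → Site) (h : ℤ) (bs : List BD) : Set Site :=
  {x | ∃ i, ∃ hi : i < bs.length, bs[i].kind = 1 ∧ x ∈ absZ p h bs[i] (cc bs i : ℤ)}

/-- The sites of the zones of the blocked blocks without neighbours outside. -/
def Xb (p : ℤ → Site) (h : ℤ) (bs : List BD) (G : Finset Site) : Set Site :=
  {x | x ∈ Yb p h bs ∧ kap G x = 0}

lemma kap_ne {G : Finset Site} {x : Site} (h : kap G x ≠ 0) : ∃ y, y ∉ G ∧ Adj x y := by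
  unfold kap at h
  obtain ⟨e, he⟩ := Finset.card_pos.1 (Nat.pos_of_ne_zero h)
  rw [Finset.mem_filter] at he
  refine ⟨x + e, he.2, ?_⟩
  unfold Adj
  rw [add_sub_cancel_left]
  exact he.1

lemma kap_zero {l : List Site} {x : Site} (hx : x ∈ fil l.toFinset) (hxl : x ∉ l) :
    kap (fil l.toFinset) x = 0 := by
  by_contra h
  obtain ⟨y, hy, hxy⟩ := kap_ne h
  exact hxl (List.mem_toFinset.1 (adj_fil hx hy hxy))

open Classical in
theorem hE_ge {h : ℤ} (hh : 1 ≤ h) {L : ℕ} {s0 : Site} {bs : List BD} {p : ℤ → Site}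
    {l : List Site}
    (hG : GVal h L s0 bs (fil l.toFinset) (cc bs bs.length) p (fun i => (cc bs i : ℤ)))
    (hb : ∀ i (hi : i < bs.length), bs[i].kind = 1 → (L : ℤ) ≤ 8 *
      ({q : Site × Site | Adj q.1 q.2 ∧ q.1 ∈ l ∧ q.2 ∉ l ∧
        q.1 ∈ absC p h bs[i] (cc bs i : ℤ) ∧
        q.2 ∈ absC p h bs[i] (cc bs i : ℤ)}.ncard : ℤ)) :
    L * ((Finset.univ : Finset (Fin bs.length)).filter (fun i => bs[i].kind = 1)).card ≤
      8 * hE (Yb p h bs) (Xb p h bs (fil l.toFinset)) l := by
  unfold hE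
  set T := ((l.toFinset.filter (· ∈ Yb p h bs)) ×ˢ units |>.filter (fun q =>
    q.1 + q.2 ∈ Xb p h bs (fil l.toFinset) ∧ q.1 + q.2 ∉ l)) with hT
  set F := (Finset.univ : Finset (Fin bs.length)).filter (fun i => bs[i].kind = 1) with hF
  have h1 : ∀ i ∈ F, L ≤ 8 * (T.filter (fun q => q.1 ∈ absC p h bs[i] (cc bs i : ℤ))).card := by
    intro i hi
    have hk : bs[i].kind = 1 := (Finset.mem_filter.1 hi).2
    have h2 := hb i.1 i.2 hk
    have hinj : Function.Injective (fun q : Site × Site => (q.1, q.2 - q.1)) := by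
      rintro ⟨a, b⟩ ⟨a', b'⟩ hq
      simp only [Prod.mk.injEq] at hq
      obtain ⟨rfl, h3⟩ := hq
      rw [sub_left_injective h3]
    rw [← Set.ncard_image_of_injective _ hinj] at h2
    have h3 : ((fun q : Site × Site => (q.1, q.2 - q.1)) '' {q : Site × Site | Adj q.1 q.2 ∧
        q.1 ∈ l ∧ q.2 ∉ l ∧ q.1 ∈ absC p h bs[i.1] (cc bs i : ℤ) ∧
        q.2 ∈ absC p h bs[i.1] (cc bs i : ℤ)}) ⊆
        ((T.filter (fun q => q.1 ∈ absC p h bs[i] (cc bs i : ℤ)) : Finset (Site × Site)) :
          Set (Site × Site)) := by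
      rintro _ ⟨⟨a, b⟩, ⟨hab, hal, hbl, haC, hbC⟩, rfl⟩
      simp only at hab hal hbl haC hbC
      have haZ := absC_sub p hh _ _ haC
      have hbZ := absC_sub p hh _ _ hbC
      have hbG : b ∈ fil l.toFinset := (hG.zone i.1 i.2 (by
        have : bs[i].kind = bs[i.1].kind := rfl
        omega) _ hbZ).1
      simp only [Finset.mem_coe, Finset.mem_filter, hT, Finset.mem_product,
        List.mem_toFinset, add_sub_cancel]
      refine ⟨⟨⟨⟨hal, i.1, i.2, hk, haZ⟩, hab⟩, ⟨⟨i.1, i.2, hk, hbZ⟩, ?_⟩, hbl⟩, haC⟩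
      exact kap_zero hbG hbl
    have h4 := Set.ncard_le_ncard h3 (Finset.finite_toSet _)
    rw [Set.ncard_coe_finset] at h4
    omega
  have h2 : ∑ i ∈ F, (T.filter (fun q => q.1 ∈ absC p h bs[i] (cc bs i : ℤ))).card ≤ T.card := by
    rw [← Finset.card_biUnion]
    · refine Finset.card_le_card ?_
      intro q hq
      obtain ⟨i, _, hq⟩ := Finset.mem_biUnion.1 hq
      exact (Finset.mem_filter.1 hq).1
    · intro i hi j hj hij
      refine Finset.disjoint_left.2 fun q hq1 hq2 => ?_
      have h3 := absC_sub p hh _ _ (Finset.mem_filter.1 hq1).2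
      have h4 := absC_sub p hh _ _ (Finset.mem_filter.1 hq2).2
      have hk1 : bs[i.1].kind = 1 := (Finset.mem_filter.1 hi).2
      have hk2 : bs[j.1].kind = 1 := (Finset.mem_filter.1 hj).2
      have h5 := hG.disj i.1 j.1 i.2 j.2 (fun he => hij (Fin.ext he)) (by omega) (by omega)
      exact Set.disjoint_left.1 h5 h3 h4
  calc L * F.card = ∑ i ∈ F, L := by rw [Finset.sum_const, smul_eq_mul, mul_comm]
    _ ≤ ∑ i ∈ F, 8 * (T.filter (fun q => q.1 ∈ absC p h bs[i] (cc bs i : ℤ))).card :=
        Finset.sum_le_sum h1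
    _ = 8 * ∑ i ∈ F, (T.filter (fun q => q.1 ∈ absC p h bs[i] (cc bs i : ℤ))).card := by
        rw [Finset.mul_sum]
    _ ≤ 8 * T.card := Nat.mul_le_mul_left _ h2

/-! ## The sums of one block -/

open Classical in
/-- The weight of a block with path `γ`. -/
noncomputable def tb (β lam θ : ℝ) (h s₀ : ℤ) (L M : ℕ) (b : BD) (γ : List Site) : ℝ≥0∞ :=
  if b.kind = 2 then ∑' E : {E : List (List Site) // Tile h s₀ L M (rd b.rot b.v) b.D (γ, E)},
    Wg β lam (Cz γ h) (visits E)
  else if γ ∈ chains b.len 0 then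
    ENNReal.ofReal (Real.exp (-((1 - θ) * β * b.len))) *
      (if b.kind = 1 then ENNReal.ofReal (Real.exp (-(β * L / 40))) else 1)
  else 0

theorem sum_tb (β lam θ : ℝ) (h s₀ : ℤ) (L M : ℕ) (b : BD) :
    ∑' γ, tb β lam θ h s₀ L M b γ ≤ wB β lam θ h s₀ L M b := by
  classical
  unfold tb wB
  by_cases hk : b.kind = 2
  · simp only [if_pos hk]
    unfold ZT
    rw [← ENNReal.tsum_sigma' (β := fun γ => {E : List (List Site) //
      Tile h s₀ L M (rd b.rot b.v) b.D (γ, E)})
      (fun x => Wg β lam (Cz x.1 h) (visits (x.2 : List (List Site))))]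
    refine ENNReal.tsum_comp_le_tsum_of_injective
      (f := fun x : (γ : List Site) × {E : List (List Site) //
        Tile h s₀ L M (rd b.rot b.v) b.D (γ, E)} =>
        (⟨(x.1, x.2.1), x.2.2⟩ : {q : List Site × List (List Site) //
          Tile h s₀ L M (rd b.rot b.v) b.D q})) ?_
      (fun q => Wg β lam (Cz q.1.1 h) (visits q.1.2))
    rintro ⟨γ, E, hE⟩ ⟨γ', E', hE'⟩ he
    simp only [Subtype.mk.injEq, Prod.mk.injEq] at he
    obtain ⟨rfl, rfl⟩ := he
    rfl
  · simp only [if_neg hk]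
    rw [tsum_eq_sum (s := chains b.len 0) (by
      intro γ hγ
      rw [if_neg hγ]), Finset.sum_congr rfl (g := fun _ =>
        ENNReal.ofReal (Real.exp (-((1 - θ) * β * b.len))) *
          (if b.kind = 1 then ENNReal.ofReal (Real.exp (-(β * L / 40))) else 1))
        (fun γ hγ => by rw [if_pos hγ]), Finset.sum_const, nsmul_eq_mul]
    have h1 : ((chains b.len 0).card : ℝ≥0∞) ≤ ENNReal.ofReal (4 ^ b.len) := by
      rw [ENNReal.ofReal_pow (by norm_num)]
      have h2 : ENNReal.ofReal 4 = ((4 : ℕ) : ℝ≥0∞) := by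
        rw [← ENNReal.ofReal_natCast]
        norm_num
      rw [h2]
      exact_mod_cast card_chains b.len 0
    by_cases hk1 : b.kind = 1
    · rw [if_pos hk1, if_pos hk1, ENNReal.ofReal_mul (by positivity),
        ENNReal.ofReal_mul (by positivity)]
      exact (mul_le_mul_left h1 _).trans (le_of_eq (by rw [mul_assoc (ENNReal.ofReal (4 ^ b.len))]))
    · rw [if_neg hk1, if_neg hk1, ENNReal.ofReal_mul (by positivity), mul_one]
      exact mul_le_mul_left h1 _

/-! ## The bound for one contour -/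

/-- End points in absolute coordinates. -/
noncomputable def absD (p : ℤ → Site) (r : ℕ) (s : ℤ) (D : List (Option Site × Option Site)) :
    List (Option Site × Option Site) :=
  D.map (fun q => (q.1.map (Function.invFun (rel p r s)), q.2.map (Function.invFun (rel p r s))))

lemma ends_abs (p : ℤ → Site) (r : ℕ) (s : ℤ) (E : List (List Site)) :
    ends E = absD p r s (ends (E.map (List.map (rel p r s)))) := by
  rw [ends_map]
  unfold absD
  rw [List.map_map]
  conv_lhs => rw [← List.map_id (ends E)]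
  refine List.map_congr_left fun q _ => ?_
  have h : Function.invFun (rel p r s) ∘ rel p r s = id :=
    (Function.leftInverse_invFun (rel_inj p r s)).comp_eq_id
  simp only [Function.comp_apply, Option.map_map, h, Option.map_id, id]

lemma absD_len (p : ℤ → Site) (r : ℕ) (s : ℤ) (D : List (Option Site × Option Site)) :
    (absD p r s D).length = D.length := by
  unfold absD
  rw [List.length_map]

lemma exC_empty (p : ℤ → Site) (h : ℤ) (bs : List BD) (c : ℕ → ℤ) (i : Fin bs.length)
    (hk : bs[i].kind ≠ 2) : exC p h bs c i = ∅ := by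
  unfold exC
  ext x
  constructor
  · rintro ⟨h1, _⟩
    exact absurd h1 hk
  · intro h1
    exact absurd h1 (Set.notMem_empty x)

lemma exact_le {β lam : ℝ} {f : Site → Site} (hf : Function.Injective f) {C : Set Site}
    {h s₀ : ℤ} {L M : ℕ} {v : Site} {D : List (Option Site × Option Site)} {γ : List Site}
    (hC : ∀ x, x ∈ C ↔ f x ∈ Cz γ h) (P : List (List Site) → Prop)
    (hP : ∀ E, P E → Tile h s₀ L M v D (γ, E.map (List.map f))) :
    ∑' E : {E : List (List Site) // P E}, Wg β lam C (visits E) ≤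
      ∑' E : {E : List (List Site) // Tile h s₀ L M v D (γ, E)},
        Wg β lam (Cz γ h) (visits E) := by
  have hinj : Function.Injective (fun x : {E : List (List Site) // P E} =>
      (⟨x.1.map (List.map f), hP x.1 x.2⟩ : {E : List (List Site) // Tile h s₀ L M v D (γ, E)})) := by
    intro x y he
    have h1 : x.1.map (List.map f) = y.1.map (List.map f) := congrArg Subtype.val he
    exact Subtype.ext ((List.map_injective_iff.2 (List.map_injective_iff.2 hf)) h1)
  refine le_trans (le_of_eq ?_) (ENNReal.tsum_comp_le_tsum_of_injective hinj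
    (fun E => Wg β lam (Cz γ h) (visits E.1)))
  refine tsum_congr fun E => ?_
  show Wg β lam C (visits E.1) = Wg β lam (Cz γ h) (visits (E.1.map (List.map f)))
  rw [visits_map]
  exact Wg_map hf hC _

lemma nonexact_le {β lam : ℝ} {C : Set Site} (P : List (List Site) → Prop)
    (hP : ∀ E, P E → E = []) :
    ∑' E : {E : List (List Site) // P E}, Wg β lam C (visits E) ≤ 1 := by
  have hss : Subsingleton {E : List (List Site) // P E} :=
    ⟨fun E E' => Subtype.ext ((hP _ E.2).trans (hP _ E'.2).symm)⟩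
  rcases isEmpty_or_nonempty {E : List (List Site) // P E} with he | ⟨⟨E0⟩⟩
  · simp
  · rw [tsum_eq_single E0 (fun E hE => absurd (Subsingleton.elim _ _) hE), hP _ E0.2]
    unfold visits Wg
    simp

open Classical in
lemma consts {β θ : ℝ} (hβ : 0 ≤ β) (hθ1 : θ ≤ 1) {h : ℤ} {L : ℕ} {s0 : Site} {bs : List BD}
    {G : Finset Site} {p : ℤ → Site}
    (hG : GVal h L s0 bs G (cc bs bs.length) p (fun i => (cc bs i : ℤ))) :
    ENNReal.ofReal (Real.exp (-(β * L / 40 *
      ((Finset.univ : Finset (Fin bs.length)).filter (fun i => bs[i].kind = 1)).card))) *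
      ENNReal.ofReal (Real.exp (-((1 - θ) * β *
        (∑ x ∈ G, Set.indicator {x | ∀ i, x ∉ exZ p h bs (fun i => (cc bs i : ℤ)) i}
          (fun x => (kap G x : ℝ)) x)))) ≤
      ∏ i : Fin bs.length, (if bs[i].kind = 2 then 1 else
        ENNReal.ofReal (Real.exp (-((1 - θ) * β * bs[i].len))) *
          (if bs[i].kind = 1 then ENNReal.ofReal (Real.exp (-(β * L / 40))) else 1)) := by
  have e1 : ∀ i : Fin bs.length, (if bs[i].kind = 2 then (1 : ℝ≥0∞) else
      ENNReal.ofReal (Real.exp (-((1 - θ) * β * bs[i].len))) *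
        (if bs[i].kind = 1 then ENNReal.ofReal (Real.exp (-(β * L / 40))) else 1)) =
      ENNReal.ofReal (Real.exp (-((1 - θ) * β * ((if bs[i].kind = 2 then 0 else bs[i].len : ℕ) : ℝ)
        + β * L / 40 * (if bs[i].kind = 1 then 1 else 0)))) := by
    intro i
    by_cases hk : bs[i].kind = 2
    · rw [if_pos hk, if_pos hk, if_neg (by omega)]
      simp
    · rw [if_neg hk, if_neg hk]
      by_cases hk1 : bs[i].kind = 1
      · rw [if_pos hk1, if_pos hk1, ← ENNReal.ofReal_mul (Real.exp_pos _).le, ← Real.exp_add]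
        congr 2
        ring
      · rw [if_neg hk1, if_neg hk1, mul_one]
        congr 2
        ring
  rw [Finset.prod_congr rfl fun i _ => e1 i,
    ← ENNReal.ofReal_prod_of_nonneg (fun i _ => (Real.exp_pos _).le), ← Real.exp_sum,
    ← ENNReal.ofReal_mul (Real.exp_pos _).le, ← Real.exp_add]
  refine ENNReal.ofReal_le_ofReal (Real.exp_le_exp.2 ?_)
  rw [Finset.sum_neg_distrib, Finset.sum_add_distrib, ← Finset.mul_sum, ← Finset.mul_sum,
    ← neg_add]
  have e2 : ∑ i : Fin bs.length, (if bs[i].kind = 1 then (1 : ℝ) else 0) =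
      ((Finset.univ : Finset (Fin bs.length)).filter (fun i => bs[i].kind = 1)).card := by
    rw [Finset.card_filter]
    push_cast
    rfl
  rw [e2]
  have e3 := len_le hG
  have e4 : (∑ i : Fin bs.length, ((if bs[i].kind = 2 then 0 else bs[i].len : ℕ) : ℝ)) ≤
      ∑ x ∈ G, Set.indicator {x | ∀ i, x ∉ exZ p h bs (fun i => (cc bs i : ℤ)) i}
        (fun x => (kap G x : ℝ)) x := by
    have e5 : (∑ x ∈ G, Set.indicator {x | ∀ i, x ∉ exZ p h bs (fun i => (cc bs i : ℤ)) i}
        (fun x => (kap G x : ℝ)) x) =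
        ((∑ x ∈ G, Set.indicator {x | ∀ i, x ∉ exZ p h bs (fun i => (cc bs i : ℤ)) i}
        (fun x => kap G x) x : ℕ) : ℝ) := by
      push_cast
      refine Finset.sum_congr rfl fun x _ => ?_
      rw [Set.indicator_apply, Set.indicator_apply]
      split_ifs <;> simp
    rw [e5]
    exact_mod_cast e3
  have e6 := mul_le_mul_of_nonneg_left e4 (show 0 ≤ (1 - θ) * β from
    mul_nonneg (by linarith) hβ)
  linarith

/-- Step 1: the insertion lemma. -/
theorem per_p_ins {β lam : ℝ} (hβ : 0 ≤ β)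
    (hins : ∀ Y X : Set Site, X ⊆ Y → ∀ w : Site → ℕ → ℝ≥0∞,
      (∀ y ∈ Y, ∀ n, w y n = gw β lam n) → ∀ A : Set (List Site),
        ∑' l : A, Wt w l * ENNReal.ofReal (Real.exp (β / 5 * hE Y X (l : List Site)))
          ≤ ∑' l : Ins Y X A, Wt (fun x n => open Classical in if x ∈ X then fw lam n else w x n) l)
    {h s₀ : ℤ} (hh : 1 ≤ h) {L M : ℕ} {s0 : Site} {bs : List BD} {G : Finset Site}
    {p : ℤ → Site} {S : Set (List Site)}
    (hS : ∀ l ∈ S, NVal h s₀ L M s0 bs p l) (hGl : ∀ l ∈ S, fil l.toFinset = G) :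
    ∑' l : S, W β lam l ≤ ENNReal.ofReal (Real.exp (-(β * L / 40 *
      ((Finset.univ : Finset (Fin bs.length)).filter (fun i => bs[i].kind = 1)).card))) *
      ∑' l : Ins (Yb p h bs) (Xb p h bs G) S,
        Wt (fun x n => open Classical in if x ∈ Xb p h bs G then fw lam n else gw β lam n) l := by
  set nb := ((Finset.univ : Finset (Fin bs.length)).filter (fun i => bs[i].kind = 1)).card with hnb
  have h1 : ∀ l : S, W β lam l ≤ ENNReal.ofReal (Real.exp (-(β * L / 40 * nb))) *
      (Wt (fun _ n => gw β lam n) l *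
        ENNReal.ofReal (Real.exp (β / 5 * hE (Yb p h bs) (Xb p h bs G) (l : List Site)))) := by
    rintro ⟨l, hl⟩
    have h2 := hE_ge hh (hS l hl).2.2.1 (hS l hl).2.2.2.2
    rw [hGl l hl, ← hnb] at h2
    have h3 : (L : ℝ) * nb ≤ 8 * hE (Yb p h bs) (Xb p h bs G) l := by exact_mod_cast h2
    have h5 : W β lam l = Wt (fun _ n => gw β lam n) l := rfl
    show W β lam l ≤ _
    rw [h5, mul_left_comm, ← ENNReal.ofReal_mul (Real.exp_pos _).le, ← Real.exp_add]
    refine le_mul_of_one_le_right bot_le ?_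
    rw [ENNReal.one_le_ofReal, Real.one_le_exp_iff]
    have h6 := mul_le_mul_of_nonneg_left h3 (show 0 ≤ β / 40 by positivity)
    linarith
  refine (ENNReal.tsum_le_tsum h1).trans ?_
  rw [ENNReal.tsum_mul_left]
  exact mul_le_mul_right (hins _ _ (fun x hx => hx.1) _ (fun _ _ _ => rfl) S) _

lemma tsum_sub_congr {α : Type*} {P Q : α → Prop} (h : ∀ x, P x ↔ Q x) (f : α → ℝ≥0∞) :
    ∑' x : {x // P x}, f x = ∑' x : {x // Q x}, f x := by
  have : P = Q := funext fun x => propext (h x)
  subst this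
  rfl

section zones

variable {h : ℤ} {L : ℕ} {s0 : Site} {bs : List BD} {G : Finset Site} {p : ℤ → Site}

lemma dY (hG0 : GVal h L s0 bs G (cc bs bs.length) p (fun i => (cc bs i : ℤ))) :
    ∀ x ∈ Yb p h bs, ∀ i, x ∉ exZ p h bs (fun i => (cc bs i : ℤ)) i := by
  rintro x ⟨j, hj, hk, hx⟩ i ⟨hk2, hx2⟩
  have e : bs[i].kind = bs[i.1].kind := rfl
  have hij : j ≠ i.1 := by
    rintro rfl
    omega
  exact Set.disjoint_left.1 (hG0.disj j i.1 hj i.2 hij (by omega) (by omega)) hx hx2

lemma YG (hG0 : GVal h L s0 bs G (cc bs bs.length) p (fun i => (cc bs i : ℤ))) :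
    ∀ x ∈ Yb p h bs, x ∈ G ∧ dep G x < L := by
  rintro x ⟨j, hj, hk, hx⟩
  obtain ⟨h3, h5, _⟩ := hG0.zone j hj (by omega) x hx
  exact ⟨h3, h5⟩

lemma CZ (hh : 1 ≤ h) (c : ℕ → ℤ) : ∀ i, exC p h bs c i ⊆ exZ p h bs c i :=
  fun _ _ hx => ⟨hx.1, absC_sub p hh _ _ hx.2⟩

lemma ZG (hG0 : GVal h L s0 bs G (cc bs bs.length) p (fun i => (cc bs i : ℤ))) :
    ∀ i, ∀ x ∈ exZ p h bs (fun i => (cc bs i : ℤ)) i, x ∈ G := by
  rintro i x ⟨hk, hx⟩
  have e : bs[i].kind = bs[i.1].kind := rfl
  exact (hG0.zone i.1 i.2 (by omega) x hx).1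

lemma Zdisj (hG0 : GVal h L s0 bs G (cc bs bs.length) p (fun i => (cc bs i : ℤ))) :
    ∀ i j, i ≠ j → Disjoint (exZ p h bs (fun i => (cc bs i : ℤ)) i)
      (exZ p h bs (fun i => (cc bs i : ℤ)) j) := by
  intro i j hij
  refine Set.disjoint_left.2 ?_
  rintro x ⟨hk1, hx1⟩ ⟨hk2, hx2⟩
  have e1 : bs[i].kind = bs[i.1].kind := rfl
  have e2 : bs[j].kind = bs[j.1].kind := rfl
  exact Set.disjoint_left.1 (hG0.disj i.1 j.1 i.2 j.2 (fun he => hij (Fin.ext he)) (by omega)
    (by omega)) hx1 hx2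

end zones

open Classical in
/-- Step 2: the main sum. -/
theorem per_p_sum {β lam θ : ℝ} (hβ : 0 ≤ β) (hlam : 0 ≤ lam) (hθ : 0 < θ) (hθ1 : θ ≤ 1)
    (h4 : lam < 4 * θ) {h s₀ : ℤ} (hh : 1 ≤ h) {L M : ℕ} {s0 : Site} {bs : List BD}
    {Bs G : Finset Site} {A A' : ℝ≥0∞} {p : ℤ → Site} {S : Set (List Site)}
    (hG0 : GVal h L s0 bs G (cc bs bs.length) p (fun i => (cc bs i : ℤ)))
    (hM : MassBd G (Bs.filter (fun x => L < dep G x)) lam θ A A')
    (hS : ∀ l ∈ S, NVal h s₀ L M s0 bs p l ∧ (∀ x ∈ l, x ∉ Bs) ∧ fil l.toFinset = G) :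
    ∑' l : Ins (Yb p h bs) (Xb p h bs G) S,
      Wt (fun x n => if x ∈ Xb p h bs G then fw lam n else gw β lam n) l ≤
      ENNReal.ofReal (Real.exp (-((1 - θ) * β *
        (∑ x ∈ G, Set.indicator {x | ∀ i, x ∉ exZ p h bs (fun i => (cc bs i : ℤ)) i}
          (fun x => (kap G x : ℝ)) x))))
      * A ^ (∑ i : Fin bs.length, (absD p bs[i].rot (cc bs i : ℤ) bs[i].D).length) * A' *
      ∏ i : Fin bs.length, ∑' E : {E : List (List Site) //
        ends E = absD p bs[i].rot (cc bs i : ℤ) bs[i].D ∧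
        (bs[i].kind = 2 → Tile h s₀ L M (rd bs[i].rot bs[i].v) bs[i].D
          (blk p bs[i].rot (cc bs i : ℤ) ((cc bs i : ℤ) + bs[i].len),
            E.map (List.map (rel p bs[i].rot (cc bs i : ℤ))))) ∧
          ∀ e ∈ E, ∃ a b, IsExc (exC p h bs (fun i => (cc bs i : ℤ)) i)
            (exZ p h bs (fun i => (cc bs i : ℤ)) i) a b e},
        Wg β lam (exC p h bs (fun i => (cc bs i : ℤ)) i) (visits E) := by
  have hlam4 : lam < 4 := by linarith
  refine u_sum (ι := Fin bs.length) hβ hlam hθ hθ1 h4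
    (G := G) (B := Bs.filter (fun x => L < dep G x)) (C := exC p h bs (fun i => (cc bs i : ℤ)))
    (Z := exZ p h bs (fun i => (cc bs i : ℤ))) (CZ hh _) (ZG hG0) (Zdisj hG0)
    (A := A) (A' := A') ?_ ?_
    (fun x n => if x ∈ Xb p h bs G then fw lam n else gw β lam n) ?_ ?_ ?_
    (fun i => absD p bs[i].rot (cc bs i : ℤ) bs[i].D)
    (fun i E => bs[i].kind = 2 → Tile h s₀ L M (rd bs[i].rot bs[i].v) bs[i].D
      (blk p bs[i].rot (cc bs i : ℤ) ((cc bs i : ℤ) + bs[i].len),
        E.map (List.map (rel p bs[i].rot (cc bs i : ℤ)))))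
    (Ins (Yb p h bs) (Xb p h bs G) S) ?_
  · intro z hz hzB
    refine le_trans (le_of_eq ?_) (hM {x | ∃ i, x ∈ exC p h bs (fun i => (cc bs i : ℤ)) i} z hz hzB).1
    refine tsum_sub_congr (fun l => ?_) (fun l : List Site => (l.dropLast.map (rw1 G lam θ)).prod)
    simp only [Set.mem_setOf_eq, not_exists]
  · intro z hz hzB
    refine le_trans (le_of_eq ?_) (hM {x | ∃ i, x ∈ exC p h bs (fun i => (cc bs i : ℤ)) i} z hz hzB).2
    refine tsum_sub_congr (fun l => ?_) (fun l : List Site => (l.map (rw1 G lam θ)).prod)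
    simp only [Set.mem_setOf_eq, not_exists]
  · intro x hx _ n hn
    by_cases hxX : x ∈ Xb p h bs G
    · rw [if_pos hxX, hxX.2]
      simp only [Nat.cast_zero, mul_zero, neg_zero, Real.exp_zero, ENNReal.ofReal_one, one_mul]
      exact US.fw_le_rw1 hθ1 h4 G x n
    · rw [if_neg hxX]
      have hk4 : ((kap G x : ℕ) : ℝ) ≤ 4 := by
        have : kap G x ≤ 4 := (Finset.card_filter_le _ _).trans (by decide)
        exact_mod_cast this
      have hk0 : (0 : ℝ) ≤ (kap G x : ℕ) := Nat.cast_nonneg _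
      have h6 : (1 - θ) * (kap G x : ℕ) ≤ (1 - θ) * 4 :=
        mul_le_mul_of_nonneg_left hk4 (by linarith)
      have h5 := gw_le_tilt (β := β) (lam := lam) (κ := (1 - θ) * kap G x) hβ
        (mul_nonneg (by linarith) hk0) (by linarith) hn
      refine h5.trans (le_of_eq ?_)
      have e1 : (1 - θ) * (kap G x : ℝ) * β = (1 - θ) * β * kap G x := by ring
      have e2 : fw (lam + (1 - θ) * kap G x) n = rw1 G lam θ x ^ n := by
        unfold fw rw1
        congr 3
        ring
      rw [e1, e2]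
  · intro i x hx n
    rw [if_neg]
    intro hxX
    exact dY hG0 x hxX.1 i (CZ hh _ i hx)
  · intro i x hx _ n hn
    rw [if_neg (fun hxX => dY hG0 x hxX.1 i hx)]
    exact gw_le_fw hβ hlam4 hn
  · rintro l' ⟨l, hl, hl2, rfl⟩
    obtain ⟨⟨k1, k2, k3, ⟨E, k4, k5⟩, k6⟩, k7, k8⟩ := hS _ hl
    have hmem : ∀ x ∈ l.map Prod.fst, x ∈ G := by
      intro x hx
      rw [← k8]
      exact subset_fil _ (List.mem_toFinset.2 hx)
    refine ⟨?_, ins_chain k2 (fun q hq x hx => (hl2 q hq x hx).2.2.2), ?_, ?_, E, ?_, ?_⟩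
    · rw [insW_head]
      exact k1
    · intro x hx
      obtain ⟨q, hq, hx | hx⟩ := mem_insW hx
      · have hq1 : x ∈ l.map Prod.fst := by
          rw [hx]
          exact List.mem_map_of_mem hq
        exact ⟨hmem x hq1, fun hxB => k7 x hq1 (Finset.mem_filter.1 hxB).1⟩
      · obtain ⟨h5, h6⟩ := YG hG0 x (hl2 q hq x hx).2.1.1
        refine ⟨h5, fun hxB => ?_⟩
        have := (Finset.mem_filter.1 hxB).2
        omega
    · intro x hx _ hk
      refine mem_insW_of_mem ?_
      by_contra hxl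
      rw [← k8] at hx hk
      exact hk (kap_zero hx hxl)
    · exact dec_insW (CZ hh _) (Zdisj hG0) k4 (fun q hq x hx i =>
        ⟨dY hG0 _ (hl2 q hq x hx).1 i, dY hG0 _ (hl2 q hq x hx).2.1.1 i⟩)
    · intro i
      refine ⟨?_, k5 i⟩
      by_cases hk : bs[i].kind = 2
      · have h5 : ends ((E i).map (List.map (rel p bs[i].rot (cc bs i : ℤ)))) = bs[i].D :=
          (k5 i hk).2.1
        show ends (E i) = absD p bs[i].rot (cc bs i : ℤ) bs[i].D
        rw [ends_abs p bs[i].rot (cc bs i : ℤ) (E i), h5]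
      · rw [dec_nil k4 (exC_empty p h bs _ i hk)]
        have h5 : bs[i].D = [] := hG0.noD i.1 i.2 hk
        show ends [] = absD p bs[i].rot (cc bs i : ℤ) bs[i].D
        rw [h5]
        rfl

open Classical in
/-- One contour. -/
theorem per_p {β lam θ : ℝ} (hβ : 0 ≤ β) (hlam : 0 ≤ lam) (hθ : 0 < θ) (hθ1 : θ ≤ 1)
    (h4 : lam < 4 * θ)
    (hins : ∀ Y X : Set Site, X ⊆ Y → ∀ w : Site → ℕ → ℝ≥0∞,
      (∀ y ∈ Y, ∀ n, w y n = gw β lam n) → ∀ A : Set (List Site),
        ∑' l : A, Wt w l * ENNReal.ofReal (Real.exp (β / 5 * hE Y X (l : List Site)))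
          ≤ ∑' l : Ins Y X A, Wt (fun x n => if x ∈ X then fw lam n else w x n) l)
    {h s₀ : ℤ} (hh : 1 ≤ h) {L M : ℕ} {s0 : Site} {bs : List BD} {Bs : Finset Site}
    {A A' : ℝ≥0∞} {p : ℤ → Site} {S : Set (List Site)}
    (hS : ∀ l ∈ S, NVal h s₀ L M s0 bs p l ∧ (∀ x ∈ l, x ∉ Bs) ∧
      MassBd (fil l.toFinset) (Bs.filter (fun x => L < dep (fil l.toFinset) x)) lam θ A A') :
    ∑' l : S, W β lam l ≤ A ^ (bs.map (fun b => b.D.length)).sum * A' *
      ∏ i : Fin bs.length, tb β lam θ h s₀ L M bs[i]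
        (blk p bs[i].rot (cc bs i : ℤ) ((cc bs i : ℤ) + bs[i].len)) := by
  rcases S.eq_empty_or_nonempty with hSe | ⟨l0, hl0⟩
  · subst hSe
    simp
  obtain ⟨G, hGdef⟩ : ∃ G, G = fil l0.toFinset := ⟨_, rfl⟩
  have hG0 := (hS l0 hl0).1.2.2.1
  have hM := (hS l0 hl0).2.2
  rw [← hGdef] at hG0 hM
  have hGl : ∀ l ∈ S, fil l.toFinset = G := fun l hl =>
    G_eq (hS l hl).1.2.2.1.cont hG0.cont
  have h2 := per_p_ins hβ hins hh (fun l hl => (hS l hl).1) hGl
  have h3 := per_p_sum (s₀ := s₀) (M := M) hβ hlam hθ hθ1 h4 hh hG0 hM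
    (fun l hl => ⟨(hS l hl).1, (hS l hl).2.1, hGl l hl⟩)
  have h7 := consts (β := β) (θ := θ) hβ hθ1 hG0
  obtain ⟨zs, hzs⟩ : ∃ zs : Fin bs.length → ℝ≥0∞, zs = fun i : Fin bs.length => ∑' E : {E : List (List Site) //
        ends E = absD p bs[i].rot (cc bs i : ℤ) bs[i].D ∧
        (bs[i].kind = 2 → Tile h s₀ L M (rd bs[i].rot bs[i].v) bs[i].D
          (blk p bs[i].rot (cc bs i : ℤ) ((cc bs i : ℤ) + bs[i].len),
            E.map (List.map (rel p bs[i].rot (cc bs i : ℤ))))) ∧
          ∀ e ∈ E, ∃ a b, IsExc (exC p h bs (fun i => (cc bs i : ℤ)) i)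
            (exZ p h bs (fun i => (cc bs i : ℤ)) i) a b e},
        Wg β lam (exC p h bs (fun i => (cc bs i : ℤ)) i) (visits E) := ⟨_, rfl⟩
  have h5 : ∀ i : Fin bs.length, (if bs[i].kind = 2 then 1 else
        ENNReal.ofReal (Real.exp (-((1 - θ) * β * bs[i].len))) *
          (if bs[i].kind = 1 then ENNReal.ofReal (Real.exp (-(β * L / 40))) else 1)) * zs i ≤
      tb β lam θ h s₀ L M bs[i]
        (blk p bs[i].rot (cc bs i : ℤ) ((cc bs i : ℤ) + bs[i].len)) := by
    intro i
    rw [hzs]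
    unfold tb
    by_cases hk : bs[i].kind = 2
    · rw [if_pos hk, if_pos hk, one_mul]
      refine exact_le (f := rel p bs[i].rot (cc bs i : ℤ)) (rel_inj _ _ _) ?_ _
        (fun E hE => hE.2.1 hk)
      intro x
      constructor
      · rintro ⟨_, hx⟩
        exact hx
      · intro hx
        exact ⟨hk, hx⟩
    · rw [if_neg hk, if_neg hk]
      have h6 : blk p bs[i].rot (cc bs i : ℤ) ((cc bs i : ℤ) + bs[i].len) ∈
          chains bs[i].len 0 :=
        mem_chains (blk_chain hG0.cont.adj _ _ _) (blk_head _ _ _ _) (blk_len _ _ _ _)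
      rw [if_pos h6]
      refine mul_le_of_le_one_right bot_le (nonexact_le _ ?_)
      rintro E ⟨h7, -⟩
      have hD : absD p bs[i].rot (cc bs i : ℤ) bs[i].D = [] := by
        have h5 : bs[i].D = [] := hG0.noD i.1 i.2 hk
        rw [h5]
        rfl
      rw [hD] at h7
      unfold ends at h7
      exact List.map_eq_nil_iff.1 h7
  have h6 : ∑ i : Fin bs.length, (absD p bs[i].rot (cc bs i : ℤ) bs[i].D).length =
      (bs.map (fun b => b.D.length)).sum := by
    rw [Finset.sum_congr rfl fun (i : Fin bs.length) _ =>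
      absD_len p bs[i].rot (cc bs i : ℤ) bs[i].D]
    exact Fin.sum_univ_fun_getElem bs (fun b => b.D.length)
  rw [h6] at h3
  have h8 := h2.trans (mul_le_mul_right h3 _)
  clear h2 h3
  have h9 : (∏ i : Fin bs.length, ∑' E : {E : List (List Site) //
        ends E = absD p bs[i].rot (cc bs i : ℤ) bs[i].D ∧
        (bs[i].kind = 2 → Tile h s₀ L M (rd bs[i].rot bs[i].v) bs[i].D
          (blk p bs[i].rot (cc bs i : ℤ) ((cc bs i : ℤ) + bs[i].len),
            E.map (List.map (rel p bs[i].rot (cc bs i : ℤ))))) ∧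
          ∀ e ∈ E, ∃ a b, IsExc (exC p h bs (fun i => (cc bs i : ℤ)) i)
            (exZ p h bs (fun i => (cc bs i : ℤ)) i) a b e},
        Wg β lam (exC p h bs (fun i => (cc bs i : ℤ)) i) (visits E)) = ∏ i, zs i := by
    rw [hzs]
  rw [h9] at h8
  clear h9 hzs
  refine h8.trans ?_
  obtain ⟨K, hK⟩ : ∃ K, K = (bs.map (fun b => b.D.length)).sum := ⟨_, rfl⟩
  rw [← hK]
  obtain ⟨c1, hc1⟩ : ∃ c1, c1 = ENNReal.ofReal (Real.exp (-(β * L / 40 *
      ((Finset.univ : Finset (Fin bs.length)).filter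
        (fun i : Fin bs.length => bs[i].kind = 1)).card))) := ⟨_, rfl⟩
  obtain ⟨c2, hc2⟩ : ∃ c2, c2 = ENNReal.ofReal (Real.exp (-((1 - θ) * β *
        (∑ x ∈ G, Set.indicator {x | ∀ i, x ∉ exZ p h bs (fun i => (cc bs i : ℤ)) i}
          (fun x => (kap G x : ℝ)) x)))) := ⟨_, rfl⟩
  rw [← hc1, ← hc2] at h7 ⊢
  calc c1 * (c2 * A ^ K * A' * ∏ i, zs i) = (c1 * c2) * (A ^ K * A' * ∏ i, zs i) := by ring
    _ ≤ _ := mul_le_mul_left h7 _
    _ = A ^ K * A' * ∏ i : Fin bs.length, ((if bs[i].kind = 2 then 1 else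
        ENNReal.ofReal (Real.exp (-((1 - θ) * β * bs[i].len))) *
          (if bs[i].kind = 1 then ENNReal.ofReal (Real.exp (-(β * L / 40))) else 1)) * zs i) := by
        rw [Finset.prod_mul_distrib]
        ring
    _ ≤ _ := mul_le_mul_right (Finset.prod_le_prod' fun i _ => h5 i) _

/-! ## The sum over the contours -/

theorem tsum_fiber {α β : Type*} (f : α → ℝ≥0∞) (P : α → β) :
    ∑' a, f a = ∑' b, ∑' a : {a // P a = b}, f a := by
  rw [← ENNReal.tsum_sigma' (β := fun b => {a // P a = b}) (fun x => f (x.2 : α))]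
  exact ((Equiv.sigmaFiberEquiv P).tsum_eq f).symm

end UBD12

open UBD12

open Classical in
/-- **Bound for one datum.**  `Bs` is the set of sites not visited (missing ball); only its deep part
`B G = {x ∈ Bs, dep G x > L}` is used.

Proof.  Sum over `G = fil l.toFinset` (finitely or countably many).  For fixed `G` (then `n, p` are determined up to a shift; with
`p (c 0) = s0` and the `len`'s everything is determined):
(1) `W β lam l = Wt gw l`; blocked blocks: `ins_sum` with `Y = ⋃ absZ` over the blocked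
blocks, `X = {y ∈ Y, kap G y = 0}`: all the pairs counted in `Val` are counted in `hE` (an unvisited site has `kap = 0`
by `adj_fil`), so `∑ W ≤ e^{-(β/5)(L/8) #blocked} ∑_{l' ∈ Ins} Wt ŵ l'`;
(2) the inserted chains `l'` satisfy the hypotheses of `u_sum` (`dec_insW`; they avoid `B G` since
the zones have depth `< L`), apply `u_sum` with the zones `exC, exZ`; `ŵ` satisfies `hw1` by `gw_le_tilt`;
(3) the number of boundary edges with inner site outside the exact zones is at least the sum of `len` over the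
non-exact blocks (`GVal.zone`, `GVal.disj`);
(4) the excursions in the exact zone `i`, in relative coordinates, together with the path `blk ..`
form a tile; `rel` is a bijection of the sites preserving adjacency, and `Wg` is invariant;
(5) sum over `G`: `G` is determined by the paths of its blocks (`bdry_inj`), the number of paths of
a non-exact block is `≤ 4^len`; so the sum over `G` of the products is at most the product over the blocks of the
sums. -/
theorem ub_datum : ∃ β₁ : ℝ, 1 ≤ β₁ ∧ ∀ β : ℝ, β₁ ≤ β → ∀ lam θ : ℝ, 0 ≤ lam → lam ≤ 1 →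
    0 < θ → θ ≤ 1 → lam < 4 * θ → ∀ (h s₀ : ℤ) (L M : ℕ), 1 ≤ h → ∀ (s0 : Site) (bs : List BD)
      (Bs : Finset Site) (A A' : ℝ≥0∞) (S : Set (List Site)),
      (∀ l ∈ S, Val h s₀ L M s0 bs l ∧ (∀ x ∈ l, x ∉ Bs) ∧ l.toFinset.card ≠ 1 ∧
        MassBd (fil l.toFinset) (Bs.filter (fun x => L < dep (fil l.toFinset) x)) lam θ A A') →
      ∑' l : S, W β lam l ≤ A ^ (bs.map (fun b => b.D.length)).sum * A' *
        (bs.map (wB β lam θ h s₀ L M)).prod := by
  obtain ⟨β₁, hβ₁, hins⟩ := ins_sum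
  refine ⟨β₁, hβ₁, ?_⟩
  intro β hβ lam θ hlam hlam1 hθ hθ1 h4 h s₀ L M hh s0 bs Bs A A' S hS
  have hβ0 : 0 ≤ β := by linarith
  have hins' := hins β hβ lam hlam hlam1
  -- the contour of a chain
  have hex : ∀ l : S, ∃ p, NVal h s₀ L M s0 bs p (l : List Site) := fun l =>
    exists_nval (hS l.1 l.2).1
  choose P hP using hex
  rw [tsum_fiber (fun l : S => W β lam (l : List Site)) P]
  obtain ⟨K, hK⟩ : ∃ K, K = A ^ (bs.map (fun b => b.D.length)).sum * A' := ⟨_, rfl⟩
  rw [← hK]
  -- one contour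
  have h1 : ∀ p : ℤ → Site, ∑' l : {l : S // P l = p}, W β lam (l.1 : List Site) ≤
      Set.indicator (Set.range P) (fun p => K * ∏ i : Fin bs.length, tb β lam θ h s₀ L M bs[i]
        (blk p bs[i].rot (cc bs i : ℤ) ((cc bs i : ℤ) + bs[i].len))) p := by
    intro p
    by_cases hp : p ∈ Set.range P
    · rw [Set.indicator_of_mem hp, hK]
      have h2 := per_p hβ0 hlam hθ hθ1 h4 hins' hh (s₀ := s₀) (M := M) (s0 := s0) (bs := bs)
        (Bs := Bs) (A := A) (A' := A') (L := L) (p := p)
        (S := {l : List Site | ∃ hl : l ∈ S, P ⟨l, hl⟩ = p}) (by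
          rintro l ⟨hl, rfl⟩
          exact ⟨hP ⟨l, hl⟩, (hS l hl).2.1, (hS l hl).2.2.2⟩)
      refine le_trans (le_of_eq ?_) h2
      let e : {l : S // P l = p} ≃ {l : List Site | ∃ hl : l ∈ S, P ⟨l, hl⟩ = p} :=
        { toFun := fun x => ⟨x.1.1, x.1.2, x.2⟩
          invFun := fun x => ⟨⟨x.1, x.2.1⟩, x.2.2⟩
          left_inv := fun x => rfl
          right_inv := fun x => rfl }
      exact e.tsum_eq (fun x => W β lam (x : List Site))
    · rw [Set.indicator_of_notMem hp]
      have : IsEmpty {l : S // P l = p} := ⟨fun x => hp ⟨x.1, x.2⟩⟩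
      simp
  refine (ENNReal.tsum_le_tsum h1).trans ?_
  rw [← tsum_subtype (Set.range P) (fun p => K * ∏ i : Fin bs.length, tb β lam θ h s₀ L M bs[i]
        (blk p bs[i].rot (cc bs i : ℤ) ((cc bs i : ℤ) + bs[i].len))), ENNReal.tsum_mul_left]
  refine mul_le_mul_right ?_ _
  -- the contour is determined by its blocks
  have hinj : Function.Injective (fun p : Set.range P => fun i : Fin bs.length =>
      blk p.1 bs[i].rot (cc bs i : ℤ) ((cc bs i : ℤ) + bs[i].len)) := by
    rintro ⟨_, l, rfl⟩ ⟨_, l', rfl⟩ he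
    refine Subtype.ext (p_inj (hP l).2.2.1 (hP l').2.2.1 ?_)
    intro i hi
    exact congrFun he ⟨i, hi⟩
  refine (ENNReal.tsum_comp_le_tsum_of_injective hinj
    (fun E : Fin bs.length → List Site => ∏ i, tb β lam θ h s₀ L M bs[i] (E i))).trans ?_
  refine (US.tsum_prod_le (fun i : Fin bs.length => tb β lam θ h s₀ L M bs[i])).trans ?_
  refine (Finset.prod_le_prod' fun i _ => sum_tb β lam θ h s₀ L M bs[i]).trans (le_of_eq ?_)
  exact Fin.prod_univ_fun_getElem bs (wB β lam θ h s₀ L M)

end Pool.Agent.WSB71
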