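import Pool.Agent.WSB71.UBDefs
import Pool.Agent.WSB71.UBDataProof

/-!
# UB: block data, validity, the bound for one datum

Definitions: `UBDefs.lean`; the bound for one datum `ub_datum`: `UBDataProof.lean`.
-/
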