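import Pool.Agent.LT.Contour
import Pool.Agent.WSB71.FUnique

/-!
# UB2: a connected component carries the eigenvalue
-/

open MeasureTheory Filter Topology
open scoped NNReal ENNReal

namespace Pool.Agent.WSB71

open Pool.Agent.LT

lemma uc_adj_add {x e : Site} (he : e ∈ units) : Adj x (x + e) := by
  unfold Adj
  simpa using he

lemma uc_split {D : Finset Site} (hD : D.Nonempty) (g : Site → Bool)
    (hg : ∀ x ∈ D, ∀ y ∈ D, Adj x y → g x = g y) :
    ∃ b : Bool, (D.filter (fun x => g x = b)).Nonempty ∧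
      lamD (D.filter (fun x => g x = b)) ≤ lamD D := by
  classical
  obtain ⟨φ, hφ, hφ0, ⟨x₀, hx₀, hx₀p⟩, heig⟩ := exists_eigen hD
  refine ⟨g x₀, ⟨x₀, by simp [hx₀]⟩, ?_⟩
  set E := D.filter (fun x => g x = g x₀) with hE
  have hmem : ∀ x, x ∈ E ↔ x ∈ D ∧ g x = g x₀ := fun x => by rw [hE, Finset.mem_filter]
  set ψ : Site → ℝ := fun x => if x ∈ E then φ x else 0 with hψ
  have hψ0 : ∀ x, x ∉ E → ψ x = 0 := fun x hx => by rw [hψ]; simp [hx]
  have hψ1 : ∀ x ∈ E, ψ x = φ x := fun x hx => by rw [hψ]; simp [hx]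
  have hn : ∀ x ∈ E, ∀ e ∈ units, ψ (x + e) = φ (x + e) := by
    intro x hx e he
    by_cases h : x + e ∈ E
    · exact hψ1 _ h
    · rw [hψ0 _ h]
      by_cases h' : x + e ∈ D
      · exfalso
        apply h
        rw [hmem]
        refine ⟨h', ?_⟩
        rw [← hg x ((hmem x).1 hx).1 _ h' (uc_adj_add he)]
        exact ((hmem x).1 hx).2
      · rw [hφ0 _ h']
  have h1 : dform E ψ = lamD D * ∑ x ∈ E, ψ x ^ 2 := by
    unfold dform
    rw [Finset.mul_sum]
    apply Finset.sum_congr rfl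
    intro x hx
    have h2 : ∑ e ∈ units, ψ x * ψ (x + e) = ψ x * ∑ e ∈ units, φ (x + e) := by
      rw [Finset.mul_sum]
      apply Finset.sum_congr rfl
      intro e he
      rw [hn x hx e he]
    rw [h2, hψ1 x hx]
    have h3 := heig x ((hmem x).1 hx).1
    linear_combination φ x * h3
  have h4 := lamD_mul_le (D := E) (f := ψ) hψ0
  rw [h1] at h4
  have h5 : 0 < ∑ x ∈ E, ψ x ^ 2 := by
    apply Finset.sum_pos'
    · intro x _; exact sq_nonneg _
    · refine ⟨x₀, (hmem x₀).2 ⟨hx₀, rfl⟩, ?_⟩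
      rw [hψ1 x₀ ((hmem x₀).2 ⟨hx₀, rfl⟩)]
      positivity
  exact le_of_mul_le_mul_right h4 h5

/-- A connected component carries the eigenvalue. (Induction on the number of sites: if `D` splits in two
non adjacent parts, one of them has `lamD ≤ lamD D`.) -/
theorem exists_comp {D : Finset Site} (hD : D.Nonempty) :
    ∃ K : Finset Site, K ⊆ D ∧ K.Nonempty ∧ ConnF (K : Set Site) ∧ lamD K ≤ lamD D := by
  classical
  induction D using Finset.strongInduction with
  | H D ih =>
    by_cases hc : ConnF (D : Set Site)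
    · exact ⟨D, Finset.Subset.refl _, hD, hc, le_rfl⟩
    · unfold ConnF at hc
      push Not at hc
      obtain ⟨g, hg, x, hx, y, hy, hxy⟩ := hc
      obtain ⟨b, hb, hlam⟩ := uc_split hD g (fun u hu v hv => hg u hu v hv)
      have hss : D.filter (fun x => g x = b) ⊂ D := by
        refine Finset.ssubset_iff_subset_ne.2 ⟨Finset.filter_subset _ _, fun h => ?_⟩
        have h1 : ∀ z ∈ D, g z = b := fun z hz => by
          rw [← h, Finset.mem_filter] at hz
          exact hz.2
        exact hxy ((h1 x hx).trans (h1 y hy).symm)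
      obtain ⟨K, hK, hKn, hKc, hKl⟩ := ih _ hss hb
      exact ⟨K, hK.trans (Finset.filter_subset _ _), hKn, hKc, hKl.trans hlam⟩

end Pool.Agent.WSB71
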