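import Pool.Agent.WSB71.UBDefs

/-!
# UB: counting of the block data

`data_count`: the number of possible block data with total length `≤ n₀`, total number of
excursions `≤ K` and at most `n₀ / L + R` blocks is at most `C e^{δ n₀} (10^6 L^4)^K`.
-/

open MeasureTheory Filter Topology
open scoped NNReal ENNReal

namespace Pool.Agent.WSB71

open Pool.Agent.LT

/-- The possible block data. -/
def dataSet (n₀ k₀ K L : ℕ) : Set (List BD) :=
  {bs | bs.length ≤ k₀ ∧ (bs.map BD.len).sum ≤ n₀ ∧ (bs.map (fun b => b.D.length)).sum ≤ K ∧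
    ∀ b ∈ bs, b.v.1.natAbs ≤ b.len ∧ b.v.2.natAbs ≤ b.len ∧ b.kind ≤ 2 ∧ b.rot < 4 ∧
      ∀ q ∈ b.D, ∃ x y : Site, q = (some x, some y) ∧ sd 0 x ≤ 10 * L ∧ sd 0 y ≤ 10 * L}

namespace UCount

/-- Sum over the lists of a given length. -/
theorem tsum_lists {α : Type*} (f : α → ℝ≥0∞) (k : ℕ) :
    ∑' l : {l : List α // l.length = k}, ((l : List α).map f).prod ≤ (∑' a, f a) ^ k := by
  induction k with
  | zero =>
    rw [tsum_eq_single (⟨[], rfl⟩ : {l : List α // l.length = 0})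
      (fun l hl => absurd (Subtype.ext (List.eq_nil_of_length_eq_zero l.2)) hl)]
    simp
  | succ k ih =>
    let g : {l : List α // l.length = k + 1} → α × {l : List α // l.length = k} :=
      fun l => (l.1.head (List.ne_nil_of_length_eq_add_one l.2), ⟨l.1.tail, by simp [l.2]⟩)
    have hg : Function.Injective g := by
      intro l l' h
      have h1 := congrArg Prod.fst h
      have h2 := congrArg (fun q => (q.2 : List α)) h
      simp only [g] at h1 h2
      apply Subtype.ext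
      rw [← List.cons_head_tail (List.ne_nil_of_length_eq_add_one l.2),
        ← List.cons_head_tail (List.ne_nil_of_length_eq_add_one l'.2), h1, h2]
    calc ∑' l : {l : List α // l.length = k + 1}, ((l : List α).map f).prod
        = ∑' l : {l : List α // l.length = k + 1},
            (fun q : α × {l : List α // l.length = k} =>
              f q.1 * ((q.2 : List α).map f).prod) (g l) := by
          refine tsum_congr fun l => ?_
          simp only [g]
          conv_lhs => rw [← List.cons_head_tail (List.ne_nil_of_length_eq_add_one l.2)]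
          rw [List.map_cons, List.prod_cons]
      _ ≤ ∑' q : α × {l : List α // l.length = k}, f q.1 * ((q.2 : List α).map f).prod :=
          ENNReal.tsum_comp_le_tsum_of_injective hg _
      _ = (∑' a, f a) * ∑' l : {l : List α // l.length = k}, ((l : List α).map f).prod := by
          rw [ENNReal.tsum_prod']
          simp only [ENNReal.tsum_mul_left, ENNReal.tsum_mul_right]
      _ ≤ (∑' a, f a) * (∑' a, f a) ^ k := mul_le_mul' le_rfl ih
      _ = (∑' a, f a) ^ (k + 1) := (pow_succ' _ _).symm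

/-- Sum over all the lists. -/
theorem tsum_list_all {α : Type*} (f : α → ℝ≥0∞) :
    ∑' l : List α, (l.map f).prod ≤ ∑' k : ℕ, (∑' a, f a) ^ k := by
  rw [← Equiv.tsum_eq (Equiv.sigmaFiberEquiv (List.length (α := α))), ENNReal.tsum_sigma']
  refine ENNReal.tsum_le_tsum fun k => ?_
  exact tsum_lists f k

/-- Sum over the lists of bounded length. -/
theorem tsum_list_le {α : Type*} (f : α → ℝ≥0∞) {S : ℝ≥0∞} (hS : ∑' a, f a ≤ S) (hS1 : 1 ≤ S)
    (k : ℕ) (D : Set (List α)) (hD : ∀ l ∈ D, l.length ≤ k) :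
    ∑' l : D, ((l : List α).map f).prod ≤ (k + 1) * S ^ k := by
  let g : D → Σ i : Fin (k + 1), {l : List α // l.length = i} :=
    fun l => ⟨⟨(l : List α).length, Nat.lt_succ_of_le (hD l l.2)⟩, ⟨l, rfl⟩⟩
  have hg : Function.Injective g := by
    intro l l' h
    have : ∀ x : D, ((g x).2 : List α) = x := fun x => rfl
    apply Subtype.ext
    rw [← this l, ← this l', h]
  calc ∑' l : D, ((l : List α).map f).prod
      = ∑' l : D, (fun q : Σ i : Fin (k + 1), {l : List α // l.length = i} =>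
          ((q.2 : List α).map f).prod) (g l) := rfl
    _ ≤ ∑' q : Σ i : Fin (k + 1), {l : List α // l.length = i}, ((q.2 : List α).map f).prod :=
        ENNReal.tsum_comp_le_tsum_of_injective hg _
    _ = ∑' i : Fin (k + 1), ∑' l : {l : List α // l.length = i}, ((l : List α).map f).prod := by
        rw [ENNReal.tsum_sigma']
    _ ≤ ∑' _i : Fin (k + 1), S ^ k := by
        refine ENNReal.tsum_le_tsum fun i => ?_
        refine (tsum_lists f i).trans ?_
        exact (pow_le_pow_left' hS _).trans (pow_le_pow_right₀ hS1 (Nat.lt_succ_iff.mp i.2))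
    _ = (k + 1) * S ^ k := by
        rw [tsum_fintype]
        simp

theorem tsum_prod_mul {α β : Type*} (f : α → ℝ≥0∞) (g : β → ℝ≥0∞) :
    ∑' q : α × β, f q.1 * g q.2 = (∑' a, f a) * ∑' b, g b := by
  rw [ENNReal.tsum_prod']
  simp only [ENNReal.tsum_mul_left, ENNReal.tsum_mul_right]

/-- The end points of an excursion. -/
def good (L : ℕ) : Set (Option Site × Option Site) :=
  {q | ∃ x y : Site, q = (some x, some y) ∧ sd 0 x ≤ 10 * L ∧ sd 0 y ≤ 10 * L}

theorem mem_box {x : Site} {m : ℕ} (hx : x.1.natAbs ≤ m ∧ x.2.natAbs ≤ m) :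
    x ∈ Finset.Icc (-(m : ℤ)) m ×ˢ Finset.Icc (-(m : ℤ)) m := by
  rw [Finset.mem_product, Finset.mem_Icc, Finset.mem_Icc]
  omega

theorem card_box (m : ℕ) :
    (Finset.Icc (-(m : ℤ)) m ×ˢ Finset.Icc (-(m : ℤ)) m).card = (2 * m + 1) ^ 2 := by
  rw [Finset.card_product, Int.card_Icc, pow_two]
  congr 1 <;> omega

open Classical in
/-- Indicator. -/
noncomputable def ind (P : Prop) : ℝ≥0∞ := if P then 1 else 0

theorem ind_pos {P : Prop} (h : P) : ind P = 1 := if_pos h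

theorem ind_neg {P : Prop} (h : ¬ P) : ind P = 0 := if_neg h

theorem ind_le {P : Prop} : ind P ≤ 1 := by
  unfold ind
  split_ifs
  · exact le_rfl
  · exact zero_le

theorem tsum_indicator_le {α : Type*} (s : α → Prop) (T : Finset α) (hT : ∀ x, s x → x ∈ T)
    (c : ℝ≥0∞) : ∑' x, ind (s x) * c ≤ T.card * c := by
  rw [tsum_eq_sum (s := T) (fun x hx => by rw [ind_neg fun h => hx (hT x h), zero_mul])]
  calc ∑ x ∈ T, ind (s x) * c ≤ ∑ _x ∈ T, c := by
        refine Finset.sum_le_sum fun x _ => ?_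
        exact (mul_le_mul' ind_le le_rfl).trans (by rw [one_mul])
    _ = T.card * c := by simp

theorem tsum_ind_le {α : Type*} (s : α → Prop) (T : Finset α) (hT : ∀ x, s x → x ∈ T) :
    ∑' x, ind (s x) ≤ T.card := by
  have := tsum_indicator_le s T hT 1
  simpa using this

/-- The finset containing the end points. -/
noncomputable def goodF (L : ℕ) : Finset (Option Site × Option Site) :=
  ((Finset.Icc (-((10 * L : ℕ) : ℤ)) ((10 * L : ℕ) : ℤ) ×ˢ
      Finset.Icc (-((10 * L : ℕ) : ℤ)) ((10 * L : ℕ) : ℤ)) ×ˢ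
    (Finset.Icc (-((10 * L : ℕ) : ℤ)) ((10 * L : ℕ) : ℤ) ×ˢ
      Finset.Icc (-((10 * L : ℕ) : ℤ)) ((10 * L : ℕ) : ℤ))).image
    (fun q : Site × Site => (some q.1, some q.2))

theorem sd_zero {x : Site} {m : ℕ} (h : sd 0 x ≤ m) : x.1.natAbs ≤ m ∧ x.2.natAbs ≤ m := by
  unfold sd at h
  simp only [Prod.fst_zero, Prod.snd_zero, zero_sub, Int.natAbs_neg] at h
  exact ⟨(le_max_left _ _).trans h, (le_max_right _ _).trans h⟩

theorem good_sub (L : ℕ) : ∀ q ∈ good L, q ∈ goodF L := by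
  rintro q ⟨x, y, rfl, hx, hy⟩
  refine Finset.mem_image.mpr ⟨(x, y), ?_, rfl⟩
  rw [Finset.mem_product]
  exact ⟨mem_box (sd_zero hx), mem_box (sd_zero hy)⟩

theorem card_goodF (L : ℕ) (hL : 1 ≤ L) : 2 * (goodF L).card ≤ 10 ^ 6 * L ^ 4 := by
  have h1 : (goodF L).card ≤ ((2 * (10 * L) + 1) ^ 2) * ((2 * (10 * L) + 1) ^ 2) := by
    refine Finset.card_image_le.trans ?_
    rw [Finset.card_product, card_box]
  have h2 : 2 * (10 * L) + 1 ≤ 21 * L := by omega
  have h3 : ((2 * (10 * L) + 1) ^ 2) * ((2 * (10 * L) + 1) ^ 2) ≤ (21 * L) ^ 2 * (21 * L) ^ 2 :=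
    Nat.mul_le_mul (Nat.pow_le_pow_left h2 2) (Nat.pow_le_pow_left h2 2)
  have h4 : (21 * L) ^ 2 * (21 * L) ^ 2 = 194481 * L ^ 4 := by ring
  nlinarith [Nat.zero_le (L ^ 4)]

/-- Weight of the excursion data of a block. -/
noncomputable def wD (L : ℕ) (q : Option Site × Option Site) : ℝ≥0∞ :=
  ind (q ∈ good L) * ((10 ^ 6 * (L : ℝ≥0∞) ^ 4))⁻¹

theorem tsum_wD (L : ℕ) (hL : 1 ≤ L) : ∑' q, wD L q ≤ 2⁻¹ := by
  refine (tsum_indicator_le (fun q => q ∈ good L) (goodF L) (good_sub L) _).trans ?_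
  have h : (2 * (goodF L).card : ℝ≥0∞) ≤ 10 ^ 6 * (L : ℝ≥0∞) ^ 4 := by
    have := card_goodF L hL
    exact_mod_cast this
  have h0 : (10 ^ 6 * (L : ℝ≥0∞) ^ 4) ≠ 0 := by
    have : (L : ℝ≥0∞) ≠ 0 := by
      exact_mod_cast (by omega : L ≠ 0)
    simp [this]
  have hT : (10 ^ 6 * (L : ℝ≥0∞) ^ 4) ≠ ⊤ := by
    refine ENNReal.mul_ne_top (by norm_num) (ENNReal.pow_ne_top (ENNReal.natCast_ne_top L))
  rw [← div_eq_mul_inv, ENNReal.div_le_iff h0 hT]
  rw [← ENNReal.div_eq_inv_mul, ENNReal.le_div_iff_mul_le (Or.inl (by norm_num))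
    (Or.inl (by norm_num))]
  rw [mul_comm]
  exact h

theorem tsum_lists_wD (L : ℕ) (hL : 1 ≤ L) :
    ∑' l : List (Option Site × Option Site), (l.map (wD L)).prod ≤ 2 := by
  refine (tsum_list_all (wD L)).trans ?_
  calc ∑' k : ℕ, (∑' a, wD L a) ^ k ≤ ∑' k : ℕ, (2⁻¹ : ℝ≥0∞) ^ k :=
        ENNReal.tsum_le_tsum fun k => pow_le_pow_left' (tsum_wD L hL) k
    _ = 2 := by
        rw [ENNReal.tsum_geometric, ENNReal.one_sub_inv_two, inv_inv]

/-- Weight of a block datum. -/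
noncomputable def wb (d : ℝ) (L : ℕ) (b : BD) : ℝ≥0∞ :=
  ENNReal.ofReal (Real.exp (-d * b.len)) *
    (ind (b.v.1.natAbs ≤ b.len ∧ b.v.2.natAbs ≤ b.len) *
      (ind (b.kind ≤ 2) * (ind (b.rot < 4) * (b.D.map (wD L)).prod)))

theorem summable_len {d : ℝ} (hd : 0 < d) :
    Summable fun n : ℕ => (2 * (n : ℝ) + 1) ^ 2 * Real.exp (-d * n) := by
  have h0 := Real.summable_pow_mul_exp_neg_nat_mul 0 hd
  have h1 := Real.summable_pow_mul_exp_neg_nat_mul 1 hd
  have h2 := Real.summable_pow_mul_exp_neg_nat_mul 2 hd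
  refine ((h2.mul_left 4).add ((h1.mul_left 4).add h0)).congr fun n => ?_
  ring

/-- The sum of the weights of the block data. -/
theorem tsum_wb {d : ℝ} (hd : 0 < d) (L : ℕ) (hL : 1 ≤ L) :
    ∑' b, wb d L b ≤
      ENNReal.ofReal (24 * ∑' n : ℕ, (2 * (n : ℝ) + 1) ^ 2 * Real.exp (-d * n)) := by
  let F : ℕ × (Site × (ℕ × (ℕ × List (Option Site × Option Site)))) → ℝ≥0∞ := fun q =>
    ENNReal.ofReal (Real.exp (-d * q.1)) *
    (ind (q.2.1.1.natAbs ≤ q.1 ∧ q.2.1.2.natAbs ≤ q.1) *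
      (ind (q.2.2.1 ≤ 2) * (ind (q.2.2.2.1 < 4) * (q.2.2.2.2.map (wD L)).prod)))
  let g : BD → ℕ × (Site × (ℕ × (ℕ × List (Option Site × Option Site)))) :=
    fun b => (b.len, b.v, b.kind, b.rot, b.D)
  have hg : Function.Injective g := by
    rintro ⟨v, len, kind, rot, D⟩ ⟨v', len', kind', rot', D'⟩ h
    simp only [g, Prod.mk.injEq] at h
    obtain ⟨rfl, rfl, rfl, rfl, rfl⟩ := h
    rfl
  have h1 : ∑' b, wb d L b ≤ ∑' q, F q :=
    (ENNReal.tsum_comp_le_tsum_of_injective hg F)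
  have hk : ∑' k : ℕ, ind (k ≤ 2) ≤ 3 := by
    refine (tsum_ind_le (fun k : ℕ => k ≤ 2) (Finset.range 3) (fun x hx => ?_)).trans ?_
    · rw [Finset.mem_range]; exact Nat.lt_succ_of_le hx
    · simp
  have hr : ∑' k : ℕ, ind (k < 4) ≤ 4 := by
    refine (tsum_ind_le (fun k : ℕ => k < 4) (Finset.range 4) (fun x hx => ?_)).trans ?_
    · rw [Finset.mem_range]; exact hx
    · simp
  have hv : ∀ m : ℕ, ∑' v : Site, ind (v.1.natAbs ≤ m ∧ v.2.natAbs ≤ m) ≤ (2 * m + 1) ^ 2 := by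
    intro m
    refine (tsum_ind_le (fun v : Site => v.1.natAbs ≤ m ∧ v.2.natAbs ≤ m) _
      (fun x hx => mem_box hx)).trans ?_
    rw [card_box]
    simp
  have h2 : ∑' q, F q ≤ ∑' m : ℕ, 24 * ENNReal.ofReal ((2 * (m : ℝ) + 1) ^ 2 *
      Real.exp (-d * m)) := by
    rw [ENNReal.tsum_prod']
    refine ENNReal.tsum_le_tsum fun m => ?_
    simp only [F]
    rw [ENNReal.tsum_mul_left,
      tsum_prod_mul (fun v : Site => ind (v.1.natAbs ≤ m ∧ v.2.natAbs ≤ m))
        (fun q : ℕ × (ℕ × List (Option Site × Option Site)) =>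
          ind (q.1 ≤ 2) * (ind (q.2.1 < 4) * (q.2.2.map (wD L)).prod)),
      tsum_prod_mul (fun k : ℕ => ind (k ≤ 2))
        (fun q : ℕ × List (Option Site × Option Site) =>
          ind (q.1 < 4) * (q.2.map (wD L)).prod),
      tsum_prod_mul (fun k : ℕ => ind (k < 4))
        (fun q : List (Option Site × Option Site) => (q.map (wD L)).prod)]
    have e1 : ENNReal.ofReal ((2 * (m : ℝ) + 1) ^ 2 * Real.exp (-d * m)) =
        (2 * m + 1) ^ 2 * ENNReal.ofReal (Real.exp (-d * m)) := by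
      rw [ENNReal.ofReal_mul (by positivity)]
      congr 1
      have : (2 * (m : ℝ) + 1) ^ 2 = (((2 * m + 1) ^ 2 : ℕ) : ℝ) := by push_cast; ring
      rw [this, ENNReal.ofReal_natCast]
      push_cast
      ring
    rw [e1]
    calc ENNReal.ofReal (Real.exp (-d * m)) *
          ((∑' v : Site, ind (v.1.natAbs ≤ m ∧ v.2.natAbs ≤ m)) * ((∑' k : ℕ, ind (k ≤ 2)) *
          ((∑' k : ℕ, ind (k < 4)) *
            ∑' D : List (Option Site × Option Site), (D.map (wD L)).prod)))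
        ≤ ENNReal.ofReal (Real.exp (-d * m)) * ((2 * m + 1) ^ 2 * (3 * (4 * 2))) :=
          mul_le_mul' le_rfl (mul_le_mul' (hv m) (mul_le_mul' hk
            (mul_le_mul' hr (tsum_lists_wD L hL))))
      _ = 24 * ((2 * m + 1) ^ 2 * ENNReal.ofReal (Real.exp (-d * m))) := by ring
  refine (h1.trans h2).trans (le_of_eq ?_)
  rw [ENNReal.tsum_mul_left, ← ENNReal.ofReal_tsum_of_nonneg (fun m => by positivity)
    (summable_len hd), ENNReal.ofReal_mul (by norm_num)]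
  congr 1
  norm_num

/-- Lower bound for the weight of a list of good blocks. -/
theorem prod_wb {d : ℝ} (L : ℕ) (bs : List BD)
    (hbs : ∀ b ∈ bs, b.v.1.natAbs ≤ b.len ∧ b.v.2.natAbs ≤ b.len ∧ b.kind ≤ 2 ∧ b.rot < 4 ∧
      ∀ q ∈ b.D, ∃ x y : Site, q = (some x, some y) ∧ sd 0 x ≤ 10 * L ∧ sd 0 y ≤ 10 * L) :
    (bs.map (wb d L)).prod = ENNReal.ofReal (Real.exp (-d * ((bs.map BD.len).sum : ℕ))) *
      ((10 ^ 6 * (L : ℝ≥0∞) ^ 4)⁻¹) ^ (bs.map (fun b => b.D.length)).sum := by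
  induction bs with
  | nil => simp
  | cons b bs ih =>
    have hb := hbs b (by simp)
    have ih' := ih fun b' hb' => hbs b' (by simp [hb'])
    obtain ⟨h1, h2, h3, h4, h5⟩ := hb
    have hD : ∀ D : List (Option Site × Option Site), (∀ q ∈ D, ∃ x y : Site,
        q = (some x, some y) ∧ sd 0 x ≤ 10 * L ∧ sd 0 y ≤ 10 * L) →
        (D.map (wD L)).prod = ((10 ^ 6 * (L : ℝ≥0∞) ^ 4)⁻¹) ^ D.length := by
      intro D
      induction D with
      | nil => intro _; simp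
      | cons q D ihD =>
        intro hD
        have hq : q ∈ good L := hD q (by simp)
        rw [List.map_cons, List.prod_cons, ihD fun q' hq' => hD q' (by simp [hq']),
          List.length_cons, wD, ind_pos hq, one_mul]
        exact (pow_succ' _ _).symm
    have hw : wb d L b = ENNReal.ofReal (Real.exp (-d * b.len)) *
        ((10 ^ 6 * (L : ℝ≥0∞) ^ 4)⁻¹) ^ b.D.length := by
      unfold wb
      rw [hD b.D h5, ind_pos ⟨h1, h2⟩, ind_pos h3, ind_pos h4, one_mul, one_mul, one_mul]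
    rw [List.map_cons, List.prod_cons, ih', hw, List.map_cons, List.sum_cons, List.map_cons,
      List.sum_cons, pow_add]
    have e : Real.exp (-d * ((b.len + (bs.map BD.len).sum : ℕ) : ℝ)) =
        Real.exp (-d * b.len) * Real.exp (-d * ((bs.map BD.len).sum : ℕ)) := by
      rw [← Real.exp_add]
      congr 1
      push_cast
      ring
    rw [e, ENNReal.ofReal_mul (Real.exp_pos _).le]
    ring

end UCount

open UCount in
/-- **Counting.**  `(2 len + 1)² · 12 ≤ C_δ e^{δ len}`; the number of sequences `len_1, ..., len_k` with sum `≤ n₀` is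
`≤ e^{δ n₀} (∑_ℓ e^{-δ ℓ})^k`; the lengths of the lists `D`: at most `2^{K + k}` choices, the end points
`(20 L + 1)^{4K}`.  The total is `≤ (C_δ')^{k} e^{δ n₀} (10^6 L^4)^K` and
`k ≤ n₀ / L + R` with `L` large. -/
theorem data_count {δ : ℝ} (hδ : 0 < δ) : ∃ L₀ : ℕ, ∀ L : ℕ, L₀ ≤ L → 1 ≤ L → ∀ R : ℕ,
    ∃ C : ℝ, 0 < C ∧ ∀ n₀ K : ℕ, (dataSet n₀ (n₀ / L + R) K L).Finite ∧
      ((dataSet n₀ (n₀ / L + R) K L).ncard : ℝ) ≤
        C * Real.exp (δ * n₀) * (10 ^ 6 * (L : ℝ) ^ 4) ^ K := by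
  set d : ℝ := δ / 2 with hd
  have hd0 : 0 < d := by positivity
  set S : ℝ := 1 + 24 * ∑' n : ℕ, (2 * (n : ℝ) + 1) ^ 2 * Real.exp (-d * n) with hS
  have hS1 : 1 ≤ S := by
    have : 0 ≤ ∑' n : ℕ, (2 * (n : ℝ) + 1) ^ 2 * Real.exp (-d * n) :=
      tsum_nonneg fun n => by positivity
    linarith
  refine ⟨⌈Real.log (2 * S) / d⌉₊, fun L hL hL1 R => ⟨(2 * S) ^ R, by positivity, ?_⟩⟩
  intro n₀ K
  set D := dataSet n₀ (n₀ / L + R) K L with hDdef
  set k₀ := n₀ / L + R with hk₀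
  have hz0 : (10 ^ 6 * (L : ℝ≥0∞) ^ 4) ≠ 0 := by
    have : (L : ℝ≥0∞) ≠ 0 := by
      exact_mod_cast (by omega : L ≠ 0)
    simp [this]
  have hzT : (10 ^ 6 * (L : ℝ≥0∞) ^ 4) ≠ ⊤ := by
    refine ENNReal.mul_ne_top (by norm_num) (ENNReal.pow_ne_top (ENNReal.natCast_ne_top L))
  have hz1 : 1 ≤ (10 ^ 6 * (L : ℝ≥0∞) ^ 4) := by
    have : (1 : ℝ≥0∞) ≤ L := by exact_mod_cast hL1
    calc (1 : ℝ≥0∞) = 1 * 1 ^ 4 := by simp
      _ ≤ 10 ^ 6 * (L : ℝ≥0∞) ^ 4 := mul_le_mul' (by norm_num) (pow_le_pow_left' this 4)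
  have hwS : ∑' b, wb d L b ≤ ENNReal.ofReal S := by
    refine (tsum_wb hd0 L hL1).trans (ENNReal.ofReal_le_ofReal ?_)
    linarith
  have hpt : ∀ l : D, (1 : ℝ≥0∞) ≤ ENNReal.ofReal (Real.exp (d * n₀)) *
      (10 ^ 6 * (L : ℝ≥0∞) ^ 4) ^ K * ((l : List BD).map (wb d L)).prod := by
    rintro ⟨l, hl⟩
    obtain ⟨hl1, hl2, hl3, hl4⟩ := hl
    rw [prod_wb L l hl4]
    have e1 : ENNReal.ofReal (Real.exp (d * n₀)) *
        ENNReal.ofReal (Real.exp (-d * ((l.map BD.len).sum : ℕ))) ≥ 1 := by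
      rw [← ENNReal.ofReal_mul (Real.exp_pos _).le, ← Real.exp_add]
      rw [ge_iff_le, ENNReal.one_le_ofReal, Real.one_le_exp_iff]
      have : ((l.map BD.len).sum : ℝ) ≤ n₀ := by exact_mod_cast hl2
      push_cast at this ⊢
      nlinarith
    have e2 : (10 ^ 6 * (L : ℝ≥0∞) ^ 4) ^ K *
        ((10 ^ 6 * (L : ℝ≥0∞) ^ 4)⁻¹) ^ (l.map (fun b => b.D.length)).sum ≥ 1 := by
      obtain ⟨j, hj⟩ := Nat.exists_eq_add_of_le hl3
      rw [hj, pow_add, mul_comm (_ ^ (l.map fun b => b.D.length).sum), mul_assoc, ← mul_pow,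
        ENNReal.mul_inv_cancel hz0 hzT, one_pow, mul_one]
      exact one_le_pow₀ hz1
    calc (1 : ℝ≥0∞) = 1 * 1 := by simp
      _ ≤ _ := mul_le_mul' e1 e2
      _ = _ := by ring
  have henc : ((D.encard : ℕ∞) : ℝ≥0∞) ≤ ENNReal.ofReal (Real.exp (d * n₀)) *
      (10 ^ 6 * (L : ℝ≥0∞) ^ 4) ^ K * ((k₀ + 1) * ENNReal.ofReal S ^ k₀) := by
    rw [← ENNReal.tsum_set_one]
    calc ∑' _l : D, (1 : ℝ≥0∞) ≤ ∑' l : D, ENNReal.ofReal (Real.exp (d * n₀)) *
          (10 ^ 6 * (L : ℝ≥0∞) ^ 4) ^ K * ((l : List BD).map (wb d L)).prod :=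
          ENNReal.tsum_le_tsum hpt
      _ = ENNReal.ofReal (Real.exp (d * n₀)) *
          (10 ^ 6 * (L : ℝ≥0∞) ^ 4) ^ K * ∑' l : D, ((l : List BD).map (wb d L)).prod := by
          rw [ENNReal.tsum_mul_left]
      _ ≤ _ := by
          refine mul_le_mul' le_rfl ?_
          refine tsum_list_le (wb d L) hwS ?_ k₀ D fun l hl => hl.1
          rw [ENNReal.one_le_ofReal]
          exact hS1
  have hrhs : ENNReal.ofReal (Real.exp (d * n₀)) *
      (10 ^ 6 * (L : ℝ≥0∞) ^ 4) ^ K * ((k₀ + 1) * ENNReal.ofReal S ^ k₀) =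
      ENNReal.ofReal (Real.exp (d * n₀) * (10 ^ 6 * (L : ℝ) ^ 4) ^ K * ((k₀ + 1) * S ^ k₀)) := by
    have hz : (10 ^ 6 * (L : ℝ≥0∞) ^ 4) = ENNReal.ofReal (10 ^ 6 * (L : ℝ) ^ 4) := by
      have a1 : (10 ^ 6 * (L : ℝ) ^ 4) = ((10 ^ 6 * L ^ 4 : ℕ) : ℝ) := by push_cast; ring
      rw [a1, ENNReal.ofReal_natCast]
      push_cast
      ring
    have hk : ((k₀ : ℝ≥0∞) + 1) = ENNReal.ofReal ((k₀ : ℝ) + 1) := by
      rw [ENNReal.ofReal_add (by positivity) (by norm_num), ENNReal.ofReal_natCast]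
      simp
    rw [hz, hk, ← ENNReal.ofReal_pow (by positivity), ← ENNReal.ofReal_pow (by positivity),
      ← ENNReal.ofReal_mul (by positivity), ← ENNReal.ofReal_mul (by positivity),
      ← ENNReal.ofReal_mul (by positivity)]
  rw [hrhs] at henc
  have hfin : D.Finite := by
    rw [← Set.encard_lt_top_iff]
    have : ((D.encard : ℕ∞) : ℝ≥0∞) < ⊤ := henc.trans_lt ENNReal.ofReal_lt_top
    exact_mod_cast this
  refine ⟨hfin, ?_⟩
  have hnc : (D.ncard : ℝ) ≤
      Real.exp (d * n₀) * (10 ^ 6 * (L : ℝ) ^ 4) ^ K * ((k₀ + 1) * S ^ k₀) := by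
    rw [← hfin.cast_ncard_eq] at henc
    have h2 : ((D.ncard : ℕ) : ℝ≥0∞) ≤ ENNReal.ofReal
      (Real.exp (d * n₀) * (10 ^ 6 * (L : ℝ) ^ 4) ^ K * ((k₀ + 1) * S ^ k₀)) := by
      simpa using henc
    rw [← ENNReal.ofReal_natCast] at h2
    exact (ENNReal.ofReal_le_ofReal_iff (by positivity)).mp h2
  refine hnc.trans ?_
  have hk2 : ((k₀ : ℝ) + 1) * S ^ k₀ ≤ (2 * S) ^ R * Real.exp (d * n₀) := by
    have a1 : ((k₀ : ℝ) + 1) ≤ 2 ^ k₀ := by
      have := Nat.lt_two_pow_self (n := k₀)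
      exact_mod_cast this
    have a2 : ((k₀ : ℝ) + 1) * S ^ k₀ ≤ (2 * S) ^ k₀ := by
      rw [mul_pow]
      exact mul_le_mul_of_nonneg_right a1 (by positivity)
    have a3 : (2 * S) ^ (n₀ / L) ≤ Real.exp (d * n₀) := by
      have b1 : (0 : ℝ) < 2 * S := by positivity
      rw [← Real.exp_log b1, ← Real.exp_nat_mul, Real.exp_le_exp]
      have b2 : Real.log (2 * S) ≤ d * L := by
        have := (Nat.le_ceil (Real.log (2 * S) / d)).trans (Nat.cast_le.mpr hL)
        rw [div_le_iff₀ hd0] at this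
        linarith
      have b3 : (((n₀ / L : ℕ) : ℝ)) * L ≤ n₀ := by
        exact_mod_cast Nat.div_mul_le_self n₀ L
      have b4 : (0 : ℝ) ≤ ((n₀ / L : ℕ) : ℝ) := by positivity
      nlinarith
    calc ((k₀ : ℝ) + 1) * S ^ k₀ ≤ (2 * S) ^ k₀ := a2
      _ = (2 * S) ^ R * (2 * S) ^ (n₀ / L) := by rw [hk₀, pow_add, mul_comm]
      _ ≤ (2 * S) ^ R * Real.exp (d * n₀) := mul_le_mul_of_nonneg_left a3 (by positivity)
  have he : Real.exp (δ * n₀) = Real.exp (d * n₀) * Real.exp (d * n₀) := by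
    rw [← Real.exp_add]
    congr 1
    rw [hd]
    ring
  calc Real.exp (d * n₀) * (10 ^ 6 * (L : ℝ) ^ 4) ^ K * ((k₀ + 1) * S ^ k₀)
      ≤ Real.exp (d * n₀) * (10 ^ 6 * (L : ℝ) ^ 4) ^ K * ((2 * S) ^ R * Real.exp (d * n₀)) :=
        mul_le_mul_of_nonneg_left hk2 (by positivity)
    _ = (2 * S) ^ R * Real.exp (δ * n₀) * (10 ^ 6 * (L : ℝ) ^ 4) ^ K := by
        rw [he]
        ring

end Pool.Agent.WSB71
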