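import Pool.Agent.LT.PlaneDef

/-!
# UB: distance to the convex hull of the extreme points in finitely many directions
-/

open MeasureTheory Filter Topology
open scoped NNReal ENNReal

namespace Pool.Agent.WSB71

open Pool.Agent.LT

namespace GeoB

/-- The directions. -/
noncomputable def dir (M : ℕ) (k : ℕ) : Plane :=
  !₂[Real.cos (2 * Real.pi * k / M), Real.sin (2 * Real.pi * k / M)]

lemma inner_dir (M k : ℕ) (v : Plane) : (inner ℝ (dir M k) v : ℝ) =
    Real.cos (2 * Real.pi * k / M) * v 0 + Real.sin (2 * Real.pi * k / M) * v 1 := by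
  simp [dir, PiLp.inner_apply, Fin.sum_univ_two]
  ring

lemma norm_dir (M k : ℕ) : ‖dir M k‖ = 1 := by
  rw [EuclideanSpace.norm_eq, Fin.sum_univ_two]
  simp [dir, Real.norm_eq_abs, sq_abs]

/-- every unit vector is close to one of the directions -/
lemma exists_dir {M : ℕ} (hM : 1 ≤ M) {u : Plane} (hu : ‖u‖ = 1) :
    ∃ k < M, ‖u - dir M k‖ ≤ 7 / M := by
  have hM0 : (0 : ℝ) < M := by exact_mod_cast hM
  have hpi := Real.pi_pos
  have hu2 : u 0 ^ 2 + u 1 ^ 2 = 1 := by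
    have h := hu
    rw [EuclideanSpace.norm_eq, Real.sqrt_eq_one, Fin.sum_univ_two] at h
    simpa [Real.norm_eq_abs, sq_abs] using h
  -- the angle
  obtain ⟨θ, h0, h1, hc, hs⟩ : ∃ θ : ℝ, 0 ≤ θ ∧ θ < 2 * Real.pi ∧ u 0 = Real.cos θ ∧
      u 1 = Real.sin θ := by
    set z : ℂ := ⟨u 0, u 1⟩ with hz
    have hnz : ‖z‖ = 1 := by
      rw [Complex.norm_def, Complex.normSq_mk, Real.sqrt_eq_one]
      nlinarith
    have hz0 : z ≠ 0 := by
      intro h; rw [h, norm_zero] at hnz; exact zero_ne_one hnz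
    have e1 : u 0 = Real.cos z.arg := by
      rw [Complex.cos_arg hz0, hnz, div_one]
    have e2 : u 1 = Real.sin z.arg := by
      rw [Complex.sin_arg, hnz, div_one]
    by_cases h : 0 ≤ z.arg
    · exact ⟨z.arg, h, by linarith [Complex.arg_le_pi z], e1, e2⟩
    · push Not at h
      refine ⟨z.arg + 2 * Real.pi, by linarith [Complex.neg_pi_lt_arg z], by linarith, ?_, ?_⟩
      · rw [Real.cos_add_two_pi]; exact e1
      · rw [Real.sin_add_two_pi]; exact e2
  set t : ℝ := θ * M / (2 * Real.pi) with ht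
  have ht0 : 0 ≤ t := by positivity
  have ht1 : t < M := by
    rw [ht, div_lt_iff₀ (by positivity)]
    nlinarith
  refine ⟨⌊t⌋₊, (Nat.floor_lt ht0).2 ht1, ?_⟩
  set k := ⌊t⌋₊ with hk
  have hk1 : (k : ℝ) ≤ t := Nat.floor_le ht0
  have hk2 : t < k + 1 := Nat.lt_floor_add_one t
  set φ := 2 * Real.pi * k / M with hφ
  have hθ : θ = 2 * Real.pi * t / M := by
    rw [ht]; field_simp
  have hd0 : 0 ≤ θ - φ := by
    rw [hθ, hφ, ← sub_div, ← mul_sub]
    apply div_nonneg _ hM0.le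
    exact mul_nonneg (by positivity) (by linarith)
  have hd1 : θ - φ ≤ 2 * Real.pi / M := by
    rw [hθ, hφ, ← sub_div, ← mul_sub]
    apply div_le_div_of_nonneg_right _ hM0.le
    calc 2 * Real.pi * (t - k) ≤ 2 * Real.pi * 1 :=
          mul_le_mul_of_nonneg_left (by linarith) (by positivity)
      _ = 2 * Real.pi := mul_one _
  have hnorm : ‖u - dir M k‖ ^ 2 ≤ (θ - φ) ^ 2 := by
    rw [EuclideanSpace.norm_sq_eq, Fin.sum_univ_two]
    have e0 : (u - dir M k) 0 = Real.cos θ - Real.cos φ := by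
      simp [dir, hc, hφ]
    have e1 : (u - dir M k) 1 = Real.sin θ - Real.sin φ := by
      simp [dir, hs, hφ]
    rw [e0, e1, Real.norm_eq_abs, Real.norm_eq_abs, sq_abs, sq_abs]
    have h2 := Real.one_sub_sq_div_two_le_cos (x := θ - φ)
    rw [Real.cos_sub] at h2
    nlinarith [Real.sin_sq_add_cos_sq θ, Real.sin_sq_add_cos_sq φ]
  have h3 : ‖u - dir M k‖ ≤ θ - φ := abs_le_of_sq_le_sq' hnorm hd0 |>.2
  refine h3.trans (hd1.trans ?_)
  apply div_le_div_of_nonneg_right _ hM0.le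
  have := Real.pi_lt_d2
  linarith

/-- distance to the hull -/
theorem hull_near {M : ℕ} (hM : 1 ≤ M) {z : Fin M → Plane} {x : Plane} {ρ D : ℝ} (hρ : 0 ≤ ρ)
    (hD : ∀ k, ‖x - z k‖ ≤ D)
    (h : ∀ k : Fin M, inner ℝ (dir M k) x ≤ inner ℝ (dir M k) (z k) + ρ) :
    Metric.infDist x (convexHull ℝ (Set.range z)) ≤ ρ + 7 / M * D := by
  have hM0 : (0 : ℝ) < M := by exact_mod_cast hM
  have k0 : Fin M := ⟨0, hM⟩
  have hD0 : 0 ≤ D := (norm_nonneg _).trans (hD k0)
  set Q := convexHull ℝ (Set.range z) with hQ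
  have hQc : IsCompact Q := (Set.finite_range z).isCompact_convexHull ℝ
  have hQne : Q.Nonempty := ⟨z k0, subset_convexHull ℝ _ ⟨k0, rfl⟩⟩
  have hQcv : Convex ℝ Q := convex_convexHull ℝ _
  obtain ⟨y, hy, hxy⟩ := hQc.exists_infDist_eq_dist hQne x
  rw [hxy]
  have hinf : ‖x - y‖ = ⨅ w : Q, ‖x - w‖ := by
    rw [← dist_eq_norm, ← hxy, Metric.infDist_eq_iInf]
    simp only [dist_eq_norm]
  have hin := (norm_eq_iInf_iff_real_inner_le_zero hQcv hy).1 hinf
  rw [dist_eq_norm]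
  rcases (norm_nonneg (x - y)).eq_or_lt with h0 | h0
  · rw [← h0]; positivity
  set r := ‖x - y‖ with hr
  have hu : ‖r⁻¹ • (x - y)‖ = 1 := by
    rw [norm_smul, Real.norm_eq_abs, abs_of_pos (inv_pos.2 h0), ← hr]
    exact inv_mul_cancel₀ h0.ne'
  obtain ⟨k, hk, hku⟩ := exists_dir hM hu
  set u := r⁻¹ • (x - y) with hu'
  have hz := hin (z ⟨k, hk⟩) (subset_convexHull ℝ _ ⟨_, rfl⟩)
  have h1 : r ≤ inner ℝ u (x - z ⟨k, hk⟩) := by
    have e : x - z ⟨k, hk⟩ = (x - y) - (z ⟨k, hk⟩ - y) := by abel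
    rw [e, hu', real_inner_smul_left, inner_sub_right, real_inner_self_eq_norm_sq, ← hr]
    have : r⁻¹ * r ^ 2 = r := by field_simp
    have h2 : r⁻¹ * inner ℝ (x - y) (z ⟨k, hk⟩ - y) ≤ 0 :=
      mul_nonpos_of_nonneg_of_nonpos (inv_nonneg.2 h0.le) hz
    rw [mul_sub, this]
    linarith
  have h2 : inner ℝ u (x - z ⟨k, hk⟩) = inner ℝ (dir M k) (x - z ⟨k, hk⟩) +
      inner ℝ (u - dir M k) (x - z ⟨k, hk⟩) := by
    rw [← inner_add_left]; congr 1; abel
  have h3 : inner ℝ (dir M k) (x - z ⟨k, hk⟩) ≤ ρ := by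
    rw [inner_sub_right]
    have := h ⟨k, hk⟩
    simp only at this
    linarith
  have h4 : inner ℝ (u - dir M k) (x - z ⟨k, hk⟩) ≤ 7 / M * D := by
    refine (real_inner_le_norm _ _).trans ?_
    exact mul_le_mul hku (hD _) (norm_nonneg _) (by positivity)
  linarith

end GeoB

end Pool.Agent.WSB71
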