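import Pool.Agent.WSB71.GeoDef
import Pool.Agent.WSB71.LPdual
import Pool.Agent.WSB71.UGeoHull

/-!
# UB: the marks on the contour
-/

open MeasureTheory Filter Topology
open scoped NNReal ENNReal

namespace Pool.Agent.WSB71

open Pool.Agent.LT

namespace GeoB

variable {G : Finset Site} {n : ℕ} {p : ℤ → Site}

lemma adj_four {P Q : Site} (h : Adj P Q) : Q = (P.1 + 1, P.2) ∨ Q = (P.1 - 1, P.2) ∨
    Q = (P.1, P.2 + 1) ∨ Q = (P.1, P.2 - 1) := by
  obtain ⟨a, b⟩ := P
  obtain ⟨c, d⟩ := Q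
  unfold Adj units at h
  simp only [Finset.mem_insert, Finset.mem_singleton, Prod.mk_sub_mk, Prod.mk.injEq] at h
  simp only [Prod.mk.injEq]
  omega

lemma per_mul (hp : Cont G n p) (i m : ℤ) : p (i + m * n) = p i := by
  have h : Function.Periodic p (n : ℤ) := hp.per
  exact h.int_mul m i

lemma mem_G {x : Site} {L : ℕ} (hx : L < dep G x) : x ∈ G := by
  by_contra h
  rw [dep_eq_zero.2 h] at hx
  exact Nat.not_lt_zero _ hx

/-- adjacent sites -/
lemma adj_dist {P Q : Site} (h : Adj P Q) : |Q.1 - P.1| + |Q.2 - P.2| = 1 := by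
  rcases adj_four h with h | h | h | h <;> rw [h] <;> simp

lemma lip_nat (hp : ∀ i, Adj (p i) (p (i + 1))) (i : ℤ) (k : ℕ) :
    |(p (i + k)).1 - (p i).1| + |(p (i + k)).2 - (p i).2| ≤ k := by
  induction k with
  | zero => simp
  | succ k ih =>
    have h := adj_dist (hp (i + k))
    have e : i + ((k + 1 : ℕ) : ℤ) = i + k + 1 := by push_cast; ring
    rw [e]
    have h1 := abs_sub_le (p (i + k + 1)).1 (p (i + k)).1 (p i).1
    have h2 := abs_sub_le (p (i + k + 1)).2 (p (i + k)).2 (p i).2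
    push_cast
    linarith

lemma lip (hp : ∀ i, Adj (p i) (p (i + 1))) (i j : ℤ) :
    |(p j).1 - (p i).1| + |(p j).2 - (p i).2| ≤ |j - i| := by
  rcases le_total i j with h | h
  · obtain ⟨k, hk⟩ := Int.eq_ofNat_of_zero_le (sub_nonneg.2 h)
    have e : j = i + k := by linarith
    have := lip_nat hp i k
    rw [e]
    have e2 : |i + (k : ℤ) - i| = k := by rw [add_sub_cancel_left]; exact abs_of_nonneg (by positivity)
    rw [e2]
    exact this
  · obtain ⟨k, hk⟩ := Int.eq_ofNat_of_zero_le (sub_nonneg.2 h)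
    have e : i = j + k := by linarith
    have := lip_nat hp j k
    rw [e]
    have e2 : |j - (j + (k : ℤ))| = k := by
      rw [abs_sub_comm, add_sub_cancel_left]; exact abs_of_nonneg (by positivity)
    rw [e2, abs_sub_comm (p j).1, abs_sub_comm (p j).2]
    exact this

lemma lip_n (hp : Cont G n p) (i j : ℤ) :
    |(p j).1 - (p i).1| + |(p j).2 - (p i).2| ≤ n := by
  have hn : (0 : ℤ) < n := by have := hp.pos; omega
  have h1 := per_mul hp j (-((j - i) / n))
  have h2 := lip hp.adj i (j + -((j - i) / n) * n)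
  rw [h1] at h2
  have h3 := Int.emod_add_mul_ediv (j - i) n
  have h4 : j + -((j - i) / n) * n - i = (j - i) % n := by linear_combination -h3
  rw [h4] at h2
  have h5 := Int.emod_nonneg (j - i) hn.ne'
  have h6 := Int.emod_lt_of_pos (j - i) hn
  rw [abs_of_nonneg h5] at h2
  linarith

lemma inn_near {P Q : Site} (h : Adj P Q) : P.1 ≤ (inn P Q).1 ∧ (inn P Q).1 ≤ P.1 + 1 ∧
    P.2 ≤ (inn P Q).2 ∧ (inn P Q).2 ≤ P.2 + 1 := by
  rcases adj_four h with h | h | h | h <;> subst h <;> unfold inn <;> simp only <;>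
    refine ⟨?_, ?_, ?_, ?_⟩ <;> omega

/-- an extreme point of `G` gives an extreme point of the contour -/
lemma extreme (hp : Cont G n p) {x : Site} (hx : x ∈ G) (f : Site → ℤ) (e : Site)
    (he : e ∈ units) (hf : ∀ y, f (y + e) = f y + 1) :
    ∃ i : ℤ, ∃ y ∈ G, f x ≤ f y ∧ inn (p i) (p (i + 1)) = y := by
  obtain ⟨y, hy, hmax⟩ := Finset.exists_max_image G f ⟨x, hx⟩
  have h1 : y + e ∉ G := by
    intro h
    have := hmax _ h
    rw [hf] at this
    omega
  have h2 : Adj y (y + e) := by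
    unfold Adj
    rw [add_sub_cancel_left]
    exact he
  obtain ⟨i, -, -, h3, -⟩ := hp.surj y hy _ h1 h2
  exact ⟨i, y, hy, hmax x hx, h3⟩

lemma box (hp : Cont G n p) {x : Site} (hx : x ∈ G) (m : ℤ) :
    |x.1 - (p m).1| ≤ n + 1 ∧ |x.2 - (p m).2| ≤ n + 1 := by
  obtain ⟨i1, y1, -, a1, b1⟩ := extreme hp hx (fun y => y.1) (1, 0) (by decide) (fun y => by simp)
  obtain ⟨i2, y2, -, a2, b2⟩ := extreme hp hx (fun y => -y.1) (-1, 0) (by decide)
    (fun y => by simp; ring)
  obtain ⟨i3, y3, -, a3, b3⟩ := extreme hp hx (fun y => y.2) (0, 1) (by decide) (fun y => by simp)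
  obtain ⟨i4, y4, -, a4, b4⟩ := extreme hp hx (fun y => -y.2) (0, -1) (by decide)
    (fun y => by simp; ring)
  have c1 := inn_near (hp.adj i1)
  have c2 := inn_near (hp.adj i2)
  have c3 := inn_near (hp.adj i3)
  have c4 := inn_near (hp.adj i4)
  rw [b1] at c1
  rw [b2] at c2
  rw [b3] at c3
  rw [b4] at c4
  have d1 := lip_n hp m i1
  have d2 := lip_n hp m i2
  have d3 := lip_n hp m i3
  have d4 := lip_n hp m i4
  have e1 := abs_nonneg ((p i1).2 - (p m).2)
  have e2 := abs_nonneg ((p i2).2 - (p m).2)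
  have e3 := abs_nonneg ((p i3).1 - (p m).1)
  have e4 := abs_nonneg ((p i4).1 - (p m).1)
  have f1 := le_abs_self ((p i1).1 - (p m).1)
  have f2 := neg_abs_le ((p i2).1 - (p m).1)
  have f3 := le_abs_self ((p i3).2 - (p m).2)
  have f4 := neg_abs_le ((p i4).2 - (p m).2)
  constructor
  · rw [abs_le]; constructor <;> linarith
  · rw [abs_le]; constructor <;> linarith

lemma toPlane_sub (x y : Site) : toPlane x - toPlane y = toPlane (x - y) := by
  ext i
  fin_cases i <;> simp [toPlane]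

lemma norm_toPlane_le (v : Site) {b : ℤ} (h : |v.1| + |v.2| ≤ b) : ‖toPlane v‖ ≤ b := by
  have h1 := norm_le_abs_add (toPlane v)
  have e0 : (toPlane v) 0 = v.1 := by simp [toPlane]
  have e1 : (toPlane v) 1 = v.2 := by simp [toPlane]
  rw [e0, e1] at h1
  have h2 : ((|v.1| + |v.2| : ℤ) : ℝ) ≤ b := by exact_mod_cast h
  push_cast at h2
  linarith

lemma norm_G (hp : Cont G n p) {x : Site} (hx : x ∈ G) (m : ℤ) :
    ‖toPlane x - toPlane (p m)‖ ≤ 3 * n := by
  have h1 := box hp hx m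
  have h2 := hp.pos
  rw [toPlane_sub]
  have h3 := norm_toPlane_le (x - p m) (b := 3 * n) (by
    have e0 : (x - p m).1 = x.1 - (p m).1 := rfl
    have e1 : (x - p m).2 = x.2 - (p m).2 := rfl
    rw [e0, e1]
    have := h1.1
    have := h1.2
    omega)
  push_cast at h3
  exact h3

lemma norm_p (hp : Cont G n p) (i m : ℤ) : ‖toPlane (p i) - toPlane (p m)‖ ≤ n := by
  have h1 := lip_n hp m i
  rw [toPlane_sub]
  have h3 := norm_toPlane_le (p i - p m) (b := n) h1
  exact_mod_cast h3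

lemma norm_p' (hp : Cont G n p) (i m : ℤ) : ‖toPlane (p i) - toPlane (p m)‖ ≤ |((i - m : ℤ) : ℝ)| := by
  have h1 := lip hp.adj m i
  rw [toPlane_sub]
  have h3 := norm_toPlane_le (p i - p m) (b := |i - m|) h1
  push_cast at h3 ⊢
  exact h3

/-- shift invariance of arcs -/
lemma inArc_shift {q : ℤ × ℤ} {i m : ℤ} : InArc n q (i + m * n) ↔ InArc n q i := by
  constructor
  · rintro ⟨a, h1, h2⟩
    exact ⟨a + m, by linarith, by linarith⟩
  · rintro ⟨a, h1, h2⟩
    exact ⟨a - m, by linarith, by linarith⟩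

/-- `i` is outside the open arcs of `J` -/
def Free (n : ℕ) (J : Finset (ℤ × ℤ)) (i : ℤ) : Prop := ∀ q ∈ J, ¬ InArc n q i

lemma free_shift {J : Finset (ℤ × ℤ)} {i m : ℤ} : Free n J (i + m * n) ↔ Free n J i := by
  unfold Free
  simp only [inArc_shift]

/-- the left end of an arc is free -/
lemma free_left (hn : 0 < n) {J : Finset (ℤ × ℤ)} (hJ : ∀ q ∈ J, q.1 < q.2 ∧ q.2 ≤ q.1 + n)
    (hJd : ∀ q ∈ J, ∀ q' ∈ J, q ≠ q' → ∀ m : ℤ, q.2 ≤ q'.1 + m * n ∨ q'.2 + m * n ≤ q.1)
    {q : ℤ × ℤ} (hq : q ∈ J) : Free n J q.1 := by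
  rintro q' hq' ⟨m, h1, h2⟩
  have hqq := hJ q hq
  have hn' : (0 : ℤ) < n := by exact_mod_cast hn
  by_cases hne : q = q'
  · subst hne
    have h3 : 0 < m * n := by linarith
    have h4 : m * n < n := by linarith
    have h5 : 0 < m := by
      by_contra h
      push Not at h
      have := mul_nonpos_of_nonpos_of_nonneg h hn'.le
      linarith
    have h6 : (1 : ℤ) * n ≤ m * n := mul_le_mul_of_nonneg_right (by omega) hn'.le
    linarith
  · rcases hJd q hq q' hq' hne (-m) with h | h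
    · have : -m * (n : ℤ) = -(m * n) := by ring
      rw [this] at h
      linarith
    · have : -m * (n : ℤ) = -(m * n) := by ring
      rw [this] at h
      linarith

/-- the marks -/
lemma exists_marks (hp : Cont G n p) {J : Finset (ℤ × ℤ)} (hex : ∃ i, Free n J i) (M : ℕ) :
    ∃ ι : Fin M → ℤ, (∀ k, 0 ≤ ι k ∧ ι k < n ∧ Free n J (ι k)) ∧
      ∀ (k : Fin M) (i : ℤ), Free n J i →
        inner ℝ (dir M k) (toPlane (p i)) ≤ inner ℝ (dir M k) (toPlane (p (ι k))) := by
  classical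
  have hn : (0 : ℤ) < n := by have := hp.pos; omega
  have hred : ∀ i, Free n J i → Free n J (i % n) ∧ p (i % n) = p i := by
    intro i hi
    have h3 := Int.emod_add_mul_ediv i n
    have e : i % n = i + (-(i / n)) * n := by linear_combination h3
    rw [e, free_shift, per_mul hp]
    exact ⟨hi, rfl⟩
  have key : ∀ k : Fin M, ∃ i : ℤ, (0 ≤ i ∧ i < n ∧ Free n J i) ∧ ∀ j, Free n J j →
      inner ℝ (dir M k) (toPlane (p j)) ≤ inner ℝ (dir M k) (toPlane (p i)) := by
    intro k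
    obtain ⟨i0, hi0⟩ := hex
    have hmem : ∀ i, Free n J i → i % n ∈ (Finset.Ico (0 : ℤ) n).filter (fun i => Free n J i) := by
      intro i hi
      rw [Finset.mem_filter, Finset.mem_Ico]
      exact ⟨⟨Int.emod_nonneg i hn.ne', Int.emod_lt_of_pos i hn⟩, (hred i hi).1⟩
    obtain ⟨i, hi, hmax⟩ := Finset.exists_max_image
      ((Finset.Ico (0 : ℤ) n).filter (fun i => Free n J i))
      (fun i => (inner ℝ (dir M k) (toPlane (p i)) : ℝ)) ⟨_, hmem i0 hi0⟩
    rw [Finset.mem_filter, Finset.mem_Ico] at hi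
    refine ⟨i, ⟨hi.1.1, hi.1.2, hi.2⟩, fun j hj => ?_⟩
    have h1 := hmax _ (hmem j hj)
    rw [(hred j hj).2] at h1
    exact h1
  choose ι h1 h2 using key
  exact ⟨ι, h1, h2⟩

/-- the contour is close to the hull of the marks -/
lemma near_p (hp : Cont G n p) {M : ℕ} (hM : 1 ≤ M) {J : Finset (ℤ × ℤ)}
    (hJ : ∀ q ∈ J, q.1 < q.2 ∧ q.2 ≤ q.1 + n)
    (hJd : ∀ q ∈ J, ∀ q' ∈ J, q ≠ q' → ∀ m : ℤ, q.2 ≤ q'.1 + m * n ∨ q'.2 + m * n ≤ q.1)
    {ι : Fin M → ℤ} (hι : ∀ (k : Fin M) (i : ℤ), Free n J i →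
        inner ℝ (dir M k) (toPlane (p i)) ≤ inner ℝ (dir M k) (toPlane (p (ι k)))) (i : ℤ) :
    Metric.infDist (toPlane (p i)) (convexHull ℝ (Set.range (fun k => toPlane (p (ι k)))))
      ≤ ∑ q ∈ J, ((q.2 - q.1 : ℤ) : ℝ) + 40 * n / M := by
  have hn : 0 < n := by have := hp.pos; omega
  have hM0 : (0 : ℝ) < M := by exact_mod_cast hM
  have hn0 : (0 : ℝ) < n := by exact_mod_cast hn
  have hJ0 : ∀ q ∈ J, (0 : ℝ) ≤ ((q.2 - q.1 : ℤ) : ℝ) := by
    intro q hq
    have := (hJ q hq).1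
    exact_mod_cast (by linarith : (0 : ℤ) ≤ q.2 - q.1)
  have hS0 : 0 ≤ ∑ q ∈ J, ((q.2 - q.1 : ℤ) : ℝ) := Finset.sum_nonneg hJ0
  have hfree : ∀ j, Free n J j → Metric.infDist (toPlane (p j))
      (convexHull ℝ (Set.range (fun k => toPlane (p (ι k))))) ≤ 40 * n / M := by
    intro j hj
    have h1 := hull_near hM (z := fun k => toPlane (p (ι k))) (x := toPlane (p j)) (ρ := 0)
      (D := n) le_rfl (fun k => norm_p hp _ _) (fun k => by
        rw [add_zero]; exact hι k j hj)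
    refine h1.trans ?_
    rw [zero_add, div_mul_eq_mul_div]
    apply div_le_div_of_nonneg_right _ hM0.le
    linarith
  by_cases hi : Free n J i
  · have := hfree i hi
    linarith
  · unfold Free at hi
    push Not at hi
    obtain ⟨q, hq, m, h1, h2⟩ := hi
    have h3 := hfree q.1 (free_left hn hJ hJd hq)
    have h4 : Metric.infDist (toPlane (p i))
        (convexHull ℝ (Set.range (fun k => toPlane (p (ι k))))) ≤
        Metric.infDist (toPlane (p q.1)) (convexHull ℝ (Set.range (fun k => toPlane (p (ι k))))) +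
          dist (toPlane (p i)) (toPlane (p q.1)) := Metric.infDist_le_infDist_add_dist
    have h5 : dist (toPlane (p i)) (toPlane (p q.1)) ≤ ((q.2 - q.1 : ℤ) : ℝ) := by
      rw [dist_eq_norm, ← per_mul hp i m]
      refine (norm_p' hp _ _).trans ?_
      rw [← Int.cast_abs]
      have : |i + m * n - q.1| ≤ q.2 - q.1 := by rw [abs_le]; constructor <;> linarith
      exact_mod_cast this
    have h6 : ((q.2 - q.1 : ℤ) : ℝ) ≤ ∑ q ∈ J, ((q.2 - q.1 : ℤ) : ℝ) :=
      Finset.single_le_sum (f := fun q : ℤ × ℤ => ((q.2 - q.1 : ℤ) : ℝ)) hJ0 hq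
    linarith

/-- the deep points are close to the hull of the marks -/
lemma near_K (hp : Cont G n p) {M : ℕ} (hM : 1 ≤ M) {L : ℕ} {J : Finset (ℤ × ℤ)}
    {ι : Fin M → ℤ} (hι : ∀ (k : Fin M) (i : ℤ), Free n J i →
        inner ℝ (dir M k) (toPlane (p i)) ≤ inner ℝ (dir M k) (toPlane (p (ι k))))
    {x : Site} (hx : x ∈ G) (hnear : ∀ u : Plane, ∃ i : ℤ, Free n J i ∧
        inner ℝ u (toPlane x) ≤ inner ℝ u (toPlane (p i)) + ‖u‖ * (L + 4)) :
    Metric.infDist (toPlane x) (convexHull ℝ (Set.range (fun k => toPlane (p (ι k)))))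
      ≤ L + 4 + 40 * n / M := by
  have hn : 0 < n := by have := hp.pos; omega
  have hM0 : (0 : ℝ) < M := by exact_mod_cast hM
  have hn0 : (0 : ℝ) < n := by exact_mod_cast hn
  have h1 := hull_near hM (z := fun k => toPlane (p (ι k))) (x := toPlane x) (ρ := L + 4)
      (D := 3 * n) (by positivity) (fun k => norm_G hp hx _) (fun k => by
        obtain ⟨i, h2, h3⟩ := hnear (dir M k)
        rw [norm_dir, one_mul] at h3
        have := hι k i h2
        linarith)
  refine h1.trans ?_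
  have : 7 / (M : ℝ) * (3 * n) ≤ 40 * n / M := by
    rw [div_mul_eq_mul_div]
    apply div_le_div_of_nonneg_right _ hM0.le
    linarith
  linarith

end GeoB

end Pool.Agent.WSB71
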