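import Pool.Agent.WSB71.UAcct
import Pool.Agent.WSB71.UGeoTau

/-!
# UB: the blocks of one portion
-/

open MeasureTheory Filter Topology
open scoped NNReal ENNReal

namespace Pool.Agent.WSB71

open Pool.Agent.LT

namespace GeoB

/-- contaminated blocks -/
def Bad (n : ℕ) (J : Finset (ℤ × ℤ)) (s s' : ℤ) : Prop :=
  ∃ q ∈ J, ∃ i, s ≤ i ∧ i ≤ s' ∧ NearArc n q i

lemma nearArc_shift {n : ℕ} {q : ℤ × ℤ} {i m : ℤ} : NearArc n q (i + m * n) ↔ NearArc n q i := by
  constructor
  · rintro ⟨a, h1, h2⟩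
    exact ⟨a + m, by linarith, by linarith⟩
  · rintro ⟨a, h1, h2⟩
    exact ⟨a - m, by linarith, by linarith⟩

/-- few block ends in a short interval -/
lemma few_ends {k : ℕ} {c : ℕ → ℤ} (hc : ∀ i < k, c i < c (i + 1)) {L : ℕ} (hL : 1 ≤ L)
    {T : Finset ℕ} (hT : ∀ t ∈ T, t < k ∧ (L : ℤ) ≤ c (t + 1) - c t) {A : ℤ} (W : ℕ)
    (hA : ∀ t ∈ T, A ≤ c t ∧ c t < A + W * L) : T.card ≤ W := by
  have hmono : ∀ i j, i ≤ j → j ≤ k → c i ≤ c j := by
    intro i j hij hj
    induction j with
    | zero => have : i = 0 := by omega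
              rw [this]
    | succ j ih =>
      rcases Nat.lt_or_ge j i with h | h
      · have : i = j + 1 := by omega
        rw [this]
      · exact (ih h (by omega)).trans (hc j (by omega)).le
  have hL0 : (0 : ℤ) < L := by exact_mod_cast hL
  rw [← Finset.card_range W]
  refine Finset.card_le_card_of_injOn (fun t => ((c t - A) / L).toNat) ?_ ?_
  · intro t ht
    have h := hA t ht
    have h4 : 0 ≤ (c t - A) / L := Int.ediv_nonneg (by omega) (by omega)
    have h3 : (c t - A) / L < W := by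
      rw [Int.ediv_lt_iff_lt_mul hL0]
      linarith
    simp only [Finset.coe_range, Set.mem_Iio]
    omega
  · intro t ht t' ht' heq
    by_contra hne
    have h := hA t ht
    have h' := hA t' ht'
    have h4 : 0 ≤ (c t - A) / L := Int.ediv_nonneg (by omega) (by omega)
    have h5 : 0 ≤ (c t' - A) / L := Int.ediv_nonneg (by omega) (by omega)
    have h6 : (c t - A) / L = (c t' - A) / L := by
      simp only at heq
      omega
    have e1 := Int.emod_add_mul_ediv (c t - A) L
    have e2 := Int.emod_add_mul_ediv (c t' - A) L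
    rw [h6] at e1
    have b1 := Int.emod_nonneg (c t - A) hL0.ne'
    have b2 := Int.emod_lt_of_pos (c t - A) hL0
    have b3 := Int.emod_nonneg (c t' - A) hL0.ne'
    have b4 := Int.emod_lt_of_pos (c t' - A) hL0
    rcases lt_or_gt_of_ne hne with g | g
    · have := (hT t ht).2
      have := hmono (t + 1) t' (by omega) (hT t' ht').1.le
      linarith
    · have := (hT t' ht').2
      have := hmono (t' + 1) t (by omega) (hT t ht).1.le
      linarith

/-- regular points -/
lemma reg_of {p : ℤ → Site} (hp : ∀ i, Adj (p i) (p (i + 1))) {r : ℕ} {F : Set ℤ}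
    (hF : ∀ i, Tr p r (i + 1) < Tr p r i → i ∈ F) {a b s : ℤ} (h : RegPt F a b s) (i : ℤ) :
    (s ≤ i → i ≤ b → 3 * (i - s) ≤ 4 * (Tr p r i - Tr p r s)) ∧
    (a ≤ i → i ≤ s → 3 * (s - i) ≤ 4 * (Tr p r s - Tr p r i)) := by
  constructor
  · intro h1 h2
    have h3 := h.1 i h1 h2
    have h4 := Tr_inc hp r hF h1
    linarith
  · intro h1 h2
    have h3 := h.2 i h1 h2
    have h4 := Tr_inc hp r hF h2
    linarith

open Classical in
/-- **The blocks of one portion.** -/
theorem portion {β η : ℝ} (hβ : 1 ≤ β) (hη : 0 < η) (hη' : 2000 * η ≤ 1)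
    (hlow : ∀ v c, Realizable β v c → β / 2 * ‖toPlane v‖ ≤ c)
    (hflat : Realizable β (0, 1) ((1 + η) * β)) {n : ℕ} {p : ℤ → Site}
    (hper : ∀ i m : ℤ, p (i + m * n) = p i) (hn : 0 < n)
    (hadj : ∀ i, Adj (p i) (p (i + 1))) {L : ℕ} (hL : 1 ≤ L) {J : Finset (ℤ × ℤ)}
    (hJ4 : ∀ i i' : ℤ, 4 * sd (p i) (p i') ≤ L → i + 4 * L ≤ i' → i' + 4 * L ≤ i + n →
        (∃ q ∈ J, NearArc n q i ∧ NearArc n q i'))
    {a b : ℤ} (hab : a < b) (hbn : b ≤ a + n) {Ja : Finset (ℤ × ℤ)} (hJa : Ja ⊆ J)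
    (hJa' : ∀ q ∈ Ja, a ≤ q.1 ∧ q.2 ≤ b ∧ q.1 + 4 * L ≤ q.2 ∧ 4 * sd (p q.1) (p q.2) ≤ L)
    (hJd : ∀ q ∈ Ja, ∀ q' ∈ Ja, q ≠ q' → q.2 ≤ q'.1 ∨ q'.2 ≤ q.1) :
    ∃ (r k : ℕ) (c : ℕ → ℤ) (El : Finset ℕ), r < 4 ∧ c 0 = a ∧ c k = b ∧
      (∀ i < k, c i < c (i + 1)) ∧ (k * L : ℤ) ≤ b - a + 2 * L ∧ (∀ i ∈ El, i < k) ∧
      (∀ i ∈ El, Elig n p L a b r (c i) (c (i + 1))) ∧
      ∀ Ex : Finset ℕ, Ex ⊆ El →
        tau β (toPlane (p b - p a)) + β / 2 * ∑ q ∈ Ja, ((q.2 - q.1 : ℤ) : ℝ) ≤
          ∑ i ∈ Finset.range k, (if i ∈ Ex then tau β (toPlane (p (c (i + 1)) - p (c i)))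
            else (1 - η) * β * ((c (i + 1) - c i : ℤ) : ℝ)) +
          4 * η * β * L * (((El \ Ex).card : ℝ) + 10 + (((Finset.range k).filter (fun i =>
            (L : ℤ) ≤ c (i + 1) - c i ∧ Bad n J (c i) (c (i + 1)))).card : ℝ)) := by
  have hβ0 : 0 ≤ β := by linarith
  obtain ⟨r, hr4, hr1, hr2⟩ := exists_rd (p b - p a)
  obtain ⟨w, hw0, hw1, hwv, hwu⟩ := exists_normal hβ0 hlow hflat hr1 hr2
  set F := Flags p r Ja with hF
  have hF' : ∀ i, Tr p r (i + 1) < Tr p r i → i ∈ F := fun i hi => Or.inr hi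
  obtain ⟨k, c, hc0, hck, hc, hkL, e, he⟩ := exists_blocks (F := F) hab.le hL
  have hmono : ∀ i j, i ≤ j → j ≤ k → c i ≤ c j := by
    intro i j hij hj
    induction j with
    | zero => have : i = 0 := by omega
              rw [this]
    | succ j ih =>
      rcases Nat.lt_or_ge j i with h | h
      · have : i = j + 1 := by omega
        rw [this]
      · exact (ih h (by omega)).trans (hc j (by omega)).le
  have hrange : ∀ i, i ≤ k → a ≤ c i ∧ c i ≤ b := by
    intro i hi
    rw [← hc0, ← hck]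
    exact ⟨hmono 0 i (by omega) hi, hmono i k hi le_rfl⟩
  set El := (Finset.range k).filter (fun i => RegPt F a b (c i) ∧ RegPt F a b (c (i + 1)) ∧
    (L : ℤ) ≤ c (i + 1) - c i ∧ c (i + 1) - c i ≤ 2 * L ∧
    200 * (nfl F (c i) (c (i + 1)) : ℤ) ≤ c (i + 1) - c i ∧ a + 4 * L ≤ c i ∧
    c (i + 1) + 4 * L ≤ b ∧ ¬ Bad n J (c i) (c (i + 1))) with hEl
  have hElm : ∀ i ∈ El, i < k ∧ RegPt F a b (c i) ∧ RegPt F a b (c (i + 1)) ∧
    (L : ℤ) ≤ c (i + 1) - c i ∧ c (i + 1) - c i ≤ 2 * L ∧
    200 * (nfl F (c i) (c (i + 1)) : ℤ) ≤ c (i + 1) - c i ∧ a + 4 * L ≤ c i ∧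
    c (i + 1) + 4 * L ≤ b ∧ ¬ Bad n J (c i) (c (i + 1)) := by
    intro i hi
    rw [hEl, Finset.mem_filter, Finset.mem_range] at hi
    exact hi
  have hn' : (0 : ℤ) < n := by exact_mod_cast hn
  refine ⟨r, k, c, El, hr4, hc0, hck, hc, hkL, fun i hi => (hElm i hi).1, ?_, ?_⟩
  · -- eligibility
    intro i hi
    obtain ⟨h1, h2, h3, h4, h5, h6, h7, h8, h9⟩ := hElm i hi
    refine ⟨hbn, h7, h8, ⟨by linarith, by linarith⟩, reg_of hadj hF' h2, reg_of hadj hF' h3,
      ?_, ?_⟩
    · have := Tr_inc hadj r hF' (hc i h1).le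
      linarith
    · intro j hj1 hj2 i' hsd
      -- reduce `i'` modulo `n`
      have e1 := Int.emod_add_mul_ediv (i' - j) n
      have b1 := Int.emod_nonneg (i' - j) hn'.ne'
      have b2 := Int.emod_lt_of_pos (i' - j) hn'
      set m := (i' - j) / n with hm
      set i'' := i' + (-m) * n with hi''
      have e2 : i'' = j + (i' - j) % n := by rw [hi'']; linear_combination -e1
      rcases lt_or_ge i'' (j + 4 * L) with g1 | g1
      · refine ⟨-m, ?_⟩
        have : j - i' - -m * n = -((i' - j) % n) := by linear_combination e1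
        rw [this, abs_neg, abs_of_nonneg b1]
        linarith
      rcases lt_or_ge (j + n) (i'' + 4 * L) with g2 | g2
      · refine ⟨-m - 1, ?_⟩
        have : j - i' - (-m - 1) * n = n - ((i' - j) % n) := by linear_combination e1
        rw [this, abs_of_nonneg (by linarith)]
        linarith
      exfalso
      obtain ⟨q, hq, hq1, -⟩ := hJ4 j i'' (by rw [hi'', hper]; exact hsd) g1 g2
      exact h9 ⟨q, hq, j, hj1, hj2, hq1⟩
  · intro Ex hEx
    have hacct := acct hβ0 hη.le hη' hadj hL r hw0 hw1 hab.le hJa' hJd hc0 hck hc (Ex := Ex)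
      (by
        intro i hi
        obtain ⟨h1, h2, h3, h4, h5, h6, h7, h8, h9⟩ := hElm i (hEx hi)
        refine ⟨h1, fun q hq => ?_⟩
        by_contra hcon
        push Not at hcon
        have hq' := hJa' q hq
        have hci := hc i h1
        refine h9 ⟨q, hJa hq, max (c i) q.1, le_max_left _ _, max_le hci.le hcon.1.le, 0, ?_, ?_⟩
        · have := le_max_right (c i) q.1
          rw [zero_mul, add_zero]
          have : (0 : ℤ) ≤ 4 * L := by positivity
          linarith
        · rw [zero_mul, add_zero]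
          have : (0 : ℤ) ≤ 4 * L := by positivity
          refine max_le ?_ ?_ <;> linarith)
      (by
        intro i hi _
        rcases he i hi with h | h | h
        · exact Or.inr h.2.2.2
        · exact Or.inl h
        · exact Or.inr h.2)
    -- the blocks with a deficit
    set D := (Finset.range k).filter (fun i => i ∉ Ex ∧
        200 * (nfl (Flags p r Ja) (c i) (c (i + 1)) : ℤ) < c (i + 1) - c i) with hD
    set T1 := (Finset.range k).filter (fun i => (L : ℤ) ≤ c (i + 1) - c i ∧ c i < a + 4 * L) with hT1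
    set T2 := (Finset.range k).filter (fun i => (L : ℤ) ≤ c (i + 1) - c i ∧
      b < c (i + 1) + 4 * L ∧ c (i + 1) - c i ≤ 2 * L) with hT2
    set T3 := (Finset.range k).filter (fun i =>
            (L : ℤ) ≤ c (i + 1) - c i ∧ Bad n J (c i) (c (i + 1))) with hT3
    have hsub : D ⊆ ((((El \ Ex) ∪ T1) ∪ T2) ∪ T3) ∪ {e} := by
      intro i hi
      obtain ⟨h1, h2, h3⟩ := Finset.mem_filter.1 hi
      rw [Finset.mem_range] at h1
      simp only [Finset.mem_union, Finset.mem_singleton, Finset.mem_sdiff]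
      rcases he i h1 with h | h | h
      · obtain ⟨g1, g2, g3, g4⟩ := h
        by_cases u1 : c i < a + 4 * L
        · left; left; left; right
          rw [hT1, Finset.mem_filter, Finset.mem_range]
          exact ⟨h1, g3, u1⟩
        by_cases u2 : b < c (i + 1) + 4 * L
        · left; left; right
          rw [hT2, Finset.mem_filter, Finset.mem_range]
          exact ⟨h1, g3, u2, g4⟩
        by_cases u3 : Bad n J (c i) (c (i + 1))
        · left; right
          rw [hT3, Finset.mem_filter, Finset.mem_range]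
          exact ⟨h1, g3, u3⟩
        · left; left; left; left
          refine ⟨?_, h2⟩
          rw [hEl, Finset.mem_filter, Finset.mem_range]
          exact ⟨h1, g1, g2, g3, g4, h3.le, not_lt.1 u1, not_lt.1 u2, u3⟩
      · exfalso
        have := hc i h1
        have h4 : (nfl (Flags p r Ja) (c i) (c (i + 1)) : ℤ) = (nfl F (c i) (c (i + 1)) : ℤ) := rfl
        rw [h4] at h3
        linarith
      · right; exact h.1
    have hc1 : T1.card ≤ 4 := by
      refine few_ends hc hL (fun t ht => ?_) (A := a) 4 (fun t ht => ?_)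
      · rw [hT1, Finset.mem_filter, Finset.mem_range] at ht
        exact ⟨ht.1, ht.2.1⟩
      · rw [hT1, Finset.mem_filter, Finset.mem_range] at ht
        exact ⟨(hrange t ht.1.le).1, ht.2.2⟩
    have hc2 : T2.card ≤ 5 := by
      refine few_ends hc hL (fun t ht => ?_) (A := b - 6 * L + 1) 5 (fun t ht => ?_)
      · rw [hT2, Finset.mem_filter, Finset.mem_range] at ht
        exact ⟨ht.1, ht.2.1⟩
      · rw [hT2, Finset.mem_filter, Finset.mem_range] at ht
        have := (hrange (t + 1) ht.1).2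
        obtain ⟨-, t1, t2, t3⟩ := ht
        constructor
        · linarith
        · push_cast
          linarith
    have hD0 : D.card ≤ (El \ Ex).card + 10 + T3.card := by
      refine (Finset.card_le_card hsub).trans ?_
      have u1 := Finset.card_union_le ((((El \ Ex) ∪ T1) ∪ T2) ∪ T3) {e}
      have u2 := Finset.card_union_le (((El \ Ex) ∪ T1) ∪ T2) T3
      have u3 := Finset.card_union_le ((El \ Ex) ∪ T1) T2
      have u4 := Finset.card_union_le (El \ Ex) T1
      rw [Finset.card_singleton] at u1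
      omega
    have hD1 : (D.card : ℝ) ≤ ((El \ Ex).card : ℝ) + 10 + (T3.card : ℝ) := by
      exact_mod_cast hD0
    have hco : 0 ≤ 4 * η * β * L := by positivity
    have hsum : ∑ i ∈ Finset.range k, (if i ∈ Ex then sp w (rd r (p (c (i + 1)) - p (c i)))
        else (1 - η) * β * ((c (i + 1) - c i : ℤ) : ℝ)) ≤
        ∑ i ∈ Finset.range k, (if i ∈ Ex then tau β (toPlane (p (c (i + 1)) - p (c i)))
            else (1 - η) * β * ((c (i + 1) - c i : ℤ) : ℝ)) := by
      refine Finset.sum_le_sum fun i _ => ?_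
      split_ifs
      · rw [← tau_rd hβ0 hlow hflat r]
        exact hwu _
      · exact le_rfl
    have hv : sp w (rd r (p b - p a)) = tau β (toPlane (p b - p a)) := by
      rw [← tau_rd hβ0 hlow hflat r]
      exact hwv
    rw [hv] at hacct
    have := mul_le_mul_of_nonneg_left hD1 hco
    linarith

end GeoB

end Pool.Agent.WSB71
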