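import Pool.Agent.WSB71.UGeoCount
import Pool.Agent.WSB71.UGeoPort

/-!
# UB: concatenation of the portions
-/

open MeasureTheory Filter Topology
open scoped NNReal ENNReal

namespace Pool.Agent.WSB71

open Pool.Agent.LT

namespace GeoB

/-- the marks in increasing order -/
lemma sorted_marks {n : ℤ} {I : Finset ℤ} (hI : I.Nonempty) (hI' : ∀ i ∈ I, 0 ≤ i ∧ i < n) :
    ∃ (R : ℕ) (μ : ℕ → ℤ), 1 ≤ R ∧ R ≤ I.card ∧ (∀ j < R, μ j < μ (j + 1)) ∧ μ R = μ 0 + n ∧
      (∀ j < R, μ j ∈ I) ∧ ∀ i ∈ I, ∃ j < R, μ j = i := by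
  have hR : 0 < I.card := hI.card_pos
  set f := I.orderEmbOfFin rfl with hf
  have hfm : ∀ j, f j ∈ I := fun j => I.orderEmbOfFin_mem rfl j
  refine ⟨I.card, fun j => if h : j < I.card then f ⟨j, h⟩ else f ⟨0, hR⟩ + n, hR, le_rfl,
    ?_, ?_, ?_, ?_⟩
  · intro j hj
    simp only [dif_pos hj]
    split_ifs with h
    · exact f.strictMono (by simp [Fin.lt_def])
    · have h1 := hI' _ (hfm ⟨j, hj⟩)
      have h2 := hI' _ (hfm ⟨0, hR⟩)
      omega
  · simp [hR]
  · intro j hj
    simp only [dif_pos hj]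
    exact hfm _
  · intro i hi
    have h1 : i ∈ Set.range f := by
      rw [hf, Finset.range_orderEmbOfFin]
      exact hi
    obtain ⟨j, rfl⟩ := h1
    exact ⟨j, j.2, by simp [j.2]⟩

open Classical in
/-- the terms of the cost -/
noncomputable def trm (β η : ℝ) (n : ℕ) (p : ℤ → Site) (L : ℕ) (J : Finset (ℤ × ℤ)) (A B : Prop)
    (s s' : ℤ) : ℝ :=
  (if A then tau β (toPlane (p s' - p s)) else (1 - η) * β * ((s' - s : ℤ) : ℝ)) +
    4 * η * β * L * ((if B ∧ ¬ A then 1 else 0) +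
      (if (L : ℤ) ≤ s' - s ∧ Bad n J s s' then 1 else 0))

open Classical in
lemma trm_sum {β η : ℝ} {n : ℕ} {p : ℤ → Site} {L : ℕ} {J : Finset (ℤ × ℤ)} {k : ℕ} {c : ℕ → ℤ}
    {El Ex : Finset ℕ} (hEl : ∀ i ∈ El, i < k) :
    ∑ i ∈ Finset.range k, trm β η n p L J (i ∈ Ex) (i ∈ El) (c i) (c (i + 1)) =
      ∑ i ∈ Finset.range k, (if i ∈ Ex then tau β (toPlane (p (c (i + 1)) - p (c i)))
            else (1 - η) * β * ((c (i + 1) - c i : ℤ) : ℝ)) +
          4 * η * β * L * (((El \ Ex).card : ℝ) + (((Finset.range k).filter (fun i =>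
            (L : ℤ) ≤ c (i + 1) - c i ∧ Bad n J (c i) (c (i + 1)))).card : ℝ)) := by
  have h1 : ∑ i ∈ Finset.range k, (if i ∈ El ∧ i ∉ Ex then (1 : ℝ) else 0) =
      ((El \ Ex).card : ℝ) := by
    rw [← Finset.sum_filter, Finset.sum_const, nsmul_eq_mul, mul_one]
    congr 2
    ext i
    simp only [Finset.mem_filter, Finset.mem_range, Finset.mem_sdiff]
    constructor
    · exact fun h => h.2
    · exact fun h => ⟨hEl i h.1, h⟩
  have h2 : ∑ i ∈ Finset.range k, (if (L : ℤ) ≤ c (i + 1) - c i ∧ Bad n J (c i) (c (i + 1)) then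
      (1 : ℝ) else 0) = (((Finset.range k).filter (fun i =>
            (L : ℤ) ≤ c (i + 1) - c i ∧ Bad n J (c i) (c (i + 1)))).card : ℝ) := by
    rw [← Finset.sum_filter, Finset.sum_const, nsmul_eq_mul, mul_one]
  rw [← h1, ← h2, ← Finset.sum_add_distrib, Finset.mul_sum, ← Finset.sum_add_distrib]
  refine Finset.sum_congr rfl fun i _ => ?_
  unfold trm
  by_cases g1 : i ∈ Ex <;> by_cases g2 : i ∈ El <;>
    by_cases g3 : (L : ℤ) ≤ c (i + 1) - c i ∧ Bad n J (c i) (c (i + 1)) <;> simp [g1, g2, g3]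

open Classical in
/-- **Concatenation of the portions.** -/
theorem concat {β η : ℝ} (hβ : 1 ≤ β) (hη : 0 < η) (hη' : 2000 * η ≤ 1)
    (hlow : ∀ v c, Realizable β v c → β / 2 * ‖toPlane v‖ ≤ c)
    (hflat : Realizable β (0, 1) ((1 + η) * β)) {n : ℕ} {p : ℤ → Site}
    (hper : ∀ i m : ℤ, p (i + m * n) = p i) (hn : 0 < n)
    (hadj : ∀ i, Adj (p i) (p (i + 1))) {L : ℕ} (hL : 1 ≤ L) {J : Finset (ℤ × ℤ)}
    (hJ : ∀ q ∈ J, q.1 + 4 * L ≤ q.2 ∧ 4 * sd (p q.1) (p q.2) ≤ L)
    (hJd : ∀ q ∈ J, ∀ q' ∈ J, q ≠ q' → q.2 ≤ q'.1 ∨ q'.2 ≤ q.1)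
    (hJ4 : ∀ i i' : ℤ, 4 * sd (p i) (p i') ≤ L → i + 4 * L ≤ i' → i' + 4 * L ≤ i + n →
        (∃ q ∈ J, NearArc n q i ∧ NearArc n q i'))
    {R : ℕ} {μ : ℕ → ℤ} (hμ : ∀ j < R, μ j < μ (j + 1)) (hμR : μ R ≤ μ 0 + n)
    (hJμ : ∀ q ∈ J, μ 0 ≤ q.1 ∧ ∀ j < R, q.1 < μ (j + 1) → q.2 ≤ μ (j + 1)) :
    ∃ (r : ℕ → ℕ) (k : ℕ) (c : ℕ → ℤ) (jj : ℕ → ℕ) (El : Finset ℕ), (∀ j, r j < 4) ∧ c 0 = μ 0 ∧
      c k = μ R ∧ (∀ i < k, c i < c (i + 1)) ∧ (k * L : ℤ) ≤ μ R - μ 0 + 2 * (R * L) ∧
      (∀ i ∈ El, i < k) ∧ (∀ i ∈ El, jj i < R ∧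
        Elig n p L (μ (jj i)) (μ (jj i + 1)) (r (jj i)) (c i) (c (i + 1))) ∧
      ∀ Ex : Finset ℕ, Ex ⊆ El →
        ∑ j ∈ Finset.range R, tau β (toPlane (p (μ (j + 1)) - p (μ j))) +
          β / 2 * ∑ q ∈ J, (if q.1 < μ R then ((q.2 - q.1 : ℤ) : ℝ) else 0) ≤
          ∑ i ∈ Finset.range k, trm β η n p L J (i ∈ Ex) (i ∈ El) (c i) (c (i + 1)) +
            4 * η * β * L * (10 * R) := by
  have hmono : ∀ i j, i ≤ j → j ≤ R → μ i ≤ μ j := fun i j hij hj => strict hμ hij hj
  have hport : ∀ j : ℕ, ∃ (r k : ℕ) (c : ℕ → ℤ) (El : Finset ℕ), j < R →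
      (r < 4 ∧ c 0 = μ j ∧ c k = μ (j + 1) ∧
      (∀ i < k, c i < c (i + 1)) ∧ (k * L : ℤ) ≤ μ (j + 1) - μ j + 2 * L ∧ (∀ i ∈ El, i < k) ∧
      (∀ i ∈ El, Elig n p L (μ j) (μ (j + 1)) r (c i) (c (i + 1))) ∧
      ∀ Ex : Finset ℕ, Ex ⊆ El →
        tau β (toPlane (p (μ (j + 1)) - p (μ j))) +
          β / 2 * ∑ q ∈ J, (if μ j ≤ q.1 ∧ q.1 < μ (j + 1) then ((q.2 - q.1 : ℤ) : ℝ) else 0) ≤
          ∑ i ∈ Finset.range k, trm β η n p L J (i ∈ Ex) (i ∈ El) (c i) (c (i + 1)) +
            4 * η * β * L * 10) := by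
    intro j
    by_cases hj : j < R
    · have h1 : μ (j + 1) ≤ μ j + n := by
        have a1 := hmono (j + 1) R hj le_rfl
        have a2 := hmono 0 j (by omega) hj.le
        linarith
      obtain ⟨r, k, c, El, b1, b2, b3, b4, b5, b6, b7, b8⟩ := portion hβ hη hη' hlow hflat hper hn
        hadj hL hJ4 (hμ j hj) h1 (Ja := J.filter (fun q => μ j ≤ q.1 ∧ q.1 < μ (j + 1)))
        (Finset.filter_subset _ _)
        (fun q hq => by
          rw [Finset.mem_filter] at hq
          exact ⟨hq.2.1, (hJμ q hq.1).2 j hj hq.2.2, hJ q hq.1⟩)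
        (fun q hq q' hq' hne => hJd q (Finset.mem_filter.1 hq).1 q' (Finset.mem_filter.1 hq').1 hne)
      refine ⟨r, k, c, El, fun _ => ⟨b1, b2, b3, b4, b5, b6, b7, fun Ex hEx => ?_⟩⟩
      have h2 := b8 Ex hEx
      rw [trm_sum b6]
      rw [Finset.sum_filter] at h2
      refine h2.trans (le_of_eq ?_)
      ring
    · exact ⟨0, 0, fun _ => 0, ∅, fun h => absurd h hj⟩
  choose r kk cc EE hP using hport
  -- induction
  have key : ∀ R' ≤ R, ∃ (k : ℕ) (c : ℕ → ℤ) (jj : ℕ → ℕ) (El : Finset ℕ), c 0 = μ 0 ∧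
      c k = μ R' ∧ (∀ i < k, c i < c (i + 1)) ∧ (k * L : ℤ) ≤ μ R' - μ 0 + 2 * (R' * L) ∧
      (∀ i ∈ El, i < k) ∧ (∀ i ∈ El, jj i < R' ∧
        Elig n p L (μ (jj i)) (μ (jj i + 1)) (r (jj i)) (c i) (c (i + 1))) ∧
      ∀ Ex : Finset ℕ, Ex ⊆ El →
        ∑ j ∈ Finset.range R', tau β (toPlane (p (μ (j + 1)) - p (μ j))) +
          β / 2 * ∑ q ∈ J, (if q.1 < μ R' then ((q.2 - q.1 : ℤ) : ℝ) else 0) ≤
          ∑ i ∈ Finset.range k, trm β η n p L J (i ∈ Ex) (i ∈ El) (c i) (c (i + 1)) +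
            4 * η * β * L * (10 * R') := by
    intro R'
    induction R' with
    | zero =>
      intro _
      refine ⟨0, fun _ => μ 0, fun _ => 0, ∅, rfl, rfl, fun i hi => absurd hi (by omega), by simp,
        by simp, by simp, ?_⟩
      intro Ex _
      have h0 : ∑ q ∈ J, (if q.1 < μ 0 then ((q.2 - q.1 : ℤ) : ℝ) else 0) = 0 := by
        refine Finset.sum_eq_zero fun q hq => ?_
        rw [if_neg (not_lt.2 (hJμ q hq).1)]
      rw [h0]
      simp
    | succ R' ih =>
      intro hR'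
      obtain ⟨k, c, jj, El, g1, g2, g3, g4, g5, g6, g7⟩ := ih (by omega)
      obtain ⟨b1, b2, b3, b4, b5, b6, b7, b8⟩ := hP R' (by omega)
      set k' := kk R' with hk'
      set c' := cc R' with hc'
      set El' := EE R' with hEl'
      set C : ℕ → ℤ := fun t => if t < k then c t else c' (t - k) with hC
      have hA : ∀ t ≤ k, C t = c t := by
        intro t ht
        rcases ht.lt_or_eq with h | h
        · simp only [hC, if_pos h]
        · subst h
          simp only [hC, lt_irrefl, if_false, Nat.sub_self]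
          rw [b2, g2]
      have hB : ∀ s, C (k + s) = c' s := by
        intro s
        simp only [hC, Nat.not_lt.2 (Nat.le_add_right k s), if_false, Nat.add_sub_cancel_left]
      set EL : Finset ℕ := El ∪ El'.image (fun s => k + s) with hEL
      have hmem1 : ∀ i < k, i ∈ EL ↔ i ∈ El := by
        intro i hi
        rw [hEL, Finset.mem_union, Finset.mem_image]
        constructor
        · rintro (h | ⟨s, -, h⟩)
          · exact h
          · omega
        · exact Or.inl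
      have hmem2 : ∀ s, k + s ∈ EL ↔ s ∈ El' := by
        intro s
        rw [hEL, Finset.mem_union, Finset.mem_image]
        constructor
        · rintro (h | ⟨s', h1, h2⟩)
          · have := g5 _ h
            omega
          · have : s' = s := by omega
            rwa [this] at h1
        · exact fun h => Or.inr ⟨s, h, rfl⟩
      refine ⟨k + k', C, fun t => if t < k then jj t else R', EL, ?_, ?_, ?_, ?_, ?_, ?_, ?_⟩
      · rw [hA 0 (Nat.zero_le _), g1]
      · rw [hB, b3]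
      · intro i hi
        rcases Nat.lt_or_ge i k with h | h
        · rw [hA i h.le, hA (i + 1) h]
          exact g3 i h
        · obtain ⟨s, rfl⟩ := Nat.exists_eq_add_of_le h
          rw [hB, Nat.add_assoc, hB]
          exact b4 s (by omega)
      · push_cast
        linarith
      · intro i hi
        rcases Finset.mem_union.1 hi with h | h
        · have := g5 i h
          omega
        · obtain ⟨s, h1, rfl⟩ := Finset.mem_image.1 h
          have := b6 s h1
          omega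
      · intro i hi
        rcases Nat.lt_or_ge i k with h | h
        · have h1 := g6 i ((hmem1 i h).1 hi)
          rw [hA i h.le, hA (i + 1) h]
          simp only [if_pos h]
          exact ⟨by omega, h1.2⟩
        · obtain ⟨s, rfl⟩ := Nat.exists_eq_add_of_le h
          have h1 := b7 s ((hmem2 s).1 hi)
          rw [hB, Nat.add_assoc, hB]
          simp only [Nat.not_lt.2 (Nat.le_add_right k s), if_false]
          exact ⟨by omega, h1⟩
      · intro Ex hEx
        have h1 := g7 (Ex.filter (fun i => i < k)) (by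
          intro i hi
          rw [Finset.mem_filter] at hi
          exact (hmem1 i hi.2).1 (hEx hi.1))
        have h2 := b8 ((Finset.range k').filter (fun s => k + s ∈ Ex)) (by
          intro s hs
          rw [Finset.mem_filter] at hs
          exact (hmem2 s).1 (hEx hs.2))
        rw [Finset.sum_range_succ, Finset.sum_range_add]
        have e1 : ∑ i ∈ Finset.range k, trm β η n p L J (i ∈ Ex) (i ∈ EL) (C i) (C (i + 1)) =
            ∑ i ∈ Finset.range k, trm β η n p L J (i ∈ Ex.filter (fun i => i < k)) (i ∈ El)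
              (c i) (c (i + 1)) := by
          refine Finset.sum_congr rfl fun i hi => ?_
          rw [Finset.mem_range] at hi
          rw [hA i hi.le, hA (i + 1) hi, hmem1 i hi]
          congr 1
          rw [Finset.mem_filter]
          exact propext ⟨fun h => ⟨h, hi⟩, fun h => h.1⟩
        have e2 : ∑ s ∈ Finset.range k', trm β η n p L J (k + s ∈ Ex) (k + s ∈ EL) (C (k + s))
            (C (k + s + 1)) =
            ∑ s ∈ Finset.range k', trm β η n p L J
              (s ∈ (Finset.range k').filter (fun s => k + s ∈ Ex)) (s ∈ El')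
              (c' s) (c' (s + 1)) := by
          refine Finset.sum_congr rfl fun s hs => ?_
          rw [hB, Nat.add_assoc, hB, hmem2 s]
          congr 1
          rw [Finset.mem_filter]
          exact propext ⟨fun h => ⟨hs, h⟩, fun h => h.2⟩
        have e3 : ∑ q ∈ J, (if q.1 < μ (R' + 1) then ((q.2 - q.1 : ℤ) : ℝ) else 0) =
            ∑ q ∈ J, (if q.1 < μ R' then ((q.2 - q.1 : ℤ) : ℝ) else 0) +
            ∑ q ∈ J, (if μ R' ≤ q.1 ∧ q.1 < μ (R' + 1) then ((q.2 - q.1 : ℤ) : ℝ) else 0) := by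
          rw [← Finset.sum_add_distrib]
          refine Finset.sum_congr rfl fun q _ => ?_
          have := hμ R' (by omega)
          by_cases u1 : q.1 < μ R'
          · rw [if_pos (by omega), if_pos u1, if_neg (by omega), add_zero]
          · by_cases u2 : q.1 < μ (R' + 1)
            · rw [if_pos u2, if_neg u1, if_pos ⟨by omega, u2⟩, zero_add]
            · rw [if_neg u2, if_neg u1, if_neg (by omega), zero_add]
        have e4 : ((R' + 1 : ℕ) : ℝ) = R' + 1 := by push_cast; ring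
        rw [e1, e2, e3, e4]
        linarith
  obtain ⟨k, c, jj, El, g1, g2, g3, g4, g5, g6, g7⟩ := key R le_rfl
  refine ⟨fun j => if j < R then r j else 0, k, c, jj, El, ?_, g1, g2, g3, g4, g5, ?_, g7⟩
  · intro j
    by_cases h : j < R
    · simp only [if_pos h]; exact (hP j h).1
    · simp only [if_neg h]; norm_num
  · intro i hi
    have h1 := g6 i hi
    refine ⟨h1.1, ?_⟩
    simp only [if_pos h1.1]
    exact h1.2

end GeoB

end Pool.Agent.WSB71
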