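import Pool.Agent.WSB71.GNear
import Pool.Agent.WSB71.GZone
import Pool.Agent.WSB71.PPper
import Pool.Agent.WSB71.UGeoBox
import Pool.Agent.WSB71.UGeoInd

/-!
# UB: marks, portions, blocks
-/

open MeasureTheory Filter Topology
open scoped NNReal ENNReal

namespace Pool.Agent.WSB71

open Pool.Agent.LT

namespace GeoB

/-- the properties of the family of arcs -/
structure Fam (n : ℕ) (p : ℤ → Site) (L : ℕ) (J : Finset (ℤ × ℤ)) : Prop where
  arc : ∀ q ∈ J, q.1 + 4 * L ≤ q.2 ∧ q.2 + 4 * L ≤ q.1 + n ∧ 4 * sd (p q.1) (p q.2) ≤ L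
  dis : ∀ q ∈ J, ∀ q' ∈ J, q ≠ q' → ∀ m : ℤ, q.2 ≤ q'.1 + m * n ∨ q'.2 + m * n ≤ q.1
  near : ∀ i i' : ℤ, 4 * sd (p i) (p i') ≤ L → i + 4 * L ≤ i' → i' + 4 * L ≤ i + n →
    (∃ q ∈ J, NearArc n q i ∧ NearArc n q i')

/-- normalisation of the arcs -/
lemma exists_norm {G : Finset Site} {n : ℕ} {p : ℤ → Site} (hp : Cont G n p) {L : ℕ}
    {J : Finset (ℤ × ℤ)} (hJ : Fam n p L J) (a : ℤ) : ∃ J' : Finset (ℤ × ℤ), Fam n p L J' ∧
      (∀ i, Free n J' i ↔ Free n J i) ∧ ∀ q ∈ J', a ≤ q.1 ∧ q.1 < a + n := by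
  classical
  have hn : (0 : ℤ) < n := by have := hp.pos; omega
  set m : ℤ × ℤ → ℤ := fun q => -((q.1 - a) / n) with hm
  set f : ℤ × ℤ → ℤ × ℤ := fun q => (q.1 + m q * n, q.2 + m q * n) with hf
  refine ⟨J.image f, ⟨?_, ?_, ?_⟩, ?_, ?_⟩
  · intro q hq
    obtain ⟨q₀, h0, rfl⟩ := Finset.mem_image.1 hq
    obtain ⟨h1, h2, h3⟩ := hJ.arc q₀ h0
    refine ⟨?_, ?_, ?_⟩
    · simp only [hf]; linarith
    · simp only [hf]; linarith
    · simp only [hf, per_mul hp]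
      exact h3
  · intro q hq q' hq' hne k
    obtain ⟨q₀, h0, rfl⟩ := Finset.mem_image.1 hq
    obtain ⟨q₁, h1, rfl⟩ := Finset.mem_image.1 hq'
    have hne' : q₀ ≠ q₁ := fun h => hne (by rw [h])
    rcases hJ.dis q₀ h0 q₁ h1 hne' (k + m q₁ - m q₀) with h | h
    · left
      simp only [hf]
      linarith
    · right
      simp only [hf]
      linarith
  · intro i i' h1 h2 h3
    obtain ⟨q, hq, ⟨a1, b1, c1⟩, ⟨a2, b2, c2⟩⟩ := hJ.near i i' h1 h2 h3
    refine ⟨f q, Finset.mem_image_of_mem f hq, ⟨a1 + m q, ?_, ?_⟩, ⟨a2 + m q, ?_, ?_⟩⟩ <;>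
      simp only [hf] <;> linarith
  · intro i
    unfold Free
    constructor
    · rintro h q hq ⟨k, h1, h2⟩
      refine h (f q) (Finset.mem_image_of_mem f hq) ⟨k + m q, ?_, ?_⟩ <;> simp only [hf] <;> linarith
    · rintro h q hq ⟨k, h1, h2⟩
      obtain ⟨q₀, h0, rfl⟩ := Finset.mem_image.1 hq
      simp only [hf] at h1 h2
      exact h q₀ h0 ⟨k - m q₀, by linarith, by linarith⟩
  · intro q hq
    obtain ⟨q₀, h0, rfl⟩ := Finset.mem_image.1 hq
    have e1 := Int.emod_add_mul_ediv (q₀.1 - a) n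
    have b1 := Int.emod_nonneg (q₀.1 - a) hn.ne'
    have b2 := Int.emod_lt_of_pos (q₀.1 - a) hn
    simp only [hf, hm]
    constructor <;> linarith

open Classical in
/-- the number of contaminated blocks -/
lemma count_bad {n : ℕ} {k : ℕ} {c : ℕ → ℤ} (hc : ∀ i < k, c i < c (i + 1)) (hk : c k = c 0 + n)
    {L : ℕ} (hL : 1 ≤ L) {J : Finset (ℤ × ℤ)} (hJ : ∀ q ∈ J, q.1 + 4 * L ≤ q.2) :
    2 * (L : ℤ) * (((Finset.range k).filter (fun i => (L : ℤ) ≤ c (i + 1) - c i ∧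
      Bad n J (c i) (c (i + 1)))).card : ℤ) ≤ 7 * ∑ q ∈ J, (q.2 - q.1) := by
  have h1 : (Finset.range k).filter (fun i => (L : ℤ) ≤ c (i + 1) - c i ∧
      Bad n J (c i) (c (i + 1))) ⊆ J.biUnion (fun q => (Finset.range k).filter (fun t =>
        (L : ℤ) ≤ c (t + 1) - c t ∧ ∃ i, c t ≤ i ∧ i ≤ c (t + 1) ∧ ∃ m : ℤ,
          q.1 - (q.2 - q.1) ≤ i + m * n ∧ i + m * n ≤ q.2 + (q.2 - q.1))) := by
    intro t ht
    obtain ⟨h1, h2, q, hq, i, h3, h4, m, h5, h6⟩ := Finset.mem_filter.1 ht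
    rw [Finset.mem_biUnion]
    refine ⟨q, hq, Finset.mem_filter.2 ⟨h1, h2, i, h3, h4, m, h5, h6⟩⟩
  have h2 := (Finset.card_le_card h1).trans Finset.card_biUnion_le
  have h3 : ∀ q ∈ J, 2 * (L : ℤ) * (((Finset.range k).filter (fun t =>
        (L : ℤ) ≤ c (t + 1) - c t ∧ ∃ i, c t ≤ i ∧ i ≤ c (t + 1) ∧ ∃ m : ℤ,
          q.1 - (q.2 - q.1) ≤ i + m * n ∧ i + m * n ≤ q.2 + (q.2 - q.1))).card : ℤ) ≤
        7 * (q.2 - q.1) := by
    intro q hq
    have h4 := hJ q hq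
    have hL0 : (0 : ℤ) ≤ L := by positivity
    have h5 := count_window hc hk hL (A := q.1 - (q.2 - q.1)) (B := q.2 + (q.2 - q.1))
      (by linarith)
    linarith
  have h4 : (((Finset.range k).filter (fun i => (L : ℤ) ≤ c (i + 1) - c i ∧
      Bad n J (c i) (c (i + 1)))).card : ℤ) ≤ ∑ q ∈ J, (((Finset.range k).filter (fun t =>
        (L : ℤ) ≤ c (t + 1) - c t ∧ ∃ i, c t ≤ i ∧ i ≤ c (t + 1) ∧ ∃ m : ℤ,
          q.1 - (q.2 - q.1) ≤ i + m * n ∧ i + m * n ≤ q.2 + (q.2 - q.1))).card : ℤ) := by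
    exact_mod_cast h2
  refine (mul_le_mul_of_nonneg_left h4 (by positivity)).trans ?_
  rw [Finset.mul_sum, Finset.mul_sum]
  exact Finset.sum_le_sum h3

end GeoB

open GeoB in
open Classical in
/-- **Marks, portions, blocks.**  Given the contour and a connected set `K₀` of depth `> L`. -/
theorem geo_blocks {β η : ℝ} (hβ : 1 ≤ β) (hη : 0 < η) (hη' : 2000 * η ≤ 1)
    (hlow : ∀ v c, Realizable β v c → β / 2 * ‖toPlane v‖ ≤ c)
    (hflat : Realizable β (0, 1) ((1 + η) * β)) {M₁ : ℕ} (hM : 4 ≤ M₁) {G : Finset Site} {n : ℕ}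
    {p : ℤ → Site} (hp : Cont G n p) {L : ℕ} {h : ℤ} (hh : 1 ≤ h) (hhL : 1000 * h ≤ L)
    {K₀ : Finset Site} (hK : K₀.Nonempty) (hKc : ConnF (K₀ : Set Site))
    (hKd : ∀ x ∈ K₀, L < dep G x) :
    ∃ (Jt : ℝ) (mk : Fin M₁ → Site) (k : ℕ) (c : ℕ → ℤ) (rot : ℕ → ℕ) (El : Finset ℕ),
      0 ≤ Jt ∧ (∀ i, ∃ m, mk i = p m) ∧
      (∀ x ∈ K₀, Metric.infDist (toPlane x) (convexHull ℝ (Set.range (fun i => toPlane (mk i))))
        ≤ L + 4 + 40 * n / M₁) ∧
      (∀ i, Metric.infDist (toPlane (p i)) (convexHull ℝ (Set.range (fun i => toPlane (mk i))))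
        ≤ Jt + 40 * n / M₁) ∧
      c k = c 0 + n ∧ (∀ i < k, c i < c (i + 1)) ∧ k * L ≤ n + 2 * M₁ * L ∧
      (∀ i, rot i < 4) ∧ (∀ i ∈ El, i < k) ∧
      (∀ i ∈ El, ∃ a b, Elig n p L a b (rot i) (c i) (c (i + 1))) ∧
      (∀ i ∈ El, ∀ j ∈ El, i ≠ j → ∀ x, ¬ (rel p (rot i) (c i) x ∈
        Zz (blk p (rot i) (c i) (c (i + 1))) h ∧
        rel p (rot j) (c j) x ∈ Zz (blk p (rot j) (c j) (c (j + 1))) h)) ∧
      ∀ Ex : Finset ℕ, Ex ⊆ El →
        PP β (convexHull ℝ (Set.range (fun i => toPlane (mk i)))) + β / 4 * Jt ≤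
          ∑ i ∈ Finset.range k, (if i ∈ Ex then tau β (toPlane (p (c (i + 1)) - p (c i)))
            else (1 - η) * β * ((c (i + 1) - c i : ℤ) : ℝ)) +
          4 * η * β * L * ((El \ Ex).card + 20 * M₁) := by
  have hβ0 : 0 < β := by linarith
  have hn : 0 < n := by have := hp.pos; omega
  have hn' : (0 : ℤ) < n := by exact_mod_cast hn
  have hL8 : 8 ≤ L := by
    have : (1000 : ℤ) ≤ L := by linarith
    omega
  have hL1 : 1 ≤ L := by omega
  have hL0 : (0 : ℤ) ≤ L := by positivity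
  obtain ⟨J₀, hJ1, hJ2, hJ3, hJ4⟩ := near_family hp hL8 hKc hKd
  have hJ₀ : Fam n p L J₀ := ⟨hJ1, hJ2, hJ3⟩
  have hJ5 := hJ4 hK
  -- the marks
  have hex : ∃ i, Free n J₀ i := by
    obtain ⟨x, hx⟩ := hK
    obtain ⟨i, hi, -⟩ := hJ5 0 x hx
    exact ⟨i, hi⟩
  obtain ⟨ι, hι1, hι2⟩ := exists_marks hp hex M₁
  have hM0 : 0 < M₁ := by omega
  set I : Finset ℤ := Finset.univ.image ι with hI
  have hIne : I.Nonempty := ⟨ι ⟨0, hM0⟩, Finset.mem_image_of_mem _ (Finset.mem_univ _)⟩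
  have hImem : ∀ i ∈ I, 0 ≤ i ∧ i < n ∧ Free n J₀ i := by
    intro i hi
    obtain ⟨k, -, rfl⟩ := Finset.mem_image.1 hi
    exact hι1 k
  obtain ⟨R, μ, hR1, hRI, hμ, hμR, hμI, hIμ⟩ := sorted_marks (n := n) hIne
    (fun i hi => ⟨(hImem i hi).1, (hImem i hi).2.1⟩)
  have hRM : R ≤ M₁ := hRI.trans (Finset.card_image_le.trans (by simp))
  obtain ⟨J, hJ, hJf, hJμ⟩ := exists_norm hp hJ₀ (μ 0)
  have hfree : ∀ j ≤ R, Free n J (μ j) := by
    intro j hj
    rw [hJf]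
    rcases hj.lt_or_eq with h1 | h1
    · exact (hImem _ (hμI j h1)).2.2
    · rw [h1, hμR]
      have h2 := (hImem _ (hμI 0 hR1)).2.2
      have h3 := (free_shift (n := n) (J := J₀) (i := μ 0) (m := 1)).2 h2
      rwa [one_mul] at h3
  have hJarc : ∀ q ∈ J, q.1 < q.2 ∧ q.2 ≤ q.1 + n := by
    intro q hq
    have h1 := hJ.arc q hq
    have h2 : (8 : ℤ) ≤ L := by exact_mod_cast hL8
    constructor <;> linarith [h1.1, h1.2.1]
  obtain ⟨r, k, c, jj, El, hr4, hc0, hck, hc, hkL, hElk, hEl, hcost⟩ := concat hβ hη hη' hlow hflat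
    (fun i m => per_mul hp i m) hn hp.adj hL1 (J := J)
    (fun q hq => ⟨(hJ.arc q hq).1, (hJ.arc q hq).2.2⟩)
    (fun q hq q' hq' hne => by
      have := hJ.dis q hq q' hq' hne 0
      simpa using this)
    hJ.near hμ hμR.le
    (fun q hq => ⟨(hJμ q hq).1, fun j hj h1 => by
      by_contra h2
      push Not at h2
      refine hfree (j + 1) hj q hq ⟨0, ?_, ?_⟩
      · rw [zero_mul, add_zero]; exact h1
      · rw [zero_mul, add_zero]; exact h2⟩)
  have hcn : c k = c 0 + n := by rw [hck, hμR, hc0]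
  set Jt : ℝ := ∑ q ∈ J, ((q.2 - q.1 : ℤ) : ℝ) with hJt
  have hJt0 : 0 ≤ Jt := by
    refine Finset.sum_nonneg fun q hq => ?_
    have := (hJarc q hq).1
    exact_mod_cast (by linarith : (0 : ℤ) ≤ q.2 - q.1)
  have hmono : ∀ i j, i ≤ j → j ≤ R → μ i ≤ μ j := fun i j hij hj => strict hμ hij hj
  refine ⟨Jt, fun i => p (ι i), k, c, fun i => r (jj i), El, hJt0, fun i => ⟨ι i, rfl⟩, ?_, ?_,
    hcn, hc, ?_, fun i => hr4 _, hElk, fun i hi => ⟨_, _, (hEl i hi).2⟩, ?_, ?_⟩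
  · -- the deep points
    intro x hx
    exact near_K hp (by omega) hι2 (mem_G (hKd x hx)) (fun u => hJ5 u x hx)
  · -- the contour
    intro i
    refine near_p hp (by omega) hJarc hJ.dis (fun k i hi => hι2 k i ((hJf i).1 hi)) i
  · -- the number of blocks
    have h1 : (k * L : ℤ) ≤ n + 2 * (R * L) := by rw [hμR] at hkL; linarith
    have h2 : ((R : ℤ) * L) ≤ M₁ * L := mul_le_mul_of_nonneg_right (by exact_mod_cast hRM) hL0
    have h3 : (k * L : ℤ) ≤ n + 2 * M₁ * L := by linarith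
    exact_mod_cast h3
  · -- the zones are disjoint
    rintro i hi j hj hij x ⟨hx1, hx2⟩
    have h1 := hEl i hi
    have h2 := hEl j hj
    have h3 := hElk i hi
    have h4 := hElk j hj
    have hcm : ∀ i j, i ≤ j → j ≤ k → c i ≤ c j := fun i j hij hj => strict hc hij hj
    refine elig_disj hp hh hhL h1.2 h2.2 ?_ x hx1 hx2
    intro m
    have a1 := hmono (jj i + 1) R h1.1 le_rfl
    have a2 := hmono (jj j + 1) R h2.1 le_rfl
    have a3 := hmono 0 (jj i) (Nat.zero_le _) h1.1.le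
    have a4 := hmono 0 (jj j) (Nat.zero_le _) h2.1.le
    rcases lt_trichotomy m 0 with hm | hm | hm
    · right; left
      have : m * (n : ℤ) ≤ (-1) * n := mul_le_mul_of_nonneg_right (by omega) hn'.le
      linarith
    · subst hm
      simp only [zero_mul, add_zero]
      rcases lt_trichotomy (jj i) (jj j) with h5 | h5 | h5
      · left
        exact hmono _ _ h5 h2.1.le
      · right; right
        rw [h5]
        refine ⟨rfl, rfl, rfl, ?_⟩
        rcases lt_or_gt_of_ne hij with h6 | h6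
        · left; exact hcm _ _ h6 h4.le
        · right; exact hcm _ _ h6 h3.le
      · right; left
        exact hmono _ _ h5 h1.1.le
    · left
      have : (1 : ℤ) * n ≤ m * (n : ℤ) := mul_le_mul_of_nonneg_right (by omega) hn'.le
      linarith
  · -- the cost
    intro Ex hEx
    have h1 := hcost Ex hEx
    rw [trm_sum hElk] at h1
    have h2 : ∑ q ∈ J, (if q.1 < μ R then ((q.2 - q.1 : ℤ) : ℝ) else 0) = Jt := by
      refine Finset.sum_congr rfl fun q hq => ?_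
      rw [if_pos (by rw [hμR]; exact (hJμ q hq).2)]
    rw [h2] at h1
    -- the closed polygon
    have h3 := PP_hull_le (half_pos hβ0) hlow hflat R (fun j => toPlane (p (μ j))) (by
      simp only [hμR]
      have := per_mul hp (μ 0) 1
      rw [one_mul] at this
      rw [this])
    have h4 : (fun j => toPlane (p (μ j))) '' Set.Iic R = Set.range (fun i => toPlane (p (ι i))) := by
      ext y
      constructor
      · rintro ⟨j, hj, rfl⟩
        rcases (Set.mem_Iic.1 hj).lt_or_eq with h5 | h5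
        · obtain ⟨i, -, h6⟩ := Finset.mem_image.1 (hμI j h5)
          exact ⟨i, by simp only [h6]⟩
        · obtain ⟨i, -, h6⟩ := Finset.mem_image.1 (hμI 0 hR1)
          refine ⟨i, ?_⟩
          simp only [h5, hμR, h6]
          have := per_mul hp (μ 0) 1
          rw [one_mul] at this
          rw [this]
      · rintro ⟨i, rfl⟩
        obtain ⟨j, hj, h5⟩ := hIμ (ι i) (Finset.mem_image_of_mem _ (Finset.mem_univ _))
        exact ⟨j, Set.mem_Iic.2 hj.le, by simp only [h5]⟩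
    rw [h4] at h3
    simp only [toPlane_sub] at h3
    -- the contaminated blocks
    have h5 := count_bad hc hcn hL1 (J := J) (fun q hq => (hJ.arc q hq).1)
    have h6 : 2 * (L : ℝ) * (((Finset.range k).filter (fun i => (L : ℤ) ≤ c (i + 1) - c i ∧
      Bad n J (c i) (c (i + 1)))).card : ℝ) ≤ 7 * Jt := by
      rw [hJt, ← Int.cast_sum]
      exact_mod_cast h5
    set B : ℝ := (((Finset.range k).filter (fun i => (L : ℤ) ≤ c (i + 1) - c i ∧
      Bad n J (c i) (c (i + 1)))).card : ℝ) with hB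
    have h7 : 4 * η * β * L * B ≤ β / 4 * Jt := by
      have e1 : 4 * η * β * L * B = 2 * η * β * (2 * L * B) := by ring
      rw [e1]
      have e2 : 2 * η * β * (2 * L * B) ≤ 2 * η * β * (7 * Jt) :=
        mul_le_mul_of_nonneg_left h6 (by positivity)
      have e3 : 2 * η * β * (7 * Jt) = (14 * η) * (β * Jt) := by ring
      have e4 : (14 * η) * (β * Jt) ≤ (1 / 4) * (β * Jt) :=
        mul_le_mul_of_nonneg_right (by linarith) (by positivity)
      linarith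
    have h8 : 4 * η * β * L * (10 * R) ≤ 4 * η * β * L * (20 * M₁) := by
      have : (R : ℝ) ≤ M₁ := by exact_mod_cast hRM
      refine mul_le_mul_of_nonneg_left ?_ (by positivity)
      have : (0 : ℝ) ≤ M₁ := by positivity
      linarith
    linarith

end Pool.Agent.WSB71
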