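import Pool.Agent.WSB71.UBData
import Pool.Agent.WSB71.LPStat
import Pool.Agent.WSB71.UComp
import Pool.Agent.WSB71.UAcct
import Pool.Agent.WSB71.UGeoB
import Pool.Agent.WSB71.UCount

/-!
# UB: the accounting is in `UAcct.lean`, marks, portions and blocks in `UGeoB.lean`, counting of
data (`dataSet`, `data_count`) in `UCount.lean`
-/
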