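import Pool.Agent.WSB71.GeoDef

/-!
# UB7, part A: rotations, envelopes, the bounding box of the contour
-/

open MeasureTheory Filter Topology
open scoped NNReal ENNReal

namespace Pool.Agent.WSB71

open Pool.Agent.LT

namespace UD

lemma adj_iff {x y : Site} : Adj x y ↔ (y.1 = x.1 + 1 ∧ y.2 = x.2) ∨ (y.1 = x.1 - 1 ∧ y.2 = x.2) ∨
    (y.1 = x.1 ∧ y.2 = x.2 + 1) ∨ (y.1 = x.1 ∧ y.2 = x.2 - 1) := by
  obtain ⟨a, b⟩ := x
  obtain ⟨c, d⟩ := y
  unfold Adj units
  simp only [Finset.mem_insert, Finset.mem_singleton, Prod.mk_sub_mk, Prod.mk.injEq]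
  omega

lemma adj_sd {x y : Site} (h : Adj x y) : sd x y = 1 := by
  rw [adj_iff] at h
  unfold sd
  omega

lemma sd_comm (x y : Site) : sd x y = sd y x := by
  unfold sd
  omega

lemma sd_tri (x y z : Site) : sd x z ≤ sd x y + sd y z := by
  unfold sd
  omega

lemma sd_self (x : Site) : sd x x = 0 := by simp [sd]

/-! ### rotations -/

lemma rs_adj (r : ℕ) : ∀ x y : Site, Adj (rs r x) (rs r y) ↔ Adj x y := by
  induction r with
  | zero => intro x y; rfl
  | succ r ih =>
    intro x y
    show Adj (rs r (1 - x.2, x.1)) (rs r (1 - y.2, y.1)) ↔ _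
    rw [ih, adj_iff, adj_iff]
    omega

lemma rs_sd (r : ℕ) : ∀ x y : Site, sd (rs r x) (rs r y) = sd x y := by
  induction r with
  | zero => intro x y; rfl
  | succ r ih =>
    intro x y
    show sd (rs r (1 - x.2, x.1)) (rs r (1 - y.2, y.1)) = _
    rw [ih]
    unfold sd
    omega

lemma rs_surj (r : ℕ) : ∀ z : Site, ∃ x, rs r x = z := by
  induction r with
  | zero => intro z; exact ⟨z, rfl⟩
  | succ r ih =>
    intro z
    obtain ⟨x, hx⟩ := ih z
    refine ⟨(x.2, 1 - x.1), ?_⟩
    show rs r (1 - (1 - x.1), x.2) = z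
    rw [← hx]
    congr 1
    ext
    · show 1 - (1 - x.1) = x.1
      omega
    · rfl

lemma sd_eq_zero {x y : Site} : sd x y = 0 ↔ x = y := by
  unfold sd
  constructor
  · intro h
    ext <;> omega
  · rintro rfl
    simp

lemma rs_inj (r : ℕ) {x y : Site} (h : rs r x = rs r y) : x = y := by
  rw [← sd_eq_zero, ← rs_sd r, h, sd_self]

lemma rs_zero {r : ℕ} (hr : r < 4) (x : Site) : sd 0 (rs r x) ≤ sd 0 x + 1 := by
  obtain ⟨a, b⟩ := x
  interval_cases r
  · show sd 0 (a, b) ≤ _
    omega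
  · show sd 0 (1 - b, a) ≤ _
    unfold sd
    simp only [Prod.fst_zero, Prod.snd_zero]
    omega
  · show sd 0 (1 - a, 1 - b) ≤ _
    unfold sd
    simp only [Prod.fst_zero, Prod.snd_zero]
    omega
  · show sd 0 (1 - (1 - b), 1 - a) ≤ _
    unfold sd
    simp only [Prod.fst_zero, Prod.snd_zero]
    omega

lemma rel_adj (p : ℤ → Site) (r : ℕ) (s : ℤ) (x y : Site) :
    Adj (rel p r s x) (rel p r s y) ↔ Adj x y := by
  unfold rel
  rw [rs_adj]
  unfold Adj
  rw [sub_sub_sub_cancel_right]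

lemma rel_sd (p : ℤ → Site) (r : ℕ) (s : ℤ) (x y : Site) :
    sd (rel p r s x) (rel p r s y) = sd x y := by
  unfold rel
  rw [rs_sd]
  unfold sd
  simp only [Prod.fst_sub, Prod.snd_sub]
  omega

lemma rel_surj (p : ℤ → Site) (r : ℕ) (s : ℤ) (z : Site) : ∃ x, rel p r s x = z := by
  obtain ⟨x, hx⟩ := rs_surj r z
  refine ⟨x + p s, ?_⟩
  unfold rel
  rw [add_sub_cancel_right, hx]

lemma rel_inj {p : ℤ → Site} {r : ℕ} {s : ℤ} {x y : Site} (h : rel p r s x = rel p r s y) :
    x = y := by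
  unfold rel at h
  exact sub_left_injective (rs_inj r h)

lemma rel_bd (p : ℤ → Site) {r : ℕ} (hr : r < 4) (s : ℤ) (x : Site) :
    sd 0 (rel p r s x) ≤ sd x (p s) + 1 := by
  unfold rel
  refine (rs_zero hr _).trans ?_
  unfold sd
  simp only [Prod.fst_zero, Prod.snd_zero, Prod.fst_sub, Prod.snd_sub]
  omega

lemma inn_sub (p q a : Site) : inn (p - a) (q - a) = inn p q - a := by
  unfold inn
  simp only [Prod.fst_sub, Prod.snd_sub]
  ext
  · show p.1 - a.1 + _ = p.1 + _ - a.1
    have h1 : q.1 - a.1 - (p.1 - a.1) = q.1 - p.1 := by ring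
    have h2 : q.2 - a.2 - (p.2 - a.2) = q.2 - p.2 := by ring
    rw [h1, h2]
    ring
  · show p.2 - a.2 + _ = p.2 + _ - a.2
    have h1 : q.1 - a.1 - (p.1 - a.1) = q.1 - p.1 := by ring
    have h2 : q.2 - a.2 - (p.2 - a.2) = q.2 - p.2 := by ring
    rw [h1, h2]
    ring

lemma adj_sub {p q a : Site} : Adj (p - a) (q - a) ↔ Adj p q := by
  unfold Adj
  rw [sub_sub_sub_cancel_right]

lemma inn_out_adj {P Q : Site} (h : Adj P Q) : Adj (inn P Q) (out P Q) := by
  obtain ⟨a, b⟩ := P
  obtain ⟨c, d⟩ := Q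
  rw [adj_iff] at h
  simp only at h
  rcases h with ⟨rfl, rfl⟩ | ⟨rfl, rfl⟩ | ⟨rfl, rfl⟩ | ⟨rfl, rfl⟩ <;>
  · rw [adj_iff]
    unfold inn out
    simp only
    omega

/-! ### diagonal coordinates -/

lemma Ts_sd (x y : Site) : |Ts x - Ts y| ≤ 2 * sd x y := by
  unfold Ts sd
  rw [abs_le]
  omega

lemma gs_sd (x y : Site) : |gs x - gs y| ≤ 2 * sd x y := by
  unfold gs sd
  rw [abs_le]
  omega

lemma env_set_bdd (γ : List Site) (T : ℤ) :
    BddAbove {a | ∃ p ∈ γ, a = gd p - 2 * |T - Td p|} := by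
  have : {a | ∃ p ∈ γ, a = gd p - 2 * |T - Td p|} =
      ((γ.map (fun p => gd p - 2 * |T - Td p|)).toFinset : Set ℤ) := by
    ext a
    simp only [Set.mem_setOf_eq, List.coe_toFinset, List.mem_map]
    constructor
    · rintro ⟨p, hp, rfl⟩; exact ⟨p, hp, rfl⟩
    · rintro ⟨p, hp, rfl⟩; exact ⟨p, hp, rfl⟩
  rw [this]
  exact Finset.bddAbove _

lemma le_env {γ : List Site} {p : Site} (hp : p ∈ γ) (T : ℤ) :
    gd p - 2 * |T - Td p| ≤ env γ T := le_csSup (env_set_bdd γ T) ⟨p, hp, rfl⟩

lemma env_lip {γ : List Site} (hγ : γ ≠ []) (T T' : ℤ) : env γ T ≤ env γ T' + 2 * |T - T'| := by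
  unfold env
  refine csSup_le ?_ ?_
  · obtain ⟨p, hp⟩ := List.exists_mem_of_ne_nil γ hγ
    exact ⟨_, p, hp, rfl⟩
  · rintro a ⟨p, hp, rfl⟩
    have h1 := le_env hp T'
    unfold env at h1
    have h2 : |T' - Td p| ≤ |T - Td p| + |T - T'| := by
      rw [abs_le]
      constructor
      · have h3 := neg_abs_le (T - Td p)
        have h4 := le_abs_self (T - T')
        omega
      · have h3 := le_abs_self (T - Td p)
        have h4 := neg_abs_le (T - T')
        omega
    omega

lemma mem_steps {γ : List Site} (hc : γ.IsChain Adj) {s : Site × Site} (hs : s ∈ steps γ) :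
    s.1 ∈ γ ∧ s.2 ∈ γ ∧ Adj s.1 s.2 := by
  unfold steps at hs
  induction γ with
  | nil => simp at hs
  | cons a γ ih =>
    cases γ with
    | nil => simp at hs
    | cons b γ =>
      rw [List.tail_cons, List.zip_cons_cons] at hs
      rw [List.isChain_cons_cons] at hc
      rcases List.mem_cons.1 hs with rfl | hs
      · exact ⟨by simp, by simp, hc.1⟩
      · obtain ⟨h1, h2, h3⟩ := ih hc.2 hs
        exact ⟨List.mem_cons_of_mem _ h1, List.mem_cons_of_mem _ h2, h3⟩

/-- Sites far to the right of the envelope are on the right. -/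
lemma rightOf_of_env {γ : List Site} (hc : γ.IsChain Adj) {x : Site}
    (h : env γ (Ts x) + 2 ≤ gs x) : rightOf γ x := by
  unfold rightOf
  rw [List.countP_eq_zero.2]
  · exact Even.zero
  · intro s hs
    obtain ⟨h1, h2, h3⟩ := mem_steps hc hs
    simp only [decide_eq_true_eq, not_and, not_lt]
    intro h4
    have h5 := le_env h1 (Ts x)
    have h6 := le_env h2 (Ts x)
    rw [adj_iff] at h3
    have h7 : |Ts x - Td s.1| ≤ 1 := by
      rw [← h4, abs_le]
      unfold Td
      omega
    have h8 : |Ts x - Td s.2| ≤ 1 := by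
      rw [← h4, abs_le]
      unfold Td
      omega
    omega

lemma Cz_sub_Zz {γ : List Site} {h : ℤ} (hh : 1 ≤ h) : Cz γ h ⊆ Zz γ h := by
  rintro x ⟨h1, h2, h3, h4⟩
  exact ⟨h1, by omega, by omega, by omega⟩

/-- The band. -/
def band (γ : List Site) (h : ℤ) : Set Site :=
  {x | Tfst γ + 8 * h ≤ Ts x ∧ Ts x ≤ Tlst γ - 8 * h ∧
    env γ (Ts x) * 4 + h ≤ 4 * gs x ∧ 2 * gs x ≤ 2 * env γ (Ts x) + h}

lemma band_zone {γ : List Site} (hc : γ.IsChain Adj) (hγ : γ ≠ []) {h : ℤ} (hh : 10 ^ 6 ≤ h)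
    {x y : Site} (hx : x ∈ band γ h) (hy : 30 * (sd x y : ℤ) ≤ h) : y ∈ Zz γ h := by
  obtain ⟨h1, h2, h3, h4⟩ := hx
  have h5 := Ts_sd x y
  have h6 := gs_sd x y
  rw [abs_le] at h5 h6
  have h7 := env_lip hγ (Ts x) (Ts y)
  have h8 := env_lip hγ (Ts y) (Ts x)
  have h9 : |Ts x - Ts y| ≤ 2 * sd x y := Ts_sd x y
  have h10 : |Ts y - Ts x| ≤ 2 * sd x y := by rw [abs_sub_comm]; exact h9
  refine ⟨rightOf_of_env hc (by omega), by omega, by omega, by omega⟩

/-! ### the contour -/

variable {G : Finset Site} {n : ℕ} {p : ℤ → Site}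

lemma per_mul (hp : Cont G n p) (i m : ℤ) : p (i + m * n) = p i := by
  have h : Function.Periodic p (n : ℤ) := hp.per
  exact h.int_mul m i

lemma sd_path (hadj : ∀ i, Adj (p i) (p (i + 1))) {i j : ℤ} (h : i ≤ j) :
    (sd (p i) (p j) : ℤ) ≤ j - i := by
  induction j, h using Int.leInduction with
  | base => simp [sd_self]
  | succ j hj ih =>
    have h1 := sd_tri (p i) (p j) (p (j + 1))
    rw [adj_sd (hadj j)] at h1
    omega

lemma sd_cont (hp : Cont G n p) (i j : ℤ) : sd (p i) (p j) ≤ n := by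
  have hn : (0 : ℤ) < n := by have := hp.pos; omega
  have h1 : p j = p (i + (j - i) % n) := by
    have h2 := Int.emod_add_mul_ediv (j - i) n
    have h3 : j = i + (j - i) % n + (j - i) / n * n := by linarith
    conv_lhs => rw [h3]
    exact per_mul hp _ _
  rw [h1]
  have h2 := Int.emod_nonneg (j - i) hn.ne'
  have h3 := Int.emod_lt_of_pos (j - i) hn
  have h4 := sd_path hp.adj (i := i) (j := i + (j - i) % n) (by omega)
  omega

/-- Going in direction `e` from `x ∈ G` one leaves `G`. -/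
lemma exit_dir (G : Finset Site) {x : Site} (hx : x ∈ G) (e : Site) (he : e ∈ units) :
    ∃ m : ℕ, x + m • e ∈ G ∧ x + (m + 1) • e ∉ G := by
  classical
  have hex : ∃ m : ℕ, x + m • e ∉ G := by
    by_contra hcon
    push Not at hcon
    have hinj : Function.Injective (fun m : ℕ => x + m • e) := by
      intro a b hab
      have h1 : a • e = b • e := add_left_cancel hab
      simp only [units, Finset.mem_insert, Finset.mem_singleton] at he
      rcases he with rfl | rfl | rfl | rfl <;>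
      · simp only [Prod.smul_mk, smul_neg, nsmul_eq_mul, mul_one, mul_zero, Prod.mk.injEq] at h1
        omega
    exact Set.infinite_of_injective_forall_mem hinj (s := (G : Set Site)) hcon G.finite_toSet
  refine ⟨Nat.find hex - 1, ?_, ?_⟩
  · have h1 : Nat.find hex ≠ 0 := by
      intro h0
      have h2 := Nat.find_spec hex
      rw [h0] at h2
      simp at h2
      exact h2 hx
    by_contra h2
    exact Nat.find_min hex (m := Nat.find hex - 1) (by omega) h2
  · have h1 : Nat.find hex ≠ 0 := by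
      intro h0
      have h2 := Nat.find_spec hex
      rw [h0] at h2
      simp at h2
      exact h2 hx
    have h3 : Nat.find hex - 1 + 1 = Nat.find hex := by omega
    rw [h3]
    exact Nat.find_spec hex

/-- Contour vertices on the row of a site, on both sides. -/
lemma row_pts (hp : Cont G n p) {x : Site} (hx : x ∈ G) :
    (∃ i, (p i).2 = x.2 ∧ x.1 ≤ (p i).1) ∧ (∃ i, (p i).2 = x.2 ∧ (p i).1 ≤ x.1) := by
  constructor
  · obtain ⟨m, h1, h2⟩ := exit_dir G hx (1, 0) (by simp [units])
    have e1 : x + m • ((1, 0) : Site) = (x.1 + m, x.2) := by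
      ext <;> simp
    have e2 : x + (m + 1) • ((1, 0) : Site) = (x.1 + m + 1, x.2) := by
      ext
      · simp; ring
      · simp
    rw [e1] at h1
    rw [e2] at h2
    obtain ⟨i, _, _, h3, h4⟩ := hp.surj _ h1 _ h2 (by rw [adj_iff]; left; exact ⟨rfl, rfl⟩)
    have h5 := hp.adj i
    rw [adj_iff] at h5
    unfold inn at h3
    unfold out at h4
    rw [Prod.mk.injEq] at h3 h4
    refine ⟨i, ?_, ?_⟩ <;> omega
  · obtain ⟨m, h1, h2⟩ := exit_dir G hx (-1, 0) (by simp [units])
    have e1 : x + m • ((-1, 0) : Site) = (x.1 - m, x.2) := by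
      ext
      · simp; ring
      · simp
    have e2 : x + (m + 1) • ((-1, 0) : Site) = (x.1 - m - 1, x.2) := by
      ext
      · simp; ring
      · simp
    rw [e1] at h1
    rw [e2] at h2
    obtain ⟨i, _, _, h3, h4⟩ := hp.surj _ h1 _ h2 (by rw [adj_iff]; right; left; exact ⟨rfl, rfl⟩)
    have h5 := hp.adj i
    rw [adj_iff] at h5
    unfold inn at h3
    unfold out at h4
    rw [Prod.mk.injEq] at h3 h4
    refine ⟨i + 1, ?_, ?_⟩ <;> omega

lemma sd_in (hp : Cont G n p) {x : Site} (hx : x ∈ G) (j : ℤ) : sd x (p j) ≤ n := by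
  obtain ⟨⟨i, h1, h2⟩, ⟨i', h3, h4⟩⟩ := row_pts hp hx
  have h5 := sd_cont hp i j
  have h6 := sd_cont hp i' j
  unfold sd at *
  omega

/-- Sites of `G` are between contour vertices. -/
lemma inf_le (hp : Cont G n p) {Q : Set Plane} (hQ : Convex ℝ Q) (hne : Q.Nonempty) {δ : ℝ}
    (h : ∀ i, Metric.infDist (toPlane (p i)) Q ≤ δ) {x : Site} (hx : x ∈ G) :
    Metric.infDist (toPlane x) Q ≤ δ := by
  obtain ⟨⟨i, h1, h2⟩, ⟨i', h3, h4⟩⟩ := row_pts hp hx
  have hδ : 0 ≤ δ := Metric.infDist_nonneg.trans (h 0)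
  have hmem : ∀ i, toPlane (p i) ∈ Metric.cthickening δ Q := fun i => by
    rw [Metric.mem_cthickening_iff]
    have := h i
    rw [Metric.infDist] at this
    exact (ENNReal.le_ofReal_iff_toReal_le (Metric.infEDist_ne_top hne) hδ).2 this
  have hconv : Convex ℝ (Metric.cthickening δ Q) := hQ.cthickening δ
  have hx' : toPlane x ∈ Metric.cthickening δ Q := by
    rcases eq_or_lt_of_le (h4.trans h2) with h5 | h5
    · have : x = p i := by
        ext <;> omega
      rw [this]
      exact hmem i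
    · set a : ℝ := ((p i).1 - x.1 : ℝ) / ((p i).1 - (p i').1 : ℝ) with ha
      have h6 : (0 : ℝ) < (p i).1 - (p i').1 := by
        have : ((p i').1 : ℝ) < (p i).1 := by exact_mod_cast h5
        linarith
      have h7 : (x.1 : ℝ) ≤ (p i).1 := by exact_mod_cast h2
      have h8 : ((p i').1 : ℝ) ≤ x.1 := by exact_mod_cast h4
      have ha0 : 0 ≤ a := div_nonneg (by linarith) h6.le
      have ha1 : a ≤ 1 := by
        rw [ha, div_le_one h6]
        linarith
      have key := hconv (hmem i') (hmem i) ha0 (sub_nonneg.2 ha1) (by ring)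
      convert key using 1
      unfold toPlane
      ext k
      fin_cases k
      · simp only [ha, PiLp.add_apply, PiLp.smul_apply, smul_eq_mul, Fin.zero_eta, Fin.isValue,
          Matrix.cons_val_zero]
        field_simp
        ring
      · simp only [PiLp.add_apply, PiLp.smul_apply, smul_eq_mul, Fin.mk_one, Fin.isValue,
          Matrix.cons_val_one]
        rw [h1, h3]
        ring
  rw [Metric.mem_cthickening_iff] at hx'
  rw [Metric.infDist]
  exact ENNReal.toReal_le_of_le_ofReal hδ hx'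

/-- A chain is connected. -/
lemma chain_conn {l : List Site} (hl : l.IsChain Adj) : ConnF (l.toFinset : Set Site) := by
  intro g hg
  suffices h : ∀ x ∈ l, ∀ y ∈ l, g x = g y by
    intro x hx y hy
    exact h x (by simpa using hx) y (by simpa using hy)
  have hg' : ∀ x ∈ l, ∀ y ∈ l, Adj x y → g x = g y := fun x hx y hy h =>
    hg x (by simpa using hx) y (by simpa using hy) h
  clear hg
  induction l with
  | nil => intro x hx; simp at hx
  | cons a l ih =>
    cases l with
    | nil =>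
      intro x hx y hy
      simp only [List.mem_singleton] at hx hy
      rw [hx, hy]
    | cons b l =>
      rw [List.isChain_cons_cons] at hl
      have h1 := ih hl.2 fun x hx y hy => hg' x (List.mem_cons_of_mem _ hx) y (List.mem_cons_of_mem _ hy)
      have h2 : g a = g b := hg' a (by simp) b (by simp) hl.1
      have h3 : ∀ x ∈ a :: b :: l, g x = g b := by
        intro x hx
        rcases List.mem_cons.1 hx with rfl | hx
        · exact h2
        · exact h1 x hx b (by simp)
      intro x hx y hy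
      rw [h3 x hx, h3 y hy]

end UD

end Pool.Agent.WSB71
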