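import Pool.Agent.WSB71.GZone
import Pool.Agent.WSB71.UDatA

/-!
# UB7, part B: one block
-/

open MeasureTheory Filter Topology
open scoped NNReal ENNReal

namespace Pool.Agent.WSB71

open Pool.Agent.LT

namespace UD

/-- The hole edges in the band of a block, in relative coordinates. -/
def QS (γ : List Site) (h : ℤ) (V : Set Site) : Set (Site × Site) :=
  {q : Site × Site | Adj q.1 q.2 ∧ q.1 ∈ V ∧ q.2 ∉ V ∧
      (∀ x ∈ ({q.1, q.2} : Set Site), Tfst γ + 8 * h ≤ Ts x ∧ Ts x ≤ Tlst γ - 8 * h ∧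
        env γ (Ts x) * 4 + h ≤ 4 * gs x ∧ 2 * gs x ≤ 2 * env γ (Ts x) + h)}

/-- The hole edges with depth between `h / 30` and `L`. -/
noncomputable def HB (l : List Site) (h : ℤ) (L : ℕ) : Finset (Site × Site) :=
  (holeE l.toFinset).filter (fun q => h ≤ 30 * dep (fil l.toFinset) q.1 ∧
      dep (fil l.toFinset) q.1 ≤ L)

open Classical in
lemma QS_card {l : List Site} {p : ℤ → Site} {r : ℕ} {s : ℤ} {γ : List Site} {h : ℤ} {L : ℕ}
    (hc : γ.IsChain Adj) (hγ : γ ≠ []) (hh : 10 ^ 6 ≤ h)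
    (hz : ∀ x, rel p r s x ∈ Zz γ h → x ∈ fil l.toFinset ∧ dep (fil l.toFinset) x < L) :
    (QS γ h {z | ∃ y ∈ l, rel p r s y = z}).ncard ≤
      ((HB l h L).filter (fun q => rel p r s q.1 ∈ Zz γ h)).card := by
  have hsub : QS γ h {z | ∃ y ∈ l, rel p r s y = z} ⊆
      (((HB l h L).filter (fun q => rel p r s q.1 ∈ Zz γ h)).image
        (fun q => (rel p r s q.1, rel p r s q.2)) : Finset (Site × Site)) := by
    rintro ⟨q1, q2⟩ ⟨h1, ⟨y, hy, h2⟩, h3, h4⟩
    simp only at h1 h2 h3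
    obtain ⟨z, hz'⟩ := rel_surj p r s q2
    have hzl : z ∉ l := fun h5 => h3 ⟨z, h5, hz'⟩
    have hb1 : rel p r s y ∈ band γ h := by
      rw [h2]
      exact h4 q1 (by simp)
    have hb2 : rel p r s z ∈ band γ h := by
      rw [hz']
      exact h4 q2 (by simp)
    have hz1 : rel p r s y ∈ Zz γ h := band_zone hc hγ hh hb1 (by rw [sd_self]; norm_num; omega)
    have hz2 : rel p r s z ∈ Zz γ h := band_zone hc hγ hh hb2 (by rw [sd_self]; norm_num; omega)
    rw [← h2, ← hz', rel_adj] at h1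
    simp only [Finset.coe_image, Set.mem_image, Finset.mem_coe, Finset.mem_filter]
    refine ⟨(y, z), ⟨?_, hz1⟩, by rw [h2, hz']⟩
    unfold HB holeE
    simp only [Finset.mem_filter, Finset.mem_product, Finset.mem_sdiff, List.mem_toFinset]
    refine ⟨⟨⟨hy, (hz z hz2).1, hzl⟩, h1⟩, ?_, (hz y hz1).2.le⟩
    by_contra h5
    push Not at h5
    obtain ⟨w, hw, h6⟩ := exists_dep (fil l.toFinset) y
    apply hw
    refine (hz w (band_zone hc hγ hh hb1 ?_)).1
    rw [rel_sd, h6]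
    exact h5.le
  calc (QS γ h {z | ∃ y ∈ l, rel p r s y = z}).ncard
      ≤ ((((HB l h L).filter (fun q => rel p r s q.1 ∈ Zz γ h)).image
        (fun q => (rel p r s q.1, rel p r s q.2)) : Finset (Site × Site)) : Set (Site × Site)).ncard :=
        Set.ncard_le_ncard hsub (Finset.finite_toSet _)
    _ = (((HB l h L).filter (fun q => rel p r s q.1 ∈ Zz γ h)).image
        (fun q => (rel p r s q.1, rel p r s q.2))).card := Set.ncard_coe_finset _
    _ ≤ _ := Finset.card_image_le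

/-- The blocked alternative, in absolute coordinates. -/
lemma blocked_abs {l : List Site} {p : ℤ → Site} {r : ℕ} {s : ℤ} {C : Set Site} {L : ℤ}
    (h : L ≤ 8 * ({q : Site × Site | Adj q.1 q.2 ∧ q.1 ∈ {z | ∃ y ∈ l, rel p r s y = z} ∧
      q.2 ∉ {z | ∃ y ∈ l, rel p r s y = z} ∧ q.1 ∈ C ∧ q.2 ∈ C}.ncard : ℤ)) :
    L ≤ 8 * ({q : Site × Site | Adj q.1 q.2 ∧ q.1 ∈ l ∧ q.2 ∉ l ∧ q.1 ∈ {x | rel p r s x ∈ C} ∧
        q.2 ∈ {x | rel p r s x ∈ C}}.ncard : ℤ) := by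
  have hset : {q : Site × Site | Adj q.1 q.2 ∧ q.1 ∈ {z | ∃ y ∈ l, rel p r s y = z} ∧
      q.2 ∉ {z | ∃ y ∈ l, rel p r s y = z} ∧ q.1 ∈ C ∧ q.2 ∈ C} =
      (fun q : Site × Site => (rel p r s q.1, rel p r s q.2)) ''
      {q : Site × Site | Adj q.1 q.2 ∧ q.1 ∈ l ∧ q.2 ∉ l ∧ q.1 ∈ {x | rel p r s x ∈ C} ∧
        q.2 ∈ {x | rel p r s x ∈ C}} := by
    ext ⟨q1, q2⟩
    constructor
    · rintro ⟨h1, ⟨y, hy, h2⟩, h3, h4, h5⟩
      obtain ⟨z, hz⟩ := rel_surj p r s q2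
      refine ⟨(y, z), ⟨?_, hy, fun hzl => h3 ⟨z, hzl, hz⟩, ?_, ?_⟩, ?_⟩
      · simp only at h1 h2
        rw [← h2, ← hz, rel_adj] at h1
        exact h1
      · show rel p r s y ∈ C
        rw [h2]
        exact h4
      · show rel p r s z ∈ C
        rw [hz]
        exact h5
      · show (rel p r s y, rel p r s z) = (q1, q2)
        rw [h2, hz]
    · rintro ⟨⟨y, z⟩, ⟨h1, h2, h3, h4, h5⟩, h6⟩
      simp only [Prod.mk.injEq] at h6
      obtain ⟨rfl, rfl⟩ := h6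
      refine ⟨(rel_adj p r s y z).2 h1, ⟨y, h2, rfl⟩, ?_, h4, h5⟩
      rintro ⟨w, hw, h8⟩
      exact h3 (rel_inj h8 ▸ hw)
  rw [hset, Set.ncard_image_of_injective] at h
  · exact h
  · rintro ⟨a, b⟩ ⟨a', b'⟩ hab
    simp only [Prod.mk.injEq] at hab
    rw [rel_inj hab.1, rel_inj hab.2]

lemma exc_map {C Z : Set Site} {p : ℤ → Site} {r : ℕ} {s : ℤ} {a b : Site} {e : List Site}
    (h : IsExc {x | rel p r s x ∈ C} {x | rel p r s x ∈ Z} a b e) :
    IsExc C Z (rel p r s a) (rel p r s b) (e.map (rel p r s)) := by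
  obtain ⟨⟨h1, h2, h3⟩, h4, h5, h6⟩ := h
  refine ⟨⟨?_, ?_, ?_⟩, h4, h5, ?_⟩
  · rw [List.head?_map, h1]; rfl
  · rw [List.getLast?_map, h2]; rfl
  · rw [List.isChain_map]
    exact h3.imp fun x y hxy => (rel_adj p r s x y).2 hxy
  · intro x hx
    rw [← List.map_dropLast, List.mem_map] at hx
    obtain ⟨y, hy, rfl⟩ := hx
    exact h6 y hy

lemma visits_map (f : Site → Site) (E : List (List Site)) :
    visits (E.map (List.map f)) = (visits E).map f := by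
  unfold visits
  induction E with
  | nil => rfl
  | cons e E ih =>
    rw [List.map_cons, List.flatMap_cons, ih, List.flatMap_cons, List.map_append, List.map_dropLast]

/-- An exact block is a tile. -/
lemma mk_tile {h s₀ : ℤ} {L : ℕ} {v : Site} {γ : List Site} {p : ℤ → Site} {r : ℕ} {s : ℤ}
    {l : List Site} {E : List (List Site)} (hTP : TilePath L v γ) (hs : 1 ≤ s₀)
    (hh : 10 ^ 6 * s₀ ≤ h)
    (hE : ∀ e ∈ E, ∃ a b, IsExc {x | rel p r s x ∈ Cz γ h} {x | rel p r s x ∈ Zz γ h} a b e ∧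
      TileEnt h γ (rel p r s a) ∧ rightOf γ (rel p r s b))
    (hin : ∀ st ∈ steps γ, inn st.1 st.2 ∈ Cz γ h → ∃ y ∈ l, rel p r s y = inn st.1 st.2)
    (hmem : ∀ x, rel p r s x ∈ Cz γ h → (x ∈ l ↔ x ∈ visits E))
    (ht2 : ∃ ρ : ℤ, h ≤ 4 * ρ ∧ 2 * ρ ≤ h ∧
      ({x : Site | rightOf γ x ∧ Tfst γ + 8 * h ≤ Ts x ∧ Ts x ≤ Tlst γ - 8 * h ∧
        env γ (Ts x) + ρ ≤ gs x ∧ gs x < env γ (Ts x) + ρ + s₀ ∧
        x ∉ {z | ∃ y ∈ l, rel p r s y = z}}.ncard : ℤ) ≤ s₀ * h) :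
    Tile h s₀ L (s₀ * h).toNat v (ends (E.map (List.map (rel p r s))))
      (γ, E.map (List.map (rel p r s))) := by
  refine ⟨hTP, rfl, ?_, ?_, ?_⟩
  · intro e he
    simp only [List.mem_map] at he
    obtain ⟨e', he', rfl⟩ := he
    obtain ⟨a, b, h1, h2, h3⟩ := hE e' he'
    exact ⟨_, _, exc_map h1, h2, h3⟩
  · intro st hst hC
    obtain ⟨y, hy, h1⟩ := hin st hst hC
    simp only [visits_map, List.mem_map]
    refine ⟨y, ?_, h1⟩
    rw [← hmem y (by rw [h1]; exact hC)]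
    exact hy
  · obtain ⟨ρ, h1, h2, h3⟩ := ht2
    refine ⟨ρ, h1, h2, ?_⟩
    have hset : {x : Site | rightOf γ x ∧ Tfst γ + 8 * h ≤ Ts x ∧ Ts x ≤ Tlst γ - 8 * h ∧
        env γ (Ts x) + ρ ≤ gs x ∧ gs x < env γ (Ts x) + ρ + s₀ ∧
        x ∉ visits (E.map (List.map (rel p r s)))} =
        {x : Site | rightOf γ x ∧ Tfst γ + 8 * h ≤ Ts x ∧ Ts x ≤ Tlst γ - 8 * h ∧
        env γ (Ts x) + ρ ≤ gs x ∧ gs x < env γ (Ts x) + ρ + s₀ ∧
        x ∉ {z | ∃ y ∈ l, rel p r s y = z}} := by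
      ext x
      simp only [Set.mem_setOf_eq]
      constructor
      · rintro ⟨a1, a2, a3, a4, a5, a6⟩
        refine ⟨a1, a2, a3, a4, a5, ?_⟩
        rintro ⟨y, hy, rfl⟩
        apply a6
        rw [visits_map, List.mem_map]
        exact ⟨y, (hmem y ⟨a1, a2, a3, by omega⟩).1 hy, rfl⟩
      · rintro ⟨a1, a2, a3, a4, a5, a6⟩
        refine ⟨a1, a2, a3, a4, a5, fun h7 => ?_⟩
        rw [visits_map, List.mem_map] at h7
        obtain ⟨y, hy, rfl⟩ := h7
        exact a6 ⟨y, (hmem y ⟨a1, a2, a3, by omega⟩).2 hy, rfl⟩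
    show Set.ncard {x : Site | rightOf γ x ∧ Tfst γ + 8 * h ≤ Ts x ∧ Ts x ≤ Tlst γ - 8 * h ∧
        env γ (Ts x) + ρ ≤ gs x ∧ gs x < env γ (Ts x) + ρ + s₀ ∧
        x ∉ visits (E.map (List.map (rel p r s)))} ≤ _
    rw [hset]
    exact (Int.le_toNat (le_trans (Int.natCast_nonneg _) h3)).2 h3

lemma flatMap_single {α β : Type*} (f : α → β) (l : List α) :
    l.flatMap (fun a => [f a]) = l.map f := by
  induction l with
  | nil => rfl
  | cons a l ih => rw [List.flatMap_cons, ih]; rfl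

lemma blk_eq (p : ℤ → Site) (r : ℕ) (s s' : ℤ) : blk p r s s' =
    (List.range ((s' - s).toNat + 1)).map (fun k : ℕ => rd r (p (s + (k : ℤ)) - p s)) := by
  have h : (List.range ((s' - s).toNat + 1)).flatMap (fun a : ℕ => [(a : ℤ)]) =
      (List.range ((s' - s).toNat + 1)).map (fun a : ℕ => (a : ℤ)) := flatMap_single _ _
  show List.map (fun k : ℤ => rd r (p (s + k) - p s))
    ((List.range ((s' - s).toNat + 1)).flatMap (fun a : ℕ => [(a : ℤ)])) = _
  rw [h, List.map_map]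
  rfl

/-- Inner sites of the steps of a block are visited. -/
lemma inn_visited {l : List Site} {n : ℕ} {p : ℤ → Site} (hp : Cont (fil l.toFinset) n p) (r : ℕ)
    {s s' : ℤ} : ∀ st ∈ steps (blk p r s s'), ∃ y ∈ l, rel p r s y = inn st.1 st.2 := by
  intro st hst
  unfold steps at hst
  rw [List.mem_iff_getElem] at hst
  obtain ⟨i, hi, h1⟩ := hst
  rw [List.getElem_zip] at h1
  have h2 : st.1 = rd r (p (s + (i : ℕ)) - p s) := by
    rw [← h1]
    simp [blk_eq]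
  have h3 : st.2 = rd r (p (s + (i : ℕ) + 1) - p s) := by
    rw [← h1]
    simp [blk_eq, List.getElem_tail, add_assoc]
  have hadj := hp.adj (s + i)
  have h4 := (inn_rd r (p (s + (i : ℕ)) - p s) (p (s + (i : ℕ) + 1) - p s) (adj_sub.2 hadj)).1
  refine ⟨inn (p (s + i)) (p (s + i + 1)), ?_, ?_⟩
  · have h5 := hp.side (s + i)
    have h6 := adj_fil h5.1 h5.2 (inn_out_adj hadj)
    rwa [List.mem_toFinset] at h6
  · rw [h2, h3, h4, inn_sub]
    rfl

lemma sum_range_map {M : Type*} [AddCommMonoid M] (k : ℕ) (g : ℕ → M) :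
    ((List.range k).map g).sum = ∑ i ∈ Finset.range k, g i := by
  induction k with
  | zero => simp
  | succ k ih => rw [List.range_succ, List.map_append, List.sum_append, ih, Finset.sum_range_succ]; simp

end UD

end Pool.Agent.WSB71
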