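import Pool.Agent.WSB71.UDec

/-!
# UB6: more on decompositions of chains
-/

open MeasureTheory Filter Topology
open scoped NNReal ENNReal

namespace Pool.Agent.WSB71

open Pool.Agent.LT

/-- Visits of `C i` are in the excursions of zone `i`. -/
theorem dec_mem {ι : Type} [Finite ι] {C Z : ι → Set Site} (hCZ : ∀ i, C i ⊆ Z i)
    (hdisj : ∀ i j, i ≠ j → Disjoint (Z i) (Z j)) {l : List Site} {E : ι → List (List Site)}
    (hE : Dec C Z l E) {i : ι} {x : Site} (hx : x ∈ C i) : x ∈ l ↔ x ∈ visits (E i) := by
  classical
  induction hE with
  | last s hs h =>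
    constructor
    · intro h1; exact absurd hx (h x h1 i)
    · intro h1; exact absurd h1 (by simp [visits])
  | step s e l j a b E hs he hl h ih =>
    have hv : visits (Function.update E j (e :: E j) i) =
        if i = j then e.dropLast ++ visits (E i) else visits (E i) := by
      by_cases hij : i = j
      · subst hij
        rw [Function.update_self, if_pos rfl]
        simp [visits]
      · rw [Function.update_of_ne hij, if_neg hij]
    rw [hv, List.mem_append, List.mem_append, ih]
    by_cases hij : i = j
    · subst hij
      rw [if_pos rfl, List.mem_append]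
      constructor
      · rintro ((h1 | h1) | h1)
        · exact absurd hx (hs x h1 i)
        · exact Or.inl h1
        · exact Or.inr h1
      · rintro (h1 | h1)
        · exact Or.inl (Or.inr h1)
        · exact Or.inr h1
    · rw [if_neg hij]
      constructor
      · rintro ((h1 | h1) | h1)
        · exact absurd hx (hs x h1 i)
        · exact absurd (he.2.2.2 x h1) (Set.disjoint_left.1 (hdisj i j hij) (hCZ i hx))
        · exact h1
      · exact Or.inr

theorem dec_prepend {ι : Type} {C Z : ι → Set Site} {l : List Site} {E : ι → List (List Site)}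
    (hE : Dec C Z l E) {w : List Site} (hw : ∀ x ∈ w, ∀ i, x ∉ C i) : Dec C Z (w ++ l) E := by
  cases hE with
  | last s hs h =>
    refine Dec.last _ (by simp [hs]) ?_
    intro x hx i
    rcases List.mem_append.1 hx with h1 | h1
    · exact hw x h1 i
    · exact h x h1 i
  | step s e l i a b E hs he hl h =>
    rw [← List.append_assoc, ← List.append_assoc]
    refine Dec.step _ e l i a b E ?_ he hl h
    intro x hx j
    rcases List.mem_append.1 hx with h1 | h1
    · exact hw x h1 j
    · exact hs x h1 j

open Classical in
/-- Restriction to a subfamily of the zones. -/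
theorem dec_restrict {ι : Type} [Finite ι] {C Z : ι → Set Site} (hCZ : ∀ i, C i ⊆ Z i)
    (hdisj : ∀ i j, i ≠ j → Disjoint (Z i) (Z j)) {l : List Site} {E : ι → List (List Site)}
    (hE : Dec C Z l E) (S : Set ι) :
    Dec (fun i => if i ∈ S then C i else ∅) (fun i => if i ∈ S then Z i else ∅) l
      (fun i => if i ∈ S then E i else []) := by
  have hsub : ∀ (x : Site) (j : ι), x ∈ (if j ∈ S then C j else ∅) → j ∈ S ∧ x ∈ C j := by
    intro x j hx
    by_cases hj : j ∈ S
    · rw [if_pos hj] at hx
      exact ⟨hj, hx⟩
    · rw [if_neg hj] at hx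
      exact absurd hx (Set.notMem_empty x)
  induction hE with
  | last s hs h =>
    have h1 : (fun i : ι => if i ∈ S then ([] : List (List Site)) else []) = fun _ => [] := by
      funext i; simp
    rw [h1]
    exact Dec.last s hs fun x hx i hi => h x hx i (hsub x i hi).2
  | step s e l j a b E hs he hl h ih =>
    by_cases hj : j ∈ S
    · have h1 : (fun i => if i ∈ S then Function.update E j (e :: E j) i else []) =
          Function.update (fun i => if i ∈ S then E i else []) j
            (e :: (fun i => if i ∈ S then E i else []) j) := by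
        funext i
        by_cases hij : i = j
        · subst hij
          simp [hj]
        · simp [hij]
      rw [h1]
      refine Dec.step s e l j a b _ (fun x hx i hi => hs x hx i (hsub x i hi).2) ?_ hl ih
      simp only [hj, if_true]
      exact he
    · have h1 : (fun i => if i ∈ S then Function.update E j (e :: E j) i else []) =
          fun i => if i ∈ S then E i else [] := by
        funext i
        by_cases hij : i = j
        · subst hij
          simp [hj]
        · simp [hij]
      rw [h1]
      refine dec_prepend ih ?_
      intro x hx i hi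
      obtain ⟨hi1, hi2⟩ := hsub x i hi
      have hij : i ≠ j := by rintro rfl; exact hj hi1
      rcases List.mem_append.1 hx with h2 | h2
      · exact hs x h2 i hi2
      · exact Set.disjoint_left.1 (hdisj i j hij) (hCZ i hi2) (he.2.2.2 x h2)

theorem dec_enter_aux {ι : Type} {C Z : ι → Set Site} (hCZ : ∀ i, C i ⊆ Z i)
    (hdisj : ∀ i j, i ≠ j → Disjoint (Z i) (Z j)) {l : List Site} {E : ι → List (List Site)}
    (hl : l.IsChain Adj) (hE : Dec C Z l E) {i : ι} {e : List Site} (he : e ∈ E i) :
    (∀ x ∈ e, x ∈ l) ∧ ∃ a b, IsExc (C i) (Z i) a b e ∧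
      ((∃ y ∈ l, y ∉ C i ∧ Adj a y) ∨ l.head? = some a) := by
  classical
  induction hE with
  | last s hs h => exact absurd he List.not_mem_nil
  | step s e₀ l j a b E hs he₀ hlb h ih =>
    obtain ⟨z, hsplit, hhead, hz, hzb⟩ := isExc_split (hCZ j) he₀
    have hbl : b ∈ l := by
      cases l with
      | nil => exact absurd hlb (by simp)
      | cons y l' => rw [Option.some.inj hlb]; exact List.mem_cons_self
    have hlc : l.IsChain Adj := (List.isChain_append.1 hl).2.1
    have hsc : (s ++ e₀.dropLast).IsChain Adj := (List.isChain_append.1 hl).1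
    have hne : e₀.dropLast ≠ [] := by
      intro h0; rw [h0] at hhead; exact absurd hhead (by simp)
    -- the last element of the excursion before the exit
    have hzz : ∃ z' ∈ e₀.dropLast, z' ∈ Z j ∧ Adj z' b := by
      refine ⟨e₀.dropLast.getLast hne, List.getLast_mem hne, he₀.2.2.2 _ (List.getLast_mem hne), ?_⟩
      have h1 := (List.isChain_append.1 hl).2.2
      apply h1 _ _ b hlb
      rw [List.getLast?_append_of_ne_nil _ hne, List.getLast?_eq_some_getLast hne]
      rfl
    by_cases hij : i = j
    · subst hij
      rw [Function.update_self] at he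
      rcases List.mem_cons.1 he with rfl | he
      · refine ⟨?_, a, b, he₀, ?_⟩
        · intro x hx
          rw [hsplit] at hx
          rcases List.mem_append.1 hx with h1 | h1
          · exact List.mem_append_left _ (List.mem_append_right _ h1)
          · rw [List.mem_singleton] at h1
            rw [h1]
            exact List.mem_append_right _ hbl
        · cases s.eq_nil_or_concat with
          | inl h0 =>
            right
            rw [h0, List.nil_append, List.head?_append_of_ne_nil _ hne]
            exact hhead
          | inr h0 =>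
            obtain ⟨s', y, h0⟩ := h0
            left
            refine ⟨y, ?_, ?_, ?_⟩
            · rw [h0]; simp
            · apply hs y
              rw [h0]; simp
            · have h1 := (List.isChain_append.1 hsc).2.2
              have h2 : Adj y a := h1 y (by rw [h0]; simp) a hhead
              exact Adj.symm h2
      · obtain ⟨h1, a', b', h2, h3⟩ := ih hlc he
        refine ⟨fun x hx => List.mem_append_right _ (h1 x hx), a', b', h2, Or.inl ?_⟩
        rcases h3 with ⟨y, hy, hy2, hy3⟩ | h3
        · exact ⟨y, List.mem_append_right _ hy, hy2, hy3⟩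
        · rw [hlb] at h3
          have : b = a' := Option.some.inj h3
          exact absurd (hCZ _ (this ▸ h2.2.1)) he₀.2.2.1
    · rw [Function.update_of_ne hij] at he
      obtain ⟨h1, a', b', h2, h3⟩ := ih hlc he
      refine ⟨fun x hx => List.mem_append_right _ (h1 x hx), a', b', h2, Or.inl ?_⟩
      rcases h3 with ⟨y, hy, hy2, hy3⟩ | h3
      · exact ⟨y, List.mem_append_right _ hy, hy2, hy3⟩
      · rw [hlb] at h3
        have hba : b = a' := Option.some.inj h3
        obtain ⟨z', hz1, hz2, hz3⟩ := hzz
        refine ⟨z', List.mem_append_left _ (List.mem_append_right _ hz1), ?_, ?_⟩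
        · intro hz4
          exact Set.disjoint_left.1 (hdisj i j hij) (hCZ i hz4) hz2
        · rw [← hba]
          exact Adj.symm hz3

/-- The excursions are valid, inside the chain, and enter `C i` from outside. -/
theorem dec_enter {ι : Type} [Finite ι] {C Z : ι → Set Site} (hCZ : ∀ i, C i ⊆ Z i)
    (hdisj : ∀ i j, i ≠ j → Disjoint (Z i) (Z j)) {l : List Site} {E : ι → List (List Site)}
    (hl : l.IsChain Adj) (hE : Dec C Z l E) {i : ι} (h0 : ∀ x ∈ l.head?, x ∉ Z i)
    {e : List Site} (he : e ∈ E i) :
    (∀ x ∈ e, x ∈ l) ∧ ∃ a b, IsExc (C i) (Z i) a b e ∧ ∃ y ∈ l, y ∉ C i ∧ Adj a y := by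
  obtain ⟨h1, a, b, h2, h3 | h3⟩ := dec_enter_aux hCZ hdisj hl hE he
  · exact ⟨h1, a, b, h2, h3⟩
  · exact absurd (hCZ i h2.2.1) (h0 a h3)

end Pool.Agent.WSB71
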