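import Pool.Agent.WSB71.GBand
import Pool.Agent.WSB71.GContour
import Pool.Agent.WSB71.UCount
import Pool.Agent.WSB71.UDatB
import Pool.Agent.WSB71.UDec2
import Pool.Agent.WSB71.UGeoB

/-!
# UB7: existence of a datum
-/

open MeasureTheory Filter Topology
open scoped NNReal ENNReal

namespace Pool.Agent.WSB71

open Pool.Agent.LT

/-- Cost of a block. -/
noncomputable def costB (β η : ℝ) (L : ℕ) (b : BD) : ℝ :=
  if b.kind = 2 then tau β (toPlane b.v)
  else if b.kind = 1 then (1 - η) * β * b.len + β * L / 40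
  else (1 - η) * β * b.len

namespace UD

/-- The end points of an excursion in relative coordinates are bounded. -/
lemma ends_bd {n : ℕ} {G : Finset Site} {p : ℤ → Site} (hp : Cont G n p) {L : ℕ} (hL : 1 ≤ L)
    {r : ℕ} (hr : r < 4) {s s' : ℤ} (hlen : s' ≤ s + 2 * L) {C Z : Set Site} (hCZ : C ⊆ Z)
    (hZ : ∀ x, rel p r s x ∈ Z → ∃ i, s ≤ i ∧ i ≤ s' ∧ 10 * sd x (p i) ≤ L)
    {E : List (List Site)}
    (hE : ∀ e ∈ E, ∃ a b, IsExc {x | rel p r s x ∈ C} {x | rel p r s x ∈ Z} a b e) :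
    ∀ q ∈ ends (E.map (List.map (rel p r s))),
      ∃ x y : Site, q = (some x, some y) ∧ sd 0 x ≤ 10 * L ∧ sd 0 y ≤ 10 * L := by
  intro q hq
  unfold ends at hq
  simp only [List.map_map, List.mem_map] at hq
  obtain ⟨e, he, rfl⟩ := hq
  obtain ⟨a, b, hexc⟩ := hE e he
  have hZb : ∀ x, rel p r s x ∈ Z → sd x (p s) ≤ 3 * L := by
    intro x hx
    obtain ⟨i, h1, h2, h3⟩ := hZ x hx
    have h4 := sd_path hp.adj h1
    have h5 := sd_tri x (p i) (p s)
    rw [sd_comm (p i) (p s)] at h5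
    omega
  have hm := exc_map hexc
  refine ⟨rel p r s a, rel p r s b, ?_, ?_, ?_⟩
  · simp only [Function.comp]
    rw [hm.1.1, hm.1.2.1]
  · have h1 := hZb a (hCZ hexc.2.1)
    have h2 := rel_bd p hr s a
    omega
  · obtain ⟨z, _, _, hz, hzb⟩ := isExc_split (C := {x | rel p r s x ∈ C})
      (Z := {x | rel p r s x ∈ Z}) (fun x hx => hCZ hx) hexc
    have h1 := hZb z hz
    have h2 := rel_bd p hr s b
    have h3 := sd_tri b z (p s)
    rw [sd_comm b z, adj_sd hzb] at h3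
    omega

open Classical in
lemma kind_facts (Ex Bk : Finset ℕ) (i : ℕ) :
    ((if i ∈ Ex then 2 else if i ∈ Bk then 1 else 0) = 2 ↔ i ∈ Ex) ∧
    ((if i ∈ Ex then 2 else if i ∈ Bk then 1 else 0) = 1 → i ∈ Bk) ∧
    ((if i ∈ Ex then 2 else if i ∈ Bk then 1 else 0) ≠ 0 → i ∈ Ex ∨ i ∈ Bk) ∧
    (if i ∈ Ex then 2 else if i ∈ Bk then 1 else 0) ≤ 2 ∧
    (i ∉ Ex → i ∈ Bk → (if i ∈ Ex then 2 else if i ∈ Bk then 1 else 0) = 1) := by
  split_ifs with h1 h2 <;> simp_all

/-- Counting lost blocks. -/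
lemma count_lost {S T : Finset ℕ} {a m K h Hb : ℕ} (f g : ℕ → ℕ)
    (h1 : ∀ i ∈ S, m < f i) (h2 : ∑ i ∈ S, f i ≤ K) (h3 : ∀ i ∈ T, h < 10000 * g i)
    (h4 : ∑ i ∈ T, g i ≤ Hb) (ha : a ≤ 2 + S.card + T.card) :
    a * (m + 1) * h ≤ 2 * (m + 1) * h + K * h + 10 ^ 4 * Hb * (m + 1) := by
  have h5 : S.card * (m + 1) ≤ K := by
    refine le_trans ?_ h2
    rw [← smul_eq_mul, ← Finset.sum_const]
    exact Finset.sum_le_sum fun i hi => h1 i hi
  have h6 : T.card * h ≤ 10 ^ 4 * Hb := by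
    refine le_trans ?_ (Nat.mul_le_mul_left _ h4)
    rw [Finset.mul_sum, ← smul_eq_mul, ← Finset.sum_const]
    exact Finset.sum_le_sum fun i hi => (h3 i hi).le
  calc a * (m + 1) * h ≤ (2 + S.card + T.card) * (m + 1) * h := by gcongr
    _ = 2 * (m + 1) * h + S.card * (m + 1) * h + T.card * h * (m + 1) := by ring
    _ ≤ 2 * (m + 1) * h + K * h + 10 ^ 4 * Hb * (m + 1) := by gcongr

end UD

open UD

open Classical in
theorem datum_exists {β η : ℝ} (hβ : 1 ≤ β) (hη : 0 < η) (hη' : 2000 * η ≤ 1)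
    (hlow : ∀ v c, Realizable β v c → β / 2 * ‖toPlane v‖ ≤ c)
    (hflat : Realizable β (0, 1) ((1 + η) * β)) {M₁ : ℕ} (hM : 4 ≤ M₁) {l : List Site}
    (hl0 : l.head? = some 0) (hl : l.IsChain Adj) {L : ℕ} {h s₀ : ℤ} (hs : 1 ≤ s₀)
    (hh : 10 ^ 6 * s₀ ≤ h) (hhL : 1000 * h ≤ L) {K₀ : Finset Site} (hK : K₀.Nonempty)
    (hKc : ConnF (K₀ : Set Site)) (hKd : ∀ x ∈ K₀, L < dep (fil l.toFinset) x)
    {r₀ K m₉ Hb : ℕ}
    (hr₀ : 6 * (r₀ : ℤ) ≤ h) (hK1 : 1 ≤ K) (htr : ¬ Travels (fil l.toFinset) l r₀ L K)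
    (hHb : ((holeE l.toFinset).filter (fun q => h ≤ 30 * dep (fil l.toFinset) q.1 ∧
      dep (fil l.toFinset) q.1 ≤ L)).card ≤ Hb) :
    ∃ (s0 : Site) (bs : List BD) (mk : Fin M₁ → Site) (Jt : ℝ) (nr : ℕ),
      0 ≤ Jt ∧ Val h s₀ L (s₀ * h).toNat s0 bs l ∧
      (∃ n : ℕ, n = (bdry (fil l.toFinset)).card ∧ (bs.map BD.len).sum = n ∧
        bs.length * L ≤ n + 2 * M₁ * L ∧ sd 0 s0 ≤ 2 * n ∧ (∀ i, sd 0 (mk i) ≤ 2 * n) ∧
        (∀ x ∈ K₀, Metric.infDist (toPlane x)
          (convexHull ℝ (Set.range (fun i => toPlane (mk i)))) ≤ L + 4 + 40 * n / M₁) ∧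
        (∀ x ∈ fil l.toFinset, Metric.infDist (toPlane x)
          (convexHull ℝ (Set.range (fun i => toPlane (mk i)))) ≤ Jt + 40 * n / M₁ + 4)) ∧
      (bs.map (fun b => b.D.length)).sum ≤ K ∧ (∀ b ∈ bs, b.D.length ≤ m₉) ∧
      bs ∈ dataSet (bdry (fil l.toFinset)).card bs.length K L ∧
      nr * (m₉ + 1) * h ≤ 2 * (m₉ + 1) * h + K * h + 10 ^ 4 * Hb * (m₉ + 1) ∧
      PP β (convexHull ℝ (Set.range (fun i => toPlane (mk i)))) + β / 4 * Jt ≤
        (bs.map (costB β η L)).sum + 4 * η * β * L * (nr + 20 * M₁) := by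
  set G := fil l.toFinset with hG
  have hh1 : 1 ≤ h := by omega
  have hh6 : 10 ^ 6 ≤ h := by omega
  have hL1 : 1 ≤ L := by omega
  have hne : l ≠ [] := by rintro rfl; simp at hl0
  have h0l : (0 : Site) ∈ l := List.mem_of_head? hl0
  have hlG : ∀ x ∈ l, x ∈ G := fun x hx => subset_fil _ (List.mem_toFinset.2 hx)
  obtain ⟨n, p, hp⟩ := exists_contour (G := G) ⟨0, hlG 0 h0l⟩ (fil_conn (chain_conn hl))
    (fil_compl_conn _)
  obtain ⟨Jt, mk, k, c, rot, El, hJt, hmk, hK0, hpi, hck, hcm, hkL, hrot, hElk, hElig, hdj,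
    hcost⟩ := geo_blocks hβ hη hη' hlow hflat hM hp hh1 hhL hK hKc hKd
  -- the last site
  obtain ⟨la, hla⟩ : ∃ la, l.getLast? = some la := ⟨_, List.getLast?_eq_some_getLast hne⟩
  -- zones
  set γ : ℕ → List Site := fun i => blk p (rot i) (c i) (c (i + 1)) with hγ
  set R : ℕ → Site → Site := fun i => rel p (rot i) (c i) with hR
  have hz : ∀ i ∈ El, TilePath L (rd (rot i) (p (c (i + 1)) - p (c i))) (γ i) ∧
      (∀ x, R i x ∈ Zz (γ i) h → x ∈ G ∧ dep G x < L ∧
        (∃ j, c i ≤ j ∧ j ≤ c (i + 1) ∧ 10 * sd x (p j) ≤ L) ∧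
        ∀ j, inn (p j) (p (j + 1)) = x → ∃ m : ℤ, c i ≤ j + m * n ∧ j + m * n < c (i + 1)) ∧
      (∀ x y, R i x ∈ Cz (γ i) h → R i y ∉ Zz (γ i) h → y ∈ G →
        (∃ z, Adj z y ∧ R i z ∈ Zz (γ i) h) → h ≤ 6 * sd x y) ∧
      (∀ x y, R i x ∈ Cz (γ i) h → R i y ∉ Cz (γ i) h → y ∈ G →
        Adj x y → TileEnt h (γ i) (R i x)) ∧
      (∀ z y, R i z ∈ Zz (γ i) h → y ∈ G → Adj z y → rightOf (γ i) (R i y)) := by
    intro i hi
    obtain ⟨a, b, he⟩ := hElig i hi
    exact elig_zone hp hh1 hhL he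
  have hlen : ∀ i ∈ El, c i + L ≤ c (i + 1) ∧ c (i + 1) ≤ c i + 2 * L := by
    intro i hi
    obtain ⟨a, b, he⟩ := hElig i hi
    exact he.len
  have hdj' : ∀ i ∈ El, ∀ j ∈ El, i ≠ j → ∀ x, R i x ∈ Zz (γ i) h → R j x ∉ Zz (γ j) h :=
    fun i hi j hj hij x hx hx' => hdj i hi j hj hij x ⟨hx, hx'⟩
  set El₀ : Finset ℕ := El.filter (fun i => R i 0 ∉ Zz (γ i) h ∧ R i la ∉ Zz (γ i) h) with hEl₀
  have hEl₀' : ∀ i ∈ El₀, i ∈ El := fun i hi => (Finset.mem_filter.1 hi).1
  have hcard0 : (El \ El₀).card ≤ 2 := by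
    have h1 : El \ El₀ ⊆ El.filter (fun i => R i 0 ∈ Zz (γ i) h) ∪
        El.filter (fun i => R i la ∈ Zz (γ i) h) := by
      intro i hi
      simp only [hEl₀, Finset.mem_sdiff, Finset.mem_filter, Finset.mem_union, not_and,
        not_not] at hi ⊢
      obtain ⟨h2, h3⟩ := hi
      by_cases h4 : R i 0 ∈ Zz (γ i) h
      · exact Or.inl ⟨h2, h4⟩
      · exact Or.inr ⟨h2, by
          by_contra h5
          exact h5 (h3 h2 h4)⟩
    have h2 : ∀ x : Site, (El.filter (fun i => R i x ∈ Zz (γ i) h)).card ≤ 1 := by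
      intro x
      rw [Finset.card_le_one]
      intro i hi j hj
      rw [Finset.mem_filter] at hi hj
      by_contra hij
      exact hdj' i hi.1 j hj.1 hij x hi.2 hj.2
    refine (Finset.card_le_card h1).trans ((Finset.card_union_le _ _).trans ?_)
    have := h2 0
    have := h2 la
    omega
  -- the decomposition
  set Cc : Fin k → Set Site := fun i => {x | (i : ℕ) ∈ El₀ ∧ R i x ∈ Cz (γ i) h} with hCc
  set Zc : Fin k → Set Site := fun i => {x | (i : ℕ) ∈ El₀ ∧ R i x ∈ Zz (γ i) h} with hZc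
  have hCZ : ∀ i, Cc i ⊆ Zc i := fun i x hx => ⟨hx.1, Cz_sub_Zz hh1 hx.2⟩
  have hZdisj : ∀ i j, i ≠ j → Disjoint (Zc i) (Zc j) := by
    intro i j hij
    rw [Set.disjoint_left]
    intro x hx hx'
    exact hdj' _ (hEl₀' _ hx.1) _ (hEl₀' _ hx'.1) (fun h1 => hij (Fin.ext h1)) x hx.2 hx'.2
  obtain ⟨E, hE⟩ := exists_dec hCZ hZdisj hne hl (by
    intro a ha i hai
    rw [hla] at ha
    have ha' : la = a := Option.some.inj ha
    subst ha'
    exact (Finset.mem_filter.1 hai.1).2.2 hai.2)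
  have hEtot : ∑ i : Fin k, (E i).length < K := by
    by_contra hcon
    push Not at hcon
    apply htr
    refine dec_travels (G := G) (r := r₀) (D := L) hCZ (fun i x hx => ?_) (fun i x hx y hy hyZ hzy => ?_)
      hE hlG ⟨Finset.univ, hcon⟩
    · exact ((hz i (hEl₀' _ hx.1)).2.1 x hx.2).2.1
    · obtain ⟨z, hz1, hz2⟩ := hzy
      have h1 := (hz i (hEl₀' _ hx.1)).2.2.1 x y hx.2 (fun h2 => hyZ ⟨hx.1, h2⟩) hy
        ⟨z, hz2, hz1.2⟩
      omega
  set E' : ℕ → List (List Site) := fun i => if hi : i < k then E ⟨i, hi⟩ else [] with hE'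
  have hE'i : ∀ i : Fin k, E' i = E i := fun i => by rw [hE']; simp
  have hEsum : ∑ i ∈ Finset.range k, (E' i).length < K := by
    rw [Finset.sum_range]
    simpa only [hE'i] using hEtot
  -- band counts
  set V : ℕ → Set Site := fun i => {z | ∃ y ∈ l, R i y = z} with hV
  have hch : ∀ i ∈ El, (γ i).IsChain Adj ∧ γ i ≠ [] := fun i hi =>
    ⟨(hz i hi).1.chain, by
      intro h1
      have h2 := (hz i hi).1.head
      rw [h1] at h2
      simp at h2⟩
  have hQ : ∀ T ⊆ El, ∑ i ∈ T, (QS (γ i) h (V i)).ncard ≤ Hb := by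
    intro T hT
    refine le_trans (Finset.sum_le_sum (g := fun i =>
      ((HB l h L).filter (fun q => R i q.1 ∈ Zz (γ i) h)).card) fun i hi => ?_) ?_
    · exact QS_card (hch i (hT hi)).1 (hch i (hT hi)).2 hh6 fun x hx =>
        ⟨((hz i (hT hi)).2.1 x hx).1, ((hz i (hT hi)).2.1 x hx).2.1⟩
    · rw [← Finset.card_biUnion]
      · refine (Finset.card_le_card ?_).trans hHb
        intro q hq
        rw [Finset.mem_biUnion] at hq
        obtain ⟨i, _, hq⟩ := hq
        exact (Finset.mem_filter.1 hq).1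
      · intro i hi j hj hij
        rw [Function.onFun, Finset.disjoint_left]
        intro q hq hq'
        exact hdj' i (hT hi) j (hT hj) hij q.1 (Finset.mem_filter.1 hq).2
          (Finset.mem_filter.1 hq').2
  -- lost blocks
  set A : Finset ℕ := El₀.filter (fun i => m₉ < (E' i).length) with hA
  set B : Finset ℕ := El₀.filter (fun i => h < 10000 * ((QS (γ i) h (V i)).ncard : ℤ)) with hB
  set Rem : Finset ℕ := El₀ \ (A ∪ B) with hRem
  have hRem' : ∀ i ∈ Rem, i ∈ El₀ ∧ (E' i).length ≤ m₉ ∧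
      10000 * ((QS (γ i) h (V i)).ncard : ℤ) ≤ h := by
    intro i hi
    simp only [hRem, hA, hB, Finset.mem_sdiff, Finset.mem_union, Finset.mem_filter, not_or,
      not_and, not_lt] at hi
    exact ⟨hi.1, hi.2.1 hi.1, hi.2.2 hi.1⟩
  set t2 : ℕ → Prop := fun i => ∃ ρ : ℤ, h ≤ 4 * ρ ∧ 2 * ρ ≤ h ∧
      ({x : Site | rightOf (γ i) x ∧ Tfst (γ i) + 8 * h ≤ Ts x ∧ Ts x ≤ Tlst (γ i) - 8 * h ∧
        env (γ i) (Ts x) + ρ ≤ gs x ∧ gs x < env (γ i) (Ts x) + ρ + s₀ ∧ x ∉ V i}.ncard : ℤ)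
          ≤ s₀ * h with ht2
  set Ex : Finset ℕ := Rem.filter t2 with hEx
  set Bk : Finset ℕ := Rem.filter (fun i => ¬ t2 i) with hBk
  have hExEl : ∀ i ∈ Ex, i ∈ El := fun i hi => hEl₀' i (hRem' i (Finset.mem_filter.1 hi).1).1
  have hBkEl : ∀ i ∈ Bk, i ∈ El := fun i hi => hEl₀' i (hRem' i (Finset.mem_filter.1 hi).1).1
  have hin : ∀ i, ∀ st ∈ steps (γ i), inn st.1 st.2 ∈ Cz (γ i) h → ∃ y ∈ l, R i y = inn st.1 st.2 :=
    fun i st hst _ => inn_visited hp (rot i) st hst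
  have hblk : ∀ i ∈ Bk, (L : ℤ) ≤ 8 * ({q : Site × Site | Adj q.1 q.2 ∧ q.1 ∈ l ∧ q.2 ∉ l ∧
      q.1 ∈ {x | R i x ∈ Cz (γ i) h} ∧ q.2 ∈ {x | R i x ∈ Cz (γ i) h}}.ncard : ℤ) := by
    intro i hi
    have h1 := (Finset.mem_filter.1 hi).1
    have h2 := (Finset.mem_filter.1 hi).2
    have h3 := hRem' i h1
    rcases band_dichotomy (hz i (hEl₀' i h3.1)).1 hs hh hhL (V i) (fun st hst hC => by
      obtain ⟨y, hy, h4⟩ := hin i st hst hC
      exact ⟨y, hy, h4⟩) h3.2.2 with h4 | h4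
    · exact absurd h4 h2
    · exact blocked_abs h4
  have hnr : (El \ Rem).card ≤ 2 + A.card + B.card := by
    have h1 : El \ Rem ⊆ (El \ El₀) ∪ A ∪ B := by
      intro i hi
      simp only [hRem, Finset.mem_sdiff, Finset.mem_union, not_and, not_not] at hi ⊢
      by_cases h2 : i ∈ El₀
      · rcases hi.2 h2 with h3 | h3
        · exact Or.inl (Or.inr h3)
        · exact Or.inr h3
      · exact Or.inl (Or.inl ⟨hi.1, h2⟩)
    refine (Finset.card_le_card h1).trans ?_
    have h2 := Finset.card_union_le ((El \ El₀) ∪ A) B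
    have h3 := Finset.card_union_le (El \ El₀) A
    omega
  have hExc : (El \ Ex).card ≤ Bk.card + (El \ Rem).card := by
    refine le_trans (Finset.card_le_card ?_) (Finset.card_union_le Bk (El \ Rem))
    intro i hi
    simp only [hEx, hBk, Finset.mem_sdiff, Finset.mem_union, Finset.mem_filter, not_and] at hi ⊢
    by_cases h2 : i ∈ Rem
    · exact Or.inl ⟨h2, hi.2 h2⟩
    · exact Or.inr ⟨hi.1, h2⟩
  -- the data
  set f : ℕ → BD := fun i => ⟨p (c (i + 1)) - p (c i), (c (i + 1) - c i).toNat,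
    if i ∈ Ex then 2 else if i ∈ Bk then 1 else 0, rot i,
    if i ∈ Ex then ends ((E' i).map (List.map (R i))) else []⟩ with hf
  have hfk2 : ∀ i, (f i).kind = 2 ↔ i ∈ Ex := fun i => (kind_facts Ex Bk i).1
  have hfk1 : ∀ i, (f i).kind = 1 → i ∈ Bk := fun i => (kind_facts Ex Bk i).2.1
  have hfk0 : ∀ i, (f i).kind ≠ 0 → i ∈ El := fun i h1 =>
    ((kind_facts Ex Bk i).2.2.1 h1).elim (hExEl i) (hBkEl i)
  have hfk3 : ∀ i, (f i).kind ≤ 2 := fun i => (kind_facts Ex Bk i).2.2.2.1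
  have hfk4 : ∀ i, i ∉ Ex → i ∈ Bk → (f i).kind = 1 := fun i => (kind_facts Ex Bk i).2.2.2.2
  have hfD : ∀ i, i ∉ Ex → (f i).D = [] := fun i hi => if_neg hi
  have hfD2 : ∀ i, i ∈ Ex → (f i).D = ends ((E' i).map (List.map (R i))) := fun i hi => if_pos hi
  have hDlen : ∀ i, (f i).D.length ≤ (E' i).length := by
    intro i
    by_cases hi : i ∈ Ex
    · rw [hfD2 i hi]
      simp [ends]
    · rw [hfD i hi]
      simp
  have hclen : ∀ i < k, c i + ((f i).len : ℤ) = c (i + 1) := by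
    intro i hi
    have h1 := hcm i hi
    show c i + ((c (i + 1) - c i).toNat : ℤ) = c (i + 1)
    omega
  have habsC : ∀ i < k, absC p h (f i) (c i) = {x | R i x ∈ Cz (γ i) h} := by
    intro i hi
    unfold absC
    rw [hclen i hi]
  have habsZ : ∀ i < k, absZ p h (f i) (c i) = {x | R i x ∈ Zz (γ i) h} := by
    intro i hi
    unfold absZ
    rw [hclen i hi]
  set bs : List BD := (List.range k).map f with hbs
  have hbsl : bs.length = k := by rw [hbs]; simp
  have hbsi : ∀ i (hi : i < bs.length), bs[i] = f i := by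
    intro i hi
    simp [hbs]
  have hsumlen : ∀ j ≤ k, ((∑ i ∈ Finset.range j, (f i).len : ℕ) : ℤ) = c j - c 0 := by
    intro j
    induction j with
    | zero => intro _; simp
    | succ j ih =>
      intro hj
      rw [Finset.sum_range_succ, Nat.cast_add, ih (by omega)]
      have := hclen j (by omega)
      linarith
  have hsl : (bs.map BD.len).sum = n := by
    have h1 : (bs.map BD.len) = (List.range k).map (fun i => (f i).len) := by
      rw [hbs, List.map_map]; rfl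
    rw [h1, sum_range_map]
    have h2 := hsumlen k le_rfl
    rw [hck] at h2
    push_cast at h2
    have h3 : ((∑ i ∈ Finset.range k, (f i).len : ℕ) : ℤ) = n := by
      push_cast
      linarith
    exact_mod_cast h3
  have hDsum : (bs.map (fun b => b.D.length)).sum ≤ K := by
    have h1 : (bs.map (fun b => b.D.length)) = (List.range k).map (fun i => (f i).D.length) := by
      rw [hbs, List.map_map]; rfl
    rw [h1, sum_range_map]
    exact (Finset.sum_le_sum fun i _ => hDlen i).trans hEsum.le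
  have hmem_bs : ∀ b ∈ bs, ∃ i < k, b = f i := by
    intro b hb
    rw [hbs, List.mem_map] at hb
    obtain ⟨i, hi, rfl⟩ := hb
    exact ⟨i, List.mem_range.1 hi, rfl⟩
  -- excursions of exact blocks
  have hexc : ∀ i (hi : i < k), i ∈ El₀ → ∀ e ∈ E' i, ∃ a b,
      IsExc {x | R i x ∈ Cz (γ i) h} {x | R i x ∈ Zz (γ i) h} a b e ∧
      TileEnt h (γ i) (R i a) ∧ rightOf (γ i) (R i b) := by
    intro i hi hi0 e he
    have he' : e ∈ E ⟨i, hi⟩ := by rw [← hE'i ⟨i, hi⟩]; exact he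
    obtain ⟨h1, a, b, ⟨h2, h3, h4, h5⟩, y, hy, hyC, hay⟩ := dec_enter hCZ hZdisj hl hE
      (i := ⟨i, hi⟩) (by
        intro x hx hxZ
        rw [hl0] at hx
        have hx' : (0 : Site) = x := Option.some.inj hx
        subst hx'
        exact (Finset.mem_filter.1 hi0).2.1 hxZ.2) he'
    have h6 : IsExc {x | R i x ∈ Cz (γ i) h} {x | R i x ∈ Zz (γ i) h} a b e :=
      ⟨h2, h3.2, fun h7 => h4 ⟨hi0, h7⟩, fun x hx => (h5 x hx).2⟩
    refine ⟨a, b, h6, ?_, ?_⟩
    · exact (hz i (hEl₀' i hi0)).2.2.2.1 a y h3.2 (fun h7 => hyC ⟨hi0, h7⟩) (hlG y hy) hay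
    · obtain ⟨z, _, _, hz1, hzb⟩ := isExc_split (C := {x | R i x ∈ Cz (γ i) h})
        (Z := {x | R i x ∈ Zz (γ i) h}) (fun x hx => Cz_sub_Zz hh1 hx) h6
      refine (hz i (hEl₀' i hi0)).2.2.2.2 z b hz1 (hlG b (h1 b ?_)) hzb
      exact List.mem_of_getLast? h2.2.1
  have hConv : Convex ℝ (convexHull ℝ (Set.range (fun i => toPlane (mk i)))) := convex_convexHull ℝ _
  have hHne : (convexHull ℝ (Set.range (fun i => toPlane (mk i)))).Nonempty := by
    rw [convexHull_nonempty_iff]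
    exact ⟨_, ⟨0, by omega⟩, rfl⟩
  refine ⟨p (c 0), bs, mk, Jt, (El \ Rem).card, hJt, ?_, ⟨n, hp.card, hsl, ?_, ?_, ?_, hK0, ?_⟩,
    hDsum, ?_, ?_, ?_, ?_⟩
  · -- validity
    refine ⟨hl0, hl, n, p, c, ⟨hp, rfl, by rw [hbsl]; exact hck, ?_, ?_, ?_, ?_, ?_⟩, ?_, ?_⟩
    · intro i hi
      rw [hbsi i hi]
      rw [hbsl] at hi
      exact ⟨(hclen i hi).symm, by show _ = p (c i) + (p (c (i + 1)) - p (c i)); rw [add_sub_cancel]⟩
    · intro i hi h2
      rw [hbsi i hi] at h2 ⊢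
      exact hfD i (fun h3 => h2 ((hfk2 i).2 h3))
    · intro i hi h2
      rw [hbsi i hi] at h2 ⊢
      rw [hbsl] at hi
      rw [hclen i hi]
      exact (hz i (hExEl i ((hfk2 i).1 h2))).1
    · intro i hi h2 x hx
      rw [hbsi i hi] at h2 hx
      rw [hbsl] at hi
      rw [habsZ i hi] at hx
      have h3 := (hz i (hfk0 i h2)).2.1 x hx
      exact ⟨h3.1, h3.2.1, h3.2.2.2⟩
    · intro i j hi hj hij h2 h3
      rw [hbsi i hi] at h2
      rw [hbsi j hj] at h3
      rw [hbsi i hi, hbsi j hj]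
      rw [hbsl] at hi hj
      rw [habsZ i hi, habsZ j hj, Set.disjoint_left]
      intro x hx hx'
      exact hdj' i (hfk0 i h2) j (hfk0 j h3) hij x hx hx'
    · -- decomposition
      have hkey : ∀ m : ℕ, m = k → ∃ F : Fin m → List (List Site),
          Dec (fun i : Fin m => {x | (i : ℕ) ∈ Ex ∧ R i x ∈ Cz (γ i) h})
            (fun i : Fin m => {x | (i : ℕ) ∈ Ex ∧ R i x ∈ Zz (γ i) h}) l F ∧
          ∀ i : Fin m, (i : ℕ) ∈ Ex → F i = E' i := by
        rintro m rfl
        have h1 := dec_restrict hCZ hZdisj hE {i | (i : ℕ) ∈ Ex}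
        refine ⟨fun i => if i ∈ {i : Fin m | (i : ℕ) ∈ Ex} then E i else [], ?_, ?_⟩
        · convert h1 using 1
          · funext i
            ext x
            by_cases hi : (i : ℕ) ∈ Ex
            · have hi0 : (i : ℕ) ∈ El₀ := (hRem' i (Finset.mem_filter.1 hi).1).1
              simp [hi, hi0, hCc]
            · simp [hi]
          · funext i
            ext x
            by_cases hi : (i : ℕ) ∈ Ex
            · have hi0 : (i : ℕ) ∈ El₀ := (hRem' i (Finset.mem_filter.1 hi).1).1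
              simp [hi, hi0, hZc]
            · simp [hi]
          · funext i
            by_cases hi : (i : ℕ) ∈ Ex <;> simp [hi]
        · intro i hi
          rw [hE'i i]
          exact if_pos hi
      obtain ⟨F, hF1, hF2⟩ := hkey bs.length hbsl
      refine ⟨F, ?_, ?_⟩
      · convert hF1 using 1
        · funext i
          ext x
          have hi : (i : ℕ) < bs.length := i.2
          have hik : (i : ℕ) < k := by rw [← hbsl]; exact hi
          show (bs[(i : ℕ)].kind = 2 ∧ x ∈ absC p h bs[(i : ℕ)] (c i)) ↔ _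
          rw [hbsi i hi, hfk2, habsC i hik]
          rfl
        · funext i
          ext x
          have hi : (i : ℕ) < bs.length := i.2
          have hik : (i : ℕ) < k := by rw [← hbsl]; exact hi
          show (bs[(i : ℕ)].kind = 2 ∧ x ∈ absZ p h bs[(i : ℕ)] (c i)) ↔ _
          rw [hbsi i hi, hfk2, habsZ i hik]
          rfl
      · intro i h2
        have hi : (i : ℕ) < bs.length := i.2
        have hik : (i : ℕ) < k := by rw [← hbsl]; exact hi
        have hbi : bs[i] = f i := hbsi i hi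
        rw [hbi] at h2 ⊢
        have hiE : (i : ℕ) ∈ Ex := (hfk2 i).1 h2
        have hiR := (Finset.mem_filter.1 hiE)
        have hi0 := (hRem' i hiR.1).1
        rw [hclen i hik, hF2 i hiE, hfD2 i hiE]
        refine mk_tile (hz i (hEl₀' i hi0)).1 hs hh (hexc i hik hi0) (hin i) ?_ hiR.2
        intro x hx
        rw [hE'i ⟨i, hik⟩]
        exact dec_mem hCZ hZdisj hE (i := ⟨i, hik⟩) ⟨hi0, hx⟩
    · intro i hi h2
      rw [hbsi i hi] at h2 ⊢
      rw [hbsl] at hi
      rw [habsC i hi]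
      exact hblk i (hfk1 i h2)
  · rw [hbsl]; exact hkL
  · exact (sd_in hp (hlG 0 h0l) _).trans (by omega)
  · intro i
    obtain ⟨m, hm⟩ := hmk i
    rw [hm]
    exact (sd_in hp (hlG 0 h0l) _).trans (by omega)
  · intro x hx
    refine (inf_le hp hConv hHne hpi hx).trans ?_
    linarith
  · intro b hb
    obtain ⟨i, hi, rfl⟩ := hmem_bs b hb
    by_cases h2 : i ∈ Ex
    · exact (hDlen i).trans (hRem' i (Finset.mem_filter.1 h2).1).2.1
    · rw [hfD i h2]
      simp
  · refine ⟨le_rfl, ?_, hDsum, ?_⟩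
    · rw [hsl, ← hp.card]
    · intro b hb
      obtain ⟨i, hi, rfl⟩ := hmem_bs b hb
      have h1 := sd_path hp.adj (hcm i hi).le
      have h2 := hclen i hi
      have h3 : (f i).v = p (c (i + 1)) - p (c i) := rfl
      refine ⟨?_, ?_, ?_, hrot i, ?_⟩
      · rw [h3, Prod.fst_sub]
        unfold sd at h1
        omega
      · rw [h3, Prod.snd_sub]
        unfold sd at h1
        omega
      · exact hfk3 i
      · intro q hq
        by_cases h4 : i ∈ Ex
        · rw [hfD2 i h4] at hq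
          have hi0 := (hRem' i (Finset.mem_filter.1 h4).1).1
          refine ends_bd (C := Cz (γ i) h) (Z := Zz (γ i) h) hp hL1 (hrot i)
            (hlen i (hEl₀' i hi0)).2 (Cz_sub_Zz hh1) (fun x hx => ?_) (fun e he => ?_) q hq
          · exact ((hz i (hEl₀' i hi0)).2.1 x hx).2.2.1
          · obtain ⟨a, b, h5, _⟩ := hexc i hi hi0 e he
            exact ⟨a, b, h5⟩
        · rw [hfD i h4] at hq
          simp at hq
  · -- lost blocks
    have h1 := count_lost (S := A) (T := B) (a := (El \ Rem).card) (m := m₉) (K := K)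
      (h := h.toNat) (Hb := Hb) (fun i => (E' i).length) (fun i => (QS (γ i) h (V i)).ncard)
      (fun i hi => (Finset.mem_filter.1 hi).2) ?_ ?_ ?_ hnr
    · have h2 : ((h.toNat : ℕ) : ℤ) = h := Int.toNat_of_nonneg (by omega)
      have h3 : (((El \ Rem).card * (m₉ + 1) * h.toNat : ℕ) : ℤ) ≤
        ((2 * (m₉ + 1) * h.toNat + K * h.toNat + 10 ^ 4 * Hb * (m₉ + 1) : ℕ) : ℤ) := by
        exact_mod_cast h1
      simp only [Nat.cast_add, Nat.cast_mul, h2, Nat.cast_one, Nat.cast_pow,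
        Nat.cast_ofNat] at h3
      exact h3
    · refine le_trans (Finset.sum_le_sum_of_subset ?_) hEsum.le
      intro i hi
      exact Finset.mem_range.2 (hElk i (hEl₀' i (Finset.mem_filter.1 hi).1))
    · intro i hi
      have h2 := (Finset.mem_filter.1 hi).2
      omega
    · exact hQ B fun i hi => hEl₀' i (Finset.mem_filter.1 hi).1
  · -- cost
    have h1 := hcost Ex hExEl
    refine h1.trans ?_
    have h2 : (bs.map (costB β η L)).sum = ∑ i ∈ Finset.range k, costB β η L (f i) := by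
      rw [hbs, List.map_map, sum_range_map]
      rfl
    rw [h2]
    have h3 : ∑ i ∈ Finset.range k, (if i ∈ Ex then tau β (toPlane (p (c (i + 1)) - p (c i)))
            else (1 - η) * β * ((c (i + 1) - c i : ℤ) : ℝ)) + β * L / 40 * Bk.card ≤
        ∑ i ∈ Finset.range k, costB β η L (f i) := by
      have h4 : β * L / 40 * Bk.card = ∑ i ∈ Finset.range k, if i ∈ Bk then β * L / 40 else 0 := by
        rw [← Finset.sum_filter, Finset.sum_const, nsmul_eq_mul, mul_comm]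
        congr 2
        congr 1
        ext i
        simp only [Finset.mem_filter, Finset.mem_range]
        exact ⟨fun h5 => ⟨hElk i (hBkEl i h5), h5⟩, fun h5 => h5.2⟩
      rw [h4, ← Finset.sum_add_distrib]
      refine Finset.sum_le_sum fun i hi => ?_
      rw [Finset.mem_range] at hi
      have h5 : ((c (i + 1) - c i : ℤ) : ℝ) = ((f i).len : ℝ) := by
        have := hclen i hi
        have h6 : c (i + 1) - c i = ((f i).len : ℤ) := by linarith
        rw [h6]
        norm_cast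
      rw [h5]
      by_cases h6 : i ∈ Ex
      · have h7 : i ∉ Bk := by
          intro h8
          exact (Finset.mem_filter.1 h8).2 (Finset.mem_filter.1 h6).2
        rw [if_pos h6, if_neg h7]
        unfold costB
        rw [if_pos ((hfk2 i).2 h6), add_zero]
      · rw [if_neg h6]
        unfold costB
        rw [if_neg (fun h8 => h6 ((hfk2 i).1 h8))]
        by_cases h7 : i ∈ Bk
        · rw [if_pos h7, if_pos (hfk4 i h6 h7)]
        · rw [if_neg h7, if_neg (fun h8 => h7 (hfk1 i h8)), add_zero]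
    have h4 : ((El \ Ex).card : ℝ) ≤ Bk.card + (El \ Rem).card := by exact_mod_cast hExc
    have h5 : (0 : ℝ) ≤ L := Nat.cast_nonneg _
    have h6 : (0 : ℝ) ≤ (Bk.card : ℝ) := Nat.cast_nonneg _
    have h7 : 0 ≤ β * L := mul_nonneg (by linarith) h5
    have h8 : 4 * η * β * L * (El \ Ex).card ≤
        4 * η * β * L * Bk.card + 4 * η * β * L * (El \ Rem).card := by
      rw [← mul_add]
      refine mul_le_mul_of_nonneg_left h4 ?_
      positivity
    have h9 : 4 * η * β * L * Bk.card ≤ β * L / 40 * Bk.card := by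
      refine mul_le_mul_of_nonneg_right ?_ h6
      nlinarith
    have h10 : 4 * η * β * L * ((El \ Ex).card + 20 * M₁) =
        4 * η * β * L * (El \ Ex).card + 4 * η * β * L * (20 * M₁) := by ring
    have h11 : 4 * η * β * L * ((El \ Rem).card + 20 * M₁) =
        4 * η * β * L * (El \ Rem).card + 4 * η * β * L * (20 * M₁) := by ring
    rw [h10, h11]
    linarith

end Pool.Agent.WSB71
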