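import Mathlib

/-!
# UB: counting the blocks which meet an interval modulo `n`
-/

namespace Pool.Agent.WSB71

namespace GeoB

/-- disjoint intervals of length at least `L` meeting `[A, B]` -/
lemma count_sep {ι : Type*} (T : Finset ι) (s e : ι → ℤ) {L A B : ℤ} (hL : 1 ≤ L) (hAB : A ≤ B)
    (hlen : ∀ t ∈ T, L ≤ e t - s t) (hmeet : ∀ t ∈ T, s t ≤ B ∧ A ≤ e t)
    (hdis : ∀ t ∈ T, ∀ t' ∈ T, t ≠ t' → e t ≤ s t' ∨ e t' ≤ s t) :
    L * (T.card : ℤ) ≤ B - A + 2 * L := by
  classical
  have h1 : (T.filter (fun t => s t < A)).card ≤ 1 := by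
    rw [Finset.card_le_one]
    intro t ht t' ht'
    rw [Finset.mem_filter] at ht ht'
    by_contra hne
    have a1 := hmeet t ht.1
    have a2 := hmeet t' ht'.1
    rcases hdis t ht.1 t' ht'.1 hne with h | h
    · linarith [ht'.2]
    · linarith [ht.2]
  have h2 : (T.filter (fun t => ¬ s t < A)).card ≤ ((B - A) / L + 1).toNat := by
    rw [← Finset.card_range ((B - A) / L + 1).toNat]
    refine Finset.card_le_card_of_injOn (fun t => ((s t - A) / L).toNat) ?_ ?_
    · intro t ht
      rw [Finset.mem_coe, Finset.mem_filter] at ht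
      have a1 := hmeet t ht.1
      have h3 : (s t - A) / L ≤ (B - A) / L := Int.ediv_le_ediv (by omega) (by omega)
      have h4 : 0 ≤ (s t - A) / L := Int.ediv_nonneg (by omega) (by omega)
      simp only [Finset.coe_range, Set.mem_Iio]
      omega
    · intro t ht t' ht' heq
      rw [Finset.mem_coe, Finset.mem_filter] at ht ht'
      by_contra hne
      have h4 : 0 ≤ (s t - A) / L := Int.ediv_nonneg (by omega) (by omega)
      have h5 : 0 ≤ (s t' - A) / L := Int.ediv_nonneg (by omega) (by omega)
      have h6 : (s t - A) / L = (s t' - A) / L := by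
        simp only at heq
        omega
      have e1 := Int.emod_add_mul_ediv (s t - A) L
      have e2 := Int.emod_add_mul_ediv (s t' - A) L
      rw [h6] at e1
      have b1 := Int.emod_nonneg (s t - A) (show L ≠ 0 by omega)
      have b2 := Int.emod_lt_of_pos (s t - A) (show 0 < L by omega)
      have b3 := Int.emod_nonneg (s t' - A) (show L ≠ 0 by omega)
      have b4 := Int.emod_lt_of_pos (s t' - A) (show 0 < L by omega)
      have c1 := hlen t ht.1
      have c2 := hlen t' ht'.1
      rcases hdis t ht.1 t' ht'.1 hne with h | h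
      · linarith
      · linarith
  have h3 : T.card = (T.filter (fun t => s t < A)).card + (T.filter (fun t => ¬ s t < A)).card :=
    (Finset.card_filter_add_card_filter_not _).symm
  have h4 : ((T.filter (fun t => ¬ s t < A)).card : ℤ) ≤ (B - A) / L + 1 := by
    have h5 : 0 ≤ (B - A) / L := Int.ediv_nonneg (by omega) (by omega)
    have h6 : ((T.filter (fun t => ¬ s t < A)).card : ℤ) ≤ (((B - A) / L + 1).toNat : ℤ) := by
      exact_mod_cast h2
    omega
  have h5 : ((T.filter (fun t => s t < A)).card : ℤ) ≤ 1 := by exact_mod_cast h1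
  have h6 : (T.card : ℤ) ≤ (B - A) / L + 2 := by
    rw [h3]; push_cast; linarith
  have h7 : L * ((B - A) / L) ≤ B - A := Int.mul_ediv_self_le (by omega)
  calc L * (T.card : ℤ) ≤ L * ((B - A) / L + 2) := mul_le_mul_of_nonneg_left h6 (by omega)
    _ ≤ B - A + 2 * L := by linarith

lemma strict {k : ℕ} {c : ℕ → ℤ} (hc : ∀ i < k, c i < c (i + 1)) {i j : ℕ} (hij : i ≤ j)
    (hj : j ≤ k) : c i ≤ c j := by
  induction j with
  | zero =>
    have : i = 0 := by omega
    rw [this]
  | succ j ih =>
    rcases Nat.lt_or_ge j i with h | h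
    · have : i = j + 1 := by omega
      rw [this]
    · exact (ih h (by omega)).trans (hc j (by omega)).le

open Classical in
/-- the long blocks which meet the window `[A, B]` modulo `n` -/
lemma count_window {n k : ℕ} {c : ℕ → ℤ} (hc : ∀ i < k, c i < c (i + 1)) (hk : c k = c 0 + n)
    {L : ℕ} (hL : 1 ≤ L) {A B : ℤ} (hAB : A ≤ B) :
    (L : ℤ) * (((Finset.range k).filter (fun t => (L : ℤ) ≤ c (t + 1) - c t ∧
      ∃ i, c t ≤ i ∧ i ≤ c (t + 1) ∧ ∃ m : ℤ, A ≤ i + m * n ∧ i + m * n ≤ B)).card : ℤ) ≤
      B - A + 2 * L := by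
  set T := (Finset.range k).filter (fun t => (L : ℤ) ≤ c (t + 1) - c t ∧
      ∃ i, c t ≤ i ∧ i ≤ c (t + 1) ∧ ∃ m : ℤ, A ≤ i + m * n ∧ i + m * n ≤ B) with hT
  have hm : ∀ t : ℕ, ∃ m : ℤ, t ∈ T → c t + m * n ≤ B ∧ A ≤ c (t + 1) + m * n := by
    intro t
    by_cases ht : t ∈ T
    · obtain ⟨-, -, i, h1, h2, m, h3, h4⟩ := Finset.mem_filter.1 ht
      exact ⟨m, fun _ => ⟨by linarith, by linarith⟩⟩
    · exact ⟨0, fun h => absurd h ht⟩
  choose m hm using hm
  refine count_sep T (fun t => c t + m t * n) (fun t => c (t + 1) + m t * n)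
    (by exact_mod_cast hL) hAB ?_ (fun t ht => hm t ht) ?_
  · intro t ht
    have := (Finset.mem_filter.1 ht).2.1
    linarith
  · -- lifts of different blocks are disjoint
    have key : ∀ t t' : ℕ, t < t' → t' < k → ∀ a b : ℤ,
        c (t + 1) + a * n ≤ c t' + b * n ∨ c (t' + 1) + b * n ≤ c t + a * n := by
      intro t t' htt' ht' a b
      rcases le_or_gt a b with h | h
      · left
        have h1 : c (t + 1) ≤ c t' := strict hc (by omega) ht'.le
        have h2 : a * n ≤ b * n := mul_le_mul_of_nonneg_right h (by positivity)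
        linarith
      · right
        have h1 : c (t' + 1) ≤ c k := strict hc (by omega) le_rfl
        have h2 : c 0 ≤ c t := strict hc (by omega) (by omega)
        have h3 : (b + 1) * n ≤ a * n := mul_le_mul_of_nonneg_right (by omega) (by positivity)
        linarith
    intro t ht t' ht' hne
    have h1 : t < k := Finset.mem_range.1 (Finset.mem_filter.1 ht).1
    have h2 : t' < k := Finset.mem_range.1 (Finset.mem_filter.1 ht').1
    rcases lt_or_gt_of_ne hne with h | h
    · exact key t t' h h2 _ _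
    · exact (key t' t h h1 _ _).symm

end GeoB

end Pool.Agent.WSB71
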