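import Pool.Agent.WSB71.FMain
import Pool.Agent.WSB71.TileCont
import Pool.Agent.WSB71.UDatum

/-!
# UB8, part 1: the weight of the blocks of a datum
-/

open MeasureTheory Filter Topology
open scoped NNReal ENNReal Pointwise

namespace Pool.Agent.WSB71

open Pool.Agent.LT

namespace UM

lemma realizable_unrd {β c : ℝ} : ∀ (r : ℕ) (v : Site), Realizable β (rd r v) c → Realizable β v c
  | 0, _, h => h
  | r + 1, v, h => by
    have h1 := realizable_unrd r _ h
    have h2 := realizable_rot (realizable_rot (realizable_rot h1))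
    simpa using h2

lemma tau_le {β c : ℝ} (hβ : 0 ≤ β) (hlow : ∀ v c, Realizable β v c → β / 2 * ‖toPlane v‖ ≤ c)
    {v : Site} (h : Realizable β v c) : tau β (toPlane v) ≤ c := by
  apply csSup_le
  · refine ⟨_, 0, ?_, rfl⟩
    intro v c h
    rw [inner_zero_left]
    exact (mul_nonneg (by linarith) (norm_nonneg _)).trans (hlow v c h)
  · rintro _ ⟨n, hn, rfl⟩
    exact hn v c h

lemma ZT_zero_imp {β lam : ℝ} (hβ : 0 ≤ β) {h s₀ : ℤ} {L M : ℕ} {v : Site}
    {D : List (Option Site × Option Site)} (h0 : ZT β 0 h s₀ L M v D = 0) :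
    ZT β lam h s₀ L M v D = 0 := by
  unfold ZT at h0 ⊢
  rw [ENNReal.tsum_eq_zero] at h0 ⊢
  intro q
  exact absurd (h0 q) (TC.Wg_zero_pos hβ _ _)

lemma exists_pos_le {α : Type*} (F : Finset α) (g : α → ℝ) (hg : ∀ q ∈ F, 0 < g q) :
    ∃ x : ℝ, 0 < x ∧ ∀ q ∈ F, x ≤ g q := by
  rcases F.eq_empty_or_nonempty with rfl | hne
  · exact ⟨1, one_pos, fun q hq => absurd hq (Finset.notMem_empty q)⟩
  · obtain ⟨a, ha, hmin⟩ := Finset.exists_min_image F g hne
    exact ⟨g a, hg a ha, hmin⟩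

/-- The tile sums of one scale. -/
lemma tile_bound {β εT δ : ℝ} (hβ : 1 ≤ β) (hδ : 0 < δ)
    (hlow : ∀ v c, Realizable β v c → β / 2 * ‖toPlane v‖ ≤ c) {h s₀ : ℤ} {L M m : ℕ}
    (hh : 1 ≤ h)
    (hR : ∀ (v : Site) (D : List (Option Site × Option Site)), D.length ≤ m →
      ZT β 0 h s₀ L M v D ≠ 0 →
        Realizable β v (-Real.log (ZT β 0 h s₀ L M v D).toReal + εT * L)) :
    ∃ lam₀ : ℝ, 0 < lam₀ ∧ ∀ lam : ℝ, 0 ≤ lam → lam ≤ lam₀ → ∀ (r : ℕ) (v : Site)
      (D : List (Option Site × Option Site)), D.length ≤ m →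
        ZT β lam h s₀ L M (rd r v) D ≤
          ENNReal.ofReal (Real.exp (δ + εT * L - tau β (toPlane v))) := by
  classical
  have hβ0 : 0 ≤ β := by linarith
  obtain ⟨F, hF⟩ : ∃ F : Finset (Site × List (Option Site × Option Site)),
      F = (tile_data_finite β h s₀ L M m hh).toFinset := ⟨_, rfl⟩
  choose g hg using fun q : Site × List (Option Site × Option Site) =>
    (tile_cont hβ0 h s₀ L M hh q.1 q.2 hδ).2
  obtain ⟨lam₀, hlam0, hmin⟩ := exists_pos_le F g (fun q _ => (hg q).1)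
  refine ⟨lam₀, hlam0, ?_⟩
  intro lam h0 h1 r v D hD
  by_cases hz : ZT β 0 h s₀ L M (rd r v) D = 0
  · rw [ZT_zero_imp hβ0 hz]
    exact zero_le
  · have hmem : (rd r v, D) ∈ F := by
      rw [hF, Set.Finite.mem_toFinset]
      exact ⟨hD, hz⟩
    have h2 := (hg (rd r v, D)).2 lam h0 (h1.trans (hmin _ hmem))
    have hne := (tile_cont hβ0 h s₀ L M hh (rd r v) D hδ).1
    obtain ⟨z, hzd⟩ : ∃ z : ℝ, z = (ZT β 0 h s₀ L M (rd r v) D).toReal := ⟨_, rfl⟩
    have hzpos : 0 < z := by rw [hzd]; exact ENNReal.toReal_pos hz hne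
    have hZ : ZT β 0 h s₀ L M (rd r v) D = ENNReal.ofReal z := by
      rw [hzd, ENNReal.ofReal_toReal hne]
    have h3 := tau_le hβ0 hlow (realizable_unrd r v (hR _ D hD hz))
    rw [← hzd] at h3
    have h4 : z ≤ Real.exp (εT * L - tau β (toPlane v)) := by
      rw [← Real.exp_log hzpos]
      exact Real.exp_le_exp.2 (by linarith)
    calc ZT β lam h s₀ L M (rd r v) D ≤ ENNReal.ofReal (Real.exp δ) * ZT β 0 h s₀ L M (rd r v) D := h2
      _ = ENNReal.ofReal (Real.exp δ) * ENNReal.ofReal z := by rw [hZ]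
      _ = ENNReal.ofReal (Real.exp δ * z) := by rw [ENNReal.ofReal_mul (Real.exp_pos _).le]
      _ ≤ ENNReal.ofReal (Real.exp (δ + εT * L - tau β (toPlane v))) := by
          apply ENNReal.ofReal_le_ofReal
          calc Real.exp δ * z ≤ Real.exp δ * Real.exp (εT * L - tau β (toPlane v)) :=
                mul_le_mul_of_nonneg_left h4 (Real.exp_pos _).le
            _ = _ := by rw [← Real.exp_add]; congr 1; ring

lemma four_pow (n : ℕ) : (4 : ℝ) ^ n = Real.exp (n * Real.log 4) := by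
  rw [mul_comm, Real.exp_mul, Real.exp_log (by norm_num), Real.rpow_natCast]

lemma wB_le {β η θ κ lam : ℝ} (hlog : Real.log 4 ≤ (η - θ) * β) (hκ : 0 ≤ κ) {h s₀ : ℤ}
    {L M : ℕ} {b : BD}
    (htile : b.kind = 2 → ZT β lam h s₀ L M (rd b.rot b.v) b.D ≤
      ENNReal.ofReal (Real.exp (κ - tau β (toPlane b.v)))) :
    wB β lam θ h s₀ L M b ≤ ENNReal.ofReal (Real.exp (κ - costB β η L b)) := by
  have hlen : (b.len : ℝ) * Real.log 4 ≤ b.len * ((η - θ) * β) :=
    mul_le_mul_of_nonneg_left hlog (Nat.cast_nonneg _)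
  unfold wB costB
  by_cases h2 : b.kind = 2
  · rw [if_pos h2, if_pos h2]
    exact htile h2
  · rw [if_neg h2, if_neg h2]
    by_cases h1 : b.kind = 1
    · rw [if_pos h1, if_pos h1]
      apply ENNReal.ofReal_le_ofReal
      rw [four_pow, ← Real.exp_add, ← Real.exp_add]
      apply Real.exp_le_exp.2
      nlinarith
    · rw [if_neg h1, if_neg h1]
      apply ENNReal.ofReal_le_ofReal
      rw [four_pow, ← Real.exp_add]
      apply Real.exp_le_exp.2
      nlinarith

lemma prod_le {α : Type*} (w : α → ℝ≥0∞) (g : α → ℝ) : ∀ l : List α,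
    (∀ b ∈ l, w b ≤ ENNReal.ofReal (Real.exp (g b))) →
      (l.map w).prod ≤ ENNReal.ofReal (Real.exp (l.map g).sum)
  | [], _ => by simp
  | b :: l, h => by
    rw [List.map_cons, List.map_cons, List.prod_cons, List.sum_cons, Real.exp_add,
      ENNReal.ofReal_mul (Real.exp_pos _).le]
    exact mul_le_mul' (h b List.mem_cons_self)
      (prod_le w g l fun c hc => h c (List.mem_cons_of_mem _ hc))

lemma sum_sub_const {α : Type*} (κ : ℝ) (c : α → ℝ) : ∀ l : List α,
    (l.map fun b => κ - c b).sum = κ * l.length - (l.map c).sum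
  | [] => by simp
  | b :: l => by
    rw [List.map_cons, List.map_cons, List.sum_cons, List.sum_cons, sum_sub_const κ c l,
      List.length_cons]
    push_cast
    ring

/-- The weight of all blocks. -/
lemma prod_wB_le {β η θ κ lam : ℝ} (hlog : Real.log 4 ≤ (η - θ) * β) (hκ : 0 ≤ κ) {h s₀ : ℤ}
    {L M : ℕ} {bs : List BD}
    (htile : ∀ b ∈ bs, b.kind = 2 → ZT β lam h s₀ L M (rd b.rot b.v) b.D ≤
      ENNReal.ofReal (Real.exp (κ - tau β (toPlane b.v)))) :
    (bs.map (wB β lam θ h s₀ L M)).prod ≤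
      ENNReal.ofReal (Real.exp (κ * bs.length - (bs.map (costB β η L)).sum)) := by
  have h1 := prod_le (wB β lam θ h s₀ L M) (fun b => κ - costB β η L b) bs
    (fun b hb => wB_le hlog hκ (htile b hb))
  rwa [sum_sub_const] at h1

/-- The probability of one datum, from `evt_le` and `ub_datum`. -/
lemma one_datum {μ : Measure WP} (hμ : IsLaw μ) {β lam : ℝ} (hβ : 0 ≤ β) (h0 : 0 ≤ lam)
    (h1 : lam < 4) (t : ℝ≥0) (S : Set (List Site)) (hS0 : ∀ l ∈ S, l.IsChain Adj ∧ l.head? = some 0)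
    {X : ℝ≥0∞} (hX : ∑' l : S, W β lam l ≤ X) :
    μ {f : WP | f ∈ evtE β t ∧ chainOf t f ∈ S} ≤ ENNReal.ofReal (Real.exp (4 - lam * t)) * X := by
  refine (evt_le hμ hβ h0 h1 t S).trans ?_
  refine mul_le_mul' le_rfl (le_trans (le_of_eq ?_) hX)
  have hset : {l : List Site | l ∈ S ∧ l.IsChain Adj ∧ l.head? = some 0} = S := by
    ext l
    constructor
    · exact fun h => h.1
    · exact fun h => ⟨h, hS0 l h⟩
  have := tsum_congr_set_coe (fun l : List Site => W β lam l) hset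
  exact this

end UM

end Pool.Agent.WSB71
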