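import Pool.Agent.WSB71.UMd

/-!
# UB8, part 5: the sum over all data for one large time
-/

open MeasureTheory Filter Topology
open scoped NNReal ENNReal Pointwise

namespace Pool.Agent.WSB71

open Pool.Agent.LT

namespace UM

lemma union_le {μ : Measure WP} {ι : Type*} (T : Finset ι) (F : ι → Set WP) {x : ℝ}
    (h : ∀ q ∈ T, μ (F q) ≤ ENNReal.ofReal x) :
    μ (⋃ q ∈ T, F q) ≤ ENNReal.ofReal (T.card * x) := by
  refine (measure_biUnion_finset_le _ _).trans ?_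
  refine (Finset.sum_le_card_nsmul T _ _ h).trans ?_
  rw [nsmul_eq_mul, ENNReal.ofReal_mul (Nat.cast_nonneg _), ENNReal.ofReal_natCast]

lemma card_alts (Pc : Finset Plane) : (alts Pc).card ≤ Pc.card + 2 := by
  classical
  unfold alts
  refine (Finset.card_insert_le _ _).trans ?_
  have h1 := Finset.card_insert_le (some none) (Pc.image (fun p : Plane => some (some p)))
  have h2 : (Pc.image (fun p : Plane => some (some p))).card ≤ Pc.card := Finset.card_image_le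
  omega

/-- The upper bound for one time. -/
theorem core {c : Cst} (hc : c.Ok) {μ : Measure WP} (hμ : IsLaw μ) {t : ℝ≥0} {J₁ J₂ : ℕ}
    (ht : c.At (NN3 t) (Finset.Icc J₁ J₂)) {Pc : Finset Plane} {ε' : ℝ} (hε' : 0 < ε')
    (hbad : μ {f : WP | f ∈ evtE c.β t ∧ ¬ (((bdry (fil (rangeF t f))).card : ℝ) ≤ c.C₁ * NN3 t ∧
            ((holeE (rangeF t f)).card : ℝ) ≤ c.C₁ * NN3 t ∧
            ∃ j ∈ Finset.Icc J₁ J₂, GoodScale t f (240 * c.Λ) c.εt j)}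
          ≤ ENNReal.ofReal (Real.exp (-((c.c₁ + 1) * NN3 t))))
    (hfin : ∀ j ∈ Finset.Icc J₁ J₂, (dataSet (c.n0 (NN3 t)) (c.n0 (NN3 t) / c.L j + 2 * c.M₁)
      (c.K (NN3 t) j) (c.L j)).Finite)
    (hone : 4 - (t : ℝ) ≤ -((c.c₁ + 1) * NN3 t))
    (hA : ∀ j ∈ Finset.Icc J₁ J₂, 2 ^ Pc.card * ((2 * ((c.n0 (NN3 t) : ℝ) ^ 2 + 1) + 1) ^ 2 *
      (c.n0 (NN3 t) + 1)) * Real.exp (-(c.Λ₀ * NN3 t) + (4 + (c.K (NN3 t) j + 1) *
      Real.log c.A + 2 * Real.log (NN3 t) + 2 * c.εT * c.L j)) ≤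
        Real.exp (-((c.c₁ + 1) * NN3 t)))
    (hB : ∀ j ∈ Finset.Icc J₁ J₂, 2 ^ Pc.card * ((Pc.card + 2) * ((4 * (c.n0 (NN3 t) : ℝ) + 1) ^ 2 *
      (((dataSet (c.n0 (NN3 t)) (c.n0 (NN3 t) / c.L j + 2 * c.M₁)
        (c.K (NN3 t) j) (c.L j)).ncard : ℝ) * ((4 * (c.n0 (NN3 t) : ℝ) + 1) ^ 2) ^ c.M₁))) *
        Real.exp (c.Err (NN3 t) j) ≤ Real.exp (3 / 4 * ε' * NN3 t))
    (hJ : 2 * ((J₂ : ℝ) + 1) + 2 ≤ Real.exp (ε' / 4 * NN3 t)) {a : ℝ} (ha : a ≤ c.c₁) {S : Set WP}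
    (H1 : ∀ f ∈ S, f ∈ evtE c.β t → f.1 0 = 0 → ∀ K, CC K → sR t f ⊆ Metric.thickening c.ε K →
          a ≤ lam (Metric.thickening c.ε K) + PP c.β K ∨
          ∃ p' ∈ Pc, Disjoint (sR t f) (Metric.closedBall p' c.ρ₁) ∧
            a ≤ lam (Metric.thickening c.ε K \ Metric.closedBall p' c.ρ₂) + PP c.β K)
    (H2 : ∀ K, CC K → a ≤ lam (Metric.thickening c.ε₂ K) + PP c.β K + c.β * c.ε / 8) :
    μ (S ∩ evtE c.β t) ≤ ENNReal.ofReal (Real.exp (-((a - ε') * NN3 t))) := by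
  classical
  have hN := ht.hN
  obtain ⟨N, hNd⟩ : ∃ N : ℝ, N = NN3 t := ⟨_, rfl⟩
  have hβ0 : 0 ≤ c.β := by linarith [hc.hβ]
  have haΛ : a ≤ c.Λ₀ := by linarith [hc.hΛ₀]
  choose BsF hBs using exists_Bs hN c.ρ₁
  have hDS : ∀ j, ∃ D : Finset (List BD), j ∈ Finset.Icc J₁ J₂ →
      ((∀ bs, bs ∈ D ↔ bs ∈ dataSet (c.n0 (NN3 t)) (c.n0 (NN3 t) / c.L j + 2 * c.M₁)
        (c.K (NN3 t) j) (c.L j)) ∧ D.card = (dataSet (c.n0 (NN3 t)) (c.n0 (NN3 t) / c.L j + 2 * c.M₁)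
        (c.K (NN3 t) j) (c.L j)).ncard) := by
    intro j
    by_cases hj : j ∈ Finset.Icc J₁ J₂
    · refine ⟨(hfin j hj).toFinset, fun _ => ⟨fun bs => by rw [Set.Finite.mem_toFinset], ?_⟩⟩
      rw [Set.ncard_eq_toFinset_card _ (hfin j hj)]
    · exact ⟨∅, fun h => absurd h hj⟩
  choose DS hDS using hDS
  obtain ⟨TA, hTA⟩ : ∃ TA : Finset (Finset Plane × Site × ℕ),
    TA = Pc.powerset ×ˢ (bx 0 (c.n0 (NN3 t) ^ 2 + 1) ×ˢ Finset.range (c.n0 (NN3 t) + 1)) := ⟨_, rfl⟩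
  obtain ⟨TB, hTB⟩ : ∃ TB : ℕ → Finset (Finset Plane × Option (Option Plane) × Site × List BD ×
      (Fin c.M₁ → Site)), TB = fun j => Pc.powerset ×ˢ (alts Pc ×ˢ (bx 0 (2 * c.n0 (NN3 t)) ×ˢ
        (DS j ×ˢ Fintype.piFinset (fun _ : Fin c.M₁ => bx 0 (2 * c.n0 (NN3 t)))))) := ⟨_, rfl⟩
  have hcov : S ∩ evtE c.β t ⊆ {f : WP | f.1 0 ≠ 0} ∪
      ({f : WP | f ∈ evtE c.β t ∧ ¬ (((bdry (fil (rangeF t f))).card : ℝ) ≤ c.C₁ * NN3 t ∧
            ((holeE (rangeF t f)).card : ℝ) ≤ c.C₁ * NN3 t ∧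
            ∃ j ∈ Finset.Icc J₁ J₂, GoodScale t f (240 * c.Λ) c.εt j)} ∪
      ({f : WP | f ∈ evtE c.β t ∧ f.1 0 = 0 ∧ (chainOf t f).toFinset.card = 1} ∪
      ((⋃ j ∈ Finset.Icc J₁ J₂, ⋃ q ∈ TA, FA c t j (BsF q.1) q.2.1 q.2.2) ∪
      (⋃ j ∈ Finset.Icc J₁ J₂, ⋃ q ∈ TB j,
        FB c t a j (BsF q.1) q.2.1 q.2.2.1 q.2.2.2.1 q.2.2.2.2)))) := by
    rintro f ⟨hfS, hfE⟩
    by_cases h0 : f.1 0 = 0
    swap
    · exact Or.inl h0
    right
    by_cases hb : (((bdry (fil (rangeF t f))).card : ℝ) ≤ c.C₁ * NN3 t ∧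
            ((holeE (rangeF t f)).card : ℝ) ≤ c.C₁ * NN3 t ∧
            ∃ j ∈ Finset.Icc J₁ J₂, GoodScale t f (240 * c.Λ) c.εt j)
    swap
    · exact Or.inl ⟨hfE, hb⟩
    right
    by_cases h1 : (chainOf t f).toFinset.card = 1
    · exact Or.inl ⟨hfE, h0, h1⟩
    right
    obtain ⟨hb1, _, j, hj, hb3⟩ := hb
    rcases cover hc ht hBs H2 hfE h0 h1 hb1 hj hb3 (H1 f hfS hfE h0) with
      ⟨P, hP, s0, hs0, n, hn, hf⟩ | ⟨P, hP, alt, halt, s0, hs0, bs, hbs, mk, hmk, hf⟩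
    · left
      rw [Set.mem_iUnion₂]
      refine ⟨j, hj, ?_⟩
      rw [Set.mem_iUnion₂]
      refine ⟨(P, s0, n), ?_, hf⟩
      rw [hTA]
      exact Finset.mk_mem_product hP (Finset.mk_mem_product hs0 hn)
    · right
      rw [Set.mem_iUnion₂]
      refine ⟨j, hj, ?_⟩
      rw [Set.mem_iUnion₂]
      refine ⟨(P, alt, s0, bs, mk), ?_, hf⟩
      rw [hTB]
      exact Finset.mk_mem_product hP (Finset.mk_mem_product halt (Finset.mk_mem_product hs0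
        (Finset.mk_mem_product (((hDS j hj).1 bs).2 hbs) hmk)))
  have hnull : μ {f : WP | f.1 0 ≠ 0} = 0 := hμ.start
  obtain ⟨X, hX⟩ : ∃ X : ℝ, X = Real.exp (-((c.c₁ + 1) * NN3 t)) := ⟨_, rfl⟩
  obtain ⟨Y, hY⟩ : ∃ Y : ℝ, Y = Real.exp (-(a * NN3 t) + 3 / 4 * ε' * NN3 t) := ⟨_, rfl⟩
  have hX0 : 0 < X := by rw [hX]; exact Real.exp_pos _
  have hY0 : 0 < Y := by rw [hY]; exact Real.exp_pos _
  have hXY : X ≤ Y := by
    rw [hX, hY]
    apply Real.exp_le_exp.2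
    have h1 := mul_le_mul_of_nonneg_right ha hN.le
    have h2 : 0 ≤ 3 / 4 * ε' * NN3 t := by positivity
    nlinarith
  rw [← hX] at hbad
  have h1 : μ {f : WP | f ∈ evtE c.β t ∧ f.1 0 = 0 ∧ (chainOf t f).toFinset.card = 1} ≤
      ENNReal.ofReal X := by
    refine (class1 hμ hβ0 t).trans (ENNReal.ofReal_le_ofReal ?_)
    rw [hX]
    exact Real.exp_le_exp.2 hone
  have hJc : ((Finset.Icc J₁ J₂).card : ℝ) ≤ (J₂ : ℝ) + 1 := by
    rw [Nat.card_Icc]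
    have : J₂ + 1 - J₁ ≤ J₂ + 1 := Nat.sub_le _ _
    exact_mod_cast this
  have h2 : μ (⋃ j ∈ Finset.Icc J₁ J₂, ⋃ q ∈ TA, FA c t j (BsF q.1) q.2.1 q.2.2) ≤
      ENNReal.ofReal ((Finset.Icc J₁ J₂).card * X) := by
    apply union_le
    intro j hj
    refine (union_le TA _ (fun q _ => FA_le hc hμ ht hj (BsF q.1) q.2.1 q.2.2)).trans ?_
    apply ENNReal.ofReal_le_ofReal
    rw [hX]
    refine le_trans (mul_le_mul_of_nonneg_right ?_ (Real.exp_pos _).le) (hA j hj)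
    rw [hTA, Finset.card_product, Finset.card_product, Finset.card_powerset, card_bx,
      Finset.card_range]
    push_cast
    exact le_rfl
  have h3 : μ (⋃ j ∈ Finset.Icc J₁ J₂, ⋃ q ∈ TB j,
        FB c t a j (BsF q.1) q.2.1 q.2.2.1 q.2.2.2.1 q.2.2.2.2) ≤
      ENNReal.ofReal ((Finset.Icc J₁ J₂).card * Y) := by
    apply union_le
    intro j hj
    refine (union_le (TB j) _ (fun q _ => FB_le hc hμ ht hj haΛ (BsF q.1) q.2.1 q.2.2.1
      q.2.2.2.1 q.2.2.2.2)).trans ?_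
    apply ENNReal.ofReal_le_ofReal
    have hcard : ((TB j).card : ℝ) ≤ 2 ^ Pc.card * ((Pc.card + 2) *
        ((4 * (c.n0 (NN3 t) : ℝ) + 1) ^ 2 *
      (((dataSet (c.n0 (NN3 t)) (c.n0 (NN3 t) / c.L j + 2 * c.M₁)
        (c.K (NN3 t) j) (c.L j)).ncard : ℝ) * ((4 * (c.n0 (NN3 t) : ℝ) + 1) ^ 2) ^ c.M₁))) := by
      rw [hTB]
      dsimp only
      rw [Finset.card_product, Finset.card_product, Finset.card_product, Finset.card_product,
        Finset.card_powerset, card_bx, (hDS j hj).2, Fintype.card_piFinset_const, card_bx]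
      have e := card_alts Pc
      have e' : ((alts Pc).card : ℝ) ≤ Pc.card + 2 := by exact_mod_cast e
      push_cast
      have e3 : (2 * (2 * (c.n0 (NN3 t) : ℝ)) + 1) = 4 * (c.n0 (NN3 t) : ℝ) + 1 := by ring
      rw [e3]
      gcongr
    rw [Real.exp_add]
    calc ((TB j).card : ℝ) * (Real.exp (-(a * NN3 t)) * Real.exp (c.Err (NN3 t) j))
        = Real.exp (-(a * NN3 t)) * ((TB j).card * Real.exp (c.Err (NN3 t) j)) := by ring
      _ ≤ Real.exp (-(a * NN3 t)) * Real.exp (3 / 4 * ε' * NN3 t) := by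
          apply mul_le_mul_of_nonneg_left _ (Real.exp_pos _).le
          exact le_trans (mul_le_mul_of_nonneg_right hcard (Real.exp_pos _).le) (hB j hj)
      _ = Y := by rw [hY, Real.exp_add]
  refine (measure_mono hcov).trans ?_
  have hJ0 : (0 : ℝ) ≤ (Finset.Icc J₁ J₂).card := Nat.cast_nonneg _
  calc _ ≤ 0 + (ENNReal.ofReal X + (ENNReal.ofReal X + (ENNReal.ofReal ((Finset.Icc J₁ J₂).card * X)
        + ENNReal.ofReal ((Finset.Icc J₁ J₂).card * Y)))) := by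
        refine (measure_union_le _ _).trans (add_le_add hnull.le ?_)
        refine (measure_union_le _ _).trans (add_le_add hbad ?_)
        refine (measure_union_le _ _).trans (add_le_add h1 ?_)
        exact (measure_union_le _ _).trans (add_le_add h2 h3)
    _ = ENNReal.ofReal (X + (X + ((Finset.Icc J₁ J₂).card * X + (Finset.Icc J₁ J₂).card * Y))) := by
        rw [zero_add, ENNReal.ofReal_add hX0.le (by positivity),
          ENNReal.ofReal_add hX0.le (by positivity),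
          ENNReal.ofReal_add (by positivity) (by positivity)]
    _ ≤ _ := by
        apply ENNReal.ofReal_le_ofReal
        have e1 : ((Finset.Icc J₁ J₂).card : ℝ) * X ≤ (Finset.Icc J₁ J₂).card * Y :=
          mul_le_mul_of_nonneg_left hXY hJ0
        have e2 : ((Finset.Icc J₁ J₂).card : ℝ) * Y ≤ ((J₂ : ℝ) + 1) * Y :=
          mul_le_mul_of_nonneg_right hJc hY0.le
        have e3 : (2 * ((J₂ : ℝ) + 1) + 2) * Y ≤ Real.exp (ε' / 4 * NN3 t) * Y :=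
          mul_le_mul_of_nonneg_right hJ hY0.le
        have e4 : Real.exp (ε' / 4 * NN3 t) * Y = Real.exp (-((a - ε') * NN3 t)) := by
          rw [hY, ← Real.exp_add]
          congr 1
          ring
        rw [← e4]
        linarith

end UM

end Pool.Agent.WSB71
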