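import Pool.Agent.WSB71.TileCont
import Pool.Agent.WSB71.UComp
import Pool.Agent.WSB71.UDatum

/-!
# UB8, part 2: existence of a datum (the two cases)
-/

open MeasureTheory Filter Topology
open scoped NNReal ENNReal Pointwise

namespace Pool.Agent.WSB71

open Pool.Agent.LT

namespace UM

/-- The deep part has a component with almost the same eigenvalue. -/
lemma deep_comp {G Bs : Finset Site} {L : ℕ} {εb : ℝ} (hεb1 : εb ≤ 1)
    (hdeep : ((G \ Bs.filter (fun x => L < dep G x)).filter (fun x => L < dep G x)).Nonempty ∧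
      (1 - εb) * lamD ((G \ Bs.filter (fun x => L < dep G x)).filter (fun x => L < dep G x)) ≤
        lamD (G \ Bs.filter (fun x => L < dep G x))) :
    ∃ K₀ : Finset Site, K₀.Nonempty ∧ ConnF (K₀ : Set Site) ∧
      (∀ x ∈ K₀, L < dep G x ∧ x ∉ Bs) ∧
      (1 - εb) * lamD K₀ ≤ lamD (G \ Bs.filter (fun x => L < dep G x)) := by
  obtain ⟨hne, hle⟩ := hdeep
  obtain ⟨K₀, hsub, hK, hKc, hlam⟩ := exists_comp hne
  refine ⟨K₀, hK, hKc, ?_, ?_⟩
  · intro x hx
    have h1 := hsub hx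
    rw [Finset.mem_filter, Finset.mem_sdiff, Finset.mem_filter, not_and] at h1
    exact ⟨h1.2, fun h2 => h1.1.2 h2 h1.2⟩
  · exact (mul_le_mul_of_nonneg_left hlam (by linarith)).trans hle

/-- The convex hull of the marks. -/
noncomputable def Qh {M₁ : ℕ} (mk : Fin M₁ → Site) : Set Plane :=
  convexHull ℝ (Set.range (fun i => toPlane (mk i)))

/-- The open set of an alternative. -/
noncomputable def UU (ε ε₂ ρ₂ N : ℝ) {M₁ : ℕ} (mk : Fin M₁ → Site) :
    Option (Option Plane) → Set Plane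
  | none => Metric.thickening ε₂ (N⁻¹ • Qh mk)
  | some none => Metric.thickening ε (N⁻¹ • Qh mk)
  | some (some p) => Metric.thickening ε (N⁻¹ • Qh mk) \ Metric.closedBall p ρ₂

/-- The additional cost of an alternative. -/
noncomputable def ex (β ε : ℝ) : Option (Option Plane) → ℝ
  | none => β * ε / 8
  | some _ => 0

lemma Qh_CC {M₁ : ℕ} (hM : 4 ≤ M₁) (mk : Fin M₁ → Site) : CC (Qh mk) := by
  refine ⟨?_, ?_, convex_convexHull ℝ _⟩
  · rw [Qh, convexHull_nonempty_iff]
    exact ⟨_, ⟨⟨0, by omega⟩, rfl⟩⟩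
  · exact (Set.finite_range _).isCompact_convexHull ℝ

lemma smul_CC {K : Set Plane} (h : CC K) (s : ℝ) : CC (s • K) :=
  ⟨h.1.smul_set, h.2.1.smul s, h.2.2.smul s⟩

lemma ball_sub {K : Set Plane} (hK : K.Nonempty) {x : Plane} {r ρ : ℝ}
    (h : Metric.infDist x K + r < ρ) : Metric.closedBall x r ⊆ Metric.thickening ρ K := by
  intro y hy
  rw [Metric.mem_thickening_iff_infDist_lt hK]
  have h1 : Metric.infDist y K ≤ Metric.infDist x K + dist y x := Metric.infDist_le_infDist_add_dist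
  have h2 : dist y x ≤ r := hy
  linarith

lemma scaled {N : ℝ} (hN : 0 < N) (x : Plane) (Q : Set Plane) :
    Metric.infDist (N⁻¹ • x) (N⁻¹ • Q) = N⁻¹ * Metric.infDist x Q := by
  rw [infDist_smul₀ (inv_ne_zero hN.ne'), Real.norm_eq_abs, abs_of_pos (inv_pos.2 hN)]

lemma UU_open (ε ε₂ ρ₂ N : ℝ) {M₁ : ℕ} (mk : Fin M₁ → Site) (alt : Option (Option Plane)) :
    IsOpen (UU ε ε₂ ρ₂ N mk alt) := by
  rcases alt with _ | _ | p
  · exact Metric.isOpen_thickening
  · exact Metric.isOpen_thickening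
  · exact Metric.isOpen_thickening.sdiff Metric.isClosed_closedBall

lemma ex_nonneg {β ε : ℝ} (hβ : 0 ≤ β) (hε : 0 ≤ ε) (alt : Option (Option Plane)) :
    0 ≤ ex β ε alt := by
  rcases alt with _ | _ | p
  · exact div_nonneg (mul_nonneg hβ hε) (by norm_num)
  · exact le_rfl
  · exact le_rfl

/-- **Case B.** -/
theorem caseB {β η : ℝ} (hβ : 1 ≤ β) (hη : 0 < η) (hη' : 2000 * η ≤ 1)
    (hlow : ∀ v c, Realizable β v c → β / 2 * ‖toPlane v‖ ≤ c)
    (hflat : Realizable β (0, 1) ((1 + η) * β)) {M₁ : ℕ} (hM : 4 ≤ M₁) {l : List Site}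
    (hl0 : l.head? = some 0) (hl : l.IsChain Adj) {N : ℝ} (hN : 0 < N) {L : ℕ} {h s₀ : ℤ}
    (hs : 1 ≤ s₀) (hh : 10 ^ 6 * s₀ ≤ h) (hhL : 1000 * h ≤ L) {r₀ K m₉ Hb : ℕ}
    (hr₀ : 6 * (r₀ : ℤ) ≤ h) (hK1 : 1 ≤ K) (htr : ¬ Travels (fil l.toFinset) l r₀ L K)
    (hHb : ((holeE l.toFinset).filter (fun q => h ≤ 30 * dep (fil l.toFinset) q.1 ∧
      dep (fil l.toFinset) q.1 ≤ L)).card ≤ Hb)
    {Bs : Finset Site} {εb εc Λ₀ C₁ : ℝ} (hεb1 : εb ≤ 1)
    (hn : ((bdry (fil l.toFinset)).card : ℝ) ≤ C₁ * N)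
    (hdeep : (((fil l.toFinset) \ Bs.filter (fun x => L < dep (fil l.toFinset) x)).filter
        (fun x => L < dep (fil l.toFinset) x)).Nonempty ∧
      (1 - εb) * lamD (((fil l.toFinset) \ Bs.filter (fun x => L < dep (fil l.toFinset) x)).filter
        (fun x => L < dep (fil l.toFinset) x)) ≤
        lamD ((fil l.toFinset) \ Bs.filter (fun x => L < dep (fil l.toFinset) x)))
    (hle : ∀ D : Finset Site, D.Nonempty → ∀ U : Set Plane, IsOpen U →
      (∀ x ∈ D, Metric.closedBall (N⁻¹ • toPlane x) εc ⊆ U) →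
        min (lam U) Λ₀ ≤ N ^ 2 * lamD D + εc)
    {ε ε₂ ρ₁ ρ₂ : ℝ} (hε₂ : ε₂ ≤ ε)
    (hgeo : ((L : ℝ) + 4) / N + 40 * C₁ / M₁ + εc < ε₂)
    (hgeo2 : ((L : ℝ) + 4) / N + 40 * C₁ / M₁ < ε / 2) (hρ : ρ₂ + εc < ρ₁)
    {P : Finset Plane} (hBsP : ∀ p' ∈ P, ∀ x : Site, N⁻¹ • toPlane x ∈ Metric.closedBall p' ρ₁ →
      x ∈ Bs)
    {a : ℝ}
    (H1 : ∀ K, CC K → (fun x : Site => N⁻¹ • toPlane x) '' (l.toFinset : Set Site) ⊆
        Metric.thickening ε K →
          a ≤ lam (Metric.thickening ε K) + PP β K ∨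
          ∃ p' ∈ P, a ≤ lam (Metric.thickening ε K \ Metric.closedBall p' ρ₂) + PP β K)
    (H2 : ∀ K, CC K → a ≤ lam (Metric.thickening ε₂ K) + PP β K + β * ε / 8) :
    ∃ (s0 : Site) (bs : List BD) (mk : Fin M₁ → Site) (nr : ℕ) (alt : Option (Option Plane)),
      (∀ p', alt = some (some p') → p' ∈ P) ∧ Val h s₀ L (s₀ * h).toNat s0 bs l ∧
      (bs.map (fun b => b.D.length)).sum ≤ K ∧ (∀ b ∈ bs, b.D.length ≤ m₉) ∧
      bs ∈ dataSet (bdry (fil l.toFinset)).card bs.length K L ∧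
      bs.length * L ≤ (bdry (fil l.toFinset)).card + 2 * M₁ * L ∧
      sd 0 s0 ≤ 2 * (bdry (fil l.toFinset)).card ∧
      (∀ i, sd 0 (mk i) ≤ 2 * (bdry (fil l.toFinset)).card) ∧
      nr * (m₉ + 1) * h ≤ 2 * (m₉ + 1) * h + K * h + 10 ^ 4 * Hb * (m₉ + 1) ∧
      (1 - εb) * max 0 (min (lam (UU ε ε₂ ρ₂ N mk alt)) Λ₀ - εc) ≤
        N ^ 2 * lamD ((fil l.toFinset) \ Bs.filter (fun x => L < dep (fil l.toFinset) x)) ∧
      a ≤ lam (UU ε ε₂ ρ₂ N mk alt) + N⁻¹ * PP β (Qh mk) + ex β ε alt ∧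
      0 ≤ PP β (Qh mk) ∧
      PP β (Qh mk) + N * ex β ε alt ≤
        (bs.map (costB β η L)).sum + 4 * η * β * L * (nr + 20 * M₁) := by
  have hβ2 : 0 < β / 2 := by linarith
  have hPL := PP_perLike hβ2 hlow hflat
  obtain ⟨K₀, hK₀, hKc, hKd, hKlam⟩ := deep_comp hεb1 hdeep
  obtain ⟨s0, bs, mk, Jt, nr, hJt, hVal, ⟨n, hnn, hsum, hlen, hs0, hmk, hKnear, hGnear⟩, hDs,
    hD9, hds, hnr, hPP⟩ := datum_exists (m₉ := m₉) hβ hη hη' hlow hflat hM hl0 hl hs hh hhL hK₀ hKc
      (fun x hx => (hKd x hx).1) hr₀ hK1 htr hHb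
  have hM' : (0 : ℝ) < M₁ := by
    have : 0 < M₁ := by omega
    exact_mod_cast this
  have hQ : CC (Qh mk) := Qh_CC hM mk
  have hKK : CC (N⁻¹ • Qh mk) := smul_CC hQ _
  have hNinv : 0 < N⁻¹ := inv_pos.2 hN
  have hPs : PP β (N⁻¹ • Qh mk) = N⁻¹ * PP β (Qh mk) := hPL.smul _ hQ _ hNinv.le
  have hP0 : 0 ≤ PP β (Qh mk) := by
    obtain ⟨a', ha', hla⟩ := hPL.lower
    exact (mul_nonneg ha'.le Metric.diam_nonneg).trans (hla _ hQ)
  have hnC : (n : ℝ) ≤ C₁ * N := by rw [hnn]; exact hn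
  -- distances
  have hfrac : N⁻¹ * (40 * n / M₁) ≤ 40 * C₁ / M₁ := by
    rw [inv_mul_le_iff₀ hN, div_le_iff₀ hM']
    have e : N * (40 * C₁ / M₁) * M₁ = 40 * (C₁ * N) := by field_simp
    rw [e]
    linarith
  have hKd2 : ∀ x ∈ K₀, Metric.infDist (N⁻¹ • toPlane x) (N⁻¹ • Qh mk) ≤
      ((L : ℝ) + 4) / N + 40 * C₁ / M₁ := by
    intro x hx
    rw [scaled hN]
    have h1 := mul_le_mul_of_nonneg_left (hKnear x hx) hNinv.le
    have h2 : N⁻¹ * ((L : ℝ) + 4 + 40 * n / M₁) = ((L : ℝ) + 4) / N + N⁻¹ * (40 * n / M₁) := by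
      rw [mul_add]; ring
    rw [h2] at h1
    exact h1.trans (by linarith)
  have hballs : ∀ alt : Option (Option Plane), (∀ p', alt = some (some p') → p' ∈ P) → ∀ x ∈ K₀,
      Metric.closedBall (N⁻¹ • toPlane x) εc ⊆ UU ε ε₂ ρ₂ N mk alt := by
    intro alt halt x hx
    have h1 := hKd2 x hx
    rcases alt with _ | _ | p'
    · exact ball_sub hKK.1 (by linarith)
    · exact ball_sub hKK.1 (by linarith)
    · refine Set.subset_sdiff.2 ⟨ball_sub hKK.1 (by linarith), ?_⟩
      rw [Set.disjoint_left]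
      intro y hy hy'
      have hxB := (hKd x hx).2
      have h2 : ¬ (N⁻¹ • toPlane x ∈ Metric.closedBall p' ρ₁) :=
        fun h3 => hxB (hBsP p' (halt p' rfl) x h3)
      rw [Metric.mem_closedBall, not_le] at h2
      rw [Metric.mem_closedBall] at hy hy'
      have h3 := dist_triangle_left (N⁻¹ • toPlane x) p' y
      linarith
  have hlamU : ∀ alt : Option (Option Plane), (∀ p', alt = some (some p') → p' ∈ P) →
      (1 - εb) * max 0 (min (lam (UU ε ε₂ ρ₂ N mk alt)) Λ₀ - εc) ≤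
        N ^ 2 * lamD ((fil l.toFinset) \ Bs.filter (fun x => L < dep (fil l.toFinset) x)) := by
    intro alt halt
    have h1 := hle K₀ hK₀ _ (UU_open ε ε₂ ρ₂ N mk alt) (hballs alt halt)
    have h2 : max 0 (min (lam (UU ε ε₂ ρ₂ N mk alt)) Λ₀ - εc) ≤ N ^ 2 * lamD K₀ :=
      max_le (mul_nonneg (sq_nonneg _) (lamD_nonneg _)) (by linarith)
    calc (1 - εb) * max 0 (min (lam (UU ε ε₂ ρ₂ N mk alt)) Λ₀ - εc) ≤ (1 - εb) * (N ^ 2 * lamD K₀) :=
          mul_le_mul_of_nonneg_left h2 (by linarith)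
      _ = N ^ 2 * ((1 - εb) * lamD K₀) := by ring
      _ ≤ _ := mul_le_mul_of_nonneg_left hKlam (sq_nonneg _)
  have hmain : ∃ alt : Option (Option Plane), (∀ p', alt = some (some p') → p' ∈ P) ∧
      a ≤ lam (UU ε ε₂ ρ₂ N mk alt) + N⁻¹ * PP β (Qh mk) + ex β ε alt ∧
      PP β (Qh mk) + N * ex β ε alt ≤
        (bs.map (costB β η L)).sum + 4 * η * β * L * (nr + 20 * M₁) := by
    have hPP' : PP β (Qh mk) + β / 4 * Jt ≤
        (bs.map (costB β η L)).sum + 4 * η * β * L * (nr + 20 * M₁) := hPP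
    by_cases hJ : Jt ≤ ε * N / 2
    · have hsub : (fun x : Site => N⁻¹ • toPlane x) '' (l.toFinset : Set Site) ⊆
          Metric.thickening ε (N⁻¹ • Qh mk) := by
        rintro _ ⟨x, hx, rfl⟩
        rw [Metric.mem_thickening_iff_infDist_lt hKK.1]
        dsimp only
        rw [scaled hN]
        have hxG : x ∈ fil l.toFinset := subset_fil _ (by exact_mod_cast hx)
        have h1 := mul_le_mul_of_nonneg_left (hGnear x hxG) hNinv.le
        have h2 : N⁻¹ * (Jt + 40 * n / M₁ + 4) = N⁻¹ * Jt + N⁻¹ * (40 * n / M₁) + N⁻¹ * 4 := by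
          ring
        rw [h2] at h1
        have h3 : N⁻¹ * Jt ≤ ε / 2 := by
          rw [inv_mul_le_iff₀ hN]; linarith
        have h4 : N⁻¹ * 4 ≤ ((L : ℝ) + 4) / N := by
          rw [inv_mul_eq_div]
          exact div_le_div_of_nonneg_right (by linarith [(Nat.cast_nonneg L : (0:ℝ) ≤ L)]) hN.le
        refine lt_of_le_of_lt h1 ?_
        linarith
      have hx0 : 0 ≤ β / 4 * Jt := by positivity
      rcases H1 _ hKK hsub with h1 | ⟨p', hp', h1⟩
      · refine ⟨some none, fun p' hp' => by simp at hp', ?_, ?_⟩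
        · rw [hPs] at h1
          simp only [ex, UU, add_zero]
          exact h1
        · simp only [ex, mul_zero, add_zero]
          linarith
      · refine ⟨some (some p'), fun q hq => ?_, ?_, ?_⟩
        · have : p' = q := by simpa using hq
          rwa [← this]
        · rw [hPs] at h1
          simp only [ex, UU, add_zero]
          exact h1
        · simp only [ex, mul_zero, add_zero]
          linarith
    · push Not at hJ
      refine ⟨none, fun p' hp' => by simp at hp', ?_, ?_⟩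
      · have h1 := H2 _ hKK
        rw [hPs] at h1
        exact h1
      · simp only [ex]
        have h5 : N * (β * ε / 8) ≤ β / 4 * Jt := by
          have := mul_le_mul_of_nonneg_left hJ.le (by linarith : (0 : ℝ) ≤ β / 4)
          calc N * (β * ε / 8) = β / 4 * (ε * N / 2) := by ring
            _ ≤ _ := this
        linarith
  obtain ⟨alt, halt, ha, hcost⟩ := hmain
  rw [hnn] at hlen hs0 hmk
  exact ⟨s0, bs, mk, nr, alt, halt, hVal, hDs, hD9, hds, hlen, hs0, hmk, hnr, hlamU alt halt, ha,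
    hP0, hcost⟩

/-- **Case A**: the crude datum, one block, the whole contour. -/
theorem caseA {l : List Site} (hl0 : l.head? = some 0) (hl : l.IsChain Adj)
    (hconn : ConnF (l.toFinset : Set Site)) (h s₀ : ℤ) (L M : ℕ) :
    ∃ s0 : Site, sd 0 s0 ≤ (bdry (fil l.toFinset)).card ^ 2 + 1 ∧
      Val h s₀ L M s0 [⟨0, (bdry (fil l.toFinset)).card, 0, 0, []⟩] l := by
  classical
  obtain ⟨G, hG⟩ : ∃ G : Finset Site, G = fil l.toFinset := ⟨_, rfl⟩
  rw [← hG]
  have h0l : (0 : Site) ∈ l := List.mem_of_mem_head? hl0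
  have h0G : ((0 : ℤ), (0 : ℤ)) ∈ G := by
    rw [hG]; exact subset_fil _ (List.mem_toFinset.2 h0l)
  have hGc : ConnF (G : Set Site) := by rw [hG]; exact fil_conn hconn
  have hGcc : ConnF (G : Set Site)ᶜ := by rw [hG]; exact fil_compl_conn _
  obtain ⟨n, p, hc⟩ := exists_contour ⟨_, h0G⟩ hGc hGcc
  have hnc := hc.card
  -- the ray to the east
  have hinj : Function.Injective (fun i : ℕ => ((i : ℤ), (0 : ℤ))) := by
    intro i j hij
    have := congrArg Prod.fst hij
    simpa using this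
  have hex : ∃ k : ℕ, (((k + 1 : ℕ) : ℤ), (0 : ℤ)) ∉ G := by
    by_contra hcon
    push Not at hcon
    have h1 : ∀ k : ℕ, ((k : ℤ), (0 : ℤ)) ∈ G := by
      intro k
      rcases k with _ | k
      · exact h0G
      · exact hcon k
    have h2 : (Finset.range (G.card + 1)).image (fun i : ℕ => ((i : ℤ), (0 : ℤ))) ⊆ G := by
      intro x hx
      obtain ⟨i, _, rfl⟩ := Finset.mem_image.1 hx
      exact h1 i
    have h3 := Finset.card_le_card h2
    rw [Finset.card_image_of_injective _ hinj, Finset.card_range] at h3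
    omega
  obtain ⟨k, hk⟩ : ∃ k : ℕ, k = Nat.find hex := ⟨_, rfl⟩
  have hkG : (((k + 1 : ℕ) : ℤ), (0 : ℤ)) ∉ G := by rw [hk]; exact Nat.find_spec hex
  have hall : ∀ i : ℕ, i ≤ k → ((i : ℤ), (0 : ℤ)) ∈ G := by
    intro i hi
    rcases i with _ | i
    · exact h0G
    · by_contra hcon
      exact Nat.find_min hex (m := i) (by omega) hcon
  have hkc : k + 1 ≤ n ^ 2 := by
    have h2 : (Finset.range (k + 1)).image (fun i : ℕ => ((i : ℤ), (0 : ℤ))) ⊆ G := by
      intro x hx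
      obtain ⟨i, hi, rfl⟩ := Finset.mem_image.1 hx
      rw [Finset.mem_range] at hi
      exact hall i (by omega)
    have h3 := Finset.card_le_card h2
    rw [Finset.card_image_of_injective _ hinj, Finset.card_range] at h3
    exact h3.trans (card_le_sq hnc.symm)
  have hadj : Adj ((k : ℤ), (0 : ℤ)) (((k + 1 : ℕ) : ℤ), (0 : ℤ)) := by
    rw [TC.adj_iff]
    left
    push_cast
    rfl
  obtain ⟨i, _, _, hinn, _⟩ := hc.surj _ (hall k le_rfl) _ hkG hadj
  refine ⟨p i, ?_, ?_⟩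
  · have h1 := hc.adj i
    rw [TC.adj_iff] at h1
    unfold inn at hinn
    rw [Prod.mk.injEq] at hinn
    rw [← hnc]
    unfold sd
    have hk' : (k : ℤ) + 1 ≤ n ^ 2 := by exact_mod_cast hkc
    have h5 : max ((0 : Site).1 - (p i).1).natAbs ((0 : Site).2 - (p i).2).natAbs ≤ k + 1 := by
      simp only [Prod.fst_zero, Prod.snd_zero]
      rcases h1 with h1 | h1 | h1 | h1 <;> rw [h1] at hinn <;> simp only at hinn <;> omega
    exact h5.trans (by omega)
  · refine ⟨hl0, hl, n, p, fun k => i + k * n, ?_, ⟨fun _ => [], ?_, ?_⟩, ?_⟩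
    · refine ⟨by rw [← hG]; exact hc, ?_, ?_, ?_, ?_, ?_, ?_, ?_⟩
      · simp
      · simp
      · intro j hj
        have hj0 : j = 0 := by simpa using hj
        subst hj0
        refine ⟨?_, ?_⟩
        · simp only [List.getElem_cons_zero]
          rw [← hnc]; push_cast; ring
        · simp only [List.getElem_cons_zero, add_zero, Nat.cast_zero, zero_mul]
          have := hc.per i
          rw [← this]
          congr 1
          push_cast; ring
      · intro j hj _
        have hj0 : j = 0 := by simpa using hj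
        subst hj0
        simp
      · intro j hj h2
        have hj0 : j = 0 := by simpa using hj
        subst hj0
        simp at h2
      · intro j hj h2
        have hj0 : j = 0 := by simpa using hj
        subst hj0
        simp at h2
      · intro j j' hj hj' _ h2
        have hj0 : j = 0 := by simpa using hj
        subst hj0
        simp at h2
    · refine Dec.last l ?_ ?_
      · intro h1; rw [h1] at h0l; exact List.not_mem_nil h0l
      · intro x _ j hx
        have h2 := hx.1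
        simp at h2
    · intro j h2
      simp at h2
    · intro j hj h2
      have hj0 : j = 0 := by simpa using hj
      subst hj0
      simp at h2

end UM

end Pool.Agent.WSB71
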