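import Pool.Agent.WSB71.APMain
import Pool.Agent.WSB71.UMa
import Pool.Agent.WSB71.UMb

/-!
# UB8, part 3: constants, the probability of a class of paths with a given datum
-/

open MeasureTheory Filter Topology
open scoped NNReal ENNReal Pointwise

namespace Pool.Agent.WSB71

open Pool.Agent.LT

namespace UM

/-- The constants. -/
structure Cst where
  /-- parameter -/
  β : ℝ
  /-- parameter -/
  η : ℝ
  /-- parameter -/
  θ : ℝ
  /-- parameter -/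
  c₁ : ℝ
  /-- parameter -/
  C₁ : ℝ
  /-- parameter -/
  Λ₀ : ℝ
  /-- parameter -/
  εb : ℝ
  /-- parameter -/
  εc : ℝ
  /-- parameter -/
  εT : ℝ
  /-- parameter -/
  εt : ℝ
  /-- parameter -/
  c₉ : ℝ
  /-- parameter -/
  A : ℝ
  /-- parameter -/
  ε : ℝ
  /-- parameter -/
  ε₂ : ℝ
  /-- parameter -/
  ρ₁ : ℝ
  /-- parameter -/
  ρ₂ : ℝ
  /-- parameter -/
  s₀ : ℤ
  /-- parameter -/
  Λ : ℕ
  /-- parameter -/
  M₁ : ℕ

namespace Cst

variable (c : Cst)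

/-- length of the blocks -/
def L (j : ℕ) : ℕ := c.Λ * 2 ^ (j + 3)

/-- height of the zones -/
def h (_c : Cst) (j : ℕ) : ℤ := 2 ^ (j + 3)

/-- bound for the number of travels -/
noncomputable def K (N : ℝ) (j : ℕ) : ℕ := ⌈c.εt * N / j⌉₊

/-- bound for the number of excursions of one block -/
noncomputable def m9 (j : ℕ) : ℕ := ⌊c.c₉ * c.L j / ((j + 3 : ℕ) : ℝ)⌋₊

/-- bound for the perimeter -/
noncomputable def n0 (N : ℝ) : ℕ := ⌊c.C₁ * N⌋₊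

/-- bound for `L nr` -/
noncomputable def X (N : ℝ) (j : ℕ) : ℝ :=
  2 * c.L j + 4 / c.c₉ * (c.εt * N + j) + 10 ^ 4 * c.Λ * (c.εt * N)

/-- error in the cost -/
noncomputable def err (N : ℝ) (j : ℕ) : ℝ :=
  4 * c.η * c.β * (c.X N j + 20 * c.M₁ * c.L j)

/-- total error -/
noncomputable def Err (N : ℝ) (j : ℕ) : ℝ :=
  (c.εc + 2 * c.εb * c.Λ₀) * N + c.err N j + 4 + (c.K N j + 1) * Real.log c.A + 2 * Real.log N +
    2 * c.εT * (c.n0 N + 2 * c.M₁ * c.L j)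

/-- the parameter of a datum -/
noncomputable def lamv (N : ℝ) (U : Set Plane) : ℝ :=
  (1 - c.εb) ^ 2 * max 0 (min (lam U) c.Λ₀ - c.εc) / N ^ 2

/-- Static properties of the constants. -/
structure Ok : Prop where
  hβ : 1 ≤ c.β
  hη : 0 < c.η
  hη' : 2000 * c.η ≤ 1
  hθ : 0 < c.θ
  hθ1 : c.θ ≤ 1
  hlog : Real.log 4 ≤ (c.η - c.θ) * c.β
  hlow : ∀ v e, Realizable c.β v e → c.β / 2 * ‖toPlane v‖ ≤ e
  hflat : Realizable c.β (0, 1) ((1 + c.η) * c.β)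
  hub : ∀ lam θ : ℝ, 0 ≤ lam → lam ≤ 1 →
    0 < θ → θ ≤ 1 → lam < 4 * θ → ∀ (h s₀ : ℤ) (L M : ℕ), 1 ≤ h → ∀ (s0 : Site) (bs : List BD)
      (Bs : Finset Site) (A A' : ℝ≥0∞) (S : Set (List Site)),
      (∀ l ∈ S, Val h s₀ L M s0 bs l ∧ (∀ x ∈ l, x ∉ Bs) ∧ l.toFinset.card ≠ 1 ∧
        MassBd (fil l.toFinset) (Bs.filter (fun x => L < dep (fil l.toFinset) x)) lam θ A A') →
      ∑' l : S, W c.β lam l ≤ A ^ (bs.map (fun b => b.D.length)).sum * A' *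
        (bs.map (wB c.β lam θ h s₀ L M)).prod
  hc₁ : 0 < c.c₁
  hC₁ : 0 < c.C₁
  hΛ₀ : c.c₁ + 2 ≤ c.Λ₀
  hεb : 0 < c.εb
  hεb1 : c.εb ≤ 1 / 2
  hεc : 0 < c.εc
  hεT : 0 < c.εT
  hεt : 0 < c.εt
  hc₉ : 0 < c.c₉
  hA : 1 ≤ c.A
  hε : 0 < c.ε
  hε₂ : c.ε₂ ≤ c.ε
  hρ : c.ρ₂ + c.εc < c.ρ₁
  hs₀ : 1 ≤ c.s₀
  hΛ : 1000 ≤ c.Λ
  hM₁ : 4 ≤ c.M₁

/-- Properties for `N = t^{1/3}` large, for the scales of `J`. -/
structure At (N : ℝ) (J : Finset ℕ) : Prop where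
  hN : 0 < N
  mass : ∀ G B : Finset Site, ConnF (G : Set Site)ᶜ →
      (G.card : ℝ) ≤ (c.C₁ * N) ^ 2 → ∀ lam : ℝ, 0 ≤ lam → lam ≤ (1 - c.εb) * lamD (G \ B) →
      lam ≤ c.Λ₀ / N ^ 2 → ∀ C : Set Site, ∀ z ∈ G, z ∉ B →
        (∑' l : {l : List Site // l.head? = some z ∧ l.IsChain Adj ∧
            (∃ a ∈ l.getLast?, a ∈ C ∧ a ∈ G ∧ a ∉ B) ∧
            ∀ x ∈ l.dropLast, x ∈ G ∧ x ∉ B ∧ x ∉ C},
          ((l : List Site).dropLast.map (rw1 G lam c.θ)).prod ≤ ENNReal.ofReal c.A) ∧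
        (∑' l : {l : List Site // l.head? = some z ∧ l.IsChain Adj ∧
            ∀ x ∈ l, x ∈ G ∧ x ∉ B ∧ x ∉ C},
          ((l : List Site).map (rw1 G lam c.θ)).prod ≤ ENNReal.ofReal (c.A * N ^ 2))
  lamle : ∀ D : Finset Site, D.Nonempty → ∀ U : Set Plane, IsOpen U →
      (∀ x ∈ D, Metric.closedBall (N⁻¹ • toPlane x) c.εc ⊆ U) →
        min (lam U) c.Λ₀ ≤ N ^ 2 * lamD D + c.εc
  deep : ∀ j ∈ J, ∀ G B : Finset Site, ConnF (G : Set Site)ᶜ →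
      (G \ B).Nonempty → lamD (G \ B) ≤ (2 * c.Λ₀) / N ^ 2 →
        ((G \ B).filter (fun x => c.L j < dep G x)).Nonempty ∧
        (1 - c.εb) * lamD ((G \ B).filter (fun x => c.L j < dep G x)) ≤ lamD (G \ B)
  tile : ∀ j ∈ J, ∀ lam : ℝ, 0 ≤ lam → lam ≤ c.Λ₀ / N ^ 2 → ∀ (r : ℕ) (v : Site)
      (D : List (Option Site × Option Site)), D.length ≤ c.m9 j →
        ZT c.β lam (c.h j) c.s₀ (c.L j) (c.s₀ * c.h j).toNat (rd r v) D ≤
          ENNReal.ofReal (Real.exp (2 * c.εT * c.L j - tau c.β (toPlane v)))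
  small : c.Λ₀ / N ^ 2 ≤ 1 ∧ c.Λ₀ / N ^ 2 < 4 * c.θ
  geo : ∀ j ∈ J, ((c.L j : ℝ) + 4) / N + 40 * c.C₁ / c.M₁ + c.εc < c.ε₂ ∧
    ((c.L j : ℝ) + 4) / N + 40 * c.C₁ / c.M₁ < c.ε / 2
  scale : ∀ j ∈ J, 1 ≤ j ∧ 10 ^ 6 * c.s₀ ≤ c.h j

end Cst

lemma expo {a N lU Λ₀ εc εb PPQ exx cost err : ℝ} (ha : a ≤ lU + N⁻¹ * PPQ + exx)
    (haΛ : a ≤ Λ₀) (hP : 0 ≤ PPQ) (hex : 0 ≤ exx) (hcost : PPQ + N * exx ≤ cost + err)
    (hN : 0 < N) (hεb : 0 ≤ εb) (hεc : 0 ≤ εc) (hΛ : 0 ≤ Λ₀) :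
    a * N ≤ (1 - εb) ^ 2 * max 0 (min lU Λ₀ - εc) * N + cost + err + (εc + 2 * εb * Λ₀) * N := by
  obtain ⟨m, hm⟩ : ∃ m : ℝ, m = min lU Λ₀ := ⟨_, rfl⟩
  obtain ⟨x, hx⟩ : ∃ x : ℝ, x = max 0 (m - εc) := ⟨_, rfl⟩
  rw [← hm, ← hx]
  have hPN : 0 ≤ N⁻¹ * PPQ := mul_nonneg (inv_pos.2 hN).le hP
  have h1 : a ≤ m + N⁻¹ * PPQ + exx := by
    rw [hm]
    rcases min_choice lU Λ₀ with h | h
    · rw [h]; exact ha
    · rw [h]; linarith
  have h2 : a * N ≤ m * N + PPQ + N * exx := by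
    have h3 := mul_le_mul_of_nonneg_right h1 hN.le
    have h4 : (m + N⁻¹ * PPQ + exx) * N = m * N + PPQ + N * exx := by field_simp
    rwa [h4] at h3
  have hx1 : m - εc ≤ x := by rw [hx]; exact le_max_right _ _
  have hx2 : x ≤ Λ₀ := by
    rw [hx]
    refine max_le hΛ ?_
    have : m ≤ Λ₀ := by rw [hm]; exact min_le_right _ _
    linarith
  have hx0 : 0 ≤ x := by rw [hx]; exact le_max_left _ _
  have h5 : x - 2 * εb * Λ₀ ≤ (1 - εb) ^ 2 * x := by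
    have : 0 ≤ εb ^ 2 * x := by positivity
    nlinarith
  have h6 : m ≤ (1 - εb) ^ 2 * x + (εc + 2 * εb * Λ₀) := by linarith
  have h7 := mul_le_mul_of_nonneg_right h6 hN.le
  linarith

lemma NN3_pow (t : ℝ≥0) : NN3 t ^ 3 = t := by
  unfold NN3
  rw [← Real.rpow_natCast, ← Real.rpow_mul (NNReal.coe_nonneg t)]
  norm_num

lemma massBd {c : Cst} {N : ℝ} {J : Finset ℕ} (ht : c.At N J) {G B : Finset Site}
    (hG : ConnF (G : Set Site)ᶜ) (hn : ((bdry G).card : ℝ) ≤ c.C₁ * N) {lam : ℝ} (h0 : 0 ≤ lam)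
    (h1 : lam ≤ (1 - c.εb) * lamD (G \ B)) (h2 : lam ≤ c.Λ₀ / N ^ 2) :
    MassBd G B lam c.θ (ENNReal.ofReal c.A) (ENNReal.ofReal (c.A * N ^ 2)) := by
  intro C z hz hzB
  refine ht.mass G B hG ?_ lam h0 h1 h2 C z hz hzB
  have h3 : (G.card : ℝ) ≤ ((bdry G).card : ℝ) ^ 2 := by exact_mod_cast card_le_sq rfl
  exact h3.trans (pow_le_pow_left₀ (Nat.cast_nonneg _) hn 2)

/-- the probability of a class, general form -/
lemma class_gen {c : Cst} (hc : c.Ok) {μ : Measure WP} (hμ : IsLaw μ) {t : ℝ≥0} {J : Finset ℕ}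
    (ht : c.At (NN3 t) J) {j : ℕ} (hj : j ∈ J) {lv : ℝ} (h0 : 0 ≤ lv)
    (h1 : lv ≤ c.Λ₀ / NN3 t ^ 2) {s0 : Site} {bs : List BD} {Bs : Finset Site} (F : Set WP)
    (hF : ∀ f ∈ F, f ∈ evtE c.β t ∧ f.1 0 = 0 ∧
      Val (c.h j) c.s₀ (c.L j) (c.s₀ * c.h j).toNat s0 bs (chainOf t f) ∧
      (∀ x ∈ chainOf t f, x ∉ Bs) ∧ (chainOf t f).toFinset.card ≠ 1 ∧
      ((bdry (fil (chainOf t f).toFinset)).card : ℝ) ≤ c.C₁ * NN3 t ∧
      lv ≤ (1 - c.εb) * lamD ((fil (chainOf t f).toFinset) \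
        Bs.filter (fun x => c.L j < dep (fil (chainOf t f).toFinset) x)))
    (hD : (bs.map (fun b => b.D.length)).sum ≤ c.K (NN3 t) j)
    (hD9 : ∀ b ∈ bs, b.D.length ≤ c.m9 j) :
    μ F ≤ ENNReal.ofReal (Real.exp (4 - lv * NN3 t ^ 3 + (c.K (NN3 t) j + 1) * Real.log c.A +
      2 * Real.log (NN3 t) + 2 * c.εT * c.L j * bs.length -
        (bs.map (costB c.β c.η (c.L j))).sum)) := by
  obtain ⟨N, hNd⟩ : ∃ N : ℝ, N = NN3 t := ⟨_, rfl⟩
  have hN : 0 < N := by rw [hNd]; exact ht.hN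
  have hβ0 : 0 ≤ c.β := by linarith [hc.hβ]
  have hA0 : 0 < c.A := by linarith [hc.hA]
  obtain ⟨S, hS⟩ : ∃ S : Set (List Site), S = chainOf t '' F := ⟨_, rfl⟩
  have hsub : F ⊆ {f : WP | f ∈ evtE c.β t ∧ chainOf t f ∈ S} := by
    intro f hf
    refine ⟨(hF f hf).1, ?_⟩
    rw [hS]
    exact ⟨f, hf, rfl⟩
  have hS0 : ∀ l ∈ S, l.IsChain Adj ∧ l.head? = some 0 := by
    intro l hl
    rw [hS] at hl
    obtain ⟨f, hf, rfl⟩ := hl
    refine ⟨chainOf_isChain t f, ?_⟩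
    rw [chainOf_head, (hF f hf).2.1]
  have h41 : lv ≤ 1 := h1.trans ht.small.1
  have h44 : lv < 4 := by linarith
  have h4θ : lv < 4 * c.θ := lt_of_le_of_lt h1 ht.small.2
  have hh1 : (1 : ℤ) ≤ c.h j := by
    have h2 := (ht.scale j hj).2
    have h3 := hc.hs₀
    linarith
  have hX := hc.hub lv c.θ h0 h41 hc.hθ hc.hθ1 h4θ (c.h j) c.s₀ (c.L j) (c.s₀ * c.h j).toNat hh1
    s0 bs Bs (ENNReal.ofReal c.A) (ENNReal.ofReal (c.A * N ^ 2)) S (by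
      intro l hl
      rw [hS] at hl
      obtain ⟨f, hf, rfl⟩ := hl
      obtain ⟨_, _, p1, p2, p3, p4, p5⟩ := hF f hf
      refine ⟨p1, p2, p3, ?_⟩
      rw [hNd]
      exact massBd ht (fil_compl_conn _) p4 h0 p5 h1)
  have hκ : 0 ≤ 2 * c.εT * c.L j := by
    have := hc.hεT
    positivity
  have hprod := prod_wB_le (η := c.η) (θ := c.θ) (lam := lv) (h := c.h j) (s₀ := c.s₀) (L := c.L j)
    (M := (c.s₀ * c.h j).toNat) (bs := bs) hc.hlog hκ (fun b hb _ =>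
      ht.tile j hj lv h0 h1 b.rot b.v b.D (hD9 b hb))
  have hApow : (ENNReal.ofReal c.A) ^ (bs.map (fun b => b.D.length)).sum ≤
      ENNReal.ofReal (Real.exp (c.K N j * Real.log c.A)) := by
    calc (ENNReal.ofReal c.A) ^ (bs.map (fun b => b.D.length)).sum ≤
        (ENNReal.ofReal c.A) ^ (c.K N j) := by
          apply pow_le_pow_right₀
          · rw [← ENNReal.ofReal_one]; exact ENNReal.ofReal_le_ofReal hc.hA
          · rw [hNd]; exact hD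
      _ = ENNReal.ofReal (c.A ^ (c.K N j)) := by rw [ENNReal.ofReal_pow hA0.le]
      _ = _ := by
          congr 1
          rw [mul_comm, Real.exp_mul, Real.exp_log hA0, Real.rpow_natCast]
  have hA' : ENNReal.ofReal (c.A * N ^ 2) = ENNReal.ofReal (Real.exp (Real.log c.A +
      2 * Real.log N)) := by
    congr 1
    rw [Real.exp_add, Real.exp_log hA0, two_mul, Real.exp_add, Real.exp_log hN]
    ring
  refine (measure_mono hsub).trans ((one_datum hμ hβ0 h0 h44 t S hS0 hX).trans ?_)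
  calc ENNReal.ofReal (Real.exp (4 - lv * t)) * ((ENNReal.ofReal c.A) ^
        (bs.map (fun b => b.D.length)).sum * ENNReal.ofReal (c.A * N ^ 2) *
        (bs.map (wB c.β lv c.θ (c.h j) c.s₀ (c.L j) (c.s₀ * c.h j).toNat)).prod)
      ≤ ENNReal.ofReal (Real.exp (4 - lv * t)) *
        (ENNReal.ofReal (Real.exp (c.K N j * Real.log c.A)) *
          ENNReal.ofReal (Real.exp (Real.log c.A + 2 * Real.log N)) *
          ENNReal.ofReal (Real.exp (2 * c.εT * c.L j * bs.length -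
            (bs.map (costB c.β c.η (c.L j))).sum))) := by
        rw [hA']
        gcongr
    _ = ENNReal.ofReal (Real.exp (4 - lv * t + (c.K N j * Real.log c.A + (Real.log c.A +
          2 * Real.log N) + (2 * c.εT * c.L j * bs.length -
            (bs.map (costB c.β c.η (c.L j))).sum)))) := by
        rw [← ENNReal.ofReal_mul (Real.exp_pos _).le, ← Real.exp_add,
          ← ENNReal.ofReal_mul (Real.exp_pos _).le, ← Real.exp_add,
          ← ENNReal.ofReal_mul (Real.exp_pos _).le, ← Real.exp_add]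
    _ ≤ _ := by
        apply ENNReal.ofReal_le_ofReal
        apply Real.exp_le_exp.2
        rw [← hNd, ← NN3_pow t, ← hNd]
        apply le_of_eq
        ring

/-- The probability of a class in case B. -/
theorem classB {c : Cst} (hc : c.Ok) {μ : Measure WP} (hμ : IsLaw μ) {t : ℝ≥0} {J : Finset ℕ}
    (ht : c.At (NN3 t) J) {j : ℕ} (hj : j ∈ J) {a : ℝ} (haΛ : a ≤ c.Λ₀) {Bs : Finset Site}
    {alt : Option (Option Plane)} {s0 : Site} {bs : List BD} {mk : Fin c.M₁ → Site} (F : Set WP)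
    (hF : ∀ f ∈ F, f ∈ evtE c.β t ∧ f.1 0 = 0 ∧
      Val (c.h j) c.s₀ (c.L j) (c.s₀ * c.h j).toNat s0 bs (chainOf t f) ∧
      (∀ x ∈ chainOf t f, x ∉ Bs) ∧ (chainOf t f).toFinset.card ≠ 1 ∧
      ((bdry (fil (chainOf t f).toFinset)).card : ℝ) ≤ c.C₁ * NN3 t ∧
      (1 - c.εb) * max 0 (min (lam (UU c.ε c.ε₂ c.ρ₂ (NN3 t) mk alt)) c.Λ₀ - c.εc) ≤
        NN3 t ^ 2 * lamD ((fil (chainOf t f).toFinset) \
          Bs.filter (fun x => c.L j < dep (fil (chainOf t f).toFinset) x)))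
    (hD : (bs.map (fun b => b.D.length)).sum ≤ c.K (NN3 t) j)
    (hD9 : ∀ b ∈ bs, b.D.length ≤ c.m9 j)
    (hlen : (bs.length : ℝ) * c.L j ≤ c.n0 (NN3 t) + 2 * c.M₁ * c.L j)
    (ha : a ≤ lam (UU c.ε c.ε₂ c.ρ₂ (NN3 t) mk alt) + (NN3 t)⁻¹ * PP c.β (Qh mk) + ex c.β c.ε alt)
    (hPP0 : 0 ≤ PP c.β (Qh mk))
    (hcost : PP c.β (Qh mk) + NN3 t * ex c.β c.ε alt ≤
      (bs.map (costB c.β c.η (c.L j))).sum + c.err (NN3 t) j) :
    μ F ≤ ENNReal.ofReal (Real.exp (-(a * NN3 t) + c.Err (NN3 t) j)) := by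
  have hN := ht.hN
  have hΛ₀ : 0 < c.Λ₀ := by linarith [hc.hΛ₀, hc.hc₁]
  have hβ0 : 0 ≤ c.β := by linarith [hc.hβ]
  have hεb := hc.hεb
  have hεb1 := hc.hεb1
  have hεc := hc.hεc
  have hεT := hc.hεT
  obtain ⟨lU, hlU⟩ : ∃ lU : ℝ, lU = lam (UU c.ε c.ε₂ c.ρ₂ (NN3 t) mk alt) := ⟨_, rfl⟩
  rw [← hlU] at hF ha
  obtain ⟨x, hx⟩ : ∃ x : ℝ, x = max 0 (min lU c.Λ₀ - c.εc) := ⟨_, rfl⟩
  have hx0 : 0 ≤ x := by rw [hx]; exact le_max_left _ _
  have hx2 : x ≤ c.Λ₀ := by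
    rw [hx]
    refine max_le hΛ₀.le ?_
    have := min_le_right lU c.Λ₀
    linarith
  obtain ⟨lv, hlv⟩ : ∃ lv : ℝ, lv = (1 - c.εb) ^ 2 * x / NN3 t ^ 2 := ⟨_, rfl⟩
  have hlv0 : 0 ≤ lv := by rw [hlv]; positivity
  have hsq : (1 - c.εb) ^ 2 ≤ 1 := by nlinarith
  have hlv1 : lv ≤ c.Λ₀ / NN3 t ^ 2 := by
    rw [hlv]
    apply div_le_div_of_nonneg_right _ (by positivity)
    calc (1 - c.εb) ^ 2 * x ≤ 1 * x := mul_le_mul_of_nonneg_right hsq hx0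
      _ ≤ c.Λ₀ := by linarith
  have h1 := class_gen hc hμ ht hj hlv0 hlv1 (s0 := s0) (bs := bs) (Bs := Bs) F (by
    intro f hf
    obtain ⟨p1, p2, p3, p4, p5, p6, p7⟩ := hF f hf
    refine ⟨p1, p2, p3, p4, p5, p6, ?_⟩
    rw [← hx] at p7
    rw [hlv, div_le_iff₀ (by positivity)]
    have := mul_le_mul_of_nonneg_left p7 (by linarith : 0 ≤ 1 - c.εb)
    calc (1 - c.εb) ^ 2 * x = (1 - c.εb) * ((1 - c.εb) * x) := by ring
      _ ≤ _ := this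
      _ = _ := by ring) hD hD9
  refine h1.trans (ENNReal.ofReal_le_ofReal (Real.exp_le_exp.2 ?_))
  have h2 := expo (εb := c.εb) (εc := c.εc) ha haΛ hPP0 (ex_nonneg hβ0 hc.hε.le alt) hcost hN
    hεb.le hεc.le hΛ₀.le
  rw [← hx] at h2
  have h3 : lv * NN3 t ^ 3 = (1 - c.εb) ^ 2 * x * NN3 t := by
    rw [hlv]; field_simp
  have h4 : 2 * c.εT * c.L j * bs.length ≤ 2 * c.εT * (c.n0 (NN3 t) + 2 * c.M₁ * c.L j) := by
    calc 2 * c.εT * c.L j * bs.length = 2 * c.εT * (bs.length * c.L j) := by ring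
      _ ≤ _ := mul_le_mul_of_nonneg_left hlen (by positivity)
  rw [h3]
  unfold Cst.Err
  linarith

/-- The probability of a class in case A. -/
theorem classA {c : Cst} (hc : c.Ok) {μ : Measure WP} (hμ : IsLaw μ) {t : ℝ≥0} {J : Finset ℕ}
    (ht : c.At (NN3 t) J) {j : ℕ} (hj : j ∈ J) {Bs : Finset Site} {s0 : Site} {n : ℕ} (F : Set WP)
    (hF : ∀ f ∈ F, f ∈ evtE c.β t ∧ f.1 0 = 0 ∧
      Val (c.h j) c.s₀ (c.L j) (c.s₀ * c.h j).toNat s0 [⟨0, n, 0, 0, []⟩] (chainOf t f) ∧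
      (∀ x ∈ chainOf t f, x ∉ Bs) ∧ (chainOf t f).toFinset.card ≠ 1 ∧
      ((bdry (fil (chainOf t f).toFinset)).card : ℝ) ≤ c.C₁ * NN3 t ∧
      2 * c.Λ₀ / NN3 t ^ 2 ≤ lamD ((fil (chainOf t f).toFinset) \
          Bs.filter (fun x => c.L j < dep (fil (chainOf t f).toFinset) x))) :
    μ F ≤ ENNReal.ofReal (Real.exp (-(c.Λ₀ * NN3 t) + (4 + (c.K (NN3 t) j + 1) * Real.log c.A +
      2 * Real.log (NN3 t) + 2 * c.εT * c.L j))) := by
  have hN := ht.hN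
  have hΛ₀ : 0 < c.Λ₀ := by linarith [hc.hΛ₀, hc.hc₁]
  have hβ0 : 0 ≤ c.β := by linarith [hc.hβ]
  have hεb1 := hc.hεb1
  have h1 := class_gen hc hμ ht hj (lv := c.Λ₀ / NN3 t ^ 2) (by positivity) le_rfl (s0 := s0)
    (bs := [⟨0, n, 0, 0, []⟩]) (Bs := Bs) F (by
    intro f hf
    obtain ⟨p1, p2, p3, p4, p5, p6, p7⟩ := hF f hf
    refine ⟨p1, p2, p3, p4, p5, p6, ?_⟩
    have h3 := mul_le_mul_of_nonneg_left p7 (by linarith : 0 ≤ 1 - c.εb)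
    refine le_trans ?_ h3
    have h4 : 0 ≤ c.Λ₀ / NN3 t ^ 2 := by positivity
    calc c.Λ₀ / NN3 t ^ 2 = 1 / 2 * (2 * c.Λ₀ / NN3 t ^ 2) := by ring
      _ ≤ (1 - c.εb) * (2 * c.Λ₀ / NN3 t ^ 2) :=
          mul_le_mul_of_nonneg_right (by linarith) (by positivity)) (by simp) (by simp)
  refine h1.trans (ENNReal.ofReal_le_ofReal (Real.exp_le_exp.2 ?_))
  have h3 : c.Λ₀ / NN3 t ^ 2 * NN3 t ^ 3 = c.Λ₀ * NN3 t := by field_simp
  rw [h3]
  have h5 : 0 ≤ costB c.β c.η (c.L j) ⟨0, n, 0, 0, []⟩ := by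
    unfold costB
    rw [if_neg (by simp), if_neg (by simp)]
    have := hc.hη'
    exact mul_nonneg (mul_nonneg (by linarith) hβ0) (Nat.cast_nonneg _)
  simp only [List.map_cons, List.map_nil, List.sum_cons, List.sum_nil, List.length_cons,
    List.length_nil]
  push_cast
  linarith

/-- The probability that the walk does not move. -/
lemma class1 {μ : Measure WP} (hμ : IsLaw μ) {β : ℝ} (hβ : 0 ≤ β) (t : ℝ≥0) :
    μ {f : WP | f ∈ evtE β t ∧ f.1 0 = 0 ∧ (chainOf t f).toFinset.card = 1} ≤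
      ENNReal.ofReal (Real.exp (4 - t)) := by
  have hsub : {f : WP | f ∈ evtE β t ∧ f.1 0 = 0 ∧ (chainOf t f).toFinset.card = 1} ⊆
      {f : WP | f ∈ evtE β t ∧ chainOf t f ∈ ({[0]} : Set (List Site))} := by
    rintro f ⟨h1, h2, h3⟩
    refine ⟨h1, ?_⟩
    rw [Set.mem_singleton_iff]
    have hh : (chainOf t f).head? = some 0 := by rw [chainOf_head, h2]
    have hc := chainOf_isChain t f
    cases hcc : chainOf t f with
    | nil => rw [hcc] at hh; simp at hh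
    | cons x l =>
      rw [hcc] at hh hc h3
      have hx : x = 0 := by simpa using hh
      subst hx
      cases l with
      | nil => rfl
      | cons y l =>
        exfalso
        have hadj : Adj 0 y := by
          rw [List.isChain_cons_cons] at hc
          exact hc.1
        obtain ⟨z, hz⟩ := Finset.card_eq_one.1 h3
        have m0 : (0 : Site) ∈ ((0 :: y :: l).toFinset : Finset Site) := by simp
        have my : y ∈ ((0 :: y :: l).toFinset : Finset Site) := by simp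
        rw [hz, Finset.mem_singleton] at m0 my
        rw [TC.adj_iff, my, ← m0] at hadj
        simp [Prod.ext_iff] at hadj
  refine (measure_mono hsub).trans ?_
  refine (one_datum hμ hβ (lam := 1) zero_le_one (by norm_num) t _ ?_ (X := 1) ?_).trans ?_
  · intro l hl
    rw [Set.mem_singleton_iff] at hl
    rw [hl]
    simp
  · rw [tsum_singleton ([0] : List Site) (fun l : List Site => W β 1 l)]
    unfold W
    have e : ([0] : List Site).toFinset = {0} := rfl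
    rw [e, Finset.prod_singleton]
    have e2 : ([0] : List Site).count 0 = 1 := by simp
    rw [e2]
    refine (gw_le_fw hβ (by norm_num) le_rfl).trans ?_
    unfold fw
    rw [pow_one, ← ENNReal.ofReal_one]
    exact ENNReal.ofReal_le_ofReal (by norm_num)
  · rw [mul_one, one_mul]

end UM

end Pool.Agent.WSB71
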