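import Pool.Agent.WSB71.EUp
import Pool.Agent.WSB71.UMc

/-!
# UB8, part 6: everything holds for large times
-/

open MeasureTheory Filter Topology
open scoped NNReal ENNReal Pointwise

namespace Pool.Agent.WSB71

open Pool.Agent.LT

namespace UM

lemma ev_poly (C : ℝ) (k : ℕ) {b : ℝ} (hb : 0 < b) :
    ∀ᶠ N : ℝ in atTop, C * N ^ k ≤ Real.exp (b * N) := by
  have h1 := (isLittleO_pow_exp_pos_mul_atTop k hb).bound
    (show 0 < 1 / (|C| + 1) by positivity)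
  filter_upwards [h1, eventually_ge_atTop 0] with N h2 hN
  rw [Real.norm_eq_abs, Real.norm_eq_abs, abs_of_nonneg (pow_nonneg hN k),
    abs_of_pos (Real.exp_pos _), one_div, ← div_eq_inv_mul, le_div_iff₀ (by positivity)] at h2
  have h3 : 0 ≤ N ^ k := pow_nonneg hN k
  calc C * N ^ k ≤ |C| * N ^ k := mul_le_mul_of_nonneg_right (le_abs_self C) h3
    _ ≤ N ^ k * (|C| + 1) := by linarith
    _ ≤ _ := h2

lemma ev_small2 (C : ℝ) {x : ℝ} (hx : 0 < x) : ∀ᶠ N : ℝ in atTop, C / N ^ 2 < x := by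
  have h : Tendsto (fun N : ℝ => C / N ^ 2) atTop (𝓝 0) :=
    tendsto_const_nhds.div_atTop (tendsto_pow_atTop two_ne_zero)
  exact h.eventually (gt_mem_nhds hx)

lemma ev_small1 (C : ℝ) {x : ℝ} (hx : 0 < x) : ∀ᶠ N : ℝ in atTop, C / N < x := by
  have h : Tendsto (fun N : ℝ => C / N) atTop (𝓝 0) :=
    tendsto_const_nhds.div_atTop tendsto_id
  exact h.eventually (gt_mem_nhds hx)

theorem ev_At {c : Cst} (hc : c.Ok) (J : Finset ℕ) (hJ : ∀ j ∈ J, 1 ≤ j ∧ 10 ^ 6 * c.s₀ ≤ c.h j)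
    (hmass : ∃ N₀ : ℝ, ∀ N : ℝ, N₀ ≤ N → ∀ G B : Finset Site, ConnF (G : Set Site)ᶜ →
      (G.card : ℝ) ≤ (c.C₁ * N) ^ 2 → ∀ lam : ℝ, 0 ≤ lam → lam ≤ (1 - c.εb) * lamD (G \ B) →
      lam ≤ c.Λ₀ / N ^ 2 → ∀ C : Set Site, ∀ z ∈ G, z ∉ B →
        (∑' l : {l : List Site // l.head? = some z ∧ l.IsChain Adj ∧
            (∃ a ∈ l.getLast?, a ∈ C ∧ a ∈ G ∧ a ∉ B) ∧
            ∀ x ∈ l.dropLast, x ∈ G ∧ x ∉ B ∧ x ∉ C},
          ((l : List Site).dropLast.map (rw1 G lam c.θ)).prod ≤ ENNReal.ofReal c.A) ∧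
        (∑' l : {l : List Site // l.head? = some z ∧ l.IsChain Adj ∧
            ∀ x ∈ l, x ∈ G ∧ x ∉ B ∧ x ∉ C},
          ((l : List Site).map (rw1 G lam c.θ)).prod ≤ ENNReal.ofReal (c.A * N ^ 2)))
    (htile : ∀ j ∈ J, ∃ lam₀ : ℝ, 0 < lam₀ ∧ ∀ lam : ℝ, 0 ≤ lam → lam ≤ lam₀ →
      ∀ (r : ℕ) (v : Site)
      (D : List (Option Site × Option Site)), D.length ≤ c.m9 j →
        ZT c.β lam (c.h j) c.s₀ (c.L j) (c.s₀ * c.h j).toNat (rd r v) D ≤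
          ENNReal.ofReal (Real.exp (2 * c.εT * c.L j - tau c.β (toPlane v))))
    (hε₂ : 0 < c.ε₂) (hg1 : 40 * c.C₁ / c.M₁ ≤ c.ε₂ / 8) (hg2 : c.εc ≤ c.ε₂ / 8) :
    ∀ᶠ N : ℝ in atTop, c.At N J := by
  have hΛ₀ : 0 < c.Λ₀ := by linarith [hc.hΛ₀, hc.hc₁]
  have hθ := hc.hθ
  obtain ⟨N1, hN1⟩ := hmass
  obtain ⟨N2, _, hN2⟩ := lam_le_lamD hc.hεc hΛ₀
  have h3 : ∀ j ∈ J, ∀ᶠ N : ℝ in atTop, ∀ G B : Finset Site, ConnF (G : Set Site)ᶜ →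
      (G \ B).Nonempty → lamD (G \ B) ≤ (2 * c.Λ₀) / N ^ 2 →
        ((G \ B).filter (fun x => c.L j < dep G x)).Nonempty ∧
        (1 - c.εb) * lamD ((G \ B).filter (fun x => c.L j < dep G x)) ≤ lamD (G \ B) := by
    intro j _
    obtain ⟨N3, _, hN3⟩ := lamD_deep hc.hεb (by linarith : 0 < 2 * c.Λ₀) (c.L j)
    filter_upwards [eventually_ge_atTop N3] with N hN
    exact hN3 N hN
  have h4 : ∀ j ∈ J, ∀ᶠ N : ℝ in atTop, ∀ lam : ℝ, 0 ≤ lam → lam ≤ c.Λ₀ / N ^ 2 →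
      ∀ (r : ℕ) (v : Site)
      (D : List (Option Site × Option Site)), D.length ≤ c.m9 j →
        ZT c.β lam (c.h j) c.s₀ (c.L j) (c.s₀ * c.h j).toNat (rd r v) D ≤
          ENNReal.ofReal (Real.exp (2 * c.εT * c.L j - tau c.β (toPlane v))) := by
    intro j hj
    obtain ⟨lam₀, hl0, hl⟩ := htile j hj
    filter_upwards [ev_small2 c.Λ₀ hl0] with N hN lam h0 h1
    exact hl lam h0 (h1.trans hN.le)
  have h5 : ∀ j ∈ J, ∀ᶠ N : ℝ in atTop,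
      ((c.L j : ℝ) + 4) / N + 40 * c.C₁ / c.M₁ + c.εc < c.ε₂ ∧
      ((c.L j : ℝ) + 4) / N + 40 * c.C₁ / c.M₁ < c.ε / 2 := by
    intro j _
    filter_upwards [ev_small1 ((c.L j : ℝ) + 4) (show 0 < c.ε₂ / 8 by linarith)] with N hN
    have := hc.hε₂
    constructor <;> linarith
  filter_upwards [eventually_gt_atTop 0, eventually_ge_atTop N1, eventually_ge_atTop N2,
    (Filter.eventually_all_finset J).2 h3, (Filter.eventually_all_finset J).2 h4,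
    (Filter.eventually_all_finset J).2 h5, ev_small2 c.Λ₀ one_pos,
    ev_small2 c.Λ₀ (show 0 < 4 * c.θ by linarith)] with N e0 e1 e2 e3 e4 e5 e6 e7
  exact ⟨e0, hN1 N e1, hN2 N e2, e3, e4, ⟨e6.le, e7⟩, e5, hJ⟩

lemma n0_le {c : Cst} (hc : c.Ok) {N : ℝ} (hN : 0 ≤ N) : (c.n0 N : ℝ) ≤ c.C₁ * N := by
  unfold Cst.n0
  exact Nat.floor_le (mul_nonneg hc.hC₁.le hN)

lemma K_le {c : Cst} (hc : c.Ok) {N : ℝ} (hN : 0 ≤ N) {j : ℕ} (hj : 1 ≤ j) :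
    (c.K N j : ℝ) ≤ c.εt * N / j + 1 ∧ (c.K N j : ℝ) ≤ c.εt * N + 1 := by
  have hεt := hc.hεt
  have hj' : (1 : ℝ) ≤ j := by exact_mod_cast hj
  have h1 : (c.K N j : ℝ) ≤ c.εt * N / j + 1 := by
    unfold Cst.K
    exact (Nat.ceil_lt_add_one (by positivity)).le
  refine ⟨h1, h1.trans ?_⟩
  have h2 : c.εt * N / j ≤ c.εt * N := div_le_self (by positivity) hj'
  linarith

theorem ev_A {c : Cst} (hc : c.Ok) (Pc : Finset Plane) (hεt : c.εt * Real.log c.A ≤ 1 / 64)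
    {j : ℕ} (hj : 1 ≤ j) :
    ∀ᶠ N : ℝ in atTop, 2 ^ Pc.card * ((2 * ((c.n0 N : ℝ) ^ 2 + 1) + 1) ^ 2 *
      (c.n0 N + 1)) * Real.exp (-(c.Λ₀ * N) + (4 + (c.K N j + 1) *
      Real.log c.A + 2 * Real.log N + 2 * c.εT * c.L j)) ≤
        Real.exp (-((c.c₁ + 1) * N)) := by
  have hC₁ := hc.hC₁
  have hlA : 0 ≤ Real.log c.A := Real.log_nonneg hc.hA
  obtain ⟨Q, hQ⟩ : ∃ Q : ℝ, Q = 4 + 2 * Real.log c.A + 2 * c.εT * c.L j := ⟨_, rfl⟩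
  obtain ⟨R, hR⟩ : ∃ R : ℝ, R = 2 ^ Pc.card * ((2 * (c.C₁ ^ 2 + 1) + 1) ^ 2 * (c.C₁ + 1)) *
    Real.exp Q := ⟨_, rfl⟩
  filter_upwards [ev_poly R 7 (show (0 : ℝ) < 1 / 2 by norm_num), eventually_ge_atTop 1]
    with N h1 hN1
  have hN0 : 0 < N := by linarith
  have hn := n0_le hc hN0.le
  have hn0 : (0 : ℝ) ≤ c.n0 N := Nat.cast_nonneg _
  have hK := (K_le hc hN0.le hj).2
  have hp1 : 2 * ((c.n0 N : ℝ) ^ 2 + 1) + 1 ≤ (2 * (c.C₁ ^ 2 + 1) + 1) * N ^ 2 := by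
    have h2 : (c.n0 N : ℝ) ^ 2 ≤ c.C₁ ^ 2 * N ^ 2 := by
      rw [← mul_pow]; exact pow_le_pow_left₀ hn0 hn 2
    have h3 : 1 ≤ N ^ 2 := one_le_pow₀ hN1
    nlinarith
  have hp2 : (c.n0 N : ℝ) + 1 ≤ (c.C₁ + 1) * N := by nlinarith
  have hexp : Real.exp (-(c.Λ₀ * N) + (4 + (c.K N j + 1) *
      Real.log c.A + 2 * Real.log N + 2 * c.εT * c.L j)) ≤
      Real.exp (-(c.Λ₀ * N)) * (Real.exp Q * (N ^ 2 * Real.exp (1 / 2 * N))) := by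
    have e1 : Real.exp (2 * Real.log N) = N ^ 2 := by
      rw [mul_comm, Real.exp_mul, Real.exp_log hN0]; norm_num
    rw [← e1, ← Real.exp_add, ← Real.exp_add, ← Real.exp_add]
    apply Real.exp_le_exp.2
    have e2 : ((c.K N j : ℝ) + 1) * Real.log c.A ≤ (c.εt * N + 2) * Real.log c.A :=
      mul_le_mul_of_nonneg_right (by linarith) hlA
    have e3 : c.εt * N * Real.log c.A ≤ 1 / 64 * N := by
      calc c.εt * N * Real.log c.A = (c.εt * Real.log c.A) * N := by ring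
        _ ≤ _ := mul_le_mul_of_nonneg_right hεt hN0.le
    rw [hQ]
    nlinarith
  calc 2 ^ Pc.card * ((2 * ((c.n0 N : ℝ) ^ 2 + 1) + 1) ^ 2 *
      (c.n0 N + 1)) * Real.exp (-(c.Λ₀ * N) + (4 + (c.K N j + 1) *
      Real.log c.A + 2 * Real.log N + 2 * c.εT * c.L j))
      ≤ 2 ^ Pc.card * (((2 * (c.C₁ ^ 2 + 1) + 1) * N ^ 2) ^ 2 * ((c.C₁ + 1) * N)) *
        (Real.exp (-(c.Λ₀ * N)) * (Real.exp Q * (N ^ 2 * Real.exp (1 / 2 * N)))) := by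
        gcongr
    _ = (R * N ^ 7) * (Real.exp (-(c.Λ₀ * N)) * Real.exp (1 / 2 * N)) := by
        rw [hR]; ring
    _ ≤ Real.exp (1 / 2 * N) * (Real.exp (-(c.Λ₀ * N)) * Real.exp (1 / 2 * N)) :=
        mul_le_mul_of_nonneg_right h1 (by positivity)
    _ = Real.exp (1 / 2 * N + (-(c.Λ₀ * N) + 1 / 2 * N)) := by
        rw [Real.exp_add, Real.exp_add]
    _ ≤ _ := by
        apply Real.exp_le_exp.2
        have := mul_le_mul_of_nonneg_right hc.hΛ₀ hN0.le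
        linarith

theorem ev_B {c : Cst} (hc : c.Ok) (Pc : Finset Plane) {ε' : ℝ} (hε' : 0 < ε')
    (b1 : c.εc ≤ ε' / 64) (b2 : 2 * c.εb * c.Λ₀ ≤ ε' / 64)
    (b3 : 4 * c.η * c.β * (4 / c.c₉ + 10 ^ 4 * c.Λ) * c.εt ≤ ε' / 64)
    (b4 : c.εt * Real.log c.A ≤ ε' / 64) (b5 : 2 * c.εT * c.C₁ ≤ ε' / 64)
    {cL : ℝ} (hcL : 0 ≤ cL) (b6 : cL * c.εt ≤ ε' / 64)
    {δ : ℝ} (hδ0 : 0 ≤ δ) (b7 : δ * c.C₁ ≤ ε' / 64)
    {j : ℕ} (hj : 1 ≤ j) (hL : Real.log (10 ^ 6 * (c.L j : ℝ) ^ 4) ≤ cL * j)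
    (hcount : ∃ C : ℝ, 0 < C ∧ ∀ n₀ K : ℕ, (dataSet n₀ (n₀ / c.L j + 2 * c.M₁) K (c.L j)).Finite ∧
      ((dataSet n₀ (n₀ / c.L j + 2 * c.M₁) K (c.L j)).ncard : ℝ) ≤
        C * Real.exp (δ * n₀) * (10 ^ 6 * (c.L j : ℝ) ^ 4) ^ K) :
    ∀ᶠ N : ℝ in atTop, 2 ^ Pc.card * ((Pc.card + 2) * ((4 * (c.n0 N : ℝ) + 1) ^ 2 *
      (((dataSet (c.n0 N) (c.n0 N / c.L j + 2 * c.M₁)
        (c.K N j) (c.L j)).ncard : ℝ) * ((4 * (c.n0 N : ℝ) + 1) ^ 2) ^ c.M₁))) *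
        Real.exp (c.Err N j) ≤ Real.exp (3 / 4 * ε' * N) := by
  obtain ⟨C, hC, hcnt⟩ := hcount
  have hC₁ := hc.hC₁
  have hη := hc.hη
  have hβ := hc.hβ
  have hc9 := hc.hc₉
  have hεT := hc.hεT
  have hεt := hc.hεt
  have hlA : 0 ≤ Real.log c.A := Real.log_nonneg hc.hA
  have hΛ : 0 < c.Λ := by have := hc.hΛ; omega
  have hL0 : (0 : ℝ) < 10 ^ 6 * (c.L j : ℝ) ^ 4 := by
    have : 0 < c.L j := by unfold Cst.L; positivity
    have : (0 : ℝ) < c.L j := by exact_mod_cast this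
    positivity
  have hj' : (1 : ℝ) ≤ j := by exact_mod_cast hj
  obtain ⟨Q, hQ⟩ : ∃ Q : ℝ, Q = 4 * c.η * c.β * (2 * c.L j + 4 / c.c₉ * j + 20 * c.M₁ * c.L j) + 4 +
    2 * Real.log c.A + 2 * c.εT * (2 * c.M₁ * c.L j) := ⟨_, rfl⟩
  obtain ⟨R, hR⟩ : ∃ R : ℝ, R = 2 ^ Pc.card * ((Pc.card + 2) * ((4 * c.C₁ + 1) ^ 2 *
      ((C * Real.exp (cL * j)) * ((4 * c.C₁ + 1) ^ 2) ^ c.M₁))) * Real.exp Q := ⟨_, rfl⟩
  filter_upwards [ev_poly R (2 + 2 * c.M₁ + 2) (show (0 : ℝ) < ε' / 2 by linarith),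
    eventually_ge_atTop 1] with N h1 hN1
  have hN0 : 0 < N := by linarith
  have hn := n0_le hc hN0.le
  have hn0 : (0 : ℝ) ≤ c.n0 N := Nat.cast_nonneg _
  obtain ⟨hK1, hK⟩ := K_le hc hN0.le hj
  have hp1 : 4 * (c.n0 N : ℝ) + 1 ≤ (4 * c.C₁ + 1) * N := by nlinarith
  have hcard : ((dataSet (c.n0 N) (c.n0 N / c.L j + 2 * c.M₁)
        (c.K N j) (c.L j)).ncard : ℝ) ≤ C * Real.exp (cL * j) * Real.exp (ε' / 32 * N) := by
    refine ((hcnt (c.n0 N) (c.K N j)).2).trans ?_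
    have e1 : Real.exp (δ * c.n0 N) ≤ Real.exp (ε' / 64 * N) := by
      apply Real.exp_le_exp.2
      calc δ * c.n0 N ≤ δ * (c.C₁ * N) := mul_le_mul_of_nonneg_left hn hδ0
        _ = (δ * c.C₁) * N := by ring
        _ ≤ _ := mul_le_mul_of_nonneg_right b7 hN0.le
    have e2 : (10 ^ 6 * (c.L j : ℝ) ^ 4) ^ (c.K N j) ≤ Real.exp (cL * j + ε' / 64 * N) := by
      rw [← Real.rpow_natCast, ← Real.exp_log hL0, ← Real.exp_mul]
      apply Real.exp_le_exp.2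
      calc Real.log (10 ^ 6 * (c.L j : ℝ) ^ 4) * (c.K N j : ℝ) ≤ cL * j * (c.K N j : ℝ) :=
            mul_le_mul_of_nonneg_right hL (Nat.cast_nonneg _)
        _ ≤ cL * j * (c.εt * N / j + 1) := mul_le_mul_of_nonneg_left hK1 (by positivity)
        _ = cL * j + cL * c.εt * N := by field_simp; ring
        _ ≤ _ := by
            have := mul_le_mul_of_nonneg_right b6 hN0.le
            linarith
    calc C * Real.exp (δ * c.n0 N) * (10 ^ 6 * (c.L j : ℝ) ^ 4) ^ (c.K N j)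
        ≤ C * Real.exp (ε' / 64 * N) * Real.exp (cL * j + ε' / 64 * N) := by gcongr
      _ = C * Real.exp (cL * j) * Real.exp (ε' / 32 * N) := by
          rw [Real.exp_add, show ε' / 32 * N = ε' / 64 * N + ε' / 64 * N by ring, Real.exp_add]
          ring
  have hexp : Real.exp (c.Err N j) ≤ Real.exp Q * (N ^ 2 * Real.exp (5 * ε' / 64 * N)) := by
    have e1 : Real.exp (2 * Real.log N) = N ^ 2 := by
      rw [mul_comm, Real.exp_mul, Real.exp_log hN0]; norm_num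
    rw [← e1, ← Real.exp_add, ← Real.exp_add]
    apply Real.exp_le_exp.2
    have e2 : ((c.K N j : ℝ) + 1) * Real.log c.A ≤ (c.εt * N + 2) * Real.log c.A :=
      mul_le_mul_of_nonneg_right (by linarith) hlA
    have f1 := mul_le_mul_of_nonneg_right b1 hN0.le
    have f2 := mul_le_mul_of_nonneg_right b2 hN0.le
    have f3 := mul_le_mul_of_nonneg_right b3 hN0.le
    have f4 := mul_le_mul_of_nonneg_right b4 hN0.le
    have f5 := mul_le_mul_of_nonneg_right b5 hN0.le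
    have f6 : 2 * c.εT * c.n0 N ≤ 2 * c.εT * (c.C₁ * N) :=
      mul_le_mul_of_nonneg_left hn (by positivity)
    unfold Cst.Err Cst.err Cst.X
    rw [hQ]
    have g1 : 4 * c.η * c.β * (2 * ↑(c.L j) + 4 / c.c₉ * (c.εt * N + ↑j) +
        10 ^ 4 * ↑c.Λ * (c.εt * N) + 20 * ↑c.M₁ * ↑(c.L j)) =
        4 * c.η * c.β * (2 * c.L j + 4 / c.c₉ * j + 20 * c.M₁ * c.L j) +
        4 * c.η * c.β * (4 / c.c₉ + 10 ^ 4 * c.Λ) * c.εt * N := by ring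
    rw [g1]
    have g2 : (c.εc + 2 * c.εb * c.Λ₀) * N = c.εc * N + 2 * c.εb * c.Λ₀ * N := by ring
    have g3 : (c.εt * N + 2) * Real.log c.A = c.εt * Real.log c.A * N + 2 * Real.log c.A := by ring
    have g4 : 2 * c.εT * (↑(c.n0 N) + 2 * ↑c.M₁ * ↑(c.L j)) =
      2 * c.εT * c.n0 N + 2 * c.εT * (2 * ↑c.M₁ * ↑(c.L j)) := by ring
    have g5 : 2 * c.εT * (c.C₁ * N) = 2 * c.εT * c.C₁ * N := by ring
    rw [g2, g4]
    rw [g3] at e2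
    rw [g5] at f6
    linarith
  calc 2 ^ Pc.card * ((Pc.card + 2) * ((4 * (c.n0 N : ℝ) + 1) ^ 2 *
      (((dataSet (c.n0 N) (c.n0 N / c.L j + 2 * c.M₁)
        (c.K N j) (c.L j)).ncard : ℝ) * ((4 * (c.n0 N : ℝ) + 1) ^ 2) ^ c.M₁))) *
        Real.exp (c.Err N j)
      ≤ 2 ^ Pc.card * ((Pc.card + 2) * (((4 * c.C₁ + 1) * N) ^ 2 *
      ((C * Real.exp (cL * j) * Real.exp (ε' / 32 * N)) * (((4 * c.C₁ + 1) * N) ^ 2) ^ c.M₁))) *
        (Real.exp Q * (N ^ 2 * Real.exp (5 * ε' / 64 * N))) := by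
        gcongr
    _ = (R * N ^ (2 + 2 * c.M₁ + 2)) * (Real.exp (ε' / 32 * N) * Real.exp (5 * ε' / 64 * N)) := by
        rw [hR, pow_add, pow_add, mul_pow, mul_pow, pow_mul N]
        ring
    _ ≤ Real.exp (ε' / 2 * N) * (Real.exp (ε' / 32 * N) * Real.exp (5 * ε' / 64 * N)) :=
        mul_le_mul_of_nonneg_right h1 (by positivity)
    _ = Real.exp (ε' / 2 * N + (ε' / 32 * N + 5 * ε' / 64 * N)) := by
        rw [Real.exp_add, Real.exp_add]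
    _ ≤ _ := by
        apply Real.exp_le_exp.2
        have : 0 < ε' * N := by positivity
        linarith

end UM

end Pool.Agent.WSB71
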