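import Pool.Agent.WSB71.Flat
import Pool.Agent.WSB71.MassProof
import Pool.Agent.WSB71.RealLow
import Pool.Agent.WSB71.TileStat
import Pool.Agent.WSB71.UBDataProof
import Pool.Agent.WSB71.UMe
import Pool.Agent.WSB71.UMf

/-!
# UB8: the upper bound (`ub_main`), choice of the constants
-/

open MeasureTheory Filter Topology
open scoped NNReal ENNReal Pointwise

namespace Pool.Agent.WSB71

open Pool.Agent.LT

namespace UM

theorem main_gen {c : Cst} (hc : c.Ok) {μ : Measure WP} (hμ : IsLaw μ) (Pc : Finset Plane)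
    {ε' : ℝ} (hε' : 0 < ε') {J₁ J₂ : ℕ} {t₁ : ℝ≥0}
    (hscale : ∀ j ∈ Finset.Icc J₁ J₂, 1 ≤ j ∧ 10 ^ 6 * c.s₀ ≤ c.h j)
    (hmass : ∃ N₀ : ℝ, ∀ N : ℝ, N₀ ≤ N → ∀ G B : Finset Site, ConnF (G : Set Site)ᶜ →
      (G.card : ℝ) ≤ (c.C₁ * N) ^ 2 → ∀ lam : ℝ, 0 ≤ lam → lam ≤ (1 - c.εb) * lamD (G \ B) →
      lam ≤ c.Λ₀ / N ^ 2 → ∀ C : Set Site, ∀ z ∈ G, z ∉ B →
        (∑' l : {l : List Site // l.head? = some z ∧ l.IsChain Adj ∧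
            (∃ a ∈ l.getLast?, a ∈ C ∧ a ∈ G ∧ a ∉ B) ∧
            ∀ x ∈ l.dropLast, x ∈ G ∧ x ∉ B ∧ x ∉ C},
          ((l : List Site).dropLast.map (rw1 G lam c.θ)).prod ≤ ENNReal.ofReal c.A) ∧
        (∑' l : {l : List Site // l.head? = some z ∧ l.IsChain Adj ∧
            ∀ x ∈ l, x ∈ G ∧ x ∉ B ∧ x ∉ C},
          ((l : List Site).map (rw1 G lam c.θ)).prod ≤ ENNReal.ofReal (c.A * N ^ 2)))
    (htile : ∀ j ∈ Finset.Icc J₁ J₂, ∃ lam₀ : ℝ, 0 < lam₀ ∧ ∀ lam : ℝ, 0 ≤ lam → lam ≤ lam₀ →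
      ∀ (r : ℕ) (v : Site)
      (D : List (Option Site × Option Site)), D.length ≤ c.m9 j →
        ZT c.β lam (c.h j) c.s₀ (c.L j) (c.s₀ * c.h j).toNat (rd r v) D ≤
          ENNReal.ofReal (Real.exp (2 * c.εT * c.L j - tau c.β (toPlane v))))
    (hε₂ : 0 < c.ε₂) (hg1 : 40 * c.C₁ / c.M₁ ≤ c.ε₂ / 8) (hg2 : c.εc ≤ c.ε₂ / 8)
    (hap : ∀ t : ℝ≥0, t₁ ≤ t → μ {f : WP | f ∈ evtE c.β t ∧
      ¬ (((bdry (fil (rangeF t f))).card : ℝ) ≤ c.C₁ * NN3 t ∧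
            ((holeE (rangeF t f)).card : ℝ) ≤ c.C₁ * NN3 t ∧
            ∃ j ∈ Finset.Icc J₁ J₂, GoodScale t f (240 * c.Λ) c.εt j)}
          ≤ ENNReal.ofReal (Real.exp (-((c.c₁ + 1) * NN3 t))))
    (b0 : c.εt * Real.log c.A ≤ 1 / 64)
    (b1 : c.εc ≤ ε' / 64) (b2 : 2 * c.εb * c.Λ₀ ≤ ε' / 64)
    (b3 : 4 * c.η * c.β * (4 / c.c₉ + 10 ^ 4 * c.Λ) * c.εt ≤ ε' / 64)
    (b4 : c.εt * Real.log c.A ≤ ε' / 64) (b5 : 2 * c.εT * c.C₁ ≤ ε' / 64)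
    {cL : ℝ} (hcL : 0 ≤ cL) (b6 : cL * c.εt ≤ ε' / 64)
    {δ : ℝ} (hδ0 : 0 ≤ δ) (b7 : δ * c.C₁ ≤ ε' / 64)
    (hL : ∀ j ∈ Finset.Icc J₁ J₂, Real.log (10 ^ 6 * (c.L j : ℝ) ^ 4) ≤ cL * j)
    (hcount : ∀ j ∈ Finset.Icc J₁ J₂, ∃ C : ℝ, 0 < C ∧ ∀ n₀ K : ℕ,
      (dataSet n₀ (n₀ / c.L j + 2 * c.M₁) K (c.L j)).Finite ∧
      ((dataSet n₀ (n₀ / c.L j + 2 * c.M₁) K (c.L j)).ncard : ℝ) ≤
        C * Real.exp (δ * n₀) * (10 ^ 6 * (c.L j : ℝ) ^ 4) ^ K) :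
    ∃ t₀ : ℝ≥0, ∀ t : ℝ≥0, t₀ ≤ t → ∀ a : ℝ, a ≤ c.c₁ → ∀ S : Set WP,
        (∀ f ∈ S, f ∈ evtE c.β t → f.1 0 = 0 → ∀ K, CC K → sR t f ⊆ Metric.thickening c.ε K →
          a ≤ lam (Metric.thickening c.ε K) + PP c.β K ∨
          ∃ p' ∈ Pc, Disjoint (sR t f) (Metric.closedBall p' c.ρ₁) ∧
            a ≤ lam (Metric.thickening c.ε K \ Metric.closedBall p' c.ρ₂) + PP c.β K) →
        (∀ K, CC K → a ≤ lam (Metric.thickening c.ε₂ K) + PP c.β K + c.β * c.ε / 8) →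
        μ (S ∩ evtE c.β t) ≤ ENNReal.ofReal (Real.exp (-((a - ε') * NN3 t))) := by
  have hev : ∀ᶠ N : ℝ in atTop, c.At N (Finset.Icc J₁ J₂) ∧ 4 - N ^ 3 ≤ -((c.c₁ + 1) * N) ∧
      (∀ j ∈ Finset.Icc J₁ J₂, 2 ^ Pc.card * ((2 * ((c.n0 N : ℝ) ^ 2 + 1) + 1) ^ 2 *
      (c.n0 N + 1)) * Real.exp (-(c.Λ₀ * N) + (4 + (c.K N j + 1) *
      Real.log c.A + 2 * Real.log N + 2 * c.εT * c.L j)) ≤
        Real.exp (-((c.c₁ + 1) * N))) ∧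
      (∀ j ∈ Finset.Icc J₁ J₂, 2 ^ Pc.card * ((Pc.card + 2) * ((4 * (c.n0 N : ℝ) + 1) ^ 2 *
      (((dataSet (c.n0 N) (c.n0 N / c.L j + 2 * c.M₁)
        (c.K N j) (c.L j)).ncard : ℝ) * ((4 * (c.n0 N : ℝ) + 1) ^ 2) ^ c.M₁))) *
        Real.exp (c.Err N j) ≤ Real.exp (3 / 4 * ε' * N)) ∧
      2 * ((J₂ : ℝ) + 1) + 2 ≤ Real.exp (ε' / 4 * N) := by
    have e1 := ev_At hc (Finset.Icc J₁ J₂) hscale hmass htile hε₂ hg1 hg2
    have e2 : ∀ᶠ N : ℝ in atTop, 4 - N ^ 3 ≤ -((c.c₁ + 1) * N) := by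
      filter_upwards [eventually_ge_atTop (c.c₁ + 6)] with N hN
      have h1 := hc.hc₁
      have h2 : 1 ≤ N := by linarith
      have h3 : N ≤ N ^ 2 := by nlinarith
      have h4 : (c.c₁ + 6) * N ≤ N ^ 2 := by nlinarith
      have h5 : N ^ 2 ≤ N ^ 3 := by nlinarith
      linarith
    have e3 : ∀ j ∈ Finset.Icc J₁ J₂, ∀ᶠ N : ℝ in atTop, 2 ^ Pc.card *
      ((2 * ((c.n0 N : ℝ) ^ 2 + 1) + 1) ^ 2 *
      (c.n0 N + 1)) * Real.exp (-(c.Λ₀ * N) + (4 + (c.K N j + 1) *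
      Real.log c.A + 2 * Real.log N + 2 * c.εT * c.L j)) ≤
        Real.exp (-((c.c₁ + 1) * N)) := fun j hj => ev_A hc Pc b0 (hscale j hj).1
    have e4 : ∀ j ∈ Finset.Icc J₁ J₂, ∀ᶠ N : ℝ in atTop, 2 ^ Pc.card * ((Pc.card + 2) *
      ((4 * (c.n0 N : ℝ) + 1) ^ 2 *
      (((dataSet (c.n0 N) (c.n0 N / c.L j + 2 * c.M₁)
        (c.K N j) (c.L j)).ncard : ℝ) * ((4 * (c.n0 N : ℝ) + 1) ^ 2) ^ c.M₁))) *
        Real.exp (c.Err N j) ≤ Real.exp (3 / 4 * ε' * N) := fun j hj =>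
      ev_B hc Pc hε' b1 b2 b3 b4 b5 hcL b6 hδ0 b7 (hscale j hj).1 (hL j hj) (hcount j hj)
    have e5 := ev_poly (2 * ((J₂ : ℝ) + 1) + 2) 0 (show 0 < ε' / 4 by linarith)
    filter_upwards [e1, e2, (Filter.eventually_all_finset _).2 e3,
      (Filter.eventually_all_finset _).2 e4, e5] with N h1 h2 h3 h4 h5
    rw [pow_zero, mul_one] at h5
    exact ⟨h1, h2, h3, h4, h5⟩
  obtain ⟨N₀, hN₀⟩ := eventually_atTop.1 hev
  refine ⟨max t₁ (Real.toNNReal (max N₀ 0 ^ 3)), ?_⟩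
  intro t ht a ha S H1 H2
  have ht1 : t₁ ≤ t := (le_max_left _ _).trans ht
  have hNN : N₀ ≤ NN3 t := by
    have h1 : max N₀ 0 ^ 3 ≤ (t : ℝ) :=
      Real.toNNReal_le_iff_le_coe.1 ((le_max_right _ _).trans ht)
    have h2 : (0 : ℝ) ≤ max N₀ 0 := le_max_right _ _
    refine (le_max_left N₀ 0).trans ?_
    unfold NN3
    calc max N₀ 0 = (max N₀ 0 ^ 3) ^ ((1 : ℝ) / 3) := by
          rw [← Real.rpow_natCast, ← Real.rpow_mul h2]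
          norm_num
      _ ≤ _ := Real.rpow_le_rpow (by positivity) h1 (by norm_num)
  obtain ⟨h1, h2, h3, h4, h5⟩ := hN₀ _ hNN
  rw [NN3_pow] at h2
  exact core hc hμ h1 hε' (hap t ht1) (fun j hj => by
    obtain ⟨C, _, hC⟩ := hcount j hj
    exact (hC _ _).1) h2 h3 h4 h5 ha H1 H2

lemma log_four_le : Real.log 4 ≤ 2.5 := by
  have h1 : Real.log 4 = 2 * Real.log 2 := by
    rw [show (4 : ℝ) = 2 ^ 2 by norm_num, Real.log_pow]; norm_num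
  have := Real.log_two_lt_d9
  rw [h1]
  linarith

lemma log_L {Λ j : ℕ} (hΛ : (1 : ℝ) ≤ Λ) (hlog6 : 0 ≤ Real.log (10 ^ 6))
    (hj1 : (1 : ℝ) ≤ j) :
    Real.log (10 ^ 6 * ((Λ * 2 ^ (j + 3) : ℕ) : ℝ) ^ 4) ≤
      (Real.log (10 ^ 6) + 4 * Real.log Λ + 16) * j := by
  obtain ⟨x, hx⟩ : ∃ x : ℝ, x = ((Λ * 2 ^ (j + 3) : ℕ) : ℝ) := ⟨_, rfl⟩
  obtain ⟨y, hy⟩ : ∃ y : ℝ, y = 10 ^ 6 := ⟨_, rfl⟩
  have hΛ0 : (0 : ℝ) < Λ := by linarith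
  have hx0 : 0 < x := by rw [hx]; push_cast; positivity
  have hy0 : 0 < y := by rw [hy]; norm_num
  have hlx : Real.log x = Real.log Λ + ((j : ℝ) + 3) * Real.log 2 := by
    rw [hx]
    push_cast
    rw [Real.log_mul hΛ0.ne' (by positivity), Real.log_pow]
    push_cast
    ring
  rw [← hx, ← hy]
  rw [← hy] at hlog6
  rw [Real.log_mul hy0.ne' (by positivity), Real.log_pow, hlx]
  have h2 := Real.log_two_lt_d9
  have h3 := Real.log_two_gt_d9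
  have h4 : Real.log y ≤ Real.log y * j := le_mul_of_one_le_right hlog6 hj1
  have h5 : 4 * Real.log Λ ≤ 4 * Real.log Λ * j :=
    le_mul_of_one_le_right (mul_nonneg (by norm_num) (Real.log_nonneg hΛ)) hj1
  have h6 : 4 * (((j : ℝ) + 3) * Real.log 2) ≤ 16 * j := by nlinarith
  push_cast
  linarith

end UM

open UM in
/-- **The upper bound.** -/
theorem ub_main : ∃ β₀ : ℝ, 1 ≤ β₀ ∧ ∀ β : ℝ, β₀ ≤ β → ∀ μ : Measure WP, IsLaw μ →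
    ∀ c₁ ε ε₂ ε' ρ₁ ρ₂ : ℝ, 0 < c₁ → 0 < ε → 0 < ε₂ → ε₂ ≤ ε → 0 < ε' → 0 < ρ₂ → ρ₂ < ρ₁ →
      ∀ Pc : Finset Plane, ∃ t₀ : ℝ≥0, ∀ t : ℝ≥0, t₀ ≤ t → ∀ a : ℝ, a ≤ c₁ → ∀ S : Set WP,
        (∀ f ∈ S, f ∈ evtE β t → f.1 0 = 0 → ∀ K, CC K → sR t f ⊆ Metric.thickening ε K →
          a ≤ lam (Metric.thickening ε K) + PP β K ∨
          ∃ p' ∈ Pc, Disjoint (sR t f) (Metric.closedBall p' ρ₁) ∧
            a ≤ lam (Metric.thickening ε K \ Metric.closedBall p' ρ₂) + PP β K) →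
        (∀ K, CC K → a ≤ lam (Metric.thickening ε₂ K) + PP β K + β * ε / 8) →
        μ (S ∩ evtE β t) ≤ ENNReal.ofReal (Real.exp (-((a - ε') * NN3 t))) := by
  obtain ⟨β1, hβ1, hAP⟩ := ap_main
  obtain ⟨β2, hβ2, hUB⟩ := ub_datum
  obtain ⟨β3, hβ3, hFl⟩ := realizable_flat (η := 1 / 2000) (by norm_num)
  obtain ⟨β4, hβ4, hLo⟩ := realizable_lower
  refine ⟨max 10000 (max (max β1 β2) (max β3 β4)),
    le_trans (by norm_num) (le_max_left _ _), ?_⟩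
  intro β hβ μ hμ c₁ ε ε₂ ε' ρ₁ ρ₂ hc₁ hε hε₂ hε₂ε hε' hρ₂ hρ Pc
  have hb0 : 10000 ≤ β := (le_max_left _ _).trans hβ
  have hbm := (le_max_right 10000 (max (max β1 β2) (max β3 β4))).trans hβ
  have hb1 : β1 ≤ β := ((le_max_left _ _).trans (le_max_left _ _)).trans hbm
  have hb2 : β2 ≤ β := ((le_max_right _ _).trans (le_max_left _ _)).trans hbm
  have hb3 : β3 ≤ β := ((le_max_left _ _).trans (le_max_right _ _)).trans hbm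
  have hb4 : β4 ≤ β := ((le_max_right _ _).trans (le_max_right _ _)).trans hbm
  have hβ1' : 1 ≤ β := by linarith
  have hlow := hLo β hb4 μ hμ
  obtain ⟨C₁, hC₁, hAP'⟩ := hAP β hb1 (c₁ + 1) (by linarith)
  obtain ⟨Λ₀, hΛ₀⟩ : ∃ Λ₀ : ℝ, Λ₀ = c₁ + 2 := ⟨_, rfl⟩
  have hΛ₀0 : 0 < Λ₀ := by rw [hΛ₀]; linarith
  obtain ⟨εp, hεp⟩ : ∃ εp : ℝ, εp = min ε' 1 := ⟨_, rfl⟩
  have hεp0 : 0 < εp := by rw [hεp]; exact lt_min hε' one_pos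
  have hεp1 : εp ≤ 1 := by rw [hεp]; exact min_le_right _ _
  have hεp2 : εp ≤ ε' := by rw [hεp]; exact min_le_left _ _
  obtain ⟨εc, hεc⟩ : ∃ εc : ℝ, εc = min (ε₂ / 8) (min ((ρ₁ - ρ₂) / 2) (εp / 64)) := ⟨_, rfl⟩
  have hεc0 : 0 < εc := by
    rw [hεc]
    exact lt_min (by linarith) (lt_min (by linarith) (by linarith))
  have hεc1 : εc ≤ ε₂ / 8 := by rw [hεc]; exact min_le_left _ _
  have hεc2 : εc ≤ (ρ₁ - ρ₂) / 2 := by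
    rw [hεc]; exact (min_le_right _ _).trans (min_le_left _ _)
  have hεc3 : εc ≤ εp / 64 := by
    rw [hεc]; exact (min_le_right _ _).trans (min_le_right _ _)
  obtain ⟨εb, hεb⟩ : ∃ εb : ℝ, εb = min (1 / 2) (εp / (128 * Λ₀)) := ⟨_, rfl⟩
  have hεb0 : 0 < εb := by
    rw [hεb]
    exact lt_min (by norm_num) (by positivity)
  have hεb1 : εb ≤ 1 / 2 := by rw [hεb]; exact min_le_left _ _
  have hεb2 : 2 * εb * Λ₀ ≤ εp / 64 := by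
    have h1 : εb ≤ εp / (128 * Λ₀) := by rw [hεb]; exact min_le_right _ _
    rw [le_div_iff₀ (by positivity)] at h1
    linarith
  obtain ⟨εT, hεT⟩ : ∃ εT : ℝ, εT = εp / (128 * C₁) := ⟨_, rfl⟩
  have hεT0 : 0 < εT := by rw [hεT]; positivity
  have hεT1 : 2 * εT * C₁ ≤ εp / 64 := by
    rw [hεT]
    apply le_of_eq
    field_simp
    norm_num
  obtain ⟨s₀, hs₀, ε₅, hε₅, Λ', hΛ', hT⟩ := tile_realizable (β := β) (ε := εT) hβ1' hεT0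
  obtain ⟨Λ, hΛ⟩ : ∃ Λ : ℕ, Λ = max (max Λ' 1000) ⌈(s₀ : ℝ) / ε₅⌉₊ := ⟨_, rfl⟩
  have hΛ1 : Λ' ≤ Λ := by rw [hΛ]; exact (le_max_left _ _).trans (le_max_left _ _)
  have hΛ2 : 1000 ≤ Λ := by rw [hΛ]; exact (le_max_right _ _).trans (le_max_left _ _)
  have hΛ3 : (s₀ : ℝ) ≤ ε₅ * Λ := by
    have h1 : (s₀ : ℝ) / ε₅ ≤ Λ := by
      refine (Nat.le_ceil _).trans ?_
      rw [hΛ]
      exact_mod_cast le_max_right _ _
    rw [div_le_iff₀ hε₅] at h1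
    linarith
  obtain ⟨j₀, c₉, hc₉, hT'⟩ := hT Λ hΛ1
  obtain ⟨δ, hδ⟩ : ∃ δ : ℝ, δ = εp / (64 * C₁) := ⟨_, rfl⟩
  have hδ0 : 0 < δ := by rw [hδ]; positivity
  have hδ1 : δ * C₁ ≤ εp / 64 := by
    rw [hδ]
    apply le_of_eq
    field_simp
  obtain ⟨L₀, hL₀⟩ := data_count hδ0
  obtain ⟨M₁, hM₁⟩ : ∃ M₁ : ℕ, M₁ = max 4 ⌈320 * C₁ / ε₂⌉₊ := ⟨_, rfl⟩
  have hM₁4 : 4 ≤ M₁ := by rw [hM₁]; exact le_max_left _ _
  have hM₁0 : (0 : ℝ) < M₁ := by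
    have : 0 < M₁ := by omega
    exact_mod_cast this
  have hM₁1 : 40 * C₁ / M₁ ≤ ε₂ / 8 := by
    have h1 : 320 * C₁ / ε₂ ≤ M₁ := by
      refine (Nat.le_ceil _).trans ?_
      rw [hM₁]
      exact_mod_cast le_max_right _ _
    rw [div_le_iff₀ hε₂] at h1
    rw [div_le_iff₀ hM₁0]
    linarith
  obtain ⟨A, Nm, hA, _, hmass⟩ := mass (ε := εb) (θ := 1 / 4000) (Λ₀ := Λ₀) (C₁ := C₁) hεb0
    (by norm_num) (by norm_num) hΛ₀0 hC₁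
  have hlA : 0 ≤ Real.log A := Real.log_nonneg hA
  obtain ⟨cL, hcL⟩ : ∃ cL : ℝ, cL = Real.log (10 ^ 6) + 4 * Real.log Λ + 16 := ⟨_, rfl⟩
  have hΛr : (1 : ℝ) ≤ Λ := by
    have : 1 ≤ Λ := by omega
    exact_mod_cast this
  have hlog6 : 0 ≤ Real.log (10 ^ 6) := Real.log_nonneg (by norm_num)
  have hlogΛ : 0 ≤ Real.log Λ := Real.log_nonneg hΛr
  have hcL0 : 0 ≤ cL := by rw [hcL]; positivity
  obtain ⟨Y, hY⟩ : ∃ Y : ℝ, Y = 4 * (1 / 2000) * β * (4 / c₉ + 10 ^ 4 * Λ) := ⟨_, rfl⟩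
  have hY0 : 0 ≤ Y := by rw [hY]; positivity
  obtain ⟨εt, hεt⟩ : ∃ εt : ℝ, εt = (εp / 64) / (1 + Real.log A + cL + Y) := ⟨_, rfl⟩
  have hden : 0 < 1 + Real.log A + cL + Y := by positivity
  have hεt0 : 0 < εt := by rw [hεt]; positivity
  have hεtX : ∀ X : ℝ, X ≤ 1 + Real.log A + cL + Y → X * εt ≤ εp / 64 := by
    intro X hX
    calc X * εt ≤ (1 + Real.log A + cL + Y) * εt := mul_le_mul_of_nonneg_right hX hεt0.le
      _ = εp / 64 := by rw [hεt]; field_simp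
  obtain ⟨J₁, hJ₁⟩ : ∃ J₁ : ℕ, J₁ = max (max 1 j₀) (max L₀ (10 ^ 6 * s₀).toNat) := ⟨_, rfl⟩
  have hJ11 : 1 ≤ J₁ := by rw [hJ₁]; exact (le_max_left _ _).trans (le_max_left _ _)
  have hJ12 : j₀ ≤ J₁ := by rw [hJ₁]; exact (le_max_right _ _).trans (le_max_left _ _)
  have hJ13 : L₀ ≤ J₁ := by rw [hJ₁]; exact (le_max_left _ _).trans (le_max_right _ _)
  have hJ14 : (10 ^ 6 * s₀).toNat ≤ J₁ := by
    rw [hJ₁]; exact (le_max_right _ _).trans (le_max_right _ _)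
  obtain ⟨J₂, t₁, hap⟩ := hAP' (240 * Λ) (by omega) εt hεt0 J₁ hJ11
  have hpow : ∀ j : ℕ, J₁ ≤ j → J₁ ≤ 2 ^ (j + 3) := by
    intro j hj
    have h1 : j + 3 < 2 ^ (j + 3) := Nat.lt_two_pow_self
    omega
  have key := main_gen (c := ⟨β, 1 / 2000, 1 / 4000, c₁, C₁, Λ₀, εb, εc, εT, εt, c₉, A, ε, ε₂, ρ₁,
      ρ₂, s₀, Λ, M₁⟩) (μ := μ) (ε' := ε') (J₁ := J₁) (J₂ := J₂) (t₁ := t₁) (cL := cL) (δ := δ)
    ⟨hβ1', by norm_num, by norm_num, by norm_num, by norm_num, by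
        show Real.log 4 ≤ (1 / 2000 - 1 / 4000) * β
        have := log_four_le
        linarith, hlow, hFl β hb3, hUB β hb2, hc₁, hC₁, by
        show c₁ + 2 ≤ Λ₀
        rw [hΛ₀], hεb0, hεb1, hεc0, hεT0, hεt0, hc₉, hA, hε, hε₂ε, by
        show ρ₂ + εc < ρ₁
        linarith, hs₀, hΛ2, hM₁4⟩ hμ Pc hε' (by
      intro j hj
      rw [Finset.mem_Icc] at hj
      refine ⟨by omega, ?_⟩
      show 10 ^ 6 * s₀ ≤ 2 ^ (j + 3)
      have h1 := hpow j hj.1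
      have h2 : ((10 ^ 6 * s₀).toNat : ℤ) ≤ ((2 ^ (j + 3) : ℕ) : ℤ) := by
        exact_mod_cast hJ14.trans h1
      have h3 := Int.self_le_toNat (10 ^ 6 * s₀)
      push_cast at h2
      linarith) ⟨Nm, hmass⟩ (by
      intro j hj
      rw [Finset.mem_Icc] at hj
      have hLpos : (0 : ℝ) < (Λ * 2 ^ (j + 3) : ℕ) := by
        have : 0 < Λ * 2 ^ (j + 3) := by positivity
        exact_mod_cast this
      have hδT : 0 < εT * ((Λ * 2 ^ (j + 3) : ℕ) : ℝ) := by positivity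
      obtain ⟨lam₀, hl0, hl1⟩ := tile_bound (β := β) (εT := εT) hβ1' hδT hlow
        (h := 2 ^ (j + 3)) (s₀ := s₀) (L := Λ * 2 ^ (j + 3)) (M := (s₀ * 2 ^ (j + 3)).toNat)
        (m := ⌊c₉ * (Λ * 2 ^ (j + 3) : ℕ) / ((j + 3 : ℕ) : ℝ)⌋₊)
        (one_le_pow₀ (by norm_num)) (by
          intro v D hD hZ
          refine hT' (j + 3) (by omega) _ ?_ v D ?_ hZ
          · have h1 : (((s₀ * 2 ^ (j + 3)).toNat : ℕ) : ℝ) = (s₀ : ℝ) * 2 ^ (j + 3) := by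
              have h2 : (((s₀ * 2 ^ (j + 3)).toNat : ℤ)) = s₀ * 2 ^ (j + 3) :=
                Int.toNat_of_nonneg (by positivity)
              have h3 : ((((s₀ * 2 ^ (j + 3)).toNat : ℤ)) : ℝ) = ((s₀ * 2 ^ (j + 3) : ℤ) : ℝ) := by
                rw [h2]
              push_cast at h3
              exact h3
            rw [h1]
            push_cast
            have h4 := mul_le_mul_of_nonneg_right hΛ3 (show (0 : ℝ) ≤ 2 ^ (j + 3) by positivity)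
            linarith
          · have h1 : (D.length : ℝ) ≤ (⌊c₉ * (Λ * 2 ^ (j + 3) : ℕ) / ((j + 3 : ℕ) : ℝ)⌋₊ : ℝ) := by
              exact_mod_cast hD
            exact h1.trans (Nat.floor_le (by positivity)))
      refine ⟨lam₀, hl0, fun lam h0 h1 r v D hD => ?_⟩
      have h2 := hl1 lam h0 h1 r v D hD
      have e : εT * ((Λ * 2 ^ (j + 3) : ℕ) : ℝ) + εT * ((Λ * 2 ^ (j + 3) : ℕ) : ℝ) =
        2 * εT * ((Λ * 2 ^ (j + 3) : ℕ) : ℝ) := by ring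
      rw [e] at h2
      exact h2) hε₂ hM₁1 hεc1 (fun t ht => hap t ht μ hμ) (by
      show εt * Real.log A ≤ 1 / 64
      have := hεtX (Real.log A) (by linarith)
      linarith) (by
      show εc ≤ ε' / 64
      linarith) (by
      show 2 * εb * Λ₀ ≤ ε' / 64
      linarith) (by
      show 4 * (1 / 2000) * β * (4 / c₉ + 10 ^ 4 * Λ) * εt ≤ ε' / 64
      rw [← hY]
      have := hεtX Y (by linarith)
      linarith) (by
      show εt * Real.log A ≤ ε' / 64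
      have := hεtX (Real.log A) (by linarith)
      linarith) (by
      show 2 * εT * C₁ ≤ ε' / 64
      linarith) hcL0 (by
      show cL * εt ≤ ε' / 64
      have := hεtX cL (by linarith)
      linarith) hδ0.le (by
      show δ * C₁ ≤ ε' / 64
      linarith) (by
      intro j hj
      rw [Finset.mem_Icc] at hj
      show Real.log (10 ^ 6 * ((Λ * 2 ^ (j + 3) : ℕ) : ℝ) ^ 4) ≤ cL * j
      have hj1 : (1 : ℝ) ≤ j := by
        have : 1 ≤ j := by omega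
        exact_mod_cast this
      rw [hcL]
      exact log_L hΛr hlog6 hj1) (by
      intro j hj
      rw [Finset.mem_Icc] at hj
      have h1 := hpow j hj.1
      have h2 : 2 ^ (j + 3) ≤ Λ * 2 ^ (j + 3) := Nat.le_mul_of_pos_left _ (by omega)
      exact hL₀ (Λ * 2 ^ (j + 3)) (by omega) (by omega) (2 * M₁))
  exact key

end Pool.Agent.WSB71
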