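import Pool.Agent.WSB71.UBFinal
import Pool.Agent.WSB71.UMc

/-!
# UB8, part 4: the union over all data for one large time
-/

open MeasureTheory Filter Topology
open scoped NNReal ENNReal Pointwise

namespace Pool.Agent.WSB71

open Pool.Agent.LT

namespace UM

lemma norm_toPlane_sq' (v : Site) : ‖toPlane v‖ ^ 2 = (v.1 : ℝ) ^ 2 + (v.2 : ℝ) ^ 2 := by
  rw [EuclideanSpace.norm_sq_eq, Fin.sum_univ_two]
  simp [toPlane]

/-- The sites in the missing balls. -/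
lemma exists_Bs {N : ℝ} (hN : 0 < N) (ρ₁ : ℝ) (P : Finset Plane) :
    ∃ Bs : Finset Site, ∀ x : Site, x ∈ Bs ↔ ∃ p ∈ P, N⁻¹ • toPlane x ∈ Metric.closedBall p ρ₁ := by
  classical
  have hfin : {x : Site | ∃ p ∈ P, N⁻¹ • toPlane x ∈ Metric.closedBall p ρ₁}.Finite := by
    have hR : ∃ R : ℝ, ∀ p ∈ P, ‖p‖ + |ρ₁| ≤ R := by
      refine ⟨∑ p ∈ P, (‖p‖ + |ρ₁|), fun p hp => ?_⟩
      exact Finset.single_le_sum (f := fun p : Plane => ‖p‖ + |ρ₁|)
        (fun q _ => add_nonneg (norm_nonneg _) (abs_nonneg _)) hp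
    obtain ⟨R, hR⟩ := hR
    obtain ⟨m, hm⟩ := exists_nat_ge (N * R)
    refine Set.Finite.subset (bx 0 m).finite_toSet ?_
    rintro x ⟨p, hp, hx⟩
    rw [Finset.mem_coe, mem_bx]
    have h1 : ‖N⁻¹ • toPlane x‖ ≤ R := by
      have h2 : dist (N⁻¹ • toPlane x) p ≤ ρ₁ := hx
      have h3 : ‖N⁻¹ • toPlane x‖ ≤ ‖p‖ + dist (N⁻¹ • toPlane x) p := by
        rw [dist_eq_norm]
        calc ‖N⁻¹ • toPlane x‖ = ‖p + (N⁻¹ • toPlane x - p)‖ := by congr 1; abel
          _ ≤ _ := norm_add_le _ _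
      have h4 := hR p hp
      have h5 := le_abs_self ρ₁
      linarith
    rw [norm_smul, Real.norm_eq_abs, abs_of_pos (inv_pos.2 hN), inv_mul_le_iff₀ hN] at h1
    have h6 : ‖toPlane x‖ ≤ m := h1.trans hm
    have h7 : |(x.1 : ℝ)| ≤ m ∧ |(x.2 : ℝ)| ≤ m := by
      have e := norm_toPlane_sq' x
      have hmn : (0 : ℝ) ≤ m := Nat.cast_nonneg m
      have h8 : ‖toPlane x‖ ^ 2 ≤ (m : ℝ) ^ 2 := pow_le_pow_left₀ (norm_nonneg _) h6 2
      rw [e] at h8
      exact ⟨abs_le_of_sq_le_sq (by nlinarith [sq_nonneg (x.2 : ℝ)]) hmn,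
        abs_le_of_sq_le_sq (by nlinarith [sq_nonneg (x.1 : ℝ)]) hmn⟩
    have h9 : |x.1| ≤ (m : ℤ) := by exact_mod_cast h7.1
    have h10 : |x.2| ≤ (m : ℤ) := by exact_mod_cast h7.2
    unfold sd
    simp only [Prod.fst_zero, Prod.snd_zero]
    rw [abs_le] at h9 h10
    omega
  exact ⟨hfin.toFinset, fun x => by rw [Set.Finite.mem_toFinset]; rfl⟩

/-- The alternatives. -/
noncomputable def alts (Pc : Finset Plane) : Finset (Option (Option Plane)) := by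
  classical
  exact insert none (insert (some none) (Pc.image (fun p => some (some p))))

lemma mem_alts {Pc : Finset Plane} {alt : Option (Option Plane)}
    (h : ∀ p', alt = some (some p') → p' ∈ Pc) : alt ∈ alts Pc := by
  classical
  unfold alts
  rcases alt with _ | _ | p
  · simp
  · simp
  · simp only [Finset.mem_insert, Finset.mem_image]
    exact Or.inr (Or.inr ⟨p, h p rfl, rfl⟩)

/-- The class of a crude datum. -/
def FA (c : Cst) (t : ℝ≥0) (j : ℕ) (Bs : Finset Site) (s0 : Site) (n : ℕ) : Set WP :=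
  {f | f ∈ evtE c.β t ∧ f.1 0 = 0 ∧
      Val (c.h j) c.s₀ (c.L j) (c.s₀ * c.h j).toNat s0 [⟨0, n, 0, 0, []⟩] (chainOf t f) ∧
      (∀ x ∈ chainOf t f, x ∉ Bs) ∧ (chainOf t f).toFinset.card ≠ 1 ∧
      ((bdry (fil (chainOf t f).toFinset)).card : ℝ) ≤ c.C₁ * NN3 t ∧
      2 * c.Λ₀ / NN3 t ^ 2 ≤ lamD ((fil (chainOf t f).toFinset) \
          Bs.filter (fun x => c.L j < dep (fil (chainOf t f).toFinset) x))}

/-- The class of a datum. -/
def FB (c : Cst) (t : ℝ≥0) (a : ℝ) (j : ℕ) (Bs : Finset Site) (alt : Option (Option Plane))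
    (s0 : Site) (bs : List BD) (mk : Fin c.M₁ → Site) : Set WP :=
  {f | (f ∈ evtE c.β t ∧ f.1 0 = 0 ∧
      Val (c.h j) c.s₀ (c.L j) (c.s₀ * c.h j).toNat s0 bs (chainOf t f) ∧
      (∀ x ∈ chainOf t f, x ∉ Bs) ∧ (chainOf t f).toFinset.card ≠ 1 ∧
      ((bdry (fil (chainOf t f).toFinset)).card : ℝ) ≤ c.C₁ * NN3 t ∧
      (1 - c.εb) * max 0 (min (lam (UU c.ε c.ε₂ c.ρ₂ (NN3 t) mk alt)) c.Λ₀ - c.εc) ≤
        NN3 t ^ 2 * lamD ((fil (chainOf t f).toFinset) \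
          Bs.filter (fun x => c.L j < dep (fil (chainOf t f).toFinset) x))) ∧
    (bs.map (fun b => b.D.length)).sum ≤ c.K (NN3 t) j ∧
    (∀ b ∈ bs, b.D.length ≤ c.m9 j) ∧
    (bs.length : ℝ) * c.L j ≤ c.n0 (NN3 t) + 2 * c.M₁ * c.L j ∧
    a ≤ lam (UU c.ε c.ε₂ c.ρ₂ (NN3 t) mk alt) + (NN3 t)⁻¹ * PP c.β (Qh mk) + ex c.β c.ε alt ∧
    0 ≤ PP c.β (Qh mk) ∧
    PP c.β (Qh mk) + NN3 t * ex c.β c.ε alt ≤
      (bs.map (costB c.β c.η (c.L j))).sum + c.err (NN3 t) j}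

lemma FA_le {c : Cst} (hc : c.Ok) {μ : Measure WP} (hμ : IsLaw μ) {t : ℝ≥0} {J : Finset ℕ}
    (ht : c.At (NN3 t) J) {j : ℕ} (hj : j ∈ J) (Bs : Finset Site) (s0 : Site) (n : ℕ) :
    μ (FA c t j Bs s0 n) ≤ ENNReal.ofReal (Real.exp (-(c.Λ₀ * NN3 t) + (4 + (c.K (NN3 t) j + 1) *
      Real.log c.A + 2 * Real.log (NN3 t) + 2 * c.εT * c.L j))) :=
  classA hc hμ ht hj (Bs := Bs) (s0 := s0) (n := n) _ (fun _ hf => hf)

lemma FB_le {c : Cst} (hc : c.Ok) {μ : Measure WP} (hμ : IsLaw μ) {t : ℝ≥0} {J : Finset ℕ}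
    (ht : c.At (NN3 t) J) {j : ℕ} (hj : j ∈ J) {a : ℝ} (haΛ : a ≤ c.Λ₀) (Bs : Finset Site)
    (alt : Option (Option Plane)) (s0 : Site) (bs : List BD) (mk : Fin c.M₁ → Site) :
    μ (FB c t a j Bs alt s0 bs mk) ≤
      ENNReal.ofReal (Real.exp (-(a * NN3 t) + c.Err (NN3 t) j)) := by
  rcases (FB c t a j Bs alt s0 bs mk).eq_empty_or_nonempty with h | ⟨f, hf⟩
  · rw [h, measure_empty]; exact zero_le
  · obtain ⟨_, h1, h2, h3, h4, h5, h6⟩ := hf
    exact classB hc hμ ht hj haΛ (Bs := Bs) (alt := alt) (s0 := s0) (bs := bs) (mk := mk) _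
      (fun f hf => hf.1) h1 h2 h3 h4 h5 h6

/-- The bound for the number of lost blocks. -/
lemma nr_bound {c : Cst} (hc : c.Ok) {N : ℝ} (hN : 0 < N) {j : ℕ} (hj : 1 ≤ j) {nr Hb : ℕ}
    (hHb : (Hb : ℝ) ≤ c.εt * N)
    (hnr : (nr : ℤ) * ((c.m9 j : ℤ) + 1) * c.h j ≤ 2 * ((c.m9 j : ℤ) + 1) * c.h j +
      (c.K N j : ℤ) * c.h j + 10 ^ 4 * (Hb : ℤ) * ((c.m9 j : ℤ) + 1)) :
    (c.L j : ℝ) * nr ≤ c.X N j := by
  have hc9 := hc.hc₉
  have hεt := hc.hεt
  have hj' : (1 : ℝ) ≤ j := by exact_mod_cast hj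
  have hΛ : (0 : ℝ) < c.Λ := by
    have := hc.hΛ
    have : 0 < c.Λ := by omega
    exact_mod_cast this
  obtain ⟨H, hH⟩ : ∃ H : ℝ, H = 2 ^ (j + 3) := ⟨_, rfl⟩
  have hH0 : 0 < H := by rw [hH]; positivity
  have hL : (c.L j : ℝ) = c.Λ * H := by
    unfold Cst.L; rw [hH]; push_cast; ring
  have hL0 : 0 < (c.L j : ℝ) := by rw [hL]; positivity
  have hhr : ((c.h j : ℤ) : ℝ) = H := by unfold Cst.h; rw [hH]; push_cast; ring
  obtain ⟨m, hm⟩ : ∃ m : ℝ, m = (c.m9 j : ℝ) + 1 := ⟨_, rfl⟩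
  have hm0 : 0 < m := by rw [hm]; positivity
  have hmL : c.c₉ * c.L j / ((j : ℝ) + 3) ≤ m := by
    rw [hm]
    have := (Nat.lt_floor_add_one (c.c₉ * c.L j / ((j + 3 : ℕ) : ℝ))).le
    push_cast at this
    unfold Cst.m9
    push_cast
    exact this
  have hnr' : (nr : ℝ) * m * H ≤ 2 * m * H + c.K N j * H + 10 ^ 4 * Hb * m := by
    have h1 : (((nr : ℤ) * ((c.m9 j : ℤ) + 1) * c.h j : ℤ) : ℝ) ≤
      ((2 * ((c.m9 j : ℤ) + 1) * c.h j +
        (c.K N j : ℤ) * c.h j + 10 ^ 4 * (Hb : ℤ) * ((c.m9 j : ℤ) + 1) : ℤ) : ℝ) := by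
      exact_mod_cast hnr
    push_cast at h1
    rw [hhr] at h1
    rw [hm]
    norm_num
    exact h1
  -- divide by `m`
  have h2 : (nr : ℝ) * H ≤ 2 * H + c.K N j * H / m + 10 ^ 4 * Hb := by
    have e : (2 * H + c.K N j * H / m + 10 ^ 4 * Hb) * m =
        2 * m * H + c.K N j * H + 10 ^ 4 * Hb * m := by field_simp
    have h3 : (nr : ℝ) * H * m ≤ (2 * H + c.K N j * H / m + 10 ^ 4 * Hb) * m := by
      rw [e]; linarith
    exact le_of_mul_le_mul_right h3 hm0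
  have hK : (c.K N j : ℝ) ≤ c.εt * N / j + 1 := by
    unfold Cst.K
    exact (Nat.ceil_lt_add_one (by positivity)).le
  have h4 : c.Λ * (c.K N j * H / m) ≤ 4 / c.c₉ * (c.εt * N + j) := by
    have h5 : c.L j / m ≤ (j + 3) / c.c₉ := by
      rw [div_le_div_iff₀ hm0 hc9]
      rw [div_le_iff₀ (by positivity)] at hmL
      linarith
    calc c.Λ * (c.K N j * H / m) = c.K N j * (c.L j / m) := by rw [hL]; ring
      _ ≤ c.K N j * ((j + 3) / c.c₉) := mul_le_mul_of_nonneg_left h5 (Nat.cast_nonneg _)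
      _ ≤ (c.εt * N / j + 1) * ((j + 3) / c.c₉) := mul_le_mul_of_nonneg_right hK (by positivity)
      _ ≤ (c.εt * N / j + 1) * ((4 * j) / c.c₉) := by
          apply mul_le_mul_of_nonneg_left _ (by positivity)
          apply div_le_div_of_nonneg_right _ hc9.le
          linarith
      _ = 4 / c.c₉ * (c.εt * N + j) := by field_simp
  calc (c.L j : ℝ) * nr = c.Λ * (nr * H) := by rw [hL]; ring
    _ ≤ c.Λ * (2 * H + c.K N j * H / m + 10 ^ 4 * Hb) := mul_le_mul_of_nonneg_left h2 hΛ.le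
    _ = 2 * c.L j + c.Λ * (c.K N j * H / m) + 10 ^ 4 * c.Λ * Hb := by rw [hL]; ring
    _ ≤ 2 * c.L j + 4 / c.c₉ * (c.εt * N + j) + 10 ^ 4 * c.Λ * (c.εt * N) := by
        have := mul_le_mul_of_nonneg_left hHb (by positivity : (0 : ℝ) ≤ 10 ^ 4 * c.Λ)
        linarith
    _ = c.X N j := by unfold Cst.X; rfl

/-- Every good path belongs to a class. -/
theorem cover {c : Cst} (hc : c.Ok) {t : ℝ≥0} {J : Finset ℕ} (ht : c.At (NN3 t) J)
    {Pc : Finset Plane} {BsF : Finset Plane → Finset Site}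
    (hBs : ∀ P, ∀ x : Site, x ∈ BsF P ↔ ∃ p ∈ P, (NN3 t)⁻¹ • toPlane x ∈ Metric.closedBall p c.ρ₁)
    {a : ℝ} (H2 : ∀ K, CC K → a ≤ lam (Metric.thickening c.ε₂ K) + PP c.β K + c.β * c.ε / 8)
    {f : WP} (hf : f ∈ evtE c.β t) (hf0 : f.1 0 = 0) (hf1 : (chainOf t f).toFinset.card ≠ 1)
    (hn : ((bdry (fil (rangeF t f))).card : ℝ) ≤ c.C₁ * NN3 t) {j : ℕ} (hj : j ∈ J)
    (hgood : GoodScale t f (240 * c.Λ) c.εt j)
    (H1 : ∀ K, CC K → sR t f ⊆ Metric.thickening c.ε K →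
          a ≤ lam (Metric.thickening c.ε K) + PP c.β K ∨
          ∃ p' ∈ Pc, Disjoint (sR t f) (Metric.closedBall p' c.ρ₁) ∧
            a ≤ lam (Metric.thickening c.ε K \ Metric.closedBall p' c.ρ₂) + PP c.β K) :
    (∃ P ∈ Pc.powerset, ∃ s0 ∈ bx 0 (c.n0 (NN3 t) ^ 2 + 1), ∃ n ∈ Finset.range (c.n0 (NN3 t) + 1),
      f ∈ FA c t j (BsF P) s0 n) ∨
    (∃ P ∈ Pc.powerset, ∃ alt ∈ alts Pc, ∃ s0 ∈ bx 0 (2 * c.n0 (NN3 t)),
      ∃ bs ∈ dataSet (c.n0 (NN3 t)) (c.n0 (NN3 t) / c.L j + 2 * c.M₁) (c.K (NN3 t) j) (c.L j),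
      ∃ mk ∈ Fintype.piFinset (fun _ : Fin c.M₁ => bx 0 (2 * c.n0 (NN3 t))),
        f ∈ FB c t a j (BsF P) alt s0 bs mk) := by
  classical
  have hN := ht.hN
  obtain ⟨N, hNd⟩ : ∃ N : ℝ, N = NN3 t := ⟨_, rfl⟩
  obtain ⟨hj1, hscale⟩ := ht.scale j hj
  obtain ⟨htr0, hho0⟩ := hgood
  rw [← chainOf_toFinset t f] at hn htr0 hho0
  have hl0 : (chainOf t f).head? = some 0 := by rw [chainOf_head, hf0]
  have hl := chainOf_isChain t f
  have hconn : ConnF ((chainOf t f).toFinset : Set Site) := by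
    rw [chainOf_toFinset]; exact connF_rangeF t f
  obtain ⟨P, hP⟩ : ∃ P : Finset Plane,
    P = Pc.filter (fun p' => Disjoint (sR t f) (Metric.closedBall p' c.ρ₁)) := ⟨_, rfl⟩
  have hPpow : P ∈ Pc.powerset := by
    rw [Finset.mem_powerset, hP]; exact Finset.filter_subset _ _
  have hsR : sR t f = (fun x : Site => (NN3 t)⁻¹ • toPlane x) '' ((chainOf t f).toFinset : Set Site) := by
    unfold sR; rw [chainOf_toFinset]
  have havoid : ∀ x ∈ chainOf t f, x ∉ BsF P := by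
    intro x hx hxB
    rw [hBs] at hxB
    obtain ⟨p, hp, hpx⟩ := hxB
    rw [hP, Finset.mem_filter] at hp
    have hm : (NN3 t)⁻¹ • toPlane x ∈ sR t f := by
      rw [hsR]
      exact ⟨x, by simpa using hx, rfl⟩
    exact Set.disjoint_left.1 hp.2 hm hpx
  have hnn : (bdry (fil (chainOf t f).toFinset)).card ≤ c.n0 (NN3 t) := Nat.le_floor hn
  have h0l : (0 : Site) ∈ chainOf t f := List.mem_of_mem_head? hl0
  by_cases hA : 2 * c.Λ₀ / NN3 t ^ 2 ≤ lamD ((fil (chainOf t f).toFinset) \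
          (BsF P).filter (fun x => c.L j < dep (fil (chainOf t f).toFinset) x))
  · left
    obtain ⟨s0, hs0, hVal⟩ := caseA hl0 hl hconn (c.h j) c.s₀ (c.L j) (c.s₀ * c.h j).toNat
    refine ⟨P, hPpow, s0, ?_, _, Finset.mem_range.2 (Nat.lt_succ_of_le hnn), hf, hf0, hVal, havoid,
      hf1, hn, hA⟩
    rw [mem_bx]
    have := Nat.pow_le_pow_left hnn 2
    omega
  · right
    push Not at hA
    have hne : ((fil (chainOf t f).toFinset) \
        (BsF P).filter (fun x => c.L j < dep (fil (chainOf t f).toFinset) x)).Nonempty := by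
      refine ⟨0, ?_⟩
      rw [Finset.mem_sdiff]
      refine ⟨subset_fil _ (List.mem_toFinset.2 h0l), fun h => ?_⟩
      exact havoid 0 h0l (Finset.mem_filter.1 h).1
    have hdeep := ht.deep j hj _ ((BsF P).filter (fun x => c.L j < dep (fil (chainOf t f).toFinset) x))
      (fil_compl_conn _) hne hA.le
    have hgeo := ht.geo j hj
    have hhL : 1000 * c.h j ≤ (c.L j : ℤ) := by
      unfold Cst.h Cst.L
      push_cast
      have := hc.hΛ
      have h1 : (1000 : ℤ) ≤ c.Λ := by exact_mod_cast this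
      exact mul_le_mul_of_nonneg_right h1 (by positivity)
    have hr₀ : 6 * ((2 ^ j : ℕ) : ℤ) ≤ c.h j := by
      unfold Cst.h
      push_cast
      rw [pow_add]
      have : (0 : ℤ) < 2 ^ j := by positivity
      linarith
    have hLL : c.L j ≤ 240 * c.Λ * 2 ^ j := by
      unfold Cst.L
      rw [pow_add]
      have := Nat.zero_le (c.Λ * 2 ^ j)
      nlinarith
    have hK1 : 1 ≤ c.K (NN3 t) j := by
      unfold Cst.K
      rw [Nat.one_le_ceil_iff]
      have h1 := hc.hεt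
      have h2 : (0 : ℝ) < j := by exact_mod_cast hj1
      positivity
    have htr : ¬ Travels (fil (chainOf t f).toFinset) (chainOf t f) (2 ^ j) (c.L j) (c.K (NN3 t) j) := by
      intro h
      exact htr0 (h.mono le_rfl hLL le_rfl)
    have hHb : ((holeE (chainOf t f).toFinset).filter (fun q => c.h j ≤ 30 *
        dep (fil (chainOf t f).toFinset) q.1 ∧
        dep (fil (chainOf t f).toFinset) q.1 ≤ c.L j)).card ≤ ⌊c.εt * NN3 t⌋₊ := by
      apply Nat.le_floor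
      refine le_trans ?_ hho0
      have hsub : (holeE (chainOf t f).toFinset).filter (fun q => c.h j ≤ 30 *
          dep (fil (chainOf t f).toFinset) q.1 ∧
          dep (fil (chainOf t f).toFinset) q.1 ≤ c.L j) ⊆
          (holeE (chainOf t f).toFinset).filter (fun p => 2 ^ j ≤ 240 * c.Λ *
            dep (fil (chainOf t f).toFinset) p.1 ∧
            dep (fil (chainOf t f).toFinset) p.1 ≤ 240 * c.Λ * 2 ^ j) := by
        intro q hq
        rw [Finset.mem_filter] at hq ⊢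
        obtain ⟨q1, q2, q3⟩ := hq
        refine ⟨q1, ?_, q3.trans hLL⟩
        unfold Cst.h at q2
        have h3 : 2 ^ (j + 3) ≤ 30 * dep (fil (chainOf t f).toFinset) q.1 := by exact_mod_cast q2
        rw [pow_add] at h3
        have h4 := hc.hΛ
        have h5 : 30 * dep (fil (chainOf t f).toFinset) q.1 ≤
            240 * c.Λ * dep (fil (chainOf t f).toFinset) q.1 :=
          Nat.mul_le_mul_right _ (by omega)
        omega
      exact_mod_cast Finset.card_le_card hsub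
    have hres := caseB (β := c.β) (η := c.η) (M₁ := c.M₁) (l := chainOf t f) (N := NN3 t)
      (L := c.L j) (h := c.h j) (s₀ := c.s₀) (r₀ := 2 ^ j) (K := c.K (NN3 t) j) (m₉ := c.m9 j)
      (Hb := ⌊c.εt * NN3 t⌋₊) (Bs := BsF P) (εb := c.εb) (εc := c.εc) (Λ₀ := c.Λ₀) (C₁ := c.C₁)
      (ε := c.ε) (ε₂ := c.ε₂) (ρ₁ := c.ρ₁) (ρ₂ := c.ρ₂) (P := P) (a := a)
      hc.hβ hc.hη hc.hη' hc.hlow hc.hflat hc.hM₁ hl0 hl hN hc.hs₀ hscale hhL hr₀ hK1 htr hHb
      (by linarith [hc.hεb1]) hn hdeep ht.lamle hc.hε₂ hgeo.1 hgeo.2 hc.hρ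
      (fun p' hp' x hx => (hBs P x).2 ⟨p', hp', hx⟩)
      (by
        intro K hK hsub
        rw [← hsR] at hsub
        rcases H1 K hK hsub with h1 | ⟨p', hp', hd, h1⟩
        · exact Or.inl h1
        · refine Or.inr ⟨p', ?_, h1⟩
          rw [hP, Finset.mem_filter]
          exact ⟨hp', hd⟩)
      H2
    obtain ⟨s0, bs, mk, nr, alt, halt, hVal, hD, hD9, hds, hlen, hs0, hmk, hnr, hlam, ha, hPP0,
      hcost⟩ := hres
    have hL1 : 0 < c.L j := by
      unfold Cst.L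
      have := hc.hΛ
      have h2 : 0 < c.Λ := by omega
      positivity
    have hlen' : bs.length * c.L j ≤ c.n0 (NN3 t) + 2 * c.M₁ * c.L j := by omega
    refine ⟨P, hPpow, alt, mem_alts (fun p' hp' => ?_), s0, ?_, bs, ?_, mk, ?_, ?_⟩
    · have h1 := halt p' hp'
      rw [hP, Finset.mem_filter] at h1
      exact h1.1
    · rw [mem_bx]; omega
    · obtain ⟨d1, d2, d3, d4⟩ := hds
      refine ⟨?_, d2.trans hnn, d3, d4⟩
      have h1 : bs.length ≤ (c.n0 (NN3 t) + 2 * c.M₁ * c.L j) / c.L j :=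
        (Nat.le_div_iff_mul_le hL1).2 hlen'
      rwa [Nat.add_mul_div_right _ _ hL1] at h1
    · rw [Fintype.mem_piFinset]
      intro i
      rw [mem_bx]
      have := hmk i
      omega
    · refine ⟨⟨hf, hf0, hVal, havoid, hf1, hn, hlam⟩, hD, hD9, ?_, ha, hPP0, ?_⟩
      · exact_mod_cast hlen'
      · refine hcost.trans ?_
        have h1 := nr_bound hc hN hj1 (nr := nr) (Nat.floor_le (by
          have := hc.hεt
          positivity)) hnr
        have h2 : 0 ≤ 4 * c.η * c.β := by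
          have h3 := hc.hη
          have h4 := hc.hβ
          positivity
        unfold Cst.err
        have h3 := mul_le_mul_of_nonneg_left h1 h2
        have e : 4 * c.η * c.β * (c.L j : ℝ) * ((nr : ℝ) + 20 * c.M₁) =
          4 * c.η * c.β * ((c.L j : ℝ) * nr) + 4 * c.η * c.β * (20 * c.M₁ * c.L j) := by ring
        rw [e]
        linarith

end UM

end Pool.Agent.WSB71
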