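import Pool.Agent.WSB71.UDec
import Pool.Agent.WSB71.USumProof
import Pool.Agent.WSB71.Mass

/-!
# U: decomposition of chains into excursions and connecting pieces

Definitions and list combinatorics: `UDec.lean`; the main sum `u_sum`: `USumProof.lean`.
-/
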