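import Pool.Agent.WSB71.VStrict

/-!
# V9: removing a ball raises the eigenvalue

`B = closedBall q ρ`, `K' = K ∖ B`.  Suppose `λ' = lam (interior K ∖ B) ≤ lam (interior K) + 1` (otherwise done), `Λ = λ + 2`;
`φ` almost minimising, `f = ‖φ‖ₑ` (zero off `K'`).  With `τ = 1`, `n = J n'`, `s = τ/n`:
`∫_K f T_K^{4n} f ≥ ∫_{K'} f T_{K'}^{4n} f + ∫_K f T_K^n T_K^n 1_B T_K^n T_K^n f` (in the middle the chain is in `K'` or in `B`;
`vT_iter_mono`); the last term is `vA` for the list `[univ, B, univ]`, `≥ c > 0` by `vA_gain` and `vcore_ball`, `c` not depending on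
`q`.  Upper bound by `vT_upper`, lower bound by `vT_low`, `vT_pow_ge`: `(1 - s(λ'+ε))^{4n} + c ≤ e^{-4τ(λ - ε)}`; `n' → ∞`:
`e^{-4τ(λ'+ε)} + c ≤ e^{-4τ(λ-ε)}`, `ε` small compared with `c`. -/

open MeasureTheory Filter Topology
open scoped NNReal ENNReal Pointwise

namespace Pool.Agent.WSB71

open Pool.Agent.LT

lemma vT_add' (K : Set Plane) (s : ℝ) {f g : Plane → ℝ≥0∞} (hf : Measurable f) :
    vT K s (fun x => f x + g x) = fun x => vT K s f x + vT K s g x := by
  funext x
  unfold vT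
  simp only [mul_add]
  exact lintegral_add_left (((measurable_vhk s).comp (measurable_const.sub measurable_id)).mul hf) _

lemma vT_iter_add (K : Set Plane) (s : ℝ) (m : ℕ) : ∀ {f g : Plane → ℝ≥0∞}, Measurable f →
    Measurable g → (vT K s)^[m] (fun x => f x + g x) =
      fun x => (vT K s)^[m] f x + (vT K s)^[m] g x := by
  induction m with
  | zero => intro f g _ _; rfl
  | succ m ih =>
    intro f g hf hg
    rw [Function.iterate_succ_apply, vT_add' K s hf, ih (measurable_vT K s hf)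
      (measurable_vT K s hg)]
    rfl

lemma vT_indicator {K : Set Plane} (hK : MeasurableSet K) (s : ℝ) (g : Plane → ℝ≥0∞) :
    vT K s (K.indicator g) = vT K s g := by
  funext x
  unfold vT
  refine setLIntegral_congr_fun hK fun z hz => ?_
  simp only [Set.indicator_of_mem hz]

lemma vT_iter_indicator {K : Set Plane} (hK : MeasurableSet K) (s : ℝ) {m : ℕ} (hm : 1 ≤ m)
    (g : Plane → ℝ≥0∞) : (vT K s)^[m] (K.indicator g) = (vT K s)^[m] g := by
  obtain ⟨k, rfl⟩ : ∃ k, m = k + 1 := ⟨m - 1, by omega⟩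
  rw [Function.iterate_succ_apply, Function.iterate_succ_apply, vT_indicator hK]

lemma split_ball {K B : Set Plane} (hKm : MeasurableSet K) (hBm : MeasurableSet B) (s : ℝ) {N : ℕ}
    (hN : 1 ≤ N) {f : Plane → ℝ≥0∞} (hf : Measurable f) (x : Plane) :
    (vT (K \ B) s)^[4 * N] f x + vA K s N [Set.univ, B, Set.univ] f x ≤
      (vT K s)^[4 * N] f x := by
  set g := (vT K s)^[2 * N] f with hg
  have hgm : Measurable g := measurable_vT_iter K s _ hf
  have e1 : vA K s N [Set.univ, B, Set.univ] f = (vT K s)^[2 * N] (B.indicator g) := by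
    simp only [vA, Set.indicator_univ]
    rw [hg, two_mul, Function.iterate_add_apply, Function.iterate_add_apply]
  have e2 : (vT K s)^[4 * N] f = (vT K s)^[2 * N] g := by
    rw [hg, ← Function.iterate_add_apply]
    congr 2
    omega
  have e3 : (vT (K \ B) s)^[4 * N] f = (vT (K \ B) s)^[2 * N] ((vT (K \ B) s)^[2 * N] f) := by
    rw [← Function.iterate_add_apply]
    congr 2
    omega
  have hK'm : MeasurableSet (K \ B) := hKm.diff hBm
  rw [e1, e2, e3]
  have h1 : (vT (K \ B) s)^[2 * N] ((vT (K \ B) s)^[2 * N] f) x ≤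
      (vT K s)^[2 * N] ((K \ B).indicator g) x := by
    rw [← vT_iter_indicator hK'm s (by omega : 1 ≤ 2 * N)]
    refine vT_iter_mono Set.sdiff_subset s _ (fun z => ?_) x
    by_cases hz : z ∈ K \ B
    · rw [Set.indicator_of_mem hz, Set.indicator_of_mem hz]
      exact vT_iter_mono Set.sdiff_subset s _ (fun _ => le_rfl) z
    · rw [Set.indicator_of_notMem hz, Set.indicator_of_notMem hz]
  refine (add_le_add h1 le_rfl).trans ?_
  have h2 := congrFun (vT_iter_add K s (2 * N) (hgm.indicator hK'm) (hgm.indicator hBm)) x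
  rw [← h2]
  refine vT_iter_mono le_rfl s _ (fun z => ?_) x
  by_cases hzB : z ∈ B
  · rw [Set.indicator_of_mem hzB, Set.indicator_of_notMem (fun h => h.2 hzB), zero_add]
  · rw [Set.indicator_of_notMem hzB, add_zero]
    exact Set.indicator_le_self _ _ _

theorem ball_gap {K : Set Plane} (hK : CC K) (hKi : (interior K).Nonempty) {ρ : ℝ} (hρ : 0 < ρ) :
    ∃ c : ℝ, 0 < c ∧ ∀ q ∈ K, (interior K \ Metric.closedBall q ρ).Nonempty →
      lam (interior K) + c ≤ lam (interior K \ Metric.closedBall q ρ) := by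
  have hKm : MeasurableSet K := hK.2.1.measurableSet
  obtain ⟨r₁, v, hr₁, hv, hball⟩ := vcore_ball hK hKi hρ
  set l := lam (interior K) with hl
  have hl0 : 0 ≤ l := lam_nonneg _
  obtain ⟨c₀, hc₀, J, hJ, n₀, hgain⟩ := vA_gain hK (τ := 1) (Λ := l + 2) one_pos (by linarith) 1
    hv hr₁
  set ε := min (1 / 8) (c₀ / 32) with hε
  have hε0 : 0 < ε := lt_min (by norm_num) (by linarith)
  have hε1 : ε ≤ 1 / 8 := min_le_left _ _
  have hε2 : ε ≤ c₀ / 32 := min_le_right _ _
  obtain ⟨s₀, hs₀, hupper⟩ := vT_upper hK hKi hε0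
  refine ⟨min 1 (c₀ / 16), lt_min one_pos (by linarith), fun q hq hne => ?_⟩
  set B := Metric.closedBall q ρ with hB
  have hBm : MeasurableSet B := Metric.isClosed_closedBall.measurableSet
  set l' := lam (interior K \ B) with hl'
  have hl'0 : 0 ≤ l' := lam_nonneg _
  by_cases hbig : l + 1 < l'
  · exact (add_le_add le_rfl (min_le_left _ _)).trans hbig.le
  push Not at hbig
  have hU : IsOpen (interior K \ B) := isOpen_interior.sdiff Metric.isClosed_closedBall
  obtain ⟨φ, hφ1, hφ2, hφ3, hφ4, hφ5⟩ := exists_near hU hne hε0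
  have hUK' : interior K \ B ⊆ K \ B := Set.sdiff_subset_sdiff_left interior_subset
  have hsupp : tsupport φ ⊆ K \ B := hφ3.trans hUK'
  set f : Plane → ℝ≥0∞ := fun x => ‖φ x‖ₑ with hf
  have hfm : Measurable f := hφ1.continuous.measurable.enorm
  have hf0 : ∀ x, x ∉ K \ B → f x = 0 := by
    intro x hx
    have : φ x = 0 := image_eq_zero_of_notMem_tsupport fun h => hx (hsupp h)
    simp [hf, this]
  have hK'm : MeasurableSet (K \ B) := hKm.diff hBm
  have hlow := fun s (hs : 0 < s) => vT_low (K := K \ B) hφ1 hφ2 hsupp hφ4 (s := s) hs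
  have hnorm : ∫⁻ x in K \ B, f x ^ 2 = 1 := (hlow 1 one_pos).1
  have hnormK : ∫⁻ x in K, f x ^ 2 = 1 := by
    have h1 : ∫⁻ x in K, f x ^ 2 = ∫⁻ x in K, (K \ B).indicator (fun x => f x ^ 2) x := by
      refine lintegral_congr fun x => ?_
      by_cases hx : x ∈ K \ B
      · rw [Set.indicator_of_mem hx]
      · rw [Set.indicator_of_notMem hx, hf0 x hx]
        norm_num
    rw [h1, lintegral_indicator hK'm, Measure.restrict_restrict hK'm,
      Set.inter_eq_left.2 Set.sdiff_subset, hnorm]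
  -- the inequality for large `n`
  have hineq : ∀ᶠ n : ℕ in atTop, ((1 + (-(l' + ε)) / ((J * n : ℕ) : ℝ)) ^ (J * n)) ^ 4 + c₀ ≤
      Real.exp (-(4 * (l - ε))) := by
    have ht : Tendsto (fun n : ℕ => 1 / ((J * n : ℕ) : ℝ)) atTop (𝓝 0) := by
      have h1 : Tendsto (fun n : ℕ => J * n) atTop atTop := by
        exact tendsto_id.const_mul_atTop' (by omega)
      exact tendsto_one_div_atTop_nhds_zero_nat.comp h1
    have hx0 : 0 < min s₀ (1 / (l' + ε)) := lt_min hs₀ (by positivity)
    filter_upwards [ht.eventually_le_const hx0, eventually_ge_atTop n₀, eventually_ge_atTop 1]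
      with n hn1 hn2 hn3
    set N := J * n with hN
    have hN1 : 1 ≤ N := Nat.mul_pos hJ hn3
    have hNr : (0 : ℝ) < N := by exact_mod_cast hN1
    set s : ℝ := 1 / (N : ℝ) with hs
    have hs0 : 0 < s := by positivity
    have hsN : s * N = 1 := by rw [hs]; field_simp
    have hs1 : s ≤ s₀ := hn1.trans (min_le_left _ _)
    have hs2 : s * (l' + ε) ≤ 1 := by
      have h1 := hn1.trans (min_le_right _ _)
      rwa [le_div_iff₀ (by positivity)] at h1
    have hL := (hlow s hs0).2
    have hx : s * ∫ x, ‖fderiv ℝ φ x‖ ^ 2 ≤ s * (l' + ε) := mul_le_mul_of_nonneg_left hφ5 hs0.le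
    have hg := hgain n hn2 [B] (by simp) (by simpa using hBm) (by
      intro a ha r hr hr'
      rw [List.mem_singleton] at ha
      subst ha
      exact hball r hr hr' q hq) (K \ B) Set.sdiff_subset hK'm f hfm hf0 hnorm (by
      refine le_trans (ENNReal.ofReal_le_ofReal ?_) hL
      change 1 - s * (l + 2) ≤ _
      have : s * (l' + ε) ≤ s * (l + 2) := mul_le_mul_of_nonneg_left (by linarith) hs0.le
      linarith)
    change ENNReal.ofReal c₀ ≤ ∫⁻ x in K, f x * vA K s N [Set.univ, B, Set.univ] f x at hg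
    have hup := hupper s hs0 hs1 (4 * N) f hfm
    rw [hnormK, mul_one] at hup
    have hpow := vT_pow_ge (K \ B) hs0 hfm hnorm (4 * N)
    have hlow2 : ENNReal.ofReal ((1 - s * (l' + ε)) ^ (4 * N)) ≤
        ∫⁻ x in K \ B, f x * (vT (K \ B) s)^[4 * N] f x := by
      refine le_trans ?_ hpow
      rw [ENNReal.ofReal_pow (by linarith)]
      refine pow_le_pow_left' (le_trans (ENNReal.ofReal_le_ofReal ?_) hL) _
      linarith
    have hsum : (∫⁻ x in K \ B, f x * (vT (K \ B) s)^[4 * N] f x) +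
        ∫⁻ x in K, f x * vA K s N [Set.univ, B, Set.univ] f x ≤
        ∫⁻ x in K, f x * (vT K s)^[4 * N] f x := by
      have h1 : ∫⁻ x in K \ B, f x * (vT (K \ B) s)^[4 * N] f x ≤
          ∫⁻ x in K, f x * (vT (K \ B) s)^[4 * N] f x := lintegral_mono_set Set.sdiff_subset
      refine (add_le_add h1 le_rfl).trans ?_
      rw [← lintegral_add_left (f := fun x => f x * (vT (K \ B) s)^[4 * N] f x)
        (hfm.mul (measurable_vT_iter _ _ _ hfm))]
      refine lintegral_mono fun x => ?_
      simp only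
      rw [← mul_add]
      gcongr
      exact split_ball hKm hBm s hN1 hfm x
    have hall := (add_le_add hlow2 hg).trans (hsum.trans hup)
    have hnn : 0 ≤ 1 - s * (l' + ε) := by linarith
    rw [← ENNReal.ofReal_add (pow_nonneg hnn _) hc₀.le,
      ENNReal.ofReal_le_ofReal_iff (Real.exp_pos _).le] at hall
    have e1 : (1 + (-(l' + ε)) / ((J * n : ℕ) : ℝ)) = 1 - s * (l' + ε) := by
      change 1 + (-(l' + ε)) / (N : ℝ) = _
      rw [hs]; ring
    rw [e1, ← pow_mul, mul_comm N 4]
    refine hall.trans (le_of_eq ?_)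
    congr 1
    push_cast
    have : 4 * (N : ℝ) * s = 4 := by rw [mul_assoc, mul_comm (N : ℝ), hsN, mul_one]
    rw [this]
  have hlimit : Tendsto (fun n : ℕ => ((1 + (-(l' + ε)) / ((J * n : ℕ) : ℝ)) ^ (J * n)) ^ 4 + c₀)
      atTop (𝓝 (Real.exp (-(l' + ε)) ^ 4 + c₀)) := by
    have h1 : Tendsto (fun n : ℕ => J * n) atTop atTop := tendsto_id.const_mul_atTop' (by omega)
    exact (((Real.tendsto_one_add_div_pow_exp (-(l' + ε))).comp h1).pow 4).add_const c₀
  have hfin := le_of_tendsto hlimit hineq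
  -- conclusion
  have e1 : Real.exp (-(l' + ε)) ^ 4 = Real.exp (-(4 * (l - ε))) * Real.exp (-(4 * (l' - l + 2 * ε))) := by
    rw [← Real.exp_nat_mul, ← Real.exp_add]
    congr 1
    push_cast
    ring
  rw [e1] at hfin
  have e2 := Real.add_one_le_exp (-(4 * (l' - l + 2 * ε)))
  have e3 : Real.exp (-(4 * (l - ε))) ≤ 2 := by
    have h1 : Real.exp (-(4 * (l - ε))) ≤ Real.exp (1 / 2) := Real.exp_le_exp.2 (by linarith)
    have h2 : Real.exp (1 / 2) ≤ 2 := by
      have h3 : Real.exp (1 / 2) * Real.exp (1 / 2) = Real.exp 1 := by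
        rw [← Real.exp_add]; norm_num
      have h4 := Real.exp_one_lt_d9
      have h5 := Real.exp_pos (1 / 2)
      nlinarith
    linarith
  have e4 : 0 < Real.exp (-(4 * (l - ε))) := Real.exp_pos _
  set E := Real.exp (-(4 * (l - ε)))
  set D := Real.exp (-(4 * (l' - l + 2 * ε)))
  have h6 : c₀ ≤ E * (4 * (l' - l + 2 * ε)) := by nlinarith
  have h7 : 0 < l' - l + 2 * ε := by
    by_contra hcon
    push Not at hcon
    have : E * (4 * (l' - l + 2 * ε)) ≤ 0 := mul_nonpos_of_nonneg_of_nonpos e4.le (by linarith)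
    linarith
  have h8 : E * (4 * (l' - l + 2 * ε)) ≤ 2 * (4 * (l' - l + 2 * ε)) :=
    mul_le_mul_of_nonneg_right e3 (by linarith)
  have h9 : min 1 (c₀ / 16) ≤ c₀ / 16 := min_le_right _ _
  linarith

end Pool.Agent.WSB71
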