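import Pool.Agent.WSB71.VDef

/-!
# V8a: finitely many caps

For each `w` there is `x ∈ K₀` with `x - w ∉ K₁`: a unit vector `u` and `η > 0` with `⟨u, x - w⟩ ≥ h(u) + 3η`,
`h(u) = max over K₁` (`geometric_hahn_banach_point_compact` or similar); `a = ⟨u, x⟩ - η`: the open half plane `a < ⟨u, ·⟩` contains `x`, hence meets
the interior of `K₀` (`Convex.closure_interior_eq_closure_of_nonempty_interior`), and `⟨u, w⟩ + h(u) + 2η ≤ a`, so `+ η` for all `w'` with
`‖w' - w‖ ≤ η`.  Large `w`: four directions `± e_i` and thresholds `a` slightly below the value at an interior point.  Compactness of a big ball. -/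

open MeasureTheory Filter Topology
open scoped NNReal ENNReal Pointwise

namespace Pool.Agent.WSB71

open Pool.Agent.LT

private theorem vcap_local {K₀ K₁ : Set Plane} (h0 : CC K₀) (h1 : CC K₁)
    (hi : (interior K₀).Nonempty) (w : Plane) (h : ¬ K₀ ⊆ (fun p => w + p) '' K₁) :
    ∃ (u : Plane) (a η : ℝ), 0 < η ∧ ‖u‖ = 1 ∧ (interior K₀ ∩ {x | a < inner ℝ u x}).Nonempty ∧
      ∀ w' : Plane, ‖w' - w‖ ≤ η → ∀ y ∈ K₁, inner ℝ u w' + inner ℝ u y + η ≤ a := by
  obtain ⟨x, hx, hxn⟩ := Set.not_subset.1 h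
  have hxw : x - w ∉ K₁ := fun hc => hxn ⟨x - w, hc, by simp⟩
  obtain ⟨f, c, hf1, hf2⟩ := geometric_hahn_banach_closed_point h1.2.2 h1.2.1.isClosed hxw
  set v : Plane := (InnerProductSpace.toDual ℝ Plane).symm f with hv
  have hfv : ∀ y, f y = inner ℝ v y := fun y => by
    rw [hv, InnerProductSpace.toDual_symm_apply]
  have hv0 : v ≠ 0 := by
    intro hz
    obtain ⟨y, hy⟩ := h1.1
    have h2 := hf1 y hy
    rw [hfv, hz, inner_zero_left] at h2
    rw [hfv, hz, inner_zero_left] at hf2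
    linarith
  have hvp : 0 < ‖v‖ := norm_pos_iff.2 hv0
  have hinner : ∀ y, inner ℝ (‖v‖⁻¹ • v) y = ‖v‖⁻¹ * inner ℝ v y := fun y => real_inner_smul_left _ _ _
  have hun : ‖‖v‖⁻¹ • v‖ = 1 := by
    rw [norm_smul, norm_inv, norm_norm, inv_mul_cancel₀ hvp.ne']
  set u : Plane := ‖v‖⁻¹ • v with hu
  set g : ℝ := inner ℝ u (x - w) - ‖v‖⁻¹ * c with hg
  have hgp : 0 < g := by
    rw [hg, hinner, ← hfv, ← mul_sub]
    exact mul_pos (inv_pos.2 hvp) (by linarith)
  refine ⟨u, inner ℝ u x - g / 3, g / 3, by positivity, hun, ?_, ?_⟩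
  · have hop : IsOpen {z : Plane | inner ℝ u x - g / 3 < inner ℝ u z} :=
      isOpen_lt continuous_const (continuous_const.inner continuous_id)
    have hxc : x ∈ closure (interior K₀) := by
      rw [h0.2.2.closure_interior_eq_closure_of_nonempty_interior hi]
      exact subset_closure hx
    have := mem_closure_iff.1 hxc _ hop (by
      show inner ℝ u x - g / 3 < inner ℝ u x
      linarith)
    rwa [Set.inter_comm]
  · intro w' hw' y hy
    have h2 : inner ℝ u y ≤ ‖v‖⁻¹ * c := by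
      rw [hinner, ← hfv]
      exact mul_le_mul_of_nonneg_left (hf1 y hy).le (inv_pos.2 hvp).le
    have h3 : inner ℝ u w' - inner ℝ u w ≤ g / 3 := by
      rw [← inner_sub_right]
      refine (real_inner_le_norm _ _).trans ?_
      rw [hun, one_mul]
      exact hw'
    have h4 : g = inner ℝ u x - inner ℝ u w - ‖v‖⁻¹ * c := by
      rw [hg, inner_sub_right]
    linarith

private theorem vcap_far {K₀ K₁ : Set Plane} (h1 : CC K₁) (hi : (interior K₀).Nonempty) :
    ∃ (us : List (Plane × ℝ)) (R : ℝ), us ≠ [] ∧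
      (∀ q ∈ us, ‖q.1‖ = 1 ∧ (interior K₀ ∩ {x | q.2 < inner ℝ q.1 x}).Nonempty) ∧
      ∀ w : Plane, R ≤ ‖w‖ → ∃ q ∈ us, ∀ y ∈ K₁, inner ℝ q.1 w + inner ℝ q.1 y + 1 ≤ q.2 := by
  obtain ⟨x0, hx0⟩ := hi
  obtain ⟨M, hM⟩ := h1.2.1.isBounded.exists_norm_le
  have hM0 : 0 ≤ M := by
    obtain ⟨y, hy⟩ := h1.1
    exact (norm_nonneg _).trans (hM y hy)
  set e : Fin 2 → Plane := fun i => EuclideanSpace.single i (1 : ℝ) with he
  have hen : ∀ i, ‖e i‖ = 1 := fun i => by simp [he]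
  have hei : ∀ i (w : Plane), inner ℝ (e i) w = w i := fun i w => by
    simp [he, EuclideanSpace.inner_single_left]
  have mk : ∀ u : Plane, ‖u‖ = 1 → ‖((u, inner ℝ u x0 - 1) : Plane × ℝ).1‖ = 1 ∧
      (interior K₀ ∩ {x | ((u, inner ℝ u x0 - 1) : Plane × ℝ).2 <
        inner ℝ ((u, inner ℝ u x0 - 1) : Plane × ℝ).1 x}).Nonempty := by
    intro u hu
    refine ⟨hu, x0, hx0, ?_⟩
    show inner ℝ u x0 - 1 < inner ℝ u x0
    linarith
  refine ⟨[(e 0, inner ℝ (e 0) x0 - 1), (e 1, inner ℝ (e 1) x0 - 1),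
    (-e 0, inner ℝ (-e 0) x0 - 1), (-e 1, inner ℝ (-e 1) x0 - 1)],
    2 * (M + ‖x0‖ + 2), by simp, ?_, ?_⟩
  · intro q hq
    simp only [List.mem_cons, List.not_mem_nil, or_false] at hq
    rcases hq with rfl | rfl | rfl | rfl
    · exact mk _ (hen 0)
    · exact mk _ (hen 1)
    · exact mk _ (by rw [norm_neg]; exact hen 0)
    · exact mk _ (by rw [norm_neg]; exact hen 1)
  · intro w hw
    have hgen : ∀ u : Plane, ‖u‖ = 1 → inner ℝ u w ≤ -(M + ‖x0‖ + 2) → ∀ y ∈ K₁,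
        inner ℝ u w + inner ℝ u y + 1 ≤ inner ℝ u x0 - 1 := by
      intro u hu huw y hy
      have h2 : inner ℝ u y ≤ M := by
        refine (real_inner_le_norm _ _).trans ?_
        rw [hu, one_mul]
        exact hM y hy
      have h3 : -‖x0‖ ≤ inner ℝ u x0 := by
        have := abs_real_inner_le_norm u x0
        rw [hu, one_mul] at this
        exact (abs_le.1 this).1
      linarith
    set r : ℝ := M + ‖x0‖ + 2 with hr
    have hr0 : 0 < r := by positivity
    have hnorm : ‖w‖ ^ 2 = w 0 ^ 2 + w 1 ^ 2 := by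
      rw [EuclideanSpace.norm_sq_eq, Fin.sum_univ_two]
      simp
    have hor : r ≤ |w 0| ∨ r ≤ |w 1| := by
      by_contra hcon
      push Not at hcon
      have ha : w 0 ^ 2 < r ^ 2 := by
        rw [← sq_abs]
        exact pow_lt_pow_left₀ hcon.1 (abs_nonneg _) two_ne_zero
      have hb : w 1 ^ 2 < r ^ 2 := by
        rw [← sq_abs]
        exact pow_lt_pow_left₀ hcon.2 (abs_nonneg _) two_ne_zero
      have hc : (2 * r) ^ 2 ≤ ‖w‖ ^ 2 := pow_le_pow_left₀ (by positivity) hw 2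
      nlinarith
    rcases hor with h | h
    · rcases le_abs.1 h with h | h
      · refine ⟨(-e 0, inner ℝ (-e 0) x0 - 1), by simp, ?_⟩
        apply hgen _ (by rw [norm_neg]; exact hen 0)
        rw [inner_neg_left, hei]
        linarith
      · refine ⟨(e 0, inner ℝ (e 0) x0 - 1), by simp, ?_⟩
        apply hgen _ (hen 0)
        rw [hei]
        linarith
    · rcases le_abs.1 h with h | h
      · refine ⟨(-e 1, inner ℝ (-e 1) x0 - 1), by simp, ?_⟩
        apply hgen _ (by rw [norm_neg]; exact hen 1)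
        rw [inner_neg_left, hei]
        linarith
      · refine ⟨(e 1, inner ℝ (e 1) x0 - 1), by simp, ?_⟩
        apply hgen _ (hen 1)
        rw [hei]
        linarith

theorem vcaps {K₀ K₁ : Set Plane} (h0 : CC K₀) (h1 : CC K₁) (hi : (interior K₀).Nonempty)
    (h : ∀ w : Plane, ¬ K₀ ⊆ (fun p => w + p) '' K₁) :
    ∃ (us : List (Plane × ℝ)) (δ : ℝ), us ≠ [] ∧ 0 < δ ∧
      (∀ q ∈ us, ‖q.1‖ = 1 ∧ (interior K₀ ∩ {x | q.2 < inner ℝ q.1 x}).Nonempty) ∧
      ∀ w : Plane, ∃ q ∈ us, ∀ y ∈ K₁, inner ℝ q.1 w + inner ℝ q.1 y + δ ≤ q.2 := by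
  obtain ⟨us0, R, hne, hus0, hfar⟩ := vcap_far (K₀ := K₀) h1 hi
  have hcomp : ∃ (us : List (Plane × ℝ)) (δ : ℝ), 0 < δ ∧
      (∀ q ∈ us, ‖q.1‖ = 1 ∧ (interior K₀ ∩ {x | q.2 < inner ℝ q.1 x}).Nonempty) ∧
      ∀ w ∈ Metric.closedBall (0 : Plane) R, ∃ q ∈ us, ∀ y ∈ K₁,
        inner ℝ q.1 w + inner ℝ q.1 y + δ ≤ q.2 := by
    refine (isCompact_closedBall (0 : Plane) R).induction_on (p := fun S => ∃ (us : List (Plane × ℝ))
      (δ : ℝ), 0 < δ ∧
      (∀ q ∈ us, ‖q.1‖ = 1 ∧ (interior K₀ ∩ {x | q.2 < inner ℝ q.1 x}).Nonempty) ∧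
      ∀ w ∈ S, ∃ q ∈ us, ∀ y ∈ K₁,
        inner ℝ q.1 w + inner ℝ q.1 y + δ ≤ q.2) ?_ ?_ ?_ ?_
    · exact ⟨[], 1, one_pos, by simp, by simp⟩
    · rintro s t hst ⟨us, δ, hδ, h2, h3⟩
      exact ⟨us, δ, hδ, h2, fun w hw => h3 w (hst hw)⟩
    · rintro s t ⟨us, δ, hδ, h2, h3⟩ ⟨us', δ', hδ', h2', h3'⟩
      refine ⟨us ++ us', min δ δ', lt_min hδ hδ', ?_, ?_⟩
      · intro q hq
        rcases List.mem_append.1 hq with hq | hq
        · exact h2 q hq
        · exact h2' q hq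
      · rintro w (hw | hw)
        · obtain ⟨q, hq, hy⟩ := h3 w hw
          refine ⟨q, List.mem_append_left _ hq, fun y hy' => ?_⟩
          have := hy y hy'
          have := min_le_left δ δ'
          linarith
        · obtain ⟨q, hq, hy⟩ := h3' w hw
          refine ⟨q, List.mem_append_right _ hq, fun y hy' => ?_⟩
          have := hy y hy'
          have := min_le_right δ δ'
          linarith
    · intro w _
      obtain ⟨u, a, η, hη, hu, hcap, hw⟩ := vcap_local h0 h1 hi w (h w)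
      refine ⟨Metric.closedBall w η, mem_nhdsWithin_of_mem_nhds (Metric.closedBall_mem_nhds w hη),
        [(u, a)], η, hη, ?_, ?_⟩
      · intro q hq
        rw [List.mem_singleton] at hq
        subst hq
        exact ⟨hu, hcap⟩
      · intro w' hw'
        refine ⟨(u, a), by simp, ?_⟩
        apply hw
        rwa [Metric.mem_closedBall, dist_eq_norm] at hw'
  obtain ⟨us, δ, hδ, h2, h3⟩ := hcomp
  refine ⟨us0 ++ us, min 1 δ, by simp [hne], lt_min one_pos hδ, ?_, ?_⟩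
  · intro q hq
    rcases List.mem_append.1 hq with hq | hq
    · exact hus0 q hq
    · exact h2 q hq
  · intro w
    rcases le_total ‖w‖ R with hw | hw
    · obtain ⟨q, hq, hy⟩ := h3 w (by simpa using hw)
      refine ⟨q, List.mem_append_right _ hq, fun y hy' => ?_⟩
      have := hy y hy'
      have := min_le_right 1 δ
      linarith
    · obtain ⟨q, hq, hy⟩ := hfar w hw
      refine ⟨q, List.mem_append_left _ hq, fun y hy' => ?_⟩
      have := hy y hy'
      have := min_le_left 1 δ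
      linarith

/-- In the form needed for `gain_iter`: a palindromic list of caps with their functions.
`d w = max 0 (a - h(u) - ⟨u, w⟩)`, `h(u) = sSup` of `⟨u, ·⟩` over `K₁`; take `L ++ L.reverse`. -/
theorem vcaps_list {K₀ K₁ : Set Plane} (h0 : CC K₀) (h1 : CC K₁) (hi : (interior K₀).Nonempty)
    (h : ∀ w : Plane, ¬ K₀ ⊆ (fun p => w + p) '' K₁) :
    ∃ (cs : List (Set Plane × (Plane → ℝ))) (δ : ℝ), 0 < δ ∧
      (cs.map Prod.fst).reverse = cs.map Prod.fst ∧
      (∀ q ∈ cs, IsOpen q.1 ∧ (interior K₀ ∩ q.1).Nonempty) ∧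
      (∀ q ∈ cs, ∀ w w', q.2 w ≤ q.2 w' + ‖w - w'‖) ∧
      (∀ q ∈ cs, ∀ x ∈ q.1, x ∈ K₀ → ∀ y ∈ K₁, q.2 (x - y) ≤ 0) ∧
      ∀ w, ∃ q ∈ cs, δ ≤ q.2 w := by
  obtain ⟨us, δ, -, hδ, hus, hw⟩ := vcaps h0 h1 hi h
  set S : Plane → ℝ := fun u => sSup ((fun y => inner ℝ u y) '' K₁) with hS
  have hbdd : ∀ u : Plane, BddAbove ((fun y : Plane => (inner ℝ u y : ℝ)) '' K₁) := fun u =>
    (h1.2.1.image (continuous_const.inner continuous_id)).bddAbove
  set F : Plane × ℝ → Set Plane × (Plane → ℝ) := fun q =>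
    ({x | q.2 < inner ℝ q.1 x}, fun w => max 0 (q.2 - S q.1 - inner ℝ q.1 w)) with hF
  set L : List (Set Plane × (Plane → ℝ)) := us.map F with hL
  have hmem : ∀ q ∈ L ++ L.reverse, ∃ p ∈ us, F p = q := by
    intro q hq
    have : q ∈ L := by
      rcases List.mem_append.1 hq with hq | hq
      · exact hq
      · exact List.mem_reverse.1 hq
    exact List.mem_map.1 this
  refine ⟨L ++ L.reverse, δ, hδ, ?_, ?_, ?_, ?_, ?_⟩
  · simp [List.map_reverse]
  · intro q hq
    obtain ⟨p, hp, rfl⟩ := hmem q hq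
    exact ⟨isOpen_lt continuous_const (continuous_const.inner continuous_id), (hus p hp).2⟩
  · intro q hq w w'
    obtain ⟨p, hp, rfl⟩ := hmem q hq
    have hu := (hus p hp).1
    have h2 : inner ℝ p.1 w' - inner ℝ p.1 w ≤ ‖w - w'‖ := by
      rw [← inner_sub_right]
      refine (real_inner_le_norm _ _).trans ?_
      rw [hu, one_mul, norm_sub_rev]
    show max 0 (p.2 - S p.1 - inner ℝ p.1 w) ≤ max 0 (p.2 - S p.1 - inner ℝ p.1 w') + ‖w - w'‖
    apply max_le
    · exact add_nonneg (le_max_left _ _) (norm_nonneg _)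
    · have := le_max_right 0 (p.2 - S p.1 - inner ℝ p.1 w')
      linarith
  · intro q hq x hx _ y hy
    obtain ⟨p, hp, rfl⟩ := hmem q hq
    have hx' : p.2 < inner ℝ p.1 x := hx
    have h2 : inner ℝ p.1 y ≤ S p.1 := le_csSup (hbdd p.1) ⟨y, hy, rfl⟩
    show max 0 (p.2 - S p.1 - inner ℝ p.1 (x - y)) ≤ 0
    rw [inner_sub_right]
    apply max_le le_rfl
    linarith
  · intro w
    obtain ⟨q, hq, hy⟩ := hw w
    refine ⟨F q, List.mem_append_left _ (List.mem_map_of_mem hq), ?_⟩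
    show δ ≤ max 0 (q.2 - S q.1 - inner ℝ q.1 w)
    apply le_max_of_le_right
    have h2 : S q.1 ≤ q.2 - δ - inner ℝ q.1 w := by
      apply csSup_le (h1.1.image _)
      rintro _ ⟨y, hy', rfl⟩
      have := hy y hy'
      simp only
      linarith
    linarith

end Pool.Agent.WSB71
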