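import Pool.Agent.WSB71.VDef

/-!
# V10: compactness of convex bodies, sandwich lemma

`vseq`: `NonemptyCompacts` of a closed ball is compact (or of the plane: `NonemptyCompacts` is proper / use
`NonemptyCompacts.compactSpace` for the subtype), sequential compactness; limits of convex sets are convex.
`vsandwich`: support functions / Minkowski sums: `K' ⊆ K + closedBall 0 η`, `closedBall 0 η = (η/r) • closedBall 0 r ⊆ (η/r) • K`,
`K + t • K = (1 + t) • K` for convex `K`; for the other inclusion: if `x ∈ (1 - η/r) • K`, `x ∉ K'`, separate `x` from `K'` by a unit vector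
`u`: `⟨u, x⟩ > h_{K'}(u) ≥ h_K(u) - η` and `⟨u, x⟩ ≤ (1 - η/r) h_K(u)`, `h_K(u) ≥ r`. -/

open MeasureTheory Filter Topology
open scoped NNReal ENNReal Pointwise

namespace Pool.Agent.WSB71

open Pool.Agent.LT

theorem vseq {K : ℕ → Set Plane} (hK : ∀ n, CC (K n)) {D : ℝ}
    (hD : ∀ n, K n ⊆ Metric.closedBall 0 D) :
    ∃ K' : Set Plane, CC K' ∧ K' ⊆ Metric.closedBall 0 D ∧ ∃ φ : ℕ → ℕ, StrictMono φ ∧
      Tendsto (fun n => Metric.hausdorffDist (K (φ n)) K') atTop (𝓝 0) := by
  have : CompactSpace (Metric.closedBall (0 : Plane) D) :=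
    isCompact_iff_compactSpace.1 (isCompact_closedBall 0 D)
  let ι : Metric.closedBall (0 : Plane) D → Plane := Subtype.val
  have hι : Isometry ι := isometry_subtype_coe
  have himg : ∀ n, ι '' (ι ⁻¹' K n) = K n := fun n => by
    rw [Set.image_preimage_eq_iff]
    intro x hx
    exact ⟨⟨x, hD n hx⟩, rfl⟩
  let L : ℕ → TopologicalSpace.NonemptyCompacts (Metric.closedBall (0 : Plane) D) := fun n =>
    ⟨⟨ι ⁻¹' K n, ((hK n).2.1.isClosed.preimage hι.continuous).isCompact⟩, by
      obtain ⟨x, hx⟩ := (hK n).1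
      exact ⟨⟨x, hD n hx⟩, hx⟩⟩
  obtain ⟨L', -, φ, hφ, hlim⟩ := isCompact_univ.tendsto_subseq (x := L) (fun n => Set.mem_univ _)
  have hL : ∀ n, (L n : Set (Metric.closedBall (0 : Plane) D)) = ι ⁻¹' K n := fun n => rfl
  set K' : Set Plane := ι '' (L' : Set (Metric.closedBall (0 : Plane) D)) with hK'
  have hK'c : IsCompact K' := L'.isCompact.image hι.continuous
  have hK'n : K'.Nonempty := L'.nonempty.image _
  have hK'D : K' ⊆ Metric.closedBall 0 D := by
    rintro _ ⟨y, -, rfl⟩
    exact y.2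
  have hd : Tendsto (fun n => Metric.hausdorffDist (K (φ n)) K') atTop (𝓝 0) := by
    have h1 := (tendsto_iff_dist_tendsto_zero.1 hlim)
    refine h1.congr fun n => ?_
    rw [Metric.NonemptyCompacts.dist_eq]
    change Metric.hausdorffDist ((L (φ n) : Set (Metric.closedBall (0 : Plane) D))) L' = _
    rw [← Metric.hausdorffDist_image hι, hL, himg]
  have hfin : ∀ n, Metric.hausdorffEDist (K n) K' ≠ ⊤ := fun n =>
    Metric.hausdorffEDist_ne_top_of_nonempty_of_bounded (hK n).1 hK'n (hK n).2.1.isBounded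
      hK'c.isBounded
  refine ⟨K', ⟨hK'n, hK'c, ?_⟩, hK'D, φ, hφ, hd⟩
  intro x hx y hy a b ha hb hab
  have h0 : Metric.infDist (a • x + b • y) K' ≤ 0 := by
    refine le_of_forall_pos_le_add fun ε hε => ?_
    rw [zero_add]
    obtain ⟨n, hn⟩ := (hd.eventually (gt_mem_nhds (show (0 : ℝ) < ε / 2 by positivity))).exists
    obtain ⟨x', hx', hxx⟩ := Metric.exists_dist_lt_of_hausdorffDist_lt' hx hn (hfin _)
    obtain ⟨y', hy', hyy⟩ := Metric.exists_dist_lt_of_hausdorffDist_lt' hy hn (hfin _)
    have h1 : a • x' + b • y' ∈ K (φ n) := (hK (φ n)).2.2 hx' hy' ha hb hab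
    have h2 := Metric.infDist_le_hausdorffDist_of_mem h1 (hfin _)
    have h3 : dist (a • x + b • y) (a • x' + b • y') ≤ ε / 2 := by
      refine (dist_add_add_le _ _ _ _).trans ?_
      rw [dist_smul₀, dist_smul₀, Real.norm_of_nonneg ha, Real.norm_of_nonneg hb, dist_comm x,
        dist_comm y]
      nlinarith
    have h4 := Metric.infDist_le_infDist_add_dist (s := K') (x := a • x + b • y)
      (y := a • x' + b • y')
    linarith
  have h1 : Metric.infDist (a • x + b • y) K' = 0 := le_antisymm h0 Metric.infDist_nonneg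
  exact (hK'c.isClosed.mem_iff_infDist_zero hK'n).2 h1

theorem vsandwich {K K' : Set Plane} (hK : CC K) (hK' : CC K') {r : ℝ} (hr : 0 < r)
    (hball : Metric.closedBall 0 r ⊆ K) {η : ℝ} (hη : 0 ≤ η) (hηr : η < r)
    (hd : Metric.hausdorffDist K' K ≤ η) :
    K' ⊆ (1 + η / r) • K ∧ (1 - η / r) • K ⊆ K' ∧
      ∀ ε : ℝ, 0 < ε → Metric.thickening ε K' ⊆ (1 + (η + ε) / r) • interior K := by
  have hfin : Metric.hausdorffEDist K' K ≠ ⊤ :=
    Metric.hausdorffEDist_ne_top_of_nonempty_of_bounded hK'.1 hK.1 hK'.2.1.isBounded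
      hK.2.1.isBounded
  have hnear : ∀ x ∈ K', ∃ k ∈ K, dist x k ≤ η := by
    intro x hx
    obtain ⟨k, hk, hk'⟩ := hK.2.1.exists_infDist_eq_dist hK.1 x
    exact ⟨k, hk, hk' ▸ (Metric.infDist_le_hausdorffDist_of_mem hx hfin).trans hd⟩
  have hnear' : ∀ k ∈ K, ∃ x ∈ K', dist k x ≤ η := by
    intro k hk
    obtain ⟨x, hx, hx'⟩ := hK'.2.1.exists_infDist_eq_dist hK'.1 k
    refine ⟨x, hx, hx' ▸ ?_⟩
    rw [Metric.hausdorffDist_comm] at hd
    rw [Metric.hausdorffEDist_comm] at hfin
    exact (Metric.infDist_le_hausdorffDist_of_mem hk hfin).trans hd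
  refine ⟨fun x hx => ?_, ?_, fun ε hε x hx => ?_⟩
  · obtain ⟨k, hk, hxk⟩ := hnear x hx
    have hs : 0 ≤ η / r := by positivity
    rcases eq_or_lt_of_le hη with h0 | h0
    · rw [← h0] at hxk ⊢
      rw [zero_div, add_zero, one_smul]
      rw [dist_le_zero.1 hxk]
      exact hk
    · have hy : (r / η) • (x - k) ∈ K := by
        apply hball
        rw [mem_closedBall_zero_iff, norm_smul, Real.norm_of_nonneg (by positivity)]
        rw [dist_eq_norm] at hxk
        calc r / η * ‖x - k‖ ≤ r / η * η := mul_le_mul_of_nonneg_left hxk (by positivity)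
          _ = r := by field_simp
      have h1 : (1 / (1 + η / r)) • k + ((η / r) / (1 + η / r)) • ((r / η) • (x - k)) ∈ K :=
        hK.2.2 hk hy (by positivity) (by positivity) (by field_simp)
      refine ⟨_, h1, ?_⟩
      simp only [smul_add, smul_smul]
      have e1 : (1 + η / r) * (1 / (1 + η / r)) = 1 := by field_simp
      have e2 : (1 + η / r) * (η / r / (1 + η / r) * (r / η)) = 1 := by field_simp
      rw [e1, e2, one_smul, one_smul]
      abel
  · rintro _ ⟨k, hk, rfl⟩
    by_contra hx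
    simp only at hx
    obtain ⟨f, u, hfx, hfu⟩ := geometric_hahn_banach_point_closed hK'.2.2 hK'.2.1.isClosed hx
    obtain ⟨k0, hk0, hmin⟩ := hK.2.1.exists_isMinOn hK.1 f.continuous.continuousOn
    have hmin' : ∀ y ∈ K, f k0 ≤ f y := fun y hy => hmin hy
    have hr' : ∀ v : Plane, ‖f v‖ ≤ (-(f k0) / r) * ‖v‖ := by
      have h1 : ∀ v : Plane, f v ≤ (-(f k0) / r) * ‖v‖ := by
        intro v
        rcases eq_or_ne v 0 with rfl | hv
        · simp
        · have hv0 : 0 < ‖v‖ := norm_pos_iff.2 hv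
          have h2 : -((r / ‖v‖) • v) ∈ K := by
            apply hball
            rw [mem_closedBall_zero_iff, norm_neg, norm_smul, Real.norm_of_nonneg (by positivity)]
            field_simp
            exact le_rfl
          have h3 := hmin' _ h2
          rw [map_neg, map_smul, smul_eq_mul] at h3
          have h4 : r / ‖v‖ * f v ≤ -(f k0) := by linarith
          calc f v = (‖v‖ / r) * (r / ‖v‖ * f v) := by field_simp
            _ ≤ (‖v‖ / r) * (-(f k0)) := mul_le_mul_of_nonneg_left h4 (by positivity)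
            _ = (-(f k0) / r) * ‖v‖ := by ring
      intro v
      rw [Real.norm_eq_abs, abs_le]
      have h2 := h1 (-v)
      rw [map_neg, norm_neg] at h2
      exact ⟨by linarith, h1 v⟩
    obtain ⟨b, hb, hdb⟩ := hnear' k0 hk0
    have h1 := hr' (b - k0)
    rw [map_sub, Real.norm_eq_abs, ← dist_eq_norm, dist_comm b k0] at h1
    have hneg : 0 ≤ -(f k0) / r := by
      have h2 := hr' k
      by_contra hc
      push Not at hc
      by_cases hk00 : ‖k‖ = 0
      · have hk0' : (0 : Plane) ∈ K := hball (by simp [hr.le])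
        have h3 := hmin' 0 hk0'
        rw [map_zero] at h3
        have h4 : 0 < f k0 := by
          by_contra h5
          push Not at h5
          have : 0 ≤ -(f k0) / r := by
            apply div_nonneg _ hr.le
            linarith
          linarith
        linarith
      · have h3 : 0 < ‖k‖ := lt_of_le_of_ne (norm_nonneg _) (Ne.symm hk00)
        have h4 := norm_nonneg (f k)
        nlinarith
    have h2 : f b ≤ f k0 + (-(f k0) / r) * η := by
      have h3 := le_abs_self (f b - f k0)
      have h4 : (-(f k0) / r) * dist k0 b ≤ (-(f k0) / r) * η :=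
        mul_le_mul_of_nonneg_left hdb hneg
      linarith
    have h3 : f k0 + (-(f k0) / r) * η = (1 - η / r) * f k0 := by ring
    have h4 : (1 - η / r) * f k0 ≤ (1 - η / r) * f k := by
      refine mul_le_mul_of_nonneg_left (hmin' k hk) ?_
      rw [sub_nonneg, div_le_one hr]
      exact hηr.le
    have h5 := hfu b hb
    rw [map_smul, smul_eq_mul] at hfx
    linarith
  · obtain ⟨y, hy, hxy⟩ := Metric.mem_thickening_iff.1 hx
    obtain ⟨k, hk, hyk⟩ := hnear y hy
    set ρ := η + ε with hρ
    have hρ0 : 0 < ρ := by positivity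
    have hxk : ‖x - k‖ < ρ := by
      rw [← dist_eq_norm]
      exact lt_of_le_of_lt (dist_triangle x y k) (by linarith)
    have hw : (r / ρ) • (x - k) ∈ interior K := by
      apply interior_mono hball
      apply Metric.ball_subset_interior_closedBall
      rw [mem_ball_zero_iff, norm_smul, Real.norm_of_nonneg (by positivity)]
      calc r / ρ * ‖x - k‖ < r / ρ * ρ := mul_lt_mul_of_pos_left hxk (by positivity)
        _ = r := by field_simp
    have h1 : (1 / (1 + ρ / r)) • k + ((ρ / r) / (1 + ρ / r)) • ((r / ρ) • (x - k)) ∈ interior K :=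
      hK.2.2.combo_self_interior_mem_interior hk hw (by positivity) (by positivity)
        (by field_simp)
    refine ⟨_, h1, ?_⟩
    simp only [smul_add, smul_smul]
    have e1 : (1 + ρ / r) * (1 / (1 + ρ / r)) = 1 := by field_simp
    have e2 : (1 + ρ / r) * (ρ / r / (1 + ρ / r) * (r / ρ)) = 1 := by field_simp
    rw [e1, e2, one_smul, one_smul]
    abel

/-- A convex body with empty interior is contained in a line. -/
theorem vflat {K : Set Plane} (hK : CC K) (hKi : ¬ (interior K).Nonempty) :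
    ∃ (u : Plane) (a : ℝ), ‖u‖ = 1 ∧ ∀ x ∈ K, inner ℝ u x = a := by
  obtain ⟨x0, hx0⟩ := hK.1
  have h1 : affineSpan ℝ K ≠ ⊤ := fun h => hKi (hK.2.2.interior_nonempty_iff_affineSpan_eq_top.2 h)
  have h2 : (affineSpan ℝ K).direction ≠ ⊤ := by
    intro h
    apply h1
    exact (AffineSubspace.direction_eq_top_iff_of_nonempty
      ((affineSpan_nonempty ℝ).2 hK.1)).1 h
  have h3 : (affineSpan ℝ K).directionᗮ ≠ ⊥ := by
    intro h
    apply h2
    rwa [Submodule.orthogonal_eq_bot_iff] at h
  obtain ⟨v, hv, hv0⟩ := Submodule.exists_mem_ne_zero_of_ne_bot h3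
  have hv1 : 0 < ‖v‖ := norm_pos_iff.2 hv0
  refine ⟨(‖v‖⁻¹) • v, inner ℝ ((‖v‖⁻¹) • v) x0, ?_, fun x hx => ?_⟩
  · rw [norm_smul, norm_inv, norm_norm, inv_mul_cancel₀ hv1.ne']
  · have h4 : x - x0 ∈ (affineSpan ℝ K).direction :=
      AffineSubspace.vsub_mem_direction (subset_affineSpan ℝ K hx) (subset_affineSpan ℝ K hx0)
    have h5 : inner ℝ v (x - x0) = (0 : ℝ) := (Submodule.mem_orthogonal' _ _).1 hv _ h4
    rw [inner_sub_right] at h5
    rw [inner_smul_left, inner_smul_left]
    have : inner ℝ v x = (inner ℝ v x0 : ℝ) := by linarith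
    rw [this]

theorem cc_translate {K : Set Plane} (hK : CC K) (z : Plane) : CC ((fun p => z + p) '' K) := by
  refine ⟨hK.1.image _, hK.2.1.image (by fun_prop), ?_⟩
  have := hK.2.2.translate z
  simpa using this

theorem cc_smul {K : Set Plane} (hK : CC K) (s : ℝ) : CC (s • K) :=
  ⟨hK.1.smul_set, hK.2.1.smul s, hK.2.2.smul s⟩

theorem cc_add {K K' : Set Plane} (hK : CC K) (hK' : CC K') : CC (K + K') :=
  ⟨hK.1.add hK'.1, hK.2.1.add hK'.2.1, hK.2.2.add hK'.2.2⟩

theorem cc_neg {K : Set Plane} (hK : CC K) : CC (-K) :=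
  ⟨hK.1.neg, hK.2.1.neg, hK.2.2.neg⟩

theorem interior_translate (K : Set Plane) (z : Plane) :
    interior ((fun p => z + p) '' K) = (fun p => z + p) '' interior K :=
  ((Homeomorph.addLeft z).image_interior K).symm

end Pool.Agent.WSB71
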