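import Pool.Agent.WSB71.VHeat

/-!
# V6: positivity of the kernel inside a convex set

Local bound: let `f` vanish outside `S`, `R > 0` with `closedBall z R ⊆ K` for `z ∈ S`, `n s ≤ R²/4`, `M_n = (4π n s)⁻¹ exp (-R²/(4 n s))`
(increasing in `n` in this range).  Induction on `n`: `(G_{ns} * f)(x) ≤ T^n f (x) + M_n ∫ f` for all `x`: the step:
`G_{(n+1)s} * f (x) = ∫_K G_s(x-z) (G_{ns}*f)(z) + ∫_{Kᶜ} ..`, on `Kᶜ` `(G_{ns}*f)(z) ≤ M_n ∫ f`, and `∫ G_s = 1`.
So for `x` within `ρ < R` of the support of `f`: `T^n f (x) ≥ (4π τ₁)⁻¹ (exp (-ρ²/(4τ₁)) - exp (-R²/(4τ₁))) ∫ f`, `τ₁ = n s`.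
Take `x ∈ vcore K r`, `f` supported in `vcore K r ∩ closedBall z₀ (r/8)`, `J` points on the segment from `x` to `z₀` (in `vcore K r` by
convexity), balls of radius `r/8` around them, `R = 7r/8`, `ρ = r/2`, `J ≥ 8 diam K / r`, `τ/J ≤ R²/4`; iterate.  Finally cover
`vcore K r` by finitely many balls of radius `r/8`. -/

open MeasureTheory Filter Topology
open scoped NNReal ENNReal Pointwise

namespace Pool.Agent.WSB71

open Pool.Agent.LT

theorem vcore_anti {K : Set Plane} {r r' : ℝ} (h : r ≤ r') : vcore K r' ⊆ vcore K r :=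
  fun _ hx => (Metric.closedBall_subset_closedBall h).trans hx

theorem vcore_subset {K : Set Plane} {r : ℝ} (h : 0 ≤ r) : vcore K r ⊆ K :=
  fun _ hx => hx (Metric.mem_closedBall_self h)

theorem isClosed_vcore {K : Set Plane} (hK : IsClosed K) (r : ℝ) : IsClosed (vcore K r) := by
  have : vcore K r = ⋂ v ∈ Metric.closedBall (0 : Plane) r, (fun x => x + v) ⁻¹' K := by
    ext x
    simp only [vcore, Set.mem_ofPred_eq, Set.mem_iInter, Set.mem_preimage]
    constructor
    · intro h v hv
      apply h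
      simpa [dist_eq_norm] using hv
    · intro h y hy
      have := h (y - x) (by simpa [dist_eq_norm] using hy)
      simpa using this
  rw [this]
  exact isClosed_biInter fun v _ => hK.preimage (continuous_id.add continuous_const)

theorem convex_vcore {K : Set Plane} (hK : Convex ℝ K) (r : ℝ) : Convex ℝ (vcore K r) := by
  intro x hx y hy a b ha hb hab z hz
  set v := z - (a • x + b • y) with hvdef
  have hv : ‖v‖ ≤ r := by simpa [dist_eq_norm] using hz
  have h1 : x + v ∈ K := hx (by simpa [dist_eq_norm] using hv)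
  have h2 : y + v ∈ K := hy (by simpa [dist_eq_norm] using hv)
  have h3 := hK h1 h2 ha hb hab
  have h4 : a • (x + v) + b • (y + v) = z := by
    have h5 : a • (x + v) + b • (y + v) = (a • x + b • y) + (a + b) • v := by module
    rw [h5, hab, one_smul, hvdef]
    abel
  rwa [h4] at h3

theorem measurableSet_vcore {K : Set Plane} (hK : CC K) (r : ℝ) : MeasurableSet (vcore K r) :=
  (isClosed_vcore hK.2.1.isClosed r).measurableSet

/-- The bound for the mass that has left `K`. -/
theorem gauss_mono {a t t' : ℝ} (ht : 0 < t) (htt : t ≤ t') (hta : t' ≤ a / 4) :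
    (4 * Real.pi * t)⁻¹ * Real.exp (-(a / (4 * t))) ≤
      (4 * Real.pi * t')⁻¹ * Real.exp (-(a / (4 * t'))) := by
  have ht' : 0 < t' := ht.trans_le htt
  have hpi := Real.pi_pos
  have h1 : t' / t ≤ Real.exp (a / (4 * t) - a / (4 * t')) := by
    have h2 := Real.add_one_le_exp (a / (4 * t) - a / (4 * t'))
    refine le_trans ?_ h2
    have h3 : a / (4 * t) - a / (4 * t') + 1 - t' / t =
        (t' - t) * (a / 4 - t') / (t * t') := by
      field_simp
      ring
    have h4 : 0 ≤ (t' - t) * (a / 4 - t') / (t * t') := by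
      apply div_nonneg
      · exact mul_nonneg (by linarith) (by linarith)
      · positivity
    linarith
  have h5 : Real.exp (-(a / (4 * t'))) =
      Real.exp (-(a / (4 * t))) * Real.exp (a / (4 * t) - a / (4 * t')) := by
    rw [← Real.exp_add]
    congr 1
    ring
  rw [h5]
  have h6 : (4 * Real.pi * t)⁻¹ * Real.exp (-(a / (4 * t))) =
      (4 * Real.pi * t')⁻¹ * (Real.exp (-(a / (4 * t))) * (t' / t)) := by
    field_simp
  rw [h6]
  have h7 : 0 ≤ (4 * Real.pi * t')⁻¹ := by positivity
  exact mul_le_mul_of_nonneg_left (mul_le_mul_of_nonneg_left h1 (Real.exp_pos _).le) h7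

theorem vloc {K : Set Plane} (hK : MeasurableSet K) {S : Set Plane} {R s : ℝ} (hR : 0 < R)
    (hs : 0 < s) (hS : ∀ z ∈ S, Metric.closedBall z R ⊆ K) {f : Plane → ℝ≥0∞}
    (hf : Measurable f) (hfS : ∀ z, z ∉ S → f z = 0) {n : ℕ} (hn : 1 ≤ n) :
    n * s ≤ R ^ 2 / 4 → ∀ x : Plane,
    ∫⁻ z, vhk (n * s) (x - z) * f z ≤ (vT K s)^[n] f x +
      ENNReal.ofReal ((4 * Real.pi * (n * s))⁻¹ * Real.exp (-(R ^ 2 / (4 * (n * s))))) *
        ∫⁻ z, f z := by
  induction n, hn using Nat.le_induction with
  | base =>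
    intro _ x
    refine le_trans ?_ le_self_add
    simp only [Nat.cast_one, one_mul, Function.iterate_one, vT]
    rw [← lintegral_indicator hK]
    refine lintegral_mono fun z => ?_
    by_cases hz : z ∈ K
    · rw [Set.indicator_of_mem hz]
    · rw [Set.indicator_of_notMem hz]
      have : z ∉ S := fun h => hz (hS z h (Metric.mem_closedBall_self hR.le))
      rw [hfS z this, mul_zero]
  | succ n hn ih =>
    intro hns x
    have hn0 : (0 : ℝ) < n := by exact_mod_cast hn
    have hns0 : (0 : ℝ) < n * s := by positivity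
    push_cast at hns ⊢
    have hns' : n * s ≤ R ^ 2 / 4 := by nlinarith
    have ih' := ih hns'
    set M : ℝ≥0∞ := ENNReal.ofReal ((4 * Real.pi * (n * s))⁻¹ *
      Real.exp (-(R ^ 2 / (4 * (n * s))))) with hM
    have hMM : M ≤ ENNReal.ofReal ((4 * Real.pi * ((n + 1) * s))⁻¹ *
        Real.exp (-(R ^ 2 / (4 * ((n + 1) * s))))) := by
      apply ENNReal.ofReal_le_ofReal
      exact gauss_mono hns0 (by nlinarith) hns
    -- Tonelli
    have hconv : ∫⁻ z, vhk ((n + 1) * s) (x - z) * f z =
        ∫⁻ y, vhk s (x - y) * ∫⁻ z, vhk (n * s) (y - z) * f z := by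
      have h1 : ∀ z, vhk ((n + 1) * s) (x - z) * f z =
          ∫⁻ y, vhk s (x - y) * vhk (n * s) (y - z) * f z := by
        intro z
        rw [lintegral_mul_const]
        · rw [vhk_conv hs hns0]
          congr 2
          ring
        · exact ((measurable_vhk s).comp (measurable_const.sub measurable_id)).mul
            ((measurable_vhk _).comp (measurable_id.sub measurable_const))
      simp_rw [h1]
      rw [lintegral_lintegral_swap]
      · refine lintegral_congr fun y => ?_
        rw [← lintegral_const_mul]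
        · refine lintegral_congr fun z => ?_
          rw [mul_assoc]
        · exact ((measurable_vhk _).comp (measurable_const.sub measurable_id)).mul hf
      · apply Measurable.aemeasurable
        exact (((measurable_vhk s).comp (measurable_const.sub measurable_snd)).mul
            ((measurable_vhk _).comp (measurable_snd.sub measurable_fst))).mul
            (hf.comp measurable_fst)
    rw [hconv]
    have hpt : ∀ y, vhk s (x - y) * ∫⁻ z, vhk (n * s) (y - z) * f z ≤
        K.indicator (fun y => vhk s (x - y) * (vT K s)^[n] f y) y +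
          vhk s (x - y) * (M * ∫⁻ z, f z) := by
      intro y
      by_cases hy : y ∈ K
      · rw [Set.indicator_of_mem hy, ← mul_add]
        gcongr
        exact ih' y
      · rw [Set.indicator_of_notMem hy, zero_add]
        gcongr
        rw [← lintegral_const_mul _ hf]
        refine lintegral_mono fun z => ?_
        by_cases hz : z ∈ S
        · dsimp only
          gcongr
          rw [hM]
          unfold vhk
          apply ENNReal.ofReal_le_ofReal
          have hd : R ≤ ‖y - z‖ := by
            by_contra hlt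
            push Not at hlt
            apply hy
            apply hS z hz
            rw [Metric.mem_closedBall, dist_eq_norm]
            exact hlt.le
          have hpi := Real.pi_pos
          have hd2 : R ^ 2 ≤ ‖y - z‖ ^ 2 := pow_le_pow_left₀ hR.le hd 2
          gcongr
        · simp [hfS z hz]
    calc ∫⁻ y, vhk s (x - y) * ∫⁻ z, vhk (n * s) (y - z) * f z
        ≤ ∫⁻ y, (K.indicator (fun y => vhk s (x - y) * (vT K s)^[n] f y) y +
          vhk s (x - y) * (M * ∫⁻ z, f z)) := lintegral_mono hpt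
      _ = (∫⁻ y in K, vhk s (x - y) * (vT K s)^[n] f y) +
          (∫⁻ y, vhk s (x - y)) * (M * ∫⁻ z, f z) := by
        rw [lintegral_add_left, lintegral_indicator hK, lintegral_mul_const]
        · exact (measurable_vhk s).comp (measurable_const.sub measurable_id)
        · refine Measurable.indicator ?_ hK
          exact ((measurable_vhk s).comp (measurable_const.sub measurable_id)).mul
            (measurable_vT_iter K s n hf)
      _ = (vT K s)^[n + 1] f x + M * ∫⁻ z, f z := by
        have h1 : ∫⁻ y, vhk s (x - y) = 1 := by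
          rw [lintegral_sub_left_eq_self (fun y => vhk s y) x]
          exact lintegral_vhk hs
        rw [h1, one_mul, Function.iterate_succ_apply']
        rfl
      _ ≤ _ := by gcongr

theorem vloc_low {K : Set Plane} (hK : MeasurableSet K) {S : Set Plane} (hSm : MeasurableSet S)
    {R ρ s : ℝ} (hρ : 0 ≤ ρ) (hρR : ρ < R)
    (hs : 0 < s) (hS : ∀ z ∈ S, Metric.closedBall z R ⊆ K) {f : Plane → ℝ≥0∞}
    (hf : Measurable f) {n : ℕ} (hn : 1 ≤ n) (hns : n * s ≤ R ^ 2 / 4) (x : Plane)
    (hx : ∀ z ∈ S, ‖x - z‖ ≤ ρ) :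
    ENNReal.ofReal ((4 * Real.pi * (n * s))⁻¹ * (Real.exp (-(ρ ^ 2 / (4 * (n * s)))) -
      Real.exp (-(R ^ 2 / (4 * (n * s)))))) * ∫⁻ z in S, f z ≤ (vT K s)^[n] f x := by
  have hR : 0 < R := hρ.trans_lt hρR
  have hn0 : (0 : ℝ) < n := by exact_mod_cast hn
  have hns0 : (0 : ℝ) < n * s := by positivity
  have hSvol : volume S < ⊤ := by
    have : S ⊆ Metric.closedBall x ρ := by
      intro z hz
      rw [Metric.mem_closedBall, dist_comm, dist_eq_norm]
      exact hx z hz
    exact (measure_mono this).trans_lt measure_closedBall_lt_top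
  -- truncations
  set g : ℕ → Plane → ℝ≥0∞ := fun k => S.indicator (fun z => min (f z) (k : ℝ≥0∞)) with hg
  have hgm : ∀ k, Measurable (g k) := fun k =>
    (hf.min measurable_const).indicator hSm
  have hgmono : Monotone g := by
    intro k l hkl z
    simp only [hg]
    apply Set.indicator_le_indicator
    gcongr
  have hgsup : ∀ z, ⨆ k, g k z = S.indicator f z := by
    intro z
    by_cases hz : z ∈ S
    · simp only [hg, Set.indicator_of_mem hz]
      rw [← inf_iSup_eq, ENNReal.iSup_natCast, inf_top_eq]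
    · simp [hg, Set.indicator_of_notMem hz]
  have hint : ∫⁻ z in S, f z = ⨆ k, ∫⁻ z, g k z := by
    rw [← lintegral_indicator hSm, ← lintegral_iSup hgm hgmono]
    refine lintegral_congr fun z => (hgsup z).symm
  rw [hint, ENNReal.mul_iSup]
  refine iSup_le fun k => ?_
  have hfin : ∫⁻ z, g k z ≠ ⊤ := by
    apply ne_of_lt
    calc ∫⁻ z, g k z = ∫⁻ z in S, min (f z) (k : ℝ≥0∞) := by
          rw [← lintegral_indicator hSm]
      _ ≤ ∫⁻ z in S, (k : ℝ≥0∞) := lintegral_mono fun z => min_le_right _ _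
      _ = k * volume S := by rw [setLIntegral_const]
      _ < ⊤ := ENNReal.mul_lt_top (ENNReal.natCast_lt_top k) hSvol
  have hle : ∀ z, g k z ≤ f z := by
    intro z
    simp only [hg]
    by_cases hz : z ∈ S
    · rw [Set.indicator_of_mem hz]; exact min_le_left _ _
    · rw [Set.indicator_of_notMem hz]; exact zero_le
  have h1 := vloc hK hR hs hS (hgm k) (fun z hz => by simp [hg, hz]) hn hns x
  have h2 : ENNReal.ofReal ((4 * Real.pi * (n * s))⁻¹ * Real.exp (-(ρ ^ 2 / (4 * (n * s))))) *
      ∫⁻ z, g k z ≤ ∫⁻ z, vhk (n * s) (x - z) * g k z := by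
    rw [← lintegral_const_mul _ (hgm k)]
    refine lintegral_mono fun z => ?_
    by_cases hz : z ∈ S
    · dsimp only
      gcongr
      unfold vhk
      apply ENNReal.ofReal_le_ofReal
      have hd := hx z hz
      have hpi := Real.pi_pos
      have hd2 : ‖x - z‖ ^ 2 ≤ ρ ^ 2 := pow_le_pow_left₀ (norm_nonneg _) hd 2
      gcongr
    · simp [hg, hz]
  have h3 := h2.trans h1
  have hpi := Real.pi_pos
  rw [mul_sub, ENNReal.ofReal_sub _ (by positivity),
    ENNReal.sub_mul (fun _ _ => hfin), tsub_le_iff_right]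
  refine h3.trans ?_
  gcongr
  exact vT_iter_mono subset_rfl s n hle x

/-- The constant of one step of the chain of balls. -/
noncomputable def vcc (r t : ℝ) : ℝ :=
  (4 * Real.pi * t)⁻¹ * (Real.exp (-((3 * r / 8) ^ 2 / (4 * t))) -
      Real.exp (-((7 * r / 8) ^ 2 / (4 * t))))

theorem vcc_pos {r t : ℝ} (hr : 0 < r) (ht : 0 < t) : 0 < vcc r t := by
  unfold vcc
  have hpi := Real.pi_pos
  apply mul_pos (by positivity)
  rw [sub_pos, Real.exp_lt_exp, neg_lt_neg_iff]
  apply div_lt_div_of_pos_right _ (by positivity)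
  nlinarith [mul_pos hr hr]

theorem vchain {K : Set Plane} (hK : MeasurableSet K) {r s : ℝ} (hr : 0 < r)
    (hs : 0 < s) {n : ℕ} (hn : 1 ≤ n) (hns : n * s ≤ (7 * r / 8) ^ 2 / 4) {y : ℕ → Plane}
    {f : Plane → ℝ≥0∞} (hf : Measurable f) (j : ℕ) (hy : ∀ i ≤ j, y i ∈ vcore K r)
    (hyd : ∀ i ≤ j, ‖y (i + 1) - y i‖ ≤ r / 8) (x : Plane)
    (hx : ‖x - y (j + 1)‖ ≤ r / 8) :
    ENNReal.ofReal (vcc r (n * s)) * (ENNReal.ofReal (vcc r (n * s)) *
      volume (Metric.closedBall (0 : Plane) (r / 8))) ^ j *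
      ∫⁻ z in Metric.closedBall (y 0) (r / 8), f z ≤ (vT K s)^[(j + 1) * n] f x := by
  have key : ∀ (i : ℕ) (x : Plane), y i ∈ vcore K r → ‖y (i + 1) - y i‖ ≤ r / 8 →
      ‖x - y (i + 1)‖ ≤ r / 8 → ∀ g : Plane → ℝ≥0∞, Measurable g →
      ENNReal.ofReal (vcc r (n * s)) * ∫⁻ z in Metric.closedBall (y i) (r / 8), g z ≤
        (vT K s)^[n] g x := by
    intro i x h1 h2 h3 g hg
    apply vloc_low hK Metric.isClosed_closedBall.measurableSet (by positivity)
      (by linarith : 3 * r / 8 < 7 * r / 8) hs _ hg hn hns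
    · intro z hz
      rw [Metric.mem_closedBall, dist_eq_norm] at hz
      have h4 : ‖x - z‖ ≤ ‖x - y (i + 1)‖ + ‖y (i + 1) - y i‖ + ‖y i - z‖ := by
        calc ‖x - z‖ = ‖(x - y (i + 1)) + (y (i + 1) - y i) + (y i - z)‖ := by congr 1; abel
          _ ≤ _ := (norm_add_le _ _).trans (by gcongr; exact norm_add_le _ _)
      rw [norm_sub_rev (y i) z] at h4
      linarith
    · intro z hz w hw
      apply h1
      rw [Metric.mem_closedBall] at hz hw ⊢
      calc dist w (y i) ≤ dist w z + dist z (y i) := dist_triangle _ _ _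
        _ ≤ r := by linarith
  induction j generalizing x with
  | zero =>
    simp only [pow_zero, mul_one, zero_add, one_mul] at hx ⊢
    exact key 0 x (hy 0 le_rfl) (hyd 0 le_rfl) (by simpa using hx) f hf
  | succ j ih =>
    have ih' := ih (fun i hi => hy i (by omega)) (fun i hi => hyd i (by omega))
    have h1 := key (j + 1) x (hy (j + 1) le_rfl) (hyd (j + 1) le_rfl) hx
      ((vT K s)^[(j + 1) * n] f) (measurable_vT_iter K s _ hf)
    have h2 : (vT K s)^[(j + 1 + 1) * n] f x = (vT K s)^[n] ((vT K s)^[(j + 1) * n] f) x := by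
      have h3 : (j + 1 + 1) * n = n + (j + 1) * n := by ring
      rw [h3, Function.iterate_add_apply]
    rw [h2]
    refine le_trans ?_ h1
    set c := ENNReal.ofReal (vcc r (n * s))
    set v := volume (Metric.closedBall (0 : Plane) (r / 8)) with hv
    set I := ∫⁻ z in Metric.closedBall (y 0) (r / 8), f z
    calc c * (c * v) ^ (j + 1) * I = c * ((c * (c * v) ^ j * I) * v) := by ring
      _ = c * ∫⁻ z in Metric.closedBall (y (j + 1)) (r / 8), (c * (c * v) ^ j * I) := by
        rw [setLIntegral_const, hv]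
        congr 2
        exact (Measure.addHaar_closedBall_center volume (y (j + 1)) (r / 8)).symm
      _ ≤ _ := by
        refine mul_le_mul' le_rfl (setLIntegral_mono (measurable_vT_iter K s _ hf) fun z hz => ?_)
        rw [Metric.mem_closedBall, dist_eq_norm] at hz
        exact ih' z hz

theorem vcore_low {K : Set Plane} (hK : CC K) {r τ : ℝ} (hr : 0 < r) (hτ : 0 < τ) :
    ∃ J : ℕ, 1 ≤ J ∧ ∃ κ : ℝ, 0 < κ ∧ ∀ n : ℕ, 1 ≤ n → ∀ f : Plane → ℝ≥0∞, Measurable f →
      ∀ x ∈ vcore K r, ENNReal.ofReal κ * ∫⁻ z in vcore K r, f z ≤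
        (vT K (τ / ((J * n : ℕ) : ℝ)))^[J * n] f x := by
  have hKm : MeasurableSet K := hK.2.1.isClosed.measurableSet
  have hcc : IsCompact (vcore K r) :=
    hK.2.1.of_isClosed_subset (isClosed_vcore hK.2.1.isClosed r) (vcore_subset hr.le)
  obtain ⟨t, htK, htfin, htcov⟩ := hcc.finite_cover_balls (by positivity : 0 < r / 8)
  obtain ⟨D, hD⟩ := hK.2.1.isBounded.exists_norm_le
  obtain ⟨j, hj⟩ := exists_nat_ge (max (2 * D / (r / 8)) (τ / ((7 * r / 8) ^ 2 / 4)))
  set J := j + 1 with hJ
  have hJ0 : (0 : ℝ) < J := by positivity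
  have hjJ : (j : ℝ) ≤ J := by rw [hJ]; push_cast; linarith
  have hJD : 2 * D ≤ r / 8 * J := by
    have := (le_max_left _ _).trans (hj.trans hjJ)
    rw [div_le_iff₀ (by positivity)] at this
    linarith
  have hJτ : τ / J ≤ (7 * r / 8) ^ 2 / 4 := by
    have := (le_max_right _ _).trans (hj.trans hjJ)
    rw [div_le_iff₀ (by positivity), mul_comm] at this
    rwa [div_le_iff₀ hJ0]
  set c := vcc r (τ / J) with hc
  have hcpos : 0 < c := vcc_pos hr (by positivity)
  set v := (volume (Metric.closedBall (0 : Plane) (r / 8))).toReal with hv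
  have hvpos : 0 < v := ENNReal.toReal_pos
    (Metric.measure_closedBall_pos volume _ (by positivity)).ne' measure_closedBall_lt_top.ne
  set κ' := c * (c * v) ^ j with hκ'
  have hκ'pos : 0 < κ' := by positivity
  refine ⟨J, by omega, κ' / (htfin.toFinset.card + 1), by positivity, ?_⟩
  intro n hn f hf x hx
  have hn0 : (0 : ℝ) < n := by exact_mod_cast hn
  set s := τ / ((J * n : ℕ) : ℝ) with hs
  have hspos : 0 < s := by
    rw [hs]
    push_cast
    positivity
  have hns : n * s = τ / J := by
    rw [hs]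
    push_cast
    field_simp
  have hball : ∀ z₀ ∈ vcore K r, ENNReal.ofReal κ' *
      ∫⁻ z in Metric.closedBall z₀ (r / 8), f z ≤ (vT K s)^[J * n] f x := by
    intro z₀ hz₀
    set y : ℕ → Plane := fun i => z₀ + ((i : ℝ) / J) • (x - z₀) with hy
    have hy0 : y 0 = z₀ := by simp [hy]
    have hyJ : y (j + 1) = x := by
      have : ((j + 1 : ℕ) : ℝ) / J = 1 := by rw [← hJ]; exact div_self hJ0.ne'
      simp only [hy]
      rw [this, one_smul]
      abel
    have h1 := vchain hKm hr hspos hn (by rw [hns]; exact hJτ) (y := y) hf j ?_ ?_ x ?_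
    · rw [hy0, hns, ← hJ] at h1
      refine le_trans (le_of_eq ?_) h1
      congr 1
      rw [hκ', ENNReal.ofReal_mul hcpos.le, ENNReal.ofReal_pow (by positivity),
        ENNReal.ofReal_mul hcpos.le, hv, ENNReal.ofReal_toReal measure_closedBall_lt_top.ne]
    · intro i hi
      have hi' : (i : ℝ) / J ≤ 1 := by
        rw [div_le_one hJ0]
        exact_mod_cast (by omega : i ≤ J)
      have h2 := convex_vcore hK.2.2 r hz₀ hx (a := 1 - (i : ℝ) / J) (b := (i : ℝ) / J)
        (by linarith) (by positivity) (by ring)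
      have h3 : (1 - (i : ℝ) / J) • z₀ + ((i : ℝ) / J) • x = y i := by
        simp only [hy]
        module
      rwa [h3] at h2
    · intro i _
      have h3 : y (i + 1) - y i = (1 / (J : ℝ)) • (x - z₀) := by
        simp only [hy]
        push_cast
        rw [add_div]
        module
      rw [h3, norm_smul, Real.norm_of_nonneg (by positivity)]
      have h4 : ‖x - z₀‖ ≤ 2 * D := by
        have := hD x (vcore_subset hr.le hx)
        have := hD z₀ (vcore_subset hr.le hz₀)
        calc ‖x - z₀‖ ≤ ‖x‖ + ‖z₀‖ := norm_sub_le _ _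
          _ ≤ 2 * D := by linarith
      rw [one_div, inv_mul_le_iff₀ hJ0]
      linarith
    · rw [hyJ, sub_self, norm_zero]
      positivity
  -- covering
  have hcov : ∫⁻ z in vcore K r, f z ≤ ∑ z₀ ∈ htfin.toFinset,
      ∫⁻ z in Metric.closedBall z₀ (r / 8), f z := by
    calc ∫⁻ z in vcore K r, f z ≤ ∫⁻ z in ⋃ z₀ : htfin.toFinset,
          Metric.closedBall z₀.1 (r / 8), f z := by
          apply lintegral_mono_set
          intro z hz
          obtain ⟨z₀, hz₀, hz₁⟩ := Set.mem_iUnion₂.1 (htcov hz)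
          exact Set.mem_iUnion.2 ⟨⟨z₀, by simpa using hz₀⟩, Metric.ball_subset_closedBall hz₁⟩
      _ ≤ ∑' z₀ : htfin.toFinset, ∫⁻ z in Metric.closedBall z₀.1 (r / 8), f z :=
          lintegral_iUnion_le _ _
      _ = _ := by
          rw [tsum_fintype, Finset.sum_coe_sort htfin.toFinset
            (fun z₀ => ∫⁻ z in Metric.closedBall z₀ (r / 8), f z)]
  set T := (vT K s)^[J * n] f x with hT
  have h5 : ENNReal.ofReal κ' * ∫⁻ z in vcore K r, f z ≤ (htfin.toFinset.card + 1 : ℝ≥0∞) * T := by
    calc ENNReal.ofReal κ' * ∫⁻ z in vcore K r, f z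
        ≤ ENNReal.ofReal κ' * ∑ z₀ ∈ htfin.toFinset,
          ∫⁻ z in Metric.closedBall z₀ (r / 8), f z := by gcongr
      _ = ∑ z₀ ∈ htfin.toFinset, ENNReal.ofReal κ' *
          ∫⁻ z in Metric.closedBall z₀ (r / 8), f z := Finset.mul_sum _ _ _
      _ ≤ ∑ z₀ ∈ htfin.toFinset, T := by
          apply Finset.sum_le_sum
          intro z₀ hz₀
          exact hball z₀ (htK (by simpa using hz₀))
      _ = htfin.toFinset.card * T := by rw [Finset.sum_const, nsmul_eq_mul]
      _ ≤ _ := by gcongr; exact le_self_add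
  have h6 : ENNReal.ofReal (κ' / (htfin.toFinset.card + 1)) =
      ENNReal.ofReal κ' / (htfin.toFinset.card + 1 : ℝ≥0∞) := by
    rw [ENNReal.ofReal_div_of_pos (by positivity)]
    congr 1
    rw [ENNReal.ofReal_add (by positivity) (by positivity)]
    simp
  rw [h6, ENNReal.div_eq_inv_mul, mul_assoc]
  rw [ENNReal.inv_mul_le_iff (by positivity) (by finiteness)]
  exact h5

/-- `Convex.addHaar_frontier`, continuity of the measure. -/
theorem vcore_measure {K : Set Plane} (hK : CC K) {ε : ℝ} (hε : 0 < ε) :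
    ∃ r₀ : ℝ, 0 < r₀ ∧ ∀ r : ℝ, 0 < r → r ≤ r₀ → volume (K \ vcore K r) ≤ ENNReal.ofReal ε := by
  have hKm : MeasurableSet K := hK.2.1.isClosed.measurableSet
  set A : ℕ → Set Plane := fun n => K \ vcore K (1 / ((n : ℝ) + 1)) with hA
  have hAm : ∀ n, NullMeasurableSet (A n) volume := fun n =>
    (hKm.diff (measurableSet_vcore hK _)).nullMeasurableSet
  have hanti : Antitone A := by
    intro m n hmn
    apply Set.sdiff_subset_sdiff_right
    apply vcore_anti
    apply one_div_le_one_div_of_le (by positivity)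
    have : (m : ℝ) ≤ n := by exact_mod_cast hmn
    linarith
  have hfin : ∃ i, volume (A i) ≠ ⊤ :=
    ⟨0, ((measure_mono Set.sdiff_subset).trans_lt hK.2.1.measure_lt_top).ne⟩
  have hlim := tendsto_measure_iInter_atTop hAm hanti hfin
  have hsub : ⋂ n, A n ⊆ frontier K := by
    intro x hx
    rw [Set.mem_iInter] at hx
    have hxK : x ∈ K := (hx 0).1
    rw [frontier, hK.2.1.isClosed.closure_eq]
    refine ⟨hxK, fun hxi => ?_⟩
    rw [mem_interior_iff_mem_nhds, Metric.mem_nhds_iff] at hxi
    obtain ⟨δ, hδ, hball⟩ := hxi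
    obtain ⟨n, hn⟩ := exists_nat_one_div_lt hδ
    apply (hx n).2
    exact (Metric.closedBall_subset_ball hn).trans hball
  have hzero : volume (⋂ n, A n) = 0 :=
    measure_mono_null hsub (hK.2.2.addHaar_frontier volume)
  rw [hzero] at hlim
  have hev := (ENNReal.tendsto_nhds_zero.1 hlim) (ENNReal.ofReal ε) (by positivity)
  obtain ⟨n, hn⟩ := hev.exists
  refine ⟨1 / ((n : ℝ) + 1), by positivity, fun r _ hrr => ?_⟩
  refine le_trans (measure_mono ?_) hn
  exact Set.sdiff_subset_sdiff_right (vcore_anti hrr)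

/-- A nonempty open part of the interior meets the core in positive measure. -/
theorem vcore_open {K V : Set Plane} (hV : IsOpen V) (hVK : (interior K ∩ V).Nonempty) :
    ∃ r₀ v : ℝ, 0 < r₀ ∧ 0 < v ∧ ∀ r : ℝ, 0 < r → r ≤ r₀ →
      ENNReal.ofReal v ≤ volume (vcore K r ∩ V) := by
  obtain ⟨p, hp⟩ := hVK
  have hopen : IsOpen (interior K ∩ V) := isOpen_interior.inter hV
  obtain ⟨δ, hδ, hball⟩ := Metric.isOpen_iff.1 hopen p hp
  refine ⟨δ / 4, (volume (Metric.closedBall p (δ / 4))).toReal, by positivity,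
    ENNReal.toReal_pos (Metric.measure_closedBall_pos volume _ (by positivity)).ne'
      measure_closedBall_lt_top.ne, ?_⟩
  intro r hr hrr
  rw [ENNReal.ofReal_toReal measure_closedBall_lt_top.ne]
  apply measure_mono
  intro x hx
  rw [Metric.mem_closedBall] at hx
  refine ⟨fun w hw => ?_, (hball (by rw [Metric.mem_ball]; linarith)).2⟩
  apply interior_subset
  refine (hball ?_).1
  rw [Metric.mem_closedBall] at hw
  rw [Metric.mem_ball]
  calc dist w p ≤ dist w x + dist x p := dist_triangle _ _ _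
    _ < δ := by linarith

/-- Uniform version for balls centred in `K`: contract towards an interior point. -/
theorem vcore_ball {K : Set Plane} (hK : CC K) (hKi : (interior K).Nonempty) {ρ : ℝ}
    (hρ : 0 < ρ) : ∃ r₀ v : ℝ, 0 < r₀ ∧ 0 < v ∧ ∀ r : ℝ, 0 < r → r ≤ r₀ → ∀ q ∈ K,
      ENNReal.ofReal v ≤ volume (vcore K r ∩ Metric.closedBall q ρ) := by
  obtain ⟨p, hp⟩ := hKi
  obtain ⟨δ, hδ, hball⟩ := Metric.isOpen_iff.1 isOpen_interior p hp
  obtain ⟨D, hD⟩ := hK.2.1.isBounded.exists_norm_le
  have hpK : p ∈ K := interior_subset hp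
  have hD0 : 0 ≤ D := (norm_nonneg p).trans (hD p hpK)
  -- the contraction factor
  set l : ℝ := min 1 (ρ / (2 * D + δ)) with hl
  have hl0 : 0 < l := lt_min one_pos (by positivity)
  have hl1 : l ≤ 1 := min_le_left _ _
  have hl2 : l * (2 * D + δ) ≤ ρ := by
    have : l ≤ ρ / (2 * D + δ) := min_le_right _ _
    rwa [le_div_iff₀ (by positivity)] at this
  refine ⟨l * δ / 4, (volume (Metric.closedBall (0 : Plane) (l * δ / 4))).toReal, by positivity,
    ENNReal.toReal_pos (Metric.measure_closedBall_pos volume _ (by positivity)).ne'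
      measure_closedBall_lt_top.ne, ?_⟩
  intro r hr hrr q hq
  rw [ENNReal.ofReal_toReal measure_closedBall_lt_top.ne,
    ← Measure.addHaar_closedBall_center volume ((1 - l) • q + l • p) (l * δ / 4)]
  apply measure_mono
  intro x hx
  rw [Metric.mem_closedBall, dist_eq_norm] at hx
  constructor
  · intro w hw
    rw [Metric.mem_closedBall, dist_eq_norm] at hw
    -- w = (1 - l) q + l (p + u)
    set u : Plane := l⁻¹ • (w - ((1 - l) • q + l • p)) with hu
    have hw2 : ‖w - ((1 - l) • q + l • p)‖ ≤ l * δ / 2 := by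
      calc ‖w - ((1 - l) • q + l • p)‖ = ‖(w - x) + (x - ((1 - l) • q + l • p))‖ := by
            congr 1; abel
        _ ≤ _ := (norm_add_le _ _).trans (by linarith)
    have hun : ‖u‖ ≤ δ / 2 := by
      rw [hu, norm_smul, Real.norm_of_nonneg (by positivity), inv_mul_le_iff₀ hl0]
      linarith
    have hpu : p + u ∈ K := by
      apply interior_subset
      apply hball
      rw [Metric.mem_ball, dist_eq_norm, add_sub_cancel_left]
      linarith
    have h3 := hK.2.2 hq hpu (by linarith : (0 : ℝ) ≤ 1 - l) hl0.le (by ring)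
    have h4 : (1 - l) • q + l • (p + u) = w := by
      rw [smul_add, hu, smul_smul, mul_inv_cancel₀ hl0.ne', one_smul]
      abel
    rwa [h4] at h3
  · rw [Metric.mem_closedBall, dist_eq_norm]
    have h5 : x - q = (x - ((1 - l) • q + l • p)) + l • (p - q) := by
      module
    have h6 : ‖p - q‖ ≤ 2 * D := by
      have := hD p hpK
      have := hD q hq
      calc ‖p - q‖ ≤ ‖p‖ + ‖q‖ := norm_sub_le _ _
        _ ≤ 2 * D := by linarith
    rw [h5]
    calc ‖(x - ((1 - l) • q + l • p)) + l • (p - q)‖ ≤ l * δ / 4 + l * (2 * D) := by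
          refine (norm_add_le _ _).trans (add_le_add hx ?_)
          rw [norm_smul, Real.norm_of_nonneg hl0.le]
          gcongr
      _ ≤ ρ := by nlinarith

end Pool.Agent.WSB71
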