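import Pool.Agent.WSB71.VDef

/-!
# V3: the heat kernel and the operators `vT K s`

Tonelli, Cauchy-Schwarz, completion of squares. (proved by helper87) -/

open MeasureTheory Filter Topology
open scoped NNReal ENNReal Pointwise

namespace Pool.Agent.WSB71

open Pool.Agent.LT

theorem measurable_vhk (s : ℝ) : Measurable (vhk s) := by
  unfold vhk
  fun_prop

theorem vhk_neg (s : ℝ) (x : Plane) : vhk s (-x) = vhk s x := by
  unfold vhk
  rw [norm_neg]

theorem vhk_sub_comm (s : ℝ) (x y : Plane) : vhk s (x - y) = vhk s (y - x) := by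
  rw [← vhk_neg, neg_sub]

theorem lintegral_vhk {s : ℝ} (hs : 0 < s) : ∫⁻ x, vhk s x = 1 := by
  have h4 : (0 : ℝ) < (4 * s)⁻¹ := by positivity
  have h := GaussianFourier.integral_rexp_neg_mul_sq_norm (V := Plane) h4
  have hint : Integrable (fun v : Plane => Real.exp (-(4 * s)⁻¹ * ‖v‖ ^ 2)) := by
    by_contra hcon
    rw [integral_undef hcon] at h
    have : (0 : ℝ) < (Real.pi / (4 * s)⁻¹) ^ ((Module.finrank ℝ Plane : ℝ) / 2) := by positivity
    linarith
  have hfin : ((Module.finrank ℝ Plane : ℕ) : ℝ) / 2 = 1 := by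
    rw [finrank_euclideanSpace_fin]; norm_num
  rw [hfin, Real.rpow_one] at h
  unfold vhk
  rw [← ofReal_integral_eq_lintegral_ofReal]
  · rw [integral_const_mul]
    have h2 : (∫ a : Plane, Real.exp (-(‖a‖ ^ 2 / (4 * s)))) = Real.pi / (4 * s)⁻¹ := by
      rw [← h]
      congr 1
      ext a
      congr 1
      rw [div_eq_inv_mul]; ring
    rw [h2]
    have h3 : (4 * Real.pi * s)⁻¹ * (Real.pi / (4 * s)⁻¹) = 1 := by
      have := Real.pi_pos
      field_simp
    rw [h3, ENNReal.ofReal_one]
  · have h5 := hint.const_mul ((4 * Real.pi * s)⁻¹)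
    refine h5.congr (Eventually.of_forall fun a => ?_)
    simp only
    congr 2
    rw [div_eq_inv_mul]; ring
  · exact Eventually.of_forall fun a => by
      have := Real.pi_pos
      simp only [Pi.zero_apply]
      positivity

lemma vhk_factor {s t : ℝ} (hs : 0 < s) (ht : 0 < t) (x y z : Plane) :
    vhk s (x - z) * vhk t (z - y) = vhk (s + t) (x - y) *
      vhk (s * t / (s + t)) (z - (s + t)⁻¹ • (t • x + s • y)) := by
  unfold vhk
  have hpi := Real.pi_pos
  have hst : 0 < s + t := by positivity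
  rw [← ENNReal.ofReal_mul (by positivity), ← ENNReal.ofReal_mul (by positivity)]
  congr 1
  have e1 : (4 * Real.pi * s)⁻¹ * (4 * Real.pi * t)⁻¹ =
      (4 * Real.pi * (s + t))⁻¹ * (4 * Real.pi * (s * t / (s + t)))⁻¹ := by
    field_simp
  have key : ‖x - z‖ ^ 2 / (4 * s) + ‖z - y‖ ^ 2 / (4 * t) =
      ‖x - y‖ ^ 2 / (4 * (s + t)) +
        ‖z - (s + t)⁻¹ • (t • x + s • y)‖ ^ 2 / (4 * (s * t / (s + t))) := by
    simp only [EuclideanSpace.norm_sq_eq, Fin.sum_univ_two, PiLp.sub_apply, PiLp.add_apply,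
      PiLp.smul_apply, Real.norm_eq_abs, sq_abs, smul_eq_mul]
    field_simp
    ring
  calc (4 * Real.pi * s)⁻¹ * Real.exp (-(‖x - z‖ ^ 2 / (4 * s))) *
      ((4 * Real.pi * t)⁻¹ * Real.exp (-(‖z - y‖ ^ 2 / (4 * t))))
      = ((4 * Real.pi * s)⁻¹ * (4 * Real.pi * t)⁻¹) *
        Real.exp (-(‖x - z‖ ^ 2 / (4 * s) + ‖z - y‖ ^ 2 / (4 * t))) := by
        rw [neg_add, Real.exp_add]; ring
    _ = _ := by
        rw [key, e1, neg_add, Real.exp_add]; ring

theorem vhk_conv {s t : ℝ} (hs : 0 < s) (ht : 0 < t) (x y : Plane) :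
    ∫⁻ z, vhk s (x - z) * vhk t (z - y) = vhk (s + t) (x - y) := by
  simp_rw [vhk_factor hs ht]
  rw [lintegral_const_mul]
  · rw [lintegral_sub_right_eq_self (μ := (volume : Measure Plane))
      (fun z => vhk (s * t / (s + t)) z), lintegral_vhk (by positivity), mul_one]
  · exact (measurable_vhk _).comp (by fun_prop)

theorem vhk_le {s : ℝ} (hs : 0 < s) (x : Plane) :
    vhk s x ≤ ENNReal.ofReal ((4 * Real.pi * s)⁻¹) := by
  unfold vhk
  apply ENNReal.ofReal_le_ofReal
  have hpi := Real.pi_pos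
  have h1 : Real.exp (-(‖x‖ ^ 2 / (4 * s))) ≤ 1 := by
    apply Real.exp_le_one_iff.mpr
    have : 0 ≤ ‖x‖ ^ 2 / (4 * s) := by positivity
    linarith
  calc (4 * Real.pi * s)⁻¹ * Real.exp (-(‖x‖ ^ 2 / (4 * s))) ≤ (4 * Real.pi * s)⁻¹ * 1 :=
        mul_le_mul_of_nonneg_left h1 (by positivity)
    _ = _ := mul_one _

lemma measurable_vhk_sub (s : ℝ) : Measurable (fun p : Plane × Plane => vhk s (p.1 - p.2)) :=
  (measurable_vhk s).comp (by fun_prop)

theorem measurable_vT (K : Set Plane) (s : ℝ) {f : Plane → ℝ≥0∞} (hf : Measurable f) :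
    Measurable (vT K s f) := by
  unfold vT
  exact Measurable.lintegral_prod_right'
    (f := fun p : Plane × Plane => vhk s (p.1 - p.2) * f p.2)
    ((measurable_vhk_sub s).mul (hf.comp measurable_snd))

theorem measurable_vT_iter (K : Set Plane) (s : ℝ) (n : ℕ) {f : Plane → ℝ≥0∞}
    (hf : Measurable f) : Measurable ((vT K s)^[n] f) := by
  induction n with
  | zero => simpa using hf
  | succ n ih =>
    rw [Function.iterate_succ_apply']
    exact measurable_vT K s ih

theorem vT_mono {K K' : Set Plane} (hK : K ⊆ K') (s : ℝ) {f g : Plane → ℝ≥0∞}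
    (hfg : ∀ x, f x ≤ g x) (x : Plane) : vT K s f x ≤ vT K' s g x := by
  unfold vT
  exact lintegral_mono' (Measure.restrict_mono hK le_rfl) (fun z => by gcongr; exact hfg z)

theorem vT_iter_mono {K K' : Set Plane} (hK : K ⊆ K') (s : ℝ) (n : ℕ) {f g : Plane → ℝ≥0∞}
    (hfg : ∀ x, f x ≤ g x) (x : Plane) : (vT K s)^[n] f x ≤ (vT K' s)^[n] g x := by
  induction n generalizing x with
  | zero => simpa using hfg x
  | succ n ih =>
    rw [Function.iterate_succ_apply', Function.iterate_succ_apply']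
    exact vT_mono hK s ih x

theorem vT_adj (K : Set Plane) (s : ℝ) {f g : Plane → ℝ≥0∞} (hf : Measurable f)
    (hg : Measurable g) : ∫⁻ x in K, f x * vT K s g x = ∫⁻ x in K, vT K s f x * g x := by
  unfold vT
  have h1 : ∀ x, f x * ∫⁻ z in K, vhk s (x - z) * g z = ∫⁻ z in K, f x * (vhk s (x - z) * g z) := by
    intro x
    rw [lintegral_const_mul]
    exact ((measurable_vhk s).comp (by fun_prop)).mul hg
  have h2 : ∀ x, (∫⁻ z in K, vhk s (x - z) * f z) * g x =
      ∫⁻ z in K, f z * (vhk s (z - x) * g x) := by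
    intro x
    rw [← lintegral_mul_const]
    · congr 1
      ext z
      rw [vhk_sub_comm s x z]; ring
    · exact ((measurable_vhk s).comp (by fun_prop)).mul hf
  simp_rw [h1, h2]
  rw [lintegral_lintegral_swap]
  exact (((hf.comp measurable_fst).mul ((measurable_vhk_sub s).mul
    (hg.comp measurable_snd)))).aemeasurable

theorem vT_adj_iter (K : Set Plane) (s : ℝ) (n : ℕ) {f g : Plane → ℝ≥0∞} (hf : Measurable f)
    (hg : Measurable g) :
    ∫⁻ x in K, f x * (vT K s)^[n] g x = ∫⁻ x in K, (vT K s)^[n] f x * g x := by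
  induction n generalizing g with
  | zero => simp
  | succ n ih =>
    rw [Function.iterate_succ_apply, ih (measurable_vT K s hg),
      vT_adj K s (measurable_vT_iter K s n hf) hg, Function.iterate_succ_apply']

lemma two_mul_le_sq_add (a b : ℝ≥0∞) : 2 * a * b ≤ a ^ 2 + b ^ 2 := by
  rcases eq_or_ne a ⊤ with rfl | ha
  · simp
  rcases eq_or_ne b ⊤ with rfl | hb
  · simp
  lift a to ℝ≥0 using ha
  lift b to ℝ≥0 using hb
  have := two_mul_le_add_sq a b
  exact_mod_cast this

lemma cs_lintegral {μ : Measure Plane} {f g : Plane → ℝ≥0∞} (hf : Measurable f)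
    (hg : Measurable g) : (∫⁻ x, f x * g x ∂μ) ^ 2 ≤ (∫⁻ x, f x ^ 2 ∂μ) * ∫⁻ x, g x ^ 2 ∂μ := by
  have h := ENNReal.lintegral_mul_le_Lp_mul_Lq μ (p := 2) (q := 2)
    (Real.holderConjugate_iff.mpr ⟨by norm_num, by norm_num⟩) hf.aemeasurable hg.aemeasurable
  simp only [Pi.mul_apply, ENNReal.rpow_two] at h
  calc (∫⁻ x, f x * g x ∂μ) ^ 2 ≤
      ((∫⁻ x, f x ^ 2 ∂μ) ^ ((1 : ℝ) / 2) * (∫⁻ x, g x ^ 2 ∂μ) ^ ((1 : ℝ) / 2)) ^ 2 := by gcongr
    _ = _ := by
      rw [mul_pow, ← ENNReal.rpow_two, ← ENNReal.rpow_two, ← ENNReal.rpow_mul, ← ENNReal.rpow_mul]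
      norm_num

lemma form_eq (K : Set Plane) {s : ℝ} (hs : 0 < s) {f g : Plane → ℝ≥0∞} (hf : Measurable f)
    (hg : Measurable g) : ∫⁻ x in K, f x * vT K s g x =
      ∫⁻ w, vT K (s / 2) f w * vT K (s / 2) g w := by
  have hs2 : 0 < s / 2 := by positivity
  have hmf : Measurable (fun p : Plane × Plane => vhk (s / 2) (p.1 - p.2) * f p.2) :=
    (measurable_vhk_sub _).mul (hf.comp measurable_snd)
  have hmg : Measurable (fun p : Plane × Plane => vhk (s / 2) (p.1 - p.2) * g p.2) :=
    (measurable_vhk_sub _).mul (hg.comp measurable_snd)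
  symm
  calc ∫⁻ w, vT K (s / 2) f w * vT K (s / 2) g w
      = ∫⁻ w, ∫⁻ x in K, (vhk (s / 2) (w - x) * f x) * vT K (s / 2) g w := by
        congr 1; ext w
        rw [lintegral_mul_const]
        · rfl
        · exact ((measurable_vhk _).comp (by fun_prop)).mul hf
    _ = ∫⁻ x in K, ∫⁻ w, (vhk (s / 2) (w - x) * f x) * vT K (s / 2) g w := by
        rw [lintegral_lintegral_swap]
        exact (hmf.mul ((measurable_vT K _ hg).comp measurable_fst)).aemeasurable
    _ = ∫⁻ x in K, f x * vT K s g x := by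
        congr 1; ext x
        have h1 : ∀ w, (vhk (s / 2) (w - x) * f x) * vT K (s / 2) g w =
            f x * (vhk (s / 2) (x - w) * vT K (s / 2) g w) := by
          intro w
          rw [vhk_sub_comm _ w x]; ring
        simp_rw [h1]
        have hm1 : Measurable (fun w => vhk (s / 2) (x - w)) :=
          (measurable_vhk _).comp (by fun_prop)
        have hm3 : Measurable (fun w => vhk (s / 2) (x - w) * vT K (s / 2) g w) :=
          hm1.mul (measurable_vT K _ hg)
        rw [lintegral_const_mul _ hm3]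
        congr 1
        have h2 : ∀ w, vhk (s / 2) (x - w) * vT K (s / 2) g w =
            ∫⁻ z in K, vhk (s / 2) (x - w) * (vhk (s / 2) (w - z) * g z) := by
          intro w
          rw [lintegral_const_mul]
          · rfl
          · exact ((measurable_vhk _).comp (by fun_prop)).mul hg
        simp_rw [h2]
        rw [lintegral_lintegral_swap]
        · unfold vT
          congr 1; ext z
          have h3 : ∀ w, vhk (s / 2) (x - w) * (vhk (s / 2) (w - z) * g z) =
              (vhk (s / 2) (x - w) * vhk (s / 2) (w - z)) * g z := fun w => by ring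
          have hm2 : Measurable (fun w => vhk (s / 2) (w - z)) :=
            (measurable_vhk _).comp (by fun_prop)
          simp_rw [h3]
          have hm4 : Measurable (fun w => vhk (s / 2) (x - w) * vhk (s / 2) (w - z)) :=
            hm1.mul hm2
          rw [lintegral_mul_const _ hm4, vhk_conv hs2 hs2, add_halves]
        · exact (((measurable_vhk _).comp (by fun_prop : Measurable
            (fun p : Plane × Plane => x - p.1))).mul hmg).aemeasurable

theorem vT_cs (K : Set Plane) {s : ℝ} (hs : 0 < s) {f g : Plane → ℝ≥0∞} (hf : Measurable f)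
    (hg : Measurable g) : (∫⁻ x in K, f x * vT K s g x) ^ 2 ≤
      (∫⁻ x in K, f x * vT K s f x) * ∫⁻ x in K, g x * vT K s g x := by
  rw [form_eq K hs hf hg, form_eq K hs hf hf, form_eq K hs hg hg]
  have := cs_lintegral (μ := volume) (measurable_vT K (s / 2) hf) (measurable_vT K (s / 2) hg)
  simpa only [pow_two] using this

/-- Without killing. -/
theorem vT_iter_le (K : Set Plane) {s : ℝ} (hs : 0 < s) {n : ℕ} (hn : 1 ≤ n)
    {f : Plane → ℝ≥0∞} (hf : Measurable f) (x : Plane) :
    (vT K s)^[n] f x ≤ ∫⁻ z in K, vhk (n * s) (x - z) * f z := by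
  induction n, hn using Nat.le_induction generalizing x with
  | base => simp [vT]
  | succ n hn ih =>
    have hn0 : (0 : ℝ) < n := by exact_mod_cast hn
    have hns : 0 < (n : ℝ) * s := by positivity
    rw [Function.iterate_succ_apply']
    calc vT K s ((vT K s)^[n] f) x
        ≤ ∫⁻ z in K, vhk s (x - z) * ∫⁻ w in K, vhk (n * s) (z - w) * f w := by
          unfold vT
          gcongr with z
          exact ih z
      _ ≤ ∫⁻ z, vhk s (x - z) * ∫⁻ w in K, vhk (n * s) (z - w) * f w :=
          setLIntegral_le_lintegral _ _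
      _ = ∫⁻ z, ∫⁻ w in K, vhk s (x - z) * (vhk (n * s) (z - w) * f w) := by
          congr 1; ext z
          rw [lintegral_const_mul]
          exact ((measurable_vhk _).comp (by fun_prop)).mul hf
      _ = ∫⁻ w in K, ∫⁻ z, vhk s (x - z) * (vhk (n * s) (z - w) * f w) := by
          rw [lintegral_lintegral_swap]
          exact (((measurable_vhk _).comp (by fun_prop : Measurable
            (fun p : Plane × Plane => x - p.1))).mul ((measurable_vhk_sub _).mul
            (hf.comp measurable_snd))).aemeasurable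
      _ = ∫⁻ w in K, vhk ((n + 1 : ℕ) * s) (x - w) * f w := by
          congr 1; ext w
          have h3 : ∀ z, vhk s (x - z) * (vhk (n * s) (z - w) * f w) =
              (vhk s (x - z) * vhk (n * s) (z - w)) * f w := fun z => by ring
          have hm1 : Measurable (fun z => vhk s (x - z)) :=
            (measurable_vhk _).comp (by fun_prop)
          have hm2 : Measurable (fun z => vhk (n * s) (z - w)) :=
            (measurable_vhk _).comp (by fun_prop)
          simp_rw [h3]
          have hm4 : Measurable (fun z => vhk s (x - z) * vhk (n * s) (z - w)) :=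
            hm1.mul hm2
          rw [lintegral_mul_const _ hm4, vhk_conv hs hns]
          congr 2
          push_cast; ring

/-- The forms are dominated by the squared norm. -/
lemma form_le (K : Set Plane) {s : ℝ} (hs : 0 < s) (n : ℕ) {f : Plane → ℝ≥0∞}
    (hf : Measurable f) : ∫⁻ x in K, f x * (vT K s)^[n] f x ≤ ∫⁻ x in K, f x ^ 2 := by
  rcases Nat.eq_zero_or_pos n with rfl | hn
  · simp [pow_two]
  have hn0 : (0 : ℝ) < n := by exact_mod_cast hn
  have hns : 0 < (n : ℝ) * s := by positivity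
  have hmv : Measurable (fun p : Plane × Plane => vhk (n * s) (p.1 - p.2)) := measurable_vhk_sub _
  have hone : ∀ x, ∫⁻ z in K, vhk (n * s) (x - z) ≤ 1 := by
    intro x
    calc ∫⁻ z in K, vhk (n * s) (x - z) ≤ ∫⁻ z, vhk (n * s) (x - z) :=
          setLIntegral_le_lintegral _ _
      _ = ∫⁻ z, vhk (n * s) z := lintegral_sub_left_eq_self (fun z => vhk (n * s) z) x
      _ = 1 := lintegral_vhk hns
  have h1 : 2 * ∫⁻ x in K, f x * (vT K s)^[n] f x ≤ 2 * ∫⁻ x in K, f x ^ 2 := by
    calc 2 * ∫⁻ x in K, f x * (vT K s)^[n] f x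
        ≤ 2 * ∫⁻ x in K, f x * ∫⁻ z in K, vhk (n * s) (x - z) * f z := by
          gcongr with x
          exact vT_iter_le K hs hn hf x
      _ = ∫⁻ x in K, ∫⁻ z in K, vhk (n * s) (x - z) * (2 * f x * f z) := by
          have hm : Measurable (fun x => f x * ∫⁻ z in K, vhk (n * s) (x - z) * f z) :=
            hf.mul (measurable_vT K _ hf)
          rw [← lintegral_const_mul _ hm]
          congr 1; ext x
          have hm1 : Measurable (fun z => vhk (n * s) (x - z) * f z) :=
            ((measurable_vhk _).comp (by fun_prop)).mul hf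
          rw [← mul_assoc, ← lintegral_const_mul _ hm1]
          congr 1; ext z
          ring
      _ ≤ ∫⁻ x in K, ∫⁻ z in K, vhk (n * s) (x - z) * (f x ^ 2 + f z ^ 2) := by
          gcongr with x z
          exact two_mul_le_sq_add _ _
      _ = (∫⁻ x in K, ∫⁻ z in K, vhk (n * s) (x - z) * f x ^ 2) +
          ∫⁻ x in K, ∫⁻ z in K, vhk (n * s) (x - z) * f z ^ 2 := by
          have hm2 : Measurable (fun p : Plane × Plane => vhk (n * s) (p.1 - p.2) * f p.1 ^ 2) :=
            hmv.mul ((hf.comp measurable_fst).pow_const 2)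
          rw [← lintegral_add_left hm2.lintegral_prod_right']
          congr 1; ext x
          have hm1 : Measurable (fun z => vhk (n * s) (x - z) * f x ^ 2) :=
            ((measurable_vhk _).comp (by fun_prop)).mul measurable_const
          rw [← lintegral_add_left hm1]
          congr 1; ext z
          ring
      _ = (∫⁻ x in K, ∫⁻ z in K, vhk (n * s) (x - z) * f x ^ 2) +
          ∫⁻ z in K, ∫⁻ x in K, vhk (n * s) (x - z) * f z ^ 2 := by
          congr 1
          rw [lintegral_lintegral_swap]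
          exact (hmv.mul ((hf.comp measurable_snd).pow_const 2)).aemeasurable
      _ ≤ (∫⁻ x in K, f x ^ 2) + ∫⁻ z in K, f z ^ 2 := by
          gcongr with x x
          · have hm1 : Measurable (fun z => vhk (n * s) (x - z)) :=
              (measurable_vhk _).comp (by fun_prop)
            rw [lintegral_mul_const _ hm1]
            calc _ ≤ 1 * f x ^ 2 := by gcongr; exact hone x
              _ = _ := one_mul _
          · have hm1 : Measurable (fun z => vhk (n * s) (z - x)) :=
              (measurable_vhk _).comp (by fun_prop)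
            rw [lintegral_mul_const _ hm1]
            simp_rw [vhk_sub_comm _ _ x]
            calc _ ≤ 1 * f x ^ 2 := by gcongr; exact hone x
              _ = _ := one_mul _
      _ = _ := by rw [two_mul]
  exact (ENNReal.mul_le_mul_iff_right two_ne_zero ENNReal.ofNat_ne_top).mp h1

/-- Log-convexity. -/
lemma form_logconvex (K : Set Plane) {s : ℝ} (hs : 0 < s) (n : ℕ) {f : Plane → ℝ≥0∞}
    (hf : Measurable f) : (∫⁻ x in K, f x * (vT K s)^[n + 1] f x) ^ 2 ≤
      (∫⁻ x in K, f x * (vT K s)^[n] f x) * ∫⁻ x in K, f x * (vT K s)^[n + 2] f x := by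
  have key : ∀ a b : ℕ, ∫⁻ x in K, f x * (vT K s)^[a + b] f x =
      ∫⁻ x in K, (vT K s)^[a] f x * (vT K s)^[b] f x := by
    intro a b
    rw [Function.iterate_add_apply, vT_adj_iter K s a hf (measurable_vT_iter K s b hf)]
  rcases Nat.even_or_odd' n with ⟨m, rfl | rfl⟩
  · have e1 : 2 * m + 1 = m + (m + 1) := by ring
    have e0 : 2 * m = m + m := by ring
    have e2 : 2 * m + 2 = (m + 1) + (m + 1) := by ring
    rw [e2, e1, e0, key, key, key]
    have := cs_lintegral (μ := volume.restrict K) (measurable_vT_iter K s m hf)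
      (measurable_vT_iter K s (m + 1) hf)
    simpa only [pow_two] using this
  · have e1 : 2 * m + 1 + 1 = m + (1 + (m + 1)) := by ring
    have e0 : 2 * m + 1 = m + (1 + m) := by ring
    have e2 : 2 * m + 1 + 2 = (m + 1) + (1 + (m + 1)) := by ring
    rw [e2, e1, e0, key, key, key]
    simp only [Function.iterate_add_apply _ 1, Function.iterate_one]
    exact vT_cs K hs (measurable_vT_iter K s m hf) (measurable_vT_iter K s (m + 1) hf)

theorem vT_pow_ge (K : Set Plane) {s : ℝ} (hs : 0 < s) {f : Plane → ℝ≥0∞} (hf : Measurable f)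
    (h1 : ∫⁻ x in K, f x ^ 2 = 1) (n : ℕ) :
    (∫⁻ x in K, f x * vT K s f x) ^ n ≤ ∫⁻ x in K, f x * (vT K s)^[n] f x := by
  set a : ℕ → ℝ≥0∞ := fun n => ∫⁻ x in K, f x * (vT K s)^[n] f x with ha
  have a0 : a 0 = 1 := by
    simp only [ha, Function.iterate_zero, id]
    rw [← h1]; simp only [pow_two]
  have afin : ∀ n, a n ≠ ⊤ := by
    intro n
    have := form_le K hs n hf
    rw [h1] at this
    exact ne_top_of_le_ne_top ENNReal.one_ne_top this
  have alc : ∀ n, a (n + 1) ^ 2 ≤ a n * a (n + 2) := fun n => form_logconvex K hs n hf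
  have step : ∀ n, a 1 * a n ≤ a (n + 1) := by
    intro n
    induction n with
    | zero => rw [a0, mul_one]
    | succ n ih =>
      rcases eq_or_ne (a n) 0 with h0 | h0
      · have := alc n
        rw [h0, zero_mul] at this
        have : a (n + 1) = 0 := by simpa using this
        rw [this, mul_zero]; exact zero_le
      · have h2 : a n * (a 1 * a (n + 1)) ≤ a n * a (n + 1 + 1) := by
          calc a n * (a 1 * a (n + 1)) = (a 1 * a n) * a (n + 1) := by ring
            _ ≤ a (n + 1) * a (n + 1) := by gcongr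
            _ = a (n + 1) ^ 2 := by ring
            _ ≤ _ := alc n
        exact (ENNReal.mul_le_mul_iff_right h0 (afin n)).mp h2
  have main : ∀ n, a 1 ^ n ≤ a n := by
    intro n
    induction n with
    | zero => rw [a0, pow_zero]
    | succ n ih =>
      calc a 1 ^ (n + 1) = a 1 * a 1 ^ n := by ring
        _ ≤ a 1 * a n := by gcongr
        _ ≤ _ := step n
  exact main n

lemma norm_step (K : Set Plane) {s : ℝ} (hs : 0 < s) {κ : ℝ≥0∞}
    (hκ : κ ≠ 0) (h : ∀ f : Plane → ℝ≥0∞, Measurable f →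
      ∫⁻ x in K, f x * vT K s f x ≤ κ * ∫⁻ x in K, f x ^ 2) {f : Plane → ℝ≥0∞}
    (hf : Measurable f) :
    ∫⁻ x in K, vT K s f x ^ 2 ≤ κ ^ 2 * ∫⁻ x in K, f x ^ 2 := by
  rcases eq_or_ne (∫⁻ x in K, f x ^ 2) ⊤ with ht | ht
  · rw [ht, ENNReal.mul_top (pow_ne_zero 2 hκ)]; exact le_top
  have h2 : ∫⁻ x in K, f x * (vT K s)^[2] f x = ∫⁻ x in K, vT K s f x ^ 2 := by
    have := vT_adj K s hf (measurable_vT K s hf)
    simp only [pow_two]
    exact this
  have hfin : ∫⁻ x in K, vT K s f x ^ 2 ≠ ⊤ := by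
    rw [← h2]
    exact ne_top_of_le_ne_top ht (form_le K hs 2 hf)
  rcases eq_or_ne (∫⁻ x in K, vT K s f x ^ 2) 0 with h0 | h0
  · rw [h0]; exact zero_le
  have h3 := vT_cs K hs hf (measurable_vT K s hf)
  have h4 : ∫⁻ x in K, f x * vT K s (vT K s f) x = ∫⁻ x in K, vT K s f x ^ 2 := h2
  rw [h4] at h3
  have h5 : (∫⁻ x in K, vT K s f x ^ 2) * (∫⁻ x in K, vT K s f x ^ 2) ≤
      (∫⁻ x in K, vT K s f x ^ 2) * (κ ^ 2 * ∫⁻ x in K, f x ^ 2) := by
    calc (∫⁻ x in K, vT K s f x ^ 2) * (∫⁻ x in K, vT K s f x ^ 2)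
        = (∫⁻ x in K, vT K s f x ^ 2) ^ 2 := by ring
      _ ≤ (κ * ∫⁻ x in K, f x ^ 2) * (κ * ∫⁻ x in K, vT K s f x ^ 2) :=
          h3.trans (mul_le_mul' (h f hf) (h _ (measurable_vT K s hf)))
      _ = _ := by ring
  exact (ENNReal.mul_le_mul_iff_right h0 hfin).mp h5

theorem vT_pow_le {K : Set Plane} (hK : volume K ≠ ⊤) {s : ℝ} (hs : 0 < s) {κ : ℝ≥0∞}
    (hκ : κ ≠ 0) (h : ∀ f : Plane → ℝ≥0∞, Measurable f →
      ∫⁻ x in K, f x * vT K s f x ≤ κ * ∫⁻ x in K, f x ^ 2) (n : ℕ) {f : Plane → ℝ≥0∞}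
    (hf : Measurable f) :
    ∫⁻ x in K, f x * (vT K s)^[n] f x ≤ κ ^ n * ∫⁻ x in K, f x ^ 2 := by
  have hpow : ∀ m : ℕ, ∫⁻ x in K, (vT K s)^[m] f x ^ 2 ≤ κ ^ (2 * m) * ∫⁻ x in K, f x ^ 2 := by
    intro m
    induction m with
    | zero => simp
    | succ m ih =>
      have hst := norm_step K hs hκ h (measurable_vT_iter K s m hf)
      simp only [Function.iterate_succ_apply']
      calc ∫⁻ x in K, vT K s ((vT K s)^[m] f) x ^ 2
          ≤ κ ^ 2 * ∫⁻ x in K, (vT K s)^[m] f x ^ 2 := hst
        _ ≤ κ ^ 2 * (κ ^ (2 * m) * ∫⁻ x in K, f x ^ 2) := by gcongr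
        _ = _ := by rw [← mul_assoc, ← pow_add]; congr 2; ring
  have key : ∀ a b : ℕ, ∫⁻ x in K, f x * (vT K s)^[a + b] f x =
      ∫⁻ x in K, (vT K s)^[a] f x * (vT K s)^[b] f x := by
    intro a b
    rw [Function.iterate_add_apply, vT_adj_iter K s a hf (measurable_vT_iter K s b hf)]
  rcases Nat.even_or_odd' n with ⟨m, rfl | rfl⟩
  · have e0 : 2 * m = m + m := by ring
    have := hpow m
    simp only [pow_two] at this
    calc ∫⁻ x in K, f x * (vT K s)^[2 * m] f x
        = ∫⁻ x in K, (vT K s)^[m] f x * (vT K s)^[m] f x := by rw [e0, key]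
      _ ≤ _ := by simpa only [pow_two] using this
  · have e0 : 2 * m + 1 = m + (1 + m) := by ring
    calc ∫⁻ x in K, f x * (vT K s)^[2 * m + 1] f x
        = ∫⁻ x in K, (vT K s)^[m] f x * vT K s ((vT K s)^[m] f) x := by
          rw [e0, key]
          simp only [Function.iterate_add_apply _ 1, Function.iterate_one]
      _ ≤ κ * ∫⁻ x in K, (vT K s)^[m] f x ^ 2 := h _ (measurable_vT_iter K s m hf)
      _ ≤ κ * (κ ^ (2 * m) * ∫⁻ x in K, f x ^ 2) := by gcongr; exact hpow m
      _ = _ := by rw [← mul_assoc, pow_succ]; congr 1; ring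

end Pool.Agent.WSB71
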