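import Pool.Agent.WSB71.Defs

/-!
# V1: elementary properties of the principal eigenvalue `lam`

`lam U = inf {∫ ‖∇f‖² : f ∈ C¹_c(U), ∫ f² = 1}`.  Short proofs:
 * `exists_test`: a scaled `ContDiffBump`; hence the set in the definition of `lam` is nonempty;
 * `lam_anti`: inclusion of the sets of test functions;
 * `lam_trans`, `lam_smul`: change of variables (`integral_comp_smul`, in dimension two: for `g x = s⁻¹ f (s⁻¹ x)` one has
   `∫ g² = ∫ f²`, `∫ ‖∇g‖² = s⁻² ∫ ‖∇f‖²`);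
 * `lam_slab`: `∫ f² = ∫ f² ∂_u g = - ∫ 2 f (∂_u f) g`, `g = ⟨u, x⟩ - a`, `|g| ≤ w` on the support of `f`. -/

open MeasureTheory Filter Topology
open scoped NNReal ENNReal Pointwise

namespace Pool.Agent.WSB71

open Pool.Agent.LT

theorem exists_test {U : Set Plane} (hU : IsOpen U) (hne : U.Nonempty) :
    ∃ f : Plane → ℝ, ContDiff ℝ 1 f ∧ HasCompactSupport f ∧ tsupport f ⊆ U ∧ ∫ x, f x ^ 2 = 1 := by
  obtain ⟨x, hx⟩ := hne
  obtain ⟨r, hr, hrU⟩ := Metric.nhds_basis_closedBall.mem_iff.1 (hU.mem_nhds hx)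
  set b : ContDiffBump x := ⟨r / 2, r, by positivity, by linarith⟩ with hb
  have hbc : ContDiff ℝ 1 (b : Plane → ℝ) := b.contDiff
  have hbs : HasCompactSupport (b : Plane → ℝ) := b.hasCompactSupport
  have hbt : tsupport (b : Plane → ℝ) ⊆ U := by
    rw [b.tsupport_eq]
    exact hrU
  have hI : 0 < ∫ y, (b y) ^ 2 := by
    have h1 : Continuous fun y => (b y) ^ 2 := b.continuous.pow 2
    have h2 : HasCompactSupport fun y => (b y) ^ 2 :=
      hbs.comp_left (g := fun t : ℝ => t ^ 2) (by norm_num)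
    refine h1.integral_pos_of_hasCompactSupport_nonneg_nonzero h2 (fun y => sq_nonneg _) (x := x) ?_
    have h3 : b x = 1 := b.one_of_mem_closedBall (Metric.mem_closedBall_self b.rIn_pos.le)
    simp only [h3]
    norm_num
  set I : ℝ := ∫ y, (b y) ^ 2 with hIdef
  refine ⟨fun y => (Real.sqrt I)⁻¹ * b y, contDiff_const.mul hbc, ?_, ?_, ?_⟩
  · exact hbs.mul_left
  · refine (closure_mono ?_).trans hbt
    intro y hy
    simp only [Function.mem_support] at hy ⊢
    exact right_ne_zero_of_mul hy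
  · have h4 : ∀ y, ((Real.sqrt I)⁻¹ * b y) ^ 2 = I⁻¹ * (b y) ^ 2 := by
      intro y
      rw [mul_pow, inv_pow, Real.sq_sqrt hI.le]
    simp only [h4]
    rw [integral_const_mul, ← hIdef]
    exact inv_mul_cancel₀ hI.ne'

/-- the set of values of the Rayleigh quotient -/
def lamSet (U : Set Plane) : Set ℝ :=
  {r | ∃ f : Plane → ℝ, ContDiff ℝ 1 f ∧ HasCompactSupport f ∧ tsupport f ⊆ U ∧
    ∫ x, f x ^ 2 = 1 ∧ r = ∫ x, ‖fderiv ℝ f x‖ ^ 2}

theorem lam_eq (U : Set Plane) : lam U = sInf (lamSet U) := rfl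

theorem lamSet_nonneg {U : Set Plane} {r : ℝ} (hr : r ∈ lamSet U) : 0 ≤ r := by
  obtain ⟨f, -, -, -, -, rfl⟩ := hr
  exact integral_nonneg fun x => by positivity

theorem lamSet_bdd (U : Set Plane) : BddBelow (lamSet U) := ⟨0, fun _ hr => lamSet_nonneg hr⟩

theorem lamSet_nonempty {U : Set Plane} (hU : IsOpen U) (hne : U.Nonempty) :
    (lamSet U).Nonempty := by
  obtain ⟨f, h1, h2, h3, h4⟩ := exists_test hU hne
  exact ⟨_, f, h1, h2, h3, h4, rfl⟩

theorem lam_nonneg (U : Set Plane) : 0 ≤ lam U :=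
  Real.sInf_nonneg fun _ hr => lamSet_nonneg hr

/-- Approximate minimisers. -/
theorem exists_near {U : Set Plane} (hU : IsOpen U) (hne : U.Nonempty) {ε : ℝ} (hε : 0 < ε) :
    ∃ f : Plane → ℝ, ContDiff ℝ 1 f ∧ HasCompactSupport f ∧ tsupport f ⊆ U ∧
      ∫ x, f x ^ 2 = 1 ∧ ∫ x, ‖fderiv ℝ f x‖ ^ 2 ≤ lam U + ε := by
  obtain ⟨r, ⟨f, h1, h2, h3, h4, rfl⟩, hr⟩ :=
    Real.lt_sInf_add_pos (lamSet_nonempty hU hne) hε
  exact ⟨f, h1, h2, h3, h4, hr.le⟩

theorem lam_anti {U U' : Set Plane} (hU : IsOpen U) (hne : U.Nonempty) (h : U ⊆ U') :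
    lam U' ≤ lam U := by
  refine csInf_le_csInf (lamSet_bdd U') (lamSet_nonempty hU hne) ?_
  rintro r ⟨f, h1, h2, h3, h4, h5⟩
  exact ⟨f, h1, h2, h3.trans h, h4, h5⟩

theorem lamSet_trans_le (U : Set Plane) (z : Plane) :
    lamSet U ⊆ lamSet ((fun p => z + p) '' U) := by
  rintro r ⟨f, h1, h2, h3, h4, rfl⟩
  have hts : tsupport (fun x => f (x - z)) = (Homeomorph.subRight z) ⁻¹' tsupport f :=
    tsupport_comp_eq_preimage f (Homeomorph.subRight z)
  refine ⟨fun x => f (x - z), h1.comp (contDiff_id.sub contDiff_const), ?_, ?_, ?_, ?_⟩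
  · exact h2.comp_homeomorph (Homeomorph.subRight z)
  · rw [hts]
    intro x hx
    exact ⟨x - z, h3 hx, by simp⟩
  · rw [integral_sub_right_eq_self (fun x => f x ^ 2) z]
    exact h4
  · simp only [fderiv_comp_sub]
    rw [integral_sub_right_eq_self (fun x => ‖fderiv ℝ f x‖ ^ 2) z]

theorem lam_trans (U : Set Plane) (z : Plane) : lam ((fun p => z + p) '' U) = lam U := by
  rw [lam_eq, lam_eq]
  congr 1
  refine Set.Subset.antisymm ?_ (lamSet_trans_le U z)
  have h := lamSet_trans_le ((fun p => z + p) '' U) (-z)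
  have e : (fun p => -z + p) '' ((fun p => z + p) '' U) = U := by
    rw [Set.image_image]
    simp
  rwa [e] at h

theorem lamSet_smul_le (U : Set Plane) {s : ℝ} (hs : 0 < s) {r : ℝ} (hr : r ∈ lamSet U) :
    (s ^ 2)⁻¹ * r ∈ lamSet (s • U) := by
  obtain ⟨f, h1, h2, h3, h4, rfl⟩ := hr
  have hs' : s ≠ 0 := hs.ne'
  have hts : tsupport (fun x : Plane => f (s⁻¹ • x)) =
      (Homeomorph.smulOfNeZero s⁻¹ (inv_ne_zero hs')) ⁻¹' tsupport f :=
    tsupport_comp_eq_preimage f (Homeomorph.smulOfNeZero s⁻¹ (inv_ne_zero hs'))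
  have hc : HasCompactSupport (fun x : Plane => f (s⁻¹ • x)) :=
    h2.comp_homeomorph (Homeomorph.smulOfNeZero s⁻¹ (inv_ne_zero hs'))
  have hd : ContDiff ℝ 1 (fun x : Plane => f (s⁻¹ • x)) := h1.comp (contDiff_const_smul _)
  have hfin : Module.finrank ℝ Plane = 2 := by simp
  refine ⟨fun x => s⁻¹ * f (s⁻¹ • x), contDiff_const.mul hd, hc.mul_left, ?_, ?_, ?_⟩
  · refine (closure_mono (t := Function.support fun x : Plane => f (s⁻¹ • x)) ?_).trans ?_
    · intro y hy
      simp only [Function.mem_support] at hy ⊢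
      exact right_ne_zero_of_mul hy
    · change tsupport (fun x : Plane => f (s⁻¹ • x)) ⊆ s • U
      rw [hts]
      intro x hx
      exact ⟨s⁻¹ • x, h3 hx, by simp [smul_smul, mul_inv_cancel₀ hs']⟩
  · have e : ∀ x : Plane, (s⁻¹ * f (s⁻¹ • x)) ^ 2 = (s ^ 2)⁻¹ * (fun y => f y ^ 2) (s⁻¹ • x) := by
      intro x
      simp only
      rw [mul_pow, inv_pow]
    simp only [e]
    rw [integral_const_mul, Measure.integral_comp_inv_smul_of_nonneg _ (fun y => f y ^ 2) hs.le, h4, hfin]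
    simp only [smul_eq_mul, mul_one]
    exact inv_mul_cancel₀ (by positivity)
  · have hfd : ∀ x : Plane, fderiv ℝ (fun x : Plane => s⁻¹ * f (s⁻¹ • x)) x =
        s⁻¹ • s⁻¹ • fderiv ℝ f (s⁻¹ • x) := by
      intro x
      have e1 : DifferentiableAt ℝ (fun x : Plane => f (s⁻¹ • x)) x :=
        (hd.differentiable one_ne_zero) x
      rw [fderiv_const_mul e1, fderiv_comp_smul]
    have e : ∀ x : Plane, ‖fderiv ℝ (fun x : Plane => s⁻¹ * f (s⁻¹ • x)) x‖ ^ 2 =
        (s ^ 2)⁻¹ * ((s ^ 2)⁻¹ * (fun y => ‖fderiv ℝ f y‖ ^ 2) (s⁻¹ • x)) := by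
      intro x
      rw [hfd, norm_smul, norm_smul, Real.norm_of_nonneg (inv_nonneg.2 hs.le)]
      simp only
      ring
    simp only [e]
    rw [integral_const_mul, integral_const_mul,
      Measure.integral_comp_inv_smul_of_nonneg _ (fun y => ‖fderiv ℝ f y‖ ^ 2) hs.le, hfin]
    simp only [smul_eq_mul]
    rw [← mul_assoc (s ^ 2)⁻¹ (s ^ 2), inv_mul_cancel₀ (by positivity), one_mul]

theorem lam_smul (U : Set Plane) {s : ℝ} (hs : 0 < s) : lam (s • U) = (s ^ 2)⁻¹ * lam U := by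
  have h : lamSet (s • U) = (s ^ 2)⁻¹ • lamSet U := by
    refine Set.Subset.antisymm ?_ ?_
    · intro r hr
      have h1 := lamSet_smul_le (s • U) (inv_pos.2 hs) hr
      rw [smul_smul, inv_mul_cancel₀ hs.ne', one_smul] at h1
      refine ⟨_, h1, ?_⟩
      simp only [smul_eq_mul]
      field_simp
    · rintro _ ⟨r, hr, rfl⟩
      exact lamSet_smul_le U hs hr
  rw [lam_eq, h, Real.sInf_smul_of_nonneg (by positivity), lam_eq, smul_eq_mul]

theorem lam_slab : ∃ c : ℝ, 0 < c ∧ ∀ U : Set Plane, IsOpen U → U.Nonempty → ∀ (u : Plane) (a w : ℝ),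
    ‖u‖ = 1 → 0 < w → (∀ x ∈ U, |inner ℝ u x - a| ≤ w) → c / w ^ 2 ≤ lam U := by
  refine ⟨1 / 4, by norm_num, ?_⟩
  intro U hU hne u a w hu hw hUw
  refine le_csInf (lamSet_nonempty hU hne) ?_
  rintro r ⟨f, h1, h2, h3, h4, rfl⟩
  set g : Plane → ℝ := fun x => inner ℝ u x - a with hg
  have hgd : Differentiable ℝ g := by
    intro x
    exact ((innerSL ℝ u).differentiableAt).sub_const a
  have hgf : ∀ x, fderiv ℝ g x u = 1 := by
    intro x
    have e : HasFDerivAt g (innerSL ℝ u) x := ((innerSL ℝ u).hasFDerivAt).sub_const a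
    rw [e.fderiv, innerSL_apply_apply, real_inner_self_eq_norm_sq, hu]
    norm_num
  have hgc : Continuous g := hgd.continuous
  have hfd : Differentiable ℝ f := h1.differentiable one_ne_zero
  have hfc : Continuous f := h1.continuous
  have hdc : Continuous (fderiv ℝ f) := h1.continuous_fderiv one_ne_zero
  have hF : ∀ x, fderiv ℝ (fun x => f x ^ 2) x u = 2 * f x * fderiv ℝ f x u := by
    intro x
    have e : HasFDerivAt (fun x => f x ^ 2) ((2 * f x) • fderiv ℝ f x) x := by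
      have := (hfd x).hasFDerivAt.pow 2
      simpa using this
    rw [e.fderiv]
    simp
  have hF2 : Differentiable ℝ fun x => f x ^ 2 := hfd.pow 2
  have hcs : HasCompactSupport fun x => f x ^ 2 :=
    h2.comp_left (g := fun t : ℝ => t ^ 2) (by norm_num)
  have hcd : HasCompactSupport (fderiv ℝ f) := h2.fderiv ℝ
  have hdu : Continuous fun x => fderiv ℝ f x u := hdc.clm_apply continuous_const
  have i1 : Integrable fun x => fderiv ℝ (fun x => f x ^ 2) x u * g x := by
    simp only [hF]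
    refine Continuous.integrable_of_hasCompactSupport ?_ ?_
    · exact ((continuous_const.mul hfc).mul hdu).mul hgc
    · refine h2.mono ?_
      intro x hx
      simp only [Function.mem_support] at hx ⊢
      intro h0
      apply hx
      rw [h0]
      ring
  have i0 : Integrable fun x => f x ^ 2 := (hfc.pow 2).integrable_of_hasCompactSupport hcs
  have i2 : Integrable fun x => f x ^ 2 * fderiv ℝ g x u := by
    simp only [hgf, mul_one]
    exact i0
  have i3 : Integrable fun x => f x ^ 2 * g x := by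
    refine Continuous.integrable_of_hasCompactSupport ((hfc.pow 2).mul hgc) ?_
    exact hcs.mul_right
  have hip := integral_mul_fderiv_eq_neg_fderiv_mul_of_integrable (v := u) i1 i2 i3
    (fun x _ => hF2 x) (fun x _ => hgd x)
  simp only [hgf, mul_one, h4, hF] at hip
  have i4 : Integrable fun x => ‖fderiv ℝ f x‖ ^ 2 := by
    refine Continuous.integrable_of_hasCompactSupport (hdc.norm.pow 2) ?_
    exact hcd.comp_left (g := fun L : Plane →L[ℝ] ℝ => ‖L‖ ^ 2) (by simp)
  have i5 : Integrable fun x => 2 * f x * fderiv ℝ f x u * g x := by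
    have := i1
    simpa only [hF] using this
  have hpt : ∀ x, -(2 * f x * fderiv ℝ f x u * g x) ≤
      1 / 2 * f x ^ 2 + 2 * w ^ 2 * ‖fderiv ℝ f x‖ ^ 2 := by
    intro x
    have h5 : -(2 * f x * fderiv ℝ f x u * g x) ≤
        1 / 2 * f x ^ 2 + 2 * (fderiv ℝ f x u * g x) ^ 2 := by
      nlinarith [sq_nonneg (f x + 2 * (fderiv ℝ f x u * g x))]
    have h6 : (fderiv ℝ f x u * g x) ^ 2 ≤ w ^ 2 * ‖fderiv ℝ f x‖ ^ 2 := by
      by_cases hx : x ∈ tsupport f
      · have h7 : |g x| ≤ w := hUw x (h3 hx)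
        have h8 : |fderiv ℝ f x u| ≤ ‖fderiv ℝ f x‖ := by
          have := (fderiv ℝ f x).le_opNorm u
          rwa [hu, mul_one, Real.norm_eq_abs] at this
        rw [mul_comm (fderiv ℝ f x u), mul_pow, ← sq_abs (g x), ← sq_abs (fderiv ℝ f x u)]
        exact mul_le_mul (pow_le_pow_left₀ (abs_nonneg _) h7 2)
          (pow_le_pow_left₀ (abs_nonneg _) h8 2) (by positivity) (by positivity)
      · have h9 : fderiv ℝ f x = 0 := by
          by_contra hne0
          exact hx (support_fderiv_subset ℝ hne0)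
        rw [h9]
        simp
    linarith
  have hint : ∫ x, -(2 * f x * fderiv ℝ f x u * g x) ≤
      ∫ x, (1 / 2 * f x ^ 2 + 2 * w ^ 2 * ‖fderiv ℝ f x‖ ^ 2) :=
    integral_mono i5.neg ((i0.const_mul _).add (i4.const_mul _)) hpt
  rw [integral_neg, ← hip, integral_add (i0.const_mul _) (i4.const_mul _), integral_const_mul,
    integral_const_mul, h4] at hint
  rw [div_le_iff₀ (by positivity)]
  linarith

end Pool.Agent.WSB71
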