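import Pool.Agent.WSB71.VCore

/-!
# V6b: the mass in the core, lower bounds for `vA`

`vcore_mass`: `g = T_{K'}^n f` satisfies `∫_{K'} g² = ∫_{K'} f T^{2n} f ≥ (1 - sΛ)^{2n} ≥ c₀` (`vT_pow_ge`, `vT_adj_iter`, `s Λ ≤ 1/2`,
`n s = τ`), `g ≤ C` everywhere (`vT_iter_le`, Cauchy-Schwarz, `∫ (vhk τ)² < ∞`), so
`∫_{vcore K r} g ≥ C⁻¹ ∫_{vcore K r ∩ K'} g² ≥ C⁻¹ (c₀ - C² vol (K ∖ vcore K r))`. -/

open MeasureTheory Filter Topology
open scoped NNReal ENNReal Pointwise

namespace Pool.Agent.WSB71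

open Pool.Agent.LT

/-- Cauchy-Schwarz for `lintegral`. -/
theorem vmass_cs {α : Type*} [MeasurableSpace α] (μ : Measure α) {f g : α → ℝ≥0∞}
    (hf : AEMeasurable f μ) (hg : AEMeasurable g μ) :
    (∫⁻ x, f x * g x ∂μ) ^ 2 ≤ (∫⁻ x, f x ^ 2 ∂μ) * ∫⁻ x, g x ^ 2 ∂μ := by
  have hpq : Real.HolderConjugate 2 2 := Real.HolderConjugate.two_two
  have h := ENNReal.lintegral_mul_le_Lp_mul_Lq μ hpq hf hg
  have h2 : (∫⁻ x, f x * g x ∂μ) ^ 2 ≤
      ((∫⁻ x, f x ^ (2 : ℝ) ∂μ) ^ (1 / (2 : ℝ)) * (∫⁻ x, g x ^ (2 : ℝ) ∂μ) ^ (1 / (2 : ℝ))) ^ 2 := by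
    gcongr
    exact h
  refine h2.trans (le_of_eq ?_)
  rw [mul_pow, ← ENNReal.rpow_natCast, ← ENNReal.rpow_natCast, ← ENNReal.rpow_mul,
    ← ENNReal.rpow_mul]
  norm_num

theorem measurable_vA (K : Set Plane) (s : ℝ) (n : ℕ) {cs : List (Set Plane)}
    (hcm : ∀ c ∈ cs, MeasurableSet c) {f : Plane → ℝ≥0∞} (hf : Measurable f) :
    Measurable (vA K s n cs f) := by
  induction cs with
  | nil => exact measurable_vT_iter K s n hf
  | cons c cs ih =>
    exact measurable_vT_iter K s n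
      ((ih fun d hd => hcm d (List.mem_cons_of_mem _ hd)).indicator (hcm c List.mem_cons_self))

theorem vA_concat (K : Set Plane) (s : ℝ) (n : ℕ) (cs : List (Set Plane)) (c : Set Plane)
    (f : Plane → ℝ≥0∞) :
    vA K s n (cs ++ [c]) f = vA K s n cs (c.indicator ((vT K s)^[n] f)) := by
  induction cs with
  | nil => rfl
  | cons d cs ih =>
    change (vT K s)^[n] (d.indicator (vA K s n (cs ++ [c]) f)) =
      (vT K s)^[n] (d.indicator (vA K s n cs (c.indicator ((vT K s)^[n] f))))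
    rw [ih]

theorem vA_adj (K : Set Plane) (s : ℝ) (n : ℕ) {cs : List (Set Plane)}
    (hcm : ∀ c ∈ cs, MeasurableSet c) {f g : Plane → ℝ≥0∞} (hf : Measurable f)
    (hg : Measurable g) :
    ∫⁻ x in K, f x * vA K s n cs g x = ∫⁻ x in K, vA K s n cs.reverse f x * g x := by
  induction cs generalizing f with
  | nil => exact vT_adj_iter K s n hf hg
  | cons c cs ih =>
    have hcm' : ∀ d ∈ cs, MeasurableSet d := fun d hd => hcm d (List.mem_cons_of_mem _ hd)
    have hc : MeasurableSet c := hcm c List.mem_cons_self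
    have hA : Measurable (vA K s n cs g) := measurable_vA K s n hcm' hg
    have hTf : Measurable ((vT K s)^[n] f) := measurable_vT_iter K s n hf
    rw [List.reverse_cons, vA_concat, ← ih hcm' (hTf.indicator hc)]
    change ∫⁻ x in K, f x * (vT K s)^[n] (c.indicator (vA K s n cs g)) x = _
    rw [vT_adj_iter K s n hf (hA.indicator hc)]
    refine lintegral_congr fun x => ?_
    by_cases hx : x ∈ c
    · simp [Set.indicator_of_mem hx]
    · simp [Set.indicator_of_notMem hx]

/-- Iterate the kernel bound along the list (induction on the list). -/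
theorem vA_low {K : Set Plane} {r s : ℝ} {n : ℕ} (hr : 0 ≤ r) (hm : MeasurableSet (vcore K r))
    {κ v : ℝ≥0∞}
    (hκ : ∀ f : Plane → ℝ≥0∞, Measurable f → ∀ x ∈ vcore K r,
      κ * ∫⁻ z in vcore K r, f z ≤ (vT K s)^[n] f x)
    {cs : List (Set Plane)} (hcm : ∀ c ∈ cs, MeasurableSet c)
    (hcs : ∀ c ∈ cs, v ≤ volume (vcore K r ∩ c)) {f : Plane → ℝ≥0∞} (hf : Measurable f) :
    ∀ x ∈ vcore K r, κ ^ (cs.length + 1) * v ^ cs.length * ∫⁻ z in vcore K r, f z ≤
      vA K s n cs f x := by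
  induction cs with
  | nil =>
    intro x hx
    simpa [vA] using hκ f hf x hx
  | cons c cs ih =>
    intro x hx
    have hcm' : ∀ d ∈ cs, MeasurableSet d := fun d hd => hcm d (List.mem_cons_of_mem _ hd)
    have hc : MeasurableSet c := hcm c List.mem_cons_self
    have hv : v ≤ volume (vcore K r ∩ c) := hcs c List.mem_cons_self
    have ih' := ih hcm' (fun d hd => hcs d (List.mem_cons_of_mem _ hd))
    have hA : Measurable (vA K s n cs f) := measurable_vA K s n hcm' hf
    change _ ≤ (vT K s)^[n] (c.indicator (vA K s n cs f)) x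
    refine le_trans ?_ (hκ _ (hA.indicator hc) x hx)
    have h1 : ∫⁻ z in vcore K r ∩ c, (κ ^ (cs.length + 1) * v ^ cs.length *
        ∫⁻ z in vcore K r, f z) ≤ ∫⁻ z in vcore K r, c.indicator (vA K s n cs f) z := by
      rw [lintegral_indicator hc, Measure.restrict_restrict hc, Set.inter_comm c]
      exact setLIntegral_mono' (hm.inter hc) fun z hz => ih' z hz.1
    rw [setLIntegral_const] at h1
    calc κ ^ ((c :: cs).length + 1) * v ^ (c :: cs).length * ∫⁻ z in vcore K r, f z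
        = κ * (κ ^ (cs.length + 1) * v ^ cs.length * (∫⁻ z in vcore K r, f z) * v) := by
          simp only [List.length_cons]; ring
      _ ≤ κ * (κ ^ (cs.length + 1) * v ^ cs.length * (∫⁻ z in vcore K r, f z) *
            volume (vcore K r ∩ c)) := by gcongr
      _ ≤ _ := by gcongr

theorem vA_mono (K : Set Plane) (s : ℝ) (n : ℕ) (cs : List (Set Plane))
    {f g : Plane → ℝ≥0∞} (hfg : ∀ x, f x ≤ g x) (x : Plane) :
    vA K s n cs f x ≤ vA K s n cs g x := by
  induction cs generalizing x with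
  | nil => exact vT_iter_mono subset_rfl s n hfg x
  | cons c cs ih =>
    change (vT K s)^[n] (c.indicator (vA K s n cs f)) x ≤
      (vT K s)^[n] (c.indicator (vA K s n cs g)) x
    exact vT_iter_mono subset_rfl s n
      (fun y => Set.indicator_le_indicator (ih y)) x

theorem vT_iter_smul (K : Set Plane) (s : ℝ) (n : ℕ) {M : ℝ≥0∞} (hM : M ≠ ⊤)
    (f : Plane → ℝ≥0∞) : (vT K s)^[n] (fun x => M * f x) = fun x => M * (vT K s)^[n] f x := by
  induction n with
  | zero => rfl
  | succ n ih =>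
    rw [Function.iterate_succ_apply', ih, Function.iterate_succ_apply']
    funext x
    unfold vT
    rw [← lintegral_const_mul' _ _ hM]
    refine lintegral_congr fun z => ?_
    ring

theorem vA_smul (K : Set Plane) (s : ℝ) (n : ℕ) (cs : List (Set Plane)) {M : ℝ≥0∞}
    (hM : M ≠ ⊤) (f : Plane → ℝ≥0∞) :
    vA K s n cs (fun x => M * f x) = fun x => M * vA K s n cs f x := by
  induction cs with
  | nil => exact vT_iter_smul K s n hM f
  | cons c cs ih =>
    change (vT K s)^[n] (c.indicator (vA K s n cs (fun x => M * f x))) =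
      fun x => M * (vT K s)^[n] (c.indicator (vA K s n cs f)) x
    rw [← vT_iter_smul K s n hM, ih]
    congr 1
    funext x
    by_cases hx : x ∈ c
    · simp [Set.indicator_of_mem hx]
    · simp [Set.indicator_of_notMem hx]

theorem measurable_vW (K : Set Plane) (s : ℝ) (n : ℕ) {cs : List (Set Plane)}
    (hcm : ∀ c ∈ cs, MeasurableSet c) (γ : ℝ≥0∞) {f : Plane → ℝ≥0∞} (hf : Measurable f) :
    Measurable (vW K s n cs γ f) := by
  unfold vW
  exact (measurable_vT_iter K s _ hf).add ((measurable_vA K s n hcm hf).const_mul γ)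

theorem measurable_vW_iter (K : Set Plane) (s : ℝ) (n : ℕ) {cs : List (Set Plane)}
    (hcm : ∀ c ∈ cs, MeasurableSet c) (γ : ℝ≥0∞) (m : ℕ) {f : Plane → ℝ≥0∞}
    (hf : Measurable f) : Measurable ((vW K s n cs γ)^[m] f) := by
  induction m with
  | zero => exact hf
  | succ m ih =>
    rw [Function.iterate_succ_apply']
    exact measurable_vW K s n hcm γ ih

theorem vW_iter_mono (K : Set Plane) (s : ℝ) (n : ℕ) (cs : List (Set Plane)) (γ : ℝ≥0∞)
    (m : ℕ) {f g : Plane → ℝ≥0∞} (hfg : ∀ x, f x ≤ g x) (x : Plane) :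
    (vW K s n cs γ)^[m] f x ≤ (vW K s n cs γ)^[m] g x := by
  induction m generalizing x with
  | zero => exact hfg x
  | succ m ih =>
    rw [Function.iterate_succ_apply', Function.iterate_succ_apply']
    unfold vW at ih ⊢
    gcongr
    · exact vT_iter_mono subset_rfl s _ ih x
    · exact vA_mono K s n cs ih x

theorem vW_iter_smul (K : Set Plane) (s : ℝ) (n : ℕ) (cs : List (Set Plane)) (γ : ℝ≥0∞)
    (m : ℕ) {M : ℝ≥0∞} (hM : M ≠ ⊤) (f : Plane → ℝ≥0∞) :
    (vW K s n cs γ)^[m] (fun x => M * f x) = fun x => M * (vW K s n cs γ)^[m] f x := by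
  induction m with
  | zero => rfl
  | succ m ih =>
    rw [Function.iterate_succ_apply', ih, Function.iterate_succ_apply']
    funext x
    change (vT K s)^[(cs.length + 1) * n] (fun x => M * (vW K s n cs γ)^[m] f x) x +
      γ * vA K s n cs (fun x => M * (vW K s n cs γ)^[m] f x) x =
      M * ((vT K s)^[(cs.length + 1) * n] ((vW K s n cs γ)^[m] f) x +
      γ * vA K s n cs ((vW K s n cs γ)^[m] f) x)
    rw [vT_iter_smul K s _ hM, vA_smul K s n cs hM]
    ring

theorem vW_adj (K : Set Plane) (s : ℝ) (n : ℕ) {cs : List (Set Plane)}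
    (hcm : ∀ c ∈ cs, MeasurableSet c) (hrev : cs.reverse = cs) (γ : ℝ≥0∞)
    {f g : Plane → ℝ≥0∞} (hf : Measurable f) (hg : Measurable g) :
    ∫⁻ x in K, f x * vW K s n cs γ g x = ∫⁻ x in K, vW K s n cs γ f x * g x := by
  have e1 : ∀ x, f x * vW K s n cs γ g x =
      f x * (vT K s)^[(cs.length + 1) * n] g x + γ * (f x * vA K s n cs g x) := by
    intro x
    unfold vW
    ring
  have e2 : ∀ x, vW K s n cs γ f x * g x =
      (vT K s)^[(cs.length + 1) * n] f x * g x + γ * (vA K s n cs f x * g x) := by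
    intro x
    unfold vW
    ring
  simp_rw [e1, e2]
  have m1 : Measurable fun x => f x * (vT K s)^[(cs.length + 1) * n] g x :=
    hf.mul (measurable_vT_iter K s _ hg)
  have m2 : Measurable fun x => (vT K s)^[(cs.length + 1) * n] f x * g x :=
    (measurable_vT_iter K s _ hf).mul hg
  have m3 : Measurable fun x => f x * vA K s n cs g x := hf.mul (measurable_vA K s n hcm hg)
  have m4 : Measurable fun x => vA K s n cs f x * g x := (measurable_vA K s n hcm hf).mul hg
  rw [lintegral_add_left m1, lintegral_add_left m2, lintegral_const_mul _ m3,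
    lintegral_const_mul _ m4, vT_adj_iter K s _ hf hg, vA_adj K s n hcm hf hg, hrev]

theorem vW_adj_iter (K : Set Plane) (s : ℝ) (n : ℕ) {cs : List (Set Plane)}
    (hcm : ∀ c ∈ cs, MeasurableSet c) (hrev : cs.reverse = cs) (γ : ℝ≥0∞) (m : ℕ)
    {f g : Plane → ℝ≥0∞} (hf : Measurable f) (hg : Measurable g) :
    ∫⁻ x in K, f x * (vW K s n cs γ)^[m] g x = ∫⁻ x in K, (vW K s n cs γ)^[m] f x * g x := by
  induction m generalizing f with
  | zero => rfl
  | succ m ih =>
    rw [Function.iterate_succ_apply', Function.iterate_succ_apply,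
      vW_adj K s n hcm hrev γ hf (measurable_vW_iter K s n hcm γ m hg),
      ih (measurable_vW K s n hcm γ hf)]

/-- Growth of the tilted windows: `W` is symmetric; Cauchy-Schwarz `⟨f, W^{2m} f⟩ = ‖W^m f‖² ≥ ⟨f, W^m f⟩²`,
and `1 ≥ f / M`. -/
theorem vW_low {K : Set Plane} (hKm : MeasurableSet K) {s : ℝ} {n : ℕ} {cs : List (Set Plane)}
    (hcm : ∀ c ∈ cs, MeasurableSet c) (hrev : cs.reverse = cs) {γ : ℝ≥0∞} {f : Plane → ℝ≥0∞}
    (hf : Measurable f) (h1 : ∫⁻ x in K, f x ^ 2 = 1) {M : ℝ≥0∞} (hMt : M ≠ ⊤)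
    (hM : ∀ x, f x ≤ M) (i : ℕ) :
    (∫⁻ x in K, f x * vW K s n cs γ f x) ^ (2 ^ i) ≤
      M ^ 2 * ∫⁻ x in K, (vW K s n cs γ)^[2 ^ i] (fun _ => 1) x := by
  have key : ∀ i : ℕ, (∫⁻ x in K, f x * vW K s n cs γ f x) ^ (2 ^ i) ≤
      ∫⁻ x in K, f x * (vW K s n cs γ)^[2 ^ i] f x := by
    intro i
    induction i with
    | zero => simp
    | succ i ih =>
      have hm := measurable_vW_iter K s n hcm γ (2 ^ i) hf
      rw [pow_succ 2 i, pow_mul]
      calc ((∫⁻ x in K, f x * vW K s n cs γ f x) ^ (2 ^ i)) ^ 2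
          ≤ (∫⁻ x in K, f x * (vW K s n cs γ)^[2 ^ i] f x) ^ 2 := by gcongr
        _ ≤ (∫⁻ x in K, f x ^ 2) * ∫⁻ x in K, ((vW K s n cs γ)^[2 ^ i] f x) ^ 2 :=
            vmass_cs _ hf.aemeasurable hm.aemeasurable
        _ = ∫⁻ x in K, (vW K s n cs γ)^[2 ^ i] f x * (vW K s n cs γ)^[2 ^ i] f x := by
            rw [h1, one_mul]
            refine lintegral_congr fun x => ?_
            rw [_root_.sq]
        _ = ∫⁻ x in K, f x * (vW K s n cs γ)^[2 ^ i] ((vW K s n cs γ)^[2 ^ i] f) x := by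
            rw [vW_adj_iter K s n hcm hrev γ (2 ^ i) hf hm]
        _ = ∫⁻ x in K, f x * (vW K s n cs γ)^[2 ^ i * 2] f x := by
            rw [← Function.iterate_add_apply, mul_two]
  have hm1 := measurable_vW_iter K s n hcm γ (2 ^ i) (measurable_const (a := (1 : ℝ≥0∞)))
  calc (∫⁻ x in K, f x * vW K s n cs γ f x) ^ (2 ^ i)
      ≤ ∫⁻ x in K, f x * (vW K s n cs γ)^[2 ^ i] f x := key i
    _ ≤ ∫⁻ x in K, M * (M * (vW K s n cs γ)^[2 ^ i] (fun _ => 1) x) := by
        refine lintegral_mono fun x => ?_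
        have h2 : (vW K s n cs γ)^[2 ^ i] f x ≤ M * (vW K s n cs γ)^[2 ^ i] (fun _ => 1) x := by
          have h3 := vW_iter_mono K s n cs γ (2 ^ i) (f := f) (g := fun _ => M * 1)
            (fun y => by simpa using hM y) x
          refine h3.trans (le_of_eq ?_)
          exact congrFun (vW_iter_smul K s n cs γ (2 ^ i) hMt (fun _ => 1)) x
        exact mul_le_mul' (hM x) h2
    _ = M ^ 2 * ∫⁻ x in K, (vW K s n cs γ)^[2 ^ i] (fun _ => 1) x := by
        rw [lintegral_const_mul' _ _ hMt, lintegral_const_mul' _ _ hMt, _root_.sq, mul_assoc]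

theorem vcore_mass {K : Set Plane} (hK : CC K) {τ Λ : ℝ} (hτ : 0 < τ) (hΛ : 0 < Λ) :
    ∃ c r₀ : ℝ, 0 < c ∧ 0 < r₀ ∧ ∀ r : ℝ, 0 < r → r ≤ r₀ → ∀ n : ℕ, 1 ≤ n → 2 * τ * Λ ≤ n →
      ∀ K' ⊆ K, MeasurableSet K' → ∀ f : Plane → ℝ≥0∞, Measurable f →
        ∫⁻ x in K', f x ^ 2 = 1 →
        ENNReal.ofReal (1 - τ / n * Λ) ≤ ∫⁻ x in K', f x * vT K' (τ / n) f x →
        ENNReal.ofReal c ≤ ∫⁻ x in vcore K r, (vT K' (τ / n))^[n] f x := by
  have hKc : IsCompact K := hK.2.1
  have hKv : volume K ≠ ⊤ := hKc.measure_lt_top.ne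
  -- the sup bound
  set B : ℝ := (4 * Real.pi * τ)⁻¹ with hBdef
  have hB : 0 < B := by positivity
  set V : ℝ := (volume K).toReal with hVdef
  have hV : 0 ≤ V := ENNReal.toReal_nonneg
  set C : ℝ := B * Real.sqrt V + 1 with hCdef
  have hC : 0 < C := by positivity
  set c₀ : ℝ := Real.exp (-(4 * τ * Λ)) with hc₀def
  have hc₀ : 0 < c₀ := Real.exp_pos _
  obtain ⟨r₀, hr₀, hvol⟩ := vcore_measure hK (ε := c₀ / (2 * C ^ 2)) (by positivity)
  refine ⟨c₀ / (2 * C), r₀, by positivity, hr₀, ?_⟩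
  intro r hr hrr n hn hnΛ K' hK' hK'm f hf h1 hQ
  have hn0 : (0 : ℝ) < n := by exact_mod_cast hn
  set s : ℝ := τ / n with hsdef
  have hs : 0 < s := by positivity
  have hns : (n : ℝ) * s = τ := by rw [hsdef]; field_simp
  have hsΛ : s * Λ ≤ 1 / 2 := by
    rw [hsdef, div_mul_eq_mul_div, div_le_iff₀ hn0]
    linarith
  set g : Plane → ℝ≥0∞ := (vT K' s)^[n] f with hgdef
  have hg : Measurable g := measurable_vT_iter K' s n hf
  -- the L² mass
  have hmass : ENNReal.ofReal c₀ ≤ ∫⁻ x in K', g x ^ 2 := by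
    have e1 : ∫⁻ x in K', g x ^ 2 = ∫⁻ x in K', f x * (vT K' s)^[2 * n] f x := by
      have e2 : ∫⁻ x in K', f x * (vT K' s)^[n] g x = ∫⁻ x in K', g x * g x :=
        vT_adj_iter K' s n hf hg
      rw [two_mul, Function.iterate_add]
      simp only [Function.comp_apply]
      rw [e2]
      refine lintegral_congr fun x => ?_
      rw [_root_.sq]
    rw [e1]
    refine le_trans ?_ (vT_pow_ge K' hs hf h1 (2 * n))
    have e3 : ENNReal.ofReal (1 - s * Λ) ^ (2 * n) ≤
        (∫⁻ x in K', f x * vT K' s f x) ^ (2 * n) := by gcongr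
    refine le_trans ?_ e3
    rw [← ENNReal.ofReal_pow (by linarith)]
    refine ENNReal.ofReal_le_ofReal ?_
    have e4 : Real.exp (-(2 * (s * Λ))) ≤ 1 - s * Λ := by
      have hx0 : 0 ≤ s * Λ := by positivity
      set x := s * Λ
      -- exp(-2x) ≤ 1/(1+2x) ≤ 1 - x
      have h5 : 1 + 2 * x ≤ Real.exp (2 * x) := by linarith [Real.add_one_le_exp (2 * x)]
      rw [Real.exp_neg]
      calc (Real.exp (2 * x))⁻¹ ≤ (1 + 2 * x)⁻¹ := inv_anti₀ (by linarith) h5
        _ ≤ 1 - x := by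
          rw [inv_le_iff_one_le_mul₀ (by linarith)]
          nlinarith
    calc c₀ = Real.exp (-(2 * (s * Λ))) ^ (2 * n) := by
          rw [← Real.exp_nat_mul, hc₀def]
          congr 1
          push_cast
          rw [← hns]
          ring
      _ ≤ (1 - s * Λ) ^ (2 * n) := by gcongr
  -- the sup bound
  have hsup : ∀ x, g x ≤ ENNReal.ofReal C := by
    intro x
    have a1 : g x ≤ ∫⁻ z in K', vhk (n * s) (x - z) * f z := vT_iter_le K' hs hn hf x
    have a2 : ∫⁻ z in K', vhk (n * s) (x - z) * f z ≤ ENNReal.ofReal B * ∫⁻ z in K', f z := by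
      rw [← lintegral_const_mul _ hf]
      refine lintegral_mono fun z => ?_
      rw [hns]
      exact mul_le_mul' (vhk_le hτ _) le_rfl
    have a3 : (∫⁻ z in K', f z) ^ 2 ≤ volume K := by
      have a4 := vmass_cs (volume.restrict K') (f := fun _ => 1) (g := f)
        aemeasurable_const hf.aemeasurable
      simp only [one_mul, one_pow, h1, mul_one, setLIntegral_one] at a4
      exact a4.trans (measure_mono hK')
    have a5 : ∫⁻ z in K', f z ≤ ENNReal.ofReal (Real.sqrt V) := by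
      have a6 : (∫⁻ z in K', f z) ^ 2 ≤ ENNReal.ofReal (Real.sqrt V) ^ 2 := by
        rw [← ENNReal.ofReal_pow (Real.sqrt_nonneg _), Real.sq_sqrt hV, hVdef,
          ENNReal.ofReal_toReal hKv]
        exact a3
      exact (ENNReal.pow_le_pow_left_iff (n := 2) (by norm_num)).1 a6
    calc g x ≤ ENNReal.ofReal B * ∫⁻ z in K', f z := a1.trans a2
      _ ≤ ENNReal.ofReal B * ENNReal.ofReal (Real.sqrt V) := by gcongr
      _ = ENNReal.ofReal (B * Real.sqrt V) := (ENNReal.ofReal_mul hB.le).symm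
      _ ≤ ENNReal.ofReal C := ENNReal.ofReal_le_ofReal (by rw [hCdef]; linarith)
  -- split
  have hvm : MeasurableSet (vcore K r) := measurableSet_vcore hK r
  have hsplit : ∫⁻ x in K', g x ^ 2 ≤ ENNReal.ofReal C * (∫⁻ x in vcore K r, g x) +
      ENNReal.ofReal (C ^ 2) * volume (K \ vcore K r) := by
    rw [← lintegral_inter_add_sdiff (fun x => g x ^ 2) K' hvm]
    gcongr ?_ + ?_
    · calc ∫⁻ x in K' ∩ vcore K r, g x ^ 2 ≤ ∫⁻ x in K' ∩ vcore K r, ENNReal.ofReal C * g x := by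
            refine lintegral_mono fun x => ?_
            rw [_root_.sq]
            exact mul_le_mul' (hsup x) le_rfl
        _ ≤ ∫⁻ x in vcore K r, ENNReal.ofReal C * g x :=
            lintegral_mono_set Set.inter_subset_right
        _ = _ := lintegral_const_mul _ hg
    · calc ∫⁻ x in K' \ vcore K r, g x ^ 2 ≤ ∫⁻ x in K' \ vcore K r, ENNReal.ofReal (C ^ 2) := by
            refine lintegral_mono fun x => ?_
            rw [ENNReal.ofReal_pow hC.le]
            exact pow_le_pow_left' (hsup x) 2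
        _ = ENNReal.ofReal (C ^ 2) * volume (K' \ vcore K r) := setLIntegral_const _ _
        _ ≤ _ := by
            gcongr
  have hvr := hvol r hr hrr
  have hfin : ENNReal.ofReal c₀ ≤ ENNReal.ofReal C * (∫⁻ x in vcore K r, g x) +
      ENNReal.ofReal (c₀ / 2) := by
    refine (hmass.trans hsplit).trans ?_
    gcongr
    calc ENNReal.ofReal (C ^ 2) * volume (K \ vcore K r)
        ≤ ENNReal.ofReal (C ^ 2) * ENNReal.ofReal (c₀ / (2 * C ^ 2)) := by gcongr
      _ = ENNReal.ofReal (c₀ / 2) := by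
        rw [← ENNReal.ofReal_mul (by positivity)]
        congr 1
        field_simp
  have hfin2 : ENNReal.ofReal (c₀ / 2) ≤ ENNReal.ofReal C * ∫⁻ x in vcore K r, g x := by
    have e5 : ENNReal.ofReal c₀ = ENNReal.ofReal (c₀ / 2) + ENNReal.ofReal (c₀ / 2) := by
      rw [← ENNReal.ofReal_add (by positivity) (by positivity)]
      congr 1
      ring
    rw [e5] at hfin
    exact (ENNReal.add_le_add_iff_right ENNReal.ofReal_ne_top).1 hfin
  have e6 : ENNReal.ofReal (c₀ / (2 * C)) = (ENNReal.ofReal C)⁻¹ * ENNReal.ofReal (c₀ / 2) := by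
    rw [← ENNReal.ofReal_inv_of_pos hC, ← ENNReal.ofReal_mul (by positivity)]
    congr 1
    field_simp
  rw [e6]
  calc (ENNReal.ofReal C)⁻¹ * ENNReal.ofReal (c₀ / 2)
      ≤ (ENNReal.ofReal C)⁻¹ * (ENNReal.ofReal C * ∫⁻ x in vcore K r, g x) := by gcongr
    _ = ∫⁻ x in vcore K r, g x := by
      rw [← mul_assoc, ENNReal.inv_mul_cancel (by simpa using hC) ENNReal.ofReal_ne_top, one_mul]

end Pool.Agent.WSB71
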