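import Pool.Agent.WSB71.VStable

/-!
# V: the variational problem

`var_exists` (VExist.lean), `var_stable` (VStable.lean).
-/
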