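import Pool.Agent.WSB71.VDef

/-!
# V5a: Gaussian moments in the plane (`M2`, `M4`)
-/

open MeasureTheory Filter Topology
open scoped NNReal ENNReal Pointwise

namespace Pool.Agent.WSB71

open Pool.Agent.LT

namespace VU12

open ProbabilityTheory

lemma plane_lint {φ : ℝ → ℝ → ℝ≥0∞} (hφ : Measurable (Function.uncurry φ)) :
    ∫⁻ x : Plane, φ (x 0) (x 1) = ∫⁻ a, ∫⁻ b, φ a b := by
  have hψ : Measurable (fun y : Fin 2 → ℝ => φ (y 0) (y 1)) := by
    have h0 : Measurable (fun y : Fin 2 → ℝ => (y 0, y 1)) :=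
      (measurable_pi_apply 0).prodMk (measurable_pi_apply 1)
    exact hφ.comp h0
  have h1 := (PiLp.volume_preserving_ofLp (Fin 2)).lintegral_comp hψ
  have h2 := (volume_preserving_finTwoArrow ℝ).lintegral_comp hφ
  have h3 : ∫⁻ p : ℝ × ℝ, Function.uncurry φ p = ∫⁻ a, ∫⁻ b, φ a b := by
    rw [Measure.volume_eq_prod, lintegral_prod _ hφ.aemeasurable]
    rfl
  rw [← h3, ← h2]
  exact h1

lemma m2 (v : ℝ≥0) (hv : v ≠ 0) :
    ∫⁻ a, gaussianPDF 0 v a * ENNReal.ofReal (a ^ 2) = v := by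
  have h1 : evariance (fun x : ℝ => x) (gaussianReal 0 v) = v := by
    have h0 : evariance (fun x : ℝ => x) (gaussianReal 0 v) =
        ENNReal.ofReal (Var[fun x => x; gaussianReal 0 v]) :=
      (ofReal_variance (memLp_id_gaussianReal 2)).symm
    rw [h0, variance_fun_id_gaussianReal]
    simp
  unfold evariance at h1
  rw [integral_id_gaussianReal, gaussianReal_of_var_ne_zero _ hv,
    lintegral_withDensity_eq_lintegral_mul _ (measurable_gaussianPDF 0 v) (by fun_prop)] at h1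
  rw [← h1]
  refine lintegral_congr fun a => ?_
  simp only [Pi.mul_apply, sub_zero]
  congr 1
  rw [Real.enorm_eq_ofReal_abs, ← ENNReal.ofReal_pow (abs_nonneg _), sq_abs]

lemma m4 : ∃ C : ℝ, 0 ≤ C ∧ ∀ v : ℝ≥0, v ≠ 0 →
    ∫⁻ a, gaussianPDF 0 v a * ENNReal.ofReal (a ^ 4) = ENNReal.ofReal (C * v ^ 2) := by
  have h1 : ∫⁻ x, ENNReal.ofReal (x ^ 4) ∂gaussianReal 0 1 ≠ ⊤ := by
    have h2 := (memLp_id_gaussianReal (μ := 0) (v := 1) 4).eLpNorm_lt_top
    have h3 := lintegral_rpow_enorm_lt_top_of_eLpNorm_lt_top (by norm_num) (by norm_num) h2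
    refine ne_top_of_le_ne_top h3.ne (lintegral_mono fun x => ?_)
    simp only [id]
    rw [Real.enorm_eq_ofReal_abs]
    have h4 : ((4 : ℝ≥0) : ℝ≥0∞).toReal = ((4 : ℕ) : ℝ) := by norm_num
    rw [h4, ENNReal.rpow_natCast, ← ENNReal.ofReal_pow (abs_nonneg _)]
    refine ENNReal.ofReal_le_ofReal ?_
    have : |x| ^ 4 = x ^ 4 := by
      rw [show (4 : ℕ) = 2 * 2 from rfl, pow_mul, pow_mul, sq_abs]
    rw [this]
  refine ⟨(∫⁻ x, ENNReal.ofReal (x ^ 4) ∂gaussianReal 0 1).toReal, ENNReal.toReal_nonneg, ?_⟩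
  intro v hv
  have h5 : ∫⁻ a, gaussianPDF 0 v a * ENNReal.ofReal (a ^ 4) =
      ∫⁻ x, ENNReal.ofReal (x ^ 4) ∂gaussianReal 0 v := by
    rw [gaussianReal_of_var_ne_zero _ hv,
      lintegral_withDensity_eq_lintegral_mul _ (measurable_gaussianPDF 0 v) (by fun_prop)]
    rfl
  have h6 : gaussianReal 0 v = (gaussianReal 0 1).map (fun x => Real.sqrt v * x) := by
    rw [gaussianReal_map_const_mul]
    congr 1
    · simp
    · ext
      simp
  rw [h5, h6, lintegral_map (by fun_prop) (by fun_prop)]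
  have h7 : ∀ x : ℝ, ENNReal.ofReal ((Real.sqrt v * x) ^ 4) =
      ENNReal.ofReal ((v : ℝ) ^ 2) * ENNReal.ofReal (x ^ 4) := by
    intro x
    rw [← ENNReal.ofReal_mul (by positivity)]
    congr 1
    rw [mul_pow]
    congr 1
    rw [show (4 : ℕ) = 2 * 2 from rfl, pow_mul, Real.sq_sqrt (NNReal.coe_nonneg v)]
  rw [lintegral_congr h7, lintegral_const_mul' _ _ ENNReal.ofReal_ne_top,
    ENNReal.ofReal_mul ENNReal.toReal_nonneg, ENNReal.ofReal_toReal h1, mul_comm]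

/-- The variance. -/
noncomputable def vv (s : ℝ) : ℝ≥0 := (2 * s).toNNReal

lemma vv_ne {s : ℝ} (hs : 0 < s) : vv s ≠ 0 := by
  unfold vv
  rw [Ne, Real.toNNReal_eq_zero, not_le]
  positivity

lemma vv_coe {s : ℝ} (hs : 0 < s) : ((vv s : ℝ≥0) : ℝ) = 2 * s :=
  Real.coe_toNNReal _ (by positivity)

lemma norm_sq' (x : Plane) : ‖x‖ ^ 2 = x 0 ^ 2 + x 1 ^ 2 := by
  rw [EuclideanSpace.real_norm_sq_eq, Fin.sum_univ_two]

lemma vhk_prod {s : ℝ} (hs : 0 < s) (x : Plane) :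
    vhk s x = gaussianPDF 0 (vv s) (x 0) * gaussianPDF 0 (vv s) (x 1) := by
  unfold vhk gaussianPDF gaussianPDFReal
  rw [← ENNReal.ofReal_mul (by positivity), vv_coe hs, norm_sq']
  congr 1
  have e1 : (4 * Real.pi * s)⁻¹ = (Real.sqrt (2 * Real.pi * (2 * s)))⁻¹ *
      (Real.sqrt (2 * Real.pi * (2 * s)))⁻¹ := by
    rw [← mul_inv, Real.mul_self_sqrt (by positivity)]
    congr 1
    ring
  have e2 : Real.exp (-((x 0 ^ 2 + x 1 ^ 2) / (4 * s))) =
      Real.exp (-(x 0 - 0) ^ 2 / (2 * (2 * s))) * Real.exp (-(x 1 - 0) ^ 2 / (2 * (2 * s))) := by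
    rw [← Real.exp_add]
    congr 1
    rw [sub_zero, sub_zero]
    field_simp
    ring
  rw [e1, e2]
  ring

lemma M2 {s : ℝ} (hs : 0 < s) (v : Plane →L[ℝ] ℝ) :
    ∫⁻ h, vhk s h * ENNReal.ofReal ((v h) ^ 2) = ENNReal.ofReal (2 * s * ‖v‖ ^ 2) := by
  obtain ⟨a, ha⟩ : ∃ a : Plane, a = (InnerProductSpace.toDual ℝ Plane).symm v := ⟨_, rfl⟩
  have hv : ∀ h, v h = a 0 * h 0 + a 1 * h 1 := by
    intro h
    have h1 : inner ℝ a h = v h := by
      rw [ha]
      exact InnerProductSpace.toDual_symm_apply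
    rw [← h1, PiLp.inner_apply, Fin.sum_univ_two]
    simp only [RCLike.inner_apply, conj_trivial]
    ring
  have hn : ‖v‖ ^ 2 = a 0 ^ 2 + a 1 ^ 2 := by
    rw [← norm_sq', ha, LinearIsometryEquiv.norm_map]
  obtain ⟨g, hg⟩ : ∃ g : ℝ → ℝ≥0∞, g = gaussianPDF 0 (vv s) := ⟨_, rfl⟩
  have hgm : Measurable g := by rw [hg]; exact measurable_gaussianPDF _ _
  have hg1 : ∫⁻ a, g a = 1 := by rw [hg]; exact lintegral_gaussianPDF_eq_one _ (vv_ne hs)
  have hg2 : ∫⁻ a, g a * ENNReal.ofReal (a ^ 2) = ENNReal.ofReal (2 * s) := by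
    rw [hg, m2 _ (vv_ne hs)]
    unfold vv
    rfl
  have hge : ∀ x, g (-x) = g x := by
    intro x
    rw [hg]
    unfold gaussianPDF gaussianPDFReal
    congr 3
    ring
  have h1 : ∀ a0 a1 : ℝ, ∫⁻ h : Plane, vhk s h * ENNReal.ofReal ((a0 * h 0 + a1 * h 1) ^ 2) =
      ∫⁻ x, ∫⁻ y, g x * g y * ENNReal.ofReal ((a0 * x + a1 * y) ^ 2) := by
    intro a0 a1
    rw [← plane_lint (φ := fun x y => g x * g y * ENNReal.ofReal ((a0 * x + a1 * y) ^ 2))
      (by unfold Function.uncurry; fun_prop)]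
    refine lintegral_congr fun h => ?_
    rw [vhk_prod hs, hg]
  have h2 : ∫⁻ x, ∫⁻ y, g x * g y * ENNReal.ofReal ((a 0 * x + a 1 * y) ^ 2) =
      ∫⁻ x, ∫⁻ y, g x * g y * ENNReal.ofReal ((a 0 * x - a 1 * y) ^ 2) := by
    refine lintegral_congr fun x => ?_
    rw [← lintegral_neg_eq_self]
    refine lintegral_congr fun y => ?_
    rw [hge]
    congr 3
    ring
  have h3 : (∫⁻ x, ∫⁻ y, g x * g y * ENNReal.ofReal ((a 0 * x + a 1 * y) ^ 2)) +
      (∫⁻ x, ∫⁻ y, g x * g y * ENNReal.ofReal ((a 0 * x - a 1 * y) ^ 2)) =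
      2 * ENNReal.ofReal (2 * s * ‖v‖ ^ 2) := by
    rw [← lintegral_add_left (by
      refine Measurable.lintegral_prod_right' (f := fun p : ℝ × ℝ =>
        g p.1 * g p.2 * ENNReal.ofReal ((a 0 * p.1 + a 1 * p.2) ^ 2)) ?_
      fun_prop)]
    have h5 : ∀ x, (∫⁻ y, g x * g y * ENNReal.ofReal ((a 0 * x + a 1 * y) ^ 2)) +
        (∫⁻ y, g x * g y * ENNReal.ofReal ((a 0 * x - a 1 * y) ^ 2)) =
        ENNReal.ofReal (2 * a 0 ^ 2) * (g x * ENNReal.ofReal (x ^ 2)) +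
        ENNReal.ofReal (2 * a 1 ^ 2) * (g x * ENNReal.ofReal (2 * s)) := by
      intro x
      rw [← lintegral_add_left (by fun_prop)]
      have h6 : ∀ y, g x * g y * ENNReal.ofReal ((a 0 * x + a 1 * y) ^ 2) +
          g x * g y * ENNReal.ofReal ((a 0 * x - a 1 * y) ^ 2) =
          ENNReal.ofReal (2 * a 0 ^ 2) * (g x * ENNReal.ofReal (x ^ 2)) * g y +
          ENNReal.ofReal (2 * a 1 ^ 2) * g x * (g y * ENNReal.ofReal (y ^ 2)) := by
        intro y
        have h7 : ENNReal.ofReal ((a 0 * x + a 1 * y) ^ 2) +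
            ENNReal.ofReal ((a 0 * x - a 1 * y) ^ 2) =
            ENNReal.ofReal (2 * a 0 ^ 2) * ENNReal.ofReal (x ^ 2) +
            ENNReal.ofReal (2 * a 1 ^ 2) * ENNReal.ofReal (y ^ 2) := by
          rw [← ENNReal.ofReal_add (by positivity) (by positivity),
            ← ENNReal.ofReal_mul (by positivity), ← ENNReal.ofReal_mul (by positivity),
            ← ENNReal.ofReal_add (by positivity) (by positivity)]
          congr 1
          ring
        rw [← mul_add, h7]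
        ring
      rw [lintegral_congr h6, lintegral_add_left (by fun_prop),
        lintegral_const_mul _ hgm, lintegral_const_mul _ (by fun_prop), hg1, hg2]
      ring
    rw [lintegral_congr h5, lintegral_add_left (by fun_prop),
      lintegral_const_mul _ (by fun_prop), lintegral_const_mul _ (by fun_prop),
      lintegral_mul_const _ hgm, hg1, hg2, one_mul, ← ENNReal.ofReal_mul (by positivity),
      ← ENNReal.ofReal_mul (by positivity), ← ENNReal.ofReal_add (by positivity) (by positivity),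
      hn]
    have h8 : ∀ t : ℝ, (2 : ℝ≥0∞) * ENNReal.ofReal t = ENNReal.ofReal (2 * t) := by
      intro t
      rw [ENNReal.ofReal_mul (by norm_num)]
      norm_num
    rw [h8]
    congr 1
    ring
  have h4 : ∀ u w : ℝ≥0∞, w ≠ ⊤ → u + u = 2 * w → u = w := by
    intro u w hw h
    rw [← two_mul] at h
    exact (ENNReal.mul_right_inj (by norm_num) (by norm_num)).1 h
  rw [lintegral_congr fun h => by rw [hv h], h1]
  refine h4 _ _ ENNReal.ofReal_ne_top ?_
  nth_rewrite 2 [h2]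
  exact h3

lemma M4 : ∃ C : ℝ, 0 ≤ C ∧ ∀ s : ℝ, 0 < s →
    ∫⁻ h, vhk s h * ENNReal.ofReal (‖h‖ ^ 4) ≤ ENNReal.ofReal (C * s ^ 2) := by
  obtain ⟨C, hC, hC4⟩ := m4
  refine ⟨16 * C, by positivity, fun s hs => ?_⟩
  obtain ⟨g, hg⟩ : ∃ g : ℝ → ℝ≥0∞, g = gaussianPDF 0 (vv s) := ⟨_, rfl⟩
  have hgm : Measurable g := by rw [hg]; exact measurable_gaussianPDF _ _
  have hg1 : ∫⁻ a, g a = 1 := by rw [hg]; exact lintegral_gaussianPDF_eq_one _ (vv_ne hs)
  have hg4 : ∫⁻ a, g a * ENNReal.ofReal (a ^ 4) = ENNReal.ofReal (C * (2 * s) ^ 2) := by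
    rw [hg, hC4 _ (vv_ne hs), vv_coe hs]
  have h1 : ∀ h : Plane, vhk s h * ENNReal.ofReal (‖h‖ ^ 4) ≤
      (fun x y => g x * g y * ENNReal.ofReal (2 * x ^ 4 + 2 * y ^ 4)) (h 0) (h 1) := by
    intro h
    simp only
    rw [vhk_prod hs, hg]
    refine mul_le_mul_right (ENNReal.ofReal_le_ofReal ?_) _
    have h2 : ‖h‖ ^ 4 = (‖h‖ ^ 2) ^ 2 := by ring
    rw [h2, norm_sq']
    nlinarith [sq_nonneg (h 0 ^ 2 - h 1 ^ 2)]
  refine (lintegral_mono h1).trans ?_
  rw [plane_lint (φ := fun x y => g x * g y * ENNReal.ofReal (2 * x ^ 4 + 2 * y ^ 4))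
    (by unfold Function.uncurry; fun_prop)]
  have h5 : ∀ x, (∫⁻ y, g x * g y * ENNReal.ofReal (2 * x ^ 4 + 2 * y ^ 4)) =
      2 * (g x * ENNReal.ofReal (x ^ 4)) + 2 * (g x * ENNReal.ofReal (C * (2 * s) ^ 2)) := by
    intro x
    have h6 : ∀ y, g x * g y * ENNReal.ofReal (2 * x ^ 4 + 2 * y ^ 4) =
        2 * (g x * ENNReal.ofReal (x ^ 4)) * g y + 2 * g x * (g y * ENNReal.ofReal (y ^ 4)) := by
      intro y
      have h8 : (2 : ℝ≥0∞) = ENNReal.ofReal 2 := by norm_num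
      rw [ENNReal.ofReal_add (by positivity) (by positivity), ENNReal.ofReal_mul (by norm_num),
        ENNReal.ofReal_mul (by norm_num), ← h8]
      ring
    rw [lintegral_congr h6, lintegral_add_left (by fun_prop),
      lintegral_const_mul _ hgm, lintegral_const_mul _ (by fun_prop), hg1, hg4]
    ring
  rw [lintegral_congr h5, lintegral_add_left (by fun_prop),
    lintegral_const_mul _ (by fun_prop), lintegral_const_mul _ (by fun_prop),
    lintegral_mul_const _ hgm, hg1, hg4, one_mul]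
  have h8 : (2 : ℝ≥0∞) = ENNReal.ofReal 2 := by norm_num
  rw [h8, ← ENNReal.ofReal_mul (by norm_num),
    ← ENNReal.ofReal_add (by positivity) (by positivity)]
  refine ENNReal.ofReal_le_ofReal ?_
  nlinarith

end VU12

end Pool.Agent.WSB71
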