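import Pool.Agent.WSB71.VHeat

/-!
# V5b: differences in `L²` and convolutions
-/

open MeasureTheory Filter Topology
open scoped NNReal ENNReal Pointwise

namespace Pool.Agent.WSB71

open Pool.Agent.LT

namespace VU12

/-- Squared `L²` norm. -/
noncomputable def N2 (u : Plane → ℝ) : ℝ≥0∞ := ∫⁻ x, ENNReal.ofReal (u x ^ 2)

/-- The quadratic form of the heat kernel. -/
noncomputable def QQ (F : Plane → ℝ) (t : ℝ) : ℝ≥0∞ :=
  ∫⁻ x, ENNReal.ofReal (F x) * ∫⁻ z, vhk t (x - z) * ENNReal.ofReal (F z)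

/-- Differences. -/
noncomputable def DD2 (F : Plane → ℝ) (h : Plane) : ℝ≥0∞ :=
  ∫⁻ x, ENNReal.ofReal ((F x - F (x - h)) ^ 2)

lemma measurable_DD2 {F : Plane → ℝ} (hF : Measurable F) : Measurable (DD2 F) := by
  unfold DD2
  refine Measurable.lintegral_prod_right' (f := fun p : Plane × Plane =>
    ENNReal.ofReal ((F p.2 - F (p.2 - p.1)) ^ 2)) ?_
  fun_prop

theorem QQ_DD2 {F : Plane → ℝ} (hF : Measurable F) (hF0 : ∀ x, 0 ≤ F x) {s : ℝ} (hs : 0 < s) :
    2 * QQ F s + ∫⁻ h, vhk s h * DD2 F h = 2 * N2 F := by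
  have hv := measurable_vhk s
  have h1 : QQ F s = ∫⁻ h, vhk s h * ∫⁻ x, ENNReal.ofReal (F x) * ENNReal.ofReal (F (x - h)) := by
    unfold QQ
    have h2 : ∀ x, ∫⁻ z, vhk s (x - z) * ENNReal.ofReal (F z) =
        ∫⁻ h, vhk s h * ENNReal.ofReal (F (x - h)) := by
      intro x
      rw [← lintegral_sub_left_eq_self (fun h => vhk s h * ENNReal.ofReal (F (x - h))) x]
      refine lintegral_congr fun z => ?_
      rw [sub_sub_cancel]
    simp only [h2]
    have h3 : ∀ x, ENNReal.ofReal (F x) * ∫⁻ h, vhk s h * ENNReal.ofReal (F (x - h)) =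
        ∫⁻ h, vhk s h * (ENNReal.ofReal (F x) * ENNReal.ofReal (F (x - h))) := by
      intro x
      rw [← lintegral_const_mul _ (by fun_prop)]
      refine lintegral_congr fun h => ?_
      ring
    simp only [h3]
    rw [lintegral_lintegral_swap (by fun_prop)]
    refine lintegral_congr fun h => ?_
    rw [lintegral_const_mul _ (by fun_prop)]
  have h4 : ∀ h, 2 * (∫⁻ x, ENNReal.ofReal (F x) * ENNReal.ofReal (F (x - h))) + DD2 F h =
      2 * N2 F := by
    intro h
    unfold DD2 N2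
    rw [← lintegral_const_mul _ (by fun_prop), ← lintegral_add_left (by fun_prop)]
    have h5 : ∀ x, 2 * (ENNReal.ofReal (F x) * ENNReal.ofReal (F (x - h))) +
        ENNReal.ofReal ((F x - F (x - h)) ^ 2) =
        ENNReal.ofReal (F x ^ 2) + ENNReal.ofReal (F (x - h) ^ 2) := by
      intro x
      have h8 : ∀ t : ℝ, (2 : ℝ≥0∞) * ENNReal.ofReal t = ENNReal.ofReal (2 * t) := by
        intro t
        rw [ENNReal.ofReal_mul (by norm_num)]
        norm_num
      rw [← ENNReal.ofReal_mul (hF0 x), h8, ← ENNReal.ofReal_add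
        (mul_nonneg (by norm_num) (mul_nonneg (hF0 _) (hF0 _))) (by positivity),
        ← ENNReal.ofReal_add (by positivity) (by positivity)]
      congr 1
      ring
    rw [lintegral_congr h5, lintegral_add_left (by fun_prop),
      lintegral_sub_right_eq_self (fun x => ENNReal.ofReal (F x ^ 2)) h, two_mul]
  have hm : Measurable fun h => ∫⁻ x, ENNReal.ofReal (F x) * ENNReal.ofReal (F (x - h)) := by
    refine Measurable.lintegral_prod_right' (f := fun p : Plane × Plane =>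
      ENNReal.ofReal (F p.2) * ENNReal.ofReal (F (p.2 - p.1))) ?_
    fun_prop
  rw [h1, ← lintegral_const_mul _ (by fun_prop), ← lintegral_add_left (by fun_prop)]
  have h6 : ∀ h, 2 * (vhk s h * ∫⁻ x, ENNReal.ofReal (F x) * ENNReal.ofReal (F (x - h))) +
      vhk s h * DD2 F h = vhk s h * (2 * N2 F) := by
    intro h
    rw [← h4 h]
    ring
  rw [lintegral_congr h6, lintegral_mul_const _ hv, lintegral_vhk hs, one_mul]

/-- Cauchy-Schwarz. -/
lemma cs {α : Type*} [MeasurableSpace α] (μ : Measure α) {a b : α → ℝ≥0∞} (ha : AEMeasurable a μ)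
    (hb : AEMeasurable b μ) : (∫⁻ x, a x * b x ∂μ) ^ 2 ≤ (∫⁻ x, a x ^ 2 ∂μ) * ∫⁻ x, b x ^ 2 ∂μ := by
  have h := ENNReal.lintegral_mul_le_Lp_mul_Lq μ Real.HolderConjugate.two_two ha hb
  have h2 : ∀ u : ℝ≥0∞, (u ^ (1 / (2 : ℝ))) ^ 2 = u := by
    intro u
    rw [← ENNReal.rpow_natCast, ← ENNReal.rpow_mul]
    norm_num
  calc (∫⁻ x, a x * b x ∂μ) ^ 2 ≤ ((∫⁻ x, a x ^ (2 : ℝ) ∂μ) ^ (1 / (2 : ℝ)) *
        (∫⁻ x, b x ^ (2 : ℝ) ∂μ) ^ (1 / (2 : ℝ))) ^ 2 := by
        gcongr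
        exact h
    _ = (∫⁻ x, a x ^ 2 ∂μ) * ∫⁻ x, b x ^ 2 ∂μ := by
        rw [mul_pow, h2, h2]
        congr 1 <;> refine lintegral_congr fun x => ?_
        · rw [← ENNReal.rpow_natCast]; norm_num
        · rw [← ENNReal.rpow_natCast]; norm_num

/-- Jensen. -/
lemma jensen {e : Plane → ℝ≥0∞} (he : Measurable e) (h1 : ∫⁻ y, e y = 1) {u : Plane → ℝ≥0∞}
    (hu : Measurable u) : (∫⁻ y, e y * u y) ^ 2 ≤ ∫⁻ y, e y * u y ^ 2 := by
  have h2 := cs (volume.withDensity e) (a := fun _ => 1) (b := u) (by fun_prop)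
    hu.aemeasurable
  rw [lintegral_withDensity_eq_lintegral_mul _ he (by fun_prop),
    lintegral_withDensity_eq_lintegral_mul _ he (by fun_prop),
    lintegral_withDensity_eq_lintegral_mul _ he (by fun_prop)] at h2
  simp only [Pi.mul_apply, one_mul, one_pow, mul_one] at h2
  rw [h1, one_mul] at h2
  exact h2

/-- The mollification inequality. -/
lemma moll {η : Plane → ℝ} (hη : Measurable η) (h0 : ∀ y, 0 ≤ η y)
    (h1 : ∫⁻ y, ENNReal.ofReal (η y) = 1) {P : Plane → Plane → ℝ}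
    (hP : Measurable (Function.uncurry P)) {G : Plane → ℝ}
    (hG : ∀ x, G x = ∫ y, η y * P x y) :
    N2 G ≤ ∫⁻ y, ENNReal.ofReal (η y) * ∫⁻ x, ENNReal.ofReal (P x y ^ 2) := by
  have hP1 : ∀ x, Measurable (P x) := fun x => hP.comp (measurable_prodMk_left)
  have hP2 : ∀ y, Measurable (fun x => P x y) := fun y => hP.comp (measurable_prodMk_right)
  have h2 : ∀ x, ENNReal.ofReal (G x ^ 2) ≤
      ∫⁻ y, ENNReal.ofReal (η y) * ENNReal.ofReal (P x y ^ 2) := by
    intro x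
    have h3 : ‖G x‖ₑ ≤ ∫⁻ y, ENNReal.ofReal (η y) * ‖P x y‖ₑ := by
      rw [hG x]
      refine (enorm_integral_le_lintegral_enorm _).trans (lintegral_mono fun y => ?_)
      rw [enorm_mul, Real.enorm_of_nonneg (h0 y)]
    have h4 : ∀ t : ℝ, ENNReal.ofReal (t ^ 2) = ‖t‖ₑ ^ 2 := by
      intro t
      rw [Real.enorm_eq_ofReal_abs, ← ENNReal.ofReal_pow (abs_nonneg _), sq_abs]
    calc ENNReal.ofReal (G x ^ 2) = ‖G x‖ₑ ^ 2 := h4 _
      _ ≤ (∫⁻ y, ENNReal.ofReal (η y) * ‖P x y‖ₑ) ^ 2 := by gcongr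
      _ ≤ ∫⁻ y, ENNReal.ofReal (η y) * ‖P x y‖ₑ ^ 2 :=
          jensen (by fun_prop) h1 (hP1 x).enorm
      _ = _ := lintegral_congr fun y => by rw [h4]
  unfold N2
  refine (lintegral_mono h2).trans ?_
  rw [lintegral_lintegral_swap (by
    have : Measurable (Function.uncurry fun x y =>
      ENNReal.ofReal (η y) * ENNReal.ofReal (P x y ^ 2)) := by
      have h5 : Measurable (fun p : Plane × Plane => ENNReal.ofReal (η p.2)) := by fun_prop
      exact h5.mul (ENNReal.measurable_ofReal.comp (hP.pow_const 2))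
    exact this.aemeasurable)]
  refine lintegral_mono fun y => ?_
  rw [lintegral_const_mul _ (by have := hP2 y; fun_prop)]

end VU12

end Pool.Agent.WSB71
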